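import Pool.Agent.VB.HDefs

/-!
# Definitions for the theorems on the characters over imaginary quadratic fields

All fields are subfields of `ℂ`; `k ≤ K`; `extendScalars h` is the field `K` as an extension of `k`, if `h` is the
inclusion `k ≤ K`. The characters `χ` of `Gal(K/k)` have their values in the algebraic closure
`AlgebraicClosure (ZMod p)` of the field with `p` elements. `classNo`, `IsLayer`, `cycExt`, `unramifiedExt` are
defined in `Pool/Agent/VB/HDefs.lean`.
-/

set_option autoImplicit false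

open NumberField IntermediateField

namespace Pool.Agent.MuBr

open Pool.Agent.MuCyc

/-- `k` is an imaginary quadratic field, not `ℚ(i)`, `ℚ(√-3)`. -/
structure ImQuad (k : IntermediateField ℚ ℂ) : Prop where
  deg : Module.finrank ℚ k = 2
  imag : ∃ z ∈ k, (starRingEnd ℂ) z ≠ z
  no_i : ∀ z ∈ k, z ^ 2 ≠ -1
  no_w : ∀ z ∈ k, z ^ 2 ≠ -3

/-- `K / k` is a finite abelian extension of degree prime to `p`. -/
structure Abelian (p : ℕ) {k K : IntermediateField ℚ ℂ} (h : k ≤ K) : Prop where
  fin : FiniteDimensional ℚ K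
  gal : IsGalois k (extendScalars h)
  comm : ∀ σ τ : (extendScalars h) ≃ₐ[k] (extendScalars h), σ * τ = τ * σ
  prime_to : ¬ p ∣ Module.finrank k (extendScalars h)

/-- `f` is in the `χ`-part of the class group of `K Q` modulo `p` (in dual form): `f` is a homomorphism from the
class group of `K Q` to the additive group of the algebraic closure of the field with `p` elements, and
`f (τ a) = χ (s) f (a)` for every automorphism `τ` of `K Q` which is trivial on `Q` and equal to
`s ∈ Gal(K/k)` on `K`. -/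
structure InChiPart (p : ℕ) [Fact p.Prime] {k K : IntermediateField ℚ ℂ} (h : k ≤ K)
    (χ : ((extendScalars h) ≃ₐ[k] (extendScalars h)) →* (AlgebraicClosure (ZMod p))ˣ)
    (Q : IntermediateField ℚ ℂ)
    (f : ClassGroup (𝓞 ↥(K ⊔ Q)) → AlgebraicClosure (ZMod p)) : Prop where
  add : ∀ a b, f (a * b) = f a + f b
  act : ∀ (τ : ↥(K ⊔ Q) ≃+* ↥(K ⊔ Q)) (s : (extendScalars h) ≃ₐ[k] (extendScalars h)),
    (∀ x : ↥(K ⊔ Q), (x : ℂ) ∈ Q → τ x = x) →
    (∀ (x : ↥(K ⊔ Q)) (y : extendScalars h), (x : ℂ) = y →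
      ((τ x : ↥(K ⊔ Q)) : ℂ) = (s y : extendScalars h)) →
    ∀ a, f (ClassGroup.mulEquiv (RingOfIntegers.mapRingEquiv τ) a) =
      (χ s : AlgebraicClosure (ZMod p)) * f a

/-- `μ = 0` for the `χ`-part of the Iwasawa module of the cyclotomic `ℤ_p`-extension of `K`: the
dimensions of the `χ`-parts of the class groups of the layers modulo `p` are bounded by a linear
function of `n` (if `μ > 0` then they grow at least like `p ^ n`). -/
structure MuZeroC (p : ℕ) [Fact p.Prime] {k K : IntermediateField ℚ ℂ} (h : k ≤ K)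
    (χ : ((extendScalars h) ≃ₐ[k] (extendScalars h)) →* (AlgebraicClosure (ZMod p))ˣ) : Prop where
  bound : ∃ C : ℕ, ∀ (n : ℕ) (Q : IntermediateField ℚ ℂ), IsLayer p n Q →
    Module.finrank (AlgebraicClosure (ZMod p))
      (Submodule.span (AlgebraicClosure (ZMod p)) {f | InChiPart p h χ Q f}) ≤ C * (n + 1)

/-- `χ' = χ ω ^ j`, where `ω (s)` is the class modulo `p` of `c` if `s z = z ^ c` for all `p`-th roots
of unity `z` in `K`. -/
structure IsTwist (p : ℕ) [Fact p.Prime] {k K : IntermediateField ℚ ℂ} (h : k ≤ K)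
    (χ χ' : ((extendScalars h) ≃ₐ[k] (extendScalars h)) →* (AlgebraicClosure (ZMod p))ˣ)
    (j : ℕ) : Prop where
  eq : ∀ (s : (extendScalars h) ≃ₐ[k] (extendScalars h)) (c : ℕ),
    (∀ z : extendScalars h, z ^ p = 1 → s z = z ^ c) →
    ((χ' s : (AlgebraicClosure (ZMod p))ˣ) : AlgebraicClosure (ZMod p)) =
      χ s * (c : AlgebraicClosure (ZMod p)) ^ j

/-- `μ = 0` for the cyclotomic `ℤ_p`-extension of `K`, in three forms: a polynomial bound for the
`p`-parts of the class numbers of the layers; `μ = 0` in Iwasawa's growth formula; the cyclotomic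
`ℤ_p`-extension of `K` has only finitely many Galois extensions of degree `p` which are unramified at all
finite primes. -/
structure MuZeroF (p : ℕ) (K : IntermediateField ℚ ℂ) : Prop where
  bound : ∃ C : ℕ, ∀ (n : ℕ) (Q : IntermediateField ℚ ℂ), IsLayer p n Q →
    padicValNat p (classNo (K ⊔ Q)) ≤ C * (n + 1) ^ C
  growth : ∀ μ lam nu : ℝ, (∃ n₀ : ℕ, ∀ n ≥ n₀, ∀ Q : IntermediateField ℚ ℂ, IsLayer p n Q →
    (padicValNat p (classNo (K ⊔ Q)) : ℝ) = μ * (p : ℝ) ^ n + lam * n + nu) → μ = 0
  unram : (unramifiedExt p (cycExt p K)).Finite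

end Pool.Agent.MuBr
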