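import Pool.Agent.OBM.Defs
import Pool.Agent.OBM.Stmt

/-!
# The definitions of the statement and those of the proof
-/

set_option autoImplicit false

open NumberField IntermediateField

namespace Pool.Agent.MuBr

theorem ImQuad.old {k : IntermediateField ℚ ℂ} (h : ImQuad k) : MuCyc.ImQuad k :=
  ⟨h.deg, h.imag, h.no_i, h.no_w⟩

theorem Abelian.old {p : ℕ} {k K : IntermediateField ℚ ℂ} {h : k ≤ K} (H : Abelian p h) :
    MuCyc.Abelian p h :=
  ⟨H.fin, H.gal, H.comm, H.prime_to⟩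

theorem br_twist {p : ℕ} [Fact p.Prime] {k K : IntermediateField ℚ ℂ} {h : k ≤ K}
    {χ χ' : MuCyc.Chr p h} {j : ℕ} (H : MuCyc.IsTwist p h χ χ' j) : IsTwist p h χ χ' j :=
  ⟨H⟩

theorem br_span {p : ℕ} [Fact p.Prime] {k K : IntermediateField ℚ ℂ} (h : k ≤ K)
    (χ : MuCyc.Chr p h) (Q : IntermediateField ℚ ℂ) :
    Submodule.span (AlgebraicClosure (ZMod p)) {f | InChiPart p h χ Q f} =
      MuCyc.chiPart p h χ Q := by
  have h1 : {f | InChiPart p h χ Q f} =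
      ((MuCyc.chiPart p h χ Q : Submodule _ _) :
        Set (ClassGroup (𝓞 ↥(K ⊔ Q)) → AlgebraicClosure (ZMod p))) := by
    ext f
    exact ⟨fun H => ⟨H.add, H.act⟩, fun H => ⟨H.1, H.2⟩⟩
  rw [h1, Submodule.span_eq]

theorem br_mu {p : ℕ} [Fact p.Prime] {k K : IntermediateField ℚ ℂ} {h : k ≤ K}
    {χ : MuCyc.Chr p h} : MuZeroC p h χ ↔ MuCyc.MuZeroC p h χ := by
  constructor
  · rintro ⟨C, H⟩
    exact ⟨C, fun n Q hQ => by rw [← br_span]; exact H n Q hQ⟩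
  · rintro ⟨C, H⟩
    exact ⟨C, fun n Q hQ => by rw [br_span]; exact H n Q hQ⟩

theorem br_muF {p : ℕ} {K : IntermediateField ℚ ℂ} (H : MuCyc.MuZeroF p K) : MuZeroF p K :=
  ⟨H.1, H.2.1, H.2.2⟩

end Pool.Agent.MuBr
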