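import Pool.Agent.VB.HDefs

/-!
# Definitions for the One Branch theorem

All fields are subfields of `ℂ`; `k ≤ K`. The characters of `Gal(K/k)` have their values in an algebraic
closure of the field with `p` elements. `classNo`, `IsLayer`, `cycExt`, `unramifiedExt` are defined in
`Pool/Agent/VB/HDefs.lean`.
-/

set_option autoImplicit false

open NumberField

namespace Pool.Agent.MuCyc

/-- The Galois group of `K / k`. -/
abbrev Gal {k K : IntermediateField ℚ ℂ} (h : k ≤ K) : Type :=
  (IntermediateField.extendScalars h) ≃ₐ[k] (IntermediateField.extendScalars h)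

/-- The characters of `Gal(K/k)` with values in an algebraic closure of the field with `p`
elements. -/
abbrev Chr (p : ℕ) [Fact p.Prime] {k K : IntermediateField ℚ ℂ} (h : k ≤ K) : Type :=
  Gal h →* (AlgebraicClosure (ZMod p))ˣ

/-- The `χ`-part of the class group of `K Q` modulo `p`, in dual form: the space of the
homomorphisms `f` from the class group of `K Q` to (the additive group of) an algebraic closure of
the field with `p` elements such that `f (τ a) = χ (s) f (a)` for every automorphism `τ` of `K Q` which is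
trivial on `Q` and equal to `s ∈ Gal(K/k)` on `K`. -/
noncomputable def chiPart (p : ℕ) [Fact p.Prime] {k K : IntermediateField ℚ ℂ} (h : k ≤ K)
    (χ : Chr p h) (Q : IntermediateField ℚ ℂ) :
    Submodule (AlgebraicClosure (ZMod p))
      (ClassGroup (𝓞 ↥(K ⊔ Q)) → AlgebraicClosure (ZMod p)) where
  carrier := {f | (∀ a b, f (a * b) = f a + f b) ∧
    ∀ (τ : ↥(K ⊔ Q) ≃+* ↥(K ⊔ Q)) (s : Gal h), (∀ x : ↥(K ⊔ Q), (x : ℂ) ∈ Q → τ x = x) →
      (∀ (x : ↥(K ⊔ Q)) (y : IntermediateField.extendScalars h), (x : ℂ) = y →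
        ((τ x : ↥(K ⊔ Q)) : ℂ) = (s y : IntermediateField.extendScalars h)) →
      ∀ a, f (ClassGroup.mulEquiv (RingOfIntegers.mapRingEquiv τ) a) =
        (χ s : AlgebraicClosure (ZMod p)) * f a}
  add_mem' := by
    rintro f g ⟨h1, h2⟩ ⟨h3, h4⟩
    refine ⟨fun a b => ?_, fun τ s hτ hs a => ?_⟩
    · show f (a * b) + g (a * b) = (f a + g a) + (f b + g b)
      rw [h1, h3]
      ring
    · show f _ + g _ = _ * (f a + g a)
      rw [h2 τ s hτ hs, h4 τ s hτ hs]
      ring
  zero_mem' := by
    refine ⟨fun a b => ?_, fun τ s _ _ a => ?_⟩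
    · show (0 : AlgebraicClosure (ZMod p)) = 0 + 0
      rw [add_zero]
    · show (0 : AlgebraicClosure (ZMod p)) = _ * 0
      rw [mul_zero]
  smul_mem' := by
    rintro c f ⟨h1, h2⟩
    refine ⟨fun a b => ?_, fun τ s hτ hs a => ?_⟩
    · show c * f (a * b) = c * f a + c * f b
      rw [h1]
      ring
    · show c * f _ = _ * (c * f a)
      rw [h2 τ s hτ hs]
      ring

/-- `μ = 0` for the `χ`-part of the Iwasawa module of the cyclotomic `ℤ_p`-extension of `K`: the
dimensions of the `χ`-parts of the class groups of the layers modulo `p` are bounded by a linear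
function of `n` (if `μ > 0` then they grow at least like `p ^ n`). -/
def MuZeroC (p : ℕ) [Fact p.Prime] {k K : IntermediateField ℚ ℂ} (h : k ≤ K) (χ : Chr p h) :
    Prop :=
  ∃ C : ℕ, ∀ (n : ℕ) (Q : IntermediateField ℚ ℂ), IsLayer p n Q →
    Module.finrank (AlgebraicClosure (ZMod p)) (chiPart p h χ Q) ≤ C * (n + 1)

/-- `χ' = χ ω ^ j`, where `ω (s)` is the class modulo `p` of `c` if `s z = z ^ c` for all `p`-th roots
of unity `z` in `K`. -/
def IsTwist (p : ℕ) [Fact p.Prime] {k K : IntermediateField ℚ ℂ} (h : k ≤ K) (χ χ' : Chr p h)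
    (j : ℕ) : Prop :=
  ∀ (s : Gal h) (c : ℕ), (∀ z : IntermediateField.extendScalars h, z ^ p = 1 → s z = z ^ c) →
    ((χ' s : (AlgebraicClosure (ZMod p))ˣ) : AlgebraicClosure (ZMod p)) =
      χ s * (c : AlgebraicClosure (ZMod p)) ^ j

/-- `k` is an imaginary quadratic field, not `ℚ(i)`, `ℚ(√-3)`. -/
structure ImQuad (k : IntermediateField ℚ ℂ) : Prop where
  deg : Module.finrank ℚ k = 2
  imag : ∃ z ∈ k, (starRingEnd ℂ) z ≠ z
  no_i : ∀ z ∈ k, z ^ 2 ≠ -1
  no_w : ∀ z ∈ k, z ^ 2 ≠ -3

/-- `K / k` is a finite abelian extension of degree prime to `p`. -/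
structure Abelian (p : ℕ) {k K : IntermediateField ℚ ℂ} (h : k ≤ K) : Prop where
  fin : FiniteDimensional ℚ K
  gal : IsGalois k (IntermediateField.extendScalars h)
  comm : ∀ σ τ : Gal h, σ * τ = τ * σ
  prime_to : ¬ p ∣ Module.finrank k (IntermediateField.extendScalars h)

/-- `μ = 0` for the cyclotomic `ℤ_p`-extension of `K`, in three forms: a polynomial bound for the
`p`-parts of the class numbers of the layers; `μ = 0` in Iwasawa's growth formula; the cyclotomic
`ℤ_p`-extension of `K` has only finitely many Galois extensions of degree `p` which are unramified at all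
finite primes. -/
def MuZeroF (p : ℕ) (K : IntermediateField ℚ ℂ) : Prop :=
  (∃ C : ℕ, ∀ (n : ℕ) (Q : IntermediateField ℚ ℂ), IsLayer p n Q →
      padicValNat p (classNo (K ⊔ Q)) ≤ C * (n + 1) ^ C) ∧
  (∀ μ lam nu : ℝ, (∃ n₀ : ℕ, ∀ n ≥ n₀, ∀ Q : IntermediateField ℚ ℂ, IsLayer p n Q →
      (padicValNat p (classNo (K ⊔ Q)) : ℝ) = μ * (p : ℝ) ^ n + lam * n + nu) → μ = 0) ∧
  (unramifiedExt p (cycExt p K)).Finite

end Pool.Agent.MuCyc
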