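import Pool.Agent.MVF.C019
import Pool.Agent.MVF.C023
import Pool.Agent.MVF.C031
import Pool.Agent.MVF.C033
import Pool.Agent.MVF.C048
import Pool.Agent.MVF.C071
import Pool.Agent.MVF.C072
import Pool.Agent.MVF.C079
import Pool.Agent.OBM.Defs
import Pool.Agent.VB.HDefs

/-! Parts: NS.G_Gth, OB.Defs0, OB.StK, OB.GLib, OB.StQ, OB.StT, OB.StF, OB.StI -/

section

/-!
# NS, block GN, module GTH: THEOREM G (helper6; adapted from helper48's `MUX/N_GTHX.lean`)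
-/

set_option autoImplicit false

namespace Pool.Agent.NSG

open _root_.MU3 Pool.Agent.MU3A Pool.Agent.MU3B Pool.Agent.MU3Q Pool.Agent.MUX Pool.Agent.NS
  Pool.Agent.MUXN Pool.Agent.MuSym OnePoint UpperHalfPlane
open scoped MatrixGroups

noncomputable section

open Pool.Agent.MU3G in
theorem tn_GTH (h1 : Sn_GJ) (h2 : Sg_DSC) (h3 : Sg_ZL) (h4 : Sg_FK) (h5 : Sg_FGG) : Sn_GTH := by
  classical
  intro A B hc J' _ Ψ Θ α₁ Om N' hG V p hp hpV h2V hLoc L' el lam hL kk' hkk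
  by_contra hcon
  push Not at hcon
  have hOm0 : Om ≠ 0 := hL.om0
  obtain ⟨r, h, hh, hfg⟩ := h5 N' hG.pos
  set Pm : Fin r → J' → ℂ := fun l' c => Ψ c ∞
      (mob (h l' 0 0) (h l' 0 1) (h l' 1 0) (h l' 1 1) ∞) / Om with hPm
  -- the space of the period vectors
  let T : (J' → ℂ) →ₗ[ℂ] (Fin r → ℂ) :=
    { toFun := fun y l' => ∑ c, y c * Pm l' c
      map_add' := by
        intro y z
        funext l'
        simp only [Pi.add_apply, add_mul, Finset.sum_add_distrib]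
      map_smul' := by
        intro a y
        funext l'
        simp only [Pi.smul_apply, smul_eq_mul, RingHom.id_apply, Finset.mul_sum, mul_assoc] }
  have hT : ∀ y l', T y l' = ∑ c, y c * Pm l' c := fun y l' => rfl
  set X : Submodule ℂ (Fin r → ℂ) := LinearMap.range T with hX
  have hcol : ∀ c : J', (fun l' => Pm l' c) ∈ X := by
    intro c
    refine ⟨Pi.single c 1, ?_⟩
    funext l'
    rw [hT, Finset.sum_eq_single c]
    · simp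
    · intro c' _ hc'
      simp [Pi.single_eq_of_ne hc']
    · intro hc'
      exact absurd (Finset.mem_univ _) hc'
  obtain ⟨hfk, hfk2⟩ := h4 A B hc
  have hst : ∀ σ : ℂ ≃+* ℂ, (∀ a ∈ (kk A B : Set ℂ), σ a = a) → ∀ x ∈ X,
      (fun i => σ (x i)) ∈ X := by
    intro σ hσ x hx
    obtain ⟨y, rfl⟩ := hx
    have hF : FixK A B σ := (hfk σ).2 hσ
    have hcol' : ∀ c : J', (fun l' => σ (Pm l' c)) ∈ X := by
      intro c
      obtain ⟨j, u, hu⟩ := hG.rat σ hF c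
      have e1 : (fun l' => σ (Pm l' c)) = u • (fun l' => Pm l' j) := by
        funext l'
        simp only [Pi.smul_apply, smul_eq_mul, hPm, hu]
      rw [e1]
      exact X.smul_mem _ (hcol _)
    have e3 : (fun i => σ (T y i)) = ∑ c, (σ (y c)) • (fun l' => σ (Pm l' c)) := by
      funext l'
      rw [hT, map_sum, Finset.sum_apply]
      refine Finset.sum_congr rfl fun c _ => ?_
      simp
    rw [e3]
    exact X.sum_mem fun c _ => X.smul_mem _ (hcol' c)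
  obtain ⟨J, ej, hJ, hJX⟩ := h2 (kk A B : Set ℂ)
    (fun x hx => hfk2 x fun σ hσ => hx σ ((hfk σ).1 hσ)) V r X hst
  have hgj : ∀ j : Fin r, j ∈ J → ∃ y' : J' → ℂ, (∀ l', ∑ c, y' c * Pm l' c = ej j l') ∧
      ∑ c : J', y' c * α₁ c ∈ V := by
    intro j hj
    obtain ⟨hX1, hX2, -⟩ := hJ j hj
    obtain ⟨y, hy⟩ := hX1
    exact h1 A B hc J' Ψ Θ α₁ Om N' hG V p hp hpV h2V hLoc L' el lam hL r h hh hfg (ej j) hX2 y
      (fun l' => by rw [← hy]; rfl)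
  choose! y' hy'1 hy'2 using hgj
  -- the vector `x`
  set x : Fin r → ℂ := T kk' with hx
  have hxnu : ∀ l', x l' ∈ V.nonunits := by
    intro l'
    obtain ⟨m1, m2⟩ := G6c.mem1 (hh l')
    have h6 := hcon (h l' 0 0) (h l' 0 1) (h l' 1 0) (h l' 1 1) (G6c.det_eq (h l')) m1 m2
    have e1 : x l' = (∑ j, kk' j * Ψ j ∞ (mob (h l' 0 0) (h l' 0 1) (h l' 1 0) (h l' 1 1) ∞)) /
        Om := by
      rw [hx, hT, Finset.sum_div]
      refine Finset.sum_congr rfl fun c _ => ?_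
      rw [hPm]
      ring
    rw [e1]
    exact h6
  have hxJ : x = ∑ j ∈ J, x j • ej j := hJX x ⟨kk', rfl⟩
  set yp : J' → ℂ := fun c => kk' c - ∑ j ∈ J, x j * y' j c with hyp
  have hyp0 : ∀ l', ∑ c, yp c * Pm l' c = 0 := by
    intro l'
    have e1 : ∑ c, yp c * Pm l' c = x l' - ∑ j ∈ J, x j * ej j l' := by
      have e2 : ∑ j ∈ J, x j * ej j l' = ∑ c, (∑ j ∈ J, x j * y' j c) * Pm l' c := by
        simp_rw [Finset.sum_mul]
        rw [Finset.sum_comm]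
        refine Finset.sum_congr rfl fun j hj => ?_
        rw [← hy'1 j hj l', Finset.mul_sum]
        refine Finset.sum_congr rfl fun c _ => ?_
        ring
      rw [e2, hx, hT, ← Finset.sum_sub_distrib]
      refine Finset.sum_congr rfl fun c _ => ?_
      rw [hyp]
      ring
    have e3 := congrFun hxJ l'
    rw [Finset.sum_apply] at e3
    simp only [Pi.smul_apply, smul_eq_mul] at e3
    rw [e1, ← e3, sub_self]
  -- the form
  choose α hα using fun j => hG.qexp j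
  set Z : ℍ → ℂ := fun τ => ∑ c : J', yp c * Θ c (τ : ℂ) with hZ
  set z : PowerSeries ℂ := PowerSeries.mk fun n => ∑ c : J', yp c * (α c n / n) with hz
  have hzn : ∀ n, PowerSeries.coeff n z = ∑ c : J', yp c * (α c n / n) :=
    fun n => by rw [hz, PowerSeries.coeff_mk]
  have hsmul : ∀ (γ : SL(2, ℤ)) (τ : ℍ), ((γ • τ : ℍ) : ℂ) =
      (((γ 0 0 : ℤ) : ℂ) * τ + ((γ 0 1 : ℤ) : ℂ)) /
          (((γ 1 0 : ℤ) : ℂ) * τ + ((γ 1 1 : ℤ) : ℂ)) := by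
    intro γ τ
    rw [UpperHalfPlane.specialLinearGroup_apply]
    simp
  have hQS : QS Z z := by
    intro τ
    have hs := (hasSum_sum (s := Finset.univ) fun c (_ : c ∈ (Finset.univ : Finset (J'))) =>
      ((hα c).2.2.2 (τ : ℂ) τ.2).mul_left (yp c))
    have e2 : (fun n : ℕ => PowerSeries.coeff n z * qq τ ^ n) = fun n : ℕ =>
        ∑ c : J', yp c * (α c n / n *
          Complex.exp (2 * Real.pi * Complex.I * (τ : ℂ)) ^ n) := by
      funext n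
      rw [hzn n, qq, Finset.sum_mul]
      refine Finset.sum_congr rfl fun c _ => ?_
      ring
    rw [e2]
    exact hs
  have hcusp : ∀ γ : SL(2, ℤ), ∃ (C : ℂ) (w : ℕ → ℂ), ∀ τ : ℍ, HasSum (fun n : ℕ => w n *
      Complex.exp (2 * Real.pi * Complex.I * (τ : ℂ) / N') ^ (n + 1)) (Z (γ • τ) - C) := by
    intro γ
    choose C W hW using fun c : J' => hG.cusp c (γ 0 0) (γ 0 1) (γ 1 0) (γ 1 1)
      (G6c.det_eq γ)
    refine ⟨∑ c : J', yp c * C c, fun n => ∑ c : J', yp c * W c n, ?_⟩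
    intro τ
    have hs := (hasSum_sum (s := Finset.univ) fun c (_ : c ∈ (Finset.univ : Finset (J'))) =>
      (hW c (τ : ℂ) τ.2).mul_left (yp c))
    have e1 : (fun n : ℕ => (∑ c : J', yp c * W c n) *
        Complex.exp (2 * Real.pi * Complex.I * (τ : ℂ) / N') ^ (n + 1)) = fun n : ℕ =>
        ∑ c : J', yp c * (W c n *
          Complex.exp (2 * Real.pi * Complex.I * (τ : ℂ) / N') ^ (n + 1)) := by
      funext n
      rw [Finset.sum_mul]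
      refine Finset.sum_congr rfl fun c _ => ?_
      ring
    have e2 : Z (γ • τ) - ∑ c : J', yp c * C c = ∑ c : J', yp c *
        (Θ c ((((γ 0 0 : ℤ) : ℂ) * τ + ((γ 0 1 : ℤ) : ℂ)) /
          (((γ 1 0 : ℤ) : ℂ) * τ + ((γ 1 1 : ℤ) : ℂ))) - C c) := by
      rw [hZ]
      beta_reduce
      rw [← Finset.sum_sub_distrib, hsmul]
      refine Finset.sum_congr rfl fun c _ => ?_
      ring
    rw [e1, e2]
    exact hs
  -- the periods
  set ρ : SL(2, ℤ) → ℂ := fun g => ∑ c : J', yp c *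
    (Ψ c ∞ (G6c.mI g) / Om) with hρ
  have hρadd : ∀ g ∈ CongruenceSubgroup.Gamma1 N', ∀ g' ∈ CongruenceSubgroup.Gamma1 N',
      ρ (g * g') = ρ g + ρ g' := by
    intro g hg g' hg'
    rw [hρ]
    beta_reduce
    rw [← Finset.sum_add_distrib]
    refine Finset.sum_congr rfl fun c _ => ?_
    obtain ⟨m1, m2⟩ := G6c.mem1 hg
    have a1 := hG.add c ∞ (G6c.mI g) (G6c.mI (g * g'))
    have a2 := hG.inv c (g 0 0) (g 0 1) (g 1 0) (g 1 1) (G6c.det_eq g) m1 m2 ∞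
      (G6c.mI g')
    rw [← G6c.mI_mul] at a2
    have a3 : mob (g 0 0) (g 0 1) (g 1 0) (g 1 1) ∞ = G6c.mI g := rfl
    rw [a3] at a2
    rw [← a1, a2]
    ring
  have hρ0 : ∀ g ∈ CongruenceSubgroup.Gamma1 N', ρ g = 0 := by
    intro g hg
    have := hfg ρ hρadd ⊥ (fun i => by
      rw [AddSubgroup.mem_bot]
      exact hyp0 i) g hg
    rwa [AddSubgroup.mem_bot] at this
  have hper : ∀ γ ∈ CongruenceSubgroup.Gamma1 N', ∀ τ : ℍ, Z (γ • τ) = Z τ := by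
    intro γ hγ τ
    obtain ⟨m1, m2⟩ := G6c.mem1 hγ
    have e1 : Z (γ • τ) - Z τ = Om * ρ γ := by
      rw [hZ, hρ]
      beta_reduce
      rw [hsmul, ← Finset.sum_sub_distrib, Finset.mul_sum _ _ Om]
      refine Finset.sum_congr rfl fun c _ => ?_
      rw [hG.per c (γ 0 0) (γ 0 1) (γ 1 0) (γ 1 1) (G6c.det_eq γ) m1 m2 (τ : ℂ) τ.2]
      have a3 : mob (γ 0 0) (γ 0 1) (γ 1 0) (γ 1 1) ∞ = G6c.mI γ := rfl
      rw [a3]
      field_simp
      ring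
    rw [hρ0 γ hγ, mul_zero] at e1
    exact sub_eq_zero.1 e1
  have hz0 : z = 0 := h3 N' hG.pos Z z hQS (by rw [hzn]; simp) hcusp hper
  have hc1 := hzn 1
  rw [hz0, map_zero] at hc1
  have e1 : (∑ c : J', yp c * (α c 1 / (1 : ℕ))) = ∑ c : J', yp c * α₁ c := by
    refine Finset.sum_congr rfl fun c _ => ?_
    rw [(hα c).2.2.1]
    simp
  have e2 : ∑ c : J', yp c * α₁ c = ∑ j, kk' j * α₁ j - ∑ j ∈ J, x j * ∑ c : J', y' j c * α₁ c := by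
    have e4 : ∑ c : J', (∑ j ∈ J, x j * y' j c) * α₁ c =
        ∑ j ∈ J, x j * ∑ c : J', y' j c * α₁ c := by
      simp_rw [Finset.sum_mul, Finset.mul_sum]
      rw [Finset.sum_comm]
      refine Finset.sum_congr rfl fun j _ => Finset.sum_congr rfl fun c _ => ?_
      ring
    rw [← e4, ← Finset.sum_sub_distrib]
    refine Finset.sum_congr rfl fun c _ => ?_
    rw [hyp]
    ring
  have e5 : ∑ j, kk' j * α₁ j = ∑ j ∈ J, x j * ∑ c : J', y' j c * α₁ c := by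
    rw [e1, e2] at hc1
    exact (sub_eq_zero.1 hc1.symm)
  apply hkk
  rw [e5]
  exact sum_mem fun j hj => by
    rw [mul_comm]
    exact Pool.Agent.MU3A2.nonunit_mul (hy'2 j hj) (hxnu j)

end

end Pool.Agent.NSG


end

section

/-!
# OB (one branch, every prime `p ≥ 5`): common definitions and final statements of the blocks (helper96, frame of helper59)

`p ≥ 5` prime, `k` imaginary quadratic, not `ℚ(i)`, `ℚ(√-3)`, `P` the prime of `O` below the valuation ring `V` of `ℂ`. ONE frame for the three cases: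
`er = 1`, `p ∉ P²` (split and inert), and `er = 2`, `p ∈ P²` (ramified). `v = V.valuation` (multiplicative; `v x ≤ v p` is the additive `v(x) ≥ 1`).
Levels `m = lvX p f n = f p^(n+1)`, `a = aX p f = 1 + 2 p f`, `R : Reps A B (p * f) ι`. `RF m`, `Reps`, `pt`, `XX`, `cX`, `muX`, `dlX`, `SnX`, `STX`, `PhiI`, `PhiK`, `IsEI`, `TorX` as in
`MUX/DefsX.lean`, `MUX/DefsX2.lean`; `xu`, `yu`, `TTN` as in `NS/DefsN.lean`; `lvR P f n = f P^(2n+1)` as in `NS/DefsR.lean` (the fields `K B_n` are in it if `p` is ramified and `p ∤ [K : k]`).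

* `Pc P`, `gO P f` : the prime-to-`P` parts of `idl p` and of `idl (p f)` (in the split case `Pc P = cjI P`).
* `GoodL V L u e lam` : the lattice `u L` has the Legendre equation `y² = x (x - 1) (x - lam)`, `x(u z) = (℘(z; L) - e)/u²`, `y(u z) = ℘'(z; L)/(2 u³)`, with good reduction.
* `IsTeiP p er P V w` : the Teichmueller character of `(O/P)^*`, `w x ≡ emb x` modulo `P`.

RULE: files in `Pool/Agent/OB` import the original files (`Pool.Agent.MU3`, `MUX`, `NS`, `RI`, ..), never `Pool.Agent.MVF`.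
-/

set_option autoImplicit false

namespace Pool.Agent.OB

open _root_.MU3 _root_.Pool.Agent.MU3A _root_.Pool.Agent.MU3B _root_.Pool.Agent.RI _root_.Pool.Agent.MUX _root_.Pool.Agent.NS OnePoint

noncomputable section

open scoped Classical in
/-- the conjugate of `P` if `p` splits, otherwise `O`: `idl p = P ^ er * Pc P` -/
def Pc {A B : ℤ} (P : Ideal (OO A B)) : Ideal (OO A B) := if cjI P = P then ⊤ else cjI P

/-- the part of `idl (p * f)` which is prime to `P` -/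
def gO {A B : ℤ} (P : Ideal (OO A B)) (f : ℕ) : Ideal (OO A B) := idl f * Pc P

/-- the hypotheses on `p`, `k`, `P`, `V`; `er` is the ramification index -/
structure CaseO (p er : ℕ) (A B : ℤ) (P : Ideal (OO A B)) (V : ValuationSubring ℂ) : Prop where
  cq : CQ A B
  ex3 : absD A B ≠ 3
  ex4 : absD A B ≠ 4
  pp : p.Prime
  p5 : 5 ≤ p
  prime : P.IsPrime
  mem : ((p : ℕ) : OO A B) ∈ P
  ram : (er = 1 ∧ ((p : ℕ) : OO A B) ∉ P ^ 2) ∨ (er = 2 ∧ ((p : ℕ) : OO A B) ∈ P ^ 2)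
  hV : OverI V P

/-- the standing hypotheses -/
structure SetO (p er : ℕ) (A B : ℤ) (P : Ideal (OO A B)) (V : ValuationSubring ℂ) (f : ℕ) : Prop
    extends CaseO p er A B P V where
  f0 : f ≠ 0
  fp : ¬ p ∣ f
  f12 : 12 ∣ f
  fD : 2 * absD A B ∣ ((p * f : ℕ) : ℤ)

lemma SetO.f6 {p er : ℕ} {A B : ℤ} {P : Ideal (OO A B)} {V : ValuationSubring ℂ} {f : ℕ}
    (h : SetO p er A B P V f) : 6 ∣ f ∧ 12 ≤ f :=
  ⟨(by norm_num : 6 ∣ 12).trans h.f12, Nat.le_of_dvd (Nat.pos_of_ne_zero h.f0) h.f12⟩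

lemma CaseO.not_le {p er : ℕ} {A B : ℤ} {P : Ideal (OO A B)} {V : ValuationSubring ℂ}
    (h : CaseO p er A B P V) {m : Ideal (OO A B)} (hm : IsCoprime m P) : ¬ m ≤ P := by
  intro h1
  have h2 := Ideal.isCoprime_iff_sup_eq.1 hm
  rw [sup_eq_right.2 h1] at h2
  exact h.prime.ne_top h2

/-- the lattice `u L` is in Legendre form, with good reduction at `V` -/
structure GoodL (V : ValuationSubring ℂ) (L : PeriodPair) (u e lam : ℂ) : Prop where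
  u0 : u ≠ 0
  eq : ∀ z ∉ L.lattice, (L.derivWeierstrassP z / (2 * u ^ 3)) ^ 2 =
    ((L.weierstrassP z - e) / u ^ 2) * ((L.weierstrassP z - e) / u ^ 2 - 1) *
      ((L.weierstrassP z - e) / u ^ 2 - lam)
  vl : V.valuation lam = 1
  vl1 : V.valuation (1 - lam) = 1

/-- Teichmueller character of `(O/P)^*`, extended by `0` -/
structure IsTeiP {A B : ℤ} (p er : ℕ) (P : Ideal (OO A B)) (V : ValuationSubring ℂ)
    (w : OO A B → ℂ) : Prop where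
  one : w 1 = 1
  mul : ∀ x y, w (x * y) = w x * w y
  per : ∀ x y, x - y ∈ P → w x = w y
  zero : ∀ x ∈ P, w x = 0
  pow : ∀ x ∉ P, w x ^ (nI P - 1) = 1
  cong : ∀ x, V.valuation (w x - emb x) ^ er ≤ V.valuation (p : ℂ)

/-- the field `D` is in the ray class field of its level: `idl (f p^(n+1))` if `er = 1`, `f P^(2n+1)` if `er = 2` -/
def InRF (er : ℕ) {A B : ℤ} (P : Ideal (OO A B)) (p f n : ℕ) (D : IntermediateField ℚ ℂ) : Prop :=
  (∀ y ∈ D, y ∈ RF (idl (A := A) (B := B) (lvX p f n))) ∧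
    (er = 2 → ∀ y ∈ D, y ∈ RF (_root_.Pool.Agent.NSRD.lvR P f n))

/-- the input from block E for one field `D` -/
structure EInpO {A B : ℤ} (p er : ℕ) (P : Ideal (OO A B)) (V : ValuationSubring ℂ) (f : ℕ)
    {ι : Type} (R : Reps A B (p * f) ι) (u : ℂ) (n : ℕ) {D : IntermediateField ℚ ℂ}
    (h : kk A B ≤ D) (C : (letI := algC h; D ≃ₐ[kk A B] D) → ℂ) : Prop where
  ne : C (letI := algC h; 1) ≠ 0
  conj : letI := algC h
    ∀ τ : D ≃ₐ[kk A B] D, ∃ y : D, (y : ℂ) = C 1 ∧ ((τ y : D) : ℂ) = C τ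
  ew : letI := algC h
    ∀ w : OO A B → ℂ, IsTeiP p er P V w → ∀ g : (D ≃ₐ[kk A B] D) → ℤ,
      (∃ y ∈ D, y ^ p = ∏ᶠ τ : D ≃ₐ[kk A B] D, C τ ^ g τ) → ∀ τ' : D ≃ₐ[kk A B] D,
        V.valuation ((∑ᶠ τ : D ≃ₐ[kk A B] D, (g τ : ℂ) *
          TTN R w (lvX p f n) (aX p f) h (τ * τ')) / u) ≤ V.valuation (p : ℂ)

/-! ## Final statements of the blocks -/

/-- (RFIN, block GR, helper60; proofs of helper19) good models of the normalised lattices, with `u², e, lam` in `RF (2)`, and: an automorphism which is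
in the inertia group of `RF m` at `V`, `m` an ideal not contained in `P`, is trivial on `RF m`. -/
def O_RFIN : Prop :=
  ∀ (p er : ℕ) (A B : ℤ) (P : Ideal (OO A B)) (V : ValuationSubring ℂ), CaseO p er A B P V →
    TorX A B →
    (∀ (b : Ideal (OO A B)) (L : PeriodPair) (om : ℂ), IsNL b L om →
      ∃ u e lam : ℂ, GoodL V L u e lam ∧ u ^ 2 ∈ RF (idl (A := A) (B := B) 2) ∧
        e ∈ RF (idl (A := A) (B := B) 2) ∧ lam ∈ RF (idl (A := A) (B := B) 2)) ∧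
    ∀ m : Ideal (OO A B), m ≠ ⊥ → ¬ m ≤ P → ∀ σ : ℂ ≃+* ℂ, FixK A B σ →
      (∀ y ∈ RF m, y ∈ V → σ y - y ∈ V.nonunits) → ∀ y ∈ RF m, σ y = y

/-- (EFIN, block E, helper96) `p`-th powers have a logarithmic derivative divisible by `p`. -/
def O_EFIN : Prop :=
  ∀ (p er : ℕ) (A B : ℤ) (P : Ideal (OO A B)) (V : ValuationSubring ℂ) (f : ℕ),
    SetO p er A B P V f → TorX A B →
    ∀ (ι : Type) [Fintype ι] (R : Reps A B (p * f) ι) (u e lam : ℂ),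
    GoodL V (R.L R.i0) u e lam → ∀ w : OO A B → ℂ, IsTeiP p er P V w →
    ∀ n : ℕ, 1 ≤ n →
    ∀ (H : ι → Finset ℂ), (∀ i, IsHalf (R.L i) (aX p f : ℂ) (H i)) →
    ∀ (D : IntermediateField ℚ ℂ) (h : kk A B ≤ D), InRF er P p f n D →
    letI := algC h
    (∀ τ : D ≃ₐ[kk A B] D, ∃ y : D, (y : ℂ) = cX R (lvX p f n) H h 1 ∧
      ((τ y : D) : ℂ) = cX R (lvX p f n) H h τ) →
    ∀ g : (D ≃ₐ[kk A B] D) → ℤ,
      (∃ y ∈ D, y ^ p = ∏ᶠ τ : D ≃ₐ[kk A B] D, cX R (lvX p f n) H h τ ^ g τ) →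
      ∀ τ' : D ≃ₐ[kk A B] D,
        V.valuation ((∑ᶠ τ : D ≃ₐ[kk A B] D, (g τ : ℂ) *
          TTN R w (lvX p f n) (aX p f) h (τ * τ')) / u) ≤ V.valuation (p : ℂ)

/-- (TYF, helper59) TYPE. -/
def O_TYF : Prop :=
  ∀ (p er : ℕ) (A B : ℤ) (P : Ideal (OO A B)) (V : ValuationSubring ℂ) (f : ℕ),
    SetO p er A B P V f → TorX A B →
    ∀ (ι : Type) [Fintype ι] (R : Reps A B (p * f) ι) (u el lam : ℂ),
    GoodL V (R.L R.i0) u el lam → ∀ w : OO A B → ℂ, IsTeiP p er P V w →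
    ∀ e : OO A B → ℂ, IsEI (idl (A := A) (B := B) (p * f)) e → ∀ r : ℕ, ¬ p ∣ r →
    (∀ x, e x ≠ 0 → e x ^ r = 1) → ∀ i : ℕ,
    (∀ x, x - 1 ∈ gO P f → x ∉ P → e x = w x ^ i) →
    ∀ kk : ι → ℂ, (∀ i, kk i = 0 ∨ kk i ^ r = 1) →
    ∀ kk' : ι → ℂ, (∀ i, kk' i = 0 ∨ kk' i ^ r = 1) →
    ∃ (pi : ℂ) (KI : Subfield ℂ),
      (∀ x y : OnePoint ℚ, ∃ w' ∈ KI, PhiK R e kk x y / (u * R.om R.i0) = pi * w') ∧
      (∀ x y : OnePoint ℚ, ∃ w' ∈ KI, PhiK R e kk' x y / (u * R.om R.i0) = pi * w') ∧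
      (∀ w' ∈ KI, V.valuation w' < 1 → V.valuation w' ^ er ≤ V.valuation (p : ℂ)) ∧
      V.valuation pi ^ (er * (nI P - 1)) * V.valuation (p : ℂ) ^ i = 1

/-- (HFIN, block H, helper51) the character sums, for the types `i` with `er (NP - 1) ≤ i (p - 1)`, `i ≤ NP - 2`. -/
def O_HFIN : Prop :=
  ∀ (p er : ℕ) (A B : ℤ) (P : Ideal (OO A B)) (V : ValuationSubring ℂ) (f : ℕ),
    SetO p er A B P V f → TorX A B →
    ∀ (ι : Type) [Fintype ι] (R : Reps A B (p * f) ι) (u el lam : ℂ),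
    GoodL V (R.L R.i0) u el lam → ∀ w : OO A B → ℂ, IsTeiP p er P V w →
    ∀ e : OO A B → ℂ, IsEI (idl (A := A) (B := B) (p * f)) e → ∀ r : ℕ, ¬ p ∣ r →
    (∀ x, e x ≠ 0 → e x ^ r = 1) → ∀ i : ℕ, er * (nI P - 1) ≤ i * (p - 1) → i ≤ nI P - 2 →
    (∀ x, x - 1 ∈ gO P f → x ∉ P → e x = w x ^ i) →
    ∀ s : ℤ, s = 1 ∨ s = -1 → ∀ kk : ι → ℂ, (∀ i, kk i ^ r = 1) →
    ∀ n₀ : ℕ, ∃ n, n₀ ≤ n ∧
      V.valuation (p : ℂ) < V.valuation ((∑ j ∈ Finset.range 2, (-1) ^ (1 - j) *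
        (STX R (lvX p f n) (p ^ (n + 1)) (aX p f) e kk ((1 + p) ^ j) +
          s * STX R (lvX p f n) (p ^ (n + 1)) (aX p f) e kk (-((1 + p) ^ j)))) / u)

end

end Pool.Agent.OB


end

section

/-!
# OB, block K for one character: the inputs

`InpW` (`MUX/StZX.lean`) is the structure `InpX` of block K without the clause on non-powers; `NSI.I3At` is the body of this
clause for one character `χ` of `Gal(K₀/k)`, one exponent `N` and one level `n`; `I3C` says that it holds at arbitrarily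
large levels, for all `N`. MAINO is the nilpotency of `γ - 1` on the `χ`-part of the class groups modulo `p`, BNDO the
bound for its dimension.
-/

set_option autoImplicit false

open NumberField IsDedekindDomain Finset
open scoped nonZeroDivisors Pointwise

namespace Pool.Agent.OB

open _root_.Pool.Agent.RI _root_.Pool.Agent.RID _root_.Pool.Agent.MU3 _root_.Pool.Agent.MUXK
  _root_.Pool.Agent.MUXZ _root_.Pool.Agent.NSI

/-- The statement on non-powers for one character `χ`: for every `N` there are arbitrarily large levels. -/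
def I3C (F : Type) [Field F] (p : ℕ) (k K₀ : IntermediateField ℚ ℂ)
    (B : ℕ → IntermediateField ℚ ℂ) (hk₀ : ∀ n, k ≤ K₀ ⊔ B n) (hkK : k ≤ K₀) (c₀ : ℕ → ℂ)
    (mem₀ : ∀ n, c₀ n ∈ K₀ ⊔ B n) (χ : letI := algC hkK; (↥K₀ ≃ₐ[k] ↥K₀) →* Fˣ) : Prop :=
  ∀ N n₀ : ℕ, ∃ n, n₀ ≤ n ∧
    I3At F p k K₀ B hkK χ N n (hk₀ n) (c₀ n) (mem₀ n)

/-- `f` is an eigenfunctional for `χ` on the group `J` of ideals of `K₀_n`: additive, zero on principal ideals, and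
`f (δ x) = χ (δ|K₀) f x` for `δ ∈ Gal(K₀_n / k B_n)`. -/
def EigF (F : Type) [Field F] (k K₀ : IntermediateField ℚ ℂ)
    (B : ℕ → IntermediateField ℚ ℂ) (n : ℕ) [FiniteDimensional ℚ ↥(K₀ ⊔ B n)]
    (h : k ≤ K₀ ⊔ B n) (hkK : k ≤ K₀) (χ : letI := algC hkK; (↥K₀ ≃ₐ[k] ↥K₀) →* Fˣ)
    (f : J ↥(K₀ ⊔ B n) → F) : Prop :=
  letI := algC hkK
  letI := algC h
  (∀ x y, f (x * y) = f x + f y) ∧
  (∀ x ∈ (prin : (↥(K₀ ⊔ B n))ˣ →* J ↥(K₀ ⊔ B n)).range, f x = 0) ∧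
  ∀ (δ : NC h (B n)) (s : ↥K₀ ≃ₐ[k] ↥K₀),
    (∀ (x : ↥K₀) (x' : ↥(K₀ ⊔ B n)), (x' : ℂ) = x →
      (((δ : ↥(K₀ ⊔ B n) ≃ₐ[k] ↥(K₀ ⊔ B n)) x' : ↥(K₀ ⊔ B n)) : ℂ) = (s x : ↥K₀)) →
    ∀ x : J ↥(K₀ ⊔ B n), f ((δ : ↥(K₀ ⊔ B n) ≃ₐ[k] ↥(K₀ ⊔ B n)) • x) = (χ s : F) * f x

/-- The space of the eigenfunctionals for `χ`. -/
def EigS (F : Type) [Field F] (k K₀ : IntermediateField ℚ ℂ)
    (B : ℕ → IntermediateField ℚ ℂ) (n : ℕ) [FiniteDimensional ℚ ↥(K₀ ⊔ B n)]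
    (h : k ≤ K₀ ⊔ B n) (hkK : k ≤ K₀) (χ : letI := algC hkK; (↥K₀ ≃ₐ[k] ↥K₀) →* Fˣ) :
    Submodule F (J ↥(K₀ ⊔ B n) → F) where
  carrier := {f | EigF F k K₀ B n h hkK χ f}
  add_mem' := by
    rintro f g ⟨h1, h2, h3⟩ ⟨h1', h2', h3'⟩
    refine ⟨fun x y => ?_, fun x hx => ?_, fun δ s hs x => ?_⟩
    · show f (x * y) + g (x * y) = (f x + g x) + (f y + g y)
      rw [h1, h1']; ring
    · show f x + g x = 0
      rw [h2 x hx, h2' x hx, add_zero]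
    · show f _ + g _ = _ * (f x + g x)
      rw [h3 δ s hs, h3' δ s hs]; ring
  zero_mem' := by
    refine ⟨fun x y => ?_, fun x hx => ?_, fun δ s hs x => ?_⟩
    · show (0 : F) = 0 + 0
      rw [add_zero]
    · rfl
    · show (0 : F) = _ * 0
      rw [mul_zero]
  smul_mem' := by
    rintro a f ⟨h1, h2, h3⟩
    refine ⟨fun x y => ?_, fun x hx => ?_, fun δ s hs x => ?_⟩
    · show a * f (x * y) = a * f x + a * f y
      rw [h1]; ring
    · show a * f x = 0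
      rw [h2 x hx, mul_zero]
    · show a * f _ = _ * (a * f x)
      rw [h3 δ s hs]; ring

/-- The operator `γ - 1` is nilpotent of exponent `l` on the `χ`-parts of all layers. -/
def NilC (F : Type) [Field F] (k K₀ : IntermediateField ℚ ℂ)
    (B : ℕ → IntermediateField ℚ ℂ) [∀ n, FiniteDimensional ℚ ↥(K₀ ⊔ B n)]
    (hk₀ : ∀ n, k ≤ K₀ ⊔ B n) (hkK : k ≤ K₀)
    (χ : letI := algC hkK; (↥K₀ ≃ₐ[k] ↥K₀) →* Fˣ) (l : ℕ) : Prop :=
  ∀ n : ℕ, letI := algC (hk₀ n)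
    ∀ g : ↥(K₀ ⊔ B n) ≃ₐ[k] ↥(K₀ ⊔ B n), (∀ x : ↥(K₀ ⊔ B n), g x = x ↔ (x : ℂ) ∈ K₀) →
    ∀ f : J ↥(K₀ ⊔ B n) → F, EigF F k K₀ B n (hk₀ n) hkK χ f →
    ∀ b : J ↥(K₀ ⊔ B n), f ((_root_.Pool.Agent.RID.dg g)^[l] b) = 0

/-! ## Statements -/

/-- KOLO: the relations for `c₀`. -/
def S_KOLO : Prop := ∀ (p : ℕ) [Fact p.Prime]
    (k K₀ K : IntermediateField ℚ ℂ) (B : ℕ → IntermediateField ℚ ℂ)
    [FiniteDimensional ℚ k] [FiniteDimensional ℚ K] [∀ n, FiniteDimensional ℚ ↥(K ⊔ B n)]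
    [∀ n, FiniteDimensional ℚ ↥(K₀ ⊔ B n)], SetX p k K₀ K B →
    ∃ S' : Finset ℕ, 2 ∈ S' ∧ p ∈ S' ∧ (∀ ℓ ∈ S', ℓ.Prime) ∧
    ∀ (hk : ∀ n, k ≤ K ⊔ B n) (hk₀ : ∀ n, k ≤ K₀ ⊔ B n) (hh : ∀ n, K₀ ⊔ B n ≤ K ⊔ B n)
    (S : Finset ℕ) (c c₀ : ℕ → ℂ) (n₁ : ℕ)
    (hI : InpW p k K₀ K B hk hk₀ S c c₀ n₁)
    (S₁ : Finset ℕ), S ∪ S' ⊆ S₁ → (∀ ℓ ∈ S₁, ℓ.Prime) → ∀ n, n₁ ≤ n →
    letI := algC (hk n)
    letI := algC (hk₀ n)
    letI := algC (hh n)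
    ∀ (g : ↥(K₀ ⊔ B n) ≃ₐ[k] ↥(K₀ ⊔ B n)) (g' : ↥(K ⊔ B n) ≃ₐ[k] ↥(K ⊔ B n)),
    (∀ x : ↥(K ⊔ B n), (x : ℂ) ∈ K → g' x = x) →
    (∀ x : ↥(K₀ ⊔ B n), ((g' ⟨x, hh n x.2⟩ : ↥(K ⊔ B n)) : ℂ) = (g x : ↥(K₀ ⊔ B n))) →
    (∀ v : HeightOneSpectrum (𝓞 ↥(K ⊔ B n)), Above S₁ v → g' • v.asIdeal = v.asIdeal) →
    ∀ u : (𝓞 ↥(K₀ ⊔ B n))ˣ,
    ((u : 𝓞 ↥(K₀ ⊔ B n)) : ↥(K₀ ⊔ B n)) = (g ^ p) ⟨c₀ n, hI.mem₀ n⟩ / ⟨c₀ n, hI.mem₀ n⟩ →
    KRelX p k ↥(K₀ ⊔ B n) ↥(K ⊔ B n) S₁ u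

/-- SU0O: `c₀ n` is a unit outside `S`. -/
def S_SU0O : Prop := ∀ (p : ℕ) [Fact p.Prime]
    (k K₀ K : IntermediateField ℚ ℂ) (B : ℕ → IntermediateField ℚ ℂ)
    [FiniteDimensional ℚ k] [FiniteDimensional ℚ K] [∀ n, FiniteDimensional ℚ ↥(K ⊔ B n)]
    [∀ n, FiniteDimensional ℚ ↥(K₀ ⊔ B n)], SetX p k K₀ K B →
    ∀ (hk : ∀ n, k ≤ K ⊔ B n) (hk₀ : ∀ n, k ≤ K₀ ⊔ B n) (S : Finset ℕ) (c c₀ : ℕ → ℂ) (n₁ : ℕ)
    (hI : InpW p k K₀ K B hk hk₀ S c c₀ n₁), ∀ n, n₁ ≤ n →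
    c₀ n ≠ 0 ∧ SU S ↥(K₀ ⊔ B n) ⟨c₀ n, hI.mem₀ n⟩

/-- I3O: the non-power at all levels `n ≥ m₁`, in the large field, for one character (`m = m₁`). -/
def S_I3O : Prop := ∀ (F : Type) [Field F] (p : ℕ) [Fact p.Prime]
    (k K₀ K : IntermediateField ℚ ℂ) (B : ℕ → IntermediateField ℚ ℂ)
    [FiniteDimensional ℚ k] [FiniteDimensional ℚ K] [∀ n, FiniteDimensional ℚ ↥(K ⊔ B n)]
    [∀ n, FiniteDimensional ℚ ↥(K₀ ⊔ B n)], SetX p k K₀ K B →
    ∀ (hk : ∀ n, k ≤ K ⊔ B n) (hk₀ : ∀ n, k ≤ K₀ ⊔ B n) (hh : ∀ n, K₀ ⊔ B n ≤ K ⊔ B n)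
    (hkK : k ≤ K₀) (S : Finset ℕ) (c c₀ : ℕ → ℂ) (n₁ : ℕ)
    (hI : InpW p k K₀ K B hk hk₀ S c c₀ n₁)
    (χ₀ : letI := algC hkK; (↥K₀ ≃ₐ[k] ↥K₀) →* Fˣ)
    (_ : I3C F p k K₀ B hk₀ hkK c₀ hI.mem₀ χ₀)
    (m₀ : ℕ), ∃ m₁, n₁ ≤ m₁ ∧ ∀ n, m₁ ≤ n →
    letI := algC hkK
    letI := algC (hk₀ n)
    letI := algC (hh n)
    ∀ γ : ↥(K₀ ⊔ B n) ≃ₐ[k] ↥(K₀ ⊔ B n), (∀ x : ↥(K₀ ⊔ B n), γ x = x ↔ (x : ℂ) ∈ K₀) →
    ∀ [Fintype (NC (hk₀ n) (B n))] (u : (𝓞 ↥(K₀ ⊔ B n))ˣ),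
    ((u : 𝓞 ↥(K₀ ⊔ B n)) : ↥(K₀ ⊔ B n)) =
      ((γ ^ (p ^ m₀)) ^ p) ⟨c₀ n, hI.mem₀ n⟩ / ⟨c₀ n, hI.mem₀ n⟩ →
    ∀ χ : NC (hk₀ n) (B n) →* Fˣ,
    (∀ (δ : NC (hk₀ n) (B n)) (s : ↥K₀ ≃ₐ[k] ↥K₀),
      (∀ (x : ↥K₀) (x' : ↥(K₀ ⊔ B n)), (x' : ℂ) = x →
        (((δ : ↥(K₀ ⊔ B n) ≃ₐ[k] ↥(K₀ ⊔ B n)) x' : ↥(K₀ ⊔ B n)) : ℂ) = (s x : ↥K₀)) →
      χ δ = χ₀ s) →
    ∃ θ : F →+ ZMod p, ∀ y : ↥(K ⊔ B n),
      y ^ p ≠ algebraMap ↥(K₀ ⊔ B n) ↥(K ⊔ B n)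
        ((sUnitP p (NC (hk₀ n) (B n)) γ m₁ n χ θ u : 𝓞 ↥(K₀ ⊔ B n)) : ↥(K₀ ⊔ B n))

/-- NILO: the result of section 3 for one eigenfunctional. -/
def S_NILO : Prop := ∀ (p : ℕ) [Fact p.Prime] (F : Type) [Field F] [CharP F p]
    (k L M : Type) [Field k] [NumberField k] [Field L] [NumberField L] [Field M] [NumberField M]
    [Algebra k L] [Algebra L M] [Algebra k M] [IsScalarTower k L M] [IsGalois k L] [IsGalois k M]
    (n m m₀ : ℕ) (γ : L ≃ₐ[k] L) (D : Subgroup (L ≃ₐ[k] L)) [Fintype D], TwP p k L n γ D →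
    m ≤ n →
    ∀ (S : Finset ℕ) (ζ : 𝓞 M), IsPrimitiveRoot ζ (2 * p) → 2 ∈ S → p ∈ S → (∀ ℓ ∈ S, ℓ.Prime) →
    (∀ v : HeightOneSpectrum (𝓞 L), ¬ Above S v → v.asIdeal.ramificationIdx (𝓞 k) = 1) →
    (∀ v : HeightOneSpectrum (𝓞 L), Above S v → γ ^ (p ^ m₀) • v.asIdeal = v.asIdeal) →
    ∀ c : (𝓞 L)ˣ, KRelX p k L M S c →
    ∀ (χ : D →* Fˣ) (θ : F →+ ZMod p), (∀ y : M,
      y ^ p ≠ algebraMap L M ((sUnitP p D γ m n χ θ c : 𝓞 L) : L)) →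
    ∀ f : J L → F, (∀ x y, f (x * y) = f x + f y) →
    (∀ x ∈ (prin : Lˣ →* J L).range, f x = 0) →
    (∀ (δ : D) (x : J L), f ((δ : L ≃ₐ[k] L) • x) = (χ δ : F) * f x) →
    ∀ b : J L,
      f ((_root_.Pool.Agent.RID.dg γ)^[p ^ (max m m₀ + 1) + 1 + Module.finrank L M] b) = 0

/-- MAINO: the operator `γ - 1` is nilpotent on the `χ`-part of the class group of `K₀ B_n` modulo `p`, with an exponent
which does not depend on `n`. -/
def S_MAINO : Prop := ∀ (F : Type) [Field F] (p : ℕ) [Fact p.Prime] [CharP F p]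
    (k K₀ K : IntermediateField ℚ ℂ) (B : ℕ → IntermediateField ℚ ℂ)
    [FiniteDimensional ℚ k] [FiniteDimensional ℚ K] [∀ n, FiniteDimensional ℚ ↥(K ⊔ B n)]
    [∀ n, FiniteDimensional ℚ ↥(K₀ ⊔ B n)], SetX p k K₀ K B →
    ∀ (hk : ∀ n, k ≤ K ⊔ B n) (hk₀ : ∀ n, k ≤ K₀ ⊔ B n)
    (hkK : k ≤ K₀) (S : Finset ℕ) (c c₀ : ℕ → ℂ) (n₁ : ℕ)
    (hI : InpW p k K₀ K B hk hk₀ S c c₀ n₁)
    (χ : letI := algC hkK; (↥K₀ ≃ₐ[k] ↥K₀) →* Fˣ),
    I3C F p k K₀ B hk₀ hkK c₀ hI.mem₀ χ →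
    ∃ l : ℕ, NilC F k K₀ B hk₀ hkK χ l

/-- PIG: from one level, `N = 1` and some branch (depending on the level) to `I3C` for one branch. -/
def S_PIG : Prop := ∀ (F : Type) [Field F] (p : ℕ) [Fact p.Prime]
    (k K₀ K : IntermediateField ℚ ℂ) (B : ℕ → IntermediateField ℚ ℂ)
    [FiniteDimensional ℚ k] [FiniteDimensional ℚ K] [∀ n, FiniteDimensional ℚ ↥(K ⊔ B n)]
    [∀ n, FiniteDimensional ℚ ↥(K₀ ⊔ B n)], SetX p k K₀ K B →
    ∀ (hk : ∀ n, k ≤ K ⊔ B n) (hk₀ : ∀ n, k ≤ K₀ ⊔ B n)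
    (hkK : k ≤ K₀) (S : Finset ℕ) (c c₀ : ℕ → ℂ) (n₁ : ℕ)
    (hI : InpW p k K₀ K B hk hk₀ S c c₀ n₁) (ι : Type) [Finite ι]
    (χ : ι → (letI := algC hkK; (↥K₀ ≃ₐ[k] ↥K₀) →* Fˣ)),
    (∀ n₀ : ℕ, ∃ (i : ι) (n : ℕ), n₀ ≤ n ∧
      I3At F p k K₀ B hkK (χ i) 1 n (hk₀ n) (c₀ n) (hI.mem₀ n)) →
    ∃ i : ι, I3C F p k K₀ B hk₀ hkK c₀ hI.mem₀ (χ i)

/-- BNDO: the dimension of the `χ`-part of the class group of `K₀ B_n` modulo `p` (the space of the eigenfunctionals)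
grows at most linearly in `n`. -/
def S_BNDO : Prop := ∀ (F : Type) [Field F] (p : ℕ) [Fact p.Prime] [CharP F p]
    (k K₀ K : IntermediateField ℚ ℂ) (B : ℕ → IntermediateField ℚ ℂ)
    [FiniteDimensional ℚ k] [FiniteDimensional ℚ K] [∀ n, FiniteDimensional ℚ ↥(K ⊔ B n)]
    [∀ n, FiniteDimensional ℚ ↥(K₀ ⊔ B n)], SetX p k K₀ K B →
    ∀ (hk : ∀ n, k ≤ K ⊔ B n) (hk₀ : ∀ n, k ≤ K₀ ⊔ B n)
    (hkK : k ≤ K₀) (S : Finset ℕ) (c c₀ : ℕ → ℂ) (n₁ : ℕ)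
    (hI : InpW p k K₀ K B hk hk₀ S c c₀ n₁)
    (χ : letI := algC hkK; (↥K₀ ≃ₐ[k] ↥K₀) →* Fˣ),
    I3C F p k K₀ B hk₀ hkK c₀ hI.mem₀ χ →
    ∃ C : ℕ, ∀ n : ℕ, Module.Finite F (EigS F k K₀ B n (hk₀ n) hkK χ) ∧
      Module.finrank F (EigS F k K₀ B n (hk₀ n) hkK χ) ≤ C * (n + 1)

/-- CNJ: conjugate characters. `σ` an automorphism of `ℂ` which maps `K₀`, `k`, `B n` to themselves,
`χ' (σ⁻¹ s σ) = χ s`. -/
def S_CNJ : Prop := ∀ (F : Type) [Field F]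
    (k K₀ : IntermediateField ℚ ℂ) (B : ℕ → IntermediateField ℚ ℂ)
    [∀ n, FiniteDimensional ℚ ↥(K₀ ⊔ B n)] (hk₀ : ∀ n, k ≤ K₀ ⊔ B n) (hkK : k ≤ K₀)
    (χ χ' : letI := algC hkK; (↥K₀ ≃ₐ[k] ↥K₀) →* Fˣ) (σ : ℂ ≃+* ℂ),
    (∀ x, x ∈ K₀ ↔ σ x ∈ K₀) → (∀ x, x ∈ k ↔ σ x ∈ k) → (∀ n x, x ∈ B n ↔ σ x ∈ B n) →
    (letI := algC hkK; ∀ s s' : ↥K₀ ≃ₐ[k] ↥K₀,
      (∀ x x' : ↥K₀, (x' : ℂ) = σ x → ((s x' : ↥K₀) : ℂ) = σ ((s' x : ↥K₀) : ℂ)) → χ' s' = χ s) →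
    ∀ l : ℕ, NilC F k K₀ B hk₀ hkK χ l → NilC F k K₀ B hk₀ hkK χ' l

end Pool.Agent.OB


end

section

/-!
# OB, block GR: elementary facts (helper60)
-/

set_option autoImplicit false

namespace Pool.Agent.OB

open _root_.MU3 Pool.Agent.MU3A Pool.Agent.MU3B Pool.Agent.RI Pool.Agent.MUX Pool.Agent.NS

noncomputable section

section
variable {p er : ℕ} {A B : ℤ} {P : Ideal (OO A B)} {V : ValuationSubring ℂ}

lemma vint (V : ValuationSubring ℂ) (n : ℤ) : V.valuation (n : ℂ) ≤ 1 :=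
  (ValuationSubring.valuation_le_one_iff _ _).2 (intCast_mem V n)

lemma vnat_le (V : ValuationSubring ℂ) (n : ℕ) : V.valuation (n : ℂ) ≤ 1 :=
  (ValuationSubring.valuation_le_one_iff _ _).2 (natCast_mem V n)

lemma vwC (h : CQ A B) (V : ValuationSubring ℂ) : V.valuation (wC A B) ≤ 1 := by
  by_contra hc
  rw [not_le] at hc
  have h1 : V.valuation (wC A B ^ 2) ≤ V.valuation (wC A B) := by
    rw [pow_two, wC_sq h]
    refine (V.valuation.map_add _ _).trans (max_le ((vint V A).trans hc.le) ?_)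
    rw [map_mul]
    calc V.valuation (B : ℂ) * V.valuation (wC A B) ≤ 1 * V.valuation (wC A B) :=
          mul_le_mul_left (vint V B) _
      _ = _ := one_mul _
  rw [map_pow, pow_two] at h1
  have h2 : V.valuation (wC A B) * 1 < V.valuation (wC A B) * V.valuation (wC A B) :=
    mul_lt_mul_of_pos_left hc (zero_lt_one.trans hc)
  rw [mul_one] at h2
  exact absurd h1 (not_le.2 h2)

/-- `O` is in `V` -/
lemma vemb_le (h : CQ A B) (V : ValuationSubring ℂ) (x : OO A B) : V.valuation (emb x) ≤ 1 := by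
  have h1 : emb x = (x.re : ℂ) + (x.im : ℂ) * wC A B := rfl
  rw [h1]
  refine (V.valuation.map_add _ _).trans (max_le (vint V _) ?_)
  rw [map_mul]
  exact mul_le_one' (vint V _) (vwC h V)

lemma CaseO.vemb_lt (h : CaseO p er A B P V) (x : OO A B) : V.valuation (emb x) < 1 ↔ x ∈ P := by
  rw [← ValuationSubring.mem_nonunits_iff]
  exact h.hV x

lemma CaseO.vemb_one (h : CaseO p er A B P V) {x : OO A B} (hx : x ∉ P) :
    V.valuation (emb x) = 1 := by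
  refine le_antisymm (vemb_le h.cq V x) ?_
  rw [← h.vemb_lt, not_lt] at hx
  exact hx

lemma CaseO.vp (h : CaseO p er A B P V) : V.valuation (p : ℂ) < 1 := by
  have h1 := (h.vemb_lt _).2 h.mem
  rwa [emb_natCast h.cq] at h1

/-- natural numbers prime to `p` are units -/
lemma v_nat_unit {p : ℕ} (hp : p.Prime) (hv : V.valuation (p : ℂ) < 1) {n : ℕ} (hn : ¬ p ∣ n) :
    V.valuation (n : ℂ) = 1 := by
  have hco : IsCoprime (n : ℤ) (p : ℤ) := by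
    have h1 : Nat.Coprime n p := ((Nat.Prime.coprime_iff_not_dvd hp).2 hn).symm
    exact_mod_cast Nat.isCoprime_iff_coprime.2 h1
  obtain ⟨a, b, hab⟩ := hco
  have h4 : (a : ℂ) * n = 1 - b * p := by
    have h5 : ((a * (n : ℤ) + b * p : ℤ) : ℂ) = 1 := by rw [hab]; norm_num
    push_cast at h5
    linear_combination h5
  have h6 : V.valuation ((b : ℂ) * p) < 1 := by
    rw [map_mul]
    calc V.valuation (b : ℂ) * V.valuation (p : ℂ) ≤ 1 * V.valuation (p : ℂ) :=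
          mul_le_mul_left (vint V b) _
      _ < 1 := by rw [one_mul]; exact hv
  have h7 : V.valuation (1 - (b : ℂ) * p) = 1 := by
    have := V.valuation.map_sub_eq_of_lt_left (x := 1) (y := (b : ℂ) * p)
      (by rw [map_one]; exact h6)
    rw [this, map_one]
  rw [← h4, map_mul] at h7
  have h8 : V.valuation (n : ℂ) ≤ 1 := vnat_le V n
  refine le_antisymm h8 ?_
  rw [← h7]
  calc V.valuation (a : ℂ) * V.valuation (n : ℂ) ≤ 1 * V.valuation (n : ℂ) :=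
        mul_le_mul_left (vint V a) _
    _ = _ := one_mul _

lemma CaseO.vnat (h : CaseO p er A B P V) {n : ℕ} (hn : ¬ p ∣ n) : V.valuation (n : ℂ) = 1 :=
  v_nat_unit h.pp h.vp hn

lemma CaseO.v2 (h : CaseO p er A B P V) : V.valuation (2 : ℂ) = 1 := by
  have h1 := h.vnat (n := 2) (fun hd => by
    have := Nat.le_of_dvd two_pos hd
    have := h.p5
    omega)
  exact_mod_cast h1

lemma CaseO.v3 (h : CaseO p er A B P V) : V.valuation (3 : ℂ) = 1 := by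
  have h1 := h.vnat (n := 3) (fun hd => by
    have := Nat.le_of_dvd (by norm_num) hd
    have := h.p5
    omega)
  exact_mod_cast h1

lemma CaseO.P0 (h : CaseO p er A B P V) : P ≠ ⊥ := by
  intro h0
  have h1 := h.mem
  rw [h0, Ideal.mem_bot] at h1
  exact natCast_ne_zero' h.cq h.pp.ne_zero h1

lemma CaseO.two (h : CaseO p er A B P V) : ((2 : ℕ) : OO A B) ∉ P := by
  intro h1
  have h2 := (h.vemb_lt _).2 h1
  rw [emb_natCast h.cq] at h2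
  have h3 := h.v2
  rw [Nat.cast_ofNat, h3] at h2
  exact lt_irrefl _ h2

end

/-- points killed by `n` are killed by the ideal `(n)` -/
lemma tor_of_mul {A B : ℤ} (h : CQ A B) {b : Ideal (OO A B)} {L : PeriodPair} {om : ℂ}
    (hL : IsLI b L om) {n : ℕ} {z : ℂ} (hz : (n : ℂ) * z ∈ L.lattice) :
    Tor (idl (A := A) (B := B) n) L z := by
  intro x hx
  obtain ⟨y, rfl⟩ := Ideal.mem_span_singleton.1 hx
  obtain ⟨t, ht, e⟩ := (hL.mem _).1 hz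
  refine (hL.mem _).2 ⟨y * t, b.mul_mem_left _ ht, ?_⟩
  rw [emb_mul h, emb_mul h, emb_natCast h]
  linear_combination (emb y) * e

lemma GoodL.leg {V : ValuationSubring ℂ} {L : PeriodPair} {u e lam : ℂ}
    (h : GoodL V L u e lam) : Pool.Agent.NSR.Leg L u e lam := ⟨h.u0, h.eq⟩

lemma GoodL.unit {V : ValuationSubring ℂ} {L : PeriodPair} {u e lam : ℂ}
    (h : GoodL V L u e lam) : V.valuation lam = 1 ∧ V.valuation (lam - 1) = 1 :=
  ⟨h.vl, by rw [Valuation.map_sub_swap]; exact h.vl1⟩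

end

end Pool.Agent.OB


end

section

/-!
# OB, the corollary for `p = 5` (helper84): quartic fields of mixed signature which contain `√5`

Every `def Sq_X : Prop` is the statement of a module; it is proved as `theorem tq_X (h : Sq_Y) .. : Sq_X` in
`Pool/Agent/OB/Q_X.lean`, namespace `Pool.Agent.OB`, where the `Sq_Y` are the statements named after USES (or fewer).
Files import originals (MU3, MUX, RI, ..), never MVF.

PLAN. `E₀` quartic, `w ∈ E₀`, `w² = 5`, one real and one non-real embedding: `E₀ = ℚ(w, β)`, `β² = a + b w`, `β'² = a - b w`, the product `(a + b w)(a - b w)` is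
negative. `E = E₀(μ_5)`. `k = ℚ(β β')` or `ℚ(w β β')` (two different imaginary quadratic fields, one of them is not `ℚ(i)`, `ℚ(√-3)`), `K₀ = ℚ(β, β', μ_5)`, `σ` an automorphism of `ℂ` with
`σ β = β`, `σ β' = - β'` (QFT). Let `v = (dg g)^[l] b`, `b ∈ J(E B_n)`. If `v` is not a `5`-th power times a principal ideal then there are a character `χ` of `Gal(K₀ B_n / k B_n) = Gal(K₀/k)` and an
eigenfunctional `f` on `J(K₀ B_n)` with `f (ext v) ≠ 0` (EIGX). `χ` is trivial on the automorphisms which are trivial on `E`, and `χ = -1` on the automorphisms which are `ρ` on `E`, `ρ` the automorphism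
of `E/ℚ(μ_5)`, since `b * ρ b` comes from `ℚ(μ_5) B_n`, whose class number is prime to `5` (OCC; REG, CY5, SBF). So `χ (σ⁻¹ s σ) = χ(s) ω(s)²`, and by O_NIL (one of `χ`, `χ ω²` is good) and CNJ both are good, so `f (ext v) = 0` (QRT).
-/

set_option autoImplicit false

open NumberField IsDedekindDomain Finset
open scoped nonZeroDivisors Pointwise

namespace Pool.Agent.OB

open _root_.Pool.Agent.RI _root_.Pool.Agent.RID _root_.Pool.Agent.MU3 _root_.Pool.Agent.MUXK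
  _root_.Pool.Agent.MUXZ _root_.Pool.Agent.NSI

/-- (NIL) THE ONE BRANCH THEOREM in the form of block K. Assembly of helper19 (`o_MAINO`, `Jo_INPO`, ..).

`p ≥ 5`, `k` imaginary quadratic, not `ℚ(i)`, `ℚ(√-3)`, `K₀/k` abelian of degree prime to `p`, `μ_p ⊆ K₀`. For every character `χ` of `Gal(K₀/k)` there is an even `j < p - 1`
such that `γ - 1` is nilpotent, with an exponent which does not depend on the layer, on the `χ'`-parts of the class groups of `K₀ B_n` modulo `p`, `χ' = χ ω^j`. -/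
def O_NIL : Prop := ∀ (p : ℕ) [Fact p.Prime], 5 ≤ p →
    ∀ (k K₀ : IntermediateField ℚ ℂ) (B : ℕ → IntermediateField ℚ ℂ) [FiniteDimensional ℚ k]
    [FiniteDimensional ℚ K₀] [∀ n, FiniteDimensional ℚ ↥(K₀ ⊔ B n)] (hB : BasX p k K₀ B)
    (hk₀ : ∀ n, k ≤ K₀ ⊔ B n) (hkK : k ≤ K₀), Module.finrank ℚ k = 2 →
    (∃ z ∈ k, (starRingEnd ℂ) z ≠ z) → (∀ z ∈ k, z ^ 2 ≠ -1) → (∀ z ∈ k, z ^ 2 ≠ -3) →
    ¬ p ∣ Module.finrank k (IntermediateField.extendScalars hB.hk) →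
    (∃ ω ∈ K₀, IsPrimitiveRoot ω p) →
    ∀ χ : (letI := algC hkK; (↥K₀ ≃ₐ[k] ↥K₀) →* (AlgebraicClosure (ZMod p))ˣ),
    ∃ (j : ℕ) (χ' : (letI := algC hkK; (↥K₀ ≃ₐ[k] ↥K₀) →* (AlgebraicClosure (ZMod p))ˣ)),
      j < p - 1 ∧ Even j ∧
      (letI := algC hkK
        ∀ (s : ↥K₀ ≃ₐ[k] ↥K₀) (c : ℕ), (∀ z : ↥K₀, z ^ p = 1 → s z = z ^ c) →
        ((χ' s : (AlgebraicClosure (ZMod p))ˣ) : AlgebraicClosure (ZMod p)) =
          χ s * (c : AlgebraicClosure (ZMod p)) ^ j) ∧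
      ∃ l : ℕ, NilC (AlgebraicClosure (ZMod p)) k K₀ B hk₀ hkK χ' l

/-! ## The abelian part -/

/-- (CHS) Chevalley's inequality for ambiguous classes, sharp form. Module of helper84. `P_CHEV` of `MU3/StP.lean` with the exponent `a` on the left side. -/
def Sq_CHS : Prop := ∀ (p a : ℕ) [Fact p.Prime] (K L : Type) [Field K] [NumberField K] [Field L]
    [NumberField L] [Algebra K L] (g : L ≃ₐ[K] L), CycExt K K L g (p ^ a) →
    Nat.card (InfinitePlace L) = p ^ a * Nat.card (InfinitePlace K) →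
    ∀ S : Finset (HeightOneSpectrum (𝓞 K)),
    (∀ w : HeightOneSpectrum (𝓞 L), w.asIdeal.ramificationIdx (𝓞 K) ≠ 1 →
      ∃ v ∈ S, w.asIdeal.under (𝓞 K) = v.asIdeal) →
    padicValNat p ((_root_.MU3.PI L).relIndex ((_root_.MU3.PI L).comap (dg g))) + a ≤
      padicValNat p (NumberField.classNumber K) + a * S.card

/-- (REG) a regular prime: the class number of `ℚ(μ_p) B_n` is prime to `p`.

USES CHS, S_GENX. PROOF. `L = C ⊔ B n`, `C = ℚ(μ_p)`. `C/ℚ` is cyclotomic of degree `p - 1` (Mathlib `IsCyclotomicExtension {p} ℚ C`), totally complex (`p ≠ 2`). `[L : ℚ] = (p-1) p^n` (coprime degrees, `B n/ℚ` is Galois of degree `p^n`: `LAY_thm`). GENX (with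
`k = K = C`) gives `g`, `CycExt C C L g (p ^ n)` (as in `MUX/K_FINX.lean`). The infinite places: all are complex, `Nat.card (InfinitePlace L) = [L : ℚ]/2` (or Mathlib `IsUnramifiedAtInfinitePlaces.card_infinitePlace`; `RI.INF_thm`). `S` = the set of the primes of `C` which contain `p`: `N_RAMP` (`MU3.n_RAMP`) as in `K_FINX.lean`;
it has at most one element: `IsCyclotomicExtension.Rat.eq_span_zeta_sub_one_of_liesOver'`. CHS: `v_p(relIndex) + n ≤ 0 + n * 1`, so `v_p(relIndex) = 0` (if `S` is empty or `n = 0`, too). `(dg g)^[p^n] b = y^p` (`MUXK.K_MAINKX.iter_mem`), so `MU3.n_NILR MU3.n_NIL` with `l = p^n` gives `rkp p L ≤ p^n * 0 = 0`: `p` does not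
divide the number of classes killed by `p` (`rkp`, `padicValNat`, the number is not `0`: `CL.finite_quot`); so by Cauchy's theorem (`exists_prime_orderOf_dvd_card'`; the classes killed by `p` form a subgroup) `p` does not divide `Nat.card (J L ⧸ PI L) = classNo L` (`CL.classNumber_eq`, `MUXK.Finx.classNo_eq`). -/
def Sq_REG : Prop := ∀ (p : ℕ) [Fact p.Prime], p ≠ 2 →
    ∀ (C : IntermediateField ℚ ℂ) [FiniteDimensional ℚ C] (B : ℕ → IntermediateField ℚ ℂ)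
    [∀ n, FiniteDimensional ℚ ↥(C ⊔ B n)],
    C = IntermediateField.adjoin ℚ {z : ℂ | z ^ p = 1} → (∀ n, IsLayer p n (B n)) → Monotone B →
    ¬ p ∣ classNo C → ∀ n, ¬ p ∣ classNo (C ⊔ B n)

/-- (CY5) `ℚ(μ_5)` has class number one.

PROOF. `IsCyclotomicExtension {5} ℚ C` (`IntermediateField`, `{z | z^5 = 1}` contains a primitive root), `IsCyclotomicExtension.Rat.five_pid`, `classNumber_eq_one_iff`, `classNo_eq`. Finite dimension: `IsCyclotomicExtension.numberField`. -/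
def Sq_CY5 : Prop := FiniteDimensional ℚ (IntermediateField.adjoin ℚ {z : ℂ | z ^ 5 = 1}) ∧
    classNo (IntermediateField.adjoin ℚ {z : ℂ | z ^ 5 = 1}) = 1

/-- (SBF) if the class number of `M` is prime to `p` and `M/L` is Galois of degree prime to `p`, then every ideal of `L` is a `p`-th power times a principal ideal.

PROOF. `c ∈ J L`, `h = h(M)`: `(ext L M c)^h = prin x` (`CL.classNumber_eq`, `J M ⧸ PI M` has `h` elements), so by `CL.nm_ext`, `CL.nm_prin` and `ext_injective` `c^(h d) = prin (norm x)`, `d = [M : L]`. `p` is prime to `h d`: `1 = u h d + v p`. Module of helper84. -/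
def Sq_SBF : Prop := ∀ (p : ℕ) [Fact p.Prime] (L M : Type) [Field L] [NumberField L] [Field M]
    [NumberField M] [Algebra L M] [IsGalois L M], ¬ p ∣ Module.finrank L M →
    ¬ p ∣ NumberField.classNumber M → ∀ c : J L, ∃ (y : J L) (x : Lˣ), c = y ^ p * prin x

/-- (RAT) `ℚ(μ_5)`.

USES REG, CY5, SBF. Module of helper84. -/
def Sq_RAT : Prop := ∀ (B : ℕ → IntermediateField ℚ ℂ)
    [∀ n, FiniteDimensional ℚ ↥(IntermediateField.adjoin ℚ {z : ℂ | z ^ 5 = 1} ⊔ B n)],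
    (∀ n, IsLayer 5 n (B n)) → Monotone B →
    ∀ (n : ℕ) (c : J ↥(IntermediateField.adjoin ℚ {z : ℂ | z ^ 5 = 1} ⊔ B n)),
    ∃ (y : J ↥(IntermediateField.adjoin ℚ {z : ℂ | z ^ 5 = 1} ⊔ B n))
      (x : (↥(IntermediateField.adjoin ℚ {z : ℂ | z ^ 5 = 1} ⊔ B n))ˣ), c = y ^ 5 * prin x

/-! ## The fields -/

/-- The data: `E = E₀(μ_5)`, `E₀` quartic of mixed signature, `w ∈ E₀`, `w² = 5`, `k` imaginary quadratic, `K₀ ⊇ E, k`, `ρ` the automorphism of `E/ℚ(μ_5)`, `σ`. -/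
structure QD (E k K₀ : IntermediateField ℚ ℂ) (w : ℂ) (ρ : E ≃ₐ[ℚ] E) (σ : ℂ ≃+* ℂ) : Prop where
  kK : k ≤ K₀
  EK : E ≤ K₀
  fin : FiniteDimensional ℚ K₀
  k2 : Module.finrank ℚ k = 2
  im : ∃ z ∈ k, (starRingEnd ℂ) z ≠ z
  n4 : ∀ z ∈ k, z ^ 2 ≠ -1
  n3 : ∀ z ∈ k, z ^ 2 ≠ -3
  galk : IsGalois k (IntermediateField.extendScalars kK)
  abk : ∀ s t : (IntermediateField.extendScalars kK) ≃ₐ[k] (IntermediateField.extendScalars kK),
    s * t = t * s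
  galE : IsGalois E (IntermediateField.extendScalars EK)
  abE : ∀ s t : (IntermediateField.extendScalars EK) ≃ₐ[E] (IntermediateField.extendScalars EK),
    s * t = t * s
  deg : ¬ 5 ∣ Module.finrank ℚ K₀
  w5 : w ^ 2 = 5
  mu : IntermediateField.adjoin ℚ {z : ℂ | z ^ 5 = 1} ≤ E
  /-- `ρ` generates the group of `E/ℚ(μ_5)`, of order `2` -/
  rhr : ∀ x : E, ρ (ρ x) = x
  rhn : ∃ x : E, ρ x ≠ x
  rhf : ∀ x : E, ρ x = x ↔ (x : ℂ) ∈ IntermediateField.adjoin ℚ {z : ℂ | z ^ 5 = 1}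
  sE : ∀ x ∈ E, σ x = x
  sK : ∀ x, x ∈ K₀ ↔ σ x ∈ K₀
  sk : ∀ x, x ∈ k ↔ σ x ∈ k
  /-- the commutator of `s` and `σ` -/
  cm1 : ∀ s : ℂ ≃+* ℂ, (∀ x ∈ k, s x = x) → s w = w → ∀ x ∈ E, σ.symm (s (σ (s.symm x))) = x
  cm2 : ∀ s : ℂ ≃+* ℂ, (∀ x ∈ k, s x = x) → s w = -w → ∀ x : E,
    σ.symm (s (σ (s.symm x))) = ρ x

/-- (QFT) the field theory.

PROOF. `[E₀ : ℚ(w)] = 2` (`w` is not rational), `E₀ = ℚ(w)(β)`, `β² = a + b w =: α`, `a, b ∈ ℚ` (complete the square); let `α' = a - b w`, `β' ∈ ℂ` with `β'² = α'`. `α α' = a² - 5 b² < 0`: there are embeddings `φ₁` (real), `φ₂` (not real) of `E₀`. `φ(w) = ± w`; if `φ₁ w = φ₂ w` then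
`φ₁(β)² = φ₂(β)²` is the same real number, it is `≥ 0` by `φ₁`, so `φ₂(β)` is real and `φ₂` is real (`E₀` is generated by `w, β`; `w = ± √5` is real). So `φ₁(w) = - φ₂(w)`, one of `α`, `α'` is `> 0` (`≠ 0`: `β ∉ ℚ(w)`) and the other is `< 0`. `m = β β'`, `m² = α α' < 0`, `m' = w m`, `m'² = 5 α α' < 0`. `ℚ(m)` and `ℚ(m')` are imaginary
quadratic; if `ℚ(m)` contains a square root of `-1` or `-3` then `ℚ(m')` does not: if `√-1 ∈ ℚ(m)` then `m² = - r²`, `r` rational, `m'² = -5 r²`, and `m'² = - t²` or `- 3 t²` with `t` rational is impossible (`5` and `5/3` are no squares of rationals); if `√-3 ∈ ℚ(m)`: `m² = - 3 r²`, `m'² = -15 r²`,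
`15`, `5` no squares. So choose `k = ℚ(m)` (`κ = 1`) or `ℚ(m')` (`κ = -1`). `E = E₀(μ_5)`, `K₀ = ℚ(β, β', μ_5)`: `w ∈ ℚ(μ_5)` (`w = ± (ζ + ζ⁻¹ - ζ² - ζ⁻²)`), so `K₀` contains `E`, `k`; it is the splitting field over `ℚ` of `((X² - a)² - 5 b²)(X^5 - 1)`, so Galois over `ℚ`, `[K₀ : ℚ]` divides `16` (tower of square roots over `ℚ(μ_5)`, of degree `4`).
So `K₀/k`, `K₀/E` are Galois. Every automorphism `s` of `ℂ` has: `s w = w`, `s β = e β`, `s β' = e' β'`, or `s w = - w`, `s β = e β'`, `s β' = e' β`, with `e, e' = ± 1`; if `s` fixes `k` then `e' = e` in the first case, `e' = κ e` in the second. So the automorphisms of `K₀/k` commute on `β`, `β'`, and on `μ_5` (powers): `abk`. `abE`: an automorphism over `E` is determined by `s β' = ± β'`.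
`β ∉ ℚ(μ_5)`: `ℚ(μ_5)/ℚ` is abelian, so `ℚ(β) = E₀` would be Galois over `ℚ`, but it has a real and a non-real embedding. So `[E : ℚ(μ_5)] = 2`, `ρ β = - β`, `ρ = 1` on `ℚ(μ_5)`. `β' ∉ E`: `β' ∈ E = ℚ(μ_5)(β)` would give `β' = u + v β`, `u, v ∈ ℚ(μ_5)`, `β'² ∈ ℚ(w)`, so `u v = 0`; `β' = u ∈ ℚ(μ_5)` is excluded as for `β` (`ℚ(β')` is conjugate to `ℚ(β)`); `β' = v β`: `m = β β' = v α ∈ ℚ(μ_5)`, so
`ℚ(m)`, an imaginary quadratic field, is contained in `ℚ(μ_5)`, whose only quadratic subfield is the real field `ℚ(w)`: impossible. `σ`: the automorphism of `K₀` over `E` with `σ β' = - β'`, extended to `ℂ` (`MUXU.u_AUE`). `sk`: `σ m = - m`. `cm1`, `cm2` on `β` and `μ_5` (they generate `E`; all automorphisms commute on `μ_5`, `ρ = 1` there). `cm1`: `s⁻¹ β = e β`, `σ`: `e β`, `s`: `e² β`.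
`cm2`: `s β' = e' β`, so `s⁻¹ β = e' β'`, `σ`: `- e' β'`, `s`: `- e' e' β = - β`, `σ⁻¹ (-β) = -β = ρ β`. -/
def Sq_QFT : Prop := ∀ (E₀ : IntermediateField ℚ ℂ), Module.finrank ℚ E₀ = 4 → ∀ w ∈ E₀,
    w ^ 2 = 5 → (∃ φ : E₀ →+* ℂ, ∀ x, (starRingEnd ℂ) (φ x) = φ x) →
    (∃ φ : E₀ →+* ℂ, ∃ x, (starRingEnd ℂ) (φ x) ≠ φ x) →
    ∃ (E k K₀ : IntermediateField ℚ ℂ) (ρ : E ≃ₐ[ℚ] E) (σ : ℂ ≃+* ℂ),
      E = E₀ ⊔ IntermediateField.adjoin ℚ {z : ℂ | z ^ 5 = 1} ∧ QD E k K₀ w ρ σ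

/-- (BAX) `BasX` from coprime degrees.

PROOF. `deg`: `[K : ℚ]` and `[B n : ℚ] = p^n` are coprime. (`MU3/N_GAL.lean`, `MUX/J_*`: search for `deg`.) -/
def Sq_BAX : Prop := ∀ (p : ℕ) [Fact p.Prime] (k K : IntermediateField ℚ ℂ)
    (B : ℕ → IntermediateField ℚ ℂ) [FiniteDimensional ℚ K] (hk : k ≤ K),
    IsGalois k (IntermediateField.extendScalars hk) →
    (∀ σ τ : (IntermediateField.extendScalars hk) ≃ₐ[k] (IntermediateField.extendScalars hk),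
      σ * τ = τ * σ) → ¬ p ∣ Module.finrank ℚ K → (∀ n, IsLayer p n (B n)) → Monotone B →
    BasX p k K B

/-! ## Descent -/

/-- (DSC) descent from `K₀` to `E ≤ K₀` (`E` need not contain `k`). Module of helper84.

PROOF. Let `g` be an automorphism of `E B_n` which fixes exactly `E`; LFX (for `E ≤ E ≤ K₀`) gives `g'` on `K₀ B_n`, trivial on `K₀`, `g' = g` on `E B_n`; it has order `≥ p^n`, so it fixes exactly `K₀`. Let `b ∈ J(E B_n)`, `v = (dg g)^[l] b`, suppose `v ∉ P` (`P` = `p`-th powers times principal ideals), then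
`ext v ∉ P` (norm, `[K₀ : E]` is prime to `p`). EIGX on `J(K₀ B_n)` with `D = NC (B n)`: `χ`, `f`, `f (ext v) ≠ 0`. `ext v = (dg g')^[l] (ext b)`. If `χ ∈ X`: `NilC`. Otherwise the last hypothesis (for the ideal `v`). So `v ∈ P`, FINX. -/
def Sq_DSC : Prop := ∀ (F : Type) [Field F] [IsAlgClosed F] (p : ℕ) [Fact p.Prime] [CharP F p]
    (k K₀ E : IntermediateField ℚ ℂ) (B : ℕ → IntermediateField ℚ ℂ) [FiniteDimensional ℚ k]
    [FiniteDimensional ℚ K₀] [∀ n, FiniteDimensional ℚ ↥(K₀ ⊔ B n)]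
    [∀ n, FiniteDimensional ℚ ↥(E ⊔ B n)] (hB : BasX p k K₀ B) (hE : BasX p E K₀ B) (_ : BasX p E E B),
    ¬ p ∣ Module.finrank k (IntermediateField.extendScalars hB.hk) →
    ¬ p ∣ Module.finrank E (IntermediateField.extendScalars hE.hk) →
    ∀ (hk₀ : ∀ n, k ≤ K₀ ⊔ B n) (hkK : k ≤ K₀) (hEB : ∀ n, E ⊔ B n ≤ K₀ ⊔ B n) (l : ℕ)
    (X : Set (letI := algC hkK; (↥K₀ ≃ₐ[k] ↥K₀) →* Fˣ)),
    (∀ χ ∈ X, NilC F k K₀ B hk₀ hkK χ l) →
    (∀ n, ∀ χ ∉ X, ∀ f : J ↥(K₀ ⊔ B n) → F, EigF F k K₀ B n (hk₀ n) hkK χ f →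
      ∀ b : J ↥(E ⊔ B n), letI := algC (hEB n)
        f (_root_.Pool.Agent.RI.ext ↥(E ⊔ B n) ↥(K₀ ⊔ B n) b) = 0) →
    ∃ C : ℕ, ∀ n, padicValNat p (classNo (E ⊔ B n)) ≤ C * (n + 1) ^ 2

/-- (OCC) the characters which occur. Module of helper84.

USES RAT. PROOF. `a` lifts to `δ ∈ NC (B n)` (`I3X19.restr`). `a` trivial on `E`: `δ` is trivial on `E B_n`, `δ (ext b) = ext b`. `a = ρ` on `E`: `δ` restricts to an automorphism `ρ'` of `L = E B_n` which is trivial on `C B_n`, `C = ℚ(μ_5)`, `ρ' ≠ 1`, `L/(C B_n)` is Galois with group `{1, ρ'}`, `b * ρ' b = nm b = ext c` (`CL.nm_mem`), `c ∈ J(C B_n)`,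
`c = y^5 prin x` (RAT), so `f (ext b) + f (ext (ρ' b)) = 0`, and `ext (ρ' b) = δ (ext b)`. -/
def Sq_OCC : Prop := ∀ (E k K₀ : IntermediateField ℚ ℂ) (w : ℂ) (ρ : E ≃ₐ[ℚ] E) (σ : ℂ ≃+* ℂ),
    QD E k K₀ w ρ σ → ∀ (B : ℕ → IntermediateField ℚ ℂ) [∀ n, FiniteDimensional ℚ ↥(K₀ ⊔ B n)]
    [∀ n, FiniteDimensional ℚ ↥(E ⊔ B n)] (F : Type) [Field F] [CharP F 5],
    (∀ n, IsLayer 5 n (B n)) → Monotone B →
    ∀ (n : ℕ) (hk₀ : k ≤ K₀ ⊔ B n) (hkK : k ≤ K₀) (hEB : E ⊔ B n ≤ K₀ ⊔ B n)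
    (χ : (letI := algC hkK; (↥K₀ ≃ₐ[k] ↥K₀) →* Fˣ)) (f : J ↥(K₀ ⊔ B n) → F),
    EigF F k K₀ B n hk₀ hkK χ f → ∀ b : J ↥(E ⊔ B n),
    (letI := algC hEB; f (_root_.Pool.Agent.RI.ext ↥(E ⊔ B n) ↥(K₀ ⊔ B n) b) ≠ 0) →
    letI := algC hkK
    (∀ a : ↥K₀ ≃ₐ[k] ↥K₀, (∀ x : ↥K₀, (x : ℂ) ∈ E → a x = x) → χ a = 1) ∧
    (∀ a : ↥K₀ ≃ₐ[k] ↥K₀, (∀ (x : ↥K₀) (y : E), (x : ℂ) = y → ((a x : ↥K₀) : ℂ) = ρ y) →
      ((χ a : Fˣ) : F) = -1)

/-- (QRT) the class numbers of `E B_n`, `E = E₀(μ_5)`. Module of helper84.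

USES O_NIL, QFT, BAX, DSC, OCC, CNJ. -/
def Sq_QRT : Prop := ∀ (E k K₀ : IntermediateField ℚ ℂ) (w : ℂ) (ρ : E ≃ₐ[ℚ] E) (σ : ℂ ≃+* ℂ),
    QD E k K₀ w ρ σ →
    ∀ B : ℕ → IntermediateField ℚ ℂ, (∀ n, IsLayer 5 n (B n)) → Monotone B →
    ∃ C : ℕ, ∀ n, padicValNat 5 (classNo (E ⊔ B n)) ≤ C * (n + 1) ^ 2

/-- (QFN) THE COROLLARY: quartic fields of mixed signature which contain `√5`. Module of helper84.

USES QRT, QFT, `VB.v_FNP`, `VB.v_RED` (as `VB/HThird.lean`). -/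
def Sq_QFN : Prop := ∀ (E₀ : IntermediateField ℚ ℂ), Module.finrank ℚ E₀ = 4 →
    (∃ w ∈ E₀, w ^ 2 = 5) →
    (∃ φ : E₀ →+* ℂ, ∀ x, (starRingEnd ℂ) (φ x) = φ x) →
    (∃ φ : E₀ →+* ℂ, ∃ x, (starRingEnd ℂ) (φ x) ≠ φ x) →
    (∃ C : ℕ, ∀ (n : ℕ) (Q : IntermediateField ℚ ℂ), IsLayer 5 n Q →
      padicValNat 5 (classNo (E₀ ⊔ Q)) ≤ C * (n + 1) ^ 2) ∧
    (_root_.Pool.Agent.MuCyc.unramifiedExt 5 (_root_.Pool.Agent.MuCyc.cycExt 5 E₀)).Finite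

end Pool.Agent.OB


end

section

/-!
# OB, block T: TYPES, every prime `p ≥ 5` (helper59), after helper4's `NS/StTN.lean` (3 inert) and helper87's `NS/StTR.lean` (3 ramified)

`SetO p er A B P V f`, `er = 1` (`p` not in `P²`: split or inert) or `er = 2` (ramified), `q = nI P` the number of elements of `O/P`, `v = V.valuation` (multiplicative). `L_i = R.L i`,
`om_i = R.om i`, `mu_i = muX R i`, `Pc P` = the conjugate of `P` if `p` splits, `O` otherwise; `idl p = Pc P * P^er`. `σ` an automorphism of `ℂ / k` in the inertia group at `V` of a large Galois extension `F / k`.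
RESULT (`O_TYF` of `Defs0.lean`): all values `PhiK R e kk x y / (u om_0)` are `pi` times elements of the inertia field of `F`; on the inertia field `v w < 1` implies `(v w)^er ≤ v p`, and `v(pi)^(er (q - 1)) v(p)^i = 1`.

IDEA. Let `m = p^(j+1) m'`, `p ∤ m'`, `g = idl m' * (Pc P)^(j+1)`, the part of `idl m` prime to `P`. `σ` is trivial on `RF g` (`O_RFIN`), so it acts on the points of level `m` of every `L_i` as `d_i c`, `c ∈ O`, `c ≡ 1` modulo `g`,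
`d_i = ±1` (ACG). `σ u = d_0 u` (SGU), `σ mu_i = d_0 d_i mu_i` (SGM), `e(c) σ(P_i/om_i) = d_i P_i/om_i` (VAL), so `e(c) σ(P_i/(u om_0)) = P_i/(u om_0)` (VAK), and `e(c) = w(c)^i` (TYPE).
`tau = Σ w(x)⁻¹ ru(x Y)`, `Y` a point of `L_0[P]`: `σ tau = w(c) tau`, `v(tau)^(er (q-1)) = v p` (TAU). So `tau^i P_i/(u om_0)` is fixed by the inertia group.

Every statement is a `def So_X : Prop`; the module OBT_X proves `theorem o_X (h : ..) .. : So_X` in `Pool/Agent/OB/T_X.lean`, namespace `Pool.Agent.OBT` (private lemmas in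
`Pool.Agent.OBT.X`), with the statements named under USES as hypotheses (fewer is fine). The MODEL is the file named; copy it and replace `3` by `p`. Unconditional and usable: everything proved in the folders MU3, MUX, NS
(`NS/TAll.lean`, `NS/TR_X.lean`, `NS/RN_ALL.lean`, ..).
-/

set_option autoImplicit false

namespace Pool.Agent.OBT

open _root_.MU3 Pool.Agent.MU3A Pool.Agent.MU3B Pool.Agent.RI Pool.Agent.MUX Pool.Agent.MUXU
open OnePoint Pool.Agent.NS Pool.Agent.OB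
open Pool.Agent.MUXV (GR InK)
open Pool.Agent.NSE (su ru)
open Pool.Agent.NST (KIn ActT)
open Pool.Agent.MUXY (ActN Dn)

noncomputable section

/-- the points of `L[P]` different from `0` -/
def EP {A B : ℤ} (P : Ideal (OO A B)) (L : PeriodPair) : Set ℂ :=
  {Y | (∀ x ∈ P, emb x * Y ∈ L.lattice) ∧ Y ∉ L.lattice}

/-- (RTU) roots of unity of order prime to `p` are determined by their residues.

MODEL: `nt_RTU` (`NS/T_RTU.lean`), with a prime number `p` instead of `3`. -/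
def So_RTU : Prop :=
  ∀ (p : ℕ), p.Prime → ∀ (V : ValuationSubring ℂ), V.valuation (p : ℂ) < 1 → ∀ r : ℕ, ¬ p ∣ r →
    (∀ z z' : ℂ, z ^ r = 1 → z' ^ r = 1 → V.valuation (z' - z) < 1 → z' = z) ∧
    ∀ σ : ℂ ≃+* ℂ, (∀ z : ℂ, z ^ r = 1 → V.valuation (σ z - z) < 1) →
      ∀ z : ℂ, (z = 0 ∨ z ^ r = 1) → σ z = z

/-- (BAS) elementary facts on `P` and `V`.

PROOF. `p ∈ P` and (`OverI`) `v p < 1`; integers prime to `p` are units at `V` (Bezout; `emb n = n`). All `emb x`, `x ∈ O`, are integral over `ℤ`, so in `V`. `P` is prime and not `⊥` (`p ∈ P`, `p ≠ 0`), so maximal (`O` is a Dedekind domain: `(Pool.Agent.MUXE.te_RNG A B hcq).ded`), `O/P` is a finite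
field of characteristic `p`, a quotient of `O/p`, which has `p²` elements (`MUX.nI_sp`, `nm p = p²`): `nI P = p` or `p²` (`nI P = p^a`, `a ≥ 1`, `a ≤ 2`). So `4 ≤ nI P - 1`, `¬ p ∣ nI P - 1`. `y`: `p ∈ P` gives `idl p = P * Q` (`Ideal.dvd_iff_le`), `Q ≠ idl p` (cancel, `P ≠ ⊤`), `idl p ≤ Q`, so there is
`y ∈ Q`, `y ∉ idl p`; `x y ∈ P Q = idl p` for `x ∈ P`.
The last part: `Q = Pc P * P^(er-1)`, i.e. `idl p = Pc P * P^er`, and `Pc P` is prime to `P`. `P P' = idl p` or `idl p = P` (`P' = cjI P`; `x star x = nm x`): if `nI P = p`: `P P'` contains ... `P P' ∣ ` see `MUX/XLib.lean` (ideal norms, `cjI`); (i) split: `nI P = p`, `P' ≠ P`: `idl p ≤ P`, `idl p ≤ P'`, `P`, `P'` different maximal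
ideals, so `P P' = P ⊓ P' ≥ idl p`, equality by the norms (`p²`). Then `p ∉ P²` (otherwise `P' ≤ P`), `er = 1`. (ii) `nI P = p²`: `P = idl p`, `P' = P`, `p ∉ P² = p² O`, `er = 1`. (iii) `nI P = p`, `P' = P`: we must show `p ∈ P²`, `er = 2`. `idl p = P Q`, `nI Q = p`, `Q` prime; `cjI`: `idl p = P Q'`, so `Q' = Q`;
if `Q ≠ P`: for `x ∈ P`: `nm x = x star x ∈ P ∩ ℤ = p ℤ`.. (choose `x ∈ P`, `x ∉ Q`: `x star x ∈ p ℤ ⊆ Q`, so `star x ∈ Q`, `x ∈ Q' = Q`, a contradiction). So `Q = P`, `idl p = P²`. And if `er = 2` then `p ∈ P²`, so `Q ≤ P`.. `idl p = P²` (norms), and `P' = P` (`P'² = P²`). -/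
def So_BAS : Prop :=
  ∀ (p er : ℕ) (A B : ℤ) (P : Ideal (OO A B)) (V : ValuationSubring ℂ), CaseO p er A B P V →
    V.valuation (p : ℂ) < 1 ∧ V.valuation (2 : ℂ) = 1 ∧ P.IsMaximal ∧
    (∀ x : OO A B, V.valuation (emb x) ≤ 1) ∧ (∀ x : OO A B, V.valuation (emb x) < 1 ↔ x ∈ P) ∧
    (∀ n : ℕ, ¬ p ∣ n → V.valuation (n : ℂ) = 1) ∧
    (nI P = p ∨ nI P = p ^ 2) ∧ ¬ p ∣ nI P - 1 ∧ 4 ≤ nI P - 1 ∧
    (∃ y : OO A B, (∀ x ∈ P, ∃ z, x * y = (p : OO A B) * z) ∧ ∀ z, y ≠ (p : OO A B) * z) ∧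
    IsCoprime (Pc P) P ∧ idl (A := A) (B := B) p = Pc P * P ^ er

/-- (UNF) the inertia field. MODELS: `nt_UNF` (`NS/T_UNF.lean`, `er = 1`: the only fact used on `3` is that `w ∩ 𝓞 k` is unramified over `3`; here `p ∉ P²`, `v.valuation p = exp (-1)` for the prime `v = w ∩ 𝓞 k`, which corresponds to `P`) and `tw_UNF` (`NS/TR_UNF.lean`, `er = 2`).

USES BAS. PROOF. `w` = the prime of `𝓞 F` below `V`, `v = w ∩ 𝓞 k`, `x ∈ v.asIdeal` iff `x = emb z`, `z ∈ P`. `v.valuation p ≥ exp (-er)`: `idl p = Pc P * P^er`, `Pc P` prime to `P`: there are `t ∈ Pc P`, `t ∉ P`.. or: `p ∉ P^(er+1)` (otherwise `Pc P * P^er ≤ P^(er+1)`, `Pc P ≤ P`). (`v.intValuation_le_pow_iff_mem`.)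
For `y` in the inertia field, `v y < 1`: `w.valuation F y ≤ exp(-1)^e` (`e` the order of the inertia group), `w.valuation F p = (v.valuation p)^e ≥ exp(-er)^e`, so `w.valuation F (y^er / p) ≤ 1`, `v(y^er/p) ≤ 1` (`ord_le`). -/
def So_UNF : Prop :=
  ∀ (p er : ℕ) (A B : ℤ) (P : Ideal (OO A B)) (V : ValuationSubring ℂ), CaseO p er A B P V →
    ∀ (F : IntermediateField (kk A B) ℂ) [FiniteDimensional (kk A B) F] [IsGalois (kk A B) F],
    ∀ w ∈ KIn A B V F, V.valuation w < 1 → V.valuation w ^ er ≤ V.valuation (p : ℂ)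

/-- (FGP) finitely many pairs of cusps generate all values. MODEL: `nt_FGP` (`NS/T_FGP.lean`). -/
def So_FGP : Prop :=
  ∀ (p : ℕ), p.Prime → ∀ (P : OnePoint ℚ → OnePoint ℚ → ℂ) (T : Finset ℂ),
    (∀ x y, P x y ∈ AddSubgroup.closure (T : Set ℂ)) →
    ∃ (S : Finset (OnePoint ℚ × OnePoint ℚ)) (j N : ℕ), N ≠ 0 ∧ ¬ p ∣ N ∧
      (∀ q ∈ S, Dn (p ^ j * N) q.1 ∧ Dn (p ^ j * N) q.2) ∧
      ∀ x y, P x y ∈ AddSubgroup.closure
        ((fun q : OnePoint ℚ × OnePoint ℚ => P q.1 q.2) '' (S : Set (OnePoint ℚ × OnePoint ℚ)))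

/-- (ALV) the values are algebraic. MODEL: `nt_ALV` (`NS/T_ALV.lean`), with `p f` instead of `3 f`, and weights `kk i = 0` allowed (the terms are `0`).

USES Sy_ALP. -/
def So_ALV : Prop :=
  ∀ (p : ℕ), p.Prime → ∀ (A B : ℤ), CQ A B → TorX A B → ∀ (f : ℕ), f ≠ 0 →
    ∀ (ι : Type) [Fintype ι]
    (R : Reps A B (p * f) ι) (e : OO A B → ℂ), IsEI (idl (A := A) (B := B) (p * f)) e →
    ∀ r : ℕ, r ≠ 0 → (∀ x, e x ≠ 0 → e x ^ r = 1) →
    ∀ kk : ι → ℂ, (∀ i, kk i = 0 ∨ kk i ^ r = 1) →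
    ∀ u : ℂ, IsAlgebraic ℚ u → ∀ x y : OnePoint ℚ,
      IsAlgebraic ℚ (PhiK R e kk x y / (u * R.om R.i0))

/-- (ALT) algebraicity. MODEL: `tw_ALT` (`NS/TR_ALT.lean`): the same proof (`V` is not used; `GoodL` gives `NSR.Leg`: fields `u0`, `eq`). -/
def So_ALT : Prop :=
  ∀ (A B : ℤ), CQ A B → TorX A B → ∀ (V : ValuationSubring ℂ)
    (b : Ideal (OO A B)) (L : PeriodPair) (om : ℂ), IsNL b L om →
    ∀ u e lam : ℂ, GoodL V L u e lam →
      u ^ 2 ∈ RF (idl (A := A) (B := B) 2) ∧ e ∈ RF (idl (A := A) (B := B) 2) ∧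
      lam ∈ RF (idl (A := A) (B := B) 2) ∧ IsAlgebraic ℚ u ∧
      ∀ N : ℕ, N ≠ 0 → ∀ z, z ∉ L.lattice → (N : ℂ) * z ∈ L.lattice →
        IsAlgebraic ℚ (xu L u e z) ∧ IsAlgebraic ℚ (yu L u z) ∧ IsAlgebraic ℚ (ru L u e z)

/-- (ACG) the number `c` and the signs `d_i`, for `σ` trivial on `RF g`, `g` an ideal. MODEL: `tw_ACF` (`NS/TR_ACF.lean`), there `g = idl m'`.

USES Sy_MUU, Sy_BRI. (`kap (R.L i) ∈ RF ⊤ ≤ RF g` by `T.mono`.) -/
def So_ACG : Prop :=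
  ∀ (A B : ℤ), CQ A B → TorX A B → ∀ (n : ℕ) (ι : Type) (R : Reps A B n ι) (m : ℕ)
    (g : Ideal (OO A B)), m ≠ 0 → idl (A := A) (B := B) m ≤ g →
    ∀ σ : ℂ ≃+* ℂ, FixK A B σ → (∀ y ∈ RF g, σ y = y) →
    ∃ (c : OO A B) (d : ι → ℤ), c - 1 ∈ g ∧
      IsCoprime (sp c) (idl (A := A) (B := B) m) ∧ ActT R m σ c d

/-- (SGU) the sign `d_0`. MODELS: `tw_SGU` (`NS/TR_SGU.lean`), `nt_SGU` (`NS/T_SGU.lean`), with `m' = f` and level `m`.

USES BAS. PROOF. As there. Good reduction: as `rgrl` (`Sr_GRL`, `NS/RN_ALL.lean`), which gives `ξ` and `GR`, for `GoodL` instead (the discriminant of `y² = x (x-1) (x-lam)` is `16 lam² (1 - lam)²`, a unit at `V`). `z = om_0/f` and `2 z` are not in `L` (`2 z = om emb x` gives `2 = f x`, `f² ∣ 4`, but `f ≥ 3`) and not in the kernel of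
reduction: `Pool.Agent.MUXV.mem_of_nat_mul` with `v(f) = 1` (BAS). -/
def So_SGU : Prop :=
  ∀ (p er : ℕ) (A B : ℤ) (P : Ideal (OO A B)) (V : ValuationSubring ℂ), CaseO p er A B P V →
    ∀ (n : ℕ) (ι : Type) (R : Reps A B n ι) (u e lam : ℂ), GoodL V (R.L R.i0) u e lam →
    ∀ (m f : ℕ), m ≠ 0 → f ∣ m → 3 ≤ f → ¬ p ∣ f → ∀ (σ : ℂ ≃+* ℂ) (c : OO A B) (d : ι → ℤ),
    c - 1 ∈ idl (A := A) (B := B) f → ActT R m σ c d → σ (u ^ 2) = u ^ 2 →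
    (V.valuation (yu (R.L R.i0) u (R.om R.i0 / f)) ≤ 1 →
      V.valuation (σ (yu (R.L R.i0) u (R.om R.i0 / f)) -
        yu (R.L R.i0) u (R.om R.i0 / f)) < 1) → σ u = d R.i0 * u

/-- (SGM) the signs `d_i`. MODEL: `nt_SGM` (`NS/T_SGM.lean`), with `m' = f`, level `m`; `2 N(b_i) = f x` gives `f ∣ 2` as `N(b_i)` is prime to `f`, but `f ≥ 3`.

USES Sy_MUI, Sy_MUC, Sy_MUU. -/
def So_SGM : Prop :=
  ∀ (A B : ℤ), CQ A B → ∀ (n : ℕ) (ι : Type) (R : Reps A B n ι) (m f : ℕ), m ≠ 0 → f ∣ m →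
    3 ≤ f → f ∣ n → ∀ (σ : ℂ ≃+* ℂ) (c : OO A B) (d : ι → ℤ),
    c - 1 ∈ idl (A := A) (B := B) f → ActT R m σ c d →
    ∀ i, σ (muX R i) = d R.i0 * d i * muX R i

/-- (VAL) conjugation of the values. MODEL: `nt_VAL` (`NS/T_VAL.lean`), `3 f` replaced by `n ≥ 2`.

USES Sy_RA1. -/
def So_VAL : Prop :=
  ∀ (A B : ℤ), CQ A B → ∀ (n : ℕ), 2 ≤ n → ∀ (ι : Type) (R : Reps A B n ι)
    (e : OO A B → ℂ), IsEI (idl (A := A) (B := B) n) e → ∀ m : ℕ, m ≠ 0 → n ∣ m →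
    ∀ (σ : ℂ ≃+* ℂ) (c : OO A B) (d : ι → ℤ), ActT R m σ c d → (∀ x, σ (e x) = e x) →
    ∀ (i : ι) (x y : OnePoint ℚ), Dn m x → Dn m y →
      e c * σ (PhiI (R.b i) e x y / R.om i) = d i * (PhiI (R.b i) e x y / R.om i)

/-- (VAK) conjugation of the values of `PhiK/(u om_0)`. MODEL: `nt_VAK` (`NS/T_VAK.lean`).

USES SGM, VAL. -/
def So_VAK : Prop :=
  ∀ (A B : ℤ), CQ A B → ∀ (n : ℕ), 2 ≤ n → ∀ (ι : Type) [Fintype ι] (R : Reps A B n ι)
    (e : OO A B → ℂ), IsEI (idl (A := A) (B := B) n) e → ∀ (m f : ℕ), m ≠ 0 → n ∣ m → f ∣ n →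
    3 ≤ f → ∀ (σ : ℂ ≃+* ℂ) (c : OO A B) (d : ι → ℤ), c - 1 ∈ idl (A := A) (B := B) f →
    ActT R m σ c d → (∀ x, σ (e x) = e x) →
    ∀ kk : ι → ℂ, (∀ i, σ (kk i) = kk i) → ∀ u : ℂ, u ≠ 0 → σ u = d R.i0 * u →
    ∀ x y : OnePoint ℚ, Dn m x → Dn m y →
      e c * σ (PhiK R e kk x y / (u * R.om R.i0)) = PhiK R e kk x y / (u * R.om R.i0)

/-- (TRC) the points of order `P`. THIS IS A STATEMENT OF BLOCK E (helper96), the form is fixed here: `v(ru Y)^(er (q-1)) = v p` and `ru(x Y) ≡ x ru(Y)` for the points `Y` of `L[P] - 0`. -/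
def So_TRC : Prop :=
  ∀ (p er : ℕ) (A B : ℤ) (P : Ideal (OO A B)) (V : ValuationSubring ℂ), CaseO p er A B P V →
    TorX A B → ∀ (b : Ideal (OO A B)) (L : PeriodPair) (om u e lam : ℂ), IsNL b L om →
    GoodL V L u e lam →
    (∀ Y ∈ EP P L, V.valuation (ru L u e Y) ^ (er * (nI P - 1)) = V.valuation (p : ℂ)) ∧
    ∀ x : OO A B, x ∉ P → ∀ Y ∈ EP P L,
      emb x * Y ∈ EP P L ∧
      V.valuation (ru L u e (emb x * Y) - emb x * ru L u e Y) < V.valuation (ru L u e Y)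

/-- (TAU) the number `tau`. MODEL: `nt_TAU` (`NS/T_TAU.lean`).

USES BAS, TRC, Nt_TCJ (`nt_TCJ`, `NS/T_TCJ.lean`), ALT. PROOF. `L = L_0 = om emb O`, `Y = om emb y/p` with `y` of (BAS), `Y ∈ EP P L`. `T(x) := (w x)⁻¹ ru(emb x Y)` depends only on `x` modulo `P` (`IsTeiP.per`; for `x - x' ∈ P`: `emb (x - x') Y ∈ L`, and `ru` is periodic because `℘`, `℘'` are; for `x ∈ P`: `w x = 0`, `T(x) = 0`).
`tau := ∑ᶠ c : O ⧸ P, T(Quotient.out c)`, a finite sum. (1) For the `q - 1` classes `≠ 0`: `v(T(x) - ru Y) < v(ru Y)` (TRC; `v(emb x - w x)^er ≤ v p < 1`, `v(w x) = 1` as `w x` is a root of unity). So `v(tau - (q-1) ru Y) < v(ru Y)`, `v(q - 1) = 1` (BAS): `v(tau) = v(ru Y)`. (2) algebraic: (ALT) with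
`N = p`. (3) as there: `σ(T(x)) = (w x)⁻¹ ru(emb (c x) Y) = w(c) T(c x)`, `c` is invertible modulo `P`. -/
def So_TAU : Prop :=
  ∀ (p er : ℕ) (A B : ℤ) (P : Ideal (OO A B)) (V : ValuationSubring ℂ), CaseO p er A B P V →
    TorX A B → ∀ (n : ℕ) (ι : Type)
    (R : Reps A B n ι) (u e lam : ℂ), GoodL V (R.L R.i0) u e lam →
    ∀ w : OO A B → ℂ, IsTeiP p er P V w →
    ∃ tau : ℂ, V.valuation tau ^ (er * (nI P - 1)) = V.valuation (p : ℂ) ∧ IsAlgebraic ℚ tau ∧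
      ∀ (m : ℕ), p ∣ m → ∀ (σ : ℂ ≃+* ℂ) (c : OO A B) (d : ι → ℤ), ActT R m σ c d →
        c ∉ P → σ u = d R.i0 * u → σ e = e → (∀ x, σ (w x) = w x) →
        σ tau = w c * tau

/-- (TYF) THE RESULT of block T, two families of weights at the same time. MODELS: `tw_TYF` (`NS/TR_TYF.lean`: two families, weights `0` allowed) and `nt_TYF` (`NS/T_TYF.lean`: weights `w`).

USES O_RFIN (its second part; `Defs0.lean`), BAS, UNF, ALT, ACG, SGU, TAU, RTU, Nt_GLC (`nt_GLC`), FGP, Nt_FGV (`nt_FGV`), ALV, VAK. PROOF. As there, with `r (q - 1)` instead of `8 r`. `S, j, N`, `S', j', N'` from (FGP) for the two families, `m' = f N N'`, `J = j + j' + 1`, `m = p^J m'`, `g = idl m' * (Pc P)^J`: prime to `P`, `idl m ≤ g ≤ gO P f ≤ idl f`,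
`g ≤ idl 2` (`12 ∣ f`). `F ⊇ RF g` with the values at `S`, `S'`, `tau`, `yu L_0 u (om_0/f)`, the roots of unity of order dividing `r (q - 1)`. `σ` in the inertia group `InI A B V F`: trivial on `RF g` (O_RFIN), (ACG): `c, d`, `c ∉ P` (`sp c` is prime to `idl m ≤ P`). `e(c) = w(c)^i` since `c - 1 ∈ g ≤ gO P f`. -/
def So_TYF : Prop := O_TYF

end

end Pool.Agent.OBT


end

section

/-!
# OB, FINAL (helper60): the layers; from the characters to class numbers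

Every `def Sf_X : Prop` is the statement of a module; it is proved as `theorem tf_X (h : Sf_Y) .. : Sf_X` in
`Pool/Agent/OB/F_X.lean`, namespace `Pool.Agent.OBF`, where the `Sf_Y` are the statements named after USES (or fewer).
Files import originals (MU3, MUX, RI, ..), never MVF. Everything on main may be cited: `k_GALX`, `k_GENX`, `k_TWX`, `k_RSX`,
`k_LFX`, `k_EIGX` (`MUX/KAllX.lean`), `_root_.MU3.n_..` (`MU3/N_*.lean`), `t_ALG2`, `t_CYC` (`RID/P_ALG2.lean`,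
`RID/P_CYC.lean`), `LAY_thm` (`RI/LAY.lean`), `t_LAYC` (`RID/P_LAYC.lean`), `OB/K_ALG.lean` (`hom_nil`, ..), `CL.nm_mem`,
`CL.nm_ext`, `CL.nm_prin` (`RI/CL.lean`).

PLAN of part R (relative class numbers). `k ≤ K' ≤ K`, `K/k` abelian of degree prime to `p`. `L = K B_n`, `L' = K' B_n`,
`N` = the norm element of `Gal(L/L')`. `A = J L ⧸ PI L`, `A' = {a ∈ A | N a = 0}`. (RIX): `v_p |A| ≤ v_p |A'| + v_p h(L')`. (RRK): the
`p`-rank of `A'` is bounded by the sum of the dimensions of the `χ`-parts for the `χ` which are not trivial on `Gal(K/K')`. (RST): one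
step of the tower for `A'` (as `N_STEP`).
-/

set_option autoImplicit false

open NumberField IsDedekindDomain Finset
open scoped nonZeroDivisors Pointwise

namespace Pool.Agent.OBF

open _root_.Pool.Agent.RI _root_.Pool.Agent.RID _root_.Pool.Agent.MU3 _root_.Pool.Agent.MUXK
  _root_.Pool.Agent.MUXZ _root_.Pool.Agent.NSI _root_.Pool.Agent.OB

/-- (LAY) the layers of the cyclotomic `ℤ_p`-extension of `ℚ`, `p` odd: existence, tower, uniqueness.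

PROOF. `C m = adjoin ℚ {z | z ^ (p ^ m) = 1}`: cyclotomic, `Gal(C m / ℚ) ≅ (ZMod (p ^ m))ˣ` is cyclic (`p` odd: Mathlib `ZMod.isCyclic_units_of_prime_pow` or similar), of order `p^(m-1) (p-1)`. In a cyclic extension two intermediate fields of the same degree are equal
(the fixing subgroups have the same order; in a finite cyclic group a subgroup is determined by its order). So `Q = Q'` if both are `n`-th layers (both are in one `C m`). Existence: `G = Gal(C (n+1) / ℚ)` has a subgroup of order `p - 1`; its fixed field `F` has degree `p^n` (odd) and is Galois over `ℚ`, complex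
conjugation maps `F` to `F` and induces an automorphism of order dividing `2` in a group of odd order, so it is trivial on `F`. (Compare `MU3/Z_ZLAY.lean`, `MUX/J_LAY.lean` for `p = 3, 2`.) Tower: `B (n+1)` is cyclic over `ℚ` of degree `p^(n+1)` (`t_LAYC`), so it contains a field of degree `p^n`, which is a layer, so
it is `B n`. -/
def Sf_LAY : Prop := ∀ (p : ℕ) [Fact p.Prime], p ≠ 2 →
  ∃ B : ℕ → IntermediateField ℚ ℂ, (∀ n, RI.IsLayer p n (B n)) ∧ Monotone B ∧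
    ∀ (n : ℕ) (Q : IntermediateField ℚ ℂ), RI.IsLayer p n Q → Q = B n

/-! ## Relative class numbers -/

/-- The `χ`-eigenfunctionals on the abelian group `A` (additive), on which `D` acts by `ρ`. -/
def EA (F : Type) [Field F] {A D : Type} [AddCommGroup A] [CommGroup D]
    (ρ : D →* AddMonoid.End A) (χ : D →* Fˣ) : Submodule F (A → F) where
  carrier := {f | (∀ x y, f (x + y) = f x + f y) ∧
    ∀ (δ : D) (x : A), f (ρ δ x) = (χ δ : F) * f x}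
  add_mem' := by
    rintro f g ⟨h1, h2⟩ ⟨h3, h4⟩
    refine ⟨fun x y => ?_, fun δ x => ?_⟩
    · show f (x + y) + g (x + y) = (f x + g x) + (f y + g y)
      rw [h1, h3]; ring
    · show f _ + g _ = _ * (f x + g x)
      rw [h2, h4]; ring
  zero_mem' := by
    refine ⟨fun x y => ?_, fun δ x => ?_⟩
    · show (0 : F) = 0 + 0
      rw [add_zero]
    · show (0 : F) = _ * 0
      rw [mul_zero]
  smul_mem' := by
    rintro c f ⟨h1, h2⟩
    refine ⟨fun x y => ?_, fun δ x => ?_⟩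
    · show c * f (x + y) = c * f x + c * f y
      rw [h1]; ring
    · show c * f _ = _ * (c * f x)
      rw [h2]; ring

/-- (RAG) the rank of the kernel of a norm element and eigenspaces; algebra.

PROOF. `N = ∑_{δ ∈ H} ρ δ`, `A' = ker N`, `h = |H|`, prime to `p`. `V = Hom(A', F)`, an `F`-space of dimension `v_p |A'[p]|` (`|A'[p]| = |A' / p A'|`; compare `hom_nil` in `OB/K_ALG.lean`; only `≥` is needed: an `F_p`-basis of `A'/pA'` gives linearly independent functionals with values in `F_p ⊆ F`). `D` acts on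
`V`; `F` is algebraically closed and `|D|` is prime to `p = char F`, so `V` is the sum of its eigenspaces `V_χ`, `χ : D →* Fˣ` (projectors `|D|⁻¹ ∑_δ χ(δ)⁻¹ δ`, their sum is `1`; compare `MUX/K_EIGX.lean`), there are `|D|` characters at most. `V_χ = 0` if `χ` is trivial on `H`: `0 = f(N x) = h f(x)`. `V_χ` embeds into `EA F ρ χ`: `f ↦ (x ↦ f (h x - N x))`
(`h x - N x ∈ A'`, it is `h x` for `x ∈ A'`; injective as `h ≠ 0` in `F`). -/
def Sf_RAG : Prop := ∀ (p : ℕ) [Fact p.Prime] (F : Type) [Field F] [CharP F p] [IsAlgClosed F]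
  (A D : Type) [AddCommGroup A] [Finite A] [CommGroup D] [Finite D] (ρ : D →* AddMonoid.End A)
  (H : Subgroup D) [Fintype H], ¬ p ∣ Nat.card D → ∀ R : ℕ,
  (∀ χ : D →* Fˣ, (∃ δ ∈ H, χ δ ≠ 1) → Module.finrank F (EA F ρ χ) ≤ R) →
  padicValNat p (Nat.card {x : A // ∑ δ : H, ρ (δ : D) x = 0 ∧ p • x = 0}) ≤ Nat.card D * R

/-- The ideals of `L` whose norm to `L'` (as an ideal of `L`) is principal. -/
noncomputable def RJ (L' L : Type) [Field L'] [NumberField L'] [Field L] [NumberField L]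
    [Algebra L' L] : Subgroup (J L) :=
  (_root_.MU3.PI L).comap (CL.nm L' L)

/-- `v_p |A'|`. -/
noncomputable def vR (p : ℕ) (L' L : Type) [Field L'] [NumberField L'] [Field L] [NumberField L]
    [Algebra L' L] : ℕ :=
  padicValNat p ((_root_.MU3.PI L).relIndex (RJ L' L))

/-- `v_p |A'[p]|`. -/
noncomputable def rR (p : ℕ) (L' L : Type) [Field L'] [NumberField L'] [Field L] [NumberField L]
    [Algebra L' L] : ℕ :=
  padicValNat p (Nat.card {c : J L ⧸ _root_.MU3.PI L // (∃ b ∈ RJ L' L, (b : J L ⧸ _root_.MU3.PI L) = c) ∧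
    c ^ p = 1})

/-- (RIX) the index of the norm kernel.

PROOF. `A = J L ⧸ PI L`, `|A| = h(L)` (`CL.classNumber_eq`). `nm` induces an endomorphism of `A` (`PI L ≤ RJ L' L`: `CL.nm_prin`, `ext_prin`) with kernel `RJ L' L / PI L` of order `(PI L).relIndex (RJ L' L)`, and its image is contained in the image of `J L' ⧸ PI L'` (`CL.nm_mem`, `ext_prin`), whose order divides `h(L')`. -/
def Sf_RIX : Prop := ∀ (p : ℕ) [Fact p.Prime] (L' L : Type) [Field L'] [NumberField L'] [Field L]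
  [NumberField L] [Algebra L' L] [IsGalois L' L],
  padicValNat p (NumberField.classNumber L) ≤
    vR p L' L + padicValNat p (NumberField.classNumber L')

/-- (RST) one step of the tower for the norm kernels.

PROOF. As `N_STEP` (`MU3/N_STEP.lean`), with `t_ALG2` for `A' = RJ / PI` in place of the class group. `L = K B_(m+1)`, `M = K B_m`, `L' = K' B_(m+1)`, `M' = K' B_m`, `g` from GENX (`k := k`, `K`) for `m+1`: `g` maps `RJ L' L` to itself (`Gal(L/k)` is abelian: GALX), `g^(p^(m+1)) = 1`, `g^(p^m)` generates `Gal(L/M)`. The element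
`∑_{j<p} g^(p^m j)` is `nm M L b = ext M L c` on `b` (`t_CYC`, `CL.nm_mem`). Claim: `b ∈ RJ L' L` implies `c ∈ RJ M' M`: every `τ ∈ Gal(M/M')` extends to an element `τ'` of `Gal(L/L')` (trivial on `L'`; restriction `Gal(L/L') → Gal(M/M')` is bijective: injective as `L = M L'`, and `[L : L'] = [K : K'] = [M : M']` by the three `deg`), so
`ext M L (nm M' M c) = ∏ τ' (ext M L c) = ∏ τ' nm M L b = nm M L (nm L' L b)` is `nm M L` of a principal ideal `prin x`, which is `ext M L (prin (norm x))` (`CL.nm_prin`), and `ext M L` is injective (`ext_injective` in `RI`). So the image of `A'` under the operator is contained in the image of `RJ M' M / PI M`, of order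
`(PI M).relIndex (RJ M' M)`. -/
def Sf_RST : Prop := ∀ (p m : ℕ) [Fact p.Prime] (k K' K : IntermediateField ℚ ℂ)
  (B : ℕ → IntermediateField ℚ ℂ) [FiniteDimensional ℚ K] [FiniteDimensional ℚ K']
  [∀ n, FiniteDimensional ℚ ↥(K ⊔ B n)] [∀ n, FiniteDimensional ℚ ↥(K' ⊔ B n)]
  (_ : BasX p k K B) (_ : BasX p k K' B) (_ : BasX p K' K B)
  (h1 : K' ⊔ B (m + 1) ≤ K ⊔ B (m + 1)) (h0 : K' ⊔ B m ≤ K ⊔ B m),
  letI := algC h1
  letI := algC h0
  rR p ↥(K' ⊔ B (m + 1)) ↥(K ⊔ B (m + 1)) < p ^ m * (p - 1) →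
  vR p ↥(K' ⊔ B (m + 1)) ↥(K ⊔ B (m + 1)) ≤
    vR p ↥(K' ⊔ B m) ↥(K ⊔ B m) + rR p ↥(K' ⊔ B (m + 1)) ↥(K ⊔ B (m + 1))

/-- (RRK) the rank of the norm kernel and the `χ`-parts.

USES RAG. PROOF. `L = K B_n`, `L' = K' B_n`, `D = NC (hk₀ n) (B n)`, of order prime to `p` (TWX: `TwP.cop` or similar), commutative (GALX); it acts on `A = Additive (J L ⧸ PI L)`. `H` = the elements of `D` which are trivial on `K'` = the elements of `Gal(L/k)` which are trivial on `L'`, `≅ L ≃ₐ[L'] L` (the algebra structure `algC hL`), so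
`∑_{δ ∈ H} δ` is `nm L' L`. RAG: let `χ : D →* Fˣ` be nontrivial on `H`. The restriction `D → Gal(K/k)` is bijective (`|D| = [K : k]` by `deg`; compare `I3X19.restr` and the places where it is used), so `χ` comes from a character `χ₀` of `Gal(K/k)` (`letI := algC hkK; ↥K ≃ₐ[k] ↥K`), nontrivial on an element which is trivial on `K'`. The functionals in `EA F ρ χ`
composed with `J L → A` are in `EigS F k K B n (hk₀ n) hkK χ₀` (an injective linear map into a finite-dimensional space). `|D| = [K : k]`. -/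
def Sf_RRK : Prop := ∀ (p n : ℕ) [Fact p.Prime] (F : Type) [Field F] [CharP F p] [IsAlgClosed F]
  (k K' K : IntermediateField ℚ ℂ)
  (B : ℕ → IntermediateField ℚ ℂ) [FiniteDimensional ℚ K] [FiniteDimensional ℚ K']
  [∀ n, FiniteDimensional ℚ ↥(K ⊔ B n)] [∀ n, FiniteDimensional ℚ ↥(K' ⊔ B n)]
  (hB : BasX p k K B) (_ : BasX p k K' B) (_ : BasX p K' K B)
  (hL : K' ⊔ B n ≤ K ⊔ B n) (hk₀ : k ≤ K ⊔ B n) (hkK : k ≤ K),
  ¬ p ∣ Module.finrank k (IntermediateField.extendScalars hB.hk) → ∀ R : ℕ,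
  (∀ χ : (letI := algC hkK; (↥K ≃ₐ[k] ↥K) →* Fˣ),
    (letI := algC hkK; ∃ s : ↥K ≃ₐ[k] ↥K, (∀ x : ↥K, (x : ℂ) ∈ K' → s x = x) ∧ χ s ≠ 1) →
    Module.Finite F (EigS F k K B n hk₀ hkK χ) ∧
    Module.finrank F (EigS F k K B n hk₀ hkK χ) ≤ R) →
  letI := algC hL
  rR p ↥(K' ⊔ B n) ↥(K ⊔ B n) ≤
    Module.finrank k (IntermediateField.extendScalars hB.hk) * R

end Pool.Agent.OBF


end

section

/-!
# OB, block I (helper79): from the results of blocks E, H to the input (I3) of block K for ONE branch, every prime `p ≥ 5`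

Every statement is a `def Oi_X : Prop`; the module OBI_X proves `theorem oi_X (h : ..) ... : Oi_X` in the file `Pool/Agent/OB/I_X.lean`, namespace
`Pool.Agent.OBI` (private lemmas in `Pool.Agent.OBI.X`); the hypotheses are the statements named under USES (fewer is fine). All statements `Si_..` of
`MUX/StIX.lean` and `Sn_..` of `NS/StIN.lean` are proved (`i_..` in `MUX/IAll.lean`, `n_..` in `NS/IAll.lean`; import them freely if this is more convenient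
than a hypothesis). `So_BAS` : `OB/StT.lean` (block T, helper59). `v = V.valuation`, `q = nI P`.

THE ARGUMENT. `K` contains the `p`-th roots of unity, `K_n = K B_n ∋ ζ` of order `p^(n+1)`. `RB p n = ℚ(ζ + ζ⁻¹)`, so `B_n ≤ RB p n ≤ K_n`. `D₊ = NC h (RB p n)` is a subgroup of `Δ = NC h (B n) ≅ Gal(K/k)`; it consists
of the `δ` with `om(δ)² = 1` (`om` : the cyclotomic character modulo `p`) (NCR). The proof of `Sn_I31` with `D₊` instead of `Δ` (XMX, TH, EPS) shows that for infinitely many `n` the product over `D₊` is not a `p`-th power. `Σ_(j even, j < p-1) om(δ)^(-j)` is `(p-1)/2`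
on `D₊` and `0` elsewhere on `Δ`; so for one even `j` the product over `Δ` with `χ om^j` is not a `p`-th power (BRA).
-/

set_option autoImplicit false

namespace Pool.Agent.OBI

open _root_.MU3 Pool.Agent.MU3 Pool.Agent.MU3A Pool.Agent.MU3B Pool.Agent.RI Pool.Agent.RID
  Pool.Agent.MUX Pool.Agent.MUXK Pool.Agent.MUXI Pool.Agent.NS Pool.Agent.NSI Pool.Agent.OB
open Pool.Agent.MU3I (zt)

noncomputable section

/-! ## Definitions -/

/-- the level, `p` an odd prime -/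
structure SetQ (p : ℕ) (A B : ℤ) (f : ℕ) : Prop where
  cq : CQ A B
  pp : p.Prime
  p2 : p ≠ 2
  f0 : f ≠ 0

lemma setQ_O {p er : ℕ} {A B : ℤ} {P : Ideal (OO A B)} {V : ValuationSubring ℂ} {f : ℕ}
    (h : SetO p er A B P V f) : SetQ p A B f :=
  ⟨h.cq, h.pp, by have := h.p5; omega, h.f0⟩

lemma q0_odd {p : ℕ} (h : p ≠ 2) : q0 p = p := by
  unfold q0
  rw [if_neg h]

lemma lvX_odd {p : ℕ} (h : p ≠ 2) (f n : ℕ) : lvX p f n = f * p ^ (n + 1) := by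
  unfold lvX
  rw [q0_odd h]
  ring

/-- the real subfield of the field of the roots of unity of order `p^(n+1)` -/
def RB (p n : ℕ) : IntermediateField ℚ ℂ :=
  IntermediateField.adjoin ℚ {zt (p ^ (n + 1)) + (zt (p ^ (n + 1)))⁻¹}

/-- the weights `kk_i = kp_i c_i / mu_i / t (N b_i)` -/
def kkT {A B : ℤ} {n₀ : ℕ} {ι : Type} (R : Reps A B n₀ ι) (kp c : ι → ℂ) (t : ℤ → ℂ) (i : ι) : ℂ :=
  kp i * c i / muX R i * (t (nI (R.b i)))⁻¹

/-- `om` is the cyclotomic character modulo `p` -/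
def IsOm (F : Type) [Field F] (p : ℕ) {k K : IntermediateField ℚ ℂ} (h : k ≤ K)
    (om : (letI := algC h; (↥K ≃ₐ[k] ↥K) →* Fˣ)) : Prop :=
  letI := algC h
  ∀ (σ : ↥K ≃ₐ[k] ↥K) (z : K) (c : ℕ), z ^ p = 1 → z ≠ 1 → σ z = z ^ c → ((om σ : Fˣ) : F) = c

/-- the character `χ om^j` -/
def brO {F : Type} [Field F] {k K : IntermediateField ℚ ℂ} (h : k ≤ K)
    (χ om : (letI := algC h; (↥K ≃ₐ[k] ↥K) →* Fˣ)) (j : ℕ) :
    (letI := algC h; (↥K ≃ₐ[k] ↥K) →* Fˣ) :=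
  letI := algC h
  χ * om ^ j

/-! ## The prime `P` and characters -/

/-- (PRF) facts on `P`, continued.

USES So_BAS. PROOF. `q = nI P = Nat.card (O/P)`, `O/P` is a finite field (BAS: `P` maximal; `q = p` or `p²`, so finite). (1) `p ∈ P`; if `c ∈ P`, `p ∤ c` then `1 ∈ P` (Bezout). (2) `IsCoprime (Pc P) P`: `t ∈ Pc P`, `t ∉ P`; `x^er t ∈ P^er * Pc P = idl p`, `x^er t = p z`, `v(emb t) = 1`, `v(emb z) ≤ 1`.
(3) `FiniteField.pow_card_sub_one_eq_one` in `O/P`. (4) the unit group of `O/P` is cyclic. (5) four cases. `er = 1`, `q = p` (split), `m = 1`: `Pc P = ⊤` would give `idl p = P`, `q = nI (idl p) = p²` (`MUX.nI_sp`); so `Pc P = cjI P`, and `x - 1 ∈ cjI P` means `star x - 1 ∈ P`; `nm x = x * star x`, so `nm x - x = x (star x - 1) ∈ P`.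
`er = 1`, `q = p²` (inert), `m = p + 1`: `idl p ≤ P` and `nI (idl p) = p² = nI P`, so `P = idl p`, `cjI P = P`. `nm x - x^(p+1) = x (star x - x^p)`. Let `T = x + star x`, `N = nm x` (integers): modulo `P` (characteristic `p`; `c^p ≡ c` for integers): `(x^p)² - T x^p + N ≡ (x² - T x + N)^p = 0`, so
`(x^p - x) (x^p - star x) ∈ P`. If `x^p - x ∈ P` then `x ≡ c` modulo `P`, `c` an integer (the polynomial `X^p - X` has in the field `O/P` the `p` roots `0, .., p-1` and no others), so `star x ≡ c ≡ x` (`cjI P = P`), and `x^p ≡ x ≡ star x`. `er = 2`, `q = p²`: impossible (`P = idl p`, `p ∈ P² = idl (p²)`).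
`er = 2`, `q = p` (ramified), `m = 2`: `Pc P = ⊤`: otherwise `Pc P = cjI P` has `p` classes modulo it, and `idl p = cjI P * P^2 ≤ P * P ⊓ cjI P` has index `≥ p³` (or: `idl p ≤ P^2 ≤ P`, `nI (P^2) = p²` so `idl p = P^2`); so `cjI P = P` (`Pc P = cjI P = ⊤` is impossible). The integers `0, .., p-1` represent the
`p` classes modulo `P`: `x ≡ c`, so `star x ≡ c ≡ x`: `nm x - x² = x (star x - x) ∈ P`. `2 m + 1 ≤ q`: `p ≥ 5`. Norms of ideals: `MUX/XLib.lean`. -/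
def Oi_PRF : Prop :=
  ∀ (p er : ℕ) (A B : ℤ) (P : Ideal (OO A B)) (V : ValuationSubring ℂ), CaseO p er A B P V →
    (∀ c : ℤ, (c : OO A B) ∈ P ↔ (p : ℤ) ∣ c) ∧
    (∀ x ∈ P, V.valuation (emb x) ^ er ≤ V.valuation (p : ℂ)) ∧
    (∀ x ∉ P, x ^ (nI P - 1) - 1 ∈ P) ∧
    (∃ g ∉ P, ∀ x ∉ P, ∃ k : ℕ, x - g ^ k ∈ P) ∧
    ∃ m : ℕ, er * (nI P - 1) = m * (p - 1) ∧ m ∣ nI P - 1 ∧ 1 ≤ m ∧ 2 * m + 1 ≤ nI P ∧
      ∀ x : OO A B, x - 1 ∈ Pc P → x ∉ P → ((nm x : ℤ) : OO A B) - x ^ m ∈ P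

/-- (TEI) existence of the Teichmueller character. MODEL: `NS/I_TEI.lean`.

USES So_BAS, PRF. PROOF. `g` as in PRF (4), `N = q - 1`, prime to `p`. `v(emb g ^ N - 1)^er ≤ v p` (PRF (3), (2)). `X^N - 1 = ∏_j (X - ζ^j)`, `ζ` a primitive `N`-th root of unity; the differences `ζ^j - ζ^l`, `j ≠ l`, have valuation `1` (`∏_(l = 1)^(N-1) (1 - ζ^l) = N`, `v N = 1` by BAS, all factors `≤ 1`). So some factor `emb g - ζ^j` of `emb g ^ N - 1 = ∏_j (emb g - ζ^j)`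
has `v < 1`, the others have `v = 1`, so `v(emb g - ζ^j)^er = v(emb g ^ N - 1)^er ≤ v p`. Put `ω = ζ^j`, `w x = ω^k` if `x - g^k ∈ P`, `w x = 0` if `x ∈ P`. Well defined: if `g^k ≡ g^l` modulo `P` then `v(ω^k - ω^l) < 1` (`v(ω^k - emb g^k) < 1`), so `ω^k = ω^l` (the differences of different `N`-th roots of unity have valuation `1`). Multiplicative.
`cong`, `x ∉ P`: `w x - emb x = (ω^k - emb g^k) - emb(x - g^k)`, each with `v^er ≤ v p` (`ω^k - emb g^k` is a multiple of `ω - emb g`; PRF (2)); `v(a + b)^er ≤ max`. `x ∈ P`: PRF (2). -/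
def Oi_TEI : Prop :=
  ∀ (p er : ℕ) (A B : ℤ) (P : Ideal (OO A B)) (V : ValuationSubring ℂ), CaseO p er A B P V →
    ∃ w : OO A B → ℂ, IsTeiP p er P V w

/-- (EPS) the odd character, the twist `t`, the sign `s` and the type `i`. MODEL: `NS/I_EPS.lean`.

USES So_BAS, PRF. PROOF. `lvX p f 0 = f p`. `k* = {x : x - 1 ∈ gO P f, x ∉ P}`. `idl (p f) = gO P f * P^er` (BAS), `gO P f` is prime to `P` (`¬ p ∣ f`; BAS). If `x, x' ∈ k*`, `x - x' ∈ P`, then `e0 x = e0 x'`: let `x' x'' ≡ 1` modulo `p f` (`x'` is prime to `p f`), `y = x x''`, `y = 1 + z`, `z ∈ gO P f * P` (`= gO P f ⊓ P`); `y^p - 1 ∈ idl (p f)`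
(`p z ∈ gO * P^er`, `z^p ∈ gO * P^er` as `er ≤ 2 ≤ p`), so `e0(y)^p = 1`, `e0(y)^r = 1`, `e0 y = 1`. Let `g` be as in PRF (4), `g' ≡ g` modulo `P`, `g' ≡ 1` modulo `gO P f` (CRT), `N = q - 1`. `e0(g')^N = 1` (`g'^N ∈ k*`, `≡ 1` modulo `P`). `w g` is a primitive `N`-th root of unity (`(w g)^l = w(g^l) = 1` implies `v(1 - emb g^l) < 1`, `g^l - 1 ∈ P`,
and then `N ∣ l`: the powers of `g` represent all `N` classes). So `e0(g') = w(g)^b` for some `b`, and `e0 x = w(x)^b` for `x ∈ k*` (`x ≡ g^k ≡ g'^k` modulo `P`). `m` from PRF (5): `w(nm x) = w(x)^m` for `x ∈ k*`. `i = m + (b + 1) % m`, `j = (b + 1)/m + N/m - 1`: `m ≤ i ≤ 2 m - 1 ≤ q - 2`, `i + m j = b + 1 + N`. `t a = w((a : O))^j`, `s = (-1)^j`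
(`w (-1) = -1`: `w(-1)² = 1`, `v(w(-1) + 1) < 1`, `v 2 = 1`). `e x = e0 x * w x * (t (nm x))⁻¹`. On `k*`: `e x = w(x)^(b+1) (w(x)^(m j))⁻¹ = w(x)^i` (`w(x)^N = 1`). `supp`: `x` prime to `p f`: `x ∉ P`, `nm x` prime to `p`; `e0 x ≠ 0` iff `x` is prime to `p f`. `per`: `nm x ≡ nm y` modulo `p`. `e(-1) = e0(-1) w(-1) = -1`. -/
def Oi_EPS : Prop :=
  ∀ (p er : ℕ) (A B : ℤ) (P : Ideal (OO A B)) (V : ValuationSubring ℂ) (f : ℕ)
    (_ : SetO p er A B P V f) (w : OO A B → ℂ) (_ : IsTeiP p er P V w)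
    (e0 : OO A B → ℂ) (r : ℕ) (_ : ¬ p ∣ r)
    (_ : e0 1 = 1) (_ : e0 (-1) = 1) (_ : ∀ x y, e0 (x * y) = e0 x * e0 y)
    (_ : ∀ x y, x - y ∈ idl (A := A) (B := B) (lvX p f 0) → e0 x = e0 y)
    (_ : ∀ x, e0 x ≠ 0 ↔ IsCoprime x ((lvX p f 0 : ℕ) : OO A B))
    (_ : ∀ x, e0 x ≠ 0 → e0 x ^ r = 1),
    ∃ (e : OO A B → ℂ) (s : ℤ) (i : ℕ) (t : ℤ → ℂ),
      IsEI (idl (A := A) (B := B) (p * f)) e ∧ (s = 1 ∨ s = -1) ∧
      er * (nI P - 1) ≤ i * (p - 1) ∧ i ≤ nI P - 2 ∧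
      (∀ x, x - 1 ∈ gO P f → x ∉ P → e x = w x ^ i) ∧
      (∀ x, e x ≠ 0 → e x ^ ((nI P - 1) * r) = 1) ∧
      (∀ a b : ℤ, t (a * b) = t a * t b) ∧ (∀ a b : ℤ, (p : ℤ) ∣ a - b → t a = t b) ∧
      t 1 = 1 ∧ t (-1) = s ∧ (∀ a : ℤ, ¬ (p : ℤ) ∣ a → t a ^ (nI P - 1) = 1) ∧
      ∀ x, IsCoprime x ((lvX p f 0 : ℕ) : OO A B) → e0 x * w x = e x * t (nm x)

/-- (CHI) one character `X` for all subgroups. MODEL: `MUX/I_CHI.lean` (`Si_CHI`, there `Δ' = Δ`).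

PROOF. `X` is constructed there (the Teichmueller lift of `χ`: `X δ` is the root of unity of order prime to `p` with residue `χ δ`); the existence of `θ` for `Δ'`: if `Σ_δ θ(χ(j δ)⁻¹) χ(j δ) = 0` in the residue field `F` for all additive `θ : F → F_p` then `Σ_δ χ(j δ)⁻¹ ⊗ χ(j δ) = 0` in `F ⊗ F`, so `card Δ' = 0` in `F`; but `card Δ'` divides `card Δ` (`j` is injective), prime to `p`.
(Apply the proof there to `χ ∘ j`, `X ∘ j`.) -/
def Oi_CHI : Prop :=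
  ∀ (p : ℕ) [Fact p.Prime] (V : ValuationSubring ℂ) (_ : (p : ℂ) ∈ V.nonunits)
    (_ : CharP (IsLocalRing.ResidueField V) p) (_ : IsAlgClosed (IsLocalRing.ResidueField V))
    (Δ : Type) [Group Δ] [Finite Δ] (_ : ∀ σ τ : Δ, σ * τ = τ * σ)
    (_ : ¬ p ∣ Nat.card Δ) (χ : Δ →* (IsLocalRing.ResidueField V)ˣ),
    ∃ X : Δ →* ℂˣ, (∀ δ, X δ ^ Nat.card Δ = 1) ∧
      ∀ (Δ' : Type) [Group Δ'] [Fintype Δ'] (j : Δ' →* Δ), Function.Injective j →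
      ∃ θ : IsLocalRing.ResidueField V →+ ZMod p,
        (∑ δ : Δ', ((θ ((χ (j δ))⁻¹ : (IsLocalRing.ResidueField V)ˣ)).val : ℂ) *
          (X (j δ) : ℂ)) ∉ V.nonunits

/-- (BRA) the branches: algebra.

PROOF. Suppose that for all even `j < p - 1` and all `θ'` the product is a `p`-th power. Given `θ`, let `θ' x = θ (-2 x)`. For `δ : Δ`: `Σ_(j even, j < p-1) θ'((χ δ * u δ^j)⁻¹) = θ(-2 (χ δ)⁻¹ Σ_(m < (p-1)/2) ((u δ)^(-2))^m)`; the geometric sum is `(p-1)/2` if `u δ² = 1`, and `0` otherwise (`(u δ)^(p-1) = 1`). `-2 (p-1)/2 = 1 - p = 1` in `F`.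
So the sum of the `θ'(..)` (in `ZMod p`) is `θ((χ δ)⁻¹)` for `δ ∈ S` and `0` otherwise. The product over the even `j` of the `p`-th powers `∏_δ a δ ^ (θ'(..)).val` is `∏_δ a δ ^ (Σ_j (θ'(..)).val)`, and `Σ_j (θ'(..)).val ≡ (θ((χ δ)⁻¹)).val` or `0` modulo `p`: it differs from `∏_(δ ∈ S) a δ ^ (θ((χ δ)⁻¹)).val` by a `p`-th power. So this product is
a `p`-th power for every `θ`, against the hypothesis. -/
def Oi_BRA : Prop :=
  ∀ (F : Type) [Field F] (p : ℕ) [Fact p.Prime] (_ : p ≠ 2) [CharP F p] (M : Type) [CommGroup M]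
    (Δ : Type) [Fintype Δ] (S : Finset Δ) (u χ : Δ → Fˣ) (_ : ∀ δ, u δ ^ (p - 1) = 1)
    (_ : ∀ δ, δ ∈ S ↔ u δ ^ 2 = 1) (a : Δ → M),
    (∃ θ : F →+ ZMod p, ∀ y : M, y ^ p ≠ ∏ δ ∈ S, a δ ^ (θ ((χ δ)⁻¹ : Fˣ)).val) →
    ∃ j, j < p - 1 ∧ Even j ∧ ∃ θ : F →+ ZMod p,
      ∀ y : M, y ^ p ≠ ∏ δ, a δ ^ (θ ((χ δ * u δ ^ j)⁻¹ : Fˣ)).val

/-! ## The fields -/

/-- (OME) the cyclotomic character.

PROOF. `IsPrimitiveRoot.autToPow` (Mathlib) with values in `(ZMod p)ˣ`, followed by `Units.map (ZMod.castHom (dvd_refl p) F)`. Every `z ≠ 1` with `z^p = 1` is a power `ω^a`, `a` prime to `p`; `σ z = z^c` gives `σ ω = ω^c`. -/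
def Oi_OME : Prop :=
  ∀ (F : Type) [Field F] (p : ℕ) [Fact p.Prime] [CharP F p] (k K : IntermediateField ℚ ℂ)
    [FiniteDimensional ℚ K] (h : k ≤ K) (_ : ∃ ω ∈ K, IsPrimitiveRoot ω p),
    ∃ om : (letI := algC h; (↥K ≃ₐ[k] ↥K) →* Fˣ), IsOm F p h om

/-- (SUB) `K B_n` is in the ray class field of its level. MODEL: `tn_SUB` (`NS/I_SUB.lean`), `tp_SUB` (`NS/IR_SUB.lean`, the first half).

USES Si_IAF (`Pool.Agent.MUXI.i_IAF`), t_CYCO (`OB/J_LAYO.lean`), So_BAS. PROOF. First part: as `tn_SUB`: `B_n ≤ ℚ(μ_(p^(n+1)))` (CYCO (1)) and the roots of unity are in `RF (idl (lvX p f n))` (IAF 8). Second part, `er = 2`: as `tp_SUB`: `idl p = P^2` (BAS: `idl p = Pc P * P^2`, and `Pc P = ⊤`, see the proof of PRF (5)), `lvR P f n ≤ idl (p f)`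
(`n ≥ 1`), and `c - 1 ∈ lvR P f n` implies `p^(n+1) ∣ nm c - 1`: `c = 1 + y`, `y ∈ P^(2n+1) = p^n P`, `y = p^n z`, `z ∈ P`, `nm c = 1 + p^n tr z + p^(2n) nm z`; `tr z = z + star z ∈ P ∩ ℤ = p ℤ` (`cjI P = P`), `nm z ∈ p ℤ`. -/
def Oi_SUB : Prop :=
  ∀ (p er : ℕ) (A B : ℤ) (P : Ideal (OO A B)) (V : ValuationSubring ℂ) (f : ℕ),
    SetO p er A B P V f → TorX A B →
    (∃ (b : Ideal (OO A B)) (L : PeriodPair) (om : ℂ), IsNL b L om) →
    ∀ (K : IntermediateField ℚ ℂ), (∀ y ∈ K, y ∈ RF (idl (A := A) (B := B) (lvX p f 0))) →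
    ∀ (n : ℕ) (Bn : IntermediateField ℚ ℂ), 1 ≤ n → IsLayer p n Bn → InRF er P p f n (K ⊔ Bn)

/-- (GAM) an automorphism `γ` of `K_n / k` with fixed field `K`, which maps `ζ` to `ζ^(1+p)`. MODEL: `MUX/I_GAM.lean`.

USES S_GENX, t_CYCO (`OB/J_LAYO.lean`). PROOF. `ζ = zt (p^(n+1)) ∈ K_n` (CYCO (2), `K_n ≥ B_n`, `ω ∈ K`). `g` from GENX, of order `p^n` with fixed field `K`. `g ζ = ζ^c`; `g` fixes `ζ^(p^n) ∈ K` (a power of `ω`), so `c ≡ 1` modulo `p`. The powers `g^i`, `i < p^n`, have different values at `ζ`: if `g^i ζ = ζ` then `g^i` is trivial on `K` and on `B_n ≤ ℚ(ζ)` (CYCO (1)), so on `K ⊔ B_n`. There are `p^n`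
numbers `ζ^c`, `c ≡ 1` modulo `p`, so some `g^i =: γ` has `γ ζ = ζ^(1+p)`. `γ^j ζ = ζ^((1+p)^j)`, `(1+p)^j ≡ 1` modulo `p^(n+1)` only if `p^n ∣ j` (LTE, `p` odd), so `γ` has order `p^n`, `⟨γ⟩ = ⟨g⟩` and the fixed field of `γ` is `K`. -/
def Oi_GAM : Prop :=
  ∀ (p : ℕ) [Fact p.Prime] (_ : p ≠ 2) (k K : IntermediateField ℚ ℂ)
    (Bn : ℕ → IntermediateField ℚ ℂ)
    [FiniteDimensional ℚ K] [∀ n, FiniteDimensional ℚ ↥(K ⊔ Bn n)] (_ : BasX p k K Bn)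
    (_ : ∃ ω ∈ K, IsPrimitiveRoot ω p) (n : ℕ) (h : k ≤ K ⊔ Bn n),
    letI := algC h
    ∃ γ : ↥(K ⊔ Bn n) ≃ₐ[k] ↥(K ⊔ Bn n),
      (∀ x : ↥(K ⊔ Bn n), γ x = x ↔ (x : ℂ) ∈ K) ∧
      ∀ x : ↥(K ⊔ Bn n), (x : ℂ) = zt (p ^ (n + 1)) + (zt (p ^ (n + 1)))⁻¹ →
        ((γ x : ↥(K ⊔ Bn n)) : ℂ) =
          zt (p ^ (n + 1)) ^ (1 + p) + (zt (p ^ (n + 1)) ^ (1 + p))⁻¹

/-- (NCR) the group `NC h (RB p n)`.

USES t_CYCO, t_LAYO (`OB/J_LAYO.lean`). PROOF. `ζ = zt (p^(n+1)) ∈ K ⊔ Bn` (CYCO (2)), so `RB p n = ℚ(ζ + ζ⁻¹) ≤ K ⊔ Bn`. `Bn ≤ RB p n`: `Bn ≤ ℚ(ζ)` (CYCO (1)) and `Bn` is real (`IsLayer`); `ℚ(ζ)` is abelian over `ℚ` and `RB p n` is its maximal real subfield (the element of `Gal(ℚ(ζ)/ℚ)` given by complex conjugation fixes `Bn`; `[ℚ(ζ) : RB] = 2`); or: `ℚ(ζ)/ℚ` is cyclic of degree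
`p^n (p-1)`, `RB p n` has degree `p^n (p-1)/2` (`MU3I.Ilay.deg`), a multiple of `p^n`, so it contains a field of degree `p^n` (`OB.Lay.exSub`), which is `Bn` (`OB.Lay.uniqO`). The equivalence for `δ ∈ NC h Bn`: let `δ ζ = ζ^c`, so `δ z = z^c` for all `z` with `z^p = 1`. (→) `δ` fixes `ζ + ζ⁻¹`: `ζ^c = ζ^(±1)`. (←) `c ≡ ε = ± 1` modulo `p`.
The restriction of `δ` to `ℚ(ζ)` is in `Gal(ℚ(ζ)/Bn)`, which has order `[ℚ(ζ) : Bn] = p - 1`: `c^(p-1) ≡ 1` modulo `p^(n+1)`. `(ε c)^(p^n) ≡ 1` modulo `p^(n+1)` (as `ε c ≡ 1` modulo `p`) and `(ε c)^(p-1) ≡ 1` (`p - 1` is even): `ε c ≡ 1` modulo `p^(n+1)`, so `δ ζ = ζ^ε`. -/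
def Oi_NCR : Prop :=
  ∀ (p : ℕ) [Fact p.Prime] (_ : p ≠ 2) (k K : IntermediateField ℚ ℂ) (n : ℕ)
    (Bn : IntermediateField ℚ ℂ) (_ : IsLayer p n Bn) (_ : ∃ ω ∈ K, IsPrimitiveRoot ω p)
    (h : k ≤ K ⊔ Bn), letI := algC h
    Bn ≤ RB p n ∧ RB p n ≤ K ⊔ Bn ∧
    ∀ δ : ↥(K ⊔ Bn) ≃ₐ[k] ↥(K ⊔ Bn), δ ∈ NC h Bn →
      (δ ∈ NC h (RB p n) ↔ ∀ z : ↥(K ⊔ Bn), z ^ p = 1 → δ (z + z⁻¹) = z + z⁻¹)

/-- (E0) the characters `e0` and `kp` attached to a character of `Gal(K/k)`, `K ≤ RF (f p)`. MODEL: `tn_E0` (`NS/I_E0.lean`), the same proof with `SetQ`.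

USES Si_ARF, Sx_NIM. -/
def Oi_E0 : Prop :=
  ∀ (p : ℕ) (A B : ℤ) (f : ℕ),
    SetQ p A B f → TorX A B → ∀ (ι : Type) (R : Reps A B (p * f) ι)
    (K : IntermediateField ℚ ℂ) (hK : kk A B ≤ K),
    (∀ y ∈ K, y ∈ RF (idl (A := A) (B := B) (lvX p f 0))) → letI := algC hK
    ∀ (_ : IsGalois (kk A B) K) (X : (K ≃ₐ[kk A B] K) →* ℂˣ) (r : ℕ) (_ : ∀ τ, X τ ^ r = 1),
    ∃ (e0 : OO A B → ℂ) (kp : ι → ℂ), e0 1 = 1 ∧ e0 (-1) = 1 ∧ (∀ x y, e0 (x * y) = e0 x * e0 y) ∧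
      (∀ x y, x - y ∈ idl (A := A) (B := B) (lvX p f 0) → e0 x = e0 y) ∧
      (∀ x, e0 x ≠ 0 ↔ IsCoprime x ((lvX p f 0 : ℕ) : OO A B)) ∧
      (∀ x, e0 x ≠ 0 → e0 x ^ r = 1) ∧ (∀ i, kp i ^ r = 1) ∧
      ∀ (τ : K ≃ₐ[kk A B] K) (i : ι) (x : OO A B), IsCoprime x ((lvX p f 0 : ℕ) : OO A B) →
        AR hK (idl (lvX p f 0)) τ (sp x * cjI (R.b i)) → (((X τ)⁻¹ : ℂˣ) : ℂ) = kp i * e0 x

/-- (XMX) the sets `XX` satisfy `XM` for the group `NC h (RB p n)`. MODEL: `tn_XMX` (`NS/I_XMX.lean`): there `Bn = ℚ(t)` by `Si_LAY`; here `RB p n = ℚ(t)` by definition, `D = K ⊔ Bn` is an arbitrary field.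

USES Si_XXF, Si_ARF. -/
def Oi_XMX : Prop :=
  ∀ (p : ℕ) (A B : ℤ) (f : ℕ),
    SetQ p A B f → TorX A B → ∀ (ι : Type) (R : Reps A B (p * f) ι)
    (D : IntermediateField ℚ ℂ) (n : ℕ) (h : kk A B ≤ D), RB p n ≤ D →
    (∀ y ∈ D, y ∈ RF (idl (A := A) (B := B) (lvX p f n))) → letI := algC h
    ∀ (_ : IsGalois (kk A B) ↥D) (γ : ↥D ≃ₐ[kk A B] ↥D),
    (∀ x : ↥D, (x : ℂ) = zt (p ^ (n + 1)) + (zt (p ^ (n + 1)))⁻¹ →
        ((γ x : ↥D) : ℂ) =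
          zt (p ^ (n + 1)) ^ (1 + p) + (zt (p ^ (n + 1)) ^ (1 + p))⁻¹) →
    XM R p f n γ (NC h (RB p n)) (fun τ => XX R (lvX p f n) h τ)

/-- (TSH) the sums of the logarithmic derivatives. MODEL: `tn_TSH` (`NS/I_TSH.lean`), the same proof with `SetQ`.

USES Si_PTP, Sx_ALG. -/
def Oi_TSH : Prop :=
  ∀ (p : ℕ) (A B : ℤ) (f : ℕ),
    SetQ p A B f → ∀ g : Ideal (OO A B), idl (A := A) (B := B) (lvX p f 0) ≤ g →
    ∀ (ι : Type) (R : Reps A B (p * f) ι) (n : ℕ) (e : OO A B → ℂ),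
    IsEI g e → ∀ (i : ι) (t : ℤ),
    muX R i * sumMod ((lvX p f n : ℕ) : OO A B) (fun x =>
      if ((p ^ (n + 1) : ℕ) : ℤ) ∣ nm x * nI (R.b i) - t then
        e x * dlX (R.L i) (aX p f) (pt R (lvX p f n) i x) else 0) =
      (aX p f : ℂ) * SnX R (lvX p f n) (p ^ (n + 1)) e i ((aX p f : ℤ) ^ 2 * t) -
        (aX p f : ℂ) ^ 2 * SnX R (lvX p f n) (p ^ (n + 1)) e i t

/-- (TH) the sums `That_j` with a twist `t`. MODEL: `tn_TH` (`NS/I_TH.lean`; there `t = 1` or `t = w3`).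

USES TSH. PROOF. As there. If `p^(n+1)` divides `nm x * N - (1+p)^j`, `N = nI (b i)`, then `t (nm x) t(N) = t 1 = 1` (`t` has period `p`), and if it divides `nm x * N + (1+p)^j` then `t (nm x) t(N) = t (-1) = s`, so `t (nm x) = (t N)⁻¹` resp. `s (t N)⁻¹`. -/
def Oi_TH : Prop :=
  ∀ (p : ℕ) (A B : ℤ) (f : ℕ),
    SetQ p A B f → ∀ g : Ideal (OO A B), idl (A := A) (B := B) (lvX p f 0) ≤ g → g ≤ idl f →
    ∀ (ι : Type) [Fintype ι] (R : Reps A B (p * f) ι) (n : ℕ) (G : Type)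
    [Group G] [Finite G] (γ : G) (Δ : Subgroup G) [Fintype Δ]
    (X : G → Set (ι × (OO A B ⧸ idl (A := A) (B := B) (lvX p f n)))), XM R p f n γ Δ X →
    ∀ (χ : Δ →* ℂˣ) (e0 : OO A B → ℂ) (kp c : ι → ℂ) (w : OO A B → ℂ) (e : OO A B → ℂ)
    (s : ℤ) (t : ℤ → ℂ),
    (∀ x y, x - y ∈ idl (A := A) (B := B) (lvX p f n) → e0 x = e0 y) →
    (∀ x y, x - y ∈ idl (A := A) (B := B) (lvX p f n) → w x = w y) →
    IsEI g e → (∀ a b : ℤ, t (a * b) = t a * t b) → (∀ a b : ℤ, (p : ℤ) ∣ a - b → t a = t b) →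
    t 1 = 1 → t (-1) = s →
    (∀ x, IsCoprime x ((lvX p f 0 : ℕ) : OO A B) → e0 x * w x = e x * t (nm x)) →
    (∀ (δ : Δ) (j : ℕ), ∀ q ∈ X (γ ^ j * (δ : G)),
      (((χ δ)⁻¹ : ℂˣ) : ℂ) = kp q.1 * e0 (Quotient.out q.2)) →
    ∀ j : ℕ,
    ∑ δ : Δ, (((χ δ)⁻¹ : ℂˣ) : ℂ) * ∑ᶠ q ∈ X (γ ^ j * (δ : G)), w (Quotient.out q.2) *
        c q.1 * dlX (R.L q.1) (aX p f) (pt R (lvX p f n) q.1 (Quotient.out q.2)) =
      STX R (lvX p f n) (p ^ (n + 1)) (aX p f) e (kkT R kp c t) ((1 + (p : ℤ)) ^ j) +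
        s * STX R (lvX p f n) (p ^ (n + 1)) (aX p f) e (kkT R kp c t) (-(1 + (p : ℤ)) ^ j)

/-! ## The result -/

/-- (I31) one level, `T`, one even branch. Module of helper79. MODEL: `tn_I31` (`NS/I_I31.lean`).

USES Sj_RES, CHI, Sn_FOU, St_ITG, EPS, TEI, E0, Si_ARF, Si_XXF, SUB, GAM, NCR, XMX, Si_BIJ, TH, BRA, Si_GEN, O_HFIN, S_GALX. -/
def Oi_I31 : Prop :=
  ∀ (p er : ℕ) [Fact p.Prime] (A B : ℤ) (P : Ideal (OO A B)) (V : ValuationSubring ℂ) (f : ℕ),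
    SetO p er A B P V f → TorX A B →
    ∀ (ι : Type) [Fintype ι] (R : Reps A B (p * f) ι) (u el lam : ℂ),
    GoodL V (R.L R.i0) u el lam →
    ∀ (K : IntermediateField ℚ ℂ) (Bn : ℕ → IntermediateField ℚ ℂ)
    [FiniteDimensional ℚ K] [∀ n, FiniteDimensional ℚ ↥(K ⊔ Bn n)]
    (hB : BasX p (kk A B) K Bn)
    (_ : ¬ p ∣ Module.finrank (kk A B) (IntermediateField.extendScalars hB.hk))
    (_ : ∃ ω ∈ K, IsPrimitiveRoot ω p)
    (_ : ∀ y ∈ K, y ∈ RF (idl (A := A) (B := B) (lvX p f 0)))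
    (hk : ∀ n, kk A B ≤ K ⊔ Bn n) (hkK : kk A B ≤ K)
    (C : ∀ n, (letI := algC (hk n); ↥(K ⊔ Bn n) ≃ₐ[kk A B] ↥(K ⊔ Bn n)) → ℂ)
    (_ : ∀ n, 1 ≤ n → EInpO p er P V f R u n (hk n) (C n)) (c₀ : ℕ → ℂ)
    (mem : ∀ n, c₀ n ∈ K ⊔ Bn n) (_ : ∀ n, 1 ≤ n → c₀ n = C n (letI := algC (hk n); 1))
    (χ om : (letI := algC hkK; (↥K ≃ₐ[kk A B] ↥K) →* (IsLocalRing.ResidueField V)ˣ))
    (_ : IsOm (IsLocalRing.ResidueField V) p hkK om) (n₀ : ℕ),
    ∃ n, n₀ ≤ n ∧ ∃ j, j < p - 1 ∧ Even j ∧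
      I3At (IsLocalRing.ResidueField V) p (kk A B) K Bn hkK (brO hkK χ om j) 1 n (hk n) (c₀ n)
        (mem n)

/-- THE RESULT of block I: for every `χ` there is an even branch `χ om^j` with the input (I3) of block K. Module of helper79.

USES I31, Sn_LEM1, Sn_NRX. -/
def O_I3 : Prop :=
  ∀ (p er : ℕ) [Fact p.Prime] (A B : ℤ) (P : Ideal (OO A B)) (V : ValuationSubring ℂ) (f : ℕ),
    SetO p er A B P V f → TorX A B →
    ∀ (ι : Type) [Fintype ι] (R : Reps A B (p * f) ι) (u el lam : ℂ),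
    GoodL V (R.L R.i0) u el lam →
    ∀ (K₀ K : IntermediateField ℚ ℂ) (Bn : ℕ → IntermediateField ℚ ℂ)
    [FiniteDimensional ℚ (kk A B)] [FiniteDimensional ℚ K] [∀ n, FiniteDimensional ℚ ↥(K ⊔ Bn n)]
    (_ : SetX p (kk A B) K₀ K Bn)
    (_ : ∀ y ∈ K₀, y ∈ RF (idl (A := A) (B := B) (lvX p f 0)))
    (hk : ∀ n, kk A B ≤ K ⊔ Bn n) (hk₀ : ∀ n, kk A B ≤ K₀ ⊔ Bn n) (hkK : kk A B ≤ K₀)
    (S : Finset ℕ) (c c₀ : ℕ → ℂ) (n₁ : ℕ)
    (hW : Pool.Agent.MUXZ.InpW p (kk A B) K₀ K Bn hk hk₀ S c c₀ n₁)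
    (C : ∀ n, (letI := algC (hk₀ n); ↥(K₀ ⊔ Bn n) ≃ₐ[kk A B] ↥(K₀ ⊔ Bn n)) → ℂ)
    (_ : ∀ n, 1 ≤ n → EInpO p er P V f R u n (hk₀ n) (C n))
    (_ : ∀ n, 1 ≤ n → c₀ n = C n (letI := algC (hk₀ n); 1))
    (χ om : (letI := algC hkK; (↥K₀ ≃ₐ[kk A B] ↥K₀) →* (IsLocalRing.ResidueField V)ˣ))
    (_ : IsOm (IsLocalRing.ResidueField V) p hkK om),
    ∃ j, j < p - 1 ∧ Even j ∧ ∀ N n₀ : ℕ, ∃ n, n₀ ≤ n ∧
      I3At (IsLocalRing.ResidueField V) p (kk A B) K₀ Bn hkK (brO hkK χ om j) N n (hk₀ n) (c₀ n)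
        (hW.mem₀ n)

end

end Pool.Agent.OBI


end
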