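import Mathlib
import Pool.Agent.MVF.C068
import Pool.Agent.MVF.C070
import Pool.Agent.MVF.C071
import Pool.Agent.MVF.C093
import Pool.Agent.MVF.C106
import Pool.Agent.OBM.C01

/-! Parts: OB.J_LAYO, OB.K_ALG, OB.K_BNDO, OB.K_CNJ, OB.K_I3O, OB.K_KOLO, OB.K_MAINO, OB.K_PIG, OB.J_TRF -/

section

/-!
# OB, block J: the layers of the cyclotomic `ℤ_p`-extension for an odd prime `p` (helper19)

`LAYO`: the layers exist, form a tower and are unique. `CYCO`: the `n`-th layer is contained in the field of the roots of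
unity of order `p^(n+1)`, and this field is the composite of the `n`-th layer and the field of the `p`-th roots of unity.
-/

set_option autoImplicit false

open NumberField Polynomial

namespace Pool.Agent.OB

namespace Lay

open Pool.Agent.RI Pool.Agent.RID Pool.Agent.MU3I Pool.Agent.MU3I.Ilay

section gen

variable {F E : Type} [Field F] [Field E] [Algebra F E]

/-- the field of the roots of unity of order `p^m` is cyclic, `p` odd -/
lemma cycC (p m : ℕ) [hp : Fact p.Prime] (h2 : p ≠ 2) (hirr : Irreducible (cyclotomic (p ^ m) F))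
    {r : E} (hr : IsPrimitiveRoot r (p ^ m)) :
    FiniteDimensional F (IntermediateField.adjoin F {z : E | z ^ (p ^ m) = 1}) ∧
    IsGalois F (IntermediateField.adjoin F {z : E | z ^ (p ^ m) = 1}) ∧
    IsCyclic ((IntermediateField.adjoin F {z : E | z ^ (p ^ m) = 1}) ≃ₐ[F]
      (IntermediateField.adjoin F {z : E | z ^ (p ^ m) = 1})) ∧
    Module.finrank F (IntermediateField.adjoin F {z : E | z ^ (p ^ m) = 1}) =
      Nat.totient (p ^ m) := by
  have hN : p ^ m ≠ 0 := pow_ne_zero m hp.out.ne_zero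
  have : NeZero (p ^ m) := ⟨hN⟩
  set C := IntermediateField.adjoin F {z : E | z ^ (p ^ m) = 1} with hC
  have hcyc : IsCyclotomicExtension {p ^ m} F C := by
    have h := IntermediateField.isCyclotomicExtension_adjoin_of_exists_isPrimitiveRoot
      ({p ^ m} : Set ℕ) F E (fun n hn _ => by
        rw [Set.mem_singleton_iff] at hn
        rw [hn]
        exact ⟨r, hr⟩)
    have hset : {x : E | ∃ n ∈ ({p ^ m} : Set ℕ), n ≠ 0 ∧ x ^ n = 1} =
        {z : E | z ^ (p ^ m) = 1} := by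
      ext x
      simp [hp.out.ne_zero]
    rw [hset] at h
    exact h
  have hg : IsGalois F C := IsCyclotomicExtension.isGalois {p ^ m} F C
  have hfd : FiniteDimensional F C := IsCyclotomicExtension.finiteDimensional {p ^ m} F C
  refine ⟨hfd, hg, ?_, IsCyclotomicExtension.finrank C hirr⟩
  have hc : IsCyclic (ZMod (p ^ m))ˣ := ZMod.isCyclic_units_of_prime_pow p hp.out h2 m
  have e := IsCyclotomicExtension.autEquivPow C hirr
  exact isCyclic_of_surjective e.symm.toMonoidHom e.symm.surjective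

/-- subfields of a cyclic extension of given degree exist -/
lemma exSub (D : IntermediateField F E) [FiniteDimensional F D] [IsGalois F D]
    [IsCyclic (D ≃ₐ[F] D)] (d : ℕ) (hd : d ∣ Module.finrank F D) :
    ∃ Q : IntermediateField F E, Q ≤ D ∧ Module.finrank F Q = d := by
  obtain ⟨g, hg⟩ := IsCyclic.exists_generator (α := D ≃ₐ[F] D)
  have hc : orderOf g = Module.finrank F D := by
    rw [orderOf_eq_card_of_forall_mem_zpowers hg, IsGalois.card_aut_eq_finrank]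
  have hpos : 0 < Module.finrank F D := Module.finrank_pos
  have hd0 : 0 < d := Nat.pos_of_dvd_of_pos hd hpos
  obtain ⟨k, hk⟩ := hd
  have hk0 : 0 < k := by
    rcases Nat.eq_zero_or_pos k with h | h
    · rw [h, mul_zero] at hk; omega
    · exact h
  set S := Subgroup.zpowers (g ^ d) with hS
  have hSc : Nat.card S = k := by
    rw [hS, Nat.card_zpowers, orderOf_pow_of_dvd hd0.ne' (by rw [hc]; exact ⟨k, hk⟩), hc, hk,
      Nat.mul_div_cancel_left k hd0]
  refine ⟨IntermediateField.lift (IntermediateField.fixedField S),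
    IntermediateField.lift_le _, ?_⟩
  have h1 : Module.finrank (IntermediateField.fixedField S) D = k := by
    rw [IntermediateField.finrank_fixedField_eq_card, hSc]
  have h2 := Module.finrank_mul_finrank F (IntermediateField.fixedField S) D
  rw [h1, hk] at h2
  have h3 : Module.finrank F (IntermediateField.fixedField S) = d :=
    Nat.eq_of_mul_eq_mul_right hk0 h2
  rw [← h3]
  exact (IntermediateField.liftAlgEquiv (IntermediateField.fixedField S)).toLinearEquiv.finrank_eq.symm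

/-- an involution is trivial on a normal extension of odd degree -/
lemma fixOdd (c : E →ₐ[F] E) (hc : ∀ x, c (c x) = x) (Q : IntermediateField F E)
    [FiniteDimensional F Q] [IsGalois F Q] (ho : Odd (Module.finrank F Q)) :
    ∀ x ∈ Q, c x = x := by
  let s : Q ≃ₐ[F] Q := AlgHom.restrictNormal' c Q
  have hs : ∀ x : Q, ((s x : Q) : E) = c (x : E) := fun x =>
    AlgHom.restrictNormal_commutes c Q x
  have h2 : s ^ 2 = 1 := by
    ext x
    rw [pow_two, AlgEquiv.mul_apply, hs, hs, hc]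
    rfl
  have h3 : s ^ Module.finrank F Q = 1 := by
    rw [← IsGalois.card_aut_eq_finrank F Q]
    exact pow_card_eq_one'
  have h4 : s = 1 := by
    obtain ⟨k, hk⟩ := ho
    rw [hk, pow_succ, pow_mul, h2, one_pow, one_mul] at h3
    exact h3
  intro x hx
  rw [← hs ⟨x, hx⟩, h4]
  rfl

/-- subfields of the same degree of the cyclotomic field are equal -/
lemma uniqG (p m : ℕ) [hp : Fact p.Prime] (h2 : p ≠ 2) (hirr : Irreducible (cyclotomic (p ^ m) F))
    {r : E} (hr : IsPrimitiveRoot r (p ^ m)) (Q R : IntermediateField F E)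
    (hQ : Q ≤ IntermediateField.adjoin F {z : E | z ^ (p ^ m) = 1})
    (hR : R ≤ IntermediateField.adjoin F {z : E | z ^ (p ^ m) = 1})
    (hd : Module.finrank F Q = Module.finrank F R) : Q = R := by
  obtain ⟨h3, h4, h5, -⟩ := cycC (F := F) (E := E) p m h2 hirr hr
  exact uniq Q R _ hQ hR hd

/-- subfields of the subfields of the cyclotomic field -/
lemma subG (p m : ℕ) [hp : Fact p.Prime] (h2 : p ≠ 2) (hirr : Irreducible (cyclotomic (p ^ m) F))
    {r : E} (hr : IsPrimitiveRoot r (p ^ m)) (B : IntermediateField F E)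
    (hB : B ≤ IntermediateField.adjoin F {z : E | z ^ (p ^ m) = 1}) (d : ℕ)
    (hd : d ∣ Module.finrank F B) : ∃ Q : IntermediateField F E, Q ≤ B ∧ Module.finrank F Q = d := by
  obtain ⟨h3, h4, h5, -⟩ := cycC (F := F) (E := E) p m h2 hirr hr
  have hN : p ^ m ≠ 0 := pow_ne_zero m hp.out.ne_zero
  have hab := LAY.isAbelian_of_le (p ^ m) hN ⟨r, hr⟩ B hB
  have hG := hab.toIsGalois
  have hBn := hG.to_normal
  have hfd : FiniteDimensional F B :=
    FiniteDimensional.of_injective (IntermediateField.inclusion hB).toLinearMap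
      (IntermediateField.inclusion hB).injective
  set C := IntermediateField.adjoin F {z : E | z ^ (p ^ m) = 1} with hC
  let _ : Algebra B C := (IntermediateField.inclusion hB).toRingHom.toAlgebra
  have : IsScalarTower F B C := IsScalarTower.of_algebraMap_eq fun x => rfl
  let ρ : (C ≃ₐ[F] C) →* (B ≃ₐ[F] B) := AlgEquiv.restrictNormalHom B
  have hρ : Function.Surjective ρ := AlgEquiv.restrictNormalHom_surjective C
  have hcy : IsCyclic (B ≃ₐ[F] B) := isCyclic_of_surjective ρ hρ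
  exact exSub B d hd

end gen

/-- the cyclotomic field -/
noncomputable def CCf (p m : ℕ) : IntermediateField ℚ ℂ :=
  IntermediateField.adjoin ℚ {z : ℂ | z ^ (p ^ m) = 1}

lemma cc_mono (p : ℕ) {m n : ℕ} (h : m ≤ n) : CCf p m ≤ CCf p n := by
  unfold CCf
  apply IntermediateField.adjoin.mono
  intro z hz
  have hz' : z ^ p ^ m = 1 := hz
  obtain ⟨t, ht⟩ := pow_dvd_pow p h
  show z ^ p ^ n = 1
  rw [ht, pow_mul, hz', one_pow]

/-- a subfield of degree `p^n` of the cyclotomic field is a layer, `p` odd -/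
lemma layer_of (p : ℕ) [hp : Fact p.Prime] (h2 : p ≠ 2) (n m : ℕ) (Q : IntermediateField ℚ ℂ)
    (hQ : Q ≤ CCf p m) (hd : Module.finrank ℚ Q = p ^ n) : IsLayer p n Q := by
  have hN : p ^ m ≠ 0 := pow_ne_zero m hp.out.ne_zero
  refine ⟨hd, ?_, m, hQ⟩
  have hab := LAY.isAbelian_of_le (p ^ m) hN ⟨_, Complex.isPrimitiveRoot_exp _ hN⟩ Q hQ
  have hG := hab.toIsGalois
  have hfd : FiniteDimensional ℚ Q :=
    Module.finite_of_finrank_pos (by rw [hd]; exact pow_pos hp.out.pos n)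
  set c : ℂ →ₐ[ℚ] ℂ := (Complex.conjAe.toAlgHom).restrictScalars ℚ with hc
  have hcz : ∀ z : ℂ, c z = (starRingEnd ℂ) z := fun z => rfl
  intro z hz
  rw [← hcz]
  refine fixOdd c (fun x => ?_) Q ?_ z hz
  · rw [hcz, hcz, Complex.conj_conj]
  · rw [hd]
    exact (hp.out.odd_of_ne_two h2).pow

/-- subfields of the same degree of the cyclotomic fields are equal, `p` odd -/
lemma uniqO (p : ℕ) [hp : Fact p.Prime] (h2 : p ≠ 2) (m : ℕ) (Q R : IntermediateField ℚ ℂ)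
    (hQ : Q ≤ CCf p m) (hR : R ≤ CCf p m) (hd : Module.finrank ℚ Q = Module.finrank ℚ R) :
    Q = R := by
  have hN : p ^ m ≠ 0 := pow_ne_zero m hp.out.ne_zero
  have hirr : Irreducible (cyclotomic (p ^ m) ℚ) :=
    cyclotomic.irreducible_rat (Nat.pos_of_ne_zero hN)
  exact uniqG (F := ℚ) (E := ℂ) p m h2 hirr (Complex.isPrimitiveRoot_exp _ hN) Q R hQ hR hd

lemma uniqL (p : ℕ) [hp : Fact p.Prime] (h2 : p ≠ 2) (n : ℕ) (Q R : IntermediateField ℚ ℂ)
    (hQ : IsLayer p n Q) (hR : IsLayer p n R) : Q = R := by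
  obtain ⟨hq, -, m, hm⟩ := hQ
  obtain ⟨hr, -, m', hm'⟩ := hR
  exact uniqO p h2 (max m m') Q R (hm.trans (cc_mono p (le_max_left _ _)))
    (hm'.trans (cc_mono p (le_max_right _ _))) (hq.trans hr.symm)

lemma exL (p : ℕ) [hp : Fact p.Prime] (h2 : p ≠ 2) (n : ℕ) :
    ∃ Q : IntermediateField ℚ ℂ, Q ≤ CCf p (n + 1) ∧ IsLayer p n Q := by
  have hN : p ^ (n + 1) ≠ 0 := pow_ne_zero _ hp.out.ne_zero
  have hirr : Irreducible (cyclotomic (p ^ (n + 1)) ℚ) :=
    cyclotomic.irreducible_rat (Nat.pos_of_ne_zero hN)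
  obtain ⟨h3, h4, h5, h6⟩ :=
    cycC (F := ℚ) (E := ℂ) p (n + 1) h2 hirr (Complex.isPrimitiveRoot_exp _ hN)
  obtain ⟨Q, hQ, hd⟩ := subG (F := ℚ) (E := ℂ) p (n + 1) h2 hirr
    (Complex.isPrimitiveRoot_exp _ hN) (CCf p (n + 1)) le_rfl (p ^ n) (by
    unfold CCf
    rw [h6, Nat.totient_prime_pow_succ hp.out]
    exact Dvd.intro _ rfl)
  exact ⟨Q, hQ, layer_of p h2 n (n + 1) Q hQ hd⟩

end Lay

open _root_.Pool.Agent.OB.Lay Pool.Agent.RI Pool.Agent.RID

/-- LAYO: the layers exist, form a tower and are unique, for an odd prime -/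
theorem t_LAYO (p : ℕ) [hp : Fact p.Prime] (h2 : p ≠ 2) : ∃ Bn : ℕ → IntermediateField ℚ ℂ,
    (∀ n, IsLayer p n (Bn n)) ∧ Monotone Bn ∧
    ∀ (n : ℕ) (Q : IntermediateField ℚ ℂ), IsLayer p n Q → Q = Bn n := by
  choose Bn hle hL using exL p h2
  refine ⟨Bn, hL, ?_, fun n Q hQ => uniqL p h2 n Q (Bn n) hQ (hL n)⟩
  refine monotone_nat_of_le_succ (fun n => ?_)
  have hN : p ^ (n + 2) ≠ 0 := pow_ne_zero _ hp.out.ne_zero
  have hirr : Irreducible (cyclotomic (p ^ (n + 2)) ℚ) :=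
    cyclotomic.irreducible_rat (Nat.pos_of_ne_zero hN)
  obtain ⟨Q, hQ, hdQ⟩ := subG (F := ℚ) (E := ℂ) p (n + 2) h2 hirr
    (Complex.isPrimitiveRoot_exp _ hN) (Bn (n + 1)) (hle (n + 1)) (p ^ n) (by
    have hd := (hL (n + 1)).1
    rw [hd]
    exact pow_dvd_pow p (Nat.le_succ n))
  have h7 : IsLayer p n Q := layer_of p h2 n (n + 2) Q (hQ.trans (hle (n + 1))) hdQ
  rw [← uniqL p h2 n Q (Bn n) h7 (hL n)]
  exact hQ

/-- CYCO: the `n`-th layer is contained in `ℚ(μ_(p^(n+1)))`, and `ℚ(μ_(p^(n+1)))` is contained in every field which contains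
the layer and the `p`-th roots of unity -/
theorem t_CYCO (p : ℕ) [hp : Fact p.Prime] (h2 : p ≠ 2) (n : ℕ) (B : IntermediateField ℚ ℂ)
    (hB : IsLayer p n B) :
    B ≤ IntermediateField.adjoin ℚ {z : ℂ | z ^ (p ^ (n + 1)) = 1} ∧
    ∀ K : IntermediateField ℚ ℂ, B ≤ K → (∃ ω ∈ K, IsPrimitiveRoot ω p) →
      ∀ z : ℂ, z ^ (p ^ (n + 1)) = 1 → z ∈ K := by
  obtain ⟨Q, hQ, hL⟩ := exL p h2 n
  rw [uniqL p h2 n B Q hB hL]
  refine ⟨hQ, ?_⟩
  rintro K hK ⟨ω, hω, hω'⟩ z hz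
  have hN : p ^ (n + 1) ≠ 0 := pow_ne_zero _ hp.out.ne_zero
  have hirr : Irreducible (cyclotomic (p ^ (n + 1)) ℚ) :=
    cyclotomic.irreducible_rat (Nat.pos_of_ne_zero hN)
  obtain ⟨h3, h4, h5, h6⟩ :=
    cycC (F := ℚ) (E := ℂ) p (n + 1) h2 hirr (Complex.isPrimitiveRoot_exp _ hN)
  -- the degree of `ℚ(μ_p)`
  have hint : IsIntegral ℚ ω := (hω'.isIntegral hp.out.pos).tower_top
  have h7 : Module.finrank ℚ (IntermediateField.adjoin ℚ {ω}) = p - 1 := by
    rw [IntermediateField.adjoin.finrank hint, ← cyclotomic_eq_minpoly_rat hω' hp.out.pos,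
      natDegree_cyclotomic, Nat.totient_prime hp.out]
  have hωC : IntermediateField.adjoin ℚ {ω} ≤ CCf p (n + 1) := by
    rw [IntermediateField.adjoin_simple_le_iff]
    apply IntermediateField.subset_adjoin
    show ω ^ p ^ (n + 1) = 1
    rw [pow_succ' p n, pow_mul, hω'.pow_eq_one, one_pow]
  have hsup : IntermediateField.adjoin ℚ {ω} ⊔ Q = CCf p (n + 1) := by
    have hle : IntermediateField.adjoin ℚ {ω} ⊔ Q ≤ CCf p (n + 1) := sup_le hωC hQ
    have : FiniteDimensional ℚ (CCf p (n + 1)) := h3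
    refine IntermediateField.eq_of_le_of_finrank_le hle ?_
    have hfd : FiniteDimensional ℚ ↥(IntermediateField.adjoin ℚ {ω} ⊔ Q) :=
      FiniteDimensional.of_injective (IntermediateField.inclusion hle).toLinearMap
        (IntermediateField.inclusion hle).injective
    have d1 : p - 1 ∣ Module.finrank ℚ ↥(IntermediateField.adjoin ℚ {ω} ⊔ Q) := by
      rw [← h7]
      exact IntermediateField.finrank_dvd_of_le_right le_sup_left
    have d2 : p ^ n ∣ Module.finrank ℚ ↥(IntermediateField.adjoin ℚ {ω} ⊔ Q) := by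
      rw [← hL.1]
      exact IntermediateField.finrank_dvd_of_le_right le_sup_right
    have hco : Nat.Coprime (p ^ n) (p - 1) := by
      apply Nat.Coprime.pow_left
      rw [hp.out.coprime_iff_not_dvd]
      intro h
      have h1 := Nat.le_of_dvd (by have := hp.out.two_le; omega) h
      have := hp.out.two_le
      omega
    have d3 := hco.mul_dvd_of_dvd_of_dvd d2 d1
    have h8 : Module.finrank ℚ (CCf p (n + 1)) = p ^ n * (p - 1) := by
      unfold Lay.CCf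
      rw [h6, Nat.totient_prime_pow_succ hp.out]
    rw [h8]
    exact Nat.le_of_dvd Module.finrank_pos d3
  have hzC : z ∈ CCf p (n + 1) := IntermediateField.subset_adjoin _ _ hz
  rw [← hsup] at hzC
  have hKle : IntermediateField.adjoin ℚ {ω} ⊔ Q ≤ K := by
    refine sup_le ?_ hK
    rw [IntermediateField.adjoin_simple_le_iff]
    exact hω
  exact hKle hzC

end Pool.Agent.OB


end

section

/-!
# OB, block K for one character: linear algebra for the bound of the dimension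
-/

set_option autoImplicit false

namespace Pool.Agent.OB

/-- Additive functions on a finite vector space over the field with `p` elements. -/
theorem hom_dim_vec (p : ℕ) [hp : Fact p.Prime] (F : Type) [Field F] [CharP F p] (V : Type)
    [AddCommGroup V] [Module (ZMod p) V] [Finite V] (W : Submodule F (V → F))
    (hW : ∀ f ∈ W, ∀ x y, f (x + y) = f x + f y) :
    Module.finrank F W ≤ padicValNat p (Nat.card V) := by
  classical
  have hfin : Module.Finite (ZMod p) V := Module.Finite.of_finite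
  set r := Module.finrank (ZMod p) V with hr
  have hcard : p ^ r = Nat.card V := by
    have h2 := Module.natCard_eq_pow_finrank (K := ZMod p) (V := V)
    rw [Nat.card_zmod] at h2
    exact h2.symm
  have hle : padicValNat p (Nat.card V) = r := by
    rw [← hcard, padicValNat.prime_pow]
  rw [hle]
  let b := Module.finBasis (ZMod p) V
  let Φ : W →ₗ[F] (Fin r → F) :=
    { toFun := fun f i => f.1 (b i)
      map_add' := fun _ _ => rfl
      map_smul' := fun _ _ => rfl }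
  have hΦ : Function.Injective Φ := by
    rw [← LinearMap.ker_eq_bot, LinearMap.ker_eq_bot']
    intro f hf
    have hadd := hW f.1 f.2
    have hf0 : ∀ i, f.1 (b i) = 0 := fun i => congrFun hf i
    let fh : V →+ F := AddMonoidHom.mk' f.1 hadd
    have hfh : ∀ x, fh x = f.1 x := fun _ => rfl
    apply Subtype.ext
    funext x
    have h1 := b.sum_repr x
    have h7 : fh x = 0 := by
      rw [← h1, map_sum]
      refine Finset.sum_eq_zero fun i _ => ?_
      have h4 : b.repr x i • b i = (b.repr x i).val • b i := by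
        rw [← Nat.cast_smul_eq_nsmul (ZMod p), ZMod.natCast_zmod_val]
      rw [h4, map_nsmul, hfh, hf0, smul_zero]
    exact h7
  have h9 := LinearMap.finrank_le_finrank_of_injective hΦ
  rwa [Module.finrank_fin_fun] at h9

/-- Functions which vanish on a subgroup are functions on the quotient. -/
theorem quot_red (F : Type) [Field F] (A : Type) [AddCommGroup A] [Finite A] (R : AddSubgroup A)
    (N : ℕ) (W : Submodule F (A → F)) (hW : ∀ f ∈ W, ∀ x y, f (x + y) = f x + f y)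
    (hR : ∀ f ∈ W, ∀ x ∈ R, f x = 0)
    (hN : ∀ W' : Submodule F ((A ⧸ R) → F), (∀ f ∈ W', ∀ x y, f (x + y) = f x + f y) →
      Module.finrank F W' ≤ N) : Module.finrank F W ≤ N := by
  let φ : ((A ⧸ R) → F) →ₗ[F] (A → F) := LinearMap.funLeft F F (QuotientAddGroup.mk : A → A ⧸ R)
  have h1 : W = (W.comap φ).map φ := by
    apply le_antisymm
    · intro f hf
      have hadd := hW f hf
      have hwd : ∀ x y : A, (QuotientAddGroup.mk x : A ⧸ R) = QuotientAddGroup.mk y → f x = f y := by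
        intro x y hxy
        have h2 : -x + y ∈ R := QuotientAddGroup.eq.1 hxy
        have h3 := hadd x (-x + y)
        rw [hR f hf _ h2, add_zero, add_neg_cancel_left] at h3
        exact h3.symm
      refine ⟨fun q => f (Quotient.out q), ?_, ?_⟩
      · have h4 : φ (fun q => f (Quotient.out q)) = f := by
          funext x
          exact hwd _ _ (Quotient.out_eq _)
        show φ (fun q => f (Quotient.out q)) ∈ W
        rw [h4]
        exact hf
      · funext x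
        exact hwd _ _ (Quotient.out_eq _)
    · rintro _ ⟨h, hh, rfl⟩
      exact hh
  have h2 : Module.finrank F W ≤ Module.finrank F (W.comap φ) := by
    conv_lhs => rw [h1]
    exact Submodule.finrank_map_le φ _
  refine h2.trans (hN (W.comap φ) ?_)
  intro f hf x y
  obtain ⟨x, rfl⟩ := QuotientAddGroup.mk_surjective x
  obtain ⟨y, rfl⟩ := QuotientAddGroup.mk_surjective y
  exact hW _ hf x y

/-- Additive functions with values in a field of characteristic `p`, on a finite group: dimension at most the exponent of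
`p` in the order. -/
theorem hom_dim (p : ℕ) [hp : Fact p.Prime] (F : Type) [Field F] [CharP F p] (A : Type)
    [AddCommGroup A] [Finite A] (W : Submodule F (A → F))
    (hW : ∀ f ∈ W, ∀ x y, f (x + y) = f x + f y) :
    Module.finrank F W ≤ padicValNat p (Nat.card A) := by
  let R : AddSubgroup A := (nsmulAddMonoidHom p : A →+ A).range
  have hR : ∀ x : A ⧸ R, p • x = 0 := by
    intro x
    obtain ⟨a, rfl⟩ := QuotientAddGroup.mk_surjective x
    have : (p : ℕ) • (QuotientAddGroup.mk a : A ⧸ R) = QuotientAddGroup.mk (p • a) := rfl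
    rw [this, QuotientAddGroup.eq_zero_iff]
    exact ⟨a, rfl⟩
  have hle : padicValNat p (Nat.card (A ⧸ R)) ≤ padicValNat p (Nat.card A) := by
    obtain ⟨c, hc⟩ := AddSubgroup.card_quotient_dvd_card R
    have h1 : Nat.card (A ⧸ R) ≠ 0 := Nat.card_pos.ne'
    have h2 : c ≠ 0 := by
      rintro rfl
      rw [mul_zero] at hc
      exact Nat.card_pos.ne' hc
    rw [hc, padicValNat.mul h1 h2]
    omega
  refine le_trans (quot_red F A R _ W hW ?_ ?_) hle
  · rintro f hf _ ⟨x, rfl⟩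
    let fh : A →+ F := AddMonoidHom.mk' f (hW f hf)
    have h3 : fh (p • x) = 0 := by
      rw [map_nsmul, nsmul_eq_mul, CharP.cast_eq_zero, zero_mul]
    exact h3
  · intro W' hW'
    exact letI : Module (ZMod p) (A ⧸ R) := AddCommGroup.zmodModule hR
    hom_dim_vec p F (A ⧸ R) W' hW'

/-- The same for functions which vanish on a subgroup. -/
theorem hom_dim_quot (p : ℕ) [hp : Fact p.Prime] (F : Type) [Field F] [CharP F p] (A : Type)
    [AddCommGroup A] [Finite A] (R : AddSubgroup A) (W : Submodule F (A → F))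
    (hW : ∀ f ∈ W, ∀ x y, f (x + y) = f x + f y) (hR : ∀ f ∈ W, ∀ x ∈ R, f x = 0) :
    Module.finrank F W ≤ padicValNat p (Nat.card (A ⧸ R)) :=
  quot_red F A R _ W hW hR fun W' hW' => hom_dim p F (A ⧸ R) W' hW'

/-- Kernels of powers. -/
theorem ker_pow_le {F V : Type} [Field F] [AddCommGroup V] [Module F V] [Module.Finite F V]
    (T : V →ₗ[F] V) (i : ℕ) :
    Module.finrank F (LinearMap.ker (T ^ i)) ≤ i * Module.finrank F (LinearMap.ker T) := by
  induction i with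
  | zero =>
    rw [pow_zero, zero_mul, Nat.le_zero]
    have : LinearMap.ker (1 : V →ₗ[F] V) = ⊥ := LinearMap.ker_id
    rw [this]
    exact finrank_bot F V
  | succ i ih =>
    -- `T` maps `ker T ^ (i+1)` to `ker T ^ i` with kernel in `ker T`
    let S : LinearMap.ker (T ^ (i + 1)) →ₗ[F] LinearMap.ker (T ^ i) :=
      T.restrict (fun x hx => by
        rw [LinearMap.mem_ker] at hx ⊢
        rw [← Module.End.mul_apply, ← pow_succ]
        exact hx)
    have h1 := LinearMap.finrank_range_add_finrank_ker S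
    have h2 : Module.finrank F (LinearMap.range S) ≤ Module.finrank F (LinearMap.ker (T ^ i)) :=
      Submodule.finrank_le _
    have h3 : Module.finrank F (LinearMap.ker S) ≤ Module.finrank F (LinearMap.ker T) := by
      let ψ : LinearMap.ker S →ₗ[F] LinearMap.ker T :=
        { toFun := fun x => ⟨x.1.1, by
            have := x.2
            rw [LinearMap.mem_ker] at this ⊢
            exact congrArg Subtype.val this⟩
          map_add' := fun _ _ => rfl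
          map_smul' := fun _ _ => rfl }
      refine LinearMap.finrank_le_finrank_of_injective (f := ψ) ?_
      intro x y hxy
      apply Subtype.ext
      apply Subtype.ext
      have h5 : (ψ x).1 = (ψ y).1 := by rw [hxy]
      exact h5
    have h4 : (i + 1) * Module.finrank F (LinearMap.ker T) =
        i * Module.finrank F (LinearMap.ker T) + Module.finrank F (LinearMap.ker T) := by ring
    omega

/-- A nilpotent operator. -/
theorem finrank_le_of_nilp {F V : Type} [Field F] [AddCommGroup V] [Module F V]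
    [Module.Finite F V] (T : V →ₗ[F] V) (l : ℕ) (hT : ∀ v, (T ^ l) v = 0) :
    Module.finrank F V ≤ l * Module.finrank F (LinearMap.ker T) := by
  have h1 : LinearMap.ker (T ^ l) = ⊤ := by
    rw [eq_top_iff]
    intro v _
    exact hT v
  have h2 := ker_pow_le T l
  rwa [h1, finrank_top] at h2

/-- The bound for a space of additive functions on which `g - 1` acts nilpotently. -/
theorem hom_nil (p l : ℕ) [hp : Fact p.Prime] (F : Type) [Field F] [CharP F p] (A : Type)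
    [AddCommGroup A] [Finite A] (W : Submodule F (A → F))
    (hW : ∀ f ∈ W, ∀ x y, f (x + y) = f x + f y) (t : AddMonoid.End A)
    (hst : ∀ f ∈ W, (fun x => f (t x)) ∈ W) (hnil : ∀ f ∈ W, ∀ x, f ((t ^ l) x) = 0) :
    Module.finrank F W ≤ l * padicValNat p (Nat.card (AddMonoidHom.ker t)) := by
  let T : W →ₗ[F] W :=
    { toFun := fun f => ⟨fun x => f.1 (t x), hst f.1 f.2⟩
      map_add' := fun _ _ => rfl
      map_smul' := fun _ _ => rfl }
  have hT1 : ∀ (f : W) (x : A), (T f).1 x = f.1 (t x) := fun _ _ => rfl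
  have hTp : ∀ (j : ℕ) (f : W) (x : A), ((T ^ j) f).1 x = f.1 ((t ^ j) x) := by
    intro j
    induction j with
    | zero => intro f x; rfl
    | succ j ih =>
      intro f x
      rw [pow_succ', Module.End.mul_apply, hT1, ih, pow_succ]
      rfl
  have h1 := finrank_le_of_nilp T l (by
    intro f
    apply Subtype.ext
    funext x
    rw [hTp]
    exact hnil f.1 f.2 x)
  refine h1.trans (Nat.mul_le_mul_left l ?_)
  -- the kernel of `T`
  have hcard : Nat.card (A ⧸ (AddMonoidHom.range (t : A →+ A))) = Nat.card (AddMonoidHom.ker t) := by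
    have e1 := AddSubgroup.card_eq_card_quotient_mul_card_addSubgroup
      (AddMonoidHom.range (t : A →+ A))
    have e2 := AddSubgroup.card_eq_card_quotient_mul_card_addSubgroup (AddMonoidHom.ker (t : A →+ A))
    have e3 : Nat.card (A ⧸ (AddMonoidHom.ker (t : A →+ A))) =
        Nat.card (AddMonoidHom.range (t : A →+ A)) :=
      Nat.card_congr (QuotientAddGroup.quotientKerEquivRange (t : A →+ A)).toEquiv
    rw [e3] at e2
    have hpos : 0 < Nat.card (AddMonoidHom.range (t : A →+ A)) := Nat.card_pos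
    rw [e2, mul_comm] at e1
    exact (Nat.eq_of_mul_eq_mul_right hpos e1).symm
  rw [← hcard]
  have h2 : Module.finrank F (LinearMap.ker T) =
      Module.finrank F ((LinearMap.ker T).map W.subtype) :=
    (LinearEquiv.finrank_eq (Submodule.equivSubtypeMap W (LinearMap.ker T)))
  rw [h2]
  refine hom_dim_quot p F A _ _ ?_ ?_
  · rintro _ ⟨f, -, rfl⟩
    exact hW f.1 f.2
  · rintro _ ⟨f, hf, rfl⟩ _ ⟨x, rfl⟩
    have h3 : T f = 0 := hf
    have h4 : (T f).1 x = 0 := by rw [h3]; rfl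
    exact h4

end Pool.Agent.OB


end

section

/-!
# OB, block K for one character: BNDO
-/

set_option autoImplicit false

open NumberField IsDedekindDomain Finset Filter Topology
open scoped nonZeroDivisors Pointwise

namespace Pool.Agent.OB

open _root_.Pool.Agent.MU3 _root_.Pool.Agent.RI _root_.Pool.Agent.RID _root_.Pool.Agent.MUXK
  _root_.Pool.Agent.MUXZ _root_.Pool.Agent.NSI

open _root_.MU3.NQ

/-- The bound for one level. -/
theorem bnd_level (p l : ℕ) [Fact p.Prime] (F : Type) [Field F] [CharP F p] (k L : Type)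
    [Field k] [Field L] [NumberField L] [Algebra k L]
    (E : Submodule F (J L → F)) (hadd : ∀ f ∈ E, ∀ x y, f (x * y) = f x + f y)
    (hprin : ∀ f ∈ E, ∀ x ∈ (prin : Lˣ →* J L).range, f x = 0) (g : L ≃ₐ[k] L)
    (hst : ∀ f ∈ E, (fun b => f (dg g b)) ∈ E) (hnil : ∀ f ∈ E, ∀ b, f ((dg g)^[l] b) = 0) :
    Module.Finite F E ∧ Module.finrank F E ≤
      l * padicValNat p ((_root_.MU3.PI L).relIndex ((_root_.MU3.PI L).comap (dg g))) := by
  let φ : (ClA L → F) →ₗ[F] (J L → F) := LinearMap.funLeft F F (cl : J L → ClA L)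
  have hneg : ∀ f ∈ E, ∀ x, f x⁻¹ = - f x := by
    intro f hf x
    have h0 : f 1 = 0 := hprin f hf 1 (one_mem _)
    have := hadd f hf x x⁻¹
    rw [mul_inv_cancel, h0] at this
    linear_combination -this
  have h1 : E = (E.comap φ).map φ := by
    apply le_antisymm
    · intro f hf
      have hwd : ∀ x y : J L, (cl x : ClA L) = cl y → f x = f y := by
        intro x y hxy
        have h2 : cl (x * y⁻¹) = 0 := by
          rw [cl_mul, cl_inv, hxy]
          exact add_neg_cancel (cl y)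
        have h3 := hprin f hf _ ((cl_eq_zero _).1 h2)
        rw [hadd f hf, hneg f hf] at h3
        linear_combination h3
      have hs : ∀ x : ClA L, ∃ b : J L, cl b = x := cl_surj
      choose o ho using hs
      refine ⟨fun q => f (o q), ?_, ?_⟩
      · have h4 : φ (fun q => f (o q)) = f := by
          funext x
          exact hwd _ _ (ho _)
        show φ (fun q => f (o q)) ∈ E
        rw [h4]
        exact hf
      · funext x
        exact hwd _ _ (ho _)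
    · rintro _ ⟨h, hh, rfl⟩
      exact hh
  have hfin : Module.Finite F (ClA L → F) := inferInstance
  constructor
  · rw [h1]
    exact Module.Finite.map _ _
  · have h2 : Module.finrank F E ≤ Module.finrank F (E.comap φ) := by
      conv_lhs => rw [h1]
      exact Submodule.finrank_map_le φ _
    refine h2.trans ?_
    rw [← card_ker g]
    refine hom_nil p l F (ClA L) (E.comap φ) ?_ (gA g - 1) ?_ ?_
    · intro f hf x y
      obtain ⟨x, rfl⟩ := cl_surj x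
      obtain ⟨y, rfl⟩ := cl_surj y
      exact hadd _ hf x y
    · intro f hf
      show φ (fun x => f ((gA g - 1 : AddMonoid.End (ClA L)) x)) ∈ E
      have h3 : φ (fun x => f ((gA g - 1 : AddMonoid.End (ClA L)) x)) =
          (-1 : F) • (fun b => (φ f) (dg g b)) := by
        funext b
        show f ((gA g - 1 : AddMonoid.End (ClA L)) (cl b)) = (-1 : F) * f (cl (dg g b))
        rw [T_cl, ← cl_inv]
        have h4 := hneg _ hf (dg g b)
        have h5 : (φ f) (dg g b)⁻¹ = f (cl (dg g b)⁻¹) := rfl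
        have h6 : (φ f) (dg g b) = f (cl (dg g b)) := rfl
        rw [h5, h6] at h4
        rw [h4]
        ring
      rw [h3]
      exact E.smul_mem _ (hst _ hf)
    · intro f hf x
      obtain ⟨b, rfl⟩ := cl_surj x
      have h3 := hnil _ hf b
      have h6 : (φ f) ((dg g)^[l] b) = f (cl ((dg g)^[l] b)) := rfl
      rw [h6] at h3
      rcases T_pow_cl g l b with h | h
      · rw [h, h3]
      · rw [h, ← cl_inv]
        have h4 := hneg _ hf ((dg g)^[l] b)
        have h5 : (φ f) ((dg g)^[l] b)⁻¹ = f (cl ((dg g)^[l] b)⁻¹) := rfl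
        rw [h5, h6, h3, neg_zero] at h4
        exact h4

open _root_.Pool.Agent.MUXK.Finx in
/-- The ambiguous classes of the layers. -/
theorem amb_layers (hGEN : S_GENX) (p : ℕ) [Fact p.Prime] (k K : IntermediateField ℚ ℂ)
    [FiniteDimensional ℚ K] (B : ℕ → IntermediateField ℚ ℂ) (hk : k ≤ K)
    [∀ n, FiniteDimensional ℚ ↥(K ⊔ B n)]
    (hdeg : ∀ n, Module.finrank ℚ ↥(K ⊔ B n) = Module.finrank ℚ K * p ^ n)
    (hB : ∀ n, IsLayer p n (B n)) (hmono : Monotone B) :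
    ∃ c₀ c₁ : ℕ, ∀ (n : ℕ) (h : k ≤ K ⊔ B n), letI := algC h
    ∃ g : ↥(K ⊔ B n) ≃ₐ[k] ↥(K ⊔ B n), (∀ x : ↥(K ⊔ B n), g x = x ↔ (x : ℂ) ∈ K) ∧
      padicValNat p ((_root_.MU3.PI ↥(K ⊔ B n)).relIndex
        ((_root_.MU3.PI ↥(K ⊔ B n)).comap (dg g))) ≤ c₀ + n * c₁ := by
  have hAMB := _root_.MU3.n_AMB _root_.MU3.n_AMBA _root_.MU3.n_AMBI _root_.MU3.n_AMBU
  have hRAMP := _root_.MU3.n_RAMP
  obtain ⟨S, hS⟩ := finS p K
  have : FiniteDimensional ℚ k :=
    FiniteDimensional.of_injective (IntermediateField.inclusion hk).toLinearMap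
      (IntermediateField.inclusion hk).injective
  refine ⟨padicValNat p (NumberField.classNumber K), S.card + NumberField.Units.rank K + 1, ?_⟩
  intro n h
  let aKL := algC (le_sup_left : K ≤ K ⊔ B n)
  let akK := algC hk
  let akL := algC h
  have : IsScalarTower k K ↥(K ⊔ B n) := towerC hk le_sup_left
  obtain ⟨g, ord, fix, -⟩ := hGEN p k K B hk hdeg hB hmono n h
  have hcyc : CycExt k K ↥(K ⊔ B n) g (p ^ n) := by
    refine ⟨ord, fun x => ?_⟩
    rw [fix x]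
    constructor
    · intro hx
      exact ⟨⟨(x : ℂ), hx⟩, rfl⟩
    · rintro ⟨y, rfl⟩
      exact y.2
  have h1 := hAMB p n k K ↥(K ⊔ B n) g hcyc S (by
    intro w hw
    have h2 := hRAMP p n K (B n) (hB n) w hw
    have hne : w.asIdeal.under (𝓞 K) ≠ ⊥ := by
      intro h0
      rw [h0, Ideal.mem_bot] at h2
      have : p ≠ 0 := (Fact.out : p.Prime).ne_zero
      exact this (by exact_mod_cast h2)
    have := w.isPrime
    exact ⟨⟨w.asIdeal.under (𝓞 K), inferInstance, hne⟩, hS _ h2, rfl⟩)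
  exact ⟨g, fix, h1⟩

theorem t_BNDO (h1 : S_MAINO) (h2 : S_GENX) (h3 : S_GALX) : S_BNDO := by
  intro F _ p _ _ k K₀ K B _ _ _ _ hX hk hk₀ hkK S c c₀ n₁ hI χ hI3
  have hfd₀ : FiniteDimensional ℚ K₀ :=
    FiniteDimensional.of_injective (IntermediateField.inclusion hX.le).toLinearMap
      (IntermediateField.inclusion hX.le).injective
  obtain ⟨l, hl⟩ := h1 F p k K₀ K B hX hk hk₀ hkK S c c₀ n₁ hI χ hI3
  obtain ⟨a₀, a₁, ha⟩ := amb_layers h2 p k K₀ B hX.b0.hk hX.b0.deg hX.b0.lay hX.b0.mono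
  refine ⟨l * (a₀ + a₁), fun n => ?_⟩
  let akK := algC hkK
  let akL := algC (hk₀ n)
  obtain ⟨g, hg, hle⟩ := ha n (hk₀ n)
  have comm := (h3 p k K₀ B hX.b0 n (hk₀ n)).2
  obtain ⟨h5, h6⟩ := bnd_level p l F k ↥(K₀ ⊔ B n) (EigS F k K₀ B n (hk₀ n) hkK χ)
    (fun f hf => hf.1) (fun f hf => hf.2.1) g (by
      rintro f ⟨e1, e2, e3⟩
      refine ⟨fun x y => ?_, fun x hx => ?_, fun δ s hs x => ?_⟩
      · show f (dg g (x * y)) = f (dg g x) + f (dg g y)
        rw [map_mul, e1]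
      · show f (dg g x) = 0
        apply e2
        obtain ⟨a, rfl⟩ := hx
        rw [dg_apply, smul_prin, ← map_div]
        exact ⟨_, rfl⟩
      · show f (dg g ((δ : ↥(K₀ ⊔ B n) ≃ₐ[k] ↥(K₀ ⊔ B n)) • x)) = (χ s : F) * f (dg g x)
        rw [← e3 δ s hs (dg g x)]
        congr 1
        rw [dg_apply, dg_apply, smul_div', ← mul_smul, ← mul_smul, comm])
    (fun f hf b => hl n g hg f hf b)
  refine ⟨h5, h6.trans ((Nat.mul_le_mul_left l hle).trans ?_)⟩
  have h7 : a₀ + n * a₁ ≤ (a₀ + a₁) * (n + 1) := by nlinarith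
  calc l * (a₀ + n * a₁) ≤ l * ((a₀ + a₁) * (n + 1)) := Nat.mul_le_mul_left l h7
    _ = l * (a₀ + a₁) * (n + 1) := by ring

end Pool.Agent.OB


end

section

/-!
# OB, block K for one character: CNJ
-/

set_option autoImplicit false

open NumberField IsDedekindDomain Finset Filter Topology
open scoped nonZeroDivisors Pointwise

namespace Pool.Agent.OB

open _root_.Pool.Agent.MU3 _root_.Pool.Agent.RI _root_.Pool.Agent.RID _root_.Pool.Agent.MUXK
  _root_.Pool.Agent.MUXZ _root_.Pool.Agent.NSI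

namespace CNJ

/-- The action of a ring automorphism on fractional ideals. -/
noncomputable def actU {L : Type} [Field L] [NumberField L] (τ : L ≃+* L) : J L →* J L :=
  Units.map (actF τ).toMonoidHom

lemma mem_actU {L : Type} [Field L] [NumberField L] (τ : L ≃+* L) (I : J L) (x : L) :
    x ∈ ((actU τ I : J L) : FractionalIdeal (𝓞 L)⁰ L) ↔
      τ.symm x ∈ (I : FractionalIdeal (𝓞 L)⁰ L) := mem_actF τ I x

lemma actU_comp {L : Type} [Field L] [NumberField L] (τ₁ τ₂ : L ≃+* L) (I : J L) :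
    actU τ₁ (actU τ₂ I) = actU (τ₂.trans τ₁) I := by
  apply Units.ext
  ext x
  rw [mem_actU, mem_actU, mem_actU]
  rfl

lemma actU_eq {L : Type} [Field L] [NumberField L] {τ₁ τ₂ : L ≃+* L} (h : ∀ x, τ₁ x = τ₂ x)
    (I : J L) : actU τ₁ I = actU τ₂ I := by
  have : τ₁ = τ₂ := RingEquiv.ext h
  rw [this]

lemma actU_smul {k L : Type} [Field k] [Field L] [NumberField L] [Algebra k L] (g : L ≃ₐ[k] L)
    (I : J L) : g • I = actU (g : L ≃+* L) I := rfl

lemma actU_prin {L : Type} [Field L] [NumberField L] (τ : L ≃+* L) (x : Lˣ) :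
    actU τ (prin x) = prin (Units.map (τ : L →* L) x) := by
  let g : L ≃ₐ[ℚ] L := AlgEquiv.ofRingEquiv (f := τ) (fun q => by
    rw [eq_ratCast, map_ratCast])
  have h := smul_prin g x
  rw [actU_smul] at h
  have e1 : actU (g : L ≃+* L) (prin x) = actU τ (prin x) := actU_eq (fun _ => rfl) _
  have e2 : g • x = Units.map (τ : L →* L) x := Units.ext rfl
  rw [← e1, h, e2]

/-- Restriction of an automorphism of `ℂ`. -/
lemma restr_ring (σ : ℂ ≃+* ℂ) (L : IntermediateField ℚ ℂ) (h : ∀ x, x ∈ L ↔ σ x ∈ L) :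
    ∃ τ : L ≃+* L, ∀ x, ((τ x : L) : ℂ) = σ x := by
  refine ⟨{ toFun := fun x => ⟨σ x, (h x).1 x.2⟩
            invFun := fun x => ⟨σ.symm x, (h _).2 (by rw [σ.apply_symm_apply]; exact x.2)⟩
            left_inv := fun x => Subtype.ext (σ.symm_apply_apply _)
            right_inv := fun x => Subtype.ext (σ.apply_symm_apply _)
            map_mul' := fun x y => Subtype.ext (map_mul σ _ _)
            map_add' := fun x y => Subtype.ext (map_add σ _ _) }, fun x => rfl⟩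

/-- The compositum. -/
lemma sup_iff (σ : ℂ ≃+* ℂ) (K B : IntermediateField ℚ ℂ) (hK : ∀ x, x ∈ K ↔ σ x ∈ K)
    (hB : ∀ x, x ∈ B ↔ σ x ∈ B) : ∀ x, x ∈ K ⊔ B ↔ σ x ∈ K ⊔ B := by
  have key : ∀ ρ : ℂ ≃+* ℂ, (∀ x ∈ K, ρ x ∈ K) → (∀ x ∈ B, ρ x ∈ B) →
      ∀ x ∈ K ⊔ B, ρ x ∈ K ⊔ B := by
    intro ρ h1 h2
    let ρ' : ℂ →ₐ[ℚ] ℂ := AlgHom.mk' (ρ : ℂ →+* ℂ) (fun q x => by
      rw [Algebra.smul_def, Algebra.smul_def, map_mul, eq_ratCast]
      congr 1
      exact map_ratCast ρ q)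
    have h3 : K ⊔ B ≤ (K ⊔ B).comap ρ' := by
      refine sup_le ?_ ?_
      · intro x hx
        exact (le_sup_left : K ≤ K ⊔ B) (h1 x hx)
      · intro x hx
        exact (le_sup_right : B ≤ K ⊔ B) (h2 x hx)
    intro x hx
    exact h3 hx
  intro x
  constructor
  · exact key σ (fun x hx => (hK x).1 hx) (fun x hx => (hB x).1 hx) x
  · intro hx
    have h4 := key σ.symm (fun x hx => (hK _).2 (by rw [σ.apply_symm_apply]; exact hx))
      (fun x hx => (hB _).2 (by rw [σ.apply_symm_apply]; exact hx)) _ hx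
    rwa [σ.symm_apply_apply] at h4

/-- `dg` and ring automorphisms. -/
lemma dg_actU {k L : Type} [Field k] [Field L] [NumberField L] [Algebra k L] (τ : L ≃+* L)
    (g g' : L ≃ₐ[k] L) (h : ∀ x, g (τ x) = τ (g' x)) (b : J L) (l : ℕ) :
    actU τ ((dg g')^[l] b) = (dg g)^[l] (actU τ b) := by
  induction l generalizing b with
  | zero => rfl
  | succ l ih =>
    rw [Function.iterate_succ_apply, ih, Function.iterate_succ_apply]
    congr 1
    rw [dg_apply, dg_apply, map_div]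
    congr 1
    rw [actU_smul, actU_smul, actU_comp, actU_comp]
    exact actU_eq (fun x => (h x).symm) _

end CNJ

open _root_.Pool.Agent.OB.CNJ in
theorem t_CNJ : S_CNJ := by
  intro F _ k K₀ B _ hk₀ hkK χ χ' σ hK hkσ hB hχ l hN n
  let akK := algC hkK
  let akL := algC (hk₀ n)
  intro g' hg' f' hf' b
  obtain ⟨e1, e2, e3⟩ := hf'
  obtain ⟨τ, hτ⟩ := restr_ring σ (K₀ ⊔ B n) (sup_iff σ K₀ (B n) hK (hB n))
  have hτs : ∀ x : ↥(K₀ ⊔ B n), ((τ.symm x : ↥(K₀ ⊔ B n)) : ℂ) = σ.symm x := by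
    intro x
    rw [RingEquiv.eq_symm_apply, ← hτ, RingEquiv.apply_symm_apply]
  have hkmem : ∀ a : k, ∃ a' : k, algebraMap k ↥(K₀ ⊔ B n) a' =
      τ.symm (algebraMap k ↥(K₀ ⊔ B n) a) := by
    intro a
    refine ⟨⟨σ.symm a, (hkσ _).2 (by rw [σ.apply_symm_apply]; exact a.2)⟩, ?_⟩
    apply Subtype.ext
    rw [hτs]
    rfl
  have hkmem' : ∀ a : k, ∃ a' : k, algebraMap k ↥(K₀ ⊔ B n) a' =
      τ (algebraMap k ↥(K₀ ⊔ B n) a) := by
    intro a
    refine ⟨⟨σ a, (hkσ _).1 a.2⟩, ?_⟩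
    apply Subtype.ext
    rw [hτ]
    rfl
  -- the conjugate of `g'`
  let g : ↥(K₀ ⊔ B n) ≃ₐ[k] ↥(K₀ ⊔ B n) :=
    AlgEquiv.ofRingEquiv (f := (τ.symm.trans (g' : ↥(K₀ ⊔ B n) ≃+* ↥(K₀ ⊔ B n))).trans τ) (by
      intro a
      obtain ⟨a', ha'⟩ := hkmem a
      show τ (g' (τ.symm (algebraMap k ↥(K₀ ⊔ B n) a))) = algebraMap k ↥(K₀ ⊔ B n) a
      rw [← ha', g'.commutes, ha', RingEquiv.apply_symm_apply])
  have hg1 : ∀ x, g x = τ (g' (τ.symm x)) := fun _ => rfl
  have hg : ∀ x : ↥(K₀ ⊔ B n), g x = x ↔ (x : ℂ) ∈ K₀ := by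
    intro x
    rw [hg1, ← RingEquiv.eq_symm_apply, hg', hτs, hK, σ.apply_symm_apply]
  -- the functional
  let f : J ↥(K₀ ⊔ B n) → F := fun x => f' (actU τ.symm x)
  have hf : EigF F k K₀ B n (hk₀ n) hkK χ f := by
    refine ⟨fun x y => ?_, fun x hx => ?_, fun δ s hs x => ?_⟩
    · show f' (actU τ.symm (x * y)) = _
      rw [map_mul, e1]
    · obtain ⟨a, rfl⟩ := hx
      show f' (actU τ.symm (prin a)) = 0
      rw [actU_prin]
      exact e2 _ ⟨_, rfl⟩
    · -- the conjugates of `δ` and `s`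
      let δ' : ↥(K₀ ⊔ B n) ≃ₐ[k] ↥(K₀ ⊔ B n) :=
        AlgEquiv.ofRingEquiv (f := (τ.trans (((δ : ↥(K₀ ⊔ B n) ≃ₐ[k] ↥(K₀ ⊔ B n))) :
          ↥(K₀ ⊔ B n) ≃+* ↥(K₀ ⊔ B n))).trans τ.symm) (by
          intro a
          obtain ⟨a', ha'⟩ := hkmem' a
          show τ.symm ((δ : ↥(K₀ ⊔ B n) ≃ₐ[k] ↥(K₀ ⊔ B n)) (τ (algebraMap k ↥(K₀ ⊔ B n) a))) =
            algebraMap k ↥(K₀ ⊔ B n) a
          rw [← ha', AlgEquiv.commutes, ha', RingEquiv.symm_apply_apply])
      have hδ1 : ∀ x, δ' x = τ.symm ((δ : ↥(K₀ ⊔ B n) ≃ₐ[k] ↥(K₀ ⊔ B n)) (τ x)) := fun _ => rfl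
      have hδm : δ' ∈ NC (hk₀ n) (B n) := by
        intro x hx
        have h1 : ((τ x : ↥(K₀ ⊔ B n)) : ℂ) ∈ B n := by
          rw [hτ]
          exact (hB n _).1 hx
        rw [hδ1, δ.2 _ h1, RingEquiv.symm_apply_apply]
      obtain ⟨t, ht⟩ := restr_ring σ K₀ hK
      have hts : ∀ x : ↥K₀, ((t.symm x : ↥K₀) : ℂ) = σ.symm x := by
        intro x
        rw [RingEquiv.eq_symm_apply, ← ht, RingEquiv.apply_symm_apply]
      let s' : ↥K₀ ≃ₐ[k] ↥K₀ :=
        AlgEquiv.ofRingEquiv (f := (t.trans (s : ↥K₀ ≃+* ↥K₀)).trans t.symm) (by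
          intro a
          have h1 : t (algebraMap k ↥K₀ a) = algebraMap k ↥K₀ ⟨σ a, (hkσ _).1 a.2⟩ := by
            apply Subtype.ext
            rw [ht]
            rfl
          show t.symm (s (t (algebraMap k ↥K₀ a))) = algebraMap k ↥K₀ a
          rw [h1, s.commutes, ← h1, RingEquiv.symm_apply_apply])
      have hs1 : ∀ x, s' x = t.symm (s (t x)) := fun _ => rfl
      have hss : χ' s' = χ s := by
        apply hχ
        intro x x' hx
        have h1 : x' = t x := Subtype.ext (hx.trans (ht x).symm)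
        rw [hs1, hts, σ.apply_symm_apply, h1]
      have h4 : ∀ (x : ↥K₀) (x' : ↥(K₀ ⊔ B n)), (x' : ℂ) = x →
          ((δ' x' : ↥(K₀ ⊔ B n)) : ℂ) = (s' x : ↥K₀) := by
        intro x x' hx
        rw [hδ1, hs1, hτs, hts]
        congr 1
        apply hs
        rw [hτ, ht, hx]
      have h5 := e3 ⟨δ', hδm⟩ s' h4 (actU τ.symm x)
      rw [hss] at h5
      show f' (actU τ.symm ((δ : ↥(K₀ ⊔ B n) ≃ₐ[k] ↥(K₀ ⊔ B n)) • x)) = (χ s : F) * f' (actU τ.symm x)
      rw [← h5]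
      congr 1
      rw [actU_smul, actU_comp]
      show _ = δ' • actU τ.symm x
      rw [actU_smul, actU_comp]
      refine actU_eq (fun y => ?_) _
      show τ.symm ((δ : ↥(K₀ ⊔ B n) ≃ₐ[k] ↥(K₀ ⊔ B n)) y) = δ' (τ.symm y)
      rw [hδ1, RingEquiv.apply_symm_apply]
  have h6 := hN n g hg f hf (actU τ b)
  have h7 : f ((dg g)^[l] (actU τ b)) = f' ((dg g')^[l] b) := by
    rw [← dg_actU τ g g' (fun x => by rw [hg1, RingEquiv.symm_apply_apply])]
    show f' (actU τ.symm (actU τ ((dg g')^[l] b))) = _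
    rw [actU_comp]
    congr 1
    have h8 : actU (τ.trans τ.symm) ((dg g')^[l] b) = actU (RingEquiv.refl _) ((dg g')^[l] b) :=
      actU_eq (fun x => by
        show τ.symm (τ x) = x
        rw [RingEquiv.symm_apply_apply]) _
    rw [h8]
    apply Units.ext
    ext x
    rw [mem_actU]
    rfl
  rw [← h7]
  exact h6

end Pool.Agent.OB


end

section

/-!
# OB, block K for one character: I3O
-/

set_option autoImplicit false

open NumberField IsDedekindDomain Finset Filter Topology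
open scoped nonZeroDivisors Pointwise

namespace Pool.Agent.OB

open _root_.Pool.Agent.MU3 _root_.Pool.Agent.RI _root_.Pool.Agent.RID _root_.Pool.Agent.MUXK
  _root_.Pool.Agent.MUXZ _root_.Pool.Agent.NSI _root_.Pool.Agent.Lib_helper28.FROB

open _root_.Pool.Agent.MUXK.I3X19 in
theorem t_I3O (h1 : S_RSX) (h2 : Sn_NRX) (h3 : S_TNX) (h4 : S_NCP) (h5 : S_GALX) : S_I3O := by
  intro F _ p _ k K₀ K B _ _ _ _ hX hk hk₀ hh hkK S c c₀ n₁ hI ψ hI3 m₀
  have hp0 : p ≠ 0 := (Fact.out : p.Prime).ne_zero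
  have hfin : FiniteDimensional ℚ K₀ :=
    FiniteDimensional.of_injective (IntermediateField.inclusion hX.le).toLinearMap
      (IntermediateField.inclusion hX.le).injective
  obtain ⟨ω, hωK, hω1⟩ := hX.om
  let _ := algC hkK
  have htow : IsScalarTower ℚ k K₀ := IsScalarTower.of_algebraMap_eq fun x => rfl
  obtain ⟨m, hm1, hm2⟩ := hI3 (p ^ (m₀ + 1) + 2) n₁
  refine ⟨m, hm1, ?_⟩
  intro n hmn
  let _ := algC (hk₀ n)
  let _ := algC (hh n)
  let _ := algC (hk n)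
  intro γ hγ _ u hu χ hχ₀
  obtain ⟨ρn, hρn⟩ := restr h1 p k K₀ B hX.b0 hX.cop hkK n (hk₀ n)
  have hψ : ∀ δ, ψ (ρn δ) = χ δ := fun δ => (hχ₀ δ (ρn δ) (hρn δ)).symm
  let _ := algC (hk₀ m)
  have hmn' : m ≤ n := hmn
  have hsub : K₀ ⊔ B m ≤ K₀ ⊔ B n := sup_le_sup_left (hX.b0.mono hmn') K₀
  obtain ⟨r, hr, hrγ, e, he⟩ := h1 p k K₀ B hX.b0 hX.cop m n hmn' (hk₀ n) (hk₀ m) hsub
  obtain ⟨ρm, hρm⟩ := restr h1 p k K₀ B hX.b0 hX.cop hkK m (hk₀ m)
  obtain ⟨hr1, hr2⟩ := hrγ γ hγ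
  let _ : Fintype (NC (hk₀ m) (B m)) := Fintype.ofEquiv _ e.toEquiv
  obtain ⟨θ, hθ0⟩ := hm2 (r γ) hr1 (fun δ => ρm δ) hρm
  have hρ : ∀ δ, ρm (e δ) = ρn δ := by
    intro δ
    refine AlgEquiv.ext fun x => Subtype.ext ?_
    have hx1 : (x : ℂ) ∈ K₀ ⊔ B m := le_sup_left (a := K₀) x.2
    rw [← hρm (e δ) x ⟨x, hx1⟩ rfl, ← hρn δ x ⟨x, hsub hx1⟩ rfl, he]
    exact hr _ ⟨x, hx1⟩
  have hχ : ∀ δ, ψ (ρm δ) = (χ.comp e.symm.toMonoidHom) δ := by
    intro δ
    show ψ (ρm δ) = χ (e.symm δ)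
    rw [← hψ, ← hρ, e.apply_symm_apply]
  have hθ : ∀ y : ↥(K₀ ⊔ B m), y ^ p ≠ ∏ δ : NC (hk₀ m) (B m),
      ((δ : ↥(K₀ ⊔ B m) ≃ₐ[k] ↥(K₀ ⊔ B m)) ((Tg (r γ))^[p ^ (m₀ + 1) + 2] ⟨c₀ m, hI.mem₀ m⟩)) ^
        (θ (((χ.comp e.symm.toMonoidHom) δ)⁻¹ : Fˣ)).val := by
    intro y hy
    refine hθ0 y (hy.trans ?_)
    exact prod_congr rfl fun δ _ => by rw [hχ]
  obtain ⟨C, hCk, hC0, hC⟩ := h2 p k K₀ K B hX hk hk₀ S c c₀ n₁ hI m n hm1 hmn' γ hγ
  refine ⟨θ, ?_⟩
  have hc0 : ∀ i, c₀ i ≠ 0 := by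
    intro i
    let _ := algC (hk i)
    rw [hI.norm i]
    refine finprod_induction (p := fun x : ℂ => x ≠ 0) one_ne_zero (fun x y hx hy => mul_ne_zero hx hy)
      fun g hg => ?_
    have h6 := (map_eq_zero ((g : NC (hk i) (K₀ ⊔ B i)) : ↥(K ⊔ B i) ≃ₐ[k] ↥(K ⊔ B i))).1
      (Subtype.ext hg)
    exact hI.ne i (congrArg Subtype.val h6)
  have hcm : (⟨c₀ m, hI.mem₀ m⟩ : ↥(K₀ ⊔ B m)) ≠ 0 := by
    intro h; exact hc0 m (congrArg Subtype.val h)
  have a1 := h3 p k ↥(K₀ ⊔ B m) (r γ) (m₀ + 1) _ hcm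
  have a2 := (h5 p k K₀ B hX.b0 m (hk₀ m)).2
  have b1 : ∀ (σ : ↥(K₀ ⊔ B n) ≃ₐ[k] ↥(K₀ ⊔ B n)) (x : ↥(K₀ ⊔ B m)),
      (IntermediateField.inclusion hsub : ↥(K₀ ⊔ B m) →+* ↥(K₀ ⊔ B n)) (r σ x) =
        σ ((IntermediateField.inclusion hsub : ↥(K₀ ⊔ B m) →+* ↥(K₀ ⊔ B n)) x) :=
    fun σ x => Subtype.ext (hr σ x)
  have b2 : ∀ x : ↥(K₀ ⊔ B n), (γ ^ (p ^ m)) x = x ↔
      ∃ z : ↥(K₀ ⊔ B m),
        (IntermediateField.inclusion hsub : ↥(K₀ ⊔ B m) →+* ↥(K₀ ⊔ B n)) z = x := by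
    intro x
    rw [hr2 x]
    constructor
    · intro hx
      exact ⟨⟨x, hx⟩, rfl⟩
    · rintro ⟨z, rfl⟩
      exact z.2
  have hK₀n : K₀ ≤ K₀ ⊔ B n := le_sup_left
  have b3 : (⟨C, hK₀n hCk⟩ : ↥(K₀ ⊔ B n)) ≠ 0 := by
    intro h; exact hC0 (congrArg Subtype.val h)
  have b4 : ∀ i : ℕ, (γ ^ i) (⟨C, hK₀n hCk⟩ : ↥(K₀ ⊔ B n)) = ⟨C, hK₀n hCk⟩ := by
    intro i
    have h6 : γ (⟨C, hK₀n hCk⟩ : ↥(K₀ ⊔ B n)) = ⟨C, hK₀n hCk⟩ := (hγ _).2 hCk
    induction i with
    | zero => rw [pow_zero, AlgEquiv.one_apply]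
    | succ i ih => rw [pow_succ, AlgEquiv.mul_apply, h6, ih]
  have b5 : ∏ i ∈ range (p ^ (n - m)), (γ ^ (p ^ m * i)) ⟨c₀ n, hI.mem₀ n⟩ =
      ⟨C, hK₀n hCk⟩ *
        (IntermediateField.inclusion hsub : ↥(K₀ ⊔ B m) →+* ↥(K₀ ⊔ B n)) ⟨c₀ m, hI.mem₀ m⟩ :=
    Subtype.ext hC
  have b6 : ∀ w : ↥(K₀ ⊔ B n), w ^ p = 1 → γ w = w := by
    intro w hw
    rw [hγ w]
    have hw' : (w : ℂ) ^ p = 1 := congrArg Subtype.val hw
    have : NeZero p := ⟨hp0⟩
    obtain ⟨i, _, hi⟩ := hω1.eq_pow_of_pow_eq_one hw'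
    rw [← hi]
    exact K₀.pow_mem hωK i
  have a4 := core (F := F) p hp0 _ r b1 a2 γ m n m₀ b2 (NC (hk₀ n) (B n)) (NC (hk₀ m) (B m)) e he
  have a5 := a4 ⟨c₀ n, hI.mem₀ n⟩ ⟨c₀ m, hI.mem₀ m⟩ hcm _ b3 b4 b5 b6 u hu χ θ
  obtain ⟨a6, a7⟩ := a5 hθ a1
  intro y hy
  have hst : IsScalarTower k ↥(K₀ ⊔ B n) ↥(K ⊔ B n) := IsScalarTower.of_algebraMap_eq fun x => rfl
  have hg1 := (h5 p k K₀ B hX.b0 n (hk₀ n)).1
  obtain ⟨hg2, hg3⟩ := h5 p k K B hX.b n (hk n)
  have hωn : ω ∈ K₀ ⊔ B n := hK₀n hωK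
  have hω2 : IsPrimitiveRoot (⟨ω, hωn⟩ : ↥(K₀ ⊔ B n)) p := by
    refine IsPrimitiveRoot.of_map_of_injective (f := (K₀ ⊔ B n).val) ?_
      (K₀ ⊔ B n).val.injective
    exact hω1
  obtain ⟨t, ht⟩ := h4 p k ↥(K₀ ⊔ B n) ↥(K ⊔ B n) hg3 γ ⟨ω, hωn⟩ hω2 ((hγ _).2 hωK) _ a6 y hy
  exact a7 t ht

end Pool.Agent.OB


end

section

/-!
# OB, block K for one character: KOLO and SU0O (copies of KOLX and SU0 for `InpW`)
-/

set_option autoImplicit false

open NumberField IsDedekindDomain Finset Filter Topology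
open scoped nonZeroDivisors Pointwise

namespace Pool.Agent.OB

open _root_.Pool.Agent.MU3 _root_.Pool.Agent.RI _root_.Pool.Agent.RID _root_.Pool.Agent.MUXK
  _root_.Pool.Agent.MUXZ _root_.Pool.Agent.NSI _root_.Pool.Agent.Lib_helper28.FROB

open _root_.Pool.Agent.MUXK.K_KOLX in
theorem t_KOLO (h1 : S_KINX) (h2 : S_KNM) (h3 : S_GALX) (h4 : S_RAMX) : S_KOLO := by
  intro p _ k K₀ K B _ _ _ _ hS
  obtain ⟨S', h2S', hpS', hS'p, hram⟩ := h4 p k K B hS.b
  refine ⟨S', h2S', hpS', hS'p, ?_⟩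
  intro hk hk₀ hh S c c₀ n₁ hI S₁ hSS hS₁p n hn
  let : Algebra k ↥(K ⊔ B n) := algC (hk n)
  let : Algebra k ↥(K₀ ⊔ B n) := algC (hk₀ n)
  let : Algebra ↥(K₀ ⊔ B n) ↥(K ⊔ B n) := algC (hh n)
  intro g g' hg'K hgg' hfix u hu
  have tower : IsScalarTower k ↥(K₀ ⊔ B n) ↥(K ⊔ B n) := IsScalarTower.of_algebraMap_eq (fun x => rfl)
  have fdK₀ : FiniteDimensional ℚ ↥K₀ :=
    FiniteDimensional.of_injective (IntermediateField.inclusion hS.le).toLinearMap
      (IntermediateField.inclusion_injective hS.le)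
  obtain ⟨galM, commM⟩ := h3 p k K B hS.b n (hk n)
  obtain ⟨galL, commL⟩ := h3 p k K₀ B hS.b0 n (hk₀ n)
  have hp : p.Prime := Fact.out
  have hsub : S ⊆ S₁ := Finset.subset_union_left.trans hSS
  have hsub' : S' ⊆ S₁ := Finset.subset_union_right.trans hSS
  have hcn : (⟨c n, hI.mem n⟩ : ↥(K ⊔ B n)) ≠ 0 := by
    intro h0
    exact hI.ne n (congrArg Subtype.val h0)
  have su1 : SU S₁ ↥(K ⊔ B n) ⟨c n, hI.mem n⟩ := P_MONO.su hsub (hI.su n hn)
  have kol1 := kol_mono hsub (hI.kol n hn)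
  obtain ⟨u', hu'⟩ := t_UNI k ↥(K ⊔ B n) S₁ ⟨c n, hI.mem n⟩ hcn su1 g' hfix p
  have hrel := h1 p k ↥(K ⊔ B n) commM S₁ (hsub' hpS') ⟨c n, hI.mem n⟩ hcn su1 _ kol1 g' hg'K
    hfix u' hu'
  have galLM : IsGalois ↥(K₀ ⊔ B n) ↥(K ⊔ B n) :=
    IsGalois.tower_top_of_isGalois k ↥(K₀ ⊔ B n) ↥(K ⊔ B n)
  have fdLM : FiniteDimensional ↥(K₀ ⊔ B n) ↥(K ⊔ B n) := inferInstance
  have hgg : ∀ x : ↥(K₀ ⊔ B n), algebraMap ↥(K₀ ⊔ B n) ↥(K ⊔ B n) (g x) =
      g' (algebraMap ↥(K₀ ⊔ B n) ↥(K ⊔ B n) x) := fun x => Subtype.ext (hgg' x).symm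
  have hnorm : Algebra.norm ↥(K₀ ⊔ B n) (⟨c n, hI.mem n⟩ : ↥(K ⊔ B n)) = ⟨c₀ n, hI.mem₀ n⟩ := by
    apply (algebraMap ↥(K₀ ⊔ B n) ↥(K ⊔ B n)).injective
    rw [Algebra.norm_eq_prod_automorphisms]
    apply Subtype.ext
    have e1 : ((algebraMap ↥(K₀ ⊔ B n) ↥(K ⊔ B n) ⟨c₀ n, hI.mem₀ n⟩ : ↥(K ⊔ B n)) : ℂ) = c₀ n := rfl
    have e2 : ((∏ σ : ↥(K ⊔ B n) ≃ₐ[↥(K₀ ⊔ B n)] ↥(K ⊔ B n), σ ⟨c n, hI.mem n⟩ : ↥(K ⊔ B n)) : ℂ) =
        ∏ σ : ↥(K ⊔ B n) ≃ₐ[↥(K₀ ⊔ B n)] ↥(K ⊔ B n), ((σ ⟨c n, hI.mem n⟩ : ↥(K ⊔ B n)) : ℂ) :=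
      map_prod (algebraMap ↥(K ⊔ B n) ℂ) _ _
    rw [e1, e2, hI.norm n, ← finprod_eq_prod_of_fintype]
    refine finprod_eq_of_bijective
      (fun σ => ⟨σ.restrictScalars k, fun x hx => σ.commutes ⟨(x : ℂ), hx⟩⟩) ⟨?_, ?_⟩ fun σ => rfl
    · intro σ τ h
      have h5 := congrArg (fun θ : NC (hk n) (K₀ ⊔ B n) => (θ : ↥(K ⊔ B n) ≃ₐ[k] ↥(K ⊔ B n))) h
      ext x
      have h6 := congrArg (fun θ : ↥(K ⊔ B n) ≃ₐ[k] ↥(K ⊔ B n) => ((θ x : ↥(K ⊔ B n)) : ℂ)) h5
      exact h6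
    · intro θ
      refine ⟨AlgEquiv.ofRingEquiv (f := ((θ : ↥(K ⊔ B n) ≃ₐ[k] ↥(K ⊔ B n)) : ↥(K ⊔ B n) ≃+* ↥(K ⊔ B n)))
        (fun y => θ.2 _ y.2), ?_⟩
      apply Subtype.ext
      ext x
      rfl
  have hnu : ((u : 𝓞 ↥(K₀ ⊔ B n)) : ↥(K₀ ⊔ B n)) =
      Algebra.norm ↥(K₀ ⊔ B n) ((u' : 𝓞 ↥(K ⊔ B n)) : ↥(K ⊔ B n)) := by
    have hc0 : (⟨c₀ n, hI.mem₀ n⟩ : ↥(K₀ ⊔ B n)) ≠ 0 := by
      rw [← hnorm]
      exact Algebra.norm_ne_zero_iff.2 hcn
    rw [hu, div_eq_iff hc0, ← hnorm, ← norm_comp_pow commM g g' hgg, ← map_mul, hu',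
      div_mul_cancel₀ _ hcn]
  obtain ⟨ζ, hζK, hζ⟩ := hS.ze
  have hζL : ζ ∈ K ⊔ B n := (le_sup_left : K ≤ K ⊔ B n) hζK
  have h2p : NeZero (2 * p) := ⟨by have := hp.pos; omega⟩
  have hζ' : IsPrimitiveRoot (⟨ζ, hζL⟩ : ↥(K ⊔ B n)) (2 * p) := by
    refine IsPrimitiveRoot.of_map_of_injective (f := algebraMap ↥(K ⊔ B n) ℂ) ?_ ?_
    · exact hζ
    · exact (algebraMap ↥(K ⊔ B n) ℂ).injective
  exact h2 p k ↥(K₀ ⊔ B n) ↥(K ⊔ B n) commM S₁ hζ'.toInteger hζ'.toInteger_isPrimitiveRoot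
    (hsub' h2S') (hsub' hpS') hS₁p (hram S₁ hsub' n (hk n)) u' u hnu hrel

open _root_.Pool.Agent.MUXK.K_SU0 in
/-- SU0O. -/
theorem t_SU0O : S_SU0O := by
  intro p _ k K₀ K B _ _ _ _ hX hk hk₀ S c c₀ n₁ hI n hn
  have hh : K₀ ⊔ B n ≤ K ⊔ B n := sup_le_sup_right hX.le _
  let _ := algC (hk n)
  let _ := algC hh
  have : NumberField k := numC k
  have : FiniteDimensional ↥k ↥(K ⊔ B n) := by
    have : IsScalarTower ℚ ↥k ↥(K ⊔ B n) := IsScalarTower.of_algebraMap_eq fun x => rfl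
    exact FiniteDimensional.right ℚ ↥k ↥(K ⊔ B n)
  have hfin : Finite (↥(K ⊔ B n) ≃ₐ[k] ↥(K ⊔ B n)) := inferInstance
  have := Fintype.ofFinite (NC (hk n) (K₀ ⊔ B n))
  have hc : (⟨c n, hI.mem n⟩ : ↥(K ⊔ B n)) ≠ 0 := by
    intro h
    exact hI.ne n (congrArg Subtype.val h)
  have hsu := hI.su n hn
  have hnorm := hI.norm n
  rw [finprod_eq_prod_of_fintype] at hnorm
  set y : ↥(K ⊔ B n) := ∏ g : NC (hk n) (K₀ ⊔ B n),
    (g : ↥(K ⊔ B n) ≃ₐ[k] ↥(K ⊔ B n)) ⟨c n, hI.mem n⟩ with hy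
  have hy1 : c₀ n = (y : ℂ) := by
    rw [hnorm, hy]
    exact (map_prod (K ⊔ B n).val _ _).symm
  have hy0 : y ≠ 0 := by
    rw [hy, Finset.prod_ne_zero_iff]
    intro g _ h
    exact hc ((map_eq_zero_iff _ (g : ↥(K ⊔ B n) ≃ₐ[k] ↥(K ⊔ B n)).injective).1 h)
  have hc0 : c₀ n ≠ 0 := by
    intro h
    apply hy0
    apply Subtype.ext
    rw [← hy1, h]
    rfl
  refine ⟨hc0, ?_⟩
  have hx0 : (⟨c₀ n, hI.mem₀ n⟩ : ↥(K₀ ⊔ B n)) ≠ 0 := by
    intro h
    exact hc0 (congrArg Subtype.val h)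
  refine su_down (M := ↥(K ⊔ B n)) hx0 ?_
  have e : algebraMap ↥(K₀ ⊔ B n) ↥(K ⊔ B n) ⟨c₀ n, hI.mem₀ n⟩ = y := Subtype.ext hy1
  rw [e, hy]
  exact su_prod _ fun g _ => su_act hsu _

end Pool.Agent.OB


end

section

/-!
# OB, block K for one character: MAINO
-/

set_option autoImplicit false

open NumberField IsDedekindDomain Finset Filter Topology
open scoped nonZeroDivisors Pointwise

namespace Pool.Agent.OB

open _root_.Pool.Agent.MU3 _root_.Pool.Agent.RI _root_.Pool.Agent.RID _root_.Pool.Agent.MUXK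
  _root_.Pool.Agent.MUXZ _root_.Pool.Agent.NSI _root_.Pool.Agent.Lib_helper28.FROB

/-- Additive functionals vanish on `p`-th powers. -/
theorem f_pow {A F : Type} [CommGroup A] [Field F] (p : ℕ) [CharP F p] (f : A → F)
    (hf : ∀ x y, f (x * y) = f x + f y) (y : A) : f (y ^ p) = 0 := by
  have hf1 : f 1 = 0 := by
    have := hf 1 1
    rw [mul_one] at this
    simpa using this
  have hfpow : ∀ (j : ℕ), f (y ^ j) = (j : F) * f y := by
    intro j
    induction j with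
    | zero => rw [pow_zero, hf1, Nat.cast_zero, zero_mul]
    | succ j ih => rw [pow_succ, hf, ih, Nat.cast_succ]; ring
  rw [hfpow, CharP.cast_eq_zero, zero_mul]

open _root_.Pool.Agent.MUXK.K_MAINKX in
theorem t_MAINO (h1 : S_GALX) (h2 : S_TWX) (h3 : S_LFX) (h4 : S_M0X) (h5 : S_RAMX)
    (h6 : S_KOLO) (h7 : S_SU0O) (h8 : S_I3O) (h9 : S_NILO) (h10 : S_RSX) : S_MAINO := by
  intro F _ p hp _ k K₀ K B _ _ _ _ hX hk hk₀ hkK S c c₀ n₁ hI χ₀ hI3
  have hh : ∀ n, K₀ ⊔ B n ≤ K ⊔ B n := fun n => sup_le_sup_right hX.le _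
  have hfd : ∀ {E E' : IntermediateField ℚ ℂ}, E ≤ E' → FiniteDimensional ℚ E' →
      FiniteDimensional ℚ E := by
    intro E E' hle hE'
    exact FiniteDimensional.of_injective (IntermediateField.inclusion hle).toLinearMap
      (IntermediateField.inclusion hle).injective
  haveI hfd₀ : FiniteDimensional ℚ K₀ := hfd hX.le inferInstance
  obtain ⟨S', h2S', hpS', hS'p, kol⟩ := h6 p k K₀ K B hX
  obtain ⟨Sa, h2Sa, hpSa, hSap, rama⟩ := h5 p k K₀ B hX.b0
  set S₁ : Finset ℕ := (S ∪ S') ∪ Sa with hS₁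
  have hS₁p : ∀ ℓ ∈ S₁, ℓ.Prime := by
    intro ℓ hℓ
    rcases Finset.mem_union.1 hℓ with h | h
    · rcases Finset.mem_union.1 h with h | h
      · exact hI.prime ℓ h
      · exact hS'p ℓ h
    · exact hSap ℓ h
  have h2S₁ : 2 ∈ S₁ := Finset.mem_union_right _ h2Sa
  have hpS₁ : p ∈ S₁ := Finset.mem_union_right _ hpSa
  obtain ⟨ma, hma⟩ := h4 p k K B hX.b S₁ hS₁p
  obtain ⟨mb, hmb⟩ := h4 p k K₀ B hX.b0 S₁ hS₁p
  set m₀ : ℕ := max ma mb with hm₀
  obtain ⟨m, hmn₁, hm⟩ := h8 F p k K₀ K B hX hk hk₀ hh hkK S c c₀ n₁ hI χ₀ hI3 m₀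
  set d : ℕ := Module.finrank ℚ K / Module.finrank ℚ K₀ with hd
  refine ⟨p ^ (max m m₀ + 1) + 1 + d, ?_⟩
  intro n
  letI : Algebra k ↥(K₀ ⊔ B n) := algC (hk₀ n)
  intro g hg f hfE b
  letI : Algebra k ↥K₀ := algC hkK
  obtain ⟨hf, hfp, hfχ⟩ := hfE
  have h := hk₀ n
  have tw := h2 p k K₀ B hX.b0 hX.cop n h g hg
  rcases lt_or_ge n m with hnm | hmn
  · have hle : n ≤ max m m₀ + 1 := (hnm.le.trans (le_max_left _ _)).trans (Nat.le_succ _)
    have h11 : g ^ (p ^ (max m m₀ + 1)) = 1 := by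
      rw [← orderOf_dvd_iff_pow_eq_one, tw.ord]
      exact pow_dvd_pow p hle
    obtain ⟨y, hy⟩ := iter_mem p (max m m₀ + 1) g h11 ((dg g)^[1] ((dg g)^[d] b))
    rw [Function.iterate_add_apply, Function.iterate_add_apply, hy]
    exact f_pow p f hf y
  · letI : Algebra k ↥(K ⊔ B n) := algC (hk n)
    letI : Algebra ↥(K₀ ⊔ B n) ↥(K ⊔ B n) := algC (hh n)
    haveI : IsScalarTower k ↥(K₀ ⊔ B n) ↥(K ⊔ B n) := IsScalarTower.of_algebraMap_eq (fun _ => rfl)
    obtain ⟨gal₀, -⟩ := h1 p k K₀ B hX.b0 n h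
    obtain ⟨gal, -⟩ := h1 p k K B hX.b n (hk n)
    have hn₁ : n₁ ≤ n := hmn₁.trans hmn
    obtain ⟨hc0, hsu0⟩ := h7 p k K₀ K B hX hk hk₀ S c c₀ n₁ hI n hn₁
    have hcn : (⟨c₀ n, hI.mem₀ n⟩ : ↥(K₀ ⊔ B n)) ≠ 0 := by
      intro h0
      exact hc0 (congrArg Subtype.val h0)
    have hSS₁ : S ⊆ S₁ := fun x hx => Finset.mem_union_left _ (Finset.mem_union_left _ hx)
    have su1 := (t_MONO k ↥(K₀ ⊔ B n) S S₁ hSS₁ ⟨c₀ n, hI.mem₀ n⟩).1 hsu0
    obtain ⟨γ', hγ1, hγ2⟩ := h3 p k K₀ K B hX.b0 hX.b hX.le n (hk n) h (hh n) g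
      (fun x hx => (hg x).2 hx)
    have hpow1 := triv_pow (fun x : ↥(K ⊔ B n) => (x : ℂ) ∈ K) γ' hγ1
    have hpow2 := lift_pow h (hk n) (hh n) g γ' hγ2
    have hfix : ∀ v : HeightOneSpectrum (𝓞 ↥(K₀ ⊔ B n)), Above S₁ v →
        g ^ (p ^ m₀) • v.asIdeal = v.asIdeal := by
      intro v hv
      exact fix_pow p mb m₀ (le_max_right _ _) g v.asIdeal
        (hmb n h g (fun x hx => (hg x).2 hx) v hv)
    have hfix' : ∀ v : HeightOneSpectrum (𝓞 ↥(K ⊔ B n)), Above S₁ v →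
        γ' ^ (p ^ m₀) • v.asIdeal = v.asIdeal := by
      intro v hv
      exact fix_pow p ma m₀ (le_max_left _ _) γ' v.asIdeal (hma n (hk n) γ' hγ1 v hv)
    obtain ⟨u, hu⟩ := t_UNI k ↥(K₀ ⊔ B n) S₁ ⟨c₀ n, hI.mem₀ n⟩ hcn su1 (g ^ (p ^ m₀)) hfix p
    have hrel := kol hk hk₀ hh S c c₀ n₁ hI S₁ Finset.subset_union_left hS₁p n hn₁ (g ^ (p ^ m₀))
      (γ' ^ (p ^ m₀)) (hpow1 _) (hpow2 _) hfix' u hu
    have hfinNC : Finite (NC h (B n)) := inferInstance
    letI : Fintype (NC h (B n)) := Fintype.ofFinite _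
    obtain ⟨ζ, hζK, hζ⟩ := hX.ze
    obtain ⟨z, hz⟩ := root (E := K ⊔ B n) (q := 2 * p) (by have := hp.out.pos; omega)
      ((le_sup_left : K ≤ K ⊔ B n) hζK) hζ
    have hfin : Module.finrank ↥(K₀ ⊔ B n) ↥(K ⊔ B n) = d :=
      finrank_quot (hh n) _ _ (p ^ n) Module.finrank_pos (pow_pos hp.out.pos n) (hX.b0.deg n)
        (hX.b.deg n)
    obtain ⟨ρ, hρ⟩ := _root_.Pool.Agent.MUXK.I3X19.restr h10 p k K₀ B hX.b0 hX.cop hkK n h
    set χ : NC h (B n) →* Fˣ := χ₀.comp ρ.toMonoidHom with hχ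
    have hχδ : ∀ δ, χ δ = χ₀ (ρ δ) := fun δ => rfl
    obtain ⟨θ, hθ⟩ := hm n hmn g hg u hu χ (by
      intro δ s hs
      rw [hχδ]
      congr 1
      refine AlgEquiv.ext fun x => Subtype.ext ?_
      have hx1 : (x : ℂ) ∈ K₀ ⊔ B n := le_sup_left (a := K₀) x.2
      rw [← hρ δ x ⟨x, hx1⟩ rfl, ← hs x ⟨x, hx1⟩ rfl])
    have hmain := h9 p F k ↥(K₀ ⊔ B n) ↥(K ⊔ B n) n m m₀ g (NC h (B n)) tw hmn S₁
      z hz h2S₁ hpS₁ hS₁p (rama S₁ Finset.subset_union_right n h) hfix u hrel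
      χ θ hθ f hf hfp (fun δ x => by rw [hχδ]; exact hfχ δ (ρ δ) (hρ δ) x) b
    rw [hfin] at hmain
    exact hmain

end Pool.Agent.OB


end

section

/-!
# OB, block K for one character: PIG
-/

set_option autoImplicit false

open NumberField IsDedekindDomain Finset Filter Topology
open scoped nonZeroDivisors Pointwise

namespace Pool.Agent.OB

open _root_.Pool.Agent.MU3 _root_.Pool.Agent.RI _root_.Pool.Agent.RID _root_.Pool.Agent.MUXK
  _root_.Pool.Agent.MUXZ _root_.Pool.Agent.NSI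

theorem t_PIG (h1 : Sn_LEM1) (h2 : Sn_NRX) : S_PIG := by
  intro F _ p _ k K₀ K B _ _ _ _ hX hk hk₀ hkK S c c₀ n₁ hI ι _ χ h
  have hfd₀ : FiniteDimensional ℚ K₀ :=
    FiniteDimensional.of_injective (IntermediateField.inclusion hX.le).toLinearMap
      (IntermediateField.inclusion hX.le).injective
  have hNr := h2 p k K₀ K B hX hk hk₀ S c c₀ n₁ hI
  have h3 : ∃ i : ι, ∀ n₀ : ℕ, ∃ n, n₀ ≤ n ∧
      I3At F p k K₀ B hkK (χ i) 1 n (hk₀ n) (c₀ n) (hI.mem₀ n) := by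
    by_contra hcon
    push Not at hcon
    choose N hN using hcon
    obtain ⟨M, hM⟩ := (Set.finite_range N).bddAbove
    obtain ⟨i, n, hn, hi⟩ := h M
    exact hN i n ((hM (Set.mem_range_self i)).trans hn) hi
  obtain ⟨i, hi⟩ := h3
  exact ⟨i, fun N n₀ => h1 F p k K₀ B hX.b0 hX.cop hX.om hk₀ hkK c₀ hI.mem₀
    (_root_.Pool.Agent.NSI.INP.c_ne hI) n₁ hNr (χ i) hi N n₀⟩

end Pool.Agent.OB


end

section

/-!
# OB, block J: change of the field of values of the characters (helper19)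
-/

set_option autoImplicit false

namespace Pool.Agent.OB

open Pool.Agent.MUXK Pool.Agent.NSI Pool.Agent.MU3 Pool.Agent.MU3B Pool.Agent.RI Pool.Agent.RID
  Pool.Agent.MUX
open Pool.Agent.OBI (IsOm brO)

noncomputable section

/-- the character `ι ∘ χ` -/
def mpO {F F' : Type} [Field F] [Field F'] (ι : F' →+* F) {k K : IntermediateField ℚ ℂ}
    (h : k ≤ K) (χ : (letI := algC h; (↥K ≃ₐ[k] ↥K) →* F'ˣ)) :
    (letI := algC h; (↥K ≃ₐ[k] ↥K) →* Fˣ) :=
  letI := algC h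
  (Units.map (ι : F' →* F)).comp χ

theorem mpO_br {F F' : Type} [Field F] [Field F'] (ι : F' →+* F) {k K : IntermediateField ℚ ℂ}
    (h : k ≤ K) (χ om : (letI := algC h; (↥K ≃ₐ[k] ↥K) →* F'ˣ)) (j : ℕ) :
    mpO ι h (brO h χ om j) = brO h (mpO ι h χ) (mpO ι h om) j := by
  let _ := algC h
  apply MonoidHom.ext
  intro σ
  simp only [mpO, brO, MonoidHom.comp_apply, MonoidHom.mul_apply, MonoidHom.pow_apply, map_mul,
    map_pow]

theorem isOm_mp {F F' : Type} [Field F] [Field F'] (ι : F' →+* F) (p : ℕ)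
    {k K : IntermediateField ℚ ℂ} (h : k ≤ K) (om : (letI := algC h; (↥K ≃ₐ[k] ↥K) →* F'ˣ))
    (ho : IsOm F' p h om) : IsOm F p h (mpO ι h om) := by
  let _ := algC h
  intro σ z c hz hz1 hσ
  have h1 := ho σ z c hz hz1 hσ
  show ι ((om σ : F'ˣ) : F') = c
  rw [h1, map_natCast]

theorem I3At_mp {F F' : Type} [Field F] [Field F'] (ι : F' →+* F) (p : ℕ)
    (k K : IntermediateField ℚ ℂ) (B : ℕ → IntermediateField ℚ ℂ) (hkK : k ≤ K)
    (χ : (letI := algC hkK; (↥K ≃ₐ[k] ↥K) →* F'ˣ)) (N n : ℕ) (hk : k ≤ K ⊔ B n) (c : ℂ)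
    (mem : c ∈ K ⊔ B n) (h : I3At F p k K B hkK (mpO ι hkK χ) N n hk c mem) :
    I3At F' p k K B hkK χ N n hk c mem := by
  let _ := algC hk
  let _ := algC hkK
  intro γ hγ _ r hr
  obtain ⟨θ, hθ⟩ := h γ hγ r hr
  refine ⟨θ.comp (ι : F' →+ F), fun y => ?_⟩
  refine fun hy => hθ y (hy.trans ?_)
  refine Finset.prod_congr rfl fun δ _ => ?_
  congr 2

/-- the algebraic closure of `𝔽_p` is in every algebraically closed field of characteristic `p` -/
theorem ex_io (p : ℕ) [Fact p.Prime] (F : Type) [Field F] [CharP F p] [IsAlgClosed F] :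
    Nonempty (AlgebraicClosure (ZMod p) →+* F) := by
  let _ : Algebra (ZMod p) F := ZMod.algebra F p
  exact ⟨(IsAlgClosed.lift : AlgebraicClosure (ZMod p) →ₐ[ZMod p] F).toRingHom⟩

end

end Pool.Agent.OB


end
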