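import Pool.Agent.MVF.C016
import Pool.Agent.MVF.C024
import Pool.Agent.MVF.C042
import Pool.Agent.OBM.C01

/-! Parts: OB.StE, OB.StR -/

section

/-!
# OB, block E: a `p`-th power has a logarithmic derivative divisible by `p` (helper96; models: helper86's `NS/StEN.lean`, `NS/StER.lean`)

Every prime `p ≥ 5`, `P` any prime ideal above `p` (`er = 1` split or inert, `er = 2` ramified), `V` above `P`, `v = V.valuation` (multiplicative). `L` a lattice, `GoodL V L u e lam`: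
`x = xu L u e = (℘ - e)/u²`, `y = yu L u = ℘'/(2 u³)`, `y² = x³ + a₂ x² + a₄ x`, `a₂ = -(1 + lam)`, `a₄ = lam` a unit; `s = su = 1/x`, `r = ru = -y/x²`, `r² = s (1 + a₂ s + a₄ s²)`.
`InK V L x z` (`MUX/VX.lean`): `z ∈ L` or `z` in the kernel of reduction. `su`, `ru`, `WL`, `IntP`: `NS/StEN.lean`. `SP P er L`: the nonzero points of `E[P^er]`; they are all in the kernel of reduction and the product of
their `s` (modulo `±`) has the valuation of `p` (PTS). `(p) = P^er · Pc P`, `Pc P` prime to `P`.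

The functions `A(s) + r B(s)` on `SP P er L`, `A, B` polynomials over `V`, form a ring with a ring homomorphism `F ↦ A(0) + B(0) ε` to `(V/p)[ε]` (ALG), so a `p`-th power has `B(0) ∈ p V` (PRO). Galois conjugation of an integral element `w`
of `RF m` is such a function of the point `Y` with `σ(z₁) = z₁ + Y` (SIG). So a `p`-th power has a logarithmic derivative in `p V` (ONE); weights `emb x`. For `er = 1` these are the weights `w x` modulo `p`; for `er = 2` the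
sums over the cosets of the kernel of `(O/m)^* → (O/f P^(2n+1))^*` gain the missing half (INN, STB).

Every statement is a `def Sb_X : Prop`; the module OB_E_X proves `theorem tb_X (h : ...) : Sb_X` in `Pool/Agent/OB/E_X.lean`, namespace `Pool.Agent.OBE` (private lemmas in `Pool.Agent.OBE.X`),
with the statements named under `Uses` as hypotheses (drop those which are not needed; others may be added if they do not depend on this one). Usable without hypotheses: `Pool.Agent.MU3B.b_X : St_X` (`MU3/BAll.lean`), `Pool.Agent.MU3A.ta_SCP`,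
`Pool.Agent.MUXU.u_X : Su_X` (`MUX/UAll.lean`), `Pool.Agent.MUXE.te_RNG`, `te_TRA`, `te_TRB`, `te_FAC te_TRA`, `te_GTH te_TRA`, `te_PT te_TRA`; `te_GAL` (`MUX/E_GAL.lean`). PORT: copy the proof of the model, replace `3` by `p`, `GoodN`/`GoodR` by `GoodL`, `E3 L` by `SP P er L`.
IMPORT only original files (`MU3`, `MUX`, `NS`, ..), never `MVF`.
-/

set_option autoImplicit false

open Polynomial

namespace Pool.Agent.OBE

open _root_.MU3 _root_.Pool.Agent.MU3A _root_.Pool.Agent.MU3B _root_.Pool.Agent.MUX _root_.Pool.Agent.MUXU _root_.Pool.Agent.MUXE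
open _root_.Pool.Agent.RI _root_.Pool.Agent.NS _root_.Pool.Agent.OB
open _root_.Pool.Agent.MUXV (GR InK tX)
open _root_.Pool.Agent.NSE (su ru WL IntP)

noncomputable section

/-! ## Definitions -/

/-- the nonzero points killed by `P ^ er` -/
def SP {A B : ℤ} (P : Ideal (OO A B)) (er : ℕ) (L : PeriodPair) : Set ℂ :=
  {Y | Tor (P ^ er) L Y ∧ Y ∉ L.lattice}

/-- the annihilator of the point `z` of `ℂ / L` is the ideal `m` -/
def Ann {A B : ℤ} (m : Ideal (OO A B)) (L : PeriodPair) (z : ℂ) : Prop :=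
  ∀ x : OO A B, emb x * z ∈ L.lattice ↔ x ∈ m

/-- no point of the kernel of `μ : L → M` is in the kernel of reduction -/
def Ker0 (V : ValuationSubring ℂ) (L M : PeriodPair) (u e μ : ℂ) : Prop :=
  ∀ z, μ * z ∈ M.lattice → InK V L (xu L u e) z → z ∈ L.lattice

/-- the situation of the points of `SP P er L`, abstractly -/
structure PtsO (p : ℕ) (V : ValuationSubring ℂ) (S : Set ℂ) (s r : ℂ → ℂ) (a2 a4 : ℂ) : Prop where
  vp : V.valuation (p : ℂ) < 1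
  i2 : V.valuation a2 ≤ 1
  i4 : V.valuation a4 ≤ 1
  vs : ∀ Y ∈ S, s Y ≠ 0 ∧ V.valuation (s Y) < 1
  eq : ∀ Y ∈ S, r Y ^ 2 = s Y * (1 + a2 * s Y + a4 * s Y ^ 2)
  neg : ∀ Y ∈ S, ∃ Y' ∈ S, s Y' = s Y ∧ r Y' = -r Y
  big : ∃ (d : ℕ) (y : Fin d → ℂ), (∀ i, y i ∈ S) ∧ (Function.Injective fun i => s (y i)) ∧
    V.valuation (∏ i, s (y i)) ≤ V.valuation (p : ℂ)
  fin : ((fun Y => (s Y, r Y)) '' S).Finite

/-- `F = A(s) + r B(s)` on `S`, `A`, `B` over `V`, `A(0) ≡ α`, `B(0) ≡ β` modulo `p` -/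
def RepO (p : ℕ) (V : ValuationSubring ℂ) (S : Set ℂ) (s r F : ℂ → ℂ) (α β : ℂ) : Prop :=
  ∃ P Q : ℂ[X], IntP V P ∧ IntP V Q ∧ (∀ Y ∈ S, F Y = P.eval (s Y) + r Y * Q.eval (s Y)) ∧
    V.valuation (P.coeff 0 - α) ≤ V.valuation (p : ℂ) ∧
    V.valuation (Q.coeff 0 - β) ≤ V.valuation (p : ℂ)

/-- a prime `p ≠ 2` with `v p < 1` -/
structure Cp (p : ℕ) (V : ValuationSubring ℂ) : Prop where
  pp : p.Prime
  p2 : p ≠ 2
  vp : V.valuation (p : ℂ) < 1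

/-- everything on `O`, `k`, `P`, `V` and the reduction which is used; `al` is a uniformiser of `P`, prime to the other primes above `p` -/
structure CtxO (p er : ℕ) (A B : ℤ) (P : Ideal (OO A B)) (V : ValuationSubring ℂ)
    (al : OO A B) : Prop extends CaseO p er A B P V, Cp p V where
  ring : RingE A B
  ne : P ≠ ⊥
  max : P.IsMaximal
  er1 : 1 ≤ er
  fac : idl (A := A) (B := B) p = P ^ er * Pc P
  cne : Pc P ≠ ⊥
  cnl : ¬ Pc P ≤ P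
  int : ∀ x : OO A B, V.valuation (emb x) ≤ 1
  unit : ∀ x : OO A B, x ∉ P → V.valuation (emb x) = 1
  nat : ∀ n : ℕ, ¬ p ∣ n → V.valuation (n : ℂ) = 1 ∧ ((n : ℕ) : OO A B) ∉ P
  alP : al ∈ P
  al2 : al ∉ P ^ 2
  alv : V.valuation (emb al) ^ er = V.valuation (p : ℂ)
  vP : ∀ x ∈ P, V.valuation (emb x) ≤ V.valuation (emb al)
  alN : ∃ N : ℕ, ¬ p ∣ N ∧ ∀ x ∈ P, ∃ y : OO A B, ((N : ℕ) : OO A B) * x = al * y
  nP : er = 2 → nI P = p ∧ Pc P = ⊤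
  n3 : 3 ≤ nI P
  good : ∀ L, NL A B L → ∃ u e lam : ℂ, GoodL V L u e lam
  iner : ∀ m : Ideal (OO A B), m ≠ ⊥ → ¬ m ≤ P → ∀ σ : ℂ ≃+* ℂ, FixK A B σ →
    (∀ y ∈ RF m, y ∈ V → σ y - y ∈ V.nonunits) → ∀ y ∈ RF m, σ y = y
  exq : ∀ L, NL A B L → ∃ (N : PeriodPair) (nu : ℂ), NL A B N ∧ IsQ P L N nu

/-! ## Lemma E: the ring of the functions `A(s) + r B(s)` -/

/-- (ALG) the ring and the homomorphism to `(V/p)[ε]`.

PORT of `Pool/Agent/NS/F_ALG.lean` (`Sf_ALG`, `PtsR` with `four : Fin 4`, here `big : Fin d`; `Rep` there is `RepO` for `p = 3`). PROOF in words: `Se_ALG` in `NS/StEN.lean`. A polynomial over `V` which vanishes at the `d` different `s(y_i)` is `∏ (X - s(y_i))` times a polynomial over `V`, so its value at `0` is in `∏ s(y_i) V ⊆ p V`. -/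
def Sb_ALG : Prop :=
  ∀ (p : ℕ) (V : ValuationSubring ℂ) (S : Set ℂ) (s r : ℂ → ℂ) (a2 a4 : ℂ),
    PtsO p V S s r a2 a4 →
    (∀ c, V.valuation c ≤ 1 → RepO p V S s r (fun _ => c) c 0) ∧
    RepO p V S s r s 0 0 ∧ RepO p V S s r r 0 1 ∧
    (∀ (F G : ℂ → ℂ) (α β α' β' : ℂ), RepO p V S s r F α β → (∀ Y ∈ S, G Y = F Y) →
      V.valuation (α' - α) ≤ V.valuation (p : ℂ) → V.valuation (β' - β) ≤ V.valuation (p : ℂ) →
      RepO p V S s r G α' β') ∧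
    (∀ (F G : ℂ → ℂ) (α β α' β' : ℂ), RepO p V S s r F α β → RepO p V S s r G α' β' →
      RepO p V S s r (fun Y => F Y + G Y) (α + α') (β + β')) ∧
    (∀ (F G : ℂ → ℂ) (α β α' β' : ℂ), RepO p V S s r F α β → RepO p V S s r G α' β' →
      RepO p V S s r (fun Y => F Y * G Y) (α * α') (α * β' + α' * β)) ∧
    (∀ (F : ℂ → ℂ) (α β : ℂ), RepO p V S s r F α β → V.valuation α = 1 →
      (∀ Y ∈ S, V.valuation (F Y) = 1) ∧
        RepO p V S s r (fun Y => (F Y)⁻¹) α⁻¹ (-β / α ^ 2)) ∧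
    (∀ (F : ℂ → ℂ) (α β : ℂ), RepO p V S s r F α β → V.valuation α ≤ 1 ∧ V.valuation β ≤ 1 ∧
      ∀ Y ∈ S, V.valuation (F Y - α) < 1) ∧
    ∀ (F : ℂ → ℂ) (α β α' β' : ℂ), RepO p V S s r F α β → RepO p V S s r F α' β' →
      V.valuation (α - α') ≤ V.valuation (p : ℂ) ∧ V.valuation (β - β') ≤ V.valuation (p : ℂ)

/-- (PRO) polynomials, products, quotients and `p`-th powers.

Uses Sb_ALG. PORT of `Pool/Agent/NS/F_PRO.lean`; last part with `p` for `3`: `F = G^p` on `S` is represented by `(α^p, p α^(p-1) β)` (`G` integral: `v α, v β ≤ 1`; induction on the exponent with the product rule of ALG) and by `(α', β')`, so `v(β' - p α^(p-1) β) ≤ v p` (uniqueness). -/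
def Sb_PRO : Prop :=
  ∀ (p : ℕ) (V : ValuationSubring ℂ) (S : Set ℂ) (s r : ℂ → ℂ) (a2 a4 : ℂ),
    PtsO p V S s r a2 a4 →
    (∀ (F : ℂ → ℂ) (α β : ℂ) (P : ℂ[X]), RepO p V S s r F α β → IntP V P →
      RepO p V S s r (fun Y => P.eval (F Y)) (P.eval α) (β * (derivative P).eval α)) ∧
    (∀ (J : Type) [Fintype J] (F : J → ℂ → ℂ) (c l : J → ℂ) (g : J → ℤ),
      (∀ j, RepO p V S s r (F j) (c j) (c j * l j)) → (∀ j, V.valuation (c j) = 1) →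
      V.valuation (∏ j, c j ^ g j) = 1 ∧
      RepO p V S s r (fun Y => ∏ j, F j Y ^ g j) (∏ j, c j ^ g j)
        ((∏ j, c j ^ g j) * ∑ j, (g j : ℂ) * l j)) ∧
    ∀ (F G : ℂ → ℂ) (α β α' β' : ℂ), RepO p V S s r G α β → (∀ Y ∈ S, F Y = G Y ^ p) →
      RepO p V S s r F α' β' → V.valuation β' ≤ V.valuation (p : ℂ)

/-- (PUL) pullback along a map `ρ : S → S'` with `s' ∘ ρ ↦ 0`, `r' ∘ ρ ↦ c ε`.

Uses Sb_ALG, Sb_PRO. PORT of `Pool/Agent/NS/F_PUL.lean`. -/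
def Sb_PUL : Prop :=
  ∀ (p : ℕ) (V : ValuationSubring ℂ) (S S' : Set ℂ) (s r s' r' : ℂ → ℂ) (a2 a4 : ℂ)
    (ρ : ℂ → ℂ) (c : ℂ),
    PtsO p V S s r a2 a4 → (∀ Y ∈ S, ρ Y ∈ S') →
    RepO p V S s r (fun Y => s' (ρ Y)) 0 0 → RepO p V S s r (fun Y => r' (ρ Y)) 0 c →
    ∀ (F : ℂ → ℂ) (α β : ℂ), RepO p V S' s' r' F α β →
      RepO p V S s r (fun Y => F (ρ Y)) α (β * c)

/-! ## The Legendre model -/

/-- (COE) the coefficients.

PORT of `Pool/Agent/NS/F_COE.lean`. `v 2 = 1`: `p = 2 k + 1`, so `v(2 k) = v(p - 1) = 1` and `v 2 ≤ 1`, `v k ≤ 1` (integers are in `V`). `v lam = v(1 - lam) = 1` are fields of `GoodL`; `v(1 + lam) ≤ 1`. -/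
def Sb_COE : Prop :=
  ∀ (p : ℕ) (V : ValuationSubring ℂ) (L : PeriodPair) (u e lam : ℂ), Cp p V →
    GoodL V L u e lam →
    3 * e = -(1 + lam) * u ^ 2 ∧ L.g₂ = 4 * (3 * e ^ 2 - lam * u ^ 4) ∧
    L.g₃ = 4 * e ^ 3 - L.g₂ * e ∧ V.valuation (2 : ℂ) = 1 ∧ V.valuation (1 + lam) ≤ 1 ∧
    (∀ z ∉ L.lattice, yu L u z ^ 2 =
      xu L u e z ^ 3 - (1 + lam) * xu L u e z ^ 2 + lam * xu L u e z) ∧
    (∀ z ∉ L.lattice, HasDerivAt (xu L u e) (2 * u * yu L u z) z) ∧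
    ∀ z, (∀ w ∈ L.lattice, xu L u e (z + w) = xu L u e z ∧ yu L u (z + w) = yu L u z) ∧
      xu L u e (-z) = xu L u e z ∧ yu L u (-z) = -yu L u z

/-- (GRN) good reduction in the sense of `VX.lean`.

Uses Sb_COE. PORT of `Pool/Agent/NS/F_GRN.lean`. The discriminant of `WL lam` is `16 lam² (1 - lam)²`. -/
def Sb_GRN : Prop :=
  ∀ (p : ℕ) (V : ValuationSubring ℂ) (L : PeriodPair) (u e lam : ℂ), Cp p V →
    GoodL V L u e lam → ∃ ξ : ℂ →+ (WL lam).Point, GR V (WL lam) L (xu L u e) (yu L u) ξ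

/-- (LEG) the points of order two.

Uses Sb_COE. PORT of `Pool/Agent/NS/F_LEG.lean`. -/
def Sb_LEG : Prop :=
  ∀ (p : ℕ) (V : ValuationSubring ℂ) (L : PeriodPair) (u e lam : ℂ), Cp p V →
    GoodL V L u e lam →
    ∃ w₁ w₂ : ℂ, 2 * w₁ ∈ L.lattice ∧ w₁ ∉ L.lattice ∧ 2 * w₂ ∈ L.lattice ∧ w₂ ∉ L.lattice ∧
      L.weierstrassP w₁ = e ∧ L.weierstrassP w₂ - L.weierstrassP w₁ = u ^ 2 ∧
      xu L u e w₁ = 0

/-- (TNC) points of order prime to `p`.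

Uses Sb_GRN. PORT of `Pool/Agent/NS/F_TNC.lean`. `v N = 1` (`1 = N a + p b` with integers); `Pool.Agent.MUXV.mem_of_nat_mul`. -/
def Sb_TNC : Prop :=
  ∀ (p : ℕ) (V : ValuationSubring ℂ) (L : PeriodPair) (u e lam : ℂ), Cp p V →
    GoodL V L u e lam →
    ∀ (N : ℕ), ¬ p ∣ N → V.valuation (N : ℂ) = 1 ∧ ∀ z : ℂ, (N : ℂ) * z ∈ L.lattice →
      InK V L (xu L u e) z → z ∈ L.lattice

/-! ## Isogenies -/

/-- (GEN) the multiplier of ANY isogeny and the points of its kernel in the kernel of reduction.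

Uses Sb_GRN, Sb_TNC, Su_BAC, Su_PFI. MODEL `Pool/Agent/NS/F_UNT.lean` (`Sf_UNT`). PROOF. `n` with `n z ∈ L` for all `z` with `μ z ∈ M` (`u_BAC`), `l ≠ l'` two primes greater than `p n`, `w = ω₁/l`, `z = ω₁/l'` (`ω₁` a period of `L`).
`w, z, z ± w`, also multiplied by `n`, are not in `L` and are killed by `l l'`, prime to `p`. (a) For every `q` with `μ q ∈ M`: `w + q`, `z ± q`, `z ± (w + q)` are not in `InK V L`: `n` times it is `≡ n w`, `n z`, `n (z ± w)` modulo `L`, so (`MUXV.inK_nat`) one of these would be in `InK`, so in `L` (TNC): contradiction. In the same way `z`, `w`, `z ± w ∉ InK V L`.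
(b) `μ z, μ w, μ (z ± w) ∉ M` (`n (z ± w) ∉ L` and so on), killed by `l l'`: not in `InK V M` (TNC for `M`). (PFI) in the coordinates (`℘ = u² x + e`, `℘_M = u'² x' + e'`):
`(μ u'/u)² (x'(μ z) - x'(μ w)) ∏_(q ∈ R) (x z - x q) = (x z - x w) ∏_(q ∈ R) (x z - x(w + q))`. The differences `x' - x'`, `x z - x w`, `x z - x(w + q)` are units (`MUXV.v_X_sub`). `x z - x q`: a unit if `q ∉ InK` (and then `v(x q) ≤ 1`, `MUXV.int_X`); if `q ∈ InK`, `q ∉ L`: `v(x q) > 1 ≥ v(x z)`, `v(x z - x q) = v(x q)`.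
In both cases `v(x z - x q) = max 1 (v(x q))`. -/
def Sb_GEN : Prop :=
  ∀ (p : ℕ) (V : ValuationSubring ℂ) (L M : PeriodPair) (u e lam u' e' lam' μ : ℂ), Cp p V →
    GoodL V L u e lam → GoodL V M u' e' lam' → μ ≠ 0 → Isg L M μ →
    ∀ R : Finset ℂ, IsRpM L M μ R →
      V.valuation (μ * u' / u) ^ 2 * ∏ q ∈ R, max 1 (V.valuation (xu L u e q)) = 1

/-- (UNT) the multiplier is a unit, if and only if no point of the kernel is in the kernel of reduction; torsion prime to `p`.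

Uses Sb_GEN, Sb_TNC, Su_BAC. PROOF. `R` from `u_BAC`. (1) `Ker0`: all `q ∈ R` are not in `InK` (`q ∉ L`, `μ q ∈ M`), so `v(x q) ≤ 1` (`MUXV.int_X`), all factors of (GEN) are `1`, `v(..)² = 1`. (2) Conversely if `v(μ u'/u) = 1` then the product of the `max 1 (..) ≥ 1` is `1`, so all are `1`, `v(x q) ≤ 1`, `x q ∈ V`, and `q ∉ InK` for `q ∈ R`
(`q ∉ L`); for `z` with `μ z ∈ M`, `z ∉ L`: `z - q ∈ L` for some `q ∈ R`, `x z = x q`. (3) If `N z ∈ L` for all `z` with `μ z ∈ M`, `p ∤ N`: `Ker0` by (TNC). -/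
def Sb_UNT : Prop :=
  ∀ (p : ℕ) (V : ValuationSubring ℂ) (L M : PeriodPair) (u e lam u' e' lam' μ : ℂ), Cp p V →
    GoodL V L u e lam → GoodL V M u' e' lam' → μ ≠ 0 → Isg L M μ →
    (Ker0 V L M u e μ ↔ V.valuation (μ * u' / u) = 1) ∧
    ∀ N : ℕ, ¬ p ∣ N → (∀ z, μ * z ∈ M.lattice → (N : ℂ) * z ∈ L.lattice) →
      Ker0 V L M u e μ

/-- (RAT) the isogeny as a rational function over `V`.

Uses Sb_COE, Sb_GRN, Sb_TNC, Sb_UNT, Su_BAC, Su_PFI. PORT of `Pool/Agent/NS/F_RAT.lean`, with `Ker0` instead of `¬ 3 ∣ N`. `R` representatives of the nonzero classes of the kernel, `n` its exponent (`u_BAC`), `w = ω₁/l`, `l` a prime greater than `p n`: `w, w + q ∉ InK V L` (`n (w + q) ≡ n w`, killed by `l`, TNC), `q ∉ InK V L` (`Ker0`),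
`μ w ∉ M`, not in `InK V M`. The rest is the same. -/
def Sb_RAT : Prop :=
  ∀ (p : ℕ) (V : ValuationSubring ℂ) (L M : PeriodPair) (u e lam u' e' lam' μ : ℂ), Cp p V →
    GoodL V L u e lam → GoodL V M u' e' lam' → μ ≠ 0 → Isg L M μ → Ker0 V L M u e μ →
    ∃ P Q : ℂ[X], IntP V P ∧ IntP V Q ∧ P.Monic ∧ P.natDegree = Q.natDegree + 1 ∧
      Q.leadingCoeff = (μ * u' / u) ^ 2 ∧ ∀ z, μ * z ∉ M.lattice →
        xu M u' e' (μ * z) * Q.eval (xu L u e z) = P.eval (xu L u e z) ∧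
        (μ * u' / u) * yu M u' (μ * z) * Q.eval (xu L u e z) ^ 2 =
          yu L u z * (derivative P * Q - P * derivative Q).eval (xu L u e z)

/-- (KIS) isogenies of this kind preserve the kernel of reduction and the values there.

Uses Sb_RAT, Sb_UNT. PROOF. `z ∈ InK`, `z ∉ L`: `μ z ∉ M` (`Ker0`), `X = v(x z) > 1`. (RAT): `P` monic of degree `d + 1` over `V`, `Q` of degree `d` over `V` with leading coefficient a unit (UNT): `v(P(x z)) = X^(d+1)`, `v(Q(x z)) = X^d` (the leading term is the largest, `X > 1`). So `v(x'(μ z)) = X > 1`. -/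
def Sb_KIS : Prop :=
  ∀ (p : ℕ) (V : ValuationSubring ℂ) (L M : PeriodPair) (u e lam u' e' lam' μ : ℂ), Cp p V →
    GoodL V L u e lam → GoodL V M u' e' lam' → μ ≠ 0 → Isg L M μ → Ker0 V L M u e μ →
    ∀ z, InK V L (xu L u e) z → z ∉ L.lattice → μ * z ∉ M.lattice ∧
      InK V M (xu M u' e') (μ * z) ∧
      V.valuation (xu M u' e' (μ * z)) = V.valuation (xu L u e z)

/-! ## The prime `P` -/

/-- (CFA) the ideals above `p`.

PROOF. `te_RNG`: `O` is a Dedekind domain with elements `r + s w`; `x star x = nm x`, `x + star x` an integer, `cjI I` is the conjugate ideal. `P ≠ ⊥` (`p ∈ P`, `p ≠ 0`), so `P` is maximal. Norms: `nI` is multiplicative (`Ideal.absNorm`, `Submodule.cardQuot`; see `MUX/E_PA.lean`, `MUX/XLib.lean`), `nI (p) = p²` (`nI_sp`), `nI (cjI P) = nI P ≥ p` (`O/P` is a finite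
field of characteristic `p`, so `nI P` is a power `≥ p` of `p`; `p ≥ 5` gives `n3`). (a) `Q` prime, `p ∈ Q` implies `Q = P` or `Q = cjI P`: for `x ∈ P`: `x star x = nm x ∈ P ∩ ℤ = pℤ`, so `x star x ∈ Q`; if `P` is not contained in `Q` take `x ∈ P ∖ Q`: `star x ∈ Q`; for `y ∈ P`, `(x + y) star(x + y) ∈ Q` gives `x star y + y star x ∈ Q`, so
`x star y ∈ Q`, `star y ∈ Q`: `cjI P ≤ Q`. Both are maximal. (b) `cjI P ≠ P`: `Pc P = cjI P`, `P` and `cjI P` are coprime and contain `p`: `(p) ≤ P cjI P`, the norm of the right side is `≥ p²`: equality (`(p) = P cjI P I`, `nI I = 1`). `p ∉ P²`: otherwise `P² ∣ P cjI P`, `P ∣ cjI P`. So `er = 1`. (c) `cjI P = P`: `Pc P = ⊤` and every prime containing `p` is `P`,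
so `(p) = P^k` (factorisation), `k ≥ 1`, `p² = nI(P)^k`: `k = 1` or `2`, and `p ∈ P²` iff `k = 2` (cancel): `k = er`; `k = 2` gives `nI P = p`. -/
def Sb_CFA : Prop :=
  ∀ (p er : ℕ) (A B : ℤ) (P : Ideal (OO A B)) (V : ValuationSubring ℂ), CaseO p er A B P V →
    P ≠ ⊥ ∧ P.IsMaximal ∧ idl (A := A) (B := B) p = P ^ er * Pc P ∧ Pc P ≠ ⊥ ∧ ¬ Pc P ≤ P ∧
    (er = 2 → nI P = p ∧ Pc P = ⊤) ∧ 3 ≤ nI P ∧
    ∀ Q : Ideal (OO A B), Q.IsPrime → ((p : ℕ) : OO A B) ∈ Q → Q = P ∨ Q = Pc P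

/-- (CAL) a uniformiser `al` of `P` which is prime to the other primes above `p`.

Uses Sb_CFA. PROOF. `π ∈ P ∖ P²` (`P² < P`: Dedekind, `P ≠ ⊥, ⊤`). `P²` and `Pc P` are coprime: `u + v = 1`, `u ∈ P²`, `v ∈ Pc P`; `al = π v + u`: `al - π = (1 - π) u ∈ P²`, and `al - 1 ∈ Pc P` (`al - 1 = (π - 1) v`). So `al ∈ P`, `al ∉ P²`, and if `Pc P ≠ ⊤` (`Pc P = cjI P` is prime) `al ∉ Pc P`. `(al) = P 𝔠` (`P ∣ (al)`), `𝔠` is not contained in `P`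
(otherwise `al ∈ P²`) and not in `Pc P` if this is prime. So `𝔠 + (p) = ⊤` (a maximal ideal containing both would be `P` or `Pc P`: CFA): `1 = c + p t`, `c ∈ 𝔠`. `N := (nm c).natAbs`: `(N : O) = ± c star c ∈ 𝔠`, and `p ∤ N`: `star c = 1 - p star t`, `c star c - 1 ∈ (p)`, so `p ∣ nm c` would give `1 ∈ (p)`. `x ∈ P`: `N x ∈ 𝔠 P = (al)`. -/
def Sb_CAL : Prop :=
  ∀ (p er : ℕ) (A B : ℤ) (P : Ideal (OO A B)) (V : ValuationSubring ℂ), CaseO p er A B P V →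
    ∃ al : OO A B, al ∈ P ∧ al ∉ P ^ 2 ∧
      ∃ N : ℕ, ¬ p ∣ N ∧ ∀ x ∈ P, ∃ y : OO A B, ((N : ℕ) : OO A B) * x = al * y

/-- (CTX) from the hypotheses to `CtxO`.

Uses Sb_CFA, Sb_CAL. PROOF. Models `NS/F_CTX.lean`, `NS/E_CTX.lean`. `v p < 1`: `OverI` for `x = p ∈ P`. `int`: `emb x` is integral over `ℤ`. `unit`: `OverI` and `int`. `nat`: `1 = a n + b p` with integers, so `n ∉ P`. `al` from (CAL). `vP`: `x ∈ P`: `N x = al y`, `v N = 1`, `v(emb x) = v(emb al) v(emb y)`. `alv`: `er = 1`: `p ∈ P` gives `v p ≤ v(al)`;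
conversely `(p) = P Pc P`, choose `c ∈ Pc P ∖ P`: `al c ∈ P Pc P = (p)`, `v(al) = v(al c) ≤ v p`. `er = 2`: `(p) = P² Pc P`, `al² c ∈ (p)`, `v(al)² ≤ v p`; and `p ∈ P²` is a sum of products `x y`, `x, y ∈ P`: `v p ≤ v(al)²` (`vP`; `Submodule.mul_induction_on`). `good`, `iner`: `O_RFIN`. `exq`: `TorX.surj` for `m = ⊤`, `a = P`: `ActI.isq`; `NL` of the new lattice: it is `IsNL`. `ring`: `te_RNG`. -/
def Sb_CTX : Prop :=
  ∀ (p er : ℕ) (A B : ℤ) (P : Ideal (OO A B)) (V : ValuationSubring ℂ), CaseO p er A B P V →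
    TorX A B → O_RFIN → ∃ al : OO A B, CtxO p er A B P V al

/-- (PVL) elements of `O`: multiplication by `x ∉ P`, and the kernel of reduction as an `O`-module.

Uses Sb_UNT, Sb_KIS, Sb_GRN. PROOF. `L` has complex multiplication (`te_TRA`): `Isg L L (emb x)`; `x ≠ 0` gives `emb x ≠ 0` (`RingE.inj0`). (UNT) with `M = L`: `v(emb x u/u) = v(emb x) = 1` (`unit`), so `Ker0`. (2), (3): (KIS). (4) `x ∈ P`: `x = (x + 1) - 1`, `x + 1 ∉ P`: `emb x z = emb (x+1) z - z`, and `InK` is a group (`MUXV.inK_sub`). (5): (1) for some `x ∈ m`, `x ∉ P`. -/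
def Sb_PVL : Prop :=
  ∀ (p er : ℕ) (A B : ℤ) (P : Ideal (OO A B)) (V : ValuationSubring ℂ) (al : OO A B),
    CtxO p er A B P V al → ∀ (L : PeriodPair) (u e lam : ℂ), NL A B L → GoodL V L u e lam →
    (∀ x : OO A B, x ∉ P → Ker0 V L L u e (emb x) ∧
      ∀ z, InK V L (xu L u e) z → z ∉ L.lattice →
        emb x * z ∉ L.lattice ∧ InK V L (xu L u e) (emb x * z) ∧
        V.valuation (xu L u e (emb x * z)) = V.valuation (xu L u e z)) ∧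
    (∀ (x : OO A B) (z : ℂ), InK V L (xu L u e) z → InK V L (xu L u e) (emb x * z)) ∧
    ∀ m : Ideal (OO A B), ¬ m ≤ P → ∀ z, Tor m L z → InK V L (xu L u e) z → z ∈ L.lattice

/-- (PIS) the isogeny `L → N = ν P⁻¹ L`, and the points of `E[P]`. `q = nI P`.

Uses Sb_GRN, Sb_TNC, Sb_GEN, Sb_UNT, Sb_PVL, Su_BAC. PROOF. (1) `κ = emb al/ν : N → L`: `w ∈ N`, `w = ν z`, `emb x z ∈ L` for `x ∈ P` (`IsQ`), so `κ w = emb al z ∈ L`. `Ker0 V N L u' e' κ`: let `w = ν z`, `emb al z ∈ L`; with `alN`: `emb x (N₀ z) = emb y (emb al z) ∈ L` for `x ∈ P`, so `N₀ w ∈ N`, `p ∤ N₀`, and (UNT, last part). So (UNT) `v(κ u/u') = 1`,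
`v(ν u'/u) = v(emb al) < 1` (`OverI`). (2) `R` for `ν : L → N` (`u_BAC`): `{z : ν z ∈ N} = E[P]` (`IsQ`). (GEN): `v(al)² ∏_R max 1 (v(x q)) = 1`, so some `q₀ ∈ R` has `v(x q₀) > 1`, `q₀ ∈ InK`. Every `z ∈ E[P] ∖ L` is `≡ emb x q₀` modulo `L` for some `x` (`te_TRB` (2)), `x ∉ P` as `z ∉ L`: `z ∈ InK`, `v(x z) = v(x q₀) =: T` (PVL). `|R| = q - 1`: the map
`O/P → E[P]/L`, `x ↦ emb x q₀`, is a bijection (injective: `emb x q₀ ∈ L` and `x ∉ P` would give `q₀ ∈ L`), `nI P = Nat.card (O/P)`. So `v(al)² T^(q-1) = 1`, `v(s z)^(q-1) = v(al)²` (`su = 1/x`). -/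
def Sb_PIS : Prop :=
  ∀ (p er : ℕ) (A B : ℤ) (P : Ideal (OO A B)) (V : ValuationSubring ℂ) (al : OO A B),
    CtxO p er A B P V al → ∀ (L N : PeriodPair) (nu u e lam u' e' lam' : ℂ), NL A B L →
      NL A B N → IsQ P L N nu → GoodL V L u e lam → GoodL V N u' e' lam' →
      V.valuation (nu * u' / u) = V.valuation (emb al) ∧
      (∃ R : Finset ℂ, IsRpM L N nu R ∧ R.card + 1 = nI P) ∧
      ∀ z, Tor P L z → z ∉ L.lattice → InK V L (xu L u e) z ∧ xu L u e z ≠ 0 ∧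
        V.valuation (su L u e z) ^ (nI P - 1) = V.valuation (emb al) ^ 2

/-- (TPR) the values of the points of exact order `P^(j+1)`.

Uses Sb_COE, Sb_GRN, Sb_TNC, Sb_PIS, Su_PFI. PORT of `Pool/Agent/NS/F_TPR.lean` (`Sf_TPR`: there `q = 3`, `v(emb al)² = v 3`). PROOF. `q = nI P ≥ 3`. Induction on `j`, for all lattices; `j = 0` is (PIS) (`Tor (P^0) L z` iff `z ∈ L`). Step: `Tor (P^(j+2)) L z`, not `Tor (P^(j+1)) L z`. `N`, `ν` (`exq`), `u', e', lam'` (`good`), `z' = ν z`: `Tor (P^(j+1)) N z'`, not `Tor (P^j) N z'`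
(`IsQ`), so by induction `Y = v(x' z') > 1`, `Y^((q-1) q^j) v(al)² = 1`. `R`, `|R| = q - 1` (PIS), `T = v(x q)` for `q ∈ R`, `T > 1`, `T^(q-1) v(al)² = 1`, so `T = Y^(q^j) ≥ Y`. `w = ω₁/l`, `l` a prime greater than `p` and than the exponent of the kernel (or `w = ω₁/2`, `q` is odd): `w, w + q ∉ InK V L`, `ν w ∉ InK V N`. (PFI):
`(ν u'/u)² (x'(z') - x'(ν w)) ∏_R (x z - x q) = (x z - x w) ∏_R (x z - x(w + q))`, `v(ν u'/u)² = v(al)²`. If `x z ∈ V`: the left side has valuation `v(al)² Y T^(q-1) = Y > 1`, the right side `≤ 1`. So `X = v(x z) > 1`, the right side has valuation `X^q`. If `X > T`: `v(al)² Y X^(q-1) = X^q`, `X = v(al)² Y < Y ≤ T`. If `X = T`: `T^q ≤ v(al)² Y T^(q-1) = Y ≤ T`,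
but `T^q > T`. So `X < T`, `X^q = v(al)² Y T^(q-1) = Y`. (`x z ≠ 0`, `su = 1/x`.) -/
def Sb_TPR : Prop :=
  ∀ (p er : ℕ) (A B : ℤ) (P : Ideal (OO A B)) (V : ValuationSubring ℂ) (al : OO A B),
    CtxO p er A B P V al → ∀ (j : ℕ) (L : PeriodPair) (u e lam : ℂ), NL A B L →
      GoodL V L u e lam → ∀ z, Tor (P ^ (j + 1)) L z → ¬ Tor (P ^ j) L z →
        InK V L (xu L u e) z ∧ xu L u e z ≠ 0 ∧
          V.valuation (su L u e z) ^ ((nI P - 1) * nI P ^ j) = V.valuation (emb al) ^ 2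

/-- (PTS) the points of `E[P^er]` satisfy `PtsO`.

Uses Sb_COE, Sb_GRN, Sb_TNC, Sb_GEN, Sb_PVL, Sb_TPR. PROOF. Model `NS/F_PTS.lean` for `eq`, `neg`, `fin` and the last part. `er = 1` or `2`. `vs`: `Y ∈ SP`: `Tor P L Y`, not `Tor (P^0)` (`= L`), or `er = 2` and not `Tor P L Y`: (TPR) with `j = 0` or `1`: `Y ∈ InK`, `x Y ∉ V`, `v(s Y) < 1`. `big`: let `H` be a half system of `L` for `a = p` (`b_HAL`, `p` odd: `p z, 2 z ∈ L` gives `z ∈ L`),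
`R = H ∪ -H` (`b_HRE`; `IsReps L p R` is `IsRpM L L p R`), `q ∈ H` and `-q` have the same `x`. (GEN) for `μ = p`, `M = L`, `u' = u`: `v(p)² ∏_H (max 1 (v(x q)))² = 1`, so `v(p) ∏_H max 1 (v(x q)) = 1` (squares). `T = {q ∈ H : q ∈ InK}`: `v(p) ∏_T v(x q) = 1`, `v(∏_T s q) = v p`. `T ⊆ SP`: `q ∈ T`, `p q ∈ L`, `x ∈ P^er`: for `c ∈ Pc P`:
`emb c (emb x q) ∈ L` (`x c ∈ (p)`: `fac`), so `Tor (Pc P) L (emb x q)`, `emb x q ∈ InK` (PVL (2)), so `emb x q ∈ L` (PVL (3), `cnl`); `q ∉ L` (`2 q ∉ L`). Different `q, q' ∈ H` have different `℘` (`b_NEQ`: `q ≢ ± q'`: `IsHalf.inj`, `neg`), so different `s` (`x q ≠ 0` on `T`). `y` : an enumeration of `T` (`Finset.equivFin`). `fin`: `Y ∈ SP` has `p Y ∈ L` (`p ∈ P^er`: `fac`), finitely many classes. -/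
def Sb_PTS : Prop :=
  ∀ (p er : ℕ) (A B : ℤ) (P : Ideal (OO A B)) (V : ValuationSubring ℂ) (al : OO A B),
    CtxO p er A B P V al → ∀ (L : PeriodPair) (u e lam : ℂ), NL A B L → GoodL V L u e lam →
      PtsO p V (SP P er L) (su L u e) (ru L u e) (-(1 + lam)) lam ∧
      (∀ Y ∈ SP P er L, InK V L (xu L u e) Y ∧ xu L u e Y ≠ 0) ∧
      ∀ Y ∈ SP P er L, ∀ w ∈ L.lattice, Y + w ∈ SP P er L ∧
        su L u e (Y + w) = su L u e Y ∧ ru L u e (Y + w) = ru L u e Y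

/-- (ADD) addition of a point of `SP`.

Uses Sb_ALG, Sb_COE, Sb_GRN, Sb_PTS. PORT of `Pool/Agent/NS/F_ADD.lean` (`Se_ADD`, `Sf_ADD`). -/
def Sb_ADD : Prop :=
  ∀ (p er : ℕ) (A B : ℤ) (P : Ideal (OO A B)) (V : ValuationSubring ℂ) (al : OO A B),
    CtxO p er A B P V al → ∀ (L : PeriodPair) (u e lam : ℂ), NL A B L → GoodL V L u e lam →
      ∀ z, ¬ InK V L (xu L u e) z →
        RepO p V (SP P er L) (su L u e) (ru L u e) (fun Y => xu L u e (z + Y)) (xu L u e z)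
          (2 * yu L u z)

/-- (ISO) the isogeny on the points of `SP`.

Uses Sb_ALG, Sb_PRO, Sb_PTS, Sb_UNT, Sb_RAT. PORT of `Pool/Agent/NS/F_ISO.lean`. `Y ∈ SP P er L`: `x ∈ P^er`: `emb x (μ Y) = μ (emb x Y) ∈ M`; `μ Y ∈ M` would give `Y ∈ L` (`Ker0`, `Y ∈ InK`: PTS). The rest is the same (`ν = μ u'/u` is a unit: UNT). -/
def Sb_ISO : Prop :=
  ∀ (p er : ℕ) (A B : ℤ) (P : Ideal (OO A B)) (V : ValuationSubring ℂ) (al : OO A B),
    CtxO p er A B P V al → ∀ (L M : PeriodPair) (u e lam u' e' lam' μ : ℂ), NL A B L →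
    NL A B M → GoodL V L u e lam → GoodL V M u' e' lam' → μ ≠ 0 → Isg L M μ →
    Ker0 V L M u e μ →
    (∀ Y ∈ SP P er L, μ * Y ∈ SP P er M) ∧
    RepO p V (SP P er L) (su L u e) (ru L u e) (fun Y => su M u' e' (μ * Y)) 0 0 ∧
    RepO p V (SP P er L) (su L u e) (ru L u e) (fun Y => ru M u' e' (μ * Y)) 0 (μ * u' / u)

/-- (THN) the functions `Θ_a(z + μ Y)`, `Y ∈ SP P er L`, on the lattice `M`.

Uses Sb_ALG, Sb_PRO, Sb_PUL, Sb_GRN, Sb_ISO, Sb_ADD, Sb_PTS. PORT of `Pool/Agent/NS/F_THN.lean`. -/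
def Sb_THN : Prop :=
  ∀ (p er : ℕ) (A B : ℤ) (P : Ideal (OO A B)) (V : ValuationSubring ℂ) (al : OO A B),
    CtxO p er A B P V al → ∀ (L M : PeriodPair) (u e lam u' e' lam' μ : ℂ), NL A B L →
    NL A B M → GoodL V L u e lam → GoodL V M u' e' lam' → μ ≠ 0 → Isg L M μ →
    Ker0 V L M u e μ →
    ∀ (a : ℕ) (H : Finset ℂ), a ≠ 0 → IsHalf M (a : ℂ) H → ∀ z, ¬ InK V M (xu M u' e') z →
      (a : ℂ) * z ∉ M.lattice →
      (∀ q ∈ H, ¬ InK V M (xu M u' e') q ∧ ¬ InK V M (xu M u' e') (z + q) ∧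
        ¬ InK V M (xu M u' e') (z - q)) →
      V.valuation (ThetaH M H z) = V.valuation (u' ^ 2) ^ H.card ∧
      V.valuation (μ * dlX M a z / u) ≤ 1 ∧
      RepO p V (SP P er L) (su L u e) (ru L u e)
        (fun Y => ThetaH M H (z + μ * Y) / ThetaH M H z) 1 (μ * dlX M a z / u)

/-- (NE1) points whose order is divisible by `f` are not in the kernel of reduction.

Uses Sb_GRN, Sb_TNC. PORT of `Pool/Agent/NS/F_NE1.lean` (`Sf_NE1`). -/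
def Sb_NE1 : Prop :=
  ∀ (p : ℕ) (V : ValuationSubring ℂ) (L : PeriodPair) (u e lam : ℂ), Cp p V →
    GoodL V L u e lam → ∀ (j f a : ℕ), 2 ≤ f → ¬ p ∣ f → ¬ p ∣ a → a.Coprime f →
      ∀ z : ℂ, ((p ^ j * f : ℕ) : ℂ) * z ∈ L.lattice →
        (∀ c : ℕ, (c : ℂ) * z ∈ L.lattice → f ∣ c) →
        ¬ InK V L (xu L u e) z ∧ (a : ℂ) * z ∉ L.lattice ∧
        ∀ q : ℂ, (a : ℂ) * q ∈ L.lattice → q ∉ L.lattice → ¬ InK V L (xu L u e) q ∧
          ¬ InK V L (xu L u e) (z + q) ∧ ¬ InK V L (xu L u e) (z - q)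

/-! ## The fields -/

/-- the part of the level `f p^(n+1)` which is prime to `P` -/
def lv0 {A B : ℤ} (P : Ideal (OO A B)) (f n : ℕ) : Ideal (OO A B) :=
  idl (A := A) (B := B) f * Pc P ^ (n + 1)

/-- (IDL) the level `(f p^(n+1)) = P^(er (n+1)) · lv0`.

PROOF. `(p)^(n+1) = P^(er (n+1)) (Pc P)^(n+1)` (`fac`, `Ideal.span_singleton_pow`, `mul_pow`, `pow_mul`). `lv0` is not contained in `P` (`P` prime: `f ∉ P` by `nat`, `cnl`). Coprime: `P` maximal, `Ideal.IsMaximal.coprime..`/`IsCoprime.pow_left`. Fourth: `p^n y ∈ P^(er n) (Pc P)^n Pc P`. Fifth: `lv0 ≤ idl f`. Sixth: `c ≡ 1` modulo `p`, `f`, `a`: coprime to each. Last: `lvX p f n = f * p * p^n` for `p ≠ 2` (`q0`). -/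
def Sb_IDL : Prop :=
  ∀ (p er : ℕ) (A B : ℤ) (P : Ideal (OO A B)) (V : ValuationSubring ℂ) (al : OO A B),
    CtxO p er A B P V al → ∀ (f n : ℕ), f ≠ 0 → ¬ p ∣ f →
      idl (A := A) (B := B) (p ^ (n + 1) * f) = P ^ (er * (n + 1)) * lv0 P f n ∧
      lv0 P f n ≠ ⊥ ∧ ¬ lv0 P f n ≤ P ∧ IsCoprime (P ^ (er * (n + 1))) (lv0 P f n) ∧
      (∀ y ∈ Pc P, ((p ^ n * f : ℕ) : OO A B) * y ∈ lv0 P f n) ∧
      lv0 P f n ≤ idl (A := A) (B := B) f ∧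
      (∀ (a : ℕ) (y : OO A B), a ≠ 0 → 1 ≤ n →
        IsCoprime (1 + ((p ^ n * f * a : ℕ) : OO A B) * y) ((p ^ (n + 1) * f * a : ℕ) : OO A B)) ∧
      lvX p f n = p ^ (n + 1) * f

/-- (UNR) `RF m'` is unramified over `k` at `V` if `m'` is not contained in `P`.

PROOF. `Pool.Agent.NSR.tr_RAM` (`NS/RN_RAM.lean`, `Sr_RAM`) with `ϖ = al`. `F = RF m'` (finite, Galois: `TorX`). `σ ∈ Gal(F/k)` in the inertia group: extend it to `s ∈ Aut(ℂ)`, `FixK` (`TorX.ext`; see `Pool/Agent/NS/F_UNR.lean`); `CtxO.iner`: `s y = y` for all `y ∈ F`, so `σ = 1`. MODEL `NS/F_UNR.lean`. -/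
def Sb_UNR : Prop :=
  ∀ (p er : ℕ) (A B : ℤ) (P : Ideal (OO A B)) (V : ValuationSubring ℂ) (al : OO A B),
    CtxO p er A B P V al → TorX A B →
    ∀ m' : Ideal (OO A B), m' ≠ ⊥ → ¬ m' ≤ P → ∀ y ∈ RF m', y ≠ 0 →
      ∃ k : ℤ, V.valuation y = V.valuation (emb al) ^ k

/-- (DEG) the degree of `RF (P^(j+1) m')` over `RF m'`.

PROOF. Models `MUX/E_DEG.lean` (`te_DEG` for `nI P = p`, the same ideals), `NS/F_DEG.lean`. `σ ∈ Gal(RF (P^(j+1) m')/k)` trivial on `RF m'` acts as some `α` with `α - 1 ∈ m'` (`GalE.ker`), `α ∉ P` (coprime); `σ` is determined by the class of `α` modulo `P^(j+1)` (if `α ≡ α'` modulo `P^(j+1)` and modulo `m'`, then modulo `P^(j+1) m'`, coprime; `te_FAC`). The number of classes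
modulo `P^(j+1)` of elements outside `P` is `q^(j+1) - q^j = (q - 1) q^j`, `q = nI P`: `O/P^(j+1)` has `q^(j+1)` elements (`nI` is multiplicative: `Ideal.absNorm`, `Submodule.cardQuot`), and `P/P^(j+1)` has `q^j` elements. -/
def Sb_DEG : Prop :=
  ∀ (p er : ℕ) (A B : ℤ) (P : Ideal (OO A B)) (V : ValuationSubring ℂ) (al : OO A B),
    CtxO p er A B P V al → GalE A B → ∀ (j : ℕ) (m' : Ideal (OO A B)), m' ≠ ⊥ → ¬ m' ≤ P →
      Module.finrank (kk A B) (RF (P ^ (j + 1) * m')) ≤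
        ((nI P - 1) * nI P ^ j) * Module.finrank (kk A B) (RF m')

/-- (UNI) a uniformiser of `RF (P^(J+1) m')` over `RF m'`, from a point `z₁` with annihilator `P^(J+1) m₁`, `m' ≤ m₁`.

Uses Sb_COE, Sb_GRN, Sb_LEG, Sb_PVL, Sb_TPR, Sb_UNR, Sb_DEG, `Pool.Agent.NSE.te_BAS` (`NS/E_BAS.lean`). MODEL `NS/F_UNI.lean`. PROOF. `1 = s + t`, `s ∈ P^(J+1)`, `t ∈ m₁` (coprime: `P` is maximal, `m₁` is not contained in `P`). `P₀ = emb s z₁`, `P₁ = emb t z₁`, `z₁ = P₀ + P₁`. `Tor m₁ L P₀` (`m₁ s ⊆ m₁ P^(J+1)`), `Tor (P^(J+1)) L P₁`, not `Tor (P^J) L P₁`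
(`x ∈ P^J ∖ P^(J+1)`: `x t ∈ P^(J+1) m₁` would give `x t ∈ P^(J+1)`, `t ≡ 1`). `2 P₀ ∈ L` gives `2 s ∈ P^(J+1) m₁ ≤ idl f`, `s ≡ 1` modulo `m₁ ≤ idl f`, so `2 ∈ idl f`, `f ∣ 2`, contradiction to `f ≥ 3`; so `P₀, 2 P₀ ∉ L`, and not in `InK` (PVL (3), `Tor m₁`). `z₁ = P₀ + P₁ ∉ InK` (`P₁ ∈ InK` by TPR). `v(s P₁)^((q-1) q^J) = v(al)²` (TPR), `v(t P₁)² = v(s P₁)`
(`MUXV.v_tX_lt`), `v(y P₀) = 1` (`Pool.Agent.MU3.Val.v_y_unit` with `inE_iff`, as in `F_UNI.lean`), `π = x(z₁) - x(P₀)`, `v π = v(t P₁)` (`MUXV.near`), so `v(π)^((q-1) q^J) = v(al)` (square roots). `e, u² ∈ RF (2)` (LEG: `e = ℘ w₁`, `u² = ℘ w₂ - ℘ w₁`), `RF (2) ≤ RF m'` (`m' ≤ m₁ ≤ idl f ≤ idl 2`), `x(P₀) ∈ RF m'`, `π ∈ RF (P^(J+1) m')` (`te_FAC`).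
(BAS) with `p := emb al`, `N = (q - 1) q^J`, `M₀ = RF m'` (UNR: values `v(al)^ℤ`), `M = RF (P^(J+1) m')` (DEG). -/
def Sb_UNI : Prop :=
  ∀ (p er : ℕ) (A B : ℤ) (P : Ideal (OO A B)) (V : ValuationSubring ℂ) (al : OO A B),
    CtxO p er A B P V al → TorX A B → GalE A B → ∀ (L : PeriodPair) (u e lam : ℂ), NL A B L →
    GoodL V L u e lam → ∀ (J f : ℕ) (m₁ m' : Ideal (OO A B)), 3 ≤ f → 2 ∣ f → m' ≤ m₁ →
    m₁ ≤ idl (A := A) (B := B) f → m' ≠ ⊥ → ¬ m' ≤ P → ∀ z₁ : ℂ, Ann (P ^ (J + 1) * m₁) L z₁ →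
    ∃ P₀ : ℂ, Tor m₁ L P₀ ∧ P₀ ∉ L.lattice ∧ ¬ InK V L (xu L u e) P₀ ∧
      ¬ InK V L (xu L u e) z₁ ∧ u ^ 2 ∈ RF m' ∧ e ∈ RF m' ∧ xu L u e P₀ ∈ RF m' ∧
      xu L u e z₁ - xu L u e P₀ ∈ RF (P ^ (J + 1) * m') ∧
      ∀ w ∈ RF (P ^ (J + 1) * m'), V.valuation w ≤ 1 →
        ∃ c : Fin ((nI P - 1) * nI P ^ J) → RF m',
          (∀ i, V.valuation (c i : ℂ) ≤ 1) ∧
          w = ∑ i, (c i : ℂ) * (xu L u e z₁ - xu L u e P₀) ^ (i : ℕ)

/-- (SIG) `Y ↦ σ_Y(w)` for `w` in the ray class field, `σ_Y(z₁) = z₁ + Y`.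

Uses Sb_ALG, Sb_PRO, Sb_PTS, Sb_ADD, Sb_UNI. MODEL `NS/F_SIG.lean`, `NS/E_SIG.lean` (second half). PROOF. (UNI): `w = Σ c_i π^i`, `F Y = Σ c_i (x(z₁ + Y) - x(P₀))^i`: a polynomial over `V` in `x(z₁ + Y)` (`v(x P₀) ≤ 1`), represented by `(w, β)` (ADD, PRO (1)). `σ` acts trivially on `RF m'` (`te_FAC`; `c - 1 ∈ m'`), so on `c_i`, `e`, `u²`, `x(P₀)`, and
`σ(xn z₁) = xn (emb c z₁) = xn (z₁ + emb (c - 1) z₁)` (`Tor (P^(J+1) m') L z₁`). -/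
def Sb_SIG : Prop :=
  ∀ (p er : ℕ) (A B : ℤ) (P : Ideal (OO A B)) (V : ValuationSubring ℂ) (al : OO A B),
    CtxO p er A B P V al → TorX A B → GalE A B → ∀ (L : PeriodPair) (u e lam : ℂ), NL A B L →
    GoodL V L u e lam → ∀ (J f : ℕ) (m₁ m' : Ideal (OO A B)), 3 ≤ f → 2 ∣ f → m' ≤ m₁ →
    m₁ ≤ idl (A := A) (B := B) f → m' ≠ ⊥ → ¬ m' ≤ P → ∀ z₁ : ℂ, Ann (P ^ (J + 1) * m₁) L z₁ →
    ∀ w ∈ RF (P ^ (J + 1) * m'), V.valuation w ≤ 1 →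
    ∃ (F : ℂ → ℂ) (β : ℂ), V.valuation β ≤ 1 ∧
      RepO p V (SP P er L) (su L u e) (ru L u e) F w β ∧
      ∀ (c : OO A B), c - 1 ∈ m' →
      ∀ (σ : RF (P ^ (J + 1) * m') ≃ₐ[kk A B] RF (P ^ (J + 1) * m')),
      ActE (_root_.Pool.Agent.MU3A.em σ) (P ^ (J + 1) * m') c →
      ∀ hw : w ∈ RF (P ^ (J + 1) * m'), (σ ⟨w, hw⟩ : ℂ) = F (emb (c - 1) * z₁)

/-! ## The points -/

/-- (EXO) exact orders of the points of level `m = p^(n+1) f`.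

PROOF. Model `NS/F_EXO.lean`. `te_PT te_TRA`: `pt R m i x = μ_i (emb x (om_0/m))`; `emb c * pt` is in `L_i` iff `emb (c x) (om_0/m) ∈ L_0` iff `m ∣ c x` iff `m ∣ c` (`x` prime to `m`). Second: `emb c (om_0/m) = emb c pt R m i0 1`. Third: `Y = emb y (a om_0/p)`, `y ∈ Pc P`: `P^er y ⊆ (p)` (`fac`), so `Tor (P^er)`. Conversely let `Tor (P^er) L_0 Y`: `p Y ∈ L_0` (`p ∈ P^er`),
`Y = om_0 emb b'/p`, `b' P^er ⊆ (p) = P^er Pc P`, so `b' ∈ Pc P` (cancel `P^er`, Dedekind; `emb` injective). With `a a' ≡ 1` modulo `p` (integers, `p ∤ a`): `y = a' b' ∈ Pc P`, `emb y (a om_0/p) - Y = om_0 emb((a a' - 1) b')/p ∈ L_0`. Last: `f ∣ c` for natural numbers `c` with `c (z + q) ∈ L_i`, `q ∈ E[P]`: `p q ∈ L_i`, so `p c z ∈ L_i`, `p^(n+1) f ∣ p c`. -/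
def Sb_EXO : Prop :=
  ∀ (p er : ℕ) (A B : ℤ) (P : Ideal (OO A B)) (V : ValuationSubring ℂ) (al : OO A B),
    CtxO p er A B P V al → ∀ (n f : ℕ) (ι : Type) (R : Reps A B (p * f) ι), f ≠ 0 → ¬ p ∣ f →
      (∀ (i : ι) (x : OO A B), IsCoprime x ((p ^ (n + 1) * f : ℕ) : OO A B) →
        Ann (idl (A := A) (B := B) (p ^ (n + 1) * f)) (R.L i) (pt R (p ^ (n + 1) * f) i x) ∧
        pt R (p ^ (n + 1) * f) i x =
          muX R i * emb x * (R.om R.i0 / (p ^ (n + 1) * f : ℕ)) ∧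
        ∀ q : ℂ, (p : ℂ) * q ∈ (R.L i).lattice →
          ((p ^ (n + 1) * f : ℕ) : ℂ) * (pt R (p ^ (n + 1) * f) i x + q) ∈ (R.L i).lattice ∧
          ∀ c : ℕ, (c : ℂ) * (pt R (p ^ (n + 1) * f) i x + q) ∈ (R.L i).lattice → f ∣ c) ∧
      Ann (idl (A := A) (B := B) (p ^ (n + 1) * f)) (R.L R.i0)
        (R.om R.i0 / (p ^ (n + 1) * f : ℕ)) ∧
      (∀ a : ℕ, ¬ p ∣ a →
        (∀ y ∈ Pc P, y ∉ idl (A := A) (B := B) p →
          emb y * (a * R.om R.i0 / p) ∈ SP P er (R.L R.i0)) ∧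
        ∀ Y ∈ SP P er (R.L R.i0), ∃ y ∈ Pc P, y ∉ idl (A := A) (B := B) p ∧
          emb y * (a * R.om R.i0 / p) - Y ∈ (R.L R.i0).lattice)

/-- (MUL) the isogenies `μ_i x : L_(i0) → L_i` have degree prime to `p`.

PORT of `Pool/Agent/NS/E_MUL.lean`. PROOF. `μ = μ_i emb x`, `μ_i = om_i N(b_i)/om_0`, `L_0 = om_0 emb O`, `L_i = om_i emb b_i`; `N(b_i) ∈ b_i`: `μ L_0 ⊆ L_i` (`te_PT`). `μ z ∈ L_i`: `emb x N(b_i) z/om_0 ∈ emb b_i ⊆ emb O`; multiply by `star x`: `nm x · N(b_i) z ∈ L_0`. `N = (nm x).natAbs * nI (R.b i)`; `p ∤ N`: `x` is prime to `n`, `p ∣ n`: `x y + p t = 1`, so `nm x nm y ≡ 1` modulo `p`; `R.cop`, `p ∣ n`. -/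
def Sb_MUL : Prop :=
  ∀ (p : ℕ) (A B : ℤ), p.Prime → RingE A B → ∀ (n : ℕ) (ι : Type) (R : Reps A B n ι),
    n ≠ 0 → p ∣ n → ∀ (i : ι) (x : OO A B), IsCoprime x ((n : ℕ) : OO A B) →
      muX R i * emb x ≠ 0 ∧ Isg (R.L R.i0) (R.L i) (muX R i * emb x) ∧
      ∃ N : ℕ, ¬ p ∣ N ∧ ∀ z, muX R i * emb x * z ∈ (R.L i).lattice →
        (N : ℂ) * z ∈ (R.L R.i0).lattice

/-- (DSM) the distribution relation of `e = E₁*` for an isogeny `μ : L → M`.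

PROOF. `Pool/Agent/MU3/B_DIS.lean` (`St_DIS`, there `M = L`) word for word with two lattices: (INT) (`b_INT` or the statement used there) for `L` with `c = 1`: the sum over the classes `0` and `q ∈ R` and over `w ∈ L` of `conj (z + q + w) exp (-t |z + q + w|²)` is the sum over all `v ∈ μ⁻¹ M` (the map `(q, w) ↦ μ (q + w)` is a bijection `(R ∪ {0}) × L → M` by `IsRpM`); with `v = w'/μ`,
`w' ∈ M`: `conj (z + w'/μ) = conj (μ z + w')/conj μ`, `|z + w'/μ|² = |μ z + w'|²/|μ|²`, so the integral is `e_M(μ z) |μ|²/conj μ = μ e_M(μ z)` by (INT) for `M` with `c = 1/|μ|²`. -/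
def Sb_DSM : Prop :=
  ∀ (L M : PeriodPair) (μ : ℂ) (R : Finset ℂ), μ ≠ 0 → Isg L M μ → IsRpM L M μ R →
    ∀ z, ee L z + ∑ q ∈ R, ee L (z + q) = μ * ee M (μ * z)

/-- (INN) integrality of the logarithmic derivatives; `er = 2`: the sums over `E[P]`.

Uses Sb_THN, Sb_NE1, Sb_EXO, Sb_MUL, Sb_UNT, Sb_PIS, Sb_DSM. PROOF. Model `NS/F_INN.lean`. `m = p^(n+1) f`, `z = pt R m i x`, `z' = z + q`, `p q ∈ L_i`: `m z' ∈ L_i`, `c z' ∈ L_i` implies `f ∣ c` (EXO), so (NE1) applies to `z'` and (THN) with `μ = μ_i emb x : L_0 → L_i` (`Ker0`: MUL, UNT), `v(emb x) = 1` (`x` is prime to `p`, so `x ∉ P`): the first two claims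
(half systems `H` of `L_i` for odd `a` exist: `b_HAL`). Third, `er = 2`, `nI P = p`: `N = ν P⁻¹ L_i` (`exq`, `good`: `u_N`), `q ∈ E[P] ∖ L_i`: the points `t q`, `0 < t < p`, are representatives of the nonzero classes of `E[P]/L_i` (`te_TRB` (2): every point of `E[P]` is `≡ emb x q`; `O/P` has `p` elements, represented by `0, .., p-1`; `t q ∈ L_i` with `0 < t < p`
would give `q ∈ L_i`). `dlX L a z = a e(a z) - a² e(z)`; (DSM) for `z` and for `a z` (multiplication by `a` permutes the classes of `E[P]`, `p ∤ a`; `e` is periodic: `b_PER`): `Σ_(t<p) dlX L_i a (z + t q) = ν dlX N a (ν z)`. `ν z` on `N`: `m ν z ∈ N`, and `c ν z ∈ N` implies `p c z ∈ L_i` (`p ∈ P`), `f ∣ c`: (NE1), (THN) for `μ = 1 : N → N`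
give `v(dlX N a (ν z)/u_N) ≤ 1`. `v(ν u_N/u_i) = v(al)` (PIS), `v(μ_i u_i/u) = 1` (UNT with `x = 1`, MUL). -/
def Sb_INN : Prop :=
  ∀ (p er : ℕ) (A B : ℤ) (P : Ideal (OO A B)) (V : ValuationSubring ℂ) (al : OO A B),
    CtxO p er A B P V al → ∀ (n f a : ℕ), 2 ≤ f → ¬ p ∣ f → 3 ≤ a → Odd a → ¬ p ∣ a →
    a.Coprime f →
    ∀ (ι : Type) (R : Reps A B (p * f) ι) (u e lam : ℂ), GoodL V (R.L R.i0) u e lam →
    ∀ (i : ι) (x : OO A B), IsCoprime x ((p ^ (n + 1) * f : ℕ) : OO A B) →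
      (∀ H : Finset ℂ, IsHalf (R.L i) (a : ℂ) H → ∀ ui ei lami : ℂ,
        GoodL V (R.L i) ui ei lami → V.valuation (ThetaH (R.L i) H
          (pt R (p ^ (n + 1) * f) i x)) = V.valuation (ui ^ 2) ^ H.card) ∧
      V.valuation (muX R i * dlX (R.L i) a (pt R (p ^ (n + 1) * f) i x) / u) ≤ 1 ∧
      (er = 2 → ∀ q : ℂ, Tor P (R.L i) q → q ∉ (R.L i).lattice →
        V.valuation (muX R i * (∑ t ∈ Finset.range p,
          dlX (R.L i) a (pt R (p ^ (n + 1) * f) i x + t * q)) / u) ≤ V.valuation (emb al))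

/-! ## The result -/

/-- (ONE) Lemma E, for products over arbitrary finite families of points `(i, x)`, weights `emb x`.

Uses Sb_ALG, Sb_PRO, Sb_COE, Sb_LEG, Sb_PTS, Sb_THN, Sb_IDL, Sb_UNR, Sb_SIG, Sb_NE1, Sb_EXO, Sb_MUL, Sb_UNT, Sb_INN. PROOF. (Model: `NS/E_ONE.lean`.) `m = p^(n+1) f`, `L_0 = R.L R.i0`, `z₁ = om_0/m` (`Ann (m)`: EXO), `er (n+1) = J + 1`, `m₁ = lv0 P f n`, `m' = lv0 P (f a) n ≤ m₁` (not `≤ P`, `p ∤ a`), `(m a) = P^(J+1) m'` (IDL), `M = RF (m a)`. Models `u_i, e_i, lam_i` of `L_i` (`good`).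
(1) `z = pt R m i x` for `(i, x) ∈ X j`: `v(Θ(z)) = v(u_i²)^|H_i|` (INN), `|H_i| = (a² - 1)/2` (`b_HRE`: `2 |H| + 1 = a²`) is divisible by `p` (`p ∣ a - 1`, `p` odd), `v(u_i²) ∈ v(al)^ℤ` (LEG: `u_i² = xn w₂ - xn w₁ ∈ RF (2)`, `2 ∉ P`; UNR with `m' = idl 2`). So `v(W) = v(al)^(p K)` for `W = ∏_j (∏ Θ)^(g_j) = y^p`, `v y = v(al)^K`, `w = y/emb(al)^K ∈ RF (m) ≤ M`, `v w = 1`.
(2) For `b ∈ Pc P`, `b ∉ (p)`: `c_b = 1 + p^n f a b` is prime to `m a` and `c_b - 1 ∈ m'` (IDL for `f a`), `σ_b` with `ActE (em σ_b) (m a) c_b` (`GalE.sur`). (SIG) for `L_0`, `z₁`, `w`: `F`, `β`. `Y_b = emb (c_b - 1) z₁ = emb b (a om_0/p) ∈ SP`, and every `Y ∈ SP` is congruent to some `Y_b` modulo `L_0` (EXO); all functions below are periodic (PTS: they are functions of `(s Y, r Y)`).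
(3) (`te_GTH`): `σ_b(Θ(z)) = Θ(emb c_b z) = Θ(z + μ Y_b)`, `μ = muX i emb x` (EXO). So for `G_(j,y)(Y) = Θ(z + μ Y)/Θ(z)` (THN with `NE1`, `Ker0` from MUL, UNT: represented by `(1, μ dlX/u)`): `∏_j (∏_y G)^(g_j) (Y_b) = σ_b W/W = (σ_b w/w)^p = (F(Y_b)/w)^p` (`emb al ∈ k`). The left side is represented by `(1, S')`, `S' = Σ_j g_j Σ_y emb(x) muX i dlX/u` (PRO (2)),
`F/w` by `(1, β/w)`; (PRO (3)): `v(S') ≤ v p`. -/
def Sb_ONE : Prop :=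
  ∀ (p er : ℕ) (A B : ℤ) (P : Ideal (OO A B)) (V : ValuationSubring ℂ) (al : OO A B),
    CtxO p er A B P V al → TorX A B → GalE A B →
    ∀ (n f a : ℕ), 1 ≤ n → 3 ≤ f → 2 ∣ f → ¬ p ∣ f → 3 ≤ a → Odd a → p ∣ a - 1 →
    a.Coprime f →
    ∀ (ι : Type) (R : Reps A B (p * f) ι) (u e lam : ℂ), GoodL V (R.L R.i0) u e lam →
    ∀ (H : ι → Finset ℂ), (∀ i, IsHalf (R.L i) (a : ℂ) (H i)) →
    ∀ (J : Type) [Fintype J] (X : J → Finset (ι × OO A B)) (g : J → ℤ),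
      (∀ j, ∀ y ∈ X j, IsCoprime y.2 ((p ^ (n + 1) * f : ℕ) : OO A B)) →
      (∃ y ∈ RF (idl (A := A) (B := B) (p ^ (n + 1) * f)), y ^ p =
        ∏ j, (∏ y ∈ X j, ThetaH (R.L y.1) (H y.1) (pt R (p ^ (n + 1) * f) y.1 y.2)) ^ g j) →
      V.valuation ((∑ j, (g j : ℂ) * ∑ y ∈ X j, emb y.2 * muX R y.1 *
        dlX (R.L y.1) a (pt R (p ^ (n + 1) * f) y.1 y.2)) / u) ≤ V.valuation (p : ℂ)

/-- (MAIN) Lemma E for a conjugate family, weights `emb x`.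

Uses Sb_ONE. PROOF. PORT of `NS/E_MAIN.lean`, `NS/F_MAIN.lean`: apply `τ'` to `y^p = ∏ C τ ^ g τ`: `(τ' y)^p = ∏ C(τ τ')^(g τ)` (`Gal(D/k)` is commutative: `TorX.comm`), then (ONE) with `J = Gal(D/k)`, `X τ` the image of `S (τ τ')` under `(i, q) ↦ (i, Quotient.out q)` (injective). `aX p f = 1 + 2 p f` (`q0 p = p` for `p ≠ 2`) is odd, `p ∣ a - 1`, prime to `f`; `lvX p f n = p^(n+1) f` (`f * p * p^n`). -/
def Sb_MAIN : Prop :=
  ∀ (p er : ℕ) (A B : ℤ) (P : Ideal (OO A B)) (V : ValuationSubring ℂ) (al : OO A B),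
    CtxO p er A B P V al → TorX A B → GalE A B →
    ∀ (n f : ℕ), 1 ≤ n → 3 ≤ f → 2 ∣ f → ¬ p ∣ f →
    ∀ (ι : Type) (R : Reps A B (p * f) ι) (u e lam : ℂ), GoodL V (R.L R.i0) u e lam →
    ∀ (H : ι → Finset ℂ), (∀ i, IsHalf (R.L i) (aX p f : ℂ) (H i)) →
    ∀ (D : IntermediateField ℚ ℂ) (h : kk A B ≤ D),
      (∀ y ∈ D, y ∈ RF (idl (A := A) (B := B) (lvX p f n))) →
    letI := algC h
    ∀ (C : (D ≃ₐ[kk A B] D) → ℂ)
      (S : (D ≃ₐ[kk A B] D) → Finset (ι × (OO A B ⧸ idl (A := A) (B := B) (lvX p f n)))),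
    (∀ τ : D ≃ₐ[kk A B] D, ∃ y : D, (y : ℂ) = C 1 ∧ ((τ y : D) : ℂ) = C τ) →
    (∀ τ, ∀ q ∈ S τ, IsCoprime (Quotient.out q.2 : OO A B) ((lvX p f n : ℕ) : OO A B)) →
    (∀ τ, C τ = ∏ q ∈ S τ, ThetaH (R.L q.1) (H q.1) (pt R (lvX p f n) q.1 (Quotient.out q.2))) →
    ∀ g : (D ≃ₐ[kk A B] D) → ℤ,
      (∃ y ∈ D, y ^ p = ∏ᶠ τ : D ≃ₐ[kk A B] D, C τ ^ g τ) →
      ∀ τ' : D ≃ₐ[kk A B] D,
        V.valuation ((∑ᶠ τ : D ≃ₐ[kk A B] D, (g τ : ℂ) * ∑ q ∈ S (τ * τ'),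
          emb (Quotient.out q.2) * muX R q.1 *
            dlX (R.L q.1) (aX p f) (pt R (lvX p f n) q.1 (Quotient.out q.2))) / u) ≤
          V.valuation (p : ℂ)

/-- (STB) `er = 2`: the sets `XX` are stable under translation by the classes of `lvR P f n`.

Uses Si_HIT, Si_IAF (`MUX/StIX.lean`, `MUX/I_HIT.lean`, `MUX/I_IAF.lean`). MODEL `NS/F_STB.lean`. PROOF. `m = lvX p f n`, `(m) = lvR P f n * P`. Let `q = (i, x) ∈ XX`, `x = Quotient.out q.2`, `β ∈ lvR P f n`. `x` is prime to `m`: `x x' - 1 ∈ (m)`; `b = 1 + x' β`: `b - 1 ∈ lvR P f n`, `b` is prime to `m` (`lvR ≤ P`, `lvR ≤ idl (p f)` for `n ≥ 1`, so `b ≡ 1` modulo `p f`), `x b ≡ x + β` modulo `m`.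
`σ` (`FixK`, extending `τ`) with `Hits R m σ i x`: `IA σ (idl m) (sp x * cjI (b_i))` (HIT). `ρ` with `IA ρ (idl m) (sp b)` (IAF, or `TorX.surj`); `ρ` is trivial on `RF (lvR P f n)` (`TorX.triv`, `b - 1 ∈ lvR P f n`), so on `D`. The composition (`ρ` first) extends `τ` and has the ideal `sp b * (sp x * cjI (b_i)) = sp (x b) * cjI (b_i)` (`TorX.comp`, IAF), so it hits `(i, x b)` (HIT), and the
condition on `Quotient.out` of the class of `x b` (the class `q.2 + β`) follows as in `I_XXF.lean`, `F_STB.lean`. -/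
def Sb_STB : Prop :=
  ∀ (p : ℕ) (A B : ℤ) (P : Ideal (OO A B)) (V : ValuationSubring ℂ) (al : OO A B),
    CtxO p 2 A B P V al → TorX A B →
    ∀ (n f : ℕ), 1 ≤ n → f ≠ 0 → ¬ p ∣ f → ∀ (ι : Type) (R : Reps A B (p * f) ι)
    (D : IntermediateField ℚ ℂ) (h : kk A B ≤ D),
    (∀ y ∈ D, y ∈ RF (_root_.Pool.Agent.NSRD.lvR P f n)) →
    letI := algC h
    ∀ (τ : D ≃ₐ[kk A B] D), ∀ β ∈ _root_.Pool.Agent.NSRD.lvR P f n,
      ∀ q ∈ XX R (lvX p f n) h τ,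
        (q.1, q.2 + Ideal.Quotient.mk (idl (A := A) (B := B) (lvX p f n)) β) ∈
          XX R (lvX p f n) h τ

/-- (FN1) the final form for `er = 1`.

Uses Sb_MAIN, Sb_INN. PROOF. As `NS/E_FIN.lean`: (MAIN) with `S τ = XX R m h τ` as a finite set (`ι`, `O/m` finite), `C = cX`. Then the weights: `Σ_τ g τ Σ_q (w x - emb x) mu_i dlX/u`, `v(w x - emb x) ≤ v p` (`cong`, `er = 1`), `v(mu_i dlX/u) ≤ 1` (INN with `a = aX p f`; `TTN` is the sum with `w (Quotient.out q.2)`). -/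
def Sb_FN1 : Prop :=
  ∀ (p : ℕ) (A B : ℤ) (P : Ideal (OO A B)) (V : ValuationSubring ℂ) (al : OO A B),
    CtxO p 1 A B P V al → TorX A B → GalE A B →
    ∀ (n f : ℕ), 1 ≤ n → 3 ≤ f → 2 ∣ f → ¬ p ∣ f →
    ∀ (ι : Type) [Fintype ι] (R : Reps A B (p * f) ι) (u e lam : ℂ),
    GoodL V (R.L R.i0) u e lam → ∀ w : OO A B → ℂ, IsTeiP p 1 P V w →
    ∀ (H : ι → Finset ℂ), (∀ i, IsHalf (R.L i) (aX p f : ℂ) (H i)) →
    ∀ (D : IntermediateField ℚ ℂ) (h : kk A B ≤ D), InRF 1 P p f n D →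
    letI := algC h
    (∀ τ : D ≃ₐ[kk A B] D, ∃ y : D, (y : ℂ) = cX R (lvX p f n) H h 1 ∧
      ((τ y : D) : ℂ) = cX R (lvX p f n) H h τ) →
    ∀ g : (D ≃ₐ[kk A B] D) → ℤ,
      (∃ y ∈ D, y ^ p = ∏ᶠ τ : D ≃ₐ[kk A B] D, cX R (lvX p f n) H h τ ^ g τ) →
      ∀ τ' : D ≃ₐ[kk A B] D,
        V.valuation ((∑ᶠ τ : D ≃ₐ[kk A B] D, (g τ : ℂ) *
          TTN R w (lvX p f n) (aX p f) h (τ * τ')) / u) ≤ V.valuation (p : ℂ)

/-- (FN2) the final form for `er = 2`.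

Uses Sb_MAIN, Sb_INN, Sb_STB, Sb_EXO, Sb_IDL, `Pool.Agent.NSER.tf_ORB` (`NS/F_ORB.lean`). PROOF. Model `NS/F_RED.lean` (simpler here). `m = lvX p f n`, `m'' = lvR P f n = (f) P^(2n+1)`, `(m) = m'' P` (`fac`, `Pc P = ⊤`: `nP`), `m'' ≠ (m)`: choose `β₀ ∈ m''`, `β₀ ∉ (m)`. (MAIN) with `S τ = XX R m h τ`: the sum with the weights `emb x` is in `p V`. It remains: for every `τ`
`Δ(τ) = Σ_((i, x) ∈ XX τ) (w x - emb x) mu_i dlX(pt R m i x)/u` has `v ≤ v p`. `φ(i, c) = (i, c + β₀)` maps `XX τ` to itself (STB), `φ^[p] = id` (`p β₀ ∈ (m)`: `p ∈ P²`), `φ^[t]` has no fixed point for `0 < t < p` (`t β₀ ∈ (m)` and `s t + r p = 1` give `β₀ ∈ (m)`): (ORB) with `e = p`: `Δ(τ) = Σ_(T) Σ_(t<p) ..`. For `(i, c) ∈ T`, `x = out c`, `x_t = out (c + t β₀)`: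
`x_t - x - t β₀ ∈ (m)`, so `pt R m i x_t ≡ pt R m i x + t q` modulo `L_i`, `q = pt R m i β₀` (`Tor P L_i q`: `P β₀ ⊆ (m)`; `q ∉ L_i`: `β₀ ∉ (m)`; `te_PT`), `dlX` is periodic, `w x_t = w x` (`β₀, m ∈ P`), `v(emb x_t - emb x) ≤ v(al)² = v p` (`x_t - x ∈ m'' ⊆ P²`, `2 n + 1 ≥ 2`; elements of `P²` are sums of products), `v(w x - emb x)² ≤ v p = v(al)²`, so `v(w x - emb x) ≤ v(al)`. So
`Σ_(t<p) (w x_t - emb x_t) mu_i dlX(pt x_t)/u = (w x - emb x) (mu_i Σ_t dlX(pt x + t q)/u) + Σ_t (emb x - emb x_t) mu_i dlX(pt x_t)/u`: the first term is in `v(al) v(al)` (INN), the others in `v p` (INN: `v(mu_i dlX/u) ≤ 1`). -/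
def Sb_FN2 : Prop :=
  ∀ (p : ℕ) (A B : ℤ) (P : Ideal (OO A B)) (V : ValuationSubring ℂ) (al : OO A B),
    CtxO p 2 A B P V al → TorX A B → GalE A B →
    ∀ (n f : ℕ), 1 ≤ n → 3 ≤ f → 2 ∣ f → ¬ p ∣ f →
    ∀ (ι : Type) [Fintype ι] (R : Reps A B (p * f) ι) (u e lam : ℂ),
    GoodL V (R.L R.i0) u e lam → ∀ w : OO A B → ℂ, IsTeiP p 2 P V w →
    ∀ (H : ι → Finset ℂ), (∀ i, IsHalf (R.L i) (aX p f : ℂ) (H i)) →
    ∀ (D : IntermediateField ℚ ℂ) (h : kk A B ≤ D), InRF 2 P p f n D →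
    letI := algC h
    (∀ τ : D ≃ₐ[kk A B] D, ∃ y : D, (y : ℂ) = cX R (lvX p f n) H h 1 ∧
      ((τ y : D) : ℂ) = cX R (lvX p f n) H h τ) →
    ∀ g : (D ≃ₐ[kk A B] D) → ℤ,
      (∃ y ∈ D, y ^ p = ∏ᶠ τ : D ≃ₐ[kk A B] D, cX R (lvX p f n) H h τ ^ g τ) →
      ∀ τ' : D ≃ₐ[kk A B] D,
        V.valuation ((∑ᶠ τ : D ≃ₐ[kk A B] D, (g τ : ℂ) *
          TTN R w (lvX p f n) (aX p f) h (τ * τ')) / u) ≤ V.valuation (p : ℂ)

/-- (FIN) the final form.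

Uses Sb_CTX, Sb_FN1, Sb_FN2. PROOF. `SetO.toCaseO`, `CtxO` (CTX), `GalE` (`Pool.Agent.MUXE.te_GAL`, `te_RNG`), `f ≥ 12`, `2 ∣ f` (`SetO.f6`, `f12`); `er = 1` or `2` (`CaseO.ram`). -/
def Sb_FIN : Prop := O_RFIN → O_EFIN

end

end Pool.Agent.OBE


end

section

/-!
# OB, block GR: good reduction and unramifiedness, every prime `p ≥ 5` (helper60; the proofs of good reduction and of (B3) are helper19's)

`X z = xu L u e z = (℘ z - e)/u²`, `Y z = yu L u z = ℘' z/(2 u³)`; `Leg`, `WL` and the statements `Sr_X` are those of `NS/StRN.lean` (`Leg L u e lam` is the Legendre equation without a condition on `lam`; LGF, HPD, XIL, TOR, TWO, CHT, PM3 are general and proved: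
`Pool.Agent.NSR.rlgf`, `tr_HPD`, `rxil`, `rtor`, `rtwo`, `rcht`, `rpm3` in `NS/RN_ALL.lean`). `GR`, `InK`, `tX`: `MUX/VX.lean`. Block U (`MUX/UAll.lean`: `u_BAC`, `u_PFI`, `u_PHI`, `u_TSN`, `u_DET`, ..), block B (`MU3/BAll.lean`: `b_NEQ`, `b_ZER`, `b_ADD`, `b_DUP`, `b_SUR`, `b_DSC`),
`Pool.Agent.MU3A.ta_SCP`, `ta_TW2`, `ta_ROO` may be used directly. `OB/GLib.lean`: elementary facts on `CaseO` (`CaseO.vp`, `v2`, `v3`, `vnat`, `vemb_lt`, `vemb_one`, `two`, `P0`, `vemb_le`, `v_nat_unit`, `tor_of_mul`, `GoodL.leg`, `GoodL.unit`).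

Every statement is a `def So_X : Prop`; the module OBR_X proves `theorem o_X (h : So_Y) .. : So_X` in `Pool/Agent/OB/R_X.lean`, namespace `Pool.Agent.OBR` (private lemmas in `Pool.Agent.OBR.X`), with the statements named under USES as hypotheses.
-/

set_option autoImplicit false

open WeierstrassCurve Polynomial

namespace Pool.Agent.OBR

open _root_.MU3 Pool.Agent.MU3A Pool.Agent.MU3B Pool.Agent.RI Pool.Agent.MUX Pool.Agent.MUXU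
open Pool.Agent.MUXV (GR InK tX)
open Pool.Agent.NS Pool.Agent.NSR Pool.Agent.OB

noncomputable section

/-! ## Points of order two -/

/-- the three points of order two -/
structure Two3 (L : PeriodPair) (w₁ w₂ w₃ : ℂ) : Prop where
  n₁ : w₁ ∉ L.lattice
  n₂ : w₂ ∉ L.lattice
  n₃ : w₃ ∉ L.lattice
  t₁ : 2 * w₁ ∈ L.lattice
  t₂ : 2 * w₂ ∈ L.lattice
  t₃ : 2 * w₃ ∈ L.lattice
  d₁₂ : w₁ - w₂ ∉ L.lattice
  d₁₃ : w₁ - w₃ ∉ L.lattice
  d₂₃ : w₂ - w₃ ∉ L.lattice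

lemma Two3.swap {L : PeriodPair} {w₁ w₂ w₃ : ℂ} (h : Two3 L w₁ w₂ w₃) : Two3 L w₁ w₃ w₂ :=
  ⟨h.n₁, h.n₃, h.n₂, h.t₁, h.t₃, h.t₂, h.d₁₃, h.d₁₂, fun k => h.d₂₃ (by
    have := neg_mem k
    rwa [neg_sub] at this)⟩

lemma Two3.rot {L : PeriodPair} {w₁ w₂ w₃ : ℂ} (h : Two3 L w₁ w₂ w₃) : Two3 L w₂ w₃ w₁ :=
  ⟨h.n₂, h.n₃, h.n₁, h.t₂, h.t₃, h.t₁, h.d₂₃, fun k => h.d₁₂ (by
    have := neg_mem k
    rwa [neg_sub] at this), fun k => h.d₁₃ (by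
    have := neg_mem k
    rwa [neg_sub] at this)⟩

/-- `w` is the FAR point of order two: the difference of the values of `℘` at the two others is smaller than the other differences, the quotient is `d` -/
structure Far (V : ValuationSubring ℂ) (L : PeriodPair) (w : ℂ) (d : V.ValueGroup) : Prop where
  ne : w ∉ L.lattice
  two : 2 * w ∈ L.lattice
  d0 : d ≠ 0
  lt : d < 1
  dist : ∀ w' w'', Two3 L w w' w'' →
    V.valuation (L.weierstrassP w' - L.weierstrassP w'') =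
      d * V.valuation (L.weierstrassP w - L.weierstrassP w')

/-- (TW3) points of order two.

PROOF. `2 z ∈ L` means `z ≡ 0, ω₁/2, ω₂/2, ω₁/2 + ω₂/2` modulo `L` (see `tr_HPD` in `NS/RN_HPD.lean`: `ω₁_div_two_notMem_lattice`, ..): `z = (a ω₁ + b ω₂)/2` with integers `a, b`. So there are exactly three nonzero classes, the sum of two different ones is the third one (`w₁ + w₂ ∉ L` as `w₁ - w₂ ∉ L`, `2 w₂ ∈ L`; `w₁ + w₂ - w₁ = w₂ ∉ L`, ..),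
and `2 w_i ∈ L`, so the sum of all three is in `L`. The equation: `ta_ROO` for `w₁, w₂` (`w₁ + w₂ ≡ w₃`; `℘` is periodic) gives the symmetric functions of `℘(w_i)`, and `derivWeierstrassP_sq` (as in `hpd_leg`, `NS/RN_HPD.lean`). The values `℘(w_i)` are different (`b_NEQ`). -/
def So_TW3 : Prop :=
  ∀ L : PeriodPair, (∃ w₁ w₂ w₃, Two3 L w₁ w₂ w₃) ∧
    (∀ w₁ w₂, w₁ ∉ L.lattice → 2 * w₁ ∈ L.lattice → w₂ ∉ L.lattice → 2 * w₂ ∈ L.lattice →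
      w₁ - w₂ ∉ L.lattice → Two3 L w₁ w₂ (w₁ + w₂)) ∧
    ∀ w₁ w₂ w₃, Two3 L w₁ w₂ w₃ → w₁ + w₂ + w₃ ∈ L.lattice ∧
      (∀ z, z ∉ L.lattice → 2 * z ∈ L.lattice →
        z - w₁ ∈ L.lattice ∨ z - w₂ ∈ L.lattice ∨ z - w₃ ∈ L.lattice) ∧
      (∀ z, z ∉ L.lattice → L.derivWeierstrassP z ^ 2 = 4 * ((L.weierstrassP z - L.weierstrassP w₁) *
        (L.weierstrassP z - L.weierstrassP w₂) * (L.weierstrassP z - L.weierstrassP w₃))) ∧
      L.weierstrassP w₁ ≠ L.weierstrassP w₂ ∧ L.weierstrassP w₁ ≠ L.weierstrassP w₃ ∧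
      L.weierstrassP w₂ ≠ L.weierstrassP w₃

/-- (LGE) Legendre forms for all orders of the points of order two.

USES TW3. PROOF. `u ≠ 0` as `℘ w₂ ≠ ℘ w₁`. Divide the equation of TW3 by `4 u⁶` (as in `hpd_leg`, `NS/RN_HPD.lean`). -/
def So_LGE : Prop :=
  ∀ (L : PeriodPair) (w₁ w₂ w₃ u : ℂ), Two3 L w₁ w₂ w₃ →
    u ^ 2 = L.weierstrassP w₂ - L.weierstrassP w₁ → Leg L u (L.weierstrassP w₁)
      ((L.weierstrassP w₃ - L.weierstrassP w₁) / (L.weierstrassP w₂ - L.weierstrassP w₁))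

/-- (FRC) criterion for a far point.

USES TW3. PROOF. Let `Two3 L w w' w''` be other labels with the same first point `w`. `w', w''` are congruent modulo `L` to `w₂, w₃` in some order (TW3: every point of order two is congruent to `w`, `w₂` or `w₃`; not to `w`; and `w' - w'' ∉ L`). `℘` is periodic. -/
def So_FRC : Prop :=
  ∀ (V : ValuationSubring ℂ) (L : PeriodPair) (w w₂ w₃ : ℂ) (d : V.ValueGroup), Two3 L w w₂ w₃ →
    d ≠ 0 → d < 1 →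
    V.valuation (L.weierstrassP w - L.weierstrassP w₂) =
      V.valuation (L.weierstrassP w - L.weierstrassP w₃) →
    V.valuation (L.weierstrassP w₂ - L.weierstrassP w₃) =
      d * V.valuation (L.weierstrassP w - L.weierstrassP w₂) → Far V L w d

/-- (DIC) good reduction or a far point.

USES TW3, LGE, FRC. PROOF. Let `e_i = ℘(w_i)` for some `w₁, w₂, w₃` (TW3), `D₁ = v(e₂ - e₃)`, `D₂ = v(e₁ - e₃)`, `D₃ = v(e₁ - e₂)`, not zero. Other labels: every point of order two is congruent to one of the `w_i` (TW3) and `℘` is periodic, so for `Two3 L w₁' w₂' w₃'` the three numbers `v(℘ w_i' - ℘ w_j')` are the same up to the order.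
If `D₁ = D₂ = D₃`: `v lam = 1` and `1 - lam = (℘ w₂ - ℘ w₃)/(℘ w₂ - ℘ w₁)` has valuation 1, for all labels: `GoodL` (LGE). Otherwise, by the ultrametric inequality for `(e₁ - e₂) + (e₂ - e₃) = e₁ - e₃` the maximum occurs exactly twice; if for instance `D₁ < D₂ = D₃` then `w = w₁` is far with `d = D₁/D₂`. -/
def So_DIC : Prop :=
  ∀ (V : ValuationSubring ℂ) (L : PeriodPair),
    (∀ w₁ w₂ w₃ u : ℂ, Two3 L w₁ w₂ w₃ → u ^ 2 = L.weierstrassP w₂ - L.weierstrassP w₁ →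
      GoodL V L u (L.weierstrassP w₁)
        ((L.weierstrassP w₃ - L.weierstrassP w₁) / (L.weierstrassP w₂ - L.weierstrassP w₁))) ∨
    ∃ w d, Far V L w d

/-- (FRU) the far point is unique; homotheties.

USES TW3, FRC. PROOF. First: `Two3 L w w₂ w₃` and its swap give `D = v(℘ w - ℘ w₂) = v(℘ w - ℘ w₃)` (`d ≠ 0`) and `v(℘ w₂ - ℘ w₃) = d D`. If `w' - w ∉ L`, let `w₂ = w'`, `w₃ = w + w'` (TW3). `w'` is far: `v(℘ w - ℘ w₃) = d' v(℘ w' - ℘ w)`, i.e. `D = d' D`, `d' = 1` (`D ≠ 0`), contradiction. So `w' - w ∈ L`; then `Two3 L w w₂ w₃` and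
`Two3 L w' w₂ w₃`, `℘ w' = ℘ w`, `d D = d' D`. Homothety: `℘(c z; L') = c⁻² ℘(z; L)` (`ta_SCP`); `Two3 L w w₂ w₃` gives `Two3 L' (c w) (c w₂) (c w₃)`, (FRC). -/
def So_FRU : Prop :=
  ∀ (V : ValuationSubring ℂ) (L : PeriodPair) (w : ℂ) (d : V.ValueGroup), Far V L w d →
    (∀ w' d', Far V L w' d' → w' - w ∈ L.lattice ∧ d' = d) ∧
    ∀ (L' : PeriodPair) (c : ℂ), c ≠ 0 → (∀ z, z ∈ L.lattice ↔ c * z ∈ L'.lattice) →
      Far V L' (c * w) d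

/-- (FIX) the far point is fixed by complex multiplications of odd norm prime to `p`.

USES TW3, LGE. PROOF. `w₁ = w`, `w₂, w₃` the others (TW3). `u² = ℘ w₁ - ℘ w₂`, `e = ℘ w₂`, `lam = (℘ w₃ - ℘ w₂)/(℘ w₁ - ℘ w₂)`: (LGE) for `(w₂, w₁, w₃)`. `X = xu L u e`: `X w₂ = 0`, `X w₁ = 1`, `X w₃ = lam`; from `Far`: `v lam = d < 1`, `v(1 - lam) = 1`. `α = emb al`, `Isg L L α` (`IsLI.hasCM`), `R` representatives (`u_BAC`). For `q ∈ R`:
`n q = emb (star al) α q ∈ L`, so (`tr_TOR`/`rtor`, `v lam ≤ 1`, `v n = 1`) `v(X q) ≤ 1`. `A_k := ∏_(q ∈ R) v(X q - X w_k)`, `k = 1, 2, 3`: `≤ 1`, and not zero (`X q = X w_k` gives `q ≡ ± w_k` (`b_NEQ`), `2 q ∈ L`, and `n q ∈ L`, `n` odd: `q ∈ L`). `α w_i ∉ L` (otherwise `n w_i ∈ L`, `n` odd), and `α w_i - α w_j ∉ L` for `i ≠ j` (the same for `w_i - w_j`), and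
`2 α w_i ∈ L`: `α` permutes the classes of the `w_i`. (TWO, `rtwo`/`ta_TW2`) for the point `w_j` and `q`: `(X(w_j + q) - X w_j)(X q - X w_j) = (X w_j - X w_i)(X w_j - X w_k)`, `{i, j, k} = {1, 2, 3}` (`℘(w_j + q) - ℘ w_j` times `℘ q - ℘ w_j` is `3 ℘(w_j)² - g₂/4 = (℘ w_j - ℘ w_i)(℘ w_j - ℘ w_k)`; sum of the `℘ w_i` is `0`), so
`X(w_j + q) - X w_i = (X w_j - X w_i)(X q - X w_k)/(X q - X w_j)`. (`u_PFI`) with `z = w_i`, `w = w_j`: `α² (X(α w_i) - X(α w_j)) ∏ (X w_i - X q) = (X w_i - X w_j) ∏ (X w_i - X(w_j + q))`; valuations, `m = v(α)²`: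
`m v(X(α w_i) - X(α w_j)) A_i A_j = v(X w_i - X w_j)^(#R + 1) A_k`. For `(i, j, k) = (1, 2, 3)` and `(1, 3, 2)` the factor `v(X w_i - X w_j)` is `1`: `m v(X(α w₁) - X(α w₂)) A₁ A₂ = A₃`, `m v(X(α w₁) - X(α w₃)) A₁ A₃ = A₂`. Multiply and cancel `A₂ A₃`: `m² A₁² v(X(α w₁) - X(α w₂)) v(X(α w₁) - X(α w₃)) = 1`, all factors are `≤ 1`
(`vemb_le`), so `v(X(α w₁) - X(α w₂)) = v(X(α w₁) - X(α w₃)) = 1`. If `α w₁ ≡ w₂` then one of `α w₂, α w₃` is `≡ w₃`, and `v(X w₂ - X w₃) = v lam < 1`, a contradiction; the same if `α w₁ ≡ w₃`. So `α w₁ ≡ w₁`. -/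
def So_FIX : Prop :=
  ∀ (A B : ℤ) (V : ValuationSubring ℂ), CQ A B → V.valuation (2 : ℂ) = 1 →
    ∀ (b : Ideal (OO A B)) (L : PeriodPair) (om : ℂ), IsLI b L om →
    ∀ w d, Far V L w d → ∀ (al : OO A B) (n : ℕ), nm al = (n : ℤ) → Odd n →
      V.valuation (n : ℂ) = 1 → emb al * w - w ∈ L.lattice

/-- (ISV) the values at the points of order two of `M = L + ℤ T`.

USES TW3. PROOF. `x z = ℘ z - ℘ T`, `κ = x(w₁) x(w₂)`. (`ta_TW2`) `x(z + T) x(z) = κ` for `z, z + T ∉ L` (`3 ℘(T)² - g₂/4 = (℘ w₁ - ℘ T)(℘ w₂ - ℘ T)`; or (TW3) last formulas). (`u_PFI`) with `μ = 1`, `R = {T}`: `(℘_M z - ℘_M y) x(z) = (℘ z - ℘ y)(℘ z - ℘(y + T)) = (x z - x y)(x z - κ/x y)` for `z, y ∉ M`, that is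
`℘_M z - ℘_M y = F(x z) - F(x y)`, `F(x) = x + κ/x` (`x z ≠ 0` for `z ∉ M`, `b_NEQ`). (1) `w₁ ∉ M` (`w₁ - T ∉ L`), `w₁ - w₂ ∈ M` (`w₁ - w₂ ≡ T`: it is of order two, not `≡ w₁, w₂`; TW3), `F(x w₁) = x(w₁) + x(w₂)`. (2) `y₀ = T/2`, `y₁ = y₀ + w₁`: `2 y₀ = T ∈ M`, `y₀ ∉ M` (`2 y₀ = T ∉ L`, and `2 (y₀ - T) = -T ∉ L`), `x(y₀ + T) = x(-y₀)`
(`y₀ + T = -y₀ + 2 T`) `= x(y₀)`, so `x(y₀)² = κ`; `2 y₁ = T + 2 w₁`, so in the same way `y₁ ∉ M` and `x(y₁)² = κ`. `x(y₁) ≠ x(y₀)` (`b_NEQ`: `y₁ - y₀ = w₁ ∉ L`, `y₁ + y₀ = T + w₁ ∉ L`), so `x(y₁) = -x(y₀)`. `F(x y₀) = 2 x(y₀)`, `F(x y₁) = -2 x(y₀)`. The three points `w₁, y₀, y₁` are not in `M`, their doubles are, and the differences are not in `M`: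
`w₁ - y₀`: doubled it is `2 w₁ - T ∉ L`, and `2 (w₁ - y₀ - T) ≡ -T`; `w₁ - y₁ = -y₀`; `y₀ - y₁ = -w₁`. Let `a² = x(w₁)` (`a ≠ 0`), `b = x(y₀)/a`, `b² = κ/x(w₁) = x(w₂)`, `2 a b = 2 x(y₀)`. -/
def So_ISV : Prop :=
  ∀ (L M : PeriodPair) (T w₁ w₂ : ℂ), Two3 L T w₁ w₂ →
    (∀ z, z ∈ M.lattice ↔ z ∈ L.lattice ∨ z - T ∈ L.lattice) →
    w₁ - w₂ ∈ M.lattice ∧ ∃ y₀ y₁ a b : ℂ, Two3 M w₁ y₀ y₁ ∧
      a ^ 2 = L.weierstrassP w₁ - L.weierstrassP T ∧ b ^ 2 = L.weierstrassP w₂ - L.weierstrassP T ∧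
      M.weierstrassP w₁ - M.weierstrassP y₀ = (a - b) ^ 2 ∧
      M.weierstrassP w₁ - M.weierstrassP y₁ = (a + b) ^ 2 ∧
      M.weierstrassP y₀ - M.weierstrassP y₁ = 4 * (a * b)

/-- (IS2) the far points of isogenous lattices, degree 2. `M = L + ℤ T`.

USES TW3, FRC, FRU, ISV. PROOF. (i) `w - T ∈ L`: labels `Two3 L T w₁ w₂` (TW3: `w₂ = T + w₁`), (ISV). `℘ T = ℘ w`; `s = v(℘ w₁ - ℘ T) = v(℘ w₂ - ℘ T)`, `v(℘ w₁ - ℘ w₂) = d s` (`Far` for `Two3 L w w₁ w₂` and its swap). So `v(a)² = v(b)² = s`, `v a = v b`, `v(a - b) v(a + b) = v(a² - b²) = d s`, both factors are `≤ v a`, and `v((a + b) - (a - b)) = v(2 b) = v a`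
(`v 2 = 1`), so one of them is `v a` and then the other is `d v a`. If `v(a - b) = d v a`: `v(℘_M w₁ - ℘_M y₀) = d² s`, `v(℘_M w₁ - ℘_M y₁) = s`, `v(℘_M y₀ - ℘_M y₁) = v(4 a b) = s`: `y₁` is far with `d²` ((FRC) with `Two3 M y₁ w₁ y₀`). If `v(a + b) = d v a`: `y₀` is far with `d²`. So the far point `w'` of `M` (unique modulo `M`, FRU) is `≡ y₁` or `y₀`, not `≡ w₁`. Let `t` be
as in the statement; `t ≡ w₁` or `w₂` modulo `L` (TW3), so `t - w₁ ∈ M` (ISV), `t - w' ∉ M`. (ii) `w - T ∉ L`: labels `Two3 L T w w₂`, `w₁ = w`. `s = v(℘ w - ℘ T)`, `v(℘ w₂ - ℘ T) = d s` (`Far` for `Two3 L w T w₂`). `v(a)² = s`, `v(b)² = d s < v(a)²`, so `v b < v a`, `v(a ± b) = v a`, `v(4 a b) = v a v b = (v b/v a) s`. `d' = v b/v a`: `d'² = d`, `d' < 1`; (FRC) for `Two3 M w y₀ y₁`. -/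
def So_IS2 : Prop :=
  ∀ (V : ValuationSubring ℂ) (L M : PeriodPair) (w T : ℂ) (d : V.ValueGroup),
    V.valuation (2 : ℂ) = 1 → Far V L w d → T ∉ L.lattice → 2 * T ∈ L.lattice →
    (∀ z, z ∈ M.lattice ↔ z ∈ L.lattice ∨ z - T ∈ L.lattice) →
    (w - T ∈ L.lattice → (∃ w', Far V M w' (d ^ 2)) ∧ ∀ w' d', Far V M w' d' →
      ∀ t, t ∉ L.lattice → 2 * t ∈ L.lattice → t - T ∉ L.lattice → t - w' ∉ M.lattice) ∧
    (w - T ∉ L.lattice → ∃ d', d' ^ 2 = d ∧ Far V M w d')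

/-- (QUO) the lattice `q⁻¹ L`, `q` an ideal of norm two.

PROOF. `q * cjI q = sp 2` (`mul_cjI`). `b' = cjI q * b`, `om' = om/2`, `M` with `IsLI b' M om'` (`exists_isLI`). `z ∈ M` iff `Tor q L z`: if `z = om' emb y`, `y ∈ cjI q * b`, `x ∈ q`: `emb x * z = (om/2) emb (x y)`, `x y ∈ q * cjI q * b = 2 b`; conversely `Tor q L z`: `2 = Σ x_i y_i`, `x_i ∈ q`, `y_i ∈ cjI q`, `x_i z = om emb c_i`, `c_i ∈ b`,
`2 z = Σ y_i (x_i z) = om emb(Σ y_i c_i)`. The group `M/L`: `M = om' emb(c)`, `c = cjI q * b`, `L = om emb b = om' emb (2 b) = om' emb (q * c)`; `nI (q * c) = 2 nI c` (`nI_mul`), so `[c : q c] = 2` (`nI I` is the index of `I` in `O`): there is `y ∈ c`, `y ∉ q c`, and all elements of `c` are in `q c` or `y + q c`. `T = om' emb y`. `2 ∈ q` (`nI_mem`). -/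
def So_QUO : Prop :=
  ∀ (A B : ℤ), CQ A B → ∀ q : Ideal (OO A B), q ≠ ⊥ → nI q = 2 →
    ∀ (b : Ideal (OO A B)) (L : PeriodPair) (om : ℂ), IsLI b L om →
    ∃ (b' : Ideal (OO A B)) (M : PeriodPair) (om' T : ℂ), IsLI b' M om' ∧ T ∉ L.lattice ∧
      2 * T ∈ L.lattice ∧ (∀ z, z ∈ M.lattice ↔ Tor q L z) ∧
      ∀ z, z ∈ M.lattice ↔ z ∈ L.lattice ∨ z - T ∈ L.lattice

/-- (NFI) 2 inert: no far point.

USES FIX. PROOF. `w = ⟨0, 1⟩`, `w² = A + w`. `nm ⟨2 j, 1⟩ = 4 j² + 2 j - A` (`nm x = x.re² + B x.re x.im - A x.im²`), odd; for `j = 0`: `-A`, for `j = 1`: `6 - A`, both positive (`A < 0`); their difference is `6`, so (`p ≥ 5`) one of them is prime to `p`, a unit at `V`. (FIX) for `al = ⟨2 j, 1⟩`: `(emb al - 1) w₀ ∈ L`, and `2 w₀ ∈ L`, so `emb ⟨-1, 1⟩ w₀ ∈ L`. Multiply by `emb (star ⟨-1, 1⟩)`: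
`nm ⟨-1, 1⟩ = 1 - 1 - A = -A`, so `A w₀ ∈ L`, `A` odd, `w₀ ∈ L`, contradiction. -/
def So_NFI : Prop :=
  ∀ (p er : ℕ) (A B : ℤ) (P : Ideal (OO A B)) (V : ValuationSubring ℂ), CaseO p er A B P V →
    B = 1 → ¬ (2 : ℤ) ∣ A →
    ∀ (b : Ideal (OO A B)) (L : PeriodPair) (om : ℂ), IsLI b L om → ∀ w d, ¬ Far V L w d

/-- (NFR) 2 ramified: no far point.

USES FIX, IS2, QUO, TW3. PROOF. `B = 0`, `w² = A`, `A ≡ 2, 3` modulo 4 (`CQ.fund0`: squarefree and `A - 1` not divisible by 4), `A < 0`. Let `th = ⟨0, 1⟩` if `A` is even and `th = ⟨1, 1⟩` if `A` is odd; `al = ⟨1 + 2 j, 1⟩` resp. `⟨2 j, 1⟩`, so `al - 1 = th + 2 (..)` (for `A` odd `al - 1 = th + 2 (j - 1)`). `nm al = (1 + 2j)² - A` resp. `4j² - A`: odd, positive, the values at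
`j = 0, 1` have difference `8` resp. `4`: one of them is prime to `p`. So by (FIX), for every lattice `L` with complex multiplication by `O` and far point `w`: `emb th * w ∈ L` (`2 w ∈ L`). `nm th = -A` resp. `1 - A`, `≡ 2` modulo 4; `q := Ideal.span {2, th}`, `nI q = 2` (`O/q = ℤ/2`: the map `x ↦ x.re` resp. `x.re - x.im` modulo 2 is a ring homomorphism `O → ZMod 2` with kernel
`q`; or `nI q` divides `nI (sp 2) = 4` and `nI (sp th)`, and is not 1). Let `w` be far in `L`. (QUO): `M`, `T`; `T` is in `M`, `Tor q L T`, so is `w` (`emb th * w ∈ L`, `2 w ∈ L`): `w ∈ M`, `w - T ∈ L`. (IS2)(i): `M` has a far point `w'`, `emb th * w' ∈ M` by the above for `M`. Let `t` be another point of order two of `L`, `t - T ∉ L`: (IS2) `t - w' ∉ M`. But `t - w' ∈ M`: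
`t ∉ M` (`M = L ∪ (T + L)`). `Tor q M t`: `2 t ∈ L ≤ M`, and `emb th * t ∈ M`, because `emb x * (emb th * t) ∈ L` for `x = 2` and for `x = th` (`th² = 2 ε` with `ε = A/2` resp. `ε = ⟨(1 + A)/2, 1⟩`). `Tor q M w'`: `2 w' ∈ M`, `emb th * w' ∈ M`; `w' ∉ M`. (QUO) for `M`: `M', T'` with `{z : Tor q M z} = M ∪ (T' + M)`: `t - T', w' - T' ∈ M`. -/
def So_NFR : Prop :=
  ∀ (p er : ℕ) (A B : ℤ) (P : Ideal (OO A B)) (V : ValuationSubring ℂ), CaseO p er A B P V →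
    B = 0 →
    ∀ (b : Ideal (OO A B)) (L : PeriodPair) (om : ℂ), IsLI b L om → ∀ w d, ¬ Far V L w d

/-- (NFS) 2 split: no far point.

USES FRU, IS2, QUO, TW3, `Sy_CLN`-type (some power of an ideal is principal: `MUX2.LatFacts.fin`, `LatFacts A B` is `Pool.Agent.MUXY.z_LAF A B` in `MUX/ZY.lean`). PROOF. `B = 1`, `A` even, `w² = A + w`. `q₁ = Ideal.span {2, ⟨0, 1⟩}`, `q₂ = Ideal.span {2, ⟨1, 1⟩}`: `nI q_i = 2` (kernels of the ring homomorphisms `x ↦ x.re`, `x ↦ x.re + x.im` modulo 2), `q₁ ⊔ q₂ = ⊤`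
(`⟨1, 1⟩ - ⟨0, 1⟩ = 1`), `x y ∈ sp 2` for `x ∈ q₁, y ∈ q₂` (`⟨0, 1⟩ ⟨1, 1⟩ = w + w² = A + 2 w`). STEP: let `q, q'` be these two ideals in some order, `L` with `IsLI`, `w` far in `L` with `d`, not `Tor q L w`. (QUO) for `q`: `M`, `T`; `T ∈ M`, so `Tor q L T`, and `w - T ∉ L` (otherwise `Tor q L w`; `IsLI.hasCM`). (IS2)(ii): `w` is far in `M` with `d'`, `d'² = d`. And not `Tor q M w`: `Tor q' M w`
(`emb y * w`, `y ∈ q'`, is killed by `q` modulo `L`: `x y w ∈ 2 w O ⊆ L`, so it is in `M`), so with `Tor q M w` it would be in `M` (`tor_coprime`), i.e. `Tor q L w`. ITERATION: `L_0 = L`, `L_(k+1) = q⁻¹ L_k`: `z ∈ L_k` iff `Tor (q^k) L z`; `w` is far in `L_k` with `d_k`, `d_k^(2^k) = d`. Let `q^h = sp x`, `h > 0`, `x ≠ 0` (`fin`): `z ∈ L_h` iff `emb x * z ∈ L`. So (FRU, homothety by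
`emb x` from `L_h` to `L`): `emb x * w` is far in `L` with `d_h`, (FRU) `d_h = d`, `d^(2^h) = d`, so `d = 1` or `0` (`d < 1`, `2^h > 1`: `d^(2^h) < d`): contradiction. START: `w` far in `L`; not both `Tor q₁ L w` and `Tor q₂ L w` (`tor_coprime`). -/
def So_NFS : Prop :=
  ∀ (p er : ℕ) (A B : ℤ) (P : Ideal (OO A B)) (V : ValuationSubring ℂ), CaseO p er A B P V →
    B = 1 → (2 : ℤ) ∣ A →
    ∀ (b : Ideal (OO A B)) (L : PeriodPair) (om : ℂ), IsLI b L om → ∀ w d, ¬ Far V L w d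

/-- (GRD) GOOD REDUCTION, all labels.

USES DIC, NFI, NFR, NFS. -/
def So_GRD : Prop :=
  ∀ (p er : ℕ) (A B : ℤ) (P : Ideal (OO A B)) (V : ValuationSubring ℂ), CaseO p er A B P V →
    ∀ (b : Ideal (OO A B)) (L : PeriodPair) (om : ℂ), IsLI b L om →
    ∀ w₁ w₂ w₃ u : ℂ, Two3 L w₁ w₂ w₃ → u ^ 2 = L.weierstrassP w₂ - L.weierstrassP w₁ →
      GoodL V L u (L.weierstrassP w₁)
        ((L.weierstrassP w₃ - L.weierstrassP w₁) / (L.weierstrassP w₂ - L.weierstrassP w₁))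

/-! ## Good reduction: coordinates and isogenies -/

/-- (GRL) good reduction in the sense of `VX.lean`. MODEL: `tr_GRL` (`NS/RN_GRL.lean`), with `GoodL.unit`. -/
def So_GRL : Prop :=
  ∀ (V : ValuationSubring ℂ) (L : PeriodPair) (u e lam : ℂ), V.valuation (2 : ℂ) = 1 →
    GoodL V L u e lam →
    ∃ ξ : ℂ →+ (WL lam).Point, GR V (WL lam) L (xu L u e) (yu L u) ξ ∧ Function.Surjective ξ

/-- (SCL) the scaled lattice. Uses GRL.

PROOF. `L₁ = u L` (`u_SCX`), `ta_SCP`. `GR` for `L₁`, `X₁ = ℘ - e/u²`, `Y₁ = ℘'/2`, `ξ₁(z) = ξ(z/u)`: `X₁(z) = X(z/u)` (`Sr_SCL` in `NS/StRN.lean`). -/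
def So_SCL : Prop :=
  ∀ (V : ValuationSubring ℂ) (L : PeriodPair) (u e lam : ℂ), V.valuation (2 : ℂ) = 1 →
    GoodL V L u e lam →
    ∃ L₁ : PeriodPair, (∀ z, z ∈ L.lattice ↔ u * z ∈ L₁.lattice) ∧
      (∀ z, L₁.weierstrassP (u * z) = L.weierstrassP z / u ^ 2) ∧
      (∀ z, L₁.derivWeierstrassP (u * z) = L.derivWeierstrassP z / u ^ 3) ∧
      ∃ (W : WeierstrassCurve.Affine ℂ) (ξ : ℂ →+ W.Point),
        GR V W L₁ (fun z => L₁.weierstrassP z - e / u ^ 2) (fun z => L₁.derivWeierstrassP z / 2) ξ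

/-- (ISO) integral formulas for an isogeny of odd degree prime to `p` between lattices in good Legendre form. MODEL: `tr_ISO` (`NS/RN_ISO.lean`): the hypothesis `v(1 + lam) < 1` is used there only for SCL and for `v lam ≤ 1` (`v_lam`). Uses SCL, `Sr_TOR`, `Sr_LGF`, `Pool.Agent.MUXV.Sx_MUN`. -/
def So_ISO : Prop :=
  ∀ (V : ValuationSubring ℂ) (L M : PeriodPair) (u e lam u' e' lam' mu : ℂ) (n : ℕ),
    V.valuation (2 : ℂ) = 1 → GoodL V L u e lam → GoodL V M u' e' lam' → mu ≠ 0 → Isg L M mu →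
    Odd n → V.valuation (n : ℂ) = 1 → (∀ z, mu * z ∈ M.lattice → n * z ∈ L.lattice) →
    ∀ R : Finset ℂ, IsRpM L M mu R →
    V.valuation (mu * u' / u) = 1 ∧ (∀ q ∈ R, V.valuation (xu L u e q) ≤ 1) ∧
    ∃ A : ℂ[X], A.Monic ∧ A.natDegree = R.card + 1 ∧ (∀ i, V.valuation (A.coeff i) ≤ 1) ∧
      ∀ z, mu * z ∉ M.lattice →
        xu M u' e' (mu * z) *
            (C ((mu * u' / u) ^ 2) * ∏ q ∈ R, (X - C (xu L u e q))).eval (xu L u e z) =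
          A.eval (xu L u e z) ∧
        mu * u' / u * yu M u' (mu * z) *
            (C ((mu * u' / u) ^ 2) * ∏ q ∈ R, (X - C (xu L u e q))).eval (xu L u e z) ^ 2 =
          (derivative A * (C ((mu * u' / u) ^ 2) * ∏ q ∈ R, (X - C (xu L u e q))) -
            A * derivative (C ((mu * u' / u) ^ 2) * ∏ q ∈ R, (X - C (xu L u e q)))).eval
              (xu L u e z) * yu L u z

/-- (MLT) multiplication by `ga ∈ O` of odd norm prime to `p` in the kernel of reduction.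

USES ISO. PROOF. `M = L`, `u' = u`, `g = emb ga`, `n = nm ga`, `R` representatives (`u_BAC`). `x = X z`, `v x > 1`, `r := 1/x`. `g z ∉ L`: otherwise `z` is congruent to some `q ∈ R` (`z ∉ L`), `v(X q) ≤ 1` (periodicity). (ISO) `B = g² ∏ (T - X_q)`, `A` monic of degree `n' + 1`, `n' = #R`, all coefficients are in `V`, `v g = 1`. `A(x)/x^(n'+1) = 1 + (terms of valuation ≤ v r)`,
`B(x)/(g² x^(n')) = 1 + ..`, `(A'B - AB')(x)/(g² x^(2n')) = ((n' + 1) - n') + .. = 1 + ..` (the polynomial `A'B - AB'` has coefficients in `V`, degree `≤ 2n'` and the coefficient `g²` at `2 n'`). So all three are not zero, `X(g z) = A(x)/B(x)`, `Y(g z) = (A'B - AB')(x) Y(z)/(g B(x)²)`, `tX(g z) = -X(g z)/Y(g z) = -g A(x) B(x)/((A'B - AB')(x) Y(z))`, `g tX(z) = -g x/Y(z)`,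
quotient `A(x) B(x)/(x (A'B - AB')(x)) = 1 + (valuation ≤ v r)`. So `v(tX(g z) - g tX z) ≤ v(r) v(g tX z) < v(tX z)` (`tX z ≠ 0`: `Y z ≠ 0` as `Y² = X (X-1)(X-lam)`). -/
def So_MLT : Prop :=
  ∀ (A B : ℤ) (V : ValuationSubring ℂ), CQ A B → V.valuation (2 : ℂ) = 1 →
    ∀ (b : Ideal (OO A B)) (L : PeriodPair) (om : ℂ), IsLI b L om →
    ∀ u e lam : ℂ, GoodL V L u e lam →
    ∀ (ga : OO A B) (n : ℕ), nm ga = (n : ℤ) → Odd n → V.valuation (n : ℂ) = 1 →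
    ∀ z, z ∉ L.lattice → 1 < V.valuation (xu L u e z) →
      emb ga * z ∉ L.lattice ∧ 1 < V.valuation (xu L u e (emb ga * z)) ∧
      V.valuation (tX (xu L u e) (yu L u) (emb ga * z) - emb ga * tX (xu L u e) (yu L u) z) <
        V.valuation (tX (xu L u e) (yu L u) z)

/-- (INJ) points of level prime to `P` have integral coordinates.

USES MLT, GRL, `Sr_TOR`. PROOF. `be ∈ m`, `be ∉ P`; `emb be * z ∈ L`, `v(emb be) = 1`. `be' := star be`, `nm be = be * be'`. (1) `be' ∉ P`: then `n = nm be` is prime to `p` (otherwise `p ∣ nm be`, `be * be' ∈ P`; `nm be > 0`), `n z ∈ L`: (TOR). (2) `be' ∈ P`. Let `t = 1` or `-1`, `ga = 1 + 2 t be`; not both `1 + 2 be` and `1 - 2 be` are in `P` (the sum is `2`): choose `t` with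
`ga ∉ P`. `star ga = 1 + 2 t be'` is not in `P` either. So `nm ga` is prime to `p`, odd (`nm (1 + 2 y) = 1 + 2 (..)`: `(1 + 2y)(1 + 2 star y) = 1 + 2 (y + star y) + 4 nm y` and `y + star y` is an integer), positive. Suppose `v(X z) > 1`. `emb ga * z = z + 2 t emb be * z ≡ z` modulo `L`, so `tX(ga z) = tX z` (periodicity of `℘, ℘'`), and (MLT) `v((1 - emb ga) tX z) < v(tX z)`,
`v(2 t emb be) < 1`, contradiction (`v 2 = 1`). The last part: `Y² = X (X - 1)(X - lam)`. -/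
def So_INJ : Prop :=
  ∀ (p er : ℕ) (A B : ℤ) (P : Ideal (OO A B)) (V : ValuationSubring ℂ), CaseO p er A B P V →
    ∀ (b : Ideal (OO A B)) (L : PeriodPair) (om : ℂ), IsLI b L om →
    ∀ u e lam : ℂ, GoodL V L u e lam → ∀ m : Ideal (OO A B), ¬ m ≤ P →
    ∀ z, z ∉ L.lattice → Tor m L z →
      V.valuation (xu L u e z) ≤ 1 ∧ V.valuation (yu L u z) ≤ 1

/-- (INX) reduction is injective on points of level prime to `P`, up to sign, on the coordinate `X`.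

USES GRL, INJ. PROOF. `z`, `z'` are not in the kernel of reduction (INJ). `Pool.Agent.MUXV.v_X_sub` (see `tr_FXL`, `NS/RN_FXL.lean`): `z + z'` or `z - z'` is in the kernel of reduction (`InK`: in `L` or `X ∉ V`); it is killed by `m`, so by (INJ) it is in `L`. -/
def So_INX : Prop :=
  ∀ (p er : ℕ) (A B : ℤ) (P : Ideal (OO A B)) (V : ValuationSubring ℂ), CaseO p er A B P V →
    ∀ (b : Ideal (OO A B)) (L : PeriodPair) (om : ℂ), IsLI b L om →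
    ∀ u e lam : ℂ, GoodL V L u e lam → ∀ m : Ideal (OO A B), ¬ m ≤ P →
    ∀ z z', z ∉ L.lattice → z' ∉ L.lattice → Tor m L z → Tor m L z' →
      V.valuation (xu L u e z - xu L u e z') < 1 → z - z' ∈ L.lattice ∨ z + z' ∈ L.lattice

/-- (MUL) THE MULTIPLIER OF THE `P`-ISOGENY.

USES `Pool.Agent.OBT.So_BAS` (`OB/StT.lean`), ISO (its first part: the multiplier is a unit). PROOF. (BAS) `idl p = Pc P * P ^ er`, `Pc P` prime to `P`. (1) `P²` and `Pc P * sp 2` are coprime (`2 ∉ P`, `P` maximal), `P² ≠ P`: choose `pi ∈ P`, `pi ∉ P²`, and `be ≡ pi` modulo `P²`, `be ≡ 1` modulo `Pc P * sp 2` (`Ideal.IsCoprime`: `1 = x + y`,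
`be = pi y + x`). `be ∈ P`, `be ∉ P²`. `sp be = P * c` (`O` is Dedekind, `te_RNG` in `MUX/E_RNG.lean`, field `ded`; `Ideal.dvd_iff_le`). `c` is not in `P`, `be ∈ c`, so `c + Pc P = O`, `c + sp 2 = O`: `c` is prime to `idl (2 p)`, so multiplication by `2` and by `p` is bijective on the finite group `O/c`: `k := nI c` is odd and prime to `p`, `v k = 1`.
(2) `v(emb be)^er = v p`: `sp be ^ er * Pc P = idl p * c ^ er`. `y ∈ Pc P`, `y ∉ P`: `be^er y = p z`, so `v(emb be)^er ≤ v p`. `t ∈ c^er`, `t ∉ P`: `p t ∈ sp be ^ er * Pc P ≤ sp (be^er)`: `v p ≤ v(emb be)^er`. (3) `M = mu P⁻¹ L`, `nu := emb be/mu`. `Isg M L nu`: for `z = mu z' ∈ M`, `P z' ⊆ L`, `nu z = emb be * z' ∈ L`. Kernel: if `nu z ∈ L`, `z = mu z'`, then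
`emb be * z' ∈ L`, and `k z ∈ M`: for `x ∈ P`: `x k ∈ P * c = sp be` (`k ∈ c`, `nI_mem`), so `emb x * (k z') ∈ L`. Representatives (`u_BAC`), (ISO): `v(nu u/u') = 1`, that is `v(emb be) = v(mu u'/u)`. -/
def So_MUL : Prop :=
  ∀ (p er : ℕ) (A B : ℤ) (P : Ideal (OO A B)) (V : ValuationSubring ℂ), CaseO p er A B P V →
    ∀ (b b' : Ideal (OO A B)) (L M : PeriodPair) (om om' mu u e lam u' e' lam' : ℂ),
    IsLI b L om → IsLI b' M om' → GoodL V L u e lam → GoodL V M u' e' lam' → IsQ P L M mu →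
    V.valuation (mu * u' / u) ^ er = V.valuation (p : ℂ)

/-! ## Unramifiedness -/

/-- (LIF) lifting of elements of the inertia group. MODEL: `tr_LIF` (`NS/RN_LIF.lean`), with `3` replaced by `p` (only `p ≠ 0` and `v p < 1` are used). -/
def So_LIF : Prop :=
  ∀ (p : ℕ) (A B : ℤ) (V : ValuationSubring ℂ), CQ A B → p.Prime → V.valuation (p : ℂ) < 1 →
    ∀ (F₁ M : IntermediateField (kk A B) ℂ), FiniteDimensional (kk A B) F₁ →
    IsGalois (kk A B) F₁ → FiniteDimensional (kk A B) M → ∀ σ : ℂ ≃+* ℂ, FixK A B σ →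
    (∀ y ∈ F₁, V.valuation y ≤ 1 → V.valuation (σ y - y) < 1) →
    ∃ σ' : ℂ ≃+* ℂ, FixK A B σ' ∧ (∀ y ∈ F₁, σ' y = σ y) ∧
      ∀ y ∈ M, V.valuation y ≤ 1 → V.valuation (σ' y - y) < 1

/-- `σ` is in the inertia group of `RF m` at `V` -/
def InI {A B : ℤ} (V : ValuationSubring ℂ) (m : Ideal (OO A B)) (σ : ℂ ≃+* ℂ) : Prop :=
  ∀ y ∈ RF m, V.valuation y ≤ 1 → V.valuation (σ y - y) < 1

/-- (RF2) the Legendre forms are defined over `RF (2)`.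

PROOF. `xn_mem_two` (`NS/RN_RFIN.lean`): `℘ w_i ∈ RF (idl 2)`. -/
def So_RF2 : Prop :=
  ∀ (A B : ℤ), CQ A B → ∀ (b : Ideal (OO A B)) (L : PeriodPair) (om : ℂ), IsNL b L om →
    ∀ w, w ∉ L.lattice → 2 * w ∈ L.lattice → L.weierstrassP w ∈ RF (idl (A := A) (B := B) 2)

/-- (FXX) an element of the inertia group of `RF m`, `m` even and prime to `P`, which is trivial on `RF (2)`, is trivial on `RF m`.

USES GRD, TW3, RF2, INJ, INX. MODEL: the second half of `tr_FXL` (`NS/RN_FXL.lean`), `tr_UNR` (`NS/RN_UNR.lean`). PROOF. `RF m` is generated over `k` by the `kap L` and `xn L z`, `L` normalised, `z ∉ L`, `Tor m L z`. `kap L ∈ RF (2)` is fixed. Labels `w_i` (TW3), `u² = ℘ w₂ - ℘ w₁`, `e = ℘ w₁`, `lam`: `GoodL` (GRD); `u², e ∈ RF (2) ≤ RF m` (RF2, `T.mono`) are fixed by `σ`.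
`σ g₂ = g₂`, `σ g₃ = g₃` (`kap = (12 g₂ - 1)/1728`, `g₂ = -18 g₃`): `IsCj σ L L`, `Φ` (`u_PHI`). `xu L u e (Φ z) = σ (xu L u e z)`. `Φ z ∉ L`, `Tor m L (Φ z)` (`u_TSN`, second part, for `a = emb x`, `x ∈ m`: `σ (emb x) = emb x`, `IsLI.hasCM`). `X z, X(Φ z) ∈ V` (INJ), `X z ∈ RF m`, so `v(X(Φ z) - X z) < 1`; (INX): `z + Φ z ∈ L` or `z - Φ z ∈ L`. So `℘(Φ z) = ℘ z`, `σ(xn L z) = xn L z`. -/
def So_FXX : Prop :=
  ∀ (p er : ℕ) (A B : ℤ) (P : Ideal (OO A B)) (V : ValuationSubring ℂ), CaseO p er A B P V →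
    TorX A B → ∀ m : Ideal (OO A B), m ≠ ⊥ → ¬ m ≤ P → m ≤ idl (A := A) (B := B) 2 →
    ∀ σ : ℂ ≃+* ℂ, FixK A B σ → InI V m σ → (∀ y ∈ RF (idl (A := A) (B := B) 2), σ y = y) →
    ∀ y ∈ RF m, σ y = y

/-! ### Power residues -/

/-- (KUM) an integer which is an `l`-th power modulo all primes of prime norm, except for finitely many residue characteristics, is an `l`-th power (`ζ_l` in the field).

PROOF. As `t_THDX` (`MUX/K_THDX.lean`, first part). Suppose `y^l ≠ t` for all `y`. `M` from `Pool.Agent.MUXK.S_KUMX` (`t_KUMX`). `B` = the set of primes `v` with `(absNorm v).Prime`, `absNorm v ∉ S`, `l, t ∉ v`: `l ≤ spl L M v` on `B`, so (`Stmt_SPLS`: `m_SPLS`, `MU3`-block M) `l Σ_B x s v ≤ log (1/(s-1)) + C`. The complement of `B`: primes of norm not prime (`O(1)`, `Stmt_DEG2`),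
and finitely many primes (norm a prime in `S`, or containing `l` or `t`). All primes together: `≥ log(1/(s-1)) - C`. So `log (1/(s-1)) (1 - 1/l) ≤ C'` for `s → 1`, a contradiction (`l ≥ 2`). -/
def So_KUM : Prop :=
  ∀ (l : ℕ) [Fact l.Prime] (L : Type) [Field L] [NumberField L] (ζ t : NumberField.RingOfIntegers L),
    IsPrimitiveRoot ζ l → t ≠ 0 → ∀ S : Finset ℕ,
    (∀ v : IsDedekindDomain.HeightOneSpectrum (NumberField.RingOfIntegers L),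
      (Ideal.absNorm v.asIdeal).Prime → Ideal.absNorm v.asIdeal ∉ S →
      ∃ a : NumberField.RingOfIntegers L, t - a ^ l ∈ v.asIdeal) →
    ∃ y : L, y ^ l = (t : L)

/-- (KUA) the same with homomorphisms `O → ZMod q` instead of primes; `j : O → 𝓞 L`.

USES KUM. PROOF. Let `v` be a prime of `𝓞 L` with `absNorm v = q` a prime `∉ S`: `𝓞 L ⧸ v` is a ring with `q` elements, so it is isomorphic to `ZMod q` (`ZMod.ringEquivOfPrime` or similar): `φ : O → 𝓞 L → ZMod q`. `φ al = x^l`, or `-x^l = (i x)^l` where `i^l = -1`, and the elements of `ZMod q` are images of elements of `𝓞 L`. (KUM). -/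
def So_KUA : Prop :=
  ∀ (A B : ℤ) (l : ℕ) [Fact l.Prime] (L : Type) [Field L] [NumberField L]
    (ζ : NumberField.RingOfIntegers L) (j : OO A B →+* NumberField.RingOfIntegers L) (al : OO A B),
    IsPrimitiveRoot ζ l → j al ≠ 0 → ∀ S : Finset ℕ,
    ((∀ q : ℕ, q.Prime → q ∉ S → ∀ φ : OO A B →+* ZMod q, ∃ x, φ al = x ^ l) ∨
      ((∃ i : NumberField.RingOfIntegers L, i ^ l = -1) ∧
        ∀ q : ℕ, q.Prime → q ∉ S → ∀ φ : OO A B →+* ZMod q, ∃ x, φ al = x ^ l ∨ φ al = -x ^ l)) →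
    ∃ y : L, y ^ l = (j al : L)

/-- (KUB) squares in `O`.

USES KUA. PROOF. `L = kk A B` (a number field), `ζ = -1`, `j` from `te_RNG` (`MUX/E_RNG.lean`: `𝓞 k = emb O`). `y² = al`, `y ∈ k` integral, so `y ∈ emb O` (field `int`), and `emb` is injective. -/
def So_KUB : Prop :=
  ∀ (A B : ℤ), CQ A B → ∀ (S : Finset ℕ) (al : OO A B), al ≠ 0 →
    (∀ q : ℕ, q.Prime → q ∉ S → ∀ φ : OO A B →+* ZMod q, ∃ x, φ al = x ^ 2) → ∃ z, al = z ^ 2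

/-- (KUC) `l`-th powers in `O`, up to sign.

USES KUA. PROOF. `L = k(ζ) ⊆ ℂ`, `ζ` a primitive root of unity of order `l` (`l` odd), resp. `L = k(i)`, `ζ = -1` (`l = 2`); finite over `ℚ`. `-1 = (-1)^l`, resp. `i²`. (KUA): `y^l = al`, `y ∈ L`. `l` odd: `D = [L : k] ≤ l - 1` (`ζ` is a root of `1 + X + .. + X^(l-1)`), `1 ≤ D`, so `D` is prime to `l`; `N = N_(L/k)`: `al^D = (N y)^l`; `1 = a D + b l` with integers: `al = ((N y)^a al^b)^l`,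
an `l`-th power in `k`. `l = 2`: if `i ∈ k` then `y ∈ k`. Otherwise `y = c + d i` with `c, d ∈ k` (basis `1, i` of `k(i)`), `y² = c² - d² + 2 c d i ∈ k`, so `c d = 0`: `al = c²` or `al = -d²`. In all cases `al = ± z^l` with `z ∈ k`, integral over `ℤ`, so `z ∈ emb O` (`te_RNG`). -/
def So_KUC : Prop :=
  ∀ (A B : ℤ), CQ A B → ∀ (S : Finset ℕ) (al : OO A B), al ≠ 0 → ∀ l : ℕ, l.Prime →
    (∀ q : ℕ, q.Prime → q ∉ S → ∀ φ : OO A B →+* ZMod q, ∃ x, φ al = x ^ l ∨ φ al = -x ^ l) →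
    ∃ z, al = z ^ l ∨ al = -z ^ l

/-- (NSQ) units, and squares `-1`, `-3`.

PROOF. `x = ⟨a, b⟩`, `x² = ⟨a² + A b², 2 a b + B b²⟩`. `x² = -n`, `n = 1, 3`: `b ≠ 0` (`a² ≥ 0`), so `2 a = -B b` and `b² (B² + 4 A) = -4 n`. `D = B² + 4A ≡ 0, 1` modulo 4 and `-D = absD`. `n = 1`: `b² = 1`, `absD = 4`, excluded, or `b² = 4`, `D = -1`, impossible. `n = 3`: `b² = 1`, `D = -12`, `B = 0`, `A = -3`, but `A - 1 = -4` (`fund0`); or `b² = 4`, `D = -3`, excluded.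
Units: `nm x = 1` (`nm_mul`, `nm_nonneg`): `4 nm x = (2 a + B b)² + absD b²`; `b ≠ 0` gives `absD ≤ 4`, and `absD ≥ 3` as `D ≡ 0, 1` modulo 4; excluded. `b = 0`: `a² = 1`. -/
def So_NSQ : Prop :=
  ∀ (A B : ℤ), CQ A B → absD A B ≠ 3 → absD A B ≠ 4 →
    (∀ x : OO A B, x ^ 2 ≠ -1) ∧ (∀ x : OO A B, x ^ 2 ≠ -3) ∧
    ∀ x : OO A B, IsUnit x → x = 1 ∨ x = -1

/-- (AFF) the action of the inertia group on the points of a lattice with the same reduction is affine in `X` modulo `V`.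

USES GRD, LGE, RF2, TW3, `Sr_TOR`. PROOF. `m = 2 q`. `kap L` is fixed (`ActI.kap`), `℘(c z) = σ(℘ z)` for `Tor (idl m) L z`, `z ∉ L` (`ActI.act`, `PM`: `xn = ℘ - 1/12`; `c z ∉ L`). `w_i` has `Tor (idl m) L w_i` (`tor_of_mul`, `m w_i ∈ L`). `X z = (℘ z - ℘ w₁)/(℘ w₂ - ℘ w₁)` (`u² = ℘ w₂ - ℘ w₁`), so
`σ(X z) = (℘(c z) - ℘(c w₁))/(℘(c w₂) - ℘(c w₁)) = (X(c z) - X(c w₁))/(X(c w₂) - X(c w₁))`. `X z ∈ RF (idl m)` (`℘ z = xn L z + 1/12`, RF2, `T.mono`), `X z ∈ V` (TOR: `v(m) = 1`; GRD gives `v lam = 1`). So `v(σ(X z) - X z) < 1`. `c w₁, c w₂` are different points of order two (`c` is prime to `m`: `sp c` and `idl m` coprime, so `c z ∈ L` implies `z ∈ L` for points of level `m`: `tor_coprime`), `X` takes the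
values `0, 1, lam` there: `a = X(c w₂) - X(c w₁)` is `± 1`, `± lam` or `± (1 - lam)`: `v a = 1`. Multiply by `a`. -/
def So_AFF : Prop :=
  ∀ (p er : ℕ) (A B : ℤ) (P : Ideal (OO A B)) (V : ValuationSubring ℂ), CaseO p er A B P V →
    TorX A B → ∀ (b : Ideal (OO A B)) (L : PeriodPair) (om : ℂ), IsNL b L om →
    ∀ w₁ w₂ w₃ u : ℂ, Two3 L w₁ w₂ w₃ → u ^ 2 = L.weierstrassP w₂ - L.weierstrassP w₁ →
    ∀ q : ℕ, q.Prime → q ≠ p → ∀ σ : ℂ ≃+* ℂ, FixK A B σ →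
    InI V (idl (A := A) (B := B) (2 * q)) σ → ∀ c : OO A B,
    ActI σ (idl (2 * q)) (sp c) L L (emb c) →
    V.valuation (xu L u (L.weierstrassP w₁) (emb c * w₂) -
      xu L u (L.weierstrassP w₁) (emb c * w₁)) = 1 ∧
    ∀ z, z ∉ L.lattice → Tor (idl (A := A) (B := B) (2 * q)) L z → emb c * z ∉ L.lattice ∧
      V.valuation (xu L u (L.weierstrassP w₁) z) ≤ 1 ∧
      V.valuation (xu L u (L.weierstrassP w₁) (emb c * z) -
        ((xu L u (L.weierstrassP w₁) (emb c * w₂) - xu L u (L.weierstrassP w₁) (emb c * w₁)) *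
          xu L u (L.weierstrassP w₁) z + xu L u (L.weierstrassP w₁) (emb c * w₁))) < 1

/-- (PS2) the case that `c` fixes a point of order two and interchanges the other two: `c² ≡ -1` modulo `q`.

USES AFF, TW3, GRD, INX. PROOF. `u² = ℘ w₂ - ℘ w₁`, `X = xu L u (℘ w₁)`, `X(c w₁) = X(w₁) = 0`, `X(c w₂) = X(w₃) = lam`. (AFF) at `z = w₃`: `c w₃ ≡ w₂`, `X = 1`: `v(1 - lam²) < 1`, so (`v(1 - lam) = 1`) `v(1 + lam) < 1`, and `v(X(c z) + X z) < 1` for all points `z` of level `2 q`. (INX) for `m = idl (2 q)` (`2 q ∉ P`). Suppose `c² - 1 ∈ idl (2 q)`. Let `z` be a point of level `2 q` and `y = (1 + c) z`: `c y ≡ y` modulo `L` (`c² z - z ∈ L`). If `y ∉ L`: `X(c y) = X y`, so `v(2 X y) < 1`, `v(X y) < 1`, `X(w₁) = 0`: `y ≡ ± w₁`, `2 y ∈ L`. So `2 (1 + c) z ∈ L` in all cases. The same for `y = (1 - c) z`: `c y ≡ -y`, `X(c y) = X y`. The sum: `4 z ∈ L` for all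
`z` of level `2 q`, in particular for `z = om emb x/(2 q)`, `x ∈ b`: `2 om emb x/q ∈ L` for all `x ∈ b`, so `2 b ⊆ q b`, a contradiction for `q` odd (`b ⊆ q b` by Bezout, norms; or: multiply). So `c² - 1 ∉ idl (2 q)`. By hypothesis `c² - s ∈ idl (2 q)` with `s = -1`. -/
def So_PS2 : Prop :=
  ∀ (p er : ℕ) (A B : ℤ) (P : Ideal (OO A B)) (V : ValuationSubring ℂ), CaseO p er A B P V →
    TorX A B → ∀ (b : Ideal (OO A B)) (L : PeriodPair) (om : ℂ), IsNL b L om →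
    ∀ w₁ w₂ w₃ : ℂ, Two3 L w₁ w₂ w₃ →
    ∀ q : ℕ, q.Prime → q ≠ p → q ≠ 2 → ∀ σ : ℂ ≃+* ℂ, FixK A B σ →
    InI V (idl (A := A) (B := B) (2 * q)) σ → ∀ c : OO A B,
    ActI σ (idl (2 * q)) (sp c) L L (emb c) → emb c * w₁ - w₁ ∈ L.lattice →
    emb c * w₂ - w₃ ∈ L.lattice → emb c * w₃ - w₂ ∈ L.lattice →
    (c ^ 2 - 1 ∈ idl (A := A) (B := B) (2 * q) ∨ c ^ 2 + 1 ∈ idl (A := A) (B := B) (2 * q)) →
    c ^ 2 + 1 ∈ idl (A := A) (B := B) q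

/-- (PS3) the case that `c` permutes the points of order two cyclically, `c³ ≡ ± 1`: `c² ± c + 1 ≡ 0` modulo `q`.

USES AFF, TW3, GRD, INX. PROOF. `u² = ℘ w₂ - ℘ w₁`, `X = xu L u (℘ w₁)`. `X(c w₁) = X(w₂) = 1`, `X(c w₂) = X(w₃) = lam`. (AFF): `v(X(c z) - ((lam - 1) X z + 1)) < 1`. Let `s = ± 1`, `c³ - s ∈ idl (2 q)`, `z` a point of level `2 q`, `y = (1 + s c + c²) z`: `s c y ≡ y` modulo `L`, so `X(c y) = X(s c y) = X y` (`℘` is even).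
CLAIM `6 y ∈ L`. Suppose `y ∉ L` and `2 y ∉ L`: `v((2 - lam) X y - 1) < 1`, and the same for `2 y` (`s c (2 y) ≡ 2 y`). So `v((2 - lam)(X y - X(2 y))) < 1`, and `v(2 - lam) = 1` (`v((2 - lam) X y) = 1` and `v(X y) ≤ 1` (AFF) force `v(2 - lam) ≥ 1`), so `v(X y - X (2 y)) < 1`, (INX): `y ∈ L` or `3 y ∈ L`. So `6 (1 + s c + c²) z ∈ L` for all points `z` of level `2 q`:
`z = om emb x/(2 q)`, `x ∈ b`: `6 (1 + s c + c²) x ∈ 2 q b` for all `x ∈ b`, so `sp (6 (1 + s c + c²)) * b ≤ idl (2 q) * b`, `6 (1 + s c + c²) ∈ idl (2 q)` (`mul_le_mul_iff`), `3 (1 + s c + c²) ∈ idl q`, `q` is a prime different from `3` (Bezout): `1 + s c + c² ∈ idl q`. -/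
def So_PS3 : Prop :=
  ∀ (p er : ℕ) (A B : ℤ) (P : Ideal (OO A B)) (V : ValuationSubring ℂ), CaseO p er A B P V →
    TorX A B → ∀ (b : Ideal (OO A B)) (L : PeriodPair) (om : ℂ), IsNL b L om →
    ∀ w₁ w₂ w₃ : ℂ, Two3 L w₁ w₂ w₃ →
    ∀ q : ℕ, q.Prime → q ≠ p → q ≠ 2 → q ≠ 3 → ∀ σ : ℂ ≃+* ℂ, FixK A B σ →
    InI V (idl (A := A) (B := B) (2 * q)) σ → ∀ c : OO A B,
    ActI σ (idl (2 * q)) (sp c) L L (emb c) → emb c * w₁ - w₂ ∈ L.lattice →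
    emb c * w₂ - w₃ ∈ L.lattice → emb c * w₃ - w₁ ∈ L.lattice →
    (c ^ 3 - 1 ∈ idl (A := A) (B := B) (2 * q) ∨ c ^ 3 + 1 ∈ idl (A := A) (B := B) (2 * q)) →
    c ^ 2 + c + 1 ∈ idl (A := A) (B := B) q ∨ c ^ 2 - c + 1 ∈ idl (A := A) (B := B) q

/-- the automorphism `σ` acts as the ideal `a` on the points of level `m` of all normalised lattices -/
def Acts {A B : ℤ} (σ : ℂ ≃+* ℂ) (m a : Ideal (OO A B)) : Prop :=
  ∀ (b : Ideal (OO A B)) (L : PeriodPair) (om : ℂ), IsNL b L om →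
    ∃ (b' : Ideal (OO A B)) (L' : PeriodPair) (om' mu : ℂ), IsNL b' L' om' ∧ ActI σ m a L L' mu

/-- (PRN) automorphisms with a principal ideal.

PROOF. `ActI σ m (sp c) L L' mu` with `L'` normalised. Then `ActI σ ⊤ (sp c) L L' mu` (`act`: `Tor ⊤ L z` means `z ∈ L`, then `mu z ∈ L'` by `isq`). (`T.chg`) with `m = ⊤`, `a = sp c`, `a' = ⊤`, `x = 1`, `y = c` (`sp 1 * sp c = sp c * ⊤`): `ActI σ ⊤ ⊤ L L' (mu / emb c)`; `isq`: `L' = ν L`, `ν = mu/emb c` (`tor_top`). Both are normalised: `g₂(L') = ν⁻⁴ g₂(L)`, `g₃(L') = ν⁻⁶ g₃(L)` (`ta_SCP`),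
`g₂ = -18 g₃` for both, `g₃ ≠ 0` (`b_DSC`), so `ν² = 1`, `mu = ± emb c` and `L'.lattice = L.lattice`. Put `c' = c` or `-c`, `emb c' = mu` (`sp (-c) = sp c`). `L` and `L'` have the same lattice, so the same invariants, `℘` and `℘'` (they are defined as sums over the lattice; or `ta_SCP` with the factor 1), so `ActI σ m (sp c') L L (emb c')`. -/
def So_PRN : Prop :=
  ∀ (A B : ℤ), CQ A B → TorX A B → ∀ (m : Ideal (OO A B)) (σ : ℂ ≃+* ℂ) (c : OO A B), m ≠ ⊥ →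
    c ≠ 0 → FixK A B σ → ∀ (b b' : Ideal (OO A B)) (L L' : PeriodPair) (om om' mu : ℂ),
    IsNL b L om → IsNL b' L' om' → ActI σ m (sp c) L L' mu →
    ∃ c', (c' = c ∨ c' = -c) ∧ ActI σ m (sp c') L L (emb c')

/-- (POW) powers.

PROOF. `Acts (σ ^ n) m (a ^ n)` by induction: `n = 0`: `ActI 1 m ⊤ L L 1` (`a ^ 0 = 1 = ⊤`; `PM` for the identity). `n + 1`: `T.comp` (`σ.trans τ` is `τ ∘ σ = τ * σ`). `σ ^ n` is trivial on `k`. `T.triv` for one normalised lattice (it exists: hypothesis). -/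
def So_POW : Prop :=
  ∀ (A B : ℤ), CQ A B → TorX A B → (∃ (b : Ideal (OO A B)) (L : PeriodPair) (om : ℂ), IsNL b L om) →
    ∀ (m a : Ideal (OO A B)) (σ : ℂ ≃+* ℂ), m ≠ ⊥ → FixK A B σ → Acts σ m a → ∀ n : ℕ,
      Acts (σ ^ n) m (a ^ n) ∧
      ((∀ y ∈ RF m, (σ ^ n : ℂ ≃+* ℂ) y = y) ↔ ∃ c : OO A B, c - 1 ∈ m ∧ a ^ n = sp c)

/-- (LFT) the lift of an element of order `l` of the inertia group of `RF (2)` to the level `2 q`.

USES LIF, FXX, POW. PROOF. `m = 2 q`, `idl m` is not in `P` (`2 q` is a unit at `V`: `vemb`). (LIF) with `F₁ = RF (idl 2)` (`T.fin`, `T.gal`), `M = RF (idl m)`: `σ'`, `InI V (idl m) σ'`, `σ' = σ` on `RF (2)`. `σ'^l` is trivial on `RF (2)` (`σ'^l y = σ^l y` as `σ` maps `RF (2)` to itself: normal) and `InI V (idl m) (σ'^l)`: the inertia group is closed under powers (`σ' y ∈ RF m` for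
`y ∈ RF m` (normal, `FixK`: as in `tr_LIF`), `v(σ' y) ≤ 1` if `v y ≤ 1`, `v(σ'^(j+1) y - y) ≤ max(v(σ'(σ'^j y) - σ'^j y), v(σ'^j y - y)) < 1`). So (FXX) `σ'^l` is trivial on `RF m`. (`T.act m`): `a'` prime to `idl m`, `Acts σ' (idl m) a'`. (POW): `a'^l = sp be`, `be - 1 ∈ idl m`.
Let `Acts σ (idl 2) a`. `ρ = σ σ'⁻¹` is trivial on `RF (2)` (`σ'⁻¹` maps `RF (2)` to itself), (`T.act (idl 2)`) `Acts ρ (idl 2) a''`, (POW, `n = 1`) `a'' = sp c`, `c - 1 ∈ idl 2`. `σ = ρ ∘ σ'`: (`T.comp`) for a normalised lattice `L`: `ActI σ' (idl 2) a' L L₁ mu₁` (from the level `m`: `Tor (idl 2) L z → Tor (idl m) L z`, `idl m ≤ idl 2`; `cop`: `a'` is prime to `idl m`, so to `idl 2`),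
`ActI ρ (idl 2) (sp c) L₁ L₂ mu₂`, so `ActI σ (idl 2) (a' * sp c) L L₂ _`. (`T.uniq`) with `ActI σ (idl 2) a L L' mu`: `x₀ - y₀ ∈ idl 2`, `sp x₀ * a = sp y₀ * (a' * sp c)`. `x = x₀`, `y = y₀ c` (`x₀ - y₀ c = (x₀ - y₀) - y₀ (c - 1)`). -/
def So_LFT : Prop :=
  ∀ (p er : ℕ) (A B : ℤ) (P : Ideal (OO A B)) (V : ValuationSubring ℂ), CaseO p er A B P V →
    TorX A B → (∃ (b : Ideal (OO A B)) (L : PeriodPair) (om : ℂ), IsNL b L om) →
    ∀ (l : ℕ) (σ : ℂ ≃+* ℂ), FixK A B σ → InI V (idl (A := A) (B := B) 2) σ →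
    (∀ y ∈ RF (idl (A := A) (B := B) 2), (σ ^ l : ℂ ≃+* ℂ) y = y) →
    ∀ q : ℕ, q.Prime → q ≠ 2 → q ≠ p →
    ∃ (σ' : ℂ ≃+* ℂ) (a' : Ideal (OO A B)) (be : OO A B), FixK A B σ' ∧
      InI V (idl (A := A) (B := B) (2 * q)) σ' ∧
      (∀ y ∈ RF (idl (A := A) (B := B) 2), σ' y = σ y) ∧
      (∀ y ∈ RF (idl (A := A) (B := B) (2 * q)), (σ' ^ l : ℂ ≃+* ℂ) y = y) ∧
      IsCoprime a' (idl (A := A) (B := B) (2 * q)) ∧ a' ≠ ⊥ ∧
      Acts σ' (idl (A := A) (B := B) (2 * q)) a' ∧ a' ^ l = sp be ∧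
      be - 1 ∈ idl (A := A) (B := B) (2 * q) ∧
      ∀ a : Ideal (OO A B), Acts σ (idl (A := A) (B := B) 2) a →
        ∃ x y : OO A B, x ≠ 0 ∧ y ≠ 0 ∧ x - y ∈ idl (A := A) (B := B) 2 ∧ sp x * a = sp y * a'

/-- (ORD) an element of prime order `l` of the inertia group of `RF (2)` has a principal ideal.

USES LFT, POW, KUC, NSQ, and `MUX2.LatFacts` (`MUXY.z_LAF`, `MUX/ZY.lean`) for the existence of a normalised lattice. PROOF. (`T.act (idl 2)`) `Acts σ (idl 2) a`, `a` prime to `idl 2`, `a ≠ ⊥`; (POW): `a^l = sp al`, `al ≠ 0`. `S` = the primes dividing `2 p nI(a)`. Let `q ∉ S` be a prime, `φ : O → ZMod q`. (LFT): `σ', a', be`, `sp x * a = sp y * a'`.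
`λ := ker φ`, a prime ideal with `q ∈ λ`; `a` is not in `λ` (otherwise `nI a ∈ λ`, `φ(nI a) = 0`, but `q ∤ nI a`), `a'` is not in `λ` (`a'` is prime to `idl (2 q) ≤ λ`). Choose `s ∈ a`, `s ∉ λ`: `x s = y t`, `t ∈ a'`; choose `s' ∈ a'`, `s' ∉ λ`: `y s' = x t'`, `t' ∈ a`. `y t t' = x s t' = s (x t') = s y s'`, so `t t' = s s' ∉ λ`, `t ∉ λ`.
`sp (x^l al) = sp (y^l be)` (`(sp x * a)^l = (sp y * a')^l`), so `x^l al = ε y^l be` with a unit `ε = ± 1` (NSQ). Multiply by `s^l`: `y^l t^l al = ε y^l be s^l`, cancel: `t^l al = ε be s^l`. `φ be = 1` (`be - 1 ∈ idl (2 q) ≤ λ`): `φ al = ε (φ s/φ t)^l`. (KUC): `al = ± z^l`, so `a^l = (sp z)^l`, and `a = sp z` (unique factorisation of ideals in the Dedekind domain `O`: `te_RNG`, field `ded`,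
`MUX/E_RNG.lean`; `UniqueFactorizationMonoid`/`pow_left_injective`-type: if `a^l = c^l` then for every prime the multiplicities agree; or: `Ideal.pow_dvd_pow_iff`). -/
def So_ORD : Prop :=
  ∀ (p er : ℕ) (A B : ℤ) (P : Ideal (OO A B)) (V : ValuationSubring ℂ), CaseO p er A B P V →
    TorX A B → ∀ (l : ℕ), l.Prime → ∀ σ : ℂ ≃+* ℂ, FixK A B σ →
    InI V (idl (A := A) (B := B) 2) σ →
    (∀ y ∈ RF (idl (A := A) (B := B) 2), (σ ^ l : ℂ ≃+* ℂ) y = y) →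
    ∃ z : OO A B, z ≠ 0 ∧ Acts σ (idl (A := A) (B := B) 2) (sp z)

/-- (PSI) the element `c = c_q` by which the lift to the level `2 q` acts.

USES LFT, ORD, POW, PRN, PS2, PS3, NSQ, TW3. PROOF. (ORD): `Acts σ (idl 2) (sp z)`. (LFT) for `q`: `σ', a', be`, `sp x * sp z = sp y * a'`: `x z = y c₀` with `c₀ ∈ a'`, and `a' = sp c₀` (`sp y * sp c₀ = sp y * a'`, cancel), `c₀ ≠ 0`. A normalised lattice `L` (`MUXY.z_LAF`, field `ex`), `Acts` for it, (PRN): `c = ± c₀`, `ActI σ' (idl (2 q)) (sp c) L L (emb c)`. `a'^l = sp be`: `c^l = ε be`, `ε = ± 1`,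
so `c^l ∓ 1 ∈ idl (2 q)`. `c - 1 ∉ idl 2`: otherwise (`T.triv` for the level 2, `ActI σ' (idl 2) (sp c) L L (emb c)`) `σ'` is trivial on `RF (2)`, so is `σ`. `c` acts on the points of order two: `c w_i ∉ L` and `c w_i - c w_j ∉ L` (`c` is prime to `2`; `tor_coprime`), and not trivially: if `(c - 1) w ∈ L` for all `w` of order two, then `(c - 1) b ⊆ 2 b`, `c - 1 ∈ idl 2`
(`mul_le_mul_iff`). So with suitable labels (TW3): (i) `c w₁ ≡ w₁`, `c w₂ ≡ w₃`, `c w₃ ≡ w₂`; `c^l` acts trivially on the points of order two (`c^l ≡ ± 1`, `-w ≡ w`), so `l` is even, `l = 2`, (PS2). (ii) `c w₁ ≡ w₂`, `c w₂ ≡ w₃`, `c w₃ ≡ w₁`: `3 ∣ l`, `l = 3`, (PS3). -/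
def So_PSI : Prop :=
  ∀ (p er : ℕ) (A B : ℤ) (P : Ideal (OO A B)) (V : ValuationSubring ℂ), CaseO p er A B P V →
    TorX A B → ∀ (l : ℕ), l.Prime → ∀ σ : ℂ ≃+* ℂ, FixK A B σ →
    InI V (idl (A := A) (B := B) 2) σ →
    (∀ y ∈ RF (idl (A := A) (B := B) 2), (σ ^ l : ℂ ≃+* ℂ) y = y) →
    ¬ (∀ y ∈ RF (idl (A := A) (B := B) 2), σ y = y) →
    ∀ q : ℕ, q.Prime → q ≠ 2 → q ≠ 3 → q ≠ p → ∃ c : OO A B,
      (l = 2 ∧ c ^ 2 + 1 ∈ idl (A := A) (B := B) q) ∨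
      (l = 3 ∧ (c ^ 2 + c + 1 ∈ idl (A := A) (B := B) q ∨ c ^ 2 - c + 1 ∈ idl (A := A) (B := B) q))

/-- (IN2) the inertia group of `RF (2)` is trivial.

USES PSI, KUB, NSQ. PROOF. Suppose `σ` is not trivial on `RF (2)`. `RF (2)/k` is finite and normal, so some power `σ^N`, `N > 0`, is trivial on `RF (2)`; `N` minimal, `l` a prime divisor of `N`, replace `σ` by `σ^(N/l)` (`InI` is closed under powers, see LFT). (PSI) for all primes `q ∉ S = {2, 3, p}`: `l = 2` for all of them or `l = 3` for all. `l = 2`: for every `φ : O → ZMod q`: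
`φ(c)² = -1` (`idl q ≤ ker φ`), (KUB) for `al = -1`: `-1 = z²`, contradiction to (NSQ). `l = 3`: `(2 φ(c) ± 1)² = -3`, (KUB) for `al = -3`: contradiction. -/
def So_IN2 : Prop :=
  ∀ (p er : ℕ) (A B : ℤ) (P : Ideal (OO A B)) (V : ValuationSubring ℂ), CaseO p er A B P V →
    TorX A B → ∀ σ : ℂ ≃+* ℂ, FixK A B σ → InI V (idl (A := A) (B := B) 2) σ →
    ∀ y ∈ RF (idl (A := A) (B := B) 2), σ y = y

/-- (FIN) the result of the block, `O_RFIN`.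

USES GRD, TW3, RF2, LIF, FXX, IN2. PROOF. First part: labels (TW3), `u` a square root, (GRD), (RF2). Second part: `m' = m * idl 2` (`¬ m' ≤ P`, `P` prime, `2 ∉ P`), (LIF) `F₁ = RF m`, `M = RF m'`: `σ'`, `σ' = σ` on `RF m`, `InI V m' σ'`, so `InI V (idl 2) σ'` (`T.mono`), (IN2) `σ'` is trivial on `RF (2)`, (FXX) on `RF m' ⊇ RF m`. (`y ∈ V` iff `v y ≤ 1`, `x ∈ V.nonunits` iff `v x < 1`.) -/
def So_FIN : Prop := O_RFIN

end

end Pool.Agent.OBR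


end
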