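import Pool.Agent.MVF.C016
import Pool.Agent.MVF.C033
import Pool.Agent.MVF.C034
import Pool.Agent.MVF.C035
import Pool.Agent.MVF.C041
import Pool.Agent.MVF.C047
import Pool.Agent.MVF.C049
import Pool.Agent.MVF.C063
import Pool.Agent.MVF.C068
import Pool.Agent.MVF.C117
import Pool.Agent.MVF.C155
import Pool.Agent.MVF.C159
import Pool.Agent.OBM.C04

/-! Parts: OB.E_ADD, OB.E_ALG, OB.E_CAL, OB.E_COE, OB.E_DEG, OB.E_EXO, OB.E_FIN, OB.E_FN1, OB.E_FN2, OB.E_GEN, OB.E_MUL, OB.E_PIS, OB.E_PVL, OB.E_STB, OB.E_UNI, OB.E_UNR, OB.E_UNT -/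

section

/-!
# OB, block E, module ADD: addition of a point of `SP` (helper54; model: helper42's `NS/F_ADD.lean`)
-/

set_option autoImplicit false

open Polynomial

namespace Pool.Agent.OBE

open _root_.MU3 _root_.Pool.Agent.MU3A _root_.Pool.Agent.MU3B _root_.Pool.Agent.MUX _root_.Pool.Agent.MUXU _root_.Pool.Agent.MUXE
open _root_.Pool.Agent.RI _root_.Pool.Agent.NS _root_.Pool.Agent.OB
open _root_.Pool.Agent.MUXV (GR InK tX)
open _root_.Pool.Agent.NSE (su ru WL IntP)

noncomputable section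

namespace ADD

lemma intP_quad {V : ValuationSubring ℂ} {a b c : ℂ} (ha : V.valuation a ≤ 1)
    (hb : V.valuation b ≤ 1) (hc : V.valuation c ≤ 1) : IntP V (C a + C b * X + C c * X ^ 2) := by
  intro i
  rcases i with _ | _ | _ | i
  · simpa using ha
  · simpa [coeff_X, coeff_C] using hb
  · simpa [coeff_X, coeff_C] using hc
  · simp

/-- a function `A(s) + r c` with `A` of degree at most two -/
lemma rep_quad {p : ℕ} {V : ValuationSubring ℂ} {S : Set ℂ} {s r F : ℂ → ℂ} {a b c d : ℂ}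
    (ha : V.valuation a ≤ 1) (hb : V.valuation b ≤ 1) (hc : V.valuation c ≤ 1)
    (hd : V.valuation d ≤ 1)
    (hF : ∀ Y ∈ S, F Y = a + b * s Y + c * s Y ^ 2 + r Y * d) : RepO p V S s r F a d := by
  refine ⟨C a + C b * X + C c * X ^ 2, C d, intP_quad ha hb hc, ?_, ?_, ?_, ?_⟩
  · intro i
    rw [coeff_C]
    split_ifs
    · exact hd
    · simp
  · intro Y hY
    rw [hF Y hY]
    simp
  · simp
  · simp

end ADD

open _root_.Pool.Agent.OBE.ADD

/-- the module ADD -/
theorem tb_ADD (h1 : Sb_ALG) (h2 : Sb_COE) (h3 : Sb_GRN) (h5 : Sb_PTS) : Sb_ADD := by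
  intro p er A B P V al hC L u e lam hNL hG z hz
  obtain ⟨ξ, G⟩ := h3 p V L u e lam hC.toCp hG
  obtain ⟨c1, -, -, c2, c3, c4, -, -⟩ := h2 p V L u e lam hC.toCp hG
  obtain ⟨hP, hInK, -⟩ := h5 p er A B P V al hC L u e lam hNL hG
  obtain ⟨-, -, -, a4, -, a6, a7, -, -⟩ := h1 p V (SP P er L) (su L u e) (ru L u e) _ _ hP
  obtain ⟨hzL, hx⟩ := Pool.Agent.MUXV.int_X hz
  have hy := Pool.Agent.MUXV.int_Y G hz
  have hu := hG.u0
  have hl : V.valuation lam ≤ 1 := hG.vl.le
  have ha2 : V.valuation (-(1 + lam)) ≤ 1 := by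
    rw [Valuation.map_neg]
    exact c3
  set x := xu L u e z with hxdef
  set y := yu L u z with hydef
  have h2x : V.valuation (2 * (-(1 + lam)) * x) ≤ 1 := by
    rw [map_mul, map_mul, c2, one_mul]
    exact mul_le_one' ha2 hx
  have hxx : V.valuation (x ^ 2) ≤ 1 := by
    rw [map_pow]
    exact pow_le_one₀ zero_le hx
  -- numerator and denominator
  have hN : RepO p V (SP P er L) (su L u e) (ru L u e)
      (fun Y => x + (x ^ 2 + lam + 2 * (-(1 + lam)) * x) * su L u e Y + (lam * x) * su L u e Y ^ 2 +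
        ru L u e Y * (2 * y)) x (2 * y) := by
    refine rep_quad hx ?_ ?_ ?_ fun Y _ => rfl
    · exact V.valuation.map_add_le (V.valuation.map_add_le hxx hl) h2x
    · rw [map_mul]
      exact mul_le_one' hl hx
    · rw [map_mul, c2, one_mul]
      exact hy
  have hD : RepO p V (SP P er L) (su L u e) (ru L u e) (fun Y => (1 - su L u e Y * x) ^ 2) 1 0 := by
    refine rep_quad (b := -(2 * x)) (c := x ^ 2) (by simp) ?_ hxx (by simp) fun Y _ => ?_
    · rw [Valuation.map_neg, map_mul, c2, one_mul]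
      exact hx
    · ring
  obtain ⟨d1, d2⟩ := a7 _ _ _ hD (by simp)
  have hM := a6 _ _ _ _ _ _ hN d2
  refine a4 _ _ _ _ _ _ hM ?_ (by simp) (by simp)
  intro Y hY
  obtain ⟨t1, t2⟩ := hInK Y hY
  have hYL : Y ∉ L.lattice := hY.2
  have hzp : z + Y ∉ L.lattice := fun h => hz (by
    have := Pool.Agent.MUXV.inK_sub G (Pool.Agent.MUXV.inK_of_mem h) t1
    rwa [add_sub_cancel_right] at this)
  have hzm : z - Y ∉ L.lattice := fun h => hz (by
    have := Pool.Agent.MUXV.inK_add G (Pool.Agent.MUXV.inK_of_mem h) t1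
    rwa [sub_add_cancel] at this)
  have hadd := (b_ADD L Y z hYL hzL hzp hzm).1
  have hxY : xu L u e Y ∉ V := t1.resolve_left hYL
  have hne : x - xu L u e Y ≠ 0 := by
    intro h
    apply hxY
    rw [← sub_eq_zero.1 h]
    exact (ValuationSubring.valuation_le_one_iff _ _).1 hx
  have e1 : ∀ w, L.weierstrassP w = u ^ 2 * xu L u e w + e := by
    intro w
    unfold xu
    field_simp
    ring
  have e2 : ∀ w, L.derivWeierstrassP w = 2 * u ^ 3 * yu L u w := by
    intro w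
    unfold yu
    field_simp
  rw [e1 (z + Y), e1 z, e1 Y, e2 z, e2 Y, ← hxdef, ← hydef] at hadd
  have k1 := c4 z hzL
  have k2 := c4 Y hYL
  rw [← hxdef, ← hydef] at k1
  have hD1 : (1 - su L u e Y * x) ^ 2 ≠ 0 := by
    intro h
    have := d1 Y hY
    simp only [h, map_zero] at this
    exact zero_ne_one this
  show xu L u e (z + Y) = _ * ((1 - su L u e Y * x) ^ 2)⁻¹
  rw [eq_mul_inv_iff_mul_eq₀ hD1]
  unfold su ru
  set X' := xu L u e Y with hX'
  set Y' := yu L u Y with hY'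
  set W := xu L u e (z + Y) with hW
  have hm : (2 * u ^ 3 * y - 2 * u ^ 3 * Y') / (2 * (u ^ 2 * x + e - (u ^ 2 * X' + e))) =
      u * ((y - Y') / (x - X')) := by
    have : u ^ 2 * x + e - (u ^ 2 * X' + e) = u ^ 2 * (x - X') := by ring
    rw [this]
    field_simp
  rw [hm] at hadd
  have k3 : (W + x + X' - (1 + lam)) * (x - X') ^ 2 = (y - Y') ^ 2 := by
    have h6 : u ^ 2 * ((W + x + X' - (1 + lam)) * (x - X') ^ 2) = u ^ 2 * (y - Y') ^ 2 := by
      have h7 : u ^ 2 * (W + x + X' - (1 + lam)) = (u * ((y - Y') / (x - X'))) ^ 2 := by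
        linear_combination hadd - c1
      calc u ^ 2 * ((W + x + X' - (1 + lam)) * (x - X') ^ 2)
          = (u ^ 2 * (W + x + X' - (1 + lam))) * (x - X') ^ 2 := by ring
        _ = (u * ((y - Y') / (x - X'))) ^ 2 * (x - X') ^ 2 := by rw [h7]
        _ = u ^ 2 * (y - Y') ^ 2 := by field_simp
    exact mul_left_cancel₀ (pow_ne_zero 2 hu) h6
  field_simp
  linear_combination k3 + k1 + k2

end

end Pool.Agent.OBE


end

section

/-!
# OB, block E, module ALG: the ring of the functions `A(s) + r B(s)` (port of helper86's `NS/F_ALG.lean`)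
-/

set_option autoImplicit false

open Polynomial

namespace Pool.Agent.OBE

open _root_.MU3 _root_.Pool.Agent.MU3A _root_.Pool.Agent.MU3B _root_.Pool.Agent.MUX _root_.Pool.Agent.MUXU _root_.Pool.Agent.MUXE
open _root_.Pool.Agent.RI _root_.Pool.Agent.NS _root_.Pool.Agent.OB
open _root_.Pool.Agent.MUXV (GR InK tX)
open _root_.Pool.Agent.NSE (su ru WL IntP)

noncomputable section

namespace ALG

variable {V : ValuationSubring ℂ}

lemma lift {P : ℂ[X]} (h : IntP V P) : ∃ P' : V[X], P'.map V.subtype = P := by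
  have h1 : P ∈ Polynomial.lifts V.subtype := by
    rw [Polynomial.lifts_iff_coeff_lifts]
    intro n
    exact ⟨⟨P.coeff n, (V.valuation_le_one_iff _).mp (h n)⟩, rfl⟩
  exact (Polynomial.mem_lifts _).mp h1

lemma ofMap (P' : V[X]) : IntP V (P'.map V.subtype) := by
  intro i
  rw [coeff_map]
  exact V.valuation_le_one _

lemma add {P Q : ℂ[X]} (hP : IntP V P) (hQ : IntP V Q) : IntP V (P + Q) := by
  obtain ⟨P', rfl⟩ := lift hP
  obtain ⟨Q', rfl⟩ := lift hQ
  rw [← Polynomial.map_add]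
  exact ofMap _

lemma mul {P Q : ℂ[X]} (hP : IntP V P) (hQ : IntP V Q) : IntP V (P * Q) := by
  obtain ⟨P', rfl⟩ := lift hP
  obtain ⟨Q', rfl⟩ := lift hQ
  rw [← Polynomial.map_mul]
  exact ofMap _

lemma sub {P Q : ℂ[X]} (hP : IntP V P) (hQ : IntP V Q) : IntP V (P - Q) := by
  obtain ⟨P', rfl⟩ := lift hP
  obtain ⟨Q', rfl⟩ := lift hQ
  rw [← Polynomial.map_sub]
  exact ofMap _

lemma iC {c : ℂ} (hc : V.valuation c ≤ 1) : IntP V (C c) := by
  intro i
  rw [coeff_C]
  split_ifs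
  · exact hc
  · rw [map_zero]
    exact zero_le'

lemma iX : IntP V (X : ℂ[X]) := by
  intro i
  rw [coeff_X]
  split_ifs
  · rw [map_one]
  · rw [map_zero]
    exact zero_le'

lemma iprod {ι : Type*} (T : Finset ι) (F : ι → ℂ[X]) (h : ∀ i ∈ T, IntP V (F i)) :
    IntP V (∏ i ∈ T, F i) := by
  classical
  induction T using Finset.induction_on with
  | empty =>
    have h1 : IntP V (C (1 : ℂ)) := iC (by rw [map_one])
    simpa using h1
  | insert a T ha ih =>
    rw [Finset.prod_insert ha]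
    exact mul (h a (Finset.mem_insert_self _ _))
      (ih fun i hi => h i (Finset.mem_insert_of_mem hi))

lemma idivX {P : ℂ[X]} (hP : IntP V P) : IntP V P.divX := by
  intro i
  rw [coeff_divX]
  exact hP _

lemma ev {P : ℂ[X]} (hP : IntP V P) {x : ℂ} (hx : V.valuation x ≤ 1) :
    V.valuation (P.eval x) ≤ 1 := by
  obtain ⟨P', rfl⟩ := lift hP
  obtain ⟨x', rfl⟩ : ∃ x' : V, V.subtype x' = x :=
    ⟨⟨x, (V.valuation_le_one_iff _).mp hx⟩, rfl⟩
  rw [Polynomial.eval_map_apply]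
  exact V.valuation_le_one _

lemma ev0 (P : ℂ[X]) (x : ℂ) : P.eval x - P.coeff 0 = P.divX.eval x * x := by
  have h1 := congrArg (fun R : ℂ[X] => R.eval x) (Polynomial.divX_mul_X_add P)
  simp only [eval_add, eval_mul, eval_X, eval_C] at h1
  rw [← h1]
  ring

lemma evs {P : ℂ[X]} (hP : IntP V P) {x : ℂ} (hx : V.valuation x < 1) :
    V.valuation (P.eval x - P.coeff 0) < 1 := by
  rw [ev0, map_mul]
  calc V.valuation (P.divX.eval x) * V.valuation x ≤ 1 * V.valuation x :=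
        mul_le_mul_left (ev (idivX hP) hx.le) _
    _ < 1 := by rw [one_mul]; exact hx

lemma vanish {d : ℕ} {P : ℂ[X]} (hP : IntP V P) (t : Fin d → ℂ) (ht : ∀ i, V.valuation (t i) ≤ 1)
    (hinj : Function.Injective t) (h0 : ∀ i, P.eval (t i) = 0) :
    V.valuation (P.coeff 0) ≤ V.valuation (∏ i, t i) := by
  classical
  obtain ⟨P', rfl⟩ := lift hP
  by_cases hz : P' = 0
  · subst hz
    simp
  have ht2 : ∀ i, t i ∈ V := fun i => (V.valuation_le_one_iff _).mp (ht i)
  let t' : Fin d → V := fun i => ⟨t i, ht2 i⟩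
  have hi2 : Function.Injective t' := by
    intro i j hij
    exact hinj (congrArg Subtype.val hij)
  have h2 : ∀ i, P'.eval (t' i) = 0 := by
    intro i
    have h3 : (P'.map V.subtype).eval (V.subtype (t' i)) = 0 := h0 i
    rw [Polynomial.eval_map_apply] at h3
    exact (map_eq_zero_iff V.subtype V.subtype_injective).mp h3
  have h4 : (Finset.univ.val.map t') ≤ P'.roots := by
    rw [Multiset.le_iff_subset (Finset.univ.nodup.map hi2)]
    intro x hx
    obtain ⟨i, -, rfl⟩ := Multiset.mem_map.mp hx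
    exact (mem_roots hz).mpr (h2 i)
  obtain ⟨Q, hQ⟩ := (Multiset.prod_X_sub_C_dvd_iff_le_roots hz _).mpr h4
  have h5 : P'.coeff 0 = (∏ i, (0 - t' i)) * Q.eval 0 := by
    rw [Polynomial.coeff_zero_eq_eval_zero, hQ, eval_mul]
    congr 1
    rw [Multiset.map_map]
    have h6 : (Multiset.map ((fun a : V => (X - C a : V[X])) ∘ t') Finset.univ.val).prod =
        ∏ i, (X - C (t' i)) := rfl
    rw [h6, eval_prod]
    simp
  rw [coeff_map, h5, map_mul, map_mul]
  have h7 : V.valuation (V.subtype (∏ i, (0 - t' i))) = V.valuation (∏ i, t i) := by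
    rw [map_prod, map_prod, map_prod]
    refine Finset.prod_congr rfl fun i _ => ?_
    rw [map_sub, map_zero, zero_sub, Valuation.map_neg]
    rfl
  rw [h7]
  calc V.valuation (∏ i, t i) * V.valuation (V.subtype (Q.eval 0))
      ≤ V.valuation (∏ i, t i) * 1 := mul_le_mul_right (V.valuation_le_one _) _
    _ = _ := mul_one _

/-! ### the ring without the numbers -/

/-- represented by some polynomials -/
def RE (V : ValuationSubring ℂ) (S : Set ℂ) (s r F : ℂ → ℂ) : Prop :=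
  ∃ P Q : ℂ[X], IntP V P ∧ IntP V Q ∧ ∀ Y ∈ S, F Y = P.eval (s Y) + r Y * Q.eval (s Y)

variable {p : ℕ} {S : Set ℂ} {s r : ℂ → ℂ} {a2 a4 : ℂ}

lemma vle (hp : PtsO p V S s r a2 a4) {x y : ℂ} (hx : V.valuation x ≤ V.valuation (p : ℂ))
    (hy : V.valuation y ≤ V.valuation (p : ℂ)) : V.valuation (x + y) ≤ V.valuation (p : ℂ) :=
  (V.valuation.map_add _ _).trans (max_le hx hy)

lemma unit (hp : PtsO p V S s r a2 a4) {Y : ℂ} (hY : Y ∈ S) :
    V.valuation (1 + a2 * s Y + a4 * s Y ^ 2) = 1 := by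
  have hs := (hp.vs Y hY).2
  have h1 : V.valuation (a2 * s Y + a4 * s Y ^ 2) < 1 := by
    refine (V.valuation.map_add _ _).trans_lt (max_lt ?_ ?_)
    · rw [map_mul]
      calc _ ≤ 1 * V.valuation (s Y) := mul_le_mul_left hp.i2 _
        _ < 1 := by rw [one_mul]; exact hs
    · rw [map_mul, map_pow]
      calc _ ≤ 1 * V.valuation (s Y) ^ 2 := mul_le_mul_left hp.i4 _
        _ < 1 := by rw [one_mul]; exact pow_lt_one₀ zero_le' hs two_ne_zero
  have h2 : V.valuation (1 + (a2 * s Y + a4 * s Y ^ 2)) = 1 := by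
    rw [Valuation.map_add_eq_of_lt_left, map_one]
    rw [map_one]
    exact h1
  rw [← h2]
  congr 1
  ring

lemma vr (hp : PtsO p V S s r a2 a4) {Y : ℂ} (hY : Y ∈ S) : r Y ≠ 0 ∧ V.valuation (r Y) < 1 := by
  have hs := hp.vs Y hY
  have h1 : V.valuation (r Y) ^ 2 = V.valuation (s Y) := by
    rw [← map_pow, hp.eq Y hY, map_mul, unit hp hY, mul_one]
  constructor
  · intro h2
    rw [h2, map_zero] at h1
    have h3 : V.valuation (s Y) = 0 := by rw [← h1]; simp
    exact hs.1 ((map_eq_zero V.valuation).mp h3)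
  · by_contra h2
    rw [not_lt] at h2
    have h3 : 1 ≤ V.valuation (r Y) ^ 2 := one_le_pow₀ h2
    rw [h1] at h3
    exact absurd hs.2 (not_lt.mpr h3)

lemma REconst {c : ℂ} (hc : V.valuation c ≤ 1) : RE V S s r (fun _ => c) := by
  refine ⟨C c, 0, iC hc, ?_, ?_⟩
  · intro i
    simp
  · intro Y _
    simp

lemma REadd {F G : ℂ → ℂ} (hF : RE V S s r F) (hG : RE V S s r G) :
    RE V S s r (fun Y => F Y + G Y) := by
  obtain ⟨P, Q, hP, hQ, h1⟩ := hF
  obtain ⟨P', Q', hP', hQ', h2⟩ := hG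
  refine ⟨P + P', Q + Q', add hP hP', add hQ hQ', fun Y hY => ?_⟩
  simp only [h1 Y hY, h2 Y hY, eval_add]
  ring

/-- the polynomial `X (1 + a₂ X + a₄ X²)` -/
def fX (a2 a4 : ℂ) : ℂ[X] := X * (C 1 + C a2 * X + C a4 * (X * X))

lemma ifX (h2 : V.valuation a2 ≤ 1) (h4 : V.valuation a4 ≤ 1) : IntP V (fX a2 a4) := by
  have h1 : V.valuation (1 : ℂ) ≤ 1 := by rw [map_one]
  exact mul iX (add (add (iC h1) (mul (iC h2) iX)) (mul (iC h4) (mul iX iX)))

lemma mulForm (hp : PtsO p V S s r a2 a4) {F G : ℂ → ℂ} {P Q P' Q' : ℂ[X]}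
    (h1 : ∀ Y ∈ S, F Y = P.eval (s Y) + r Y * Q.eval (s Y))
    (h2 : ∀ Y ∈ S, G Y = P'.eval (s Y) + r Y * Q'.eval (s Y)) :
    ∀ Y ∈ S, F Y * G Y = (P * P' + fX a2 a4 * (Q * Q')).eval (s Y) +
      r Y * (P * Q' + P' * Q).eval (s Y) := by
  intro Y hY
  have h3 := hp.eq Y hY
  rw [h1 Y hY, h2 Y hY]
  simp only [fX, eval_add, eval_mul, eval_X, eval_C]
  linear_combination (Q.eval (s Y) * Q'.eval (s Y)) * h3

lemma REmul (hp : PtsO p V S s r a2 a4) {F G : ℂ → ℂ} (hF : RE V S s r F) (hG : RE V S s r G) :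
    RE V S s r (fun Y => F Y * G Y) := by
  obtain ⟨P, Q, hP, hQ, h1⟩ := hF
  obtain ⟨P', Q', hP', hQ', h2⟩ := hG
  exact ⟨_, _, add (mul hP hP') (mul (ifX hp.i2 hp.i4) (mul hQ hQ')),
    add (mul hP hQ') (mul hP' hQ), mulForm hp h1 h2⟩

lemma REpow (hp : PtsO p V S s r a2 a4) {F : ℂ → ℂ} (hF : RE V S s r F) (n : ℕ) :
    RE V S s r (fun Y => F Y ^ n) := by
  induction n with
  | zero =>
    simp only [pow_zero]
    exact REconst (by rw [map_one])
  | succ n ih =>
    simp only [pow_succ]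
    exact REmul hp ih hF

lemma REpoly (hp : PtsO p V S s r a2 a4) {F : ℂ → ℂ} (hF : RE V S s r F) (G : ℂ[X])
    (hG : IntP V G) : RE V S s r (fun Y => G.eval (F Y)) := by
  have h1 : ∀ T : Finset ℕ, RE V S s r (fun Y => ∑ i ∈ T, G.coeff i * F Y ^ i) := by
    intro T
    classical
    induction T using Finset.induction_on with
    | empty =>
      simp only [Finset.sum_empty]
      exact REconst (by rw [map_zero]; exact zero_le')
    | insert a T ha ih =>
      simp only [Finset.sum_insert ha]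
      exact REadd (REmul hp (REconst (hG a)) (REpow hp hF a)) ih
  have h2 := h1 (Finset.range (G.natDegree + 1))
  obtain ⟨P, Q, hP, hQ, h3⟩ := h2
  refine ⟨P, Q, hP, hQ, fun Y hY => ?_⟩
  rw [← h3 Y hY]
  exact Polynomial.eval_eq_sum_range _

/-- the inverse -/
lemma REinv (hp : PtsO p V S s r a2 a4) {F : ℂ → ℂ} (hF : RE V S s r F)
    (h1 : ∀ Y ∈ S, V.valuation (F Y) = 1) : RE V S s r (fun Y => (F Y)⁻¹) := by
  classical
  have hfin : (F '' S).Finite := by
    obtain ⟨P, Q, -, -, h2⟩ := hF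
    have h3 : F '' S = (fun q : ℂ × ℂ => P.eval q.1 + q.2 * Q.eval q.1) ''
        ((fun Y => (s Y, r Y)) '' S) := by
      rw [Set.image_image]
      exact Set.image_congr fun Y hY => h2 Y hY
    rw [h3]
    exact hp.fin.image _
  set T := hfin.toFinset with hT
  have hmem : ∀ w, w ∈ T ↔ ∃ Y ∈ S, F Y = w := by
    intro w
    rw [hT, Set.Finite.mem_toFinset]
    rfl
  set R : ℂ[X] := ∏ w ∈ T, (X - C w) with hR
  have iR : IntP V R := by
    refine iprod T _ fun w hw => ?_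
    obtain ⟨Y, hY, rfl⟩ := (hmem w).mp hw
    exact sub iX (iC (h1 Y hY).le)
  have hc : V.valuation (R.coeff 0) = 1 := by
    rw [Polynomial.coeff_zero_eq_eval_zero, hR, eval_prod, map_prod]
    refine Finset.prod_eq_one fun w hw => ?_
    obtain ⟨Y, hY, rfl⟩ := (hmem w).mp hw
    simp only [eval_sub, eval_X, eval_C, zero_sub, Valuation.map_neg]
    exact h1 Y hY
  have hc0 : R.coeff 0 ≠ 0 := by
    intro h2
    rw [h2, map_zero] at hc
    exact zero_ne_one hc
  have hz : ∀ Y ∈ S, R.eval (F Y) = 0 := by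
    intro Y hY
    rw [hR, eval_prod]
    refine Finset.prod_eq_zero ((hmem _).mpr ⟨Y, hY, rfl⟩) ?_
    simp
  have hci : V.valuation (-(R.coeff 0)⁻¹) ≤ 1 := by
    rw [Valuation.map_neg, map_inv₀, hc, inv_one]
  obtain ⟨P, Q, hP, hQ, h3⟩ := REpoly hp hF (C (-(R.coeff 0)⁻¹) * R.divX)
    (mul (iC hci) (idivX iR))
  refine ⟨P, Q, hP, hQ, fun Y hY => ?_⟩
  rw [← h3 Y hY]
  have h4 := ev0 R (F Y)
  rw [hz Y hY] at h4
  have hF0 : F Y ≠ 0 := by
    intro h5
    have h6 := h1 Y hY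
    rw [h5, map_zero] at h6
    exact zero_ne_one h6
  simp only [eval_mul, eval_C]
  field_simp
  linear_combination -h4

lemma toRE {F : ℂ → ℂ} {α β : ℂ} (h : RepO p V S s r F α β) : RE V S s r F := by
  obtain ⟨P, Q, hP, hQ, h1, -⟩ := h
  exact ⟨P, Q, hP, hQ, h1⟩

lemma toRep {F : ℂ → ℂ} (h : RE V S s r F) : ∃ α β : ℂ, RepO p V S s r F α β := by
  obtain ⟨P, Q, hP, hQ, h1⟩ := h
  refine ⟨P.coeff 0, Q.coeff 0, P, Q, hP, hQ, h1, ?_, ?_⟩ <;>
  · rw [sub_self, map_zero]
    exact zero_le'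

lemma ints (hp : PtsO p V S s r a2 a4) {F : ℂ → ℂ} {α β : ℂ} (h : RepO p V S s r F α β) :
    V.valuation α ≤ 1 ∧ V.valuation β ≤ 1 ∧ ∀ Y ∈ S, V.valuation (F Y - α) < 1 := by
  obtain ⟨P, Q, hP, hQ, h1, h2, h3⟩ := h
  have aux : ∀ x y : ℂ, V.valuation x ≤ 1 → V.valuation (x - y) ≤ V.valuation (p : ℂ) →
      V.valuation y ≤ 1 := by
    intro x y hx hxy
    have h4 : y = x + -(x - y) := by ring
    rw [h4]
    refine (V.valuation.map_add _ _).trans (max_le hx ?_)
    rw [Valuation.map_neg]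
    exact hxy.trans hp.vp.le
  refine ⟨aux _ _ (hP 0) h2, aux _ _ (hQ 0) h3, fun Y hY => ?_⟩
  have h4 : F Y - α = (P.eval (s Y) - P.coeff 0) + ((P.coeff 0 - α) + r Y * Q.eval (s Y)) := by
    rw [h1 Y hY]
    ring
  have hs := (hp.vs Y hY).2
  rw [h4]
  refine (V.valuation.map_add _ _).trans_lt (max_lt (evs hP hs) ?_)
  refine (V.valuation.map_add _ _).trans_lt (max_lt (h2.trans_lt hp.vp) ?_)
  rw [map_mul]
  calc _ ≤ V.valuation (r Y) * 1 := mul_le_mul_right (ev hQ hs.le) _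
    _ < 1 := by rw [mul_one]; exact (vr hp hY).2

lemma uniq (hp : PtsO p V S s r a2 a4) {F : ℂ → ℂ} {α β α' β' : ℂ} (h : RepO p V S s r F α β)
    (h' : RepO p V S s r F α' β') : V.valuation (α - α') ≤ V.valuation (p : ℂ) ∧
      V.valuation (β - β') ≤ V.valuation (p : ℂ) := by
  obtain ⟨P, Q, hP, hQ, h1, h2, h3⟩ := h
  obtain ⟨P', Q', hP', hQ', h1', h2', h3'⟩ := h'
  obtain ⟨d, y, hyS, hinj, hprod⟩ := hp.big
  have key : ∀ Y ∈ S, (P - P').eval (s Y) = 0 ∧ (Q - Q').eval (s Y) = 0 := by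
    intro Y hY
    obtain ⟨Y', hY', hs', hr'⟩ := hp.neg Y hY
    have e1 := h1 Y hY
    have e2 := h1' Y hY
    have e3 := h1 Y' hY'
    have e4 := h1' Y' hY'
    rw [hs', hr'] at e3 e4
    have hr0 := (vr hp hY).1
    constructor
    · rw [eval_sub]
      linear_combination (1 / 2) * (e2 - e1) + (1 / 2) * (e4 - e3)
    · rw [eval_sub]
      have h5 : r Y * (Q.eval (s Y) - Q'.eval (s Y)) = 0 := by
        linear_combination (1 / 2) * (e2 - e1) - (1 / 2) * (e4 - e3)
      exact (mul_eq_zero.mp h5).resolve_left hr0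
  have van : ∀ R : ℂ[X], IntP V R → (∀ Y ∈ S, R.eval (s Y) = 0) →
      V.valuation (R.coeff 0) ≤ V.valuation (p : ℂ) := by
    intro R hR h0
    exact (vanish hR (fun i => s (y i)) (fun i => (hp.vs _ (hyS i)).2.le) hinj
      fun i => h0 _ (hyS i)).trans hprod
  have v1 := van _ (sub hP hP') fun Y hY => (key Y hY).1
  have v2 := van _ (sub hQ hQ') fun Y hY => (key Y hY).2
  rw [coeff_sub] at v1 v2
  constructor
  · have e : α - α' = ((P.coeff 0 - P'.coeff 0) + -(P.coeff 0 - α)) + (P'.coeff 0 - α') := by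
      ring
    rw [e]
    refine vle hp (vle hp v1 ?_) h2'
    rw [Valuation.map_neg]
    exact h2
  · have e : β - β' = ((Q.coeff 0 - Q'.coeff 0) + -(Q.coeff 0 - β)) + (Q'.coeff 0 - β') := by
      ring
    rw [e]
    refine vle hp (vle hp v2 ?_) h3'
    rw [Valuation.map_neg]
    exact h3

lemma vmul {x y : ℂ} (hx : V.valuation x ≤ 1) (hy : V.valuation y ≤ V.valuation (p : ℂ)) :
    V.valuation (x * y) ≤ V.valuation (p : ℂ) := by
  rw [map_mul]
  calc _ ≤ 1 * V.valuation y := mul_le_mul_left hx _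
    _ ≤ _ := by rw [one_mul]; exact hy

lemma mulR (hp : PtsO p V S s r a2 a4) {F G : ℂ → ℂ} {α β α' β' : ℂ} (h : RepO p V S s r F α β)
    (h' : RepO p V S s r G α' β') :
    RepO p V S s r (fun Y => F Y * G Y) (α * α') (α * β' + α' * β) := by
  have hi := ints hp h
  have hi' := ints hp h'
  obtain ⟨P, Q, hP, hQ, h1, h2, h3⟩ := h
  obtain ⟨P', Q', hP', hQ', h1', h2', h3'⟩ := h'
  refine ⟨_, _, add (mul hP hP') (mul (ifX hp.i2 hp.i4) (mul hQ hQ')),
    add (mul hP hQ') (mul hP' hQ), mulForm hp h1 h1', ?_, ?_⟩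
  · have e : (P * P' + fX a2 a4 * (Q * Q')).coeff 0 - α * α' =
        P'.coeff 0 * (P.coeff 0 - α) + α * (P'.coeff 0 - α') := by
      simp only [fX, coeff_add, mul_coeff_zero, coeff_X_zero]
      ring
    rw [e]
    exact vle hp (vmul (hP' 0) h2) (vmul hi.1 h2')
  · have e : (P * Q' + P' * Q).coeff 0 - (α * β' + α' * β) =
        (Q'.coeff 0 * (P.coeff 0 - α) + α * (Q'.coeff 0 - β')) +
          (Q.coeff 0 * (P'.coeff 0 - α') + α' * (Q.coeff 0 - β)) := by
      simp only [coeff_add, mul_coeff_zero]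
      ring
    rw [e]
    exact vle hp (vle hp (vmul (hQ' 0) h2) (vmul hi.1 h3'))
      (vle hp (vmul (hQ 0) h2') (vmul hi'.1 h3))

end ALG

theorem tb_ALG : Sb_ALG := by
  intro p V S s r a2 a4 hp
  have hz : V.valuation (0 : ℂ) ≤ V.valuation (p : ℂ) := by
    rw [map_zero]
    exact zero_le'
  have i0 : IntP V (0 : ℂ[X]) := by
    intro i
    simp
  have i1 : IntP V (1 : ℂ[X]) := by
    have h1 : IntP V (C (1 : ℂ)) := ALG.iC (by rw [map_one])
    simpa using h1
  have hconst : ∀ c, V.valuation c ≤ 1 → RepO p V S s r (fun _ => c) c 0 := by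
    intro c hc
    refine ⟨C c, 0, ALG.iC hc, i0, fun Y _ => by simp, ?_, ?_⟩
    · simp
    · simp
  have hweak : ∀ (F G : ℂ → ℂ) (α β α' β' : ℂ), RepO p V S s r F α β → (∀ Y ∈ S, G Y = F Y) →
      V.valuation (α' - α) ≤ V.valuation (p : ℂ) → V.valuation (β' - β) ≤ V.valuation (p : ℂ) →
      RepO p V S s r G α' β' := by
    intro F G α β α' β' h hG hα hβ
    obtain ⟨P, Q, hP, hQ, h1, h2, h3⟩ := h
    refine ⟨P, Q, hP, hQ, fun Y hY => by rw [hG Y hY, h1 Y hY], ?_, ?_⟩
    · have e : P.coeff 0 - α' = (P.coeff 0 - α) + -(α' - α) := by ring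
      rw [e]
      refine ALG.vle hp h2 ?_
      rw [Valuation.map_neg]
      exact hα
    · have e : Q.coeff 0 - β' = (Q.coeff 0 - β) + -(β' - β) := by ring
      rw [e]
      refine ALG.vle hp h3 ?_
      rw [Valuation.map_neg]
      exact hβ
  refine ⟨hconst, ?_, ?_, hweak, ?_, ?_, ?_, ?_, ?_⟩
  · refine ⟨X, 0, ALG.iX, i0, fun Y _ => by simp, ?_, ?_⟩
    · simp
    · simp
  · refine ⟨0, 1, i0, i1, fun Y _ => by simp, ?_, ?_⟩
    · simp
    · simp
  · intro F G α β α' β' h h'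
    obtain ⟨P, Q, hP, hQ, h1, h2, h3⟩ := h
    obtain ⟨P', Q', hP', hQ', h1', h2', h3'⟩ := h'
    refine ⟨P + P', Q + Q', ALG.add hP hP', ALG.add hQ hQ', fun Y hY => ?_, ?_, ?_⟩
    · simp only [h1 Y hY, h1' Y hY, eval_add]
      ring
    · have e : (P + P').coeff 0 - (α + α') = (P.coeff 0 - α) + (P'.coeff 0 - α') := by
        rw [coeff_add]
        ring
      rw [e]
      exact ALG.vle hp h2 h2'
    · have e : (Q + Q').coeff 0 - (β + β') = (Q.coeff 0 - β) + (Q'.coeff 0 - β') := by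
        rw [coeff_add]
        ring
      rw [e]
      exact ALG.vle hp h3 h3'
  · intro F G α β α' β' h h'
    exact ALG.mulR hp h h'
  · intro F α β h hα
    have hi := ALG.ints hp h
    have hα0 : α ≠ 0 := by
      intro h2
      rw [h2, map_zero] at hα
      exact zero_ne_one hα
    have hαi : V.valuation α⁻¹ = 1 := by rw [map_inv₀, hα, inv_one]
    have hu : ∀ Y ∈ S, V.valuation (F Y) = 1 := by
      intro Y hY
      have h2 := hi.2.2 Y hY
      have h3 : F Y = α + (F Y - α) := by ring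
      rw [h3, Valuation.map_add_eq_of_lt_left]
      · exact hα
      · rw [hα]
        exact h2
    refine ⟨hu, ?_⟩
    obtain ⟨α₁, β₁, h4⟩ := ALG.toRep (ALG.REinv hp (ALG.toRE h) hu)
    have h5 := ALG.mulR hp h h4
    have h6 : RepO p V S s r (fun Y => F Y * (F Y)⁻¹) 1 0 := by
      refine hweak _ _ _ _ _ _ (hconst 1 (by rw [map_one])) (fun Y hY => ?_) ?_ ?_
      · have h7 : F Y ≠ 0 := by
          intro h8
          have h9 := hu Y hY
          rw [h8, map_zero] at h9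
          exact zero_ne_one h9
        exact mul_inv_cancel₀ h7
      · simp
      · simp
    obtain ⟨h7, h8⟩ := ALG.uniq hp h5 h6
    rw [sub_zero] at h8
    have h9 : V.valuation (α⁻¹ - α₁) ≤ V.valuation (p : ℂ) := by
      have e : α⁻¹ - α₁ = -α⁻¹ * (α * α₁ - 1) := by
        field_simp
        ring
      rw [e]
      refine ALG.vmul ?_ h7
      rw [Valuation.map_neg, hαi]
    refine hweak _ _ _ _ _ _ h4 (fun Y _ => rfl) h9 ?_
    have e : -β / α ^ 2 - β₁ = (-α⁻¹) * (α * β₁ + α₁ * β) + (-α⁻¹ * β) * (α⁻¹ - α₁) := by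
      field_simp
      ring
    rw [e]
    refine ALG.vle hp (ALG.vmul ?_ h8) (ALG.vmul ?_ h9)
    · rw [Valuation.map_neg, hαi]
    · rw [map_mul, Valuation.map_neg, hαi, one_mul]
      exact hi.2.1
  · intro F α β h
    exact ALG.ints hp h
  · intro F α β α' β' h h'
    exact ALG.uniq hp h h'

end

end Pool.Agent.OBE


end

section

/-!
# OB, block E, module CAL: a uniformiser of `P` which is prime to the other primes above `p`
-/

set_option autoImplicit false

open Polynomial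

namespace Pool.Agent.OBE

open _root_.MU3 _root_.Pool.Agent.MU3A _root_.Pool.Agent.MU3B _root_.Pool.Agent.MUX _root_.Pool.Agent.MUXU _root_.Pool.Agent.MUXE
open _root_.Pool.Agent.RI _root_.Pool.Agent.NS _root_.Pool.Agent.OB
open _root_.Pool.Agent.MUXV (GR InK tX)
open _root_.Pool.Agent.NSE (su ru WL IntP)

noncomputable section

/-- (CAL) a uniformiser `al` of `P` which is prime to the other primes above `p`. -/
theorem tb_CAL (hcfa : Sb_CFA) : Sb_CAL := by
  intro p er A B P V hC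
  obtain ⟨hne, hmax, -, -, hcnl, -, -, hQ⟩ := hcfa p er A B P V hC
  have hcq := hC.cq
  have hded : IsDedekindDomain (OO A B) := (te_RNG A B hcq).ded
  have hdom : IsDomain (OO A B) := Pool.Agent.MUX.isDomain hcq
  -- a uniformiser
  have hnle : ¬ P ≤ P ^ 2 := by
    intro h
    have h1 : P * P = P * ⊤ := by
      rw [← pow_two, Ideal.mul_top]
      exact le_antisymm (Ideal.pow_le_self two_ne_zero) h
    exact hmax.ne_top (Pool.Agent.MUX.mul_cancel hcq hne h1)
  obtain ⟨π, hπ, hπ2⟩ := Set.not_subset.1 hnle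
  -- `P ^ 2` and `Pc P` are coprime
  have hco : IsCoprime (P ^ 2) (Pc P) := by
    apply IsCoprime.pow_left
    rw [Ideal.isCoprime_iff_sup_eq]
    by_contra h
    have h1 : P ⊔ Pc P = P := (hmax.eq_of_le h le_sup_left).symm
    exact hcnl (le_sup_right.trans h1.le)
  obtain ⟨a, ha, b, hb, hab⟩ := Ideal.isCoprime_iff_exists.1 hco
  have hP2 : P ^ 2 ≤ P := Ideal.pow_le_self two_ne_zero
  set al : OO A B := π * b + a with hal
  have hal1 : al - π ∈ P ^ 2 := by
    have e : al - π = (1 - π) * a := by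
      rw [hal]
      linear_combination π * hab
    rw [e]
    exact Ideal.mul_mem_left _ _ ha
  have hal2 : al - 1 ∈ Pc P := by
    have e : al - 1 = (π - 1) * b := by
      rw [hal]
      linear_combination hab
    rw [e]
    exact Ideal.mul_mem_left _ _ hb
  have halP : al ∈ P := by
    have e : al = (al - π) + π := by ring
    rw [e]
    exact P.add_mem (hP2 hal1) hπ
  have halP2 : al ∉ P ^ 2 := by
    intro h
    apply hπ2
    have e : π = al - (al - π) := by ring
    rw [e]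
    exact Ideal.sub_mem _ h hal1
  refine ⟨al, halP, halP2, ?_⟩
  -- the cofactor
  obtain ⟨c, hc⟩ := Ideal.dvd_iff_le.2 ((Ideal.span_singleton_le_iff_mem P).2 halP)
  have halc : al ∈ P * c := by
    rw [← hc]
    exact Ideal.mem_span_singleton_self _
  have htop : c ⊔ idl (A := A) (B := B) p = ⊤ := by
    by_contra h
    obtain ⟨M, hM, hle⟩ := Ideal.exists_le_maximal _ h
    have hpM : ((p : ℕ) : OO A B) ∈ M :=
      hle (Ideal.mem_sup_right (Ideal.mem_span_singleton_self _))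
    have hcM : c ≤ M := le_sup_left.trans hle
    rcases hQ M hM.isPrime hpM with h1 | h1
    · rw [h1] at hcM
      apply halP2
      rw [pow_two]
      exact Ideal.mul_mono_right hcM halc
    · apply hM.ne_top
      rw [Ideal.eq_top_iff_one]
      have h2 : al ∈ M := hcM (Ideal.mul_le_right halc)
      have h3 : al - 1 ∈ M := by
        rw [h1]
        exact hal2
      have e : (1 : OO A B) = al - (al - 1) := by ring
      rw [e]
      exact M.sub_mem h2 h3
  obtain ⟨c0, hc0, w, hw, hcw⟩ := Submodule.mem_sup.1 ((Ideal.eq_top_iff_one _).1 htop)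
  obtain ⟨t, ht⟩ := Ideal.mem_span_singleton'.1 hw
  have hst : star c0 = 1 - star t * ((p : ℕ) : OO A B) := by
    have h1 : c0 = 1 - t * ((p : ℕ) : OO A B) := by
      rw [ht]
      exact eq_sub_of_add_eq hcw
    rw [h1, star_sub, star_one, star_mul, star_natCast]
    ring
  have hnm := Pool.Agent.MUX.mul_star c0
  refine ⟨(nm c0).natAbs, ?_, ?_⟩
  · intro hdvd
    obtain ⟨s, hs⟩ := Int.natCast_dvd.2 hdvd
    rw [hs] at hnm
    have h1 : c0 = 1 - t * ((p : ℕ) : OO A B) := by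
      rw [ht]
      exact eq_sub_of_add_eq hcw
    have h2 : (1 : OO A B) = ((p : ℕ) : OO A B) *
        ((s : OO A B) + t + star t - t * star t * ((p : ℕ) : OO A B)) := by
      rw [hst, h1] at hnm
      push_cast at hnm
      linear_combination hnm
    apply hmax.ne_top
    rw [Ideal.eq_top_iff_one, h2]
    exact Ideal.mul_mem_right _ _ hC.mem
  · intro x hx
    have hN : (((nm c0).natAbs : ℕ) : OO A B) ∈ c := by
      have h1 : ((nm c0 : ℤ) : OO A B) ∈ c := by
        rw [← hnm]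
        exact Ideal.mul_mem_right _ _ hc0
      rcases Int.natAbs_eq (nm c0) with h2 | h2
      · rw [h2, Int.cast_natCast] at h1
        exact h1
      · rw [h2, Int.cast_neg, Int.cast_natCast] at h1
        exact neg_mem_iff.1 h1
    have h1 : (((nm c0).natAbs : ℕ) : OO A B) * x ∈ P * c := by
      rw [mul_comm _ x]
      exact Ideal.mul_mem_mul hx hN
    rw [← hc] at h1
    obtain ⟨y, hy⟩ := Ideal.mem_span_singleton'.1 h1
    exact ⟨y, by rw [← hy]; ring⟩

end

end Pool.Agent.OBE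


end

section

/-!
# OB, block E, module COE (helper26): the coefficients of the Legendre model

Port of `Pool/Agent/NS/F_COE.lean` (helper65) to all odd primes `p` with `v p < 1`.
-/

set_option autoImplicit false

open Polynomial

namespace Pool.Agent.OBE

open _root_.MU3 _root_.Pool.Agent.MU3A _root_.Pool.Agent.MU3B _root_.Pool.Agent.MUX _root_.Pool.Agent.MUXU _root_.Pool.Agent.MUXE
open _root_.Pool.Agent.RI _root_.Pool.Agent.NS _root_.Pool.Agent.OB
open _root_.Pool.Agent.MUXV (GR InK tX)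
open _root_.Pool.Agent.NSE (su ru WL IntP)

noncomputable section

namespace COE

lemma hasDeriv (L : PeriodPair) {z : ℂ} (hz : z ∉ L.lattice) :
    HasDerivAt L.weierstrassP (L.derivWeierstrassP z) z := by
  have h1 : DifferentiableAt ℂ L.weierstrassP z :=
    L.differentiableOn_weierstrassP.differentiableAt
      (L.isClosed_lattice.isOpen_compl.mem_nhds hz)
  have h2 := h1.hasDerivAt
  rwa [L.deriv_weierstrassP] at h2

lemma v_nat (V : ValuationSubring ℂ) (n : ℕ) : V.valuation (n : ℂ) ≤ 1 :=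
  (V.valuation_le_one_iff _).2 (natCast_mem V n)

lemma v_two {p : ℕ} {V : ValuationSubring ℂ} (h : Cp p V) : V.valuation (2 : ℂ) = 1 := by
  obtain ⟨k, hk⟩ := h.pp.odd_of_ne_two h.p2
  have hv1 : V.valuation (1 : ℂ) = 1 := map_one _
  have h5 : V.valuation ((-1 : ℂ) + (p : ℂ)) = V.valuation (-1 : ℂ) :=
    Valuation.map_add_eq_of_lt_left _ (by rw [Valuation.map_neg, hv1]; exact h.vp)
  rw [Valuation.map_neg, hv1] at h5
  have h6 : (-1 : ℂ) + (p : ℂ) = 2 * (k : ℂ) := by
    rw [hk]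
    push_cast
    ring
  rw [h6, map_mul] at h5
  have h2 : V.valuation (2 : ℂ) ≤ 1 := by
    have := v_nat V 2
    rwa [Nat.cast_ofNat] at this
  have hk1 := v_nat V k
  refine le_antisymm h2 ?_
  calc (1 : V.ValueGroup) = V.valuation (2 : ℂ) * V.valuation (k : ℂ) := h5.symm
    _ ≤ V.valuation (2 : ℂ) * 1 := mul_le_mul_right hk1 _
    _ = V.valuation (2 : ℂ) := mul_one _

end COE

open _root_.Pool.Agent.OBE.COE in
theorem tb_COE : Sb_COE := by
  intro p V L u e lam hp hG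
  have hu := hG.u0
  -- the polynomial identity
  have key : ∀ T : ℂ, 4 * T ^ 3 - L.g₂ * T - L.g₃ =
      4 * (T - e) * (T - e - u ^ 2) * (T - e - lam * u ^ 2) := by
    intro T
    obtain ⟨z, hz, hT⟩ := b_SUR L T
    have h1 := L.derivWeierstrassP_sq z hz
    have h2 := hG.eq z hz
    rw [← hT, ← h1]
    have h4 : L.derivWeierstrassP z ^ 2 =
        (L.derivWeierstrassP z / (2 * u ^ 3)) ^ 2 * (4 * u ^ 6) := by
      field_simp
      ring
    rw [h4, h2]
    field_simp
  have k0 := key 0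
  have k1 := key 1
  have k2 := key (-1)
  have a1 : 3 * e = -(1 + lam) * u ^ 2 := by
    have : 4 * (3 * e + (1 + lam) * u ^ 2) = 0 := by
      linear_combination (1 / 2 : ℂ) * k1 + (1 / 2 : ℂ) * k2 - k0
    have h5 : 3 * e + (1 + lam) * u ^ 2 = 0 := by
      rcases mul_eq_zero.1 this with h | h
      · norm_num at h
      · exact h
    linear_combination h5
  have a2 : L.g₂ = 4 * (3 * e ^ 2 - lam * u ^ 4) := by
    linear_combination (-1 / 2 : ℂ) * k1 + (1 / 2 : ℂ) * k2 - 8 * e * a1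
  have a3 : L.g₃ = 4 * e ^ 3 - L.g₂ * e := by
    linear_combination -k0 + 4 * e ^ 2 * a1 + e * a2
  have hl : V.valuation (1 + lam) ≤ 1 := by
    refine le_trans (V.valuation.map_add _ _) (max_le ?_ ?_)
    · rw [map_one]
    · rw [hG.vl]
  refine ⟨a1, a2, a3, v_two hp, hl, ?_, ?_, ?_⟩
  · intro z hz
    have h5 := hG.eq z hz
    show (L.derivWeierstrassP z / (2 * u ^ 3)) ^ 2 = _
    rw [h5]
    unfold xu
    ring
  · intro z hz
    have h5 := ((hasDeriv L hz).sub_const e).div_const (u ^ 2)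
    have h6 : L.derivWeierstrassP z / u ^ 2 = 2 * u * yu L u z := by
      unfold yu
      field_simp
    rw [h6] at h5
    exact h5
  · intro z
    refine ⟨fun w hw => ⟨?_, ?_⟩, ?_, ?_⟩
    · unfold xu
      rw [L.weierstrassP_add_coe z ⟨w, hw⟩]
    · unfold yu
      rw [L.derivWeierstrassP_add_coe z ⟨w, hw⟩]
    · unfold xu
      rw [L.weierstrassP_neg]
    · unfold yu
      rw [L.derivWeierstrassP_neg]
      ring

end

end Pool.Agent.OBE


end

section

/-!
# OB, block E (helper53): (DEG) the degree of `RF (P^(j+1) m')` over `RF m'`. Models: `MUX/E_DEG.lean`, `NS/F_DEG.lean`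
-/

set_option autoImplicit false

open Polynomial

namespace Pool.Agent.OBE

open _root_.MU3 _root_.Pool.Agent.MU3A _root_.Pool.Agent.MU3B _root_.Pool.Agent.MUX _root_.Pool.Agent.MUXU _root_.Pool.Agent.MUXE
open _root_.Pool.Agent.RI _root_.Pool.Agent.NS _root_.Pool.Agent.OB

noncomputable section

namespace DEG

lemma nI_top' {A B : ℤ} : nI (⊤ : Ideal (OO A B)) = 1 := by
  unfold nI
  have : Subsingleton (OO A B ⧸ (⊤ : Ideal (OO A B))) := Ideal.Quotient.subsingleton_iff.2 rfl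
  exact Nat.card_of_subsingleton 0

lemma nI_pow' {A B : ℤ} (hc : CQ A B) {c : Ideal (OO A B)} (hc0 : c ≠ ⊥) (j : ℕ) :
    c ^ j ≠ ⊥ ∧ nI (c ^ j) = nI c ^ j := by
  induction j with
  | zero =>
    rw [pow_zero, pow_zero, Ideal.one_eq_top]
    refine ⟨?_, nI_top'⟩
    intro h
    have h1 : (1 : OO A B) ∈ (⊤ : Ideal (OO A B)) := trivial
    rw [h, Ideal.mem_bot] at h1
    have := natCast_ne_zero' hc (n := 1) one_ne_zero
    rw [Nat.cast_one] at this
    exact this h1
  | succ j ih =>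
    rw [pow_succ, pow_succ]
    exact ⟨mul_ne_bot hc ih.1 hc0, by rw [nI_mul hc ih.1 hc0, ih.2]⟩

/-- the number of the classes modulo `P^(j+1)` of the elements outside `P` -/
lemma card_out {A B : ℤ} (hc : CQ A B) {P : Ideal (OO A B)} (hP : P ≠ ⊥) (j : ℕ) :
    Nat.card {y : OO A B ⧸ P ^ (j + 1) // ∀ x : OO A B, Ideal.Quotient.mk _ x = y → x ∉ P} ≤
      (nI P - 1) * nI P ^ j := by
  classical
  obtain ⟨h0, h1⟩ := nI_pow' hc hP (j + 1)
  haveI hfin : Finite (OO A B ⧸ P ^ (j + 1)) := finite_quot hc h0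
  haveI hfinP : Finite (OO A B ⧸ P) := finite_quot hc hP
  have hle : P ^ (j + 1) ≤ P := Ideal.pow_le_self (by omega)
  let φ : OO A B ⧸ P ^ (j + 1) →+* OO A B ⧸ P := Ideal.Quotient.factor hle
  have hφ : Function.Surjective φ := Ideal.Quotient.factor_surjective hle
  have hφm : ∀ x : OO A B, φ (Ideal.Quotient.mk _ x) = Ideal.Quotient.mk _ x := fun x => rfl
  let K : AddSubgroup (OO A B ⧸ P ^ (j + 1)) := φ.toAddMonoidHom.ker
  have hq : 0 < nI P := Nat.pos_of_ne_zero (nI_ne_zero hc hP)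
  have e1 : Nat.card (OO A B ⧸ P ^ (j + 1)) = nI P ^ (j + 1) := h1
  have e2 : Nat.card ((OO A B ⧸ P ^ (j + 1)) ⧸ K) = nI P :=
    Nat.card_congr (QuotientAddGroup.quotientKerEquivOfSurjective φ.toAddMonoidHom hφ).toEquiv
  have e3 : Nat.card (OO A B ⧸ P ^ (j + 1)) =
      Nat.card ((OO A B ⧸ P ^ (j + 1)) ⧸ K) * Nat.card K :=
    AddSubgroup.card_eq_card_quotient_mul_card_addSubgroup K
  have e4 : Nat.card K = nI P ^ j := by
    rw [e1, e2, pow_succ, mul_comm] at e3
    exact (Nat.eq_of_mul_eq_mul_left hq e3).symm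
  have e5 : Nat.card (OO A B ⧸ P ^ (j + 1)) = Nat.card K +
      Nat.card {y : OO A B ⧸ P ^ (j + 1) // y ∉ K} := by
    have h2 := Nat.card_congr (Equiv.sumCompl (fun y : OO A B ⧸ P ^ (j + 1) => y ∈ K))
    rw [Nat.card_sum] at h2
    exact h2.symm
  have e6 : Nat.card {y : OO A B ⧸ P ^ (j + 1) // y ∉ K} = (nI P - 1) * nI P ^ j := by
    rw [e1, e4] at e5
    rw [Nat.sub_mul, one_mul]
    have : nI P * nI P ^ j = nI P ^ (j + 1) := by rw [pow_succ, mul_comm]
    omega
  rw [← e6]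
  refine Nat.card_le_card_of_injective (fun y => ⟨y.1, ?_⟩) ?_
  · intro hy
    obtain ⟨x, hx⟩ := Ideal.Quotient.mk_surjective y.1
    apply y.2 x hx
    have h2 : φ y.1 = 0 := hy
    rw [← hx, hφm] at h2
    exact Ideal.Quotient.eq_zero_iff_mem.1 h2
  · intro y z h
    exact Subtype.ext (congrArg (fun w => w.1) h)

end DEG

open _root_.Pool.Agent.OBE.DEG in
theorem tb_DEG : Sb_DEG := by
  classical
  intro p er A B P V al hC hG j m' hm' hmP
  have hR := hC.ring
  have hcq := hC.cq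
  haveI := hR.ded
  obtain ⟨f1, -, f3, -, f5⟩ := te_FAC te_TRA A B hR
  -- ideals
  set m : Ideal (OO A B) := P ^ (j + 1) * m' with hm
  have hmm' : m ≤ m' := Ideal.mul_le_right
  have hmPj : m ≤ P ^ (j + 1) := Ideal.mul_le_left
  have hPjP : P ^ (j + 1) ≤ P := Ideal.pow_le_self (by omega)
  have hP0 : P ≠ ⊥ := hC.ne
  have hm0 : m ≠ ⊥ := mul_ne_bot hcq (nI_pow' hcq hP0 (j + 1)).1 hm'
  have hcop0 : P ⊔ m' = ⊤ := by
    by_contra h
    have h1 : P = P ⊔ m' := hC.max.eq_of_le h le_sup_left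
    exact hmP (le_sup_right.trans (le_of_eq h1.symm))
  have hcop : IsCoprime (P ^ (j + 1)) m' := (Ideal.isCoprime_iff_sup_eq.2 hcop0).pow_left
  have hinf : P ^ (j + 1) ⊓ m' = m := Ideal.inf_eq_mul_of_isCoprime hcop
  -- fields
  have hF : RF m' ≤ RF m := f1 m m' hmm'
  haveI := hG.fin m hm0
  haveI := hG.gal m hm0
  set E : IntermediateField (kk A B) (RF m) := IntermediateField.restrict hF with hE
  have e1 : Module.finrank (kk A B) (RF m') = Module.finrank (kk A B) E :=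
    (IntermediateField.restrictAlgEquiv hF).toLinearEquiv.finrank_eq
  have e2 : Module.finrank (kk A B) E * Module.finrank E (RF m) =
      Module.finrank (kk A B) (RF m) := Module.finrank_mul_finrank _ _ _
  have e3 : Nat.card E.fixingSubgroup = Module.finrank E (RF m) :=
    IsGalois.card_fixingSubgroup_eq_finrank E
  rw [← e2, ← e3, e1, mul_comm]
  refine Nat.mul_le_mul_right _ ?_
  -- the kernel
  have hker : ∀ σ : E.fixingSubgroup, ∃ α : OO A B, α - 1 ∈ m' ∧ ActE (em (σ : RF m ≃ₐ[kk A B] RF m)) m α := by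
    intro σ
    refine hG.ker m m' hm0 hmm' (em (σ : RF m ≃ₐ[kk A B] RF m)) ?_
    intro y hy hy'
    have h4 : (⟨y, hy⟩ : RF m) ∈ E := (IntermediateField.mem_restrict hF _).2 hy'
    have h5 := (IntermediateField.mem_fixingSubgroup_iff E _).1 σ.2 ⟨y, hy⟩ h4
    exact congrArg Subtype.val h5
  choose α hα1 hα2 using hker
  have hαP : ∀ σ, α σ ∉ P := by
    intro σ hσ
    have h4 := (hα2 σ).1
    have h5 : sp (α σ) ≤ P := (Ideal.span_singleton_le_iff_mem P).2 hσ
    have h6 : m ≤ P := hmPj.trans hPjP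
    have h7 : sp (α σ) ⊔ m = ⊤ := Ideal.isCoprime_iff_sup_eq.1 h4
    have h8 : (⊤ : Ideal (OO A B)) ≤ P := h7 ▸ sup_le h5 h6
    exact hC.prime.ne_top (top_le_iff.1 h8)
  have hinj : ∀ σ τ, α σ - α τ ∈ P ^ (j + 1) → σ = τ := by
    intro σ τ h
    have h4 : α σ - α τ ∈ m' := by
      have := sub_mem (hα1 σ) (hα1 τ)
      rwa [sub_sub_sub_cancel_right] at this
    have h5 : α σ - α τ ∈ m := hinf ▸ Ideal.mem_inf.2 ⟨h, h4⟩
    have h6 := f5 m (RF m) (em (σ : RF m ≃ₐ[kk A B] RF m)) (α σ) (α τ) (Or.inl h5) (hα2 σ)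
    have h7 := f3 m _ _ _ h6 (hα2 τ)
    apply Subtype.ext
    apply AlgEquiv.ext
    intro x
    apply Subtype.ext
    exact DFunLike.congr_fun h7 x
  haveI hfin : Finite (OO A B ⧸ P ^ (j + 1)) := finite_quot hcq (nI_pow' hcq hP0 (j + 1)).1
  refine le_trans ?_ (card_out hcq hP0 j)
  refine Nat.card_le_card_of_injective
    (fun σ => ⟨Ideal.Quotient.mk _ (α σ), ?_⟩) ?_
  · intro x hx hxP
    apply hαP σ
    have h4 : x - α σ ∈ P := hPjP ((Ideal.Quotient.mk_eq_mk_iff_sub_mem _ _).1 hx)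
    have h5 := sub_mem hxP h4
    rwa [sub_sub_cancel] at h5
  · intro σ τ h
    have h4 : Ideal.Quotient.mk (P ^ (j + 1)) (α σ) = Ideal.Quotient.mk (P ^ (j + 1)) (α τ) :=
      congrArg Subtype.val h
    exact hinj _ _ ((Ideal.Quotient.mk_eq_mk_iff_sub_mem _ _).1 h4)

end

end Pool.Agent.OBE


end

section

/-!
# OB, block E, module EXO: exact orders of the points of level `m = p^(n+1) f` (helper12)

Port of `Pool/Agent/NS/F_EXO.lean`.
-/

set_option autoImplicit false

namespace Pool.Agent.OBE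

open _root_.MU3 _root_.Pool.Agent.MU3A _root_.Pool.Agent.MU3B _root_.Pool.Agent.MUX
open _root_.Pool.Agent.MUXU _root_.Pool.Agent.MUXE
open _root_.Pool.Agent.RI _root_.Pool.Agent.NS _root_.Pool.Agent.OB
open _root_.Pool.Agent.NSE (su ru WL IntP)
open _root_.Pool.Agent.MUXV (GR InK tX)

noncomputable section

namespace EXO

lemma inj {A B : ℤ} (hR : RingE A B) (x y : OO A B) (h : emb x = emb y) : x = y := by
  obtain ⟨φ, hφ⟩ := hR.hom
  have h1 : emb (x - y) = 0 := by
    rw [← hφ, map_sub, hφ, hφ, h, sub_self]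
  exact sub_eq_zero.1 (hR.inj0 _ h1)

lemma nI_ne {A B : ℤ} (hR : RingE A B) (b : Ideal (OO A B)) (hb : b ≠ ⊥) :
    nI b ≠ 0 ∧ ((nI b : ℕ) : OO A B) ∈ b := by
  have := hR.ded
  refine ⟨?_, ?_⟩
  · change Ideal.absNorm b ≠ 0
    rw [Ne, Ideal.absNorm_eq_zero_iff]
    exact hb
  · change ((Ideal.absNorm b : ℕ) : OO A B) ∈ b
    exact Ideal.absNorm_mem b

lemma nat {A B : ℤ} (m k : ℕ) (h : ((m : ℕ) : OO A B) ∣ ((k : ℕ) : OO A B)) :
    m ∣ k := by
  obtain ⟨z, hz⟩ := h
  have h5 : (k : ℤ) = (m : ℤ) * z.re := by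
    have := congrArg QuadraticAlgebra.re hz
    simpa using this
  exact Int.natCast_dvd_natCast.1 ⟨z.re, h5⟩

lemma bez {A B : ℤ} {p a : ℕ} (hp : p.Prime) (ha : ¬ p ∣ a) :
    ∃ s t : ℤ, (s : ℂ) * a + t * p = 1 ∧ (s : OO A B) * (a : ℕ) + (t : OO A B) * (p : ℕ) = 1 := by
  have h1 : a.Coprime p := ((Nat.Prime.coprime_iff_not_dvd hp).2 ha).symm
  obtain ⟨s, t, hst⟩ := Nat.isCoprime_iff_coprime.2 h1
  refine ⟨s, t, by exact_mod_cast hst, ?_⟩
  have := congrArg (fun k : ℤ => (k : OO A B)) hst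
  push_cast at this
  exact this

end EXO

/-- (EXO) exact orders of the points of level `m = p^(n+1) f` -/
theorem tb_EXO : Sb_EXO := by
  intro p er A B P V al hC n f ι R hf hpf
  have hR := hC.ring
  have hded := hR.ded
  have hp : p.Prime := hC.toCaseO.pp
  have hp0 : p ≠ 0 := hp.ne_zero
  have hpC : (p : ℂ) ≠ 0 := by exact_mod_cast hp0
  obtain ⟨φ, hφ⟩ := hR.hom
  set m : ℕ := p ^ (n + 1) * f with hm
  have hm0 : m ≠ 0 := by
    rw [hm]
    exact mul_ne_zero (pow_ne_zero _ hp0) hf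
  have hmC : (m : ℂ) ≠ 0 := by exact_mod_cast hm0
  have hnl0 := R.nl R.i0
  have hom0 : R.om R.i0 ≠ 0 := hnl0.om_ne
  have heN : ∀ k : ℕ, emb ((k : ℕ) : OO A B) = (k : ℂ) := fun k => by rw [← hφ, map_natCast]
  have heZ : ∀ k : ℤ, emb ((k : ℤ) : OO A B) = (k : ℂ) := fun k => by rw [← hφ, map_intCast]
  have hem : ∀ x y : OO A B, emb (x * y) = emb x * emb y := fun x y => by
    rw [← hφ, ← hφ, ← hφ, map_mul]
  have hL0 : ∀ z, z ∈ (R.L R.i0).lattice ↔ ∃ x : OO A B, z = R.om R.i0 * emb x := by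
    intro z
    rw [hnl0.mem, R.b0]
    simp
  have hidl : ∀ (k : ℕ) (c : OO A B), c ∈ idl (A := A) (B := B) k ↔
      ((k : ℕ) : OO A B) ∣ c := fun k c => Ideal.mem_span_singleton
  refine ⟨?_, ?_, ?_⟩
  · intro i x hx
    have hnl := R.nl i
    obtain ⟨hN0, hNb⟩ := EXO.nI_ne hR (R.b i) hnl.b_ne
    have hNC : ((nI (R.b i) : ℕ) : ℂ) ≠ 0 := by exact_mod_cast hN0
    have hom : R.om i ≠ 0 := hnl.om_ne
    have hLi := hnl.mem
    have hcop : (nI (R.b i)).Coprime m := by
      have h1 := R.cop i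
      rw [hm]
      exact Nat.Coprime.mul_right
        (Nat.Coprime.pow_right _ (Nat.Coprime.coprime_mul_right_right h1))
        (Nat.Coprime.coprime_mul_left_right h1)
    obtain ⟨s, t, hst⟩ := Nat.isCoprime_iff_coprime.2 hcop
    have h2 : (s : OO A B) * ((nI (R.b i) : ℕ) : OO A B) + (t : OO A B) * (m : ℕ) = 1 := by
      have := congrArg (fun k : ℤ => (k : OO A B)) hst
      push_cast at this
      exact this
    have hEx : Ann (idl (A := A) (B := B) m) (R.L i) (pt R m i x) := by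
      intro c
      rw [hLi, hidl]
      constructor
      · rintro ⟨y, -, hy⟩
        have h1 : ((nI (R.b i) : ℕ) : OO A B) * (c * x) = (m : ℕ) * y := by
          apply EXO.inj hR
          rw [hem, hem, hem, heN, heN]
          unfold pt at hy
          field_simp at hy
          linear_combination hy
        have h3 : ((m : ℕ) : OO A B) ∣ x * c := by
          refine ⟨(s : OO A B) * y + (t : OO A B) * c * x, ?_⟩
          linear_combination (-(x * c)) * h2 + (s : OO A B) * h1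
        exact hx.symm.dvd_of_dvd_mul_left h3
      · rintro ⟨y, rfl⟩
        refine ⟨(nI (R.b i) : ℕ) * (y * x), (R.b i).mul_mem_right _ hNb, ?_⟩
        rw [hem, hem, hem, heN, heN]
        unfold pt
        field_simp
    refine ⟨hEx, ?_, ?_⟩
    · unfold pt muX
      field_simp
    · intro q hq
      have hnat : ∀ (k : ℕ) (u : ℂ), u ∈ (R.L i).lattice → (k : ℂ) * u ∈ (R.L i).lattice := by
        intro k u hu
        have := (R.L i).lattice.smul_mem (k : ℤ) hu
        simpa using this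
      constructor
      · have h1 : ((m : ℕ) : ℂ) * pt R m i x ∈ (R.L i).lattice := by
          rw [← heN]
          exact (hEx _).2 (Ideal.mem_span_singleton_self _)
        have h4 := hnat (p ^ n * f) _ hq
        have h5 : ((m : ℕ) : ℂ) * (pt R m i x + q) =
            ((m : ℕ) : ℂ) * pt R m i x + ((p ^ n * f : ℕ) : ℂ) * (p * q) := by
          rw [hm]
          push_cast
          ring
        rw [h5]
        exact add_mem h1 h4
      · intro c hc
        have h1 : emb (((p * c : ℕ)) : OO A B) * pt R m i x ∈ (R.L i).lattice := by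
          rw [heN]
          have h4 := hnat p _ hc
          have h5 := hnat c _ hq
          have h6 : ((p * c : ℕ) : ℂ) * pt R m i x =
              ((p : ℕ) : ℂ) * ((c : ℂ) * (pt R m i x + q)) - ((c : ℕ) : ℂ) * (p * q) := by
            push_cast
            ring
          rw [h6]
          exact sub_mem h4 h5
        have h4 := EXO.nat _ _ ((hidl _ _).1 ((hEx _).1 h1))
        have h5 : p * (p ^ n * f) ∣ p * c := by
          have h6 : m = p * (p ^ n * f) := by rw [hm, pow_succ]; ring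
          rwa [← h6]
        exact (Dvd.intro_left _ rfl).trans (Nat.dvd_of_mul_dvd_mul_left hp.pos h5)
  · intro c
    rw [hL0, hidl]
    constructor
    · rintro ⟨y, hy⟩
      refine ⟨y, EXO.inj hR _ _ ?_⟩
      rw [hem, heN]
      field_simp at hy
      linear_combination hy
    · rintro ⟨y, rfl⟩
      refine ⟨y, ?_⟩
      rw [hem, heN]
      field_simp
  · intro a ha
    obtain ⟨s, t, h1, h2⟩ := EXO.bez (A := A) (B := B) hp ha
    have hfac := hC.fac
    refine ⟨fun y hy hyp => ⟨fun x hx => ?_, fun hmem => ?_⟩, fun Y hY => ?_⟩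
    · have h3 : x * y ∈ idl (A := A) (B := B) p := by
        rw [hfac]
        exact Ideal.mul_mem_mul hx hy
      obtain ⟨z, hz⟩ := (hidl _ _).1 h3
      rw [hL0]
      refine ⟨(a : ℕ) * z, ?_⟩
      have h4 : emb x * emb y = p * emb z := by rw [← hem, hz, hem, heN]
      rw [hem, heN]
      field_simp
      linear_combination (a : ℂ) * h4
    · obtain ⟨z, hz⟩ := (hL0 _).1 hmem
      apply hyp
      rw [hidl]
      have h4 : y * (a : ℕ) = (p : ℕ) * z := by
        apply EXO.inj hR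
        rw [hem, hem, heN, heN]
        field_simp at hz
        linear_combination hz
      refine ⟨(s : OO A B) * z + (t : OO A B) * y, ?_⟩
      linear_combination (-y) * h2 + (s : OO A B) * h4
    · obtain ⟨hT, hYL⟩ := hY
      have hpP : ((p : ℕ) : OO A B) ∈ P ^ er := by
        have h3 : P ^ er * Pc P ≤ P ^ er := Ideal.mul_le_left
        rw [← hfac] at h3
        exact h3 ((hidl _ _).2 dvd_rfl)
      obtain ⟨b, hb⟩ := (hL0 _).1 (hT _ hpP)
      rw [heN] at hb
      have hPb : Ideal.span {b} ≤ Pc P := by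
        have h3 : P ^ er * Ideal.span {b} ≤ P ^ er * Pc P := by
          rw [← hfac, Ideal.mul_le]
          intro x hx c hc
          obtain ⟨d, rfl⟩ := Ideal.mem_span_singleton.1 hc
          obtain ⟨z, hz⟩ := (hL0 _).1 (hT x hx)
          rw [hidl]
          refine ⟨z * d, ?_⟩
          have h4 : x * b = (p : ℕ) * z := by
            apply EXO.inj hR
            rw [hem, hem, heN]
            apply mul_left_cancel₀ hom0
            linear_combination (-(emb x)) * hb + (p : ℂ) * hz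
          linear_combination d * h4
        rw [← Ideal.dvd_iff_le] at h3 ⊢
        exact (mul_dvd_mul_iff_left (pow_ne_zero _ hC.ne)).1 h3
      have hbP : b ∈ Pc P := hPb (Ideal.mem_span_singleton_self _)
      refine ⟨(s : OO A B) * b, (Pc P).mul_mem_left _ hbP, fun h3 => ?_, ?_⟩
      · obtain ⟨z, hz⟩ := (hidl _ _).1 h3
        apply hYL
        rw [hL0]
        refine ⟨(a : ℕ) * z + (t : OO A B) * b, ?_⟩
        have h4 : (s : ℂ) * emb b = p * emb z := by
          rw [← heZ, ← hem, hz, hem, heN]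
        have h5 : emb (((a : ℕ) : OO A B) * z + (t : OO A B) * b) = a * emb z + t * emb b := by
          rw [← hφ, map_add, map_mul, map_mul, map_natCast, map_intCast, hφ, hφ]
        rw [h5]
        apply mul_left_cancel₀ hpC
        linear_combination hb - R.om R.i0 * emb b * h1 + R.om R.i0 * (a : ℂ) * h4
      · rw [hL0]
        refine ⟨-((t : OO A B) * b), ?_⟩
        have h5 : emb (-((t : OO A B) * b)) = -(t * emb b) := by
          rw [← hφ, map_neg, map_mul, map_intCast, hφ]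
        rw [h5, hem, heZ]
        apply mul_left_cancel₀ hpC
        field_simp
        linear_combination R.om R.i0 * emb b * h1 - hb

end

end Pool.Agent.OBE


end

section

/-!
# OB, block E, module FIN: the final form (helper23)

Model: `Pool/Agent/NS/F_FIN.lean` (helper86).
-/

set_option autoImplicit false

namespace Pool.Agent.OBE

open _root_.MU3 Pool.Agent.MU3A Pool.Agent.MU3B Pool.Agent.MUX Pool.Agent.MUXU Pool.Agent.MUXE
open Pool.Agent.RI Pool.Agent.NS Pool.Agent.OB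

theorem tb_FIN (h1 : Sb_CTX) (h2 : Sb_FN1) (h3 : Sb_FN2) : Sb_FIN := by
  intro hR p er A B P V f hS hT ι _ R u e lam hG w hw n hn H hH D h hD hb
  obtain ⟨al, hC⟩ := h1 p er A B P V hS.toCaseO hT hR
  have hE := Pool.Agent.MUXE.te_GAL A B hC.ring hT
  obtain ⟨hf6, hf12⟩ := hS.f6
  have hf2 : 2 ∣ f := (by norm_num : 2 ∣ 12).trans hS.f12
  have hf3 : 3 ≤ f := by omega
  rcases hS.ram with ⟨he, -⟩ | ⟨he, -⟩
  · subst he
    exact h2 p A B P V al hC hT hE n f hn hf3 hf2 hS.fp ι R u e lam hG w hw H hH D h hD hb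
  · subst he
    exact h3 p A B P V al hC hT hE n f hn hf3 hf2 hS.fp ι R u e lam hG w hw H hH D h hD hb

end Pool.Agent.OBE


end

section

/-!
# OB, block E, module FN1: the final form for `er = 1` (helper96; model helper86)
-/

set_option autoImplicit false

namespace Pool.Agent.OBE

open _root_.MU3 _root_.Pool.Agent.MU3A _root_.Pool.Agent.MU3B _root_.Pool.Agent.MUX _root_.Pool.Agent.MUXU _root_.Pool.Agent.MUXE
open _root_.Pool.Agent.RI _root_.Pool.Agent.NS _root_.Pool.Agent.OB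

noncomputable section

namespace FN1

/-- `O/m` is finite -/
lemma fin_quot (A B : ℤ) (hr : RingE A B) {m : ℕ} (hm : m ≠ 0) :
    Finite (OO A B ⧸ idl (A := A) (B := B) m) ∧ idl (A := A) (B := B) m ≠ ⊥ := by
  haveI := hr.ded
  have h0 : idl (A := A) (B := B) m ≠ ⊥ := by
    intro h
    rw [Ideal.span_singleton_eq_bot] at h
    obtain ⟨φ, hφ⟩ := hr.hom
    have h1 : φ ((m : ℕ) : OO A B) = 0 := by rw [h, map_zero]
    rw [map_natCast] at h1
    exact hm (by exact_mod_cast h1)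
  exact ⟨Ideal.finiteQuotientOfFreeOfNeBot _ h0, h0⟩

/-- `Gal(D/k)` is finite -/
lemma fin_gal {A B : ℤ} (hT : TorX A B) {m : Ideal (OO A B)} (hm : m ≠ ⊥)
    (D : IntermediateField ℚ ℂ) (h : kk A B ≤ D) (hD : ∀ y ∈ D, y ∈ RF m) :
    letI := algC h
    Finite (D ≃ₐ[kk A B] D) := by
  letI := algC h
  have := hT.fin _ hm
  let φ : D →ₗ[kk A B] RF m :=
    { toFun := fun y => ⟨y, hD y y.2⟩
      map_add' := fun x y => rfl
      map_smul' := fun c x => by
        apply Subtype.ext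
        show ((c • x : D) : ℂ) = ((c • (⟨x, hD x x.2⟩ : RF m) : RF m) : ℂ)
        rw [Algebra.smul_def, Algebra.smul_def]
        rfl }
  have hφ : Function.Injective φ := by
    intro x y hxy
    apply Subtype.ext
    exact congrArg (fun z : RF m => (z : ℂ)) hxy
  have : FiniteDimensional (kk A B) D := FiniteDimensional.of_injective φ hφ
  exact inferInstance

lemma lv_eq {p : ℕ} (hp : p ≠ 2) (f n : ℕ) : lvX p f n = p ^ (n + 1) * f := by
  simp [lvX, q0, hp]
  ring

lemma aX_eq {p : ℕ} (hp : p ≠ 2) (f : ℕ) : aX p f = 1 + 2 * p * f := by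
  simp [aX, q0, hp]

lemma aX_facts {p : ℕ} (hp : p.Prime) (hp2 : p ≠ 2) {f : ℕ} (hf : f ≠ 0) :
    3 ≤ aX p f ∧ Odd (aX p f) ∧ ¬ p ∣ aX p f ∧ (aX p f).Coprime f := by
  rw [aX_eq hp2]
  have h1 : 1 ≤ p * f := Nat.mul_pos hp.pos (Nat.pos_of_ne_zero hf)
  refine ⟨by nlinarith, ⟨p * f, by ring⟩, fun h => ?_, ?_⟩
  · have h2 : p ∣ 1 := (Nat.dvd_add_right (⟨2 * f, by ring⟩ : p ∣ 2 * p * f)).1 (by
      rwa [add_comm] at h)
    exact hp.one_lt.ne' (Nat.dvd_one.1 h2)
  · have h2 : 1 + 2 * p * f = 1 + f * (2 * p) := by ring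
    rw [h2, Nat.coprime_add_mul_left_left]
    exact Nat.coprime_one_left f

end FN1

open _root_.Pool.Agent.OBE.FN1 in
theorem tb_FN1 (hMAIN : Sb_MAIN) (hINN : Sb_INN) : Sb_FN1 := by
  classical
  intro p A B P V al hC hT hG n f hn hf3 hf2 hf ι _ R u e lam hgood w hw H hH D h hD
  letI := algC h
  intro hconj g hroot τ'
  have hf0 : f ≠ 0 := by omega
  have hlv := lv_eq hC.p2 f n
  obtain ⟨ha3, hao, hap, haf⟩ := aX_facts hC.pp hC.p2 hf0
  have hm0 : lvX p f n ≠ 0 := by
    rw [hlv]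
    exact mul_ne_zero (pow_ne_zero _ hC.pp.ne_zero) hf0
  obtain ⟨hq, hmb⟩ := fin_quot A B hC.ring hm0
  haveI := hq
  have hfin : ∀ τ : D ≃ₐ[kk A B] D, (XX R (lvX p f n) h τ).Finite := fun τ => Set.toFinite _
  let S : (D ≃ₐ[kk A B] D) → Finset (ι × (OO A B ⧸ idl (A := A) (B := B) (lvX p f n))) :=
    fun τ => (hfin τ).toFinset
  have key := hMAIN p 1 A B P V al hC hT hG n f hn hf3 hf2 hf ι R u e lam hgood H hH D h hD.1
    (fun τ => cX R (lvX p f n) H h τ) S hconj
    (fun τ q hq => ((hfin τ).mem_toFinset.1 hq).1)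
    (fun τ => by
      show cX R (lvX p f n) H h τ = _
      rw [cX, finprod_mem_eq_finite_toFinset_prod _ (hfin τ)])
    g hroot τ'
  haveI : Finite (D ≃ₐ[kk A B] D) := fin_gal hT hmb D h hD.1
  letI : Fintype (D ≃ₐ[kk A B] D) := Fintype.ofFinite _
  rw [finsum_eq_sum_of_fintype] at key ⊢
  have e1 : ∀ τ : D ≃ₐ[kk A B] D, TTN R w (lvX p f n) (aX p f) h (τ * τ') =
      ∑ q ∈ S (τ * τ'), emb (Quotient.out q.2) * muX R q.1 *
        dlX (R.L q.1) (aX p f) (pt R (lvX p f n) q.1 (Quotient.out q.2)) +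
      ∑ q ∈ S (τ * τ'), (w (Quotient.out q.2) - emb (Quotient.out q.2)) * (muX R q.1 *
        dlX (R.L q.1) (aX p f) (pt R (lvX p f n) q.1 (Quotient.out q.2))) := by
    intro τ
    rw [TTN, finsum_mem_eq_finite_toFinset_sum _ (hfin (τ * τ')), ← Finset.sum_add_distrib]
    refine Finset.sum_congr rfl fun q _ => ?_
    ring
  have e2 : (∑ τ : D ≃ₐ[kk A B] D, (g τ : ℂ) * TTN R w (lvX p f n) (aX p f) h (τ * τ')) / u =
      (∑ τ : D ≃ₐ[kk A B] D, (g τ : ℂ) * ∑ q ∈ S (τ * τ'), emb (Quotient.out q.2) * muX R q.1 *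
        dlX (R.L q.1) (aX p f) (pt R (lvX p f n) q.1 (Quotient.out q.2))) / u +
      ∑ τ : D ≃ₐ[kk A B] D, (g τ : ℂ) * ∑ q ∈ S (τ * τ'),
        (w (Quotient.out q.2) - emb (Quotient.out q.2)) * (muX R q.1 *
        dlX (R.L q.1) (aX p f) (pt R (lvX p f n) q.1 (Quotient.out q.2)) / u) := by
    rw [Finset.sum_div, Finset.sum_div, ← Finset.sum_add_distrib]
    refine Finset.sum_congr rfl fun τ _ => ?_
    rw [e1, mul_add, add_div, mul_div_assoc (g τ : ℂ) (∑ q ∈ S (τ * τ'), (w (Quotient.out q.2) -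
      emb (Quotient.out q.2)) * _), Finset.sum_div]
    congr 2
    refine Finset.sum_congr rfl fun q _ => ?_
    ring
  rw [e2]
  refine (V.valuation.map_add _ _).trans (max_le key ?_)
  refine V.valuation.map_sum_le fun τ _ => ?_
  rw [map_mul]
  have vg : V.valuation ((g τ : ℤ) : ℂ) ≤ 1 := (V.valuation_le_one_iff _).2 (intCast_mem V (g τ))
  refine (mul_le_mul' vg (V.valuation.map_sum_le (g := V.valuation (p : ℂ)) fun q hq => ?_)).trans
    (one_mul _).le
  rw [map_mul]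
  have hcp := ((hfin (τ * τ')).mem_toFinset.1 hq).1
  have h1 := (hINN p 1 A B P V al hC n f (aX p f) (by omega) hf ha3 hao hap haf ι R u e lam hgood
    q.1 (Quotient.out q.2) (by rw [← hlv]; exact hcp)).2.1
  rw [← hlv] at h1
  have h2 := hw.cong (Quotient.out q.2)
  rw [pow_one] at h2
  exact (mul_le_mul' h2 h1).trans (mul_one _).le

end

end Pool.Agent.OBE


end

section

/-!
# OB, block E, module FN2 (helper41): the final form for `er = 2`
-/

set_option autoImplicit false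

namespace Pool.Agent.OBE

open _root_.MU3 _root_.Pool.Agent.MU3A _root_.Pool.Agent.MU3B _root_.Pool.Agent.MUX _root_.Pool.Agent.MUXU _root_.Pool.Agent.MUXE
open _root_.Pool.Agent.RI _root_.Pool.Agent.NS _root_.Pool.Agent.OB

noncomputable section

namespace FN2

variable {A B : ℤ} {P : Ideal (OO A B)}

/-! ### Valuations -/

/-- the bound -/
def Bd (V : ValuationSubring ℂ) (p : ℕ) (z : ℂ) : Prop := V.valuation z ≤ V.valuation (p : ℂ)

lemma Bd.add {V : ValuationSubring ℂ} {p : ℕ} {z w : ℂ} (hz : Bd V p z) (hw : Bd V p w) :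
    Bd V p (z + w) := (V.valuation.map_add z w).trans (max_le hz hw)

lemma Bd.mul {V : ValuationSubring ℂ} {p : ℕ} {c z : ℂ} (hz : Bd V p z)
    (hc : V.valuation c ≤ 1) : Bd V p (c * z) := by
  unfold Bd at *
  rw [map_mul]
  exact (mul_le_of_le_one_left' hc).trans hz

lemma Bd.sum {V : ValuationSubring ℂ} {p : ℕ} {α : Type} (s : Finset α) (F : α → ℂ)
    (h : ∀ x ∈ s, Bd V p (F x)) : Bd V p (∑ x ∈ s, F x) := by
  classical
  induction s using Finset.induction_on with
  | empty =>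
    unfold Bd
    rw [Finset.sum_empty, map_zero]
    exact zero_le
  | insert a s ha ih =>
    rw [Finset.sum_insert ha]
    exact (h a (Finset.mem_insert_self _ _)).add
      (ih fun x hx => h x (Finset.mem_insert_of_mem hx))

/-- squares of `P` -/
lemma v_sq {V : ValuationSubring ℂ} {al : OO A B} (φ : OO A B →+* ℂ) (hφ : ∀ x, φ x = emb x)
    (hvP : ∀ x ∈ P, V.valuation (emb x) ≤ V.valuation (emb al)) {y : OO A B} (hy : y ∈ P ^ 2) :
    V.valuation (emb y) ≤ V.valuation (emb al) ^ 2 := by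
  rw [pow_two] at hy
  induction hy using Submodule.mul_induction_on' with
  | mem_mul_mem x hx z hz =>
    rw [← hφ, map_mul, map_mul, hφ, hφ, pow_two]
    exact mul_le_mul' (hvP x hx) (hvP z hz)
  | add x hx z hz h1 h2 =>
    rw [← hφ, map_add]
    refine (V.valuation.map_add _ _).trans (max_le ?_ ?_)
    · rw [hφ]; exact h1
    · rw [hφ]; exact h2

/-! ### Finiteness -/

lemma fin_quot (hr : RingE A B) {m : ℕ} (hm : m ≠ 0) :
    Finite (OO A B ⧸ idl (A := A) (B := B) m) := by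
  have := hr.ded
  apply Ideal.finiteQuotientOfFreeOfNeBot
  exact m0_ne A B hr hm

/-- `D` is finite over `k` -/
lemma finD (hT : TorX A B) {m : Ideal (OO A B)} (hm : m ≠ ⊥) (D : IntermediateField ℚ ℂ)
    (h : kk A B ≤ D) (hD : ∀ y ∈ D, y ∈ RF m) :
    letI := algC h
    Finite (D ≃ₐ[kk A B] D) := by
  letI := algC h
  have := hT.fin m hm
  let φ : D →ₗ[kk A B] RF m :=
    { toFun := fun y => ⟨y, hD y y.2⟩
      map_add' := fun x y => rfl
      map_smul' := fun c x => by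
        apply Subtype.ext
        show ((c • x : D) : ℂ) = ((c • (⟨x, hD x x.2⟩ : RF m) : RF m) : ℂ)
        rw [Algebra.smul_def, Algebra.smul_def]
        rfl }
  have hφ : Function.Injective φ := by
    intro x y hxy
    apply Subtype.ext
    exact congrArg (fun z : RF m => (z : ℂ)) hxy
  have : FiniteDimensional (kk A B) D := FiniteDimensional.of_injective φ hφ
  exact inferInstance

/-! ### The translation -/

/-- the iterates of the translation by `β` -/
lemma iter {ι Q : Type} [AddCommMonoid Q] (β : Q) (q : ι × Q) (l : ℕ) :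
    (fun q : ι × Q => (q.1, q.2 + β))^[l] q = (q.1, q.2 + l • β) := by
  induction l with
  | zero => simp
  | succ l ih =>
    rw [Function.iterate_succ_apply', ih, succ_nsmul, add_assoc]

/-- an element of `m''` which is not in `m = m'' P` -/
lemma exb (hd : IsDedekindDomain (OO A B)) (hPt : P ≠ ⊤) {m' m : Ideal (OO A B)} (hm' : m' ≠ ⊥)
    (hm : m = m' * P) : ∃ β ∈ m', β ∉ m := by
  by_contra hcon
  push Not at hcon
  have h1 : m' ≤ m := fun x hx => hcon x hx
  have h2 : m ≤ m' := by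
    rw [hm]
    exact Ideal.mul_le_left (I := m') (J := P)
  have h3 : m' * P = m' * ⊤ := by
    rw [← hm, Ideal.mul_top]
    exact le_antisymm h2 h1
  exact hPt (mul_left_cancel₀ hm' h3)

/-- `t β ∉ m` for `0 < t < p` -/
lemma not_mul {p : ℕ} (pp : p.Prime) {m : Ideal (OO A B)} {β : OO A B} (hβ : β ∉ m)
    (hp : ((p : ℕ) : OO A B) * β ∈ m) {t : ℕ} (ht0 : 0 < t) (ht : t < p) :
    ((t : ℕ) : OO A B) * β ∉ m := by
  intro h
  have h1 : Nat.Coprime t p := ((Nat.Prime.coprime_iff_not_dvd pp).2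
    (Nat.not_dvd_of_pos_of_lt ht0 ht)).symm
  have h2 : IsCoprime ((t : ℕ) : OO A B) ((p : ℕ) : OO A B) := h1.cast
  obtain ⟨a, b, hab⟩ := h2
  apply hβ
  have h3 : β = a * (((t : ℕ) : OO A B) * β) + b * (((p : ℕ) : OO A B) * β) := by
    linear_combination (-β) * hab
  rw [h3]
  exact add_mem (m.mul_mem_left _ h) (m.mul_mem_left _ hp)

end FN2

open _root_.Pool.Agent.OBE.FN2 in
theorem tb_FN2 (hMAIN : Sb_MAIN) (hINN : Sb_INN) (hSTB : Sb_STB) (hEXO : Sb_EXO)
    (hIDL : Sb_IDL) : Sb_FN2 := by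
  classical
  intro p A B P V al hC hT hE n f hn hf3 hf2 hf ι _ R u e lam hG w hw H hH D h hD
  letI := algC h
  intro hCC g hpow τ'
  have hf0 : f ≠ 0 := by omega
  have hp0 : 0 < p := hC.pp.pos
  obtain ⟨φ, hφ⟩ := hC.ring.hom
  have hded := hC.ring.ded
  obtain ⟨hl1, hl2, hl3, hl4, -, -, -, hlv⟩ := hIDL p 2 A B P V al hC f n hf0 hf
  obtain ⟨hnP, hPc⟩ := hC.nP rfl
  obtain ⟨m, hm⟩ : ∃ m, m = lvX p f n := ⟨_, rfl⟩
  rw [← hm] at hlv
  -- the ideals
  obtain ⟨m', hm'⟩ : ∃ m' : Ideal (OO A B), m' = _root_.Pool.Agent.NSRD.lvR P f n := ⟨_, rfl⟩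
  have hmm : idl (A := A) (B := B) m = m' * P := by
    rw [hlv, hl1, hm']
    unfold lv0 _root_.Pool.Agent.NSRD.lvR
    rw [hPc, ← Ideal.one_eq_top, one_pow, mul_one]
    rw [show 2 * (n + 1) = (2 * n + 1) + 1 by ring, pow_succ]
    ring
  have hm0 : m ≠ 0 := by
    rw [hlv]
    exact mul_ne_zero (pow_ne_zero _ hp0.ne') hf0
  have hidl0 : idl (A := A) (B := B) m ≠ ⊥ := m0_ne A B hC.ring hm0
  have hm'0 : m' ≠ ⊥ := by
    intro h0
    apply hidl0
    rw [hmm, h0, Ideal.bot_mul]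
  obtain ⟨β, hβ1, hβ2⟩ := exb hded hC.max.ne_top hm'0 hmm
  have hPβ : ∀ x ∈ P, x * β ∈ idl (A := A) (B := B) m := by
    intro x hx
    rw [hmm, mul_comm x β]
    exact Ideal.mul_mem_mul hβ1 hx
  have hpβ : ((p : ℕ) : OO A B) * β ∈ idl (A := A) (B := B) m := hPβ _ hC.mem
  have hmP2 : m' ≤ P ^ 2 := by
    rw [hm']
    unfold _root_.Pool.Agent.NSRD.lvR
    have h1 : 2 ≤ 2 * n + 1 := by omega
    exact (Ideal.mul_le_right (I := idl (A := A) (B := B) f) (J := P ^ (2 * n + 1))).trans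
      (Ideal.pow_le_pow_right h1)
  have hidlP2 : idl (A := A) (B := B) m ≤ P ^ 2 := by
    rw [hmm]
    exact (Ideal.mul_le_left (I := m') (J := P)).trans hmP2
  have hP2P : P ^ 2 ≤ P := Ideal.pow_le_self (by norm_num)
  -- the number `a`
  have hq0 : q0 p = p := by
    unfold q0
    rw [if_neg hC.p2]
  obtain ⟨a, ha⟩ : ∃ a, a = aX p f := ⟨_, rfl⟩
  have hav : a = 1 + 2 * p * f := by
    rw [ha, aX, hq0]
  have ha3 : 3 ≤ a := by
    have : 0 < p * f := Nat.mul_pos hp0 (Nat.pos_of_ne_zero hf0)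
    rw [hav, mul_assoc]
    omega
  have hao : Odd a := ⟨p * f, by rw [hav]; ring⟩
  have hap : ¬ p ∣ a := by
    rw [hav]
    intro h1
    have h2 : p ∣ 1 := by
      have h3 : p ∣ 2 * p * f := ⟨2 * f, by ring⟩
      exact (Nat.dvd_add_left h3).1 h1
    exact hC.pp.one_lt.ne' (Nat.dvd_one.1 h2)
  have haf : a.Coprime f := by
    rw [hav, show 1 + 2 * p * f = 1 + (2 * p) * f by ring]
    exact (Nat.coprime_add_mul_right_left 1 f (2 * p)).2 (Nat.coprime_one_left f)
  rw [← hm] at hCC hpow ⊢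
  rw [← ha] at hH ⊢
  have : Finite (D ≃ₐ[kk A B] D) := finD hT hidl0 D h (by rw [hm]; exact hD.1)
  letI : Fintype (D ≃ₐ[kk A B] D) := Fintype.ofFinite _
  have := fin_quot hC.ring hm0
  -- the sets
  have hfin : ∀ τ : D ≃ₐ[kk A B] D, (XX R m h τ).Finite := fun τ => Set.toFinite _
  let S : (D ≃ₐ[kk A B] D) → Finset (ι × (OO A B ⧸ idl (A := A) (B := B) m)) :=
    fun τ => (hfin τ).toFinset
  have hScop : ∀ τ, ∀ q ∈ S τ, IsCoprime (Quotient.out q.2 : OO A B) ((m : ℕ) : OO A B) :=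
    fun τ q hq => ((hfin τ).mem_toFinset.1 hq).1
  obtain ⟨b, hb⟩ : ∃ b : OO A B ⧸ idl (A := A) (B := B) m, b = Ideal.Quotient.mk _ β := ⟨_, rfl⟩
  let ψ : ι × (OO A B ⧸ idl (A := A) (B := B) m) → ι × (OO A B ⧸ idl (A := A) (B := B) m) :=
    fun q => (q.1, q.2 + b)
  have hit : ∀ (q : ι × (OO A B ⧸ idl (A := A) (B := B) m)) (l : ℕ),
      ψ^[l] q = (q.1, q.2 + l • b) := fun q l => iter b q l
  have hlb : ∀ l : ℕ, l • b = Ideal.Quotient.mk (idl (A := A) (B := B) m)
      (((l : ℕ) : OO A B) * β) := by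
    intro l
    rw [hb, map_mul, map_natCast, nsmul_eq_mul]
  have hmain : ∀ τ : D ≃ₐ[kk A B] D, ∃ T : Finset (ι × (OO A B ⧸ idl (A := A) (B := B) m)),
      T ⊆ S τ ∧
      ∀ F : ι × (OO A B ⧸ idl (A := A) (B := B) m) → ℂ, ∑ x ∈ S τ, F x =
        ∑ x ∈ T, ∑ l ∈ Finset.range p, F (ψ^[l] x) := by
    intro τ
    obtain ⟨T, h1, -, h2⟩ := _root_.Pool.Agent.NSER.tf_ORB _ (S τ) ψ p hp0 (fun q hq => by
      rw [(hfin τ).mem_toFinset] at hq ⊢
      have h6 := hSTB p A B P V al hC hT n f hn hf0 hf ι R D h (hD.2 rfl) τ β (hm' ▸ hβ1)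
      subst hm
      subst hb
      exact h6 q hq) (fun q hq => by
      rw [hit, hlb, Ideal.Quotient.eq_zero_iff_mem.2 hpβ, add_zero]) (fun q hq l hl0 hl => by
      rw [hit]
      intro h6
      have h7 : q.2 + l • b = q.2 := congrArg Prod.snd h6
      have h8 : l • b = 0 := by simpa using h7
      rw [hlb, Ideal.Quotient.eq_zero_iff_mem] at h8
      exact not_mul hC.pp hβ2 hpβ hl0 hl h8)
    exact ⟨T, h1, h2⟩
  choose T hTS hTs using hmain
  have hST : ∀ τ, ∀ q ∈ S τ, ∀ l : ℕ, ψ^[l] q ∈ S τ := by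
    intro τ q hq l
    induction l with
    | zero => exact hq
    | succ l ih =>
      rw [Function.iterate_succ_apply']
      rw [(hfin τ).mem_toFinset] at ih ⊢
      have h6 := hSTB p A B P V al hC hT n f hn hf0 hf ι R D h (hD.2 rfl) τ β (hm' ▸ hβ1)
      subst hm
      subst hb
      exact h6 _ ih
  -- points
  obtain ⟨z0, hz0⟩ : ∃ z0 : ι → ℂ, ∀ i x, pt R m i x = φ x * z0 i :=
    ⟨fun i => R.om i * nI (R.b i) / m, fun i x => by unfold pt; rw [hφ]; ring⟩
  have hex : ∀ (i : ι) (c : OO A B), φ c * z0 i ∈ (R.L i).lattice ↔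
      c ∈ idl (A := A) (B := B) m := by
    intro i c
    have h1 := (((hEXO p 2 A B P V al hC n f ι R hf0 hf).1 i 1 isCoprime_one_left).1 c)
    rw [← hlv, hz0, map_one, one_mul, ← hφ] at h1
    exact h1
  have hout : ∀ (q : ι × (OO A B ⧸ idl (A := A) (B := B) m)) (l : ℕ),
      (Quotient.out (ψ^[l] q).2 : OO A B) - ((Quotient.out q.2 : OO A B) + l * β) ∈
        idl (A := A) (B := B) m := by
    intro q l
    rw [← Ideal.Quotient.eq, Ideal.Quotient.mk_out, map_add, Ideal.Quotient.mk_out, hit, hlb]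
  have hfst : ∀ (q : ι × (OO A B ⧸ idl (A := A) (B := B) m)) (l : ℕ), (ψ^[l] q).1 = q.1 := by
    intro q l
    rw [hit]
  have hdl : ∀ i, ∀ z, ∀ w ∈ (R.L i).lattice, dlX (R.L i) a (z + w) = dlX (R.L i) a z := by
    intro i z w hw
    have h6 := (b_PER (R.L i)).1
    unfold dlX
    rw [h6 z w hw, mul_add, h6 (a * z) (a * w) (by
      have := nsmul_mem hw a
      rwa [nsmul_eq_mul] at this)]
  have hdq : ∀ (q : ι × (OO A B ⧸ idl (A := A) (B := B) m)) (l : ℕ),
      dlX (R.L q.1) a (pt R m q.1 (Quotient.out (ψ^[l] q).2)) =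
        dlX (R.L q.1) a (pt R m q.1 (Quotient.out q.2) + l * pt R m q.1 β) := by
    intro q l
    have h1 := (hex q.1 _).2 (hout q l)
    rw [← hdl q.1 (pt R m q.1 (Quotient.out q.2) + l * pt R m q.1 β) _ h1]
    congr 1
    rw [hz0, hz0, hz0, map_sub, map_add, map_mul, map_natCast]
    ring
  have hmP : ∀ (q : ι × (OO A B ⧸ idl (A := A) (B := B) m)) (l : ℕ),
      (Quotient.out (ψ^[l] q).2 : OO A B) - (Quotient.out q.2 : OO A B) ∈ P ^ 2 := by
    intro q l
    have h1 := add_mem (hidlP2 (hout q l)) ((P ^ 2).mul_mem_left ((l : ℕ) : OO A B) (hmP2 hβ1))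
    rwa [show (Quotient.out (ψ^[l] q).2 : OO A B) - ((Quotient.out q.2 : OO A B) + l * β) +
      l * β = (Quotient.out (ψ^[l] q).2 : OO A B) - (Quotient.out q.2 : OO A B) by ring] at h1
  -- `MAIN`
  have hM : V.valuation ((∑ᶠ τ : D ≃ₐ[kk A B] D, (g τ : ℂ) * ∑ q ∈ S (τ * τ'),
      emb (Quotient.out q.2) * muX R q.1 *
        dlX (R.L q.1) a (pt R m q.1 (Quotient.out q.2))) / u) ≤ V.valuation (p : ℂ) := by
    subst hm
    subst ha
    exact hMAIN p 2 A B P V al hC hT hE n f hn hf3 hf2 hf ι R u e lam hG H hH D h hD.1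
      (cX R (lvX p f n) H h) S hCC hScop
      (fun τ => finprod_mem_eq_finite_toFinset_prod _ (hfin τ)) g hpow τ'
  -- the difference
  have halv : V.valuation (emb al) ^ 2 = V.valuation (p : ℂ) := hC.alv
  have hΔ : ∀ τ : D ≃ₐ[kk A B] D, Bd V p ((TTN R w m a h τ - ∑ q ∈ S τ,
      emb (Quotient.out q.2) * muX R q.1 *
        dlX (R.L q.1) a (pt R m q.1 (Quotient.out q.2))) / u) := by
    intro τ
    rw [TTN, finsum_mem_eq_finite_toFinset_sum _ (hfin τ), ← Finset.sum_sub_distrib, hTs τ,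
      Finset.sum_div]
    refine Bd.sum _ _ fun q hq => ?_
    have hqS := hTS τ hq
    have hqc := hScop τ q hqS
    obtain ⟨x, hx⟩ : ∃ x : OO A B, x = Quotient.out q.2 := ⟨_, rfl⟩
    let y : ℕ → OO A B := fun l => Quotient.out (ψ^[l] q).2
    let d : ℕ → ℂ := fun l => dlX (R.L q.1) a (pt R m q.1 (y l))
    have hwy : ∀ l, w (y l) = w x := by
      intro l
      rw [hx]
      exact hw.per _ _ (hP2P (hmP q l))
    have e1 : ∀ l, w (Quotient.out (ψ^[l] q).2) * muX R (ψ^[l] q).1 *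
        dlX (R.L (ψ^[l] q).1) a (pt R m (ψ^[l] q).1 (Quotient.out (ψ^[l] q).2)) -
        emb (Quotient.out (ψ^[l] q).2) * muX R (ψ^[l] q).1 *
        dlX (R.L (ψ^[l] q).1) a (pt R m (ψ^[l] q).1 (Quotient.out (ψ^[l] q).2)) =
        (w x - emb (y l)) * muX R q.1 * d l := by
      intro l
      have h1 := hwy l
      simp only [hfst]
      show w (y l) * muX R q.1 * d l - emb (y l) * muX R q.1 * d l = _
      rw [h1]
      ring
    have e2 : (∑ l ∈ Finset.range p, (w x - emb (y l)) * muX R q.1 * d l) / u =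
        (w x - emb x) * (muX R q.1 * (∑ l ∈ Finset.range p, d l) / u) +
          ∑ l ∈ Finset.range p, (emb x - emb (y l)) * (muX R q.1 * d l / u) := by
      rw [Finset.mul_sum, Finset.sum_div, Finset.sum_div, Finset.mul_sum,
        ← Finset.sum_add_distrib]
      refine Finset.sum_congr rfl fun l _ => ?_
      ring
    rw [Finset.sum_congr rfl fun l _ => e1 l, e2]
    refine Bd.add ?_ (Bd.sum _ _ fun l _ => ?_)
    · -- the sum over `E[P]`
      have h1 := (hINN p 2 A B P V al hC n f a (by omega) hf ha3 hao hap haf ι R u e lam hG q.1 x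
        (by rw [← hlv, hx]; exact hqc)).2.2 rfl (pt R m q.1 β) (fun c hc => by
          rw [hz0, ← hφ, ← mul_assoc, ← map_mul, hex]
          exact hPβ c hc) (by
          rw [hz0, hex]
          exact hβ2)
      rw [← hlv] at h1
      have h2 : ∑ t ∈ Finset.range p, dlX (R.L q.1) a (pt R m q.1 x + t * pt R m q.1 β) =
          ∑ l ∈ Finset.range p, d l := by
        refine Finset.sum_congr rfl fun l _ => ?_
        rw [hx]
        exact (hdq q l).symm
      rw [h2] at h1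
      have h3 : V.valuation (w x - emb x) ≤ V.valuation (emb al) := by
        have h4 := hw.cong x
        rw [← halv] at h4
        exact le_of_pow_le_pow_left₀ (by norm_num) zero_le h4
      unfold Bd
      rw [map_mul, ← halv, pow_two]
      exact mul_le_mul' h3 h1
    · -- the other terms
      have hyc : IsCoprime (y l) ((m : ℕ) : OO A B) := hScop τ _ (hST τ q hqS l)
      have h1 := (hINN p 2 A B P V al hC n f a (by omega) hf ha3 hao hap haf ι R u e lam hG q.1
        (y l) (by rw [← hlv]; exact hyc)).2.1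
      rw [← hlv] at h1
      have h2 : V.valuation (emb x - emb (y l)) ≤ V.valuation (p : ℂ) := by
        have h3 := v_sq φ hφ hC.vP (hmP q l)
        rw [← hφ, map_sub, hφ, hφ, halv, Valuation.map_sub_swap] at h3
        rw [hx]
        exact h3
      rw [mul_comm]
      exact Bd.mul h2 h1
  rw [finsum_eq_sum_of_fintype] at hM ⊢
  have e4 : (∑ τ : D ≃ₐ[kk A B] D, (g τ : ℂ) * TTN R w m a h (τ * τ')) / u =
      (∑ τ : D ≃ₐ[kk A B] D, (g τ : ℂ) * ∑ q ∈ S (τ * τ'),
        emb (Quotient.out q.2) * muX R q.1 *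
          dlX (R.L q.1) a (pt R m q.1 (Quotient.out q.2))) / u +
      ∑ τ : D ≃ₐ[kk A B] D, (g τ : ℂ) * ((TTN R w m a h (τ * τ') - ∑ q ∈ S (τ * τ'),
        emb (Quotient.out q.2) * muX R q.1 *
          dlX (R.L q.1) a (pt R m q.1 (Quotient.out q.2))) / u) := by
    rw [Finset.sum_div, Finset.sum_div, ← Finset.sum_add_distrib]
    exact Finset.sum_congr rfl fun τ _ => by ring
  rw [e4]
  refine Bd.add hM (Bd.sum _ _ fun τ _ => (hΔ _).mul ?_)
  rw [V.valuation_le_one_iff]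
  exact intCast_mem V _

end

end Pool.Agent.OBE


end

section

/-!
# OB, block E, module GEN (helper10): the multiplier of any isogeny and the points of its kernel in the kernel of reduction

Port of helper48's `NS/F_UNT.lean`.
-/

set_option autoImplicit false

open Polynomial

namespace Pool.Agent.OBE

open _root_.MU3 _root_.Pool.Agent.MU3A _root_.Pool.Agent.MU3B _root_.Pool.Agent.MUX _root_.Pool.Agent.MUXU _root_.Pool.Agent.MUXE
open _root_.Pool.Agent.RI _root_.Pool.Agent.NS _root_.Pool.Agent.OB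
open _root_.Pool.Agent.MUXV (GR InK tX)
open _root_.Pool.Agent.NSE (su ru WL IntP)

noncomputable section

namespace GEN

theorem frac (L : PeriodPair) (a : ℤ) (b : ℕ) (hb : b ≠ 0)
    (hm : (a : ℂ) * (L.ω₁ / b) ∈ L.lattice) : (b : ℤ) ∣ a := by
  have e : (a : ℂ) * (L.ω₁ / b) = ((a / b : ℚ) : ℂ) * L.ω₁ + ((0 : ℚ) : ℂ) * L.ω₂ := by
    push_cast
    ring
  rw [e, PeriodPair.mul_ω₁_add_mul_ω₂_mem_lattice] at hm
  have h1 : ((((a / b : ℚ)).num : ℤ) : ℚ) = (a / b : ℚ) := (Rat.den_eq_one_iff _).1 hm.1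
  have hb' : (b : ℚ) ≠ 0 := by exact_mod_cast hb
  refine ⟨((a / b : ℚ)).num, ?_⟩
  have h2 : (a : ℚ) = b * ((((a / b : ℚ)).num : ℤ) : ℚ) := by
    rw [h1]
    field_simp
  exact_mod_cast h2

/-- multiples by integers -/
theorem zmul (L : PeriodPair) (n : ℤ) {z : ℂ} (hz : z ∈ L.lattice) : (n : ℂ) * z ∈ L.lattice := by
  rw [← zsmul_eq_mul]
  exact zsmul_mem hz n

end GEN

open _root_.Pool.Agent.OBE.GEN in
theorem tb_GEN (h2 : Sb_GRN) (h3 : Sb_TNC) : Sb_GEN := by
  intro p V L M u e lam u' e' lam' μ hC hL hM hμ hI R hR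
  obtain ⟨ξ, grL⟩ := h2 p V L u e lam hC hL
  obtain ⟨ξ', grM⟩ := h2 p V M u' e' lam' hC hM
  have tL := h3 p V L u e lam hC hL
  have tM := h3 p V M u' e' lam' hC hM
  obtain ⟨-, n, hn0, hn⟩ := u_BAC.2 L M μ hμ hI
  have hnpos : 0 < n := Nat.pos_of_ne_zero hn0
  have hp2 := hC.pp.two_le
  -- the two primes
  obtain ⟨l, hl1, hl⟩ := Nat.exists_infinite_primes (p * n + 1)
  obtain ⟨l', hl1', hl'⟩ := Nat.exists_infinite_primes (l + 1)
  have hll : l ≠ l' := by omega
  have hpn1 : p ≤ p * n := Nat.le_mul_of_pos_right p hnpos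
  have hpn2 : n ≤ p * n := Nat.le_mul_of_pos_left n (by omega)
  have hpl : ¬ p ∣ l := by
    intro h
    have := (Nat.prime_dvd_prime_iff_eq hC.pp hl).1 h
    omega
  have hpl' : ¬ p ∣ l' := by
    intro h
    have := (Nat.prime_dvd_prime_iff_eq hC.pp hl').1 h
    omega
  have hln : ¬ l ∣ n := fun h => by
    have := Nat.le_of_dvd hnpos h
    omega
  have hln' : ¬ l' ∣ n := fun h => by
    have := Nat.le_of_dvd hnpos h
    omega
  have hpm : ¬ p ∣ l * l' := by
    intro h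
    rcases hC.pp.dvd_mul.1 h with h | h
    · exact hpl h
    · exact hpl' h
  have hl0 : (l : ℂ) ≠ 0 := by exact_mod_cast hl.ne_zero
  have hl0' : (l' : ℂ) ≠ 0 := by exact_mod_cast hl'.ne_zero
  set w : ℂ := L.ω₁ / l with hw
  set z : ℂ := L.ω₁ / l' with hz
  have o1 := L.ω₁_mem_lattice
  have lw : (l : ℂ) * w ∈ L.lattice := by
    rw [hw, mul_div_cancel₀ _ hl0]
    exact o1
  have lz : (l' : ℂ) * z ∈ L.lattice := by
    rw [hz, mul_div_cancel₀ _ hl0']
    exact o1
  -- the combinations of `z` and `w` are not in the lattice, even after multiplication by `n`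
  have comb : ∀ a b : ℤ, ¬ ((l' : ℤ) ∣ a ∧ (l : ℤ) ∣ b) →
      (n : ℂ) * ((a : ℂ) * z + (b : ℂ) * w) ∉ L.lattice := by
    intro a b hab hm
    apply hab
    have e1 : (n : ℂ) * ((a : ℂ) * z + (b : ℂ) * w) =
        ((n * (a * l + b * l') : ℤ) : ℂ) * (L.ω₁ / ((l * l' : ℕ) : ℂ)) := by
      rw [hz, hw]
      push_cast
      field_simp
    rw [e1] at hm
    have h5 := frac L _ _ (Nat.mul_ne_zero hl.ne_zero hl'.ne_zero) hm
    have hlz : Prime (l : ℤ) := Nat.prime_iff_prime_int.1 hl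
    have hlz' : Prime (l' : ℤ) := Nat.prime_iff_prime_int.1 hl'
    have hNl : ¬ (l : ℤ) ∣ (n : ℤ) := fun h => hln (by exact_mod_cast h)
    have hNl' : ¬ (l' : ℤ) ∣ (n : ℤ) := fun h => hln' (by exact_mod_cast h)
    have hd1 : (l : ℤ) ∣ a * l + b * l' := by
      have : (l : ℤ) ∣ (n : ℤ) * (a * l + b * l') := Dvd.dvd.trans ⟨(l' : ℤ), by push_cast; ring⟩ h5
      exact (hlz.dvd_or_dvd this).resolve_left hNl
    have hd2 : (l' : ℤ) ∣ a * l + b * l' := by
      have : (l' : ℤ) ∣ (n : ℤ) * (a * l + b * l') := Dvd.dvd.trans ⟨(l : ℤ), by push_cast; ring⟩ h5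
      exact (hlz'.dvd_or_dvd this).resolve_left hNl'
    have hne1 : ¬ (l : ℤ) ∣ (l' : ℤ) := fun h =>
      hll ((Nat.prime_dvd_prime_iff_eq hl hl').1 (by exact_mod_cast h))
    have hne2 : ¬ (l' : ℤ) ∣ (l : ℤ) := fun h =>
      hll ((Nat.prime_dvd_prime_iff_eq hl' hl).1 (by exact_mod_cast h)).symm
    constructor
    · have : (l' : ℤ) ∣ a * l := (dvd_add_left (Dvd.intro_left b rfl)).1 hd2
      exact (hlz'.dvd_or_dvd this).resolve_right hne2
    · have : (l : ℤ) ∣ b * l' := (dvd_add_right (Dvd.intro_left a rfl)).1 hd1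
      exact (hlz.dvd_or_dvd this).resolve_right hne1
  have one_not : ∀ k : ℕ, k.Prime → ∀ s : ℤ, s = 1 ∨ s = -1 → ¬ (k : ℤ) ∣ s := by
    intro k hk s hs h
    have h6 : (k : ℤ) ∣ 1 := by
      rcases hs with rfl | rfl
      · exact h
      · exact (dvd_neg.1 h)
    have h7 : k ∣ 1 := by exact_mod_cast h6
    exact hk.one_lt.ne' (Nat.dvd_one.1 h7)
  -- points of `L`
  have ptL : ∀ (a b c : ℤ) (q : ℂ), (n : ℂ) * q ∈ L.lattice →
      ¬ ((l' : ℤ) ∣ a ∧ (l : ℤ) ∣ b) →
      ¬ InK V L (xu L u e) ((a : ℂ) * z + (b : ℂ) * w + (c : ℂ) * q) := by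
    intro a b c q hq hab hin
    apply comb a b hab
    have h4 : InK V L (xu L u e) ((n : ℂ) * ((a : ℂ) * z + (b : ℂ) * w)) := by
      have e2 : (n : ℂ) * ((a : ℂ) * z + (b : ℂ) * w) =
          (n : ℂ) * ((a : ℂ) * z + (b : ℂ) * w + (c : ℂ) * q) -
            ((c : ℤ) : ℂ) * ((n : ℂ) * q) := by
        ring
      rw [e2]
      exact Pool.Agent.MUXV.inK_sub grL (Pool.Agent.MUXV.inK_nat grL hin n)
        (Pool.Agent.MUXV.inK_of_mem (zmul L _ hq))
    refine (tL (l * l') hpm).2 _ ?_ h4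
    have e1 : ((l * l' : ℕ) : ℂ) * ((n : ℂ) * ((a : ℂ) * z + (b : ℂ) * w)) =
        ((n * l * a : ℤ) : ℂ) * ((l' : ℂ) * z) + ((n * l' * b : ℤ) : ℂ) * ((l : ℂ) * w) := by
      push_cast
      ring
    rw [e1]
    exact add_mem (zmul L _ lz) (zmul L _ lw)
  -- points of `M`
  have ptM : ∀ (a b : ℤ), ¬ ((l' : ℤ) ∣ a ∧ (l : ℤ) ∣ b) →
      μ * ((a : ℂ) * z + (b : ℂ) * w) ∉ M.lattice ∧
      ¬ InK V M (xu M u' e') (μ * ((a : ℂ) * z + (b : ℂ) * w)) := by
    intro a b hab
    have h4 : μ * ((a : ℂ) * z + (b : ℂ) * w) ∉ M.lattice := fun h => comb a b hab (hn _ h)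
    refine ⟨h4, fun hin => h4 ((tM (l * l') hpm).2 _ ?_ hin)⟩
    have e1 : ((l * l' : ℕ) : ℂ) * (μ * ((a : ℂ) * z + (b : ℂ) * w)) =
        μ * (((l * a : ℤ) : ℂ) * ((l' : ℂ) * z) + ((l' * b : ℤ) : ℂ) * ((l : ℂ) * w)) := by
      push_cast
      ring
    rw [e1]
    exact hI _ (add_mem (zmul L _ lz) (zmul L _ lw))
  have hz1 : ∀ b : ℤ, ∀ s : ℤ, s = 1 ∨ s = -1 → ¬ ((l' : ℤ) ∣ s ∧ (l : ℤ) ∣ b) := fun b s hs h =>
    one_not l' hl' s hs h.1
  have hw1 : ∀ a : ℤ, ∀ s : ℤ, s = 1 ∨ s = -1 → ¬ ((l' : ℤ) ∣ a ∧ (l : ℤ) ∣ s) := fun a s hs h =>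
    one_not l hl s hs h.2
  have hn00 : (n : ℂ) * 0 ∈ L.lattice := by rw [mul_zero]; exact L.lattice.zero_mem
  obtain ⟨mz, iz⟩ := ptM 1 0 (hz1 0 1 (Or.inl rfl))
  obtain ⟨mw, iw⟩ := ptM 0 1 (hw1 0 1 (Or.inl rfl))
  obtain ⟨-, ip⟩ := ptM 1 1 (hz1 1 1 (Or.inl rfl))
  obtain ⟨-, im⟩ := ptM 1 (-1) (hz1 (-1) 1 (Or.inl rfl))
  have ez : ((1 : ℤ) : ℂ) * z + ((0 : ℤ) : ℂ) * w = z := by push_cast; ring
  have ew : ((0 : ℤ) : ℂ) * z + ((1 : ℤ) : ℂ) * w = w := by push_cast; ring
  have ep : μ * (((1 : ℤ) : ℂ) * z + ((1 : ℤ) : ℂ) * w) = μ * z + μ * w := by push_cast; ring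
  have em' : μ * (((1 : ℤ) : ℂ) * z + ((-1 : ℤ) : ℂ) * w) = μ * z - μ * w := by push_cast; ring
  rw [ez] at mz iz
  rw [ew] at mw iw
  rw [ep] at ip
  rw [em'] at im
  -- the product formula
  have pf := u_PFI L M μ R hμ hI hR w mw z mz
  have hu0 : u ^ 2 ≠ 0 := pow_ne_zero _ hL.u0
  have hu0' : u' ^ 2 ≠ 0 := pow_ne_zero _ hM.u0
  have dL : ∀ a b : ℂ, L.weierstrassP a - L.weierstrassP b =
      u ^ 2 * (xu L u e a - xu L u e b) := by
    intro a b
    unfold xu
    rw [← sub_div, mul_div_cancel₀ _ hu0]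
    ring
  have dM : ∀ a b : ℂ, M.weierstrassP a - M.weierstrassP b =
      u' ^ 2 * (xu M u' e' a - xu M u' e' b) := by
    intro a b
    unfold xu
    rw [← sub_div, mul_div_cancel₀ _ hu0']
    ring
  have vM : V.valuation (M.weierstrassP (μ * z) - M.weierstrassP (μ * w)) =
      V.valuation (u' ^ 2) := by
    rw [dM, map_mul, Pool.Agent.MUXV.v_X_sub grM iz iw ip im, mul_one]
  have ptL' : ∀ (a b c : ℤ) (q y : ℂ), (n : ℂ) * q ∈ L.lattice →
      ¬ ((l' : ℤ) ∣ a ∧ (l : ℤ) ∣ b) → y = (a : ℂ) * z + (b : ℂ) * w + (c : ℂ) * q →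
      ¬ InK V L (xu L u e) y := by
    intro a b c q y hq hab hy
    rw [hy]
    exact ptL a b c q hq hab
  have jz : ¬ InK V L (xu L u e) z :=
    ptL' 1 0 0 0 z hn00 (hz1 0 1 (Or.inl rfl)) (by push_cast; ring)
  have vL : V.valuation (L.weierstrassP z - L.weierstrassP w) = V.valuation (u ^ 2) := by
    rw [dL, map_mul, Pool.Agent.MUXV.v_X_sub grL jz
      (ptL' 0 1 0 0 w hn00 (hw1 0 1 (Or.inl rfl)) (by push_cast; ring))
      (ptL' 1 1 0 0 _ hn00 (hz1 1 1 (Or.inl rfl)) (by push_cast; ring))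
      (ptL' 1 (-1) 0 0 _ hn00 (hz1 (-1) 1 (Or.inl rfl)) (by push_cast; ring)), mul_one]
  have vq : ∀ q ∈ R, V.valuation (L.weierstrassP z - L.weierstrassP q) =
      V.valuation (u ^ 2) * max 1 (V.valuation (xu L u e q)) := by
    intro q hq
    have hnq := hn q (hR.mem q hq)
    rw [dL, map_mul]
    congr 1
    by_cases jq : InK V L (xu L u e) q
    · have h8 : 1 < V.valuation (xu L u e q) := by
        rcases jq with h | h
        · exact absurd h (hR.ne q hq)
        · rw [← not_le, ValuationSubring.valuation_le_one_iff]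
          exact h
      have h9 := (Pool.Agent.MUXV.int_X jz).2
      rw [max_eq_right h8.le]
      exact Valuation.map_sub_eq_of_lt_right _ (h9.trans_lt h8)
    · rw [max_eq_left (Pool.Agent.MUXV.int_X jq).2]
      exact Pool.Agent.MUXV.v_X_sub grL jz jq
        (ptL' 1 0 1 q _ hnq (hz1 0 1 (Or.inl rfl)) (by push_cast; ring))
        (ptL' 1 0 (-1) q _ hnq (hz1 0 1 (Or.inl rfl)) (by push_cast; ring))
  have vwq : ∀ q ∈ R, V.valuation (L.weierstrassP z - L.weierstrassP (w + q)) =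
      V.valuation (u ^ 2) := by
    intro q hq
    have hnq := hn q (hR.mem q hq)
    rw [dL, map_mul, Pool.Agent.MUXV.v_X_sub grL jz
      (ptL' 0 1 1 q _ hnq (hw1 0 1 (Or.inl rfl)) (by push_cast; ring))
      (ptL' 1 1 1 q _ hnq (hz1 1 1 (Or.inl rfl)) (by push_cast; ring))
      (ptL' 1 (-1) (-1) q _ hnq (hz1 (-1) 1 (Or.inl rfl)) (by push_cast; ring)), mul_one]
  have pv := congrArg V.valuation pf
  rw [map_mul, map_mul, map_mul, map_prod, map_prod, vM, vL, Finset.prod_congr rfl vq,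
    Finset.prod_congr rfl vwq, Finset.prod_mul_distrib, Finset.prod_const] at pv
  have hT0 : V.valuation (u ^ 2) ^ R.card ≠ 0 := pow_ne_zero _ ((_root_.map_ne_zero _).2 hu0)
  have h6 : V.valuation (μ ^ 2) * V.valuation (u' ^ 2) *
      ∏ q ∈ R, max 1 (V.valuation (xu L u e q)) = V.valuation (u ^ 2) := by
    apply mul_right_cancel₀ hT0
    rw [← pv]
    ac_rfl
  rw [← map_pow, div_pow, mul_pow, map_div₀, map_mul, div_mul_eq_mul_div, h6]
  exact div_self ((_root_.map_ne_zero _).2 hu0)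

end

end Pool.Agent.OBE


end

section

/-!
# OB, block E, module MUL (helper92): the isogenies `μ_i x : L_(i0) → L_i` have degree prime to `p`
-/

set_option autoImplicit false

open Polynomial

namespace Pool.Agent.OBE

open _root_.MU3 _root_.Pool.Agent.MU3A _root_.Pool.Agent.MU3B _root_.Pool.Agent.MUX _root_.Pool.Agent.MUXU _root_.Pool.Agent.MUXE
open _root_.Pool.Agent.RI _root_.Pool.Agent.NS _root_.Pool.Agent.OB

noncomputable section

namespace MUL

theorem nI_mem' {A B : ℤ} (b : Ideal (OO A B)) : ((nI b : ℕ) : OO A B) ∈ b := by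
  rw [← Ideal.Quotient.eq_zero_iff_mem, map_natCast, ← nsmul_one]
  exact card_nsmul_eq_zero'

theorem nm_mul' {A B : ℤ} (x y : OO A B) : nm (x * y) = nm x * nm y := by
  simp only [nm, QuadraticAlgebra.re_mul, QuadraticAlgebra.im_mul]
  ring

theorem mul_star' {A B : ℤ} (x : OO A B) : x * star x = ((nm x : ℤ) : OO A B) := by
  apply QuadraticAlgebra.ext
  · simp only [QuadraticAlgebra.re_mul, QuadraticAlgebra.re_star, QuadraticAlgebra.im_star,
      QuadraticAlgebra.re_intCast, nm, Int.cast_id]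
    ring
  · simp only [QuadraticAlgebra.im_mul, QuadraticAlgebra.re_star, QuadraticAlgebra.im_star,
      QuadraticAlgebra.im_intCast]
    ring

/-- the norm of an element prime to `n` is prime to `p`, `p ∣ n` -/
theorem not_dvd_nm {A B : ℤ} (p n : ℕ) (hp : p.Prime) (hpn : p ∣ n) (x : OO A B)
    (hx : IsCoprime x ((n : ℕ) : OO A B)) : ¬ (p : ℤ) ∣ nm x := by
  intro hd
  obtain ⟨y, t, hyt⟩ := hx
  have h1 : nm (y * x) = nm y * nm x := nm_mul' y x
  have h2 : y * x = 1 - t * ((n : ℕ) : OO A B) := by rw [← hyt]; ring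
  have hre : (y * x).re = 1 - (n : ℤ) * t.re := by
    rw [h2]
    simp only [QuadraticAlgebra.re_sub, QuadraticAlgebra.re_one, QuadraticAlgebra.re_mul,
      QuadraticAlgebra.re_natCast, QuadraticAlgebra.im_natCast]
    ring
  have him : (y * x).im = -((n : ℤ) * t.im) := by
    rw [h2]
    simp only [QuadraticAlgebra.im_sub, QuadraticAlgebra.im_one, QuadraticAlgebra.im_mul,
      QuadraticAlgebra.re_natCast, QuadraticAlgebra.im_natCast]
    ring
  have h3 : nm (y * x) - 1 = (n : ℤ) * ((n : ℤ) * t.re ^ 2 - 2 * t.re +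
      B * (-t.im + (n : ℤ) * t.re * t.im) - A * (n : ℤ) * t.im ^ 2) := by
    unfold nm
    rw [hre, him]
    ring
  have h4 : (p : ℤ) ∣ nm (y * x) := by
    rw [h1]
    exact Dvd.dvd.mul_left hd _
  have h5 : (p : ℤ) ∣ nm (y * x) - 1 := by
    rw [h3]
    exact Dvd.dvd.mul_right (by exact_mod_cast hpn) _
  have h6 : (p : ℤ) ∣ 1 := (Int.dvd_iff_dvd_of_dvd_sub h5).1 h4
  exact hp.one_lt.ne' (by exact_mod_cast Int.eq_one_of_dvd_one (by positivity) h6)

end MUL

open _root_.Pool.Agent.OBE.MUL in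
theorem tb_MUL : Sb_MUL := by
  intro p A B hp hR n ι R _ hpn i x hx
  obtain ⟨φ, hφ⟩ := hR.hom
  have hnl := R.nl i
  have hnl0 := R.nl R.i0
  have hom : R.om i ≠ 0 := hnl.om_ne
  have hom0 : R.om R.i0 ≠ 0 := hnl0.om_ne
  have hN0 : nI (R.b i) ≠ 0 := by
    intro h0
    have h1 := R.cop i
    rw [h0, Nat.coprime_zero_left] at h1
    rw [h1] at hpn
    exact hp.one_lt.ne' (Nat.dvd_one.1 hpn)
  have hNC : ((nI (R.b i) : ℕ) : ℂ) ≠ 0 := by exact_mod_cast hN0
  have hNb : ((nI (R.b i) : ℕ) : OO A B) ∈ R.b i := nI_mem' (R.b i)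
  have heN : ∀ k : ℕ, emb ((k : ℕ) : OO A B) = (k : ℂ) := fun k => by rw [← hφ, map_natCast]
  have heZ : ∀ k : ℤ, emb ((k : ℤ) : OO A B) = (k : ℂ) := fun k => by rw [← hφ, map_intCast]
  have hem : ∀ x y : OO A B, emb (x * y) = emb x * emb y := fun x y => by
    rw [← hφ, ← hφ, ← hφ, map_mul]
  have hnmx := not_dvd_nm p n hp hpn x hx
  have hx0 : x ≠ 0 := by
    rintro rfl
    apply hnmx
    simp [nm]
  have hex : emb x ≠ 0 := fun h => hx0 (hR.inj0 x h)
  have hmu : muX R i ≠ 0 := by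
    unfold muX
    exact div_ne_zero (mul_ne_zero hom hNC) hom0
  have hL0 : ∀ z, z ∈ (R.L R.i0).lattice ↔ ∃ x : OO A B, z = R.om R.i0 * emb x := by
    intro z
    rw [hnl0.mem, R.b0]
    simp
  refine ⟨mul_ne_zero hmu hex, ?_, (nm x).natAbs * nI (R.b i), ?_, ?_⟩
  · intro u hu
    obtain ⟨y, rfl⟩ := (hL0 u).1 hu
    rw [hnl.mem]
    refine ⟨(nI (R.b i) : ℕ) * (x * y), (R.b i).mul_mem_right _ hNb, ?_⟩
    rw [hem, hem, heN]
    unfold muX
    field_simp
  · intro hd
    rcases hp.dvd_mul.1 hd with h4 | h4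
    · exact hnmx (Int.natCast_dvd.2 h4)
    · have h5 : p ∣ Nat.gcd (nI (R.b i)) n := Nat.dvd_gcd h4 hpn
      rw [Nat.Coprime.gcd_eq_one (R.cop i)] at h5
      exact hp.one_lt.ne' (Nat.dvd_one.1 h5)
  · intro z hz
    obtain ⟨y, -, hy⟩ := (hnl.mem _).1 hz
    have h1 : (nI (R.b i) : ℂ) * emb x * z = R.om R.i0 * emb y := by
      unfold muX at hy
      field_simp at hy
      linear_combination hy
    have h2 : ((nm x : ℤ) : ℂ) = emb x * emb (star x) := by
      rw [← hem, MUL.mul_star', heZ]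
    have h7 : ((nm x : ℤ) : ℂ) * (nI (R.b i) : ℂ) * z ∈ (R.L R.i0).lattice := by
      rw [hL0]
      refine ⟨star x * y, ?_⟩
      rw [hem, h2]
      linear_combination (emb (star x)) * h1
    rcases Int.natAbs_eq (nm x) with h8 | h8
    · have h9 : (((nm x).natAbs * nI (R.b i) : ℕ) : ℂ) * z =
          ((nm x : ℤ) : ℂ) * (nI (R.b i) : ℂ) * z := by
        have : ((nm x : ℤ) : ℂ) = (((nm x).natAbs : ℕ) : ℂ) := by
          rw [← Int.cast_natCast, ← h8]
        rw [this, Nat.cast_mul]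
      rw [h9]
      exact h7
    · have h9 : (((nm x).natAbs * nI (R.b i) : ℕ) : ℂ) * z =
          -(((nm x : ℤ) : ℂ) * (nI (R.b i) : ℂ) * z) := by
        have : ((nm x : ℤ) : ℂ) = -(((nm x).natAbs : ℕ) : ℂ) := by
          rw [← Int.cast_natCast, ← Int.cast_neg, ← h8]
        rw [this, Nat.cast_mul]
        ring
      rw [h9]
      exact neg_mem h7

end

end Pool.Agent.OBE


end

section

/-!
# OB, block E, module PIS: the isogeny `L → ν P⁻¹ L` and the points of `E[P]` (helper78)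
-/

set_option autoImplicit false

open Polynomial

namespace Pool.Agent.OBE

open _root_.MU3 _root_.Pool.Agent.MU3A _root_.Pool.Agent.MU3B _root_.Pool.Agent.MUX _root_.Pool.Agent.MUXU _root_.Pool.Agent.MUXE
open _root_.Pool.Agent.RI _root_.Pool.Agent.NS _root_.Pool.Agent.OB
open _root_.Pool.Agent.MUXV (GR InK tX)
open _root_.Pool.Agent.NSE (su ru WL IntP)

noncomputable section

namespace PIS

theorem xu_per (L : PeriodPair) (u e z w : ℂ) (h : z - w ∈ L.lattice) :
    xu L u e z = xu L u e w := by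
  have h1 : L.weierstrassP z = L.weierstrassP w := by
    have h2 := L.weierstrassP_add_coe w ⟨z - w, h⟩
    rw [← h2]
    congr 1
    simp
  unfold xu
  rw [h1]

theorem card_of {A B : ℤ} (P : Ideal (OO A B)) (L : PeriodPair) (R : Finset ℂ) (q0 : ℂ)
    (hne : ∀ q ∈ R, q ∉ L.lattice) (hinj : ∀ q ∈ R, ∀ q' ∈ R, q - q' ∈ L.lattice → q = q')
    (φ : OO A B →+* ℂ) (hφ : ∀ x, φ x = emb x)
    (hker : ∀ x : OO A B, emb x * q0 ∈ L.lattice ↔ x ∈ P)
    (hcov : ∀ q ∈ R, ∃ x : OO A B, q - emb x * q0 ∈ L.lattice)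
    (hsur : ∀ x : OO A B, x ∉ P → ∃ q ∈ R, emb x * q0 - q ∈ L.lattice) :
    R.card + 1 = nI P := by
  classical
  have hsub : ∀ x y : OO A B, emb (x - y) = emb x - emb y := by
    intro x y
    rw [← hφ, ← hφ, ← hφ, map_sub]
  have h0R : (0 : ℂ) ∉ R := fun h => hne 0 h (zero_mem _)
  have hcov' : ∀ q : ℂ, ∃ x : OO A B, q ∈ insert 0 R → q - emb x * q0 ∈ L.lattice := by
    intro q
    by_cases hq : q ∈ R
    · obtain ⟨x, hx⟩ := hcov q hq
      exact ⟨x, fun _ => hx⟩
    · refine ⟨0, fun h => ?_⟩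
      rcases Finset.mem_insert.1 h with rfl | h
      · rw [(hφ 0).symm.trans (map_zero φ)]
        simp
      · exact absurd h hq
  choose g hg using hcov'
  have hinj' : ∀ q ∈ insert 0 R, ∀ q' ∈ insert 0 R, q - q' ∈ L.lattice → q = q' := by
    intro q hq q' hq' h
    rcases Finset.mem_insert.1 hq with rfl | hq
    · rcases Finset.mem_insert.1 hq' with rfl | hq'
      · rfl
      · exact absurd (by simpa using h) (hne q' hq')
    · rcases Finset.mem_insert.1 hq' with rfl | hq'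
      · exact absurd (by simpa using h) (hne q hq)
      · exact hinj q hq q' hq' h
  let f : {q : ℂ // q ∈ insert 0 R} → OO A B ⧸ P := fun q => Ideal.Quotient.mk P (g q.1)
  have hf : Function.Bijective f := by
    constructor
    · rintro ⟨q, hq⟩ ⟨q', hq'⟩ h
      have h1 : g q - g q' ∈ P := (Ideal.Quotient.eq).1 h
      have h2 := (hker _).2 h1
      rw [hsub] at h2
      have h3 := add_mem (sub_mem (hg q hq) (hg q' hq')) h2
      have h4 : q - q' ∈ L.lattice := by
        convert h3 using 1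
        ring
      exact Subtype.ext (hinj' q hq q' hq' h4)
    · intro c
      obtain ⟨x, rfl⟩ := Ideal.Quotient.mk_surjective c
      have key : ∃ q ∈ insert 0 R, emb x * q0 - q ∈ L.lattice := by
        by_cases hx : x ∈ P
        · exact ⟨0, Finset.mem_insert_self _ _, by simpa using (hker x).2 hx⟩
        · obtain ⟨q, hq, h⟩ := hsur x hx
          exact ⟨q, Finset.mem_insert_of_mem hq, h⟩
      obtain ⟨q, hq, h⟩ := key
      refine ⟨⟨q, hq⟩, ?_⟩
      refine (Ideal.Quotient.eq).2 ((hker _).1 ?_)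
      rw [hsub]
      have h3 := neg_mem (add_mem h (hg q hq))
      convert h3 using 1
      ring
  have h1 := Nat.card_congr (Equiv.ofBijective f hf)
  rw [Nat.card_eq_fintype_card, Fintype.card_coe, Finset.card_insert_of_notMem h0R] at h1
  exact h1

end PIS

open _root_.Pool.Agent.OBE.PIS in
theorem tb_PIS (h1 : Sb_GEN) (h2 : Sb_UNT) (h3 : Sb_PVL) (h4 : Su_BAC) : Sb_PIS := by
  intro p er A B P V al C L N nu u e lam u' e' lam' hL hN hQ hg hg'
  obtain ⟨φ, hφ⟩ := C.ring.hom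
  have hmul : ∀ x y : OO A B, emb (x * y) = emb x * emb y := by
    intro x y
    rw [← hφ, ← hφ, ← hφ, map_mul]
  have hnat : ∀ n : ℕ, emb ((n : ℕ) : OO A B) = n := fun n => by rw [← hφ, map_natCast]
  obtain ⟨tra1, tra2, tra3, tra4, tra5, tra6, tra7, tra8, tra9⟩ := te_TRA A B C.ring L hL
  have hCp : Cp p V := C.toCp
  have hν : nu ≠ 0 := hQ.1
  have hTor : ∀ z, nu * z ∈ N.lattice ↔ Tor P L z := hQ.2
  have hIsg : Isg L N nu := fun w hw => (hTor w).2 (fun x _ => tra1 x w hw)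
  have hu := hg.u0
  have hu' := hg'.u0
  have hal0 : emb al ≠ 0 := by
    intro h0
    have := C.ring.inj0 al h0
    exact C.al2 (this ▸ zero_mem _)
  have hva : V.valuation (emb al) ≠ 0 := (Valuation.ne_zero_iff _).2 hal0
  have hva1 : V.valuation (emb al) < 1 := by
    by_contra hc
    have h5 : 1 ≤ V.valuation (emb al) := not_lt.1 hc
    have h6 : (1 : V.ValueGroup) ≤ V.valuation (emb al) ^ er := one_le_pow_of_one_le' h5 er
    rw [C.alv] at h6
    exact absurd C.vp (not_lt.2 h6)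
  -- the multiplier
  have hκ : emb al / nu ≠ 0 := div_ne_zero hal0 hν
  have hIκ : Isg N L (emb al / nu) := by
    intro w hw
    have h5 : nu * (w / nu) ∈ N.lattice := by rwa [mul_div_cancel₀ _ hν]
    have h6 := (hTor _).1 h5 al C.alP
    convert h6 using 1
    field_simp
  obtain ⟨N0, hN0, hN1⟩ := C.alN
  have hker : Ker0 V N L u' e' (emb al / nu) := by
    refine (h2 p V N L u' e' lam' u e lam (emb al / nu) hCp hg' hg hκ hIκ).2 N0 hN0 ?_
    intro z hz
    have h5 : emb al * (z / nu) ∈ L.lattice := by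
      convert hz using 1
      field_simp
    have h6 : Tor P L ((N0 : ℂ) * (z / nu)) := by
      intro x hx
      obtain ⟨y, hy⟩ := hN1 x hx
      have h7 := tra1 y _ h5
      rw [← mul_assoc, ← hmul, mul_comm y al, ← hy, hmul, hnat] at h7
      convert h7 using 1
      ring
    have h8 := (hTor _).2 h6
    convert h8 using 1
    field_simp
  have hm : V.valuation (emb al / nu * u / u') = 1 :=
    (h2 p V N L u' e' lam' u e lam (emb al / nu) hCp hg' hg hκ hIκ).1.1 hker
  have hmult : V.valuation (nu * u' / u) = V.valuation (emb al) := by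
    have h5 : emb al = (nu * u' / u) * (emb al / nu * u / u') := by
      field_simp
    rw [h5, map_mul, hm, mul_one]
  obtain ⟨⟨R, hR⟩, -⟩ := h4.2 L N nu hν hIsg
  have hgen := h1 p V L N u e lam u' e' lam' nu hCp hg hg' hν hIsg R hR
  rw [hmult] at hgen
  have torR : ∀ q ∈ R, Tor P L q := fun q hq => (hTor q).1 (hR.mem q hq)
  -- a point with a pole
  obtain ⟨q0, hq0R, hq0v⟩ : ∃ q ∈ R, 1 < V.valuation (xu L u e q) := by
    by_contra hc
    push Not at hc
    have h5 : ∏ q ∈ R, max 1 (V.valuation (xu L u e q)) = 1 :=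
      Finset.prod_eq_one fun q hq => max_eq_left (hc q hq)
    rw [h5, mul_one] at hgen
    have h6 : V.valuation (emb al) ^ 2 < 1 := pow_lt_one' hva1 two_ne_zero
    rw [hgen] at h6
    exact lt_irrefl _ h6
  have hq0L := hR.ne q0 hq0R
  have hq0T := torR q0 hq0R
  have hq0K : InK V L (xu L u e) q0 := by
    right
    rw [← ValuationSubring.valuation_le_one_iff]
    exact not_le.2 hq0v
  have hpvl := h3 p er A B P V al C L u e lam hL hg
  have hkerP : ∀ x : OO A B, emb x * q0 ∈ L.lattice ↔ x ∈ P := by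
    intro x
    constructor
    · intro h
      by_contra hx
      exact ((hpvl.1 x hx).2 q0 hq0K hq0L).1 h
    · exact fun hx => hq0T x hx
  have hcov : ∀ z, Tor P L z → ∃ x : OO A B, z - emb x * q0 ∈ L.lattice := fun z hz =>
    (te_TRB A B C.ring L hL).2 P C.ne C.max q0 z hq0T hz hq0L
  have hall : ∀ z, Tor P L z → z ∉ L.lattice → InK V L (xu L u e) z ∧
      V.valuation (xu L u e z) = V.valuation (xu L u e q0) := by
    intro z hz hzL
    obtain ⟨x, hx⟩ := hcov z hz
    have hxP : x ∉ P := by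
      intro h
      apply hzL
      have h5 := add_mem hx ((hkerP x).2 h)
      rwa [sub_add_cancel] at h5
    obtain ⟨k1, k2, k3⟩ := (hpvl.1 x hxP).2 q0 hq0K hq0L
    have h5 := xu_per L u e _ _ hx
    rw [h5]
    refine ⟨Or.inr ?_, k3⟩
    rw [h5]
    rcases k2 with k2 | k2
    · exact absurd k2 k1
    · exact k2
  have hcard : R.card + 1 = nI P := by
    refine card_of P L R q0 hR.ne hR.inj φ hφ hkerP (fun q hq => hcov q (torR q hq)) ?_
    intro x hx
    have h5 : Tor P L (emb x * q0) := tra3 P x q0 hq0T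
    exact hR.surj _ ((hTor _).2 h5) (fun h => hx ((hkerP x).1 h))
  have hprod : ∏ q ∈ R, max 1 (V.valuation (xu L u e q)) =
      V.valuation (xu L u e q0) ^ (nI P - 1) := by
    have h5 : nI P - 1 = R.card := by omega
    rw [h5, ← Finset.prod_const]
    refine Finset.prod_congr rfl fun q hq => ?_
    rw [(hall q (torR q hq) (hR.ne q hq)).2]
    exact max_eq_right hq0v.le
  rw [hprod] at hgen
  refine ⟨hmult, ⟨R, hR, hcard⟩, fun z hz hzL => ?_⟩
  obtain ⟨k1, k2⟩ := hall z hz hzL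
  have hT0 : V.valuation (xu L u e q0) ≠ 0 := fun h => by
    rw [h] at hq0v
    exact absurd hq0v (not_lt.2 zero_le)
  have hz0 : xu L u e z ≠ 0 := by
    intro h
    rw [h, map_zero] at k2
    exact hT0 k2.symm
  refine ⟨k1, hz0, ?_⟩
  unfold su
  rw [map_inv₀, k2, inv_pow]
  exact inv_eq_of_mul_eq_one_left hgen

end

end Pool.Agent.OBE


end

section

/-!
# OB, block E, module PVL (helper95): the kernel of reduction as a module over the integers
-/

set_option autoImplicit false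

open Polynomial

namespace Pool.Agent.OBE

open _root_.MU3 _root_.Pool.Agent.MU3A _root_.Pool.Agent.MU3B _root_.Pool.Agent.MUX _root_.Pool.Agent.MUXU _root_.Pool.Agent.MUXE
open _root_.Pool.Agent.RI _root_.Pool.Agent.NS _root_.Pool.Agent.OB
open _root_.Pool.Agent.MUXV (GR InK tX)
open _root_.Pool.Agent.NSE (su ru WL IntP)

noncomputable section

theorem tb_PVL (hUNT : Sb_UNT) (hKIS : Sb_KIS) (hGRN : Sb_GRN) : Sb_PVL := by
  intro p er A B P V al c L u e lam hL hG
  have hCp : Cp p V := c.toCp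
  obtain ⟨φ, hφ⟩ := c.ring.hom
  have tra := te_TRA A B c.ring L hL
  obtain ⟨ξ, G⟩ := hGRN p V L u e lam hCp hG
  have hu := hG.u0
  have key : ∀ x : OO A B, x ∉ P → Ker0 V L L u e (emb x) ∧
      ∀ z, InK V L (xu L u e) z → z ∉ L.lattice →
        emb x * z ∉ L.lattice ∧ InK V L (xu L u e) (emb x * z) ∧
        V.valuation (xu L u e (emb x * z)) = V.valuation (xu L u e z) := by
    intro x hx
    have hx0 : x ≠ 0 := fun h => hx (h ▸ P.zero_mem)
    have he0 : emb x ≠ 0 := fun h => hx0 (c.ring.inj0 x h)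
    have hI : Isg L L (emb x) := fun w hw => tra.1 x w hw
    have hv : V.valuation (emb x * u / u) = 1 := by
      rw [mul_div_assoc, div_self hu, mul_one]
      exact c.unit x hx
    have hK : Ker0 V L L u e (emb x) :=
      ((hUNT p V L L u e lam u e lam (emb x) hCp hG hG he0 hI).1).2 hv
    exact ⟨hK, fun z hz hzL =>
      hKIS p V L L u e lam u e lam (emb x) hCp hG hG he0 hI hK z hz hzL⟩
  have k2 : ∀ (x : OO A B) (z : ℂ), InK V L (xu L u e) z →
      InK V L (xu L u e) (emb x * z) := by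
    intro x z hz
    have main : ∀ x : OO A B, x ∉ P → InK V L (xu L u e) (emb x * z) := by
      intro x hx
      by_cases hzL : z ∈ L.lattice
      · exact Or.inl (tra.1 x z hzL)
      · exact ((key x hx).2 z hz hzL).2.1
    by_cases hx : x ∈ P
    · have h1 : x + 1 ∉ P := by
        intro h
        have h4 : (1 : OO A B) ∈ P := by
          have h5 := P.sub_mem h hx
          rwa [add_sub_cancel_left] at h5
        exact c.max.ne_top ((Ideal.eq_top_iff_one P).2 h4)
      have h2 := main (x + 1) h1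
      have h3 := Pool.Agent.MUXV.inK_sub G h2 hz
      have h6 : emb (x + 1) * z - z = emb x * z := by
        rw [← hφ, map_add, map_one, hφ]
        ring
      rwa [h6] at h3
    · exact main x hx
  refine ⟨key, k2, ?_⟩
  intro m hm z hT hz
  obtain ⟨x, hxm, hxP⟩ := SetLike.not_le_iff_exists.1 hm
  by_contra hzL
  exact ((key x hxP).2 z hz hzL).1 (hT x hxm)

end

end Pool.Agent.OBE


end

section

/-!
# OB, block E: STB, the sets `XX` are stable under translation (helper64, for helper96)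

Model: `NS/F_STB.lean`.
-/

set_option autoImplicit false

open Polynomial

namespace Pool.Agent.OBE

open _root_.MU3 _root_.Pool.Agent.MU3A _root_.Pool.Agent.MU3B _root_.Pool.Agent.MUX _root_.Pool.Agent.MUXU _root_.Pool.Agent.MUXE
open _root_.Pool.Agent.RI _root_.Pool.Agent.NS _root_.Pool.Agent.OB
open _root_.Pool.Agent.MUXV (GR InK tX)
open _root_.Pool.Agent.NSE (su ru WL IntP)

noncomputable section

open _root_.Pool.Agent.NSRD in
open _root_.Pool.Agent.MUXI in
theorem tb_STB (hHIT : Si_HIT) (hIAF : Si_IAF) : Sb_STB := by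
  intro p A B P V al hR T n f hn hf hfp ι R D h hD
  let := algC h
  intro τ β hβ q hq
  have hC : MUX.CQ A B := hR.cq
  have hp2 : p ≠ 2 := by have := hR.p5; omega
  have hp0 : p ≠ 0 := hR.pp.ne_zero
  have hml : lvX p f n = p ^ (n + 1) * f := by
    unfold lvX q0
    rw [if_neg hp2]
    ring
  have h3n : 5 ≤ p ^ (n + 1) := by
    calc 5 ≤ p ^ 1 := by rw [pow_one]; exact hR.p5
      _ ≤ p ^ (n + 1) := Nat.pow_le_pow_right (by have := hR.p5; omega) (by omega)
  have hm2 : 2 ≤ lvX p f n := by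
    rw [hml]
    have := Nat.mul_le_mul h3n (Nat.one_le_iff_ne_zero.2 hf)
    omega
  have hcop : ∀ i, (nI (R.b i)).Coprime (lvX p f n) := by
    intro i
    rw [hml]
    have h1 := R.cop i
    exact Nat.Coprime.mul_right ((h1.coprime_mul_right_right).pow_right _)
      h1.coprime_mul_left_right
  have hex : ∃ (b : Ideal (OO A B)) (L : PeriodPair) (om : ℂ), IsNL b L om := ⟨_, _, _, R.nl R.i0⟩
  have hm0 := XXF.idl_ne (A := A) (B := B) hm2
  obtain ⟨-, hsur, hcmp, -, hch, -, hlow, -⟩ := hIAF A B hC T hex _ hm0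
  -- `P² = (p)`
  have hfac : P ^ 2 = idl (A := A) (B := B) p := by
    have h1 := hR.fac
    rw [(hR.nP rfl).2, Ideal.mul_top] at h1
    exact h1.symm
  -- `lvR P f n = (f) P^(2n+1)`
  have hlvf : lvR P f n ≤ idl (A := A) (B := B) (p * f) := by
    unfold lvR
    have h3 : P ^ (2 * n + 1) ≤ idl (A := A) (B := B) p := by
      rw [← hfac]
      exact Ideal.pow_le_pow_right (by omega)
    have h4 : idl (A := A) (B := B) (p * f) = idl f * idl p := by
      change Ideal.span {((p * f : ℕ) : OO A B)} =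
        Ideal.span {((f : ℕ) : OO A B)} * Ideal.span {((p : ℕ) : OO A B)}
      rw [Ideal.span_singleton_mul_span_singleton, Nat.cast_mul, mul_comm]
    rw [h4]
    exact Ideal.mul_mono_right h3
  have hlv0 : lvR P f n ≠ ⊥ := by
    have h1 : idl (A := A) (B := B) (lvX p f n) ≤ lvR P f n := by
      unfold lvR
      have h2 : idl (A := A) (B := B) (lvX p f n) = idl f * idl (p ^ (n + 1)) := by
        change Ideal.span {((lvX p f n : ℕ) : OO A B)} =
          Ideal.span {((f : ℕ) : OO A B)} * Ideal.span {((p ^ (n + 1) : ℕ) : OO A B)}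
        rw [Ideal.span_singleton_mul_span_singleton, hml, Nat.cast_mul, mul_comm]
      rw [h2]
      refine Ideal.mul_mono_right ?_
      have h5 : idl (A := A) (B := B) (p ^ (n + 1)) = P ^ (2 * (n + 1)) := by
        rw [pow_mul, hfac]
        change Ideal.span {((p ^ (n + 1) : ℕ) : OO A B)} = Ideal.span {((p : ℕ) : OO A B)} ^ (n + 1)
        rw [Ideal.span_singleton_pow, Nat.cast_pow]
      rw [h5]
      exact Ideal.pow_le_pow_right (by omega)
    intro h0
    rw [h0, le_bot_iff] at h1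
    exact hm0 h1
  have hle : idl (A := A) (B := B) (lvX p f n) ≤ lvR P f n := by
    unfold lvR
    have h2 : idl (A := A) (B := B) (lvX p f n) = idl f * idl (p ^ (n + 1)) := by
      change Ideal.span {((lvX p f n : ℕ) : OO A B)} =
        Ideal.span {((f : ℕ) : OO A B)} * Ideal.span {((p ^ (n + 1) : ℕ) : OO A B)}
      rw [Ideal.span_singleton_mul_span_singleton, hml, Nat.cast_mul, mul_comm]
    rw [h2]
    refine Ideal.mul_mono_right ?_
    have h5 : idl (A := A) (B := B) (p ^ (n + 1)) = P ^ (2 * (n + 1)) := by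
      rw [pow_mul, hfac]
      change Ideal.span {((p ^ (n + 1) : ℕ) : OO A B)} = Ideal.span {((p : ℕ) : OO A B)} ^ (n + 1)
      rw [Ideal.span_singleton_pow, Nat.cast_pow]
    rw [h5]
    exact Ideal.pow_le_pow_right (by omega)
  obtain ⟨-, -, -, -, -, htriv, -, -⟩ := hIAF A B hC T hex _ hlv0
  have hit := hHIT A B hC T _ ι R _ hm2 hcop
  obtain ⟨hq1, σ, hσ, hτ, hh⟩ := hq
  -- the element `b = 1 + x' β`
  obtain ⟨x₁, y₁, hxy⟩ := hq1
  set b : OO A B := 1 + x₁ * β with hb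
  have hb1 : b - 1 ∈ lvR P f n := by
    have : b - 1 = x₁ * β := by rw [hb]; ring
    rw [this]
    exact Ideal.mul_mem_left _ _ hβ
  have hbpf : IsCoprime b ((p * f : ℕ) : OO A B) := by
    obtain ⟨c, hc⟩ := Ideal.mem_span_singleton'.1 (hlvf hb1)
    refine ⟨1, -c, ?_⟩
    rw [neg_mul, hc]
    ring
  have hbc : IsCoprime b ((lvX p f n : ℕ) : OO A B) := by
    rw [hml]
    push_cast at hbpf ⊢
    exact IsCoprime.mul_right (hbpf.of_mul_right_left.pow_right) hbpf.of_mul_right_right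
  have hb0 : b ≠ 0 := XXF.not_coprime_zero hm2 hbc
  have hq1 : IsCoprime (Quotient.out q.2 : OO A B) ((lvX p f n : ℕ) : OO A B) := ⟨x₁, y₁, hxy⟩
  have hIA := (hit σ hσ q.1 _ hq1).1 hh
  obtain ⟨ρ, hρ⟩ := hsur (sp b) (by rw [Ne, Ideal.span_singleton_eq_bot]; exact hb0)
    ((Ideal.isCoprime_span_singleton_iff _ _).2 hbc)
  -- `ρ` is trivial on `D`
  have hρD : ∀ y ∈ D, ρ y = y := fun y hy =>
    (htriv ρ (sp b) (hlow ρ _ _ hle hρ)).2 ⟨b, hb1, rfl⟩ y (hD y hy)
  -- the composition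
  have hIA2 := hcmp ρ σ _ _ hρ hIA
  have hτ2 : ExtC h τ (ρ.trans σ) := by
    intro y
    rw [RingEquiv.trans_apply, hρD y y.2]
    exact hτ y
  set x' : OO A B := Quotient.out (q.2 + Ideal.Quotient.mk (idl (A := A) (B := B) (lvX p f n)) β)
    with hx'
  have e1 : Ideal.Quotient.mk (idl (A := A) (B := B) (lvX p f n)) x' =
      q.2 + Ideal.Quotient.mk (idl (A := A) (B := B) (lvX p f n)) β := Quotient.out_eq _
  have e2 : q.2 = Ideal.Quotient.mk (idl (A := A) (B := B) (lvX p f n)) (Quotient.out q.2) :=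
    (Quotient.out_eq _).symm
  have e3 : x' - Quotient.out q.2 * b ∈ idl (A := A) (B := B) (lvX p f n) := by
    have h1 : Quotient.out q.2 * b - (Quotient.out q.2 + β) ∈
        idl (A := A) (B := B) (lvX p f n) := by
      refine Ideal.mem_span_singleton'.2 ⟨-(y₁ * β), ?_⟩
      rw [hb]
      linear_combination (-β) * hxy
    have h2 : x' - (Quotient.out q.2 + β) ∈ idl (A := A) (B := B) (lvX p f n) := by
      apply Ideal.Quotient.eq.1
      rw [e1, map_add, ← e2]
    have h3 := Ideal.sub_mem _ h2 h1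
    have h4 : x' - (Quotient.out q.2 + β) - (Quotient.out q.2 * b - (Quotient.out q.2 + β)) =
        x' - Quotient.out q.2 * b := by ring
    rwa [h4] at h3
  have e4 : IsCoprime (Quotient.out q.2 * b : OO A B) ((lvX p f n : ℕ) : OO A B) :=
    IsCoprime.mul_left hq1 hbc
  have e5 : IsCoprime x' ((lvX p f n : ℕ) : OO A B) := by
    obtain ⟨y, hy⟩ := Ideal.mem_span_singleton'.1 e3
    have e6 : x' = Quotient.out q.2 * b + y * ((lvX p f n : ℕ) : OO A B) := by rw [hy]; ring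
    rw [e6]
    exact e4.add_mul_right_left y
  have e7 : IsCoprime (sp x' * cjI (R.b q.1)) (idl (A := A) (B := B) (lvX p f n)) :=
    IsCoprime.mul_left ((Ideal.isCoprime_span_singleton_iff _ _).2 e5) hIA.cop.of_mul_left_right
  have e8 : RE (idl (lvX p f n)) (sp b * (sp (Quotient.out q.2 : OO A B) * cjI (R.b q.1)))
      (sp x' * cjI (R.b q.1)) := by
    have e9 := XXF.re_swap hm2 (cjI (R.b q.1)) e4 e5 e3
    have e10 : sp (Quotient.out q.2 * b : OO A B) * cjI (R.b q.1) =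
        sp b * (sp (Quotient.out q.2 : OO A B) * cjI (R.b q.1)) := by
      rw [← mul_assoc, Ideal.span_singleton_mul_span_singleton, mul_comm b]
    rwa [e10] at e9
  have hIA3 := hch _ _ _ hIA2 e7 e8
  exact ⟨e5, ρ.trans σ, hIA3.fix, hτ2, (hit _ hIA3.fix q.1 x' e5).2 hIA3⟩

end

end Pool.Agent.OBE


end

section

/-!
# OB, block E, module UNI: a uniformiser of `RF (P^(J+1) m')` over `RF m'` (helper94; model `NS/F_UNI.lean`)
-/

set_option autoImplicit false

open Polynomial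

namespace Pool.Agent.OBE

open _root_.MU3 _root_.Pool.Agent.MU3A _root_.Pool.Agent.MU3B _root_.Pool.Agent.MUX _root_.Pool.Agent.MUXU _root_.Pool.Agent.MUXE
open _root_.Pool.Agent.RI _root_.Pool.Agent.NS _root_.Pool.Agent.OB
open _root_.Pool.Agent.MUXV (GR InK tX)
open _root_.Pool.Agent.NSE (su ru WL IntP)

noncomputable section

namespace UNI

theorem dvd_two {A B : ℤ} {f : ℕ} (h : (2 : OO A B) ∈ idl (A := A) (B := B) f) : f ∣ 2 := by
  rw [Ideal.mem_span_singleton] at h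
  obtain ⟨y, hy⟩ := h
  have h1 := congrArg QuadraticAlgebra.re hy
  simp at h1
  have h2 : (f : ℤ) ∣ 2 := ⟨y.re, h1⟩
  exact_mod_cast h2

end UNI

theorem tb_UNI (hGRN : Sb_GRN) (hLEG : Sb_LEG) (hPVL : Sb_PVL) (hTPR : Sb_TPR) (hUNR : Sb_UNR)
    (hDEG : Sb_DEG) : Sb_UNI := by
  intro p er A B P V al hC hT hG L u e lam hL hgood J f m₁ m' hf h2f hm'm hmf hm' hm'P z₁ hz₁
  have hR := hC.ring
  have := hR.ded
  obtain ⟨φ, hφ⟩ := hR.hom
  have hmul : ∀ x y : OO A B, emb (x * y) = emb x * emb y := fun x y => by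
    rw [← hφ, map_mul, hφ, hφ]
  have hadd : ∀ x y : OO A B, emb (x + y) = emb x + emb y := fun x y => by
    rw [← hφ, map_add, hφ, hφ]
  have hone : emb (1 : OO A B) = 1 := by rw [← hφ, map_one]
  have hnat : ∀ k : ℕ, emb ((k : ℕ) : OO A B) = k := fun k => by rw [← hφ, map_natCast]
  have hcp : Cp p V := ⟨hC.pp, hC.p2, hC.vp⟩
  have hq3 := hC.n3
  obtain ⟨c1, c2, c3, c4, c5⟩ := Pool.Agent.MUXE.te_FAC Pool.Agent.MUXE.te_TRA A B hR
  obtain ⟨r1, r2, r3, r4, r5, -⟩ := Pool.Agent.MUXE.te_TRA A B hR L hL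
  obtain ⟨ξ, G⟩ := hGRN p V L u e lam hcp hgood
  obtain ⟨-, -, pv3⟩ := hPVL p er A B P V al hC L u e lam hL hgood
  have hm₁P : ¬ m₁ ≤ P := fun h => hm'P (hm'm.trans h)
  -- `1 = s + t`
  have hcop : IsCoprime (P ^ (J + 1)) m₁ := by
    apply IsCoprime.pow_left
    rw [Ideal.isCoprime_iff_sup_eq]
    rcases hC.max.eq_of_le (J := P ⊔ m₁) with h1
    by_contra h2
    have h3 := h1 h2 le_sup_left
    apply hm₁P
    rw [h3]
    exact le_sup_right
  obtain ⟨s, hs, t, ht, hst⟩ := Ideal.isCoprime_iff_exists.1 hcop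
  obtain ⟨P₀, hP₀⟩ : ∃ z, z = emb s * z₁ := ⟨_, rfl⟩
  obtain ⟨P₁, hP₁⟩ : ∃ z, z = emb t * z₁ := ⟨_, rfl⟩
  have hsum : P₀ + P₁ = z₁ := by
    rw [hP₀, hP₁, ← add_mul, ← hadd, hst, hone, one_mul]
  have hTP₀ : Tor m₁ L P₀ := by
    intro x hx
    rw [hP₀, ← mul_assoc, ← hmul, hz₁, mul_comm x s]
    exact Ideal.mul_mem_mul hs hx
  have hTP₁ : Tor (P ^ (J + 1)) L P₁ := by
    intro x hx
    rw [hP₁, ← mul_assoc, ← hmul, hz₁]
    exact Ideal.mul_mem_mul hx ht
  have hTP₁' : ¬ Tor (P ^ J) L P₁ := by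
    intro h
    have hlt : P ^ (J + 1) < P ^ J := Ideal.pow_right_strictAnti P hC.ne hC.max.ne_top (Nat.lt_succ_self J)
    obtain ⟨x, hx, hx'⟩ := SetLike.exists_of_lt hlt
    have h1 := h x hx
    rw [hP₁, ← mul_assoc, ← hmul, hz₁] at h1
    apply hx'
    have h2 : x * t ∈ P ^ (J + 1) := (Ideal.mul_le_left : P ^ (J + 1) * m₁ ≤ P ^ (J + 1)) h1
    have h3 : x = x * s + x * t := by rw [← mul_add, hst, mul_one]
    rw [h3]
    exact add_mem (Ideal.mul_mem_left _ _ hs) h2
  have h2P₀ : 2 * P₀ ∉ L.lattice := by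
    intro h
    have h1 : emb (((2 : ℕ) : OO A B) * s) * z₁ ∈ L.lattice := by
      rw [hmul, hnat, mul_assoc, ← hP₀]
      exact_mod_cast h
    rw [hz₁] at h1
    have h2 : ((2 : ℕ) : OO A B) * s ∈ m₁ := (Ideal.mul_le_right : P ^ (J + 1) * m₁ ≤ m₁) h1
    have h3 : (2 : OO A B) ∈ m₁ := by
      have h4 : (2 : OO A B) = ((2 : ℕ) : OO A B) * s + 2 * t := by
        push_cast
        rw [← mul_add, hst, mul_one]
      rw [h4]
      exact add_mem h2 (Ideal.mul_mem_left _ _ ht)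
    have h5 := Nat.le_of_dvd (by norm_num) (UNI.dvd_two (hmf h3))
    omega
  have hP₀L : P₀ ∉ L.lattice := fun h => h2P₀ (by rw [two_mul]; exact add_mem h h)
  have hP₀E : ¬ InK V L (xu L u e) P₀ := fun h => hP₀L (pv3 m₁ hm₁P P₀ hTP₀ h)
  have hT2P₀ : Tor m₁ L (2 * P₀) := by
    rw [two_mul]
    exact r2 m₁ _ _ hTP₀ hTP₀
  have h2P₀E : ¬ InK V L (xu L u e) (2 * P₀) := fun h => h2P₀ (pv3 m₁ hm₁P _ hT2P₀ h)
  obtain ⟨hP₁E, hxP₁, hP₁v⟩ := hTPR p er A B P V al hC J L u e lam hL hgood P₁ hTP₁ hTP₁'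
  have hP₁L : P₁ ∉ L.lattice := fun h => hTP₁' (fun x _ => r1 x _ h)
  obtain ⟨hPE, -⟩ := Pool.Agent.MUXV.near G hP₀E hP₁E hP₁L
  rw [hsum] at hPE
  have hPL : z₁ ∉ L.lattice := fun h => hPE (Or.inl h)
  -- the fields
  obtain ⟨w₁, w₂, hw₁, hw₁L, hw₂, hw₂L, he1, hu1, -⟩ := hLEG p V L u e lam hcp hgood
  have hle2 : m' ≤ idl (A := A) (B := B) 2 := by
    refine (hm'm.trans hmf).trans ?_
    rw [Ideal.span_singleton_le_span_singleton]
    obtain ⟨f', hf'⟩ := h2f
    refine ⟨((f' : ℕ) : OO A B), ?_⟩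
    rw [hf']; push_cast; ring
  have hle20 := c1 _ _ hle2
  have hw : ∀ w : ℂ, 2 * w ∈ L.lattice → w ∉ L.lattice → L.weierstrassP w ∈ RF m' := by
    intro w hw hwL
    have h1 : xn L w ∈ RF (idl (A := A) (B := B) 2) := by
      refine (c2 _ L hL).2 _ ((r5 ((2 : ℕ) : OO A B) w).2 ?_) hwL
      rw [hnat]
      exact_mod_cast hw
    have h2 : L.weierstrassP w = xn L w + ((1 / 12 : ℚ) : ℂ) := by
      unfold xn; push_cast; ring
    rw [h2]
    exact add_mem (hle20 h1) (SubfieldClass.ratCast_mem _ _)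
  have heM : e ∈ RF m' := by
    rw [← he1]; exact hw w₁ hw₁ hw₁L
  have huM : u ^ 2 ∈ RF m' := by
    rw [← hu1]; exact sub_mem (hw w₂ hw₂ hw₂L) (hw w₁ hw₁ hw₁L)
  have hlv : P ^ (J + 1) * m' ≤ m' := Ideal.mul_le_right
  have hle := c1 _ _ hlv
  have hlvf : P ^ (J + 1) * m' ≤ P ^ (J + 1) * m₁ := Ideal.mul_mono_right hm'm
  have hP₀M : xn L P₀ ∈ RF m' := (c2 _ L hL).2 _ (fun x hx => hTP₀ x (hm'm hx)) hP₀L
  have hPM : xn L z₁ ∈ RF (P ^ (J + 1) * m') :=
    (c2 _ L hL).2 _ (fun x hx => (hz₁ x).2 (hlvf hx)) hPL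
  have hxx : ∀ z : ℂ, xu L u e z = (xn L z + ((1 / 12 : ℚ) : ℂ) - e) / u ^ 2 := by
    intro z; unfold xu xn; push_cast; ring
  have hx0M : xu L u e P₀ ∈ RF m' := by
    rw [hxx]
    exact div_mem (sub_mem (add_mem hP₀M (SubfieldClass.ratCast_mem _ _)) heM) huM
  have hxPM : xu L u e z₁ ∈ RF (P ^ (J + 1) * m') := by
    rw [hxx]
    exact div_mem (sub_mem (add_mem hPM (SubfieldClass.ratCast_mem _ _)) (hle heM)) (hle huM)
  obtain ⟨π, hπ⟩ : ∃ z, z = xu L u e z₁ - xu L u e P₀ := ⟨_, rfl⟩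
  have hπM : π ∈ RF (P ^ (J + 1) * m') := by
    rw [hπ]; exact sub_mem hxPM (hle hx0M)
  have hvπ : V.valuation π ^ ((nI P - 1) * nI P ^ J) = V.valuation (emb al) := by
    have h11 := (Pool.Agent.MUXV.tq_YUN V (WL lam) L (xu L u e) (yu L u) ξ G P₀ hP₀E h2P₀E).2 P₁
      hP₁E hP₁L
    rw [hsum, ← hπ] at h11
    obtain ⟨-, h12, h13⟩ := Pool.Agent.MUXV.v_tX_lt G hP₁E hP₁L
    have h14 : V.valuation (su L u e P₁) = V.valuation (tX (xu L u e) (yu L u) P₁) ^ 2 := by
      unfold su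
      rw [map_inv₀]
      exact inv_eq_of_mul_eq_one_right h13
    rw [h14, ← pow_mul] at hP₁v
    have h15 : (V.valuation π ^ ((nI P - 1) * nI P ^ J)) ^ 2 = V.valuation (emb al) ^ 2 := by
      rw [← hP₁v, h11, ← pow_mul]
      congr 1
      ring
    exact (pow_left_inj₀ zero_le zero_le (by norm_num)).1 h15
  have hp0' : (p : ℂ) ≠ 0 := by
    have := hC.pp.ne_zero
    exact_mod_cast this
  have hvp : V.valuation (emb al) < 1 := by
    by_contra h
    have h11 : (1 : V.ValueGroup) ≤ V.valuation (emb al) ^ er := one_le_pow₀ (not_lt.1 h)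
    rw [hC.alv] at h11
    exact absurd hC.vp (not_lt.2 h11)
  have hp0 : emb al ≠ 0 := by
    intro h
    have h11 := hC.alv
    rw [h, map_zero, zero_pow (by have := hC.er1; omega)] at h11
    exact (Valuation.ne_zero_iff _).2 hp0' h11.symm
  have hbot : P ^ (J + 1) * m' ≠ ⊥ := by
    rw [← Ideal.zero_eq_bot] at hm' ⊢
    exact mul_ne_zero (pow_ne_zero _ (by rw [Ideal.zero_eq_bot]; exact hC.ne)) hm'
  have := hG.fin _ hm'
  have := hG.fin _ hbot
  refine ⟨P₀, hTP₀, hP₀L, hP₀E, hPE, huM, heM, hx0M, hπ ▸ hπM, ?_⟩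
  intro w hw hvw
  rw [← hπ]
  exact Pool.Agent.NSE.te_BAS (kk A B) ℂ V.ValueGroup V.valuation
    (RF m') (RF (P ^ (J + 1) * m'))
    ((nI P - 1) * nI P ^ J) (emb al) π hle
    (Nat.mul_pos (by omega) (pow_pos (by omega) _)) (hDEG p er A B P V al hC hG J m' hm' hm'P) hp0
    hvp (hUNR p er A B P V al hC hT m' hm' hm'P) hπM hvπ w hw hvw

end

end Pool.Agent.OBE


end

section

/-!
# OB, block E, module UNR: `RF m'` is unramified at `V` if `m'` is not contained in `P`
-/

set_option autoImplicit false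

open Polynomial

namespace Pool.Agent.OBE

open _root_.MU3 _root_.Pool.Agent.MU3A _root_.Pool.Agent.MU3B _root_.Pool.Agent.MUX _root_.Pool.Agent.MUXU _root_.Pool.Agent.MUXE
open _root_.Pool.Agent.RI _root_.Pool.Agent.NS _root_.Pool.Agent.OB

noncomputable section

/-- UNR. -/
theorem tb_UNR : Sb_UNR := by
  intro p er A B P V al hC hT m' hm hmP
  have := hT.fin _ hm
  have := hT.gal _ hm
  refine Pool.Agent.NSR.tr_RAM A B V P al hC.cq hC.max.isPrime hC.ne hC.hV hC.alP hC.al2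
    (RF m') ?_
  intro σ hσ
  obtain ⟨s, hs, hsv⟩ := Pool.Agent.NSE.UNR.extn hT hm σ
  have h1 : ∀ y ∈ (RF m' : IntermediateField (kk A B) ℂ), y ∈ V →
      s y - y ∈ V.nonunits := by
    intro y hy hyV
    have h2 := hσ ⟨y, hy⟩ ((V.valuation_le_one_iff y).2 hyV)
    rw [ValuationSubring.mem_nonunits_iff, hsv ⟨y, hy⟩]
    exact h2
  have h2 := hC.iner m' hm hmP s hs h1
  apply AlgEquiv.ext
  intro y
  apply Subtype.ext
  rw [← hsv]
  exact h2 y y.2

end

end Pool.Agent.OBE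


end

section

/-!
# OB, block E, module UNT (helper69): the multiplier is a unit if and only if no point of the kernel is in the kernel of reduction
-/

set_option autoImplicit false

open Polynomial

namespace Pool.Agent.OBE

open _root_.MU3 _root_.Pool.Agent.MU3A _root_.Pool.Agent.MU3B _root_.Pool.Agent.MUX _root_.Pool.Agent.MUXU _root_.Pool.Agent.MUXE
open _root_.Pool.Agent.RI _root_.Pool.Agent.NS _root_.Pool.Agent.OB
open _root_.Pool.Agent.MUXV (GR InK tX)
open _root_.Pool.Agent.NSE (su ru WL IntP)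

noncomputable section

theorem tb_UNT (h1 : Sb_GEN) (h2 : Sb_TNC) : Sb_UNT := by
  intro p V L M u e lam u' e' lam' μ hp hL hM hμ hI
  obtain ⟨⟨R, hR⟩, -⟩ := u_BAC.2 L M μ hμ hI
  have hG := h1 p V L M u e lam u' e' lam' μ hp hL hM hμ hI R hR
  have tL := h2 p V L u e lam hp hL
  refine ⟨⟨fun hK => ?_, fun hv => ?_⟩, fun N hN hz z hz1 hin => (tL N hN).2 z (hz z hz1) hin⟩
  · have h3 : ∏ q ∈ R, max 1 (V.valuation (xu L u e q)) = 1 := by
      refine Finset.prod_eq_one fun q hq => ?_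
      have h4 : ¬ InK V L (xu L u e) q := fun h => hR.ne q hq (hK q (hR.mem q hq) h)
      exact max_eq_left (Pool.Agent.MUXV.int_X h4).2
    rw [h3, mul_one] at hG
    rcases lt_trichotomy (V.valuation (μ * u' / u)) 1 with h | h | h
    · exact absurd hG (pow_lt_one₀ zero_le h two_ne_zero).ne
    · exact h
    · exact absurd hG (one_lt_pow₀ h two_ne_zero).ne'
  · rw [hv, one_pow, one_mul] at hG
    have h3 : ∀ q ∈ R, max 1 (V.valuation (xu L u e q)) = 1 :=
      (Finset.prod_eq_one_iff_of_one_le' fun q _ => le_max_left _ _).1 hG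
    intro z hz hin
    by_contra hzL
    obtain ⟨q, hq, hzq⟩ := hR.surj z hz hzL
    have h4 : V.valuation (xu L u e q) ≤ 1 := (le_max_right _ _).trans (h3 q hq).le
    have h5 : xu L u e z = xu L u e q := by
      unfold xu
      have h6 := L.weierstrassP_add_coe q ⟨z - q, hzq⟩
      simp only [add_sub_cancel] at h6
      rw [h6]
    rcases hin with h | h
    · exact hzL h
    · rw [h5] at h
      exact h ((ValuationSubring.valuation_le_one_iff _ _).1 h4)

end

end Pool.Agent.OBE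


end
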