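import Pool.Agent.MVF.C011
import Pool.Agent.MVF.C026
import Pool.Agent.MVF.C038
import Pool.Agent.MVF.C039
import Pool.Agent.MVF.C083
import Pool.Agent.MVF.C108
import Pool.Agent.MVF.C150
import Pool.Agent.OBM.C01

/-! Parts: OB.StHN, RI.EXTACT, OB.StG, OB.StHB -/

section

/-!
# OB, block H (helper51): from Theorem G to the character sums for every odd prime `p`, abstract

`Pool/Agent/MUX/StHN.lean` and `StHR.lean` (there `p = 3`) for every odd prime `p`. Nothing here depends on the field `k`. Every statement is a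
`def So_X : Prop`; a module proves `theorem to_X (h : ..) ... : So_X` in `Pool/Agent/OB/HN_X.lean`, namespace `Pool.Agent.OBH` (private
lemmas in `Pool.Agent.OBH.X`); the hypotheses are the statements named under USES (fewer is fine). `v = V.valuation`: `v x ≤ 1 ↔ x ∈ V`
(`ValuationSubring.valuation_le_one_iff`). `comb`, `Q0` : `MUX/StHX.lean`. `mob`, `IsSym`, `sgnPart` : `MU3/Base.lean`, `MuSym`.
MODELS: the files `Pool/Agent/MUX/HN_*.lean` prove the case `p = 3` (`27` becomes `p^3`, `729` becomes `p^6`).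
-/

set_option autoImplicit false

namespace Pool.Agent.OBH

open _root_.MU3 Pool.Agent.MuSym Pool.Agent.MUXH OnePoint

noncomputable section

/-- `P_t(x, y) = P(x, y) - P(x + t, y + t)`, `t = 1/p^3` -/
def PT (p : ℕ) (P : OnePoint ℚ → OnePoint ℚ → ℂ) (x y : OnePoint ℚ) : ℂ :=
  P x y - P (mob ((p : ℤ) ^ 3) 1 0 ((p : ℤ) ^ 3) x) (mob ((p : ℤ) ^ 3) 1 0 ((p : ℤ) ^ 3) y)

/-- the standing hypotheses on a symbol `Q` (the part of the symbol which is used, divided by the period): the level is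
`p^(s₀+1) N₀`; the denominators are bounded; the values are in `pi * KI`; `gap`: a value `x` with `v(x) ≥ v(1 - ζ_(p³))` has `v(x) ≥ 1`
(all valuations in the multiplicative sense); `G` : Theorem G for `Q_t`: `v(Q_t) ≥ v(1 - ζ_(p³))` on closed cycles of any level -/
structure HypQ (p : ℕ) (V : ValuationSubring ℂ) (N₀ s₀ : ℕ) (nu : ℤ → ℂ)
    (Q : OnePoint ℚ → OnePoint ℚ → ℂ) (pi : ℂ) (KI : Subfield ℂ) : Prop where
  pp : p.Prime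
  p2 : p ≠ 2
  vp : V.valuation (p : ℂ) < 1
  N0 : N₀ ≠ 0
  cop : Nat.Coprime p N₀
  nu1 : nu 1 = 1
  num : ∀ d d', nu (d * d') = nu d * nu d'
  nuper : ∀ d d', ((p * N₀ : ℕ) : ℤ) ∣ d - d' → nu d = nu d'
  nuv : ∀ d, V.valuation (nu d) ≤ 1
  sym : IsSym (p ^ (s₀ + 1) * N₀) nu Q
  bdd : ∃ k : ℕ, ∀ x y, V.valuation ((p : ℂ) ^ k * Q x y) ≤ 1
  pi0 : pi ≠ 0
  typ : ∀ x y, ∃ w ∈ KI, Q x y = pi * w
  gap : ∀ w ∈ KI, V.valuation (p : ℂ) ≤ V.valuation (pi * w) ^ ((p - 1) * p ^ 2) →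
    1 ≤ V.valuation (pi * w)
  G : ∀ N' : ℕ, N' ≠ 0 → p ^ (s₀ + 1) * N₀ ∣ N' → ∃ α β γ δ : ℤ, α * δ - β * γ = 1 ∧
    (N' : ℤ) ∣ γ ∧ (N' : ℤ) ∣ δ - 1 ∧
    V.valuation (p : ℂ) ≤ V.valuation (PT p Q ∞ (mob α β γ δ ∞)) ^ ((p - 1) * p ^ 2)

/-- (BDN) bounded denominators. USES `MUXH.Sx_MAX`, `MUXH.Sx_ALB` (proved: `MUXH.tx_MAX`, `MUXH.tx_ALB` in `MUX/HX_MAX.lean`, `MUX/HX_ALB.lean`;
import them, no hypotheses needed). MODEL: `MUX/HN_BDN.lean`. -/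
def So_BDN : Prop :=
  ∀ (p : ℕ) (_ : p.Prime) (V : ValuationSubring ℂ) (_ : V.valuation (p : ℂ) < 1)
    (P : OnePoint ℚ → OnePoint ℚ → ℂ) (_ : ∀ x y, IsAlgebraic ℚ (P x y))
    (_ : ∃ T : Finset ℂ, ∀ x y, P x y ∈ AddSubgroup.closure (T : Set ℂ)),
    ∃ k : ℕ, ∀ x y, V.valuation ((p : ℂ) ^ k * P x y) ≤ 1

/-- (HKN) the part `s` of a depleted symbol. MODEL: `MUX/HN_HKN.lean`.

USES `MUXH.Sx_HK` (proved: `tx_HK` in `MUX/HX_HK.lean`) or its proof. PROOF. `Q = sgnPart s P`. `IsSym` and the period: HK. Depletion: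
`-(x + j)/p = (-x + (p - j))/p - 1`, so the sum over `j` of `P ∞ (-(x+j)/p)` is the sum of the `P ∞ ((-x+j)/p)`. -/
def So_HKN : Prop :=
  ∀ (p : ℕ) (_ : p.Prime) (N' : ℕ) (nu : ℤ → ℂ) (P : OnePoint ℚ → OnePoint ℚ → ℂ) (s : ℂ),
    IsSym N' nu P → nu 1 = 1 →
    (∀ x : ℚ, ∑ j ∈ Finset.range p, P ∞ (((x + j) / p : ℚ) : OnePoint ℚ) = 0) →
    IsSym N' nu (sgnPart s P) ∧
    (∀ (r : ℚ) (k : ℤ), sgnPart s P ∞ ((r + k : ℚ) : OnePoint ℚ) =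
      sgnPart s P ∞ (r : OnePoint ℚ)) ∧
    ∀ x : ℚ, ∑ j ∈ Finset.range p, sgnPart s P ∞ (((x + j) / p : ℚ) : OnePoint ℚ) = 0

/-- (LOC) if the combinations are in `m` then `z` is locally constant modulo `m` on the units, uniformly in the
level. `m` is any `V`-submodule of `ℂ`. MODEL: `MUX/HN_LOC.lean` (replace `3` by the odd prime `p`).

PROOF. Write `E_u y (b) = y (u b)` and `x ≡ y` for `x - y ∈ m`. `comb α g N z = ± A (E_g - 1)^N z`, `A y = α y - α² E_(α²) y`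
(expand; `E_g` and `A` commute). (1) Let `y n = (E_g - 1)^N (z n)`: `α y (b) ≡ α² y (α² b)` for `p ∤ b`, `n ≥ n₀`; `α` is a unit of
`V`, so `y (α^(2 i) b) ≡ α^(-i) y (b)`; for `p^k ∣ i`: `α^i - 1` is divisible by `p^(k+1)` and `p^k y ∈ m`: `y (α^(2 i) b) ≡ y (b)`.
Let `e ≥ 1` be the exponent of `p` in `α² - 1`. For every `n` the powers of `α^(2 p^k)` are, modulo `p^n`, all classes `≡ 1`
modulo `p^(e+k)` (`α^(2 p^j) ≡ 1 + p^(e+j) w` modulo `p^(e+j+1)`, `p ∤ w`, `p` odd). So `y n b ≡ y n b'` for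
`p^(e+k) ∣ b - b'`, `p ∤ b`. (2) Step down: if `y' = E_g y - y` is locally constant (mod `p^r`) then so is `y`: let `u = g^(p^r)`
(`p^r ∣ u - 1`), `S (b) = Σ_(i < p^r) y' (g^i b)`: `y (u b) - y (b) = S (b)`, `S (u b) ≡ S (b)`, so `y (u^j b) - y (b) ≡ j S (b)`, which is in
`m` for `p^k ∣ j`; the powers of `u^(p^k)` are all classes `≡ 1` modulo `p^(r')`, `r' = e' + r + k`, `e'` the exponent of `p`
in `g - 1`. Induction on `N`. -/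
def So_LOC : Prop :=
  ∀ (p : ℕ) (_ : p.Prime) (_ : p ≠ 2) (V : ValuationSubring ℂ) (_ : V.valuation (p : ℂ) < 1)
    (m : Submodule V ℂ) (z : ℕ → ℤ → ℂ) (k n₀ : ℕ)
    (_ : ∀ (n : ℕ) (b c : ℤ), (p : ℤ) ^ n ∣ b - c → z n b = z n c)
    (_ : ∀ n b, (p : ℂ) ^ k * z n b ∈ m) (α g : ℤ) (_ : (p : ℤ) ∣ α - 1) (_ : α ≠ 1)
    (_ : (p : ℤ) ∣ g - 1) (_ : g ≠ 1) (N : ℕ)
    (_ : ∀ n, n₀ ≤ n → ∀ b : ℤ, ¬ (p : ℤ) ∣ b → comb α g N (z n) b ∈ m),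
    ∃ r : ℕ, ∀ n, n₀ ≤ n → ∀ b b' : ℤ, ¬ (p : ℤ) ∣ b → (p : ℤ) ^ r ∣ b - b' →
      z n b - z n b' ∈ m

/-- (PAI) the value at a pair of determinant `p^n`. MODEL: `MUX/HN_PAI.lean`.

PROOF. Choose `δ, β` with `a δ - β c = 1`. `h = (δ, -β; -c, a)` has determinant 1 and `N' ∣ -c`, so
`Q (h x) (h y) = nu a * Q x y`. `h (a/c) = ∞`; `h (b/d) = (δ b - β d)/(a d - b c) = e/p^n`, `e = δ b - β d`,
`a e - b = β (c b - a d) = - β p^n`. -/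
def So_PAI : Prop :=
  ∀ (p : ℕ) (_ : p.Prime) (N' : ℕ) (nu : ℤ → ℂ) (Q : OnePoint ℚ → OnePoint ℚ → ℂ),
    IsSym N' nu Q →
    ∀ (n : ℕ) (a b c d : ℤ), c ≠ 0 → d ≠ 0 → IsCoprime a c → (N' : ℤ) ∣ c →
      a * d - b * c = (p : ℤ) ^ n → ∃ e : ℤ, (p : ℤ) ^ n ∣ a * e - b ∧
      nu a * Q (((a : ℚ) / c : ℚ) : OnePoint ℚ) (((b : ℚ) / d : ℚ) : OnePoint ℚ) =
        Q ∞ (((e : ℚ) / (p : ℚ) ^ n : ℚ) : OnePoint ℚ)

/-- (KYN) from locally constant values to vanishing closed cycles of `Q_t`. MODEL: `MUX/HN_KYN.lean`.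

USES PAI, `NSY.key0` (file `Pool/Agent/NS/Y_Key0.lean`, every odd prime). PROOF. `M = ℂ ⧸ m` (`m` as an additive group; it is a `V`-submodule, so an integer `q` prime to
`p`, a unit of `V`, has no torsion). `R = 6 + (s₀ + 1) + r + 1`, `Φ x y` = the class of `PT p Q x y`. `inv` for `Γ₁(p^R N₀)`: `τ h τ⁻¹ =
(a + c/p³, b + (d - a)/p³ - c/p⁶; c, d - c/p³)` is integral (`p^R ∣ c`, `d - 1`, `a - 1`) and in `Γ₀(p^(s₀+1) N₀)` with lower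
right entry `≡ 1` modulo `p N₀`; `nu = 1` for it and for `h`. (A), `n ≥ n₁ := n₀ + r + 4`: `(a, c)`, `(b, d)` as in `key0`; `p` divides `c`, so
not `a`; `a` is prime to `N₀`; `d = (p^n + b c)/a`, so `p^(r+4) ∣ d` and `p ∤ b`. PAI for `Q`: `nu a Q u w = Q ∞ (e/p^n)`, `a e ≡ b` modulo
`p^n`. PAI for `u + t = (a + c/p³, c)`, `w + t = (b + d/p³, d)` (primitive, same determinant, `nu (a + c/p³) = nu a`):
`nu a Q (u+t) (w+t) = Q ∞ (e'/p^n)`, `(a + c/p³) e' ≡ b + d/p³`. Modulo `p^(r+1)`: `a e' ≡ b ≡ a e`, so `p^r ∣ e - e'`, `p ∤ e`, and the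
difference `Q ∞ (e/p^n) - Q ∞ (e'/p^n)` is in `m`; divide by the unit `nu a`. (A0): `b/p^n + 1/p³ = (b + p^(n-3))/p^n`. -/
def So_KYN : Prop :=
  ∀ (p : ℕ) (_ : p.Prime) (_ : p ≠ 2) (V : ValuationSubring ℂ) (_ : V.valuation (p : ℂ) < 1)
    (m : Submodule V ℂ) (N₀ s₀ : ℕ) (nu : ℤ → ℂ) (Q : OnePoint ℚ → OnePoint ℚ → ℂ) (_ : 2 ≤ N₀)
    (_ : Nat.Coprime p N₀) (_ : nu 1 = 1)
    (_ : ∀ d d', ((p * N₀ : ℕ) : ℤ) ∣ d - d' → nu d = nu d')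
    (_ : ∀ d, IsCoprime d ((p * N₀ : ℕ) : ℤ) → V.valuation (nu d) = 1)
    (_ : IsSym (p ^ (s₀ + 1) * N₀) nu Q) (r n₀ : ℕ)
    (_ : ∀ n, n₀ ≤ n → ∀ b b' : ℤ, ¬ (p : ℤ) ∣ b → (p : ℤ) ^ r ∣ b - b' →
      Q ∞ (((b : ℚ) / (p : ℚ) ^ n : ℚ) : OnePoint ℚ) -
        Q ∞ (((b' : ℚ) / (p : ℚ) ^ n : ℚ) : OnePoint ℚ) ∈ m),
    ∃ R : ℕ, ∀ a b c d : ℤ, a * d - b * c = 1 → (p : ℤ) ^ R * N₀ ∣ c →
      (p : ℤ) ^ R * N₀ ∣ d - 1 → ∀ x, PT p Q x (mob a b c d x) ∈ m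

/-- (NZ) for infinitely many levels some value of the combination has valuation `≥ 1`.

USES LOC, KYN. MODEL: `MUX/HN_HN.lean` (its part after `hall`, with the submodule `HNG.mV` = the maximal ideal `{x : v x < 1}` of `V`). PROOF. `z n b = Q ∞ (b/p^n)`
depends only on `b` modulo `p^n` (`sym` for `(1, 1; 0, 1)`, `nu 1 = 1`). Suppose that for all `n ≥ n₀` and all `b` prime to `p` the value `comb α g N (z n) b` is in
`m`. `bdd`: `p^(k+1) z n b ∈ m`. LOC: `r`. Pass to the level `2 N₀` (`p` odd; `2 ≤ 2 N₀`, prime to `p`; `IsSym` and `nuper` for `2 N₀`; `v(nu d) = 1` for `d` prime to `p N₀` from `num`, `nuper`, `nuv`).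
KYN: `PT p Q ∞ (h ∞) ∈ m` for all `h ∈ Γ₁(p^R 2 N₀)`. `G` for `N' = p^(R + s₀ + 1) (2 N₀)`: such an `h` with `v p ≤ v(PT p Q ∞ (h ∞))^((p-1) p²)`; `PT p Q ∞ (h ∞) = pi (w₁ - w₂)` (`typ`) and `gap` gives
`v ≥ 1`, a contradiction. -/
def So_NZ : Prop :=
  ∀ (p : ℕ) (V : ValuationSubring ℂ) (N₀ s₀ : ℕ) (nu : ℤ → ℂ) (Q : OnePoint ℚ → OnePoint ℚ → ℂ)
    (pi : ℂ) (KI : Subfield ℂ), HypQ p V N₀ s₀ nu Q pi KI →
    ∀ (α g : ℤ), (p : ℤ) ∣ α - 1 → α ≠ 1 → (p : ℤ) ∣ g - 1 → g ≠ 1 → ∀ N n₀ : ℕ,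
      ∃ n, n₀ ≤ n ∧ ∃ b : ℤ, ¬ (p : ℤ) ∣ b ∧ 1 ≤ V.valuation
        (comb α g N (fun b => Q ∞ (((b : ℚ) / (p : ℚ) ^ n : ℚ) : OnePoint ℚ)) b)

/-- (TYP) arithmetic of types. Split case: `e = 1`, `q' = p - 1`, `1 ≤ i ≤ p - 2`; inert case: `e = 1`, `q' = p² - 1`, `p + 1 ≤ i ≤ p² - 2`; ramified case: `e = 2`, `q' = p - 1`, `2 ≤ i ≤ p - 2`.
MODEL: `MUX/HN_TYP.lean`.

PROOF. `t = v p`, `0 < t < 1`, `E = e q' ≥ 1`, `x = pi w`, `v(pi)^E t^i = 1`. (0) If `v w < 1` then `v(w)^e ≤ t`, so `v(x)^E t^i = (v(w)^e)^q' ≤ t^q'`, i.e. (`i < q'`) `v(x)^E ≤ t^(q'-i) ≤ t`.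
(a) `t ≤ v(x)^M`, `M = (p-1) p²`. If `v w < 1`: `t^E ≤ v(x)^(M E) ≤ t^M`, so `M ≤ E`, against `E < M`. So `v w ≥ 1` and `v(x)^E t^i ≥ 1`, `v(x)^E ≥ 1`, `v x ≥ 1`.
(b) `1 ≤ v x`: (0) excludes `v w < 1` (`1 ≤ v(x)^E ≤ t < 1`). So `v(x)^E t^i ≥ 1`, and `(v(x)^(p-1) t)^E = (v(x)^E t^i)^(p-1) · t^E / t^(i (p-1)) ≥ 1` as `E ≤ i (p-1)`
(write `v(x)^(E (p-1)) t^E ≥ v(x)^(E (p-1)) t^(i (p-1)) ≥ 1`). -/
def So_TYP : Prop :=
  ∀ (p : ℕ) (_ : p.Prime) (V : ValuationSubring ℂ) (_ : V.valuation (p : ℂ) < 1)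
    (KI : Subfield ℂ) (e q' i : ℕ) (_ : 1 ≤ e) (_ : i < q') (_ : e * q' ≤ i * (p - 1))
    (_ : e * q' < (p - 1) * p ^ 2)
    (_ : ∀ w ∈ KI, V.valuation w < 1 → V.valuation w ^ e ≤ V.valuation (p : ℂ)) (pi : ℂ)
    (_ : V.valuation pi ^ (e * q') * V.valuation (p : ℂ) ^ i = 1), ∀ w ∈ KI,
    (V.valuation (p : ℂ) ≤ V.valuation (pi * w) ^ ((p - 1) * p ^ 2) → 1 ≤ V.valuation (pi * w)) ∧
    (1 ≤ V.valuation (pi * w) → 1 ≤ V.valuation (pi * w) ^ (p - 1) * V.valuation (p : ℂ))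

/-- (DVN) the character sums of a depleted function with values of one type (unramified coefficients). MODEL: `MUX/HN_DVN.lean`.

PROOF. Let `y b* ≠ 0` have maximal valuation among the `y b` (finitely many classes), `W b = y b/y b* ∈ K ∩ V`, `W b* = 1`,
`1 ≤ v(y b*)^(p-1) t`, `t = v p`. Let `q = p^n`, `W' : ℤ → K` of period `p q`: for `0 ≤ b < q`, `0 ≤ k < p`: `W' (b + k q) = Σ_(l ≤ k) W (b + l q)` (so `W' (b + (p-1) q) = 0`); then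
`W b = W' b - W' (b - q)` for all `b` (depletion). So `Σ ζ^b W b = (1 - ζ^q) Σ ζ^b W' b`, sums over `range (p q)`, and
`v(1 - ζ^q)^(p-1) = t` (`ζ^q` is a primitive `p`-th root of 1). Write (Newton
expansion, `shift_pow` of `MU3/H_HZ.lean`) `Σ ζ^b W' b = Σ_(i < p q) c_i (ζ - 1)^i`, `c_i = Σ_b binom(b, i) W' b ∈ K ∩ V`. Let `i₀` be the
smallest `i` with `v c_i = 1`. CLAIM: it exists and `i₀ < (p-1) q`. Otherwise `P(X) = Σ_b W' b (1 + X)^b ≡ 0` modulo `X^((p-1)q)` and the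
maximal ideal; modulo the maximal ideal (characteristic `p`) `(1 - (1 + X)^q) P(X) = - X^q P(X) ≡ 0` modulo `X^(pq) = (1+X)^(pq) - 1`, and
this product is `Σ_b W b (1 + X)^b` modulo `(1 + X)^(pq) - 1`: so all `W b` are in the maximal ideal, against `W b* = 1`. (Or: since `W' b = 0` for `(p-1) q ≤ b < p q`, `P(X)` has degree `< (p-1) q`, so if all
`c_i`, `i < (p-1) q`, are in the maximal ideal then all `W' b` are (`W' b = Σ_i (-1)^(i-b) binom(i, b) c_i`), so all `W b`.) For `i < i₀`: `v c_i < 1`, so `v c_i ≤ t` (`c_i ∈ K`). `x = v(ζ - 1)`: `x^((p-1) q) = t` (as in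
`Sx_HZ`), `x < 1`. So `v(Σ c_i (ζ-1)^i) = x^(i₀) > x^((p-1) q) = t`. `v(Σ ζ^b y b) = v(y b*) v(1 - ζ^q) x^(i₀)` and `(v(y b*) v(1 - ζ^q))^(p-1) =
v(y b*)^(p-1) t ≥ 1`. -/
def So_DVN : Prop :=
  ∀ (p : ℕ) (_ : p.Prime) (_ : p ≠ 2) (V : ValuationSubring ℂ) (_ : V.valuation (p : ℂ) < 1)
    (K : Subfield ℂ)
    (_ : ∀ w ∈ K, V.valuation w < 1 → V.valuation w ≤ V.valuation (p : ℂ)) (n : ℕ) (y : ℤ → ℂ)
    (_ : ∀ b c : ℤ, (p : ℤ) ^ (n + 1) ∣ b - c → y b = y c)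
    (_ : ∀ b : ℤ, ∑ j ∈ Finset.range p, y (b + j * (p : ℤ) ^ n) = 0)
    (_ : ∀ b b' : ℤ, y b' ≠ 0 → y b / y b' ∈ K) (b₀ : ℤ)
    (_ : 1 ≤ V.valuation (y b₀) ^ (p - 1) * V.valuation (p : ℂ)) (ζ : ℂ)
    (_ : IsPrimitiveRoot ζ (p ^ (n + 1))),
    V.valuation (p : ℂ) < V.valuation (∑ b ∈ Finset.range (p ^ (n + 1)), ζ ^ b * y b)

/-- (DVR) the character sums of a function which is killed by a factor of degree `(p-1)/2` of `X^p - 1` (ramification index two in the coefficients).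
MODEL: `MUX/HN_DVR.lean`, `MUX/HN_DVN.lean`.

PROOF. `q = p^n`, `t = v p`, `0 < t < 1`, `d = (p-1)/2`. `y b* ≠ 0` of maximal valuation, `W b = y b/y b* ∈ K ∩ V`, `W b* = 1`, `v(y b*) ≥ v(y b₀)`. `w(X) = Σ_(b < p q) W b X^b ∈ K[X]`. The relation says (periodicity)
`F(X^q) w(X) ≡ 0` modulo `X^(p q) - 1 = F(X^q) H(X^q)` in `K[X]` (the coefficient of `X^b`, `b` modulo `p q`, of `F(X^q) w(X)` is `Σ_l F_l W(b - l q)`), so `F(X^q) w = F(X^q) H(X^q) w'`, `w = H(X^q) w'`,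
`w' ∈ K[X]`, of degree `< p q - (p - d) q = d q`; `H` is monic with coefficients in `V` (its roots are roots of unity; `F H = X^p - 1`), so `w' ∈ V[X]` (division by a monic polynomial of `V[X]`). Not all coefficients of `w'` are in the maximal ideal (else so would be those of `w`,
but `W b* = 1`). `w'(1 + X) = Σ_(i < d q) c_i X^i`, `c_i ∈ K ∩ V`, not all in the maximal ideal; `j` = the smallest `i` with `v c_i = 1`, `j < d q`. `x = v(ζ - 1)`, `x^((p-1) q) = t`, `x < 1`. For `i < j`: `v(c_i)² ≤ t = x^(2 d q)`, so `v c_i ≤ x^(d q) < x^j`: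
`v(w'(ζ)) = x^j > x^(d q)`. `v(H(ζ^q))`: `F(ζ^q) = 0` and the roots of `F H = X^p - 1` are the `p` different `p`-th roots of unity, so `H(ζ^q) = ∏ (ζ^q - ρ)` over the `p - d` roots `ρ ≠ ζ^q` of `H`, each factor has valuation `v(ζ^q - 1) = x^q`
(`ζ^q/ρ` is a primitive `p`-th root of unity; `v(ζ^q - 1)^(p-1) = t`, so it is `x^q`). Total `v(Σ ζ^b y b) = v(y b*) x^((p-d) q) x^j > v(y b*) x^((p-d) q + d q) = v(y b*) x^(p q) = v(y b*) t x^q`, and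
`(v(y b*) x^q)^(p-1) = v(y b*)^(p-1) t ≥ 1`. So `v(Σ) > t`. -/
def So_DVR : Prop :=
  ∀ (p : ℕ) (_ : p.Prime) (_ : p ≠ 2) (V : ValuationSubring ℂ) (_ : V.valuation (p : ℂ) < 1)
    (K : Subfield ℂ)
    (_ : ∀ w ∈ K, V.valuation w < 1 → V.valuation w ^ 2 ≤ V.valuation (p : ℂ)) (n : ℕ)
    (y : ℤ → ℂ) (_ : ∀ b c : ℤ, (p : ℤ) ^ (n + 1) ∣ b - c → y b = y c)
    (F H : Polynomial ℂ) (_ : F.Monic) (_ : H.Monic) (_ : ∀ l, F.coeff l ∈ K)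
    (_ : ∀ l, H.coeff l ∈ K) (_ : 2 * F.natDegree + 1 = p) (_ : F * H = Polynomial.X ^ p - 1)
    (_ : ∀ b : ℤ, ∑ l ∈ Finset.range p, F.coeff l * y (b - l * (p : ℤ) ^ n) = 0)
    (_ : ∀ b b' : ℤ, y b' ≠ 0 → y b / y b' ∈ K) (b₀ : ℤ)
    (_ : 1 ≤ V.valuation (y b₀) ^ (p - 1) * V.valuation (p : ℂ)) (ζ : ℂ)
    (_ : IsPrimitiveRoot ζ (p ^ (n + 1))) (_ : F.eval (ζ ^ p ^ n) = 0),
    V.valuation (p : ℂ) < V.valuation (∑ b ∈ Finset.range (p ^ (n + 1)), ζ ^ b * y b)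

/-- (FAC) the factorisation of `X^p - 1` over a field which contains the quadratic Gauss sum.

PROOF. `F = ∏ (X - om^(-c))` over the `(p-1)/2` classes `c` modulo `p` with `J(c | p) = 1`, `H = ∏ (X - om^(-c))` over the other `(p+1)/2` classes (`0` and the nonresidues). `F H = X^p - 1` (`X_pow_sub_one_eq_prod`), degrees clear (`(p-1)/2` nonzero
squares), `F(om⁻¹) = 0`. Coefficients: the power sums of the roots of `F` are `P_k = Σ_(c square) om^(-c k) = (1/2) Σ_(j = 1)^(p-1) (1 + J(j | p)) om^(-j k)`, which is `(p-1)/2` for `p ∣ k` and `(-1 + J(-k | p) G)/2` otherwise (`G = Σ_j J(j | p) om^j`, `Σ_j J(j | p) om^(m j) =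
J(m | p) G`): in `K`. Newton's identities (`MvPolynomial.mul_esymm_eq_sum` or `Multiset` version) give the elementary symmetric functions of the roots in `K` by induction (characteristic `0`). `H = (X^p - 1)/F` by division in `K[X]`
(or the same argument). Last part: `f : ℤ → ℂ` of period `p` with `Σ_j J(j | p) f(b + j) = G f(b)`. Let `a_c = Σ_(b < p) f(b) om^(-b c)` (`c` modulo `p`). The relation gives `(J(c | p) G) a_c = G a_c` (`Σ_b Σ_j J(j | p) f(b + j) om^(-b c) = a_c Σ_j J(j | p) om^(j c)`) and `G ≠ 0`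
(`G² = ± p`, or `G conj G = p`; Mathlib: `gaussSum_sq`), so `a_c = 0` unless `J(c | p) = 1`. `p f(b) = Σ_c a_c om^(b c)`, so `p Σ_l F_l f(b - l) = Σ_c a_c om^(b c) F(om^(-c)) = 0`. -/
def So_FAC : Prop :=
  ∀ (p : ℕ) (_ : p.Prime) (_ : p ≠ 2) (om : ℂ) (_ : IsPrimitiveRoot om p) (K : Subfield ℂ)
    (_ : ∑ j ∈ Finset.range p, (jacobiSym (j : ℤ) p : ℂ) * om ^ j ∈ K),
    ∃ F H : Polynomial ℂ, F.Monic ∧ H.Monic ∧ (∀ l, F.coeff l ∈ K) ∧ (∀ l, H.coeff l ∈ K) ∧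
      2 * F.natDegree + 1 = p ∧ F * H = Polynomial.X ^ p - 1 ∧ F.eval (om⁻¹) = 0 ∧
      ∀ f : ℤ → ℂ, (∀ b c : ℤ, (p : ℤ) ∣ b - c → f b = f c) →
        (∀ b : ℤ, ∑ j ∈ Finset.range p, (jacobiSym (j : ℤ) p : ℂ) * f (b + j) =
          (∑ j ∈ Finset.range p, (jacobiSym (j : ℤ) p : ℂ) * om ^ j) * f b) →
        ∀ b : ℤ, ∑ l ∈ Finset.range p, F.coeff l * f (b - l) = 0

/-- (HN) the conclusion of the block for a depleted symbol, `p` unramified in `k` (split: `q' = p - 1`; inert: `q' = p² - 1`).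

USES NZ, DVN, TYP. MODEL: `MUX/HN_HN.lean` (first part). PROOF. `n + 1` and `b₀` from NZ for `n₀ + 1` (`N = 1`). `Y b = comb α g 1 (z (n + 1)) b`, `z (n+1) b = Q ∞ (b/p^(n+1))`: periodic modulo `p^(n+1)`
(`sym` for `(1, 1; 0, 1)`), depleted (`Σ_j z (n+1) (u b + u j p^n) = 0` for `u ≡ 1` modulo `p`), values in `pi KI`, `1 ≤ v(Y b₀)`, so (TYP (b) with `e = 1`) `1 ≤ v(Y b₀)^(p-1) v p`; DVN for `n`. -/
def So_HN : Prop :=
  ∀ (p : ℕ) (V : ValuationSubring ℂ) (N₀ s₀ q' i : ℕ) (nu : ℤ → ℂ)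
    (Q : OnePoint ℚ → OnePoint ℚ → ℂ) (pi : ℂ) (KI : Subfield ℂ),
    HypQ p V N₀ s₀ nu Q pi KI →
    (∀ x : ℚ, ∑ j ∈ Finset.range p, Q ∞ (((x + j) / p : ℚ) : OnePoint ℚ) = 0) →
    (∀ w ∈ KI, V.valuation w < 1 → V.valuation w ≤ V.valuation (p : ℂ)) →
    q' ≤ i * (p - 1) → i < q' → q' < (p - 1) * p ^ 2 →
    V.valuation pi ^ q' * V.valuation (p : ℂ) ^ i = 1 →
    ∀ (α g : ℤ), (p : ℤ) ∣ α - 1 → α ≠ 1 → (p : ℤ) ∣ g - 1 → g ≠ 1 → ∀ n₀ : ℕ,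
      ∃ n, n₀ ≤ n ∧ ∀ ζ : ℂ, IsPrimitiveRoot ζ (p ^ (n + 1)) →
        V.valuation (p : ℂ) < V.valuation (∑ b ∈ Finset.range (p ^ (n + 1)), ζ ^ b *
          comb α g 1 (fun b => Q ∞ (((b : ℚ) / (p : ℚ) ^ (n + 1) : ℚ) : OnePoint ℚ)) b)

/-- (HR) the conclusion of the block, ramified case: the support of the Fourier coefficients is in the squares.

USES NZ, DVR, TYP, FAC. MODEL: `MUX/HN_HR.lean`. PROOF. `G = Σ J(j | p) om^j ∈ KI`: `n + 1`, `b₀` from NZ (`N = 1`; applied to `n₀ + 1`), `Q ∞ x ≠ 0` for some `x` (otherwise all combinations are `0`), `Q ∞ x = pi w`, `Σ_j J(j | p) Q ∞ (x + j/p) = pi w'`, `w, w' ∈ KI`, `G = w'/w`. FAC: `F`, `H`.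
`Y b = comb α g 1 (z (n+1)) b`, `z (n+1) b = Q ∞ (b/p^(n+1))`: periodic modulo `p^(n+1)`, `Σ_j J(j | p) z (u b + u j p^n) = G z (u b)` for `u ≡ 1` modulo `p`, so `f(l) = Y (b + l p^n)` satisfies the relation of FAC (`p ∣ g - 1`, `α² - 1`), so `Σ_l F_l Y (b - l p^n) = 0`.
`1 ≤ v(Y b₀)^(p-1) v p` (TYP (b), `e = 2`, `q' = p - 1`). `F(ζ^(p^n)) = F(om⁻¹) = 0`. DVR. (`gap` is a field of `HypQ`; the data `i`, `unr`, `vpi` are used for TYP (b).) -/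
def So_HR : Prop :=
  ∀ (p : ℕ) (V : ValuationSubring ℂ) (N₀ s₀ i : ℕ) (nu : ℤ → ℂ)
    (Q : OnePoint ℚ → OnePoint ℚ → ℂ) (pi : ℂ) (KI : Subfield ℂ) (om : ℂ),
    HypQ p V N₀ s₀ nu Q pi KI → IsPrimitiveRoot om p →
    (∀ x : ℚ, ∑ j ∈ Finset.range p, (jacobiSym (j : ℤ) p : ℂ) *
      Q ∞ ((x + (j : ℚ) / p : ℚ) : OnePoint ℚ) =
      (∑ j ∈ Finset.range p, (jacobiSym (j : ℤ) p : ℂ) * om ^ j) * Q ∞ (x : OnePoint ℚ)) →
    (∀ w ∈ KI, V.valuation w < 1 → V.valuation w ^ 2 ≤ V.valuation (p : ℂ)) →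
    2 ≤ i → i < p - 1 → V.valuation pi ^ (2 * (p - 1)) * V.valuation (p : ℂ) ^ i = 1 →
    ∀ (α g : ℤ), (p : ℤ) ∣ α - 1 → α ≠ 1 → (p : ℤ) ∣ g - 1 → g ≠ 1 → ∀ n₀ : ℕ,
      ∃ n, n₀ ≤ n ∧ ∀ ζ : ℂ, IsPrimitiveRoot ζ (p ^ (n + 1)) → ζ ^ p ^ n * om = 1 →
        V.valuation (p : ℂ) < V.valuation (∑ b ∈ Finset.range (p ^ (n + 1)), ζ ^ b *
          comb α g 1 (fun b => Q ∞ (((b : ℚ) / (p : ℚ) ^ (n + 1) : ℚ) : OnePoint ℚ)) b)

/-- (PRT) Theorem G is inherited by a part of a symbol from which the symbol can be recovered by translations.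

MODEL: `MUX/HN_H1N.lean`. PROOF. `q`, `c` as in the hypothesis, `h` from the hypothesis for `N' q²`. With `T_t = mob q t 0 q`, `τ = mob p³ 1 0 p³`
(`T_t τ = τ T_t` on cusps): `PT p P ∞ (h ∞) = Σ_t c_t PT p Q ∞ (h_t ∞)`, `T_t (h ∞) = h_t ∞`, `h_t = T_t h T_t⁻¹ =
(α + t γ/q, β + t (δ - α)/q - t² γ/q²; γ, δ - t γ/q)`, integral and in `Γ₁(N')`. If all terms had
`v(..)^M < v p`, `M = (p-1) p²`, then so would the sum (`v` of the sum is at most the maximum). -/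
def So_PRT : Prop :=
  ∀ (p : ℕ) (_ : p.Prime) (V : ValuationSubring ℂ) (_ : V.valuation (p : ℂ) < 1) (N₁ M : ℕ)
    (P Q : OnePoint ℚ → OnePoint ℚ → ℂ) (q : ℕ) (c : ℕ → ℂ) (_ : q ≠ 0) (_ : M ≠ 0)
    (_ : ∀ t, V.valuation (c t) ≤ 1)
    (_ : ∀ x y : OnePoint ℚ, ∑ t ∈ Finset.range q, c t * Q (mob q t 0 q x) (mob q t 0 q y) =
      P x y)
    (_ : ∀ N' : ℕ, N' ≠ 0 → N₁ ∣ N' → ∃ α β γ δ : ℤ, α * δ - β * γ = 1 ∧ (N' : ℤ) ∣ γ ∧
      (N' : ℤ) ∣ δ - 1 ∧ V.valuation (p : ℂ) ≤ V.valuation (PT p P ∞ (mob α β γ δ ∞)) ^ M),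
    ∀ N' : ℕ, N' ≠ 0 → N₁ ∣ N' → ∃ α β γ δ : ℤ, α * δ - β * γ = 1 ∧ (N' : ℤ) ∣ γ ∧
      (N' : ℤ) ∣ δ - 1 ∧ V.valuation (p : ℂ) ≤ V.valuation (PT p Q ∞ (mob α β γ δ ∞)) ^ M

end

end Pool.Agent.OBH


end

section

/-!
# Extension of fractional ideals commutes with the Galois action
-/

open NumberField
open scoped nonZeroDivisors Pointwise

namespace Pool.Agent.RI

namespace EXTACT

/-- Membership in the extended fractional ideal. -/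
lemma mem_ext {K L : Type} [Field K] [NumberField K] [Field L] [NumberField L] [Algebra K L]
    (c : J K) (x : L) : x ∈ ((ext K L c : J L) : FractionalIdeal (𝓞 L)⁰ L) ↔
      x ∈ Submodule.span (𝓞 L) (algebraMap K L '' {y | y ∈ (c : FractionalIdeal (𝓞 K)⁰ K)}) := by
  have h : (IsFractionRing.map (A := 𝓞 K) (B := 𝓞 L) (K := K) (L := L)
      (FaithfulSMul.algebraMap_injective (𝓞 K) (𝓞 L))) = algebraMap K L := by
    apply IsLocalization.ringHom_ext (𝓞 K)⁰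
    ext y
    simp only [RingHom.comp_apply, IsFractionRing.map, IsLocalization.map_eq]
    rfl
  show x ∈ (FractionalIdeal.extendedHom L (𝓞 L) (c : FractionalIdeal (𝓞 K)⁰ K)) ↔ _
  rw [FractionalIdeal.extendedHom'_apply, FractionalIdeal.mem_extended_iff]
  have h' : ∀ z : K, IsLocalization.map (S := K) (M := (𝓞 K)⁰) (T := (𝓞 L)⁰) L
      (algebraMap (𝓞 K) (𝓞 L)) (nonZeroDivisors_le_comap_nonZeroDivisors_of_injective _
        (FaithfulSMul.algebraMap_injective (𝓞 K) (𝓞 L))) z = algebraMap K L z := fun z =>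
    congrArg (fun f : K →+* L => f z) h
  rw [show (IsLocalization.map (S := K) (M := (𝓞 K)⁰) (T := (𝓞 L)⁰) L
      (algebraMap (𝓞 K) (𝓞 L)) (nonZeroDivisors_le_comap_nonZeroDivisors_of_injective _
        (FaithfulSMul.algebraMap_injective (𝓞 K) (𝓞 L)))) '' (c : FractionalIdeal (𝓞 K)⁰ K) =
      algebraMap K L '' {y | y ∈ (c : FractionalIdeal (𝓞 K)⁰ K)} from
      Set.image_congr (fun z _ => h' z)]

lemma aux {F K M L : Type} [Field F] [Field K] [NumberField K] [Field M] [Field L]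
    [NumberField L] [Algebra F K] [Algebra K L] [Algebra M L] (σ : L ≃ₐ[M] L) (σ' : K ≃ₐ[F] K)
    (h : ∀ x : K, algebraMap K L (σ' x) = σ (algebraMap K L x)) (c : J K) (x : L)
    (hx : x ∈ Submodule.span (𝓞 L) (algebraMap K L '' {y | y ∈ (c : FractionalIdeal (𝓞 K)⁰ K)})) :
    σ x ∈ Submodule.span (𝓞 L)
      (algebraMap K L '' {y | y ∈ ((σ' • c : J K) : FractionalIdeal (𝓞 K)⁰ K)}) := by
  refine Submodule.span_induction (p := fun x _ => σ x ∈ _) ?_ ?_ ?_ ?_ hx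
  · rintro _ ⟨y, hy, rfl⟩
    rw [← h]
    apply Submodule.subset_span
    refine ⟨σ' y, ?_, rfl⟩
    show σ' y ∈ ((σ' • c : J K) : FractionalIdeal (𝓞 K)⁰ K)
    rw [mem_smul, AlgEquiv.symm_apply_apply]
    exact hy
  · rw [map_zero]; exact zero_mem _
  · intro a b _ _ ha hb
    rw [map_add]
    exact add_mem ha hb
  · intro a b _ hb
    have : σ (a • b) =
        ((RingOfIntegers.mapRingEquiv (σ : L ≃+* L) : 𝓞 L ≃+* 𝓞 L) a) • σ b := by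
      rw [Algebra.smul_def, Algebra.smul_def, map_mul]; rfl
    rw [this]
    exact Submodule.smul_mem _ _ hb

end EXTACT

open _root_.Pool.Agent.RI.EXTACT in
theorem EXTACT_thm : EXTACT := by
  intro F K M L _ _ _ _ _ _ _ _ _ σ σ' h c
  apply Units.ext
  ext x
  rw [mem_smul, mem_ext, mem_ext]
  constructor
  · intro hx
    have h' : ∀ x : K, algebraMap K L (σ'.symm x) = σ.symm (algebraMap K L x) := by
      intro x
      apply σ.injective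
      rw [← h, AlgEquiv.apply_symm_apply, AlgEquiv.apply_symm_apply]
    have := aux σ.symm σ'.symm h' (σ' • c) x hx
    rwa [show σ'.symm • σ' • c = c from inv_smul_smul σ' c] at this
  · intro hx
    have := aux σ σ' h c (σ.symm x) hx
    rwa [AlgEquiv.apply_symm_apply] at this

end Pool.Agent.RI


end

section

/-!
# OB, block G: Theorem G for `PT p (PhiK R e kk / (u om_0))`, `t = 1/p³` (helper59), after helper6's `NS/G_*.lean` (`p = 3`, `t = 1/27`)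

`NSG.Sn_GTH` (`NS/G_Gth.lean`: `gth`, general) is Theorem G for a family of symbols with data `GDatN`. Here: the data for the translates by `t/p³` of the symbols `PhiI (R.b i) e'`. Every statement is a `def So_X : Prop`; the
module OBG_X proves `theorem o_X (h : ..) .. : So_X` in `Pool/Agent/OB/G_X.lean`, namespace `Pool.Agent.OBG` (private lemmas in `Pool.Agent.OBG.X`).
-/

set_option autoImplicit false

namespace Pool.Agent.OBG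

open _root_.MU3 Pool.Agent.MU3A Pool.Agent.MU3B Pool.Agent.MU3Q Pool.Agent.MUX Pool.Agent.MuSym
  Pool.Agent.MUXN Pool.Agent.NS Pool.Agent.NSG Pool.Agent.OB OnePoint UpperHalfPlane

noncomputable section

/-- (TRL) translates by `t / T` of a symbol and of its primitive. MODEL: `Pool.Agent.NSG.Trl.tr` (`NS/G_Trl.lean`), there `T = 27`, `T² = 729`: replace `27` by the positive integer `T`, `729` by `T²`. -/
def So_TRL : Prop :=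
  ∀ (T : ℕ), T ≠ 0 → ∀ (N : ℕ) (Φ : OnePoint ℚ → OnePoint ℚ → ℂ) (ϑ : ℂ → ℂ), SymN N Φ ϑ → ∀ t : ℤ,
    SymN (T ^ 2 * N) (fun x y => Φ (mob (T : ℤ) t 0 (T : ℤ) x) (mob (T : ℤ) t 0 (T : ℤ) y))
      (fun τ => ϑ (τ + t / (T : ℂ)))

/-- (LCN) common denominators prime to `V` of elements of `k ∩ V`. MODEL: `Pool.Agent.NSG.loc_I` (`NS/G_Lcn.lean`), there `P = 3 O`.

PROOF for any prime `P`. One element `y ∈ k ∩ V`: `D y = emb c`, `D` a positive integer. The ideal `I = {t ∈ O : emb t * y ∈ emb O}` is not contained in `P`: `I = (D : c)`; in the Dedekind domain `O` the localization at `P` is a discrete valuation ring: let `s ∈ P`, `s ∉ P²`; or directly: let `k` be the exponent of `P` in `(D)`, `(D) = P^k J`, `J` not in `P`; `v(c) ≤ v(D)`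
implies `c ∈ P^k` (otherwise `(c) = P^j J'`, `j < k`, `J'` not in `P`; choose `t' ∈ P^(k-1-j)`.. compare: take `a ∈ J'` .. then an element `x` of `P^j`-part: by the Chinese remainder theorem there are `α ∈ P^(k)` .. ); SIMPLEST: `h` = the class number, `P^h = (π)`: `v(x)^h`.. For `x ≠ 0` with `(x) = P^j J'`, `J'` not in `P`: `(x^h) = (π^j) J'^h`, `J'^h = (x')`,
`x^h = ε π^j x'`, `v(emb x') = 1` (`x' ∉ P`), so `v(emb x)^h = v(emb π)^j`. So `v(c) ≤ v(D)` and `v(π) < 1` give `j(c) ≥ j(D) = k`. Then `(c) J ≤ P^k J = (D)`: for `t ∈ J`, `t ∉ P`: `c t = D b`, `emb t * y = emb b`. Finite sets: products of the `t`. `te_RNG` (`MUX/E_RNG.lean`, field `ded`), `MUX/XLib.lean`, finiteness of the class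
group: the class number of `O`: see `MU3`, `TWR`; or take a finite power of `P` principal from `NumberField.RingOfIntegers.instFintypeClassGroup` by transport (`MUX/E_RNG.lean`, `int`). Another way: the localization `Localization.AtPrime P` is a discrete valuation ring (`IsLocalization.AtPrime.isDiscreteValuationRing_of_dedekind_domain`), its image in `ℂ` is contained in `V` and is a
valuation ring with `V ∩ k` above it, so they are equal (a discrete valuation ring is a maximal proper subring of its field of fractions): every `y ∈ k ∩ V` is `b/t` with `t ∉ P`. -/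
def So_LCN : Prop :=
  ∀ (p er : ℕ) (A B : ℤ) (P : Ideal (OO A B)) (V : ValuationSubring ℂ), CaseO p er A B P V →
    LocN A B V

/-- (LEG) the lattice `u L_0` in Legendre form, and `u` is algebraic. MODEL: `Pool.Agent.NSG.legN`, `leg_alg`, `cub` (`NS/G_Leg.lean`); `v1`, `v2` are the fields `vl`, `vl1` of `GoodL`.

USES `MUXU.Su_SCX` (`Pool.Agent.MUXU.u_SCX`, `MUX/UAll.lean`). -/
def So_LEG : Prop :=
  ∀ (A B : ℤ), CQ A B → TorX A B → ∀ (n : ℕ) (ι : Type) (R : Reps A B n ι) (V : ValuationSubring ℂ)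
    (u e lam : ℂ), GoodL V (R.L R.i0) u e lam →
    IsAlgebraic ℚ u ∧ ∃ L' : PeriodPair, LegN A B V L' (u * R.om R.i0) (e / u ^ 2) lam

/-- (UNN) units and ideals with a generator. MODEL: `Pool.Agent.NSG.unit_I` (`NS/G_Unn.lean`): only `5 ≤ absD` is used there; here `absD ≠ 3, 4` and `CQ`.

USES Sx_IDL, Sx_NIM (as there). -/
def So_UNN : Prop :=
  ∀ (A B : ℤ), CQ A B → absD A B ≠ 3 → absD A B ≠ 4 →
    (∀ x : OO A B, nm x = 1 → x = 1 ∨ x = -1) ∧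
    ∀ (b : Ideal (OO A B)) (_ : b ≠ ⊥) (x : OO A B), x ∈ b → nm x = MUX.nI b → b = MUX.sp x

/-- (GPT) THE RESULT. MODELS: `NS/G_Gdn.lean` (`gdat`) and `NS/G_Gpt.lean` (`gPT`), with `T = p³` instead of `27`, `T² N'` instead of `729 N'`, `Fin (p ^ 3)` instead of `Fin 27`, `ζ = exp (2 π i/p³)` instead of `z27`; `v(ζ - 1)^((p-1) p²) = v p` is `MUXH.Hz.val_p p pp V 2 ζ`.

USES TRL, LCN, LEG, UNN, `Sn_GTH` and the statements in the hypotheses of `gPT` (`Xs_FTI`, `Sx_CHI`, `Sy_CON`, `Sy_ALP`, `Sy_FEC`, `Sy_COP`, `Sx_ALG`, `Sx_IDL`, `Sx_QB`, `Sx_BDD`, `Sx_TSM`); `qx` (`NS/G_Qxn.lean`) is general. `0, 1` are different in `Fin (p ^ 3)` (`p ≥ 5`). -/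
def So_GPT : Prop :=
  ∀ (p er : ℕ) (A B : ℤ) (P : Ideal (OO A B)) (V : ValuationSubring ℂ) (f : ℕ),
    SetO p er A B P V f → TorX A B →
    ∀ (ι : Type) [Fintype ι] (R : Reps A B (p * f) ι) (u el lam : ℂ),
    GoodL V (R.L R.i0) u el lam → ∀ e : OO A B → ℂ, IsEI (idl (A := A) (B := B) (p * f)) e →
    ∀ r : ℕ, r ≠ 0 → (∀ x, e x ≠ 0 → e x ^ r = 1) → ∀ kk : ι → ℂ, V.valuation (kk R.i0) = 1 →
    ∀ N' : ℕ, N' ≠ 0 → absD A B * ((p * f : ℕ) : ℤ) ^ 2 ∣ (N' : ℤ) →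
    ∃ a b c d : ℤ, a * d - b * c = 1 ∧ (N' : ℤ) ∣ c ∧ (N' : ℤ) ∣ d - 1 ∧
      V.valuation (p : ℂ) ≤
        V.valuation (Pool.Agent.OBH.PT p (fun x y => PhiK R e kk x y / (u * R.om R.i0)) ∞
          (mob a b c d ∞)) ^ ((p - 1) * p ^ 2)

end

end Pool.Agent.OBG


end

section

/-!
# OB, block H, bridge (helper51): from theta series to `HypQ`, and the character sums `O_HFIN`

`SetO p er A B P V f` (`OB/Defs0.lean`), `v = V.valuation`. `p` unramified in `k` (`er = 1`, split or inert): the symbol is `Q = sgnPart s (PhiK R e kk/(u om_0))`, depleted because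
`e x = 0` for `p ∣ N x`. `p` ramified (`er = 2`): the Fourier coefficients of `PhiI b e` live on the exponents `n = N x/N b` with `J(n | p) = J(N b | p)` (`J` = Jacobi symbol); `Q = QR` is the part of
`Phi + s iota^* Phi` on the exponents `n` with `J(n | p) = 1`. Then `So_HN`, `So_HR` of `OB/StHN.lean` give the character sums.

Every statement is a `def So_X : Prop`; a module proves `theorem to_X (h : ..) ... : So_X` in `Pool/Agent/OB/HB_X.lean`, namespace `Pool.Agent.OBH` (private lemmas in `Pool.Agent.OBH.X`),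
with the statements named under USES as hypotheses (fewer is fine). Unconditional and usable: `Pool.Agent.MUXF.xf_X : MUXF.Sx_X` (`MUX/XFAll.lean`), `Pool.Agent.MUXHY.ty_QSX` (`MUX/HY_QSX.lean`),
`Pool.Agent.MUXT.sym_EI`, `fg_EI` (`MUX/XTF7.lean`), `Pool.Agent.MUXY.y_ALP`, `y_COP` (`MUX/YAll.lean`), `NSGR.tv_TWR` (`NS/GR_TWR.lean`), the files `MUX/HX_*.lean`. `MUXHY.toCQ`, `toEI` convert the structures.
Never import `Pool.Agent.MVF`.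
-/

set_option autoImplicit false

namespace Pool.Agent.OBH

open _root_.MU3 _root_.Pool.Agent.MU3A _root_.Pool.Agent.MU3B _root_.Pool.Agent.MU3F _root_.Pool.Agent.MUX
  _root_.Pool.Agent.MUXH _root_.Pool.Agent.MUXHY _root_.Pool.Agent.MuSym _root_.Pool.Agent.OB OnePoint
open _root_.Pool.Agent.MUXF (qb)

noncomputable section

/-! ## Definitions -/

/-- `p^(er+1) N₀ = |D| (p f)²`, `N₀` prime to `p` -/
def N0O (p er : ℕ) (A B : ℤ) (f : ℕ) : ℕ := (absD A B).toNat / p ^ (er - 1) * f ^ 2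

/-- the part of the family of weights with `J(d N b_i | p) = 1` -/
def kkJ {A B : ℤ} {n : ℕ} {ι : Type} (p : ℕ) (R : Reps A B n ι) (kk : ι → ℂ) (d : ℤ) (i : ι) : ℂ :=
  if jacobiSym (d * (nI (R.b i) : ℤ)) p = 1 then kk i else 0

/-- the part of `(Φ + s ι^* Φ)/Om` on the exponents which are squares modulo `p`, `Om = u om_0` -/
def QR {A B : ℤ} {n : ℕ} {ι : Type} [Fintype ι] (p : ℕ) (R : Reps A B n ι) (e : OO A B → ℂ)
    (kk : ι → ℂ) (s u : ℂ) (x y : OnePoint ℚ) : ℂ :=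
  (PhiK R e (kkJ p R kk 1) x y +
    s * PhiK R e (kkJ p R kk (-1)) (mob (-1) 0 0 1 x) (mob (-1) 0 0 1 y)) / (u * R.om R.i0)

/-! ## Input from block G (helper59) -/

/-- (GPT) Theorem G for `P_t`, `P = PhiK R e kk / (u om_0)`, `t = 1/p³`. MODEL: `NS.Sn_GPT`. -/
def O_GPT : Prop :=
  ∀ (p er : ℕ) (A B : ℤ) (P : Ideal (OO A B)) (V : ValuationSubring ℂ) (f : ℕ),
    SetO p er A B P V f → TorX A B →
    ∀ (ι : Type) [Fintype ι] (R : Reps A B (p * f) ι) (u el lam : ℂ),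
    GoodL V (R.L R.i0) u el lam → ∀ e : OO A B → ℂ, IsEI (idl (A := A) (B := B) (p * f)) e →
    ∀ r : ℕ, r ≠ 0 → (∀ x, e x ≠ 0 → e x ^ r = 1) → ∀ kk : ι → ℂ, V.valuation (kk R.i0) = 1 →
    ∀ N' : ℕ, N' ≠ 0 → absD A B * ((p * f : ℕ) : ℤ) ^ 2 ∣ (N' : ℤ) →
    ∃ a b c d : ℤ, a * d - b * c = 1 ∧ (N' : ℤ) ∣ c ∧ (N' : ℤ) ∣ d - 1 ∧
      V.valuation (p : ℂ) ≤ V.valuation (PT p (fun x y => PhiK R e kk x y / (u * R.om R.i0)) ∞
        (mob a b c d ∞)) ^ ((p - 1) * p ^ 2)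

/-! ## Elementary facts -/

/-- (RAM) the norm of `P` and the discriminant.

PROOF. `nI I = Ideal.absNorm I`; `OO A B` is a Dedekind domain (instances as in `MUX/XLib.lean`, `MUX/F_IDL.lean`: use their lemmas; `XLib` has `nI_sp`, ..). `nI (idl p) = p²`, `idl p ≤ P`, so `nI P ∣ p²`, `nI P ≠ 1` (`P ≠ ⊤`): `nI P = p` or `p²`. `er = 2`: `idl p ≤ P²`, so `nI P ^ 2 ∣ p²`, `nI P = p`.
Discriminant `Dd = B² + 4 A = -absD`, `δ = 2 w - B` (`⟨-B, 2⟩`), `δ² = Dd`. (1) `er = 1`: suppose `p ∣ Dd`. `p²∤ Dd` (`CQ`: `B = 1`, `Dd = 1 + 4 A` squarefree, or `B = 0`, `Dd = 4 A`, `A` squarefree; `p ≥ 5`). `δ² ∈ idl p ≤ P`, so `δ ∈ P`, `δ² = Dd = p D₁`, `p ∤ D₁`: `P²` contains `p²` and `δ² = p D₁`, so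
`p = (s p) p + t p D₁ ∈ P²` (`s p + t D₁ = 1`), against `er = 1`. (2) `er = 2`: `P² ∋ p` and `nI (P²) = p² = nI (idl p)`, `idl p ≤ P²`, so `idl p = P²` (`Ideal.eq_of_dvd_of_absNorm_eq`-type lemma, or: `P² ∣ idl p` and equal norms). Take `x ∈ P`, `x ∉ idl p` (else `P = P²`). `star x`: the conjugate ideal of `P` contains `p`, so
`P² ≤ cjI P`, `P ≤ cjI P` (prime), so `star x ∈ P` for `x ∈ P` (`star` is an involution). So `tr x = x + star x` and `nm x = x star x` are integers in `P`, divisible by `p` (`P ∩ ℤ = p ℤ`). `tr x = 2 a + B b`, `nm x = a² + B a b - A b²` for `x = a + b w`, `Dd b² = (tr x)² - 4 nm x`. If `p ∤ Dd` then `p ∣ b`, then `p ∣ a`, `x ∈ idl p`. -/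
def So_RAM : Prop :=
  ∀ (p er : ℕ) (A B : ℤ) (P : Ideal (OO A B)) (V : ValuationSubring ℂ), CaseO p er A B P V →
    (nI P = p ∨ nI P = p ^ 2) ∧ (er = 1 → ¬ (p : ℤ) ∣ absD A B) ∧
    (er = 2 → nI P = p ∧ (p : ℤ) ∣ absD A B ∧ ¬ (p : ℤ) ^ 2 ∣ absD A B)

/-- (VAL) elementary facts. USES RAM. MODEL: `valN` in `NS/H_Chn.lean`.

PROOF. As `valN`; `v p < 1` because `p ∈ P` (`hV`: `OverI`). `N0O`: `er = 1`: `N₀ = |D| f²`, `p ∤ |D|`; `er = 2`: `N₀ = (|D|/p) f²`, `p ∤ |D|/p` (RAM). -/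
def So_VAL : Prop :=
  ∀ (p er : ℕ) (A B : ℤ) (P : Ideal (OO A B)) (V : ValuationSubring ℂ) (f : ℕ),
    SetO p er A B P V f →
    V.valuation (p : ℂ) < 1 ∧ (∀ n : ℤ, V.valuation (n : ℂ) ≤ 1) ∧
    (∀ n : ℤ, ¬ (p : ℤ) ∣ n → V.valuation (n : ℂ) = 1) ∧
    (∀ (r : ℕ) (z : ℂ), r ≠ 0 → z ^ r = 1 → V.valuation z = 1) ∧
    0 < absD A B ∧ idl (A := A) (B := B) (p * f) ≤ sp ((absD A B : ℤ) : OO A B) ∧
    idl (A := A) (B := B) (p * f) ≠ ⊥ ∧ idl (A := A) (B := B) (p * f) ≠ ⊤ ∧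
    ((p * f : ℕ) : OO A B) ∈ idl (A := A) (B := B) (p * f) ∧
    ((p ^ (er + 1) * N0O p er A B f : ℕ) : ℤ) = absD A B * ((p * f : ℕ) : ℤ) ^ 2 ∧
    N0O p er A B f ≠ 0 ∧ Nat.Coprime p (N0O p er A B f) ∧
    absD A B ∣ ((p * N0O p er A B f : ℕ) : ℤ) ∧
    ((p * f : ℕ) : ℤ) ∣ ((p * N0O p er A B f : ℕ) : ℤ)

/-- (CHR) the nebentypus. USES VAL, RAM. MODEL: `chrN` in `NS/H_Chn.lean`, `NS/HGR_Chr.lean`. -/
def So_CHR : Prop :=
  ∀ (p er : ℕ) (A B : ℤ) (P : Ideal (OO A B)) (V : ValuationSubring ℂ) (f : ℕ),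
    SetO p er A B P V f → ∀ e : OO A B → ℂ, IsEI (idl (A := A) (B := B) (p * f)) e →
    ∀ r : ℕ, r ≠ 0 → (∀ x, e x ≠ 0 → e x ^ r = 1) →
    nuX e 1 = 1 ∧ (∀ d d', nuX e (d * d') = nuX e d * nuX e d') ∧
    (∀ d d' : ℤ, ((p * N0O p er A B f : ℕ) : ℤ) ∣ d - d' → nuX e d = nuX e d') ∧
    (∀ d, V.valuation (nuX e d) ≤ 1)

/-- (QBO) the exponents modulo `p`.

USES RAM. PROOF. `e x ≠ 0` means `IsCoprime (sp x) (idl (p f))`, so `IsCoprime (sp x) (idl p)`, and (conjugate) `IsCoprime (sp (star x)) (idl p)`, so `nm x = x star x` is a unit modulo `p`: `p ∤ nm x`. `nm x = nI b * qb b x` (`MUXF.xf_QB`), so `p ∤ qb b x`. `er = 2`: `p ∣ Dd = -absD` (RAM), `4 nm x = t² - Dd x.im²`,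
`t = 2 x.re + B x.im`, so `4 nm x ≡ t²` modulo `p`, `p ∤ t`, `J(nm x | p) = J(4 nm x | p) = J(t² | p) = 1` (`jacobiSym.mod_left`, `jacobiSym.sq_one`), and `J(nI b | p) J(qb b x | p) = 1`. -/
def So_QBO : Prop :=
  ∀ (p er : ℕ) (A B : ℤ) (P : Ideal (OO A B)) (V : ValuationSubring ℂ) (f : ℕ),
    SetO p er A B P V f → ∀ e : OO A B → ℂ, IsEI (idl (A := A) (B := B) (p * f)) e →
    ∀ b : Ideal (OO A B), b ≠ ⊥ → ∀ x ∈ b, e x ≠ 0 → ¬ (p : ℤ) ∣ nm x ∧ ¬ (p : ℤ) ∣ qb b x ∧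
      (er = 2 → jacobiSym (nm x) p = 1 ∧ jacobiSym (qb b x) p = jacobiSym (nI b : ℤ) p)

/-- (DEP) depletion. USES VAL, QBO. MODEL: `phi_dep` in `NS/H_Dep.lean` (`e_zero` is QBO). -/
def So_DEP : Prop :=
  ∀ (p er : ℕ) (A B : ℤ) (P : Ideal (OO A B)) (V : ValuationSubring ℂ) (f : ℕ),
    SetO p er A B P V f → ∀ e : OO A B → ℂ, IsEI (idl (A := A) (B := B) (p * f)) e →
    ∀ b : Ideal (OO A B), b ≠ ⊥ → ∀ x : ℚ,
    ∑ j ∈ Finset.range p, PhiI b e ∞ (((x + j) / p : ℚ) : OnePoint ℚ) = 0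

/-- (SHJ) the symbol under the quadratic character sum of the translations `x ↦ x + j/p`. MODEL: `Sv_SH3` (`NS/GR_SH3.lean`), `H_Dep.lean`.

PROOF. `om = exp(2πi/p)`. `thetaI b e (z ± j/p) = Σ .. exp(2πi n z) om^(± n j)`, `n = qb b x`, term by term (`xf_TSM`), and `Σ_j J(j | p) om^(j n) = J(n | p) G`, `G = Σ_j J(j | p) om^j` (for `p ∤ n` the substitution `j ↦ n j` modulo `p`; here `J(n | p) = t ≠ 0` for all terms with `e x ≠ 0`), `Σ_j J(j | p) om^(-j n) = J(-1 | p) J(n | p) G`.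
So `Σ_j J(j | p) thetaI (z + j/p) = t G thetaI z` and so on. Integrate (`PhiI b e ∞ r = - IvI b e r`, as in `phi_dep`). -/
def So_SHJ : Prop :=
  ∀ (p : ℕ) (_ : p.Prime) (_ : p ≠ 2) (A B : ℤ) (_ : CQ A B) (b g : Ideal (OO A B))
    (e : OO A B → ℂ) (_ : b ≠ ⊥) (_ : g ≠ ⊥) (_ : IsEI g e) (t : ℤ) (_ : t ≠ 0)
    (_ : ∀ x ∈ b, e x ≠ 0 → jacobiSym (qb b x) p = t) (r : ℚ),
    ∑ j ∈ Finset.range p, (jacobiSym (j : ℤ) p : ℂ) *
        PhiI b e ∞ ((r + (j : ℚ) / p : ℚ) : OnePoint ℚ) =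
      t * (∑ j ∈ Finset.range p, (jacobiSym (j : ℤ) p : ℂ) *
        Complex.exp (2 * Real.pi * Complex.I / p) ^ j) * PhiI b e ∞ (r : OnePoint ℚ) ∧
    ∑ j ∈ Finset.range p, (jacobiSym (j : ℤ) p : ℂ) *
        PhiI b e ∞ ((r - (j : ℚ) / p : ℚ) : OnePoint ℚ) =
      jacobiSym (-1) p * t * (∑ j ∈ Finset.range p, (jacobiSym (j : ℤ) p : ℂ) *
        Complex.exp (2 * Real.pi * Complex.I / p) ^ j) * PhiI b e ∞ (r : OnePoint ℚ)

/-- (REL) the relation of `So_HR` for `QR`.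

USES QBO, SHJ, VAL. PROOF. `mob (-1) 0 0 1 (x + j/p) = -x - j/p`, `mob (-1) 0 0 1 ∞ = ∞`. `PhiK` is the sum over `i`; `kkJ p R kk 1 i = 0` unless `J(N b_i | p) = 1 = t` (QBO, SHJ first part), `kkJ p R kk (-1) i = 0` unless `J(-N b_i | p) = J(-1 | p) J(N b_i | p) = 1` (SHJ second part with `t = J(N b_i | p)`). -/
def So_REL : Prop :=
  ∀ (p : ℕ) (A B : ℤ) (P : Ideal (OO A B)) (V : ValuationSubring ℂ) (f : ℕ),
    SetO p 2 A B P V f → ∀ (ι : Type) [Fintype ι] (R : Reps A B (p * f) ι) (e : OO A B → ℂ),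
    IsEI (idl (A := A) (B := B) (p * f)) e → ∀ (kk : ι → ℂ) (s u : ℂ) (x : ℚ),
    ∑ j ∈ Finset.range p, (jacobiSym (j : ℤ) p : ℂ) *
      QR p R e kk s u ∞ ((x + (j : ℚ) / p : ℚ) : OnePoint ℚ) =
      (∑ j ∈ Finset.range p, (jacobiSym (j : ℤ) p : ℂ) *
        Complex.exp (2 * Real.pi * Complex.I / p) ^ j) * QR p R e kk s u ∞ (x : OnePoint ℚ)

/-! ## Projectors -/

/-- (PJ1) the projector, `er = 1`. USES VAL, RAM (`MUXF.xf_PHX`, `xf_PRJ`). MODEL: `prn` in `NS/H_Prn.lean` (the modulus is `|D|`, prime to `p`). -/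
def So_PJ1 : Prop :=
  ∀ (p : ℕ) (A B : ℤ) (P : Ideal (OO A B)) (V : ValuationSubring ℂ) (f : ℕ),
    SetO p 1 A B P V f → ∀ (ι : Type) [Fintype ι] (R : Reps A B (p * f) ι) (e : OO A B → ℂ),
    IsEI (idl (A := A) (B := B) (p * f)) e → ∀ (kk : ι → ℂ) (Z s : ℂ),
    ∃ (q : ℕ) (c : ℕ → ℂ), q ≠ 0 ∧ (∀ t, V.valuation (c t) ≤ 1) ∧ ∀ x y : OnePoint ℚ,
      ∑ t ∈ Finset.range q, c t * sgnPart s (fun x y => PhiK R e kk x y / Z) (mob q t 0 q x)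
        (mob q t 0 q y) = PhiK R e kk x y / Z

/-- (PHJ) the function `φ` modulo `D' = |D|/p`, ramified case. MODEL: `Sv_PHR` (`NS/GR_PHR.lean`).

USES RAM, VAL. PROOF. `xf_PHX` gives `φ₀` of period `|D| = p D'`, `p ∤ D'` (RAM). For `n` let `n' ≡ n` modulo `D'`, `n' ≡ 1` modulo `p` (CRT), `φ n := φ₀ n'`: well defined, period `D'`. Let `x ∈ b`, `e x ≠ 0`, `m = qb b x`. (1) `J(m | p) = 1`: `m ≡ c²` modulo `p` with `p ∤ c` (`legendreSym.eq_one_iff`). Let `c' ∈ ℤ`, `c' c ≡ 1` modulo `p`, `c' ≡ 1` modulo `f` (CRT).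
`c'` is prime to `p f`, so `e(c' x) = e(c') e(x) ≠ 0`, and `qb b (c' x) = c'² m`. `D' ∣ f` (`p D' = |D| ∣ p f`), so `c'² m ≡ m` modulo `D'` and `≡ 1` modulo `p`: `φ m = φ₀ (c'² m) = φ₀ (qb b (c' x)) = 1`. (2) `J(-m | p) = 1`: `-m ≡ c²`, the same `c'`: `φ(-m) = φ₀(-c'² m) = φ₀(-qb b (c' x)) = 0`. -/
def So_PHJ : Prop :=
  ∀ (p : ℕ) (A B : ℤ) (P : Ideal (OO A B)) (V : ValuationSubring ℂ) (f : ℕ),
    SetO p 2 A B P V f → ∃ (D' : ℕ) (φ : ℤ → ℂ), ((p * D' : ℕ) : ℤ) = absD A B ∧ ¬ p ∣ D' ∧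
    D' ≠ 0 ∧ (∀ n, φ n = 0 ∨ φ n = 1) ∧ (∀ n, φ (n + D') = φ n) ∧
    ∀ e : OO A B → ℂ, IsEI (idl (A := A) (B := B) (p * f)) e → ∀ b : Ideal (OO A B), b ≠ ⊥ →
      ∀ x ∈ b, e x ≠ 0 → (jacobiSym (qb b x) p = 1 → φ (qb b x) = 1) ∧
        (jacobiSym (-qb b x) p = 1 → φ (-qb b x) = 0)

/-- (PJ2) the projector, `er = 2`. MODEL: `Sv_PJR` (`NS/GR_PJR.lean`).

USES PHJ, QBO, VAL, `NSGR.Sv_TWR` (proved: `NSGR.tv_TWR`, file `NS/GR_TWR.lean`; take it as it is, no hypothesis). PROOF. `q = D'`, `c_a = (1/q) Σ_n φ n exp(-2πi a n/q)`, `v(c_a) ≤ 1` (`v q = 1`; roots of unity). For `i` with `J(N b_i | p) = 1`: `J(qb | p) = 1` (QBO), `φ(qb) = 1`, TWR (1). For `i` with `J(-N b_i | p) = 1`: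
`J(-qb | p) = 1`, `φ(-qb) = 0`, TWR (2). `PhiK` is the sum over `i`, the weights of the other `i` are `0`. -/
def So_PJ2 : Prop :=
  ∀ (p : ℕ) (A B : ℤ) (P : Ideal (OO A B)) (V : ValuationSubring ℂ) (f : ℕ),
    SetO p 2 A B P V f → ∀ (ι : Type) [Fintype ι] (R : Reps A B (p * f) ι) (e : OO A B → ℂ),
    IsEI (idl (A := A) (B := B) (p * f)) e → ∀ (kk : ι → ℂ) (s u : ℂ),
    ∃ (q : ℕ) (c : ℕ → ℂ), q ≠ 0 ∧ (∀ t, V.valuation (c t) ≤ 1) ∧ ∀ x y : OnePoint ℚ,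
      ∑ t ∈ Finset.range q, c t * QR p R e kk s u (mob q t 0 q x) (mob q t 0 q y) =
        PhiK R e (kkJ p R kk 1) x y / (u * R.om R.i0)

/-! ## The symbols -/

/-- (SAF) `PhiK/(u om_0)` is a symbol with algebraic values in a finitely generated group. MODEL: fields `sym`, `alg`, `fin` in `hypN` (`NS/H_Hfin.lean`), `hypR` (`NS/HGR.lean`).

USES VAL (`MUXT.sym_EI`, `MUXT.fg_EI`, `MUXY.y_ALP`, `y_COP`). PROOF. `IsSym` for `PhiI (R.b i) e` (`sym_EI` with `3 f` replaced by `p f`), linear combinations (`Sym.isSym_lin`). `kk i` is algebraic (`0` or a root of unity), `u` by hypothesis; `fin` as in `hypN`. -/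
def So_SAF : Prop :=
  ∀ (p er : ℕ) (A B : ℤ) (P : Ideal (OO A B)) (V : ValuationSubring ℂ) (f : ℕ),
    SetO p er A B P V f → TorX A B → ∀ (ι : Type) [Fintype ι] (R : Reps A B (p * f) ι)
    (e : OO A B → ℂ), IsEI (idl (A := A) (B := B) (p * f)) e → ∀ r : ℕ, r ≠ 0 →
    (∀ x, e x ≠ 0 → e x ^ r = 1) → ∀ kk : ι → ℂ, (∀ i, kk i = 0 ∨ kk i ^ r = 1) →
    ∀ u : ℂ, u ≠ 0 → IsAlgebraic ℚ u →
    IsSym (p ^ (er + 1) * N0O p er A B f) (nuX e)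
      (fun x y => PhiK R e kk x y / (u * R.om R.i0)) ∧
    (∀ x y, IsAlgebraic ℚ (PhiK R e kk x y / (u * R.om R.i0))) ∧
    ∃ T : Finset ℂ, ∀ x y, PhiK R e kk x y / (u * R.om R.i0) ∈ AddSubgroup.closure (T : Set ℂ)

/-- (UAL) `u` is algebraic. MODEL: `leg_alg` in `NS/G_Leg.lean` (its first conclusion; `GoodN` there is used only through `u0`, `eq`). -/
def So_UAL : Prop :=
  ∀ (A B : ℤ), CQ A B → TorX A B → ∀ (n : ℕ) (ι : Type) (R : Reps A B n ι)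
    (V : ValuationSubring ℂ) (u el lam : ℂ), GoodL V (R.L R.i0) u el lam → IsAlgebraic ℚ u

/-- (HQ1) `HypQ` for `er = 1`. MODEL: `hypN` in `NS/H_Hfin.lean`.

USES O_TYF, O_GPT, RAM, VAL, CHR, DEP, PJ1, SAF, UAL, BDN, HKN, TYP, PRT. PROOF. `Φ x y = PhiK R e kk x y/(u om_0)`, `Q = sgnPart s Φ`, `s₀ = 1`. O_TYF for `kk`, `kk' = kk`: `pi`, `KI`. TYP with `e = 1`, `q' = nI P - 1` (`q' ≤ p² - 1 < (p-1) p²`; `i ≤ nI P - 2` and `nI P ≥ p ≥ 5` give `i < q'`). `pi ≠ 0` because `v(pi)^q' v(p)^i = 1`.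
`num`, `nuper`, ..: CHR. `sym`, depletion of `Q`: HKN (DEP for `PhiI (R.b i)`, linear combination). `bdd`: BDN for `Φ` (SAF), and `v s ≤ 1`. `typ`: `Φ x y`, `Φ (-x) (-y) ∈ pi KI`, `s ∈ KI`. `gap`: TYP (a). `G`: PRT with PJ1 and O_GPT (`v(kk i0) = 1`: a root of unity of order prime to `p`, VAL; `p² N₀ = |D| (p f)²`, VAL). -/
def So_HQ1 : Prop :=
  ∀ (p : ℕ) (A B : ℤ) (P : Ideal (OO A B)) (V : ValuationSubring ℂ) (f : ℕ),
    SetO p 1 A B P V f → TorX A B →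
    ∀ (ι : Type) [Fintype ι] (R : Reps A B (p * f) ι) (u el lam : ℂ),
    GoodL V (R.L R.i0) u el lam → ∀ w : OO A B → ℂ, IsTeiP p 1 P V w →
    ∀ e : OO A B → ℂ, IsEI (idl (A := A) (B := B) (p * f)) e → ∀ r : ℕ, ¬ p ∣ r →
    (∀ x, e x ≠ 0 → e x ^ r = 1) → ∀ i : ℕ, nI P - 1 ≤ i * (p - 1) → i ≤ nI P - 2 →
    (∀ x, x - 1 ∈ gO P f → x ∉ P → e x = w x ^ i) →
    ∀ s : ℤ, s = 1 ∨ s = -1 → ∀ kk : ι → ℂ, (∀ i, kk i ^ r = 1) →
    ∃ (pi : ℂ) (KI : Subfield ℂ), HypQ p V (N0O p 1 A B f) 1 (nuX e)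
        (sgnPart (s : ℂ) (fun x y => PhiK R e kk x y / (u * R.om R.i0))) pi KI ∧
      (∀ x : ℚ, ∑ j ∈ Finset.range p, sgnPart (s : ℂ) (fun x y => PhiK R e kk x y /
        (u * R.om R.i0)) ∞ (((x + j) / p : ℚ) : OnePoint ℚ) = 0) ∧
      (∀ w ∈ KI, V.valuation w < 1 → V.valuation w ≤ V.valuation (p : ℂ)) ∧
      V.valuation pi ^ (nI P - 1) * V.valuation (p : ℂ) ^ i = 1

/-- (HQ2) `HypQ` for `er = 2`. MODEL: `hypR` in `NS/HGR.lean`.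

USES O_TYF, O_GPT, RAM, VAL, CHR, PJ2, SAF, UAL, BDN, TYP, PRT. PROOF. `Q = QR p R e kk s u`, `s₀ = 2`. O_TYF for the families `kkJ p R kk 1`, `kkJ p R kk (-1)` (values `0` or roots of unity of order dividing `r`): `pi`, `KI`. TYP with `e = 2`, `q' = p - 1` (`nI P = p`), `2 ≤ i < p - 1`. `sym`: `isSym_neg`, `isSym_add` of `NS/HGR.lean` (with the factor `s`).
`typ`, `bdd` as in HQ1. `G`: PRT with PJ2 and O_GPT for the weights `kkJ p R kk 1` (`nI (R.b i0) = nI ⊤ = 1`, `J(1 | p) = 1`, so the weight at `i0` is `kk i0`). -/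
def So_HQ2 : Prop :=
  ∀ (p : ℕ) (A B : ℤ) (P : Ideal (OO A B)) (V : ValuationSubring ℂ) (f : ℕ),
    SetO p 2 A B P V f → TorX A B →
    ∀ (ι : Type) [Fintype ι] (R : Reps A B (p * f) ι) (u el lam : ℂ),
    GoodL V (R.L R.i0) u el lam → ∀ w : OO A B → ℂ, IsTeiP p 2 P V w →
    ∀ e : OO A B → ℂ, IsEI (idl (A := A) (B := B) (p * f)) e → ∀ r : ℕ, ¬ p ∣ r →
    (∀ x, e x ≠ 0 → e x ^ r = 1) → ∀ i : ℕ, 2 ≤ i → i < p - 1 →
    (∀ x, x - 1 ∈ gO P f → x ∉ P → e x = w x ^ i) →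
    ∀ s : ℤ, s = 1 ∨ s = -1 → ∀ kk : ι → ℂ, (∀ i, kk i ^ r = 1) →
    ∃ (pi : ℂ) (KI : Subfield ℂ),
      HypQ p V (N0O p 2 A B f) 2 (nuX e) (QR p R e kk (s : ℂ) u) pi KI ∧
      (∀ w ∈ KI, V.valuation w < 1 → V.valuation w ^ 2 ≤ V.valuation (p : ℂ)) ∧
      V.valuation pi ^ (2 * (p - 1)) * V.valuation (p : ℂ) ^ i = 1

/-! ## The character sums -/

/-- (QS2) the quantity of the final statement as a character sum, `er = 2`. MODEL: `NS/HGR_Sup.lean` (`SnX_zero`, `STX_one`, `STX_neg`, `comb_lin`, `qsr`).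

USES VAL, QBO (`MUXHY.ty_QSX MUXF.xf_F5 MUXF.xf_PRD`). PROOF. (1) `SnX R m M e i c = 0` for `p ∣ M`, `J(N b_i c | p) ≠ 1`, `p ∤ c` (`nm x N b_i ≡ c` modulo `p`, `J(nm x | p) = 1` by QBO for `b = ⊤`). So for `c ≡ 1`, `a ≡ 1` modulo `p`: `STX (kkJ p R kk 1) c = STX kk c`, and for `c ≡ -1`: `STX (kkJ p R kk (-1)) c = STX kk c`.
(2) QSX for the weights `k` and `s = 1, -1` (`P = ⊤`, `N = 1`; `q0 p = p`, `q0 p * p^n = p^(n+1)`): half the sum, half the difference: `Σ_j ± STX k (g^j) = 2 f Σ_b ζ^b comb (b ↦ PP k ∞ (b/M)) b` and `Σ_j ± STX k (-g^j) = 2 f Σ_b ζ^b comb (b ↦ PP k (-∞) (-b/M)) b`, `g = 1 + p`. Take the first for `k = kkJ 1`, the second for `k = kkJ (-1)`, times `s`. -/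
def So_QS2 : Prop :=
  ∀ (p : ℕ) (A B : ℤ) (P : Ideal (OO A B)) (V : ValuationSubring ℂ) (f : ℕ),
    SetO p 2 A B P V f → ∀ (ι : Type) [Fintype ι] (R : Reps A B (p * f) ι) (e : OO A B → ℂ),
    IsEI (idl (A := A) (B := B) (p * f)) e → ∀ (kk : ι → ℂ) (s : ℤ) (n : ℕ),
    ∑ j ∈ Finset.range 2, (-1 : ℂ) ^ (1 - j) *
        (STX R (lvX p f n) (p ^ (n + 1)) (aX p f) e kk ((1 + p) ^ j) +
          s * STX R (lvX p f n) (p ^ (n + 1)) (aX p f) e kk (-((1 + p) ^ j))) =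
      2 * f * ∑ b ∈ Finset.range (p ^ (n + 1)),
        ex (-((1 + (p : ℚ)) * (aX p f : ℚ) ^ 2) / ((p ^ (n + 1) : ℕ) : ℚ)) ^ b *
          comb (aX p f) (1 + (p : ℤ)) 1 (fun b => PP R ⊤ e (kkJ p R kk 1) 0 ∞
              ((b / ((p ^ (n + 1) : ℕ) : ℚ) : ℚ) : OnePoint ℚ) +
            s * PP R ⊤ e (kkJ p R kk (-1)) 0 (mob (-1) 0 0 1 ∞)
              (mob (-1) 0 0 1 ((b / ((p ^ (n + 1) : ℕ) : ℚ) : ℚ) : OnePoint ℚ))) b

/-- (HF1) the result for `er = 1`. MODEL: `th_HFIN` in `NS/H_Hfin.lean`.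

USES HQ1, HN, VAL, RAM (`ty_QSX`). PROOF. `kk' c = kk c/e(N b_c)`, `kk' c ^ r = 1`. HQ1 for `kk'`, HN with `q' = nI P - 1`, `α = aX p f`, `g = 1 + p` (`aX p f = 1 + 2 p f`), `n₀`: `n`. QSX (`q0 p = p`): the sum is `2 f Σ_b ζ^b comb (sgnPart s (PP R ⊤ e kk 0)) b`, `ζ = ex(-((1+p) a²)/p^(n+1))` a primitive root (`Hfx.prim`),
`PP R ⊤ e kk 0 = PhiK R e kk'/om_0` (`Brg.PP_zero`); divide by `u`. `v(2 f) = 1` (`p ∤ 2 f`). -/
def So_HF1 : Prop :=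
  ∀ (p : ℕ) (A B : ℤ) (P : Ideal (OO A B)) (V : ValuationSubring ℂ) (f : ℕ),
    SetO p 1 A B P V f → TorX A B →
    ∀ (ι : Type) [Fintype ι] (R : Reps A B (p * f) ι) (u el lam : ℂ),
    GoodL V (R.L R.i0) u el lam → ∀ w : OO A B → ℂ, IsTeiP p 1 P V w →
    ∀ e : OO A B → ℂ, IsEI (idl (A := A) (B := B) (p * f)) e → ∀ r : ℕ, ¬ p ∣ r →
    (∀ x, e x ≠ 0 → e x ^ r = 1) → ∀ i : ℕ, nI P - 1 ≤ i * (p - 1) → i ≤ nI P - 2 →
    (∀ x, x - 1 ∈ gO P f → x ∉ P → e x = w x ^ i) →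
    ∀ s : ℤ, s = 1 ∨ s = -1 → ∀ kk : ι → ℂ, (∀ i, kk i ^ r = 1) →
    ∀ n₀ : ℕ, ∃ n, n₀ ≤ n ∧
      V.valuation (p : ℂ) < V.valuation ((∑ j ∈ Finset.range 2, (-1) ^ (1 - j) *
        (STX R (lvX p f n) (p ^ (n + 1)) (aX p f) e kk ((1 + p) ^ j) +
          s * STX R (lvX p f n) (p ^ (n + 1)) (aX p f) e kk (-((1 + p) ^ j)))) / u)

/-- (HF2) the result for `er = 2`. MODEL: `tq_HFIN` in `NS/HGR.lean` (its first half).

USES HQ2, HR, REL, QS2, VAL. PROOF. As HF1, with `QR p R e kk' s u`, `om = exp(2πi/p)`: `ζ = ex(-((1+p) a²)/p^(n+1))` satisfies `ζ^(p^n) om = ex((1 - (1+p) a²)/p) = 1` (`a ≡ 1` modulo `p`). `PP R ⊤ e (kkJ p R kk d) 0 = PhiK R e (kkJ p R kk' d)/om_0`. -/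
def So_HF2 : Prop :=
  ∀ (p : ℕ) (A B : ℤ) (P : Ideal (OO A B)) (V : ValuationSubring ℂ) (f : ℕ),
    SetO p 2 A B P V f → TorX A B →
    ∀ (ι : Type) [Fintype ι] (R : Reps A B (p * f) ι) (u el lam : ℂ),
    GoodL V (R.L R.i0) u el lam → ∀ w : OO A B → ℂ, IsTeiP p 2 P V w →
    ∀ e : OO A B → ℂ, IsEI (idl (A := A) (B := B) (p * f)) e → ∀ r : ℕ, ¬ p ∣ r →
    (∀ x, e x ≠ 0 → e x ^ r = 1) → ∀ i : ℕ, 2 ≤ i → i < p - 1 →
    (∀ x, x - 1 ∈ gO P f → x ∉ P → e x = w x ^ i) →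
    ∀ s : ℤ, s = 1 ∨ s = -1 → ∀ kk : ι → ℂ, (∀ i, kk i ^ r = 1) →
    ∀ n₀ : ℕ, ∃ n, n₀ ≤ n ∧
      V.valuation (p : ℂ) < V.valuation ((∑ j ∈ Finset.range 2, (-1) ^ (1 - j) *
        (STX R (lvX p f n) (p ^ (n + 1)) (aX p f) e kk ((1 + p) ^ j) +
          s * STX R (lvX p f n) (p ^ (n + 1)) (aX p f) e kk (-((1 + p) ^ j)))) / u)

end

end Pool.Agent.OBH


end
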