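import Pool.Agent.MVF.C033
import Pool.Agent.MVF.C035
import Pool.Agent.MVF.C041
import Pool.Agent.MVF.C057
import Pool.Agent.MVF.C079
import Pool.Agent.MVF.C092
import Pool.Agent.MVF.C112
import Pool.Agent.MVF.C116
import Pool.Agent.MVF.C155
import Pool.Agent.MVF.C161
import Pool.Agent.MVF.C166
import Pool.Agent.OBM.C01
import Pool.Agent.OBM.C04
import Pool.Agent.OBM.C06

/-! Parts: OB.G_GPT, OB.G_LCN, OB.G_LEG, OB.T_ACG, OB.T_ALT, OB.T_ALV, OB.T_BAS, OB.T_FGP, OB.T_RTU, OB.T_SGM, OB.T_SGU, OB.T_TAU, OB.T_TRC, OB.T_UNF, OB.T_VAK, OB.T_VAL -/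

section

/-!
# OB, block G: Theorem G for `PT p (PhiK R e kk / (u om_0))` (module GPT), after `NS/G_Gdn.lean` and `NS/G_Gpt.lean`
-/

set_option autoImplicit false

namespace Pool.Agent.OBG

open _root_.MU3 Pool.Agent.MU3A Pool.Agent.MU3B Pool.Agent.MU3Q Pool.Agent.MUX Pool.Agent.MuSym
  Pool.Agent.MUXN Pool.Agent.NS Pool.Agent.OB OnePoint UpperHalfPlane

noncomputable section

namespace GPT

open Pool.Agent.NSG (EC qx SymN GDatN)

variable {A B : ℤ} {n : ℕ} {ι : Type}

/-- the symbols -/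
def PsT (T : ℕ) (R : Reps A B n ι) (e : OO A B → ℂ) (j : ι × EC e × Fin T) (x y : OnePoint ℚ) : ℂ :=
  PhiI (R.b j.1) j.2.1 (mob (T : ℤ) (j.2.2 : ℕ) 0 (T : ℤ) x) (mob (T : ℤ) (j.2.2 : ℕ) 0 (T : ℤ) y)

/-- their primitives -/
def ThT (T : ℕ) (R : Reps A B n ι) (e : OO A B → ℂ) (j : ι × EC e × Fin T) (τ : ℂ) : ℂ :=
  thetaIntI (R.b j.1) j.2.1 (τ + ((j.2.2 : ℕ) : ℤ) / (T : ℂ))

/-- `ζ_T` -/
def zT (T : ℕ) : ℂ := Complex.exp (2 * Real.pi * Complex.I / T)

/-- the first coefficients -/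
def a1T (T : ℕ) (R : Reps A B n ι) (e : OO A B → ℂ) (j : ι × EC e × Fin T) : ℂ :=
  open Classical in if j.1 = R.i0 then zT T ^ (j.2.2 : ℕ) else 0

theorem zT_prim (T : ℕ) (hT0 : T ≠ 0) : IsPrimitiveRoot (zT T) T := by
  have := Complex.isPrimitiveRoot_exp T hT0
  unfold zT
  exact_mod_cast this

theorem zT_int (T : ℕ) (hT0 : T ≠ 0) : IsIntegral ℤ (zT T) :=
  IsIntegral.of_pow (n := T) (Nat.pos_of_ne_zero hT0)
    (by rw [(zT_prim T hT0).pow_eq_one]; exact isIntegral_one)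

open MUXY in
/-- the data for Theorem G, for `g = (n)` -/
theorem gdat (hTR : So_TRL) (T : ℕ) (hT0 : T ≠ 0) (h2 : MUXT.Xs_FTI) (h3 : MUXF.Sx_CHI) (h4 : Sy_CON) (h5 : Sy_ALP)
    (h7 : Sy_FEC) (h8 : Sy_COP) (hA : MUXF.Sx_ALG) (hI : MUXF.Sx_IDL) (hQB : MUXF.Sx_QB)
    (hBD : MUXF.Sx_BDD) (hTS : MUXF.Sx_TSM) (hQ : MUX.CQ A B)
    (u1 : ∀ x : OO A B, nm x = 1 → x = 1 ∨ x = -1)
    (u2 : ∀ (b : Ideal (OO A B)) (_ : b ≠ ⊥) (x : OO A B), x ∈ b → nm x = MUX.nI b → b = MUX.sp x)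
    (hT : TorX A B) [hι : Finite ι] (hn : 2 ≤ n) (R : Reps A B n ι) (e : OO A B → ℂ)
    (he : IsEI (idl n) e) (r : ℕ) (hr : r ≠ 0) (her : ∀ x, e x ≠ 0 → e x ^ r = 1) (u : ℂ)
    (hu : u ≠ 0) (hua : IsAlgebraic ℚ u) (N' : ℕ) (hN : N' ≠ 0)
    (hNd : absD A B * (n : ℤ) ^ 2 ∣ (N' : ℤ)) :
    GDatN A B (ι × EC e × Fin T) (PsT T R e) (ThT T R e) (a1T T R e) (u * R.om R.i0)
      (T ^ 2 * N') := by
  classical
  have hn0 : n ≠ 0 := by omega
  set g : Ideal (OO A B) := idl n with hg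
  have hpf : ((n : ℕ) : OO A B) ∈ g := Ideal.mem_span_singleton_self _
  have hgb : g ≠ ⊥ := by
    intro h
    rw [h, Ideal.mem_bot] at hpf
    exact Gdt.nat_ne _ hn0 hpf
  have hgt : g ≠ ⊤ := by
    intro h
    rw [Ideal.eq_top_iff_one, hg, Ideal.mem_span_singleton] at h
    obtain ⟨y, hy⟩ := h
    have h1 := congrArg QuadraticAlgebra.re hy
    rw [QuadraticAlgebra.re_one, QuadraticAlgebra.re_mul, QuadraticAlgebra.re_natCast,
      QuadraticAlgebra.im_natCast, mul_zero, zero_mul, add_zero] at h1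
    have h9 : (n : ℤ) ∣ 1 := ⟨y.re, h1⟩
    have h10 : (n : ℤ) ≤ 1 := Int.le_of_dvd one_pos h9
    omega
  have hcop : ∀ i, IsCoprime (MUX.sp ((MUX.nI (R.b i) : ℕ) : OO A B)) g :=
    h8 A B n ι R g 1 (by rw [pow_one]; exact hpf)
  have hEI : ∀ e' ∈ EC e, IsEI g e' := by
    rintro e' ⟨σ, rfl⟩
    exact Gdt.ei_conj he σ
  have hEr : ∀ e' ∈ EC e, ∀ x, e' x ≠ 0 → e' x ^ r = 1 := by
    rintro e' ⟨σ, rfl⟩ x hx
    show σ (e x) ^ r = 1
    have hx' : e x ≠ 0 := by
      intro h0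
      apply hx
      show σ (e x) = 0
      rw [h0, map_zero]
    rw [← map_pow, her x hx', map_one]
  have hEG : ∀ e' ∈ EC e, ∀ x y : OO A B, ((n : ℕ) : OO A B) ∣ x - y → e' x = e' y := by
    rintro e' he' x y ⟨z, hz⟩
    apply (hEI e' he').per
    rw [hz]
    exact Ideal.mul_mem_right _ _ hpf
  have hb : ∀ i, R.b i ≠ ⊥ := fun i => (R.nl i).b_ne
  have hNd' : -(B ^ 2 + 4 * A) * ((n : ℕ) : ℤ) ^ 2 ∣ (N' : ℤ) := by
    have : -(B ^ 2 + 4 * A) * ((n : ℕ) : ℤ) ^ 2 = absD A B * n ^ 2 := by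
      unfold absD
      push_cast
      ring
    rw [this]
    exact hNd
  have hF : ∀ e' ∈ EC e, ∀ i, _ := fun e' he' i =>
    (h2 A B hQ.hB hQ.neg (R.b i) (hb i) e' n (Nat.pos_of_ne_zero hn0)
      (hEI e' he').mul (hEG e' he') (hEI e' he').neg).2 N' hN hNd'
  have hDN : absD A B ∣ (N' : ℤ) := dvd_trans (Dvd.intro _ rfl) hNd
  have hGN : ((n : ℕ) : ℤ) ∣ (N' : ℤ) := by
    refine dvd_trans ?_ hNd
    exact ⟨absD A B * n, by push_cast; ring⟩
  have hnu : ∀ e' ∈ EC e, ∀ d : ℤ, (N' : ℤ) ∣ d - 1 →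
      (MUXT.chiQ A B d : ℂ) * e' (d : OO A B) = 1 := by
    intro e' he' d hd
    have h10 : MUXF.chiQ A B d = 1 := by
      have := (h3 A B (cqF hQ) 1 isCoprime_one_left).2.2 d (by
        rw [← dvd_neg, neg_sub]
        exact dvd_trans hDN hd)
      rw [this, Gdt.chiQ_one]
    have h11 : e' (d : OO A B) = 1 := by
      rw [← (hEI e' he').one]
      apply (hEI e' he').per
      obtain ⟨t, ht⟩ := dvd_trans hGN hd
      have h12 : (d : OO A B) - 1 = ((n : ℕ) : OO A B) * (t : OO A B) := by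
        have := congrArg (fun z : ℤ => (z : OO A B)) ht
        push_cast at this
        push_cast
        exact this
      rw [h12]
      exact Ideal.mul_mem_right _ _ hpf
    have h13 : MUXT.chiQ A B d = 1 := h10
    rw [h13, h11]
    norm_num
  have hS : ∀ (i : ι) (e' : OO A B → ℂ), e' ∈ EC e →
      SymN N' (PhiI (R.b i) e') (thetaIntI (R.b i) e') := by
    intro i e' he'
    refine
      { pos := Nat.pos_of_ne_zero hN
        add := ?_
        inv := ?_
        per := ?_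
        cusp := ?_ }
    · intro x y z
      unfold PhiI
      ring
    · intro a b c d hdet hc hd x y
      have := (hF e' he' i).1.equiv a b c d hdet hc x y
      rw [hnu e' he' d hd, one_mul] at this
      exact this
    · intro a b c d hdet hc hd τ hτ
      have := ((hF e' he' i).2.1 a b c d hdet hc τ hτ).2
      rw [hnu e' he' d hd, one_mul] at this
      exact this
    · intro a b c d hdet
      obtain ⟨w, hw⟩ := (hF e' he' i).2.2 a b c d hdet
      exact ⟨_, w, hw⟩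
  have hST : ∀ j : ι × EC e × Fin T, SymN (T ^ 2 * N') (PsT T R e j) (ThT T R e j) := fun j =>
    hTR T hT0 N' _ _ (hS j.1 j.2.1 j.2.1.2) ((j.2.2 : ℕ) : ℤ)
  have hTC : (T : ℂ) ≠ 0 := Nat.cast_ne_zero.2 hT0
  refine
    { pos := Nat.mul_pos (pow_pos (Nat.pos_of_ne_zero hT0) 2) (Nat.pos_of_ne_zero hN)
      add := fun j => (hST j).add
      inv := fun j => (hST j).inv
      per := fun j => (hST j).per
      cusp := fun j => (hST j).cusp
      qexp := ?_
      rat := ?_
      alg := ?_ }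
  · rintro ⟨i, ⟨e', he'⟩, t⟩
    obtain ⟨α, hα1, ⟨K, hK1, hK2⟩, hα3, hα4, hα5⟩ :=
      qx hA hI hQB hBD hTS A B hQ u1 u2 n ι R g hgb e' (hEI e' he') r hr (hEr e' he') i
    refine ⟨fun m => α m * zT T ^ ((t : ℕ) * m), ?_, ?_, ?_, ?_⟩
    · intro m
      exact (hα1 m).mul ((zT_int T hT0).pow _)
    · set K1 : IntermediateField ℚ ℂ := K.toIntermediateField fun x => by
        have : (algebraMap ℚ ℂ x) = (x : ℂ) := rfl
        rw [this]
        exact SubfieldClass.ratCast_mem K x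
      set K2 : IntermediateField ℚ ℂ := IntermediateField.adjoin ℚ {zT T}
      have hf1 : FiniteDimensional ℚ K1 := hK1.to_finiteDimensional
      have hf2 : FiniteDimensional ℚ K2 :=
        IntermediateField.adjoin.finiteDimensional (zT_int T hT0).tower_top
      have hf3 : FiniteDimensional ℚ ↥(K1 ⊔ K2) := IntermediateField.finiteDimensional_sup K1 K2
      refine ⟨(K1 ⊔ K2).toSubfield, ?_, fun m => ?_⟩
      · have h4 : NumberField ↥(K1 ⊔ K2) := ⟨⟩
        exact h4
      · show α m * zT T ^ ((t : ℕ) * m) ∈ K1 ⊔ K2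
        have m1 : α m ∈ K1 ⊔ K2 := (le_sup_left : K1 ≤ K1 ⊔ K2) (hK2 m)
        have m2 : zT T ∈ K1 ⊔ K2 := (le_sup_right : K2 ≤ K1 ⊔ K2)
          (IntermediateField.mem_adjoin_simple_self ℚ (zT T))
        exact mul_mem m1 (pow_mem m2 _)
    · show α 1 * zT T ^ ((t : ℕ) * 1) = if i = R.i0 then zT T ^ (t : ℕ) else 0
      rw [mul_one]
      split_ifs with hi
      · rw [hα3 hi, one_mul]
      · rw [hα4 hi, zero_mul]
    · intro τ hτ
      have him : 0 < (τ + (((t : ℕ) : ℤ) : ℂ) / (T : ℂ)).im := by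
        have : ((((t : ℕ) : ℤ) : ℂ) / (T : ℂ)).im = 0 := by
          have : ((((t : ℕ) : ℤ) : ℂ) / (T : ℂ)) = (((t : ℕ) / (T : ℕ) : ℝ) : ℂ) := by push_cast; ring
          rw [this]
          exact Complex.ofReal_im _
        rw [Complex.add_im, this, add_zero]
        exact hτ
      have h9 := hα5 _ him
      show HasSum _ (thetaIntI (R.b i) e' (τ + (((t : ℕ) : ℤ) : ℂ) / (T : ℂ)))
      have e1 : (fun m : ℕ => α m / m * Complex.exp (2 * Real.pi * Complex.I *
          (τ + (((t : ℕ) : ℤ) : ℂ) / (T : ℂ))) ^ m) = fun m : ℕ => α m * zT T ^ ((t : ℕ) * m) / m *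
          Complex.exp (2 * Real.pi * Complex.I * τ) ^ m := by
        funext m
        have e2 : Complex.exp (2 * Real.pi * Complex.I * (τ + (((t : ℕ) : ℤ) : ℂ) / (T : ℂ))) =
            zT T ^ (t : ℕ) * Complex.exp (2 * Real.pi * Complex.I * τ) := by
          unfold zT
          rw [← Complex.exp_nat_mul, ← Complex.exp_add]
          congr 1
          push_cast
          ring
        rw [e2, mul_pow, ← pow_mul]
        ring
      rw [e1] at h9
      exact h9
  · intro σ hσ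
    rintro ⟨i, ⟨e', he'⟩, t⟩
    obtain ⟨-, j, C, -, hC0, hC⟩ := h4 A B hQ hT n ι R g e' hgb hgt (hEI e' he') hcop σ hσ i
    obtain ⟨τ, hτ⟩ := he'
    subst hτ
    refine ⟨⟨j, ⟨fun x => σ (τ (e x)), ⟨τ.trans σ, rfl⟩⟩, t⟩, C * u / σ u, fun x y => ?_⟩
    have hσu : σ u ≠ 0 := (map_ne_zero σ).2 hu
    have ho : R.om R.i0 ≠ 0 := (R.nl R.i0).om_ne
    have e1 : PsT T R e (i, ⟨fun x => τ (e x), ⟨τ, rfl⟩⟩, t) x y / (u * R.om R.i0) =
        PhiI (R.b i) (fun x => τ (e x)) (mob (T : ℤ) (t : ℕ) 0 (T : ℤ) x) (mob (T : ℤ) (t : ℕ) 0 (T : ℤ) y) /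
          R.om R.i0 / u := by
      unfold PsT
      rw [div_div, mul_comm u]
    rw [e1, map_div₀, hC]
    unfold PsT
    field_simp
  · rintro ⟨i, ⟨e', he'⟩, t⟩ x y
    have h9 := (h5 A B hQ hT n ι hι R g e' hgb hgt (hEI e' he') hcop r hr (hEr e' he') i
      (mob (T : ℤ) (t : ℕ) 0 (T : ℤ) x) (mob (T : ℤ) (t : ℕ) 0 (T : ℤ) y)).2
    have e1 : PsT T R e (i, ⟨e', he'⟩, t) x y / (u * R.om R.i0) =
        PhiI (R.b i) e' (mob (T : ℤ) (t : ℕ) 0 (T : ℤ) x) (mob (T : ℤ) (t : ℕ) 0 (T : ℤ) y) / R.om R.i0 * u⁻¹ := by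
      unfold PsT
      have ho : R.om R.i0 ≠ 0 := (R.nl R.i0).om_ne
      field_simp
    rw [e1]
    exact h9.mul hua.inv


theorem mob_zero (T : ℕ) (hT0 : T ≠ 0) (x : OnePoint ℚ) : mob (T : ℤ) (0 : ℤ) 0 (T : ℤ) x = x := by
  induction x using OnePoint.rec with
  | infty => exact MUXH.H1.mob_inf (T : ℤ) 0
  | coe r =>
    have := Pool.Agent.MUXHN.H1N.mob_tr (T : ℤ) 0 (by exact_mod_cast hT0) r
    rw [this]
    simp

theorem sumF (T : ℕ) (i0 i1 : Fin T) (h01 : i0 ≠ i1) (a b : ℂ) (G : Fin T → ℂ) :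
    ∑ t, (if t = i0 then a else if t = i1 then b else 0) * G t = a * G i0 + b * G i1 := by
  have h1 : ∀ t : Fin T, (if t = i0 then a else if t = i1 then b else 0) * G t =
      (if t = i0 then a * G t else 0) + (if t = i1 then b * G t else 0) := by
    intro t
    by_cases h : t = i0
    · rw [if_pos h, if_pos h, if_neg (by rw [h]; exact h01), add_zero]
    · rw [if_neg h, if_neg h, zero_add]
      by_cases h' : t = i1
      · rw [if_pos h', if_pos h']
      · rw [if_neg h', if_neg h', zero_mul]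
  simp_rw [h1]
  rw [Finset.sum_add_distrib, Finset.sum_ite_eq' Finset.univ i0 (fun t => a * G t),
    Finset.sum_ite_eq' Finset.univ i1 (fun t => b * G t), if_pos (Finset.mem_univ _),
    if_pos (Finset.mem_univ _)]

theorem vpO {p er : ℕ} {A B : ℤ} {P : Ideal (OO A B)} {V : ValuationSubring ℂ}
    (h : CaseO p er A B P V) : V.valuation (p : ℂ) < 1 := by
  have h1 : emb ((p : ℕ) : OO A B) ∈ V.nonunits := (h.hV _).2 h.mem
  rw [ValuationSubring.mem_nonunits_iff] at h1
  have h2 : emb ((p : ℕ) : OO A B) = (p : ℂ) := by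
    unfold emb
    rw [QuadraticAlgebra.re_natCast, QuadraticAlgebra.im_natCast]
    norm_num
  rw [h2] at h1
  exact h1

theorem v2O {p er : ℕ} {A B : ℤ} {P : Ideal (OO A B)} {V : ValuationSubring ℂ}
    (h : CaseO p er A B P V) : V.valuation (2 : ℂ) = 1 := by
  have hle : ∀ z : ℤ, V.valuation (z : ℂ) ≤ 1 := fun z =>
    (V.valuation_le_one_iff _).2 (Pool.Agent.MU3A2.int_mem z)
  have hp5 := h.p5
  have hp2 : ¬ 2 ∣ p := by
    intro h2
    have := (Nat.prime_dvd_prime_iff_eq Nat.prime_two h.pp).1 h2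
    omega
  obtain ⟨m, hm⟩ : ∃ m : ℕ, p = 2 * m + 1 := ⟨p / 2, by omega⟩
  by_contra hne
  have hlt : V.valuation (2 : ℂ) < 1 := by
    refine lt_of_le_of_ne ?_ hne
    have := hle 2
    exact_mod_cast this
  have hv := vpO h
  have h1 : V.valuation ((p : ℂ) - 2 * (m : ℂ)) < 1 := by
    refine lt_of_le_of_lt (Valuation.map_sub _ _ _) (max_lt hv ?_)
    rw [map_mul]
    have h3 : V.valuation (m : ℂ) ≤ 1 := by
      have := hle m
      exact_mod_cast this
    calc V.valuation (2 : ℂ) * V.valuation (m : ℂ) ≤ V.valuation (2 : ℂ) * 1 :=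
          mul_le_mul_right h3 _
      _ = V.valuation (2 : ℂ) := mul_one _
      _ < 1 := hlt
  have h4 : (p : ℂ) - 2 * (m : ℂ) = 1 := by
    rw [hm]
    push_cast
    ring
  rw [h4, map_one] at h1
  exact lt_irrefl _ h1

end GPT

open Pool.Agent.NSG (EC GDatN Sn_GTH) in
open _root_.Pool.Agent.OBG.GPT in
theorem o_GPT (hTR : So_TRL) (hLC : So_LCN) (hLE : So_LEG) (hUN : So_UNN) (hG : Sn_GTH)
    (h2 : MUXT.Xs_FTI) (h3 : MUXF.Sx_CHI) (h4 : MUXY.Sy_CON) (h5 : MUXY.Sy_ALP)
    (h7 : MUXY.Sy_FEC) (h8 : MUXY.Sy_COP) (hA : MUXF.Sx_ALG) (hI : MUXF.Sx_IDL)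
    (hQB : MUXF.Sx_QB) (hBD : MUXF.Sx_BDD) (hTS : MUXF.Sx_TSM) : So_GPT := by
  classical
  intro p er A B P V f hSN hT ι _ R u el lam hg e he r hr her kk hkk N' hN' hNd
  have hCO : CaseO p er A B P V := hSN.toCaseO
  have hc : CQ A B := hCO.cq
  have hp : p.Prime := hCO.pp
  have hp5 : 5 ≤ p := hCO.p5
  obtain ⟨u1, u2⟩ := hUN A B hc hCO.ex3 hCO.ex4
  have hvp : V.valuation (p : ℂ) < 1 := vpO hCO
  have hv2 : V.valuation (2 : ℂ) = 1 := v2O hCO
  obtain ⟨hua, L', hL'⟩ := hLE A B hc hT (p * f) ι R V u el lam hg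
  have hn : 2 ≤ p * f := by
    have := Nat.pos_of_ne_zero hSN.f0
    nlinarith
  set T : ℕ := p ^ 3 with hTdef
  have hT1 : 1 < T := Nat.one_lt_pow (by norm_num) hp.one_lt
  have hT0 : T ≠ 0 := by omega
  have hD := gdat hTR T hT0 h2 h3 h4 h5 h7 h8 hA hI hQB hBD hTS hc u1 u2 hT hn R e he r hr her u
    hg.u0 hua N' hN' hNd
  have hfE : Finite (EC e) := (h7 A B e r hr her).1
  have hFt : Fintype (EC e) := Fintype.ofFinite _
  have heE : e ∈ EC e := ⟨RingEquiv.refl ℂ, rfl⟩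
  have hzp : IsPrimitiveRoot (zT T) T := zT_prim T hT0
  have hz1 : (1 : ℂ) - zT T ≠ 0 := by
    intro h0
    have h1 : zT T = 1 := by linear_combination -h0
    exact hzp.ne_one hT1 h1
  set i0 : Fin T := ⟨0, by omega⟩ with hi0
  set i1 : Fin T := ⟨1, hT1⟩ with hi1
  have h01 : i0 ≠ i1 := by
    intro h
    have := congrArg Fin.val h
    simp [hi0, hi1] at this
  set w : ι × EC e × Fin T → ℂ := fun j => if j.2.1 = ⟨e, heE⟩ then
    (if j.2.2 = i0 then kk j.1 / (1 - zT T) else if j.2.2 = i1 then -(kk j.1 / (1 - zT T)) else 0)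
    else 0 with hw
  have hsum : ∀ F : ι × EC e × Fin T → ℂ, ∑ j, w j * F j =
      ∑ i, (kk i / (1 - zT T) * F (i, ⟨e, heE⟩, i0) +
        -(kk i / (1 - zT T)) * F (i, ⟨e, heE⟩, i1)) := by
    intro F
    rw [Fintype.sum_prod_type]
    refine Finset.sum_congr rfl fun i _ => ?_
    rw [Fintype.sum_prod_type, Finset.sum_eq_single (⟨e, heE⟩ : EC e)]
    · refine Eq.trans ?_ (sumF T i0 i1 h01 (kk i / (1 - zT T)) (-(kk i / (1 - zT T)))
        (fun t => F (i, ⟨e, heE⟩, t)))
      refine Finset.sum_congr rfl fun t _ => ?_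
      rw [hw]
      beta_reduce
      rw [if_pos rfl]
    · intro e' _ he'
      refine Finset.sum_eq_zero fun t _ => ?_
      rw [hw]
      beta_reduce
      rw [if_neg he', zero_mul]
    · intro h
      exact absurd (Finset.mem_univ _) h
  have hα : ∑ j, w j * a1T T R e j = kk R.i0 := by
    rw [hsum, Finset.sum_eq_single R.i0]
    · unfold a1T
      rw [if_pos rfl, if_pos rfl]
      have e0 : (i0 : ℕ) = 0 := rfl
      have e1 : (i1 : ℕ) = 1 := rfl
      dsimp only
      rw [e0, e1]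
      field_simp
      ring
    · intro i _ hi
      unfold a1T
      rw [if_neg hi, if_neg hi]
      ring
    · intro h
      exact absurd (Finset.mem_univ _) h
  obtain ⟨a, b, c, d, k1, k2, k3, k4⟩ := hG A B hc (ι × EC e × Fin T) (PsT T R e) (ThT T R e)
    (a1T T R e) (u * R.om R.i0) (T ^ 2 * N') hD V p hp
    (by
      rw [ValuationSubring.mem_nonunits_iff]
      exact hvp) hv2 (hLC p er A B P V hCO) L' (el / u ^ 2) lam hL' w (by
      rw [hα, ValuationSubring.mem_nonunits_iff, hkk]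
      exact lt_irrefl _)
  have hcast : ((T ^ 2 * N' : ℕ) : ℤ) = (T : ℤ) ^ 2 * (N' : ℤ) := by push_cast; ring
  rw [hcast] at k2 k3
  refine ⟨a, b, c, d, k1, dvd_trans (Dvd.intro_left _ rfl) k2, dvd_trans (Dvd.intro_left _ rfl) k3,
    ?_⟩
  rw [ValuationSubring.mem_nonunits_iff, not_lt, hsum] at k4
  have hTc : ((p : ℤ) ^ 3) = (T : ℤ) := by rw [hTdef]; push_cast; ring
  have e2 : (∑ i, (kk i / (1 - zT T) * PsT T R e (i, ⟨e, heE⟩, i0) ∞ (mob a b c d ∞) +
      -(kk i / (1 - zT T)) * PsT T R e (i, ⟨e, heE⟩, i1) ∞ (mob a b c d ∞))) /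
        (u * R.om R.i0) =
      Pool.Agent.OBH.PT p (fun x y => PhiK R e kk x y / (u * R.om R.i0)) ∞ (mob a b c d ∞) /
        (1 - zT T) := by
    have e3 : Pool.Agent.OBH.PT p (fun x y => PhiK R e kk x y / (u * R.om R.i0)) ∞
        (mob a b c d ∞) =
        (∑ i, (kk i * PhiI (R.b i) e ∞ (mob a b c d ∞) -
          kk i * PhiI (R.b i) e (mob (T : ℤ) 1 0 (T : ℤ) ∞)
            (mob (T : ℤ) 1 0 (T : ℤ) (mob a b c d ∞)))) / (u * R.om R.i0) := by
      unfold Pool.Agent.OBH.PT PhiK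
      rw [hTc, ← sub_div, ← Finset.sum_sub_distrib]
    rw [e3, div_right_comm _ (u * R.om R.i0)]
    refine congrArg (fun t => t / (u * R.om R.i0)) ?_
    rw [Finset.sum_div]
    refine Finset.sum_congr rfl fun i _ => ?_
    have e0 : PsT T R e (i, ⟨e, heE⟩, i0) ∞ (mob a b c d ∞) =
        PhiI (R.b i) e ∞ (mob a b c d ∞) := by
      have f1 : ((i0 : ℕ) : ℤ) = 0 := rfl
      unfold PsT
      dsimp only
      rw [f1, mob_zero T hT0, mob_zero T hT0]
    have e1 : PsT T R e (i, ⟨e, heE⟩, i1) ∞ (mob a b c d ∞) =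
        PhiI (R.b i) e (mob (T : ℤ) 1 0 (T : ℤ) ∞) (mob (T : ℤ) 1 0 (T : ℤ) (mob a b c d ∞)) := by
      have f1 : ((i1 : ℕ) : ℤ) = 1 := rfl
      unfold PsT
      dsimp only
      rw [f1]
    rw [e0, e1]
    ring
  rw [e2, map_div₀] at k4
  have h27 : V.valuation (zT T - 1) ^ ((p - 1) * p ^ 2) = V.valuation (p : ℂ) := by
    have := MUXH.Hz.val_p p hp V 2 (zT T) (by
      have : (p : ℕ) ^ (2 + 1) = T := by rw [hTdef]
      rw [this]
      exact hzp)
    rw [mul_comm] at this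
    exact this
  have hz2 : V.valuation (1 - zT T) = V.valuation (zT T - 1) := by
    rw [← neg_sub, Valuation.map_neg]
  have hz3 : (0 : V.ValueGroup) < V.valuation (1 - zT T) :=
    zero_lt_iff.2 ((Valuation.ne_zero_iff _).2 hz1)
  rw [← h27, ← hz2]
  have k5 : V.valuation (1 - zT T) ≤
      V.valuation (Pool.Agent.OBH.PT p (fun x y => PhiK R e kk x y / (u * R.om R.i0)) ∞
        (mob a b c d ∞)) := by
    have := (le_div_iff₀ hz3).1 k4
    rw [one_mul] at this
    exact this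
  exact pow_le_pow_left₀ zero_le k5 _

end

end Pool.Agent.OBG


end

section

/-!
# OB, block G, LCN: common denominators prime to `V` (helper50), after `MUX/N_LOC.lean` and `NS/G_Lcn.lean`
-/

set_option autoImplicit false

namespace Pool.Agent.OBG

open _root_.MU3 Pool.Agent.MU3A Pool.Agent.MU3B Pool.Agent.MUX Pool.Agent.MUXN Pool.Agent.NS
  Pool.Agent.NSG Pool.Agent.OB

noncomputable section

namespace LCN

/-- one element -/
lemma one {A B : ℤ} (hC : CQ A B) {l : ℕ} (hl : l.Prime) {P : Ideal (OO A B)} (hPp : P.IsPrime)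
    (hlP : ((l : ℕ) : OO A B) ∈ P) {V : ValuationSubring ℂ} (hV : OverI V P) {y : ℂ} (hy : y ∈ kk A B) (hyV : y ∈ V) :
    ∃ t : OO A B, t ∉ P ∧ ∃ c : OO A B, emb t * y = emb c := by
  have hR := Pool.Agent.MUXE.te_RNG A B hC
  have hded : IsDedekindDomain (OO A B) := hR.ded
  obtain ⟨n, a, hn, ha⟩ := Pool.Agent.MUXN.LOC.quot hC hy
  have hnC : (n : ℂ) ≠ 0 := by exact_mod_cast hn
  have hnO : (n : OO A B) ≠ 0 := natCast_ne_zero' hC hn
  by_cases ha0 : a = 0
  · refine ⟨1, fun h => hPp.ne_top (P.eq_top_iff_one.2 h), 0, ?_⟩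
    have hy0 : y = 0 := by
      rw [ha0, emb_zero hC] at ha
      exact (mul_eq_zero.1 ha).resolve_left hnC
    rw [hy0, mul_zero, emb_zero hC]
  have hPb : P ≠ ⊥ := by
    intro h
    have h1 : ((l : ℕ) : OO A B) ∈ P := hlP
    rw [h, Ideal.mem_bot] at h1
    exact natCast_ne_zero' hC hl.ne_zero h1
  have hprime : Prime P := Ideal.prime_of_isPrime hPb hPp
  have hna : sp a ≠ 0 := by
    rw [Ne, Ideal.zero_eq_bot, Ideal.span_singleton_eq_bot]
    exact ha0
  have hnn : sp (n : OO A B) ≠ 0 := by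
    rw [Ne, Ideal.zero_eq_bot, Ideal.span_singleton_eq_bot]
    exact hnO
  obtain ⟨i, J, hJ, haJ⟩ := WfDvdMonoid.max_power_factor hna hprime.irreducible
  obtain ⟨j, K, hK, hnK⟩ := WfDvdMonoid.max_power_factor hnn hprime.irreducible
  rw [Ideal.dvd_iff_le] at hJ hK
  obtain ⟨s, hsJ, hsP⟩ := SetLike.not_le_iff_exists.1 hJ
  obtain ⟨t, htK, htP⟩ := SetLike.not_le_iff_exists.1 hK
  rcases le_or_gt j i with hij | hij
  · -- `t a ∈ (n)`
    obtain ⟨r, rfl⟩ := Nat.exists_eq_add_of_le hij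
    have h1 : t * a ∈ sp (n : OO A B) := by
      have h2 : t * a ∈ K * (P ^ (j + r) * J) :=
        Ideal.mul_mem_mul htK (haJ ▸ Ideal.mem_span_singleton_self a)
      have h3 : K * (P ^ (j + r) * J) ≤ sp (n : OO A B) := by
        rw [hnK]
        calc K * (P ^ (j + r) * J) = P ^ j * K * (P ^ r * J) := by rw [pow_add]; ring
          _ ≤ P ^ j * K := Ideal.mul_le_left
      exact h3 h2
    obtain ⟨c, hc⟩ := Ideal.mem_span_singleton.1 h1
    refine ⟨t, htP, c, ?_⟩
    have h2 := congrArg emb hc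
    rw [emb_mul hC, emb_mul hC, emb_natCast hC, ← ha] at h2
    apply mul_left_cancel₀ hnC
    linear_combination h2
  · exfalso
    obtain ⟨r, rfl⟩ := Nat.exists_eq_add_of_lt hij
    have h1 : s * (n : OO A B) ∈ sp a * P := by
      have h2 : s * (n : OO A B) ∈ J * (P ^ (i + r + 1) * K) :=
        Ideal.mul_mem_mul hsJ (hnK ▸ Ideal.mem_span_singleton_self _)
      have h3 : J * (P ^ (i + r + 1) * K) ≤ sp a * P := by
        rw [haJ]
        calc J * (P ^ (i + r + 1) * K) = (P ^ i * J * P) * (P ^ r * K) := by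
              rw [pow_succ, pow_add]; ring
          _ ≤ P ^ i * J * P := Ideal.mul_le_left
      exact h3 h2
    obtain ⟨c, hc, hac⟩ := Ideal.mem_span_singleton_mul.1 h1
    have h2 := congrArg emb hac
    rw [emb_mul hC, emb_mul hC, emb_natCast hC, ← ha] at h2
    have h3 : emb s = y * emb c := by
      apply mul_left_cancel₀ hnC
      linear_combination -h2
    have h4 : emb c ∈ V.nonunits := (hV c).2 hc
    have h5 : emb s ∈ V.nonunits := by
      rw [ValuationSubring.mem_nonunits_iff] at h4 ⊢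
      rw [h3, map_mul]
      have h6 : V.valuation y ≤ 1 := (ValuationSubring.valuation_le_one_iff _ _).2 hyV
      exact lt_of_le_of_lt (mul_le_of_le_one_left' h6) h4
    exact hsP ((hV s).1 h5)

/-- an element outside `P` has valuation `1` -/
lemma val1 {A B : ℤ} (hC : CQ A B) {P : Ideal (OO A B)} {V : ValuationSubring ℂ}
    (hV : OverI V P) {t : OO A B} (ht : t ∉ P) : V.valuation (emb t) = 1 := by
  have h1 : V.valuation (emb t) ≤ 1 :=
    (V.valuation_le_one_iff _).2 (N_GJ.emb_mem_V hC V t)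
  have h2 : ¬ V.valuation (emb t) < 1 := fun h =>
    ht ((hV t).1 ((ValuationSubring.mem_nonunits_iff _).2 h))
  exact le_antisymm h1 (not_lt.1 h2)

end LCN

open _root_.Pool.Agent.OBG.LCN in
theorem o_LCN : So_LCN := by
  intro p er A B P V h S hS
  have hC : CQ A B := h.cq
  have hPp : P.IsPrime := h.prime
  classical
  obtain ⟨t, ht, htS⟩ : ∃ t : OO A B, t ∉ P ∧ ∀ y ∈ S, ∃ c : OO A B, emb t * y = emb c := by
    induction S using Finset.induction_on with
    | empty =>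
      exact ⟨1, fun h => hPp.ne_top (P.eq_top_iff_one.2 h),
        fun y hy => absurd hy (Finset.notMem_empty y)⟩
    | insert y S hyS ih =>
      obtain ⟨t, ht, htS⟩ := ih (fun z hz => hS z (Finset.mem_insert_of_mem hz))
      obtain ⟨h1, h2⟩ := hS y (Finset.mem_insert_self y S)
      obtain ⟨u, hu, c, hc⟩ := one hC h.pp hPp h.mem h.hV h1 h2
      refine ⟨t * u, fun h => (hPp.mem_or_mem h).elim ht hu, ?_⟩
      intro z hz
      rcases Finset.mem_insert.1 hz with rfl | hz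
      · refine ⟨t * c, ?_⟩
        rw [emb_mul hC, emb_mul hC, ← hc]
        ring
      · obtain ⟨c', hc'⟩ := htS z hz
        refine ⟨u * c', ?_⟩
        rw [emb_mul hC, emb_mul hC, ← hc']
        ring
  exact ⟨t, val1 hC h.hV ht, htS⟩

end

end Pool.Agent.OBG


end

section

/-!
# OB, block G: (LEG) the lattice `u L_0` in Legendre form, and `u` is algebraic, after `NS/G_Leg.lean`
-/

set_option autoImplicit false

namespace Pool.Agent.OBG.LEG

open _root_.MU3 Pool.Agent.MU3A Pool.Agent.MU3B Pool.Agent.MU3Q Pool.Agent.MUX Pool.Agent.MuSym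
  Pool.Agent.MUXN Pool.Agent.NS Pool.Agent.NSG Pool.Agent.OB OnePoint UpperHalfPlane

noncomputable section

variable {A B : ℤ}

/-- the equation of `GoodL` is the one of `GoodN` for the trivial valuation ring -/
theorem good_top {V : ValuationSubring ℂ} {L : PeriodPair} {u e lam : ℂ} (h : GoodL V L u e lam) :
    GoodN (⊤ : ValuationSubring ℂ) L u e lam := by
  refine ⟨h.u0, h.eq, ?_⟩
  have h1 : (⊤ : ValuationSubring ℂ).valuation (1 + lam) ≤ 1 :=
    ((⊤ : ValuationSubring ℂ).valuation_le_one_iff _).2 trivial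
  have h2 : (⊤ : ValuationSubring ℂ).valuation (3 : ℂ)⁻¹ ≤ 1 :=
    ((⊤ : ValuationSubring ℂ).valuation_le_one_iff _).2 trivial
  have h3 : 1 ≤ (⊤ : ValuationSubring ℂ).valuation (3 : ℂ) := by
    have h4 : (⊤ : ValuationSubring ℂ).valuation (3 : ℂ) *
        (⊤ : ValuationSubring ℂ).valuation (3 : ℂ)⁻¹ = 1 := by
      rw [← map_mul, mul_inv_cancel₀ (by norm_num : (3 : ℂ) ≠ 0), map_one]
    calc 1 = (⊤ : ValuationSubring ℂ).valuation (3 : ℂ) *
        (⊤ : ValuationSubring ℂ).valuation (3 : ℂ)⁻¹ := h4.symm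
      _ ≤ (⊤ : ValuationSubring ℂ).valuation (3 : ℂ) * 1 := mul_le_mul_right h2 _
      _ = _ := mul_one _
  exact h1.trans h3

/-- `LegN` for the lattice `u L` -/
theorem legL (hS : MUXU.Su_SCX) (hc : CQ A B) (hT : TorX A B) {n : ℕ} {ι : Type}
    (R : Reps A B n ι) {V : ValuationSubring ℂ} {u e lam : ℂ}
    (h : GoodL V (R.L R.i0) u e lam) :
    ∃ (L' : PeriodPair), LegN A B V L' (u * R.om R.i0) (e / u ^ 2) lam := by
  obtain ⟨L', hL'⟩ := hS (R.L R.i0) u h.u0
  obtain ⟨s1, s2, -, -⟩ := ta_SCP (R.L R.i0) L' u h.u0 hL'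
  have ho : R.om R.i0 ≠ 0 := (R.nl R.i0).om_ne
  refine ⟨L', mul_ne_zero h.u0 ho, ?_, ?_, (leg_alg hc hT (R.nl R.i0) (good_top h)).2.2, h.vl,
    h.vl1⟩
  · intro z
    have e1 : z = u * (u⁻¹ * z) := by rw [mul_inv_cancel_left₀ h.u0]
    rw [e1, ← hL' (u⁻¹ * z), (R.nl R.i0).mem]
    constructor
    · rintro ⟨x, -, hx⟩
      exact ⟨x, by rw [hx]; ring⟩
    · rintro ⟨x, hx⟩
      refine ⟨x, by rw [R.b0]; trivial, ?_⟩
      have hu := h.u0
      apply mul_left_cancel₀ hu
      rw [hx]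
      ring
  · intro z hz
    have e1 : z = u * (u⁻¹ * z) := by rw [mul_inv_cancel_left₀ h.u0]
    have hz' : u⁻¹ * z ∉ (R.L R.i0).lattice := by
      intro h4
      apply hz
      rw [e1]
      exact (hL' _).1 h4
    have h5 := h.eq _ hz'
    rw [e1, s1, s2]
    have hu := h.u0
    rw [show (R.L R.i0).weierstrassP (u⁻¹ * z) / u ^ 2 - e / u ^ 2 =
      ((R.L R.i0).weierstrassP (u⁻¹ * z) - e) / u ^ 2 by ring, ← h5]
    field_simp
    ring

end

end Pool.Agent.OBG.LEG

namespace Pool.Agent.OBG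

/-- (LEG) the lattice `u L_0` in Legendre form, and `u` is algebraic -/
theorem o_LEG (h1 : MUXU.Su_SCX) : So_LEG := by
  intro A B hc hT n ι R V u e lam h
  exact ⟨(Pool.Agent.NSG.leg_alg hc hT (R.nl R.i0) (LEG.good_top h)).1, LEG.legL h1 hc hT R h⟩

end Pool.Agent.OBG


end

section

/-!
# OB, block T, module ACG (helper81, after helper73's `NS/TR_ACF.lean`): the number `c` and the signs `d_i`, for `σ` trivial on `RF g`
-/

set_option autoImplicit false

namespace Pool.Agent.OBT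

open _root_.MU3 Pool.Agent.MU3A Pool.Agent.MU3B Pool.Agent.RI Pool.Agent.MUX Pool.Agent.MUXU
open OnePoint Pool.Agent.NS Pool.Agent.OB
open Pool.Agent.MUXV (GR InK)
open Pool.Agent.NSE (su ru)
open Pool.Agent.NST (KIn ActT)
open Pool.Agent.MUXY (ActN Dn Sy_MUU Sy_BRI)

noncomputable section

/-- (ACG) the number `c` and the signs `d_i`, for `σ` trivial on `RF g`, `g` an ideal. -/
theorem o_ACG (h1 : Sy_MUU) (h2 : Sy_BRI) : So_ACG := by
  intro A B hC T n ι R m g hm hle σ hσ hfix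
  have hI : idl (A := A) (B := B) m ≠ ⊥ := by
    rw [Ne, Ideal.span_singleton_eq_bot]
    exact natCast_ne_zero' hC hm
  have hI' : g ≠ ⊥ := by
    rintro rfl
    exact hI (le_bot_iff.1 hle)
  obtain ⟨a, hcop, ha⟩ := T.act (idl m) hI σ hσ
  obtain ⟨b₀, L₀, om₀, mu₀, hL₀, hA₀⟩ := ha _ _ _ (R.nl R.i0)
  have hA' : ActI σ g a (R.L R.i0) L₀ mu₀ := by
    refine ⟨hA₀.kap, ?_, hA₀.isq, fun z hz => hA₀.act z fun x hx => hz x (hle hx)⟩
    have h3 := hcop
    rw [Ideal.isCoprime_iff_sup_eq] at h3 ⊢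
    rw [eq_top_iff, ← h3]
    exact sup_le_sup_left hle a
  obtain ⟨c, hc1, hca⟩ := (T.triv g a σ _ _ _ _ mu₀ hI' hσ (R.nl R.i0) hA' hL₀.nrm).1 hfix
  subst hca
  have hc0 : c ≠ 0 := by
    rintro rfl
    obtain ⟨hmu, hq⟩ := hA₀.isq
    refine L₀.ω₁_div_two_notMem_lattice ?_
    have h5 := (hq (L₀.ω₁ / 2 / mu₀)).2 (by
      intro x hx
      obtain ⟨y, rfl⟩ := Ideal.mem_span_singleton'.1 hx
      rw [mul_zero]
      have e0 : emb (0 : OO A B) = 0 := Pool.Agent.MUX.emb_zero hC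
      rw [e0, zero_mul]
      exact Submodule.zero_mem _)
    rwa [mul_div_cancel₀ _ hmu] at h5
  have key : ∀ i, ∃ d : ℤ, (d = 1 ∨ d = -1) ∧
      ActN σ m (sp c) (R.L i) (R.L i) ((d : ℂ) * emb c) := by
    intro i
    obtain ⟨b', L', om', mu, hL', hA⟩ := ha _ _ _ (R.nl i)
    have hk : kap L' = kap (R.L i) := by
      rw [hA.kap]
      exact hfix _ (IntermediateField.subset_adjoin _ _ ⟨R.b i, R.L i, R.om i, R.nl i, Or.inl rfl⟩)
    have hg2 : L'.g₂ = (R.L i).g₂ := by
      unfold kap at hk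
      linear_combination (1728 / 12) * hk
    have hg3 : L'.g₃ = (R.L i).g₃ := by
      have e1 := hL'.nrm
      have e2 := (R.nl i).nrm
      rw [hg2, e2] at e1
      linear_combination (1 / 18) * e1
    have hlat : L'.lattice = (R.L i).lattice := u_DET L' (R.L i) hg2 hg3
    have hN : ActN σ m (sp c) (R.L i) (R.L i) mu :=
      h2 A B hC σ m (sp c) (R.b i) b' (R.L i) L' (R.L i) (R.om i) om' mu (R.nl i) hL' hA
        (fun z => by rw [hlat])
    have hq1 : IsQ (sp c) (R.L i) (R.L i) mu := ⟨hN.ne, hN.isq⟩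
    have hCM : HasCM A B (R.L i) := (R.nl i).toIsLI.hasCM hC
    have hq2 : IsQ (sp c) (R.L i) (R.L i) (emb c) := by
      refine ⟨emb_ne_zero hC hc0, fun z => ⟨fun hz x hx => ?_, fun hz => ?_⟩⟩
      · obtain ⟨y, rfl⟩ := Ideal.mem_span_singleton'.1 hx
        rw [emb_mul hC, mul_assoc]
        exact hCM y _ hz
      · exact hz c (Ideal.mem_span_singleton_self c)
    rcases h1 A B (sp c) (R.L i) (R.L i) (emb c) mu (R.nl i).nrm hq2 hq1 with h | h
    · refine ⟨1, Or.inl rfl, ?_⟩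
      have e : (((1 : ℤ) : ℂ)) * emb c = mu := by rw [h]; push_cast; ring
      rw [e]
      exact hN
    · refine ⟨-1, Or.inr rfl, ?_⟩
      have e : (((-1 : ℤ) : ℂ)) * emb c = mu := by rw [h]; push_cast; ring
      rw [e]
      exact hN
  choose d hd hact using key
  refine ⟨c, d, hc1, hcop, hσ, hd, hact, fun z hz => ?_⟩
  exact (T.zeta m (idl m) (sp c) σ _ _ _ _ mu₀ hI hσ hm le_rfl (R.nl R.i0) hA₀ z hz).2

end

end Pool.Agent.OBT


end

section

/-!
# OB, block T, module ALT: the coordinates of torsion points are algebraic (helper95, after `NS/TR_ALT.lean`)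
-/

set_option autoImplicit false

namespace Pool.Agent.OBT

open _root_.MU3 Pool.Agent.MU3A Pool.Agent.MU3B Pool.Agent.RI Pool.Agent.MUX Pool.Agent.MUXU
open OnePoint Pool.Agent.NS Pool.Agent.OB
open Pool.Agent.MUXV (GR InK)
open Pool.Agent.NSE (su ru)
open Pool.Agent.NST (KIn ActT)
open Pool.Agent.MUXY (ActN Dn)

noncomputable section

open Pool.Agent.NST.ALT in
/-- (ALT) the coordinates of torsion points are algebraic -/
theorem o_ALT : So_ALT := by
  intro A B hC T V b L om hL u e lam hG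
  have hu0 := hG.u0
  have hu2' : u ^ 2 ≠ 0 := pow_ne_zero _ hu0
  obtain ⟨e1, -, -, -, -, ⟨w₁, hw1, hw1', he⟩, -⟩ :=
    Pool.Agent.NSR.tr_LGF L u e lam ⟨hG.u0, hG.eq⟩
  obtain ⟨w₂, hw2, hew⟩ := b_SUR L (e + u ^ 2)
  have hw2' : 2 * w₂ ∈ L.lattice := by
    apply (b_ZER L w₂ hw2).1
    have h1 := hG.eq w₂ hw2
    have h4 : (L.weierstrassP w₂ - e) / u ^ 2 = 1 := by
      rw [hew, add_sub_cancel_left, div_self hu2']
    rw [h4, sub_self, mul_zero, zero_mul] at h1
    have h5 := (pow_eq_zero_iff two_ne_zero).1 h1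
    rcases div_eq_zero_iff.1 h5 with h6 | h6
    · exact h6
    · exact absurd h6 (mul_ne_zero two_ne_zero (pow_ne_zero _ hu0))
  have hu : L.weierstrassP w₂ - L.weierstrassP w₁ = u ^ 2 := by
    rw [hew, he]
    ring
  have m1 := wp_mem (n := 2) hC hL hw1 (by push_cast; exact hw1')
  have m2 := wp_mem (n := 2) hC hL hw2 (by push_cast; exact hw2')
  have hu2 : u ^ 2 ∈ RF (idl (A := A) (B := B) 2) := by
    rw [← hu]; exact sub_mem m2 m1
  have hem : e ∈ RF (idl (A := A) (B := B) 2) := by rw [← he]; exact m1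
  have hlam : lam ∈ RF (idl (A := A) (B := B) 2) := by
    have h6 : lam = -3 * e / u ^ 2 - 1 := by
      field_simp
      linear_combination e1
    rw [h6]
    have h7 : (-3 : ℂ) ∈ RF (idl (A := A) (B := B) 2) := by simp
    exact sub_mem (div_mem (mul_mem h7 hem) hu2) (one_mem _)
  have hua2 : IsAlgebraic ℚ (u ^ 2) := alg_RF hC T two_ne_zero hu2
  have hua : IsAlgebraic ℚ u := IsAlgebraic.of_pow two_pos hua2
  have hea : IsAlgebraic ℚ e := alg_RF hC T two_ne_zero hem
  refine ⟨hu2, hem, hlam, hua, fun N hN z hz hz' => ?_⟩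
  have hP : IsAlgebraic ℚ (L.weierstrassP z) := alg_RF hC T hN (wp_mem hC hL hz hz')
  have hk : IsAlgebraic ℚ (kap L) := alg_RF hC T hN
    (IntermediateField.subset_adjoin _ _ ⟨b, L, om, hL, Or.inl rfl⟩)
  have hg2 : IsAlgebraic ℚ L.g₂ := by
    have h8 : L.g₂ = ((1 / 12 : ℚ) : ℂ) + ((144 : ℚ) : ℂ) * kap L := by
      unfold kap
      push_cast
      ring
    rw [h8]
    exact (alg_num _).add ((alg_num _).mul hk)
  have hg3 : IsAlgebraic ℚ L.g₃ := by
    have h8 : L.g₃ = ((-1 / 18 : ℚ) : ℂ) * L.g₂ := by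
      rw [hL.nrm]
      push_cast
      ring
    rw [h8]
    exact (alg_num _).mul hg2
  have hD : IsAlgebraic ℚ (L.derivWeierstrassP z) := by
    apply IsAlgebraic.of_pow two_pos
    rw [L.derivWeierstrassP_sq z hz]
    have h4 : IsAlgebraic ℚ (4 : ℂ) := by simpa using alg_num 4
    exact ((h4.mul (hP.pow 3)).sub (hg2.mul hP)).sub hg3
  have hx : IsAlgebraic ℚ (xu L u e z) := by
    unfold xu
    rw [div_eq_mul_inv]
    exact (hP.sub hea).mul hua2.inv
  have hy : IsAlgebraic ℚ (yu L u z) := by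
    unfold yu
    rw [div_eq_mul_inv]
    have h2 : IsAlgebraic ℚ (2 : ℂ) := by simpa using alg_num 2
    exact hD.mul (h2.mul (hua.pow 3)).inv
  refine ⟨hx, hy, ?_⟩
  unfold ru
  rw [div_eq_mul_inv]
  exact hy.neg.mul (hx.pow 2).inv

end

end Pool.Agent.OBT


end

section

/-!
# OB, block T, module ALV (helper31): the values are algebraic

Copy of `NS/T_ALV.lean` (helper83) with a prime `p` instead of `3` and weights `0` allowed.
-/

set_option autoImplicit false

namespace Pool.Agent.OBT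

open _root_.MU3 Pool.Agent.MU3A Pool.Agent.MU3B Pool.Agent.RI Pool.Agent.MUX Pool.Agent.MUXU
open OnePoint Pool.Agent.NS Pool.Agent.OB

namespace ALV

lemma ne_bot {A B : ℤ} (hC : CQ A B) {n : ℕ} (hn : n ≠ 0) : idl (A := A) (B := B) n ≠ ⊥ := by
  intro h0
  rw [Ideal.span_singleton_eq_bot] at h0
  exact natCast_ne_zero' hC hn h0

lemma ne_top {A B : ℤ} (hC : CQ A B) {n : ℕ} (hn : 2 ≤ n) : idl (A := A) (B := B) n ≠ ⊤ := by
  intro h0
  have h1 : (1 : OO A B) ∈ idl (A := A) (B := B) n := by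
    rw [h0]; exact Submodule.mem_top
  obtain ⟨y, hy⟩ := Ideal.mem_span_singleton'.1 h1
  have h2 := congrArg nm hy
  have h3 : nm (((n : ℕ) : OO A B)) = (n : ℤ) ^ 2 := by
    have := nm_intCast (A := A) (B := B) (n : ℤ)
    rwa [Int.cast_natCast] at this
  have h4 : nm (1 : OO A B) = 1 := by
    have := nm_intCast (A := A) (B := B) 1
    simpa using this
  rw [nm_mul hC, h3, h4] at h2
  have h5 := Int.eq_one_or_neg_one_of_mul_eq_one ((mul_comm _ _).trans h2)
  have h6 : (2 : ℤ) ≤ n := by exact_mod_cast hn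
  rcases h5 with h5 | h5 <;> nlinarith

lemma cop {A B : ℤ} {n : ℕ} {ι : Type} (R : Reps A B n ι) (i : ι) :
    IsCoprime (sp ((nI (R.b i) : ℕ) : OO A B)) (idl (A := A) (B := B) n) := by
  obtain ⟨u, v, huv⟩ := Nat.isCoprime_iff_coprime.2 (R.cop i)
  rw [Ideal.isCoprime_iff_exists]
  refine ⟨(u : OO A B) * ((nI (R.b i) : ℕ) : OO A B), ?_, (v : OO A B) * ((n : ℕ) : OO A B),
    ?_, ?_⟩
  · exact Ideal.mul_mem_left _ _ (Ideal.mem_span_singleton_self _)
  · exact Ideal.mul_mem_left _ _ (Ideal.mem_span_singleton_self _)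
  · have h2 := congrArg (fun z : ℤ => (z : OO A B)) huv
    push_cast at h2
    exact h2

lemma sum {ι : Type} (s : Finset ι) (t : ι → ℂ) (ht : ∀ i ∈ s, IsAlgebraic ℚ (t i)) :
    IsAlgebraic ℚ (∑ i ∈ s, t i) :=
  mem_algebraicClosure_iff.1 (sum_mem (S := algebraicClosure ℚ ℂ) (t := s) (f := t) fun i hi =>
    (mem_algebraicClosure_iff.2 (ht i hi)))

end ALV

theorem o_ALV (h : Pool.Agent.MUXY.Sy_ALP) : So_ALV := by
  intro p hp A B hC hX f hf ι _ R e he r hr her kk hkk u hu x y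
  have hpf : p * f ≠ 0 := Nat.mul_ne_zero hp.ne_zero hf
  have hpf2 : 2 ≤ p * f := by
    have h1 := hp.two_le
    have h2 : 1 ≤ f := Nat.one_le_iff_ne_zero.2 hf
    nlinarith
  have hbot : idl (A := A) (B := B) (p * f) ≠ ⊥ := ALV.ne_bot hC hpf
  have htop : idl (A := A) (B := B) (p * f) ≠ ⊤ := ALV.ne_top hC hpf2
  have hval := fun i => (h A B hC hX (p * f) ι inferInstance R _ e hbot htop he
    (fun i => ALV.cop R i) r hr her i x y).2
  have hsum : PhiK R e kk x y / (u * R.om R.i0) =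
      ∑ i, kk i * (PhiI (R.b i) e x y / R.om R.i0) * u⁻¹ := by
    rw [PhiK, Finset.sum_div]
    refine Finset.sum_congr rfl fun i _ => ?_
    rw [div_eq_mul_inv, mul_inv, div_eq_mul_inv]
    ring
  rw [hsum]
  refine ALV.sum _ _ fun i _ => ?_
  have hk : IsAlgebraic ℚ (kk i) := by
    rcases hkk i with h0 | h1
    · rw [h0]
      exact isAlgebraic_zero
    · refine IsAlgebraic.of_pow (n := r) (Nat.pos_of_ne_zero hr) ?_
      rw [h1]
      exact isAlgebraic_one
  exact (hk.mul (hval i)).mul hu.inv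

end Pool.Agent.OBT


end

section

/-!
# OBT_BAS: elementary facts on `P` and `V` (helper16)
-/

set_option autoImplicit false

namespace Pool.Agent.OBT

open _root_.MU3 Pool.Agent.MU3A Pool.Agent.MU3B Pool.Agent.RI Pool.Agent.MUX Pool.Agent.MUXU
open Pool.Agent.NS Pool.Agent.OB

namespace BAS

theorem integral_mem (V : ValuationSubring ℂ) {x : ℂ} (hx : IsIntegral ℤ x) : x ∈ V := by
  have h1 : IsIntegral V x := hx.tower_top
  obtain ⟨y, hy⟩ := (IsIntegrallyClosed.isIntegral_iff (R := V) (K := ℂ)).1 h1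
  rw [← hy]
  exact y.2

theorem nat_unit {V : ValuationSubring ℂ} {p : ℕ} (hp : p.Prime) (hv : V.valuation (p : ℂ) < 1)
    {n : ℕ} (hn : ¬ p ∣ n) : V.valuation (n : ℂ) = 1 := by
  have h1 : V.valuation (n : ℂ) ≤ 1 := (V.valuation_le_one_iff _).2 (natCast_mem V n)
  refine le_antisymm h1 (not_lt.1 fun h2 => ?_)
  have hc : IsCoprime (n : ℤ) (p : ℤ) :=
    Nat.isCoprime_iff_coprime.2 ((hp.coprime_iff_not_dvd.2 hn).symm)
  obtain ⟨a, b, hab⟩ := hc
  have e : (a : ℂ) * n + b * p = 1 := by exact_mod_cast hab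
  have ha : V.valuation (a : ℂ) ≤ 1 := (V.valuation_le_one_iff _).2 (intCast_mem V a)
  have hb : V.valuation (b : ℂ) ≤ 1 := (V.valuation_le_one_iff _).2 (intCast_mem V b)
  have h3 : V.valuation ((a : ℂ) * n + b * p) < 1 := by
    refine V.valuation.map_add_lt ?_ ?_
    · rw [map_mul]
      exact mul_lt_one_of_nonneg_of_lt_one_right ha zero_le h2
    · rw [map_mul]
      exact mul_lt_one_of_nonneg_of_lt_one_right hb zero_le hv
  rw [e, map_one] at h3
  exact lt_irrefl _ h3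

variable {A B : ℤ}

theorem eq_top_of_nI {P : Ideal (OO A B)} (h : nI P = 1) : P = ⊤ := by
  unfold nI at h
  have h1 := (Nat.card_eq_one_iff_unique.1 h).1
  exact Ideal.Quotient.subsingleton_iff.1 h1

theorem mem_idl (p : ℕ) : ((p : ℕ) : OO A B) ∈ idl (A := A) (B := B) p :=
  Ideal.mem_span_singleton_self _

theorem not_mem_sq {p : ℕ} {P : Ideal (OO A B)} (h : P * P = idl (A := A) (B := B) p) :
    ((p : ℕ) : OO A B) ∈ P ^ 2 := by
  rw [pow_two, h]
  exact mem_idl p

theorem top_coprime (P : Ideal (OO A B)) : IsCoprime (⊤ : Ideal (OO A B)) P := by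
  rw [Ideal.isCoprime_iff_sup_eq, top_sup_eq]

theorem idl_dvd {p : ℕ} {P : Ideal (OO A B)} (h : ((p : ℕ) : OO A B) ∈ P) :
    idl (A := A) (B := B) p ≤ P := (Ideal.span_singleton_le_iff_mem P).2 h

end BAS

open _root_.Pool.Agent.OBT.BAS

theorem o_BAS : So_BAS := by
  intro p er A B P V h
  have hq := h.cq
  have hded : IsDedekindDomain (OO A B) := (Pool.Agent.MUXE.te_RNG A B hq).ded
  have hP := h.prime
  have hp0 : ((p : ℕ) : OO A B) ≠ 0 := natCast_ne_zero' hq h.pp.ne_zero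
  have hPb : P ≠ ⊥ := fun e => hp0 (by simpa [e] using h.mem)
  have hmax : P.IsMaximal := hP.isMaximal hPb
  have hv : V.valuation (p : ℂ) < 1 := by
    have h1 := (h.hV ((p : ℕ) : OO A B)).2 h.mem
    rw [emb_natCast hq] at h1
    exact (V.mem_nonunits_iff).1 h1
  have hib : idl (A := A) (B := B) p ≠ ⊥ := fun e =>
    hp0 (Ideal.span_singleton_eq_bot.1 e)
  obtain ⟨Q, hQ⟩ : P ∣ idl (A := A) (B := B) p := Ideal.dvd_iff_le.2 (idl_dvd h.mem)
  have hQb : Q ≠ ⊥ := fun e => hib (by rw [hQ, e, Ideal.mul_bot])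
  have hnp : nI (idl (A := A) (B := B) p) = p ^ 2 := by
    have h1 := nI_sp hq hp0
    rw [show idl (A := A) (B := B) p = sp ((p : ℕ) : OO A B) from rfl, h1]
    have h2 : nm ((p : ℕ) : OO A B) = (p : ℤ) ^ 2 := by
      have := nm_intCast (A := A) (B := B) (p : ℤ)
      simpa using this
    rw [h2, Int.natAbs_pow, Int.natAbs_natCast]
  have hmul : nI P * nI Q = p ^ 2 := by rw [← nI_mul hq hPb hQb, ← hQ, hnp]
  have hn1 : nI P ≠ 1 := fun e => hP.ne_top (eq_top_of_nI e)
  have hcase : nI P = p ∨ nI P = p ^ 2 := by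
    obtain ⟨i, hi, hi2⟩ := (Nat.dvd_prime_pow h.pp).1 (Dvd.intro _ hmul)
    interval_cases i
    · exact absurd hi2 (by simpa using hn1)
    · exact Or.inl (by simpa using hi2)
    · exact Or.inr hi2
  have hp5 := h.p5
  have hd : ¬ p ∣ nI P - 1 := by
    intro hd
    have h1 : p ∣ nI P := by
      rcases hcase with e | e
      · rw [e]
      · rw [e]
        exact dvd_pow_self p two_ne_zero
    have h2 : 1 ≤ nI P := by
      rcases hcase with e | e <;> rw [e]
      · omega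
      · exact Nat.one_le_pow _ _ (by omega)
    have h3 : p ∣ 1 := by
      have := (Nat.dvd_sub h1 hd)
      rwa [Nat.sub_sub_self h2] at this
    have := Nat.le_of_dvd one_pos h3
    omega
  have h4 : 4 ≤ nI P - 1 := by
    rcases hcase with e | e <;> rw [e]
    · omega
    · have : 5 * 5 ≤ p ^ 2 := by
        rw [pow_two]
        exact Nat.mul_le_mul hp5 hp5
      omega
  have hy : ∃ y : OO A B, (∀ x ∈ P, ∃ z, x * y = (p : OO A B) * z) ∧
      ∀ z, y ≠ (p : OO A B) * z := by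
    have h1 : ¬ Q ≤ idl (A := A) (B := B) p := by
      intro h1
      have h2 : ⊤ * Q ≤ P * Q := by
        rw [← hQ, Ideal.top_mul]
        exact h1
      rw [mul_comm ⊤ Q, mul_comm P Q] at h2
      exact hP.ne_top (top_le_iff.1 ((mul_le_mul_iff hq hQb).1 h2))
    obtain ⟨y, hyQ, hyp⟩ := SetLike.not_le_iff_exists.1 h1
    refine ⟨y, fun x hx => ?_, fun z hz => hyp ?_⟩
    · have h2 : x * y ∈ idl (A := A) (B := B) p := by
        rw [hQ]
        exact Ideal.mul_mem_mul hx hyQ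
      obtain ⟨z, hz⟩ := Ideal.mem_span_singleton.1 h2
      exact ⟨z, hz⟩
    · rw [hz]
      exact Ideal.mem_span_singleton.2 ⟨z, rfl⟩
  have hlast : IsCoprime (Pc P) P ∧ idl (A := A) (B := B) p = Pc P * P ^ er := by
    have hPP := mul_cjI hq hPb
    rcases hcase with e | e
    · have e1 : P * cjI P = idl (A := A) (B := B) p := by rw [hPP, e]
      by_cases hc : cjI P = P
      · have hPc : Pc P = ⊤ := by
          unfold Pc
          rw [if_pos hc]
        have e2 : P * P = idl (A := A) (B := B) p := by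
          have e3 := e1
          rwa [hc] at e3
        have her : er = 2 := by
          rcases h.ram with ⟨-, h1⟩ | ⟨h1, -⟩
          · exact absurd (not_mem_sq e2) h1
          · exact h1
        rw [hPc, her, Ideal.top_mul, pow_two]
        exact ⟨top_coprime P, e2.symm⟩
      · have hPc : Pc P = cjI P := by
          unfold Pc
          rw [if_neg hc]
        have hpr : (cjI P).IsPrime := by
          unfold cjI
          exact Ideal.IsPrime.comap _
        have hmx : (cjI P).IsMaximal := hpr.isMaximal (cjI_ne_bot hq hPb)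
        have her : er = 1 := by
          rcases h.ram with ⟨h1, -⟩ | ⟨-, h1⟩
          · exact h1
          · exfalso
            have h2 : P * cjI P ≤ P * P := by
              rw [e1, ← pow_two]
              exact idl_dvd h1
            exact hc (hmx.eq_of_le hP.ne_top ((mul_le_mul_iff hq hPb).1 h2))
        rw [hPc]
        refine ⟨Ideal.isCoprime_iff_sup_eq.2 (hmx.coprime_of_ne hmax hc), ?_⟩
        rw [her, pow_one, mul_comm, e1]
    · have hQ1 : nI Q = 1 := by
        have h1 : p ^ 2 * nI Q = p ^ 2 * 1 := by rw [← e, hmul, mul_one, e]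
        exact Nat.eq_of_mul_eq_mul_left (pow_pos h.pp.pos 2) h1
      have hPi : idl (A := A) (B := B) p = P := by rw [hQ, eq_top_of_nI hQ1, Ideal.mul_top]
      have hc : cjI P = P := by
        apply mul_cancel hq hPb
        rw [hPP, e]
        conv_rhs => rw [← hPi]
        rw [show sp ((p ^ 2 : ℕ) : OO A B) = idl (A := A) (B := B) (p ^ 2) from rfl, idl, idl,
          Ideal.span_singleton_mul_span_singleton]
        congr 2
        push_cast
        ring
      have hPc : Pc P = ⊤ := by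
        unfold Pc
        rw [if_pos hc]
      have her : er = 1 := by
        rcases h.ram with ⟨h1, -⟩ | ⟨-, h1⟩
        · exact h1
        · exfalso
          have h2 : P * ⊤ ≤ P * P := by
            rw [Ideal.mul_top, ← pow_two]
            conv_lhs => rw [← hPi]
            exact idl_dvd h1
          exact hP.ne_top (top_le_iff.1 ((mul_le_mul_iff hq hPb).1 h2))
      rw [hPc]
      refine ⟨top_coprime P, ?_⟩
      rw [Ideal.top_mul, her, pow_one, hPi]
  refine ⟨hv, ?_, hmax, fun x => ?_, fun x => ?_, fun n hn => nat_unit h.pp hv hn, hcase, hd, h4,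
    hy, hlast.1, hlast.2⟩
  · have h1 : ¬ p ∣ 2 := fun h1 => by
      have := Nat.le_of_dvd two_pos h1
      omega
    exact_mod_cast nat_unit h.pp hv h1
  · exact (V.valuation_le_one_iff _).2 (integral_mem V (Pool.Agent.MUXE.RNGaux.emb_int hq x))
  · rw [← h.hV x, V.mem_nonunits_iff]

end Pool.Agent.OBT


end

section

/-!
# OB, block T: FGP (helper64, for helper59)

Finitely many pairs of cusps generate all values.
-/

set_option autoImplicit false

namespace Pool.Agent.OBT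

open OnePoint
open Pool.Agent.MUXY (Dn)

namespace FGP

/-- a subset of a finitely generated abelian group is generated by a finite part of itself -/
theorem finite_gen (T : Finset ℂ) (X : Set ℂ) (hX : X ⊆ AddSubgroup.closure (T : Set ℂ)) :
    ∃ F : Finset ℂ, (F : Set ℂ) ⊆ X ∧ X ⊆ AddSubgroup.closure (F : Set ℂ) := by
  have h1 : (Submodule.span ℤ X).FG := by
    have hle : Submodule.span ℤ X ≤ Submodule.span ℤ (T : Set ℂ) := by
      rw [Submodule.span_le]
      intro x hx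
      have := hX hx
      rw [← Submodule.span_int_eq_addSubgroupClosure] at this
      exact this
    have : IsNoetherian ℤ (Submodule.span ℤ (T : Set ℂ)) :=
      isNoetherian_span_of_finite ℤ T.finite_toSet
    exact (isNoetherian_submodule.mp this) _ hle
  obtain ⟨F, hF, hs⟩ := (Submodule.fg_span_iff_fg_span_finset_subset X).1 h1
  refine ⟨F, hF, fun x hx => ?_⟩
  have : x ∈ Submodule.span ℤ (F : Set ℂ) := by
    rw [← hs]; exact Submodule.subset_span hx
  rw [← Submodule.span_int_eq_addSubgroupClosure]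
  exact this

/-- every cusp has a denominator -/
theorem ex_Dn (x : OnePoint ℚ) : ∃ m : ℕ, m ≠ 0 ∧ Dn m x := by
  induction x using OnePoint.rec with
  | infty => exact ⟨1, one_ne_zero, fun r hr => absurd hr (OnePoint.infty_ne_coe r)⟩
  | coe q => exact ⟨q.den, q.den_nz, fun r hr => by
      rw [OnePoint.coe_eq_coe] at hr; rw [hr]⟩

theorem Dn_mul {m m' : ℕ} {x : OnePoint ℚ} (h : Dn m x) (hd : m ∣ m') : Dn m' x :=
  fun r hr => (h r hr).trans hd

/-- a common denominator of a finite set of cusps -/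
theorem ex_common (S : Finset (OnePoint ℚ × OnePoint ℚ)) :
    ∃ D : ℕ, D ≠ 0 ∧ ∀ q ∈ S, Dn D q.1 ∧ Dn D q.2 := by
  classical
  induction S using Finset.induction_on with
  | empty => exact ⟨1, one_ne_zero, fun q hq => absurd hq (Finset.notMem_empty q)⟩
  | insert a s ha ih =>
    obtain ⟨D, hD, h⟩ := ih
    obtain ⟨m1, hm1, h1⟩ := ex_Dn a.1
    obtain ⟨m2, hm2, h2⟩ := ex_Dn a.2
    refine ⟨D * (m1 * m2), mul_ne_zero hD (mul_ne_zero hm1 hm2), fun q hq => ?_⟩
    rcases Finset.mem_insert.1 hq with rfl | hq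
    · exact ⟨Dn_mul h1 ((dvd_mul_right m1 m2).trans (dvd_mul_left _ D)),
        Dn_mul h2 ((dvd_mul_left m2 m1).trans (dvd_mul_left _ D))⟩
    · exact ⟨Dn_mul (h q hq).1 (dvd_mul_right _ _), Dn_mul (h q hq).2 (dvd_mul_right _ _)⟩

end FGP

theorem o_FGP : So_FGP := by
  classical
  intro p hp P T hT
  obtain ⟨F, hF, hgen⟩ := FGP.finite_gen T
    (Set.range fun q : OnePoint ℚ × OnePoint ℚ => P q.1 q.2)
    (by rintro _ ⟨q, rfl⟩; exact hT q.1 q.2)
  have hch : ∀ f : {f : ℂ // f ∈ F}, ∃ q : OnePoint ℚ × OnePoint ℚ, P q.1 q.2 = f.1 :=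
    fun f => hF f.2
  choose g hg using hch
  obtain ⟨D, hD, hDn⟩ := FGP.ex_common (F.attach.image g)
  obtain ⟨j, N, hN, hDN⟩ := Nat.exists_eq_pow_mul_and_not_dvd hD p hp.ne_one
  refine ⟨F.attach.image g, j, N, ?_, hN, ?_, ?_⟩
  · rintro rfl; exact hN (dvd_zero p)
  · intro q hq; rw [← hDN]; exact hDn q hq
  · intro x y
    refine AddSubgroup.closure_mono ?_ (hgen ⟨(x, y), rfl⟩)
    intro f hf
    exact ⟨g ⟨f, hf⟩, Finset.mem_coe.2 (Finset.mem_image.2 ⟨⟨f, hf⟩, Finset.mem_attach _ _, rfl⟩),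
      hg ⟨f, hf⟩⟩

end Pool.Agent.OBT


end

section

/-!
# OB, block T, module RTU (helper20): roots of unity of order prime to `p` are determined by their residues
-/

set_option autoImplicit false

namespace Pool.Agent.OBT

open _root_.MU3 Pool.Agent.MU3A Pool.Agent.MU3B Pool.Agent.RI Pool.Agent.MUX Pool.Agent.MUXU
open OnePoint Pool.Agent.NS Pool.Agent.OB

noncomputable section

namespace RTU

lemma v_nat {p : ℕ} (hp : p.Prime) {V : ValuationSubring ℂ} (h3 : V.valuation (p : ℂ) < 1)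
    {M : ℕ} (hM : ¬ p ∣ M) : ¬ V.valuation (M : ℂ) < 1 := by
  intro hMV
  have hint : ∀ n : ℤ, V.valuation (n : ℂ) ≤ 1 := fun n =>
    (V.valuation_le_one_iff _).2 (intCast_mem V n)
  have hcop : Nat.Coprime p M := (hp.coprime_iff_not_dvd).2 hM
  have h5 := Nat.gcd_eq_gcd_ab p M
  rw [hcop.gcd_eq_one] at h5
  have h6 : (1 : ℂ) = (p : ℂ) * ((Nat.gcdA p M : ℤ) : ℂ) + (M : ℂ) * ((Nat.gcdB p M : ℤ) : ℂ) := by
    have := congrArg (fun t : ℤ => (t : ℂ)) h5
    simpa using this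
  have h7 : V.valuation (1 : ℂ) < 1 := by
    rw [h6]
    refine Valuation.map_add_lt _ ?_ ?_
    · rw [map_mul]
      exact mul_lt_one_of_lt_of_le h3 (hint _)
    · rw [map_mul]
      exact mul_lt_one_of_lt_of_le hMV (hint _)
  rw [map_one] at h7
  exact lt_irrefl _ h7

lemma v_root {V : ValuationSubring ℂ} {M : ℕ} (hM : M ≠ 0) {z : ℂ} (hz : z ^ M = 1) :
    V.valuation z = 1 := by
  have h1 : (V.valuation z) ^ M = 1 := by rw [← map_pow, hz, map_one]
  exact (pow_eq_one_iff.1 h1).resolve_right hM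

lemma root_one {V : ValuationSubring ℂ} {M : ℕ} (hM : M ≠ 0) {t : ℂ} (ht : t ^ M = 1)
    (hv : V.valuation (t - 1) < 1) (hMV : ¬ V.valuation (M : ℂ) < 1) : t = 1 := by
  by_contra hne
  have h1 : (∑ i ∈ Finset.range M, t ^ i) * (t - 1) = 0 := by
    rw [geom_sum_mul, ht, sub_self]
  have h2 : ∑ i ∈ Finset.range M, t ^ i = 0 :=
    (mul_eq_zero.1 h1).resolve_right (sub_ne_zero.2 hne)
  apply hMV
  have h3 : (M : ℂ) = - ∑ i ∈ Finset.range M, (t ^ i - 1) := by
    rw [Finset.sum_sub_distrib, h2]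
    simp
  have h4 : V.valuation t = 1 := v_root hM ht
  rw [h3, Valuation.map_neg]
  have h5 : ∀ i ∈ Finset.range M, V.valuation (t ^ i - 1) < 1 := by
    intro i _
    have h6 : t ^ i - 1 = (t - 1) * ∑ j ∈ Finset.range i, t ^ j := (mul_geom_sum t i).symm
    rw [h6, map_mul]
    refine mul_lt_one_of_lt_of_le hv ?_
    refine Valuation.map_sum_le _ fun j _ => ?_
    rw [map_pow, h4, one_pow]
  exact Valuation.map_sum_lt _ one_ne_zero h5

lemma eq_of {p : ℕ} (hp : p.Prime) {V : ValuationSubring ℂ} (h3 : V.valuation (p : ℂ) < 1)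
    {r : ℕ} (hr : ¬ p ∣ r)
    (z z' : ℂ) (hz : z ^ r = 1) (hz' : z' ^ r = 1) (hv : V.valuation (z' - z) < 1) : z' = z := by
  have hr0 : r ≠ 0 := by
    rintro rfl
    exact hr (dvd_zero p)
  have hz0 : z ≠ 0 := by
    rintro rfl
    rw [zero_pow hr0] at hz
    exact zero_ne_one hz
  have h1 : (z' / z) ^ r = 1 := by
    rw [div_pow, hz', hz, div_one]
  have h2 : V.valuation (z' / z - 1) < 1 := by
    have h4 : z' / z - 1 = (z' - z) / z := by
      rw [sub_div, div_self hz0]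
    rw [h4, map_div₀, v_root hr0 hz, div_one]
    exact hv
  exact (div_eq_one_iff_eq hz0).1 (root_one hr0 h1 h2 (v_nat hp h3 hr))

end RTU

open _root_.Pool.Agent.OBT.RTU in
theorem o_RTU : So_RTU := by
  intro p hp V h3 r hr
  refine ⟨fun z z' hz hz' hv => eq_of hp h3 hr z z' hz hz' hv, fun σ hσ z hz => ?_⟩
  rcases hz with rfl | hz
  · exact map_zero σ
  · refine eq_of hp h3 hr z (σ z) hz ?_ (hσ z hz)
    rw [← map_pow, hz, map_one]

end

end Pool.Agent.OBT


end

section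

/-!
# OB, block T, module SGM: the signs `d_i`
-/

set_option autoImplicit false

namespace Pool.Agent.OBT

open _root_.MU3 Pool.Agent.MU3A Pool.Agent.MU3B Pool.Agent.RI Pool.Agent.MUX Pool.Agent.MUXU
open OnePoint Pool.Agent.NS Pool.Agent.OB
open Pool.Agent.NST (KIn ActT)
open Pool.Agent.MUXY (ActN Dn Sy_MUI Sy_MUC Sy_MUU)

noncomputable section

namespace SGM

theorem zmul_mem {L : PeriodPair} (n : ℤ) {w : ℂ} (h : w ∈ L.lattice) : (n : ℂ) * w ∈ L.lattice := by
  have h1 := zsmul_mem h n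
  rwa [zsmul_eq_mul] at h1

theorem phi_cong {A B : ℤ} {σ : ℂ ≃+* ℂ} {L : PeriodPair} {Φ : ℂ → ℂ} (hΦ : IsPhi σ L L Φ)
    {m : ℕ} {a : Ideal (OO A B)} {mu : ℂ} (h : ActN σ m a L L mu) {z : ℂ}
    (hz : (m : ℂ) * z ∈ L.lattice) (hzL : z ∉ L.lattice) : Φ z - mu * z ∈ L.lattice := by
  obtain ⟨h1, h2, h3⟩ := h.act z hz hzL
  refine u_EQP L _ _ ((hΦ.mem z).not.2 hzL) h1 ?_ ?_
  · rw [hΦ.P z hzL, h2]
  · rw [hΦ.P' z hzL, h3]

/-- `Φ z ≡ d z` if `c ≡ 1` modulo `m'` and `m' z ∈ L` -/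
theorem phi_d {A B : ℤ} (hC : CQ A B) {σ : ℂ ≃+* ℂ} {b : Ideal (OO A B)} {L : PeriodPair} {om : ℂ}
    (hL : IsLI b L om) {Φ : ℂ → ℂ} (hΦ : IsPhi σ L L Φ)
    {m m' : ℕ} (hdv : m' ∣ m) {a : Ideal (OO A B)} {c : OO A B}
    (hc : c - 1 ∈ idl (A := A) (B := B) m') {d : ℤ}
    (h : ActN σ m a L L (d * emb c)) {z : ℂ}
    (hz : (m' : ℂ) * z ∈ L.lattice) (hzL : z ∉ L.lattice) : Φ z - d * z ∈ L.lattice := by
  have h1 : ((m : ℕ) : ℂ) * z ∈ L.lattice := by
    obtain ⟨q, rfl⟩ := hdv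
    have h2 := nsmul_mem hz q
    rw [nsmul_eq_mul, ← mul_assoc, ← Nat.cast_mul, mul_comm q] at h2
    exact h2
  have h3 := phi_cong hΦ h h1 hzL
  obtain ⟨y, hy⟩ := Ideal.mem_span_singleton'.1 hc
  have h4 : emb c = emb y * m' + 1 := by
    have h5 : c = y * ((m' : ℕ) : OO A B) + 1 := by rw [hy]; ring
    rw [h5, Pool.Agent.MUX.emb_add hC, Pool.Agent.MUX.emb_mul hC,
      Pool.Agent.MUX.emb_natCast hC, Pool.Agent.MUX.emb_one hC]
  have h5 : emb y * (m' * z) ∈ L.lattice := by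
    obtain ⟨t, ht, he⟩ := (hL.mem _).1 hz
    rw [he]
    refine (hL.mem _).2 ⟨y * t, b.mul_mem_left y ht, ?_⟩
    rw [Pool.Agent.MUX.emb_mul hC]; ring
  have h6 := add_mem h3 (zmul_mem d h5)
  have h7 : Φ z - d * emb c * z + d * (emb y * (m' * z)) = Φ z - d * z := by
    rw [h4]; ring
  rwa [h7] at h6

end SGM

open _root_.Pool.Agent.OBT.SGM in
theorem o_SGM (hI : Sy_MUI) (hMC : Sy_MUC) (hMU : Sy_MUU) : So_SGM := by
  intro A B hC n ι R m m' hm hmm hf hfn σ c d hc hact i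
  have hm' : m' ≠ 0 := by omega
  have hN0 : nI (R.b i) ≠ 0 := by
    intro h
    have h1 := R.cop i
    rw [h, Nat.coprime_zero_left] at h1
    rw [h1] at hfn
    exact absurd (Nat.le_of_dvd one_pos hfn) (by omega)
  have hμ : muX R i ≠ 0 := by
    unfold muX
    exact div_ne_zero (mul_ne_zero (R.nl i).om_ne (by exact_mod_cast hN0)) (R.nl R.i0).om_ne
  have hQ := hI A B hC _ ι R i
  have hQ' := hMC A B hC σ hact.fix (cjI (R.b i)) (R.b R.i0) (R.L R.i0) (R.L i) (R.L R.i0) (R.L i)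
    (R.om R.i0) (muX R i) (R.nl R.i0).toIsLI (hact.act R.i0).cj (hact.act i).cj hQ
  have hs := hMU A B _ _ _ _ _ (R.nl i).nrm hQ hQ'
  have hisg : Isg (R.L R.i0) (R.L i) (muX R i) := by
    intro w hw
    refine (hQ.2 w).2 fun x _ => ?_
    obtain ⟨t, ht, rfl⟩ := ((R.nl R.i0).mem w).1 hw
    refine ((R.nl R.i0).mem _).2 ⟨x * t, (R.b R.i0).mul_mem_left x ht, ?_⟩
    rw [Pool.Agent.MUX.emb_mul hC]; ring
  obtain ⟨Φ, hΦ⟩ := u_PHI σ _ _ (hact.act R.i0).cj
  obtain ⟨Ψ, hΨ⟩ := u_PHI σ _ _ (hact.act i).cj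
  obtain ⟨-, hfun⟩ := u_FUN σ _ _ _ _ (muX R i) Φ Ψ hμ hisg (hact.act R.i0).cj (hact.act i).cj hΦ hΨ
  have hm0 : (m' : ℂ) ≠ 0 := by exact_mod_cast hm'
  -- the point
  obtain ⟨z, hz⟩ : ∃ z : ℂ, z = R.om R.i0 / m' := ⟨_, rfl⟩
  have hmz : (m' : ℂ) * z = R.om R.i0 := by rw [hz]; field_simp
  have hom0 : R.om R.i0 ∈ (R.L R.i0).lattice := by
    refine ((R.nl R.i0).mem _).2 ⟨1, by rw [R.b0]; trivial, ?_⟩
    rw [Pool.Agent.MUX.emb_one hC, mul_one]
  have hμz : (m' : ℂ) * (muX R i * z) = R.om i * nI (R.b i) := by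
    rw [mul_left_comm, hmz]
    unfold muX
    have := (R.nl R.i0).om_ne
    field_simp
  have h2 : 2 * (muX R i * z) ∉ (R.L i).lattice := by
    intro h
    obtain ⟨x, -, hx⟩ := ((R.nl i).mem _).1 h
    have h3 : emb (((2 * nI (R.b i) : ℕ) : OO A B)) = emb (((m' : ℕ) : OO A B) * x) := by
      rw [Pool.Agent.MUX.emb_mul hC, Pool.Agent.MUX.emb_natCast hC, Pool.Agent.MUX.emb_natCast hC]
      apply mul_left_cancel₀ (R.nl i).om_ne
      push_cast
      linear_combination -2 * hμz + (m' : ℂ) * hx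
    have h4 := Pool.Agent.MUX.emb_inj hC h3
    have h5 : ((2 * nI (R.b i) : ℕ) : ℤ) = (m' : ℤ) * x.re := by
      have h6 := congrArg QuadraticAlgebra.re h4
      rw [QuadraticAlgebra.re_natCast, QuadraticAlgebra.re_mul, QuadraticAlgebra.re_natCast,
        QuadraticAlgebra.im_natCast] at h6
      rw [h6]; ring
    have h6 : m' ∣ 2 * nI (R.b i) := by
      have : (m' : ℤ) ∣ ((2 * nI (R.b i) : ℕ) : ℤ) := ⟨_, h5⟩
      exact_mod_cast this
    have h8 : Nat.Coprime m' (nI (R.b i)) := ((R.cop i).coprime_dvd_right hfn).symm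
    have h9 := h8.dvd_of_dvd_mul_right h6
    exact absurd (Nat.le_of_dvd (by norm_num) h9) (by omega)
  have h1 : muX R i * z ∉ (R.L i).lattice := fun h => h2 (by
    have := add_mem h h
    rwa [← two_mul] at this)
  have hz0 : z ∉ (R.L R.i0).lattice := fun h => h1 (hisg z h)
  have e1 := phi_d hC (R.nl R.i0).toIsLI hΦ hmm hc (hact.act R.i0) (hmz ▸ hom0) hz0
  have e2 : Ψ (muX R i * z) - d i * (muX R i * z) ∈ (R.L i).lattice := by
    refine phi_d hC (R.nl i).toIsLI hΨ hmm hc (hact.act i) ?_ h1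
    rw [mul_left_comm, hmz]
    exact hisg _ hom0
  have e3 := hfun z
  have e4 := hisg _ e1
  -- the sign
  obtain ⟨s, hs1, hs2⟩ : ∃ s : ℤ, (s = 1 ∨ s = -1) ∧ σ (muX R i) = s * muX R i := by
    rcases hs with h | h
    · exact ⟨1, Or.inl rfl, by rw [h]; push_cast; ring⟩
    · exact ⟨-1, Or.inr rfl, by rw [h]; push_cast; ring⟩
  rw [hs2] at e3 ⊢
  have e5 : ((d i - s * d R.i0 : ℤ) : ℂ) * (muX R i * z) ∈ (R.L i).lattice := by
    have h6 := add_mem (sub_mem e3 e2) (zmul_mem s e4)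
    have h7 : Ψ (muX R i * z) - s * muX R i * Φ z - (Ψ (muX R i * z) - d i * (muX R i * z)) +
        s * (muX R i * (Φ z - d R.i0 * z)) =
        ((d i - s * d R.i0 : ℤ) : ℂ) * (muX R i * z) := by
      push_cast; ring
    rwa [h7] at h6
  have e6 : d i = s * d R.i0 := by
    by_contra hne
    have h8 : d i - s * d R.i0 = 2 ∨ d i - s * d R.i0 = -2 := by
      rcases hact.sgn i with h9 | h9 <;> rcases hact.sgn R.i0 with h10 | h10 <;>
        rcases hs1 with h11 | h11 <;> rw [h9, h10, h11] at hne ⊢ <;> simp at hne ⊢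
    apply h2
    rcases h8 with h8 | h8
    · rw [h8] at e5
      exact_mod_cast e5
    · rw [h8] at e5
      have := neg_mem e5
      push_cast at this
      rwa [← neg_mul, neg_neg] at this
  rw [e6]
  rcases hact.sgn R.i0 with h10 | h10 <;> rw [h10] <;> push_cast <;> ring

end

end Pool.Agent.OBT


end

section

/-!
# OB, block T, module SGU: the sign `d_0`, every prime `p ≥ 5` (adapted from `NS/TR_SGU.lean`)
-/

set_option autoImplicit false

namespace Pool.Agent.OBT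

open _root_.MU3 Pool.Agent.MU3A Pool.Agent.MU3B Pool.Agent.RI Pool.Agent.MUX Pool.Agent.MUXU
open OnePoint Pool.Agent.NS Pool.Agent.OB
open Pool.Agent.MUXV (GR InK)
open Pool.Agent.NSE (su ru)
open Pool.Agent.NST (KIn ActT)
open Pool.Agent.MUXY (ActN Dn)

noncomputable section

namespace SGU

theorem der_congr (L : PeriodPair) {z w : ℂ} (h : w - z ∈ L.lattice) :
    L.derivWeierstrassP w = L.derivWeierstrassP z := by
  have h4 := L.derivWeierstrassP_add_coe z ⟨w - z, h⟩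
  have h5 : z + ((⟨w - z, h⟩ : L.lattice) : ℂ) = w := by
    show z + (w - z) = w
    ring
  rw [h5] at h4
  exact h4

/-- good reduction of the Legendre form -/
theorem grl (V : ValuationSubring ℂ) (L : PeriodPair) (u e lam : ℂ)
    (h2 : V.valuation (2 : ℂ) = 1) (hG : GoodL V L u e lam) :
    ∃ ξ : ℂ →+ (NSR.WL lam).Point, GR V (NSR.WL lam) L (xu L u e) (yu L u) ξ := by
  obtain ⟨ξ, hk, hs, hp⟩ := NSR.rxil L u e lam ⟨hG.u0, hG.eq⟩
  have hl := hG.vl
  have hl1 : V.valuation (lam - 1) = 1 := by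
    rw [← Valuation.map_neg, neg_sub]
    exact hG.vl1
  refine ⟨ξ, ⟨⟨rfl, rfl, ?_, ?_, ?_⟩, h2, ?_, hp, fun z hz => (hk z).2 hz⟩⟩
  · show V.valuation (-(1 + lam)) ≤ 1
    rw [Valuation.map_neg]
    refine (Valuation.map_add _ _ _).trans ?_
    rw [map_one, hl, max_self]
  · show V.valuation lam ≤ 1
    exact hl.le
  · show V.valuation (0 : ℂ) ≤ 1
    rw [map_zero]
    exact zero_le_one
  · rw [NSR.GRL_disc, map_mul, map_mul, map_pow, map_pow, map_pow, h2, hl, hl1]
    simp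

end SGU

open _root_.Pool.Agent.OBT.SGU in
/-- (SGU) the sign `d_0` -/
theorem o_SGU (h1 : So_BAS) : So_SGU := by
  intro p er A B P V hS n ι R u e lam hGd m f hm0 hfm hf3 hpf σ c d hcm hAct hσu hlast
  have hC := hS.cq
  obtain ⟨-, hv2, -, -, -, hvn, -⟩ := h1 p er A B P V hS
  have hf0 : f ≠ 0 := by omega
  set L := R.L R.i0 with hL
  set om := R.om R.i0 with hom
  have hmem : ∀ z : ℂ, z ∈ L.lattice ↔ ∃ x : OO A B, z = om * emb x := by
    intro z
    rw [(R.nl R.i0).mem, R.b0]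
    exact ⟨fun ⟨x, _, hx⟩ => ⟨x, hx⟩, fun ⟨x, hx⟩ => ⟨x, trivial, hx⟩⟩
  have hom0 : om ≠ 0 := (R.nl R.i0).om_ne
  have hmC : (f : ℂ) ≠ 0 := Nat.cast_ne_zero.2 hf0
  -- good reduction
  obtain ⟨ξ, G⟩ := grl V L u e lam hv2 hGd
  have hT2 : ∀ z : ℂ, (f : ℂ) * z ∈ L.lattice → InK V L (xu L u e) z → z ∈ L.lattice :=
    fun z hz hK => Pool.Agent.MUXV.mem_of_nat_mul G hK (hvn f hpf) hz
  set z : ℂ := om / f with hz
  have hmz : (f : ℂ) * z = om := by rw [hz]; field_simp
  have homL : om ∈ L.lattice := (hmem om).2 ⟨1, by rw [Pool.Agent.MUX.emb_one hC, mul_one]⟩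
  have hzz : z + z ∉ L.lattice := by
    intro h
    obtain ⟨x, hx⟩ := (hmem _).1 h
    have h1 : (f : ℂ) * emb x = 2 := by
      have h2 : om * ((f : ℂ) * emb x) = om * 2 := by
        linear_combination (-(f : ℂ)) * hx + 2 * hmz
      exact mul_left_cancel₀ hom0 h2
    have h2 : ((f : ℕ) : OO A B) * x = ((2 : ℕ) : OO A B) := by
      apply Pool.Agent.MUX.emb_inj hC
      rw [Pool.Agent.MUX.emb_mul hC, Pool.Agent.MUX.emb_natCast hC,
        Pool.Agent.MUX.emb_natCast hC, h1]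
      norm_num
    have h4 := congrArg nm h2
    rw [Pool.Agent.MUX.nm_mul hC] at h4
    have h5 := Pool.Agent.MUX.nm_intCast (A := A) (B := B) (f : ℤ)
    have h6 := Pool.Agent.MUX.nm_intCast (A := A) (B := B) (2 : ℤ)
    rw [Int.cast_natCast] at h5
    have h7 : ((2 : ℤ) : OO A B) = ((2 : ℕ) : OO A B) := by push_cast; rfl
    rw [h7] at h6
    rw [h5, h6] at h4
    have h8 : ((f : ℤ) ^ 2) ∣ 2 ^ 2 := ⟨_, h4.symm⟩
    have h9 := Int.le_of_dvd (by norm_num) h8
    have h10 : (3 : ℤ) ≤ f := by exact_mod_cast hf3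
    nlinarith
  have hzL : z ∉ L.lattice := fun h => hzz (add_mem h h)
  have hzK : ¬ InK V L (xu L u e) z := fun h => hzL (hT2 z (by rw [hmz]; exact homL) h)
  have hzzK : ¬ InK V L (xu L u e) (z + z) := fun h => hzz (hT2 (z + z) (by
    rw [mul_add, hmz]
    exact add_mem homL homL) h)
  -- `v (yu z) = 1`
  have hy1 : V.valuation (yu L u z) = 1 := by
    obtain ⟨hns, hxi⟩ := G.some z hzL
    have e1 := (Pool.Agent.MUXV.inE_iff G z).not.2 hzK
    have e2 := (Pool.Agent.MUXV.inE_iff G (z + z)).not.2 hzzK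
    rw [map_add, hxi] at e2
    rw [hxi] at e1
    exact Pool.Agent.MU3.Val.v_y_unit G.int G.two G.disc hns e1 e2
  -- the action
  have hact := hAct.act R.i0
  have hmzL : (m : ℂ) * z ∈ L.lattice := by
    obtain ⟨a, ha⟩ := hfm
    have h1 : (m : ℂ) * z = (a : ℕ) * om := by
      rw [← hmz, ha]; push_cast; ring
    rw [h1, ← nsmul_eq_mul]
    exact nsmul_mem homL _
  obtain ⟨-, -, hP'⟩ := hact.act z hmzL hzL
  have hcz : emb c * z - z ∈ L.lattice := by
    obtain ⟨y, hy⟩ := Ideal.mem_span_singleton'.1 hcm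
    refine (hmem _).2 ⟨y, ?_⟩
    have h1 : emb c - 1 = emb y * f := by
      have h2 := congrArg emb hy
      rw [Pool.Agent.MUX.emb_mul hC, Pool.Agent.MUX.emb_natCast hC, Pool.Agent.MUX.emb_sub hC,
        Pool.Agent.MUX.emb_one hC] at h2
      exact h2.symm
    have h2 : emb c * z - z = (emb c - 1) * z := by ring
    rw [h2, h1, mul_assoc, hmz, mul_comm]
  have hder : σ (L.derivWeierstrassP z) = d R.i0 * L.derivWeierstrassP z := by
    rw [← hP']
    rcases hAct.sgn R.i0 with hd | hd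
    · rw [hd]
      push_cast
      rw [one_mul, one_mul]
      exact der_congr L hcz
    · rw [hd]
      push_cast
      have h1 : -1 * emb c * z = -(emb c * z) := by ring
      rw [h1, L.derivWeierstrassP_neg, der_congr L hcz]
      ring
  have hu0 := hGd.u0
  have hd2 : (d R.i0 : ℂ) * d R.i0 = 1 := by
    rcases hAct.sgn R.i0 with hd | hd <;> rw [hd] <;> norm_num
  have hs : σ u = d R.i0 * u ∨ σ u = -(d R.i0 * u) := by
    have h1 : (σ u) ^ 2 = (d R.i0 * u) ^ 2 := by
      rw [← map_pow, hσu]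
      linear_combination (-(u ^ 2)) * hd2
    exact sq_eq_sq_iff_eq_or_eq_neg.1 h1
  rcases hs with hs | hs
  · exact hs
  · exfalso
    have hσy : σ (yu L u z) = -yu L u z := by
      unfold yu
      rw [map_div₀, map_mul, map_pow, hs, hder, map_ofNat]
      have hd0 : (d R.i0 : ℂ) ≠ 0 := fun h0 => by
        rw [h0, zero_mul] at hd2
        exact zero_ne_one hd2
      rw [div_eq_iff (by
        refine mul_ne_zero two_ne_zero (pow_ne_zero _ ?_)
        exact neg_ne_zero.2 (mul_ne_zero hd0 hu0))]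
      have h5 : (d R.i0 : ℂ) ^ 3 = d R.i0 := by linear_combination (d R.i0 : ℂ) * hd2
      have h6 : (2 : ℂ) * (-(d R.i0 * u)) ^ 3 = -(d R.i0 * (2 * u ^ 3)) := by
        linear_combination (-2 * u ^ 3) * h5
      rw [h6]
      field_simp
    have h1 := hlast hy1.le
    rw [hσy] at h1
    have h2 : -yu L u z - yu L u z = -(2 * yu L u z) := by ring
    rw [h2, Valuation.map_neg, map_mul, hy1, G.two, one_mul] at h1
    exact lt_irrefl _ h1

end

end Pool.Agent.OBT


end

section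

/-!
# OB, block T, module TAU: the number `tau` (helper85), after helper43's `NS/T_TAU.lean`
-/

set_option autoImplicit false

namespace Pool.Agent.OBT

open _root_.MU3 Pool.Agent.MU3A Pool.Agent.MU3B Pool.Agent.RI Pool.Agent.MUX Pool.Agent.MUXU
open OnePoint Pool.Agent.NS Pool.Agent.OB
open Pool.Agent.MUXV (GR InK)
open Pool.Agent.NSE (su ru)
open Pool.Agent.NST (KIn ActT nt_TCJ)
open Pool.Agent.MUXY (ActN Dn)

noncomputable section

namespace TAU

variable {A B : ℤ}

/-- the term of the sum -/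
def T (w : OO A B → ℂ) (L : PeriodPair) (u e Y : ℂ) (x : OO A B) : ℂ :=
  (w x)⁻¹ * ru L u e (emb x * Y)

lemma ru_per (L : PeriodPair) (u e z v : ℂ) (hv : v ∈ L.lattice) :
    ru L u e (z + v) = ru L u e z := by
  have h1 := L.weierstrassP_add_coe z ⟨v, hv⟩
  have h2 := L.derivWeierstrassP_add_coe z ⟨v, hv⟩
  simp only at h1 h2
  unfold ru xu yu
  rw [h1, h2]

end TAU

open _root_.Pool.Agent.OBT.TAU in
theorem o_TAU (h1 : So_BAS) (h2 : So_TRC) (h3 : So_ALT) : So_TAU := by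
  classical
  intro p er A B P V hcase hTor n ι R u e lam hg w hw
  have hcq := hcase.cq
  obtain ⟨hvp, -, hmax, -, -, hnat, -, hnq, hq4, ⟨y, hy1, hy2⟩, -, -⟩ := h1 p er A B P V hcase
  set L := R.L R.i0 with hL
  set om := R.om R.i0 with hom
  have hli : IsLI (R.b R.i0) L om := (R.nl R.i0).toIsLI
  have hmem : ∀ z : ℂ, z ∈ L.lattice ↔ ∃ x : OO A B, z = om * emb x := by
    intro z
    rw [hli.mem z, R.b0]
    simp
  have hom0 : om ≠ 0 := hli.om_ne
  have hp0 : p ≠ 0 := hcase.pp.ne_zero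
  have hpC : (p : ℂ) ≠ 0 := Nat.cast_ne_zero.2 hp0
  have hpO : ((p : ℕ) : OO A B) ≠ 0 := natCast_ne_zero' hcq hp0
  have er0 : er ≠ 0 := by
    rcases hcase.ram with h | h
    · rw [h.1]
      norm_num
    · rw [h.1]
      norm_num
  have hq0' : nI P - 1 ≠ 0 := by omega
  have hqe0 : er * (nI P - 1) ≠ 0 := mul_ne_zero er0 hq0'
  -- facts on the points of order `P`
  obtain ⟨hr8, hrx⟩ := h2 p er A B P V hcase hTor (R.b R.i0) L om u e lam (R.nl R.i0) hg
  have hep : emb ((p : ℕ) : OO A B) = (p : ℂ) := emb_natCast hcq p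
  have hmulY : ∀ x z : OO A B, x * y = (p : OO A B) * z → emb x * (om * emb y / p) = om * emb z := by
    intro x z hxz
    have h5 : emb x * emb y = p * emb z := by
      rw [← emb_mul hcq, hxz, emb_mul hcq, hep]
    rw [mul_div_assoc', div_eq_iff hpC]
    linear_combination om * h5
  have hY0 : om * emb y / p ∈ EP P L := by
    refine ⟨?_, ?_⟩
    · intro x hx
      obtain ⟨z, hz⟩ := hy1 x hx
      rw [hmem]
      exact ⟨z, hmulY x z hz⟩
    · intro hc
      obtain ⟨x, hx⟩ := (hmem _).1 hc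
      apply hy2 x
      apply emb_inj hcq
      rw [emb_mul hcq, hep]
      rw [div_eq_iff hpC] at hx
      apply mul_left_cancel₀ hom0
      linear_combination hx
  set Y := om * emb y / p with hY
  set ρ := ru L u e Y with hρ
  have hvp0 : V.valuation (p : ℂ) ≠ 0 := by
    rw [Ne, map_eq_zero]
    exact hpC
  have hρ8 : V.valuation ρ ^ (er * (nI P - 1)) = V.valuation (p : ℂ) := hr8 Y hY0
  have hρ0 : V.valuation ρ ≠ 0 := by
    intro h0
    rw [h0, zero_pow hqe0] at hρ8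
    exact hvp0 hρ8.symm
  have hρpos : 0 < V.valuation ρ := zero_lt_iff.2 hρ0
  have hw0 : ∀ x, x ∉ P → w x ≠ 0 := by
    intro x hx h0
    have h5 := hw.pow x hx
    rw [h0, zero_pow hq0'] at h5
    exact zero_ne_one h5
  have hwv : ∀ x, x ∉ P → V.valuation (w x) = 1 := by
    intro x hx
    have h5 := congrArg V.valuation (hw.pow x hx)
    rw [map_pow, map_one] at h5
    exact (pow_eq_one_iff.1 h5).resolve_right hq0'
  have hwc : ∀ x, V.valuation (w x - emb x) < 1 := by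
    intro x
    by_contra hc
    rw [not_lt] at hc
    exact absurd ((one_le_pow₀ hc).trans (hw.cong x)) (not_le.2 hvp)
  -- the terms are periodic
  have hTper : ∀ x x' : OO A B, x - x' ∈ P → T w L u e Y x = T w L u e Y x' := by
    intro x x' hxy
    have hwxy := hw.per x x' hxy
    unfold T
    rw [hwxy]
    congr 1
    have h5 : emb x * Y = emb x' * Y + emb (x - x') * Y := by
      rw [emb_sub hcq]
      ring
    rw [h5]
    exact ru_per L u e _ _ (hY0.1 _ hxy)
  -- the quotient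
  have hne : P ≠ ⊥ := by
    intro h0
    have h5 := hcase.mem
    rw [h0, Ideal.mem_bot] at h5
    exact hpO h5
  have hfin : Finite (OO A B ⧸ P) := MUX.finite_quot hcq hne
  have hfq : Fintype (OO A B ⧸ P) := Fintype.ofFinite _
  have hcard : Fintype.card (OO A B ⧸ P) = nI P := by
    rw [← Nat.card_eq_fintype_card]
    rfl
  have hout : ∀ q : OO A B ⧸ P, Ideal.Quotient.mk P (Quotient.out q) = q := fun q =>
    Ideal.Quotient.mk_out q
  have hq0 : ∀ q : OO A B ⧸ P, q ≠ 0 → (Quotient.out q : OO A B) ∉ P := by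
    intro q hq h0
    apply hq
    rw [← hout q]
    exact Ideal.Quotient.eq_zero_iff_mem.2 h0
  have hT0 : T w L u e Y (Quotient.out (0 : OO A B ⧸ P)) = 0 := by
    have h0 : (Quotient.out (0 : OO A B ⧸ P) : OO A B) ∈ P := by
      rw [← Ideal.Quotient.eq_zero_iff_mem, hout]
    unfold T
    rw [hw.zero _ h0]
    simp
  refine ⟨∑ q : OO A B ⧸ P, T w L u e Y (Quotient.out q), ?_, ?_, ?_⟩
  · -- the valuation
    have h8 : V.valuation ((nI P - 1 : ℕ) : ℂ) = 1 := hnat (nI P - 1) hnq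
    have hsum : ∑ q : OO A B ⧸ P, T w L u e Y (Quotient.out q) =
        ((nI P - 1 : ℕ) : ℂ) * ρ + ∑ q ∈ Finset.univ.erase (0 : OO A B ⧸ P),
          (T w L u e Y (Quotient.out q) - ρ) := by
      rw [Finset.sum_sub_distrib, Finset.sum_const, Finset.card_erase_of_mem (Finset.mem_univ _),
        Finset.card_univ, hcard, ← Finset.add_sum_erase _ _ (Finset.mem_univ 0), hT0, nsmul_eq_mul]
      ring
    have hlt : V.valuation (∑ q ∈ Finset.univ.erase (0 : OO A B ⧸ P),
        (T w L u e Y (Quotient.out q) - ρ)) < V.valuation ρ := by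
      apply Valuation.map_sum_lt _ hρ0
      intro q hq
      have hq' : (Quotient.out q : OO A B) ∉ P := hq0 q (Finset.ne_of_mem_erase hq)
      generalize (Quotient.out q : OO A B) = x at hq'
      have h5 : T w L u e Y x - ρ = (w x)⁻¹ * (ru L u e (emb x * Y) - emb x * ρ) +
          (w x)⁻¹ * (-(w x - emb x)) * ρ := by
        unfold T
        have := hw0 x hq'
        field_simp
        ring
      rw [h5]
      apply Valuation.map_add_lt
      · rw [map_mul, map_inv₀, hwv x hq', inv_one, one_mul]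
        exact (hrx x hq' Y hY0).2
      · rw [map_mul, map_mul, map_inv₀, hwv x hq', inv_one, one_mul, Valuation.map_neg]
        calc V.valuation (w x - emb x) * V.valuation ρ
            < 1 * V.valuation ρ := mul_lt_mul_of_pos_right (hwc x) hρpos
          _ = V.valuation ρ := one_mul _
    have h9 : V.valuation (((nI P - 1 : ℕ) : ℂ) * ρ) = V.valuation ρ := by
      rw [map_mul, h8, one_mul]
    rw [hsum, Valuation.map_add_eq_of_lt_left _ (by rw [h9]; exact hlt), h9, hρ8]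
  · -- algebraic
    obtain ⟨-, -, -, -, halg⟩ := h3 A B hcq hTor V (R.b R.i0) L om (R.nl R.i0) u e lam hg
    rw [isAlgebraic_iff_isIntegral]
    apply IsIntegral.sum
    intro q _
    rw [← isAlgebraic_iff_isIntegral]
    by_cases hq : q = 0
    · rw [hq, hT0]
      exact isAlgebraic_zero
    · have hx := hq0 q hq
      generalize (Quotient.out q : OO A B) = x at hx
      unfold T
      have hE := (hrx x hx Y hY0).1
      apply IsAlgebraic.mul
      · apply IsAlgebraic.inv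
        rw [isAlgebraic_iff_isIntegral]
        apply IsIntegral.of_pow (n := nI P - 1) (Nat.pos_of_ne_zero hq0')
        rw [hw.pow x hx]
        exact isIntegral_one
      · refine (halg p hp0 _ hE.2 ?_).2.2
        rw [← hep]
        exact hE.1 _ hcase.mem
  · -- conjugation
    intro m hm σ c d hact hc hσu hσe hσw
    obtain ⟨k, rfl⟩ := hm
    have hc0 := hw0 c hc
    have hterm : ∀ x : OO A B, σ (T w L u e Y x) = w c * T w L u e Y (c * x) := by
      intro x
      by_cases hx : x ∈ P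
      · unfold T
        rw [hw.zero x hx, hw.zero (c * x) (Ideal.mul_mem_left _ c hx)]
        simp
      · have hE := (hrx x hx Y hY0).1
        have h5 := (nt_TCJ A B n ι R (p * k) σ c d hact u e hg.u0 hσu hσe (emb x * Y) (by
          have h6 : ((p * k : ℕ) : ℂ) * (emb x * Y) =
              (k : ℕ) • (emb ((p : ℕ) : OO A B) * (emb x * Y)) := by
            rw [nsmul_eq_mul, hep]
            push_cast
            ring
          rw [h6]
          exact nsmul_mem (hE.1 _ hcase.mem) k) hE.2).2.2.2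
        unfold T
        rw [map_mul, map_inv₀, hσw, h5, hw.mul, emb_mul hcq]
        have := hw0 x hx
        rw [← hL]
        have e6 : emb c * (emb x * Y) = emb c * emb x * Y := by ring
        rw [e6]
        field_simp
    rw [map_sum]
    simp_rw [hterm]
    rw [← Finset.mul_sum]
    congr 1
    have hprime : P.IsPrime := hcase.prime
    have hdom : IsDomain (OO A B ⧸ P) := Ideal.Quotient.isDomain _
    set cb := Ideal.Quotient.mk P c with hcb
    have hcb0 : cb ≠ 0 := fun h => hc (Ideal.Quotient.eq_zero_iff_mem.1 h)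
    have hbij : Function.Bijective (fun q : OO A B ⧸ P => cb * q) := by
      rw [← Finite.injective_iff_bijective]
      intro a b hab
      exact mul_left_cancel₀ hcb0 hab
    rw [← Function.Bijective.sum_comp hbij (fun q => T w L u e Y (Quotient.out q))]
    apply Finset.sum_congr rfl
    intro q _
    apply hTper
    rw [← Ideal.Quotient.eq, map_mul, hout, hout]

end

end Pool.Agent.OBT


end

section

/-!
# OB, block T, module TRC: the points of `L[P]` (helper59), from block E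
-/

set_option autoImplicit false

open Polynomial

namespace Pool.Agent.OBT

open _root_.MU3 Pool.Agent.MU3A Pool.Agent.MU3B Pool.Agent.RI Pool.Agent.MUX Pool.Agent.MUXU
open Pool.Agent.MUXE Pool.Agent.NS Pool.Agent.OB Pool.Agent.OBE
open Pool.Agent.MUXV (GR InK)
open Pool.Agent.NSE (su ru IntP)

noncomputable section

namespace TRC

variable {V : ValuationSubring ℂ}

/-- a polynomial over `V` at a point of the maximal ideal -/
lemma eval_near {P : ℂ[X]} (hP : IntP V P) {s : ℂ} (hs : V.valuation s < 1) :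
    V.valuation (P.eval s - P.coeff 0) ≤ V.valuation s := by
  have h1 : P.eval s - P.coeff 0 = s * P.divX.eval s := by
    conv_lhs => rw [← Polynomial.divX_mul_X_add P]
    simp
    ring
  rw [h1, map_mul]
  have h2 : V.valuation (P.divX.eval s) ≤ 1 := by
    rw [Polynomial.eval_eq_sum_range]
    refine Valuation.map_sum_le _ fun i _ => ?_
    rw [map_mul, map_pow, Polynomial.coeff_divX]
    exact mul_le_one' (hP _) (pow_le_one₀ zero_le hs.le)
  calc V.valuation s * V.valuation (P.divX.eval s) ≤ V.valuation s * 1 := by gcongr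
    _ = V.valuation s := mul_one _

end TRC

open _root_.Pool.Agent.OBT.TRC in
/-- (TRC) -/
theorem o_TRC (hR : O_RFIN) (hX : Sb_CTX) (hA : Sb_ALG) (h1 : Sb_PVL) (h2 : Sb_PIS)
    (h3 : Sb_PTS) (h4 : Sb_ISO) : So_TRC := by
  intro p er A B P V hC hT b L om u e lam hL hg
  obtain ⟨al, hx⟩ := hX p er A B P V hC hT hR
  have hNL : NL A B L := ⟨b, om, hL⟩
  obtain ⟨t1, t2, t3, -, -, -, -, -, -⟩ := te_TRA A B hx.ring L hNL
  obtain ⟨N, nu, hN, hq⟩ := hx.exq L hNL
  obtain ⟨u', e', lam', hg'⟩ := hx.good N hN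
  obtain ⟨-, -, hpis⟩ := h2 p er A B P V al hx L N nu u e lam u' e' lam' hNL hN hq hg hg'
  obtain ⟨hpt, hpts, hper⟩ := h3 p er A B P V al hx L u e lam hNL hg
  have hsub : ∀ Y ∈ EP P L, Y ∈ SP P er L := by
    intro Y hY
    refine ⟨fun x hxP => hY.1 x ?_, hY.2⟩
    exact Ideal.pow_le_self (by have := hx.er1; omega) hxP
  have hq2 : 2 ≤ nI P - 1 := by have := hx.n3; omega
  have hsr : ∀ Y ∈ EP P L, V.valuation (ru L u e Y) ^ 2 = V.valuation (su L u e Y) := by
    intro Y hY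
    obtain ⟨hs0, hs1⟩ := hpt.vs Y (hsub Y hY)
    have h5 := hpt.eq Y (hsub Y hY)
    rw [← map_pow, h5, map_mul]
    have h6 : V.valuation (1 + -(1 + lam) * su L u e Y + lam * su L u e Y ^ 2) = 1 := by
      have h7 : 1 + -(1 + lam) * su L u e Y + lam * su L u e Y ^ 2 =
          1 + su L u e Y * (-(1 + lam) + lam * su L u e Y) := by ring
      rw [h7]
      apply Valuation.map_one_add_of_lt
      rw [map_mul]
      have h8 : V.valuation (-(1 + lam) + lam * su L u e Y) ≤ 1 := by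
        refine Valuation.map_add_le _ hpt.i2 ?_
        rw [map_mul]
        exact mul_le_one' hpt.i4 hs1.le
      calc V.valuation (su L u e Y) * V.valuation (-(1 + lam) + lam * su L u e Y)
          ≤ V.valuation (su L u e Y) * 1 := by gcongr
        _ = V.valuation (su L u e Y) := mul_one _
        _ < 1 := hs1
    rw [h6, mul_one]
  have hval : ∀ Y ∈ EP P L, V.valuation (ru L u e Y) ^ (er * (nI P - 1)) =
      V.valuation (p : ℂ) := by
    intro Y hY
    obtain ⟨-, -, h5⟩ := hpis Y hY.1 hY.2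
    rw [← hsr Y hY, ← pow_mul, mul_comm 2, pow_mul] at h5
    have h6 : V.valuation (ru L u e Y) ^ (nI P - 1) = V.valuation (emb al) :=
        (pow_left_inj₀ zero_le zero_le two_ne_zero).1 h5
    rw [mul_comm, pow_mul, h6, hx.alv]
  refine ⟨hval, fun x hxP Y hY => ?_⟩
  obtain ⟨p1, p2, -⟩ := h1 p er A B P V al hx L u e lam hNL hg
  obtain ⟨hk, hk'⟩ := p1 x hxP
  obtain ⟨hInK, hx0⟩ := hpts Y (hsub Y hY)
  have hEP : emb x * Y ∈ EP P L := ⟨t3 P x Y hY.1, (hk' Y hInK hY.2).1⟩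
  refine ⟨hEP, ?_⟩
  have hv := hval Y hY
  have hvp : V.valuation (p : ℂ) < 1 := hx.vp
  have hvp0 : V.valuation (p : ℂ) ≠ 0 := by
    rw [Ne, map_eq_zero]
    exact_mod_cast hx.pp.ne_zero
  set ρ := V.valuation (ru L u e Y) with hρ
  have hn2 : 2 ≤ er * (nI P - 1) := by
    calc 2 ≤ 1 * (nI P - 1) := by omega
      _ ≤ er * (nI P - 1) := Nat.mul_le_mul_right _ hx.er1
  have hρ0 : ρ ≠ 0 := by
    intro h0
    rw [h0, zero_pow (by omega)] at hv
    exact hvp0 hv.symm
  have hρpos : 0 < ρ := zero_lt_iff.2 hρ0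
  have hρ1 : ρ < 1 := by
    by_contra hc
    rw [not_lt] at hc
    exact absurd (one_le_pow₀ hc (n := er * (nI P - 1))) (by rw [hv]; exact not_le.2 hvp)
  have hpρ : V.valuation (p : ℂ) < ρ := by
    rw [← hv]
    exact pow_lt_self_of_lt_one₀ hρpos hρ1 (by omega)
  have hsρ : V.valuation (su L u e Y) < ρ := by
    rw [← hsr Y hY]
    exact pow_lt_self_of_lt_one₀ hρpos hρ1 (by omega)
  -- the representation of the difference
  have hemb0 : emb x ≠ 0 := by
    intro h0
    have h5 := hx.unit x hxP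
    rw [h0, map_zero] at h5
    exact zero_ne_one h5
  obtain ⟨-, -, hiso⟩ := h4 p er A B P V al hx L L u e lam u e lam (emb x) hNL hNL hg hg hemb0
    (fun w hw => t1 x w hw) hk
  obtain ⟨a1, -, a3, a4, a5, a6, -, -, -⟩ := hA p V _ _ _ _ _ hpt
  have hc := a1 (-emb x) (by rw [Valuation.map_neg]; exact hx.int x)
  have hd := a6 _ _ _ _ _ _ hc a3
  have hf := a5 _ _ _ _ _ _ hiso hd
  obtain ⟨Pl, Q, hPl, hQ, hFY, hP0, hQ0⟩ := hf
  have hF := hFY Y (hsub Y hY)
  have hmu : emb x * u / u = emb x := by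
    field_simp [hg.u0]
  have e1 : ru L u e (emb x * Y) - emb x * ru L u e Y =
      Pl.eval (su L u e Y) + ru L u e Y * Q.eval (su L u e Y) := by
    rw [← hF]
    ring
  have hs1 := (hpt.vs Y (hsub Y hY)).2
  have n1 := eval_near hPl hs1
  have n2 := eval_near hQ hs1
  have hP0' : V.valuation (Pl.coeff 0) ≤ V.valuation (p : ℂ) := by
    have : Pl.coeff 0 = Pl.coeff 0 - (0 + -emb x * 0) := by ring
    rw [this]
    exact hP0
  have hQ0' : V.valuation (Q.coeff 0) ≤ V.valuation (p : ℂ) := by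
    have : Q.coeff 0 = Q.coeff 0 - (emb x * u / u + (-emb x * 1 + 0 * 0)) := by
      rw [hmu]
      ring
    rw [this]
    exact hQ0
  rw [e1]
  apply Valuation.map_add_lt
  · have : Pl.eval (su L u e Y) = (Pl.eval (su L u e Y) - Pl.coeff 0) + Pl.coeff 0 := by ring
    rw [this]
    exact Valuation.map_add_lt _ (lt_of_le_of_lt n1 hsρ) (lt_of_le_of_lt hP0' hpρ)
  · have h9 : V.valuation (Q.eval (su L u e Y)) < 1 := by
      have : Q.eval (su L u e Y) = (Q.eval (su L u e Y) - Q.coeff 0) + Q.coeff 0 := by ring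
      rw [this]
      exact Valuation.map_add_lt _ (lt_of_le_of_lt n2 hs1) (lt_of_le_of_lt hQ0' hvp)
    rw [map_mul]
    calc V.valuation (ru L u e Y) * V.valuation (Q.eval (su L u e Y)) < ρ * 1 :=
          mul_lt_mul_of_pos_left h9 hρpos
      _ = ρ := mul_one _

end

end Pool.Agent.OBT


end

section

/-!
# OB, block T, module UNF: the inertia field has values in `(1/er) ℤ`
-/

set_option autoImplicit false

open NumberField IsDedekindDomain

namespace Pool.Agent.OBT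

open _root_.MU3 Pool.Agent.MU3A Pool.Agent.MU3B Pool.Agent.RI Pool.Agent.MUX Pool.Agent.MUXU
open OnePoint Pool.Agent.NS Pool.Agent.OB
open Pool.Agent.MUXV (GR InK)
open Pool.Agent.NSE (su ru)
open Pool.Agent.NST (KIn ActT)
open Pool.Agent.MUXY (ActN Dn)

noncomputable section

namespace UNF

/-- `p` is not in `P ^ (er + 1)` -/
lemma not_mem {p er : ℕ} {A B : ℤ} {P : Ideal (OO A B)} {V : ValuationSubring ℂ}
    (hc : CaseO p er A B P V) (hded : IsDedekindDomain (OO A B)) (hp0 : ((p : ℕ) : OO A B) ≠ 0)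
    (hco : IsCoprime (Pc P) P) (hid : idl (A := A) (B := B) p = Pc P * P ^ er) :
    ((p : ℕ) : OO A B) ∉ P ^ (er + 1) := by
  intro h
  have hP0 : P ≠ ⊥ := by
    intro h0
    have h1 := hc.mem
    rw [h0, Ideal.mem_bot] at h1
    exact hp0 h1
  have h1 : idl (A := A) (B := B) p ≤ P ^ (er + 1) := by
    rw [idl, Ideal.span_singleton_le_iff_mem]
    exact h
  rw [hid, ← Ideal.dvd_iff_le, pow_succ'] at h1
  have h2 : P ∣ Pc P := (mul_dvd_mul_iff_right (pow_ne_zero er hP0)).1 h1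
  exact hc.not_le hco (Ideal.dvd_iff_le.1 h2)

end UNF

open Pool.Agent.NST.UNF Pool.Agent.MU3E.RAM in
theorem o_UNF (hBAS : So_BAS) : So_UNF := by
  intro p er A B P V hc F _ _ y hyK hy1
  have hcq : CQ A B := hc.cq
  obtain ⟨hvp1, -, -, -, -, -, -, -, -, -, hco, hid⟩ := hBAS p er A B P V hc
  obtain ⟨⟨φ, hφ⟩, hinj, hded, hpos, hint⟩ := Pool.Agent.MUXE.te_RNG A B hcq
  have hpp : p ≠ 0 := hc.pp.ne_zero
  have hpO : emb ((p : ℕ) : OO A B) = (p : ℂ) := by rw [← hφ, map_natCast]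
  have hpO0 : ((p : ℕ) : OO A B) ≠ 0 := by
    intro h
    have h1 : emb ((p : ℕ) : OO A B) = 0 := by rw [h, ← hφ, map_zero]
    rw [hpO] at h1
    exact hpp (by exact_mod_cast h1)
  have hw0 : IsIntegral ℤ (wC A B) := by
    rw [hint _ (wC_mem A B)]
    exact ⟨⟨0, 1⟩, by simp [emb]⟩
  have hfd : FiniteDimensional ℚ (kk A B) :=
    IntermediateField.adjoin.finiteDimensional hw0.tower_top
  have hk : NumberField (kk A B) := ⟨⟩
  have hFQ : FiniteDimensional ℚ F := FiniteDimensional.trans ℚ (kk A B) F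
  have hF : NumberField F := ⟨⟩
  have hv : ∀ x : OO A B, V.valuation (emb x) < 1 ↔ x ∈ P := by
    intro x
    rw [← ValuationSubring.mem_nonunits_iff, hc.hV x]
  obtain ⟨w, hw⟩ := exists_prime (V := V) (algebraMap F ℂ) (z := ((p : ℕ) : 𝓞 F))
    (by exact_mod_cast hpp) (by
    have h2 : (algebraMap F ℂ) ((((p : ℕ) : 𝓞 F)) : F) = (p : ℂ) := by
      have h1 : (((p : ℕ) : 𝓞 F) : F) = (p : F) := map_natCast (algebraMap (𝓞 F) F) p
      rw [h1, map_natCast]
    rw [h2]
    exact hvp1)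
  -- the isomorphism `O ≅ 𝓞 k`
  have hI : ∀ z : OO A B, IsIntegral ℤ (ek z) := by
    intro z
    have h2 : IsIntegral ℤ (emb z) := (hint (emb z) (Pool.Agent.MU3A.emb_mem z)).mpr ⟨z, rfl⟩
    have h3 : algebraMap (kk A B) ℂ (ek z) = emb z := rfl
    rw [← h3] at h2
    exact (isIntegral_algebraMap_iff (FaithfulSMul.algebraMap_injective (kk A B) ℂ)).mp h2
  let ψ : OO A B →+* 𝓞 (kk A B) :=
    { toFun := fun z => ⟨ek z, hI z⟩
      map_one' := by
        apply RingOfIntegers.ext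
        apply Subtype.ext
        change emb (1 : OO A B) = 1
        rw [← hφ, map_one]
      map_zero' := by
        apply RingOfIntegers.ext
        apply Subtype.ext
        change emb (0 : OO A B) = 0
        rw [← hφ, map_zero]
      map_mul' := fun a b => by
        apply RingOfIntegers.ext
        apply Subtype.ext
        change emb (a * b) = emb a * emb b
        rw [← hφ, map_mul, hφ, hφ]
      map_add' := fun a b => by
        apply RingOfIntegers.ext
        apply Subtype.ext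
        change emb (a + b) = emb a + emb b
        rw [← hφ, map_add, hφ, hφ] }
  have hψ : ∀ z : OO A B, (((ψ z : 𝓞 (kk A B)) : kk A B) : ℂ) = emb z := fun z => rfl
  have hψi : Function.Injective ψ := by
    intro a b hab
    have h2 : emb a = emb b := by rw [← hψ, ← hψ, hab]
    have h3 : emb (a - b) = 0 := by
      rw [← hφ, map_sub, hφ, hφ, h2, sub_self]
    exact sub_eq_zero.1 (hinj _ h3)
  have hψs : Function.Surjective ψ := by
    intro x
    have h2 : IsIntegral ℤ ((x : kk A B) : ℂ) :=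
      (RingOfIntegers.isIntegral_coe x).map (Algebra.ofId (kk A B) ℂ |>.restrictScalars ℤ)
    obtain ⟨z, hz⟩ := (hint _ (x : kk A B).2).mp h2
    refine ⟨z, ?_⟩
    apply RingOfIntegers.ext
    apply Subtype.ext
    rw [hψ, hz]
  let ε : OO A B ≃+* 𝓞 (kk A B) := RingEquiv.ofBijective ψ ⟨hψi, hψs⟩
  have hε : ∀ z : OO A B, ε z = ψ z := fun z => rfl
  set K₁ : IntermediateField (kk A B) F :=
    IntermediateField.fixedField (w.asIdeal.inertia (F ≃ₐ[kk A B] F)) with hK₁
  have hK₁Q : FiniteDimensional ℚ K₁ := FiniteDimensional.trans ℚ (kk A B) K₁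
  have hK₁n : NumberField K₁ := ⟨⟩
  have hcard := card_fixed w K₁ hK₁
  obtain ⟨v, hvp, hvv⟩ := val_card (k := kk A B) w
  obtain ⟨v₁, -, hvv₁⟩ := val_card (k := K₁) w
  rw [hcard] at hvv₁
  set e := Nat.card (w.asIdeal.inertia (F ≃ₐ[kk A B] F)) with he
  have hmem : ∀ z : OO A B, ε z ∈ v.asIdeal ↔ z ∈ P := by
    intro z
    rw [hvp, ← hv z]
    exact hw (algebraMap (𝓞 (kk A B)) (𝓞 F) (ψ z))
  have hmap : Ideal.map ε P = v.asIdeal := by
    ext x
    obtain ⟨z, rfl⟩ := ε.surjective x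
    rw [hmem, Ideal.mem_map_of_equiv]
    constructor
    · rintro ⟨z', hz', h⟩
      rwa [← ε.injective h]
    · intro hz
      exact ⟨z, hz, rfl⟩
  have hnot : ε ((p : ℕ) : OO A B) ∉ v.asIdeal ^ (er + 1) := by
    rw [← hmap, ← Ideal.map_pow, Ideal.mem_map_of_equiv]
    rintro ⟨z', hz', h⟩
    exact UNF.not_mem hc hded hpO0 hco hid (by rwa [← ε.injective h])
  have hδ : WithZero.exp (-1 : ℤ) ^ er ≤ v.intValuation (ε ((p : ℕ) : OO A B)) := by
    have h2 : ¬ v.intValuation (ε ((p : ℕ) : OO A B)) ≤ WithZero.exp (-((er + 1 : ℕ) : ℤ)) := by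
      rw [v.intValuation_le_pow_iff_mem]
      exact hnot
    rw [not_le] at h2
    have h0 : v.intValuation (ε ((p : ℕ) : OO A B)) ≠ 0 := (lt_of_le_of_lt zero_le h2).ne'
    rw [← WithZero.exp_log h0] at h2 ⊢
    rw [WithZero.exp_lt_exp] at h2
    rw [← WithZero.exp_nsmul, WithZero.exp_le_exp]
    push_cast at h2
    simp only [nsmul_eq_mul]
    linarith
  have hval3 : (WithZero.exp (-1 : ℤ) ^ er) ^ e ≤ w.valuation F (p : F) := by
    have h1 := hvv ((p : ℕ) : kk A B)
    rw [map_natCast] at h1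
    rw [h1]
    apply pow_le_pow_left₀ zero_le
    have h2 : (algebraMap (𝓞 (kk A B)) (kk A B)) ((p : ℕ) : 𝓞 (kk A B)) = (p : kk A B) :=
      map_natCast _ p
    rw [← h2, HeightOneSpectrum.valuation_of_algebraMap]
    have h3 : ε ((p : ℕ) : OO A B) = ((p : ℕ) : 𝓞 (kk A B)) := map_natCast ε p
    rw [← h3]
    exact hδ
  -- the element `y` is in `K₁`
  have hyF : y ∈ F := hyK.1
  have hyK₁ : (⟨y, hyF⟩ : F) ∈ K₁ := by
    rw [hK₁, IntermediateField.mem_fixedField_iff]
    intro σ hσ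
    obtain ⟨s, hs⟩ := tu_AUE (F.restrictScalars ℚ) (by
      have h1 : Algebra.IsAlgebraic ℚ F := inferInstance
      exact h1) ((algebraMap F ℂ).comp (σ : F →+* F))
    have hs' : ∀ x : F, s (x : ℂ) = ((σ x : F) : ℂ) := hs
    have hI : InI A B V (F : Set ℂ) s := by
      refine ⟨?_, ?_, ?_⟩
      · have h1 := hs' (algebraMap (kk A B) F ⟨wC A B, wC_mem A B⟩)
        rw [σ.commutes] at h1
        exact h1
      · intro x hx
        rw [hs' ⟨x, hx⟩]
        exact (σ ⟨x, hx⟩).2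
      · intro x hx hxV
        rw [ValuationSubring.mem_nonunits_iff, hs' ⟨x, hx⟩]
        exact inertia_lt (algebraMap F ℂ) hw hσ (x := ⟨x, hx⟩)
          ((V.valuation_le_one_iff _).2 hxV)
    apply Subtype.ext
    rw [← hs']
    exact hyK.2 s hI
  have h1 := hvv₁ ⟨⟨y, hyF⟩, hyK₁⟩
  have h2 : w.valuation F (⟨y, hyF⟩ : F) < 1 := by
    refine lt_of_le_of_ne (le_ord (algebraMap F ℂ) hw hy1.le) ?_
    intro h
    have h3 := ord_one (algebraMap F ℂ) hw h
    exact absurd h3 hy1.ne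
  have h3 : w.valuation F (⟨y, hyF⟩ : F) ^ er ≤ w.valuation F (p : F) := by
    have h4 : (algebraMap K₁ F) ⟨⟨y, hyF⟩, hyK₁⟩ = (⟨y, hyF⟩ : F) := rfl
    rw [h4] at h1
    rw [h1] at h2 ⊢
    refine le_trans ?_ hval3
    rw [← pow_mul, mul_comm e er, pow_mul]
    apply pow_le_pow_left₀ zero_le
    apply pow_le_pow_left₀ zero_le
    have h5 : v₁.valuation K₁ ⟨⟨y, hyF⟩, hyK₁⟩ < 1 := by
      by_contra h6
      push Not at h6
      exact absurd h2 (not_lt.2 (one_le_pow₀ h6))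
    by_cases h0 : v₁.valuation K₁ ⟨⟨y, hyF⟩, hyK₁⟩ = 0
    · rw [h0]
      exact zero_le
    · rw [← WithZero.exp_log h0] at h5 ⊢
      rw [← WithZero.exp_zero, WithZero.exp_lt_exp] at h5
      rw [WithZero.exp_le_exp]
      omega
  have hpF : (p : F) ≠ 0 := by exact_mod_cast hpp
  have h4 : w.valuation F ((⟨y, hyF⟩ : F) ^ er / (p : F)) ≤ 1 := by
    rw [map_div₀, map_pow]
    have h30 : w.valuation F (p : F) ≠ 0 := (map_ne_zero _).2 hpF
    exact (div_le_one₀ (zero_lt_iff.2 h30)).2 h3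
  have h5 := ord_le (algebraMap F ℂ) hw h4
  rw [map_div₀, map_div₀, map_natCast, map_pow, map_pow] at h5
  have h30 : V.valuation (p : ℂ) ≠ 0 := (map_ne_zero _).2 (by exact_mod_cast hpp)
  exact (div_le_one₀ (zero_lt_iff.2 h30)).1 h5

end

end Pool.Agent.OBT


end

section

/-!
# OBT, module VAK: conjugation of the values of `PhiK/(u om_0)`, after `NS/T_VAK.lean`
-/

set_option autoImplicit false

namespace Pool.Agent.OBT

open _root_.MU3 Pool.Agent.MU3A Pool.Agent.MU3B Pool.Agent.RI Pool.Agent.MUX Pool.Agent.MUXU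
open OnePoint Pool.Agent.NS Pool.Agent.OB
open Pool.Agent.MUXV (GR InK)
open Pool.Agent.NSE (su ru)
open Pool.Agent.NST (KIn ActT)
open Pool.Agent.MUXY (ActN Dn)

noncomputable section

theorem o_VAK (h1 : So_SGM) (h2 : So_VAL) : So_VAK := by
  intro A B hQ n hn ι _ R e he m f hm hnm hfn hf σ c d hc hT hσ kk hkk u hu hσu x y hx hy
  have hsq : ∀ i, ((d i : ℤ) : ℂ) * ((d i : ℤ) : ℂ) = 1 := by
    intro i
    rcases hT.sgn i with hd | hd <;> rw [hd] <;> norm_num
  have hd0 : ∀ i, ((d i : ℤ) : ℂ) ≠ 0 := fun i h0 => by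
    have := hsq i
    rw [h0, zero_mul] at this
    exact zero_ne_one this
  have hom0 : R.om R.i0 ≠ 0 := (R.nl R.i0).om_ne
  have key : ∀ i, e c * σ (kk i * PhiI (R.b i) e x y / (u * R.om R.i0)) =
      kk i * PhiI (R.b i) e x y / (u * R.om R.i0) := by
    intro i
    have homi : R.om i ≠ 0 := (R.nl i).om_ne
    have hn0 : ((nI (R.b i) : ℕ) : ℂ) ≠ 0 :=
      Nat.cast_ne_zero.2 (Pool.Agent.MUX.nI_ne_zero hQ (R.nl i).b_ne)
    have e1 : kk i * PhiI (R.b i) e x y / (u * R.om R.i0) =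
        kk i * (PhiI (R.b i) e x y / R.om i) * muX R i / (nI (R.b i) * u) := by
      rw [muX]
      field_simp
    have e2 := h1 A B hQ n ι R m f hm (hfn.trans hnm) hf hfn σ c d hc hT i
    have e3 := h2 A B hQ n hn ι R e he m hm hnm σ c d hT hσ i x y hx hy
    rw [e1, map_div₀, map_mul, map_mul, map_mul, hkk, e2, map_natCast, hσu]
    have e4 : e c * (kk i * σ (PhiI (R.b i) e x y / R.om i) *
        (d R.i0 * d i * muX R i) / (nI (R.b i) * (d R.i0 * u))) =
        kk i * (e c * σ (PhiI (R.b i) e x y / R.om i)) *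
        (d i * muX R i) / (nI (R.b i) * u) := by
      field_simp [hd0 R.i0]
    rw [e4, e3]
    have e5 : kk i * (d i * (PhiI (R.b i) e x y / R.om i)) * (d i * muX R i) =
        (d i * d i : ℂ) * (kk i * (PhiI (R.b i) e x y / R.om i) * muX R i) := by ring
    rw [e5, hsq i, one_mul]
  rw [PhiK, Finset.sum_div, map_sum, Finset.mul_sum]
  exact Finset.sum_congr rfl fun i _ => key i

end

end Pool.Agent.OBT


end

section

/-!
# OB, block T, module VAL: conjugation of the values (after `NS/T_VAL.lean`)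
-/

set_option autoImplicit false

namespace Pool.Agent.OBT

open _root_.MU3 Pool.Agent.MU3A Pool.Agent.MU3B Pool.Agent.RI Pool.Agent.MUX Pool.Agent.MUXU
open OnePoint Pool.Agent.NS Pool.Agent.OB
open Pool.Agent.MUXV (GR InK)
open Pool.Agent.NSE (su ru)
open Pool.Agent.NST (KIn ActT)
open Pool.Agent.MUXY (ActN Dn)

noncomputable section

namespace VAL

variable {A B : ℤ}

lemma phi_infty (b : Ideal (OO A B)) (e : OO A B → ℂ) : MUX.PhiI b e ∞ ∞ = 0 := by
  unfold MUX.PhiI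
  exact sub_self _

lemma phi_sub (b : Ideal (OO A B)) (e : OO A B → ℂ) (x y : OnePoint ℚ) :
    MUX.PhiI b e x y = MUX.PhiI b e ∞ y - MUX.PhiI b e ∞ x := by
  unfold MUX.PhiI
  ring

lemma idl_ne_top {n : ℕ} (hn : n ≠ 1) : (idl (A := A) (B := B) n) ≠ ⊤ := by
  intro h
  have h1 : (1 : OO A B) ∈ idl (A := A) (B := B) n := by
    rw [h]
    exact Submodule.mem_top
  obtain ⟨y, hy⟩ := Ideal.mem_span_singleton'.1 h1
  have h2 := congrArg QuadraticAlgebra.re hy
  simp only [QuadraticAlgebra.re_mul, QuadraticAlgebra.re_natCast, QuadraticAlgebra.im_natCast,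
    QuadraticAlgebra.re_one, mul_zero, add_zero] at h2
  have h3 : (n : ℤ) ∣ ((1 : ℕ) : ℤ) := ⟨y.re, by push_cast; linarith⟩
  exact hn (Nat.dvd_one.1 (Int.natCast_dvd_natCast.1 h3))

lemma coprime_idl {k n : ℕ} (h : k.Coprime n) :
    IsCoprime (MUX.sp ((k : ℕ) : OO A B)) (idl (A := A) (B := B) n) := by
  rw [Ideal.isCoprime_span_singleton_iff]
  obtain ⟨a, b, hab⟩ := Nat.isCoprime_iff_coprime.2 h
  refine ⟨(a : OO A B), (b : OO A B), ?_⟩
  exact_mod_cast congrArg (fun t : ℤ => (t : OO A B)) hab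

lemma isF {b : Ideal (OO A B)} (h : CQ A B) (om : ℂ) (c : OO A B) (d : ℤ) :
    MUXY.IsF b b om om (d * emb c) (fun x => (d : OO A B) * c * x) where
  mem := fun x hx => b.mul_mem_left _ hx
  eq := fun x _ => by
    rw [emb_mul h, emb_mul h, emb_intCast h]
    ring
  add := fun x _ y _ => mul_add _ _ _
  sub := fun x _ y _ => mul_sub _ _ _
  smul := fun x _ r => by ring
  nb := fun x _ => by ring

lemma e_sgn {g : Ideal (OO A B)} {e : OO A B → ℂ} (he : IsEI g e) {d : ℤ} (hd : d = 1 ∨ d = -1) :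
    e (d : OO A B) = d := by
  rcases hd with hd | hd
  · rw [hd, Int.cast_one, Int.cast_one, he.one]
  · rw [hd, Int.cast_neg, Int.cast_one, he.neg, Int.cast_neg, Int.cast_one]

end VAL

open _root_.Pool.Agent.OBT.VAL in
theorem o_VAL (h : MUXY.Sy_RA1) : So_VAL := by
  intro A B hQ f hf ι R e he m hm hfm σ c d hT hσ i x y hx hy
  have hcop := R.cop i
  have hn0 : MUX.nI (R.b i) ≠ 0 := by
    intro h0
    rw [h0, Nat.coprime_zero_left] at hcop
    omega
  have hnC : ((MUX.nI (R.b i) : ℕ) : ℂ) ≠ 0 := Nat.cast_ne_zero.2 hn0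
  have hen : e ((MUX.nI (R.b i) : ℕ) : OO A B) ≠ 0 := (he.supp _).2 (coprime_idl hcop)
  have hg : (idl (A := A) (B := B) f) ≠ ⊤ := idl_ne_top (by omega)
  have hmg : ((m : ℕ) : OO A B) ∈ idl (A := A) (B := B) f :=
    Ideal.mem_span_singleton.2 (Nat.cast_dvd_cast hfm)
  have hd := hT.sgn i
  have hd2 : ((d i : ℤ) : ℂ) * ((d i : ℤ) : ℂ) = 1 := by
    rcases hd with hd | hd <;> rw [hd] <;> norm_num
  have hfe : (fun x => σ (e x)) = e := funext hσ
  have key : ∀ x : OnePoint ℚ, Dn m x →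
      e c * σ (MUX.PhiI (R.b i) e ∞ x / R.om i) = d i * (MUX.PhiI (R.b i) e ∞ x / R.om i) := by
    intro x hx
    induction x using OnePoint.rec with
    | infty => rw [phi_infty, zero_div, map_zero, mul_zero, mul_zero]
    | coe r =>
      have h1 := h A B (MUXY.cqF hQ) σ m (MUX.sp c) (R.b i) (R.b i) (R.L i) (R.L i) (R.om i)
        (R.om i) (d i * emb c) (fun x => ((d i : ℤ) : OO A B) * c * x)
        (MUXY.liF (R.nl i).toIsLI) (MUXY.liF (R.nl i).toIsLI) (hT.act i) (isF hQ _ _ _)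
        hT.zeta (idl (A := A) (B := B) f) e (MUXY.eiF he) hg hm hmg r.den r.den_nz
        (hx r rfl) r.num
      rw [Rat.num_div_den, hfe, hσ, hσ] at h1
      have h2 : e (((d i : ℤ) : OO A B) * c * ((MUX.nI (R.b i) : ℕ) : OO A B)) =
          d i * e c * e ((MUX.nI (R.b i) : ℕ) : OO A B) := by
        rw [he.mul, he.mul, e_sgn he hd]
      have h3 : ((MUX.nI (R.b i) : ℕ) : ℂ) * e ((MUX.nI (R.b i) : ℕ) : OO A B) *
          ((d i : ℂ) * e c * σ (MUX.PhiI (R.b i) e ∞ (r : OnePoint ℚ) / R.om i)) =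
          ((MUX.nI (R.b i) : ℕ) : ℂ) * e ((MUX.nI (R.b i) : ℕ) : OO A B) *
          (MUX.PhiI (R.b i) e ∞ (r : OnePoint ℚ) / R.om i) := by
        have h4 := h1
        change ((MUX.nI (R.b i) : ℕ) : ℂ) *
          e (((d i : ℤ) : OO A B) * c * ((MUX.nI (R.b i) : ℕ) : OO A B)) *
            σ (MUX.PhiI (R.b i) e ∞ (r : OnePoint ℚ) / R.om i) =
          ((MUX.nI (R.b i) : ℕ) : ℂ) * e ((MUX.nI (R.b i) : ℕ) : OO A B) *
            (MUX.PhiI (R.b i) e ∞ (r : OnePoint ℚ) / R.om i) at h4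
        rw [h2] at h4
        linear_combination h4
      have h5 := mul_left_cancel₀ (mul_ne_zero hnC hen) h3
      linear_combination (d i : ℂ) * h5 -
        e c * σ (MUX.PhiI (R.b i) e ∞ (r : OnePoint ℚ) / R.om i) * hd2
  rw [phi_sub (R.b i) e x y, sub_div, map_sub, mul_sub, key x hx, key y hy]
  ring

end

end Pool.Agent.OBT


end
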