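import Pool.Agent.MVF.C049
import Pool.Agent.MVF.C172
import Pool.Agent.OBM.C04
import Pool.Agent.OBM.C07

/-! Parts: OB.E_GRN, OB.E_MAIN, OB.E_NE1, OB.E_PUL, OB.E_TNC, OB.E_CFA -/

section

/-!
# OB, block E, module GRN: the Legendre model has good reduction (helper12)

Port of `Pool/Agent/NS/F_GRN.lean`; the group law is `Pool.Agent.NSER.GRN.xi` of that file.
-/

set_option autoImplicit false

open Polynomial

namespace Pool.Agent.OBE

open _root_.MU3 _root_.Pool.Agent.MU3A _root_.Pool.Agent.MU3B _root_.Pool.Agent.MUX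
open _root_.Pool.Agent.MUXU _root_.Pool.Agent.MUXE
open _root_.Pool.Agent.RI _root_.Pool.Agent.NS _root_.Pool.Agent.OB
open _root_.Pool.Agent.NSE (su ru WL IntP)
open _root_.Pool.Agent.MUXV (GR InK tX)

noncomputable section

/-- (GRN) the Legendre model has good reduction -/
theorem tb_GRN (h : Sb_COE) : Sb_GRN := by
  intro p V L u e lam hC hG
  obtain ⟨e1, e2, e3, v2, vs, -, -, -⟩ := h p V L u e lam hC hG
  have hu := hG.u0
  have c1 : (WL lam).a₁ = 0 := rfl
  have c2 : (WL lam).a₂ = -(1 + lam) := rfl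
  have c3 : (WL lam).a₃ = 0 := rfl
  have c4 : (WL lam).a₄ = lam := rfl
  have c6 : (WL lam).a₆ = 0 := rfl
  have hui : u⁻¹ ≠ 0 := inv_ne_zero hu
  obtain ⟨ξ, h0, h1⟩ := _root_.Pool.Agent.NSER.GRN.xi L e u⁻¹ hui (WL lam) c1
    (by
      rw [c2]
      field_simp
      linear_combination -e1)
    c3
    (by
      rw [c4, e2]
      field_simp
      ring)
    (by
      rw [c6, e3]
      ring)
  refine ⟨ξ, ⟨rfl, rfl, ?_, ?_, ?_⟩, v2, ?_, fun z hz => ?_, h0⟩
  · rw [c2, Valuation.map_neg]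
    exact vs
  · rw [c4, hG.vl]
  · rw [c6, map_zero]; exact zero_le_one
  · have hD : (WL lam).Δ = 2 * 2 * 2 * 2 * (lam * lam) * ((1 - lam) * (1 - lam)) := by
      unfold WeierstrassCurve.Δ WeierstrassCurve.b₂ WeierstrassCurve.b₄ WeierstrassCurve.b₆
        WeierstrassCurve.b₈
      rw [c1, c2, c3, c4, c6]
      ring
    rw [hD]
    simp only [map_mul, v2, hG.vl, hG.vl1, mul_one]
  · obtain ⟨hn, hx⟩ := h1 z hz
    have g1 : (L.weierstrassP z - e) * u⁻¹ ^ 2 = xu L u e z := by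
      unfold xu
      field_simp
    have g2 : L.derivWeierstrassP z / 2 * u⁻¹ ^ 3 = yu L u z := by
      unfold yu
      field_simp
    have hn' : (WL lam).Nonsingular (xu L u e z) (yu L u z) := by
      rw [← g1, ← g2]; exact hn
    exact ⟨hn', hx.trans (_root_.Pool.Agent.NSER.GRN.some_eq _ _ g1 g2)⟩

end

end Pool.Agent.OBE


end

section

/-!
# OB, block E, module MAIN: Lemma E for a conjugate family (helper81, after `NS/E_MAIN.lean` and `NS/F_MAIN.lean`)

Apply `τ'` to `w^p = ∏ C τ ^ g τ`: `(τ' w)^p = ∏ C(τ τ') ^ g τ`, because the Galois group of `D / k` is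
commutative; then (ONE) with `J = Gal(D/k)` and `X τ` the image of `S (τ τ')`.
-/

set_option autoImplicit false

namespace Pool.Agent.OBE

open _root_.MU3 _root_.Pool.Agent.MU3A _root_.Pool.Agent.MU3B _root_.Pool.Agent.MUX _root_.Pool.Agent.MUXU _root_.Pool.Agent.MUXE
open _root_.Pool.Agent.RI _root_.Pool.Agent.NS _root_.Pool.Agent.OB

noncomputable section

/-- (MAIN) Lemma E for a conjugate family, weights `emb x`. -/
theorem tb_MAIN (h1 : Sb_ONE) : Sb_MAIN := by
  classical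
  intro p er A B P V al hctx hT hgal n f hn hf3 hf2 hfp ι R u e lam hG H hH D hD hDF
  intro C S hC hcop hprod g hcube τ'
  letI := algC hD
  have hr := hctx.ring
  have hpp : p.Prime := hctx.pp
  have hp2 : p ≠ 2 := hctx.p2
  have hf0 : f ≠ 0 := by omega
  have hlv : lvX p f n = p ^ (n + 1) * f := by
    simp [lvX, q0, hp2]
    ring
  have haX : aX p f = 1 + 2 * p * f := by
    simp [aX, q0, hp2]
  have hpf : 1 ≤ p * f := Nat.one_le_iff_ne_zero.2 (mul_ne_zero hpp.ne_zero hf0)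
  have ha3 : 3 ≤ aX p f := by
    rw [haX, mul_assoc]
    omega
  have hodd : Odd (aX p f) := ⟨p * f, by rw [haX]; ring⟩
  have hap : p ∣ aX p f - 1 := ⟨2 * f, by rw [haX, Nat.add_sub_cancel_left]; ring⟩
  have haf : (aX p f).Coprime f := by
    rw [haX, Nat.Coprime, Nat.gcd_comm, show 1 + 2 * p * f = 1 + f * (2 * p) by ring,
      Nat.gcd_add_mul_left_right]
    exact Nat.gcd_one_right f
  have hm0 : lvX p f n ≠ 0 := by
    rw [hlv]
    exact mul_ne_zero (pow_ne_zero _ hpp.ne_zero) hf0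
  have hmb := m0_ne A B hr hm0
  have := hT.fin _ hmb
  -- D is finite over k
  let φ : D →ₗ[kk A B] RF (idl (A := A) (B := B) (lvX p f n)) :=
    { toFun := fun y => ⟨y, hDF y y.2⟩
      map_add' := fun x y => rfl
      map_smul' := fun c x => by
        apply Subtype.ext
        show ((c • x : D) : ℂ) =
          ((c • (⟨x, hDF x x.2⟩ : RF (idl (A := A) (B := B) (lvX p f n))) :
            RF (idl (A := A) (B := B) (lvX p f n))) : ℂ)
        rw [Algebra.smul_def, Algebra.smul_def]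
        rfl }
  have hφ : Function.Injective φ := by
    intro x y hxy
    apply Subtype.ext
    exact congrArg (fun z : RF (idl (A := A) (B := B) (lvX p f n)) => (z : ℂ)) hxy
  have : FiniteDimensional (kk A B) D := FiniteDimensional.of_injective φ hφ
  have : Finite (D ≃ₐ[kk A B] D) := inferInstance
  letI : Fintype (D ≃ₐ[kk A B] D) := Fintype.ofFinite _
  have hcom := m0_comm hT _ hmb D hD hDF
  have hout : Function.Injective
      (fun q : ι × (OO A B ⧸ idl (A := A) (B := B) (lvX p f n)) =>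
        ((q.1, Quotient.out q.2) : ι × OO A B)) := by
    intro q q' hq
    have hq0 : ((q.1, Quotient.out q.2) : ι × OO A B) = (q'.1, Quotient.out q'.2) := hq
    have h4 : q.1 = q'.1 := (Prod.mk.inj hq0).1
    have h5 : (Quotient.out q.2 : OO A B) = Quotient.out q'.2 := (Prod.mk.inj hq0).2
    have h6 : Ideal.Quotient.mk (idl (A := A) (B := B) (lvX p f n)) (Quotient.out q.2) =
        Ideal.Quotient.mk (idl (A := A) (B := B) (lvX p f n)) (Quotient.out q'.2) :=
      congrArg _ h5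
    rw [Ideal.Quotient.mk_out, Ideal.Quotient.mk_out] at h6
    exact Prod.ext h4 h6
  set X : (D ≃ₐ[kk A B] D) → Finset (ι × OO A B) := fun τ =>
    (S (τ * τ')).image (fun q => (q.1, Quotient.out q.2)) with hX
  have hcopX : ∀ τ : D ≃ₐ[kk A B] D, ∀ y ∈ X τ,
      IsCoprime y.2 ((p ^ (n + 1) * f : ℕ) : OO A B) := by
    intro τ y hy
    rw [hX] at hy
    obtain ⟨q, hq, rfl⟩ := Finset.mem_image.1 hy
    have := hcop (τ * τ') q hq
    rw [← hlv]
    exact this
  have key := h1 p er A B P V al hctx hT hgal n f (aX p f) hn hf3 hf2 hfp ha3 hodd hap haf ι R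
    u e lam hG H hH (D ≃ₐ[kk A B] D) X g hcopX
  rw [← hlv] at key
  have hprodX : ∀ τ : D ≃ₐ[kk A B] D,
      ∏ y ∈ X τ, ThetaH (R.L y.1) (H y.1) (pt R (lvX p f n) y.1 y.2) = C (τ * τ') := by
    intro τ
    rw [hX, Finset.prod_image (fun x _ y _ hxy => hout hxy), hprod (τ * τ')]
  have hsumX : ∀ τ : D ≃ₐ[kk A B] D,
      ∑ y ∈ X τ, emb y.2 * muX R y.1 * dlX (R.L y.1) (aX p f) (pt R (lvX p f n) y.1 y.2) =
      ∑ q ∈ S (τ * τ'), emb (Quotient.out q.2) * muX R q.1 *
        dlX (R.L q.1) (aX p f) (pt R (lvX p f n) q.1 (Quotient.out q.2)) := by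
    intro τ
    rw [hX, Finset.sum_image (fun x _ y _ hxy => hout hxy)]
  rw [finsum_eq_sum_of_fintype]
  have e1 : (∑ τ : D ≃ₐ[kk A B] D, (g τ : ℂ) * ∑ q ∈ S (τ * τ'),
      emb (Quotient.out q.2) * muX R q.1 *
        dlX (R.L q.1) (aX p f) (pt R (lvX p f n) q.1 (Quotient.out q.2))) =
      ∑ j : D ≃ₐ[kk A B] D, (g j : ℂ) * ∑ y ∈ X j, emb y.2 * muX R y.1 *
      dlX (R.L y.1) (aX p f) (pt R (lvX p f n) y.1 y.2) :=
    Finset.sum_congr rfl (fun τ _ => by rw [hsumX])
  rw [e1]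
  apply key
  obtain ⟨v, hv, hvp⟩ := hcube
  rw [finprod_eq_prod_of_fintype] at hvp
  obtain ⟨y, hy1, -⟩ := hC 1
  have hyτ : ∀ τ : D ≃ₐ[kk A B] D, ((τ y : D) : ℂ) = C τ := by
    intro τ
    obtain ⟨y', hy', hy''⟩ := hC τ
    have : y' = y := Subtype.ext (hy'.trans hy1.symm)
    rw [← hy'', this]
  have hw4 : (⟨v, hv⟩ : D) ^ p = ∏ τ : D ≃ₐ[kk A B] D, (τ y) ^ g τ := by
    apply Subtype.ext
    rw [IntermediateField.coe_prod]
    rw [show (((⟨v, hv⟩ : D) ^ p : D) : ℂ) = v ^ p from rfl, hvp]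
    refine Finset.prod_congr rfl (fun τ _ => ?_)
    rw [← hyτ τ, ← m0_zpc (D := D)]
  refine ⟨(τ' ⟨v, hv⟩ : D), hDF _ (τ' ⟨v, hv⟩).2, ?_⟩
  have hw5 := congrArg τ' hw4
  rw [map_pow, map_prod] at hw5
  have hw6 := congrArg (fun y : D => (y : ℂ)) hw5
  push_cast at hw6
  rw [hw6]
  refine Finset.prod_congr rfl (fun τ _ => ?_)
  rw [hprodX, hcom τ τ', map_zpow₀, ← hyτ (τ' * τ), m0_zpc]
  rfl

end

end Pool.Agent.OBE


end

section

/-!
# OB, block E, module NE1: the points that occur are not in the kernel of reduction (helper56, after helper5 and helper39)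
-/

set_option autoImplicit false

open Polynomial

namespace Pool.Agent.OBE

open _root_.MU3 _root_.Pool.Agent.MU3A _root_.Pool.Agent.MU3B _root_.Pool.Agent.MUX _root_.Pool.Agent.MUXU _root_.Pool.Agent.MUXE
open _root_.Pool.Agent.RI _root_.Pool.Agent.NS _root_.Pool.Agent.OB
open _root_.Pool.Agent.MUXV (GR InK tX)
open _root_.Pool.Agent.NSE (su ru WL IntP)

noncomputable section

namespace NE1

lemma nat_mul_mem {L : PeriodPair} (c : ℕ) {w : ℂ} (hw : w ∈ L.lattice) :
    (c : ℂ) * w ∈ L.lattice := by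
  have h := L.lattice.smul_mem (c : ℤ) hw
  simpa using h

end NE1

open _root_.Pool.Agent.OBE.NE1 in
/-- NE1. -/
theorem tb_NE1 (h1 : Sb_TNC) (h2 : Sb_GRN) : Sb_NE1 := by
  intro p V L u e lam hcp hg j f a hf hpf hpa hco z hz hord
  obtain ⟨ξ, hG⟩ := h2 p V L u e lam hcp hg
  have htor := h1 p V L u e lam hcp hg
  have hp : Nat.Prime p := hcp.pp
  have hno : ∀ k : ℕ, k ≤ j → ((a * p ^ k : ℕ) : ℂ) * z ∉ L.lattice := by
    intro k hk hmem
    have h4 : f ∣ a * p ^ k := hord _ hmem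
    have h5 : f.Coprime (p ^ k) :=
      Nat.Coprime.pow_right k ((Nat.Prime.coprime_iff_not_dvd hp).2 hpf).symm
    have h6 : f ∣ a := h5.dvd_of_dvd_mul_right h4
    have h7 : f = 1 := Nat.Coprime.eq_one_of_dvd hco.symm h6
    omega
  have hfa : ¬ p ∣ f * a := by
    rw [hp.dvd_mul]
    rintro (h | h)
    · exact hpf h
    · exact hpa h
  have key : ∀ q : ℂ, (a : ℂ) * q ∈ L.lattice → ¬ InK V L (xu L u e) (z + q) := by
    intro q hq hE
    have hE' := Pool.Agent.MUXV.inK_nat hG hE (p ^ j)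
    have hmem : ((f * a : ℕ) : ℂ) * (((p ^ j : ℕ) : ℂ) * (z + q)) ∈ L.lattice := by
      have h3 := add_mem (nat_mul_mem a hz) (nat_mul_mem (p ^ j * f) hq)
      have h4 : ((f * a : ℕ) : ℂ) * (((p ^ j : ℕ) : ℂ) * (z + q)) =
          (a : ℂ) * (((p ^ j * f : ℕ) : ℂ) * z) + ((p ^ j * f : ℕ) : ℂ) * ((a : ℂ) * q) := by
        push_cast
        ring
      rw [h4]
      exact h3
    have hz' := (htor _ hfa).2 _ hmem hE'
    have h5 := sub_mem (nat_mul_mem a hz') (nat_mul_mem (p ^ j) hq)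
    refine hno j le_rfl ?_
    have h6 : ((a * p ^ j : ℕ) : ℂ) * z =
        (a : ℂ) * (((p ^ j : ℕ) : ℂ) * (z + q)) - ((p ^ j : ℕ) : ℂ) * ((a : ℂ) * q) := by
      push_cast
      ring
    rw [h6]
    exact h5
  refine ⟨?_, ?_, ?_⟩
  · have h3 := key 0 (by rw [mul_zero]; exact zero_mem _)
    rwa [add_zero] at h3
  · have h3 := hno 0 (Nat.zero_le _)
    rwa [pow_zero, mul_one] at h3
  · intro q hq hqL
    refine ⟨?_, key q hq, ?_⟩
    · intro hE
      exact hqL ((htor a hpa).2 _ hq hE)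
    · rw [sub_eq_add_neg]
      refine key (-q) ?_
      rw [mul_neg]
      exact neg_mem hq

end

end Pool.Agent.OBE


end

section

/-!
# OB, block E: pullback of representable functions

`F = A(s') + r' B(s')` on `S'`, `ρ : S → S'` with `s' ∘ ρ` represented by `(0, 0)` and `r' ∘ ρ` by
`(0, c)`: then `F ∘ ρ` is represented by `(α, β c)`.
-/

set_option autoImplicit false

open Polynomial

namespace Pool.Agent.OBE

theorem tb_PUL (hA : Sb_ALG) (hP : Sb_PRO) : Sb_PUL := by
  intro p V S S' s r s' r' a2 a4 ρ c hpts hρ hs hr F α β hF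
  obtain ⟨-, -, -, hch, hadd, hmul, -, hval, -⟩ := hA p V S s r a2 a4 hpts
  obtain ⟨hpol, -, -⟩ := hP p V S s r a2 a4 hpts
  obtain ⟨P, Q, iP, iQ, hFe, hPα, hQβ⟩ := hF
  have hc : V.valuation c ≤ 1 := (hval _ _ _ hr).2.1
  have h1 := hpol _ _ _ P hs iP
  have h2 := hpol _ _ _ Q hs iQ
  have h3 := hmul _ _ _ _ _ _ hr h2
  have h4 := hadd _ _ _ _ _ _ h1 h3
  refine hch _ _ _ _ _ _ h4 (fun Y hY => hFe (ρ Y) (hρ Y hY)) ?_ ?_
  · have e1 : α - (P.eval 0 + 0 * Q.eval 0) = -(P.coeff 0 - α) := by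
      rw [coeff_zero_eq_eval_zero P]
      ring
    rw [e1, Valuation.map_neg]
    exact hPα
  · have e2 : β * c - (0 * (derivative P).eval 0 +
        (0 * (0 * (derivative Q).eval 0) + Q.eval 0 * c)) = -(Q.coeff 0 - β) * c := by
      rw [coeff_zero_eq_eval_zero Q]
      ring
    rw [e2, map_mul, Valuation.map_neg]
    calc V.valuation (Q.coeff 0 - β) * V.valuation c
        ≤ V.valuation (p : ℂ) * 1 := mul_le_mul' hQβ hc
      _ = V.valuation (p : ℂ) := mul_one _

end Pool.Agent.OBE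


end

section

/-!
# OB, block E: points of order prime to `p` (TNC)
-/

set_option autoImplicit false

open Polynomial

namespace Pool.Agent.OBE

open _root_.MU3 _root_.Pool.Agent.MU3A _root_.Pool.Agent.MU3B _root_.Pool.Agent.MUX _root_.Pool.Agent.MUXU _root_.Pool.Agent.MUXE
open _root_.Pool.Agent.RI _root_.Pool.Agent.NS _root_.Pool.Agent.OB
open _root_.Pool.Agent.MUXV (GR InK tX)
open _root_.Pool.Agent.NSE (su ru WL IntP)

namespace TNC

private theorem v_int (V : ValuationSubring ℂ) (a : ℤ) : V.valuation (a : ℂ) ≤ 1 :=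
  (V.valuation_le_one_iff _).2 (intCast_mem V a)

/-- integers prime to `p` are units at `V` -/
theorem v_nat (V : ValuationSubring ℂ) {p : ℕ} (hp : p.Prime) (h3 : V.valuation (p : ℂ) < 1)
    (N : ℕ) (hN : ¬ p ∣ N) :
    V.valuation (N : ℂ) = 1 := by
  have hc : Nat.Coprime N p := ((Nat.Prime.coprime_iff_not_dvd hp).2 hN).symm
  obtain ⟨a, b, hab⟩ := Nat.isCoprime_iff_coprime.2 hc
  refine le_antisymm ?_ ?_
  · have := v_int V (N : ℤ)
    rwa [Int.cast_natCast] at this
  · by_contra hlt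
    have hlt' : V.valuation (N : ℂ) < 1 := not_le.1 hlt
    have e : (a : ℂ) * (N : ℂ) + (b : ℂ) * (p : ℂ) = 1 := by
      have := congrArg (fun t : ℤ => (t : ℂ)) hab
      push_cast at this
      exact this
    have h1 : V.valuation ((a : ℂ) * (N : ℂ)) < 1 := by
      rw [map_mul]
      exact lt_of_le_of_lt (mul_le_of_le_one_left' (v_int V a)) hlt'
    have h2 : V.valuation ((b : ℂ) * (p : ℂ)) < 1 := by
      rw [map_mul]
      exact lt_of_le_of_lt (mul_le_of_le_one_left' (v_int V b)) h3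
    have h4 := Valuation.map_add_lt V.valuation h1 h2
    rw [e, map_one] at h4
    exact lt_irrefl _ h4

end TNC

open _root_.Pool.Agent.OBE.TNC in
theorem tb_TNC (h : Sb_GRN) : Sb_TNC := by
  intro p V L u e lam hC hG
  obtain ⟨ξ, G⟩ := h p V L u e lam hC hG
  exact fun N hN => ⟨v_nat V hC.pp hC.vp N hN, fun z hz hK =>
    _root_.Pool.Agent.MUXV.mem_of_nat_mul G hK (v_nat V hC.pp hC.vp N hN) hz⟩

end Pool.Agent.OBE


end

section

/-!
# OB, block E: CFA, the ideals `P` and `Pc P` (helper96)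
-/

set_option autoImplicit false

namespace Pool.Agent.OBE

open _root_.MU3 _root_.Pool.Agent.MU3A _root_.Pool.Agent.MU3B _root_.Pool.Agent.MUX
open _root_.Pool.Agent.RI _root_.Pool.Agent.NS _root_.Pool.Agent.OB

theorem tb_CFA : Sb_CFA := by
  intro p er A B P V h
  obtain ⟨-, -, hmax, -, -, -, hnP, -, h4, -, hcop, hidl⟩ :=
    Pool.Agent.OBT.o_BAS p er A B P V h
  have hq := h.cq
  have hded : IsDedekindDomain (OO A B) := (Pool.Agent.MUXE.te_RNG A B hq).ded
  have hp0 : ((p : ℕ) : OO A B) ≠ 0 := natCast_ne_zero' hq h.pp.ne_zero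
  have hPb : P ≠ ⊥ := fun e => hp0 (by simpa [e] using h.mem)
  have hib : idl (A := A) (B := B) p ≠ ⊥ := fun e => hp0 (Ideal.span_singleton_eq_bot.1 e)
  have hPc : Pc P ≠ ⊥ := fun e => hib (by rw [hidl, e, Ideal.bot_mul])
  have hPe : P ^ er ≠ ⊥ := fun e => hib (by rw [hidl, e, Ideal.mul_bot])
  have hnp : nI (idl (A := A) (B := B) p) = p ^ 2 := by
    have h1 := nI_sp hq hp0
    rw [show idl (A := A) (B := B) p = sp ((p : ℕ) : OO A B) from rfl, h1]
    have h2 : nm ((p : ℕ) : OO A B) = (p : ℤ) ^ 2 := by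
      have := nm_intCast (A := A) (B := B) (p : ℤ)
      simpa using this
    rw [h2, Int.natAbs_pow, Int.natAbs_natCast]
  have hmul : nI (Pc P) * nI (P ^ er) = p ^ 2 := by rw [← nI_mul hq hPc hPe, ← hidl, hnp]
  have hp1 : 1 < p := h.pp.one_lt
  refine ⟨hPb, hmax, by rw [hidl, mul_comm], hPc, h.not_le hcop, ?_, by omega, ?_⟩
  · intro he
    subst he
    have h2 : nI (P ^ 2) = nI P * nI P := by rw [pow_two, nI_mul hq hPb hPb]
    rw [h2] at hmul
    rcases hnP with e | e
    · refine ⟨e, Pool.Agent.OBT.BAS.eq_top_of_nI ?_⟩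
      rw [e, ← pow_two] at hmul
      have h3 : 0 < p ^ 2 := by positivity
      exact Nat.eq_of_mul_eq_mul_right h3 (by rw [hmul, one_mul])
    · exfalso
      rw [e] at hmul
      have h3 : p ^ 2 * p ^ 2 ∣ p ^ 2 := Dvd.intro_left _ hmul
      have h5 : 0 < p ^ 2 := by positivity
      have h6 := Nat.le_of_dvd h5 h3
      have h7 : 1 < p ^ 2 := Nat.one_lt_pow two_ne_zero hp1
      have h8 : p ^ 2 * 1 < p ^ 2 * p ^ 2 := Nat.mul_lt_mul_of_pos_left h7 h5
      omega
  · intro Q hQ hpQ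
    have h1 : Pc P * P ^ er ≤ Q := by
      rw [← hidl]
      exact (Ideal.span_singleton_le_iff_mem Q).2 hpQ
    rcases (Ideal.IsPrime.mul_le hQ).1 h1 with h2 | h2
    · right
      by_cases hc : cjI P = P
      · exfalso
        rw [Pc, if_pos hc] at h2
        exact hQ.ne_top (top_le_iff.1 h2)
      · have e1 : Pc P = cjI P := by rw [Pc, if_neg hc]
        have e2 : nI (Pc P) = nI P := by rw [e1, nI_cjI hq hPb]
        have hQb : Q ≠ ⊥ := fun e => hPc (le_bot_iff.1 (e ▸ h2))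
        obtain ⟨J, hJ⟩ : Q ∣ Pc P := Ideal.dvd_iff_le.2 h2
        have hJb : J ≠ ⊥ := fun e => hPc (by rw [hJ, e, Ideal.mul_bot])
        have hr : 1 ≤ er := by
          rcases h.ram with ⟨e, -⟩ | ⟨e, -⟩ <;> omega
        have hnPp : nI P = p := by
          rcases hnP with e | e
          · exact e
          · exfalso
            rw [e2, e] at hmul
            obtain ⟨r, rfl⟩ := Nat.exists_eq_add_of_le hr
            have h5 : P ^ (1 + r) = P * P ^ r := by rw [pow_add, pow_one]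
            have h6 : P ^ r ≠ ⊥ := fun e' => hPe (by rw [h5, e', Ideal.mul_bot])
            rw [h5, nI_mul hq hPb h6, e] at hmul
            have h3 : p ^ 2 * p ^ 2 ∣ p ^ 2 := ⟨nI (P ^ r), by rw [mul_assoc]; exact hmul.symm⟩
            have h5 : 0 < p ^ 2 := by positivity
            have h6 := Nat.le_of_dvd h5 h3
            have h7 : 1 < p ^ 2 := Nat.one_lt_pow two_ne_zero hp1
            have h8 : p ^ 2 * 1 < p ^ 2 * p ^ 2 := Nat.mul_lt_mul_of_pos_left h7 h5
            omega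
        have h3 : nI Q * nI J = p := by rw [← nI_mul hq hQb hJb, ← hJ, e2, hnPp]
        have hQ1 : nI Q ≠ 1 := fun e => hQ.ne_top (Pool.Agent.OBT.BAS.eq_top_of_nI e)
        have hJ1 : nI J = 1 := by
          rcases (Nat.dvd_prime h.pp).1 (Dvd.intro _ h3) with e | e
          · exact absurd e hQ1
          · rw [e] at h3
            exact Nat.eq_of_mul_eq_mul_left h.pp.pos (by rw [h3, mul_one])
        have hJt := Pool.Agent.OBT.BAS.eq_top_of_nI hJ1
        rw [hJt, Ideal.mul_top] at hJ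
        exact hJ.symm
    · left
      have hr : er ≠ 0 := by
        rcases h.ram with ⟨e, -⟩ | ⟨e, -⟩ <;> omega
      have h3 : P ≤ Q := by
        exact (Ideal.IsPrime.pow_le_iff hr).1 h2
      exact (hmax.eq_of_le hQ.ne_top h3).symm

end Pool.Agent.OBE


end
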