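import Pool.Agent.MVF.C003
import Pool.Agent.MVF.C014
import Pool.Agent.MVF.C035
import Pool.Agent.MVF.C041
import Pool.Agent.MVF.C049
import Pool.Agent.MVF.C057
import Pool.Agent.MVF.C063
import Pool.Agent.OBM.C04

/-! Parts: OB.E_CTX, OB.E_DSM, OB.E_IDL, OB.E_INN, OB.E_ISO, OB.E_KIS, OB.E_LEG, OB.E_ONE, OB.E_PRO, OB.E_PTS, OB.E_RAT, OB.E_SIG, OB.E_THN, OB.E_TPR -/

section

/-!
# OB, block E, module CTX (helper98): from the hypotheses to `CtxO`

Models: `NS/F_CTX.lean`, `NS/E_CTX.lean`.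
-/

set_option autoImplicit false

namespace Pool.Agent.OBE

open _root_.MU3 _root_.Pool.Agent.MU3A _root_.Pool.Agent.MU3B _root_.Pool.Agent.MUX _root_.Pool.Agent.MUXU _root_.Pool.Agent.MUXE
open _root_.Pool.Agent.RI _root_.Pool.Agent.NS _root_.Pool.Agent.OB

noncomputable section

namespace CTX

variable {A B : ℤ}

lemma emb_nat (h : CQ A B) (n : ℕ) : emb ((n : ℕ) : OO A B) = (n : ℂ) := by
  rw [← RNGaux.eH_apply h, map_natCast]

lemma emb_mul (h : CQ A B) (x y : OO A B) : emb (x * y) = emb x * emb y := by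
  rw [← RNGaux.eH_apply h, map_mul, RNGaux.eH_apply h, RNGaux.eH_apply h]

lemma emb_add (h : CQ A B) (x y : OO A B) : emb (x + y) = emb x + emb y := by
  rw [← RNGaux.eH_apply h, map_add, RNGaux.eH_apply h, RNGaux.eH_apply h]

lemma emb_one (h : CQ A B) : emb (1 : OO A B) = 1 := by
  rw [← RNGaux.eH_apply h, map_one]

lemma emb_zero (h : CQ A B) : emb (0 : OO A B) = 0 := by
  rw [← RNGaux.eH_apply h, map_zero]

lemma val_le (h : CQ A B) (V : ValuationSubring ℂ) (x : OO A B) : V.valuation (emb x) ≤ 1 := by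
  rw [ValuationSubring.valuation_le_one_iff]
  have h1 : IsIntegral V (emb x) := (RNGaux.emb_int h x).tower_top
  obtain ⟨y, hy⟩ := IsIntegrallyClosed.isIntegral_iff.1 h1
  rw [← hy]
  exact y.2

lemma val_unit (h : CQ A B) {P : Ideal (OO A B)} {V : ValuationSubring ℂ} (hV : OverI V P)
    {x : OO A B} (hx : x ∉ P) : V.valuation (emb x) = 1 := by
  refine le_antisymm (val_le h V x) (not_lt.1 fun h1 => hx ((hV x).1 ?_))
  exact (ValuationSubring.mem_nonunits_iff V).2 h1

/-- elements of `P^n` -/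
lemma val_pow (h : CQ A B) {P : Ideal (OO A B)} {V : ValuationSubring ℂ} {al : OO A B}
    (hP : ∀ x ∈ P, V.valuation (emb x) ≤ V.valuation (emb al)) :
    ∀ (n : ℕ) (x : OO A B), x ∈ P ^ n → V.valuation (emb x) ≤ V.valuation (emb al) ^ n := by
  intro n
  induction n with
  | zero =>
    intro x _
    rw [pow_zero]
    exact val_le h V x
  | succ n ih =>
    intro x hx
    rw [pow_succ] at hx
    refine Submodule.mul_induction_on hx ?_ ?_
    · intro a ha b hb
      rw [emb_mul h, map_mul, pow_succ]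
      exact mul_le_mul' (ih a ha) (hP b hb)
    · intro a b ha hb
      rw [emb_add h]
      exact (V.valuation.map_add _ _).trans (max_le ha hb)

end CTX

open _root_.Pool.Agent.OBE.CTX in
/-- (CTX) from the hypotheses to `CtxO` -/
theorem tb_CTX (hCFA : Sb_CFA) (hCAL : Sb_CAL) : Sb_CTX := by
  intro p er A B P V hC hT hF
  obtain ⟨hF1, hF2⟩ := hF p er A B P V hC hT
  obtain ⟨hne, hmax, hfac, hcne, hcnl, hnP, hn3, -⟩ := hCFA p er A B P V hC
  obtain ⟨al, halP, hal2, N, hN, hNx⟩ := hCAL p er A B P V hC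
  have h := hC.cq
  have hp := hC.pp
  have hp5 := hC.p5
  have hV := hC.hV
  have h1P : (1 : OO A B) ∉ P := fun h1 => hC.prime.ne_top ((Ideal.eq_top_iff_one P).2 h1)
  have hvp : V.valuation (p : ℂ) < 1 := by
    have h1 := (hV ((p : ℕ) : OO A B)).2 hC.mem
    rw [ValuationSubring.mem_nonunits_iff, emb_nat h] at h1
    exact h1
  have hnP' : ∀ n : ℕ, ¬ p ∣ n → ((n : ℕ) : OO A B) ∉ P := by
    intro n hn hmem
    have h2 : IsCoprime (n : ℤ) (p : ℤ) := by
      rw [Nat.isCoprime_iff_coprime]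
      exact ((Nat.Prime.coprime_iff_not_dvd hp).2 hn).symm
    obtain ⟨a, b, hab⟩ := h2
    have h4 := congrArg (Int.cast : ℤ → OO A B) hab
    push_cast at h4
    apply h1P
    rw [← h4]
    exact P.add_mem (P.mul_mem_left _ hmem) (P.mul_mem_left _ hC.mem)
  have hnat : ∀ n : ℕ, ¬ p ∣ n → V.valuation (n : ℂ) = 1 ∧ ((n : ℕ) : OO A B) ∉ P := by
    intro n hn
    refine ⟨?_, hnP' n hn⟩
    rw [← emb_nat h]
    exact val_unit h hV (hnP' n hn)
  have hvP : ∀ x ∈ P, V.valuation (emb x) ≤ V.valuation (emb al) := by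
    intro x hx
    obtain ⟨y, hy⟩ := hNx x hx
    have h2 := congrArg (fun z => V.valuation (emb z)) hy
    simp only [CTX.emb_mul h, map_mul, emb_nat h] at h2
    rw [(hnat N hN).1, one_mul] at h2
    rw [h2]
    exact mul_le_of_le_one_right' (val_le h V y)
  have her : 1 ≤ er := by
    rcases hC.ram with ⟨h1, -⟩ | ⟨h1, -⟩ <;> omega
  have hmem : ((p : ℕ) : OO A B) ∈ P ^ er := by
    rcases hC.ram with ⟨h1, -⟩ | ⟨h1, h2⟩
    · rw [h1, pow_one]
      exact hC.mem
    · rw [h1]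
      exact h2
  have halv : V.valuation (emb al) ^ er = V.valuation (p : ℂ) := by
    refine le_antisymm ?_ ?_
    · obtain ⟨c, hc, hcP⟩ := Set.not_subset.1 hcnl
      have h2 : al ^ er * c ∈ idl (A := A) (B := B) p := by
        rw [hfac]
        exact Ideal.mul_mem_mul (Ideal.pow_mem_pow halP er) hc
      obtain ⟨y, hy⟩ := Ideal.mem_span_singleton.1 h2
      have h3 := congrArg (fun z => V.valuation (emb z)) hy
      simp only [CTX.emb_mul h, map_mul, emb_nat h] at h3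
      rw [val_unit h hV hcP, mul_one] at h3
      have h4 : V.valuation (emb (al ^ er)) = V.valuation (emb al) ^ er := by
        rw [← RNGaux.eH_apply h, map_pow, RNGaux.eH_apply h, map_pow]
      rw [← h4, h3]
      exact mul_le_of_le_one_right' (val_le h V y)
    · have h2 := val_pow h hvP er _ hmem
      rw [emb_nat h] at h2
      exact h2
  refine ⟨al, ?_⟩
  exact
    { hC with
      p2 := by omega
      vp := hvp
      ring := te_RNG A B h
      ne := hne
      max := hmax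
      er1 := her
      fac := hfac
      cne := hcne
      cnl := hcnl
      int := val_le h V
      unit := fun x hx => val_unit h hV hx
      nat := hnat
      alP := halP
      al2 := hal2
      alv := halv
      vP := hvP
      alN := ⟨N, hN, hNx⟩
      nP := hnP
      n3 := hn3
      good := by
        rintro L ⟨b, om, hL⟩
        obtain ⟨u, e, lam, h1, -⟩ := hF1 b L om hL
        exact ⟨u, e, lam, h1⟩
      iner := hF2
      exq := by
        rintro L ⟨b, om, hL⟩
        have htop : (⊤ : Ideal (OO A B)) ≠ ⊥ := fun h0 => hne (eq_bot_iff.2 (h0 ▸ le_top))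
        obtain ⟨σ, -, hσ⟩ := hT.surj ⊤ htop P hne (Ideal.isCoprime_iff_sup_eq.2 (sup_top_eq _))
        obtain ⟨b', L', om', mu, hL', hact⟩ := hσ b L om hL
        exact ⟨L', mu, ⟨b', om', hL'⟩, hact.isq⟩ }

end

end Pool.Agent.OBE


end

section

/-!
# OB, block E, DSM: the distribution relation of `e` for an isogeny (helper50), after `MU3/B_DIS.lean`
-/

set_option autoImplicit false

namespace Pool.Agent.OBE

open Complex Real Filter Topology Pool.Agent.MU3B Pool.Agent.MUX Pool.Agent.MUXU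
open scoped ComplexConjugate

namespace DSM

/-- decomposition of a sum over `L` by the classes of `a⁻¹ L / L` -/
theorem sum_reps {L M : PeriodPair} {a : ℂ} {R : Finset ℂ} (ha : a ≠ 0)
    (haL : ∀ w ∈ L.lattice, a * w ∈ M.lattice) (hR : IsRpM L M a R) (F : ℂ → ℂ)
    (hF : Summable (fun u : M.lattice => F u)) :
    (∑' w : L.lattice, F (a * w)) + ∑ q ∈ R, ∑' w : L.lattice, F (a * (q + w)) =
      ∑' u : M.lattice, F u := by
  classical
  have h0 : (0 : ℂ) ∉ R := fun h => hR.ne 0 h (zero_mem _)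
  have hmem : ∀ q ∈ insert (0 : ℂ) R, a * q ∈ M.lattice := by
    intro q hq
    rcases Finset.mem_insert.1 hq with rfl | h
    · rw [mul_zero]; exact zero_mem _
    · exact hR.mem q h
  have hinj : ∀ q ∈ insert (0 : ℂ) R, ∀ q' ∈ insert (0 : ℂ) R, q - q' ∈ L.lattice → q = q' := by
    intro q hq q' hq' h
    rcases Finset.mem_insert.1 hq with rfl | h1
    · rcases Finset.mem_insert.1 hq' with rfl | h2
      · rfl
      · rw [zero_sub] at h
        exact absurd (neg_mem_iff.1 h) (hR.ne q' h2)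
    · rcases Finset.mem_insert.1 hq' with rfl | h2
      · rw [sub_zero] at h
        exact absurd h (hR.ne q h1)
      · exact hR.inj q h1 q' h2 h
  let f : (insert (0 : ℂ) R : Finset ℂ) × L.lattice → M.lattice := fun x =>
    ⟨a * ((x.1 : ℂ) + x.2), by
      rw [mul_add]; exact add_mem (hmem _ x.1.2) (haL _ x.2.2)⟩
  have hf : Function.Bijective f := by
    constructor
    · rintro ⟨⟨q, hq⟩, ⟨w, hw⟩⟩ ⟨⟨q', hq'⟩, ⟨w', hw'⟩⟩ h
      have h1 : a * (q + w) = a * (q' + w') := congrArg Subtype.val h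
      have h2 : q + w = q' + w' := mul_left_cancel₀ ha h1
      have h3 : q - q' = w' - w := by linear_combination h2
      have h4 : q = q' := hinj q hq q' hq' (by rw [h3]; exact sub_mem hw' hw)
      subst h4
      have h5 : w = w' := add_left_cancel h2
      subst h5
      rfl
    · rintro ⟨u, hu⟩
      have e1 : a * (u / a) = u := mul_div_cancel₀ _ ha
      by_cases h : u / a ∈ L.lattice
      · refine ⟨(⟨0, Finset.mem_insert_self _ _⟩, ⟨u / a, h⟩), Subtype.ext ?_⟩
        change a * (0 + u / a) = u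
        rw [zero_add, e1]
      · obtain ⟨q, hq, h1⟩ := hR.surj (u / a) (by rw [e1]; exact hu) h
        refine ⟨(⟨q, Finset.mem_insert_of_mem hq⟩, ⟨u / a - q, h1⟩), Subtype.ext ?_⟩
        change a * (q + (u / a - q)) = u
        rw [add_sub_cancel, e1]
  have h1 : ∑' u : M.lattice, F u =
      ∑' x : (insert (0 : ℂ) R : Finset ℂ) × L.lattice, F (a * ((x.1 : ℂ) + x.2)) :=
    ((Equiv.ofBijective f hf).tsum_eq (fun u : M.lattice => F u)).symm
  have h2 : Summable (fun x : (insert (0 : ℂ) R : Finset ℂ) × L.lattice =>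
      F (a * ((x.1 : ℂ) + x.2))) := (Equiv.ofBijective f hf).summable_iff.2 hF
  have h3 : ∑' x : (insert (0 : ℂ) R : Finset ℂ) × L.lattice, F (a * ((x.1 : ℂ) + x.2)) =
      ∑ q ∈ insert (0 : ℂ) R, ∑' w : L.lattice, F (a * (q + w)) := by
    rw [h2.tsum_prod, ← Finset.sum_coe_sort (insert (0 : ℂ) R)
      (fun q => ∑' w : L.lattice, F (a * (q + w)))]
    exact tsum_fintype (fun q : (insert (0 : ℂ) R : Finset ℂ) =>
      ∑' w : L.lattice, F (a * ((q : ℂ) + w)))
  rw [h1, h3, Finset.sum_insert h0]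
  simp only [zero_add]

end DSM

open _root_.Pool.Agent.OBE.DSM in
theorem tb_DSM : Sb_DSM := by
  intro L M a R ha haL hR z
  have hna : 0 < ‖a‖ := norm_pos_iff.2 ha
  have hc : 0 < 1 / ‖a‖ ^ 2 := by positivity
  have hca : conj a ≠ 0 := (map_ne_zero _).2 ha
  have key : ∀ t : ℝ, 0 < t →
      (∑' w : L.lattice, conj (z + w) * ((Real.exp (-(1 * t * ‖z + w‖ ^ 2)) : ℝ) : ℂ)) +
        ∑ q ∈ R, (∑' w : L.lattice,
          conj (z + q + w) * ((Real.exp (-(1 * t * ‖z + q + w‖ ^ 2)) : ℝ) : ℂ)) =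
      (conj a)⁻¹ * ∑' w : M.lattice,
        conj (a * z + w) * ((Real.exp (-(1 / ‖a‖ ^ 2 * t * ‖a * z + w‖ ^ 2)) : ℝ) : ℂ) := by
    intro t ht
    obtain ⟨u, hu, hb⟩ := b_SUM M (1 / ‖a‖ ^ 2 * t) (by positivity) 1 ‖a * z‖
    have hs : Summable (fun w : M.lattice => conj (a * z + w) *
        ((Real.exp (-(1 / ‖a‖ ^ 2 * t * ‖a * z + w‖ ^ 2)) : ℝ) : ℂ)) := by
      refine Summable.of_norm_bounded hu fun w => ?_
      have h1 := (hb w (a * z) le_rfl).1
      rw [pow_one] at h1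
      rw [norm_mul, Complex.norm_conj, Complex.norm_real, Real.norm_eq_abs,
        abs_of_pos (Real.exp_pos _)]
      refine le_trans (mul_le_mul_of_nonneg_right ?_ (Real.exp_pos _).le) h1
      linarith
    have h2 := sum_reps ha haL hR (fun u : ℂ => conj (a * z + u) *
        ((Real.exp (-(1 / ‖a‖ ^ 2 * t * ‖a * z + u‖ ^ 2)) : ℝ) : ℂ)) hs
    have h3 : ∀ x : ℂ, conj (a * z + a * x) *
        ((Real.exp (-(1 / ‖a‖ ^ 2 * t * ‖a * z + a * x‖ ^ 2)) : ℝ) : ℂ) =
        conj a * (conj (z + x) * ((Real.exp (-(1 * t * ‖z + x‖ ^ 2)) : ℝ) : ℂ)) := by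
      intro x
      rw [← mul_add, map_mul, norm_mul]
      have h4 : 1 / ‖a‖ ^ 2 * t * (‖a‖ * ‖z + x‖) ^ 2 = 1 * t * ‖z + x‖ ^ 2 := by
        field_simp
      rw [h4]
      ring
    simp only [h3] at h2
    rw [← h2, tsum_mul_left, mul_add, inv_mul_cancel_left₀ hca, Finset.mul_sum]
    congr 1
    refine Finset.sum_congr rfl fun q _ => ?_
    rw [tsum_mul_left, inv_mul_cancel_left₀ hca]
    simp only [add_assoc]
  have hI0 := b_INT L 1 one_pos z
  have hIq := fun q => b_INT L 1 one_pos (z + q)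
  have hIa := b_INT M (1 / ‖a‖ ^ 2) hc (a * z)
  have h1 : ee L z / ((1 : ℝ) : ℂ) + ∑ q ∈ R, ee L (z + q) / ((1 : ℝ) : ℂ) =
      (conj a)⁻¹ * (ee M (a * z) / ((1 / ‖a‖ ^ 2 : ℝ) : ℂ)) := by
    rw [← hI0.2, ← hIa.2, Finset.sum_congr rfl (fun q _ => (hIq q).2.symm),
      ← MeasureTheory.integral_finset_sum _ (fun q _ => (hIq q).1),
      ← MeasureTheory.integral_add hI0.1 (MeasureTheory.integrable_finset_sum _
        (fun q _ => (hIq q).1)), ← MeasureTheory.integral_const_mul]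
    exact MeasureTheory.setIntegral_congr_fun measurableSet_Ioi fun t ht => key t ht
  simp only [Complex.ofReal_one, div_one] at h1
  rw [h1]
  have h2 : a * conj a = ((‖a‖ ^ 2 : ℝ) : ℂ) := by
    rw [Complex.mul_conj']
    push_cast
    rfl
  have h3 : ((1 / ‖a‖ ^ 2 : ℝ) : ℂ) = (a * conj a)⁻¹ := by
    rw [h2, one_div, Complex.ofReal_inv]
  rw [h3]
  field_simp

end Pool.Agent.OBE


end

section

/-!
# OB, block E, module IDL: the level `(f p^(n+1)) = P^(er (n+1)) lv0` (helper11)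
-/

set_option autoImplicit false

open Polynomial

namespace Pool.Agent.OBE

open _root_.MU3 _root_.Pool.Agent.MU3A _root_.Pool.Agent.MU3B _root_.Pool.Agent.MUX _root_.Pool.Agent.MUXU _root_.Pool.Agent.MUXE
open _root_.Pool.Agent.RI _root_.Pool.Agent.NS _root_.Pool.Agent.OB

noncomputable section

namespace IDL

variable {A B : ℤ}

lemma nat_ne (k : ℕ) (hk : k ≠ 0) : ((k : ℕ) : OO A B) ≠ 0 := by
  intro h
  have h1 := congrArg QuadraticAlgebra.re h
  rw [QuadraticAlgebra.re_zero] at h1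
  have h2 : ((k : ℕ) : OO A B).re = (k : ℤ) := by simp
  rw [h2] at h1
  exact hk (by exact_mod_cast h1)

lemma idl_mul (a b : ℕ) : idl (A := A) (B := B) (a * b) = idl a * idl b := by
  unfold idl
  rw [Ideal.span_singleton_mul_span_singleton, Nat.cast_mul]

lemma idl_pow (a n : ℕ) : idl (A := A) (B := B) (a ^ n) = idl a ^ n := by
  unfold idl
  rw [Ideal.span_singleton_pow, Nat.cast_pow]

end IDL

open _root_.Pool.Agent.OBE.IDL in
/-- (IDL) the level `(f p^(n+1)) = P^(er (n+1)) · lv0` -/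
theorem tb_IDL : Sb_IDL := by
  intro p er A B P V al hc f n hf hpf
  have := hc.ring.ded
  have hPr := hc.prime
  have hfO : ((f : ℕ) : OO A B) ≠ 0 := nat_ne f hf
  have hif : idl (A := A) (B := B) f ≠ ⊥ := by
    unfold idl
    rw [Ne, Ideal.span_singleton_eq_bot]
    exact hfO
  have hnle : ¬ lv0 P f n ≤ P := by
    intro h
    rcases hPr.mul_le.1 h with h1 | h1
    · exact (hc.nat f hpf).2 (h1 (Ideal.mem_span_singleton_self _))
    · exact hc.cnl (hPr.le_of_pow_le h1)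
  have hcop : IsCoprime P (lv0 P f n) := by
    rw [Ideal.isCoprime_iff_sup_eq]
    exact hc.max.1.2 _ (left_lt_sup.2 hnle)
  refine ⟨?_, ?_, hnle, hcop.pow_left, ?_, Ideal.mul_le_left, ?_, ?_⟩
  · unfold lv0
    rw [idl_mul, idl_pow, hc.fac, mul_pow, ← pow_mul]
    ring
  · unfold lv0
    have h1 : idl (A := A) (B := B) f * Pc P ^ (n + 1) ≠ 0 :=
      mul_ne_zero hif (pow_ne_zero _ hc.cne)
    exact h1
  · intro y hy
    have h1 : ((p ^ n : ℕ) : OO A B) ∈ Pc P ^ n := by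
      have h2 : ((p ^ n : ℕ) : OO A B) ∈ idl (A := A) (B := B) (p ^ n) :=
        Ideal.mem_span_singleton_self _
      rw [idl_pow, hc.fac, mul_pow] at h2
      exact Ideal.mul_le_right h2
    have h3 : ((p ^ n * f : ℕ) : OO A B) * y = ((f : ℕ) : OO A B) * (((p ^ n : ℕ) : OO A B) * y) := by
      push_cast
      ring
    rw [h3]
    unfold lv0
    rw [pow_succ]
    exact Ideal.mul_mem_mul (Ideal.mem_span_singleton_self _) (Ideal.mul_mem_mul h1 hy)
  · intro a y _ hn
    have h1 : IsCoprime (1 + ((p ^ n * f * a : ℕ) : OO A B) * y) ((p ^ n * f * a : ℕ) : OO A B) :=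
      ⟨1, -y, by ring⟩
    have h2 : IsCoprime (1 + ((p ^ n * f * a : ℕ) : OO A B) * y) ((p : ℕ) : OO A B) := by
      refine IsCoprime.of_isCoprime_of_dvd_right h1 ?_
      obtain ⟨m, rfl⟩ : ∃ m, n = m + 1 := ⟨n - 1, by omega⟩
      refine ⟨((p ^ m * f * a : ℕ) : OO A B), ?_⟩
      push_cast
      ring
    have h3 : ((p ^ (n + 1) * f * a : ℕ) : OO A B) =
        ((p : ℕ) : OO A B) * ((p ^ n * f * a : ℕ) : OO A B) := by
      push_cast
      ring
    rw [h3]
    exact h2.mul_right h1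
  · unfold lvX q0
    rw [if_neg hc.p2, pow_succ]
    ring

end

end Pool.Agent.OBE


end

section

/-!
# OB, block E, module INN: integrality of the logarithmic derivatives, and the sums over `E[P]` (helper93)
-/

set_option autoImplicit false

open Polynomial

namespace Pool.Agent.OBE

open _root_.MU3 _root_.Pool.Agent.MU3A _root_.Pool.Agent.MU3B _root_.Pool.Agent.MUX _root_.Pool.Agent.MUXU _root_.Pool.Agent.MUXE
open _root_.Pool.Agent.RI _root_.Pool.Agent.NS _root_.Pool.Agent.OB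
open _root_.Pool.Agent.MUXV (GR InK tX)
open _root_.Pool.Agent.NSE (su ru WL IntP)

noncomputable section

namespace INN

/-- half systems for odd `a` -/
lemma half (L : PeriodPair) {a : ℕ} (ha0 : a ≠ 0) (hao : Odd a) :
    ∃ H : Finset ℂ, IsHalf L (a : ℂ) H :=
  b_HAL L (a : ℂ) (by exact_mod_cast ha0) (fun w hw => by
    have := nsmul_mem hw a
    rwa [nsmul_eq_mul] at this) (fun z h1 h2 => by
      obtain ⟨k, hk⟩ := hao
      have h3 := nsmul_mem h2 k
      rw [nsmul_eq_mul] at h3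
      have h4 : z = (a : ℂ) * z - (k : ℂ) * (2 * z) := by
        rw [hk]
        push_cast
        ring
      rw [h4]
      exact sub_mem h1 h3)

/-- the theta product and the logarithmic derivative at one point -/
lemma core (hTHN : Sb_THN) (hNE1 : Sb_NE1) {p er : ℕ} {A B : ℤ} {P : Ideal (OO A B)}
    {V : ValuationSubring ℂ} {al : OO A B} (hC : CtxO p er A B P V al) {L M : PeriodPair}
    {u e lam u' e' lam' mu : ℂ} (hL : NL A B L) (hM : NL A B M) (hg : GoodL V L u e lam)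
    (hg' : GoodL V M u' e' lam') (hmu : mu ≠ 0) (hI : Isg L M mu) (hk : Ker0 V L M u e mu)
    {j f a : ℕ} (hf2 : 2 ≤ f) (hf : ¬ p ∣ f) (ha0 : a ≠ 0) (ha : ¬ p ∣ a)
    (hco : a.Coprime f) {H : Finset ℂ} (hH : IsHalf M (a : ℂ) H) {z : ℂ}
    (hm : ((p ^ j * f : ℕ) : ℂ) * z ∈ M.lattice)
    (ho : ∀ c : ℕ, (c : ℂ) * z ∈ M.lattice → f ∣ c) :
    V.valuation (ThetaH M H z) = V.valuation (u' ^ 2) ^ H.card ∧
      V.valuation (mu * dlX M a z / u) ≤ 1 := by
  obtain ⟨hzK, hza, hzq⟩ := hNE1 p V M u' e' lam' hC.toCp hg' j f a hf2 hf ha hco z hm ho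
  obtain ⟨k1, k2, -⟩ := hTHN p er A B P V al hC L M u e lam u' e' lam' mu hL hM hg hg' hmu hI hk
    a H ha0 hH z hzK hza (fun q hq => hzq q (hH.mem q hq) (fun hqL => hH.ne q hq (by
      rw [two_mul]; exact add_mem hqL hqL)))
  exact ⟨k1, k2⟩

/-- an integer prime to `p` does not kill a point of order `p` -/
lemma not_mem {p : ℕ} (hp : p.Prime) {L : PeriodPair} {q : ℂ} (hpq : (p : ℂ) * q ∈ L.lattice)
    (hq : q ∉ L.lattice) {d : ℤ} (hd : ¬ (p : ℤ) ∣ d) : (d : ℂ) * q ∉ L.lattice := by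
  intro h
  apply hq
  have hc : IsCoprime (p : ℤ) d := (Nat.prime_iff_prime_int.1 hp).coprime_iff_not_dvd.2 hd
  obtain ⟨r, s, hrs⟩ := hc
  have h1 := zsmul_mem hpq r
  have h2 := zsmul_mem h s
  rw [zsmul_eq_mul] at h1 h2
  have h3 : q = (r : ℂ) * ((p : ℂ) * q) + (s : ℂ) * ((d : ℂ) * q) := by
    have h4 : ((r * p + s * d : ℤ) : ℂ) = 1 := by rw [hrs]; simp
    calc q = ((r * p + s * d : ℤ) : ℂ) * q := by rw [h4, one_mul]
      _ = _ := by push_cast; ring
  rw [h3]
  exact add_mem h1 h2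

/-- the multiples of a point of order `p` represent the nonzero classes of a kernel of order `p` -/
lemma reps {p : ℕ} (hp : p.Prime) {L M : PeriodPair} {nu : ℂ} {R : Finset ℂ}
    (hR : IsRpM L M nu R) (hc : R.card + 1 = p) {q : ℂ} (hpq : (p : ℂ) * q ∈ L.lattice)
    (hq : q ∉ L.lattice) (hnu : nu * q ∈ M.lattice) :
    ∃ R' : Finset ℂ, IsRpM L M nu R' ∧
      R' = ((Finset.range p).erase 0).image (fun t : ℕ => (t : ℂ) * q) ∧
      Set.InjOn (fun t : ℕ => (t : ℂ) * q) ((Finset.range p).erase 0 : Finset ℕ) := by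
  classical
  have hdiff : ∀ t ∈ Finset.range p, ∀ t' ∈ Finset.range p,
      (t : ℂ) * q - (t' : ℂ) * q ∈ L.lattice → t = t' := by
    intro t ht t' ht' h
    by_contra hne
    rw [Finset.mem_range] at ht ht'
    refine not_mem hp hpq hq (d := (t : ℤ) - t') ?_ ?_
    · intro hd
      have h1 : |(t : ℤ) - t'| < p := by rw [abs_lt]; constructor <;> omega
      have h2 := Int.eq_zero_of_abs_lt_dvd hd h1
      omega
    · push_cast
      rw [sub_mul]
      exact h
  have hinj : Set.InjOn (fun t : ℕ => (t : ℂ) * q) ((Finset.range p).erase 0 : Finset ℕ) := by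
    intro t ht t' ht' h
    have ht1 : t ∈ Finset.range p := Finset.mem_of_mem_erase (Finset.mem_coe.1 ht)
    have ht2 : t' ∈ Finset.range p := Finset.mem_of_mem_erase (Finset.mem_coe.1 ht')
    refine hdiff t ht1 t' ht2 ?_
    have h1 : (t : ℂ) * q = (t' : ℂ) * q := h
    rw [h1, sub_self]
    exact zero_mem _
  set T : Finset ℂ := ((Finset.range p).erase 0).image (fun t : ℕ => (t : ℂ) * q) with hT
  have hTc : T.card + 1 = p := by
    rw [hT, Finset.card_image_of_injOn hinj, Finset.card_erase_of_mem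
      (Finset.mem_range.2 hp.pos), Finset.card_range]
    have := hp.pos
    omega
  have hmem : ∀ y ∈ T, ∃ t : ℕ, t ∈ Finset.range p ∧ t ≠ 0 ∧ (t : ℂ) * q = y := by
    intro y hy
    rw [hT, Finset.mem_image] at hy
    obtain ⟨t, ht, rfl⟩ := hy
    exact ⟨t, Finset.mem_of_mem_erase ht, Finset.ne_of_mem_erase ht, rfl⟩
  have hTmem : ∀ y ∈ T, nu * y ∈ M.lattice := by
    intro y hy
    obtain ⟨t, -, -, rfl⟩ := hmem y hy
    have := nsmul_mem hnu t
    rw [nsmul_eq_mul] at this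
    have e : nu * ((t : ℂ) * q) = (t : ℂ) * (nu * q) := by ring
    rwa [e]
  have hTne : ∀ y ∈ T, y ∉ L.lattice := by
    intro y hy
    obtain ⟨t, ht, ht0, rfl⟩ := hmem y hy
    intro h
    refine ht0 (hdiff t ht 0 (Finset.mem_range.2 hp.pos) ?_)
    simpa using h
  have hTinj : ∀ y ∈ T, ∀ y' ∈ T, y - y' ∈ L.lattice → y = y' := by
    intro y hy y' hy' h
    obtain ⟨t, ht, -, rfl⟩ := hmem y hy
    obtain ⟨t', ht', -, rfl⟩ := hmem y' hy'
    rw [hdiff t ht t' ht' h]
  refine ⟨T, ⟨hTmem, hTne, hTinj, ?_⟩, rfl, hinj⟩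
  -- the map `T → R` is injective, so surjective
  have hex : ∀ y ∈ T, ∃ r ∈ R, y - r ∈ L.lattice := fun y hy =>
    hR.surj y (hTmem y hy) (hTne y hy)
  choose! g hgR hgL using hex
  have hginj : Set.InjOn g (T : Set ℂ) := by
    intro y hy y' hy' h
    refine hTinj y hy y' hy' ?_
    have h1 := hgL y hy
    have h2 := hgL y' hy'
    rw [← h] at h2
    have h3 := sub_mem h1 h2
    have e : y - g y - (y' - g y) = y - y' := by ring
    rwa [e] at h3
  have himg : T.image g = R := by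
    refine Finset.eq_of_subset_of_card_le ?_ ?_
    · intro r hr
      rw [Finset.mem_image] at hr
      obtain ⟨y, hy, rfl⟩ := hr
      exact hgR y hy
    · rw [Finset.card_image_of_injOn hginj]
      omega
  intro z hz hzL
  obtain ⟨r, hr, hzr⟩ := hR.surj z hz hzL
  rw [← himg, Finset.mem_image] at hr
  obtain ⟨y, hy, rfl⟩ := hr
  refine ⟨y, hy, ?_⟩
  have h3 := sub_mem hzr (hgL y hy)
  have e : z - g y - (y - g y) = z - y := by ring
  rwa [e] at h3

/-- the distribution relation over the multiples of a point of order `p` -/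
lemma dist (hDSM : Sb_DSM) {p : ℕ} (hp : p.Prime) {L M : PeriodPair} {nu : ℂ} {R : Finset ℂ}
    (hnu0 : nu ≠ 0) (hI : Isg L M nu) (hR : IsRpM L M nu R) (hc : R.card + 1 = p) {q : ℂ}
    (hpq : (p : ℂ) * q ∈ L.lattice) (hq : q ∉ L.lattice) (hnu : nu * q ∈ M.lattice) (z : ℂ) :
    ∑ t ∈ Finset.range p, ee L (z + t * q) = nu * ee M (nu * z) := by
  classical
  obtain ⟨R', hR', hR'e, hinj⟩ := reps hp hR hc hpq hq hnu
  have h := hDSM L M nu R' hnu0 hI hR' z
  rw [← h, hR'e, Finset.sum_image hinj, ← Finset.add_sum_erase (Finset.range p)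
    (fun t : ℕ => ee L (z + t * q)) (Finset.mem_range.2 hp.pos)]
  congr 2
  push_cast
  ring

end INN

open _root_.Pool.Agent.OBE.INN in
theorem tb_INN (hTHN : Sb_THN) (hNE1 : Sb_NE1) (hEXO : Sb_EXO) (hMUL : Sb_MUL) (hUNT : Sb_UNT)
    (hPIS : Sb_PIS) (hDSM : Sb_DSM) : Sb_INN := by
  intro p er A B P V al hC n f a hf2 hf ha3 hao hpa hco ι R u e lam hgood i x hx
  have ha0 : a ≠ 0 := by omega
  have hf0 : f ≠ 0 := by omega
  have hpp : p.Prime := hC.pp
  have hp0 : p ≠ 0 := hpp.ne_zero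
  have hring := hC.ring
  have hCp : Cp p V := hC.toCp
  obtain ⟨φ, hφ⟩ := hring.hom
  have emul : ∀ x y : OO A B, emb (x * y) = emb x * emb y := fun x y => by
    rw [← hφ, map_mul, hφ, hφ]
  have enat : ∀ n : ℕ, emb ((n : ℕ) : OO A B) = n := fun n => by rw [← hφ, map_natCast]
  have eone : emb (1 : OO A B) = 1 := by rw [← hφ, map_one]
  have hxP : x ∉ P := by
    intro h
    apply hC.max.ne_top
    rw [Ideal.eq_top_iff_one]
    obtain ⟨b1, b2, hb⟩ := hx
    rw [← hb]
    refine add_mem (Ideal.mul_mem_left _ _ h) (Ideal.mul_mem_left _ _ ?_)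
    have h2 : ((p ^ (n + 1) * f : ℕ) : OO A B) = ((p ^ n * f : ℕ) : OO A B) * ((p : ℕ) : OO A B) := by
      push_cast
      ring
    rw [h2]
    exact Ideal.mul_mem_left _ _ hC.mem
  have vx : V.valuation (emb x) = 1 := hC.unit x hxP
  have hxc : IsCoprime x ((p * f : ℕ) : OO A B) := by
    refine IsCoprime.of_isCoprime_of_dvd_right hx ?_
    refine ⟨((p ^ n : ℕ) : OO A B), ?_⟩
    push_cast
    ring
  have hpf0 : p * f ≠ 0 := Nat.mul_ne_zero hp0 hf0
  obtain ⟨hmu, hisg, N, hNp, hN⟩ := hMUL p A B hpp hring (p * f) ι R hpf0 (dvd_mul_right _ _) i x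
    hxc
  obtain ⟨hmu1, hisg1, N1, hN1p, hN1⟩ := hMUL p A B hpp hring (p * f) ι R hpf0
    (dvd_mul_right _ _) i 1 isCoprime_one_left
  obtain ⟨hEx0, -⟩ := hEXO p er A B P V al hC n f ι R hf0 hf
  obtain ⟨hAnn, -, hzl⟩ := hEx0 i x hx
  have hLi : NL A B (R.L i) := ⟨_, _, R.nl i⟩
  have hL0 : NL A B (R.L R.i0) := ⟨_, _, R.nl R.i0⟩
  obtain ⟨hm0, ho0⟩ := hzl 0 (by rw [mul_zero]; exact zero_mem _)
  rw [add_zero] at hm0
  simp only [add_zero] at ho0
  -- the first two claims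
  have main : ∀ H : Finset ℂ, IsHalf (R.L i) (a : ℂ) H → ∀ ui ei lami : ℂ,
      GoodL V (R.L i) ui ei lami → V.valuation (ThetaH (R.L i) H
        (pt R (p ^ (n + 1) * f) i x)) = V.valuation (ui ^ 2) ^ H.card ∧
      V.valuation (muX R i * dlX (R.L i) a (pt R (p ^ (n + 1) * f) i x) / u) ≤ 1 := by
    intro H hH ui ei lami hgi
    have hk : Ker0 V (R.L R.i0) (R.L i) u e (muX R i * emb x) :=
      (hUNT p V (R.L R.i0) (R.L i) u e lam ui ei lami (muX R i * emb x) hCp hgood hgi hmu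
        hisg).2 N hNp hN
    obtain ⟨k1, k2⟩ := core hTHN hNE1 hC hL0 hLi hgood hgi hmu hisg hk hf2 hf ha0 hpa hco hH
      hm0 ho0
    refine ⟨k1, ?_⟩
    have e1 : muX R i * emb x * dlX (R.L i) a (pt R (p ^ (n + 1) * f) i x) / u =
        emb x * (muX R i * dlX (R.L i) a (pt R (p ^ (n + 1) * f) i x) / u) := by ring
    rwa [e1, map_mul, vx, one_mul] at k2
  obtain ⟨H0, hH0⟩ := half (R.L i) ha0 hao
  obtain ⟨ui, ei, lami, hgi⟩ := hC.good (R.L i) hLi
  refine ⟨fun H hH ui ei lami hgi => (main H hH ui ei lami hgi).1, (main H0 hH0 ui ei lami hgi).2,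
    fun her q hqT hqL => ?_⟩
  -- the sums over `E[P]`
  obtain ⟨M, nu, hM, hQ⟩ := hC.exq (R.L i) hLi
  obtain ⟨uM, eM, lamM, hgM⟩ := hC.good M hM
  obtain ⟨hpis, ⟨RR, hRR, hRRc⟩, -⟩ := hPIS p er A B P V al hC (R.L i) M nu ui ei lami uM eM lamM
    hLi hM hQ hgi hgM
  rw [(hC.nP her).1] at hRRc
  have hnu0 : nu ≠ 0 := hQ.1
  have hIsg : Isg (R.L i) M nu := by
    intro w hw
    rw [hQ.2]
    intro y _
    obtain ⟨b, om, hb⟩ := hLi
    obtain ⟨c, hc, rfl⟩ := (hb.mem w).1 hw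
    exact (hb.mem _).2 ⟨y * c, b.mul_mem_left y hc, by rw [emul]; ring⟩
  have hpz : ∀ z : ℂ, Tor P (R.L i) z → (p : ℂ) * z ∈ (R.L i).lattice := by
    intro z hz
    have := hz ((p : ℕ) : OO A B) hC.mem
    rwa [enat] at this
  have hnuz : ∀ z : ℂ, Tor P (R.L i) z → nu * z ∈ M.lattice := fun z hz => (hQ.2 z).2 hz
  have haqT : Tor P (R.L i) ((a : ℂ) * q) := by
    intro y hy
    have h1 := nsmul_mem (hqT y hy) a
    rw [nsmul_eq_mul] at h1
    have e : emb y * ((a : ℂ) * q) = (a : ℂ) * (emb y * q) := by ring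
    rwa [e]
  have haqL : (a : ℂ) * q ∉ (R.L i).lattice := by
    have h := not_mem hpp (hpz q hqT) hqL (d := (a : ℤ)) (by exact_mod_cast hpa)
    simpa using h
  set z := pt R (p ^ (n + 1) * f) i x with hz
  have hs1 := dist hDSM hpp hnu0 hIsg hRR hRRc (hpz q hqT) hqL (hnuz q hqT) z
  have hs2 := dist hDSM hpp hnu0 hIsg hRR hRRc (hpz _ haqT) haqL (hnuz _ haqT) ((a : ℂ) * z)
  have hsum : ∑ t ∈ Finset.range p, dlX (R.L i) a (z + t * q) = nu * dlX M a (nu * z) := by
    unfold dlX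
    rw [Finset.sum_sub_distrib, ← Finset.mul_sum, ← Finset.mul_sum, hs1]
    have e2 : ∑ t ∈ Finset.range p, ee (R.L i) ((a : ℂ) * (z + t * q)) =
        ∑ t ∈ Finset.range p, ee (R.L i) ((a : ℂ) * z + t * ((a : ℂ) * q)) := by
      refine Finset.sum_congr rfl fun t _ => ?_
      congr 1
      ring
    rw [e2, hs2]
    have e3 : nu * ((a : ℂ) * z) = (a : ℂ) * (nu * z) := by ring
    rw [e3]
    ring
  obtain ⟨HM, hHM⟩ := half M ha0 hao
  have hm1 : ((p ^ (n + 1) * f : ℕ) : ℂ) * (nu * z) ∈ M.lattice := by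
    have e2 : ((p ^ (n + 1) * f : ℕ) : ℂ) * (nu * z) = nu * (((p ^ (n + 1) * f : ℕ) : ℂ) * z) := by
      ring
    rw [e2]
    exact hIsg _ hm0
  have ho1 : ∀ c : ℕ, (c : ℂ) * (nu * z) ∈ M.lattice → f ∣ c := by
    intro c hc
    have e2 : (c : ℂ) * (nu * z) = nu * ((c : ℂ) * z) := by ring
    rw [e2, hQ.2] at hc
    have h1 := hc ((p : ℕ) : OO A B) hC.mem
    rw [enat] at h1
    have h2 : f ∣ p * c := ho0 (p * c) (by push_cast; rw [mul_assoc]; exact h1)
    have h3 : Nat.Coprime f p := ((Nat.Prime.coprime_iff_not_dvd hpp).2 hf).symm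
    exact h3.dvd_of_dvd_mul_left h2
  have hone : Isg M M 1 := fun w hw => by rwa [one_mul]
  obtain ⟨-, k2⟩ := core hTHN hNE1 hC hM hM hgM hgM one_ne_zero hone
    (fun w hw _ => by rwa [one_mul] at hw) hf2 hf ha0 hpa hco hHM hm1 ho1
  rw [one_mul] at k2
  have hu1 : V.valuation (muX R i * ui / u) = 1 := by
    have hU := hUNT p V (R.L R.i0) (R.L i) u e lam ui ei lami (muX R i * emb 1) hCp hgood hgi
      hmu1 hisg1
    have h1 := hU.1.1 (hU.2 N1 hN1p hN1)
    rwa [eone, mul_one] at h1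
  have hui0 := hgi.u0
  have huM0 := hgM.u0
  have hu0 := hgood.u0
  have e4 : muX R i * (∑ t ∈ Finset.range p, dlX (R.L i) a (z + t * q)) / u =
      (muX R i * ui / u) * ((nu * uM / ui) * (dlX M a (nu * z) / uM)) := by
    rw [hsum]
    field_simp
  rw [e4, map_mul, hu1, one_mul, map_mul, hpis]
  exact mul_le_of_le_one_right' k2

end

end Pool.Agent.OBE


end

section

/-!
# OB, block E, module ISO: the isogeny on the points of `SP`
-/

set_option autoImplicit false

open Polynomial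

namespace Pool.Agent.OBE

open _root_.MU3 _root_.Pool.Agent.MU3A _root_.Pool.Agent.MU3B _root_.Pool.Agent.MUX _root_.Pool.Agent.MUXU _root_.Pool.Agent.MUXE
open _root_.Pool.Agent.RI _root_.Pool.Agent.NS _root_.Pool.Agent.OB
open _root_.Pool.Agent.MUXV (GR InK tX)
open _root_.Pool.Agent.NSE (su ru WL IntP)

noncomputable section

namespace ISO

variable {V : ValuationSubring ℂ}

lemma intP_iff {P : ℂ[X]} : IntP V P ↔ ∃ p : V[X], p.map (algebraMap V ℂ) = P := by
  constructor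
  · intro h
    have h1 : P ∈ Polynomial.lifts (algebraMap V ℂ) := by
      rw [Polynomial.lifts_iff_coeff_lifts]
      intro n
      exact ⟨⟨P.coeff n, (V.valuation_le_one_iff _).1 (h n)⟩, rfl⟩
    exact (Polynomial.mem_lifts _).1 h1
  · rintro ⟨p, rfl⟩ i
    rw [Polynomial.coeff_map]
    exact (V.valuation_le_one_iff _).2 (p.coeff i).2

lemma intP_W {P Q : ℂ[X]} (hP : IntP V P) (hQ : IntP V Q) :
    IntP V (derivative P * Q - P * derivative Q) := by
  obtain ⟨p, rfl⟩ := intP_iff.1 hP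
  obtain ⟨q, rfl⟩ := intP_iff.1 hQ
  refine intP_iff.2 ⟨derivative p * q - p * derivative q, ?_⟩
  rw [Polynomial.map_sub, Polynomial.map_mul, Polynomial.map_mul, Polynomial.derivative_map,
    Polynomial.derivative_map]

lemma intP_reflect {P : ℂ[X]} (N : ℕ) (h : IntP V P) : IntP V (reflect N P) := fun i => by
  rw [coeff_reflect]
  exact h _

lemma eval_reflect {P : ℂ[X]} {N : ℕ} (hf : P.natDegree ≤ N) {x : ℂ} (hx : x ≠ 0) :
    P.eval x = x ^ N * (reflect N P).eval x⁻¹ := by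
  let _ := invertibleOfNonzero hx
  have h := eval₂_reflect_mul_pow (RingHom.id ℂ) x N P hf
  rw [invOf_eq_inv] at h
  unfold Polynomial.eval
  rw [← h, mul_comm]

lemma eval_reflect_zero (P : ℂ[X]) (N : ℕ) : (reflect N P).eval 0 = P.coeff N := by
  rw [← coeff_zero_eq_eval_zero, coeff_reflect, revAt_zero]

lemma deg_W {P Q : ℂ[X]} (hPQ : P.natDegree = Q.natDegree + 1) :
    (derivative P * Q - P * derivative Q).natDegree ≤ Q.natDegree + Q.natDegree := by
  refine (natDegree_sub_le _ _).trans (max_le ?_ ?_)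
  · refine natDegree_mul_le.trans ?_
    have h := natDegree_derivative_le P
    omega
  · rcases Nat.eq_zero_or_pos Q.natDegree with h0 | h0
    · have h1 : derivative Q = 0 := by
        rw [eq_C_of_natDegree_eq_zero h0, derivative_C]
      rw [h1, mul_zero, natDegree_zero]
      omega
    · refine natDegree_mul_le.trans ?_
      have h := natDegree_derivative_le Q
      omega

lemma coeff_W {P Q : ℂ[X]} (hm : P.Monic) (hPQ : P.natDegree = Q.natDegree + 1) :
    (derivative P * Q - P * derivative Q).coeff (Q.natDegree + Q.natDegree) =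
      Q.leadingCoeff := by
  have hP1 : P.coeff (Q.natDegree + 1) = 1 := by
    rw [← hPQ]
    exact hm
  have h1 : (derivative P * Q).coeff (Q.natDegree + Q.natDegree) =
      (Q.natDegree + 1) * Q.leadingCoeff := by
    have h' : (derivative P).natDegree ≤ Q.natDegree := by
      have h := natDegree_derivative_le P
      omega
    rw [coeff_mul_add_eq_of_natDegree_le h' le_rfl, coeff_derivative, hP1, one_mul]
    rfl
  have h2 : (P * derivative Q).coeff (Q.natDegree + Q.natDegree) =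
      Q.natDegree * Q.leadingCoeff := by
    rcases Nat.eq_zero_or_pos Q.natDegree with h0 | h0
    · have h1 : derivative Q = 0 := by
        rw [eq_C_of_natDegree_eq_zero h0, derivative_C]
      rw [h1, mul_zero, coeff_zero, h0, Nat.cast_zero, zero_mul]
    · obtain ⟨d, hd⟩ : ∃ d, Q.natDegree = d + 1 := ⟨Q.natDegree - 1, by omega⟩
      have h3 : Q.natDegree + Q.natDegree = (d + 2) + d := by omega
      have h4 : (derivative Q).natDegree ≤ d := by
        have h := natDegree_derivative_le Q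
        omega
      have h5 : P.natDegree ≤ d + 2 := by omega
      rw [h3, coeff_mul_add_eq_of_natDegree_le h5 h4, coeff_derivative]
      have h6 : P.coeff (d + 2) = 1 := by
        rw [hd] at hP1
        exact hP1
      rw [h6, one_mul]
      unfold Polynomial.leadingCoeff
      rw [hd]
      push_cast
      ring
  rw [coeff_sub, h1, h2]
  ring

end ISO

open _root_.Pool.Agent.OBE.ISO in
/-- ISO. -/
theorem tb_ISO (h1 : Sb_ALG) (h2 : Sb_PRO) (h3 : Sb_PTS) (h5 : Sb_UNT) (h6 : Sb_RAT) :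
    Sb_ISO := by
  intro p er A B Pi V al hctx L M u e lam u' e' lam' μ hNL hNM hL hM hμ hI hK
  obtain ⟨hpts, hin, -⟩ := h3 p er A B Pi V al hctx L u e lam hNL hL
  have hE : ∀ Y ∈ SP Pi er L, μ * Y ∈ SP Pi er M := by
    rintro Y ⟨hY3, hY⟩
    refine ⟨fun x hx => ?_, fun hmem => hY (hK Y hmem (hin Y ⟨hY3, hY⟩).1)⟩
    have h7 := hI _ (hY3 x hx)
    rwa [mul_left_comm] at h7
  refine ⟨hE, ?_⟩
  have hν := ((h5 p V L M u e lam u' e' lam' μ hctx.toCp hL hM hμ hI).1).1 hK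
  obtain ⟨P, Q, hP, hQ, hPm, hPQ, hQl, hPE⟩ := h6 p V L M u e lam u' e' lam' μ hctx.toCp hL hM hμ hI hK
  set ν : ℂ := μ * u' / u with hνdef
  have hν0 : ν ≠ 0 := by
    intro h0
    rw [h0, map_zero] at hν
    exact zero_ne_one hν
  obtain ⟨hc, hs, hr, hch, -, hmul, hinv, -, -⟩ :=
    h1 p V (SP Pi er L) (su L u e) (ru L u e) (-(1 + lam)) lam hpts
  obtain ⟨hpol, -, -⟩ := h2 p V (SP Pi er L) (su L u e) (ru L u e) (-(1 + lam)) lam hpts
  -- exact change of representatives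
  have hch0 : ∀ (F G : ℂ → ℂ) (α β α' β' : ℂ), RepO p V (SP Pi er L) (su L u e) (ru L u e) F α β →
      (∀ Y ∈ SP Pi er L, G Y = F Y) → α' = α → β' = β →
      RepO p V (SP Pi er L) (su L u e) (ru L u e) G α' β' := by
    intro F G α β α' β' hF hG ha hb
    refine hch F G α β α' β' hF hG ?_ ?_
    · rw [ha, sub_self, map_zero]
      exact zero_le
    · rw [hb, sub_self, map_zero]
      exact zero_le
  have hpR : ∀ (R : ℂ[X]) (n : ℕ), IntP V R → RepO p V (SP Pi er L) (su L u e) (ru L u e)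
      (fun Y => (reflect n R).eval (su L u e Y)) (R.coeff n) 0 := by
    intro R n hR
    refine hch0 _ _ _ _ _ _ (hpol (su L u e) 0 0 (reflect n R) hs (intP_reflect n hR))
      (fun _ _ => rfl) ?_ ?_
    · rw [eval_reflect_zero]
    · rw [zero_mul]
  have hP1 : P.coeff (Q.natDegree + 1) = 1 := by
    rw [← hPQ]
    exact hPm
  have rp := hpR P (Q.natDegree + 1) hP
  rw [hP1] at rp
  have rq := hpR Q Q.natDegree hQ
  have rw' := hpR (derivative P * Q - P * derivative Q) (Q.natDegree + Q.natDegree) (intP_W hP hQ)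
  rw [coeff_W hPm hPQ, hQl] at rw'
  have hq0 : Q.coeff Q.natDegree = ν ^ 2 := hQl
  rw [hq0] at rq
  obtain ⟨hpu, rpi⟩ := hinv _ 1 0 rp (map_one _)
  have rpi' : RepO p V (SP Pi er L) (su L u e) (ru L u e)
      (fun Y => ((reflect (Q.natDegree + 1) P).eval (su L u e Y))⁻¹) 1 0 := by
    refine hch0 _ _ _ _ _ _ rpi (fun _ _ => rfl) ?_ ?_
    · rw [inv_one]
    · rw [neg_zero, zero_div]
  have r1 := hmul _ _ _ _ _ _ hs (hmul _ _ _ _ _ _ rq rpi')
  have hνi : V.valuation ν⁻¹ ≤ 1 := by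
    rw [map_inv₀, hν, inv_one]
  have r2 := hmul _ _ _ _ _ _ (hc ν⁻¹ hνi)
    (hmul _ _ _ _ _ _ hr (hmul _ _ _ _ _ _ rw' (hmul _ _ _ _ _ _ rpi' rpi')))
  -- the identities
  have key : ∀ Y ∈ SP Pi er L,
      su M u' e' (μ * Y) = su L u e Y * ((reflect Q.natDegree Q).eval (su L u e Y) *
        ((reflect (Q.natDegree + 1) P).eval (su L u e Y))⁻¹) ∧
      ru M u' e' (μ * Y) = ν⁻¹ * (ru L u e Y *
        ((reflect (Q.natDegree + Q.natDegree) (derivative P * Q - P * derivative Q)).eval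
          (su L u e Y) * (((reflect (Q.natDegree + 1) P).eval (su L u e Y))⁻¹ *
            ((reflect (Q.natDegree + 1) P).eval (su L u e Y))⁻¹))) := by
    intro Y hY
    obtain ⟨-, hx0⟩ := hin Y hY
    obtain ⟨e1, e2⟩ := hPE Y (hE Y hY).2
    have hp1 := hpu Y hY
    have hPe := eval_reflect (P := P) (N := Q.natDegree + 1) hPQ.le hx0
    have hQe := eval_reflect (P := Q) (N := Q.natDegree) le_rfl hx0
    have hWe := eval_reflect (P := derivative P * Q - P * derivative Q) (deg_W hPQ) hx0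
    have hsu : su L u e Y = (xu L u e Y)⁻¹ := rfl
    have hru : ru L u e Y = -yu L u Y / xu L u e Y ^ 2 := rfl
    have hsu' : su M u' e' (μ * Y) = (xu M u' e' (μ * Y))⁻¹ := rfl
    have hru' : ru M u' e' (μ * Y) = -yu M u' (μ * Y) / xu M u' e' (μ * Y) ^ 2 := rfl
    rw [hsu] at hp1 ⊢
    rw [hru, hsu', hru']
    rw [hQe, hPe] at e1
    rw [hQe, hWe] at e2
    clear hPe hQe hWe hsu hru hsu' hru' r1 r2 rp rq rw' rpi rpi'
    generalize (reflect (Q.natDegree + 1) P).eval (xu L u e Y)⁻¹ = pp at *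
    generalize (reflect Q.natDegree Q).eval (xu L u e Y)⁻¹ = q at *
    generalize (reflect (Q.natDegree + Q.natDegree)
      (derivative P * Q - P * derivative Q)).eval (xu L u e Y)⁻¹ = w at *
    generalize xu L u e Y = x at *
    generalize xu M u' e' (μ * Y) = x' at *
    generalize yu L u Y = y at *
    generalize yu M u' (μ * Y) = y' at *
    generalize Q.natDegree = d at *
    have hp0 : pp ≠ 0 := by
      intro h0
      rw [h0, map_zero] at hp1
      exact zero_ne_one hp1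
    have hxd : x ^ d ≠ 0 := pow_ne_zero _ hx0
    have e1' : x' * q = x * pp := by
      apply mul_left_cancel₀ hxd
      rw [pow_succ] at e1
      linear_combination e1
    have hx'0 : x' ≠ 0 := by
      rintro rfl
      rw [zero_mul] at e1'
      exact mul_ne_zero hx0 hp0 e1'.symm
    have hq0 : q ≠ 0 := by
      rintro rfl
      rw [mul_zero] at e1'
      exact mul_ne_zero hx0 hp0 e1'.symm
    have e2' : ν * y' * q ^ 2 = y * w := by
      apply mul_left_cancel₀ (mul_ne_zero hxd hxd)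
      rw [pow_add] at e2
      linear_combination e2
    constructor
    · field_simp
      linear_combination -e1'
    · have hx'e : x' = x * pp / q := by
        field_simp
        exact e1'
      have hy'e : y' = y * w / (ν * q ^ 2) := by
        field_simp
        linear_combination e2'
      rw [hx'e, hy'e]
      field_simp
  refine ⟨?_, ?_⟩
  · refine hch0 _ _ _ _ _ _ r1 (fun Y hY => (key Y hY).1) ?_ ?_
    · rw [zero_mul]
    · ring
  · refine hch0 _ _ _ _ _ _ r2 (fun Y hY => (key Y hY).2) ?_ ?_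
    · ring
    · field_simp
      ring

end

end Pool.Agent.OBE


end

section

/-!
# OB, block E, module KIS (helper20): isogenies preserve the kernel of reduction
-/

set_option autoImplicit false

open Polynomial

namespace Pool.Agent.OBE

open _root_.MU3 _root_.Pool.Agent.MU3A _root_.Pool.Agent.MU3B _root_.Pool.Agent.MUX _root_.Pool.Agent.MUXU _root_.Pool.Agent.MUXE
open _root_.Pool.Agent.RI _root_.Pool.Agent.NS _root_.Pool.Agent.OB
open _root_.Pool.Agent.MUXV (GR InK tX)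
open _root_.Pool.Agent.NSE (su ru WL IntP)

noncomputable section

namespace KIS

variable {V : ValuationSubring ℂ}

theorem lead {P : ℂ[X]} (hP : IntP V P) (hl : V.valuation P.leadingCoeff = 1) {t : ℂ}
    (ht : 1 < V.valuation t) : V.valuation (P.eval t) = V.valuation t ^ P.natDegree := by
  have h0 : V.valuation t ≠ 0 := fun h => by
    rw [h] at ht
    exact absurd ht (not_lt.2 zero_le_one)
  have h1 : V.valuation (P.leadingCoeff * t ^ P.natDegree) = V.valuation t ^ P.natDegree := by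
    rw [map_mul, hl, one_mul, map_pow]
  have h2 : V.valuation (∑ i ∈ Finset.range P.natDegree, P.coeff i * t ^ i) <
      V.valuation t ^ P.natDegree := by
    apply Valuation.map_sum_lt _ (pow_ne_zero _ h0)
    intro i hi
    rw [map_mul, map_pow]
    calc V.valuation (P.coeff i) * V.valuation t ^ i ≤ 1 * V.valuation t ^ i :=
          mul_le_mul_left (hP i) _
      _ = V.valuation t ^ i := one_mul _
      _ < V.valuation t ^ P.natDegree := pow_lt_pow_right₀ ht (Finset.mem_range.1 hi)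
  rw [eval_eq_sum_range, Finset.sum_range_succ, add_comm]
  rw [← h1] at h2
  have h3 := Valuation.map_add_eq_of_lt_left V.valuation h2
  rw [← h1]
  exact h3

end KIS

open _root_.Pool.Agent.OBE.KIS in
theorem tb_KIS (h1 : Sb_RAT) (h2 : Sb_UNT) : Sb_KIS := by
  intro p V L M u e lam u' e' lam' μ hp hL hM hμ hI hK z hz hzL
  have hμz : μ * z ∉ M.lattice := fun h => hzL (hK z h hz)
  obtain ⟨P, Q, iP, iQ, mP, dP, lQ, hid⟩ := h1 p V L M u e lam u' e' lam' μ hp hL hM hμ hI hK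
  have hu := (h2 p V L M u e lam u' e' lam' μ hp hL hM hμ hI).1.1 hK
  have hX : 1 < V.valuation (xu L u e z) := by
    rcases hz with h | h
    · exact absurd h hzL
    · rw [← V.valuation_le_one_iff, not_le] at h
      exact h
  have h0 : V.valuation (xu L u e z) ≠ 0 := fun h => by
    rw [h] at hX
    exact absurd hX (not_lt.2 zero_le_one)
  have eP := lead iP (by rw [mP.leadingCoeff, map_one]) hX
  have eQ := lead iQ (by rw [lQ, map_pow, hu, one_pow]) hX
  have e1 := congrArg V.valuation (hid z hμz).1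
  rw [map_mul, eP, eQ, dP, pow_succ, mul_comm (V.valuation (xu L u e z) ^ Q.natDegree)] at e1
  have e2 : V.valuation (xu M u' e' (μ * z)) = V.valuation (xu L u e z) :=
    mul_right_cancel₀ (pow_ne_zero _ h0) e1
  refine ⟨hμz, Or.inr ?_, e2⟩
  rw [← V.valuation_le_one_iff, not_le, e2]
  exact hX

end

end Pool.Agent.OBE


end

section

/-!
# OB, block E, module LEG (helper95, after `NS/F_LEG.lean` by helper86): the points of order two
-/

set_option autoImplicit false

open Polynomial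

namespace Pool.Agent.OBE

open _root_.MU3 Pool.Agent.MU3A Pool.Agent.MU3B Pool.Agent.MUX Pool.Agent.MUXU Pool.Agent.MUXE
open Pool.Agent.RI Pool.Agent.NS Pool.Agent.OB
open Pool.Agent.MUXV (GR InK tX)

noncomputable section

theorem tb_LEG : Sb_LEG := by
  intro p V L u e lam hp h
  have hu := h.u0
  obtain ⟨w₁, hw₁, h1⟩ := b_SUR L e
  obtain ⟨w₂, hw₂, h2⟩ := b_SUR L (e + u ^ 2)
  have x1 : xu L u e w₁ = 0 := by
    unfold xu
    rw [h1]
    simp
  have x2 : xu L u e w₂ = 1 := by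
    unfold xu
    rw [h2]
    field_simp
    ring
  have key : ∀ w : ℂ, w ∉ L.lattice → (xu L u e w = 0 ∨ xu L u e w = 1) →
      2 * w ∈ L.lattice := by
    intro w hw hx
    have h5 : yu L u w ^ 2 = xu L u e w * (xu L u e w - 1) * (xu L u e w - lam) := h.eq w hw
    have h6 : yu L u w ^ 2 = 0 := by
      rw [h5]
      rcases hx with hx | hx
      · rw [hx]
        ring
      · rw [hx]
        ring
    have h7 : yu L u w = 0 := by
      exact pow_eq_zero_iff (two_ne_zero) |>.mp h6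
    have h8 : L.derivWeierstrassP w = 0 := by
      unfold yu at h7
      rcases div_eq_zero_iff.mp h7 with h9 | h9
      · exact h9
      · exact absurd h9 (mul_ne_zero two_ne_zero (pow_ne_zero 3 hu))
    exact (b_ZER L w hw).mp h8
  refine ⟨w₁, w₂, key w₁ hw₁ (Or.inl x1), hw₁, key w₂ hw₂ (Or.inr x2), hw₂, h1, ?_, x1⟩
  rw [h1, h2]
  ring

end

end Pool.Agent.OBE


end

section

/-!
# OB, block E, module ONE: Lemma E for products over finite families of points (helper96; model helper76, helper86)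
-/

set_option autoImplicit false

open Polynomial

namespace Pool.Agent.OBE

open _root_.MU3 _root_.Pool.Agent.MU3A _root_.Pool.Agent.MU3B _root_.Pool.Agent.MUX _root_.Pool.Agent.MUXU _root_.Pool.Agent.MUXE
open _root_.Pool.Agent.RI _root_.Pool.Agent.NS _root_.Pool.Agent.OB
open _root_.Pool.Agent.MUXV (GR InK tX)
open _root_.Pool.Agent.NSE (su ru WL IntP)

noncomputable section

namespace ONE

/-- `|H|` is divisible by `p` -/
lemma cardp {L : PeriodPair} {p a : ℕ} {H : Finset ℂ} (hp : p.Prime) (hp2 : p ≠ 2) (ha : 1 ≤ a)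
    (hpa : p ∣ a - 1) (hH : IsHalf L (a : ℂ) H) : p ∣ H.card := by
  obtain ⟨-, -, h⟩ := b_HRE L a H (by exact_mod_cast (by omega : a ≠ 0)) (fun w hw => by
    have := nsmul_mem hw a
    rwa [nsmul_eq_mul] at this) hH
  have h1 : 2 * H.card + 1 = a ^ 2 := by
    rw [Complex.norm_natCast] at h
    exact_mod_cast h
  obtain ⟨t, ht⟩ := hpa
  have h2 : a = p * t + 1 := by omega
  have h3 : 2 * H.card = p * (t * (p * t + 2)) := by
    have h4 : a ^ 2 = p * (t * (p * t + 2)) + 1 := by rw [h2]; ring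
    omega
  have h5 : p ∣ 2 * H.card := ⟨_, h3⟩
  rcases (Nat.Prime.dvd_mul hp).1 h5 with h6 | h6
  · exact absurd ((Nat.prime_dvd_prime_iff_eq hp Nat.prime_two).1 h6) hp2
  · exact h6

lemma usq (h5 : Sb_LEG) (h7 : Sb_UNR) {p er : ℕ} {A B : ℤ} {P : Ideal (OO A B)}
    {V : ValuationSubring ℂ} {al : OO A B} (hC : CtxO p er A B P V al)
    (hT : TorX A B) {L : PeriodPair} {u e lam : ℂ} (hL : NL A B L) (hg : GoodL V L u e lam) :
    ∃ k : ℤ, V.valuation (u ^ 2) = V.valuation (emb al) ^ k := by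
  obtain ⟨w₁, w₂, h1, h1', h2, h2', he, hu, -⟩ := h5 p V L u e lam hC.toCp hg
  have hring := hC.ring
  obtain ⟨φ, hφ⟩ := hring.hom
  have e2 : emb ((2 : ℕ) : OO A B) = 2 := by rw [← hφ, map_natCast]; norm_num
  obtain ⟨-, hx, -⟩ := te_FAC te_TRA A B hring
  have hsp := (te_TRA A B hring L hL).2.2.2.2.1
  have m1 : xn L w₁ ∈ RF (idl (A := A) (B := B) 2) :=
    (hx _ L hL).2 w₁ ((hsp _ _).2 (by rw [e2]; exact h1)) h1'
  have m2 : xn L w₂ ∈ RF (idl (A := A) (B := B) 2) :=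
    (hx _ L hL).2 w₂ ((hsp _ _).2 (by rw [e2]; exact h2)) h2'
  have e3 : u ^ 2 = xn L w₂ - xn L w₁ := by
    rw [← hu, xn, xn]
    ring
  have hp2 : ¬ p ∣ 2 := fun h => hC.p2 ((Nat.prime_dvd_prime_iff_eq hC.pp Nat.prime_two).1 h)
  refine h7 p er A B P V al hC hT (idl (A := A) (B := B) 2) ?_ ?_ _ ?_ (pow_ne_zero 2 hg.u0)
  · intro h
    rw [Ideal.span_singleton_eq_bot] at h
    have h3 := congrArg emb h
    rw [e2, ← hφ 0, map_zero] at h3
    norm_num at h3
  · intro h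
    exact (hC.nat 2 hp2).2 (h (Ideal.mem_span_singleton_self _))
  · rw [e3]
    exact sub_mem m2 m1

lemma theta_per (L : PeriodPair) (H : Finset ℂ) (z v : ℂ) (hv : v ∈ L.lattice) :
    ThetaH L H (z + v) = ThetaH L H z := by
  have h2 : L.weierstrassP (z + v) = L.weierstrassP z := L.weierstrassP_add_coe z ⟨v, hv⟩
  simp only [ThetaH, h2]

/-- everything about one point `(i, x)` -/
lemma point (hLEG : Sb_LEG) (hTHN : Sb_THN) (hUNT : Sb_UNT) (hUNR : Sb_UNR) (hNE1 : Sb_NE1)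
    (hMUL : Sb_MUL) {p er : ℕ} {A B : ℤ} {P : Ideal (OO A B)} {V : ValuationSubring ℂ}
    {al : OO A B} (hC : CtxO p er A B P V al) (hT : TorX A B) {n f a : ℕ}
    (hf3 : 3 ≤ f) (hf : ¬ p ∣ f) (ha : 3 ≤ a) (hpa : p ∣ a - 1) (hco : a.Coprime f) {ι : Type}
    (R : Reps A B (p * f) ι) {u e lam : ℂ} (hgood : GoodL V (R.L R.i0) u e lam)
    {H : ι → Finset ℂ} (hH : ∀ i, IsHalf (R.L i) (a : ℂ) (H i)) (i : ι) (x : OO A B)
    (hx : IsCoprime x ((p ^ (n + 1) * f : ℕ) : OO A B)) :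
    Isg (R.L R.i0) (R.L i) (muX R i * emb x) ∧
    pt R (p ^ (n + 1) * f) i x = muX R i * (emb x * (R.om R.i0 / (p ^ (n + 1) * f : ℕ))) ∧
    ((p ^ (n + 1) * f : ℕ) : ℂ) * pt R (p ^ (n + 1) * f) i x ∈ (R.L i).lattice ∧
    pt R (p ^ (n + 1) * f) i x ∉ (R.L i).lattice ∧
    (∃ k : ℤ, V.valuation (ThetaH (R.L i) (H i) (pt R (p ^ (n + 1) * f) i x)) =
      V.valuation (emb al) ^ (p * k)) ∧
    RepO p V (SP P er (R.L R.i0)) (su (R.L R.i0) u e) (ru (R.L R.i0) u e)
      (fun Y => ThetaH (R.L i) (H i) (pt R (p ^ (n + 1) * f) i x + muX R i * emb x * Y) /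
        ThetaH (R.L i) (H i) (pt R (p ^ (n + 1) * f) i x)) 1
      (muX R i * emb x * dlX (R.L i) a (pt R (p ^ (n + 1) * f) i x) / u) := by
  have hring := hC.ring
  have hp0 := hC.pp.pos
  have hpa' : ¬ p ∣ a := by
    intro h
    have h1 : p ∣ a - (a - 1) := Nat.dvd_sub h hpa
    rw [show a - (a - 1) = 1 by omega, Nat.dvd_one] at h1
    exact hC.pp.one_lt.ne' h1
  have hxn : IsCoprime x ((p * f : ℕ) : OO A B) := by
    refine hx.of_isCoprime_of_dvd_right ⟨((p ^ n : ℕ) : OO A B), ?_⟩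
    push_cast
    ring
  have hpf0 : p * f ≠ 0 := mul_ne_zero (by omega) (by omega)
  obtain ⟨hmu, hisg, N, hN3, hN⟩ := hMUL p A B hC.pp hring (p * f) ι R hpf0 (dvd_mul_right _ _) i x
    hxn
  have hm0 : p ^ (n + 1) * f ≠ 0 := mul_ne_zero (pow_ne_zero _ (by omega)) (by omega)
  have hmf : (p ^ (n + 1) * f).primeFactors ⊆ (p * f).primeFactors := by
    rw [Nat.primeFactors_mul (pow_ne_zero _ (by omega)) (by omega),
      Nat.primeFactors_pow _ (by omega), Nat.primeFactors_mul (by omega) (by omega)]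
  obtain ⟨-, -, -, hpt⟩ := te_PT te_TRA A B hring (p * f) ι R hpf0 i
  obtain ⟨hz, hzm, hzo, -⟩ := hpt (p ^ (n + 1) * f) hm0 hmf x
  obtain ⟨u', e', lam', hg'⟩ := hC.good (R.L i) ⟨_, _, R.nl i⟩
  obtain ⟨hzK, hza, hzq⟩ := hNE1 p V (R.L i) u' e' lam' hC.toCp hg' (n + 1) f a (by omega) hf hpa'
    hco _ hzm (fun c hc => (dvd_mul_left f _).trans (hzo hx c hc))
  have hK0 : Ker0 V (R.L R.i0) (R.L i) u e (muX R i * emb x) :=
    (hUNT p V (R.L R.i0) (R.L i) u e lam u' e' lam' _ hC.toCp hgood hg' hmu hisg).2 N hN3 hN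
  obtain ⟨k1, -, k3⟩ := hTHN p er A B P V al hC (R.L R.i0) (R.L i) u e lam u' e' lam'
    (muX R i * emb x) ⟨_, _, R.nl _⟩ ⟨_, _, R.nl i⟩ hgood
    hg' hmu hisg hK0 a (H i) (by omega) (hH i) _ hzK hza (fun q hq =>
      hzq q ((hH i).mem q hq) (fun hqL => (hH i).ne q hq (by
        rw [two_mul]; exact add_mem hqL hqL)))
  obtain ⟨k, hk⟩ := usq hLEG hUNR hC hT ⟨_, _, R.nl i⟩ hg'
  obtain ⟨t, ht⟩ := cardp hC.pp hC.p2 (by omega) hpa (hH i)
  refine ⟨hisg, hz, hzm, fun h => hzK (Or.inl h), ⟨k * t, ?_⟩, k3⟩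
  rw [k1, hk, ht, ← zpow_natCast, ← zpow_mul]
  congr 1
  push_cast
  ring

/-- the product of the functions `G y` -/
lemma asm (hALG : Sb_ALG) (hPRO : Sb_PRO) {p : ℕ} {V : ValuationSubring ℂ} {S : Set ℂ}
    {s r : ℂ → ℂ} {a2 a4 : ℂ} (hP : PtsO p V S s r a2 a4) {J κ : Type} [Fintype J]
    (X : J → Finset κ) (g : J → ℤ)
    (G : κ → ℂ → ℂ) (l : κ → ℂ) (hG : ∀ j, ∀ y ∈ X j, RepO p V S s r (G y) 1 (l y)) :
    RepO p V S s r (fun Y => ∏ j, (∏ y ∈ X j, G y Y) ^ g j) 1
      (∑ j, (g j : ℂ) * ∑ y ∈ X j, l y) := by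
  obtain ⟨-, -, -, hcg, -⟩ := hALG p V S s r a2 a4 hP
  obtain ⟨-, hpr, -⟩ := hPRO p V S s r a2 a4 hP
  have v0 : V.valuation (0 : ℂ) ≤ V.valuation (p : ℂ) := by rw [map_zero]; exact zero_le
  have h1 : ∀ j, RepO p V S s r (fun Y => ∏ y ∈ X j, G y Y) 1 (∑ y ∈ X j, l y) := by
    intro j
    have h2 := (hpr (X j) (fun y => G y.1) (fun _ => 1) (fun y => l y.1) (fun _ => 1)
      (fun y => by rw [one_mul]; exact hG j y.1 y.2) (fun y => map_one _)).2
    refine hcg _ _ _ _ _ _ h2 (fun Y _ => ?_) ?_ ?_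
    · simp only [zpow_one]
      exact (Finset.prod_coe_sort (X j) (fun y => G y Y)).symm
    · simp only [one_zpow, Finset.prod_const_one, sub_self]
      exact v0
    · simp only [one_zpow, Finset.prod_const_one, one_mul, Int.cast_one]
      rw [Finset.sum_coe_sort (X j) (fun y => l y), sub_self]
      exact v0
  have h3 := (hpr J (fun j Y => ∏ y ∈ X j, G y Y) (fun _ => 1) (fun j => ∑ y ∈ X j, l y) g
    (fun j => by rw [one_mul]; exact h1 j) (fun y => map_one _)).2
  refine hcg _ _ _ _ _ _ h3 (fun Y _ => rfl) ?_ ?_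
  · simp only [one_zpow, Finset.prod_const_one, sub_self]
    exact v0
  · simp only [one_zpow, Finset.prod_const_one, one_mul, sub_self]
    exact v0

/-- an automorphism applied to the root -/
lemma conj {p : ℕ} {A B : ℤ} {F : IntermediateField (kk A B) ℂ} (σ : F ≃ₐ[kk A B] F)
    {J κ : Type} [Fintype J] (X : J → Finset κ) (g : J → ℤ) (T T' : κ → ℂ)
    (hT : ∀ j, ∀ y ∈ X j, ∃ h : T y ∈ F, (σ ⟨T y, h⟩ : ℂ) = T' y) {y0 : ℂ} (hy0 : y0 ∈ F)
    (h : y0 ^ p = ∏ j, (∏ y ∈ X j, T y) ^ g j) :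
    (σ ⟨y0, hy0⟩ : ℂ) ^ p = ∏ j, (∏ y ∈ X j, T' y) ^ g j := by
  have h1 : ∀ y, ∃ th : F, ∀ j, y ∈ X j → (th : ℂ) = T y ∧ (σ th : ℂ) = T' y := by
    intro y
    by_cases hy : ∃ j, y ∈ X j
    · obtain ⟨j, hj⟩ := hy
      obtain ⟨h2, h3⟩ := hT j y hj
      exact ⟨⟨T y, h2⟩, fun _ _ => ⟨rfl, h3⟩⟩
    · exact ⟨1, fun j hj => absurd ⟨j, hj⟩ hy⟩
  choose θ hθ using h1
  have h2 : (⟨y0, hy0⟩ : F) ^ p = ∏ j, (∏ y ∈ X j, θ y) ^ g j := by
    apply F.val.injective
    rw [map_pow, map_prod]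
    simp only [map_zpow₀, map_prod]
    change y0 ^ p = _
    rw [h]
    refine Finset.prod_congr rfl fun j _ => ?_
    congr 1
    exact Finset.prod_congr rfl fun y hy => ((hθ y j hy).1).symm
  have h3 : (em σ ⟨y0, hy0⟩) ^ p = ∏ j, (∏ y ∈ X j, em σ (θ y)) ^ g j := by
    rw [← map_pow, h2, map_prod]
    simp only [map_zpow₀, map_prod]
  refine h3.trans (Finset.prod_congr rfl fun j _ => ?_)
  congr 1
  exact Finset.prod_congr rfl fun y hy => (hθ y j hy).2

/-- multiplication by a power of an element of `k` -/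
lemma conjk {A B : ℤ} {F : IntermediateField (kk A B) ℂ} (σ : F ≃ₐ[kk A B] F) {y0 w0 d : ℂ}
    (hd : d ∈ kk A B) (K : ℤ) (hy0 : y0 ∈ F) (hw0 : w0 ∈ F) (h : y0 = w0 * d ^ K) :
    (σ ⟨y0, hy0⟩ : ℂ) = σ ⟨w0, hw0⟩ * d ^ K := by
  have h1 : (⟨y0, hy0⟩ : F) = ⟨w0, hw0⟩ * (algebraMap (kk A B) F ⟨d, hd⟩) ^ K := by
    apply F.val.injective
    rw [map_mul, map_zpow₀]
    exact h
  have h2 : em σ ⟨y0, hy0⟩ = em σ ⟨w0, hw0⟩ * d ^ K := by
    rw [h1, map_mul, map_zpow₀, AlgHom.commutes]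
    rfl
  exact h2

/-- powers of `v(d)^p` -/
def Cb (p : ℕ) (V : ValuationSubring ℂ) (d x : ℂ) : Prop :=
  ∃ k : ℤ, V.valuation x = V.valuation d ^ (p * k)

lemma Cb.one (p : ℕ) (V : ValuationSubring ℂ) (d : ℂ) : Cb p V d 1 := ⟨0, by simp⟩

lemma Cb.mul {p : ℕ} {V : ValuationSubring ℂ} {d x y : ℂ} (hd : d ≠ 0) (hx : Cb p V d x)
    (hy : Cb p V d y) : Cb p V d (x * y) := by
  obtain ⟨k, hk⟩ := hx
  obtain ⟨l, hl⟩ := hy
  refine ⟨k + l, ?_⟩
  rw [map_mul, hk, hl, ← zpow_add₀ ((Valuation.ne_zero_iff _).2 hd)]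
  congr 1
  ring

lemma Cb.zpow {p : ℕ} {V : ValuationSubring ℂ} {d x : ℂ} (hx : Cb p V d x) (g : ℤ) :
    Cb p V d (x ^ g) := by
  obtain ⟨k, hk⟩ := hx
  refine ⟨k * g, ?_⟩
  rw [map_zpow₀, hk, ← zpow_mul]
  congr 1
  ring

end ONE

open _root_.Pool.Agent.OBE.ONE in
theorem tb_ONE (hALG : Sb_ALG) (hPRO : Sb_PRO) (hLEG : Sb_LEG) (hPTS : Sb_PTS) (hTHN : Sb_THN)
    (hIDL : Sb_IDL) (hUNR : Sb_UNR) (hSIG : Sb_SIG) (hNE1 : Sb_NE1) (hEXO : Sb_EXO)
    (hMUL : Sb_MUL) (hUNT : Sb_UNT) : Sb_ONE := by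
  intro p er A B P V al hC hT hG n f a hn hf3 hf2 hf ha3 _ hpa hco ι R u e lam hgood H hH J _ X g
    hX ⟨y0, hy0, hy3⟩
  have ha0 : a ≠ 0 := by omega
  have hpa' : ¬ p ∣ a := by
    intro h
    have h1 : p ∣ a - (a - 1) := Nat.dvd_sub h hpa
    rw [show a - (a - 1) = 1 by omega, Nat.dvd_one] at h1
    exact hC.pp.one_lt.ne' h1
  have hf0 : f ≠ 0 := by omega
  have hp0 : p ≠ 0 := hC.pp.ne_zero
  have hpc : (p : ℂ) ≠ 0 := by exact_mod_cast hp0
  have hring := hC.ring
  obtain ⟨φ, hφ⟩ := hring.hom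
  have emul : ∀ x y : OO A B, emb (x * y) = emb x * emb y := fun x y => by
    rw [← hφ, map_mul, hφ, hφ]
  have eadd : ∀ x y : OO A B, emb (x + y) = emb x + emb y := fun x y => by
    rw [← hφ, map_add, hφ, hφ]
  have eone : emb (1 : OO A B) = 1 := by rw [← hφ, map_one]
  have enat : ∀ n : ℕ, emb ((n : ℕ) : OO A B) = n := fun n => by rw [← hφ, map_natCast]
  have hP := fun j y hy => point (n := n) hLEG hTHN hUNT hUNR hNE1 hMUL hC hT hf3 hf ha3 hpa hco R
    hgood hH y.1 y.2 (hX j y hy)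
  have hNL0 : NL A B (R.L R.i0) := ⟨_, _, R.nl _⟩
  obtain ⟨hPts, -, hper⟩ := hPTS p er A B P V al hC (R.L R.i0) u e lam hNL0 hgood
  -- the uniformiser
  obtain ⟨d, hd⟩ : ∃ d : ℂ, d = emb al := ⟨_, rfl⟩
  have hdk : d ∈ kk A B := by rw [hd]; exact Pool.Agent.MU3A.emb_mem _
  have hd0 : d ≠ 0 := by
    intro h
    have h1 := hC.alv
    have h2 := hC.er1
    rw [← hd, h, map_zero, zero_pow (by omega)] at h1
    exact (Valuation.ne_zero_iff V.valuation).2 hpc h1.symm
  have vd0 : V.valuation d ≠ 0 := (Valuation.ne_zero_iff _).2 hd0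
  -- the product and its root
  have hCW : Cb p V d (∏ j, (∏ y ∈ X j, ThetaH (R.L y.1) (H y.1)
      (pt R (p ^ (n + 1) * f) y.1 y.2)) ^ g j) := by
    refine Finset.prod_induction _ (Cb p V d) (fun _ _ => Cb.mul hd0) (Cb.one p V d)
      fun j _ => Cb.zpow ?_ _
    refine Finset.prod_induction _ (Cb p V d) (fun _ _ => Cb.mul hd0) (Cb.one p V d)
      fun y hy => ?_
    rw [hd]
    exact (hP j y hy).2.2.2.2.1
  obtain ⟨K, hK⟩ := hCW
  rw [← hy3, map_pow, mul_comm, zpow_mul] at hK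
  have hK' : V.valuation y0 ^ p = (V.valuation d ^ K) ^ p := by
    rw [hK, zpow_natCast]
  have vy0 : V.valuation y0 = V.valuation d ^ K :=
    (pow_left_inj₀ zero_le zero_le hp0).1 hK'
  obtain ⟨w0, hw0⟩ : ∃ w0 : ℂ, w0 = y0 / d ^ K := ⟨_, rfl⟩
  have hdK : d ^ K ≠ 0 := zpow_ne_zero _ hd0
  have hyw : y0 = w0 * d ^ K := by rw [hw0, div_mul_cancel₀ _ hdK]
  have vw0 : V.valuation w0 = 1 := by
    rw [hw0, map_div₀, map_zpow₀, vy0, div_self (zpow_ne_zero _ vd0)]
  have hw00 : w0 ≠ 0 := by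
    intro h
    rw [h, map_zero] at vw0
    exact zero_ne_one vw0
  have hdF : ∀ F : IntermediateField (kk A B) ℂ, d ^ K ∈ F := fun F =>
    zpow_mem (F.algebraMap_mem ⟨d, hdk⟩) K
  -- the level
  have hpfa : ¬ p ∣ f * a := fun h => ((Nat.Prime.dvd_mul hC.pp).1 h).elim hf hpa'
  obtain ⟨i1, -, -, -, -, i6, -⟩ := hIDL p er A B P V al hC f n hf0 hf
  obtain ⟨j1, j2, j3, -, j5, -, j7, -⟩ := hIDL p er A B P V al hC (f * a) n
    (mul_ne_zero hf0 ha0) hpfa
  obtain ⟨J', hJ'⟩ : ∃ J', er * (n + 1) = J' + 1 := by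
    have h1 := hC.er1
    have h2 : 0 < er * (n + 1) := Nat.mul_pos (by omega) (by omega)
    exact ⟨er * (n + 1) - 1, by omega⟩
  rw [hJ'] at i1 j1
  have hle1 : lv0 P (f * a) n ≤ lv0 P f n := by
    refine Ideal.mul_mono_left ?_
    rw [Ideal.span_singleton_le_span_singleton]
    exact ⟨(a : OO A B), by push_cast; ring⟩
  have hmid : idl (A := A) (B := B) (p ^ (n + 1) * (f * a)) = P ^ (J' + 1) * lv0 P (f * a) n := j1
  -- the big field
  obtain ⟨mm, hmm⟩ : ∃ mm : Ideal (OO A B), mm = P ^ (J' + 1) * lv0 P (f * a) n := ⟨_, rfl⟩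
  have hmma : mm ≤ idl (A := A) (B := B) (p ^ (n + 1) * f) := by
    rw [hmm, ← hmid, Ideal.span_singleton_le_span_singleton]
    exact ⟨(a : OO A B), by push_cast; ring⟩
  have hmmA : mm ≤ sp (a : OO A B) := by
    rw [hmm, ← hmid, Ideal.span_singleton_le_span_singleton]
    exact ⟨((p ^ (n + 1) * f : ℕ) : OO A B), by push_cast; ring⟩
  have hmm0 : mm ≠ ⊥ := by
    rw [hmm, ← hmid]
    intro h
    rw [Ideal.span_singleton_eq_bot] at h
    have h2 := congrArg emb h
    rw [enat, ← hφ 0, map_zero] at h2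
    exact mul_ne_zero (pow_ne_zero _ hp0) (mul_ne_zero hf0 ha0) (by exact_mod_cast h2)
  have hFAC := (te_FAC te_TRA A B hring).1
  have hy0M : y0 ∈ RF mm := hFAC _ _ hmma hy0
  have hw0M : w0 ∈ RF mm := by
    rw [hw0]
    exact div_mem hy0M (hdF _)
  obtain ⟨z₁, hz₁⟩ : ∃ z₁ : ℂ, z₁ = R.om R.i0 / (p ^ (n + 1) * f : ℕ) := ⟨_, rfl⟩
  obtain ⟨-, hEz, hEY⟩ := hEXO p er A B P V al hC n f ι R hf0 hf
  rw [← hz₁, i1] at hEz
  have hsig := hSIG p er A B P V al hC hT hG (R.L R.i0) u e lam hNL0 hgood J' f (lv0 P f n)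
    (lv0 P (f * a) n) hf3 hf2 hle1 i6 j2 j3 z₁ hEz w0 (by rw [← hmm]; exact hw0M) vw0.le
  rw [← hmm] at hsig
  obtain ⟨F, β, vβ, hF, hσF⟩ := hsig
  have hm0 : ((p ^ (n + 1) * f : ℕ) : ℂ) ≠ 0 := by
    exact_mod_cast mul_ne_zero (pow_ne_zero _ hp0) hf0
  have h3n : ∀ eb : ℂ, ((p ^ n * (f * a) : ℕ) : ℂ) * eb * z₁ = eb * (a * R.om R.i0 / p) := by
    intro eb
    have h5 : ((p ^ (n + 1) * f : ℕ) : ℂ) = p * ((p ^ n * f : ℕ) : ℂ) := by
      push_cast
      ring
    have h6 : ((p ^ n * (f * a) : ℕ) : ℂ) = ((p ^ n * f : ℕ) : ℂ) * a := by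
      push_cast
      ring
    have h7 : ((p ^ n * f : ℕ) : ℂ) ≠ 0 := by
      intro h
      rw [h5, h, mul_zero] at hm0
      exact hm0 rfl
    rw [hz₁, h5, h6]
    field_simp
  -- the identity at the points `Y_b`
  have key : ∀ b ∈ Pc P,
      ∏ j, (∏ y ∈ X j, ThetaH (R.L y.1) (H y.1) (pt R (p ^ (n + 1) * f) y.1 y.2 +
        muX R y.1 * emb y.2 * (emb b * (a * R.om R.i0 / p))) /
        ThetaH (R.L y.1) (H y.1) (pt R (p ^ (n + 1) * f) y.1 y.2)) ^ g j =
      (F (emb b * (a * R.om R.i0 / p)) * w0⁻¹) ^ p := by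
    intro b hb
    obtain ⟨c, hc⟩ : ∃ c : OO A B, c = 1 + ((p ^ n * (f * a) : ℕ) : OO A B) * b := ⟨_, rfl⟩
    have hc1 : c - 1 ∈ lv0 P (f * a) n := by
      rw [hc, add_sub_cancel_left]
      exact j5 b hb
    have hcop : IsCoprime (sp c) mm := by
      rw [hmm, ← hmid, Ideal.isCoprime_span_singleton_iff, hc]
      have h1 := j7 1 b one_ne_zero hn
      rwa [mul_one, mul_one] at h1
    obtain ⟨σ, hσ⟩ := hG.sur _ hmm0 _ hcop
    have hemc : ∀ z : ℂ, emb (c - 1) * z = ((p ^ n * (f * a) : ℕ) : ℂ) * emb b * z := by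
      intro z
      rw [hc, add_sub_cancel_left, emul, enat]
    have k1 := conj σ X g
      (fun y => ThetaH (R.L y.1) (H y.1) (pt R (p ^ (n + 1) * f) y.1 y.2))
      (fun y => ThetaH (R.L y.1) (H y.1) (pt R (p ^ (n + 1) * f) y.1 y.2 +
        muX R y.1 * emb y.2 * (emb b * (a * R.om R.i0 / p)))) (fun j y hy => by
          obtain ⟨-, hz, hzm, hzL, -⟩ := hP j y hy
          have hNLi : NL A B (R.L y.1) := ⟨_, _, R.nl y.1⟩
          have hzT0 : Tor (idl (A := A) (B := B) (p ^ (n + 1) * f)) (R.L y.1)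
              (pt R (p ^ (n + 1) * f) y.1 y.2) := by
            refine ((te_TRA A B hring _ hNLi).2.2.2.2.1 _ _).2 ?_
            rw [enat]
            exact hzm
          have hzT : Tor mm (R.L y.1) (pt R (p ^ (n + 1) * f) y.1 y.2) := fun x hx =>
            hzT0 x (hmma hx)
          obtain ⟨hmem, hθ⟩ := te_GTH te_TRA A B hring _ hNLi a (H y.1) (hH y.1)
            mm hmmA σ _ hσ (by
              rw [hc, add_sub_cancel_left, Ideal.mem_span_singleton]
              exact ⟨((p ^ n * f : ℕ) : OO A B) * b, by push_cast; ring⟩) _ hzT hzL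
          refine ⟨hmem, hθ.trans ?_⟩
          congr 1
          have h4 : emb c * pt R (p ^ (n + 1) * f) y.1 y.2 =
              pt R (p ^ (n + 1) * f) y.1 y.2 + emb (c - 1) * pt R (p ^ (n + 1) * f) y.1 y.2 := by
            have h5 : c = 1 + (c - 1) := by ring
            conv_lhs => rw [h5, eadd, eone]
            ring
          rw [h4, hemc, ← h3n]
          congr 1
          rw [hz, ← hz₁]
          ring) hy0M hy3
    have k2 := conjk σ hdk K hy0M hw0M hyw
    rw [hσF c hc1 σ hσ hw0M, hemc, h3n] at k2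
    simp only [Finset.prod_div_distrib, div_zpow]
    rw [← k1, ← hy3, k2, hyw, ← div_pow]
    congr 1
    field_simp
  -- the identity on `SP`
  have key2 : ∀ Y ∈ SP P er (R.L R.i0),
      ∏ j, (∏ y ∈ X j, ThetaH (R.L y.1) (H y.1) (pt R (p ^ (n + 1) * f) y.1 y.2 +
        muX R y.1 * emb y.2 * Y) /
        ThetaH (R.L y.1) (H y.1) (pt R (p ^ (n + 1) * f) y.1 y.2)) ^ g j =
      (F Y * w0⁻¹) ^ p := by
    intro Y hY
    obtain ⟨b, hb, hbp, hbY⟩ := (hEY a hpa').2 Y hY
    obtain ⟨l, hl⟩ : ∃ l : ℂ, l = emb b * (a * R.om R.i0 / p) - Y := ⟨_, rfl⟩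
    rw [← hl] at hbY
    have hYb : emb b * (a * R.om R.i0 / p) = Y + l := by rw [hl]; ring
    have h2 := key b hb
    rw [hYb] at h2
    obtain ⟨hYl, hs, hr⟩ := hper Y hY _ hbY
    have hFY : F (Y + l) = F Y := by
      obtain ⟨P, Q, -, -, hPQ, -⟩ := hF
      rw [hPQ _ hYl, hPQ _ hY, hs, hr]
    rw [hFY] at h2
    rw [← h2]
    refine Finset.prod_congr rfl fun j _ => ?_
    congr 1
    refine Finset.prod_congr rfl fun y hy => ?_
    congr 1
    have h3 : pt R (p ^ (n + 1) * f) y.1 y.2 + muX R y.1 * emb y.2 * (Y + l) =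
        (pt R (p ^ (n + 1) * f) y.1 y.2 + muX R y.1 * emb y.2 * Y) +
        muX R y.1 * emb y.2 * l := by ring
    rw [h3, theta_per _ _ _ _ ((hP j y hy).1 _ hbY)]
  -- the comparison
  have hS := asm hALG hPRO hPts X g
    (fun y Y => ThetaH (R.L y.1) (H y.1) (pt R (p ^ (n + 1) * f) y.1 y.2 +
      muX R y.1 * emb y.2 * Y) / ThetaH (R.L y.1) (H y.1) (pt R (p ^ (n + 1) * f) y.1 y.2))
    (fun y => muX R y.1 * emb y.2 * dlX (R.L y.1) a (pt R (p ^ (n + 1) * f) y.1 y.2) / u)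
    (fun j y hy => (hP j y hy).2.2.2.2.2)
  obtain ⟨hcst, -, -, -, -, hmul, -⟩ := hALG _ _ _ _ _ _ _ hPts
  have hG' : RepO p V (SP P er (R.L R.i0)) (su (R.L R.i0) u e) (ru (R.L R.i0) u e)
      (fun Y => F Y * w0⁻¹) (w0 * w0⁻¹) (w0 * 0 + w0⁻¹ * β) :=
    hmul _ _ _ _ _ _ hF (hcst w0⁻¹ (by rw [map_inv₀, vw0, inv_one]))
  have hS' := (hPRO _ _ _ _ _ _ _ hPts).2.2 _ _ _ _ _ _ hG' key2 hS
  have hdiff : (∑ j, (g j : ℂ) * ∑ y ∈ X j, emb y.2 * muX R y.1 *
      dlX (R.L y.1) a (pt R (p ^ (n + 1) * f) y.1 y.2)) / u =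
      ∑ j, (g j : ℂ) * ∑ y ∈ X j, muX R y.1 * emb y.2 *
        dlX (R.L y.1) a (pt R (p ^ (n + 1) * f) y.1 y.2) / u := by
    rw [Finset.sum_div]
    refine Finset.sum_congr rfl fun j _ => ?_
    rw [mul_div_assoc, Finset.sum_div]
    congr 1
    refine Finset.sum_congr rfl fun y _ => ?_
    ring
  rw [hdiff]
  exact hS'

end

end Pool.Agent.OBE


end

section

/-!
# OB, block E: module PRO, polynomials, products, quotients and `p`-th powers
-/

set_option autoImplicit false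

open Polynomial

namespace Pool.Agent.OBE

open _root_.MU3 _root_.Pool.Agent.MU3A _root_.Pool.Agent.MU3B _root_.Pool.Agent.MUX _root_.Pool.Agent.MUXU _root_.Pool.Agent.MUXE
open _root_.Pool.Agent.RI _root_.Pool.Agent.NS _root_.Pool.Agent.OB
open _root_.Pool.Agent.NSE (su ru WL IntP)

noncomputable section

namespace PRO

variable {p : ℕ} {V : ValuationSubring ℂ} {S : Set ℂ} {s r : ℂ → ℂ} {a2 a4 : ℂ}

/-- change of the form of the numbers -/
lemma cong (h : Sb_ALG) (hp : PtsO p V S s r a2 a4) {F : ℂ → ℂ} {α β : ℂ} (hF : RepO p V S s r F α β)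
    {G : ℂ → ℂ} {α' β' : ℂ} (hG : ∀ Y, G Y = F Y) (hα : α' = α) (hβ : β' = β) :
    RepO p V S s r G α' β' := by
  obtain ⟨-, -, -, h4, -⟩ := h p V S s r a2 a4 hp
  refine h4 F G α β α' β' hF (fun Y _ => hG Y) ?_ ?_
  · rw [hα, sub_self, map_zero]
    exact zero_le'
  · rw [hβ, sub_self, map_zero]
    exact zero_le'

lemma poly (h : Sb_ALG) (hp : PtsO p V S s r a2 a4) (F : ℂ → ℂ) (α β : ℂ)
    (hF : RepO p V S s r F α β) (P : ℂ[X]) : IntP V P →
      RepO p V S s r (fun Y => P.eval (F Y)) (P.eval α) (β * (derivative P).eval α) := by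
  obtain ⟨h1, -, -, -, h5, h6, -⟩ := h p V S s r a2 a4 hp
  induction P using Polynomial.recOnHorner with
  | M0 =>
    intro _
    refine cong h hp (h1 0 (by rw [map_zero]; exact zero_le')) ?_ ?_ ?_
    · intro Y; simp
    · simp
    · simp
  | MC P a h0 _ ih =>
    intro hI
    have hP : IntP V P := by
      intro i
      cases i with
      | zero => rw [h0, map_zero]; exact zero_le'
      | succ i =>
        have := hI (i + 1)
        rwa [coeff_add, coeff_C_succ, add_zero] at this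
    have ha : V.valuation a ≤ 1 := by
      have := hI 0
      rwa [coeff_add, coeff_C_zero, h0, zero_add] at this
    refine cong h hp (h5 _ _ _ _ _ _ (ih hP) (h1 a ha)) ?_ ?_ ?_
    · intro Y; simp
    · simp
    · simp
  | MX P _ ih =>
    intro hI
    have hP : IntP V P := by
      intro i
      have := hI (i + 1)
      rwa [coeff_mul_X] at this
    refine cong h hp (h6 _ _ _ _ _ _ (ih hP) hF) ?_ ?_ ?_
    · intro Y; simp
    · simp
    · simp only [derivative_mul, derivative_X, mul_one, eval_add, eval_mul, eval_X]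
      ring

lemma pow (h : Sb_ALG) (hp : PtsO p V S s r a2 a4) (F : ℂ → ℂ) (c l : ℂ)
    (hF : RepO p V S s r F c (c * l)) (n : ℕ) :
      RepO p V S s r (fun Y => F Y ^ n) (c ^ n) (c ^ n * (n * l)) := by
  obtain ⟨h1, -, -, -, h5, h6, -⟩ := h p V S s r a2 a4 hp
  induction n with
  | zero =>
    refine cong h hp (h1 1 (by rw [map_one])) ?_ ?_ ?_
    · intro Y; simp
    · simp
    · simp
  | succ n ih =>
    refine cong h hp (h6 _ _ _ _ _ _ ih hF) ?_ ?_ ?_
    · intro Y; exact pow_succ _ _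
    · exact pow_succ _ _
    · push_cast
      ring

lemma powb (h : Sb_ALG) (hp : PtsO p V S s r a2 a4) (F : ℂ → ℂ) (α β : ℂ)
    (hF : RepO p V S s r F α β) (n : ℕ) :
      RepO p V S s r (fun Y => F Y ^ n) (α ^ n) (n * α ^ (n - 1) * β) := by
  obtain ⟨h1, -, -, -, h5, h6, -⟩ := h p V S s r a2 a4 hp
  induction n with
  | zero =>
    refine cong h hp (h1 1 (by rw [map_one])) ?_ ?_ ?_
    · intro Y; simp
    · simp
    · simp
  | succ n ih =>
    refine cong h hp (h6 _ _ _ _ _ _ ih hF) ?_ ?_ ?_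
    · intro Y; exact pow_succ _ _
    · exact pow_succ _ _
    · rcases n with _ | n
      · simp
      · rw [Nat.add_sub_cancel, Nat.add_sub_cancel]
        push_cast
        ring

lemma zpow (h : Sb_ALG) (hp : PtsO p V S s r a2 a4) (F : ℂ → ℂ) (c l : ℂ)
    (hF : RepO p V S s r F c (c * l)) (hc : V.valuation c = 1) (g : ℤ) :
      RepO p V S s r (fun Y => F Y ^ g) (c ^ g) (c ^ g * (g * l)) := by
  obtain ⟨-, -, -, -, -, -, h7, -⟩ := h p V S s r a2 a4 hp
  have hc0 : c ≠ 0 := by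
    rintro rfl
    rw [map_zero] at hc
    exact zero_ne_one hc
  obtain ⟨n, rfl | rfl⟩ := g.eq_nat_or_neg
  · refine cong h hp (pow h hp F c l hF n) ?_ ?_ ?_
    · intro Y; exact zpow_natCast _ _
    · exact zpow_natCast _ _
    · rw [zpow_natCast]
      push_cast
      ring
  · have h8 := (h7 _ _ _ (pow h hp F c l hF n) (by rw [map_pow, hc, one_pow])).2
    refine cong h hp h8 ?_ ?_ ?_
    · intro Y
      rw [zpow_neg, zpow_natCast]
    · rw [zpow_neg, zpow_natCast]
    · rw [zpow_neg, zpow_natCast]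
      have hcn : c ^ n ≠ 0 := pow_ne_zero _ hc0
      push_cast
      field_simp

lemma prod (h : Sb_ALG) (hp : PtsO p V S s r a2 a4) {J : Type} (T : Finset J) (F : J → ℂ → ℂ)
    (c l : J → ℂ) (g : J → ℤ) (hF : ∀ j, RepO p V S s r (F j) (c j) (c j * l j))
    (hc : ∀ j, V.valuation (c j) = 1) :
      RepO p V S s r (fun Y => ∏ j ∈ T, F j Y ^ g j) (∏ j ∈ T, c j ^ g j)
        ((∏ j ∈ T, c j ^ g j) * ∑ j ∈ T, (g j : ℂ) * l j) := by
  classical
  obtain ⟨h1, -, -, -, h5, h6, -⟩ := h p V S s r a2 a4 hp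
  induction T using Finset.induction_on with
  | empty =>
    refine cong h hp (h1 1 (by rw [map_one])) ?_ ?_ ?_
    · intro Y; simp
    · simp
    · simp
  | insert a T ha ih =>
    refine cong h hp (h6 _ _ _ _ _ _ (zpow h hp (F a) (c a) (l a) (hF a) (hc a) (g a)) ih)
      ?_ ?_ ?_
    · intro Y; exact Finset.prod_insert ha
    · exact Finset.prod_insert ha
    · rw [Finset.prod_insert ha, Finset.sum_insert ha]
      ring

end PRO

theorem tb_PRO (h : Sb_ALG) : Sb_PRO := by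
  intro p V S s r a2 a4 hp
  refine ⟨fun F α β P hF hP => PRO.poly h hp F α β hF P hP, ?_, ?_⟩
  · intro J _ F c l g hF hc
    refine ⟨?_, PRO.prod h hp Finset.univ F c l g hF hc⟩
    rw [map_prod]
    refine Finset.prod_eq_one fun i _ => ?_
    rw [map_zpow₀, hc i, one_zpow]
  · intro F G α β α' β' hG hFG hF
    obtain ⟨-, -, -, h4, -, -, -, h8, h9⟩ := h p V S s r a2 a4 hp
    have h10 := PRO.powb h hp G α β hG p
    have h11 : RepO p V S s r F (α ^ p) (p * α ^ (p - 1) * β) := by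
      refine h4 _ F _ _ _ _ h10 hFG ?_ ?_
      · rw [sub_self, map_zero]
        exact zero_le'
      · rw [sub_self, map_zero]
        exact zero_le'
    have h12 := (h9 _ _ _ _ _ hF h11).2
    obtain ⟨hα, hβ, -⟩ := h8 _ _ _ hG
    have h13 : V.valuation (p * α ^ (p - 1) * β) ≤ V.valuation (p : ℂ) := by
      rw [map_mul, map_mul, map_pow, mul_assoc]
      exact mul_le_of_le_one_right' (mul_le_one' (pow_le_one' hα _) hβ)
    have e : β' = (β' - p * α ^ (p - 1) * β) + p * α ^ (p - 1) * β := by ring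
    rw [e]
    exact V.valuation.map_add_le h12 h13

end

end Pool.Agent.OBE


end

section

/-!
# OB, block E, module PTS: the points of `E[P^er]` satisfy `PtsO` (helper5)
-/

set_option autoImplicit false

open Polynomial

namespace Pool.Agent.OBE

open _root_.MU3 _root_.Pool.Agent.MU3A _root_.Pool.Agent.MU3B _root_.Pool.Agent.MUX _root_.Pool.Agent.MUXU _root_.Pool.Agent.MUXE
open _root_.Pool.Agent.RI _root_.Pool.Agent.NS _root_.Pool.Agent.OB
open _root_.Pool.Agent.MUXV (GR InK tX)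
open _root_.Pool.Agent.NSE (su ru WL IntP)

noncomputable section

namespace PTS

/-- the lattice is closed under `O` -/
lemma lat {A B : ℤ} (hr : RingE A B) {L : PeriodPair} (hN : NL A B L) (x : OO A B) {z : ℂ}
    (hz : z ∈ L.lattice) : emb x * z ∈ L.lattice := by
  obtain ⟨b, om, hL⟩ := hN
  obtain ⟨φ, hφ⟩ := hr.hom
  obtain ⟨y, hy, rfl⟩ := (hL.mem z).1 hz
  refine (hL.mem _).2 ⟨x * y, b.mul_mem_left x hy, ?_⟩
  rw [← hφ (x * y), map_mul, hφ, hφ]
  ring

/-- `1 ∈ P ^ 0` -/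
lemma one_mem {A B : ℤ} (P : Ideal (OO A B)) : (1 : OO A B) ∈ P ^ 0 := by
  rw [pow_zero, Ideal.one_eq_top]
  exact Submodule.mem_top (R := OO A B) (M := OO A B)

/-- `I J ≤ I` -/
lemma le_r {A B : ℤ} (I J : Ideal (OO A B)) {x : OO A B} (h : x ∈ I * J) : x ∈ I :=
  (Submodule.mem_inf.1 (Ideal.mul_le_inf h)).1

/-- natural multiples of lattice points -/
lemma nat_lat {L : PeriodPair} (n : ℕ) {w : ℂ} (hw : w ∈ L.lattice) :
    (n : ℂ) * w ∈ L.lattice := by
  have h := L.lattice.nsmul_mem hw n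
  rwa [nsmul_eq_mul] at h

/-- the points of `SP` are in the kernel of reduction -/
lemma ker (hTPR : Sb_TPR) {p er : ℕ} {A B : ℤ} {P : Ideal (OO A B)} {V : ValuationSubring ℂ}
    {al : OO A B} (hC : CtxO p er A B P V al) {L : PeriodPair} {u e lam : ℂ} (hN : NL A B L)
    (hG : GoodL V L u e lam) {Y : ℂ} (hY : Y ∈ SP P er L) :
    InK V L (xu L u e) Y ∧ xu L u e Y ≠ 0 := by
  obtain ⟨φ, hφ⟩ := hC.ring.hom
  obtain ⟨hT, hn⟩ := hY
  by_cases h1 : Tor P L Y
  · have h0 : ¬ Tor (P ^ 0) L Y := by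
      intro h0
      apply hn
      have h2 := h0 (1 : OO A B) (one_mem P)
      rwa [← hφ, map_one, one_mul] at h2
    obtain ⟨h3, h4, -⟩ := hTPR p er A B P V al hC 0 L u e lam hN hG Y
      (by rw [zero_add, pow_one]; exact h1) h0
    exact ⟨h3, h4⟩
  · rcases hC.ram with ⟨he, -⟩ | ⟨he, -⟩
    · exfalso
      apply h1
      rw [he, pow_one] at hT
      exact hT
    · obtain ⟨h3, h4, -⟩ := hTPR p er A B P V al hC 1 L u e lam hN hG Y
        (by rw [he] at hT; exact hT) (by rw [pow_one]; exact h1)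
      exact ⟨h3, h4⟩

/-- a point outside the lattice in the kernel of reduction has `v x > 1` -/
lemma gt_one {V : ValuationSubring ℂ} {L : PeriodPair} {u e Y : ℂ} (hn : Y ∉ L.lattice)
    (h : InK V L (xu L u e) Y) : 1 < V.valuation (xu L u e Y) := by
  rcases h with h | h
  · exact absurd h hn
  · by_contra h1
    rw [not_lt] at h1
    exact h ((V.valuation_le_one_iff _).1 h1)

end PTS

open _root_.Pool.Agent.OBE.PTS

/-- PTS. -/
theorem tb_PTS (hCOE : Sb_COE) (hGEN : Sb_GEN) (hPVL : Sb_PVL) (hTPR : Sb_TPR) : Sb_PTS := by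
  classical
  intro p er A B P V al hC L u e lam hN hG
  have hCp : Cp p V := hC.toCp
  obtain ⟨φ, hφ⟩ := hC.ring.hom
  obtain ⟨-, -, -, -, hl1, heq, -, hper⟩ := hCOE p V L u e lam hCp hG
  have hp0 : (p : ℂ) ≠ 0 := Nat.cast_ne_zero.2 hC.pp.ne_zero
  have hE : ∀ Y ∈ SP P er L, ∀ w ∈ L.lattice, Y + w ∈ SP P er L := by
    intro Y hY w hw
    constructor
    · intro x hx
      rw [mul_add]
      exact add_mem (hY.1 x hx) (lat hC.ring hN x hw)
    · intro h
      apply hY.2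
      have h1 := sub_mem h hw
      rwa [add_sub_cancel_right] at h1
  have hP : ∀ (z w : ℂ), w ∈ L.lattice → su L u e (z + w) = su L u e z ∧
      ru L u e (z + w) = ru L u e z := by
    intro z w hw
    obtain ⟨h1, h2⟩ := (hper z).1 w hw
    unfold su ru
    rw [h1, h2]
    exact ⟨rfl, rfl⟩
  have hpP : ((p : ℕ) : OO A B) ∈ P ^ er := by
    have h1 : ((p : ℕ) : OO A B) ∈ idl (A := A) (B := B) p := Ideal.mem_span_singleton_self _
    rw [hC.fac] at h1
    exact le_r _ _ h1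
  have hpE : emb ((p : ℕ) : OO A B) = (p : ℂ) := by rw [← hφ, map_natCast]
  have hK := fun (Y : ℂ) (hY : Y ∈ SP P er L) => ker hTPR hC hN hG hY
  refine ⟨⟨hC.vp, ?_, hG.vl.le, ?_, ?_, ?_, ?_, ?_⟩, hK, ?_⟩
  · rw [Valuation.map_neg]
    exact hl1
  · intro Y hY
    obtain ⟨h1, h2⟩ := hK Y hY
    have h3 := gt_one hY.2 h1
    unfold su
    refine ⟨inv_ne_zero h2, ?_⟩
    rw [map_inv₀]
    exact inv_lt_one_of_one_lt₀ h3
  · intro Y hY
    have hx : xu L u e Y ≠ 0 := (hK Y hY).2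
    have h1 := heq Y hY.2
    unfold ru su
    rw [div_pow, neg_sq, h1]
    field_simp
    ring
  · intro Y hY
    refine ⟨-Y, ⟨?_, ?_⟩, ?_, ?_⟩
    · intro x hx
      rw [mul_neg]
      exact neg_mem (hY.1 x hx)
    · intro h
      apply hY.2
      have h1 := neg_mem h
      rwa [neg_neg] at h1
    · unfold su
      rw [(hper Y).2.1]
    · unfold ru
      rw [(hper Y).2.1, (hper Y).2.2, neg_div, neg_div, neg_neg]
  · have hcl : ∀ w ∈ L.lattice, (p : ℂ) * w ∈ L.lattice := fun w hw => nat_lat p hw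
    have hodd : ∀ z, (p : ℂ) * z ∈ L.lattice → 2 * z ∈ L.lattice → z ∈ L.lattice := by
      intro z h1 h2
      obtain ⟨k, hk⟩ := hC.pp.odd_of_ne_two hC.p2
      have h3 := sub_mem h1 (nat_lat k h2)
      have e1 : (p : ℂ) * z - (k : ℂ) * (2 * z) = z := by
        rw [hk]
        push_cast
        ring
      rwa [e1] at h3
    obtain ⟨H, hH⟩ := b_HAL L (p : ℂ) hp0 hcl hodd
    obtain ⟨hR, hdis, -⟩ := b_HRE L (p : ℂ) H hp0 hcl hH
    have hRM : IsRpM L L (p : ℂ) (H ∪ H.image (fun q => -q)) := ⟨hR.mem, hR.ne, hR.inj, hR.surj⟩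
    have hgen := hGEN p V L L u e lam u e lam (p : ℂ) hCp hG hG hp0 hcl _ hRM
    rw [Finset.prod_union hdis, Finset.prod_image (fun a _ b _ h => neg_injective h)] at hgen
    have e2 : ∏ q ∈ H, max 1 (V.valuation (xu L u e (-q))) =
        ∏ q ∈ H, max 1 (V.valuation (xu L u e q)) :=
      Finset.prod_congr rfl fun q _ => by rw [(hper q).2.1]
    rw [e2, mul_div_assoc, div_self hG.u0, mul_one, ← sq, ← mul_pow] at hgen
    have h1 : V.valuation (p : ℂ) * ∏ q ∈ H, max 1 (V.valuation (xu L u e q)) = 1 := by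
      rcases lt_trichotomy (V.valuation (p : ℂ) * ∏ q ∈ H, max 1 (V.valuation (xu L u e q))) 1
        with h | h | h
      · exact absurd hgen (ne_of_lt (pow_lt_one₀ zero_le h two_ne_zero))
      · exact h
      · exact absurd hgen (ne_of_gt (one_lt_pow₀ h two_ne_zero))
    have hHn : ∀ q ∈ H, q ∉ L.lattice := by
      intro q hq h
      apply hH.ne q hq
      rw [two_mul]
      exact add_mem h h
    set T : Finset ℂ := H.filter (fun q => ¬ (xu L u e q ∈ V)) with hT
    have hTH : ∀ q ∈ T, q ∈ H ∧ xu L u e q ∉ V := by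
      intro q hq
      rw [hT, Finset.mem_filter] at hq
      exact hq
    have h2 : ∏ q ∈ H, max 1 (V.valuation (xu L u e q)) = ∏ q ∈ T, V.valuation (xu L u e q) := by
      rw [hT, Finset.prod_filter]
      refine Finset.prod_congr rfl fun q _ => ?_
      by_cases h : xu L u e q ∈ V
      · rw [if_neg (not_not.2 h)]
        exact max_eq_left ((V.valuation_le_one_iff _).2 h)
      · rw [if_pos h]
        apply max_eq_right
        by_contra h3
        rw [not_le] at h3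
        exact h ((V.valuation_le_one_iff _).1 h3.le)
    rw [h2] at h1
    have hxT : ∀ q ∈ T, xu L u e q ≠ 0 := by
      intro q hq h
      apply (hTH q hq).2
      rw [h]
      exact V.zero_mem
    have hTS : ∀ q ∈ T, q ∈ SP P er L := by
      intro q hq
      obtain ⟨hqH, hqV⟩ := hTH q hq
      have hK1 : InK V L (xu L u e) q := Or.inr hqV
      refine ⟨?_, hHn q hqH⟩
      intro x hx
      obtain ⟨-, hp2, hp3⟩ := hPVL p er A B P V al hC L u e lam hN hG
      refine hp3 (Pc P) hC.cnl _ ?_ (hp2 x q hK1)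
      intro c hc
      have h3 : x * c ∈ idl (A := A) (B := B) p := by
        rw [hC.fac]
        exact Ideal.mul_mem_mul hx hc
      obtain ⟨d, hd⟩ := Ideal.mem_span_singleton'.1 h3
      have h4 : emb c * (emb x * q) = emb d * ((p : ℂ) * q) := by
        have h5 := congrArg φ hd
        rw [map_mul, map_mul, map_natCast, hφ, hφ, hφ] at h5
        linear_combination -q * h5
      rw [h4]
      exact lat hC.ring hN d (hH.mem q hqH)
    refine ⟨T.card, fun i => ((T.equivFin.symm i : T) : ℂ), ?_, ?_, ?_⟩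
    · intro i
      exact hTS _ (T.equivFin.symm i).2
    · intro i j hij
      simp only [su] at hij
      have h3 : xu L u e (T.equivFin.symm i : T) = xu L u e (T.equivFin.symm j : T) :=
        inv_injective hij
      have h4 : L.weierstrassP (T.equivFin.symm i : T) = L.weierstrassP (T.equivFin.symm j : T) := by
        unfold xu at h3
        have hu : u ^ 2 ≠ 0 := pow_ne_zero 2 hG.u0
        have h5 := (div_left_inj' hu).1 h3
        exact sub_left_injective h5
      have hi := hTH _ (T.equivFin.symm i).2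
      have hj := hTH _ (T.equivFin.symm j).2
      have h6 : ((T.equivFin.symm i : T) : ℂ) = ((T.equivFin.symm j : T) : ℂ) := by
        rcases b_NEQ L _ _ (hHn _ hj.1) (hHn _ hi.1) h4 with h | h
        · exact hH.inj _ hi.1 _ hj.1 h
        · exact absurd h (hH.neg _ hi.1 _ hj.1)
      exact T.equivFin.symm.injective (Subtype.ext h6)
    · have h3 : ∏ i : Fin T.card, su L u e ((T.equivFin.symm i : T) : ℂ) =
          ∏ q ∈ T, su L u e q := by
        rw [Equiv.prod_comp T.equivFin.symm (fun q : T => su L u e (q : ℂ))]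
        exact Finset.prod_coe_sort T (fun q => su L u e q)
      have h4 : V.valuation (∏ q ∈ T, su L u e q) = (∏ q ∈ T, V.valuation (xu L u e q))⁻¹ := by
        rw [map_prod, ← Finset.prod_inv_distrib]
        refine Finset.prod_congr rfl fun q _ => ?_
        unfold su
        rw [map_inv₀]
      show V.valuation (∏ i : Fin T.card, su L u e ((T.equivFin.symm i : T) : ℂ)) ≤ _
      rw [h3, h4]
      exact (eq_inv_of_mul_eq_one_left h1).symm.le
  · refine (Set.finite_range (fun q : Fin p × Fin p =>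
      (su L u e (((q.1 : ℕ) * L.ω₁ + (q.2 : ℕ) * L.ω₂) / p),
        ru L u e (((q.1 : ℕ) * L.ω₁ + (q.2 : ℕ) * L.ω₂) / p)))).subset ?_
    rintro _ ⟨Y, hY, rfl⟩
    have hpY := hY.1 _ hpP
    rw [hpE] at hpY
    obtain ⟨i, j, hij⟩ := PeriodPair.mem_lattice.1 hpY
    have hpz : (0 : ℤ) < p := by exact_mod_cast hC.pp.pos
    have hi0 : 0 ≤ i % p := Int.emod_nonneg i hpz.ne'
    have hi1 : i % p < p := Int.emod_lt_of_pos i hpz
    have hj0 : 0 ≤ j % p := Int.emod_nonneg j hpz.ne'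
    have hj1 : j % p < p := Int.emod_lt_of_pos j hpz
    have hi : i = p * (i / p) + i % p := (Int.mul_ediv_add_emod i p).symm
    have hj : j = p * (j / p) + j % p := (Int.mul_ediv_add_emod j p).symm
    refine ⟨(⟨(i % p).toNat, by omega⟩, ⟨(j % p).toNat, by omega⟩), ?_⟩
    have c1 : (((i % p).toNat : ℕ) : ℂ) = ((i % p : ℤ) : ℂ) := by
      have := Int.toNat_of_nonneg hi0
      exact_mod_cast congrArg (fun n : ℤ => (n : ℂ)) this
    have c2 : (((j % p).toNat : ℕ) : ℂ) = ((j % p : ℤ) : ℂ) := by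
      have := Int.toNat_of_nonneg hj0
      exact_mod_cast congrArg (fun n : ℤ => (n : ℂ)) this
    have hiC : (i : ℂ) = p * ((i / p : ℤ) : ℂ) + ((i % p : ℤ) : ℂ) := by
      exact_mod_cast congrArg (fun n : ℤ => (n : ℂ)) hi
    have hjC : (j : ℂ) = p * ((j / p : ℤ) : ℂ) + ((j % p : ℤ) : ℂ) := by
      exact_mod_cast congrArg (fun n : ℤ => (n : ℂ)) hj
    have e1 : Y = (((i % p).toNat : ℕ) * L.ω₁ + ((j % p).toNat : ℕ) * L.ω₂) / p +
        (((i / p : ℤ) : ℂ) * L.ω₁ + ((j / p : ℤ) : ℂ) * L.ω₂) := by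
      rw [c1, c2]
      apply mul_left_cancel₀ hp0
      rw [← hij, hiC, hjC]
      field_simp
      ring
    have h5 := hP ((((i % p).toNat : ℕ) * L.ω₁ + ((j % p).toNat : ℕ) * L.ω₂) / p) _
      (PeriodPair.mem_lattice.2 ⟨i / p, j / p, rfl⟩)
    rw [← e1] at h5
    simp only [h5.1, h5.2]
  · intro Y hY w hw
    exact ⟨hE Y hY w hw, hP Y w hw⟩

end

end Pool.Agent.OBE


end

section

/-!
# OB, block E, module RAT (helper46): the isogeny as a rational function over `V`

PORT of helper50's `NS/F_RAT.lean`, with `Ker0` instead of a degree prime to `3`; `frac`, `zmul` from helper48's `NS/F_UNT.lean`.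
-/

set_option autoImplicit false

open Filter Topology Polynomial

namespace Pool.Agent.OBE

open _root_.MU3 _root_.Pool.Agent.MU3A _root_.Pool.Agent.MU3B _root_.Pool.Agent.MUX _root_.Pool.Agent.MUXU _root_.Pool.Agent.MUXE
open _root_.Pool.Agent.RI _root_.Pool.Agent.NS _root_.Pool.Agent.OB
open _root_.Pool.Agent.MUXV (GR InK tX)
open _root_.Pool.Agent.NSE (su ru WL IntP)

noncomputable section

namespace RAT

variable {V : ValuationSubring ℂ}

theorem frac (L : PeriodPair) (a : ℤ) (b : ℕ) (hb : b ≠ 0)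
    (hm : (a : ℂ) * (L.ω₁ / b) ∈ L.lattice) : (b : ℤ) ∣ a := by
  have e : (a : ℂ) * (L.ω₁ / b) = ((a / b : ℚ) : ℂ) * L.ω₁ + ((0 : ℚ) : ℂ) * L.ω₂ := by
    push_cast
    ring
  rw [e, PeriodPair.mul_ω₁_add_mul_ω₂_mem_lattice] at hm
  have h1 : ((((a / b : ℚ)).num : ℤ) : ℚ) = (a / b : ℚ) := (Rat.den_eq_one_iff _).1 hm.1
  have hb' : (b : ℚ) ≠ 0 := by exact_mod_cast hb
  refine ⟨((a / b : ℚ)).num, ?_⟩
  have h2 : (a : ℚ) = b * ((((a / b : ℚ)).num : ℤ) : ℚ) := by
    rw [h1]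
    field_simp
  exact_mod_cast h2

/-- multiples by integers -/
theorem zmul (L : PeriodPair) (n : ℤ) {z : ℂ} (hz : z ∈ L.lattice) : (n : ℂ) * z ∈ L.lattice := by
  rw [← zsmul_eq_mul]
  exact zsmul_mem hz n

theorem iff_mem {P : ℂ[X]} : IntP V P ↔ ∀ i, P.coeff i ∈ V :=
  forall_congr' fun _ => V.valuation_le_one_iff _

theorem int_add {P Q : ℂ[X]} (hP : IntP V P) (hQ : IntP V Q) : IntP V (P + Q) := by
  rw [iff_mem] at *
  intro i
  rw [coeff_add]
  exact add_mem (hP i) (hQ i)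

theorem int_mul {P Q : ℂ[X]} (hP : IntP V P) (hQ : IntP V Q) : IntP V (P * Q) := by
  rw [iff_mem] at *
  intro i
  rw [coeff_mul]
  exact sum_mem fun x _ => mul_mem (hP _) (hQ _)

theorem int_C {a : ℂ} (ha : V.valuation a ≤ 1) : IntP V (C a) := by
  rw [iff_mem]
  intro i
  rw [coeff_C]
  split_ifs
  · exact (V.valuation_le_one_iff _).1 ha
  · exact zero_mem V

theorem int_XC {a : ℂ} (ha : V.valuation a ≤ 1) : IntP V (X - C a) := by
  have h1 : IntP V (C (-a)) := int_C (by rwa [Valuation.map_neg])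
  have h2 : IntP V (X : ℂ[X]) := by
    rw [iff_mem]
    intro i
    rw [coeff_X]
    split_ifs
    · exact one_mem V
    · exact zero_mem V
  have e : (X - C a : ℂ[X]) = X + C (-a) := by
    rw [C_neg, sub_eq_add_neg]
  rw [e]
  exact int_add h2 h1

theorem int_prod (R : Finset ℂ) (f : ℂ → ℂ) (h : ∀ q ∈ R, V.valuation (f q) ≤ 1) :
    IntP V (∏ q ∈ R, (X - C (f q))) := by
  classical
  induction R using Finset.induction_on with
  | empty =>
    rw [Finset.prod_empty, ← C_1]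
    exact int_C (by rw [map_one])
  | insert a S ha ih =>
    rw [Finset.prod_insert ha]
    exact int_mul (int_XC (h a (Finset.mem_insert_self _ _)))
      (ih fun q hq => h q (Finset.mem_insert_of_mem hq))

end RAT

open _root_.Pool.Agent.OBE.RAT in
theorem tb_RAT (h1 : Sb_COE) (h2 : Sb_GRN) (h3 : Sb_TNC) (h4 : Sb_UNT) : Sb_RAT := by
  intro p V L M u e lam u' e' lam' μ hC hL hM hμ hI hK
  have hν := (h4 p V L M u e lam u' e' lam' μ hC hL hM hμ hI).1.1 hK
  have tL := h3 p V L u e lam hC hL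
  have tM := h3 p V M u' e' lam' hC hM
  obtain ⟨-, -, -, -, -, -, dL, -⟩ := h1 p V L u e lam hC hL
  obtain ⟨-, -, -, -, -, -, dM, -⟩ := h1 p V M u' e' lam' hC hM
  obtain ⟨ξ, G⟩ := h2 p V L u e lam hC hL
  obtain ⟨⟨R, hR⟩, N, hN0, hN⟩ := u_BAC.2 L M μ hμ hI
  have hNpos : 0 < N := Nat.pos_of_ne_zero hN0
  obtain ⟨l, hl1, hl⟩ := Nat.exists_infinite_primes (p * N + 1)
  have hpN : p ≤ p * N := Nat.le_mul_of_pos_right p hNpos
  have hNp : N ≤ p * N := Nat.le_mul_of_pos_left N hC.pp.pos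
  have h3l : ¬ p ∣ l := by
    intro h
    have := (Nat.prime_dvd_prime_iff_eq hC.pp hl).1 h
    omega
  have hlN : ¬ l ∣ N := fun h => by
    have := Nat.le_of_dvd hNpos h
    omega
  have hl0 : (l : ℂ) ≠ 0 := by exact_mod_cast hl.ne_zero
  set w : ℂ := L.ω₁ / l with hw
  have lw : (l : ℂ) * w ∈ L.lattice := by
    rw [hw, mul_div_cancel₀ _ hl0]
    exact L.ω₁_mem_lattice
  have Nw : (N : ℂ) * w ∉ L.lattice := by
    intro hm
    have e1 : (N : ℂ) * w = ((N : ℤ) : ℂ) * (L.ω₁ / (l : ℂ)) := by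
      rw [hw]
      push_cast
      ring
    rw [e1] at hm
    have h5 := frac L _ _ hl.ne_zero hm
    exact hlN (by exact_mod_cast h5)
  have jNw : ¬ InK V L (xu L u e) ((N : ℂ) * w) := fun h => Nw ((tL l h3l).2 _ (by
    have e1 : (l : ℂ) * ((N : ℂ) * w) = ((N : ℤ) : ℂ) * ((l : ℂ) * w) := by
      push_cast
      ring
    rw [e1]
    exact zmul L _ lw) h)
  have jw : ¬ InK V L (xu L u e) w := fun h => jNw (Pool.Agent.MUXV.inK_nat G h N)
  have jq : ∀ q ∈ R, ¬ InK V L (xu L u e) q := fun q hq h =>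
    hR.ne q hq (hK q (hR.mem q hq) h)
  have jwq : ∀ q ∈ R, ¬ InK V L (xu L u e) (w + q) := by
    intro q hq h
    have hNq := hN q (hR.mem q hq)
    apply jNw
    have e2 : (N : ℂ) * w = (N : ℂ) * (w + q) - (N : ℂ) * q := by
      ring
    rw [e2]
    exact Pool.Agent.MUXV.inK_sub G (Pool.Agent.MUXV.inK_nat G h N)
      (Pool.Agent.MUXV.inK_of_mem hNq)
  have mw : μ * w ∉ M.lattice := fun h => Nw (hN w h)
  have jM : ¬ InK V M (xu M u' e') (μ * w) := fun h => mw ((tM l h3l).2 _ (by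
    have e1 : (l : ℂ) * (μ * w) = μ * ((l : ℂ) * w) := by ring
    rw [e1]
    exact hI _ lw) h)
  have vq : ∀ q ∈ R, V.valuation (xu L u e q) ≤ 1 := fun q hq =>
    (Pool.Agent.MUXV.int_X (jq q hq)).2
  have vwq : ∀ q ∈ R, V.valuation (xu L u e (w + q)) ≤ 1 := fun q hq =>
    (Pool.Agent.MUXV.int_X (jwq q hq)).2
  have vw : V.valuation (xu L u e w) ≤ 1 := (Pool.Agent.MUXV.int_X jw).2
  have vc : V.valuation (xu M u' e' (μ * w)) ≤ 1 := (Pool.Agent.MUXV.int_X jM).2
  set c : ℂ := xu M u' e' (μ * w) with hc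
  set ν : ℂ := μ * u' / u with hνd
  have hν0 : ν ^ 2 ≠ 0 := by
    apply pow_ne_zero
    intro h0
    rw [h0, map_zero] at hν
    exact zero_ne_one hν
  have vν : V.valuation (ν ^ 2) ≤ 1 := by rw [map_pow, hν, one_pow]
  set A : ℂ[X] := ∏ q ∈ R, (X - C (xu L u e q)) with hA
  set B : ℂ[X] := ∏ q ∈ R, (X - C (xu L u e (w + q))) with hB
  have mA : A.Monic := monic_prod_of_monic _ _ fun q _ => monic_X_sub_C _
  have mB : B.Monic := monic_prod_of_monic _ _ fun q _ => monic_X_sub_C _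
  have nA : A.natDegree = R.card := by
    rw [hA, natDegree_prod_of_monic _ _ fun q _ => monic_X_sub_C _]
    simp
  have nB : B.natDegree = R.card := by
    rw [hB, natDegree_prod_of_monic _ _ fun q _ => monic_X_sub_C _]
    simp
  set Q : ℂ[X] := C (ν ^ 2) * A with hQ
  have nQ : Q.natDegree = R.card := by rw [hQ, natDegree_C_mul hν0, nA]
  set T : ℂ[X] := (X - C (xu L u e w)) * B with hT
  have mT : T.Monic := (monic_X_sub_C _).mul mB
  have nT : T.natDegree = R.card + 1 := by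
    rw [hT, (monic_X_sub_C _).natDegree_mul mB, natDegree_X_sub_C, nB, add_comm]
  have hlt : (C c * Q).natDegree < T.natDegree := by
    rw [nT]
    calc (C c * Q).natDegree ≤ Q.natDegree := natDegree_C_mul_le _ _
      _ < R.card + 1 := by rw [nQ]; exact Nat.lt_succ_self _
  have iQ : IntP V Q := int_mul (int_C vν) (int_prod R _ vq)
  -- the first identity
  have hu0 : u ^ 2 ≠ 0 := pow_ne_zero _ hL.u0
  have hu0' : u' ^ 2 ≠ 0 := pow_ne_zero _ hM.u0
  have eL : ∀ a b : ℂ, L.weierstrassP a - L.weierstrassP b =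
      u ^ 2 * (xu L u e a - xu L u e b) := by
    intro a b
    unfold xu
    rw [← sub_div, mul_div_cancel₀ _ hu0]
    ring
  have eM : ∀ a b : ℂ, M.weierstrassP a - M.weierstrassP b =
      u' ^ 2 * (xu M u' e' a - xu M u' e' b) := by
    intro a b
    unfold xu
    rw [← sub_div, mul_div_cancel₀ _ hu0']
    ring
  have id1 : ∀ z, μ * z ∉ M.lattice →
      xu M u' e' (μ * z) * Q.eval (xu L u e z) = (C c * Q + T).eval (xu L u e z) := by
    intro z hz
    have pf := u_PFI L M μ R hμ hI hR w mw z hz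
    have p1 : ∏ q ∈ R, (L.weierstrassP z - L.weierstrassP q) =
        (u ^ 2) ^ R.card * A.eval (xu L u e z) := by
      rw [hA, eval_prod, ← Finset.prod_const, ← Finset.prod_mul_distrib]
      refine Finset.prod_congr rfl fun q _ => ?_
      rw [eL, eval_sub, eval_X, eval_C]
    have p2 : ∏ q ∈ R, (L.weierstrassP z - L.weierstrassP (w + q)) =
        (u ^ 2) ^ R.card * B.eval (xu L u e z) := by
      rw [hB, eval_prod, ← Finset.prod_const, ← Finset.prod_mul_distrib]
      refine Finset.prod_congr rfl fun q _ => ?_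
      rw [eL, eval_sub, eval_X, eval_C]
    rw [p1, p2, eM, eL] at pf
    have hpow : (u ^ 2) ^ R.card ≠ 0 := pow_ne_zero _ hu0
    have q1 : ν ^ 2 * (xu M u' e' (μ * z) - c) * A.eval (xu L u e z) =
        (xu L u e z - xu L u e w) * B.eval (xu L u e z) := by
      apply mul_left_cancel₀ (mul_ne_zero hu0 hpow)
      rw [hνd]
      have e3 : u ^ 2 * (u ^ 2) ^ R.card * ((μ * u' / u) ^ 2 * (xu M u' e' (μ * z) - c) *
          A.eval (xu L u e z)) = μ ^ 2 * (u' ^ 2 * (xu M u' e' (μ * z) - c)) *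
          ((u ^ 2) ^ R.card * A.eval (xu L u e z)) := by
        have hu : u ≠ 0 := hL.u0
        field_simp
      rw [e3, pf]
      ring
    simp only [hQ, hT, eval_add, eval_mul, eval_C, eval_sub, eval_X]
    rw [← q1]
    ring
  refine ⟨C c * Q + T, Q, int_add (int_mul (int_C vc) iQ) (int_mul (int_XC vw)
    (int_prod R _ vwq)), iQ, mT.add_of_right (degree_lt_degree hlt), ?_, ?_, ?_⟩
  · rw [natDegree_add_eq_right_of_natDegree_lt hlt, nT, nQ]
  · rw [hQ, leadingCoeff_mul, leadingCoeff_C, mA.leadingCoeff, mul_one]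
  · intro z hz
    refine ⟨id1 z hz, ?_⟩
    have hzL : z ∉ L.lattice := fun h => hz (hI z h)
    have hev : ∀ᶠ t in 𝓝 z, xu M u' e' (μ * t) * Q.eval (xu L u e t) =
        (C c * Q + T).eval (xu L u e t) := by
      have e2 : ∀ᶠ t in 𝓝 z, μ * t ∉ M.lattice := by
        have hcont : ContinuousAt (fun t : ℂ => μ * t) z := by fun_prop
        exact hcont.eventually_mem ((M.isClosed_lattice.isOpen_compl).mem_nhds hz)
      filter_upwards [e2] with t ht
      exact id1 t ht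
    have hxL := dL z hzL
    have hxM := dM (μ * z) hz
    have hM' : HasDerivAt (fun t : ℂ => xu M u' e' (μ * t))
        (2 * u' * yu M u' (μ * z) * μ) z := by
      have h5 : HasDerivAt (fun t : ℂ => μ * t) μ z := by
        simpa using (hasDerivAt_id z).const_mul μ
      exact HasDerivAt.comp z hxM h5
    have hB' : HasDerivAt (fun t : ℂ => Q.eval (xu L u e t))
        ((derivative Q).eval (xu L u e z) * (2 * u * yu L u z)) z :=
      HasDerivAt.comp z (Q.hasDerivAt (xu L u e z)) hxL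
    have hA' : HasDerivAt (fun t : ℂ => (C c * Q + T).eval (xu L u e t))
        ((derivative (C c * Q + T)).eval (xu L u e z) * (2 * u * yu L u z)) z :=
      HasDerivAt.comp z ((C c * Q + T).hasDerivAt (xu L u e z)) hxL
    have heq := (hM'.mul hB').unique (hA'.congr_of_eventuallyEq hev)
    have hid := id1 z hz
    have hu : u ≠ 0 := hL.u0
    generalize C c * Q + T = P at *
    simp only [eval_sub, eval_mul]
    have h2u : (2 * u : ℂ) ≠ 0 := mul_ne_zero two_ne_zero hu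
    apply mul_left_cancel₀ h2u
    rw [hνd]
    have e5 : 2 * u * (μ * u' / u * yu M u' (μ * z) * Q.eval (xu L u e z) ^ 2) =
        2 * u' * yu M u' (μ * z) * μ * Q.eval (xu L u e z) ^ 2 := by
      field_simp
    rw [e5]
    linear_combination (Q.eval (xu L u e z)) * heq -
      (derivative Q).eval (xu L u e z) * (2 * u * yu L u z) * hid

end

end Pool.Agent.OBE


end

section

/-!
# OB, block E, module SIG: `Y ↦ σ_Y(w)` for `w` in the ray class field (helper1; model: `NS/F_SIG.lean`)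
-/

set_option autoImplicit false

open Polynomial

namespace Pool.Agent.OBE

open _root_.MU3 _root_.Pool.Agent.MU3A _root_.Pool.Agent.MU3B _root_.Pool.Agent.MUX _root_.Pool.Agent.MUXU _root_.Pool.Agent.MUXE
open _root_.Pool.Agent.RI _root_.Pool.Agent.NS _root_.Pool.Agent.OB
open _root_.Pool.Agent.MUXV (GR InK tX)
open _root_.Pool.Agent.NSE (su ru WL IntP)

noncomputable section

namespace SIG

variable {A B : ℤ}

/-- polynomials over `V` -/
theorem intP_iff {V : ValuationSubring ℂ} {P : ℂ[X]} :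
    IntP V P ↔ P ∈ Polynomial.liftsRing (algebraMap V ℂ) := by
  rw [← Polynomial.lifts_iff_liftsRing, Polynomial.lifts_iff_coeff_lifts]
  refine forall_congr' fun i => ?_
  rw [ValuationSubring.valuation_le_one_iff]
  constructor
  · intro h
    exact ⟨⟨_, h⟩, rfl⟩
  · rintro ⟨c, hc⟩
    rw [← hc]
    exact c.2

theorem intP_sum {V : ValuationSubring ℂ} {N : ℕ} (a : Fin N → ℂ) (c : ℂ)
    (ha : ∀ i, V.valuation (a i) ≤ 1) (hc : V.valuation c ≤ 1) :
    IntP V (∑ i, C (a i) * (X - C c) ^ (i : ℕ)) := by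
  have hC : ∀ b : ℂ, V.valuation b ≤ 1 → C b ∈ Polynomial.liftsRing (algebraMap V ℂ) := by
    intro b hb
    rw [← intP_iff]
    intro i
    rw [coeff_C]
    split_ifs
    · exact hb
    · rw [map_zero]; exact zero_le
  rw [intP_iff]
  refine sum_mem fun i _ => mul_mem (hC _ (ha i)) (pow_mem (sub_mem ?_ (hC _ hc)) _)
  rw [← intP_iff]
  intro i
  rw [coeff_X]
  split_ifs
  · rw [map_one]
  · rw [map_zero]; exact zero_le

end SIG

open _root_.Pool.Agent.OBE.SIG in
theorem tb_SIG (h1 : Sb_ALG) (h2 : Sb_PRO) (h5 : Sb_PTS) (h7 : Sb_ADD) (h8 : Sb_UNI) :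
    Sb_SIG := by
  intro p er A B P V al hC hT hG N u e lam hN hgood J f m₁ m' hf h2f hm₁ hmf hm0 hmP z₁ hz₁
    w hw hvw
  have hR := hC.ring
  obtain ⟨φ, hφ⟩ := hR.hom
  have hsub : ∀ x y : OO A B, emb (x - y) = emb x - emb y := fun x y => by
    rw [← hφ, map_sub, hφ, hφ]
  have hone : emb (1 : OO A B) = 1 := by rw [← hφ, map_one]
  obtain ⟨P₀, -, -, hP₀E, hz₁E, huM, heM, hx0M, hπM', hexp⟩ :=
    h8 p er A B P V al hC hT hG N u e lam hN hgood J f m₁ m' hf h2f hm₁ hmf hm0 hmP z₁ hz₁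
  -- the fields
  have hmm : P ^ (J + 1) * m' ≤ m' := Ideal.mul_le_right
  obtain ⟨c1, c2, c3, c4, c5⟩ := Pool.Agent.MUXE.te_FAC Pool.Agent.MUXE.te_TRA A B hR
  have hle := c1 _ _ hmm
  obtain ⟨hP, -⟩ := h5 p er A B P V al hC N u e lam hN hgood
  -- torsion
  have hTor : Tor (P ^ (J + 1) * m') N z₁ := by
    intro x hx
    exact (hz₁ x).2 (Ideal.mul_mono_right hm₁ hx)
  have hz₁L : z₁ ∉ N.lattice := fun h => hz₁E (Or.inl h)
  have hPM : xn N z₁ ∈ RF (P ^ (J + 1) * m') := (c2 _ N hN).2 _ hTor hz₁L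
  have hxx : ∀ z : ℂ, xu N u e z = (xn N z + ((1 / 12 : ℚ) : ℂ) - e) / u ^ 2 := by
    intro z; unfold xu xn; push_cast; ring
  obtain ⟨π, hπ⟩ : ∃ z, z = xu N u e z₁ - xu N u e P₀ := ⟨_, rfl⟩
  have hπM : π ∈ RF (P ^ (J + 1) * m') := by
    rw [hπ]; exact hπM'
  obtain ⟨c, hc1, hc2⟩ := hexp w hw hvw
  rw [← hπ] at hc2
  -- the function
  have hvx0 : V.valuation (xu N u e P₀) ≤ 1 := (Pool.Agent.MUXV.int_X hP₀E).2
  obtain ⟨Pol, hPol⟩ : ∃ Q : ℂ[X], Q = ∑ i : Fin ((nI P - 1) * nI P ^ J),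
    C ((c i : ℂ)) * (X - C (xu N u e P₀)) ^ (i : ℕ) := ⟨_, rfl⟩
  have hPolI : IntP V Pol := by
    rw [hPol]; exact intP_sum _ _ hc1 hvx0
  have hPolE : ∀ t : ℂ, Pol.eval t =
      ∑ i : Fin ((nI P - 1) * nI P ^ J), (c i : ℂ) * (t - xu N u e P₀) ^ (i : ℕ) := by
    intro t
    rw [hPol, eval_finsetSum]
    refine Finset.sum_congr rfl fun i _ => ?_
    simp
  have hPolw : Pol.eval (xu N u e z₁) = w := by rw [hPolE, ← hπ, ← hc2]
  have hRep := (h2 p V (SP P er N) (su N u e) (ru N u e) _ _ hP).1 _ _ _ Pol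
    (h7 p er A B P V al hC N u e lam hN hgood z₁ hz₁E) hPolI
  have hβ := ((h1 p V (SP P er N) (su N u e) (ru N u e) _ _ hP).2.2.2.2.2.2.2.1 _ _ _ hRep).2.1
  rw [hPolw] at hRep
  refine ⟨_, _, hβ, hRep, ?_⟩
  intro y hy σ hσ hw'
  have hc4 : ∀ (t : ℂ) (ht : t ∈ RF (P ^ (J + 1) * m')),
      t ∈ RF m' → (σ ⟨t, ht⟩ : ℂ) = t := by
    intro t ht ht'
    exact c4 _ _ hmm (em σ) _ hσ hy t ht ht'
  have hemb3 : emb y * z₁ = z₁ + emb (y - 1) * z₁ := by
    rw [hsub, hone]
    ring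
  have hσx : (σ ⟨xn N z₁, hPM⟩ : ℂ) = xn N (z₁ + emb (y - 1) * z₁) := by
    rw [← hemb3]
    exact ((hσ.2 N hN).2 z₁ hTor hz₁L).2 hPM
  have hσπ : (σ ⟨π, hπM⟩ : ℂ) = xu N u e (z₁ + emb (y - 1) * z₁) - xu N u e P₀ := by
    have h11 : (⟨π, hπM⟩ : RF (P ^ (J + 1) * m')) =
        (⟨xn N z₁, hPM⟩ + (((1 / 12 : ℚ)) : RF (P ^ (J + 1) * m')) -
          ⟨e, hle heM⟩) / ⟨u ^ 2, hle huM⟩ - ⟨xu N u e P₀, hle hx0M⟩ := by
      apply Subtype.ext
      show π = _
      rw [hπ, hxx z₁]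
      rfl
    rw [h11, map_sub, map_div₀, map_sub, map_add, map_ratCast]
    show ((σ ⟨xn N z₁, hPM⟩ : ℂ) + ((1 / 12 : ℚ) : ℂ) - (σ ⟨e, hle heM⟩ : ℂ)) /
      (σ ⟨u ^ 2, hle huM⟩ : ℂ) - (σ ⟨xu N u e P₀, hle hx0M⟩ : ℂ) = _
    rw [hσx, hc4 _ _ heM, hc4 _ _ huM, hc4 _ _ hx0M, ← hxx]
  have hww : (⟨w, hw'⟩ : RF (P ^ (J + 1) * m')) =
      ∑ i : Fin ((nI P - 1) * nI P ^ J), ⟨(c i : ℂ), hle (c i).2⟩ * ⟨π, hπM⟩ ^ (i : ℕ) := by
    apply Subtype.ext
    rw [IntermediateField.coe_sum]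
    show w = _
    rw [hc2]
    rfl
  rw [hww, map_sum]
  show _ = Pol.eval (xu N u e (z₁ + emb (y - 1) * z₁))
  rw [hPolE, IntermediateField.coe_sum]
  refine Finset.sum_congr rfl fun i _ => ?_
  rw [map_mul, map_pow]
  show (σ ⟨(c i : ℂ), hle (c i).2⟩ : ℂ) * (σ ⟨π, hπM⟩ : ℂ) ^ (i : ℕ) = _
  rw [hc4 _ _ (c i).2, hσπ]

end

end Pool.Agent.OBE


end

section

/-!
# OB, block E, module THN (helper26): the functions `Θ_a(z + μ Y)`, `Y ∈ SP P er L`

Port of `Pool/Agent/NS/F_THN.lean`.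
-/

set_option autoImplicit false

open Polynomial

namespace Pool.Agent.OBE

open _root_.MU3 _root_.Pool.Agent.MU3A _root_.Pool.Agent.MU3B _root_.Pool.Agent.MUX _root_.Pool.Agent.MUXU _root_.Pool.Agent.MUXE
open _root_.Pool.Agent.RI _root_.Pool.Agent.NS _root_.Pool.Agent.OB
open _root_.Pool.Agent.MUXV (GR InK tX)
open _root_.Pool.Agent.NSE (su ru WL IntP)

noncomputable section

/-- THN. -/
theorem tb_THN (h1 : Sb_ALG) (h2 : Sb_PRO) (h3 : Sb_PUL) (h4 : Sb_GRN) (h5 : Sb_ISO)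
    (h6 : Sb_ADD) (h7 : Sb_PTS) : Sb_THN := by
  intro p er A B P V al hC L M u e lam u' e' lam' μ nL nM hL hM hμ hI hK a H ha hH z hz haz hq
  obtain ⟨ξ, G⟩ := h4 p V M u' e' lam' hC.toCp hM
  have PP := (h7 p er A B P V al hC L u e lam nL hL).1
  obtain ⟨a1, -, -, a4, a5, a6, -, a8, -⟩ := h1 p V (SP P er L) (su L u e) (ru L u e) _ _ PP
  obtain ⟨-, p2, -⟩ := h2 p V (SP P er L) (su L u e) (ru L u e) _ _ PP
  obtain ⟨i1, i2, i3⟩ := h5 p er A B P V al hC L M u e lam u' e' lam' μ nL nM hL hM hμ hI hK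
  have hu' : u' ≠ 0 := hM.u0
  have hu : u ≠ 0 := hL.u0
  have hx : ∀ w q, M.weierstrassP w - M.weierstrassP q =
      u' ^ 2 * (xu M u' e' w - xu M u' e' q) := by
    intro w q
    unfold xu
    field_simp
    ring
  have hcv : ∀ q : H, V.valuation (xu M u' e' z - xu M u' e' q) = 1 := fun q =>
    Pool.Agent.MUXV.v_X_sub G hz (hq q q.2).1 (hq q q.2).2.1 (hq q q.2).2.2
  have hc0 : ∀ q : H, xu M u' e' z - xu M u' e' q ≠ 0 := fun q h0 => by
    have := hcv q
    rw [h0, map_zero] at this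
    exact zero_ne_one this
  have hTh : ∀ w, ThetaH M H w =
      (u' ^ 2) ^ H.card * ∏ q : H, (xu M u' e' w - xu M u' e' q) := by
    intro w
    unfold ThetaH
    rw [← Finset.prod_coe_sort, ← Fintype.card_coe H, ← Finset.card_univ, ← Finset.prod_const,
      ← Finset.prod_mul_distrib]
    exact Finset.prod_congr rfl fun q _ => hx w q
  have hnat : ∀ w ∈ M.lattice, (a : ℂ) * w ∈ M.lattice := by
    intro w hw
    have := M.lattice.smul_mem (a : ℤ) hw
    rwa [zsmul_eq_mul, Int.cast_natCast] at this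
  have hdl : ∑ q : H, M.derivWeierstrassP z / (M.weierstrassP z - M.weierstrassP q) =
      dlX M a z := by
    have h8 := (b_TDL M (a : ℂ) H (Nat.cast_ne_zero.2 ha) hnat hH z haz).1
    unfold dlX
    rw [← Finset.sum_coe_sort] at h8
    have h9 : ((‖(a : ℂ)‖ ^ 2 : ℝ) : ℂ) = (a : ℂ) ^ 2 := by
      rw [Complex.norm_natCast]; push_cast; rfl
    rw [h9] at h8
    exact h8
  have r1 := h3 p V (SP P er L) (SP P er M) (su L u e) (ru L u e) (su M u' e') (ru M u' e') _ _
    (fun Y => μ * Y) (μ * u' / u) PP i1 i2 i3 (fun Y => xu M u' e' (z + Y)) (xu M u' e' z)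
    (2 * yu M u' z) (h6 p er A B P V al hC M u' e' lam' nM hM z hz)
  have z0 : ∀ {x y : ℂ}, x = y → V.valuation (x - y) ≤ V.valuation (p : ℂ) := by
    rintro x y rfl
    rw [sub_self, map_zero]
    exact zero_le
  have r2 : ∀ q : H, RepO p V (SP P er L) (su L u e) (ru L u e)
      (fun Y => xu M u' e' (z + μ * Y) - xu M u' e' q) (xu M u' e' z - xu M u' e' q)
      ((xu M u' e' z - xu M u' e' q) *
        (2 * yu M u' z * (μ * u' / u) / (xu M u' e' z - xu M u' e' q))) := by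
    intro q
    have s1 := a5 _ _ _ _ _ _ r1 (a1 (-xu M u' e' q)
      (by rw [Valuation.map_neg]; exact (Pool.Agent.MUXV.int_X (hq q q.2).1).2))
    refine a4 _ _ _ _ _ _ s1 (fun Y _ => sub_eq_add_neg _ _) (z0 (sub_eq_add_neg _ _)) (z0 ?_)
    rw [mul_div_cancel₀ _ (hc0 q), add_zero]
  obtain ⟨v1, r3⟩ := p2 H (fun q Y => xu M u' e' (z + μ * Y) - xu M u' e' q)
    (fun q => xu M u' e' z - xu M u' e' q)
    (fun q => 2 * yu M u' z * (μ * u' / u) / (xu M u' e' z - xu M u' e' q)) (fun _ => 1) r2 hcv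
  have hP0 : ∏ q : H, (xu M u' e' z - xu M u' e' q) ^ (1 : ℤ) ≠ 0 :=
    Finset.prod_ne_zero_iff.2 fun q _ => zpow_ne_zero _ (hc0 q)
  have r4 := a6 _ _ _ _ _ _ r3 (a1 (∏ q : H, (xu M u' e' z - xu M u' e' q) ^ (1 : ℤ))⁻¹
    (by rw [map_inv₀, v1, inv_one]))
  have r5 : RepO p V (SP P er L) (su L u e) (ru L u e)
      (fun Y => ThetaH M H (z + μ * Y) / ThetaH M H z) 1 (μ * dlX M a z / u) := by
    refine a4 _ _ _ _ _ _ r4 (fun Y _ => ?_) (z0 (mul_inv_cancel₀ hP0).symm) (z0 ?_)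
    · have hk : (u' ^ 2) ^ H.card ≠ 0 := pow_ne_zero _ (pow_ne_zero _ hu')
      change ThetaH M H (z + μ * Y) / ThetaH M H z =
        (∏ q : H, (xu M u' e' (z + μ * Y) - xu M u' e' q) ^ (1 : ℤ)) *
          (∏ q : H, (xu M u' e' z - xu M u' e' q) ^ (1 : ℤ))⁻¹
      rw [hTh, hTh, mul_div_mul_left _ _ hk, div_eq_mul_inv]
      simp only [zpow_one]
    · rw [mul_zero, zero_add, inv_mul_cancel_left₀ hP0, ← hdl, mul_div_right_comm,
        Finset.mul_sum]
      refine Finset.sum_congr rfl fun q _ => ?_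
      have := hc0 q
      rw [hx]
      unfold yu
      push_cast
      field_simp
  refine ⟨?_, (a8 _ _ _ r5).2.1, r5⟩
  rw [hTh, map_mul, map_pow, map_prod, Finset.prod_eq_one fun q _ => hcv q, mul_one]

end

end Pool.Agent.OBE


end

section

/-!
# OB, block E: the points of exact order `P^(j+1)` (TPR) (helper94; model `NS/F_TPR.lean`)
-/

set_option autoImplicit false

open Polynomial

namespace Pool.Agent.OBE

open _root_.MU3 _root_.Pool.Agent.MU3A _root_.Pool.Agent.MU3B _root_.Pool.Agent.MUX _root_.Pool.Agent.MUXU _root_.Pool.Agent.MUXE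
open _root_.Pool.Agent.RI _root_.Pool.Agent.NS _root_.Pool.Agent.OB
open _root_.Pool.Agent.MUXV (GR InK tX)
open _root_.Pool.Agent.NSE (su ru WL IntP)

noncomputable section

namespace TPR

theorem one_lt_of {Γ : Type*} [LinearOrderedCommGroupWithZero Γ] {T π : Γ} {m : ℕ}
    (h : T ^ m * π = 1) (hπ : π < 1) : 1 < T := by
  by_contra hc
  have hc' : T ≤ 1 := not_lt.1 hc
  have h1 : T ^ m ≤ 1 := pow_le_one' hc' m
  have h2 : T ^ m * π ≤ 1 * π := mul_le_mul_left h1 π
  rw [h, one_mul] at h2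
  exact absurd hπ (not_lt.2 h2)

theorem inv_pow_eq {Γ : Type*} [LinearOrderedCommGroupWithZero Γ] {T π : Γ} {m : ℕ}
    (hT : T ≠ 0) (h : T⁻¹ ^ m = π) : T ^ m * π = 1 := by
  rw [← h, inv_pow]
  exact mul_inv_cancel₀ (pow_ne_zero _ hT)

theorem lt_one_of_pow {Γ : Type*} [LinearOrderedCommGroupWithZero Γ] {a b : Γ} {n : ℕ}
    (h : a ^ n = b) (hb : b < 1) : a < 1 := by
  by_contra hc
  have hc' : 1 ≤ a := not_lt.1 hc
  have h1 : 1 ≤ a ^ n := one_le_pow₀ hc'
  rw [h] at h1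
  exact absurd hb (not_lt.2 h1)

end TPR

open _root_.Pool.Agent.OBE.TPR in
theorem tb_TPR (h2 : Sb_GRN) (h3 : Sb_TNC) (h5 : Sb_PIS) (h7 : Su_PFI) : Sb_TPR := by
  intro p er A B P V al h j
  obtain ⟨φ, hφ⟩ := h.ring.hom
  have embn : ∀ n : ℕ, emb ((n : ℕ) : OO A B) = n := fun n => by rw [← hφ, map_natCast]
  have hcp : Cp p V := ⟨h.pp, h.p2, h.vp⟩
  have hp5 := h.p5
  have hq3 := h.n3
  have hp0 : (p : ℂ) ≠ 0 := by
    have := h.pp.ne_zero
    exact_mod_cast this
  have hπ1 : V.valuation (emb al) < 1 := lt_one_of_pow h.alv h.vp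
  have hπ0 : V.valuation (emb al) ≠ 0 := by
    intro h0
    have h9 := h.alv
    rw [h0, zero_pow (by have := h.er1; omega)] at h9
    exact (Valuation.ne_zero_iff _).2 hp0 h9.symm
  have hπ2 : V.valuation (emb al) ^ 2 < 1 := pow_lt_one₀ zero_le hπ1 two_ne_zero
  induction j with
  | zero =>
    intro L u e lam hL hg z hz hz0
    obtain ⟨tra1, -⟩ := te_TRA A B h.ring L hL
    have hzL : z ∉ L.lattice := fun h8 => hz0 fun x _ => tra1 x z h8
    obtain ⟨N, ν, hN, hQ⟩ := h.exq L hL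
    obtain ⟨u', e', lam', hg'⟩ := h.good N hN
    rw [zero_add, pow_one] at hz
    obtain ⟨-, -, k3⟩ := h5 p er A B P V al h L N ν u e lam u' e' lam' hL hN hQ hg hg'
    obtain ⟨k4, k5, k6⟩ := k3 z hz hzL
    exact ⟨k4, k5, by rw [pow_zero, mul_one]; exact k6⟩
  | succ j ih =>
    intro L u e lam hL hg z hz hz0
    obtain ⟨tra1, tra2, tra3, tra4, tra5, tra6, tra7, tra8, tra9⟩ := te_TRA A B h.ring L hL
    obtain ⟨N, ν, hN, hQ⟩ := h.exq L hL
    obtain ⟨u', e', lam', hg'⟩ := h.good N hN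
    have hν : ν ≠ 0 := hQ.1
    have hTor : ∀ z, ν * z ∈ N.lattice ↔ Tor P L z := hQ.2
    have hIsg : Isg L N ν := fun w hw => (hTor w).2 (fun x _ => tra1 x w hw)
    obtain ⟨ξ, G⟩ := h2 p V L u e lam hcp hg
    obtain ⟨hmu, ⟨R, hR, hcard⟩, hE⟩ :=
      h5 p er A B P V al h L N ν u e lam u' e' lam' hL hN hQ hg hg'
    have hu := hg.u0
    have hu' := hg'.u0
    have hp2 : ¬ p ∣ 2 := fun h8 => by
      have := Nat.le_of_dvd (by norm_num) h8
      omega
    -- the point of order 2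
    have hw2 : ((2 : ℕ) : ℂ) * (L.ω₁ / 2) ∈ L.lattice := by
      convert L.ω₁_mem_lattice using 1; push_cast; ring
    have n1 := L.ω₁_div_two_notMem_lattice
    set w : ℂ := L.ω₁ / 2 with hw
    have i1 : ¬ InK V L (xu L u e) w := fun hin =>
      n1 ((h3 p V L u e lam hcp hg 2 hp2).2 w hw2 hin)
    have m1 : ν * w ∉ N.lattice := by
      intro h8
      have h9 := (hTor w).1 h8 _ h.mem
      rw [embn] at h9
      apply n1
      obtain ⟨k, hk⟩ : ∃ k, p = 2 * k + 1 :=
        (h.pp.odd_of_ne_two h.p2)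
      have h10 : ((k : ℕ) : ℂ) * (((2 : ℕ) : ℂ) * w) ∈ L.lattice := by
        have := nsmul_mem hw2 k
        rwa [nsmul_eq_mul] at this
      have h11 := sub_mem h9 h10
      convert h11 using 1
      rw [hk]
      push_cast
      ring
    have i1' : ¬ InK V N (xu N u' e') (ν * w) := by
      intro hin
      refine m1 ((h3 p V N u' e' lam' hcp hg' 2 hp2).2 _ ?_ hin)
      have h8 := hIsg _ hw2
      rwa [show ν * (((2 : ℕ) : ℂ) * w) = ((2 : ℕ) : ℂ) * (ν * w) by ring] at h8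
    -- the point `z' = ν z`
    have hz1 : Tor (P ^ (j + 1)) N (ν * z) := by
      intro x hx
      have h8 : Tor P L (emb x * z) := by
        apply tra6 (P ^ (j + 1)) P x z hx
        rw [← pow_succ]
        exact hz
      have h9 := (hTor _).2 h8
      rwa [show ν * (emb x * z) = emb x * (ν * z) by ring] at h9
    have hz2 : ¬ Tor (P ^ j) N (ν * z) := by
      intro h8
      apply hz0
      rw [pow_succ]
      apply tra7
      intro x hx
      have h9 := h8 x hx
      rw [show emb x * (ν * z) = ν * (emb x * z) by ring] at h9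
      exact (hTor _).1 h9
    obtain ⟨y1, y2, y3⟩ := ih N u' e' lam' hN hg' (ν * z) hz1 hz2
    have hzN : ν * z ∉ N.lattice := by
      intro h8
      apply hz2
      obtain ⟨trb1, -⟩ := te_TRA A B h.ring N hN
      exact fun x _ => trb1 x _ h8
    -- the representatives
    have torR : ∀ q ∈ R, Tor P L q := fun q hq => (hTor q).1 (hR.mem q hq)
    have hRk : ∀ q ∈ R, InK V L (xu L u e) q ∧ xu L u e q ≠ 0 ∧
        V.valuation (xu L u e q) ^ (nI P - 1) * V.valuation (emb al) ^ 2 = 1 := by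
      intro q hq
      obtain ⟨k1, k2, k3⟩ := hE q (torR q hq) (hR.ne q hq)
      refine ⟨k1, k2, ?_⟩
      unfold su at k3
      rw [map_inv₀] at k3
      exact inv_pow_eq ((Valuation.ne_zero_iff _).2 k2) k3
    have hRc : R.card = nI P - 1 := by omega
    obtain ⟨q0, hq0R⟩ : ∃ q, q ∈ R := by
      have : 0 < R.card := by omega
      exact Finset.card_pos.1 this
    have hRT : ∀ q ∈ R, V.valuation (xu L u e q) = V.valuation (xu L u e q0) := by
      intro q hq
      have h8 : V.valuation (xu L u e q) ^ (nI P - 1) * V.valuation (emb al) ^ 2 =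
          V.valuation (xu L u e q0) ^ (nI P - 1) * V.valuation (emb al) ^ 2 := by
        rw [(hRk q hq).2.2, (hRk q0 hq0R).2.2]
      exact (pow_left_inj₀ zero_le zero_le (by omega)).1
        (mul_right_cancel₀ (pow_ne_zero 2 hπ0) h8)
    -- the product formula
    have pf := h7 L N ν R hν hIsg hR w m1 z hzN
    have xd : ∀ a b : ℂ, L.weierstrassP a - L.weierstrassP b =
        u ^ 2 * (xu L u e a - xu L u e b) := by
      intro a b
      unfold xu
      field_simp
      ring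
    have xd' : ∀ a b : ℂ, N.weierstrassP a - N.weierstrassP b =
        u' ^ 2 * (xu N u' e' a - xu N u' e' b) := by
      intro a b
      unfold xu
      field_simp
      ring
    have pf' : (ν * u' / u) ^ 2 * (xu N u' e' (ν * z) - xu N u' e' (ν * w)) *
        ∏ q ∈ R, (xu L u e z - xu L u e q) =
        (xu L u e z - xu L u e w) * ∏ q ∈ R, (xu L u e z - xu L u e (w + q)) := by
      simp only [xd, xd', Finset.prod_mul_distrib, Finset.prod_const] at pf
      have hu2 : u ^ 2 * (u ^ 2) ^ R.card ≠ 0 := by positivity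
      apply mul_left_cancel₀ hu2
      have e1 : u ^ 2 * (ν * u' / u) ^ 2 = ν ^ 2 * u' ^ 2 := by
        field_simp
      linear_combination pf + ((u ^ 2) ^ R.card *
        (xu N u' e' (ν * z) - xu N u' e' (ν * w)) * ∏ q ∈ R, (xu L u e z - xu L u e q)) * e1
    have hy0 : V.valuation (xu N u' e' (ν * z)) ≠ 0 := (Valuation.ne_zero_iff _).2 y2
    have hyk : V.valuation (xu N u' e' (ν * z)) ^ ((nI P - 1) * nI P ^ j) *
        V.valuation (emb al) ^ 2 = 1 := by
      unfold su at y3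
      rw [map_inv₀] at y3
      exact inv_pow_eq hy0 y3
    obtain ⟨X1, X2⟩ := TP.num V.valuation (nI P) (nI P ^ j) (by omega)
      (pow_ne_zero _ (by omega)) R hRc
      (ν * u' / u) (xu N u' e' (ν * z)) (xu N u' e' (ν * w)) (xu L u e z) (xu L u e w)
      (fun q => xu L u e q) (fun q => xu L u e (w + q)) (V.valuation (xu L u e q0))
      (V.valuation (emb al)) hπ0 hπ1 hmu
      (by rw [mul_comm]; exact (hRk q0 hq0R).2.2)
      (one_lt_of (hRk q0 hq0R).2.2 hπ2) hRT
      (fun q hqR => (Pool.Agent.MUXV.int_X (fun hin => i1 (by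
        have := Pool.Agent.MUXV.inK_sub G hin (hRk q hqR).1
        rwa [add_sub_cancel_right] at this))).2)
      (Pool.Agent.MUXV.int_X i1).2 (Pool.Agent.MUXV.int_X i1').2
      (one_lt_of hyk hπ2) (by rw [mul_comm]; exact hyk) pf'
    have hx0 : xu L u e z ≠ 0 := by
      intro h0
      rw [h0, map_zero] at X1
      exact absurd X1 (not_lt.2 zero_le)
    refine ⟨Or.inr fun hin => ?_, hx0, ?_⟩
    · exact absurd X1 (not_lt.2 ((V.valuation_le_one_iff _).2 hin))
    · calc V.valuation (su L u e z) ^ ((nI P - 1) * nI P ^ (j + 1))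
          = (V.valuation (su L u e z) ^ nI P) ^ ((nI P - 1) * nI P ^ j) := by
            rw [← pow_mul]
            congr 1
            ring
        _ = V.valuation (su N u' e' (ν * z)) ^ ((nI P - 1) * nI P ^ j) := by
            unfold su
            rw [map_inv₀, map_inv₀, inv_pow, X2]
        _ = V.valuation (emb al) ^ 2 := y3

end

end Pool.Agent.OBE


end
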