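import Pool.Agent.MVF.C033
import Pool.Agent.MVF.C108
import Pool.Agent.MVF.C139
import Pool.Agent.MVF.C166
import Pool.Agent.OBM.C01
import Pool.Agent.OBM.C06

/-! Parts: OB.G_TRL, OB.G_UNN, OB.T_TYF -/

section

/-!
# OB, block G: translates by `t / T` of a symbol and of its primitive (module TRL)
-/

set_option autoImplicit false

namespace Pool.Agent.OBG

open _root_.MU3 Pool.Agent.MuSym Pool.Agent.NSG OnePoint

noncomputable section

namespace TRL

variable {T : ℕ}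

theorem mob_inf (D a : ℤ) : mob D a 0 D ∞ = ∞ := MUXH.H1.mob_inf D a

theorem mob_tr (hT : T ≠ 0) (t : ℤ) (r : ℚ) :
    mob (T : ℤ) t 0 (T : ℤ) (r : OnePoint ℚ) = ((r + (t : ℚ) / (T : ℚ) : ℚ) : OnePoint ℚ) := by
  have := Pool.Agent.MUXHN.H1N.mob_tr (T : ℤ) t (by exact_mod_cast hT) r
  rw [this]
  push_cast
  rfl

/-- conjugation by the translation -/
theorem conj (hT : T ≠ 0) (t a b c d c1 d1 : ℤ) (h : a * d - b * c = 1)
    (hc : c = (T : ℤ) ^ 2 * c1) (hd : d = 1 + (T : ℤ) ^ 2 * d1) :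
    ∃ a' b' d' : ℤ, a' * d' - b' * c = 1 ∧ d' = d - (T : ℤ) * t * c1 ∧
      (∀ x, mob (T : ℤ) t 0 (T : ℤ) (mob a b c d x) =
        mob a' b' c d' (mob (T : ℤ) t 0 (T : ℤ) x)) ∧
      ∀ τ : ℂ, (c : ℂ) * τ + d ≠ 0 → ((a : ℂ) * τ + b) / (c * τ + d) + t / (T : ℂ) =
        ((a' : ℂ) * (τ + t / (T : ℂ)) + b') / (c * (τ + t / (T : ℂ)) + d') := by
  have hTq : (T : ℚ) ≠ 0 := by exact_mod_cast hT
  have hTc : (T : ℂ) ≠ 0 := by exact_mod_cast hT
  obtain ⟨a1, ha1⟩ : ∃ a1 : ℤ, a1 = b * c1 - a * d1 := ⟨_, rfl⟩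
  have ha : a = 1 + (T : ℤ) ^ 2 * a1 := by
    rw [ha1]
    have : a = 1 + b * c - a * (d - 1) := by linarith
    rw [hc, hd] at this
    linear_combination this
  have hda : d - a = (T : ℤ) ^ 2 * (d1 - a1) := by rw [hd, ha]; ring
  refine ⟨a + (T : ℤ) * t * c1, b + (T : ℤ) * t * (d1 - a1) - t ^ 2 * c1,
    d - (T : ℤ) * t * c1, ?_, rfl, ?_, ?_⟩
  · have e1 : a * d - b * ((T : ℤ) ^ 2 * c1) = 1 := by rw [← hc]; exact h
    rw [hc]
    linear_combination e1 + (T : ℤ) * t * c1 * hda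
  · have hdaq : (d : ℚ) - a = (T : ℚ) ^ 2 * (d1 - a1) := by exact_mod_cast hda
    intro x
    induction x using OnePoint.rec with
    | infty =>
      rw [mob_inf]
      by_cases hc0 : c = 0
      · have hc10 : c1 = 0 := by
          rw [hc0] at hc
          have h2 : (T : ℤ) ^ 2 ≠ 0 := pow_ne_zero _ (by exact_mod_cast hT)
          exact (mul_eq_zero.1 hc.symm).resolve_left h2
        rw [hc0, hc10]
        simp [mob]
      · have hcq : (c : ℚ) ≠ 0 := by exact_mod_cast hc0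
        have e1 : mob a b c d ∞ = ((a / c : ℚ) : OnePoint ℚ) := by
          simp only [mob, OnePoint.elim_infty, if_neg hc0]
        rw [e1, mob_tr hT]
        simp only [mob, OnePoint.elim_infty, if_neg hc0]
        congr 1
        push_cast
        have h3 : (c : ℚ) = (T : ℚ) ^ 2 * c1 := by exact_mod_cast hc
        rw [div_add_div _ _ hcq hTq, div_eq_div_iff (mul_ne_zero hcq hTq) hcq, h3]
        ring
    | coe r =>
      rw [mob_tr hT]
      have hcq : (c : ℚ) = (T : ℚ) ^ 2 * c1 := by exact_mod_cast hc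
      have e0 : (c : ℚ) * (t / (T : ℚ)) = (T : ℚ) * t * c1 := by
        rw [hcq]
        field_simp
      have e1 : (c : ℚ) * (r + t / (T : ℚ)) + ((d - (T : ℤ) * t * c1 : ℤ) : ℚ) = c * r + d := by
        push_cast
        linear_combination e0
      by_cases hz : (c : ℚ) * r + d = 0
      · have hz' : (c : ℚ) * (r + t / (T : ℚ)) + ((d - (T : ℤ) * t * c1 : ℤ) : ℚ) = 0 := by
          rw [e1, hz]
        have e2 : mob a b c d (r : OnePoint ℚ) = ∞ := by
          simp only [mob, OnePoint.elim_some, if_pos hz]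
        rw [e2, mob_inf]
        simp only [mob, OnePoint.elim_some, if_pos hz']
      · have hz' : (c : ℚ) * (r + t / (T : ℚ)) + ((d - (T : ℤ) * t * c1 : ℤ) : ℚ) ≠ 0 := by
          rw [e1]; exact hz
        have e2 : mob a b c d (r : OnePoint ℚ) = (((a * r + b) / (c * r + d) : ℚ) : OnePoint ℚ) := by
          simp only [mob, OnePoint.elim_some, if_neg hz]
        rw [e2, mob_tr hT]
        simp only [mob, OnePoint.elim_some, if_neg hz']
        congr 1
        rw [e1, ← mul_left_inj' hz, add_mul, div_mul_cancel₀ _ hz, div_mul_cancel₀ _ hz]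
        push_cast
        have e4 : (t : ℚ) / (T : ℚ) * ((T : ℚ) ^ 2 * (d1 - a1)) = (T : ℚ) * t * (d1 - a1) := by
          field_simp
        have e5 : (T : ℚ) * t * c1 * (t / (T : ℚ)) = t ^ 2 * c1 := by
          field_simp
        linear_combination (t : ℚ) / (T : ℚ) * hdaq + e4 + r * e0 - e5
  · intro τ hz
    have hcq : (c : ℂ) = (T : ℂ) ^ 2 * c1 := by exact_mod_cast hc
    have hdaq : (d : ℂ) - a = (T : ℂ) ^ 2 * (d1 - a1) := by exact_mod_cast hda
    have e0 : (c : ℂ) * (t / (T : ℂ)) = (T : ℂ) * t * c1 := by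
      rw [hcq]
      field_simp
    have e1 : (c : ℂ) * (τ + t / (T : ℂ)) + ((d - (T : ℤ) * t * c1 : ℤ) : ℂ) = c * τ + d := by
      push_cast
      linear_combination e0
    rw [e1, ← mul_left_inj' hz, add_mul, div_mul_cancel₀ _ hz, div_mul_cancel₀ _ hz]
    push_cast
    have e4 : (t : ℂ) / (T : ℂ) * ((T : ℂ) ^ 2 * (d1 - a1)) = (T : ℂ) * t * (d1 - a1) := by
      field_simp
    have e5 : (T : ℂ) * t * c1 * (t / (T : ℂ)) = t ^ 2 * c1 := by
      field_simp
    linear_combination (t : ℂ) / (T : ℂ) * hdaq + e4 + τ * e0 - e5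

/-- Hermite normal form of `(T, t; 0, T) γ` -/
theorem herm (hT : T ≠ 0) (t a b c d : ℤ) (h : a * d - b * c = 1) :
    ∃ p q r s A' B' D' : ℤ, p * s - q * r = 1 ∧ 0 < A' ∧ 0 < D' ∧ A' * D' = (T : ℤ) ^ 2 ∧
      ∀ τ : ℂ, (c : ℂ) * τ + d ≠ 0 → (r : ℂ) * ((A' * τ + B') / D') + s ≠ 0 ∧
        ((a : ℂ) * τ + b) / (c * τ + d) + t / (T : ℂ) =
        ((p : ℂ) * ((A' * τ + B') / D') + q) / (r * ((A' * τ + B') / D') + s) := by
  have hTz : (T : ℤ) ≠ 0 := by exact_mod_cast hT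
  have hTc : (T : ℂ) ≠ 0 := by exact_mod_cast hT
  have hT2 : (0 : ℤ) < (T : ℤ) ^ 2 := by positivity
  set u : ℤ := (T : ℤ) * a + t * c with hu
  set v : ℤ := (T : ℤ) * c with hv
  have hne : u ≠ 0 ∨ v ≠ 0 := by
    by_contra hcon
    push Not at hcon
    have hc0 : c = 0 := (mul_eq_zero.1 hcon.2).resolve_left hTz
    have ha0 : a = 0 := by
      have h1 := hcon.1
      rw [hu, hc0, mul_zero, add_zero] at h1
      exact (mul_eq_zero.1 h1).resolve_left hTz
    rw [hc0, ha0] at h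
    simp at h
  set G : ℤ := (Int.gcd u v : ℤ) with hG
  have hGpos : 0 < G := by
    have : Int.gcd u v ≠ 0 := by
      intro h0
      rw [Int.gcd_eq_zero_iff] at h0
      rcases hne with h1 | h1
      · exact h1 h0.1
      · exact h1 h0.2
    rw [hG]
    exact_mod_cast Nat.pos_of_ne_zero this
  obtain ⟨p, hp⟩ : G ∣ u := Int.gcd_dvd_left _ _
  obtain ⟨r, hr⟩ : G ∣ v := Int.gcd_dvd_right _ _
  have hbz : G = u * Int.gcdA u v + v * Int.gcdB u v := Int.gcd_eq_gcd_ab u v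
  obtain ⟨s, hs⟩ : ∃ s, s = Int.gcdA u v := ⟨_, rfl⟩
  obtain ⟨q, hq⟩ : ∃ q, q = -Int.gcdB u v := ⟨_, rfl⟩
  have hdet : p * s - q * r = 1 := by
    have h1 : G * (p * s - q * r) = G * 1 := by
      rw [hs, hq]
      calc G * (p * Int.gcdA u v - -Int.gcdB u v * r)
          = (G * p) * Int.gcdA u v + (G * r) * Int.gcdB u v := by ring
        _ = u * Int.gcdA u v + v * Int.gcdB u v := by rw [← hp, ← hr]
        _ = G * 1 := by rw [← hbz, mul_one]
    exact mul_left_cancel₀ hGpos.ne' h1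
  obtain ⟨B', hB'⟩ : ∃ B', B' = s * ((T : ℤ) * b + t * d) - q * ((T : ℤ) * d) := ⟨_, rfl⟩
  obtain ⟨D', hD'⟩ : ∃ D', D' = -r * ((T : ℤ) * b + t * d) + p * ((T : ℤ) * d) := ⟨_, rfl⟩
  have hGD : G * D' = (T : ℤ) ^ 2 := by
    have h1 : G * D' = -(G * r) * ((T : ℤ) * b + t * d) + (G * p) * ((T : ℤ) * d) := by
      rw [hD']; ring
    rw [h1, ← hp, ← hr, hu, hv]
    linear_combination (T : ℤ) ^ 2 * h
  have hD'pos : 0 < D' := by
    by_contra hcon
    have : G * D' ≤ 0 := mul_nonpos_of_nonneg_of_nonpos hGpos.le (not_lt.1 hcon)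
    omega
  refine ⟨p, q, r, s, G, B', D', hdet, hGpos, hD'pos, hGD, fun τ hz => ?_⟩
  have hDc : (D' : ℂ) ≠ 0 := by exact_mod_cast hD'pos.ne'
  have k1 : p * B' + q * D' = (T : ℤ) * b + t * d := by
    rw [hB', hD']
    linear_combination ((T : ℤ) * b + t * d) * hdet
  have k2 : r * B' + s * D' = (T : ℤ) * d := by
    rw [hB', hD']
    linear_combination ((T : ℤ) * d) * hdet
  have k1c : (p : ℂ) * B' + q * D' = (T : ℂ) * b + t * d := by exact_mod_cast k1
  have k2c : (r : ℂ) * B' + s * D' = (T : ℂ) * d := by exact_mod_cast k2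
  have hpc : (T : ℂ) * a + t * c = G * p := by exact_mod_cast hp
  have hrc : (T : ℂ) * c = G * r := by exact_mod_cast hr
  have e1 : (r : ℂ) * ((G * τ + B') / D') + s = (T : ℂ) * (c * τ + d) / D' := by
    field_simp
    linear_combination (-τ) * hrc + k2c
  have e2 : (p : ℂ) * ((G * τ + B') / D') + q =
      ((T : ℂ) * (a * τ + b) + t * (c * τ + d)) / D' := by
    field_simp
    linear_combination (-τ) * hpc + k1c
  constructor
  · rw [e1]
    exact div_ne_zero (mul_ne_zero hTc hz) hDc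
  · rw [e1, e2]
    generalize (c : ℂ) * τ + d = Z at hz
    generalize (a : ℂ) * τ + b = Y
    rw [div_div_div_cancel_right₀ hDc]
    field_simp

theorem ne0 (c d : ℤ) (a b : ℤ) (h : a * d - b * c = 1) (τ : ℂ) (hτ : 0 < τ.im) :
    (c : ℂ) * τ + d ≠ 0 := Pool.Agent.NSG.Trl.ne0 c d a b h τ hτ

variable {N : ℕ} {Φ : OnePoint ℚ → OnePoint ℚ → ℂ} {ϑ : ℂ → ℂ}

/-- the translate has level `T² N` -/
theorem tr (hT : T ≠ 0) (h : SymN N Φ ϑ) (t : ℤ) :
    SymN (T ^ 2 * N) (fun x y => Φ (mob (T : ℤ) t 0 (T : ℤ) x) (mob (T : ℤ) t 0 (T : ℤ) y))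
      (fun τ => ϑ (τ + t / (T : ℂ))) where
  pos := Nat.mul_pos (by positivity) h.pos
  add := by
    intro x y z
    exact h.add _ _ _
  inv := by
    rintro a b c d h1 ⟨c1, hc⟩ ⟨d1, hd⟩ x y
    obtain ⟨a', b', d', k1, k2, k3, -⟩ := conj hT t a b c d (N * c1) (N * d1) h1
      (by rw [hc]; push_cast; ring) (by
        have : d = 1 + (d - 1) := by ring
        rw [this, hd]; push_cast; ring)
    show Φ _ _ = Φ _ _
    rw [k3, k3]
    refine h.inv a' b' c d' k1 ⟨(T : ℤ) ^ 2 * c1, by rw [hc]; push_cast; ring⟩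
      ⟨(T : ℤ) ^ 2 * d1 - (T : ℤ) * t * c1, ?_⟩ _ _
    rw [k2]
    have : d = 1 + (d - 1) := by ring
    rw [this, hd]
    push_cast
    ring
  per := by
    rintro a b c d h1 ⟨c1, hc⟩ ⟨d1, hd⟩ τ hτ
    obtain ⟨a', b', d', k1, k2, k3, k4⟩ := conj hT t a b c d (N * c1) (N * d1) h1
      (by rw [hc]; push_cast; ring) (by
        have : d = 1 + (d - 1) := by ring
        rw [this, hd]; push_cast; ring)
    show ϑ _ = ϑ _ + Φ _ _
    rw [k4 τ (ne0 c d a b h1 τ hτ), k3, mob_inf]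
    refine h.per a' b' c d' k1 ⟨(T : ℤ) ^ 2 * c1, by rw [hc]; push_cast; ring⟩
      ⟨(T : ℤ) ^ 2 * d1 - (T : ℤ) * t * c1, ?_⟩ _ ?_
    · rw [k2]
      have : d = 1 + (d - 1) := by ring
      rw [this, hd]
      push_cast
      ring
    · have : ((t : ℂ) / (T : ℂ)).im = 0 := by
        have : ((t : ℂ) / (T : ℂ)) = (((t : ℝ) / (T : ℝ) : ℝ) : ℂ) := by push_cast; rfl
        rw [this]
        exact Complex.ofReal_im _
      rw [Complex.add_im, this, add_zero]
      exact hτ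
  cusp := by
    intro a b c d h1
    obtain ⟨p, q, r, s, A', B', D', k1, hA, hD, hAD, k2⟩ := herm hT t a b c d h1
    obtain ⟨C, w, hw⟩ := h.cusp p q r s k1
    have hDc : (D' : ℂ) ≠ 0 := by exact_mod_cast hD.ne'
    have hADc : (A' : ℂ) * D' = (T : ℂ) ^ 2 := by exact_mod_cast hAD
    have hNc : (N : ℂ) ≠ 0 := by exact_mod_cast h.pos.ne'
    obtain ⟨A1, hA1⟩ : ∃ A1 : ℕ, (A1 : ℤ) = A' := ⟨A'.toNat, Int.toNat_of_nonneg hA.le⟩
    have hA1p : 0 < A1 := by
      have : (0 : ℤ) < A1 := by rw [hA1]; exact hA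
      exact_mod_cast this
    have hA1c : (A1 : ℂ) = A' := by exact_mod_cast hA1
    set ζ : ℂ := Complex.exp (2 * Real.pi * Complex.I * (B' / D') / N) with hζ
    set fn : ℕ → ℕ := fun n => A1 ^ 2 * (n + 1) - 1 with hfn
    have hfn1 : ∀ n, fn n + 1 = A1 ^ 2 * (n + 1) := by
      intro n
      have : 0 < A1 ^ 2 * (n + 1) := by positivity
      show A1 ^ 2 * (n + 1) - 1 + 1 = _
      omega
    have hinj : Function.Injective fn := by
      intro n m hnm
      have h3 : A1 ^ 2 * (n + 1) = A1 ^ 2 * (m + 1) := by rw [← hfn1, ← hfn1, hnm]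
      have h4 := Nat.eq_of_mul_eq_mul_left (by positivity) h3
      omega
    classical
    refine ⟨C, fun m => if hm : ∃ n, fn n = m then w hm.choose * ζ ^ (hm.choose + 1) else 0,
      fun τ hτ => ?_⟩
    have hz := ne0 c d a b h1 τ hτ
    have him : 0 < (((A' : ℂ) * τ + B') / D').im := by
      have e1 : ((A' : ℂ) * τ + B') / D' = ((A' / D' : ℝ) : ℂ) * τ + ((B' / D' : ℝ) : ℂ) := by
        push_cast
        field_simp
      rw [e1, Complex.add_im, Complex.ofReal_im, add_zero, Complex.im_ofReal_mul]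
      have hA' : (0 : ℝ) < A' := by exact_mod_cast hA
      have hD' : (0 : ℝ) < D' := by exact_mod_cast hD
      positivity
    have hs := hw _ him
    show HasSum _ (ϑ (((a : ℂ) * τ + b) / (c * τ + d) + t / (T : ℂ)) - C)
    rw [(k2 τ hz).2]
    have e3 : ∀ n, w n * Complex.exp (2 * Real.pi * Complex.I * (((A' : ℂ) * τ + B') / D') / N) ^
        (n + 1) = (fun m => (if hm : ∃ n, fn n = m then w hm.choose * ζ ^ (hm.choose + 1) else 0) *
          Complex.exp (2 * Real.pi * Complex.I * τ / ((T ^ 2 * N : ℕ) : ℂ)) ^ (m + 1)) (fn n) := by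
      intro n
      have hex : ∃ k, fn k = fn n := ⟨n, rfl⟩
      have hch : hex.choose = n := hinj hex.choose_spec
      show _ = (if hm : ∃ k, fn k = fn n then w hm.choose * ζ ^ (hm.choose + 1) else 0) * _
      rw [dif_pos hex, hch, hfn1, mul_assoc (w n)]
      congr 1
      rw [hζ, ← Complex.exp_nat_mul, ← Complex.exp_nat_mul, ← Complex.exp_nat_mul, ← Complex.exp_add]
      congr 1
      push_cast
      rw [hA1c, ← hADc]
      have hA'c : (A' : ℂ) ≠ 0 := by exact_mod_cast hA.ne'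
      field_simp
      ring
    have e4 := hs
    simp_rw [e3] at e4
    refine (hinj.hasSum_iff ?_).1 e4
    intro m hm
    have hm' : ¬ ∃ n, fn n = m := hm
    show (if hm : ∃ n, fn n = m then w hm.choose * ζ ^ (hm.choose + 1) else 0) * _ = 0
    rw [dif_neg hm', zero_mul]

end TRL

theorem o_TRL : So_TRL := by
  intro T hT N Φ ϑ h t
  exact TRL.tr hT h t

end

end Pool.Agent.OBG


end

section

/-!
# OB, block G (helper73): units and ideals with a generator, `|D| ≠ 3, 4` (after helper6's `NS/G_Unn.lean`)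
-/

set_option autoImplicit false

namespace Pool.Agent.OBG

open _root_.MU3 Pool.Agent.MU3A Pool.Agent.MU3B Pool.Agent.MU3Q Pool.Agent.MUX Pool.Agent.MuSym
  Pool.Agent.MUXN Pool.Agent.NS Pool.Agent.NSG Pool.Agent.OB

theorem o_UNN (h : MUXF.Sx_IDL) (h' : MUXF.Sx_NIM) : So_UNN := by
  intro A B hc hne3 hne4
  have hD : 5 ≤ -(B ^ 2 + 4 * A) := by
    have hn := hc.neg
    unfold absD at hne3 hne4
    rcases hc.hB with hB | hB
    · subst hB
      simp only [ne_eq, OfNat.ofNat_ne_zero, not_false_eq_true, zero_pow, zero_add] at hne3 hne4 hn ⊢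
      omega
    · subst hB
      simp only [one_pow] at hne3 hne4 hn ⊢
      omega
  refine ⟨fun x hx => ?_, fun b hb x hx hn => ?_⟩
  · have h4 : (2 * x.re + B * x.im) ^ 2 + -(B ^ 2 + 4 * A) * x.im ^ 2 = 4 := by
      unfold nm at hx
      linear_combination 4 * hx
    have him : x.im = 0 := by
      by_contra him
      have h1 : 1 ≤ x.im ^ 2 := by
        have : 0 < x.im ^ 2 := by positivity
        omega
      nlinarith [sq_nonneg (2 * x.re + B * x.im)]
    have hre : x.re ^ 2 = 1 := by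
      rw [him] at h4
      linarith
    rcases (sq_eq_sq_iff_eq_or_eq_neg.1 (hre.trans (one_pow 2).symm)) with h1 | h1
    · left
      ext
      · exact h1
      · exact him
    · right
      ext
      · exact h1
      · exact him
  · have hcq : MUXF.CQ A B := MUXY.cqF hc
    have hn0 : MUX.nI b ≠ 0 := (h A B hcq b hb).1
    obtain ⟨-, h2, -, -⟩ := h' A B hcq
    have hx0 : x ≠ 0 := by
      rintro rfl
      apply hn0
      have : nm (0 : OO A B) = 0 := by
        unfold nm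
        simp
      rw [this] at hn
      exact_mod_cast hn.symm
    have hle : sp x ≤ b := (Ideal.span_singleton_le_iff_mem b).2 hx
    have hcard : Nat.card (OO A B ⧸ sp x) = Nat.card (OO A B ⧸ b) := by
      have h3 := (h2 x).resolve_right hx0
      have h4 : (nm x).natAbs = MUX.nI b := by
        rw [hn]
        simp
      exact h3.trans h4
    have : Finite (OO A B ⧸ sp x) := by
      apply Nat.finite_of_card_ne_zero
      rw [hcard]
      exact hn0
    have hbij := Function.Surjective.bijective_of_nat_card_le (Ideal.Quotient.factor_surjective hle)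
      hcard.le
    apply le_antisymm _ hle
    intro y hy
    rw [← Ideal.Quotient.eq_zero_iff_mem]
    apply hbij.injective
    rw [map_zero, Ideal.Quotient.factor_mk]
    exact Ideal.Quotient.eq_zero_iff_mem.2 hy

end Pool.Agent.OBG


end

section

/-!
# OB, block T, module TYF: TYPE, every prime `p ≥ 5` (adapted from `NS/TR_TYF.lean`, `NS/T_TYF.lean`)
-/

set_option autoImplicit false

namespace Pool.Agent.OBT

open _root_.MU3 Pool.Agent.MU3A Pool.Agent.MU3B Pool.Agent.RI Pool.Agent.MUX Pool.Agent.MUXU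
open OnePoint Pool.Agent.NS Pool.Agent.OB
open Pool.Agent.MUXV (GR InK)
open Pool.Agent.NSE (su ru)
open Pool.Agent.NST (KIn ActT)
open Pool.Agent.MUXY (ActN Dn)

noncomputable section

namespace TYF

open Pool.Agent.NST.TYF

/-- an element prime to `m` with `p ∣ m` is not in `P` -/
lemma not_mem {A B : ℤ} {P : Ideal (OO A B)} {p : ℕ} (hP : P.IsPrime)
    (hpP : ((p : ℕ) : OO A B) ∈ P) {m : ℕ} (hm : p ∣ m)
    {c : OO A B} (hc : IsCoprime (sp c) (idl (A := A) (B := B) m)) : c ∉ P := by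
  intro h
  have h1 : sp c ≤ P := by
    rw [Ideal.span_singleton_le_iff_mem]
    exact h
  have h2 : idl (A := A) (B := B) m ≤ P := by
    rw [Ideal.span_singleton_le_iff_mem]
    obtain ⟨k, rfl⟩ := hm
    rw [Nat.cast_mul]
    exact P.mul_mem_right _ hpP
  have h3 := (Ideal.isCoprime_iff_sup_eq.1 hc)
  exact hP.ne_top (top_le_iff.1 (h3 ▸ sup_le h1 h2))

lemma idl_mul {A B : ℤ} (m n : ℕ) :
    idl (A := A) (B := B) (m * n) = idl m * idl n := by
  simp only [idl, Ideal.span_singleton_mul_span_singleton]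
  congr 2
  push_cast
  rfl

lemma idl_pow {A B : ℤ} (m n : ℕ) :
    idl (A := A) (B := B) (m ^ n) = idl m ^ n := by
  simp only [idl, Ideal.span_singleton_pow]
  congr 2
  push_cast
  rfl

end TYF

open _root_.Pool.Agent.OBT.TYF Pool.Agent.NST.TYF in
/-- (TYF) TYPE, every prime `p ≥ 5` -/
theorem o_TYF (hR : O_RFIN) (hBAS : So_BAS) (hUNF : So_UNF) (hALT : So_ALT) (hACG : So_ACG)
    (hSGU : So_SGU) (hTAU : So_TAU) (hRTU : So_RTU) (hGLC : NST.Nt_GLC) (hFGP : So_FGP)
    (hFGV : NST.Nt_FGV) (hALV : So_ALV) (hVAK : So_VAK) : So_TYF := by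
  intro p er A B P V f hS hT ι _ R u el lam hG w hw e he r hr her i hi ka hka ka' hka'
  have hQ : CQ A B := hS.cq
  have hp : p.Prime := hS.pp
  obtain ⟨hvp, -, -, -, hemP, hnu, -, hq1, hq4, -, hcopP, hidp⟩ :=
    hBAS p er A B P V hS.toCaseO
  have hu0 : u ≠ 0 := hG.u0
  have hr0 : r ≠ 0 := by
    rintro rfl
    exact hr (dvd_zero p)
  have hf12 := hS.f6.2
  have hf2 : 2 ∣ f := (by norm_num : 2 ∣ 12).trans hS.f12
  have hpf : p * f ≠ 0 := mul_ne_zero hp.ne_zero hS.f0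
  have hpf2 : 2 ≤ p * f := by
    have h1 : 1 * f ≤ p * f := Nat.mul_le_mul_right _ hp.one_lt.le
    omega
  obtain ⟨T, hTT⟩ := hFGV A B hQ (p * f) ι R (idl (p * f)) e (idl_ne_bot hQ hpf) he ka
    (u * R.om R.i0)
  obtain ⟨T', hTT'⟩ := hFGV A B hQ (p * f) ι R (idl (p * f)) e (idl_ne_bot hQ hpf) he ka'
    (u * R.om R.i0)
  obtain ⟨S, j, N, hN0, hNp, hSD, hgen⟩ :=
    hFGP p hp (fun x y => PhiK R e ka x y / (u * R.om R.i0)) T hTT
  obtain ⟨S', j', N', hN0', hNp', hSD', hgen'⟩ :=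
    hFGP p hp (fun x y => PhiK R e ka' x y / (u * R.om R.i0)) T' hTT'
  obtain ⟨tau, htau4, htaua, htau⟩ :=
    hTAU p er A B P V hS.toCaseO hT (p * f) ι R u el lam hG w hw
  obtain ⟨hu2, hel, hlam, hua, hALTz⟩ := hALT A B hQ hT V (R.b R.i0) (R.L R.i0)
    (R.om R.i0) (R.nl R.i0) u el lam hG
  set m' := f * (N * N') with hm'
  have hm'0 : m' ≠ 0 := mul_ne_zero hS.f0 (mul_ne_zero hN0 hN0')
  have hm'p : ¬ p ∣ m' := by
    intro h
    rcases (Nat.Prime.dvd_mul hp).1 h with h | h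
    · exact hS.fp h
    · rcases (Nat.Prime.dvd_mul hp).1 h with h | h
      · exact hNp h
      · exact hNp' h
  have hfC : (f : ℂ) ≠ 0 := by exact_mod_cast hS.f0
  have hfm : f ∣ m' := Dvd.intro _ rfl
  have hf1 : f ≠ 1 := by omega
  -- the point of level `f`
  have hom : R.om R.i0 ≠ 0 := (R.nl R.i0).om_ne
  have hz1 : R.om R.i0 / f ∉ (R.L R.i0).lattice := by
    intro h
    obtain ⟨x, -, hx⟩ := ((R.nl R.i0).mem _).1 h
    apply nat_mul_ne_one hQ hf1 x
    apply MUX.emb_inj hQ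
    rw [MUX.emb_mul hQ, MUX.emb_natCast hQ, MUX.emb_one hQ]
    field_simp at hx
    rw [← hx]
  have hz2 : (f : ℂ) * (R.om R.i0 / f) ∈ (R.L R.i0).lattice := by
    rw [mul_div_cancel₀ _ hfC]
    refine ((R.nl R.i0).mem _).2 ⟨1, ?_, ?_⟩
    · rw [R.b0]
      trivial
    · rw [MUX.emb_one hQ, mul_one]
  have hYa := (hALTz f hS.f0 _ hz1 hz2).2.1
  -- the level
  set J := j + j' + 1 with hJ
  set m := p ^ J * m' with hm
  have hpm : p ∣ m := (dvd_pow_self p (Nat.succ_ne_zero _)).mul_right _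
  have hm0 : m ≠ 0 := mul_ne_zero (pow_ne_zero _ hp.ne_zero) hm'0
  have hd1 : p ^ j * N ∣ m := by
    refine mul_dvd_mul (pow_dvd_pow p (by omega)) ?_
    exact (Dvd.intro _ rfl).trans (Dvd.intro_left f rfl)
  have hd2 : p ^ j' * N' ∣ m := by
    refine mul_dvd_mul (pow_dvd_pow p (by omega)) ?_
    exact (Dvd.intro_left N rfl).trans (Dvd.intro_left f rfl)
  have hpfm : p * f ∣ m := by
    refine mul_dvd_mul ?_ hfm
    exact dvd_pow_self p (Nat.succ_ne_zero _)
  set g : Ideal (OO A B) := idl m' * Pc P ^ J with hg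
  have hidpP : idl (A := A) (B := B) p ≤ Pc P := by
    rw [hidp]
    exact Ideal.mul_le_left
  have hmg : idl (A := A) (B := B) m ≤ g := by
    rw [hm, mul_comm, idl_mul, idl_pow, hg]
    exact Ideal.mul_mono le_rfl (Ideal.pow_right_mono hidpP J)
  have hgO : g ≤ gO P f := by
    rw [hg, gO]
    exact Ideal.mul_mono (mem_idl_of_dvd hfm) (Ideal.pow_le_self (Nat.succ_ne_zero _))
  have hgf : g ≤ idl (A := A) (B := B) f := hgO.trans Ideal.mul_le_left
  have hg2 : g ≤ idl (A := A) (B := B) 2 := hgf.trans (mem_idl_of_dvd hf2)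
  have hgb : g ≠ ⊥ := by
    intro h
    rw [h, le_bot_iff] at hmg
    exact idl_ne_bot hQ hm0 hmg
  have hgP : ¬ g ≤ P := by
    intro h
    have hPp : P.IsPrime := hS.prime
    rcases hPp.mul_le.1 h with h1 | h1
    · have h2 : ((m' : ℕ) : OO A B) ∈ P := h1 (Ideal.mem_span_singleton_self _)
      have h3 := (hemP _).2 h2
      rw [MUX.emb_natCast hQ, hnu m' hm'p] at h3
      exact lt_irrefl _ h3
    · exact hS.toCaseO.not_le hcopP (hPp.le_of_pow_le h1)
  -- the field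
  set Q : OnePoint ℚ × OnePoint ℚ → ℂ :=
    fun q => PhiK R e ka q.1 q.2 / (u * R.om R.i0) with hQdef
  set Q' : OnePoint ℚ × OnePoint ℚ → ℂ :=
    fun q => PhiK R e ka' q.1 q.2 / (u * R.om R.i0) with hQdef'
  set k := r * (nI P - 1) with hk
  have hk0 : k ≠ 0 := mul_ne_zero hr0 (by omega)
  have hkp : ¬ p ∣ k := by
    intro h
    rcases (Nat.Prime.dvd_mul hp).1 h with h | h
    · exact hr h
    · exact hq1 h
  set Ts : Set ℂ := ((Q '' (S : Set (OnePoint ℚ × OnePoint ℚ))) ∪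
    (Q' '' (S' : Set (OnePoint ℚ × OnePoint ℚ)))) ∪
    ({tau, yu (R.L R.i0) u (R.om R.i0 / f)} ∪
      ((Polynomial.nthRootsFinset k (1 : ℂ) : Finset ℂ) : Set ℂ)) with hTs
  have hTfin : Ts.Finite := by
    refine Set.Finite.union (Set.Finite.union ?_ ?_) (Set.Finite.union ?_ ?_)
    · exact (Finset.finite_toSet S).image _
    · exact (Finset.finite_toSet S').image _
    · exact Set.toFinite _
    · exact Finset.finite_toSet _
  have hTalg : ∀ t ∈ Ts, IsAlgebraic ℚ t := by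
    rintro t ((⟨q, -, rfl⟩ | ⟨q, -, rfl⟩) | (ht | ht))
    · exact hALV p hp A B hQ hT f hS.f0 ι R e he r hr0 her ka hka u hua q.1 q.2
    · exact hALV p hp A B hQ hT f hS.f0 ι R e he r hr0 her ka' hka' u hua q.1 q.2
    · rcases ht with rfl | ht
      · exact htaua
      · rw [Set.mem_singleton_iff] at ht
        rw [ht]
        exact hYa
    · rw [Finset.mem_coe, Polynomial.mem_nthRootsFinset (Nat.pos_of_ne_zero hk0)] at ht
      refine ⟨Polynomial.X ^ k - 1, Polynomial.X_pow_sub_C_ne_zero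
        (Nat.pos_of_ne_zero hk0) (1 : ℚ), ?_⟩
      simp [ht]
  obtain ⟨F, hFf, hFg, hEF, hTF⟩ := hGLC A B hQ (RF g) (hT.fin _ hgb) Ts hTfin hTalg
  have hvp0 : V.valuation (p : ℂ) ≠ 0 :=
    V.valuation.ne_zero_iff.2 (by exact_mod_cast hp.ne_zero)
  have her0 : er ≠ 0 := by
    rcases hS.ram with ⟨h, -⟩ | ⟨h, -⟩ <;> omega
  have htau0 : tau ≠ 0 := by
    rintro rfl
    rw [map_zero, zero_pow (mul_ne_zero her0 (by omega))] at htau4
    exact hvp0 htau4.symm
  have htauF : tau ∈ F := hTF (Or.inr (Or.inl (Or.inl rfl)))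
  have hyF : yu (R.L R.i0) u (R.om R.i0 / f) ∈ F := hTF (Or.inr (Or.inl (Or.inr rfl)))
  have hrF : ∀ z : ℂ, z ^ k = 1 → z ∈ F := fun z hz => hTF (Or.inr (Or.inr (by
    rw [Finset.mem_coe, Polynomial.mem_nthRootsFinset (Nat.pos_of_ne_zero hk0)]
    exact hz)))
  -- the key point
  have hkey : ∀ σ : ℂ ≃+* ℂ, InI A B V (F : Set ℂ) σ →
      (∀ q ∈ S, σ (Q q * tau ^ i) = Q q * tau ^ i) ∧
      (∀ q ∈ S', σ (Q' q * tau ^ i) = Q' q * tau ^ i) := by
    intro σ hσ
    have hRF := (hR p er A B P V hS.toCaseO hT).2 g hgb hgP σ hσ.fix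
      (fun y hy hyV => hσ.iner y (hEF hy) hyV)
    obtain ⟨c, d, hc1, hcop, hact⟩ := hACG A B hQ hT (p * f) ι R m g hm0 hmg σ hσ.fix hRF
    have hcP : c ∉ P := not_mem hS.prime hS.mem hpm hcop
    have hle : (RF (idl (A := A) (B := B) 2) : IntermediateField (kk A B) ℂ) ≤ RF g :=
      hT.mono _ _ hg2
    have hsu2 : σ (u ^ 2) = u ^ 2 := hRF _ (hle hu2)
    have hsel : σ el = el := hRF _ (hle hel)
    have hcf : c - 1 ∈ idl (A := A) (B := B) f := hgf hc1
    have hsu : σ u = d R.i0 * u := by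
      refine hSGU p er A B P V hS.toCaseO (p * f) ι R u el lam hG m f hm0
        (hfm.trans (Dvd.intro_left _ rfl)) (by omega) hS.fp σ c d hcf hact hsu2 ?_
      intro h
      have h1 := hσ.iner _ hyF ((V.valuation_le_one_iff _).1 h)
      rwa [ValuationSubring.mem_nonunits_iff] at h1
    have hroot : ∀ z : ℂ, (z = 0 ∨ z ^ k = 1) → σ z = z := by
      refine (hRTU p hp V hvp k hkp).2 σ ?_
      intro z hz
      have hz1 : V.valuation z = 1 := by
        have h1 : (V.valuation z) ^ k = 1 := by rw [← map_pow, hz, map_one]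
        exact (pow_eq_one_iff.1 h1).resolve_right hk0
      have h1 := hσ.iner z (hrF z hz) ((V.valuation_le_one_iff _).1 hz1.le)
      rwa [ValuationSubring.mem_nonunits_iff] at h1
    have hroot' : ∀ z : ℂ, (z = 0 ∨ z ^ r = 1) → σ z = z := by
      rintro z (hz | hz)
      · exact hroot z (Or.inl hz)
      · exact hroot z (Or.inr (by rw [hk, pow_mul, hz, one_pow]))
    have hse : ∀ x, σ (e x) = e x := by
      intro x
      apply hroot'
      by_cases hx : e x = 0
      · exact Or.inl hx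
      · exact Or.inr (her x hx)
    have hsw : ∀ x, σ (w x) = w x := by
      intro x
      apply hroot
      by_cases hx : x ∈ P
      · exact Or.inl (hw.zero x hx)
      · right
        rw [hk, mul_comm, pow_mul, hw.pow x hx, one_pow]
    have h2 : σ tau = w c * tau := htau m hpm σ c d hact hcP hsu hsel hsw
    have h3 : e c = w c ^ i := hi c (hgO hc1) hcP
    have hfin : ∀ z : ℂ, e c * σ z = z → σ (z * tau ^ i) = z * tau ^ i := by
      intro z hz
      rw [map_mul, map_pow, h2, mul_pow, ← h3]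
      calc σ z * (e c * tau ^ i) = (e c * σ z) * tau ^ i := by ring
        _ = z * tau ^ i := by rw [hz]
    refine ⟨fun q hq => hfin _ ?_, fun q hq => hfin _ ?_⟩
    · exact hVAK A B hQ (p * f) hpf2 ι R e he m f hm0 hpfm (Dvd.intro_left _ rfl) (by omega)
        σ c d hcf hact hse ka (fun l => hroot' _ (hka l)) u hu0 hsu q.1 q.2
        (dn_mono hd1 (hSD q hq).1) (dn_mono hd1 (hSD q hq).2)
    · exact hVAK A B hQ (p * f) hpf2 ι R e he m f hm0 hpfm (Dvd.intro_left _ rfl) (by omega)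
        σ c d hcf hact hse ka' (fun l => hroot' _ (hka' l)) u hu0 hsu q.1 q.2
        (dn_mono hd2 (hSD' q hq).1) (dn_mono hd2 (hSD' q hq).2)
  have hgenl : ∀ (G : OnePoint ℚ × OnePoint ℚ → ℂ) (X : Set (OnePoint ℚ × OnePoint ℚ)),
      (∀ q ∈ X, G q ∈ F) →
      (∀ σ : ℂ ≃+* ℂ, InI A B V (F : Set ℂ) σ → ∀ q ∈ X, σ (G q * tau ^ i) = G q * tau ^ i) →
      AddSubgroup.closure (G '' X) ≤
        ((KIn A B V F).toAddSubgroup).map (AddMonoidHom.mulLeft ((tau ^ i)⁻¹)) := by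
    intro G X hGF hGs
    rw [AddSubgroup.closure_le]
    rintro _ ⟨q, hq, rfl⟩
    refine ⟨G q * tau ^ i, ⟨?_, fun σ hσ => hGs σ hσ q hq⟩, ?_⟩
    · exact F.mul_mem (hGF q hq) (F.pow_mem htauF i)
    · rw [AddMonoidHom.coe_mulLeft]
      field_simp
  have hQF : ∀ q ∈ (S : Set (OnePoint ℚ × OnePoint ℚ)), Q q ∈ F := fun q hq =>
    hTF (Set.mem_union_left _ (Set.mem_union_left _ (Set.mem_image_of_mem Q hq)))
  have hQF' : ∀ q ∈ (S' : Set (OnePoint ℚ × OnePoint ℚ)), Q' q ∈ F := fun q hq =>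
    hTF (Set.mem_union_left _ (Set.mem_union_right _ (Set.mem_image_of_mem Q' hq)))
  have hle1 := hgenl Q (S : Set (OnePoint ℚ × OnePoint ℚ)) hQF
    (fun σ hσ q hq => (hkey σ hσ).1 q hq)
  have hle2 := hgenl Q' (S' : Set (OnePoint ℚ × OnePoint ℚ)) hQF'
    (fun σ hσ q hq => (hkey σ hσ).2 q hq)
  refine ⟨(tau ^ i)⁻¹, KIn A B V F, ?_, ?_, hUNF p er A B P V hS.toCaseO F, ?_⟩
  · intro x y
    obtain ⟨w', hw', hw2⟩ := hle1 (hgen x y)
    exact ⟨w', hw', hw2.symm⟩
  · intro x y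
    obtain ⟨w', hw', hw2⟩ := hle2 (hgen' x y)
    exact ⟨w', hw', hw2.symm⟩
  · rw [map_inv₀, map_pow, inv_pow, ← pow_mul, mul_comm i (er * (nI P - 1)), pow_mul, htau4]
    exact inv_mul_cancel₀ (pow_ne_zero _ hvp0)

end

end Pool.Agent.OBT


end
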