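import Pool.Agent.MVF.C014
import Pool.Agent.MVF.C033
import Pool.Agent.MVF.C038
import Pool.Agent.MVF.C041
import Pool.Agent.MVF.C071
import Pool.Agent.MVF.C072
import Pool.Agent.MVF.C076
import Pool.Agent.MVF.C113
import Pool.Agent.MVF.C116
import Pool.Agent.OBM.C06

/-! Parts: OB.HN_BDN, OB.HN_DVN, OB.HN_HN, OB.HN_HR, OB.HN_KYN, OB.HN_LOC, OB.HN_NZ, OB.HN_PRT, OB.HB_CHR, OB.HB_HQ1, OB.HB_PJ1, OB.HB_QBO, OB.HB_RAM, OB.HB_REL, OB.HB_SAF, OB.HB_UAL -/

section

/-!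
# OB, block H, module BDN: bounded denominators for every prime (helper87; model `MUX/HN_BDN.lean` of helper76)
-/

set_option autoImplicit false

namespace Pool.Agent.OBH

open _root_.MU3 Pool.Agent.MuSym Pool.Agent.MUXH OnePoint

noncomputable section

/-- BDN. -/
theorem to_BDN : So_BDN := by
  intro p hp V hv P halg hfin
  obtain ⟨T, hT⟩ := hfin
  obtain ⟨⟨l, ⟨x0, y0, rfl⟩, hmax⟩, -⟩ := tx_MAX V T {z | ∃ x y, P x y = z} (by
      rintro _ ⟨x, y, rfl⟩
      exact hT x y) ⟨_, ∞, ∞, rfl⟩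
  obtain ⟨k, hk⟩ := tx_ALB p hp V hv _ (halg x0 y0)
  refine ⟨k, fun x y => ?_⟩
  refine le_trans ?_ hk
  rw [map_mul, map_mul]
  exact mul_le_mul_right (hmax _ ⟨x, y, rfl⟩) _

end

end Pool.Agent.OBH


end

section

/-!
# OB, block H, module DVN (helper19)

The character sums of a depleted function with values of one type, every odd prime `p`: `to_DVN : So_DVN`. After
`Pool/Agent/MUX/HN_DVN.lean`.
-/

set_option autoImplicit false

namespace Pool.Agent.OBH

open _root_.MU3 Pool.Agent.MuSym Pool.Agent.MUXH OnePoint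

noncomputable section

namespace DVN

/-- summation by parts -/
theorem abel (z : ℂ) (w : ℕ → ℂ) (m : ℕ) :
    ∑ k ∈ Finset.range (m + 1), z ^ k * w k =
      (1 - z) * ∑ k ∈ Finset.range m, z ^ k * (∑ l ∈ Finset.range (k + 1), w l) +
        z ^ m * ∑ l ∈ Finset.range (m + 1), w l := by
  induction m with
  | zero => simp
  | succ m ih =>
    rw [Finset.sum_range_succ, ih,
      Finset.sum_range_succ (fun k => z ^ k * ∑ l ∈ Finset.range (k + 1), w l) m,
      Finset.sum_range_succ w (m + 1)]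
    ring

/-- a sum over `range (m q)` as a double sum -/
theorem split (q m : ℕ) (f : ℕ → ℂ) :
    ∑ b ∈ Finset.range (m * q), f b =
      ∑ b ∈ Finset.range q, ∑ k ∈ Finset.range m, f (k * q + b) := by
  induction m with
  | zero => simp
  | succ m ih =>
    rw [Nat.succ_mul, Finset.sum_range_add, ih, ← Finset.sum_add_distrib]
    exact Finset.sum_congr rfl fun b _ => (Finset.sum_range_succ _ _).symm

/-- the sums of the first terms -/
def ps (q : ℕ) (W : ℕ → ℂ) (b : ℕ) : ℂ := ∑ l ∈ Finset.range (b / q + 1), W (l * q + b % q)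

theorem ps_eq (q : ℕ) (W : ℕ → ℂ) (b k : ℕ) (hb : b < q) :
    ps q W (k * q + b) = ∑ l ∈ Finset.range (k + 1), W (l * q + b) := by
  have hq : 0 < q := by omega
  have h1 : (k * q + b) / q = k := by
    rw [mul_comm, Nat.mul_add_div hq, Nat.div_eq_of_lt hb, add_zero]
  have h2 : (k * q + b) % q = b := by
    rw [mul_comm, Nat.mul_add_mod, Nat.mod_eq_of_lt hb]
  unfold ps
  rw [h1, h2]

/-- the sum of a depleted function against the powers of `ζ` -/
theorem sum_dep (p q : ℕ) (hp : 1 ≤ p) (ζ : ℂ) (W : ℕ → ℂ)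
    (hW : ∀ b < q, ∑ k ∈ Finset.range p, W (k * q + b) = 0) :
    ∑ b ∈ Finset.range (p * q), ζ ^ b * W b =
      (1 - ζ ^ q) * ∑ b ∈ Finset.range ((p - 1) * q), ζ ^ b * ps q W b := by
  obtain ⟨m, rfl⟩ : ∃ m, p = m + 1 := ⟨p - 1, by omega⟩
  rw [Nat.add_sub_cancel, split, split, Finset.mul_sum]
  refine Finset.sum_congr rfl fun b hb => ?_
  have hb' := Finset.mem_range.1 hb
  have h1 := abel (ζ ^ q) (fun k => W (k * q + b)) m
  rw [hW b hb', mul_zero, add_zero] at h1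
  have h2 : ∑ k ∈ Finset.range (m + 1), ζ ^ (k * q + b) * W (k * q + b) =
      ζ ^ b * ∑ k ∈ Finset.range (m + 1), (ζ ^ q) ^ k * W (k * q + b) := by
    rw [Finset.mul_sum]
    refine Finset.sum_congr rfl fun k _ => ?_
    rw [pow_add, mul_comm k q, pow_mul]
    ring
  have h3 : ∑ k ∈ Finset.range m, ζ ^ (k * q + b) * ps q W (k * q + b) =
      ζ ^ b * ∑ k ∈ Finset.range m, (ζ ^ q) ^ k *
        ∑ l ∈ Finset.range (k + 1), W (l * q + b) := by
    rw [Finset.mul_sum]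
    refine Finset.sum_congr rfl fun k _ => ?_
    rw [ps_eq q W b k hb', pow_add, mul_comm k q, pow_mul]
    ring
  rw [h2, h3, h1]
  ring

end DVN

open _root_.Pool.Agent.OBH.DVN Hz in
theorem to_DVN : So_DVN := by
  intro p hp hp2 V hV K hK n y hper hdep hyK b₀ hb₀ ζ hζ
  have hp3 : 3 ≤ p := by have := hp.two_le; omega
  set q := p ^ n with hq
  have hqpos : 0 < q := pow_pos hp.pos n
  have hpq : 0 < p * q := Nat.mul_pos hp.pos hqpos
  have hN : p ^ (n + 1) = p * q := by rw [pow_succ, mul_comm]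
  have hppos : (0 : V.ValueGroup) < V.valuation (p : ℂ) :=
    lt_of_le_of_ne zero_le
      ((Valuation.ne_zero_iff _).2 (by exact_mod_cast hp.ne_zero)).symm
  -- the maximal value
  obtain ⟨bs, hbs, hmax⟩ := Finset.exists_max_image (Finset.range (p * q))
    (fun b : ℕ => V.valuation (y b)) ⟨0, Finset.mem_range.2 hpq⟩
  have hge : V.valuation (y b₀) ≤ V.valuation (y bs) := by
    have hpos : (0 : ℤ) < (p : ℤ) ^ (n + 1) := pow_pos (by exact_mod_cast hp.pos) _
    have h0 := Int.emod_nonneg b₀ hpos.ne'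
    have h1 := Int.emod_lt_of_pos b₀ hpos
    have h2 : y b₀ = y (((b₀ % (p : ℤ) ^ (n + 1)).toNat : ℕ) : ℤ) := by
      rw [Int.toNat_of_nonneg h0]
      refine hper _ _ ?_
      have := Int.emod_add_mul_ediv b₀ ((p : ℤ) ^ (n + 1))
      exact ⟨b₀ / (p : ℤ) ^ (n + 1), by linarith⟩
    rw [h2]
    refine hmax _ (Finset.mem_range.2 ?_)
    have h3 : (((b₀ % (p : ℤ) ^ (n + 1)).toNat : ℕ) : ℤ) < ((p * q : ℕ) : ℤ) := by
      rw [Int.toNat_of_nonneg h0, ← hN]
      push_cast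
      exact h1
    exact_mod_cast h3
  have hbs2 : 1 ≤ V.valuation (y bs) ^ (p - 1) * V.valuation (p : ℂ) :=
    hb₀.trans (mul_le_mul_left (pow_le_pow_left₀ zero_le hge (p - 1)) _)
  have hys0 : y bs ≠ 0 := by
    intro h
    rw [h, map_zero, zero_pow (by omega), zero_mul] at hbs2
    exact absurd hbs2 (not_le.2 zero_lt_one)
  have hvs0 : (0 : V.ValueGroup) < V.valuation (y bs) :=
    lt_of_le_of_ne zero_le ((Valuation.ne_zero_iff _).2 hys0).symm
  set W : ℕ → ℂ := fun b => y b / y bs with hWdef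
  have hWK : ∀ b, W b ∈ K := fun b => hyK b bs hys0
  have hW1 : ∀ b < p * q, V.valuation (W b) ≤ 1 := by
    intro b hb
    have := hmax b (Finset.mem_range.2 hb)
    simp only [hWdef, map_div₀]
    exact div_le_one_of_le₀ this zero_le
  have hWdep : ∀ b < q, ∑ k ∈ Finset.range p, W (k * q + b) = 0 := by
    intro b _
    have h1 := hdep b
    simp only [hWdef]
    rw [← Finset.sum_div]
    refine div_eq_zero_iff.2 (Or.inl ?_)
    rw [← h1]
    refine Finset.sum_congr rfl fun k _ => ?_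
    congr 1
    push_cast [hq]
    ring
  set W' : ℕ → ℂ := ps q W with hW'def
  have hW'K : ∀ b, W' b ∈ K := fun b => sum_mem fun l _ => hWK _
  have hW'1 : ∀ b < p * q, V.valuation (W' b) ≤ 1 := by
    intro b hb
    refine Valuation.map_sum_le _ fun l hl => hW1 _ ?_
    have h1 := Finset.mem_range.1 hl
    have h2 : l * q + b % q ≤ b := by
      calc l * q + b % q ≤ (b / q) * q + b % q := by
            have : l * q ≤ (b / q) * q := Nat.mul_le_mul_right q (by omega)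
            omega
        _ = b := Nat.div_add_mod' b q
    omega
  -- the value of `W'` on the last block
  have hlast : ∀ b < p * q, (p - 1) * q ≤ b → W' b = 0 := by
    intro b hb hb2
    have h1 : b / q = p - 1 := by
      apply Nat.div_eq_of_lt_le hb2
      have : (p - 1 + 1) * q = p * q := by congr 1; omega
      omega
    show ps q W b = 0
    unfold ps
    rw [h1, Nat.sub_add_cancel (by omega)]
    exact hWdep _ (Nat.mod_lt _ hqpos)
  have hrec : ∀ b, q ≤ b → W b = W' b - W' (b - q) := by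
    intro b hb
    show W b = ps q W b - ps q W (b - q)
    unfold ps
    have h1 : (b - q) / q + 1 = b / q := (Nat.div_eq_sub_div hqpos hb).symm
    have h2 : (b - q) % q = b % q := by
      rw [← Nat.mod_eq_sub_mod hb]
    rw [h1, h2, Finset.sum_range_succ, Nat.div_add_mod' b q]
    ring
  have hrec0 : ∀ b < q, W b = W' b := by
    intro b hb
    show W b = ps q W b
    unfold ps
    rw [Nat.div_eq_of_lt hb, Nat.mod_eq_of_lt hb]
    simp
  -- some value of `W'` is a unit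
  have hex0 : ∃ b < (p - 1) * q, V.valuation (W' b) = 1 := by
    by_contra hcon
    have hlt : ∀ b < p * q, V.valuation (W' b) < 1 := by
      intro b hb
      rcases lt_or_ge b ((p - 1) * q) with h | h
      · exact lt_of_le_of_ne (hW'1 b hb) fun h1 => hcon ⟨b, h, h1⟩
      · rw [hlast b hb h, map_zero]
        exact zero_lt_one
    have hbs' := Finset.mem_range.1 hbs
    have h1 : V.valuation (W bs) < 1 := by
      rcases lt_or_ge bs q with h | h
      · rw [hrec0 bs h]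
        exact hlt bs hbs'
      · rw [hrec bs h]
        exact lt_of_le_of_lt (Valuation.map_sub _ _ _)
          (max_lt (hlt bs hbs') (hlt (bs - q) (by omega)))
    have h2 : W bs = 1 := div_self hys0
    rw [h2, map_one] at h1
    exact lt_irrefl _ h1
  have hble : ∀ b, b < (p - 1) * q → b < p * q := fun b hb =>
    lt_of_lt_of_le hb (Nat.mul_le_mul_right q (Nat.sub_le p 1))
  set c : ℕ → ℂ := fun k => ∑ b ∈ Finset.range ((p - 1) * q), ((b.choose k : ℕ) : ℂ) * W' b with hc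
  have hcK : ∀ k, c k ∈ K := fun k =>
    sum_mem fun b _ => mul_mem (natCast_mem K _) (hW'K _)
  have hc1 : ∀ k, V.valuation (c k) ≤ 1 := fun k =>
    Valuation.map_sum_le _ fun b hb => by
      rw [map_mul]
      exact mul_le_one' (val_nat V _) (hW'1 _ (hble _ (Finset.mem_range.1 hb)))
  have hex1 : ∃ k, k < (p - 1) * q ∧ V.valuation (c k) = 1 := by
    by_contra hcon
    have hlt : ∀ k < (p - 1) * q, V.valuation (c k) < 1 := fun k hk =>
      lt_of_le_of_ne (hc1 k) fun h => hcon ⟨k, hk, h⟩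
    obtain ⟨b₁, hb₁, hb₁v⟩ := hex0
    have h1 := newton ((p - 1) * q) W' (fun b => if b = b₁ then 1 else 0)
    have h2 : ∑ b ∈ Finset.range ((p - 1) * q), (((if b = b₁ then 1 else 0 : ℤ)) : ℂ) * W' b
        = W' b₁ := by
      rw [Finset.sum_eq_single b₁]
      · simp
      · intro b _ hb
        rw [if_neg hb]
        simp
      · intro h
        exact absurd (Finset.mem_range.2 hb₁) h
    rw [h2] at h1
    have h3 : V.valuation (W' b₁) < 1 := by
      rw [h1]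
      refine Valuation.map_sum_lt _ one_ne_zero fun k hk => ?_
      rw [map_mul]
      exact lt_of_le_of_lt (mul_le_of_le_one_left' (val_int V _))
        (hlt k (Finset.mem_range.1 hk))
    exact absurd hb₁v h3.ne
  classical
  obtain ⟨hk₀, hk₁⟩ := Nat.find_spec hex1
  set k₀ := Nat.find hex1 with hk₀def
  have hmin : ∀ k < k₀, V.valuation (c k) ≤ V.valuation (p : ℂ) := by
    intro k hk
    refine hK _ (hcK k) (lt_of_le_of_ne (hc1 k) fun h => ?_)
    exact Nat.find_min hex1 hk ⟨lt_trans hk hk₀, h⟩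
  -- the valuation of `ζ - 1`
  have hx : V.valuation (ζ - 1) ^ ((p - 1) * q) = V.valuation (p : ℂ) := by
    have := val_p p hp V n ζ hζ
    rwa [show p ^ n * (p - 1) = (p - 1) * q by rw [hq, mul_comm]] at this
  set x := V.valuation (ζ - 1) with hxdef
  have hx0 : 0 < x := by
    refine lt_of_le_of_ne zero_le fun h => ?_
    rw [← h, zero_pow (Nat.mul_pos (by omega) hqpos).ne'] at hx
    exact hppos.ne hx
  have hx1 : x < 1 := by
    by_contra h
    have h1 : 1 ≤ x := not_lt.1 h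
    have : 1 ≤ x ^ ((p - 1) * q) := one_le_pow₀ h1
    rw [hx] at this
    exact absurd this (not_le.2 hV)
  have hval : V.valuation (∑ b ∈ Finset.range ((p - 1) * q), ζ ^ b * W' b) = x ^ k₀ := by
    rw [shift_pow ((p - 1) * q) W' ζ]
    have hk₀N : k₀ ∈ Finset.range ((p - 1) * q) := Finset.mem_range.2 hk₀
    rw [← Finset.add_sum_erase _ _ hk₀N]
    have ha : V.valuation ((ζ - 1) ^ k₀ * c k₀) = x ^ k₀ := by
      rw [map_mul, map_pow, hk₁, mul_one]
    have hb : V.valuation (∑ k ∈ (Finset.range ((p - 1) * q)).erase k₀, (ζ - 1) ^ k * c k)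
        < x ^ k₀ := by
      refine Valuation.map_sum_lt _ (pow_pos hx0 k₀).ne' fun k hk => ?_
      have hne := Finset.ne_of_mem_erase hk
      rw [map_mul, map_pow]
      rcases lt_or_gt_of_ne hne with hlt | hgt
      · refine lt_of_le_of_lt (mul_le_of_le_one_left' (pow_le_one' hx1.le k)) ?_
        refine lt_of_le_of_lt (hmin k hlt) ?_
        rw [← hx]
        exact pow_lt_pow_right_of_lt_one₀ hx0 hx1 hk₀
      · refine lt_of_le_of_lt (mul_le_of_le_one_right' (hc1 k)) ?_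
        exact pow_lt_pow_right_of_lt_one₀ hx0 hx1 hgt
    have := Valuation.map_add_eq_of_lt_left V.valuation (x := (ζ - 1) ^ k₀ * c k₀)
      (y := ∑ k ∈ (Finset.range ((p - 1) * q)).erase k₀, (ζ - 1) ^ k * c k) (by rw [ha]; exact hb)
    rw [this, ha]
  -- the valuation of `1 - ζ^q`
  have hω : V.valuation (1 - ζ ^ q) ^ (p - 1) = V.valuation (p : ℂ) := by
    have h1 : IsPrimitiveRoot (ζ ^ q) p := by
      refine hζ.pow (pow_pos hp.pos _) ?_
      rw [hN, mul_comm]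
    have h2 := val_p p hp V 0 (ζ ^ q) (by simpa using h1)
    rw [← neg_sub, Valuation.map_neg]
    simpa using h2
  -- the end
  have hsum : ∑ b ∈ Finset.range (p ^ (n + 1)), ζ ^ b * y b =
      y bs * ((1 - ζ ^ q) * ∑ b ∈ Finset.range ((p - 1) * q), ζ ^ b * W' b) := by
    rw [← sum_dep p q (by omega) ζ W hWdep, Finset.mul_sum, hN]
    refine Finset.sum_congr rfl fun b _ => ?_
    simp only [hWdef]
    field_simp
  rw [hsum, map_mul, map_mul, hval, ← mul_assoc]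
  have h1 : 1 ≤ V.valuation (y bs) * V.valuation (1 - ζ ^ q) := by
    have h2 : 1 ≤ (V.valuation (y bs) * V.valuation (1 - ζ ^ q)) ^ (p - 1) := by
      rw [mul_pow, hω]
      exact hbs2
    by_contra h
    exact absurd h2 (not_le.2 (pow_lt_one₀ zero_le (not_le.1 h) (by omega)))
  have h2 : V.valuation (p : ℂ) < x ^ k₀ := by
    rw [← hx]
    exact pow_lt_pow_right_of_lt_one₀ hx0 hx1 hk₀
  exact lt_of_lt_of_le h2 (le_mul_of_one_le_left' h1)

end

end Pool.Agent.OBH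


end

section

/-!
# OB, block HN: glue for a depleted symbol, `p` unramified (helper34)

Adapted from `Pool/Agent/MUX/HN_HN.lean` (helper87).
-/

set_option autoImplicit false

namespace Pool.Agent.OBH

open _root_.MU3 Pool.Agent.MuSym Pool.Agent.MUXH OnePoint

noncomputable section

namespace HN

theorem mob_inf (a b d : ℤ) : mob a b 0 d ∞ = ∞ := by
  show (if (0 : ℤ) = 0 then (∞ : OnePoint ℚ) else ((a / (0 : ℤ) : ℚ) : OnePoint ℚ)) = ∞
  rw [if_pos rfl]

theorem mob_tr (k : ℤ) (r : ℚ) :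
    mob 1 k 0 1 ((r : ℚ) : OnePoint ℚ) = ((r + k : ℚ) : OnePoint ℚ) := by
  show (if ((0 : ℤ) : ℚ) * r + (1 : ℤ) = 0 then ∞ else
    (((((1 : ℤ) : ℚ) * r + (k : ℤ)) / (((0 : ℤ) : ℚ) * r + (1 : ℤ)) : ℚ) : OnePoint ℚ)) = _
  rw [if_neg (by norm_num)]
  congr 1
  push_cast
  ring

/-- the sum over the classes modulo `p` of the next level is invariant under units -/
lemma dep_unit {p n : ℕ} {z : ℤ → ℂ}
    (hper : ∀ b c : ℤ, (p : ℤ) ^ (n + 1) ∣ b - c → z b = z c)
    (hdep : ∀ b : ℤ, ∑ j ∈ Finset.range p, z (b + j * (p : ℤ) ^ n) = 0) (u : ℤ)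
    (hu : (p : ℤ) ∣ u - 1) (b : ℤ) :
    ∑ j ∈ Finset.range p, z (u * (b + j * (p : ℤ) ^ n)) = 0 := by
  rw [← hdep (u * b)]
  refine Finset.sum_congr rfl fun j _ => hper _ _ ?_
  obtain ⟨t, ht⟩ := hu
  refine ⟨t * j, ?_⟩
  have : u = 1 + p * t := by linear_combination ht
  rw [this]
  ring

end HN

open _root_.Pool.Agent.OBH.HN in
/-- (HN) -/
theorem to_HN (h1 : So_NZ) (h2 : So_DVN) (h3 : So_TYP) : So_HN := by
  intro p V N₀ s₀ q' i nu Q pi KI H hQd hunr hq1 hq2 hq3 hvpi α g hα hα1 hg hg1 n₀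
  obtain ⟨n', hn', b₀, -, hb⟩ := h1 p V N₀ s₀ nu Q pi KI H α g hα hα1 hg hg1 1 (n₀ + 1)
  obtain ⟨m, rfl⟩ : ∃ m, n' = m + 1 := ⟨n' - 1, by omega⟩
  refine ⟨m, by omega, fun ζ hζ => ?_⟩
  have hp0 : (p : ℚ) ≠ 0 := by exact_mod_cast H.pp.ne_zero
  have hQp : ∀ (r : ℚ) (t : ℤ), Q ∞ ((r + t : ℚ) : OnePoint ℚ) = Q ∞ (r : OnePoint ℚ) := by
    intro r t
    have e := H.sym.equiv 1 t 0 1 (by ring) (dvd_zero _) ∞ (r : OnePoint ℚ)
    rw [mob_inf, mob_tr, H.nu1, one_mul] at e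
    exact e
  -- the functions on the levels
  let z : ℕ → ℤ → ℂ := fun n b => Q ∞ (((b : ℚ) / (p : ℚ) ^ n : ℚ) : OnePoint ℚ)
  have hzper : ∀ (n : ℕ) (b c : ℤ), (p : ℤ) ^ n ∣ b - c → z n b = z n c := by
    rintro n b c ⟨t, ht⟩
    have e : ((b : ℚ) / (p : ℚ) ^ n : ℚ) = (c : ℚ) / (p : ℚ) ^ n + t := by
      have h3 : ((p : ℚ) ^ n) ≠ 0 := pow_ne_zero _ hp0
      have : (b : ℚ) = c + (p : ℚ) ^ n * t := by
        have : (b : ℤ) = c + (p : ℤ) ^ n * t := by linear_combination ht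
        exact_mod_cast this
      rw [this]
      field_simp
    change Q ∞ (((b : ℚ) / (p : ℚ) ^ n : ℚ) : OnePoint ℚ) =
      Q ∞ (((c : ℚ) / (p : ℚ) ^ n : ℚ) : OnePoint ℚ)
    rw [e]
    exact hQp _ t
  have hzdep : ∀ (n : ℕ) (b : ℤ),
      ∑ j ∈ Finset.range p, z (n + 1) (b + j * (p : ℤ) ^ n) = 0 := by
    intro n b
    rw [← hQd ((b : ℚ) / (p : ℚ) ^ n)]
    refine Finset.sum_congr rfl fun j _ => ?_
    change Q ∞ ((((b + j * (p : ℤ) ^ n : ℤ) : ℚ) / (p : ℚ) ^ (n + 1) : ℚ) : OnePoint ℚ) = _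
    congr 2
    have h3 : ((p : ℚ) ^ n) ≠ 0 := pow_ne_zero _ hp0
    push_cast
    field_simp
    ring
  have hztyp : ∀ n b, ∃ w ∈ KI, z n b = pi * w := fun n b => H.typ _ _
  have hint : ∀ a : ℤ, (a : ℂ) ∈ KI := fun a => intCast_mem KI a
  have hYtyp : ∀ n b, ∃ w ∈ KI, comb α g 1 (z n) b = pi * w := by
    intro n b
    choose w hw hw' using hztyp n
    refine ⟨∑ j ∈ Finset.range (1 + 1), ((-1 : ℂ) ^ (1 - j) * ((1 : ℕ).choose j : ℂ)) *
      ((α : ℂ) * w (g ^ (1 - j) * b) - (α : ℂ) ^ 2 * w (g ^ (1 - j) * α ^ 2 * b)), ?_, ?_⟩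
    · refine sum_mem fun j _ => mul_mem (mul_mem (pow_mem (neg_mem (one_mem _)) _)
        (natCast_mem KI _)) (sub_mem (mul_mem (hint α) (hw _))
        (mul_mem (pow_mem (hint α) 2) (hw _)))
    · unfold comb
      rw [Finset.mul_sum]
      refine Finset.sum_congr rfl fun j _ => ?_
      rw [hw', hw']
      ring
  have hYper : ∀ b c : ℤ, (p : ℤ) ^ (m + 1) ∣ b - c →
      comb α g 1 (z (m + 1)) b = comb α g 1 (z (m + 1)) c := by
    intro b c hbc
    unfold comb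
    refine Finset.sum_congr rfl fun j _ => ?_
    rw [hzper (m + 1) (g ^ (1 - j) * b) (g ^ (1 - j) * c) (by
        rw [← mul_sub]; exact hbc.mul_left _),
      hzper (m + 1) (g ^ (1 - j) * α ^ 2 * b) (g ^ (1 - j) * α ^ 2 * c) (by
        rw [← mul_sub]; exact hbc.mul_left _)]
  have hpow : ∀ (u : ℤ), (p : ℤ) ∣ u - 1 → ∀ j : ℕ, (p : ℤ) ∣ u ^ j - 1 := by
    intro u hu j
    have := sub_dvd_pow_sub_pow u 1 j
    rw [one_pow] at this
    exact hu.trans this
  have hYdep : ∀ b : ℤ, ∑ j ∈ Finset.range p,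
      comb α g 1 (z (m + 1)) (b + j * (p : ℤ) ^ m) = 0 := by
    intro b
    unfold comb
    rw [Finset.sum_comm]
    refine Finset.sum_eq_zero fun j _ => ?_
    rw [← Finset.mul_sum, Finset.sum_sub_distrib, ← Finset.mul_sum, ← Finset.mul_sum,
      dep_unit (hzper (m + 1)) (hzdep m) _ (hpow g hg (1 - j)) b]
    have h2 : (p : ℤ) ∣ g ^ (1 - j) * α ^ 2 - 1 := by
      have e : g ^ (1 - j) * α ^ 2 - 1 = (g ^ (1 - j) - 1) * α ^ 2 + (α ^ 2 - 1) := by ring
      rw [e]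
      exact dvd_add ((hpow g hg _).mul_right _) (hpow α hα 2)
    rw [dep_unit (hzper (m + 1)) (hzdep m) _ h2 b]
    ring
  refine h2 p H.pp H.p2 V H.vp KI hunr m (comb α g 1 (z (m + 1))) hYper hYdep ?_ b₀ ?_ ζ hζ
  · intro b b' hb'
    obtain ⟨w, hw, e⟩ := hYtyp (m + 1) b
    obtain ⟨w', hw', e'⟩ := hYtyp (m + 1) b'
    rw [e, e', mul_div_mul_left _ _ H.pi0]
    exact div_mem hw hw'
  · obtain ⟨w, hw, e⟩ := hYtyp (m + 1) b₀
    have hb' : 1 ≤ V.valuation (comb α g 1 (z (m + 1)) b₀) := hb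
    rw [e] at hb' ⊢
    exact (h3 p H.pp V H.vp KI 1 q' i le_rfl hq2 (by rwa [one_mul]) (by rwa [one_mul])
      (fun w hw hw1 => by rw [pow_one]; exact hunr w hw hw1) pi (by rwa [one_mul]) w hw).2 hb'

end

end Pool.Agent.OBH


end

section

/-!
# OB, block H: module HR (helper38)
-/

set_option autoImplicit false

namespace Pool.Agent.OBH

open _root_.MU3 Pool.Agent.MuSym Pool.Agent.MUXH OnePoint

noncomputable section

namespace HR

lemma mob_coe (t : ℤ) (x : ℚ) : mob 1 t 0 1 (x : OnePoint ℚ) = ((x + t : ℚ) : OnePoint ℚ) := by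
  unfold mob
  rw [OnePoint.elim_some]
  simp

lemma mob_inf (t : ℤ) : mob 1 t 0 1 (∞ : OnePoint ℚ) = ∞ := by
  unfold mob
  rw [OnePoint.elim_infty]
  simp

lemma sym_per {N : ℕ} {nu : ℤ → ℂ} {Q : OnePoint ℚ → OnePoint ℚ → ℂ} (h : IsSym N nu Q)
    (h1 : nu 1 = 1) (x : ℚ) (t : ℤ) : Q ∞ ((x + t : ℚ) : OnePoint ℚ) = Q ∞ (x : OnePoint ℚ) := by
  have e := h.equiv 1 t 0 1 (by ring) (dvd_zero _) ∞ (x : OnePoint ℚ)
  rw [mob_inf, mob_coe, h1, one_mul] at e
  exact e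

end HR

open _root_.Pool.Agent.OBH.HR in
/-- (HR) -/
theorem to_HR (h1 : So_NZ) (h2 : So_DVR) (h3 : So_TYP) (h4 : So_FAC) : So_HR := by
  intro p V N₀ s₀ i nu Q pi KI om H hom hrel hunr hi1 hi2 hvpi α g hα hα1 hg hg1 n₀
  have hp := H.pp
  have hp3 : 3 ≤ p := by
    have := hp.two_le
    have := H.p2
    omega
  have hpq : (p : ℚ) ≠ 0 := by exact_mod_cast hp.ne_zero
  obtain ⟨m, hm, b₀, hb₀, hv₀⟩ := h1 p V N₀ s₀ nu Q pi KI H α g hα hα1 hg hg1 1 (n₀ + 1)
  obtain ⟨n, rfl⟩ : ∃ n, m = n + 1 := ⟨m - 1, by omega⟩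
  let z : ℤ → ℂ := fun b => Q ∞ (((b : ℚ) / (p : ℚ) ^ (n + 1) : ℚ) : OnePoint ℚ)
  change 1 ≤ V.valuation (comb α g 1 z b₀) at hv₀
  have hzper : ∀ b c : ℤ, (p : ℤ) ^ (n + 1) ∣ b - c → z b = z c := by
    rintro b c ⟨t, ht⟩
    have e : ((b : ℚ) / (p : ℚ) ^ (n + 1) : ℚ) = (c : ℚ) / (p : ℚ) ^ (n + 1) + t := by
      have h5 : ((p : ℚ) ^ (n + 1)) ≠ 0 := pow_ne_zero _ hpq
      have : (b : ℚ) = c + (p : ℚ) ^ (n + 1) * t := by
        have : (b : ℤ) = c + (p : ℤ) ^ (n + 1) * t := by linear_combination ht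
        exact_mod_cast this
      rw [this, add_div, mul_div_cancel_left₀ _ h5]
    change Q ∞ (((b : ℚ) / (p : ℚ) ^ (n + 1) : ℚ) : OnePoint ℚ) =
      Q ∞ (((c : ℚ) / (p : ℚ) ^ (n + 1) : ℚ) : OnePoint ℚ)
    rw [e]
    exact sym_per H.sym H.nu1 _ t
  -- the Gauss sum
  obtain ⟨G, hG⟩ : ∃ G : ℂ, G = ∑ j ∈ Finset.range p, (jacobiSym (j : ℤ) p : ℂ) * om ^ j :=
    ⟨_, rfl⟩
  rw [← hG] at hrel
  have hGK : G ∈ KI := by
    obtain ⟨x, hx⟩ : ∃ x : ℚ, Q ∞ (x : OnePoint ℚ) ≠ 0 := by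
      by_contra hcon
      push Not at hcon
      have e : comb α g 1 z b₀ = 0 := by
        unfold comb
        refine Finset.sum_eq_zero fun j _ => ?_
        have e1 : ∀ b, z b = 0 := fun b => hcon _
        rw [e1, e1]
        ring
      rw [e, map_zero] at hv₀
      exact absurd hv₀ (not_le.2 zero_lt_one)
    have ht := hrel x
    obtain ⟨w, hw, ew⟩ := H.typ ∞ (x : OnePoint ℚ)
    have hw' : ∀ j : ℕ, ∃ w ∈ KI, Q ∞ ((x + (j : ℚ) / p : ℚ) : OnePoint ℚ) = pi * w :=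
      fun j => H.typ _ _
    choose w' hwK ew' using hw'
    have e2 : ∑ j ∈ Finset.range p, (jacobiSym (j : ℤ) p : ℂ) *
        Q ∞ ((x + (j : ℚ) / p : ℚ) : OnePoint ℚ) =
        pi * ∑ j ∈ Finset.range p, (jacobiSym (j : ℤ) p : ℂ) * w' j := by
      rw [Finset.mul_sum]
      refine Finset.sum_congr rfl fun j _ => ?_
      rw [ew']
      ring
    rw [e2, ew] at ht
    have hw0 : w ≠ 0 := by
      rintro rfl
      rw [ew, mul_zero] at hx
      exact hx rfl
    have e3 : G = (∑ j ∈ Finset.range p, (jacobiSym (j : ℤ) p : ℂ) * w' j) / w := by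
      rw [eq_div_iff hw0]
      refine mul_left_cancel₀ H.pi0 ?_
      linear_combination -ht
    rw [e3]
    exact div_mem (sum_mem fun j _ => mul_mem (intCast_mem KI _) (hwK j)) hw
  obtain ⟨F, Hh, hF, hH, hFK, hHK, hdeg, hFH, hFe, hFf⟩ := h4 p hp H.p2 om hom KI (hG ▸ hGK)
  -- the combination
  obtain ⟨Y, hY⟩ : ∃ Y : ℤ → ℂ, Y = comb α g 1 z := ⟨_, rfl⟩
  rw [← hY] at hv₀
  have hpow : ∀ (u : ℤ), (p : ℤ) ∣ u - 1 → ∀ j : ℕ, (p : ℤ) ∣ u ^ j - 1 := by
    intro u hu j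
    have := sub_dvd_pow_sub_pow u 1 j
    rw [one_pow] at this
    exact hu.trans this
  have hzrel : ∀ u b : ℤ, (p : ℤ) ∣ u - 1 → ∑ j ∈ Finset.range p, (jacobiSym (j : ℤ) p : ℂ) *
      z (u * (b + j * (p : ℤ) ^ n)) = G * z (u * b) := by
    intro u b hu
    have e1 : z (u * b) = Q ∞ ((((u * b : ℤ) : ℚ) / (p : ℚ) ^ (n + 1) : ℚ) : OnePoint ℚ) := rfl
    rw [e1, ← hrel]
    refine Finset.sum_congr rfl fun j _ => ?_
    congr 1
    have e2 : z (u * (b + j * (p : ℤ) ^ n)) = z (u * b + j * (p : ℤ) ^ n) := by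
      apply hzper
      obtain ⟨t, ht⟩ := hu
      refine ⟨t * j, ?_⟩
      have : u = 1 + p * t := by linear_combination ht
      rw [this]
      ring
    rw [e2]
    change Q ∞ ((((u * b + j * (p : ℤ) ^ n : ℤ) : ℚ) / (p : ℚ) ^ (n + 1) : ℚ) : OnePoint ℚ) = _
    congr 2
    have h5 : ((p : ℚ) ^ n) ≠ 0 := pow_ne_zero _ hpq
    have e3 : (((u * b + j * (p : ℤ) ^ n : ℤ) : ℚ) / (p : ℚ) ^ (n + 1) : ℚ) =
        ((u * b : ℤ) : ℚ) / (p : ℚ) ^ (n + 1) + (j : ℚ) / p := by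
      push_cast
      rw [pow_succ, add_div]
      congr 1
      rw [mul_comm ((p : ℚ) ^ n) (p : ℚ), mul_div_mul_right _ _ h5]
    rw [e3]
  have hYrel : ∀ b : ℤ, ∑ j ∈ Finset.range p, (jacobiSym (j : ℤ) p : ℂ) *
      Y (b + j * (p : ℤ) ^ n) = G * Y b := by
    intro b
    rw [hY]
    unfold comb
    simp only [Finset.mul_sum]
    rw [Finset.sum_comm]
    refine Finset.sum_congr rfl fun l _ => ?_
    have h6 : (p : ℤ) ∣ g ^ (1 - l) * α ^ 2 - 1 := by
      have e : g ^ (1 - l) * α ^ 2 - 1 = (g ^ (1 - l) - 1) * α ^ 2 + (α ^ 2 - 1) := by ring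
      rw [e]
      exact dvd_add ((hpow g hg _).mul_right _) (hpow α hα 2)
    have h7 := hzrel (g ^ (1 - l)) b (hpow g hg (1 - l))
    have h8 := hzrel (g ^ (1 - l) * α ^ 2) b h6
    have h9 : G * ((-1 : ℂ) ^ (1 - l) * ((1 : ℕ).choose l : ℂ) *
        ((α : ℂ) * z (g ^ (1 - l) * b) - (α : ℂ) ^ 2 * z (g ^ (1 - l) * α ^ 2 * b))) =
        (-1 : ℂ) ^ (1 - l) * ((1 : ℕ).choose l : ℂ) * ((α : ℂ) * (G * z (g ^ (1 - l) * b)) -
          (α : ℂ) ^ 2 * (G * z (g ^ (1 - l) * α ^ 2 * b))) := by ring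
    rw [h9, ← h7, ← h8, Finset.mul_sum, Finset.mul_sum, ← Finset.sum_sub_distrib,
      Finset.mul_sum]
    refine Finset.sum_congr rfl fun j _ => ?_
    ring
  have hYper : ∀ b c : ℤ, (p : ℤ) ^ (n + 1) ∣ b - c → Y b = Y c := by
    intro b c hbc
    rw [hY]
    unfold comb
    refine Finset.sum_congr rfl fun j _ => ?_
    rw [hzper (g ^ (1 - j) * b) (g ^ (1 - j) * c) (by
        rw [← mul_sub]; exact hbc.mul_left _),
      hzper (g ^ (1 - j) * α ^ 2 * b) (g ^ (1 - j) * α ^ 2 * c) (by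
        rw [← mul_sub]; exact hbc.mul_left _)]
  have hYtyp : ∀ b, ∃ w ∈ KI, Y b = pi * w := by
    intro b
    have hztyp : ∀ b, ∃ w ∈ KI, z b = pi * w := fun b => H.typ _ _
    choose w hw hw' using hztyp
    refine ⟨∑ j ∈ Finset.range (1 + 1), ((-1 : ℂ) ^ (1 - j) * ((1 : ℕ).choose j : ℂ)) *
      ((α : ℂ) * w (g ^ (1 - j) * b) - (α : ℂ) ^ 2 * w (g ^ (1 - j) * α ^ 2 * b)), ?_, ?_⟩
    · refine sum_mem fun j _ => mul_mem (mul_mem (pow_mem (neg_mem (one_mem _)) _)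
        (natCast_mem KI _)) (sub_mem (mul_mem (intCast_mem KI α) (hw _))
        (mul_mem (pow_mem (intCast_mem KI α) 2) (hw _)))
    · rw [hY]
      unfold comb
      rw [Finset.mul_sum]
      refine Finset.sum_congr rfl fun j _ => ?_
      rw [hw', hw']
      ring
  -- the relation for the coefficients of `F`
  have hYF : ∀ b : ℤ, ∑ l ∈ Finset.range p, F.coeff l * Y (b - l * (p : ℤ) ^ n) = 0 := by
    intro b
    have h5 := hFf (fun l => Y (b + l * (p : ℤ) ^ n)) (by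
      rintro l l' ⟨t, ht⟩
      apply hYper
      refine ⟨t, ?_⟩
      have : l = l' + p * t := by linear_combination ht
      rw [this]
      ring) (by
      intro b'
      have h6 := hYrel (b + b' * (p : ℤ) ^ n)
      rw [← hG, ← h6]
      refine Finset.sum_congr rfl fun j _ => ?_
      have e : b + (b' + (j : ℤ)) * (p : ℤ) ^ n = b + b' * (p : ℤ) ^ n + j * (p : ℤ) ^ n := by ring
      rw [e]) 0
    rw [← h5]
    refine Finset.sum_congr rfl fun l _ => ?_
    have e : b + (0 - (l : ℤ)) * (p : ℤ) ^ n = b - l * (p : ℤ) ^ n := by ring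
    rw [e]
  -- the type
  have hpp : 0 < p - 1 := by omega
  obtain ⟨w, hw, ew⟩ := hYtyp b₀
  have hb : 1 ≤ V.valuation (Y b₀) ^ (p - 1) * V.valuation (p : ℂ) := by
    have h5 := h3 p hp V H.vp KI 2 (p - 1) i (by norm_num) hi2
      (Nat.mul_le_mul_right _ hi1) (by
        rw [mul_comm]
        exact Nat.mul_lt_mul_of_pos_left (by nlinarith) hpp) hunr pi hvpi w hw
    rw [← ew] at h5
    exact h5.2 hv₀
  refine ⟨n, by omega, fun ζ hζ hζom => ?_⟩
  change V.valuation (p : ℂ) < V.valuation (∑ b ∈ Finset.range (p ^ (n + 1)), ζ ^ b *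
    comb α g 1 z b)
  rw [← hY]
  refine h2 p hp H.p2 V H.vp KI hunr n Y hYper F Hh hF hH hFK hHK hdeg hFH hYF ?_ b₀ hb ζ hζ ?_
  · intro b b' hb'
    obtain ⟨w, hw, e⟩ := hYtyp b
    obtain ⟨w', hw', e'⟩ := hYtyp b'
    rw [e, e', mul_div_mul_left _ _ H.pi0]
    exact div_mem hw hw'
  · rw [eq_inv_of_mul_eq_one_left hζom]
    exact hFe

end

end Pool.Agent.OBH


end

section

/-!
# OB, block H: KYN, from locally constant values to vanishing closed cycles, every odd prime (helper9)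
-/

set_option autoImplicit false

namespace Pool.Agent.OBH

open _root_.MU3 Pool.Agent.MuSym Pool.Agent.MUXH OnePoint

noncomputable section

namespace KYN

/-- the translation by `1/p^3` on the finite cusps -/
theorem tau (p : ℕ) (hp : p ≠ 0) (x : ℚ) :
    mob ((p : ℤ) ^ 3) 1 0 ((p : ℤ) ^ 3) (x : OnePoint ℚ) =
      ((x + 1 / (p : ℚ) ^ 3 : ℚ) : OnePoint ℚ) := by
  have hq : (p : ℚ) ^ 3 ≠ 0 := pow_ne_zero _ (by exact_mod_cast hp)
  rw [NSY.mob_coe _ _ _ _ _ (by push_cast; rw [zero_mul, zero_add]; exact hq)]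
  congr 1
  push_cast
  rw [zero_mul, zero_add, add_div, mul_div_cancel_left₀ _ hq]

theorem tau_inf (p : ℕ) : mob ((p : ℤ) ^ 3) 1 0 ((p : ℤ) ^ 3) (∞ : OnePoint ℚ) = ∞ :=
  NSY.mob_infty0 _ _ _

/-- conjugation of a matrix by the translation by `1/p^3` -/
theorem conj (p : ℕ) (hp : p ≠ 0) (a b c d a' b' d' : ℤ)
    (ha : (p : ℤ) ^ 3 * a' = (p : ℤ) ^ 3 * a + c)
    (hb : (p : ℤ) ^ 3 * ((p : ℤ) ^ 3 * b') =
      (p : ℤ) ^ 3 * ((p : ℤ) ^ 3 * b) + (p : ℤ) ^ 3 * (d - a) - c)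
    (hd : (p : ℤ) ^ 3 * d' = (p : ℤ) ^ 3 * d - c) (x : OnePoint ℚ) :
    mob ((p : ℤ) ^ 3) 1 0 ((p : ℤ) ^ 3) (mob a b c d x) =
      mob a' b' c d' (mob ((p : ℤ) ^ 3) 1 0 ((p : ℤ) ^ 3) x) := by
  have hq : (p : ℚ) ^ 3 ≠ 0 := pow_ne_zero _ (by exact_mod_cast hp)
  set q : ℚ := (p : ℚ) ^ 3 with hqd
  have ha' : (a' : ℚ) = a + c / q := by
    have h : q * a' = q * a + c := by rw [hqd]; exact_mod_cast ha
    rw [eq_comm, ← sub_eq_zero]
    have : q * (a + c / q - a') = 0 := by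
      rw [mul_sub, mul_add, mul_div_cancel₀ _ hq, h]; ring
    exact (mul_eq_zero.1 this).resolve_left hq
  have hb' : (b' : ℚ) = b + (d - a) / q - c / (q * q) := by
    have h : q * (q * b') = q * (q * b) + q * (d - a) - c := by rw [hqd]; exact_mod_cast hb
    field_simp
    linear_combination h
  have hd' : (d' : ℚ) = d - c / q := by
    have h : q * d' = q * d - c := by rw [hqd]; exact_mod_cast hd
    field_simp
    linear_combination h
  induction x using OnePoint.rec with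
  | infty =>
    by_cases hc : c = 0
    · subst hc
      rw [NSY.mob_infty0, tau_inf, NSY.mob_infty0]
    · have hc' : (c : ℚ) ≠ 0 := by exact_mod_cast hc
      rw [NSY.mob_infty _ _ _ _ hc, tau p hp, tau_inf, NSY.mob_infty _ _ _ _ hc, ha']
      congr 1
      rw [← hqd]
      field_simp
  | coe r =>
    rw [tau p hp]
    rw [← hqd]
    have e : (c : ℚ) * (r + 1 / q) + d' = c * r + d := by
      rw [hd']
      ring
    by_cases h : (c : ℚ) * r + d = 0
    · have h1 : mob a b c d (r : OnePoint ℚ) = ∞ := by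
        unfold mob
        simp [h]
      have h2 : mob a' b' c d' ((r + 1 / q : ℚ) : OnePoint ℚ) = ∞ := by
        have e' : (c : ℚ) * (r + q⁻¹) + d' = 0 := by
          rw [← h, ← e]
          ring
        unfold mob
        simp [e']
      rw [h1, h2, tau_inf]
    · rw [NSY.mob_coe _ _ _ _ _ h, tau p hp, NSY.mob_coe _ _ _ _ _ (by rw [e]; exact h), e]
      congr 1
      have h' : (c : ℚ) * r + d ≠ 0 := h
      rw [← hqd, eq_div_iff h', add_mul, div_mul_cancel₀ _ h', ha', hb']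
      field_simp
      ring

/-- integers prime to `p` are units of `V` -/
theorem unit (p : ℕ) (V : ValuationSubring ℂ) (hv : V.valuation (p : ℂ) < 1) (q : ℕ)
    (hq : q.Coprime p) : V.valuation (q : ℂ) = 1 := by
  have h1 : V.valuation (q : ℂ) ≤ 1 := by
    rw [ValuationSubring.valuation_le_one_iff]
    exact natCast_mem V q
  refine le_antisymm h1 (not_lt.1 fun h => ?_)
  obtain ⟨u, w, huw⟩ := Nat.isCoprime_iff_coprime.2 hq
  have e : ((u : ℂ) * q + w * p) = 1 := by exact_mod_cast huw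
  have h2 : V.valuation ((u : ℂ) * q + w * p) < 1 := by
    apply Valuation.map_add_lt
    · rw [map_mul]
      have hu : V.valuation (u : ℂ) ≤ 1 := by
        rw [ValuationSubring.valuation_le_one_iff]
        exact intCast_mem V u
      calc V.valuation (u : ℂ) * V.valuation (q : ℂ) ≤ 1 * V.valuation (q : ℂ) := by gcongr
        _ < 1 := by rw [one_mul]; exact h
    · rw [map_mul]
      have hw : V.valuation (w : ℂ) ≤ 1 := by
        rw [ValuationSubring.valuation_le_one_iff]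
        exact intCast_mem V w
      calc V.valuation (w : ℂ) * V.valuation (p : ℂ) ≤ 1 * V.valuation (p : ℂ) := by gcongr
        _ < 1 := by rw [one_mul]; exact hv
  rw [e, map_one] at h2
  exact lt_irrefl _ h2

/-- a submodule is closed under division by units -/
theorem div (V : ValuationSubring ℂ) (m : Submodule V ℂ) (u z : ℂ)
    (hu : V.valuation u = 1) (h : u * z ∈ m) : z ∈ m := by
  have hu0 : u ≠ 0 := by
    rintro rfl
    rw [map_zero] at hu
    exact zero_ne_one hu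
  have hi : u⁻¹ ∈ V := by
    rw [← ValuationSubring.valuation_le_one_iff, map_inv₀, hu, inv_one]
  have h2 := m.smul_mem ⟨u⁻¹, hi⟩ h
  have e : (⟨u⁻¹, hi⟩ : V) • (u * z) = z := by
    show u⁻¹ * (u * z) = z
    field_simp
  rwa [e] at h2

end KYN

theorem to_KYN (h1 : So_PAI) : So_KYN := by
  intro p hp hp2 V hv m N₀ s₀ nu Q hN₀ hcop hnu1 hnuper hnuv hsym r n₀ hloc
  have hp0 : p ≠ 0 := hp.ne_zero
  have hpz : (p : ℤ) ≠ 0 := by exact_mod_cast hp0
  have hpq : (p : ℚ) ≠ 0 := by exact_mod_cast hp0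
  have hP3 : (p : ℤ) ^ 3 ≠ 0 := pow_ne_zero _ hpz
  have hQ3 : (p : ℚ) ^ 3 ≠ 0 := pow_ne_zero _ hpq
  have hN1 : 1 < N₀ := by omega
  set R : ℕ := 6 + (s₀ + 1) + r + 1 with hR
  have hpow : ∀ {i j : ℕ}, i ≤ j → (p : ℤ) ^ i ∣ (p : ℤ) ^ j := fun h => pow_dvd_pow _ h
  -- divisors of the level
  have hlev : ∀ c : ℤ, (p : ℤ) ^ R * N₀ ∣ c → ((p ^ (s₀ + 1) * N₀ : ℕ) : ℤ) ∣ c := by
    intro c hc
    refine dvd_trans ?_ hc
    push_cast
    exact mul_dvd_mul_right (hpow (by omega)) _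
  have hlev3 : ∀ c : ℤ, (p : ℤ) ^ R * N₀ ∣ c → ((p * N₀ : ℕ) : ℤ) ∣ c := by
    intro c hc
    refine dvd_trans ?_ hc
    push_cast
    exact mul_dvd_mul_right (dvd_pow_self _ (by omega)) _
  -- `c = p³ c₁`
  have hc1 : ∀ c : ℤ, (p : ℤ) ^ R * N₀ ∣ c → ∃ c₁ : ℤ, c = (p : ℤ) ^ 3 * c₁ ∧
      ((p * N₀ : ℕ) : ℤ) ∣ c₁ ∧ (p : ℤ) ^ (r + 1) ∣ c₁ ∧ (p : ℤ) ^ 3 ∣ c₁ := by
    rintro c ⟨k, rfl⟩
    refine ⟨(p : ℤ) ^ (R - 3) * N₀ * k, ?_, ?_, ?_, ?_⟩
    · have e : (p : ℤ) ^ R = (p : ℤ) ^ 3 * (p : ℤ) ^ (R - 3) := by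
        rw [← pow_add]
        congr 1
        omega
      rw [e]
      ring
    · push_cast
      apply Dvd.dvd.mul_right
      exact mul_dvd_mul_right (dvd_pow_self _ (by omega)) _
    · apply Dvd.dvd.mul_right
      apply Dvd.dvd.mul_right
      exact hpow (by omega)
    · apply Dvd.dvd.mul_right
      apply Dvd.dvd.mul_right
      exact hpow (by omega)
  have key := NSY.key0 (M := ℂ ⧸ m) (p := p) (N := N₀) (r := R) (n0 := n₀ + r + 4)
    (Φ := fun x y => Submodule.Quotient.mk (PT p Q x y)) hp hp2 hN1 hcop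
    (by omega) ?_ ?_ ?_ ?_ ?_
  · refine ⟨R, fun a b c d hdet hc hd x => ?_⟩
    have h := key a b c d hdet hc hd x
    exact (Submodule.Quotient.mk_eq_zero m).1 h
  · -- no torsion
    intro q hq x hx
    obtain ⟨z, rfl⟩ := Submodule.Quotient.mk_surjective m x
    rw [← Submodule.Quotient.mk_smul, Submodule.Quotient.mk_eq_zero, nsmul_eq_mul] at hx
    rw [Submodule.Quotient.mk_eq_zero]
    exact KYN.div V m q z (KYN.unit p V hv q hq) hx
  · -- additivity
    intro x y z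
    show Submodule.Quotient.mk (PT p Q x y) + Submodule.Quotient.mk (PT p Q y z) =
      (Submodule.Quotient.mk (PT p Q x z) : ℂ ⧸ m)
    rw [← Submodule.Quotient.mk_add]
    congr 1
    unfold PT
    rw [← hsym.add x y z, ← hsym.add (mob ((p : ℤ) ^ 3) 1 0 ((p : ℤ) ^ 3) x)
      (mob ((p : ℤ) ^ 3) 1 0 ((p : ℤ) ^ 3) y) (mob ((p : ℤ) ^ 3) 1 0 ((p : ℤ) ^ 3) z)]
    ring
  · -- invariance
    intro a b c d hdet hc' hd' x y
    have ha' : (p : ℤ) ^ R * N₀ ∣ a - 1 := by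
      have e : a - 1 = b * c - a * (d - 1) := by linear_combination hdet
      rw [e]
      exact dvd_sub (hc'.mul_left b) (hd'.mul_left a)
    obtain ⟨c₁, hcc, hcN, -, c₂, hc2⟩ := hc1 c hc'
    obtain ⟨d₁, hdd, -, -, -⟩ := hc1 _ hd'
    obtain ⟨a₁, haa, -, -, -⟩ := hc1 _ ha'
    have hnud : nu d = 1 := by
      rw [hnuper d 1 (hlev3 _ hd'), hnu1]
    have hnud' : nu (d - c₁) = 1 := by
      rw [hnuper (d - c₁) 1 ?_, hnu1]
      have e : d - c₁ - 1 = d - 1 - c₁ := by ring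
      rw [e]
      exact dvd_sub (hlev3 _ hd') hcN
    have hconj := KYN.conj p hp0 a b c d (a + c₁) (b + (d₁ - a₁) - c₂) (d - c₁)
      (by rw [hcc]; ring) (by
        have e : d - a = (p : ℤ) ^ 3 * (d₁ - a₁) := by linear_combination hdd - haa
        rw [e, hcc, hc2]
        ring) (by rw [hcc]; ring)
    have hdet' : (a + c₁) * (d - c₁) - (b + (d₁ - a₁) - c₂) * c = 1 := by
      have e1 : (p : ℤ) ^ 3 * (d₁ - a₁) = d - a := by linear_combination haa - hdd
      have e2 : c = (p : ℤ) ^ 3 * c₁ := hcc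
      have e3 : (p : ℤ) ^ 3 * c₂ = c₁ := hc2.symm
      have : (a + c₁) * (d - c₁) - (b + (d₁ - a₁) - c₂) * c =
          (a * d - b * c) + c₁ * (d - a - (p : ℤ) ^ 3 * (d₁ - a₁)) -
            c₁ * (c₁ - (p : ℤ) ^ 3 * c₂) := by
        rw [e2]
        ring
      rw [this, hdet, e1, e3]
      ring
    show (Submodule.Quotient.mk (PT p Q (mob a b c d x) (mob a b c d y)) : ℂ ⧸ m) =
      Submodule.Quotient.mk (PT p Q x y)
    congr 1
    unfold PT
    rw [hconj x, hconj y, hsym.equiv a b c d hdet (hlev _ hc') x y,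
      hsym.equiv _ _ c _ hdet' (hlev _ hc'), hnud, hnud', one_mul, one_mul]
  · -- (A)
    intro a b c d n hn hc hd hac hbd hN' hdet3
    obtain ⟨c₁, hcc, hcN, hcr, hc27⟩ := hc1 c hN'
    have h3c : (p : ℤ) ∣ c := (Dvd.intro _ (by push_cast; rfl) : (p : ℤ) ∣ ((p * N₀ : ℕ) : ℤ)).trans
      (hlev3 c hN')
    have hac1 : IsCoprime a c₁ := hac.of_isCoprime_of_dvd_right ⟨(p : ℤ) ^ 3, by rw [hcc]; ring⟩
    have ha3 : IsCoprime a (p : ℤ) := hac.of_isCoprime_of_dvd_right h3c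
    -- `d`
    have hdd : (p : ℤ) ^ (r + 4) ∣ d := by
      have h2 : (p : ℤ) ^ (r + 4) ∣ a * d := by
        have e : a * d = (p : ℤ) ^ n + b * c := by linear_combination hdet3
        rw [e]
        apply dvd_add (hpow (by omega))
        apply Dvd.dvd.mul_left
        exact dvd_trans (dvd_trans (hpow (by omega : r + 4 ≤ R)) (Dvd.intro _ rfl)) hN'
      exact (ha3.symm.pow_left).dvd_of_dvd_mul_left h2
    obtain ⟨d₂, hd2⟩ := hdd
    set d₁ : ℤ := (p : ℤ) ^ (r + 1) * d₂ with hd1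
    have hdd1 : d = (p : ℤ) ^ 3 * d₁ := by
      rw [hd2, hd1, ← mul_assoc, ← pow_add]
      congr 2
      omega
    have h3d : (p : ℤ) ∣ d := (dvd_pow_self _ (by norm_num)).trans ⟨d₁, hdd1⟩
    have hb3 : ¬ (p : ℤ) ∣ b := by
      intro h
      have h4 : IsCoprime (p : ℤ) p := (hbd.of_isCoprime_of_dvd_left h).of_isCoprime_of_dvd_right h3d
      rw [isCoprime_self, Int.isUnit_iff] at h4
      have := hp.two_le
      omega
    -- PAI for `Q`
    obtain ⟨e, he, hQe⟩ := h1 p hp _ nu Q hsym n a b c d hc hd hac (hlev _ hN') hdet3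
    have hac' : IsCoprime (a + c₁) c := by
      have h5 : IsCoprime (a + c₁) c₁ := by
        have h6 := IsCoprime.add_mul_left_left hac1 1
        rwa [mul_one] at h6
      have h6 : IsCoprime (a + c₁) ((p : ℤ) ^ 3) := h5.of_isCoprime_of_dvd_right hc27
      rw [hcc]
      exact h6.mul_right h5
    obtain ⟨e', he', hQe'⟩ := h1 p hp _ nu Q hsym n (a + c₁) (b + d₁) c d hc hd hac' (hlev _ hN')
      (by
      rw [← hdet3]
      have : (a + c₁) * d - (b + d₁) * c = a * d - b * c + (c₁ * d - d₁ * c) := by ring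
      rw [this, hcc, hdd1]
      ring)
    have hnua : nu (a + c₁) = nu a := by
      apply hnuper
      have : a + c₁ - a = c₁ := by ring
      rw [this]
      exact hcN
    rw [hnua] at hQe'
    -- the two cusps
    have hcQ : (c : ℚ) ≠ 0 := by exact_mod_cast hc
    have hdQ : (d : ℚ) ≠ 0 := by exact_mod_cast hd
    have hcq : (c : ℚ) = (p : ℚ) ^ 3 * c₁ := by exact_mod_cast hcc
    have hdq : (d : ℚ) = (p : ℚ) ^ 3 * d₁ := by exact_mod_cast hdd1
    have eu : ((a + c₁ : ℤ) : ℚ) / c = (a : ℚ) / c + 1 / (p : ℚ) ^ 3 := by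
      have h7 : (c₁ : ℚ) / c = 1 / (p : ℚ) ^ 3 := by
        rw [div_eq_div_iff hcQ hQ3, hcq]
        ring
      push_cast
      rw [add_div, h7]
    have ew : ((b + d₁ : ℤ) : ℚ) / d = (b : ℚ) / d + 1 / (p : ℚ) ^ 3 := by
      have h7 : (d₁ : ℚ) / d = 1 / (p : ℚ) ^ 3 := by
        rw [div_eq_div_iff hdQ hQ3, hdq]
        ring
      push_cast
      rw [add_div, h7]
    rw [eu, ew] at hQe'
    -- comparison of `e` and `e'`
    have hrn : (p : ℤ) ^ (r + 1) ∣ (p : ℤ) ^ n := hpow (by omega)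
    have hee : (p : ℤ) ^ r ∣ e - e' := by
      have h8 : (p : ℤ) ^ (r + 1) ∣ a * (e - e') := by
        have e1 : a * (e - e') = (a * e - b) - ((a + c₁) * e' - (b + d₁)) + c₁ * e' - d₁ := by ring
        rw [e1]
        apply dvd_sub
        · apply dvd_add
          · exact dvd_sub (hrn.trans he) (hrn.trans he')
          · exact hcr.mul_right _
        · exact Dvd.intro _ rfl
      have h9 : (p : ℤ) ^ (r + 1) ∣ e - e' := (ha3.symm.pow_left).dvd_of_dvd_mul_left h8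
      exact (hpow (by omega)).trans h9
    have he3 : ¬ (p : ℤ) ∣ e := by
      intro h
      apply hb3
      have e1 : b = a * e - (a * e - b) := by ring
      rw [e1]
      apply dvd_sub (h.mul_left a)
      exact (dvd_trans (dvd_pow_self _ (by omega : n ≠ 0)) he)
    have hl := hloc n (by omega) e e' he3 hee
    rw [← hQe, ← hQe', ← mul_sub] at hl
    have hva : V.valuation (nu a) = 1 := by
      apply hnuv
      exact hac.of_isCoprime_of_dvd_right (hlev3 _ hN')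
    have hfin := KYN.div V m _ _ hva hl
    show (Submodule.Quotient.mk (PT p Q _ _) : ℂ ⧸ m) = 0
    rw [Submodule.Quotient.mk_eq_zero]
    unfold PT
    rw [KYN.tau p hp0, KYN.tau p hp0]
    exact hfin
  · -- (A0)
    intro b n hn hb3
    show (Submodule.Quotient.mk (PT p Q _ _) : ℂ ⧸ m) = 0
    rw [Submodule.Quotient.mk_eq_zero]
    unfold PT
    rw [KYN.tau_inf, KYN.tau p hp0]
    have hl := hloc n (by omega) b (b + (p : ℤ) ^ (n - 3)) hb3 (by
      have e : b - (b + (p : ℤ) ^ (n - 3)) = -((p : ℤ) ^ (n - 3)) := by ring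
      rw [e, dvd_neg]
      exact hpow (by omega))
    have e : (((b + (p : ℤ) ^ (n - 3) : ℤ) : ℚ) / (p : ℚ) ^ n) =
        (b : ℚ) / (p : ℚ) ^ n + 1 / (p : ℚ) ^ 3 := by
      have e2 : (p : ℚ) ^ n = (p : ℚ) ^ 3 * (p : ℚ) ^ (n - 3) := by
        rw [← pow_add]
        congr 1
        omega
      have e3 : (p : ℚ) ^ (n - 3) ≠ 0 := pow_ne_zero _ hpq
      push_cast
      rw [add_div]
      congr 1
      rw [div_eq_div_iff (pow_ne_zero _ hpq) hQ3, e2]
      ring
    rw [e] at hl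
    exact hl

end

end Pool.Agent.OBH


end

section

/-!
# OB, block H, module LOC: local constancy modulo a submodule, every odd prime (helper65; adapted from `MUX/HN_LOC.lean`)
-/

set_option autoImplicit false

namespace Pool.Agent.OBH

open _root_.MU3 Pool.Agent.MuSym Pool.Agent.MUXH OnePoint

noncomputable section

namespace LOC

theorem nd_mul {p : ℕ} (hp : p.Prime) {u b : ℤ} (hu : (p : ℤ) ∣ u - 1) (h : ¬ (p : ℤ) ∣ b) :
    ¬ (p : ℤ) ∣ u * b := by
  intro h1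
  have hP : Prime (p : ℤ) := Nat.prime_iff_prime_int.1 hp
  rcases hP.dvd_or_dvd h1 with h2 | h2
  · have h3 : (p : ℤ) ∣ 1 := by
      have h4 := dvd_sub h2 hu
      have e : u - (u - 1) = 1 := by ring
      rwa [e] at h4
    exact hP.not_isUnit (isUnit_of_dvd_one h3)
  · exact h h2

theorem nd_pow {p : ℕ} (hp : p.Prime) {u b : ℤ} (hu : (p : ℤ) ∣ u - 1) (h : ¬ (p : ℤ) ∣ b)
    (i : ℕ) : ¬ (p : ℤ) ∣ u ^ i * b := by
  induction i with
  | zero => simpa using h
  | succ i ih =>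
    have e : u ^ (i + 1) * b = u * (u ^ i * b) := by ring
    rw [e]
    exact nd_mul hp hu ih

theorem dvd_pow_sub {p : ℕ} {u : ℤ} (hu : (p : ℤ) ∣ u - 1) (i : ℕ) : (p : ℤ) ∣ u ^ i - 1 := by
  have h := sub_dvd_pow_sub_pow u 1 i
  rw [one_pow] at h
  exact hu.trans h

/-- `p^r` divides `g^(p^r) - 1` -/
theorem dvd_pow_pow {p : ℕ} {g : ℤ} (hg : (p : ℤ) ∣ g - 1) (r : ℕ) :
    (p : ℤ) ^ r ∣ g ^ p ^ r - 1 := by
  induction r with
  | zero => rw [pow_zero]; exact one_dvd _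
  | succ r ih =>
    obtain ⟨c, hc⟩ := ih
    have h1 : (p : ℤ) ∣ ∑ i ∈ Finset.range p, (g ^ p ^ r) ^ i := by
      have e : ∑ i ∈ Finset.range p, (g ^ p ^ r) ^ i =
          ∑ i ∈ Finset.range p, ((g ^ p ^ r) ^ i - 1) + p := by
        rw [Finset.sum_sub_distrib]
        simp
      rw [e]
      refine dvd_add (Finset.dvd_sum fun i _ => ?_) (dvd_refl _)
      rw [← pow_mul]
      exact dvd_pow_sub hg _
    obtain ⟨d, hd⟩ := h1
    have h2 := geom_sum_mul (g ^ p ^ r) p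
    rw [hd, hc] at h2
    have e1 : g ^ p ^ (r + 1) = (g ^ p ^ r) ^ p := by rw [← pow_mul, pow_succ]
    rw [e1, ← h2]
    exact ⟨d * c, by ring⟩

/-- the powers of `u` are, modulo `p^n`, all classes `≡ 1` modulo `p^s` -/
theorem gen {p : ℕ} (hp : p.Prime) (hp2 : p ≠ 2) {u : ℤ} (hu : (p : ℤ) ∣ u - 1) (hu1 : u ≠ 1) :
    ∃ s : ℕ, ∀ (n : ℕ) (b b' : ℤ),
    ¬ (p : ℤ) ∣ b → (p : ℤ) ^ s ∣ b - b' → ∃ i : ℕ, (p : ℤ) ^ n ∣ u ^ i * b - b' := by
  have hP : Prime (p : ℤ) := Nat.prime_iff_prime_int.1 hp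
  obtain ⟨w, hw, hw3⟩ := (Int.finiteMultiplicity_iff.2
    ⟨by rw [Int.natAbs_natCast]; exact hp.ne_one, sub_ne_zero.2 hu1⟩ :
      FiniteMultiplicity (p : ℤ) (u - 1)).exists_eq_pow_mul_and_not_dvd
  obtain ⟨k, hk⟩ : ∃ k, k = multiplicity (p : ℤ) (u - 1) := ⟨_, rfl⟩
  rw [← hk] at hw
  have hk1 : 1 ≤ k := by
    by_contra h
    have h0 : k = 0 := by omega
    rw [h0, pow_zero, one_mul] at hw
    exact hw3 (hw ▸ hu)
  refine ⟨k, fun n b b' hb hbb => ?_⟩
  rcases le_total n k with hn | hn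
  · refine ⟨0, ?_⟩
    rw [pow_zero, one_mul]
    exact (pow_dvd_pow _ hn).trans hbb
  · induction n, hn using Nat.le_induction with
    | base => exact ⟨0, by rw [pow_zero, one_mul]; exact hbb⟩
    | succ n hn ih =>
      obtain ⟨i, c, hc⟩ := ih
      obtain ⟨w', h1, h2⟩ := MUXH.Stp.pow_u (p := p) (w := w) hp hk1
        (fun h => absurd h hp2) hw hw3 n hn
      have hb2 := nd_pow hp hu hb i
      -- the target class
      obtain ⟨t, ht⟩ : ∃ t : ℕ, (p : ℤ) ∣ t + c := by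
        refine ⟨((-c) % (p : ℤ)).toNat, ?_⟩
        have h3 : 0 ≤ (-c) % (p : ℤ) := Int.emod_nonneg _ hP.ne_zero
        rw [Int.toNat_of_nonneg h3]
        have h4 := Int.emod_add_mul_ediv (-c) (p : ℤ)
        exact ⟨-(-c / (p : ℤ)), by linarith⟩
      obtain ⟨j, hj⟩ := MUXH.Stp.solve (p := p) hp (w := w') (b := u ^ i * b) h2 hb2 t
      obtain ⟨q, hq⟩ := MUXH.Stp.pow_one_add (p := p) (hk1.trans hn) w' j
      refine ⟨p ^ (n - k) * j + i, ?_⟩
      obtain ⟨a, ha⟩ := hj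
      obtain ⟨d, hd⟩ := ht
      have e1 : u ^ (p ^ (n - k) * j + i) * b = (1 + (p : ℤ) ^ n * w') ^ j * (u ^ i * b) := by
        rw [pow_add, pow_mul, h1]
        ring
      have e2 : (1 + (p : ℤ) ^ n * w') ^ j = (p : ℤ) ^ (n + 1) * q +
          (1 + j * ((p : ℤ) ^ n * w')) := by
        linarith
      rw [e1, e2]
      refine ⟨q * (u ^ i * b) + a + d, ?_⟩
      have e3 : u ^ i * b = b' + (p : ℤ) ^ n * c := by linarith
      have e4 : (j : ℤ) * (w' * (u ^ i * b)) = p * a + t := by linarith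
      have e5 : (c : ℤ) = p * d - t := by linarith
      calc ((p : ℤ) ^ (n + 1) * q + (1 + j * ((p : ℤ) ^ n * w'))) * (u ^ i * b) - b'
          = (p : ℤ) ^ (n + 1) * q * (u ^ i * b) + (u ^ i * b - b') +
            (p : ℤ) ^ n * (j * (w' * (u ^ i * b))) := by ring
        _ = (p : ℤ) ^ (n + 1) * q * (u ^ i * b) + ((p : ℤ) ^ n * (p * d - t)) +
            (p : ℤ) ^ n * (p * a + t) := by
            rw [e4, hc, e5]
        _ = (p : ℤ) ^ (n + 1) * (q * (u ^ i * b) + a + d) := by ring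

variable {V : ValuationSubring ℂ}

/-- locally constant modulo `m` -/
def LC (p : ℕ) (m : Submodule V ℂ) (r : ℕ) (y : ℤ → ℂ) : Prop :=
  ∀ b b' : ℤ, ¬ (p : ℤ) ∣ b → (p : ℤ) ^ r ∣ b - b' → y b - y b' ∈ m

theorem int_mul (m : Submodule V ℂ) {x : ℂ} (hx : x ∈ m) (c : ℤ) : (c : ℂ) * x ∈ m := by
  have h := zsmul_mem hx c
  rwa [zsmul_eq_mul] at h

/-- an integer divisible by `p^k` times a value -/
theorem dvd_mul_mem {p : ℕ} (m : Submodule V ℂ) {k : ℕ} {x : ℂ} (hx : (p : ℂ) ^ k * x ∈ m)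
    {c : ℤ} (hc : (p : ℤ) ^ k ∣ c) : (c : ℂ) * x ∈ m := by
  obtain ⟨d, rfl⟩ := hc
  have h := int_mul m hx d
  have e : (((p : ℤ) ^ k * d : ℤ) : ℂ) * x = (d : ℂ) * ((p : ℂ) ^ k * x) := by
    push_cast
    ring
  rwa [e]

/-- from invariance under `u` to local constancy -/
theorem lc_of_inv {p : ℕ} (hp : p.Prime) (hp2 : p ≠ 2) {u : ℤ} (hu : (p : ℤ) ∣ u - 1)
    (hu1 : u ≠ 1) : ∃ s : ℕ,
    ∀ (m : Submodule V ℂ) (n : ℕ) (y : ℤ → ℂ), (∀ b c : ℤ, (p : ℤ) ^ n ∣ b - c → y b = y c) →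
      (∀ b : ℤ, ¬ (p : ℤ) ∣ b → y b - y (u * b) ∈ m) → LC p m s y := by
  obtain ⟨s, hs⟩ := gen hp hp2 hu hu1
  refine ⟨s, fun m n y hper hinv b b' hb hbb => ?_⟩
  obtain ⟨i, hi⟩ := hs n b b' hb hbb
  rw [← hper _ _ hi]
  clear hi
  induction i with
  | zero =>
    rw [pow_zero, one_mul, sub_self]
    exact zero_mem _
  | succ i ih =>
    have h := hinv _ (nd_pow hp hu hb i)
    have e : u ^ (i + 1) * b = u * (u ^ i * b) := by ring
    rw [e]
    have e2 : y b - y (u * (u ^ i * b)) = (y b - y (u ^ i * b)) +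
        (y (u ^ i * b) - y (u * (u ^ i * b))) := by ring
    rw [e2]
    exact add_mem ih h

/-- the difference operator -/
def D (g : ℤ) (y : ℤ → ℂ) : ℤ → ℂ := fun b => y b - y (g * b)

theorem D_per {p : ℕ} {g : ℤ} {n : ℕ} {y : ℤ → ℂ}
    (hper : ∀ b c : ℤ, (p : ℤ) ^ n ∣ b - c → y b = y c) :
    ∀ b c : ℤ, (p : ℤ) ^ n ∣ b - c → D g y b = D g y c := by
  intro b c h
  unfold D
  rw [hper b c h, hper (g * b) (g * c) (by rw [← mul_sub]; exact Dvd.dvd.mul_left h g)]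

theorem D_mem {p : ℕ} {g : ℤ} {k : ℕ} {m : Submodule V ℂ} {y : ℤ → ℂ}
    (h : ∀ b, (p : ℂ) ^ k * y b ∈ m) :
    ∀ b, (p : ℂ) ^ k * D g y b ∈ m := by
  intro b
  unfold D
  rw [mul_sub]
  exact sub_mem (h b) (h _)

theorem pow_ne_one' {p : ℕ} (hp : p.Prime) (hp2 : p ≠ 2) {u : ℤ} (hu : (p : ℤ) ∣ u - 1)
    (hu1 : u ≠ 1) {i : ℕ} (hi : i ≠ 0) :
    u ^ i ≠ 1 := by
  intro h
  have h1 : u.natAbs ^ i = 1 := by
    rw [← Int.natAbs_pow, h]
    rfl
  have h2 : u.natAbs = 1 := (pow_eq_one_iff_of_nonneg (Nat.zero_le _) hi).1 h1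
  rcases Int.natAbs_eq u with h3 | h3
  · rw [h2] at h3
    exact hu1 h3
  · rw [h2] at h3
    rw [h3] at hu
    have h4 : (p : ℤ) ∣ ((2 : ℕ) : ℤ) := by
      have h5 := dvd_neg.2 hu
      have e : -(-((1 : ℕ) : ℤ) - 1) = ((2 : ℕ) : ℤ) := by norm_num
      rwa [e] at h5
    rw [Int.natCast_dvd_natCast] at h4
    exact hp2 ((Nat.prime_dvd_prime_iff_eq hp Nat.prime_two).1 h4)

/-- step down -/
theorem step {p : ℕ} (hp : p.Prime) (hp2 : p ≠ 2) {g : ℤ} (hg : (p : ℤ) ∣ g - 1) (hg1 : g ≠ 1)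
    (k r : ℕ) : ∃ s : ℕ,
    ∀ (m : Submodule V ℂ) (n : ℕ) (y : ℤ → ℂ), (∀ b c : ℤ, (p : ℤ) ^ n ∣ b - c → y b = y c) →
      (∀ b, (p : ℂ) ^ k * y b ∈ m) → LC p m r (D g y) → LC p m s y := by
  have hppos : 0 < p := hp.pos
  obtain ⟨u, hu⟩ : ∃ u : ℤ, u = g ^ p ^ r := ⟨_, rfl⟩
  have hu3 : (p : ℤ) ∣ u - 1 := by rw [hu]; exact dvd_pow_sub hg _
  have hur : (p : ℤ) ^ r ∣ u - 1 := by
    rw [hu]
    exact dvd_pow_pow hg r
  have hu1 : u ≠ 1 := by rw [hu]; exact pow_ne_one' hp hp2 hg hg1 (by positivity)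
  obtain ⟨s, hs⟩ := lc_of_inv (V := V) hp hp2 (dvd_pow_sub hu3 (p ^ k))
    (pow_ne_one' hp hp2 hu3 hu1 (i := p ^ k) (by positivity))
  refine ⟨s, fun m n y hper hk hlc => hs m n y hper ?_⟩
  -- the sums
  obtain ⟨S, hS⟩ : ∃ S : ℤ → ℂ, ∀ b, S b = y b - y (u * b) := ⟨_, fun _ => rfl⟩
  have hS2 : ∀ b, S b = ∑ i ∈ Finset.range (p ^ r), D g y (g ^ i * b) := by
    intro b
    have h1 : ∀ i : ℕ, D g y (g ^ i * b) = y (g ^ i * b) - y (g ^ (i + 1) * b) := by
      intro i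
      unfold D
      rw [show g ^ (i + 1) * b = g * (g ^ i * b) by ring]
    rw [Finset.sum_congr rfl fun i _ => h1 i, Finset.sum_range_sub', hS, hu]
    rw [pow_zero, one_mul]
  have hSu : ∀ b : ℤ, ¬ (p : ℤ) ∣ b → S b - S (u * b) ∈ m := by
    intro b hb
    rw [hS2, hS2, ← Finset.sum_sub_distrib]
    refine Submodule.sum_mem _ fun i _ => hlc _ _ (nd_pow hp hg hb i) ?_
    have e : g ^ i * b - g ^ i * (u * b) = (u - 1) * (-(g ^ i * b)) := by ring
    rw [e]
    exact Dvd.dvd.mul_right hur _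
  have hSj : ∀ (j : ℕ) (b : ℤ), ¬ (p : ℤ) ∣ b → S b - S (u ^ j * b) ∈ m := by
    intro j b hb
    induction j with
    | zero =>
      rw [pow_zero, one_mul, sub_self]
      exact zero_mem _
    | succ j ih =>
      have h := hSu _ (nd_pow hp hu3 hb j)
      have e : u ^ (j + 1) * b = u * (u ^ j * b) := by ring
      rw [e]
      have e2 : S b - S (u * (u ^ j * b)) = (S b - S (u ^ j * b)) +
          (S (u ^ j * b) - S (u * (u ^ j * b))) := by ring
      rw [e2]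
      exact add_mem ih h
  intro b hb
  have hSk : (p : ℂ) ^ k * S b ∈ m := by
    rw [hS, mul_sub]
    exact sub_mem (hk _) (hk _)
  have h2 : y b - y (u ^ p ^ k * b) = ((p : ℂ) ^ k) * S b -
      ∑ j ∈ Finset.range (p ^ k), (S b - S (u ^ j * b)) := by
    have h1 : ∀ j : ℕ, S (u ^ j * b) = y (u ^ j * b) - y (u ^ (j + 1) * b) := by
      intro j
      rw [hS, show u ^ (j + 1) * b = u * (u ^ j * b) by ring]
    rw [Finset.sum_sub_distrib, Finset.sum_const, Finset.card_range, nsmul_eq_mul,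
      Finset.sum_congr rfl fun j _ => h1 j, Finset.sum_range_sub', pow_zero, one_mul]
    push_cast
    ring
  rw [h2]
  exact sub_mem hSk (Submodule.sum_mem _ fun j _ => hSj j b hb)

/-- iteration of the step down -/
theorem steps {p : ℕ} (hp : p.Prime) (hp2 : p ≠ 2) {g : ℤ} (hg : (p : ℤ) ∣ g - 1) (hg1 : g ≠ 1)
    (k N : ℕ) : ∀ r : ℕ, ∃ s : ℕ,
    ∀ (m : Submodule V ℂ) (n : ℕ) (y : ℤ → ℂ), (∀ b c : ℤ, (p : ℤ) ^ n ∣ b - c → y b = y c) →
      (∀ b, (p : ℂ) ^ k * y b ∈ m) → LC p m r ((D g)^[N] y) → LC p m s y := by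
  induction N with
  | zero => exact fun r => ⟨r, fun m n y _ _ h => h⟩
  | succ N ih =>
    intro r
    obtain ⟨s, hs⟩ := ih r
    obtain ⟨s', hs'⟩ := step (V := V) hp hp2 hg hg1 k s
    refine ⟨s', fun m n y hper hk h => hs' m n y hper hk ?_⟩
    rw [Function.iterate_succ_apply] at h
    exact hs m n (D g y) (D_per hper) (D_mem hk) h

theorem iter_per {p : ℕ} {g : ℤ} {n : ℕ} (N : ℕ) : ∀ {y : ℤ → ℂ},
    (∀ b c : ℤ, (p : ℤ) ^ n ∣ b - c → y b = y c) →
    ∀ b c : ℤ, (p : ℤ) ^ n ∣ b - c → (D g)^[N] y b = (D g)^[N] y c := by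
  induction N with
  | zero => exact fun h => h
  | succ N ih =>
    intro y h
    rw [Function.iterate_succ_apply]
    exact ih (D_per h)

theorem iter_mem {p : ℕ} {g : ℤ} {k : ℕ} {m : Submodule V ℂ} (N : ℕ) : ∀ {y : ℤ → ℂ},
    (∀ b, (p : ℂ) ^ k * y b ∈ m) → ∀ b, (p : ℂ) ^ k * (D g)^[N] y b ∈ m := by
  induction N with
  | zero => exact fun h => h
  | succ N ih =>
    intro y h
    rw [Function.iterate_succ_apply]
    exact ih (D_mem h)

/-- the substitution operator -/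
def E (g : ℤ) : Module.End ℂ (ℤ → ℂ) where
  toFun y := fun b => y (g * b)
  map_add' _ _ := rfl
  map_smul' _ _ := rfl

theorem E_pow (g : ℤ) (i : ℕ) (y : ℤ → ℂ) (b : ℤ) : ((E g) ^ i) y b = y (g ^ i * b) := by
  induction i generalizing b with
  | zero => simp
  | succ i ih =>
    rw [pow_succ', Module.End.mul_apply]
    have h1 : (E g) (((E g) ^ i) y) b = ((E g) ^ i) y (g * b) := rfl
    rw [h1, ih, pow_succ]
    ring_nf

theorem iter_eq (g : ℤ) (N : ℕ) (y : ℤ → ℂ) :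
    (D g)^[N] y = ((1 + -(E g)) ^ N) y := by
  induction N generalizing y with
  | zero => rfl
  | succ N ih =>
    rw [Function.iterate_succ_apply, ih, pow_succ, Module.End.mul_apply]
    have h : D g y = (1 + -(E g)) y := by
      funext b
      show y b - y (g * b) = y b + -(y (g * b))
      ring
    rw [h]

theorem iter_sum (g : ℤ) (N : ℕ) (y : ℤ → ℂ) (b : ℤ) :
    (D g)^[N] y b = ∑ j ∈ Finset.range (N + 1), ((-1 : ℂ) ^ (N - j) * (N.choose j : ℂ)) *
      y (g ^ (N - j) * b) := by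
  rw [iter_eq, (Commute.one_left (-(E g))).add_pow, LinearMap.sum_apply, Finset.sum_apply]
  refine Finset.sum_congr rfl fun j _ => ?_
  rw [one_pow, one_mul, neg_pow (E g), Module.End.mul_apply, Module.End.mul_apply]
  have h1 : ((N.choose j : ℕ) : Module.End ℂ (ℤ → ℂ)) y = ((N.choose j : ℕ) : ℂ) • y := by
    funext c
    rw [Module.End.natCast_apply]
    simp
  rw [h1, _root_.map_smul, _root_.map_smul]
  have h2 : ∀ (x : ℤ → ℂ) (i : ℕ), ((-1 : Module.End ℂ (ℤ → ℂ)) ^ i) x = ((-1 : ℂ) ^ i) • x := by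
    intro x i
    induction i with
    | zero => simp
    | succ i ih =>
      rw [pow_succ', Module.End.mul_apply, ih, _root_.map_smul, pow_succ']
      funext c
      simp
  rw [h2]
  simp only [Pi.smul_apply, smul_eq_mul, E_pow]
  ring

theorem comb_eq (α g : ℤ) (N : ℕ) (y : ℤ → ℂ) (b : ℤ) : comb α g N y b =
    (α : ℂ) * (D g)^[N] y b - (α : ℂ) ^ 2 * (D g)^[N] y (α ^ 2 * b) := by
  unfold comb
  rw [iter_sum, iter_sum, Finset.mul_sum, Finset.mul_sum, ← Finset.sum_sub_distrib]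
  refine Finset.sum_congr rfl fun j _ => ?_
  rw [← mul_assoc (g ^ (N - j)) (α ^ 2) b]
  ring

end LOC

open _root_.Pool.Agent.OBH.LOC in
theorem to_LOC : So_LOC := by
  intro p hp hp2 V h3 m z k n₀ hper hk α g hα hα1 hg hg1 N hcomb
  have hppos : 0 < p := hp.pos
  -- `α` is a unit
  have hint : ∀ n : ℤ, V.valuation (n : ℂ) ≤ 1 := by
    intro n
    have h := V.zsmul_mem (V.one_mem) n
    rw [zsmul_eq_mul, mul_one] at h
    exact (ValuationSubring.valuation_le_one_iff _ _).2 h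
  have hαv : V.valuation (α : ℂ) = 1 := by
    refine le_antisymm (hint α) (not_lt.1 fun hlt => ?_)
    obtain ⟨c, hc⟩ := hα
    have h4 : V.valuation ((c : ℂ) * p) < 1 := by
      rw [map_mul]
      exact lt_of_le_of_lt (mul_le_of_le_one_left' (hint c)) h3
    have h5 : V.valuation ((α : ℂ) - (c : ℂ) * p) < 1 :=
      lt_of_le_of_lt (V.valuation.map_sub _ _) (max_lt hlt h4)
    have e : (α : ℂ) - (c : ℂ) * p = 1 := by
      have h6 : (α : ℂ) - 1 = p * c := by exact_mod_cast hc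
      linear_combination h6
    rw [e, map_one] at h5
    exact lt_irrefl _ h5
  have hα0 : (α : ℂ) ≠ 0 := by
    intro h0
    rw [h0, map_zero] at hαv
    exact zero_ne_one hαv
  have hαinv : (α : ℂ)⁻¹ ∈ V := by
    rw [← ValuationSubring.valuation_le_one_iff, map_inv₀, hαv, inv_one]
  -- the number `u`
  obtain ⟨u, hu⟩ : ∃ u : ℤ, u = (α ^ 2) ^ p ^ k := ⟨_, rfl⟩
  have hα2 : (p : ℤ) ∣ α ^ 2 - 1 := dvd_pow_sub hα 2
  have hu3 : (p : ℤ) ∣ u - 1 := by rw [hu]; exact dvd_pow_sub hα2 _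
  have hα21 : α ^ 2 ≠ 1 := pow_ne_one' hp hp2 hα hα1 two_ne_zero
  have hu1 : u ≠ 1 := by rw [hu]; exact pow_ne_one' hp hp2 hα2 hα21 (by positivity)
  have hαk : (p : ℤ) ^ k ∣ α ^ p ^ k - 1 := dvd_pow_pow hα k
  obtain ⟨s, hs⟩ := lc_of_inv (V := V) hp hp2 hu3 hu1
  obtain ⟨r, hr⟩ := steps (V := V) hp hp2 hg hg1 k N s
  refine ⟨r, fun n hn => hr m n (z n) (hper n) (hk n) ?_⟩
  refine hs m n _ (iter_per N (hper n)) ?_
  have hYk : ∀ b, (p : ℂ) ^ k * (D g)^[N] (z n) b ∈ m := iter_mem N (hk n)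
  obtain ⟨Y, hY⟩ : ∃ Y : ℤ → ℂ, Y = (D g)^[N] (z n) := ⟨_, rfl⟩
  rw [← hY] at hYk ⊢
  have hstep : ∀ b : ℤ, ¬ (p : ℤ) ∣ b → Y b - (α : ℂ) * Y (α ^ 2 * b) ∈ m := by
    intro b hb
    have h1 := hcomb n hn b hb
    rw [comb_eq, ← hY] at h1
    have h2 := m.smul_mem (⟨(α : ℂ)⁻¹, hαinv⟩ : V) h1
    have e : (⟨(α : ℂ)⁻¹, hαinv⟩ : V) • ((α : ℂ) * Y b - (α : ℂ) ^ 2 * Y (α ^ 2 * b)) =
        Y b - (α : ℂ) * Y (α ^ 2 * b) := by
      show (α : ℂ)⁻¹ * ((α : ℂ) * Y b - (α : ℂ) ^ 2 * Y (α ^ 2 * b)) = _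
      field_simp
    rwa [e] at h2
  have hi : ∀ (i : ℕ) (b : ℤ), ¬ (p : ℤ) ∣ b →
      Y b - (α : ℂ) ^ i * Y ((α ^ 2) ^ i * b) ∈ m := by
    intro i b hb
    induction i with
    | zero =>
      rw [pow_zero, pow_zero, one_mul, one_mul, sub_self]
      exact zero_mem _
    | succ i ih =>
      have h1 := hstep _ (nd_pow hp hα2 hb i)
      have h2 := int_mul m h1 (α ^ i)
      have e : (α ^ 2) ^ (i + 1) * b = α ^ 2 * ((α ^ 2) ^ i * b) := by ring
      rw [e]
      have e2 : Y b - (α : ℂ) ^ (i + 1) * Y (α ^ 2 * ((α ^ 2) ^ i * b)) =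
          (Y b - (α : ℂ) ^ i * Y ((α ^ 2) ^ i * b)) +
          ((α ^ i : ℤ) : ℂ) * (Y ((α ^ 2) ^ i * b) - (α : ℂ) * Y (α ^ 2 * ((α ^ 2) ^ i * b))) := by
        push_cast
        ring
      rw [e2]
      exact add_mem ih h2
  intro b hb
  have h1 := hi (p ^ k) b hb
  rw [← hu] at h1
  have h2 := dvd_mul_mem m (hYk (u * b)) hαk
  have e : Y b - Y (u * b) = (Y b - (α : ℂ) ^ p ^ k * Y (u * b)) +
      ((α ^ p ^ k - 1 : ℤ) : ℂ) * Y (u * b) := by
    push_cast
    ring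
  rw [e]
  exact add_mem h1 h2

end

end Pool.Agent.OBH


end

section

/-!
# OB, block H: module NZ

Adapted from `Pool/Agent/MUX/HN_HN.lean` (helper87).
-/

set_option autoImplicit false

namespace Pool.Agent.OBH

open _root_.MU3 Pool.Agent.MuSym Pool.Agent.MUXH OnePoint

noncomputable section

namespace NZ

theorem mob_inf (a b d : ℤ) : mob a b 0 d ∞ = ∞ := by
  show (if (0 : ℤ) = 0 then (∞ : OnePoint ℚ) else ((a / (0 : ℤ) : ℚ) : OnePoint ℚ)) = ∞
  rw [if_pos rfl]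

theorem mob_tr (k : ℤ) (r : ℚ) :
    mob 1 k 0 1 ((r : ℚ) : OnePoint ℚ) = ((r + k : ℚ) : OnePoint ℚ) := by
  show (if ((0 : ℤ) : ℚ) * r + (1 : ℤ) = 0 then ∞ else
    (((((1 : ℤ) : ℚ) * r + (k : ℤ)) / (((0 : ℤ) : ℚ) * r + (1 : ℤ)) : ℚ) : OnePoint ℚ)) = _
  rw [if_neg (by norm_num)]
  congr 1
  push_cast
  ring

/-- the maximal ideal as a submodule of `ℂ` -/
def mV (V : ValuationSubring ℂ) : Submodule V ℂ where
  carrier := {x | V.valuation x < 1}
  add_mem' := by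
    intro a b ha hb
    exact lt_of_le_of_lt (V.valuation.map_add a b) (max_lt ha hb)
  zero_mem' := by
    change V.valuation 0 < 1
    rw [map_zero]
    exact zero_lt_one
  smul_mem' := by
    intro c x hx
    change V.valuation ((c : ℂ) * x) < 1
    rw [map_mul]
    have h1 : V.valuation (c : ℂ) ≤ 1 := (V.valuation_le_one_iff _).2 c.2
    have h2 : V.valuation x < 1 := hx
    exact lt_of_le_of_lt (mul_le_mul_left h1 _) (by rwa [one_mul])

lemma mem_mV {V : ValuationSubring ℂ} {x : ℂ} : x ∈ mV V ↔ V.valuation x < 1 := Iff.rfl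

/-- the symbol is periodic -/
lemma per {N : ℕ} {nu : ℤ → ℂ} {Q : OnePoint ℚ → OnePoint ℚ → ℂ} (h : IsSym N nu Q)
    (h1 : nu 1 = 1) (r : ℚ) (k : ℤ) :
    Q ∞ ((r + k : ℚ) : OnePoint ℚ) = Q ∞ (r : OnePoint ℚ) := by
  have := h.equiv 1 k 0 1 (by ring) (dvd_zero _) ∞ (r : OnePoint ℚ)
  rw [mob_inf, mob_tr, h1, one_mul] at this
  exact this

end NZ

open _root_.Pool.Agent.OBH.NZ in
/-- (NZ) -/
theorem to_NZ (hLOC : So_LOC) (hKYN : So_KYN) : So_NZ := by
  intro p V N₀ s₀ nu Q pi KI H α g hα hα1 hg hg1 N n₀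
  by_contra hcon
  push Not at hcon
  obtain ⟨k, hk⟩ := H.bdd
  have hp0 : (p : ℚ) ≠ 0 := Nat.cast_ne_zero.mpr H.pp.ne_zero
  let z : ℕ → ℤ → ℂ := fun n b => Q ∞ (((b : ℚ) / (p : ℚ) ^ n : ℚ) : OnePoint ℚ)
  have hzper : ∀ (n : ℕ) (b c : ℤ), (p : ℤ) ^ n ∣ b - c → z n b = z n c := by
    rintro n b c ⟨t, ht⟩
    have e : ((b : ℚ) / (p : ℚ) ^ n : ℚ) = (c : ℚ) / (p : ℚ) ^ n + t := by
      have h3 : ((p : ℚ) ^ n) ≠ 0 := pow_ne_zero _ hp0
      have : (b : ℚ) = c + (p : ℚ) ^ n * t := by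
        have : (b : ℤ) = c + (p : ℤ) ^ n * t := by linear_combination ht
        exact_mod_cast this
      rw [this]
      field_simp
    change Q ∞ (((b : ℚ) / (p : ℚ) ^ n : ℚ) : OnePoint ℚ) =
      Q ∞ (((c : ℚ) / (p : ℚ) ^ n : ℚ) : OnePoint ℚ)
    rw [e]
    exact per H.sym H.nu1 _ t
  have hz3 : ∀ n b, (p : ℂ) ^ (k + 1) * z n b ∈ mV V := by
    intro n b
    rw [mem_mV]
    have e : (p : ℂ) ^ (k + 1) * z n b = p * ((p : ℂ) ^ k * z n b) := by ring
    rw [e, map_mul]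
    exact mul_lt_one_of_lt_of_le H.vp (hk _ _)
  have hall : ∀ n, n₀ ≤ n → ∀ b : ℤ, ¬ (p : ℤ) ∣ b → comb α g N (z n) b ∈ mV V :=
    fun n hn b hb => mem_mV.mpr (hcon n hn b hb)
  obtain ⟨r, hr⟩ := hLOC p H.pp H.p2 V H.vp (mV V) z (k + 1) n₀ hzper hz3 α g hα hα1 hg hg1 N hall
  -- pass to the level `2 N₀`
  have hN0 : N₀ ≠ 0 := H.N0
  have hN2 : 2 ≤ 2 * N₀ := by omega
  have hcop2 : Nat.Coprime p (2 * N₀) := by
    refine Nat.Coprime.mul_right ?_ H.cop
    exact (Nat.coprime_primes H.pp Nat.prime_two).mpr H.p2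
  have hdvN : ((p * N₀ : ℕ) : ℤ) ∣ ((p * (2 * N₀) : ℕ) : ℤ) :=
    Int.natCast_dvd_natCast.2 ⟨2, by ring⟩
  have hper2 : ∀ d d', ((p * (2 * N₀) : ℕ) : ℤ) ∣ d - d' → nu d = nu d' :=
    fun d d' h => H.nuper d d' (hdvN.trans h)
  have hnuv2 : ∀ d, IsCoprime d ((p * (2 * N₀) : ℕ) : ℤ) → V.valuation (nu d) = 1 := by
    intro d hd
    have hd' : IsCoprime d ((p * N₀ : ℕ) : ℤ) := hd.of_isCoprime_of_dvd_right hdvN
    obtain ⟨a, b, hab⟩ := hd'
    have h1 : nu (d * a) = nu 1 := H.nuper _ _ ⟨-b, by linear_combination hab⟩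
    rw [H.num, H.nu1] at h1
    refine le_antisymm (H.nuv d) ?_
    have h2 : V.valuation (nu d) * V.valuation (nu a) = 1 := by
      rw [← map_mul, h1, map_one]
    calc (1 : V.ValueGroup) = V.valuation (nu d) * V.valuation (nu a) := h2.symm
      _ ≤ V.valuation (nu d) * 1 := by
        exact mul_le_mul_right (H.nuv a) _
      _ = V.valuation (nu d) := mul_one _
  have hQs2 : IsSym (p ^ (s₀ + 1) * (2 * N₀)) nu Q := by
    refine ⟨H.sym.add, fun a b c d hdet hc => H.sym.equiv a b c d hdet (dvd_trans ?_ hc)⟩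
    exact Int.natCast_dvd_natCast.2 ⟨2, by ring⟩
  obtain ⟨R, hR⟩ := hKYN p H.pp H.p2 V H.vp (mV V) (2 * N₀) s₀ nu Q hN2 hcop2 H.nu1 hper2 hnuv2
    hQs2 r n₀ hr
  obtain ⟨a, b, c, d, hdet, hc, hd, hv⟩ := H.G (p ^ (R + (s₀ + 1)) * (2 * N₀))
    (mul_ne_zero (pow_ne_zero _ H.pp.ne_zero) (by omega))
    (mul_dvd_mul (pow_dvd_pow p (Nat.le_add_left _ _)) (Dvd.intro_left _ rfl))
  have hdvd : (p : ℤ) ^ R * ((2 * N₀ : ℕ) : ℤ) ∣ ((p ^ (R + (s₀ + 1)) * (2 * N₀) : ℕ) : ℤ) := by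
    push_cast
    exact mul_dvd_mul_right (pow_dvd_pow _ (Nat.le_add_right _ _)) _
  have h1 := hR a b c d hdet (hdvd.trans hc) (hdvd.trans hd) ∞
  rw [mem_mV] at h1
  -- the type of the values of `PT Q`
  obtain ⟨w1, hw1, e1⟩ := H.typ ∞ (mob a b c d ∞)
  obtain ⟨w2, hw2, e2⟩ := H.typ (mob ((p : ℤ) ^ 3) 1 0 ((p : ℤ) ^ 3) ∞)
    (mob ((p : ℤ) ^ 3) 1 0 ((p : ℤ) ^ 3) (mob a b c d ∞))
  have e3 : PT p Q ∞ (mob a b c d ∞) = pi * (w1 - w2) := by
    unfold PT
    rw [e1, e2]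
    ring
  rw [e3] at h1 hv
  exact absurd h1 (not_lt.2 (H.gap (w1 - w2) (sub_mem hw1 hw2) hv))

end

end Pool.Agent.OBH


end

section

/-!
# OB, block H, module PRT (helper45): Theorem G is inherited by a part of the symbol
-/

set_option autoImplicit false

namespace Pool.Agent.OBH

open _root_.MU3 Pool.Agent.MuSym Pool.Agent.MUXH OnePoint

noncomputable section

namespace PRT

/-- conjugation of a matrix by the translation by `a / D` -/
theorem conj_mob (D a α γ' : ℤ) (hD : D ≠ 0) (β β' δ δ' : ℤ) :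
    mob D a 0 D (mob α β (D ^ 2 * γ') δ ∞) = mob (α + a * D * γ') β' (D ^ 2 * γ') δ' ∞ := by
  have hD' : (D : ℚ) ≠ 0 := by exact_mod_cast hD
  by_cases hg : γ' = 0
  · subst hg
    simp [mob]
  · have hg' : (γ' : ℚ) ≠ 0 := by exact_mod_cast hg
    have h1 : D ^ 2 * γ' ≠ 0 := mul_ne_zero (pow_ne_zero _ hD) hg
    have e1 : mob α β (D ^ 2 * γ') δ ∞ = (((α : ℚ) / ((D ^ 2 * γ' : ℤ) : ℚ) : ℚ) : OnePoint ℚ) := by
      show (if D ^ 2 * γ' = 0 then ∞ else (((α : ℚ) / ((D ^ 2 * γ' : ℤ) : ℚ) : ℚ) : OnePoint ℚ)) = _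
      rw [if_neg h1]
    have e2 : mob (α + a * D * γ') β' (D ^ 2 * γ') δ' ∞ =
        ((((α + a * D * γ' : ℤ) : ℚ) / ((D ^ 2 * γ' : ℤ) : ℚ) : ℚ) : OnePoint ℚ) := by
      show (if D ^ 2 * γ' = 0 then ∞ else
        ((((α + a * D * γ' : ℤ) : ℚ) / ((D ^ 2 * γ' : ℤ) : ℚ) : ℚ) : OnePoint ℚ)) = _
      rw [if_neg h1]
    have e3 : ∀ r : ℚ, mob D a 0 D (r : OnePoint ℚ) =
        ((((D : ℚ) * r + a) / (((0 : ℤ) : ℚ) * r + D) : ℚ) : OnePoint ℚ) := by
      intro r
      show (if ((0 : ℤ) : ℚ) * r + (D : ℚ) = 0 then ∞ else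
        ((((D : ℚ) * r + a) / (((0 : ℤ) : ℚ) * r + D) : ℚ) : OnePoint ℚ)) = _
      rw [if_neg (by simpa using hD')]
    rw [e1, e2, e3]
    congr 1
    push_cast
    field_simp
    ring

theorem mob_inf (D a : ℤ) : mob D a 0 D ∞ = ∞ := by
  simp [mob]

theorem mob_tr (D a : ℤ) (hD : D ≠ 0) (r : ℚ) :
    mob D a 0 D (r : OnePoint ℚ) = ((r + (a : ℚ) / D : ℚ) : OnePoint ℚ) := by
  have hD' : (D : ℚ) ≠ 0 := by exact_mod_cast hD
  have h1 : mob D a 0 D (r : OnePoint ℚ) =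
      ((((D : ℚ) * r + a) / (((0 : ℤ) : ℚ) * r + D) : ℚ) : OnePoint ℚ) := by
    show (if ((0 : ℤ) : ℚ) * r + (D : ℚ) = 0 then ∞ else
      ((((D : ℚ) * r + a) / (((0 : ℤ) : ℚ) * r + D) : ℚ) : OnePoint ℚ)) = _
    rw [if_neg (by simpa using hD')]
  have h2 : ((0 : ℤ) : ℚ) * r + (D : ℚ) = D := by simp
  rw [h1, h2]
  congr 1
  rw [add_div, mul_div_cancel_left₀ r hD']

/-- translations commute on cusps -/
theorem mob_comm (D a D' a' : ℤ) (hD : D ≠ 0) (hD' : D' ≠ 0) (x : OnePoint ℚ) :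
    mob D a 0 D (mob D' a' 0 D' x) = mob D' a' 0 D' (mob D a 0 D x) := by
  induction x using OnePoint.rec with
  | infty => rw [mob_inf, mob_inf, mob_inf]
  | coe r =>
    rw [mob_tr D' a' hD', mob_tr D a hD, mob_tr D a hD, mob_tr D' a' hD']
    congr 1
    ring

end PRT

open _root_.Pool.Agent.OBH.PRT in
theorem to_PRT : So_PRT := by
  intro p hp V hvp N₁ W P Q q c hq hW hc hprj hG N' hN' hdvd
  by_contra hcon
  push Not at hcon
  obtain ⟨M, hM⟩ : ∃ M : ℕ, M = N' := ⟨_, rfl⟩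
  rw [← hM] at hcon hN' hdvd
  obtain ⟨D, hD⟩ : ∃ D : ℤ, D = (q : ℤ) := ⟨_, rfl⟩
  have hD0 : D ≠ 0 := by rw [hD]; exact_mod_cast hq
  obtain ⟨α, β, γ, δ, h1, h2, h3, h4⟩ := hG (M * q ^ 2) (mul_ne_zero hN' (pow_ne_zero _ hq))
    (Dvd.dvd.mul_right hdvd _)
  have hcast : ((M * q ^ 2 : ℕ) : ℤ) = M * D ^ 2 := by
    push_cast
    rw [hD]
  rw [hcast] at h2 h3
  obtain ⟨u, hu⟩ := h2
  obtain ⟨t, ht⟩ := h3
  have hterm : ∀ k ∈ Finset.range q, V.valuation (c k *
      PT p Q (mob q k 0 q ∞) (mob q k 0 q (mob α β γ δ ∞))) ^ W <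
        V.valuation (p : ℂ) := by
    intro k _
    have e1 : γ = D ^ 2 * (M * u) := by rw [hu]; ring
    have e2 : mob D k 0 D (mob α β γ δ ∞) =
        mob (α + k * D * (M * u)) (β + k * D * M * (t - (β * u - α * t)) - k ^ 2 * (M * u))
          (D ^ 2 * (M * u)) (δ - k * D * (M * u)) ∞ := by
      rw [e1]
      exact conj_mob D k α (M * u) hD0 _ _ _ _
    have hδ2 : δ = 1 + M * D ^ 2 * t := by linarith
    have hα2 : α = 1 + M * D ^ 2 * (β * u - α * t) := by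
      have h5 : α = 1 + β * γ - α * (δ - 1) := by linarith
      rw [ht, hu] at h5
      linarith
    rw [← hD, e2, mob_inf, map_mul]
    have h5 := hcon (α + k * D * (M * u))
      (β + k * D * M * (t - (β * u - α * t)) - k ^ 2 * (M * u))
      (D ^ 2 * (M * u)) (δ - k * D * (M * u)) ?_ ?_ ?_
    · refine lt_of_le_of_lt (pow_le_pow_left₀ zero_le (mul_le_of_le_one_left' (hc k)) W) h5
    · have e3 : δ - α = M * D ^ 2 * (t - (β * u - α * t)) := by linarith
      have e4 : α * δ - β * (D ^ 2 * (M * u)) = 1 := by rw [← e1]; exact h1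
      linear_combination e4 + (k * D * (M * u)) * e3
    · exact Dvd.intro_left (D ^ 2 * u) (by ring)
    · refine ⟨D ^ 2 * t - k * D * u, ?_⟩
      rw [hδ2]
      ring
  have hp0 : (p : ℂ) ≠ 0 := by exact_mod_cast hp.ne_zero
  have h3pos : (0 : V.ValueGroup) < V.valuation (p : ℂ) :=
    lt_of_le_of_ne zero_le ((Valuation.ne_zero_iff _).2 hp0).symm
  have hsum : V.valuation (∑ k ∈ Finset.range q, c k *
      PT p Q (mob q k 0 q ∞) (mob q k 0 q (mob α β γ δ ∞))) ^ W <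
        V.valuation (p : ℂ) := by
    refine Finset.sum_induction _ (fun x => V.valuation x ^ W < V.valuation (p : ℂ)) ?_ ?_ hterm
    · intro x y hx hy
      have h := V.valuation.map_add x y
      rcases le_total (V.valuation x) (V.valuation y) with hxy | hxy
      · rw [max_eq_right hxy] at h
        exact lt_of_le_of_lt (pow_le_pow_left₀ zero_le h W) hy
      · rw [max_eq_left hxy] at h
        exact lt_of_le_of_lt (pow_le_pow_left₀ zero_le h W) hx
    · show V.valuation 0 ^ W < _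
      rw [map_zero, zero_pow hW]
      exact h3pos
  have hq0 : (q : ℤ) ≠ 0 := by exact_mod_cast hq
  have hp3 : ((p : ℤ) ^ 3) ≠ 0 := pow_ne_zero _ (by exact_mod_cast hp.ne_zero)
  have hPT : PT p P ∞ (mob α β γ δ ∞) = ∑ k ∈ Finset.range q, c k *
      PT p Q (mob q k 0 q ∞) (mob q k 0 q (mob α β γ δ ∞)) := by
    unfold PT
    rw [← hprj ∞ (mob α β γ δ ∞), ← hprj (mob ((p : ℤ) ^ 3) 1 0 ((p : ℤ) ^ 3) ∞)
      (mob ((p : ℤ) ^ 3) 1 0 ((p : ℤ) ^ 3) (mob α β γ δ ∞)), ← Finset.sum_sub_distrib]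
    refine Finset.sum_congr rfl fun k _ => ?_
    rw [mob_comm q k ((p : ℤ) ^ 3) 1 hq0 hp3 ∞,
      mob_comm q k ((p : ℤ) ^ 3) 1 hq0 hp3 (mob α β γ δ ∞), mul_sub]
  rw [← hPT] at hsum
  exact absurd h4 (not_le.2 hsum)

end

end Pool.Agent.OBH


end

section

/-!
# OB, block H, bridge, module CHR: the nebentypus (helper65; adapted from `chrN` in `NS/H_Chn.lean`)
-/

set_option autoImplicit false

namespace Pool.Agent.OBH

open _root_.MU3 _root_.Pool.Agent.MU3A _root_.Pool.Agent.MU3B _root_.Pool.Agent.MU3F _root_.Pool.Agent.MUX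
  _root_.Pool.Agent.MUXH _root_.Pool.Agent.MUXHY _root_.Pool.Agent.MuSym _root_.Pool.Agent.OB OnePoint

noncomputable section

theorem to_CHR (h1 : So_VAL) : So_CHR := by
  intro p er A B P V f H e he r hr0 hr
  obtain ⟨-, vZ, -, vru, hDpos, hgD, hg0, -, hpf, -, -, -, hDN, hfN⟩ := h1 p er A B P V f H
  have hcq : CQ A B := H.cq
  have ev : ∀ x, V.valuation (e x) ≤ 1 := by
    intro x
    by_cases hx : e x = 0
    · rw [hx, map_zero]
      exact zero_le_one
    · exact (vru r (e x) hr0 (hr x hx)).le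
  have hcopD : ∀ d : ℤ, e (d : OO A B) ≠ 0 → IsCoprime d (absD A B) := by
    intro d hd
    have h5 := (he.supp _).1 hd
    apply Chr.coprime_int (A := A) (B := B)
    rw [← Ideal.isCoprime_span_singleton_iff]
    rw [Ideal.isCoprime_iff_sup_eq] at h5 ⊢
    exact top_le_iff.1 (h5 ▸ sup_le_sup_left hgD _)
  refine ⟨?_, ?_, ?_, ?_⟩
  · unfold nuX
    have : ((1 : ℤ) : OO A B) = 1 := by push_cast; rfl
    rw [Chr.chiX_one, this, he.one]
    norm_num
  · intro d d'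
    unfold nuX
    have : ((d * d' : ℤ) : OO A B) = (d : OO A B) * (d' : OO A B) := by push_cast; rfl
    rw [Chr.chiX_mul, this, he.mul]
    push_cast
    ring
  · intro d d' hd
    have hD : absD A B ∣ d - d' := hDN.trans hd
    obtain ⟨t, ht⟩ := hfN.trans hd
    unfold nuX
    by_cases hcop : IsCoprime d (absD A B)
    · have h5 : chiX A B d' = chiX A B d :=
        ((MUXF.tx_CHI A B (toCQ hcq) d hcop).2.2 d' hD)
      have h6 : e (d : OO A B) = e (d' : OO A B) := by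
        apply he.per
        have h7 : (d : OO A B) - (d' : OO A B) =
            ((t : ℤ) : OO A B) * ((p * f : ℕ) : OO A B) := by
          have h8 : (d : OO A B) - (d' : OO A B) = ((d - d' : ℤ) : OO A B) := by push_cast; rfl
          rw [h8, ht]
          push_cast
          ring
        rw [h7]
        exact Ideal.mul_mem_left _ _ hpf
      rw [h5, h6]
    · have h5 : e (d : OO A B) = 0 := by
        by_contra hne
        exact hcop (hcopD d hne)
      have h6 : e (d' : OO A B) = 0 := by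
        by_contra hne
        apply hcop
        obtain ⟨s, hs⟩ := hD
        have h7 : d = d' + absD A B * s := by linarith
        rw [h7]
        exact (IsCoprime.add_mul_left_left_iff).2 (hcopD d' hne)
      rw [h5, h6, mul_zero, mul_zero]
  · intro d
    unfold nuX
    rw [map_mul]
    exact mul_le_one' (vZ _) (ev _)

end

end Pool.Agent.OBH


end

section

/-!
# OB, block H, bridge: the hypotheses of the abstract part for `er = 1` (`So_HQ1`) (helper51)

Adapted from `HB_HQ2.lean` (helper98) and `hypN` in `Pool/Agent/NS/H_Hfin.lean`.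
-/

set_option autoImplicit false

namespace Pool.Agent.OBH

open _root_.MU3 _root_.Pool.Agent.MU3A _root_.Pool.Agent.MU3B _root_.Pool.Agent.MU3F _root_.Pool.Agent.MUX
  _root_.Pool.Agent.MUXH _root_.Pool.Agent.MUXHY _root_.Pool.Agent.MuSym _root_.Pool.Agent.OB OnePoint

noncomputable section

theorem to_HQ1 (hT : O_TYF) (hG : O_GPT) (h1 : So_RAM) (h2 : So_VAL) (h3 : So_CHR) (h4 : So_DEP)
    (h5 : So_PJ1) (h6 : So_SAF) (h7 : So_UAL) (h8 : So_BDN) (h9 : So_HKN) (h10 : So_TYP)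
    (h11 : So_PRT) : So_HQ1 := by
  intro p A B P V f hS hTor ι _ R u el lam hg w hw e he r hrp her i hi1 hi2 hty s hs kk hkk
  have hpp : p.Prime := hS.pp
  have hp5 : 5 ≤ p := hS.p5
  obtain ⟨vp, vZ, v1, vr, D0, -, gb, gt, hpf, hN, hNne, hcop, -, -⟩ := h2 p 1 A B P V f hS
  obtain ⟨hnP, -, -⟩ := h1 p 1 A B P V hS.toCaseO
  have hr0 : r ≠ 0 := by
    rintro rfl
    exact hrp (dvd_zero p)
  have hnI5 : 5 ≤ nI P ∧ nI P ≤ p ^ 2 := by
    have h12 : p ≤ p ^ 2 := by nlinarith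
    rcases hnP with h | h
    · rw [h]; exact ⟨hp5, h12⟩
    · rw [h]; exact ⟨hp5.trans h12, le_refl _⟩
  obtain ⟨nu1, num, nuper, nuv⟩ := h3 p 1 A B P V f hS e he r hr0 her
  have hk0 : ∀ j, kk j = 0 ∨ kk j ^ r = 1 := fun j => Or.inr (hkk j)
  obtain ⟨pi, KI, typ, -, unr, vpi⟩ := hT p 1 A B P V f hS hTor ι R u el lam hg w hw e he r hrp
    her i hty kk hk0 kk hk0
  have hua : IsAlgebraic ℚ u := h7 A B hS.cq hTor (p * f) ι R V u el lam hg
  obtain ⟨sym, alg, T, fin⟩ := h6 p 1 A B P V f hS hTor ι R e he r hr0 her kk hk0 u hg.u0 hua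
  have hsA : IsAlgebraic ℚ ((s : ℤ) : ℂ) := isAlgebraic_intCast s
  have hsK : ((s : ℤ) : ℂ) ∈ KI := intCast_mem KI s
  set Φ : OnePoint ℚ → OnePoint ℚ → ℂ := fun x y => PhiK R e kk x y / (u * R.om R.i0) with hΦ
  have hQ : ∀ x y, sgnPart ((s : ℤ) : ℂ) Φ x y =
      Φ x y + ((s : ℤ) : ℂ) * Φ (mob (-1) 0 0 1 x) (mob (-1) 0 0 1 y) := fun x y => rfl
  have halg : ∀ x y, IsAlgebraic ℚ (sgnPart ((s : ℤ) : ℂ) Φ x y) := by
    intro x y
    rw [hQ]
    exact (alg x y).add (hsA.mul (alg _ _))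
  have hfin : ∃ T : Finset ℂ, ∀ x y, sgnPart ((s : ℤ) : ℂ) Φ x y ∈
      AddSubgroup.closure (T : Set ℂ) := by
    refine ⟨T, fun x y => ?_⟩
    rw [hQ]
    refine add_mem (fin x y) ?_
    rw [← zsmul_eq_mul]
    exact zsmul_mem (fin _ _) s
  have hdep : ∀ x : ℚ, ∑ j ∈ Finset.range p, Φ ∞ (((x + j) / p : ℚ) : OnePoint ℚ) = 0 := by
    intro x
    simp only [hΦ]
    unfold PhiK
    rw [← Finset.sum_div, Finset.sum_comm]
    have h12 : ∀ c, ∑ j ∈ Finset.range p, kk c * PhiI (R.b c) e ∞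
        (((x + j) / p : ℚ) : OnePoint ℚ) = 0 := by
      intro c
      rw [← Finset.mul_sum, h4 p 1 A B P V f hS e he (R.b c) (R.nl c).b_ne x, mul_zero]
    rw [Finset.sum_eq_zero fun c _ => h12 c, zero_div]
  obtain ⟨hsym, -, hdepQ⟩ := h9 p hpp _ (nuX e) Φ ((s : ℤ) : ℂ) sym nu1 hdep
  have hpi0 : pi ≠ 0 := by
    rintro rfl
    have h12 : 1 * (nI P - 1) ≠ 0 := by omega
    rw [map_zero, zero_pow h12, zero_mul] at vpi
    exact zero_ne_one vpi
  have hgap := h10 p hpp V vp KI 1 (nI P - 1) i le_rfl (by omega) (by rw [one_mul]; exact hi1)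
    (by
      have h12 : nI P - 1 < p ^ 2 := by omega
      have h13 : 1 ≤ p - 1 := by omega
      calc 1 * (nI P - 1) = nI P - 1 := one_mul _
        _ < p ^ 2 := h12
        _ = 1 * p ^ 2 := (one_mul _).symm
        _ ≤ (p - 1) * p ^ 2 := Nat.mul_le_mul_right _ h13) unr pi vpi
  refine ⟨pi, KI, ?_, hdepQ, fun w hw hw1 => ?_, ?_⟩
  · exact
      { pp := hpp
        p2 := by omega
        vp := vp
        N0 := hNne
        cop := hcop
        nu1 := nu1
        num := num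
        nuper := nuper
        nuv := nuv
        sym := hsym
        bdd := h8 p hpp V vp _ halg hfin
        pi0 := hpi0
        typ := by
          intro x y
          obtain ⟨a, ha, ha1⟩ := typ x y
          obtain ⟨b, hb, hb1⟩ := typ (mob (-1) 0 0 1 x) (mob (-1) 0 0 1 y)
          refine ⟨a + (s : ℂ) * b, KI.add_mem ha (KI.mul_mem hsK hb), ?_⟩
          rw [hQ]
          simp only [hΦ]
          rw [ha1, hb1]
          ring
        gap := fun a ha => (hgap a ha).1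
        G := by
          obtain ⟨q, c, hq, hc, hsum⟩ := h5 p A B P V f hS ι R e he kk (u * R.om R.i0)
            ((s : ℤ) : ℂ)
          have hM : (p - 1) * p ^ 2 ≠ 0 := by
            have h12 : p - 1 ≠ 0 := by omega
            exact mul_ne_zero h12 (pow_ne_zero _ hpp.ne_zero)
          refine h11 p hpp V vp (p ^ (1 + 1) * N0O p 1 A B f) ((p - 1) * p ^ 2) Φ
            (sgnPart ((s : ℤ) : ℂ) Φ) q c hq hM hc hsum ?_
          intro N' hN' hd
          refine hG p 1 A B P V f hS hTor ι R u el lam hg e he r hr0 her kk ?_ N' hN' ?_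
          · exact vr r _ hr0 (hkk _)
          · rw [← hN]
            exact_mod_cast hd }
  · have h12 := unr w hw hw1
    rwa [pow_one] at h12
  · rw [one_mul] at vpi
    exact vpi

end

end Pool.Agent.OBH


end

section

/-!
# OB, block H, bridge, module PJ1 (helper34): the projector, `p` unramified

Adapted from `Pool/Agent/NS/H_Prn.lean` (helper6).
-/

set_option autoImplicit false

namespace Pool.Agent.OBH

open _root_.MU3 _root_.Pool.Agent.MU3A _root_.Pool.Agent.MU3B _root_.Pool.Agent.MU3F _root_.Pool.Agent.MUX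
  _root_.Pool.Agent.MUXH _root_.Pool.Agent.MUXHY _root_.Pool.Agent.MuSym _root_.Pool.Agent.OB OnePoint

noncomputable section

namespace PJ1

lemma sgn_PK {A B : ℤ} {n : ℕ} {ι : Type} [Fintype ι] (R : Reps A B n ι) (e : OO A B → ℂ)
    (kk : ι → ℂ) (Z s : ℂ) (x y : OnePoint ℚ) :
    sgnPart s (fun x y => PhiK R e kk x y / Z) x y =
      (∑ c, kk c * sgnPart s (PhiI (R.b c) e) x y) / Z := by
  unfold sgnPart PhiK
  rw [← mul_div_assoc, ← add_div, Finset.mul_sum, ← Finset.sum_add_distrib]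
  congr 1
  refine Finset.sum_congr rfl fun c _ => ?_
  ring

end PJ1

open _root_.Pool.Agent.OBH.PJ1 in
/-- (PJ1) -/
theorem to_PJ1 (h1 : So_VAL) (h2 : So_RAM) : So_PJ1 := by
  intro p A B P V f hS ι _ R e he kk Z s
  obtain ⟨-, -, hv1, hr, hD, hgD, hg, -, -, -, -, -, -, -⟩ := h1 p 1 A B P V f hS
  have hDp : ¬ (p : ℤ) ∣ absD A B := (h2 p 1 A B P V hS.toCaseO).2.1 rfl
  obtain ⟨φ, hφ, hper, hφ2⟩ := MUXF.xf_PHX A B (toCQ hS.cq)
  have hqD : (((absD A B).toNat : ℕ) : ℤ) = absD A B := Int.toNat_of_nonneg hD.le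
  have hq : (absD A B).toNat ≠ 0 := by omega
  have hv : V.valuation (((absD A B).toNat : ℕ) : ℂ) = 1 := by
    have h5 : (((absD A B).toNat : ℕ) : ℂ) = ((absD A B : ℤ) : ℂ) := by
      rw [← Int.cast_natCast (R := ℂ) (absD A B).toNat, hqD]
    rw [h5]
    exact hv1 _ hDp
  refine ⟨(absD A B).toNat, fun t => (1 / ((absD A B).toNat : ℂ)) *
    ∑ n ∈ Finset.range (absD A B).toNat, φ n * ex (-(t * n) / (absD A B).toNat), hq,
    fun t => Prx.val_le V hr _ hq hv φ hφ t, fun x y => ?_⟩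
  have key : ∀ c, ∑ t ∈ Finset.range (absD A B).toNat, ((1 / ((absD A B).toNat : ℂ)) *
      ∑ n ∈ Finset.range (absD A B).toNat, φ n * ex (-(t * n) / (absD A B).toNat)) *
      sgnPart s (PhiI (R.b c) e) (mob (absD A B).toNat t 0 (absD A B).toNat x)
        (mob (absD A B).toNat t 0 (absD A B).toNat y) = PhiI (R.b c) e x y := by
    intro c
    exact MUXF.xf_PRJ A B (toCQ hS.cq) (R.b c) _ e (R.nl c).b_ne hg (toEI he) _ φ hq
      (fun n => by rw [hqD]; exact hper n)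
      (hφ2 (R.b c) _ e (R.nl c).b_ne (toEI he) hgD) s x y
  simp only [sgn_PK]
  simp only [← mul_div_assoc]
  rw [← Finset.sum_div]
  congr 1
  simp only [Finset.mul_sum (s := (Finset.univ : Finset ι))]
  rw [Finset.sum_comm]
  unfold PhiK
  refine Finset.sum_congr rfl fun c _ => ?_
  rw [← key c, Finset.mul_sum]
  refine Finset.sum_congr rfl fun t _ => ?_
  ring

end

end Pool.Agent.OBH


end

section

/-!
# OB, block H (helper70): `So_QBO`, the exponents modulo `p`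
-/

set_option autoImplicit false

namespace Pool.Agent.OBH

open _root_.MU3 _root_.Pool.Agent.MU3A _root_.Pool.Agent.MU3B _root_.Pool.Agent.MU3F _root_.Pool.Agent.MUX
  _root_.Pool.Agent.MUXH _root_.Pool.Agent.MUXHY _root_.Pool.Agent.MuSym _root_.Pool.Agent.OB OnePoint
open _root_.Pool.Agent.MUXF (qb)

namespace QBO

variable {A B : ℤ}

lemma nm_mul' (x y : OO A B) : nm (x * y) = nm x * nm y := by
  unfold nm
  rw [QuadraticAlgebra.re_mul, QuadraticAlgebra.im_mul]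
  ring

lemma not_dvd {p f : ℕ} (hp : p.Prime) {e : OO A B → ℂ}
    (he : IsEI (idl (A := A) (B := B) (p * f)) e) {x : OO A B} (hex : e x ≠ 0) :
    ¬ (p : ℤ) ∣ nm x := by
  intro hd
  have h5 := (he.supp _).1 hex
  obtain ⟨i, hi, j, hj, hij⟩ := (Ideal.isCoprime_iff_exists).1 h5
  rw [Ideal.mem_span_singleton] at hi hj
  obtain ⟨i', hi'⟩ := hi
  obtain ⟨j', hj'⟩ := hj
  set y : OO A B := ((f : ℕ) : OO A B) * j' with hy
  have h7 : x * i' = 1 - ((p : ℕ) : OO A B) * y := by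
    rw [← hij, hi', hj', hy]
    push_cast
    ring
  have h8 : nm x * nm i' = nm (1 - ((p : ℕ) : OO A B) * y) := by rw [← h7, nm_mul']
  have h9 : nm (1 - ((p : ℕ) : OO A B) * y) =
      1 + (p : ℤ) * (-2 * y.re + p * y.re ^ 2 - B * (1 - p * y.re) * y.im - A * p * y.im ^ 2) := by
    unfold nm
    simp only [QuadraticAlgebra.re_sub, QuadraticAlgebra.im_sub, QuadraticAlgebra.re_mul,
      QuadraticAlgebra.im_mul, QuadraticAlgebra.re_natCast, QuadraticAlgebra.im_natCast,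
      QuadraticAlgebra.re_one, QuadraticAlgebra.im_one]
    ring
  have h10 : (p : ℤ) ∣ 1 := by
    have h11 : (p : ℤ) ∣ 1 + (p : ℤ) * (-2 * y.re + p * y.re ^ 2 - B * (1 - p * y.re) * y.im -
        A * p * y.im ^ 2) := by
      rw [← h9, ← h8]
      exact Dvd.dvd.mul_right hd _
    exact (Int.dvd_add_left (Dvd.intro _ rfl)).1 h11
  have h12 : p ∣ 1 := by exact_mod_cast h10
  exact hp.one_lt.ne' (Nat.dvd_one.1 h12)

lemma gcd_one {p : ℕ} (hp : p.Prime) {n : ℤ} (h : ¬ (p : ℤ) ∣ n) : n.gcd p = 1 := by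
  rw [Int.gcd_comm, Int.gcd_eq_natAbs, Int.natAbs_natCast]
  exact (Nat.Prime.coprime_iff_not_dvd hp).2 fun h1 => h (Int.natCast_dvd.2 h1)

end QBO

open _root_.Pool.Agent.OBH.QBO in
/-- (QBO) the exponents modulo `p` -/
theorem to_QBO (h : So_RAM) : So_QBO := by
  intro p er A B P V f hS e he b hb x hx hex
  have hp := hS.pp
  have hn : ¬ (p : ℤ) ∣ nm x := not_dvd hp he hex
  have hq : nm x = (nI b : ℤ) * qb b x := ((MUXF.xf_QB A B (toCQ hS.cq) b hb).1 x hx).1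
  have hq1 : ¬ (p : ℤ) ∣ qb b x := fun h1 => hn (by rw [hq]; exact Dvd.dvd.mul_left h1 _)
  have hq2 : ¬ (p : ℤ) ∣ (nI b : ℤ) := fun h1 => hn (by rw [hq]; exact Dvd.dvd.mul_right h1 _)
  refine ⟨hn, hq1, fun her => ?_⟩
  obtain ⟨-, hpD, -⟩ := (h p er A B P V hS.toCaseO).2.2 her
  obtain ⟨k, hk⟩ := hpD
  have hp5 := hS.p5
  have h4 : (4 : ℤ) * nm x = (2 * x.re + B * x.im) ^ 2 + (p : ℤ) * (k * x.im ^ 2) := by
    have h1 : absD A B = -(B ^ 2 + 4 * A) := rfl
    rw [h1] at hk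
    unfold nm
    linear_combination x.im ^ 2 * hk
  have hp4 : ¬ (p : ℤ) ∣ 4 := by
    intro h1
    have h2 := Int.le_of_dvd (by norm_num) h1
    have h3 : (5 : ℤ) ≤ p := by exact_mod_cast hp5
    omega
  have hp2 : ¬ (p : ℤ) ∣ 2 := fun h1 => hp4 (h1.trans (by norm_num))
  have hpi : Prime (p : ℤ) := Nat.prime_iff_prime_int.1 hp
  have ht : ¬ (p : ℤ) ∣ 2 * x.re + B * x.im := by
    intro h1
    have h2 : (p : ℤ) ∣ 4 * nm x := by
      rw [h4]
      exact dvd_add (Dvd.dvd.pow h1 (by norm_num)) (Dvd.intro _ rfl)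
    rcases hpi.dvd_or_dvd h2 with h3 | h3
    · exact hp4 h3
    · exact hn h3
  have hJ4 : jacobiSym 4 p = 1 := by
    have h1 := jacobiSym.sq_one' (gcd_one hp hp2)
    norm_num at h1
    exact h1
  have hJ : jacobiSym (nm x) p = 1 := by
    have h1 : jacobiSym (4 * nm x) p = 1 := by
      rw [h4, jacobiSym.mod_left, Int.add_mul_emod_self_left, ← jacobiSym.mod_left]
      exact jacobiSym.sq_one' (gcd_one hp ht)
    rw [jacobiSym.mul_left, hJ4, one_mul] at h1
    exact h1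
  refine ⟨hJ, ?_⟩
  have h6 : jacobiSym (nI b : ℤ) p * jacobiSym (qb b x) p = 1 := by
    rw [← jacobiSym.mul_left, ← hq]
    exact hJ
  have h7 : jacobiSym (nI b : ℤ) p ^ 2 = 1 := jacobiSym.sq_one (gcd_one hp hq2)
  calc jacobiSym (qb b x) p = jacobiSym (nI b : ℤ) p ^ 2 * jacobiSym (qb b x) p := by
        rw [h7, one_mul]
    _ = jacobiSym (nI b : ℤ) p * (jacobiSym (nI b : ℤ) p * jacobiSym (qb b x) p) := by ring
    _ = jacobiSym (nI b : ℤ) p := by rw [h6, mul_one]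

end Pool.Agent.OBH


end

section

/-!
# OB, block H: the norm of `P` and the discriminant (`O_RAM`), helper2
-/

set_option autoImplicit false

namespace Pool.Agent.OBH

open _root_.MU3 _root_.Pool.Agent.MU3A _root_.Pool.Agent.MU3B _root_.Pool.Agent.MUX
  _root_.Pool.Agent.OB

noncomputable section

namespace RAM

variable {A B : ℤ}

lemma card_dvd {I J : Ideal (OO A B)} (h : I ≤ J) : nI J ∣ nI I :=
  AddSubgroup.card_dvd_of_surjective (Ideal.Quotient.factor h).toAddMonoidHom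
    (Ideal.Quotient.factor_surjective h)

lemma nI_ne_one {P : Ideal (OO A B)} (hP : P ≠ ⊤) : nI P ≠ 1 := fun h1 => by
  have h2 : Subsingleton (OO A B ⧸ P) := (Nat.card_eq_one_iff_unique.1 h1).1
  exact hP (Ideal.Quotient.subsingleton_iff.1 h2)

lemma nI_idl (h : CQ A B) {n : ℕ} (hn : n ≠ 0) : nI (idl (A := A) (B := B) n) = n ^ 2 := by
  have h1 := nI_sp h (natCast_ne_zero' h hn)
  have h2 : nm ((n : ℕ) : OO A B) = (n : ℤ) ^ 2 := by
    have := nm_intCast (A := A) (B := B) (n : ℤ)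
    rwa [Int.cast_natCast] at this
  rw [h2] at h1
  rw [h1, Int.natAbs_pow, Int.natAbs_natCast]

/-- the integers in `P` -/
lemma int_mem {p : ℕ} (pp : p.Prime) {P : Ideal (OO A B)} (hP : P ≠ ⊤)
    (hp : ((p : ℕ) : OO A B) ∈ P) {n : ℤ} (hn : ((n : ℤ) : OO A B) ∈ P) : (p : ℤ) ∣ n := by
  by_contra hd
  have hc : IsCoprime (p : ℤ) n := (Prime.coprime_iff_not_dvd (Nat.prime_iff_prime_int.1 pp)).2 hd
  obtain ⟨s, t, hst⟩ := hc
  apply hP
  rw [Ideal.eq_top_iff_one]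
  have e : (1 : OO A B) = ((s : ℤ) : OO A B) * ((p : ℕ) : OO A B) +
      ((t : ℤ) : OO A B) * ((n : ℤ) : OO A B) := by
    have := congrArg (fun z : ℤ => (z : OO A B)) hst
    push_cast at this
    exact this.symm
  rw [e]
  exact add_mem (P.mul_mem_left _ hp) (P.mul_mem_left _ hn)

lemma not_sq {p : ℕ} (h : CQ A B) (pp : p.Prime) (p5 : 5 ≤ p) :
    ¬ (p : ℤ) ^ 2 ∣ absD A B := fun hd => by
  have hpi : Prime (p : ℤ) := Nat.prime_iff_prime_int.1 pp
  have hu : ¬ IsUnit (p : ℤ) := hpi.not_isUnit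
  have hd' : (p : ℤ) * p ∣ B ^ 2 + 4 * A := by
    have := (dvd_neg.2 hd)
    rw [sq] at this
    simpa [absD] using this
  rcases h.hB with hB | hB
  · have h1 := (h.fund0 hB).1
    rw [hB] at hd'
    have h2 : (p : ℤ) * p ∣ 4 * A := by
      simpa using hd'
    have hc : IsCoprime ((p : ℤ) * p) 4 := by
      have h3 : IsCoprime (p : ℤ) 4 := by
        rw [Prime.coprime_iff_not_dvd hpi]
        intro h4
        have := Int.le_of_dvd (by norm_num) h4
        omega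
      exact IsCoprime.mul_left h3 h3
    exact hu (h1 _ (hc.dvd_of_dvd_mul_left h2))
  · have h1 := h.fund1 hB
    rw [hB] at hd'
    have h2 : (p : ℤ) * p ∣ 1 + 4 * A := by
      simpa using hd'
    exact hu (h1 _ h2)

lemma del_sq (A B : ℤ) : (⟨-B, 2⟩ : OO A B) * ⟨-B, 2⟩ = ((B ^ 2 + 4 * A : ℤ) : OO A B) := by
  apply QuadraticAlgebra.ext
  · simp only [QuadraticAlgebra.re_mul, QuadraticAlgebra.re_intCast, Int.cast_id]
    ring
  · simp only [QuadraticAlgebra.im_mul, QuadraticAlgebra.im_intCast]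
    ring

lemma add_star' (x : OO A B) : x + star x = ((2 * x.re + B * x.im : ℤ) : OO A B) := by
  apply QuadraticAlgebra.ext
  · simp only [QuadraticAlgebra.re_add, QuadraticAlgebra.re_star, QuadraticAlgebra.re_intCast,
      Int.cast_id]
    ring
  · simp only [QuadraticAlgebra.im_add, QuadraticAlgebra.im_star, QuadraticAlgebra.im_intCast]
    ring

end RAM

open _root_.Pool.Agent.OBH.RAM in
theorem to_RAM : So_RAM := by
  intro p er A B P V h
  have hq := h.cq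
  have pp := h.pp
  have p5 := h.p5
  have hpi : Prime (p : ℤ) := Nat.prime_iff_prime_int.1 pp
  have hPt : P ≠ ⊤ := h.prime.ne_top
  have hp0 : ((p : ℕ) : OO A B) ≠ 0 := natCast_ne_zero' hq pp.ne_zero
  have hPb : P ≠ ⊥ := fun h0 => hp0 (by have := h.mem; rwa [h0, Ideal.mem_bot] at this)
  have hle : idl (A := A) (B := B) p ≤ P := (Ideal.span_singleton_le_iff_mem _).2 h.mem
  have hnP : nI P = p ∨ nI P = p ^ 2 := by
    have h1 := card_dvd hle
    rw [nI_idl hq pp.ne_zero, Nat.dvd_prime_pow pp] at h1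
    obtain ⟨k, hk, hk'⟩ := h1
    have h2 := nI_ne_one hPt
    interval_cases k
    · exact absurd (by simpa using hk') h2
    · exact Or.inl (by simpa using hk')
    · exact Or.inr hk'
  have hsq := not_sq hq pp p5
  refine ⟨hnP, fun her hd => ?_, fun her => ?_⟩
  · -- `er = 1`
    have hram : ((p : ℕ) : OO A B) ∉ P ^ 2 := by
      rcases h.ram with h1 | h1
      · exact h1.2
      · omega
    have hd2 : (p : ℤ) ∣ B ^ 2 + 4 * A := by
      have := dvd_neg.2 hd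
      simpa [absD] using this
    obtain ⟨D₁, hD₁⟩ := hd2
    have hnd : ¬ (p : ℤ) ∣ D₁ := by
      rintro ⟨c, hc⟩
      apply hsq
      refine ⟨-c, ?_⟩
      unfold absD
      rw [hD₁, hc]
      ring
    have hc : IsCoprime (p : ℤ) D₁ := (Prime.coprime_iff_not_dvd hpi).2 hnd
    obtain ⟨s, t, hst⟩ := hc
    have hdel : (⟨-B, 2⟩ : OO A B) ∈ P := by
      have h1 : (⟨-B, 2⟩ : OO A B) * ⟨-B, 2⟩ ∈ P := by
        rw [del_sq, hD₁]
        push_cast
        exact P.mul_mem_right _ h.mem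
      rcases h.prime.mem_or_mem h1 with h2 | h2 <;> exact h2
    have h3 : (⟨-B, 2⟩ : OO A B) * ⟨-B, 2⟩ ∈ P ^ 2 := by
      rw [sq]
      exact Ideal.mul_mem_mul hdel hdel
    have h4 : ((p : ℕ) : OO A B) * ((p : ℕ) : OO A B) ∈ P ^ 2 := by
      rw [sq]
      exact Ideal.mul_mem_mul h.mem h.mem
    apply hram
    have e : ((p : ℕ) : OO A B) = ((s : ℤ) : OO A B) * (((p : ℕ) : OO A B) * ((p : ℕ) : OO A B)) +
        ((t : ℤ) : OO A B) * ((⟨-B, 2⟩ : OO A B) * ⟨-B, 2⟩) := by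
      rw [del_sq, hD₁]
      have := congrArg (fun z : ℤ => (z : OO A B)) hst
      push_cast at this ⊢
      linear_combination -((p : ℕ) : OO A B) * this
    rw [e]
    exact add_mem (Ideal.mul_mem_left _ _ h4) (Ideal.mul_mem_left _ _ h3)
  · -- `er = 2`
    have hram : ((p : ℕ) : OO A B) ∈ P ^ 2 := by
      rcases h.ram with h1 | h1
      · omega
      · exact h1.2
    have hle2 : idl (A := A) (B := B) p ≤ P * P := by
      rw [← sq]
      exact (Ideal.span_singleton_le_iff_mem _).2 hram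
    have hn : nI P = p := by
      rcases hnP with h1 | h1
      · exact h1
      · exfalso
        have h2 := card_dvd hle2
        rw [nI_mul hq hPb hPb, h1, nI_idl hq pp.ne_zero] at h2
        have h3 : 0 < p ^ 2 := pow_pos pp.pos 2
        have h4 := Nat.le_of_dvd h3 h2
        have h5 : 1 < p ^ 2 := Nat.one_lt_pow (by norm_num) pp.one_lt
        nlinarith
    have hmul : P * cjI P = idl p := by
      rw [mul_cjI hq hPb, hn]
    have hcj : cjI P ≤ P := by
      rw [← mul_le_mul_iff hq hPb, hmul]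
      exact hle2
    have hstar : ∀ x ∈ P, star x ∈ P := by
      intro x hx
      apply hcj
      change starRingEnd (OO A B) (star x) ∈ P
      rw [starRingEnd_apply, star_star]
      exact hx
    have hP2 : P * P ≤ idl p := by
      rw [← hmul, mul_le_mul_iff hq hPb]
      intro x hx
      change starRingEnd (OO A B) x ∈ P
      rw [starRingEnd_apply]
      exact hstar x hx
    obtain ⟨x, hxP, hxp⟩ : ∃ x ∈ P, x ∉ idl (A := A) (B := B) p := by
      by_contra hcon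
      push Not at hcon
      apply hPt
      have h1 : P * ⊤ ≤ P * P := by
        rw [Ideal.mul_top]
        exact le_trans (fun x hx => hcon x hx) hle2
      exact top_le_iff.1 ((mul_le_mul_iff hq hPb).1 h1)
    have htr : (p : ℤ) ∣ 2 * x.re + B * x.im := by
      apply int_mem pp hPt h.mem
      rw [← add_star']
      exact add_mem hxP (hstar x hxP)
    have hnm : (p : ℤ) ∣ nm x := by
      apply int_mem pp hPt h.mem
      rw [← mul_star]
      exact P.mul_mem_right _ hxP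
    refine ⟨hn, ?_, hsq⟩
    have hid : (B ^ 2 + 4 * A) * x.im ^ 2 = (2 * x.re + B * x.im) ^ 2 - 4 * nm x := by
      unfold nm
      ring
    have h6 : (p : ℤ) ∣ (B ^ 2 + 4 * A) * x.im ^ 2 := by
      rw [hid]
      exact dvd_sub (dvd_pow htr (by norm_num)) (Dvd.dvd.mul_left hnm 4)
    rcases hpi.dvd_or_dvd h6 with h7 | h7
    · have := dvd_neg.2 h7
      exact this
    · exfalso
      have him : (p : ℤ) ∣ x.im := hpi.dvd_of_dvd_pow h7
      have h8 : (p : ℤ) ∣ 2 * x.re := by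
        have := dvd_sub htr (Dvd.dvd.mul_left him B)
        have e : 2 * x.re + B * x.im - B * x.im = 2 * x.re := by ring
        rwa [e] at this
      have hre : (p : ℤ) ∣ x.re := by
        rcases hpi.dvd_or_dvd h8 with h9 | h9
        · exfalso
          have := Int.le_of_dvd (by norm_num) h9
          omega
        · exact h9
      obtain ⟨a, ha⟩ := hre
      obtain ⟨b, hb⟩ := him
      apply hxp
      rw [Ideal.mem_span_singleton']
      refine ⟨⟨a, b⟩, ?_⟩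
      have e1 : ((p : ℕ) : OO A B) = ((p : ℤ) : OO A B) := (Int.cast_natCast p).symm
      rw [e1]
      apply QuadraticAlgebra.ext
      · simp only [QuadraticAlgebra.re_mul, QuadraticAlgebra.re_intCast,
          QuadraticAlgebra.im_intCast, Int.cast_id]
        rw [ha]
        ring
      · simp only [QuadraticAlgebra.im_mul, QuadraticAlgebra.re_intCast,
          QuadraticAlgebra.im_intCast, Int.cast_id]
        rw [hb]
        ring

end

end Pool.Agent.OBH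


end

section

/-!
# OB, block H, bridge, module REL (helper52): the relation for `QR`
-/

set_option autoImplicit false

namespace Pool.Agent.OBH

open _root_.MU3 _root_.Pool.Agent.MU3A _root_.Pool.Agent.MU3B _root_.Pool.Agent.MU3F _root_.Pool.Agent.MUX
  _root_.Pool.Agent.MUXH _root_.Pool.Agent.MUXHY _root_.Pool.Agent.MuSym _root_.Pool.Agent.OB OnePoint
open _root_.Pool.Agent.MUXF (qb)

noncomputable section

namespace REL

theorem mob_neg (y : ℚ) : mob (-1) 0 0 1 (y : OnePoint ℚ) = ((-y : ℚ) : OnePoint ℚ) := by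
  unfold mob
  rw [OnePoint.elim_some]
  simp

theorem mob_inf : mob (-1) 0 0 1 (∞ : OnePoint ℚ) = ∞ := by
  unfold mob
  rw [OnePoint.elim_infty]
  simp

end REL

theorem to_REL (h1 : So_QBO) (h2 : So_SHJ) (h3 : So_VAL) : So_REL := by
  intro p A B P V f hS ι _ R e hE kk s u x
  set G : ℂ := ∑ j ∈ Finset.range p, (jacobiSym (j : ℤ) p : ℂ) *
    Complex.exp (2 * Real.pi * Complex.I / p) ^ j with hG
  obtain ⟨-, -, -, -, -, -, hg, -⟩ := h3 p 2 A B P V f hS
  have hb : ∀ i, R.b i ≠ ⊥ := fun i => (R.nl i).b_ne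
  have hp2 : p ≠ 2 := by
    have := hS.p5
    omega
  have hq : ∀ i, ∀ y ∈ R.b i, e y ≠ 0 → jacobiSym (qb (R.b i) y) p =
      jacobiSym (nI (R.b i) : ℤ) p := fun i y hy he =>
    ((h1 p 2 A B P V f hS e hE (R.b i) (hb i) y hy he).2.2 rfl).2
  have hA : ∀ i, kkJ p R kk 1 i * ∑ j ∈ Finset.range p, (jacobiSym (j : ℤ) p : ℂ) *
      PhiI (R.b i) e ∞ ((x + (j : ℚ) / p : ℚ) : OnePoint ℚ) =
      kkJ p R kk 1 i * (G * PhiI (R.b i) e ∞ (x : OnePoint ℚ)) := by
    intro i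
    by_cases hi : jacobiSym (1 * (nI (R.b i) : ℤ)) p = 1
    · rw [one_mul] at hi
      have h4 := (h2 p hS.pp hp2 A B hS.cq (R.b i) _ e (hb i) hg hE
        (jacobiSym (nI (R.b i) : ℤ) p) (by rw [hi]; exact one_ne_zero) (hq i) x).1
      rw [h4, hi, Int.cast_one, one_mul]
    · unfold kkJ
      rw [if_neg hi, zero_mul, zero_mul]
  have hB : ∀ i, kkJ p R kk (-1) i * ∑ j ∈ Finset.range p, (jacobiSym (j : ℤ) p : ℂ) *
      PhiI (R.b i) e ∞ ((-x - (j : ℚ) / p : ℚ) : OnePoint ℚ) =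
      kkJ p R kk (-1) i * (G * PhiI (R.b i) e ∞ ((-x : ℚ) : OnePoint ℚ)) := by
    intro i
    by_cases hi : jacobiSym (-1 * (nI (R.b i) : ℤ)) p = 1
    · rw [jacobiSym.mul_left] at hi
      have ht : jacobiSym (nI (R.b i) : ℤ) p ≠ 0 := by
        intro h
        rw [h, mul_zero] at hi
        exact zero_ne_one hi
      have h4 := (h2 p hS.pp hp2 A B hS.cq (R.b i) _ e (hb i) hg hE
        (jacobiSym (nI (R.b i) : ℤ) p) ht (hq i) (-x)).2
      have h5 : (jacobiSym (-1) p : ℂ) * (jacobiSym (nI (R.b i) : ℤ) p : ℂ) = 1 := by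
        exact_mod_cast hi
      rw [h4, h5, one_mul]
    · unfold kkJ
      rw [if_neg hi, zero_mul, zero_mul]
  unfold QR PhiK
  simp only [REL.mob_neg, REL.mob_inf]
  have e1 : ∀ j : ℕ, ((-(x + (j : ℚ) / p) : ℚ) : OnePoint ℚ) =
      ((-x - (j : ℚ) / p : ℚ) : OnePoint ℚ) := by
    intro j
    congr 1
    ring
  simp only [e1]
  have hA' : ∑ j ∈ Finset.range p, (jacobiSym (j : ℤ) p : ℂ) *
      ∑ i, kkJ p R kk 1 i * PhiI (R.b i) e ∞ ((x + (j : ℚ) / p : ℚ) : OnePoint ℚ) =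
      G * ∑ i, kkJ p R kk 1 i * PhiI (R.b i) e ∞ (x : OnePoint ℚ) := by
    simp only [Finset.mul_sum]
    rw [Finset.sum_comm]
    refine Finset.sum_congr rfl fun i _ => ?_
    have h5 := hA i
    rw [Finset.mul_sum] at h5
    rw [show G * (kkJ p R kk 1 i * PhiI (R.b i) e ∞ (x : OnePoint ℚ)) =
      kkJ p R kk 1 i * (G * PhiI (R.b i) e ∞ (x : OnePoint ℚ)) by ring, ← h5]
    refine Finset.sum_congr rfl fun j _ => ?_
    ring
  have hB' : ∑ j ∈ Finset.range p, (jacobiSym (j : ℤ) p : ℂ) *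
      ∑ i, kkJ p R kk (-1) i * PhiI (R.b i) e ∞ ((-x - (j : ℚ) / p : ℚ) : OnePoint ℚ) =
      G * ∑ i, kkJ p R kk (-1) i * PhiI (R.b i) e ∞ ((-x : ℚ) : OnePoint ℚ) := by
    simp only [Finset.mul_sum]
    rw [Finset.sum_comm]
    refine Finset.sum_congr rfl fun i _ => ?_
    have h5 := hB i
    rw [Finset.mul_sum] at h5
    rw [show G * (kkJ p R kk (-1) i * PhiI (R.b i) e ∞ ((-x : ℚ) : OnePoint ℚ)) =
      kkJ p R kk (-1) i * (G * PhiI (R.b i) e ∞ ((-x : ℚ) : OnePoint ℚ)) by ring, ← h5]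
    refine Finset.sum_congr rfl fun j _ => ?_
    ring
  have e2 : ∀ j : ℕ, (jacobiSym (j : ℤ) p : ℂ) *
      ((∑ i, kkJ p R kk 1 i * PhiI (R.b i) e ∞ ((x + (j : ℚ) / p : ℚ) : OnePoint ℚ) +
        s * ∑ i, kkJ p R kk (-1) i * PhiI (R.b i) e ∞ ((-x - (j : ℚ) / p : ℚ) : OnePoint ℚ)) /
          (u * R.om R.i0)) =
      (1 / (u * R.om R.i0)) * ((jacobiSym (j : ℤ) p : ℂ) *
        ∑ i, kkJ p R kk 1 i * PhiI (R.b i) e ∞ ((x + (j : ℚ) / p : ℚ) : OnePoint ℚ)) +
      (s / (u * R.om R.i0)) * ((jacobiSym (j : ℤ) p : ℂ) *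
        ∑ i, kkJ p R kk (-1) i * PhiI (R.b i) e ∞ ((-x - (j : ℚ) / p : ℚ) : OnePoint ℚ)) := by
    intro j
    ring
  simp only [e2]
  rw [Finset.sum_add_distrib, ← Finset.mul_sum, ← Finset.mul_sum, hA', hB']
  ring

end

end Pool.Agent.OBH


end

section

/-!
# OB, block H, bridge: SAF (helper28)

`PhiK/(u om_0)` is a symbol with algebraic values in a finitely generated group; from `hypN` in `NS/H_Hfin.lean` (helper6).
-/

set_option autoImplicit false

namespace Pool.Agent.OBH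

open _root_.MU3 _root_.Pool.Agent.MU3A _root_.Pool.Agent.MU3B _root_.Pool.Agent.MU3F _root_.Pool.Agent.MUX
  _root_.Pool.Agent.MUXH _root_.Pool.Agent.MUXHY _root_.Pool.Agent.MuSym _root_.Pool.Agent.OB OnePoint

noncomputable section

theorem SAF.sum_alg {ι : Type} (S : Finset ι) (F : ι → ℂ) (h : ∀ c ∈ S, IsAlgebraic ℚ (F c)) :
    IsAlgebraic ℚ (∑ c ∈ S, F c) := by
  rw [← mem_algebraicClosure_iff]
  exact sum_mem fun c hc => mem_algebraicClosure_iff.2 (h c hc)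

/-- (SAF) -/
theorem to_SAF (h : So_VAL) : So_SAF := by
  intro p er A B P V f hS hT ι _ R e he r hr0 her kk hkk u hu hua
  obtain ⟨-, -, -, -, D0, -, gb, gt, hpf, hN, hNne, -, -, -⟩ := h p er A B P V f hS
  have hcq : CQ A B := hS.cq
  have hp0 : 0 < p := hS.pp.pos
  have hf0 : 0 < f := Nat.pos_of_ne_zero hS.f0
  have hcop : ∀ i, IsCoprime (MUX.sp ((MUX.nI (R.b i) : ℕ) : OO A B))
      (idl (A := A) (B := B) (p * f)) :=
    MUXY.y_COP A B (p * f) ι R _ 1 (by rw [pow_one]; exact hpf)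
  refine ⟨?_, ?_, ?_⟩
  · have h1 : ∀ c, IsSym (p ^ (er + 1) * N0O p er A B f) (nuX e) (PhiI (R.b c) e) := fun c =>
      MUXT.sym_EI (toCQ hcq) (R.b c) (R.nl c).b_ne _ e (toEI he) (p * f) (Nat.mul_pos hp0 hf0)
        hpf _ (mul_ne_zero (pow_ne_zero _ hp0.ne') hNne) (by rw [hN])
    exact Sym.isSym_lin h1 kk (u * R.om R.i0)
  · intro x y
    have hka : ∀ c, IsAlgebraic ℚ (kk c) := fun c => by
      rcases hkk c with h0 | h1
      · rw [h0]
        exact isAlgebraic_zero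
      · exact IsAlgebraic.of_pow (Nat.pos_of_ne_zero hr0) (by rw [h1]; exact isAlgebraic_one)
    have h1 := fun c =>
      (MUXY.y_ALP A B hcq hT (p * f) ι inferInstance R _ e gb gt he hcop r hr0 her c x y).2
    have e1 : PhiK R e kk x y / (u * R.om R.i0) =
        (∑ c, kk c * (PhiI (R.b c) e x y / R.om R.i0)) * u⁻¹ := by
      unfold PhiK
      rw [mul_comm u, ← div_div, Finset.sum_div, div_eq_mul_inv]
      congr 1
      refine Finset.sum_congr rfl fun c _ => ?_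
      ring
    rw [e1]
    exact (SAF.sum_alg _ _ fun c _ => (hka c).mul (h1 c)).mul hua.inv
  · classical
    have h1 := fun c => MUXT.fg_EI A B (toCQ hcq) (R.b c) _ e (R.nl c).b_ne gb (toEI he)
    choose S hS' using h1
    set Z : ℂ := u * R.om R.i0 with hZ
    refine ⟨Finset.univ.biUnion fun c => (S c).image fun t => kk c / Z * t, fun x y => ?_⟩
    have e1 : PhiK R e kk x y / Z = ∑ c, kk c / Z * PhiI (R.b c) e x y := by
      unfold PhiK
      rw [Finset.sum_div]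
      refine Finset.sum_congr rfl fun c _ => ?_
      ring
    rw [e1]
    refine sum_mem fun c _ => ?_
    have h2 := hS' c x y
    have h3 : AddMonoidHom.mulLeft (kk c / Z) (PhiI (R.b c) e x y) ∈
        (AddSubgroup.closure (S c : Set ℂ)).map (AddMonoidHom.mulLeft (kk c / Z)) :=
      AddSubgroup.mem_map_of_mem _ h2
    rw [AddMonoidHom.map_closure] at h3
    refine AddSubgroup.closure_mono ?_ h3
    rintro _ ⟨t, ht, rfl⟩
    simp only [Finset.coe_biUnion, Set.mem_iUnion]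
    exact ⟨c, by simp, Finset.mem_coe.2 (Finset.mem_image.2 ⟨t, ht, rfl⟩)⟩

end

end Pool.Agent.OBH


end

section

/-!
# OB, block H, bridge (helper53): (UAL) the scaling factor `u` of a lattice in Legendre form is algebraic. Model: `NS/G_Leg.lean`
-/

set_option autoImplicit false

namespace Pool.Agent.OBH.UAL

open _root_.MU3 _root_.Pool.Agent.MU3A _root_.Pool.Agent.MU3B _root_.Pool.Agent.MUX
  _root_.Pool.Agent.MUXN _root_.Pool.Agent.NS _root_.Pool.Agent.OB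

noncomputable section

variable {A B : ℤ}

/-- the cubic of a lattice in Legendre form -/
theorem cub {V : ValuationSubring ℂ} {L : PeriodPair} {u e lam : ℂ} (h : GoodL V L u e lam)
    (X : ℂ) : 4 * X ^ 3 - L.g₂ * X - L.g₃ = 4 * (X - e) * (X - e - u ^ 2) * (X - e - lam * u ^ 2) := by
  obtain ⟨y, hy⟩ := IsAlgClosed.exists_pow_nat_eq (4 * X ^ 3 - L.g₂ * X - L.g₃) (n := 2) (by norm_num)
  obtain ⟨z, hz, hX, hY⟩ := (b_DSC L).2 X y hy
  have h1 := h.eq z hz
  rw [hX, hY] at h1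
  have hu := h.u0
  have hu2 : u ^ 6 ≠ 0 := pow_ne_zero _ hu
  have h2 : y ^ 2 = 4 * (X - e) * (X - e - u ^ 2) * (X - e - lam * u ^ 2) := by
    field_simp at h1
    linear_combination h1
  rw [← h2, hy]

/-- elements which are algebraic over `k` are algebraic -/
theorem alg_of (hc : CQ A B) {x : ℂ} (h : IsAlgebraic (kk A B) x) : IsAlgebraic ℚ x := by
  have h1 : Algebra.IsAlgebraic ℚ (kk A B) := FK.isAlgebraic_kk hc
  exact h.restrictScalars ℚ

theorem kap_alg (hc : CQ A B) (hT : TorX A B) {b : Ideal (OO A B)} {L : PeriodPair} {om : ℂ}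
    (hL : IsNL b L om) : IsAlgebraic ℚ (kap L) := by
  have hm : (⊤ : Ideal (OO A B)) ≠ ⊥ := by
    intro h
    have h1 : (1 : OO A B) ∈ (⊥ : Ideal (OO A B)) := by rw [← h]; trivial
    rw [Ideal.mem_bot] at h1
    have h2 := congrArg QuadraticAlgebra.re h1
    rw [QuadraticAlgebra.re_one, QuadraticAlgebra.re_zero] at h2
    exact one_ne_zero h2
  have hf := hT.fin ⊤ hm
  have hmem : kap L ∈ RF (⊤ : Ideal (OO A B)) :=
    IntermediateField.subset_adjoin _ _ ⟨b, L, om, hL, Or.inl rfl⟩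
  have h1 : IsAlgebraic (kk A B) (⟨kap L, hmem⟩ : RF (⊤ : Ideal (OO A B))) :=
    Algebra.IsAlgebraic.isAlgebraic _
  exact alg_of hc (h1.algebraMap (A := ℂ))

theorem root_alg {g2 g3 x : ℂ} (h2 : IsAlgebraic ℚ g2) (h3 : IsAlgebraic ℚ g3)
    (h : 4 * x ^ 3 - g2 * x - g3 = 0) : IsAlgebraic ℚ x := by
  have h4 : IsAlgebraic (algebraicClosure ℚ ℂ) x := by
    refine ⟨Polynomial.C 4 * Polynomial.X ^ 3 - Polynomial.C ⟨g2, mem_algebraicClosure_iff.2 h2⟩ * Polynomial.X -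
      Polynomial.C ⟨g3, mem_algebraicClosure_iff.2 h3⟩, ?_, ?_⟩
    · intro h0
      have := congrArg (fun P => Polynomial.coeff P 3) h0
      simp [Polynomial.coeff_C, Polynomial.coeff_X] at this
    · simp only [map_sub, map_mul, Polynomial.aeval_C, Polynomial.aeval_X, map_pow]
      exact h
  have h5 : Algebra.IsAlgebraic ℚ (algebraicClosure ℚ ℂ) := algebraicClosure.isAlgebraic ℚ ℂ
  exact @IsAlgebraic.restrictScalars ℚ (algebraicClosure ℚ ℂ) ℂ _ _ _ _ _ _ _ _ h5 x h4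

theorem leg_alg (hc : CQ A B) (hT : TorX A B) {b : Ideal (OO A B)} {L : PeriodPair} {om : ℂ}
    (hL : IsNL b L om) {V : ValuationSubring ℂ} {u e lam : ℂ} (h : GoodL V L u e lam) :
    IsAlgebraic ℚ u := by
  have hk := kap_alg hc hT hL
  have hq : ∀ q : ℚ, IsAlgebraic ℚ (q : ℂ) := fun q => isAlgebraic_algebraMap (A := ℂ) q
  have h2 : IsAlgebraic ℚ L.g₂ := by
    have e1 : L.g₂ = ((144 : ℚ) : ℂ) * kap L + ((1 / 12 : ℚ) : ℂ) := by
      unfold kap
      push_cast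
      ring
    rw [e1]
    exact ((hq _).mul hk).add (hq _)
  have h3 : IsAlgebraic ℚ L.g₃ := by
    have e1 : L.g₃ = ((-(1 / 18) : ℚ) : ℂ) * L.g₂ := by
      rw [hL.nrm]
      push_cast
      ring
    rw [e1]
    exact (hq _).mul h2
  have k1 : IsAlgebraic ℚ e := root_alg h2 h3 (by rw [cub h e]; ring)
  have k2 : IsAlgebraic ℚ (e + u ^ 2) := root_alg h2 h3 (by rw [cub h (e + u ^ 2)]; ring)
  have k4 : IsAlgebraic ℚ (u ^ 2) := by
    have : u ^ 2 = (e + u ^ 2) - e := by ring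
    rw [this]
    exact k2.sub k1
  exact IsAlgebraic.of_pow (by norm_num) k4

end

end Pool.Agent.OBH.UAL

namespace Pool.Agent.OBH

open _root_.MU3 _root_.Pool.Agent.MU3A _root_.Pool.Agent.MU3B _root_.Pool.Agent.MUX
  _root_.Pool.Agent.OB

theorem to_UAL : So_UAL := by
  intro A B hc hT n ι R V u el lam h
  exact UAL.leg_alg hc hT (R.nl R.i0) h

end Pool.Agent.OBH


end
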