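import Pool.Agent.MVF.C038
import Pool.Agent.MVF.C039
import Pool.Agent.MVF.C076
import Pool.Agent.MVF.C088
import Pool.Agent.MVF.C109
import Pool.Agent.MVF.C113
import Pool.Agent.MVF.C116
import Pool.Agent.MVF.C165
import Pool.Agent.OBM.C06

/-! Parts: OB.HN_DVR, OB.HN_FAC, OB.HN_HKN, OB.HN_PAI, OB.HN_TYP, OB.HB_DEP, OB.HB_HF1, OB.HB_HF2, OB.HB_HFA, OB.HB_HQ2, OB.HB_PHJ, OB.HB_PJ2, OB.HB_QS2, OB.HB_SHJ, OB.HB_VAL -/

section

/-!
# OB, block H, module DVR (helper92)

The character sums of a function which is killed by a factor of degree `(p - 1)/2` of `X^p - 1`: `to_DVR : So_DVR`.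
-/

set_option autoImplicit false

namespace Pool.Agent.OBH

open _root_.MU3 Pool.Agent.MuSym Pool.Agent.MUXH OnePoint

noncomputable section

namespace DVR

/-- a polynomial which vanishes at all `N`-th roots of unity is divisible by `X^N - 1` -/
theorem dvd_of_eval (N : ℕ) (hN : 0 < N) (ζ : ℂ) (hζ : IsPrimitiveRoot ζ N) (P : Polynomial ℂ)
    (h : ∀ ω : ℂ, ω ^ N = 1 → P.eval ω = 0) : (Polynomial.X ^ N - 1 : Polynomial ℂ) ∣ P := by
  rw [Polynomial.X_pow_sub_one_eq_prod hN hζ]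
  refine Finset.prod_dvd_of_coprime ?_ ?_
  · intro a _ b _ hab
    exact Polynomial.pairwise_coprime_X_sub_C Function.injective_id hab
  · intro ω hω
    rw [Polynomial.dvd_iff_isRoot]
    exact h ω ((Polynomial.mem_nthRootsFinset hN _).1 hω)

/-- the sum of a periodic function against the powers of a root of unity, shifted -/
theorem sum_shift (N : ℕ) (hN : 0 < N) (y : ℤ → ℂ) (hy : ∀ b c : ℤ, (N : ℤ) ∣ b - c → y b = y c)
    (ω : ℂ) (hω : ω ^ N = 1) (c : ℕ) :
    ∑ b ∈ Finset.range N, ω ^ b * y ((b : ℤ) - c) =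
      ω ^ c * ∑ b ∈ Finset.range N, ω ^ b * y b := by
  induction c with
  | zero => simp
  | succ c ih =>
    rw [pow_succ', mul_assoc, ← ih]
    obtain ⟨M, rfl⟩ : ∃ M, N = M + 1 := ⟨N - 1, by omega⟩
    rw [Finset.sum_range_succ', Finset.sum_range_succ _ M, mul_add, Finset.mul_sum]
    refine congrArg₂ (· + ·) ?_ ?_
    · refine Finset.sum_congr rfl fun b _ => ?_
      rw [pow_succ']
      have : (((b + 1 : ℕ) : ℤ) - ((c + 1 : ℕ) : ℤ)) = (b : ℤ) - c := by push_cast; ring
      rw [this]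
      ring
    · rw [pow_zero, one_mul, ← mul_assoc, ← pow_succ', hω, one_mul]
      refine hy _ _ ?_
      refine ⟨-1, ?_⟩
      push_cast
      ring

/-- a quotient by a monic polynomial with coefficients in a subring -/
theorem coeff_mem (S : Subring ℂ) (w G w' : Polynomial ℂ) (hG : G.Monic)
    (hw : ∀ l, w.coeff l ∈ S) (hGS : ∀ l, G.coeff l ∈ S) (h : w = G * w') (l : ℕ) :
    w'.coeff l ∈ S := by
  have h1 : w ∈ Polynomial.lifts S.subtype := by
    rw [Polynomial.lifts_iff_coeff_lifts]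
    intro k
    exact ⟨⟨w.coeff k, hw k⟩, rfl⟩
  have h2 : G ∈ Polynomial.lifts S.subtype := by
    rw [Polynomial.lifts_iff_coeff_lifts]
    intro k
    exact ⟨⟨G.coeff k, hGS k⟩, rfl⟩
  obtain ⟨w₁, hw₁⟩ := (Polynomial.mem_lifts _).1 h1
  obtain ⟨G₁, hG₁, _, hG₁m⟩ := Polynomial.lifts_and_natDegree_eq_and_monic h2 hG
  have h3 : w' = w /ₘ G := by
    rw [h, Polynomial.mul_divByMonic_cancel_left _ hG]
  rw [h3, ← hw₁, ← hG₁, ← Polynomial.map_divByMonic _ hG₁m, Polynomial.coeff_map]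
  exact ((w₁ /ₘ G₁).coeff l).2

/-- a monic factor of `X^p - 1` has coefficients in `V` -/
theorem coeff_V (V : ValuationSubring ℂ) (p : ℕ) (hp : p ≠ 0) (F H : Polynomial ℂ) (hH : H.Monic)
    (h : F * H = Polynomial.X ^ p - 1) (l : ℕ) : H.coeff l ∈ V := by
  have h1 : H ∣ (Polynomial.X ^ p - 1 : Polynomial V).map (algebraMap V ℂ) := by
    refine ⟨F, ?_⟩
    rw [Polynomial.map_sub, Polynomial.map_pow, Polynomial.map_X, Polynomial.map_one, ← h, mul_comm]
  have h2 : (Polynomial.X ^ p - 1 : Polynomial V).Monic := Polynomial.monic_X_pow_sub_C 1 hp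
  obtain ⟨g, hg⟩ := IsIntegrallyClosed.eq_map_mul_C_of_dvd ℂ h2 h1
  rw [hH.leadingCoeff, Polynomial.C_1, mul_one] at hg
  rw [← hg, Polynomial.coeff_map]
  exact (g.coeff l).2

/-- the value of `H` at a root of `F` -/
theorem val_H (V : ValuationSubring ℂ) (p : ℕ) (hp : p.Prime) (F H : Polynomial ℂ) (hH : H.Monic)
    (h : F * H = Polynomial.X ^ p - 1) (z : ℂ) (hz : z ^ p = 1) (hF : F.eval z = 0)
    (t : V.ValueGroup) (ht : t ^ (p - 1) = V.valuation (p : ℂ)) :
    V.valuation (H.eval z) = t ^ H.natDegree := by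
  have : Fact (Nat.Prime p) := ⟨hp⟩
  have hp1 : p - 1 ≠ 0 := by
    have := hp.two_le
    omega
  have hz0 : z ≠ 0 := by
    intro h0
    rw [h0, zero_pow hp.ne_zero] at hz
    exact zero_ne_one hz
  -- `z` is not a root of `H`
  have hHz : H.eval z ≠ 0 := by
    intro h0
    have h1 := congrArg (fun P => (Polynomial.derivative P).eval z) h
    simp only [Polynomial.derivative_mul, Polynomial.eval_add, Polynomial.eval_mul, h0, hF,
      mul_zero, zero_mul, add_zero, Polynomial.derivative_sub, Polynomial.derivative_X_pow,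
      Polynomial.derivative_one, sub_zero, Polynomial.eval_pow, Polynomial.eval_X,
      Polynomial.eval_C] at h1
    exact mul_ne_zero (by exact_mod_cast hp.ne_zero) (pow_ne_zero _ hz0) h1.symm
  have hs : H = (H.roots.map fun a => Polynomial.X - Polynomial.C a).prod :=
    (IsAlgClosed.splits H).eq_prod_roots_of_monic hH
  have hcard : H.natDegree = Multiset.card H.roots :=
    (IsAlgClosed.splits H).natDegree_eq_card_roots
  have h1 : H.eval z = (H.roots.map fun a => z - a).prod := by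
    conv_lhs => rw [hs]
    rw [Polynomial.eval_multiset_prod, Multiset.map_map]
    simp
  rw [h1, map_multiset_prod, Multiset.map_map, hcard]
  have h2 : ∀ ρ ∈ H.roots, V.valuation (z - ρ) = t := by
    intro ρ hρ
    have h3 : H.eval ρ = 0 := (Polynomial.mem_roots'.1 hρ).2
    have h4 : ρ ^ p = 1 := by
      have := congrArg (fun P => P.eval ρ) h
      simp only [Polynomial.eval_mul, h3, mul_zero, Polynomial.eval_sub, Polynomial.eval_pow,
        Polynomial.eval_X, Polynomial.eval_one] at this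
      linear_combination -this
    have h5 : ρ ≠ 0 := by
      intro h0
      rw [h0, zero_pow hp.ne_zero] at h4
      exact zero_ne_one h4
    have h6 : z / ρ ≠ 1 := by
      intro h0
      rw [div_eq_one_iff_eq h5] at h0
      exact hHz (h0 ▸ h3)
    have h7 : (z / ρ) ^ p = 1 := by rw [div_pow, hz, h4, div_one]
    have h8 : IsPrimitiveRoot (z / ρ) p := by
      rw [← orderOf_eq_prime h7 h6]
      exact IsPrimitiveRoot.orderOf _
    have h9 := Hz.val_p p hp V 0 (z / ρ) (by simpa using h8)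
    rw [pow_zero, one_mul, ← ht] at h9
    have h10 := (pow_left_inj₀ zero_le zero_le hp1).1 h9
    have h11 : z - ρ = ρ * (z / ρ - 1) := by field_simp
    rw [h11, map_mul, Hz.val_root V p hp.ne_zero ρ h4, one_mul, h10]
  have h12 : Multiset.map (⇑V.valuation ∘ fun a => z - a) H.roots =
      Multiset.map (fun _ => t) H.roots := Multiset.map_congr rfl fun ρ hρ => h2 ρ hρ
  rw [h12, Multiset.map_const', Multiset.prod_replicate]

end DVR

open _root_.Pool.Agent.OBH.DVR Hz in
theorem to_DVR : So_DVR := by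
  intro p hp hp2 V hV K hK n y hper F H hFm hHm hFK hHK hdeg hFH hrel hyK b₀ hb₀ ζ hζ hFζ
  set q := p ^ n with hq
  have hqpos : 0 < q := pow_pos hp.pos n
  have hN : p ^ (n + 1) = p * q := by rw [pow_succ]; ring
  have hNpos : 0 < p * q := Nat.mul_pos hp.pos hqpos
  set d := F.natDegree with hd
  have hdpos : 0 < d := by
    have := hp.two_le
    omega
  have hp1 : p - 1 ≠ 0 := by omega
  have hppos : (0 : V.ValueGroup) < V.valuation (p : ℂ) :=
    lt_of_le_of_ne zero_le
      ((Valuation.ne_zero_iff _).2 (by exact_mod_cast hp.ne_zero)).symm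
  -- the maximal value
  obtain ⟨bs, hbs, hmax⟩ := Finset.exists_max_image (Finset.range (p * q))
    (fun b : ℕ => V.valuation (y b)) ⟨0, Finset.mem_range.2 hNpos⟩
  have hge : V.valuation (y b₀) ≤ V.valuation (y bs) := by
    have hpos : (0 : ℤ) < (p : ℤ) ^ (n + 1) := pow_pos (by exact_mod_cast hp.pos) _
    have h0 := Int.emod_nonneg b₀ hpos.ne'
    have h1 := Int.emod_lt_of_pos b₀ hpos
    have h2 : y b₀ = y (((b₀ % (p : ℤ) ^ (n + 1)).toNat : ℕ) : ℤ) := by
      rw [Int.toNat_of_nonneg h0]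
      refine hper _ _ ?_
      have := Int.emod_add_mul_ediv b₀ ((p : ℤ) ^ (n + 1))
      exact ⟨b₀ / (p : ℤ) ^ (n + 1), by linarith⟩
    rw [h2]
    refine hmax _ (Finset.mem_range.2 ?_)
    have h3 : (((b₀ % (p : ℤ) ^ (n + 1)).toNat : ℕ) : ℤ) < ((p * q : ℕ) : ℤ) := by
      rw [Int.toNat_of_nonneg h0, ← hN]
      push_cast
      exact h1
    exact_mod_cast h3
  have hbs2 : 1 ≤ V.valuation (y bs) ^ (p - 1) * V.valuation (p : ℂ) :=
    hb₀.trans (mul_le_mul_left (pow_le_pow_left₀ zero_le hge (p - 1)) _)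
  have hys0 : y bs ≠ 0 := by
    intro h
    rw [h, map_zero, zero_pow hp1, zero_mul] at hbs2
    exact absurd hbs2 (not_le.2 zero_lt_one)
  have hvs0 : (0 : V.ValueGroup) < V.valuation (y bs) :=
    lt_of_le_of_ne zero_le ((Valuation.ne_zero_iff _).2 hys0).symm
  set W : ℕ → ℂ := fun b => y b / y bs with hWdef
  have hWK : ∀ b, W b ∈ K := fun b => hyK b bs hys0
  have hW1 : ∀ b < p * q, V.valuation (W b) ≤ 1 := by
    intro b hb
    have := hmax b (Finset.mem_range.2 hb)
    simp only [hWdef, map_div₀]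
    exact div_le_one_of_le₀ this zero_le
  have hWs : W bs = 1 := div_self hys0
  -- the polynomial
  set w : Polynomial ℂ := ∑ b ∈ Finset.range (p * q), Polynomial.C (W b) * Polynomial.X ^ b
    with hwdef
  have hwc : ∀ l, w.coeff l = if l < p * q then W l else 0 := by
    intro l
    simp only [hwdef, Polynomial.finsetSum_coeff, Polynomial.coeff_C_mul_X_pow]
    rw [Finset.sum_ite_eq]
    simp only [Finset.mem_range]
  have hwe : ∀ ω : ℂ, w.eval ω = (∑ b ∈ Finset.range (p * q), ω ^ b * y b) / y bs := by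
    intro ω
    simp only [hwdef, Polynomial.eval_finsetSum, Polynomial.eval_mul, Polynomial.eval_C,
      Polynomial.eval_pow, Polynomial.eval_X]
    rw [Finset.sum_div]
    refine Finset.sum_congr rfl fun b _ => ?_
    simp only [hWdef]
    ring
  have hexF : Polynomial.expand ℂ q F * Polynomial.expand ℂ q H =
      Polynomial.X ^ (p * q) - 1 := by
    rw [← map_mul, hFH, map_sub, map_pow, Polynomial.expand_X, map_one, ← pow_mul, mul_comm q p]
  have hper' : ∀ b c : ℤ, ((p * q : ℕ) : ℤ) ∣ b - c → y b = y c := by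
    intro b c hbc
    refine hper b c ?_
    rw [← hN] at hbc
    exact_mod_cast hbc
  have hdvd : (Polynomial.X ^ (p * q) - 1 : Polynomial ℂ) ∣ Polynomial.expand ℂ q F * w := by
    refine dvd_of_eval (p * q) hNpos ζ (hN ▸ hζ) _ fun ω hω => ?_
    rw [Polynomial.eval_mul, Polynomial.expand_eval, hwe, mul_div_assoc', div_eq_zero_iff]
    left
    have hFlt : F.natDegree < p := by omega
    rw [Polynomial.eval_eq_sum_range' hFlt, Finset.sum_mul]
    have h1 : ∀ l ∈ Finset.range p, F.coeff l * (ω ^ q) ^ l *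
        (∑ b ∈ Finset.range (p * q), ω ^ b * y b) =
        ∑ b ∈ Finset.range (p * q), ω ^ b * (F.coeff l * y ((b : ℤ) - l * (p : ℤ) ^ n)) := by
      intro l _
      have h2 := sum_shift (p * q) hNpos y hper' ω hω (l * q)
      rw [mul_assoc, ← pow_mul, mul_comm q l, ← h2, Finset.mul_sum]
      refine Finset.sum_congr rfl fun b _ => ?_
      have : ((l * q : ℕ) : ℤ) = (l : ℤ) * (p : ℤ) ^ n := by push_cast [hq]; ring
      rw [this]
      ring
    rw [Finset.sum_congr rfl h1, Finset.sum_comm]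
    refine Finset.sum_eq_zero fun b _ => ?_
    rw [← Finset.mul_sum, hrel, mul_zero]
  have hFe0 : Polynomial.expand ℂ q F ≠ 0 := (hFm.expand hqpos).ne_zero
  have hHe : (Polynomial.expand ℂ q H).Monic := hHm.expand hqpos
  rw [← hexF] at hdvd
  obtain ⟨w', hw'⟩ := (mul_dvd_mul_iff_left hFe0).1 hdvd
  -- coefficients
  have hHV : ∀ l, (Polynomial.expand ℂ q H).coeff l ∈ V := by
    intro l
    rw [Polynomial.coeff_expand hqpos]
    split_ifs
    · exact coeff_V V p hp.ne_zero F H hHm hFH _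
    · exact zero_mem V
  have hHK' : ∀ l, (Polynomial.expand ℂ q H).coeff l ∈ K := by
    intro l
    rw [Polynomial.coeff_expand hqpos]
    split_ifs
    · exact hHK _
    · exact zero_mem K
  have hw'V : ∀ l, V.valuation (w'.coeff l) ≤ 1 := by
    intro l
    rw [V.valuation_le_one_iff]
    refine coeff_mem V.toSubring w _ w' hHe (fun k => ?_) hHV hw' l
    rw [hwc]
    split_ifs with hk
    · exact (V.valuation_le_one_iff _).1 (hW1 k hk)
    · exact zero_mem V.toSubring
  have hw'K : ∀ l, w'.coeff l ∈ K := by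
    intro l
    refine coeff_mem K.toSubring w _ w' hHe (fun k => ?_) hHK' hw' l
    rw [hwc]
    split_ifs with hk
    · exact hWK k
    · exact zero_mem K.toSubring
  -- some coefficient of `w'` is a unit
  have hbs' := Finset.mem_range.1 hbs
  have hex0 : ∃ b, V.valuation (w'.coeff b) = 1 := by
    by_contra hcon
    have hlt : ∀ b, V.valuation (w'.coeff b) < 1 := fun b =>
      lt_of_le_of_ne (hw'V b) fun h => hcon ⟨b, h⟩
    have h1 : V.valuation (w.coeff bs) < 1 := by
      rw [hw', Polynomial.coeff_mul]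
      refine Valuation.map_sum_lt _ one_ne_zero fun k _ => ?_
      rw [map_mul]
      exact lt_of_le_of_lt
        (mul_le_of_le_one_left' ((V.valuation_le_one_iff _).2 (hHV _))) (hlt _)
    rw [hwc, if_pos hbs', hWs, map_one] at h1
    exact lt_irrefl _ h1
  -- degrees
  have hdH : H.natDegree = d + 1 := by
    have h1 := congrArg Polynomial.natDegree hFH
    rw [hFm.natDegree_mul hHm, ← Polynomial.C_1, Polynomial.natDegree_X_pow_sub_C] at h1
    omega
  have hw0 : w ≠ 0 := by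
    intro h
    have h1 := hwc bs
    rw [h, Polynomial.coeff_zero, if_pos hbs', hWs] at h1
    exact zero_ne_one h1
  have hw'0 : w' ≠ 0 := by
    intro h
    rw [h, mul_zero] at hw'
    exact hw0 hw'
  have hdw : w.natDegree < p * q := by
    by_contra hcon
    have h1 := hwc w.natDegree
    rw [if_neg hcon, Polynomial.coeff_natDegree, Polynomial.leadingCoeff_eq_zero] at h1
    exact hw0 h1
  have hdw' : w'.natDegree < d * q := by
    have h1 : w.natDegree = (d + 1) * q + w'.natDegree := by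
      rw [hw', hHe.natDegree_mul' hw'0, Polynomial.natDegree_expand, hdH]
    have h2 : p * q = (d + 1) * q + d * q := by
      rw [← hdeg]
      ring
    omega
  have hw'z : ∀ b, d * q ≤ b → w'.coeff b = 0 := fun b hb =>
    Polynomial.coeff_eq_zero_of_natDegree_lt (by omega)
  set c : ℕ → ℂ := fun k => ∑ b ∈ Finset.range (d * q), ((b.choose k : ℕ) : ℂ) * w'.coeff b
    with hc
  have hcK : ∀ k, c k ∈ K := fun k =>
    sum_mem fun b _ => mul_mem (natCast_mem K _) (hw'K _)
  have hc1 : ∀ k, V.valuation (c k) ≤ 1 := fun k =>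
    Valuation.map_sum_le _ fun b _ => by
      rw [map_mul]
      exact mul_le_one' (val_nat V _) (hw'V _)
  have hex1 : ∃ k, k < d * q ∧ V.valuation (c k) = 1 := by
    by_contra hcon
    have hlt : ∀ k < d * q, V.valuation (c k) < 1 := fun k hk =>
      lt_of_le_of_ne (hc1 k) fun h => hcon ⟨k, hk, h⟩
    obtain ⟨b₁, hb₁v⟩ := hex0
    have hb₁ : b₁ < d * q := by
      by_contra h
      rw [hw'z b₁ (not_lt.1 h), map_zero] at hb₁v
      exact zero_ne_one hb₁v
    have h1 := newton (d * q) (fun b => w'.coeff b) (fun b => if b = b₁ then 1 else 0)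
    have h2 : ∑ b ∈ Finset.range (d * q), (((if b = b₁ then 1 else 0 : ℤ)) : ℂ) * w'.coeff b
        = w'.coeff b₁ := by
      rw [Finset.sum_eq_single b₁]
      · simp
      · intro b _ hb
        rw [if_neg hb]
        simp
      · intro h
        exact absurd (Finset.mem_range.2 hb₁) h
    rw [h2] at h1
    have h3 : V.valuation (w'.coeff b₁) < 1 := by
      rw [h1]
      refine Valuation.map_sum_lt _ one_ne_zero fun k hk => ?_
      rw [map_mul]
      exact lt_of_le_of_lt (mul_le_of_le_one_left' (val_int V _))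
        (hlt k (Finset.mem_range.1 hk))
    exact absurd hb₁v h3.ne
  classical
  obtain ⟨hk₀, hk₁⟩ := Nat.find_spec hex1
  set k₀ := Nat.find hex1 with hk₀def
  have hmin : ∀ k < k₀, V.valuation (c k) ^ 2 ≤ V.valuation (p : ℂ) := by
    intro k hk
    refine hK _ (hcK k) (lt_of_le_of_ne (hc1 k) fun h => ?_)
    exact Nat.find_min hex1 hk ⟨lt_trans hk hk₀, h⟩
  -- the valuation of `ζ - 1`
  have hx : V.valuation (ζ - 1) ^ (q * (p - 1)) = V.valuation (p : ℂ) := val_p p hp V n ζ hζ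
  set x := V.valuation (ζ - 1) with hxdef
  have hqp : q * (p - 1) ≠ 0 := Nat.mul_ne_zero hqpos.ne' hp1
  have hx0 : 0 < x := by
    refine lt_of_le_of_ne zero_le fun h => ?_
    rw [← h, zero_pow hqp] at hx
    exact hppos.ne hx
  have hx1 : x < 1 := by
    by_contra h
    have h1 : 1 ≤ x := not_lt.1 h
    have : 1 ≤ x ^ (q * (p - 1)) := one_le_pow₀ h1
    rw [hx] at this
    exact absurd this (not_le.2 hV)
  have hqd : q * (p - 1) = (d * q) * 2 := by
    have : p - 1 = 2 * d := by omega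
    rw [this]
    ring
  have hval : V.valuation (w'.eval ζ) = x ^ k₀ := by
    rw [Polynomial.eval_eq_sum_range' hdw']
    have h0 : ∑ b ∈ Finset.range (d * q), w'.coeff b * ζ ^ b =
        ∑ b ∈ Finset.range (d * q), ζ ^ b * w'.coeff b :=
      Finset.sum_congr rfl fun b _ => mul_comm _ _
    rw [h0, shift_pow (d * q) (fun b => w'.coeff b) ζ]
    have hk₀N : k₀ ∈ Finset.range (d * q) := Finset.mem_range.2 hk₀
    rw [← Finset.add_sum_erase _ _ hk₀N]
    have ha : V.valuation ((ζ - 1) ^ k₀ * c k₀) = x ^ k₀ := by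
      rw [map_mul, map_pow, hk₁, mul_one]
    have hb : V.valuation (∑ k ∈ (Finset.range (d * q)).erase k₀, (ζ - 1) ^ k * c k)
        < x ^ k₀ := by
      refine Valuation.map_sum_lt _ (pow_pos hx0 k₀).ne' fun k hk => ?_
      have hne := Finset.ne_of_mem_erase hk
      rw [map_mul, map_pow]
      rcases lt_or_gt_of_ne hne with hlt | hgt
      · refine lt_of_le_of_lt (mul_le_of_le_one_left' (pow_le_one' hx1.le k)) ?_
        have h1 := hmin k hlt
        rw [← hx, hqd, pow_mul] at h1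
        have h2 : V.valuation (c k) ≤ x ^ (d * q) :=
          (pow_le_pow_iff_left₀ zero_le zero_le two_ne_zero).1 h1
        exact lt_of_le_of_lt h2 (pow_lt_pow_right_of_lt_one₀ hx0 hx1 hk₀)
      · refine lt_of_le_of_lt (mul_le_of_le_one_right' (hc1 k)) ?_
        exact pow_lt_pow_right_of_lt_one₀ hx0 hx1 hgt
    have := Valuation.map_add_eq_of_lt_left V.valuation (x := (ζ - 1) ^ k₀ * c k₀)
      (y := ∑ k ∈ (Finset.range (d * q)).erase k₀, (ζ - 1) ^ k * c k) (by rw [ha]; exact hb)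
    rw [this, ha]
  -- the valuation of `H (ζ^q)`
  have hHval : V.valuation (H.eval (ζ ^ q)) = (x ^ q) ^ (d + 1) := by
    rw [← hdH]
    refine val_H V p hp F H hHm hFH (ζ ^ q) ?_ hFζ (x ^ q) ?_
    · rw [← pow_mul, mul_comm q p, ← hN]
      exact hζ.pow_eq_one
    · rw [← pow_mul, hx]
  -- the end
  have hsum : ∑ b ∈ Finset.range (p ^ (n + 1)), ζ ^ b * y b =
      y bs * (H.eval (ζ ^ q) * w'.eval ζ) := by
    have h1 := hwe ζ
    rw [hw', Polynomial.eval_mul, Polynomial.expand_eval] at h1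
    rw [h1, hN]
    field_simp
  rw [hsum, map_mul, map_mul, hval, hHval]
  have h1 : 1 ≤ V.valuation (y bs) * x ^ q := by
    have h2 : 1 ≤ (V.valuation (y bs) * x ^ q) ^ (p - 1) := by
      rw [mul_pow, ← pow_mul, hx]
      exact hbs2
    by_contra h
    exact absurd h2 (not_le.2 (pow_lt_one₀ zero_le (not_le.1 h) hp1))
  have h2 : (V.valuation (y bs) * x ^ q) * V.valuation (p : ℂ) <
      V.valuation (y bs) * ((x ^ q) ^ (d + 1) * x ^ k₀) := by
    have e1 : (V.valuation (y bs) * x ^ q) * V.valuation (p : ℂ) =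
        V.valuation (y bs) * ((x ^ q) ^ (d + 1) * x ^ (d * q)) := by
      rw [← hx, hqd]
      have : x ^ (d * q * 2) = x ^ (d * q) * x ^ (d * q) := by rw [pow_mul, pow_two]
      rw [this, pow_succ, ← pow_mul, mul_comm q d]
      ac_rfl
    rw [e1]
    refine mul_lt_mul_of_pos_left ?_ hvs0
    refine mul_lt_mul_of_pos_left ?_ (pow_pos (pow_pos hx0 _) _)
    exact pow_lt_pow_right_of_lt_one₀ hx0 hx1 hk₀
  exact lt_of_le_of_lt (le_mul_of_one_le_left' h1) h2

end

end Pool.Agent.OBH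


end

section

/-!
# (FAC) the factorisation of `X^p - 1` over a field which contains the quadratic Gauss sum
-/

set_option autoImplicit false

namespace Pool.Agent.OBH

namespace FAC

open Finset Polynomial

/-- elementary symmetric functions lie in a subfield if the power sums do -/
theorem esymm_mem {ι : Type} [Fintype ι] (x : ι → ℂ) (K : Subfield ℂ)
    (h : ∀ k : ℕ, ∑ i, x i ^ k ∈ K) (n : ℕ) :
    MvPolynomial.aeval x (MvPolynomial.esymm ι ℂ n) ∈ K := by
  classical
  induction n using Nat.strong_induction_on with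
  | _ n ih =>
    rcases Nat.eq_zero_or_pos n with h0 | h0
    · subst h0
      simp [MvPolynomial.esymm_zero, K.one_mem]
    · have h1 := congrArg (MvPolynomial.aeval x) (MvPolynomial.mul_esymm_eq_sum ι ℂ n)
      simp only [map_mul, map_sum, map_pow, map_neg, map_one, map_natCast] at h1
      have h2 : (n : ℂ) ≠ 0 := by exact_mod_cast h0.ne'
      have h3 : (n : ℂ) * MvPolynomial.aeval x (MvPolynomial.esymm ι ℂ n) ∈ K := by
        rw [h1]
        refine K.mul_mem (K.pow_mem (K.neg_mem K.one_mem) _) (K.sum_mem fun a ha => ?_)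
        simp only [Finset.mem_filter] at ha
        refine K.mul_mem (K.mul_mem (K.pow_mem (K.neg_mem K.one_mem) _) (ih _ ha.2)) ?_
        have h4 : MvPolynomial.aeval x (MvPolynomial.psum ι ℂ a.2) = ∑ i, x i ^ a.2 := by
          simp [MvPolynomial.psum]
        rw [h4]
        exact h _
      have h5 : MvPolynomial.aeval x (MvPolynomial.esymm ι ℂ n) =
          (n : ℂ)⁻¹ * ((n : ℂ) * MvPolynomial.aeval x (MvPolynomial.esymm ι ℂ n)) := by
        field_simp
      rw [h5]
      exact K.mul_mem (K.inv_mem (natCast_mem K n)) h3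

/-- the coefficients of `∏ (X - x i)` lie in a subfield if the power sums do -/
theorem coeff_mem {ι : Type} [Fintype ι] (x : ι → ℂ) (K : Subfield ℂ)
    (h : ∀ k : ℕ, ∑ i, x i ^ k ∈ K) (l : ℕ) : (∏ i, (X - C (x i))).coeff l ∈ K := by
  classical
  have h1 : (∏ i, (X - C (x i))) = ((Finset.univ.val.map x).map fun t => X - C t).prod := by
    rw [Multiset.map_map]
    rfl
  rcases le_or_gt l (Fintype.card ι) with h2 | h2
  · have h3 : l ≤ Multiset.card (Finset.univ.val.map x) := by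
      simpa using h2
    rw [h1, Multiset.prod_X_sub_C_coeff _ h3]
    refine K.mul_mem (K.pow_mem (K.neg_mem K.one_mem) _) ?_
    rw [← MvPolynomial.aeval_esymm_eq_multiset_esymm ι ℂ]
    exact esymm_mem x K h _
  · rw [Polynomial.coeff_eq_zero_of_natDegree_lt]
    · exact K.zero_mem
    · rw [Polynomial.natDegree_prod_of_monic _ _ fun i _ => monic_X_sub_C _]
      simpa using h2

theorem sum_range_zmod (p : ℕ) [NeZero p] (g : ZMod p → ℂ) :
    ∑ j ∈ Finset.range p, g (j : ZMod p) = ∑ x : ZMod p, g x := by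
  refine Finset.sum_bij' (fun j _ => (j : ZMod p)) (fun x _ => x.val) ?_ ?_ ?_ ?_ ?_
  · intro a _; exact Finset.mem_univ _
  · intro a _; exact Finset.mem_range.2 (ZMod.val_lt a)
  · intro a ha; exact ZMod.val_cast_of_lt (Finset.mem_range.1 ha)
  · intro a _; exact ZMod.natCast_zmod_val a
  · intro a _; rfl

theorem gsum {p : ℕ} [Fact p.Prime] {χ : MulChar (ZMod p) ℂ} (h1 : χ ≠ 1) (h2 : χ.IsQuadratic)
    (ψ : AddChar (ZMod p) ℂ) (m : ZMod p) :
    ∑ x, χ x * ψ (m * x) = χ m * gaussSum χ ψ := by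
  by_cases hm : m = 0
  · subst hm
    have h3 : ∑ x, χ x = 0 := MulChar.sum_eq_zero_of_ne_one h1
    have h4 : χ (0 : ZMod p) = 0 := MulChar.map_zero χ
    simp only [zero_mul, AddChar.map_zero_eq_one, mul_one, h3, h4]
  · have h3 := gaussSum_mulShift χ ψ (Units.mk0 m hm)
    have h4 : χ m * χ m = 1 := by
      rw [← map_mul]
      rcases h2 m with h5 | h5 | h5
      · exfalso
        exact hm (by
          by_contra h6
          have h7 : IsUnit m := isUnit_iff_ne_zero.2 hm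
          have h8 := h7.map χ
          rw [h5] at h8
          exact not_isUnit_zero h8)
      · rw [map_mul, h5, mul_one]
      · rw [map_mul, h5]; norm_num
    have h5 : gaussSum χ (ψ.mulShift (Units.mk0 m hm : (ZMod p)ˣ)) = ∑ x, χ x * ψ (m * x) := by
      simp only [gaussSum, AddChar.mulShift_apply, Units.val_mk0]
    rw [h5, Units.val_mk0] at h3
    rw [← h3, ← mul_assoc, h4, one_mul]

/-- the main part, with the characters of `ZMod p` -/
theorem main {p : ℕ} [Fact p.Prime] {χ : MulChar (ZMod p) ℂ} (h1 : χ ≠ 1)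
    (h2 : χ.IsQuadratic) {ψ : AddChar (ZMod p) ℂ} (hψ : ψ.IsPrimitive) (K : Subfield ℂ)
    (hK : gaussSum χ ψ ∈ K) :
    ∃ F H : Polynomial ℂ, F.Monic ∧ H.Monic ∧ (∀ l, F.coeff l ∈ K) ∧ (∀ l, H.coeff l ∈ K) ∧
      2 * F.natDegree + 1 = p ∧ F * H = ∏ c : ZMod p, (X - C (ψ (-c))) ∧
      ∀ c, χ c = 1 → F.eval (ψ (-c)) = 0 := by
  classical
  have hz : χ (0 : ZMod p) = 0 := MulChar.map_zero χ
  have hne : ∀ c : ZMod p, c ≠ 0 → χ c ≠ 0 := fun c hc h5 => by
    have h8 := (isUnit_iff_ne_zero.2 hc).map χ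
    rw [h5] at h8
    exact not_isUnit_zero h8
  have hind : ∀ c : ZMod p, (if χ c = 1 then (1 : ℂ) else 0) =
      (1 + χ c - if c = 0 then 1 else 0) / 2 := by
    intro c
    by_cases hc : c = 0
    · subst hc; rw [hz]; simp
    · rcases h2 c with h5 | h5 | h5
      · exact absurd h5 (hne c hc)
      · rw [h5]; simp [hc]
      · rw [h5]; norm_num [hc]
  have hpow : ∀ (c : ZMod p) (k : ℕ), ψ (-c) ^ k = ψ ((-(k : ZMod p)) * c) := by
    intro c k
    rw [← AddChar.map_nsmul_eq_pow]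
    congr 1
    simp
  have hall : ∀ k : ℕ, ∑ c : ZMod p, ψ (-c) ^ k ∈ K := by
    intro k
    have h5 : ∑ c : ZMod p, ψ (-c) ^ k = ∑ c : ZMod p, ψ (c * (-(k : ZMod p))) :=
      Finset.sum_congr rfl fun c _ => by rw [hpow, mul_comm]
    rw [h5, AddChar.sum_mulShift _ hψ]
    exact natCast_mem K _
  have hone : ∀ k : ℕ, ∑ c : {c : ZMod p // χ c = 1}, ψ (-c.1) ^ k ∈ K := by
    intro k
    have h5 : ∑ c : {c : ZMod p // χ c = 1}, ψ (-c.1) ^ k =
        (∑ c : ZMod p, ψ (-c) ^ k + χ (-(k : ZMod p)) * gaussSum χ ψ - 1) / 2 := by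
      rw [← Finset.sum_subtype (Finset.univ.filter fun c : ZMod p => χ c = 1) (by simp)
        (fun c => ψ (-c) ^ k), Finset.sum_filter]
      have h6 : ∀ c : ZMod p, (if χ c = 1 then ψ (-c) ^ k else 0) =
          (ψ (-c) ^ k + χ c * ψ ((-(k : ZMod p)) * c) - (if c = 0 then 1 else 0)) / 2 := by
        intro c
        have h7 : (if χ c = 1 then ψ (-c) ^ k else 0) = (if χ c = 1 then (1 : ℂ) else 0) *
            ψ (-c) ^ k := by split_ifs <;> simp
        rw [h7, hind, ← hpow]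
        by_cases hc : c = 0
        · subst hc; simp
        · simp [hc]; ring
      rw [Finset.sum_congr rfl fun c _ => h6 c, ← Finset.sum_div, Finset.sum_sub_distrib,
        Finset.sum_add_distrib, gsum h1 h2]
      simp
    rw [h5]
    have h8 : χ (-(k : ZMod p)) ∈ K := by
      rcases h2 (-(k : ZMod p)) with h9 | h9 | h9 <;> rw [h9]
      · exact K.zero_mem
      · exact K.one_mem
      · exact K.neg_mem K.one_mem
    exact K.div_mem (K.sub_mem (K.add_mem (hall k) (K.mul_mem h8 hK)) K.one_mem)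
      (by exact_mod_cast natCast_mem K 2)
  have htwo : ∀ k : ℕ, ∑ c : {c : ZMod p // ¬ χ c = 1}, ψ (-c.1) ^ k ∈ K := by
    intro k
    have h5 := Fintype.sum_subtype_add_sum_subtype (fun c : ZMod p => χ c = 1)
      (fun c => ψ (-c) ^ k)
    have h6 : ∑ c : {c : ZMod p // ¬ χ c = 1}, ψ (-c.1) ^ k =
        ∑ c : ZMod p, ψ (-c) ^ k - ∑ c : {c : ZMod p // χ c = 1}, ψ (-c.1) ^ k := by
      rw [← h5]; ring
    rw [h6]
    exact K.sub_mem (hall k) (hone k)
  refine ⟨∏ c : {c : ZMod p // χ c = 1}, (X - C (ψ (-c.1))),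
    ∏ c : {c : ZMod p // ¬ χ c = 1}, (X - C (ψ (-c.1))),
    monic_prod_of_monic _ _ fun i _ => monic_X_sub_C _,
    monic_prod_of_monic _ _ fun i _ => monic_X_sub_C _,
    coeff_mem _ K hone, coeff_mem _ K htwo, ?_, ?_, ?_⟩
  · rw [Polynomial.natDegree_prod_of_monic _ _ fun i _ => monic_X_sub_C _]
    simp only [natDegree_X_sub_C, Finset.sum_const, smul_eq_mul, mul_one, Finset.card_univ]
    have h5 : ∑ c : ZMod p, (if χ c = 1 then (1 : ℂ) else 0) = ((p : ℂ) - 1) / 2 := by
      rw [Finset.sum_congr rfl fun c _ => hind c, ← Finset.sum_div, Finset.sum_sub_distrib,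
        Finset.sum_add_distrib, MulChar.sum_eq_zero_of_ne_one h1]
      simp [ZMod.card]
    have h6 : (Fintype.card {c : ZMod p // χ c = 1} : ℂ) = ((p : ℂ) - 1) / 2 := by
      rw [← h5, Fintype.card_subtype, Finset.card_filter]
      push_cast
      rfl
    have h7 : ((2 * Fintype.card {c : ZMod p // χ c = 1} + 1 : ℕ) : ℂ) = (p : ℂ) := by
      push_cast
      rw [h6]; ring
    exact_mod_cast h7
  · exact Fintype.prod_subtype_mul_prod_subtype (fun c : ZMod p => χ c = 1)
      (fun c => X - C (ψ (-c)))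
  · intro c hc
    rw [Polynomial.eval_prod]
    exact Finset.prod_eq_zero (Finset.mem_univ ⟨c, hc⟩) (by simp)

/-- the product over all `p`-th roots of unity -/
theorem prod_all {p : ℕ} [Fact p.Prime] {om : ℂ} (hom : IsPrimitiveRoot om p)
    (ψ : AddChar (ZMod p) ℂ) (hψ : ∀ a : ZMod p, ψ a = om ^ a.val) :
    ∏ c : ZMod p, (X - C (ψ (-c))) = (X : Polynomial ℂ) ^ p - 1 := by
  classical
  have hp : 0 < p := (Fact.out : p.Prime).pos
  rw [X_pow_sub_one_eq_prod hp hom]
  refine Finset.prod_bij (fun c _ => ψ (-c)) ?_ ?_ ?_ ?_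
  · intro c _
    rw [mem_nthRootsFinset hp, hψ, ← pow_mul, mul_comm, pow_mul, hom.pow_eq_one, one_pow]
  · intro a _ b _ hab
    rw [hψ, hψ] at hab
    have h1 := hom.pow_inj (ZMod.val_lt _) (ZMod.val_lt _) hab
    exact neg_injective (ZMod.val_injective p h1)
  · intro z hz
    rw [mem_nthRootsFinset hp] at hz
    obtain ⟨i, hi, h1⟩ := hom.eq_pow_of_pow_eq_one hz
    refine ⟨-(i : ZMod p), Finset.mem_univ _, ?_⟩
    rw [neg_neg, hψ, ZMod.val_cast_of_lt hi, h1]
  · intro a _; rfl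

/-- the last part: the relation kills the Fourier coefficients outside the squares -/
theorem last {p : ℕ} [Fact p.Prime] {χ : MulChar (ZMod p) ℂ} (h1 : χ ≠ 1) (h2 : χ.IsQuadratic)
    {ψ : AddChar (ZMod p) ℂ} (hψ : ψ.IsPrimitive) (F : Polynomial ℂ) (hF : F.natDegree < p)
    (hroot : ∀ c, χ c = 1 → F.eval (ψ (-c)) = 0) (f : ZMod p → ℂ)
    (hf : ∀ b, ∑ j, χ j * f (b + j) = gaussSum χ ψ * f b) (b : ZMod p) :
    ∑ l ∈ Finset.range p, F.coeff l * f (b - l) = 0 := by
  classical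
  have hG : gaussSum χ ψ ≠ 0 := by
    intro h0
    have h3 := gaussSum_sq h1 h2 hψ
    rw [h0, ZMod.card] at h3
    have h4 : χ (-1) ≠ 0 := fun h5 => by
      have h8 := (isUnit_one.neg : IsUnit (-1 : ZMod p)).map χ
      rw [h5] at h8
      exact not_isUnit_zero h8
    have h5 : ((p : ℕ) : ℂ) ≠ 0 := by exact_mod_cast (Fact.out : p.Prime).ne_zero
    exact mul_ne_zero h4 h5 (by rw [← h3]; simp)
  set a : ZMod p → ℂ := fun c => ∑ x, f x * ψ (-(x * c)) with ha
  have ha0 : ∀ c, χ c ≠ 1 → a c = 0 := by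
    intro c hc
    have h3 : (χ c * gaussSum χ ψ) * a c = gaussSum χ ψ * a c := by
      calc (χ c * gaussSum χ ψ) * a c = ∑ j, (χ j * ψ (c * j)) * a c := by
            rw [← gsum h1 h2, Finset.sum_mul]
        _ = ∑ j, ∑ x, χ j * ψ (c * j) * (f (x + j) * ψ (-((x + j) * c))) := by
            refine Finset.sum_congr rfl fun j _ => ?_
            rw [ha, Finset.mul_sum]
            exact (Equiv.sum_comp (Equiv.addRight j)
              (fun x => χ j * ψ (c * j) * (f x * ψ (-(x * c))))).symm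
        _ = ∑ x, ∑ j, χ j * f (x + j) * ψ (-(x * c)) := by
            rw [Finset.sum_comm]
            refine Finset.sum_congr rfl fun x _ => Finset.sum_congr rfl fun j _ => ?_
            have h4 : ψ (-(x * c)) = ψ (c * j) * ψ (-((x + j) * c)) := by
              rw [← AddChar.map_add_eq_mul]
              congr 1
              ring
            rw [h4]; ring
        _ = gaussSum χ ψ * a c := by
            rw [ha, Finset.mul_sum]
            refine Finset.sum_congr rfl fun x _ => ?_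
            rw [← Finset.sum_mul, hf]; ring
    have h4 : (χ c - 1) * (gaussSum χ ψ * a c) = 0 := by linear_combination h3
    rcases mul_eq_zero.1 h4 with h5 | h5
    · exact absurd (sub_eq_zero.1 h5) hc
    · exact (mul_eq_zero.1 h5).resolve_left hG
  set T : ZMod p → ℂ := fun x => ∑ l ∈ Finset.range p, F.coeff l * f (x - l) with hT
  have hTc : ∀ c, ∑ x, T x * ψ (-(x * c)) = 0 := by
    intro c
    have h3 : ∑ x, T x * ψ (-(x * c)) = F.eval (ψ (-c)) * a c := by
      rw [Polynomial.eval_eq_sum_range' hF, Finset.sum_mul]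
      simp only [hT, Finset.sum_mul]
      rw [Finset.sum_comm]
      refine Finset.sum_congr rfl fun l _ => ?_
      rw [ha, Finset.mul_sum]
      rw [← Equiv.sum_comp (Equiv.addRight (l : ZMod p))
        (fun x => F.coeff l * f (x - l) * ψ (-(x * c)))]
      refine Finset.sum_congr rfl fun x _ => ?_
      have h4 : ψ (-c) ^ l = ψ (-((l : ZMod p) * c)) := by
        rw [← AddChar.map_nsmul_eq_pow]
        congr 1
        simp
      simp only [Equiv.coe_addRight, add_sub_cancel_right]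
      have h5 : ψ (-((x + (l : ZMod p)) * c)) = ψ (-((l : ZMod p) * c)) * ψ (-(x * c)) := by
        rw [← AddChar.map_add_eq_mul]
        congr 1
        ring
      rw [h5, h4]; ring
    rw [h3]
    by_cases hc : χ c = 1
    · rw [hroot c hc, zero_mul]
    · rw [ha0 c hc, mul_zero]
  have h3 : ∑ c, ψ (b * c) * ∑ x, T x * ψ (-(x * c)) = (p : ℂ) * T b := by
    have h4 : ∀ c : ZMod p, ψ (b * c) * ∑ x, T x * ψ (-(x * c)) =
        ∑ x, T x * ψ (c * (b - x)) := by
      intro c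
      rw [Finset.mul_sum]
      refine Finset.sum_congr rfl fun x _ => ?_
      have h5 : ψ (c * (b - x)) = ψ (b * c) * ψ (-(x * c)) := by
        rw [← AddChar.map_add_eq_mul]
        congr 1
        ring
      rw [h5]; ring
    rw [Finset.sum_congr rfl fun c _ => h4 c, Finset.sum_comm]
    have h6 : ∀ x : ZMod p, ∑ c, T x * ψ (c * (b - x)) = if x = b then (p : ℂ) * T b else 0 := by
      intro x
      rw [← Finset.mul_sum, AddChar.sum_mulShift _ hψ]
      by_cases hx : x = b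
      · subst hx
        simp [ZMod.card, mul_comm]
      · have h7 : b - x ≠ 0 := sub_ne_zero.2 (Ne.symm hx)
        simp [hx, h7]
    rw [Finset.sum_congr rfl fun x _ => h6 x]
    simp
  have h4 : (p : ℂ) * T b = 0 := by
    rw [← h3]
    exact Finset.sum_eq_zero fun c _ => by rw [hTc c, mul_zero]
  exact (mul_eq_zero.1 h4).resolve_left (by exact_mod_cast (Fact.out : p.Prime).ne_zero)

end FAC

open Finset in
/-- (FAC) -/
theorem to_FAC : So_FAC := by
  intro p hp hp2 om hom K hK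
  have : Fact p.Prime := ⟨hp⟩
  have hrc : ringChar (ZMod p) ≠ 2 := by rw [ZMod.ringChar_zmod_n]; exact hp2
  set χ : MulChar (ZMod p) ℂ := (quadraticChar (ZMod p)).ringHomComp (Int.castRingHom ℂ) with hχ
  have hχ2 : χ.IsQuadratic := (quadraticChar_isQuadratic (F := ZMod p)).comp _
  have hχ1 : χ ≠ 1 := by
    intro h
    obtain ⟨a, ha⟩ := quadraticChar_exists_neg_one' (F := ZMod p) hrc
    have h3 : χ (a : ZMod p) = 1 := by rw [h]; exact MulChar.one_apply_coe a
    rw [hχ, MulChar.ringHomComp_apply, ha] at h3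
    norm_num at h3
  have hj : ∀ j : ℕ, (jacobiSym (j : ℤ) p : ℂ) = χ (j : ZMod p) := by
    intro j
    rw [← jacobiSym.legendreSym.to_jacobiSym, legendreSym, hχ, MulChar.ringHomComp_apply]
    simp
  have hom1 : om ^ p = 1 := hom.pow_eq_one
  set ψ : AddChar (ZMod p) ℂ := AddChar.zmodChar p hom1 with hψd
  have hψ : ψ.IsPrimitive := AddChar.zmodChar_primitive_of_primitive_root p hom
  have hG : ∑ j ∈ Finset.range p, (jacobiSym (j : ℤ) p : ℂ) * om ^ j = gaussSum χ ψ := by
    rw [gaussSum, ← FAC.sum_range_zmod p (fun x => χ x * ψ x)]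
    refine Finset.sum_congr rfl fun j _ => ?_
    rw [hj, hψd, AddChar.zmodChar_apply']
  rw [hG] at hK
  obtain ⟨F, H, hF, hH, hFK, hHK, hdeg, hFH, hroot⟩ := FAC.main hχ1 hχ2 hψ K hK
  refine ⟨F, H, hF, hH, hFK, hHK, hdeg, ?_, ?_, ?_⟩
  · rw [hFH]
    exact FAC.prod_all hom ψ fun a => AddChar.zmodChar_apply hom1 a
  · have h3 := hroot 1 (map_one χ)
    have h4 : ψ (-1) = om⁻¹ := by
      rw [AddChar.map_neg_eq_inv]
      congr 1
      have h5 := AddChar.zmodChar_apply' hom1 1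
      rw [hψd]
      simpa using h5
    rw [← h4]; exact h3
  · intro f hper hrel b
    set g : ZMod p → ℂ := fun x => f (x.val : ℤ) with hg
    have hfg : ∀ b : ℤ, f b = g (b : ZMod p) := by
      intro b
      refine hper _ _ ?_
      have h3 : ((b - ((b : ZMod p).val : ℤ) : ℤ) : ZMod p) = 0 := by
        push_cast
        rw [ZMod.natCast_zmod_val]; simp
      exact (ZMod.intCast_zmod_eq_zero_iff_dvd _ _).1 h3
    have h5 := FAC.last hχ1 hχ2 hψ F (by omega) hroot g ?_ (b : ZMod p)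
    · rw [← h5]
      refine Finset.sum_congr rfl fun l _ => ?_
      rw [hfg]; push_cast; rfl
    · intro x
      have h6 := hrel (x.val : ℤ)
      rw [hG] at h6
      rw [← FAC.sum_range_zmod p (fun j => χ j * g (x + j))]
      have h7 : g x = f (x.val : ℤ) := rfl
      rw [h7, ← h6]
      refine Finset.sum_congr rfl fun j _ => ?_
      rw [hj, hfg]; push_cast; rw [ZMod.natCast_zmod_val]

end Pool.Agent.OBH


end

section

/-!
# OB, block H, module HKN (helper81): the part `s` of a depleted symbol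
-/

set_option autoImplicit false

namespace Pool.Agent.OBH

open _root_.MU3 Pool.Agent.MuSym Pool.Agent.MUXH OnePoint

noncomputable section

/-- a sum over the classes of a function of period one, reflected -/
theorem HKN.refl_sum (p : ℕ) (hp : p ≠ 0) (f : ℚ → ℂ) (hf : ∀ (r : ℚ) (k : ℤ), f (r + k) = f r)
    (x : ℚ) :
    ∑ j ∈ Finset.range p, f (-((x + j) / p)) = ∑ j ∈ Finset.range p, f ((-x + j) / p) := by
  obtain ⟨n, rfl⟩ := Nat.exists_eq_succ_of_ne_zero hp
  rw [Finset.sum_range_succ', Finset.sum_range_succ',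
    ← Finset.sum_range_reflect (fun j => f ((-x + ((j + 1 : ℕ) : ℚ)) / (n.succ : ℕ))) n]
  congr 1
  · refine Finset.sum_congr rfl fun j hj => ?_
    have hj' : j < n := Finset.mem_range.mp hj
    have hn : ((n.succ : ℕ) : ℚ) ≠ 0 := by exact_mod_cast Nat.succ_ne_zero n
    have e : ((n - 1 - j + 1 : ℕ) : ℚ) = (n : ℚ) - j := by
      have : n - 1 - j + 1 = n - j := by omega
      rw [this, Nat.cast_sub hj'.le]
    rw [← hf (-((x + ((j + 1 : ℕ) : ℚ)) / (n.succ : ℕ))) 1]
    congr 1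
    rw [e]
    field_simp
    push_cast
    ring
  · congr 1
    push_cast
    ring

/-- (HKN) the part `s` of a depleted symbol. -/
theorem to_HKN : So_HKN := by
  intro p hp N' nu P s hP hnu hdep
  obtain ⟨h1, h2, -⟩ := tx_HK p hp.one_lt.le N' nu P P hP hnu s
  refine ⟨h2, h1, ?_⟩
  have ht : ∀ (r : ℚ) (k : ℤ), P ∞ ((r + k : ℚ) : OnePoint ℚ) = P ∞ (r : OnePoint ℚ) := by
    intro r k
    have h := hP.equiv 1 k 0 1 (by ring) (dvd_zero _) ∞ (r : OnePoint ℚ)
    rw [Hk.mob_inf, Hk.mob_tr, hnu, one_mul] at h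
    exact h
  have hs : ∀ r : ℚ, sgnPart s P ∞ (r : OnePoint ℚ) =
      P ∞ (r : OnePoint ℚ) + s * P ∞ ((-r : ℚ) : OnePoint ℚ) := by
    intro r
    unfold sgnPart
    rw [Hk.mob_inf, Hk.mob_neg]
  intro x
  have e1 := hdep x
  have e2 := hdep (-x)
  have e3 := HKN.refl_sum p hp.ne_zero (fun r => P ∞ ((r : ℚ) : OnePoint ℚ)) ht x
  simp only [hs, Finset.sum_add_distrib, ← Finset.mul_sum]
  rw [e1, e3, e2]
  ring

end

end Pool.Agent.OBH


end

section

/-!
# OB, block H, module PAI (helper99): the value at a pair of determinant `p^n`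
-/

set_option autoImplicit false

namespace Pool.Agent.OBH

open _root_.MU3 Pool.Agent.MuSym Pool.Agent.MUXH OnePoint

noncomputable section

/-- PAI. -/
theorem to_PAI : So_PAI := by
  intro p hp N' nu Q hQ n a b c d hc hd hac hN hdet
  obtain ⟨u, v, huv⟩ := hac
  have hc' : (c : ℚ) ≠ 0 := by exact_mod_cast hc
  have hd' : (d : ℚ) ≠ 0 := by exact_mod_cast hd
  have hp0 : (p : ℚ) ≠ 0 := by exact_mod_cast hp.ne_zero
  have h3 : ((p : ℚ) ^ n) ≠ 0 := pow_ne_zero n hp0
  have hdet' : (a : ℚ) * d - b * c = (p : ℚ) ^ n := by exact_mod_cast hdet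
  refine ⟨u * b + v * d, ⟨v, ?_⟩, ?_⟩
  · linear_combination b * huv + v * hdet
  · have h1 := hQ.equiv u v (-c) a (by linear_combination huv) ((dvd_neg).2 hN)
      (((a : ℚ) / c : ℚ) : OnePoint ℚ) (((b : ℚ) / d : ℚ) : OnePoint ℚ)
    rw [← h1]
    have e1 : mob u v (-c) a (((a : ℚ) / c : ℚ) : OnePoint ℚ) = ∞ := by
      show (if ((-c : ℤ) : ℚ) * ((a : ℚ) / c) + a = 0 then (∞ : OnePoint ℚ) else _) = _
      rw [if_pos]
      push_cast
      field_simp
      ring
    have e2 : mob u v (-c) a (((b : ℚ) / d : ℚ) : OnePoint ℚ) =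
        ((((u * b + v * d : ℤ) : ℚ) / (p : ℚ) ^ n : ℚ) : OnePoint ℚ) := by
      have h2 : ((-c : ℤ) : ℚ) * ((b : ℚ) / d) + a = (p : ℚ) ^ n / d := by
        rw [← hdet']
        push_cast
        field_simp
        ring
      show (if ((-c : ℤ) : ℚ) * ((b : ℚ) / d) + a = 0 then (∞ : OnePoint ℚ) else
        (((u * ((b : ℚ) / d) + v) / (((-c : ℤ) : ℚ) * ((b : ℚ) / d) + a) : ℚ) : OnePoint ℚ)) = _
      rw [h2, if_neg (div_ne_zero h3 hd')]
      congr 1
      push_cast
      field_simp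
    rw [e1, e2]

end

end Pool.Agent.OBH


end

section

/-!
# OB, block H, module TYP: arithmetic of types
-/

set_option autoImplicit false

namespace Pool.Agent.OBH

open _root_.MU3 Pool.Agent.MuSym Pool.Agent.MUXH OnePoint

noncomputable section

namespace TYP

variable {Γ : Type*} [LinearOrderedCommGroupWithZero Γ]

lemma one_le_of_pow {a : Γ} {n : ℕ} (h : 1 ≤ a ^ n) (hn : n ≠ 0) : 1 ≤ a := by
  by_contra hc
  exact absurd h (not_le.2 (pow_lt_one₀ zero_le (not_le.1 hc) hn))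

lemma key {t a x : Γ} (ht : t < 1) (e q i m M : ℕ) (he : 1 ≤ e) (hiq : i < q)
    (hE : e * q ≤ i * m) (hM : e * q < M) (hx : x < 1 → x ^ e ≤ t)
    (hp : a ^ (e * q) * t ^ i = 1) :
    (t ≤ (a * x) ^ M → 1 ≤ a * x) ∧ (1 ≤ a * x → 1 ≤ (a * x) ^ m * t) := by
  have hE0 : e * q ≠ 0 := Nat.mul_ne_zero (by omega) (by omega)
  have hi0 : i ≠ 0 := by
    rintro rfl
    rw [Nat.zero_mul] at hE
    omega
  have ht0 : t ≠ 0 := by
    rintro rfl
    rw [zero_pow hi0, mul_zero] at hp
    exact zero_ne_one hp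
  have htp : 0 < t := zero_lt_iff.2 ht0
  have hti : t ^ i ≤ 1 := pow_le_one' ht.le i
  have hp1 : 1 ≤ a := by
    apply one_le_of_pow (n := e * q) _ hE0
    calc (1 : Γ) = a ^ (e * q) * t ^ i := hp.symm
      _ ≤ a ^ (e * q) * 1 := mul_le_mul' le_rfl hti
      _ = a ^ (e * q) := mul_one _
  have e0 : (a * x) ^ (e * q) * t ^ i = x ^ (e * q) := by
    rw [mul_pow, mul_right_comm, hp, one_mul]
  have h0 : x < 1 → (a * x) ^ (e * q) * t ^ i ≤ t ^ q := by
    intro h
    rw [e0, pow_mul]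
    exact pow_le_pow_left' (hx h) q
  constructor
  · intro h
    by_cases hx1 : x < 1
    · exfalso
      have h1 : t ^ (e * q + i * M) ≤ t ^ (M + i * M) := by
        calc t ^ (e * q + i * M) = t ^ (e * q) * t ^ (i * M) := pow_add _ _ _
          _ ≤ ((a * x) ^ M) ^ (e * q) * t ^ (i * M) :=
              mul_le_mul' (pow_le_pow_left' h (e * q)) le_rfl
          _ = ((a * x) ^ (e * q) * t ^ i) ^ M := by
              rw [mul_pow ((a * x) ^ (e * q)) (t ^ i) M, ← pow_mul, ← pow_mul, ← pow_mul,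
                mul_comm M (e * q)]
          _ ≤ (t ^ q) ^ M := pow_le_pow_left' (h0 hx1) M
          _ = t ^ (q * M) := (pow_mul _ _ _).symm
          _ ≤ t ^ (M + i * M) := by
              apply pow_le_pow_right_of_le_one' ht.le
              calc M + i * M = (i + 1) * M := by ring
                _ ≤ q * M := Nat.mul_le_mul_right M hiq
      have h2 : t ^ (M + i * M) < t ^ (e * q + i * M) :=
        pow_lt_pow_right_of_lt_one₀ htp ht (by omega)
      exact absurd h1 (not_le.2 h2)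
    · exact one_le_mul hp1 (not_lt.1 hx1)
  · intro h
    by_cases hx1 : x < 1
    · exfalso
      have h1 : t ^ i ≤ t ^ q := by
        calc t ^ i = 1 * t ^ i := (one_mul _).symm
          _ ≤ (a * x) ^ (e * q) * t ^ i := mul_le_mul' (one_le_pow_of_one_le' h _) le_rfl
          _ ≤ t ^ q := h0 hx1
      exact absurd h1 (not_le.2 (pow_lt_pow_right_of_lt_one₀ htp ht hiq))
    · have hx2 : 1 ≤ x := not_lt.1 hx1
      apply one_le_of_pow (n := e * q) _ hE0
      calc (1 : Γ) ≤ (x ^ (e * q)) ^ m := one_le_pow_of_one_le' (one_le_pow_of_one_le' hx2 _) _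
        _ = ((a * x) ^ (e * q) * t ^ i) ^ m := by rw [e0]
        _ = (a * x) ^ (e * q * m) * t ^ (i * m) := by
            rw [mul_pow ((a * x) ^ (e * q)) (t ^ i) m, ← pow_mul, ← pow_mul]
        _ ≤ (a * x) ^ (e * q * m) * t ^ (e * q) :=
            mul_le_mul' le_rfl (pow_le_pow_right_of_le_one' ht.le hE)
        _ = ((a * x) ^ m * t) ^ (e * q) := by
            rw [mul_pow ((a * x) ^ m) t (e * q), ← pow_mul, mul_comm m (e * q)]

end TYP

open _root_.Pool.Agent.OBH.TYP in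
theorem to_TYP : So_TYP := by
  intro p hpp V hv KI e q i he hiq hE hM hKI pi hpi w hw
  have h := key hv e q i (p - 1) ((p - 1) * p ^ 2) he hiq hE hM (hKI w hw) hpi
  rw [map_mul]
  exact h

end

end Pool.Agent.OBH


end

section

/-!
# OB, block H, bridge (helper66): (DEP) depletion
-/

set_option autoImplicit false

namespace Pool.Agent.OBH

open _root_.MU3 _root_.Pool.Agent.MU3A _root_.Pool.Agent.MU3B _root_.Pool.Agent.MU3F _root_.Pool.Agent.MUX
  _root_.Pool.Agent.MUXH _root_.Pool.Agent.MUXHY _root_.Pool.Agent.MuSym _root_.Pool.Agent.OB OnePoint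
open scoped ComplexConjugate

noncomputable section

variable {A B : ℤ}

/-- the sum over the translates by thirds of theta is zero -/
theorem DEP.theta_dep {p : ℕ} (hp0 : p ≠ 0) {g : Ideal (OO A B)} (hcq : CQ A B) (hg : g ≠ ⊥)
    {e : OO A B → ℂ} (he : IsEI g e) {b : Ideal (OO A B)}
    (hb : b ≠ ⊥) (hq : ∀ x ∈ b, e x ≠ 0 → ¬ (p : ℤ) ∣ MUXF.qb b x) (z : ℂ) (hz : 0 < z.im) :
    ∑ j ∈ Finset.range p, thetaI b e (z + (j : ℂ) / p) = 0 := by
  have hcq := toCQ hcq
  obtain ⟨-, C, hC0, hC⟩ := MUXF.xf_BDD A B hcq _ e hg (toEI he)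
  have him : ∀ j : ℕ, 0 < (z + (j : ℂ) / p).im := by
    intro j
    have : ((j : ℂ) / p).im = 0 := by
      have : ((j : ℂ) / p) = (((j : ℝ) / p : ℝ) : ℂ) := by push_cast; ring
      rw [this]
      exact Complex.ofReal_im _
    rw [Complex.add_im, this, add_zero]
    exact hz
  have hsum : ∀ j : ℕ, Summable (fun x : b => e x * (starRingEnd ℂ) (emb (x : OO A B)) *
      Complex.exp (2 * Real.pi * Complex.I * ((nm (x : OO A B) : ℂ) / nI b) *
        (z + (j : ℂ) / p))) :=
    fun j : ℕ => MUXF.xf_TSM A B hcq b hb e C hC (z + (j : ℂ) / p) (him j)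
  have e1 : ∑ j ∈ Finset.range p, thetaI b e (z + (j : ℂ) / p) =
      (1 / 2) * ∑ j ∈ Finset.range p, ∑' x : b, e x * (starRingEnd ℂ) (emb (x : OO A B)) *
        Complex.exp (2 * Real.pi * Complex.I * ((nm (x : OO A B) : ℂ) / nI b) *
          (z + (j : ℂ) / p)) := by
    rw [Finset.mul_sum]
    rfl
  rw [e1, ← Summable.tsum_finsetSum (fun j _ => hsum j)]
  have e2 : ∀ x : b, ∑ j ∈ Finset.range p, e x * (starRingEnd ℂ) (emb (x : OO A B)) *
      Complex.exp (2 * Real.pi * Complex.I * ((nm (x : OO A B) : ℂ) / nI b) *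
        (z + (j : ℂ) / p)) = 0 := by
    intro x
    obtain ⟨h1, h2⟩ := (MUXF.xf_QB A B hcq b hb).1 x x.2
    have hnI : ((nI b : ℕ) : ℂ) ≠ 0 := by
      have := (MUXF.xf_IDL A B hcq b hb).1
      exact_mod_cast this
    by_cases he0 : e (x : OO A B) = 0
    · rw [he0]
      simp
    have h3 := hq x x.2 he0
    have h4 : ((nm (x : OO A B) : ℤ) : ℂ) / ((nI b : ℕ) : ℂ) = ((MUXF.qb b (x : OO A B) : ℤ) : ℂ) := by
      have h5 : nm (x : OO A B) = (nI b : ℤ) * MUXF.qb b (x : OO A B) := h1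
      rw [h5]
      push_cast
      field_simp
    have hpC : ((p : ℕ) : ℂ) ≠ 0 := Nat.cast_ne_zero.2 hp0
    set N : ℤ := MUXF.qb b (x : OO A B) with hN
    have e3 : ∀ j : ℕ, Complex.exp (2 * Real.pi * Complex.I * ((nm (x : OO A B) : ℂ) / nI b) *
        (z + (j : ℂ) / p)) = Complex.exp (2 * Real.pi * Complex.I * N * z) *
          Complex.exp (2 * Real.pi * Complex.I * N / p) ^ j := by
      intro j
      rw [← Complex.exp_nat_mul, ← Complex.exp_add, h4]
      congr 1
      ring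
    simp only [e3]
    set q : ℂ := Complex.exp (2 * Real.pi * Complex.I * N / p) with hq'
    have hq3 : q ^ p = 1 := by
      rw [hq', ← Complex.exp_nat_mul, Complex.exp_eq_one_iff]
      exact ⟨N, by field_simp⟩
    have hq1 : q ≠ 1 := by
      intro h
      rw [hq', Complex.exp_eq_one_iff] at h
      obtain ⟨k, hk⟩ := h
      apply h3
      refine ⟨k, ?_⟩
      have hpi : (2 * Real.pi * Complex.I : ℂ) ≠ 0 := Complex.two_pi_I_ne_zero
      have h6 : (2 * Real.pi * Complex.I : ℂ) * N = (2 * Real.pi * Complex.I) * (p * k) := by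
        have h8 : (2 * Real.pi * Complex.I * N / p : ℂ) * p = (k * (2 * Real.pi * Complex.I)) * p := by
          rw [hk]
        rw [div_mul_cancel₀ _ hpC] at h8
        rw [h8]
        ring
      have h7 := mul_left_cancel₀ hpi h6
      exact_mod_cast h7
    have h5 : ∑ j ∈ Finset.range p, q ^ j = 0 := by
      have h6 := mul_geom_sum q p
      rw [hq3, sub_self] at h6
      exact (mul_eq_zero.1 h6).resolve_left (sub_ne_zero.2 hq1)
    have h6 : ∀ j ∈ Finset.range p, e x * (starRingEnd ℂ) (emb (x : OO A B)) *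
        (Complex.exp (2 * Real.pi * Complex.I * N * z) * q ^ j) =
        e x * (starRingEnd ℂ) (emb (x : OO A B)) *
        Complex.exp (2 * Real.pi * Complex.I * N * z) * q ^ j := fun j _ => by ring
    rw [Finset.sum_congr rfl h6, ← Finset.mul_sum, h5, mul_zero]
  rw [tsum_congr e2, tsum_zero, mul_zero]

/-- (DEP) depletion -/
theorem to_DEP (h1 : So_VAL) (h2 : So_QBO) : So_DEP := by
  intro p er A B P V f hS e he b hb x
  obtain ⟨-, -, -, -, -, -, hg, -, -, -, -, -, -, -⟩ := h1 p er A B P V f hS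
  have hp0 : p ≠ 0 := hS.pp.ne_zero
  have hq := fun y hy h0 => (h2 p er A B P V f hS e he b hb y hy h0).2.1
  have hcq := toCQ hS.cq
  have hI := fun r : ℚ => MUXF.xf_ITG A B hcq b _ e hb hg (toEI he) r
  have e1 : ∀ j ∈ Finset.range p, PhiI b e ∞ (((x + j) / p : ℚ) : OnePoint ℚ) =
      2 * Real.pi * ∫ t in Set.Ioi (0 : ℝ), thetaI b e (((x / p : ℚ) : ℂ) + t * Complex.I +
        (j : ℂ) / p) := by
    intro j _
    rw [Qsx.PhiI_inf]
    unfold IvI
    rw [neg_mul, neg_neg]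
    congr 1
    refine MeasureTheory.integral_congr_ae (Filter.Eventually.of_forall fun t => ?_)
    show thetaI b e _ = thetaI b e _
    congr 1
    push_cast
    ring
  rw [Finset.sum_congr rfl e1, ← Finset.mul_sum, ← MeasureTheory.integral_finsetSum]
  · have e2 : ∫ t in Set.Ioi (0 : ℝ), ∑ j ∈ Finset.range p,
        thetaI b e (((x / p : ℚ) : ℂ) + t * Complex.I + (j : ℂ) / p) = 0 := by
      rw [MeasureTheory.setIntegral_congr_fun (g := fun _ => (0 : ℂ)) measurableSet_Ioi]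
      · simp
      · intro t ht
        refine DEP.theta_dep hp0 hS.cq hg he hb hq _ ?_
        have h1 : (((x / p : ℚ) : ℂ)).im = 0 := by
          rw [← Complex.ofReal_ratCast]
          exact Complex.ofReal_im _
        rw [Complex.add_im, h1, zero_add, Complex.mul_im]
        simpa using ht
    rw [e2, mul_zero]
  · intro j _
    have h1 := hI ((x + j) / p)
    refine h1.congr_fun ?_ measurableSet_Ioi
    intro t _
    show thetaI b e _ = thetaI b e _
    congr 1
    push_cast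
    ring

end

end Pool.Agent.OBH


end

section

/-!
# OB, block H, bridge: module HF1 (the result for `er = 1`)
-/

set_option autoImplicit false

namespace Pool.Agent.OBH

open _root_.MU3 _root_.Pool.Agent.MU3A _root_.Pool.Agent.MU3B _root_.Pool.Agent.MU3F _root_.Pool.Agent.MUX
  _root_.Pool.Agent.MUXH _root_.Pool.Agent.MUXHY _root_.Pool.Agent.MuSym _root_.Pool.Agent.OB OnePoint
open _root_.Pool.Agent.MUXF (qb)

noncomputable section

theorem to_HF1 (h1 : So_HQ1) (h2 : So_HN) (h3 : So_VAL) (h4 : So_RAM) : So_HF1 := by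
  intro p A B P V f hS hT ι _ R u el lam hg w hw e he r hrp her i hi1 hi2 hty s hs kk hkk n₀
  obtain ⟨-, -, v1, -, -, -, -, -, hpf, -, -, -, -, -⟩ := h3 p 1 A B P V f hS
  obtain ⟨hnI, -, -⟩ := h4 p 1 A B P V hS.toCaseO
  have hcq : CQ A B := hS.cq
  have hp : p.Prime := hS.pp
  have hp5 : 5 ≤ p := hS.p5
  have hpz : Prime (p : ℤ) := Nat.prime_iff_prime_int.mp hp
  have hr0 : r ≠ 0 := by
    rintro rfl
    exact hrp (dvd_zero p)
  have hf0 := hS.f0
  set kk' : ι → ℂ := fun c => kk c / e ((nI (R.b c) : ℕ) : OO A B) with hkk'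
  have heN : ∀ c, e ((nI (R.b c) : ℕ) : OO A B) ≠ 0 := Brg.e_nI R he hpf
  have hk1 : ∀ c, kk' c ^ r = 1 := by
    intro c
    rw [hkk']
    beta_reduce
    rw [div_pow, hkk, her _ (heN c), div_one]
  obtain ⟨pi, KI, hyp, hdep, hunr, hvpi⟩ := h1 p A B P V f hS hT ι R u el lam hg w hw e he r hrp
    her i hi1 hi2 hty s hs kk' hk1
  have hpp : p ≤ p ^ 2 := by nlinarith
  have hnP : p ≤ nI P ∧ nI P ≤ p ^ 2 := by
    rcases hnI with h | h <;> rw [h]
    · exact ⟨le_rfl, hpp⟩
    · exact ⟨hpp, le_rfl⟩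
  have hq2 : i < nI P - 1 := by omega
  have hq3 : nI P - 1 < (p - 1) * p ^ 2 := by
    have h5 : 1 * p ^ 2 ≤ (p - 1) * p ^ 2 := Nat.mul_le_mul_right _ (by omega)
    have h6 : 0 < p ^ 2 := by positivity
    omega
  have hq0 : q0 p = p := by
    unfold q0
    rw [if_neg (by omega)]
  have hfz : (0 : ℤ) < f := by exact_mod_cast Nat.pos_of_ne_zero hf0
  have haz : ((aX p f : ℕ) : ℤ) - 1 = p * (2 * f) := by
    unfold aX
    rw [hq0]
    push_cast
    ring
  have hap : (p : ℤ) ∣ ((aX p f : ℕ) : ℤ) - 1 := by rw [haz]; exact Dvd.intro _ rfl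
  have hpz0 : (0 : ℤ) < p := by exact_mod_cast hp.pos
  have ha1 : ((aX p f : ℕ) : ℤ) ≠ 1 := by
    intro h
    rw [h, sub_self] at haz
    have : (0 : ℤ) < p * (2 * f) := by positivity
    omega
  obtain ⟨n, hn, hmain⟩ := h2 p V (N0O p 1 A B f) 1 (nI P - 1) i (nuX e) _ pi KI hyp hdep hunr
    hi1 hq2 hq3 hvpi ((aX p f : ℕ) : ℤ) (1 + (p : ℤ)) hap ha1 (by rw [add_sub_cancel_left])
    (by omega) n₀
  refine ⟨n, hn, ?_⟩
  have hQS := ty_QSX MUXF.xf_F5 MUXF.xf_PRD p hp A B hcq ⊤ f hf0 ι inferInstance R _ e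
    he hpf kk s 1 n
  have hM : p * p ^ n = p ^ (n + 1) := by ring
  rw [hq0, hM] at hQS
  have hL : ∑ j ∈ Finset.range 2, (-1 : ℂ) ^ (1 - j) *
        (STX R (lvX p f n) (p ^ (n + 1)) (aX p f) e kk ((1 + (p : ℤ)) ^ j) +
          s * STX R (lvX p f n) (p ^ (n + 1)) (aX p f) e kk (-((1 + (p : ℤ)) ^ j))) =
      ∑ j ∈ Finset.range (1 + 1), ((-1 : ℂ) ^ (1 - j) * ((1 : ℕ).choose j : ℂ)) *
        (STX R (lvX p f n) (p ^ (n + 1)) (aX p f) e kk ((1 + (p : ℤ)) ^ j) +
          s * STX R (lvX p f n) (p ^ (n + 1)) (aX p f) e kk (-(1 + (p : ℤ)) ^ j)) := by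
    refine Finset.sum_congr rfl fun j hj => ?_
    have hj2 : j = 0 ∨ j = 1 := by
      have := Finset.mem_range.1 hj
      omega
    rcases hj2 with rfl | rfl <;> simp
  rw [hL, hQS]
  have hprim := Hfx.prim p (n + 1) hp (-((1 + (p : ℤ)) * ((aX p f : ℕ) : ℤ) ^ 2)) (by
    intro h
    rw [dvd_neg] at h
    have hnu : ¬ (p : ℤ) ∣ 1 := fun h7 => hpz.not_isUnit (isUnit_of_dvd_one h7)
    rcases hpz.dvd_or_dvd h with h | h
    · exact hnu ((dvd_add_left (dvd_refl (p : ℤ))).1 h)
    · have h5 := hpz.dvd_of_dvd_pow h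
      have h6 := dvd_sub h5 hap
      rw [sub_sub_cancel] at h6
      exact hnu h6)
  have hζ : ex (-((1 + (p : ℚ)) ^ 1 * (aX p f : ℚ) ^ 2) / ((p ^ (n + 1) : ℕ) : ℚ)) =
      ex (((-((1 + (p : ℤ)) * ((aX p f : ℕ) : ℤ) ^ 2) : ℤ) : ℚ) / (p : ℚ) ^ (n + 1)) := by
    push_cast
    rw [pow_one]
  rw [hζ]
  set ζ : ℂ := ex (((-((1 + (p : ℤ)) * ((aX p f : ℕ) : ℤ) ^ 2) : ℤ) : ℚ) / (p : ℚ) ^ (n + 1))
    with hζd
  have h5 := hmain ζ hprim
  have hu := hg.u0
  have e5 : (2 * (f : ℂ) * ∑ b ∈ Finset.range (p ^ (n + 1)), ζ ^ b *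
      comb ((aX p f : ℕ) : ℤ) (1 + (p : ℤ)) 1 (fun b => sgnPart (s : ℂ) (PP R ⊤ e kk 0) ∞
        ((b / ((p ^ (n + 1) : ℕ) : ℚ) : ℚ) : OnePoint ℚ)) b) / u =
      2 * f * ∑ b ∈ Finset.range (p ^ (n + 1)), ζ ^ b *
      comb ((aX p f : ℕ) : ℤ) (1 + (p : ℤ)) 1 (fun b => sgnPart (s : ℂ)
        (fun x y => PhiK R e kk' x y / (u * R.om R.i0)) ∞
        (((b : ℚ) / (p : ℚ) ^ (n + 1) : ℚ) : OnePoint ℚ)) b := by
    rw [mul_div_assoc, Finset.sum_div]
    congr 1
    refine Finset.sum_congr rfl fun b _ => ?_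
    rw [mul_div_assoc]
    congr 1
    unfold comb
    rw [Finset.sum_div]
    refine Finset.sum_congr rfl fun j _ => ?_
    rw [mul_div_assoc]
    congr 1
    have e6 : ∀ b : ℤ, sgnPart (s : ℂ) (PP R ⊤ e kk 0) ∞
        ((b / ((p ^ (n + 1) : ℕ) : ℚ) : ℚ) : OnePoint ℚ) = u * sgnPart (s : ℂ)
        (fun x y => PhiK R e kk' x y / (u * R.om R.i0)) ∞
        (((b : ℚ) / (p : ℚ) ^ (n + 1) : ℚ) : OnePoint ℚ) := by
      intro b
      have e7 : ∀ x y, PP R ⊤ e kk 0 x y = u * (PhiK R e kk' x y / (u * R.om R.i0)) := by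
        intro x y
        rw [Brg.PP_zero, ← mul_div_assoc, mul_div_mul_left _ _ hu]
      unfold sgnPart
      rw [e7, e7]
      push_cast
      ring
    beta_reduce
    rw [e6, e6]
    field_simp
  rw [e5, map_mul, map_mul]
  have e8 : V.valuation (2 : ℂ) = 1 := by
    have := v1 2 (by
      intro h
      have := Int.le_of_dvd (by norm_num) h
      omega)
    exact_mod_cast this
  have e9 : V.valuation (f : ℂ) = 1 := by
    have := v1 f (by
      intro h
      exact hS.fp (by exact_mod_cast h))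
    exact_mod_cast this
  rw [e8, e9, one_mul, one_mul]
  exact h5

end

end Pool.Agent.OBH


end

section

/-!
# OB, block H, bridge: the result for `er = 2` (module HF2, helper54)
-/

set_option autoImplicit false

namespace Pool.Agent.OBH

open _root_.MU3 _root_.Pool.Agent.MU3A _root_.Pool.Agent.MU3B _root_.Pool.Agent.MU3F _root_.Pool.Agent.MUX
  _root_.Pool.Agent.MUXH _root_.Pool.Agent.MUXHY _root_.Pool.Agent.MuSym _root_.Pool.Agent.OB OnePoint

noncomputable section

namespace HF2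

variable {A B : ℤ}

/-- the weights `kkJ` commute with the normalisation of the weights -/
lemma kkJ_div {n : ℕ} {ι : Type} (p : ℕ) (R : Reps A B n ι) (kk : ι → ℂ) (e : OO A B → ℂ) (d : ℤ)
    (c : ι) : kkJ p R (fun c => kk c / e ((MUX.nI (R.b c) : ℕ) : OO A B)) d c =
      kkJ p R kk d c / e ((MUX.nI (R.b c) : ℕ) : OO A B) := by
  unfold kkJ
  split_ifs
  · rfl
  · rw [zero_div]

/-- the normalised combination -/
lemma PP_eq {n : ℕ} {ι : Type} [Fintype ι] (R : Reps A B n ι) (p : ℕ) (e : OO A B → ℂ)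
    (kk : ι → ℂ) (d : ℤ) (x y : OnePoint ℚ) :
    PP R ⊤ e (kkJ p R kk d) 0 x y =
      PhiK R e (kkJ p R (fun c => kk c / e ((MUX.nI (R.b c) : ℕ) : OO A B)) d) x y / R.om R.i0 := by
  rw [Brg.PP_zero]
  congr 2
  funext c
  exact (kkJ_div p R kk e d c).symm

/-- the sum of the two parts is `u` times the symbol `QR` -/
lemma PP_QR {n : ℕ} {ι : Type} [Fintype ι] (R : Reps A B n ι) (p : ℕ) (e : OO A B → ℂ)
    (kk : ι → ℂ) (s u : ℂ) (hu : u ≠ 0) (x y : OnePoint ℚ) :
    PP R ⊤ e (kkJ p R kk 1) 0 x y +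
        s * PP R ⊤ e (kkJ p R kk (-1)) 0 (mob (-1) 0 0 1 x) (mob (-1) 0 0 1 y) =
      u * QR p R e (fun c => kk c / e ((MUX.nI (R.b c) : ℕ) : OO A B)) s u x y := by
  rw [PP_eq, PP_eq]
  unfold QR
  have ho : R.om R.i0 ≠ 0 := (R.nl R.i0).om_ne
  field_simp

/-- the combination is linear -/
lemma comb_smul (a g : ℤ) (u : ℂ) (F : ℤ → ℂ) (b : ℤ) :
    comb a g 1 (fun b => u * F b) b = u * comb a g 1 F b := by
  unfold comb
  rw [Finset.mul_sum]
  refine Finset.sum_congr rfl fun j _ => ?_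
  ring

lemma aX_sub (p f : ℕ) (h2 : p ≠ 2) : ((aX p f : ℕ) : ℤ) - 1 = p * (2 * f) := by
  unfold aX q0
  rw [if_neg h2]
  push_cast
  ring

end HF2

open _root_.Pool.Agent.OBH.HF2 in
theorem to_HF2 (h1 : So_HQ2) (h2 : So_HR) (h3 : So_REL) (h4 : So_QS2) (h5 : So_VAL) : So_HF2 := by
  intro p A B P V f hS hT ι _ R u el lam hg w hw e he r hrp her i hi2 hip hty s hs kk hkk n₀
  obtain ⟨vp, vZ, v1, vr, D0, gD, gb, gt, hpf, hN, hN0, hcopN, hDN, hfN⟩ := h5 p 2 A B P V f hS
  have hr0 : r ≠ 0 := by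
    rintro rfl
    exact hrp (dvd_zero p)
  have pp : p.Prime := hS.pp
  have p5 : 5 ≤ p := hS.p5
  have p2 : p ≠ 2 := by omega
  have hf0 := hS.f0
  have hu := hg.u0
  set kk' : ι → ℂ := fun c => kk c / e ((MUX.nI (R.b c) : ℕ) : OO A B) with hkk'
  have heN : ∀ c, e ((MUX.nI (R.b c) : ℕ) : OO A B) ≠ 0 := Brg.e_nI R he hpf
  have hk1 : ∀ c, kk' c ^ r = 1 := by
    intro c
    rw [hkk']
    beta_reduce
    rw [div_pow, hkk, her _ (heN c), div_one]
  obtain ⟨pi, KI, hyp, hKI, hpi⟩ := h1 p A B P V f hS hT ι R u el lam hg w hw e he r hrp her i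
    hi2 hip hty s hs kk' hk1
  have hpz : (0 : ℤ) < p := by exact_mod_cast pp.pos
  have hp5z : (5 : ℤ) ≤ p := by exact_mod_cast p5
  have hfz : (0 : ℤ) < f := by exact_mod_cast Nat.pos_of_ne_zero hf0
  have haz := aX_sub p f p2
  have hap : (p : ℤ) ∣ ((aX p f : ℕ) : ℤ) - 1 := by rw [haz]; exact Dvd.intro _ rfl
  have ha1 : ((aX p f : ℕ) : ℤ) ≠ 1 := by
    intro h
    rw [h, sub_self] at haz
    have : (0 : ℤ) < p * (2 * f) := by positivity
    omega
  have hprimom : IsPrimitiveRoot (Complex.exp (2 * Real.pi * Complex.I / p)) p :=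
    Complex.isPrimitiveRoot_exp p pp.ne_zero
  obtain ⟨n, hn, hmain⟩ := h2 p V (N0O p 2 A B f) 2 i (nuX e) _ pi KI
    (Complex.exp (2 * Real.pi * Complex.I / p)) hyp hprimom
    (fun x => h3 p A B P V f hS ι R e he kk' (s : ℂ) u x) hKI hi2 hip hpi
    ((aX p f : ℕ) : ℤ) (1 + (p : ℤ)) hap ha1 ⟨1, by ring⟩ (by omega) n₀
  refine ⟨n, hn, ?_⟩
  rw [h4 p A B P V f hS ι R e he kk s n]
  have hpa : ¬ (p : ℤ) ∣ ((aX p f : ℕ) : ℤ) := by
    intro h
    have h6 := dvd_sub h hap
    rw [sub_sub_cancel] at h6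
    have := Int.le_of_dvd one_pos h6
    omega
  have hprim := Hfx.prim p (n + 1) pp (-((1 + (p : ℤ)) * ((aX p f : ℕ) : ℤ) ^ 2)) (by
    intro h
    rw [dvd_neg] at h
    rcases (Nat.prime_iff_prime_int.mp pp).dvd_or_dvd h with h | h
    · have h6 := dvd_sub h (dvd_refl (p : ℤ))
      rw [add_sub_cancel_right] at h6
      have := Int.le_of_dvd one_pos h6
      omega
    · exact hpa ((Nat.prime_iff_prime_int.mp pp).dvd_of_dvd_pow h))
  have hζ : ex (-((1 + (p : ℚ)) * (aX p f : ℚ) ^ 2) / ((p ^ (n + 1) : ℕ) : ℚ)) =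
      ex (((-((1 + (p : ℤ)) * ((aX p f : ℕ) : ℤ) ^ 2) : ℤ) : ℚ) / (p : ℚ) ^ (n + 1)) := by
    push_cast
    rfl
  rw [hζ]
  set ζ : ℂ := ex (((-((1 + (p : ℤ)) * ((aX p f : ℕ) : ℤ) ^ 2) : ℤ) : ℚ) / (p : ℚ) ^ (n + 1))
    with hζd
  have hpQ : (p : ℚ) ≠ 0 := by exact_mod_cast pp.ne_zero
  have hrel : ζ ^ p ^ n * Complex.exp (2 * Real.pi * Complex.I / p) = 1 := by
    have h1 : Complex.exp (2 * Real.pi * Complex.I / p) = ex ((1 : ℚ) / p) := by
      unfold ex
      congr 1
      push_cast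
      ring
    have h2 : ζ ^ p ^ n = ex (((-((1 + (p : ℤ)) * ((aX p f : ℕ) : ℤ) ^ 2) : ℤ) : ℚ) / p) := by
      rw [hζd, Pool.Agent.MU3H.Qs.ex_pow]
      congr 1
      push_cast
      have : (p : ℚ) ^ n ≠ 0 := pow_ne_zero _ hpQ
      rw [pow_succ]
      field_simp
      ring
    obtain ⟨t, ht⟩ := hap
    have h3 : ∃ k : ℤ, (-((1 + (p : ℤ)) * ((aX p f : ℕ) : ℤ) ^ 2) : ℤ) + 1 = p * k := by
      refine ⟨-(2 * t + p * t ^ 2 + (1 + p * t) ^ 2), ?_⟩
      have h4 : ((aX p f : ℕ) : ℤ) = 1 + p * t := by linarith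
      rw [h4]
      ring
    obtain ⟨k, hk⟩ := h3
    rw [h1, h2, ← Pool.Agent.MU3H.Qs.ex_add]
    have h5 : ((-((1 + (p : ℤ)) * ((aX p f : ℕ) : ℤ) ^ 2) : ℤ) : ℚ) / p + 1 / p = (k : ℚ) := by
      have h6 : (((-((1 + (p : ℤ)) * ((aX p f : ℕ) : ℤ) ^ 2) : ℤ) + 1 : ℤ) : ℚ) =
          ((p * k : ℤ) : ℚ) := by
        rw [hk]
      rw [Int.cast_add, Int.cast_mul, Int.cast_one, Int.cast_natCast] at h6
      rw [← add_div, h6, mul_div_cancel_left₀ _ hpQ]
    rw [h5]
    exact Pool.Agent.MU3H.Qs.ex_int k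
  have hfin := hmain ζ hprim hrel
  set Y : ℂ := ∑ b ∈ Finset.range (p ^ (n + 1)), ζ ^ b *
      comb ((aX p f : ℕ) : ℤ) (1 + (p : ℤ)) 1 (fun b => QR p R e kk' (s : ℂ) u ∞
        (((b : ℚ) / (p : ℚ) ^ (n + 1) : ℚ) : OnePoint ℚ)) b with hY
  have e5 : (2 * (f : ℂ) * ∑ b ∈ Finset.range (p ^ (n + 1)), ζ ^ b *
      comb ((aX p f : ℕ) : ℤ) (1 + (p : ℤ)) 1 (fun b => PP R ⊤ e (kkJ p R kk 1) 0 ∞
              ((b / ((p ^ (n + 1) : ℕ) : ℚ) : ℚ) : OnePoint ℚ) +
            s * PP R ⊤ e (kkJ p R kk (-1)) 0 (mob (-1) 0 0 1 ∞)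
              (mob (-1) 0 0 1 ((b / ((p ^ (n + 1) : ℕ) : ℚ) : ℚ) : OnePoint ℚ))) b) / u =
      2 * f * Y := by
    have e6 : (fun b : ℤ => PP R ⊤ e (kkJ p R kk 1) 0 ∞
              ((b / ((p ^ (n + 1) : ℕ) : ℚ) : ℚ) : OnePoint ℚ) +
            s * PP R ⊤ e (kkJ p R kk (-1)) 0 (mob (-1) 0 0 1 ∞)
              (mob (-1) 0 0 1 ((b / ((p ^ (n + 1) : ℕ) : ℚ) : ℚ) : OnePoint ℚ))) =
        fun b : ℤ => u * QR p R e kk' (s : ℂ) u ∞
          (((b : ℚ) / (p : ℚ) ^ (n + 1) : ℚ) : OnePoint ℚ) := by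
      funext b
      rw [PP_QR R p e kk (s : ℂ) u hu]
      push_cast
      rfl
    rw [e6, mul_div_assoc, Finset.sum_div, hY]
    congr 1
    refine Finset.sum_congr rfl fun b _ => ?_
    rw [comb_smul]
    field_simp
  have e8 : V.valuation (2 : ℂ) = 1 := by
    have := v1 2 (by
      intro h
      have := Int.le_of_dvd two_pos h
      omega)
    exact_mod_cast this
  have e9 : V.valuation (f : ℂ) = 1 := by
    have := v1 f (by
      intro h
      exact hS.fp (by exact_mod_cast h))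
    exact_mod_cast this
  rw [e5, map_mul, map_mul, e8, e9, one_mul, one_mul]
  exact hfin

end

end Pool.Agent.OBH


end

section

/-!
# OB, block H (helper51): the two cases `er = 1`, `er = 2` together
-/

set_option autoImplicit false

namespace Pool.Agent.OBH

open _root_.MU3 _root_.Pool.Agent.MU3A _root_.Pool.Agent.MU3B _root_.Pool.Agent.MUX _root_.Pool.Agent.OB OnePoint

/-- the final statement of block H -/
theorem to_HFA (h1 : So_HF1) (h2 : So_HF2) (h3 : So_RAM) : O_HFIN := by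
  intro p er A B P V f hS hT ι _ R u el lam hg w hw e he r hr her i hi1 hi2 hty s hs kk hkk n₀
  obtain ⟨hN, -, hR2⟩ := h3 p er A B P V hS.toCaseO
  have p5 := hS.p5
  rcases hS.ram with ⟨h, -⟩ | ⟨h, -⟩
  · subst h
    rw [one_mul] at hi1
    exact h1 p A B P V f hS hT ι R u el lam hg w hw e he r hr her i hi1 hi2 hty s hs kk hkk n₀
  · subst h
    obtain ⟨hNP, -, -⟩ := hR2 rfl
    rw [hNP] at hi1 hi2
    have hp1 : 0 < p - 1 := by omega
    have h2i : 2 ≤ i := Nat.le_of_mul_le_mul_right hi1 hp1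
    have hip : i < p - 1 := by omega
    exact h2 p A B P V f hS hT ι R u el lam hg w hw e he r hr her i h2i hip hty s hs kk hkk n₀

end Pool.Agent.OBH


end

section

/-!
# OB, block H, bridge (helper98): the hypotheses of the abstract part for `er = 2` (`So_HQ2`)

Adapted from `hypR` in `Pool/Agent/NS/HGR.lean`.
-/

set_option autoImplicit false

namespace Pool.Agent.OBH

open _root_.MU3 _root_.Pool.Agent.MU3A _root_.Pool.Agent.MU3B _root_.Pool.Agent.MU3F _root_.Pool.Agent.MUX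
  _root_.Pool.Agent.MUXH _root_.Pool.Agent.MUXHY _root_.Pool.Agent.MuSym _root_.Pool.Agent.OB OnePoint

noncomputable section

namespace HQ2

/-- the symbol `ι^* P` -/
theorem isSym_neg {N : ℕ} {nu : ℤ → ℂ} {P : OnePoint ℚ → OnePoint ℚ → ℂ} (h : IsSym N nu P) :
    IsSym N nu (fun x y => P (mob (-1) 0 0 1 x) (mob (-1) 0 0 1 y)) := by
  constructor
  · intro x y z
    exact h.add _ _ _
  · intro a b c d hd hc x y
    show P (mob (-1) 0 0 1 (mob a b c d x)) (mob (-1) 0 0 1 (mob a b c d y)) = _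
    rw [Hk.mob_conj, Hk.mob_conj]
    exact h.equiv a (-b) (-c) d (by linear_combination hd) (hc.neg_right) _ _

theorem isSym_add {N : ℕ} {nu : ℤ → ℂ} {P Q : OnePoint ℚ → OnePoint ℚ → ℂ} (h : IsSym N nu P)
    (h' : IsSym N nu Q) (s : ℂ) : IsSym N nu (fun x y => P x y + s * Q x y) := by
  constructor
  · intro x y z
    rw [← h.add x y z, ← h'.add x y z]
    ring
  · intro a b c d hd hc x y
    show P (mob a b c d x) (mob a b c d y) + s * Q (mob a b c d x) (mob a b c d y) = _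
    rw [h.equiv a b c d hd hc, h'.equiv a b c d hd hc]
    ring

theorem QR_eq {A B : ℤ} {n : ℕ} {ι : Type} [Fintype ι] (p : ℕ) (R : Reps A B n ι)
    (e : OO A B → ℂ) (kk : ι → ℂ) (s u : ℂ) (x y : OnePoint ℚ) :
    QR p R e kk s u x y = PhiK R e (kkJ p R kk 1) x y / (u * R.om R.i0) +
      s * (PhiK R e (kkJ p R kk (-1)) (mob (-1) 0 0 1 x) (mob (-1) 0 0 1 y) /
        (u * R.om R.i0)) := by
  unfold QR
  rw [add_div, mul_div_assoc]

end HQ2

theorem to_HQ2 (hT : O_TYF) (hG : O_GPT) (h1 : So_RAM) (h2 : So_VAL) (h3 : So_CHR)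
    (h5 : So_PJ2) (h6 : So_SAF) (h7 : So_UAL) (h8 : So_BDN) (h10 : So_TYP) (h11 : So_PRT) :
    So_HQ2 := by
  intro p A B P V f hS hTor ι _ R u el lam hg w hw e he r hrp her i hi2 hip hty s hs kk hkk
  have hpp : p.Prime := hS.pp
  have hp5 : 5 ≤ p := hS.p5
  obtain ⟨vp, vZ, v1, vr, D0, -, gb, gt, hpf, hN, hNne, hcop, -, -⟩ := h2 p 2 A B P V f hS
  obtain ⟨-, -, hram⟩ := h1 p 2 A B P V hS.toCaseO
  obtain ⟨hnI, -, -⟩ := hram rfl
  have hr0 : r ≠ 0 := by
    rintro rfl
    exact hrp (dvd_zero p)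
  obtain ⟨nu1, num, nuper, nuv⟩ := h3 p 2 A B P V f hS e he r hr0 her
  have hk0 : ∀ d : ℤ, ∀ j, kkJ p R kk d j = 0 ∨ kkJ p R kk d j ^ r = 1 := by
    intro d j
    unfold kkJ
    split_ifs
    · exact Or.inr (hkk j)
    · exact Or.inl rfl
  obtain ⟨pi, KI, typ, typ', unr, vpi⟩ := hT p 2 A B P V f hS hTor ι R u el lam hg w hw e he r hrp
    her i hty (kkJ p R kk 1) (hk0 1) (kkJ p R kk (-1)) (hk0 (-1))
  rw [hnI] at vpi
  have hua : IsAlgebraic ℚ u := h7 A B hS.cq hTor (p * f) ι R V u el lam hg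
  obtain ⟨sym1, alg1, T1, fin1⟩ := h6 p 2 A B P V f hS hTor ι R e he r hr0 her (kkJ p R kk 1)
    (hk0 1) u hg.u0 hua
  obtain ⟨sym2, alg2, T2, fin2⟩ := h6 p 2 A B P V f hS hTor ι R e he r hr0 her (kkJ p R kk (-1))
    (hk0 (-1)) u hg.u0 hua
  have hsA : IsAlgebraic ℚ ((s : ℤ) : ℂ) := isAlgebraic_intCast s
  have hsK : ((s : ℤ) : ℂ) ∈ KI := intCast_mem KI s
  have halg : ∀ x y, IsAlgebraic ℚ (QR p R e kk (s : ℂ) u x y) := by
    intro x y
    rw [HQ2.QR_eq]
    exact (alg1 x y).add (hsA.mul (alg2 _ _))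
  have hfin : ∃ T : Finset ℂ, ∀ x y, QR p R e kk (s : ℂ) u x y ∈
      AddSubgroup.closure (T : Set ℂ) := by
    classical
    refine ⟨T1 ∪ T2, fun x y => ?_⟩
    rw [HQ2.QR_eq]
    refine add_mem ?_ ?_
    · exact AddSubgroup.closure_mono (by rw [Finset.coe_union]; exact Set.subset_union_left)
        (fin1 x y)
    · rw [← zsmul_eq_mul]
      refine zsmul_mem ?_ s
      exact AddSubgroup.closure_mono (by rw [Finset.coe_union]; exact Set.subset_union_right)
        (fin2 _ _)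
  have hpi0 : pi ≠ 0 := by
    rintro rfl
    have h9 : 2 * (p - 1) ≠ 0 := by omega
    rw [map_zero, zero_pow h9, zero_mul] at vpi
    exact zero_ne_one vpi
  have hgap := h10 p hpp V vp KI 2 (p - 1) i (by norm_num) hip
    (Nat.mul_le_mul_right (p - 1) hi2) (by
      have h9 : 0 < p - 1 := by omega
      have h12 : 2 < p ^ 2 := by nlinarith
      rw [mul_comm]
      exact Nat.mul_lt_mul_of_pos_left h12 h9) unr pi vpi
  refine ⟨pi, KI, ?_, unr, vpi⟩
  exact
    { pp := hpp
      p2 := by omega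
      vp := vp
      N0 := hNne
      cop := hcop
      nu1 := nu1
      num := num
      nuper := nuper
      nuv := nuv
      sym := by
        have h9 := HQ2.isSym_add sym1 (HQ2.isSym_neg sym2) ((s : ℤ) : ℂ)
        have h12 : (fun x y => (fun x y => PhiK R e (kkJ p R kk 1) x y / (u * R.om R.i0)) x y +
            ((s : ℤ) : ℂ) * (fun x y => (fun x y => PhiK R e (kkJ p R kk (-1)) x y /
              (u * R.om R.i0)) (mob (-1) 0 0 1 x) (mob (-1) 0 0 1 y)) x y) =
            QR p R e kk (s : ℂ) u := by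
          funext x y
          rw [HQ2.QR_eq]
        rw [← h12]
        exact h9
      bdd := h8 p hpp V vp _ halg hfin
      pi0 := hpi0
      typ := by
        intro x y
        obtain ⟨a, ha, ha1⟩ := typ x y
        obtain ⟨b, hb, hb1⟩ := typ' (mob (-1) 0 0 1 x) (mob (-1) 0 0 1 y)
        refine ⟨a + (s : ℂ) * b, KI.add_mem ha (KI.mul_mem hsK hb), ?_⟩
        rw [HQ2.QR_eq, ha1, hb1]
        ring
      gap := fun a ha => (hgap a ha).1
      G := by
        obtain ⟨q, c, hq, hc, hsum⟩ := h5 p A B P V f hS ι R e he kk (s : ℂ) u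
        have hM : (p - 1) * p ^ 2 ≠ 0 := by
          have h9 : p - 1 ≠ 0 := by omega
          exact mul_ne_zero h9 (pow_ne_zero _ hpp.ne_zero)
        refine h11 p hpp V vp (p ^ (2 + 1) * N0O p 2 A B f) ((p - 1) * p ^ 2)
          (fun x y => PhiK R e (kkJ p R kk 1) x y / (u * R.om R.i0))
          (QR p R e kk (s : ℂ) u) q c hq hM hc hsum ?_
        intro N' hN' hd
        refine hG p 2 A B P V f hS hTor ι R u el lam hg e he r hr0 her (kkJ p R kk 1) ?_ N' hN' ?_
        · have h9 : kkJ p R kk 1 R.i0 = kk R.i0 := by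
            unfold kkJ
            have h12 : nI (R.b R.i0) = 1 := by
              rw [R.b0]
              unfold nI
              have hss : Subsingleton (OO A B ⧸ (⊤ : Ideal (OO A B))) :=
                Ideal.Quotient.subsingleton_iff.2 rfl
              exact Nat.card_unique
            rw [h12]
            rw [if_pos (by simp)]
          rw [h9]
          exact vr r _ hr0 (hkk _)
        · rw [← hN]
          exact_mod_cast hd }

end

end Pool.Agent.OBH


end

section

/-!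
# OB, block H, bridge, module PHJ (helper56): the function `φ` modulo `D' = |D|/p`
-/

set_option autoImplicit false

namespace Pool.Agent.OBH

open _root_.MU3 _root_.Pool.Agent.MU3A _root_.Pool.Agent.MU3B _root_.Pool.Agent.MU3F _root_.Pool.Agent.MUX
  _root_.Pool.Agent.MUXH _root_.Pool.Agent.MUXHY _root_.Pool.Agent.MuSym _root_.Pool.Agent.OB OnePoint
open _root_.Pool.Agent.MUXF (qb)

noncomputable section

namespace PHJ

private theorem per_mul {φ : ℤ → ℂ} {d : ℤ} (h : ∀ n, φ (n + d) = φ n) :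
    ∀ (k n : ℤ), φ (n + d * k) = φ n := by
  intro k
  induction k using Int.induction_on with
  | zero => intro n; simp
  | succ i ih =>
    intro n
    have := h (n + d * i)
    rw [ih n] at this
    rw [← this]
    congr 1
    ring
  | pred i ih =>
    intro n
    have := h (n + d * (-i - 1))
    rw [← this]
    have h2 := ih n
    rw [← h2]
    congr 1
    ring

private theorem per_dvd {φ : ℤ → ℂ} {d : ℤ} (h : ∀ n, φ (n + d) = φ n) {a b : ℤ}
    (hab : d ∣ a - b) : φ a = φ b := by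
  obtain ⟨k, hk⟩ := hab
  have := per_mul h k b
  rw [← this]
  congr 1
  linear_combination hk

/-- an integer `c'` with `c'² c² ≡ 1` modulo `p`, `c' ≡ 1` modulo `f` -/
private theorem crt {p f : ℕ} (hp : p.Prime) (hf : ¬ p ∣ f) {m : ℤ} (hm : jacobiSym m p = 1) :
    ∃ c : ℤ, (p : ℤ) ∣ c ^ 2 * m - 1 ∧ (f : ℤ) ∣ c - 1 ∧ ¬ (p : ℤ) ∣ c := by
  have := Fact.mk hp
  rw [← jacobiSym.legendreSym.to_jacobiSym] at hm
  have hm0 : ((m : ℤ) : ZMod p) ≠ 0 := by
    intro h0
    rw [(legendreSym.eq_zero_iff p m).2 h0] at hm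
    exact absurd hm (by norm_num)
  obtain ⟨y, hy⟩ := (legendreSym.eq_one_iff p hm0).1 hm
  have hy0 : y ≠ 0 := by
    rintro rfl
    apply hm0
    rw [hy]
    ring
  have hcop : IsCoprime (p : ℤ) (f : ℤ) := by
    rw [Nat.isCoprime_iff_coprime]
    exact (Nat.Prime.coprime_iff_not_dvd hp).2 hf
  obtain ⟨s, t, hst⟩ := hcop
  -- s p + t f = 1
  let z : ℤ := ((y⁻¹ : ZMod p).val : ℤ)
  have hz : ((z : ℤ) : ZMod p) = y⁻¹ := by
    show (((y⁻¹ : ZMod p).val : ℤ) : ZMod p) = y⁻¹
    rw [Int.cast_natCast, ZMod.natCast_zmod_val]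
  have hc : (((s * p + t * f * z : ℤ)) : ZMod p) = y⁻¹ := by
    have h1 : ((s * p + t * f : ℤ) : ZMod p) = 1 := by rw [hst]; simp
    push_cast at h1 ⊢
    rw [hz]
    rw [ZMod.natCast_self] at h1 ⊢
    rw [mul_zero, zero_add] at h1 ⊢
    rw [h1, one_mul]
  refine ⟨s * p + t * f * z, ?_, ?_, ?_⟩
  · rw [← ZMod.intCast_zmod_eq_zero_iff_dvd]
    rw [Int.cast_sub, Int.cast_mul, Int.cast_pow, hc, hy]
    field_simp
    simp
  · refine ⟨t * (z - 1), ?_⟩
    linear_combination hst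
  · rw [← ZMod.intCast_zmod_eq_zero_iff_dvd, hc]
    exact inv_ne_zero hy0

end PHJ

open _root_.Pool.Agent.OBH.PHJ in
theorem to_PHJ (h1 : So_RAM) (h2 : So_VAL) : So_PHJ := by
  intro p A B P V f hs
  obtain ⟨-, -, hr⟩ := h1 p 2 A B P V hs.toCaseO
  obtain ⟨-, hpD, hp2⟩ := hr rfl
  obtain ⟨-, -, -, -, hpos, hle, -⟩ := h2 p 2 A B P V f hs
  obtain ⟨φ, v01, hper, hval⟩ := MUXF.xf_PHX A B (Pool.Agent.MUXY.cqF hs.cq)
  have hp := hs.pp
  have hp0 : (0 : ℤ) < (p : ℤ) := by exact_mod_cast hp.pos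
  obtain ⟨c, hc⟩ := hpD
  have hcpos : 0 < c := by
    by_contra hcn
    have : (p : ℤ) * c ≤ 0 := mul_nonpos_of_nonneg_of_nonpos hp0.le (not_lt.1 hcn)
    omega
  have hD : ((c.toNat : ℕ) : ℤ) = c := Int.toNat_of_nonneg hcpos.le
  set D : ℕ := c.toNat with hDdef
  have habs : ((p : ℤ) * (D : ℤ)) = absD A B := by rw [hD, hc]
  have hpc : ¬ (p : ℤ) ∣ (D : ℤ) := by
    rintro ⟨k, hk⟩
    apply hp2
    refine ⟨k, ?_⟩
    rw [← habs, hk]
    ring
  have hpDn : ¬ p ∣ D := fun hd => hpc (by exact_mod_cast hd)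
  have hcop : IsCoprime (p : ℤ) (D : ℤ) := by
    rw [Nat.isCoprime_iff_coprime]
    exact (Nat.Prime.coprime_iff_not_dvd hp).2 hpDn
  obtain ⟨s, t, hst⟩ := hcop
  -- `u = t D`, `u ≡ 1` modulo `p`
  have hDf : (D : ℤ) ∣ (f : ℤ) := by
    have h3 : (p : ℤ) * (D : ℤ) ∣ (p : ℤ) * (f : ℤ) := by
      rw [habs]
      have := hs.fD
      push_cast at this
      exact (dvd_mul_left _ _).trans this
    exact (mul_dvd_mul_iff_left hp0.ne').1 h3
  have hdv : ∀ a : ℤ, (p : ℤ) ∣ a → (D : ℤ) ∣ a → absD A B ∣ a := by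
    intro a ha hb
    rw [← habs]
    exact IsCoprime.mul_dvd ⟨s, t, hst⟩ ha hb
  refine ⟨D, fun n => φ (n + t * D * (1 - n)), by push_cast; exact habs, hpDn, ?_, ?_, ?_, ?_⟩
  · intro h0
    rw [h0] at hD
    simp at hD
    omega
  · intro n
    exact v01 _
  · intro n
    show φ (n + (D : ℤ) + t * (D : ℤ) * (1 - (n + (D : ℤ)))) = φ (n + t * (D : ℤ) * (1 - n))
    refine per_dvd hper (hdv _ ⟨s * D, ?_⟩ ⟨1 - t * D, ?_⟩)
    · linear_combination (-(D : ℤ)) * hst
    · ring
  · intro e he b hb x hx hex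
    have hbF := MUXF.xf_QB A B (Pool.Agent.MUXY.cqF hs.cq) b hb
    have hnI := (MUXF.xf_IDL A B (Pool.Agent.MUXY.cqF hs.cq) b hb).1
    -- the twist
    have key : ∀ c : ℤ, (f : ℤ) ∣ c - 1 → ¬ (p : ℤ) ∣ c →
        φ (c ^ 2 * qb b x) = 1 ∧ φ (-(c ^ 2 * qb b x)) = 0 := by
      intro c hcf hcp
      have hmem : ((c : ℤ) : OO A B) * x ∈ b := b.mul_mem_left _ hx
      have hqb : qb b (((c : ℤ) : OO A B) * x) = c ^ 2 * qb b x := by
        have e1 := (hbF.1 _ hmem).1
        have e2 := (hbF.1 x hx).1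
        have e3 := ((MUXF.xf_ALG A B (Pool.Agent.MUXY.cqF hs.cq)).1 ((c : ℤ) : OO A B) x).2.2
        have e4 := ((MUXF.xf_ALG A B (Pool.Agent.MUXY.cqF hs.cq)).2.2.1 c).2
        rw [e3, e4, e2] at e1
        have h5 : ((MUXF.nI b : ℕ) : ℤ) ≠ 0 := by exact_mod_cast hnI
        apply mul_left_cancel₀ h5
        linear_combination -e1
      have hcopc : IsCoprime c ((p * f : ℕ) : ℤ) := by
        push_cast
        apply IsCoprime.mul_right
        · rw [isCoprime_comm]
          exact (Prime.coprime_iff_not_dvd (Nat.prime_iff_prime_int.1 hp)).2 hcp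
        · obtain ⟨k, hk⟩ := hcf
          exact ⟨1, -k, by linear_combination hk⟩
      have hec : e ((c : ℤ) : OO A B) ≠ 0 := by
        obtain ⟨a', b', hab⟩ := hcopc
        have h5 : e 1 = e ((a' : OO A B) * ((c : ℤ) : OO A B)) := by
          apply he.per
          have h6 : (1 : OO A B) - (a' : OO A B) * ((c : ℤ) : OO A B) =
              (b' : OO A B) * ((p * f : ℕ) : OO A B) := by
            have h7 : ((a' * c + b' * ((p * f : ℕ) : ℤ) : ℤ) : OO A B) = ((1 : ℤ) : OO A B) := by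
              rw [hab]
            push_cast at h7 ⊢
            linear_combination -h7
          rw [h6]
          exact Ideal.mul_mem_left _ _ (Ideal.mem_span_singleton_self _)
        rw [he.mul, he.one] at h5
        intro h0
        rw [h0, mul_zero] at h5
        exact one_ne_zero h5
      have hecx : e (((c : ℤ) : OO A B) * x) ≠ 0 := by
        rw [he.mul]
        exact mul_ne_zero hec hex
      have := hval b (idl (A := A) (B := B) (p * f)) e hb (Pool.Agent.MUXY.eiF he) hle _ hmem hecx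
      rw [hqb] at this
      exact this
    constructor
    · intro hj
      obtain ⟨c, hc1, hc2, hc3⟩ := crt hp hs.fp hj
      show φ (qb b x + t * (D : ℤ) * (1 - qb b x)) = 1
      rw [← (key c hc2 hc3).1]
      obtain ⟨k1, hk1⟩ := hc1
      obtain ⟨k2, hk2⟩ := hDf.trans hc2
      refine per_dvd hper (hdv _ ⟨-(s * (1 - qb b x)) - k1, ?_⟩ ⟨t * (1 - qb b x) - k2 * (c + 1) * qb b x, ?_⟩)
      · linear_combination (1 - qb b x) * hst - hk1
      · linear_combination (-(c + 1) * qb b x) * hk2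
    · intro hj
      obtain ⟨c, hc1, hc2, hc3⟩ := crt hp hs.fp hj
      show φ (-qb b x + t * (D : ℤ) * (1 - -qb b x)) = 0
      rw [← (key c hc2 hc3).2]
      obtain ⟨k1, hk1⟩ := hc1
      obtain ⟨k2, hk2⟩ := hDf.trans hc2
      refine per_dvd hper (hdv _ ⟨-(s * (1 + qb b x)) - k1, ?_⟩ ⟨t * (1 + qb b x) + k2 * (c + 1) * qb b x, ?_⟩)
      · linear_combination (1 + qb b x) * hst - hk1
      · linear_combination ((c + 1) * qb b x) * hk2

end

end Pool.Agent.OBH


end

section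

/-!
# OB, block H, bridge, module PJ2: the projector for `QR`, `er = 2` (helper72)

`q = D' = |D|/p`, `c_t = (1/q) Σ_n φ(n) exp(-2πi t n/q)`. The first half of `TWR` for the ideals with
`J(N | p) = 1`, the second half for those with `J(-N | p) = 1`.
-/

set_option autoImplicit false

namespace Pool.Agent.OBH

open _root_.MU3 _root_.Pool.Agent.MU3A _root_.Pool.Agent.MU3B _root_.Pool.Agent.MU3F _root_.Pool.Agent.MUX
  _root_.Pool.Agent.MUXH _root_.Pool.Agent.MUXHY _root_.Pool.Agent.MuSym _root_.Pool.Agent.OB OnePoint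
open _root_.Pool.Agent.MUXF (qb)

noncomputable section

namespace PJ2

/-- `exp (2πi m/q) ^ q = 1` -/
lemma exp_pow (q : ℕ) (hq : q ≠ 0) (m : ℤ) :
    Complex.exp (2 * Real.pi * Complex.I * (m / q)) ^ q = 1 := by
  have hqC : (q : ℂ) ≠ 0 := by exact_mod_cast hq
  rw [← Complex.exp_nat_mul, Complex.exp_eq_one_iff]
  refine ⟨m, ?_⟩
  field_simp

end PJ2

open _root_.Pool.Agent.OBH.PJ2

/-- (PJ2) the projector, `er = 2` -/
theorem to_PJ2 (h1 : So_PHJ) (h2 : So_QBO) (h3 : So_VAL) : So_PJ2 := by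
  intro p A B P V f hS ι _ R e he kk s u
  have hc : CQ A B := hS.cq
  obtain ⟨D', φ, hD3, hD'3, hD0, hφ, hper, hph⟩ := h1 p A B P V f hS
  obtain ⟨-, -, vone, vroot, -, -, hg0, -⟩ := h3 p 2 A B P V f hS
  have hQ := h2 p 2 A B P V f hS e he
  refine ⟨D', fun a => (1 / D') * ∑ n ∈ Finset.range D', φ n *
        Complex.exp (2 * Real.pi * Complex.I * (-(a * n) / D')), hD0, ?_, ?_⟩
  · intro t
    have hD1 : V.valuation ((D' : ℕ) : ℂ) = 1 := by
      have h4 := vone (D' : ℤ) (by exact_mod_cast hD'3)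
      exact_mod_cast h4
    have hq1 : V.valuation ((1 : ℂ) / D') = 1 := by
      rw [map_div₀, map_one, hD1, div_one]
    rw [map_mul, hq1, one_mul]
    refine Valuation.map_sum_le _ fun n _ => ?_
    rw [map_mul]
    have e1 : Complex.exp (2 * Real.pi * Complex.I * (-((t : ℂ) * n) / D')) =
        Complex.exp (2 * Real.pi * Complex.I * (((-((t : ℤ) * n) : ℤ) : ℂ) / D')) := by
      push_cast
      rfl
    rw [e1, vroot D' _ hD0 (exp_pow D' hD0 _), mul_one]
    rcases hφ n with h | h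
    · rw [h, map_zero]
      exact zero_le
    · rw [h, map_one]
  · intro x y
    -- the two halves, for one ideal
    have hb : ∀ i, R.b i ≠ ⊥ := fun i => (R.nl i).b_ne
    have k1 : ∀ i, jacobiSym (1 * (nI (R.b i) : ℤ)) p = 1 → ∀ x y : OnePoint ℚ,
        ∑ a ∈ Finset.range D', ((1 / D') * ∑ n ∈ Finset.range D', φ n *
          Complex.exp (2 * Real.pi * Complex.I * (-(a * n) / D'))) *
          PhiI (R.b i) e (mob D' a 0 D' x) (mob D' a 0 D' y) = PhiI (R.b i) e x y := by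
      intro i hi
      refine (NSGR.tv_TWR A B hc (R.b i) _ e (hb i) hg0 he D' φ hD0 hper).1 ?_
      intro z hz hez
      have h4 := ((hQ (R.b i) (hb i) z hz hez).2.2 rfl).2
      refine (hph e he (R.b i) (hb i) z hz hez).1 ?_
      rw [h4]
      rw [one_mul] at hi
      exact hi
    have k2 : ∀ i, jacobiSym (-1 * (nI (R.b i) : ℤ)) p = 1 → ∀ x y : OnePoint ℚ,
        ∑ a ∈ Finset.range D', ((1 / D') * ∑ n ∈ Finset.range D', φ n *
          Complex.exp (2 * Real.pi * Complex.I * (-(a * n) / D'))) *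
          PhiI (R.b i) e (mob (-1) 0 0 1 (mob D' a 0 D' x))
            (mob (-1) 0 0 1 (mob D' a 0 D' y)) = 0 := by
      intro i hi
      refine (NSGR.tv_TWR A B hc (R.b i) _ e (hb i) hg0 he D' φ hD0 hper).2 ?_
      intro z hz hez
      have h4 := ((hQ (R.b i) (hb i) z hz hez).2.2 rfl).2
      refine (hph e he (R.b i) (hb i) z hz hez).2 ?_
      rw [← neg_one_mul, jacobiSym.mul_left, h4, ← jacobiSym.mul_left]
      exact hi
    generalize hcc : (fun a : ℕ => (1 / (D' : ℂ)) * ∑ n ∈ Finset.range D', φ n *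
        Complex.exp (2 * Real.pi * Complex.I * (-((a : ℂ) * n) / D'))) = c at *
    have hcc' : ∀ a : ℕ, (1 / (D' : ℂ)) * ∑ n ∈ Finset.range D', φ n *
        Complex.exp (2 * Real.pi * Complex.I * (-((a : ℂ) * n) / D')) = c a := fun a => by
      rw [← hcc]
    simp only [hcc'] at k1 k2 ⊢
    -- the sums over `i`
    have s1 : ∑ t ∈ Finset.range D', c t *
        PhiK R e (kkJ p R kk 1) (mob D' t 0 D' x) (mob D' t 0 D' y) =
          PhiK R e (kkJ p R kk 1) x y := by
      unfold PhiK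
      simp only [Finset.mul_sum]
      rw [Finset.sum_comm]
      refine Finset.sum_congr rfl fun i _ => ?_
      by_cases hi : jacobiSym (1 * (nI (R.b i) : ℤ)) p = 1
      · rw [← k1 i hi x y, Finset.mul_sum]
        refine Finset.sum_congr rfl fun t _ => ?_
        ring
      · have h0 : kkJ p R kk 1 i = 0 := by
          unfold kkJ
          rw [if_neg hi]
        rw [h0, zero_mul]
        refine Finset.sum_eq_zero fun t _ => ?_
        rw [zero_mul, mul_zero]
    have s2 : ∑ t ∈ Finset.range D', c t *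
        PhiK R e (kkJ p R kk (-1)) (mob (-1) 0 0 1 (mob D' t 0 D' x))
          (mob (-1) 0 0 1 (mob D' t 0 D' y)) = 0 := by
      unfold PhiK
      simp only [Finset.mul_sum]
      rw [Finset.sum_comm]
      refine Finset.sum_eq_zero fun i _ => ?_
      by_cases hi : jacobiSym (-1 * (nI (R.b i) : ℤ)) p = 1
      · have h4 := k2 i hi x y
        have h5 : ∑ t ∈ Finset.range D', c t * (kkJ p R kk (-1) i *
            PhiI (R.b i) e (mob (-1) 0 0 1 (mob D' t 0 D' x))
              (mob (-1) 0 0 1 (mob D' t 0 D' y))) = kkJ p R kk (-1) i *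
            ∑ t ∈ Finset.range D', c t * PhiI (R.b i) e (mob (-1) 0 0 1 (mob D' t 0 D' x))
              (mob (-1) 0 0 1 (mob D' t 0 D' y)) := by
          rw [Finset.mul_sum]
          refine Finset.sum_congr rfl fun t _ => ?_
          ring
        rw [h5, h4, mul_zero]
      · have h0 : kkJ p R kk (-1) i = 0 := by
          unfold kkJ
          rw [if_neg hi]
        refine Finset.sum_eq_zero fun t _ => ?_
        rw [h0, zero_mul, mul_zero]
    calc ∑ t ∈ Finset.range D', c t * QR p R e kk s u (mob D' t 0 D' x) (mob D' t 0 D' y)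
        = (∑ t ∈ Finset.range D', c t *
            PhiK R e (kkJ p R kk 1) (mob D' t 0 D' x) (mob D' t 0 D' y) +
          s * ∑ t ∈ Finset.range D', c t *
            PhiK R e (kkJ p R kk (-1)) (mob (-1) 0 0 1 (mob D' t 0 D' x))
              (mob (-1) 0 0 1 (mob D' t 0 D' y))) / (u * R.om R.i0) := by
          rw [Finset.mul_sum, ← Finset.sum_add_distrib, Finset.sum_div]
          refine Finset.sum_congr rfl fun t _ => ?_
          unfold QR
          ring
      _ = _ := by rw [s1, s2, mul_zero, add_zero]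

end

end Pool.Agent.OBH


end

section

/-!
# OB, block H (helper89): the quantity of the final statement as a character sum, `er = 2` (`So_QS2`)

`SnX R m M e i c = 0` for `p ∣ M`, `p ∤ c` and `J(N b_i | p) ≠ J(c | p)`. So `STX (kkJ p R kk 1) c = STX kk c` for `c ≡ 1` modulo `p`, and
`STX (kkJ p R kk (-1)) c = STX kk c` for `c ≡ -1`. Half the sum and half the difference of `QSX` for the signs `1` and `-1`.
-/

set_option autoImplicit false

namespace Pool.Agent.OBH

open _root_.MU3 _root_.Pool.Agent.MU3A _root_.Pool.Agent.MU3B _root_.Pool.Agent.MU3F _root_.Pool.Agent.MUX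
  _root_.Pool.Agent.MUXH _root_.Pool.Agent.MUXHY _root_.Pool.Agent.MuSym _root_.Pool.Agent.OB OnePoint

noncomputable section

namespace QS2

variable {A B : ℤ}

lemma top_ne : (⊤ : Ideal (OO A B)) ≠ ⊥ := by
  intro h2
  have h3 := (Ideal.eq_top_iff_one (I := (⊤ : Ideal (OO A B)))).1 rfl
  rw [h2, Ideal.mem_bot] at h3
  have h4 := congrArg QuadraticAlgebra.re h3
  rw [QuadraticAlgebra.re_one, QuadraticAlgebra.re_zero] at h4
  omega

lemma jac_congr {p : ℕ} {x y : ℤ} (h : (p : ℤ) ∣ x - y) : jacobiSym x p = jacobiSym y p := by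
  rw [jacobiSym.mod_left x p, jacobiSym.mod_left y p,
    Int.emod_eq_emod_iff_emod_sub_eq_zero.2 (Int.emod_eq_zero_of_dvd h)]

/-- the sums over the other genus vanish -/
theorem SnX_zero (hQ : So_QBO) {p : ℕ} {P : Ideal (OO A B)} {V : ValuationSubring ℂ} {f : ℕ}
    (H : SetO p 2 A B P V f) {e : OO A B → ℂ} (he : IsEI (idl (A := A) (B := B) (p * f)) e)
    {ι : Type} (R : Reps A B (p * f) ι) (m M : ℕ) (hM : p ∣ M) (i : ι) (c : ℤ)
    (hc : jacobiSym (nI (R.b i) : ℤ) p ≠ jacobiSym c p) : SnX R m M e i c = 0 := by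
  unfold SnX
  have h0 : ∀ x : OO A B, (if (M : ℤ) ∣ nm x * nI (R.b i) - c then
      e x * ee (R.L i) (pt R m i x) else 0) = 0 := by
    intro x
    split_ifs with h
    · by_cases hx : e x = 0
      · rw [hx, zero_mul]
      · exfalso
        obtain ⟨-, -, h1⟩ := hQ p 2 A B P V f H e he ⊤ top_ne x trivial hx
        apply hc
        have h2 : (p : ℤ) ∣ nm x * nI (R.b i) - c := by
          refine dvd_trans ?_ h
          exact_mod_cast hM
        have h3 : jacobiSym (nm x * nI (R.b i)) p = jacobiSym c p := jac_congr h2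
        rw [jacobiSym.mul_left, (h1 rfl).1, one_mul] at h3
        exact h3
    · rfl
  have h1 : sumMod ((m : ℕ) : OO A B) (fun x => if (M : ℤ) ∣ nm x * nI (R.b i) - c then
      e x * ee (R.L i) (pt R m i x) else 0) = 0 := by
    unfold sumMod
    exact finsum_eq_zero_of_forall_eq_zero fun q => h0 _
  rw [h1, mul_zero]

/-- `STX` for the part of the weights with `J(d N b_i | p) = 1`, `c ≡ d = ± 1` modulo `p` -/
theorem STX_eq (hQ : So_QBO) {p : ℕ} {P : Ideal (OO A B)} {V : ValuationSubring ℂ} {f : ℕ}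
    (H : SetO p 2 A B P V f) {e : OO A B → ℂ} (he : IsEI (idl (A := A) (B := B) (p * f)) e)
    {ι : Type} [Fintype ι] (R : Reps A B (p * f) ι) (m M a : ℕ) (hM : p ∣ M)
    (ha : (p : ℤ) ∣ (a : ℤ) - 1) (kk : ι → ℂ) (d : ℤ) (hd : d * d = 1) (c : ℤ)
    (hc : (p : ℤ) ∣ c - d) : STX R m M a e (kkJ p R kk d) c = STX R m M a e kk c := by
  have hac : (p : ℤ) ∣ (a : ℤ) ^ 2 * c - d := by
    have : (a : ℤ) ^ 2 * c - d = ((a : ℤ) - 1) * ((a + 1) * c) + (c - d) := by ring
    rw [this]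
    exact dvd_add (Dvd.dvd.mul_right ha _) hc
  have key : ∀ i, ¬ jacobiSym (d * (nI (R.b i) : ℤ)) p = 1 →
      jacobiSym (nI (R.b i) : ℤ) p ≠ jacobiSym d p := by
    intro i hi h
    apply hi
    rw [jacobiSym.mul_left, h, ← jacobiSym.mul_left, hd, jacobiSym.one_left]
  unfold STX
  refine Finset.sum_congr rfl fun i _ => ?_
  unfold kkJ
  split_ifs with h
  · rfl
  · have h1 := SnX_zero hQ H he R m M hM i c (by rw [jac_congr hc]; exact key i h)
    have h2 := SnX_zero hQ H he R m M hM i ((a : ℤ) ^ 2 * c) (by rw [jac_congr hac]; exact key i h)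
    rw [h1, h2]
    ring

end QS2

open _root_.Pool.Agent.OBH.QS2

theorem to_QS2 (h2 : So_QBO) : So_QS2 := by
  intro p A B P V f H ι hι R e he kk s n
  have hcq : CQ A B := H.cq
  have hpf : ((p * f : ℕ) : OO A B) ∈ idl (A := A) (B := B) (p * f) :=
    Ideal.mem_span_singleton_self _
  have hp2 : p ≠ 2 := by
    have := H.p5
    omega
  have hq : q0 p = p := by
    unfold q0
    rw [if_neg hp2]
  have hM : q0 p * p ^ n = p ^ (n + 1) := by
    rw [hq, pow_succ, mul_comm]
  have haz : ((aX p f : ℕ) : ℤ) - 1 = p * (2 * f) := by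
    unfold aX
    rw [hq]
    push_cast
    ring
  have ha : (p : ℤ) ∣ ((aX p f : ℕ) : ℤ) - 1 := by rw [haz]; exact Dvd.intro _ rfl
  have hpM : p ∣ p ^ (n + 1) := dvd_pow_self p (Nat.succ_ne_zero n)
  have Q := fun (k : ι → ℂ) (s : ℤ) => ty_QSX MUXF.xf_F5 MUXF.xf_PRD p H.pp A B hcq ⊤ f H.f0 ι hι R
    _ e he hpf k s 1 n
  rw [hM, hq] at Q
  have c1 : ∀ j : ℕ, (p : ℤ) ∣ (1 + (p : ℤ)) ^ j - 1 := by
    intro j
    have := sub_dvd_pow_sub_pow (1 + (p : ℤ)) 1 j
    rw [one_pow] at this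
    exact dvd_trans (by rw [add_sub_cancel_left]) this
  have c2 : ∀ j : ℕ, (p : ℤ) ∣ -(1 + (p : ℤ)) ^ j - (-1) := by
    intro j
    have := (dvd_neg).2 (c1 j)
    rwa [neg_sub, show (1 : ℤ) - (1 + (p : ℤ)) ^ j = -(1 + (p : ℤ)) ^ j - (-1) by ring] at this
  have P1 := fun j => STX_eq h2 H he R (lvX p f n) (p ^ (n + 1)) (aX p f) hpM ha kk 1 (one_mul 1)
    ((1 + (p : ℤ)) ^ j) (c1 j)
  have P2 := fun j => STX_eq h2 H he R (lvX p f n) (p ^ (n + 1)) (aX p f) hpM ha kk (-1)
    (by norm_num) (-(1 + (p : ℤ)) ^ j) (c2 j)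
  set ζ : ℂ := ex (-((1 + (p : ℚ)) * (aX p f : ℚ) ^ 2) / ((p ^ (n + 1) : ℕ) : ℚ)) with hζ
  have hζ1 : ex (-((1 + (p : ℚ)) ^ 1 * (aX p f : ℚ) ^ 2) / ((p ^ (n + 1) : ℕ) : ℚ)) = ζ := by
    rw [pow_one]
  rw [hζ1] at Q
  -- the four sums
  have A1 := Q (kkJ p R kk 1) 1
  have A2 := Q (kkJ p R kk 1) (-1)
  have B1 := Q (kkJ p R kk (-1)) 1
  have B2 := Q (kkJ p R kk (-1)) (-1)
  have L0 : ∀ (k : ι → ℂ) (t : ℤ),
      ∑ j ∈ Finset.range (1 + 1), ((-1 : ℂ) ^ (1 - j) * ((1 : ℕ).choose j : ℂ)) *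
      (STX R (lvX p f n) (p ^ (n + 1)) (aX p f) e k ((1 + (p : ℤ)) ^ j) +
        t * STX R (lvX p f n) (p ^ (n + 1)) (aX p f) e k (-(1 + (p : ℤ)) ^ j)) =
      ∑ j ∈ Finset.range 2, (-1 : ℂ) ^ (1 - j) *
        STX R (lvX p f n) (p ^ (n + 1)) (aX p f) e k ((1 + (p : ℤ)) ^ j) +
      t * ∑ j ∈ Finset.range 2, (-1 : ℂ) ^ (1 - j) *
        STX R (lvX p f n) (p ^ (n + 1)) (aX p f) e k (-(1 + (p : ℤ)) ^ j) := by
    intro k t
    rw [Finset.mul_sum, ← Finset.sum_add_distrib]
    refine Finset.sum_congr rfl fun j hj => ?_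
    have hj2 : j = 0 ∨ j = 1 := by
      have := Finset.mem_range.1 hj
      omega
    rcases hj2 with rfl | rfl
    · simp
      ring
    · simp
  rw [L0] at A1 A2 B1 B2
  simp only [P1] at A1 A2
  simp only [P2] at B1 B2
  have E : ∀ b : ℕ, comb (aX p f) (1 + (p : ℤ)) 1 (fun b => PP R ⊤ e (kkJ p R kk 1) 0 ∞
              ((b / ((p ^ (n + 1) : ℕ) : ℚ) : ℚ) : OnePoint ℚ) +
            s * PP R ⊤ e (kkJ p R kk (-1)) 0 (mob (-1) 0 0 1 ∞)
              (mob (-1) 0 0 1 ((b / ((p ^ (n + 1) : ℕ) : ℚ) : ℚ) : OnePoint ℚ))) b =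
      (1 / 2) * (comb (aX p f) (1 + (p : ℤ)) 1 (fun b => sgnPart (((1 : ℤ)) : ℂ)
            (PP R ⊤ e (kkJ p R kk 1) 0) ∞
            ((b / ((p ^ (n + 1) : ℕ) : ℚ) : ℚ) : OnePoint ℚ)) b +
        comb (aX p f) (1 + (p : ℤ)) 1 (fun b => sgnPart (((-1 : ℤ)) : ℂ)
            (PP R ⊤ e (kkJ p R kk 1) 0) ∞
            ((b / ((p ^ (n + 1) : ℕ) : ℚ) : ℚ) : OnePoint ℚ)) b) +
      (s / 2) * (comb (aX p f) (1 + (p : ℤ)) 1 (fun b => sgnPart (((1 : ℤ)) : ℂ)
            (PP R ⊤ e (kkJ p R kk (-1)) 0) ∞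
            ((b / ((p ^ (n + 1) : ℕ) : ℚ) : ℚ) : OnePoint ℚ)) b -
        comb (aX p f) (1 + (p : ℤ)) 1 (fun b => sgnPart (((-1 : ℤ)) : ℂ)
            (PP R ⊤ e (kkJ p R kk (-1)) 0) ∞
            ((b / ((p ^ (n + 1) : ℕ) : ℚ) : ℚ) : OnePoint ℚ)) b) := by
    intro b
    unfold comb sgnPart
    rw [← Finset.sum_add_distrib, ← Finset.sum_sub_distrib, Finset.mul_sum, Finset.mul_sum,
      ← Finset.sum_add_distrib]
    refine Finset.sum_congr rfl fun j _ => ?_
    push_cast
    ring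
  have hL : ∑ j ∈ Finset.range 2, (-1 : ℂ) ^ (1 - j) *
        (STX R (lvX p f n) (p ^ (n + 1)) (aX p f) e kk ((1 + (p : ℤ)) ^ j) +
          s * STX R (lvX p f n) (p ^ (n + 1)) (aX p f) e kk (-((1 + (p : ℤ)) ^ j))) =
      ∑ j ∈ Finset.range 2, (-1 : ℂ) ^ (1 - j) *
        STX R (lvX p f n) (p ^ (n + 1)) (aX p f) e kk ((1 + (p : ℤ)) ^ j) +
      s * ∑ j ∈ Finset.range 2, (-1 : ℂ) ^ (1 - j) *
        STX R (lvX p f n) (p ^ (n + 1)) (aX p f) e kk (-(1 + (p : ℤ)) ^ j) := by
    rw [Finset.mul_sum, ← Finset.sum_add_distrib]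
    refine Finset.sum_congr rfl fun j _ => ?_
    ring
  rw [hL]
  simp only [E, mul_add, Finset.sum_add_distrib, mul_sub, Finset.sum_sub_distrib]
  have hs : ∀ (t : ℂ) (G : ℕ → ℂ), ∑ b ∈ Finset.range (p ^ (n + 1)), ζ ^ b * (t * G b) =
      t * ∑ b ∈ Finset.range (p ^ (n + 1)), ζ ^ b * G b := by
    intro t G
    rw [Finset.mul_sum]
    refine Finset.sum_congr rfl fun b _ => ?_
    ring
  rw [hs, hs, hs, hs]
  push_cast at A1 A2 B1 B2 ⊢
  linear_combination (1 / 2) * A1 + (1 / 2) * A2 + (s / 2) * B1 - (s / 2) * B2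

end

end Pool.Agent.OBH


end

section

/-!
# OB, block H, bridge, module SHJ (helper71): the symbol under the quadratic character sum of
the translations `x ↦ x + j/p`
-/

set_option autoImplicit false

namespace Pool.Agent.OBH

open _root_.MU3 _root_.Pool.Agent.MU3A _root_.Pool.Agent.MU3B _root_.Pool.Agent.MU3F _root_.Pool.Agent.MUX
  _root_.Pool.Agent.MUXH _root_.Pool.Agent.MUXHY _root_.Pool.Agent.MuSym _root_.Pool.Agent.OB OnePoint
open _root_.Pool.Agent.MUXF (qb)

noncomputable section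

namespace SHJ

variable {A B : ℤ}

lemma sum_zmod (p : ℕ) [NeZero p] (g : ZMod p → ℂ) :
    ∑ j ∈ Finset.range p, g (j : ZMod p) = ∑ a : ZMod p, g a := by
  refine Finset.sum_nbij' (fun j => (j : ZMod p)) (fun a => a.val) ?_ ?_ ?_ ?_ ?_
  · intro j _
    exact Finset.mem_univ _
  · intro a _
    exact Finset.mem_range.2 (ZMod.val_lt a)
  · intro j hj
    exact ZMod.val_cast_of_lt (Finset.mem_range.1 hj)
  · intro a _
    exact ZMod.natCast_zmod_val a
  · intro j _
    rfl

/-- the quadratic character of `ZMod p` with complex values -/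
def qc (p : ℕ) [Fact p.Prime] : MulChar (ZMod p) ℂ :=
  (quadraticChar (ZMod p)).ringHomComp (Int.castRingHom ℂ)

lemma qc_eq (p : ℕ) [Fact p.Prime] (a : ℤ) :
    qc p (a : ZMod p) = ((jacobiSym a p : ℤ) : ℂ) := by
  rw [← jacobiSym.legendreSym.to_jacobiSym]
  rfl

/-- the Gauss sum with the exponents multiplied by `N` -/
lemma gauss (p : ℕ) (hp : p.Prime) (N : ℤ) (hN : jacobiSym N p ≠ 0) :
    ∑ j ∈ Finset.range p, ((jacobiSym (j : ℤ) p : ℤ) : ℂ) *
        Complex.exp (2 * Real.pi * Complex.I * N * j / p) =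
      ((jacobiSym N p : ℤ) : ℂ) * (∑ j ∈ Finset.range p, ((jacobiSym (j : ℤ) p : ℤ) : ℂ) *
        Complex.exp (2 * Real.pi * Complex.I / p) ^ j) := by
  haveI : Fact p.Prime := ⟨hp⟩
  haveI : NeZero p := ⟨hp.ne_zero⟩
  have h1 : ∀ j : ℕ, ((jacobiSym (j : ℤ) p : ℤ) : ℂ) *
      Complex.exp (2 * Real.pi * Complex.I * N * j / p) =
      qc p (j : ZMod p) * ZMod.stdAddChar ((N : ZMod p) * (j : ZMod p)) := by
    intro j
    rw [← qc_eq]
    have h2 : ((N : ZMod p) * (j : ZMod p)) = ((N * (j : ℤ) : ℤ) : ZMod p) := by push_cast; ring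
    rw [h2, ZMod.stdAddChar_coe]
    push_cast
    congr 2
    ring
  have h2 : ∀ j : ℕ, ((jacobiSym (j : ℤ) p : ℤ) : ℂ) *
      Complex.exp (2 * Real.pi * Complex.I / p) ^ j =
      qc p (j : ZMod p) * ZMod.stdAddChar (j : ZMod p) := by
    intro j
    rw [← qc_eq, ← Complex.exp_nat_mul]
    have h2 : (j : ZMod p) = (((j : ℤ) : ℤ) : ZMod p) := by push_cast; ring
    rw [h2, ZMod.stdAddChar_coe]
    push_cast
    congr 2
    ring
  simp only [h1, h2]
  rw [sum_zmod p (fun a => qc p a * ZMod.stdAddChar ((N : ZMod p) * a)),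
    sum_zmod p (fun a => qc p a * ZMod.stdAddChar a)]
  have hu : IsUnit (N : ZMod p) := by
    rw [isUnit_iff_ne_zero]
    intro h0
    apply hN
    rw [← jacobiSym.legendreSym.to_jacobiSym]
    exact (legendreSym.eq_zero_iff p N).2 h0
  obtain ⟨a, ha⟩ := hu
  have h3 := gaussSum_mulShift (qc p) (ZMod.stdAddChar (N := p)) a
  have h4 : gaussSum (qc p) (AddChar.mulShift (ZMod.stdAddChar (N := p)) a) =
      ∑ x : ZMod p, qc p x * ZMod.stdAddChar ((N : ZMod p) * x) := by
    unfold gaussSum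
    refine Finset.sum_congr rfl fun x _ => ?_
    rw [AddChar.mulShift_apply, ha]
  rw [h4] at h3
  have h5 : qc p (a : ZMod p) = ((jacobiSym N p : ℤ) : ℂ) := by rw [ha, qc_eq]
  rw [h5] at h3
  have h6 : ((jacobiSym N p : ℤ) : ℂ) * ((jacobiSym N p : ℤ) : ℂ) = 1 := by
    have h7 : jacobiSym N p = 1 ∨ jacobiSym N p = -1 := by
      rcases jacobiSym.trichotomy N p with h | h | h
      · exact absurd h hN
      · exact Or.inl h
      · exact Or.inr h
    rcases h7 with h | h <;> rw [h] <;> norm_num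
  have h8 : gaussSum (qc p) (ZMod.stdAddChar (N := p)) =
      ∑ x : ZMod p, qc p x * ZMod.stdAddChar x := rfl
  rw [← h8, ← h3, ← mul_assoc, h6, one_mul]

/-- theta under a weighted sum of translations -/
theorem theta_sum (hc : CQ A B) {b g : Ideal (OO A B)} {e : OO A B → ℂ} (hb : b ≠ ⊥) (hg : g ≠ ⊥)
    (he : IsEI g e) (p : ℕ) (w : ℕ → ℂ) (s : ℤ) (c : ℂ)
    (h : ∀ x ∈ b, e x ≠ 0 → ∑ j ∈ Finset.range p, w j *
      Complex.exp (2 * Real.pi * Complex.I * ((s * qb b x : ℤ) : ℂ) * j / p) = c)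
    (z : ℂ) (hz : 0 < z.im) :
    ∑ j ∈ Finset.range p, w j * thetaI b e (z + s * (j : ℂ) / p) = c * thetaI b e z := by
  have hcq := toCQ hc
  obtain ⟨-, C, hC0, hC⟩ := MUXF.xf_BDD A B hcq _ e hg (toEI he)
  have him : ∀ j : ℕ, 0 < (z + s * (j : ℂ) / p).im := by
    intro j
    have : (s * (j : ℂ) / p).im = 0 := by
      have : (s * (j : ℂ) / p) = ((s * (j : ℝ) / p : ℝ) : ℂ) := by push_cast; ring
      rw [this]
      exact Complex.ofReal_im _
    rw [Complex.add_im, this, add_zero]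
    exact hz
  have hsum : ∀ j : ℕ, Summable (fun x : b => w j * (e x * (starRingEnd ℂ) (emb (x : OO A B)) *
      Complex.exp (2 * Real.pi * Complex.I * ((nm (x : OO A B) : ℂ) / nI b) *
        (z + s * (j : ℂ) / p)))) :=
    fun j : ℕ => (MUXF.xf_TSM A B hcq b hb e C hC (z + s * (j : ℂ) / p) (him j)).mul_left (w j)
  have e1 : ∑ j ∈ Finset.range p, w j * thetaI b e (z + s * (j : ℂ) / p) =
      (1 / 2) * ∑ j ∈ Finset.range p, ∑' x : b, w j * (e x * (starRingEnd ℂ) (emb (x : OO A B)) *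
        Complex.exp (2 * Real.pi * Complex.I * ((nm (x : OO A B) : ℂ) / nI b) *
          (z + s * (j : ℂ) / p))) := by
    rw [Finset.mul_sum]
    refine Finset.sum_congr rfl fun j _ => ?_
    rw [tsum_mul_left]
    unfold thetaI
    ring
  have e0 : c * thetaI b e z = (1 / 2) * ∑' x : b, c * (e x * (starRingEnd ℂ) (emb (x : OO A B)) *
        Complex.exp (2 * Real.pi * Complex.I * ((nm (x : OO A B) : ℂ) / nI b) * z)) := by
    rw [tsum_mul_left]
    unfold thetaI
    ring
  rw [e1, e0, ← Summable.tsum_finsetSum (fun j _ => hsum j)]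
  congr 1
  refine tsum_congr fun x => ?_
  by_cases h3 : e x = 0
  · rw [h3]
    simp
  · obtain ⟨h1, h2⟩ := (MUXF.xf_QB A B hcq b hb).1 x x.2
    have hnI : ((nI b : ℕ) : ℂ) ≠ 0 := by
      have := (MUXF.xf_IDL A B hcq b hb).1
      exact_mod_cast this
    have h4 : ((nm (x : OO A B) : ℤ) : ℂ) / ((nI b : ℕ) : ℂ) = ((qb b (x : OO A B) : ℤ) : ℂ) := by
      have h5 : nm (x : OO A B) = (nI b : ℤ) * qb b (x : OO A B) := h1
      rw [h5]
      push_cast
      field_simp
    have h6 := h x.1 x.2 h3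
    rw [← h6, Finset.sum_mul]
    refine Finset.sum_congr rfl fun j _ => ?_
    rw [h4]
    have h7 : Complex.exp (2 * Real.pi * Complex.I * ((qb b (x : OO A B) : ℤ) : ℂ) *
        (z + s * (j : ℂ) / p)) =
        Complex.exp (2 * Real.pi * Complex.I * ((s * qb b (x : OO A B) : ℤ) : ℂ) * j / p) *
          Complex.exp (2 * Real.pi * Complex.I * ((qb b (x : OO A B) : ℤ) : ℂ) * z) := by
      rw [← Complex.exp_add]
      congr 1
      push_cast
      ring
    rw [h7]
    ring

/-- the symbol under a weighted sum of translations -/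
theorem symb_sum (hc : CQ A B) {b g : Ideal (OO A B)} {e : OO A B → ℂ} (hb : b ≠ ⊥) (hg : g ≠ ⊥)
    (he : IsEI g e) (p : ℕ) (w : ℕ → ℂ) (s : ℤ) (c : ℂ)
    (h : ∀ x ∈ b, e x ≠ 0 → ∑ j ∈ Finset.range p, w j *
      Complex.exp (2 * Real.pi * Complex.I * ((s * qb b x : ℤ) : ℂ) * j / p) = c) (r : ℚ) :
    ∑ j ∈ Finset.range p, w j * PhiI b e ∞ ((r + s * (j : ℚ) / p : ℚ) : OnePoint ℚ) =
      c * PhiI b e ∞ (r : OnePoint ℚ) := by
  have hcq := toCQ hc
  have hI := fun r : ℚ => MUXF.xf_ITG A B hcq b _ e hb hg (toEI he) r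
  have e1 : ∀ j ∈ Finset.range p, w j * PhiI b e ∞ ((r + s * (j : ℚ) / p : ℚ) : OnePoint ℚ) =
      2 * Real.pi * ∫ t in Set.Ioi (0 : ℝ), w j * thetaI b e ((r : ℂ) + t * Complex.I +
        s * (j : ℂ) / p) := by
    intro j _
    rw [Qsx.PhiI_inf]
    unfold IvI
    rw [neg_mul, neg_neg, MeasureTheory.integral_const_mul]
    have : ∫ t in Set.Ioi (0 : ℝ), thetaI b e (((r + s * (j : ℚ) / p : ℚ) : ℂ) + t * Complex.I) =
        ∫ t in Set.Ioi (0 : ℝ), thetaI b e ((r : ℂ) + t * Complex.I + s * (j : ℂ) / p) := by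
      refine MeasureTheory.integral_congr_ae (Filter.Eventually.of_forall fun t => ?_)
      show thetaI b e _ = thetaI b e _
      congr 1
      push_cast
      ring
    rw [this]
    ring
  have e0 : c * PhiI b e ∞ (r : OnePoint ℚ) =
      2 * Real.pi * ∫ t in Set.Ioi (0 : ℝ), c * thetaI b e ((r : ℂ) + t * Complex.I) := by
    rw [Qsx.PhiI_inf]
    unfold IvI
    rw [neg_mul, neg_neg, MeasureTheory.integral_const_mul]
    ring
  rw [Finset.sum_congr rfl e1, e0, ← Finset.mul_sum, ← MeasureTheory.integral_finsetSum]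
  · congr 1
    refine MeasureTheory.setIntegral_congr_fun measurableSet_Ioi ?_
    intro t ht
    refine theta_sum hc hb hg he p w s c h _ ?_
    have h1 : ((r : ℂ)).im = 0 := by
      rw [← Complex.ofReal_ratCast]
      exact Complex.ofReal_im _
    rw [Complex.add_im, h1, zero_add, Complex.mul_im]
    simpa using ht
  · intro j _
    refine MeasureTheory.Integrable.const_mul ?_ (w j)
    have h1 := hI (r + s * (j : ℚ) / p)
    refine h1.congr_fun ?_ measurableSet_Ioi
    intro t _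
    show thetaI b e _ = thetaI b e _
    congr 1
    push_cast
    ring

end SHJ

theorem to_SHJ : So_SHJ := by
  intro p hp _ A B hc b g e hb hg he t ht h r
  constructor
  · have h1 := SHJ.symb_sum hc hb hg he p (fun j => ((jacobiSym (j : ℤ) p : ℤ) : ℂ)) 1
      ((t : ℂ) * (∑ j ∈ Finset.range p, ((jacobiSym (j : ℤ) p : ℤ) : ℂ) *
        Complex.exp (2 * Real.pi * Complex.I / p) ^ j)) (by
        intro x hx hex
        have h2 := h x hx hex
        have h3 := SHJ.gauss p hp (1 * qb b x) (by rw [one_mul, h2]; exact ht)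
        rw [one_mul, h2] at h3
        rw [one_mul]
        exact h3) r
    rw [← h1]
    refine Finset.sum_congr rfl fun j _ => ?_
    norm_num
  · have h1 := SHJ.symb_sum hc hb hg he p (fun j => ((jacobiSym (j : ℤ) p : ℤ) : ℂ)) (-1)
      (((jacobiSym (-1) p : ℤ) : ℂ) * (t : ℂ) *
        (∑ j ∈ Finset.range p, ((jacobiSym (j : ℤ) p : ℤ) : ℂ) *
        Complex.exp (2 * Real.pi * Complex.I / p) ^ j)) (by
        intro x hx hex
        have h2 := h x hx hex
        have h4 : jacobiSym (-1 * qb b x) p = jacobiSym (-1) p * t := by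
          rw [jacobiSym.mul_left, h2]
        have h5 : jacobiSym (-1) p ≠ 0 := by
          haveI : NeZero p := ⟨hp.ne_zero⟩
          rw [Ne, jacobiSym.eq_zero_iff_not_coprime]
          simp
        have h3 := SHJ.gauss p hp (-1 * qb b x) (by rw [h4]; exact mul_ne_zero h5 ht)
        rw [h4] at h3
        rw [h3]
        push_cast
        ring) r
    rw [← h1]
    refine Finset.sum_congr rfl fun j _ => ?_
    congr 3
    push_cast
    ring

end

end Pool.Agent.OBH


end

section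

/-!
# OB, block H, bridge: elementary facts (helper77)
-/

set_option autoImplicit false

namespace Pool.Agent.OBH

open _root_.MU3 _root_.Pool.Agent.MU3A _root_.Pool.Agent.MU3B _root_.Pool.Agent.MU3F _root_.Pool.Agent.MUX
  _root_.Pool.Agent.MUXH _root_.Pool.Agent.MUXHY _root_.Pool.Agent.MuSym _root_.Pool.Agent.OB OnePoint

noncomputable section

theorem to_VAL (hram : So_RAM) : So_VAL := by
  intro p er A B P V f H
  have hp := H.pp
  have hp5 := H.p5
  have hpZ : Prime (p : ℤ) := Nat.prime_iff_prime_int.1 hp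
  have hf0 := H.f0
  have h3 : V.valuation (p : ℂ) < 1 := by
    have h1 : emb ((p : ℕ) : OO A B) ∈ V.nonunits := (H.hV _).2 H.mem
    have h2 : emb ((p : ℕ) : OO A B) = (p : ℂ) := by
      unfold emb
      rw [QuadraticAlgebra.re_natCast, QuadraticAlgebra.im_natCast]
      push_cast
      ring
    rw [h2, ValuationSubring.mem_nonunits_iff] at h1
    exact h1
  have hle : ∀ z : ℤ, V.valuation (z : ℂ) ≤ 1 := fun z =>
    (V.valuation_le_one_iff _).2 (intCast_mem V z)
  have hD0 : 0 < absD A B := by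
    have := H.cq.neg
    unfold absD
    omega
  have h3f : ((p * f : ℕ) : OO A B) ∈ idl (A := A) (B := B) (p * f) :=
    Ideal.mem_span_singleton_self _
  have hDn : (((absD A B).toNat : ℕ) : ℤ) = absD A B := Int.toNat_of_nonneg hD0.le
  obtain ⟨-, hr1, hr2⟩ := hram p er A B P V H.toCaseO
  -- the number `N0O`
  have hN : ((p ^ (er + 1) * N0O p er A B f : ℕ) : ℤ) = absD A B * ((p * f : ℕ) : ℤ) ^ 2 ∧
      N0O p er A B f ≠ 0 ∧ Nat.Coprime p (N0O p er A B f) ∧
      absD A B ∣ ((p * N0O p er A B f : ℕ) : ℤ) ∧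
      ((p * f : ℕ) : ℤ) ∣ ((p * N0O p er A B f : ℕ) : ℤ) := by
    rcases H.ram with ⟨he, -⟩ | ⟨he, -⟩
    · subst he
      have hpD : ¬ (p : ℤ) ∣ absD A B := hr1 rfl
      have hN0 : N0O p 1 A B f = (absD A B).toNat * f ^ 2 := by
        unfold N0O
        simp
      rw [hN0]
      refine ⟨?_, ?_, ?_, ?_, ?_⟩
      · push_cast
        rw [hDn]
        ring
      · have h1 : (absD A B).toNat ≠ 0 := by omega
        exact Nat.mul_ne_zero h1 (pow_ne_zero _ hf0)
      · rw [Nat.Prime.coprime_iff_not_dvd hp]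
        intro h
        rcases (Nat.Prime.dvd_mul hp).1 h with h | h
        · apply hpD
          rw [← hDn]
          exact_mod_cast h
        · exact H.fp (hp.dvd_of_dvd_pow h)
      · refine ⟨(p : ℤ) * (f : ℤ) ^ 2, ?_⟩
        push_cast
        rw [hDn]
        ring
      · refine ⟨absD A B * (f : ℤ), ?_⟩
        push_cast
        rw [hDn]
        ring
    · subst he
      obtain ⟨-, hpD, hp2D⟩ := hr2 rfl
      have hpn : p ∣ (absD A B).toNat := by
        have : ((p : ℕ) : ℤ) ∣ (((absD A B).toNat : ℕ) : ℤ) := by rw [hDn]; exact hpD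
        exact_mod_cast this
      obtain ⟨d, hd⟩ := hpn
      have hdiv : (absD A B).toNat / p ^ (2 - 1) = d := by
        rw [hd]
        norm_num
        exact Nat.mul_div_cancel_left d hp.pos
      have hN0 : N0O p 2 A B f = d * f ^ 2 := by
        unfold N0O
        rw [hdiv]
      have hDd : absD A B = (p : ℤ) * (d : ℤ) := by
        rw [← hDn, hd]
        push_cast
        rfl
      have hd0 : d ≠ 0 := by
        rintro rfl
        rw [hDd] at hD0
        simp at hD0
      rw [hN0]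
      refine ⟨?_, ?_, ?_, ?_, ?_⟩
      · push_cast
        rw [hDd]
        ring
      · exact Nat.mul_ne_zero hd0 (pow_ne_zero _ hf0)
      · rw [Nat.Prime.coprime_iff_not_dvd hp]
        intro h
        rcases (Nat.Prime.dvd_mul hp).1 h with h | h
        · apply hp2D
          rw [hDd, pow_two]
          exact mul_dvd_mul_left _ (by exact_mod_cast h)
        · exact H.fp (hp.dvd_of_dvd_pow h)
      · refine ⟨(f : ℤ) ^ 2, ?_⟩
        push_cast
        rw [hDd]
        ring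
      · refine ⟨(d : ℤ) * (f : ℤ), ?_⟩
        push_cast
        ring
  refine ⟨h3, hle, ?_, ?_, hD0, ?_, ?_, ?_, h3f, hN⟩
  · intro n hn
    have hc : IsCoprime n (p : ℤ) := by
      rw [isCoprime_comm]
      exact (hpZ.coprime_iff_not_dvd).2 hn
    obtain ⟨a, b, hab⟩ := hc
    by_contra hne
    have hlt : V.valuation (n : ℂ) < 1 := lt_of_le_of_ne (hle n) hne
    have h1 : V.valuation ((a : ℂ) * n + b * (p : ℂ)) < 1 := by
      refine lt_of_le_of_lt (V.valuation.map_add _ _) (max_lt ?_ ?_)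
      · rw [map_mul]
        exact mul_lt_one_of_nonneg_of_lt_one_right (hle a) zero_le hlt
      · rw [map_mul]
        exact mul_lt_one_of_nonneg_of_lt_one_right (hle b) zero_le h3
    have h2 : (a : ℂ) * n + b * (p : ℂ) = 1 := by exact_mod_cast hab
    rw [h2, map_one] at h1
    exact lt_irrefl _ h1
  · intro r z hr hz
    have h1 : V.valuation z ^ r = 1 := by rw [← map_pow, hz, map_one]
    exact (pow_eq_one_iff_of_nonneg zero_le hr).1 h1
  · rw [Ideal.span_singleton_le_iff_mem, Ideal.mem_span_singleton]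
    obtain ⟨t, ht⟩ := H.fD
    refine ⟨((2 * t : ℤ) : OO A B), ?_⟩
    have h1 : ((p * f : ℕ) : OO A B) = ((((p * f : ℕ) : ℤ) : ℤ) : OO A B) := by push_cast; rfl
    rw [h1, ht]
    push_cast
    ring
  · intro h
    rw [h, Ideal.mem_bot] at h3f
    have h1 := congrArg QuadraticAlgebra.re h3f
    simp only [QuadraticAlgebra.re_natCast, QuadraticAlgebra.re_zero] at h1
    have h2 : (p * f : ℕ) = 0 := by exact_mod_cast h1
    rcases Nat.mul_eq_zero.1 h2 with h | h
    · exact hp.ne_zero h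
    · exact hf0 h
  · intro h
    rw [Ideal.eq_top_iff_one, Ideal.mem_span_singleton] at h
    obtain ⟨y, hy⟩ := h
    have h1 := congrArg QuadraticAlgebra.re hy
    rw [QuadraticAlgebra.re_one, QuadraticAlgebra.re_mul, QuadraticAlgebra.re_natCast,
      QuadraticAlgebra.im_natCast, mul_zero, zero_mul, add_zero] at h1
    have h9 : ((p * f : ℕ) : ℤ) ∣ 1 := ⟨y.re, h1⟩
    have h10 : (p * f : ℕ) ∣ 1 := by exact_mod_cast h9
    have h11 := Nat.dvd_one.1 h10
    have h12 : p ∣ 1 := ⟨f, h11.symm⟩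
    have h13 := Nat.le_of_dvd one_pos h12
    omega

end

end Pool.Agent.OBH


end
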