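import Pool.Agent.MVF.C026
import Pool.Agent.MVF.C033
import Pool.Agent.MVF.C041
import Pool.Agent.MVF.C057
import Pool.Agent.MVF.C068
import Pool.Agent.MVF.C071
import Pool.Agent.MVF.C112
import Pool.Agent.OBM.C01
import Pool.Agent.OBM.C02

/-! Parts: OB.I_BRA, OB.I_E0, OB.I_EPS, OB.I_GAM, OB.I_INP, OB.I_NCR, OB.I_OME, OB.I_PRF, OB.I_SUB, OB.I_TEI, OB.I_TH, OB.I_TSH, OB.I_XMX -/

section

/-!
# OB, block I, module BRA: the branches, algebra (helper65)
-/

set_option autoImplicit false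

namespace Pool.Agent.OBI

open _root_.MU3 Pool.Agent.MU3 Pool.Agent.MU3A Pool.Agent.MU3B Pool.Agent.RI Pool.Agent.RID
  Pool.Agent.MUX Pool.Agent.MUXK Pool.Agent.MUXI Pool.Agent.NS Pool.Agent.NSI Pool.Agent.OB

noncomputable section

namespace BRAx

open scoped Classical in
/-- the geometric sum over the even exponents -/
theorem geo {F : Type} [Field F] {k : ℕ} {w : F} (hw : w ^ (2 * k) = 1) :
    ∑ m ∈ Finset.range k, w ^ (2 * m) = if w ^ 2 = 1 then (k : F) else 0 := by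
  split_ifs with h
  · simp [pow_mul, h]
  · have h1 := geom_sum_mul (w ^ 2) k
    rw [← pow_mul, hw, sub_self] at h1
    have h2 : ∑ m ∈ Finset.range k, (w ^ 2) ^ m = 0 := by
      rcases mul_eq_zero.1 h1 with h3 | h3
      · exact h3
      · exact absurd (sub_eq_zero.1 h3) h
    simpa [pow_mul] using h2

end BRAx

open _root_.Pool.Agent.OBI.BRAx in
theorem oi_BRA : Oi_BRA := by
  classical
  intro F _ p _ hp2 _ M _ Δ _ S u χ hu hS a
  rintro ⟨θ, hθ⟩
  by_contra hcon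
  have hp : p.Prime := Fact.out
  obtain ⟨k, hk⟩ : ∃ k, p = 2 * k + 1 := by
    rcases hp.eq_two_or_odd' with h | h
    · exact absurd h hp2
    · exact h
  have hk1 : p - 1 = 2 * k := by omega
  obtain ⟨θ', hθ'⟩ : ∃ θ' : F →+ ZMod p, ∀ x, θ' x = θ (-2 * x) :=
    ⟨θ.comp (AddMonoidHom.mulLeft (-2)), fun x => rfl⟩
  have h1 : ∀ m : ℕ, ∃ y : M, m < k →
      y ^ p = ∏ δ, a δ ^ (θ' ((χ δ * u δ ^ (2 * m))⁻¹ : Fˣ)).val := by
    intro m
    by_cases hm : m < k
    · by_contra hno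
      apply hcon
      refine ⟨2 * m, by omega, even_two_mul m, θ', fun y hy => hno ⟨y, fun _ => hy⟩⟩
    · exact ⟨1, fun h => absurd h hm⟩
  choose y hy using h1
  -- the sums of the exponents
  obtain ⟨N, hN⟩ : ∃ N : Δ → ℕ, ∀ δ, N δ = ∑ m ∈ Finset.range k,
      (θ' ((χ δ * u δ ^ (2 * m))⁻¹ : Fˣ)).val := ⟨_, fun _ => rfl⟩
  have hNc : ∀ δ, ((N δ : ℕ) : ZMod p) = if δ ∈ S then θ ((χ δ)⁻¹ : Fˣ) else 0 := by
    intro δ
    rw [hN, Nat.cast_sum]
    have e1 : ∀ m ∈ Finset.range k, (((θ' ((χ δ * u δ ^ (2 * m))⁻¹ : Fˣ)).val : ℕ) : ZMod p) =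
        θ (-2 * (((χ δ)⁻¹ : Fˣ) : F) * (((u δ)⁻¹ : Fˣ) : F) ^ (2 * m)) := by
      intro m _
      rw [ZMod.natCast_val, ZMod.cast_id', id, hθ']
      congr 1
      rw [mul_inv, Units.val_mul, ← inv_pow, Units.val_pow_eq_pow_val]
      ring
    rw [Finset.sum_congr rfl e1, ← map_sum, ← Finset.mul_sum, geo]
    · have e2 : ((((u δ)⁻¹ : Fˣ) : F) ^ 2 = 1) ↔ δ ∈ S := by
        rw [hS]
        rw [← Units.val_pow_eq_pow_val, Units.val_eq_one, inv_pow, inv_eq_one]
      by_cases hδ : δ ∈ S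
      · rw [if_pos hδ, if_pos (e2.2 hδ)]
        congr 1
        have e3 : (2 * (k : F) + 1) = 0 := by
          have e4 : ((p : ℕ) : F) = 0 := CharP.cast_eq_zero F p
          rw [hk] at e4
          push_cast at e4
          exact e4
        linear_combination (-(((χ δ)⁻¹ : Fˣ) : F)) * e3
      · rw [if_neg hδ, if_neg (fun h => hδ (e2.1 h)), mul_zero, map_zero]
    · have e5 := hu δ
      rw [hk1] at e5
      rw [← Units.val_pow_eq_pow_val, inv_pow, e5, inv_one, Units.val_one]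
  have hNv : ∀ δ, N δ % p = if δ ∈ S then (θ ((χ δ)⁻¹ : Fˣ)).val else 0 := by
    intro δ
    have e1 := congrArg ZMod.val (hNc δ)
    rw [ZMod.val_natCast] at e1
    rw [e1]
    split_ifs
    · rfl
    · exact ZMod.val_zero
  apply hθ ((∏ m ∈ Finset.range k, y m) * (∏ δ, a δ ^ (N δ / p))⁻¹)
  have e1 : (∏ m ∈ Finset.range k, y m) ^ p = ∏ δ, a δ ^ N δ := by
    rw [← Finset.prod_pow]
    rw [Finset.prod_congr rfl fun m hm => hy m (Finset.mem_range.1 hm)]
    rw [Finset.prod_comm]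
    refine Finset.prod_congr rfl fun δ _ => ?_
    rw [hN, Finset.prod_pow_eq_pow_sum]
  have e2 : ∏ δ, a δ ^ N δ = (∏ δ, a δ ^ (N δ / p)) ^ p *
      ∏ δ ∈ S, a δ ^ (θ ((χ δ)⁻¹ : Fˣ)).val := by
    have e3 : ∏ δ ∈ S, a δ ^ (θ ((χ δ)⁻¹ : Fˣ)).val = ∏ δ, a δ ^ (N δ % p) := by
      rw [← Finset.prod_subset (Finset.subset_univ S)]
      · refine Finset.prod_congr rfl fun δ hδ => ?_
        rw [hNv, if_pos hδ]
      · intro δ _ hδ
        rw [hNv, if_neg hδ, pow_zero]
    rw [e3, ← Finset.prod_pow, ← Finset.prod_mul_distrib]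
    refine Finset.prod_congr rfl fun δ _ => ?_
    rw [← pow_mul, ← pow_add]
    congr 1
    have := Nat.div_add_mod (N δ) p
    rw [mul_comm]
    exact this.symm
  rw [mul_pow, inv_pow, e1, e2]
  rw [mul_comm ((∏ δ, a δ ^ (N δ / p)) ^ p), mul_assoc, mul_inv_cancel, mul_one]

end

end Pool.Agent.OBI


end

section

/-!
# OB, block I, module E0: the characters `e0` and `kp`, for `SetQ`
(`Pool/Agent/NS/I_E0.lean` is for `SetL`; lemmas of `Pool/Agent/MUX/I_E0.lean` are used)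
-/

set_option autoImplicit false

namespace Pool.Agent.OBI

open _root_.MU3 Pool.Agent.MU3 Pool.Agent.MU3A Pool.Agent.MU3B Pool.Agent.RI Pool.Agent.RID
  Pool.Agent.MUX Pool.Agent.MUXK Pool.Agent.MUXI Pool.Agent.NS Pool.Agent.NSI Pool.Agent.OB
open Pool.Agent.MU3I (zt)

noncomputable section

open Pool.Agent.MUXI.E0

/-- the module E0 -/
theorem oi_E0 (h1 : Pool.Agent.MUXI.Si_ARF) (h4 : Pool.Agent.MUXF.Sx_NIM) : Oi_E0 := by
  intro p A B f S T ι R K hK hKm hG X r hX
  have hlv : 3 ≤ lvX p f 0 := by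
    have hf : 1 ≤ f := Nat.one_le_iff_ne_zero.2 S.f0
    have h2 := S.pp.two_le
    have h3 := S.p2
    have h4 : 3 ≤ p := by omega
    rw [lvX_odd S.p2 f 0, zero_add, pow_one]
    calc 3 = 1 * 3 := by norm_num
      _ ≤ f * p := Nat.mul_le_mul hf h4
  have hm : (idl (lvX p f 0) : Ideal (OO A B)) ≠ ⊥ := by
    rw [Ne, Ideal.span_singleton_eq_bot]
    exact nat_ne (by omega)
  have hm1 : (idl (lvX p f 0) : Ideal (OO A B)) ≠ ⊤ := by
    rw [Ne, Ideal.span_singleton_eq_top]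
    intro hu
    obtain ⟨y, hy⟩ := hu.exists_right_inv
    have h := congrArg QuadraticAlgebra.re hy
    rw [QuadraticAlgebra.re_mul] at h
    simp only [QuadraticAlgebra.re_natCast, QuadraticAlgebra.im_natCast, QuadraticAlgebra.re_one,
      mul_zero, zero_mul, add_zero] at h
    have h' : ((lvX p f 0 : ℕ) : ℤ) ∣ 1 := ⟨_, h.symm⟩
    have h'' := Int.le_of_dvd one_pos h'
    omega
  have hbot : ∀ a : Ideal (OO A B), IsCoprime a (idl (lvX p f 0)) → a ≠ ⊥ := by
    rintro a ha rfl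
    apply hm1
    rw [← Ideal.isCoprime_iff_sup_eq.1 ha, bot_sup_eq]
  obtain ⟨a1, a2, -, a4, a5, -, -⟩ := h1 A B S.cq T ⟨_, _, _, R.nl R.i0⟩
    (idl (lvX p f 0)) hm K hK hKm hG
  let _ : Algebra (kk A B) K := algC hK
  obtain ⟨ψ, s1, s2, s3, s4, s5, s6⟩ := psi (idl (lvX p f 0))
    (fun τ a => AR hK (idl (lvX p f 0)) τ a) X r hX a1
    (fun a ha => a2 a (hbot a ha) ha)
    (fun τ a h => by obtain ⟨σ, h, -⟩ := h; exact h.cop)
    a4 a5
  have hcop : ∀ x : OO A B, IsCoprime (sp x) (idl (lvX p f 0)) ↔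
      IsCoprime x ((lvX p f 0 : ℕ) : OO A B) := fun x => Ideal.isCoprime_span_singleton_iff _ _
  refine ⟨fun x => ψ (sp x), fun i => ψ (cjI (R.b i)), ?_, ?_, ?_, ?_, ?_, ?_, ?_, ?_⟩
  · show ψ (sp 1) = 1
    rw [sp, Ideal.span_singleton_one, s3]
  · show ψ (sp (-1)) = 1
    rw [sp, Ideal.span_singleton_neg, Ideal.span_singleton_one, s3]
  · intro x y
    show ψ (sp (x * y)) = ψ (sp x) * ψ (sp y)
    rw [← s2, sp, sp, sp, Ideal.span_singleton_mul_span_singleton]
  · intro x y hxy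
    show ψ (sp x) = ψ (sp y)
    by_cases hx : IsCoprime (sp x) (idl (lvX p f 0))
    · have hy := cop_sub hxy hx
      have hx0 : x ≠ 0 := by
        rintro rfl
        exact hbot _ hx (by rw [sp, Ideal.span_singleton_eq_bot])
      have hy0 : y ≠ 0 := by
        rintro rfl
        exact hbot _ hy (by rw [sp, Ideal.span_singleton_eq_bot])
      refine s6 _ _ ⟨y, x, hy0, hx0, hy, ?_, mul_comm _ _⟩ hx hy
      rw [← neg_sub]
      exact neg_mem hxy
    · have hy : ¬ IsCoprime (sp y) (idl (lvX p f 0)) := fun hy => hx (cop_sub (by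
        rw [← neg_sub]
        exact neg_mem hxy) hy)
      rw [not_not.1 fun h => hx ((s4 _).1 h), not_not.1 fun h => hy ((s4 _).1 h)]
  · intro x
    exact (s4 _).trans (hcop x)
  · intro x hx
    exact s5 _ hx
  · intro i
    apply s5
    rw [s4]
    obtain ⟨-, -, n3, -⟩ := h4 A B (Pool.Agent.MUXY.cqF S.cq)
    obtain ⟨-, -, -, n4⟩ := n3 (R.b i) (R.nl i).b_ne
    have h5 : ((nI (R.b i) : ℕ) : OO A B) ∈ cjI (R.b i) := by
      show (starRingEnd (OO A B)) ((nI (R.b i) : ℕ) : OO A B) ∈ R.b i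
      rw [map_natCast]
      exact n4
    obtain ⟨u, v, huv⟩ := cop_nat (A := A) (B := B) (lv_cop (R.cop i))
    exact Ideal.isCoprime_iff_exists.2 ⟨u * _, Ideal.mul_mem_left _ _ h5, v * _,
      Ideal.mul_mem_left _ _ (Ideal.mem_span_singleton_self _), huv⟩
  · intro τ i x hx hA
    show (((X τ)⁻¹ : ℂˣ) : ℂ) = ψ (cjI (R.b i)) * ψ (sp x)
    rw [← s1 τ _ hA, s2, mul_comm]

end

end Pool.Agent.OBI


end

section

/-!
# OB, block I: module EPS, the odd character, the twist `t`, the sign `s` and the type `i` (helper77)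
-/

set_option autoImplicit false

namespace Pool.Agent.OBI

open _root_.MU3 Pool.Agent.MU3 Pool.Agent.MU3A Pool.Agent.MU3B Pool.Agent.RI Pool.Agent.RID
  Pool.Agent.MUX Pool.Agent.MUXK Pool.Agent.MUXI Pool.Agent.NS Pool.Agent.NSI Pool.Agent.OB
open Pool.Agent.MU3I (zt)

noncomputable section

namespace EPSx

variable {A B : ℤ}

lemma gle_pow {R : Type*} [CommRing R] {P : Ideal R} {n : ℕ} (h : 1 ≤ n) : P ^ n ≤ P :=
  Ideal.pow_le_self (by omega)

lemma gmem_left {R : Type*} [CommRing R] {I J : Ideal R} {x : R} (h : x ∈ I * J) : x ∈ J := by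
  have h3 : I * J ≤ J := Ideal.mul_le_right
  exact h3 h

lemma gmem_right {R : Type*} [CommRing R] {I J : Ideal R} {x : R} (h : x ∈ I * J) : x ∈ I := by
  have h3 : I * J ≤ I := Ideal.mul_le_left
  exact h3 h

lemma gmem_inf {R : Type*} [CommRing R] {I J : Ideal R} (hc : IsCoprime I J) {x : R} (h1 : x ∈ I)
    (h2 : x ∈ J) : x ∈ I * J := by
  rw [Ideal.mul_eq_inf_of_isCoprime hc]
  exact ⟨h1, h2⟩

lemma gmem_pow {R : Type*} [CommRing R] {I P : Ideal R} {n : ℕ} (hn : n ≤ 2) {x y : R}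
    (h1 : x ∈ I * P) (h2 : y ∈ P) : x * y ∈ I * P ^ n := by
  have h6 : I * P * P ≤ I * P ^ n := by
    rw [mul_assoc, ← pow_two]
    exact Ideal.mul_mono_right (Ideal.pow_le_pow_right hn)
  exact h6 (Ideal.mul_mem_mul h1 h2)

lemma mem_idl {m : ℕ} {x : OO A B} : x ∈ idl (A := A) (B := B) m ↔ ((m : ℕ) : OO A B) ∣ x :=
  Ideal.mem_span_singleton

lemma nm_one : nm (1 : OO A B) = 1 := by
  rw [nm, QuadraticAlgebra.re_one, QuadraticAlgebra.im_one]
  ring

lemma nm_neg_one : nm (-1 : OO A B) = 1 := by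
  rw [nm, QuadraticAlgebra.re_neg, QuadraticAlgebra.im_neg, QuadraticAlgebra.re_one,
    QuadraticAlgebra.im_one]
  ring

lemma mul_pow' {e : OO A B → ℂ} (h1 : e 1 = 1) (hm : ∀ x y, e (x * y) = e x * e y) (x : OO A B)
    (k : ℕ) : e (x ^ k) = e x ^ k := by
  induction k with
  | zero => rw [pow_zero, pow_zero, h1]
  | succ k ih => rw [pow_succ, hm, ih, pow_succ]

/-- the norm modulo `p` -/
lemma nm_congr {p : ℕ} {x y : OO A B} (h : x - y ∈ idl (A := A) (B := B) p) :
    (p : ℤ) ∣ nm x - nm y := by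
  rw [mem_idl] at h
  obtain ⟨z, hz⟩ := h
  have hre := congrArg QuadraticAlgebra.re hz
  have him := congrArg QuadraticAlgebra.im hz
  rw [QuadraticAlgebra.re_sub, QuadraticAlgebra.re_mul, QuadraticAlgebra.re_natCast,
    QuadraticAlgebra.im_natCast] at hre
  rw [QuadraticAlgebra.im_sub, QuadraticAlgebra.im_mul, QuadraticAlgebra.re_natCast,
    QuadraticAlgebra.im_natCast] at him
  have ha' : x.re = y.re + p * z.re := by linear_combination hre
  have hb' : x.im = y.im + p * z.im := by linear_combination him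
  refine ⟨2 * z.re * y.re + p * z.re ^ 2 + B * (z.re * y.im + z.im * y.re + p * z.re * z.im) -
    A * (2 * z.im * y.im + p * z.im ^ 2), ?_⟩
  unfold nm
  rw [ha', hb']
  ring

/-- an element prime to `p` has norm prime to `p` -/
lemma nm_ndvd {P : Ideal (OO A B)} (hP : P.IsPrime) {p : ℕ} (hp : ((p : ℕ) : OO A B) ∈ P)
    {x : OO A B} (h : IsCoprime x ((p : ℕ) : OO A B)) : ¬ (p : ℤ) ∣ nm x := by
  rintro ⟨k, hk⟩
  have h1 : ((p : ℕ) : OO A B) ∣ x * star x := by
    rw [MUX.mul_star, hk]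
    refine ⟨(k : OO A B), ?_⟩
    push_cast
    ring
  have h2 : ((p : ℕ) : OO A B) ∣ star x := h.symm.dvd_of_dvd_mul_left h1
  have h3 : ((p : ℕ) : OO A B) ∣ x := by
    obtain ⟨z, hz⟩ := h2
    refine ⟨star z, ?_⟩
    have h4 := congrArg star hz
    rw [star_star] at h4
    rw [h4, star_mul, star_natCast]
    ring
  obtain ⟨a, b, hab⟩ := h
  apply hP.ne_top
  rw [Ideal.eq_top_iff_one, ← hab]
  obtain ⟨z, rfl⟩ := h3
  exact Ideal.add_mem _ (Ideal.mul_mem_left _ _ (Ideal.mul_mem_right _ _ hp))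
    (Ideal.mul_mem_left _ _ hp)

/-- a generator modulo `P` has order `nI P - 1` -/
lemma ord_dvd {P : Ideal (OO A B)} (hP : P.IsMaximal) (h4 : 4 ≤ nI P - 1) {g : OO A B}
    (hg : g ∉ P) (hrep : ∀ x ∉ P, ∃ k : ℕ, x - g ^ k ∈ P) {l : ℕ} (hl : g ^ l - 1 ∈ P) :
    nI P - 1 ∣ l := by
  let _ : Field (OO A B ⧸ P) := Ideal.Quotient.field P
  have hcard : Nat.card (OO A B ⧸ P) = nI P := rfl
  have _ : Finite (OO A B ⧸ P) := Nat.finite_of_card_ne_zero (by omega)
  have hg0 : Ideal.Quotient.mk P g ≠ 0 := fun h => hg (Ideal.Quotient.eq_zero_iff_mem.1 h)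
  have hgen : ∀ u : (OO A B ⧸ P)ˣ, u ∈ Subgroup.zpowers (Units.mk0 _ hg0) := by
    intro u
    obtain ⟨x, hx⟩ := Ideal.Quotient.mk_surjective (u : OO A B ⧸ P)
    have hx0 : x ∉ P := by
      intro h
      apply u.ne_zero
      rw [← hx]
      exact Ideal.Quotient.eq_zero_iff_mem.2 h
    obtain ⟨k, hk⟩ := hrep x hx0
    refine ⟨k, ?_⟩
    apply Units.ext
    have h5 := Ideal.Quotient.eq.2 hk
    simp only [zpow_natCast, Units.val_pow_eq_pow_val, Units.val_mk0]
    rw [← hx, h5, map_pow]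
  have h5 : orderOf (Units.mk0 _ hg0) = nI P - 1 := by
    rw [orderOf_eq_card_of_forall_mem_zpowers hgen, Nat.card_units, hcard]
  rw [← h5]
  apply orderOf_dvd_of_pow_eq_one
  apply Units.ext
  simp only [Units.val_pow_eq_pow_val, Units.val_mk0, Units.val_one]
  rw [← map_pow, ← map_one (Ideal.Quotient.mk P)]
  exact Ideal.Quotient.eq.2 hl

end EPSx

open _root_.Pool.Agent.OBI.EPSx

theorem oi_EPS (hbas : Pool.Agent.OBT.So_BAS) (hprf : Oi_PRF) : Oi_EPS := by
  intro p er A B P V f hS w hw e0 r hpr h1 hm1 hmul hper hsupp hpow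
  have hc : CQ A B := hS.cq
  obtain ⟨vp, v2, hmax, vle, vlt, vnat, hq, -, hN4, -, hPc, hidl⟩ := hbas p er A B P V hS.toCaseO
  obtain ⟨hPZ, -, hpowN, ⟨g, hgP, hrep⟩, m, hm, hmN, hm1', hmq, hnm⟩ :=
    hprf p er A B P V hS.toCaseO
  have hprime := hS.prime
  have hpP := hS.mem
  have lv : lvX p f 0 = p * f := by
    rw [lvX_odd (by have := hS.p5; omega)]
    ring
  rw [lv] at hper hsupp
  rw [lv]
  have h1P : (1 : OO A B) ∉ P := fun h => hprime.ne_top ((Ideal.eq_top_iff_one _).2 h)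
  have hpowP : ∀ (x : OO A B) (k : ℕ), x ∉ P → x ^ k ∉ P := fun x k hx h =>
    hx (hprime.mem_of_pow_mem k h)
  -- `idl (p f) = gO * P^er`
  have hidlmul : idl (A := A) (B := B) (p * f) = gO P f * P ^ er := by
    have h2 : idl (A := A) (B := B) (p * f) = idl (A := A) (B := B) p * idl (A := A) (B := B) f := by
      have e : ((p * f : ℕ) : OO A B) = ((p : ℕ) : OO A B) * ((f : ℕ) : OO A B) := by
        push_cast
        rfl
      have e2 := Ideal.span_singleton_mul_span_singleton ((p : ℕ) : OO A B) ((f : ℕ) : OO A B)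
      rw [← e] at e2
      exact e2.symm
    rw [h2, hidl]
    unfold gO
    rw [mul_comm (Pc P) (P ^ er), mul_comm (P ^ er * Pc P), mul_comm (P ^ er), mul_assoc]
  have herle : er ≤ 2 := by rcases hS.ram with ⟨h, -⟩ | ⟨h, -⟩ <;> omega
  have her1 : 1 ≤ er := by rcases hS.ram with ⟨h, -⟩ | ⟨h, -⟩ <;> omega
  have hleP : ∀ x, x ∈ idl (A := A) (B := B) (p * f) → x ∈ P := by
    intro x hx
    rw [hidlmul] at hx
    exact EPSx.gle_pow her1 (EPSx.gmem_left hx)
  have hleG : ∀ x, x ∈ idl (A := A) (B := B) (p * f) → x ∈ gO P f := by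
    intro x hx
    rw [hidlmul] at hx
    exact EPSx.gmem_right hx
  have hGPc : ∀ x, x ∈ gO P f → x ∈ Pc P := by
    intro x hx
    unfold gO at hx
    exact EPSx.gmem_left hx
  -- `gO` is prime to `P`
  have hcopf : IsCoprime (idl (A := A) (B := B) f) P := by
    have h2 : IsCoprime ((p : ℕ) : ℤ) ((f : ℕ) : ℤ) :=
      Nat.isCoprime_iff_coprime.2 ((Nat.Prime.coprime_iff_not_dvd hS.pp).2 hS.fp)
    obtain ⟨a, b, hab⟩ := h2
    rw [Ideal.isCoprime_iff_exists]
    refine ⟨(b : OO A B) * ((f : ℕ) : OO A B), Ideal.mul_mem_left _ _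
      (Ideal.mem_span_singleton_self _), (a : OO A B) * ((p : ℕ) : OO A B),
      Ideal.mul_mem_left _ _ hpP, ?_⟩
    have h3 := congrArg (fun n : ℤ => (n : OO A B)) hab
    push_cast at h3 ⊢
    linear_combination h3
  have hG : IsCoprime (gO P f) P := by
    unfold gO
    exact IsCoprime.mul_left hcopf hPc
  -- elements of `k*` are prime to `p f`
  have hkcop : ∀ x, x - 1 ∈ gO P f → x ∉ P → IsCoprime x ((p * f : ℕ) : OO A B) := by
    intro x hx hxP
    have h2 : IsCoprime (sp x) (gO P f) := by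
      rw [Ideal.isCoprime_iff_exists]
      refine ⟨x, Ideal.mem_span_singleton_self _, -(x - 1), neg_mem hx, ?_⟩
      ring
    have h3 : IsCoprime (sp x) P := by
      obtain ⟨y, i, hi, hy⟩ := hmax.exists_inv hxP
      rw [Ideal.isCoprime_iff_exists]
      exact ⟨y * x, Ideal.mul_mem_left _ _ (Ideal.mem_span_singleton_self _), i, hi, hy⟩
    have h4 : IsCoprime (sp x) (idl (A := A) (B := B) (p * f)) := by
      rw [hidlmul]
      exact IsCoprime.mul_right h2 (IsCoprime.pow_right h3)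
    exact (Ideal.isCoprime_span_singleton_iff _ _).1 h4
  -- step A
  have stepA : ∀ x x', x - 1 ∈ gO P f → x ∉ P → x' - 1 ∈ gO P f → x' ∉ P → x - x' ∈ P →
      e0 x = e0 x' := by
    intro x x' hx hxP hx' hxP' hxx
    obtain ⟨x'', b, hab⟩ := hkcop x' hx' hxP'
    have h2 : x'' * x' - 1 ∈ idl (A := A) (B := B) (p * f) := by
      rw [EPSx.mem_idl]
      refine ⟨-b, ?_⟩
      linear_combination hab
    have h3 : e0 x'' * e0 x' = 1 := by rw [← hmul, hper _ _ h2, h1]
    -- `y = x x''`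
    have hyP : x'' * x - 1 ∈ P := by
      have e : x'' * x - 1 = x'' * (x - x') + (x'' * x' - 1) := by ring
      rw [e]
      exact Ideal.add_mem _ (Ideal.mul_mem_left _ _ hxx) (hleP _ h2)
    have hyG : x'' * x - 1 ∈ gO P f := by
      have e : x'' * x - 1 = x'' * ((x - 1) - (x' - 1)) + (x'' * x' - 1) := by ring
      rw [e]
      exact Ideal.add_mem _ (Ideal.mul_mem_left _ _ (Ideal.sub_mem _ hx hx')) (hleG _ h2)
    have hyGP : x'' * x - 1 ∈ gO P f * P := by
      exact EPSx.gmem_inf hG hyG hyP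
    have hs : (∑ i ∈ Finset.range p, (x'' * x) ^ i) ∈ P := by
      have e : (∑ i ∈ Finset.range p, (x'' * x) ^ i) =
          (∑ i ∈ Finset.range p, ((x'' * x) ^ i - 1)) + ((p : ℕ) : OO A B) := by
        rw [Finset.sum_sub_distrib]
        simp
      rw [e]
      refine Ideal.add_mem _ (Ideal.sum_mem _ fun i _ => ?_) hpP
      have h5 := sub_dvd_pow_sub_pow (x'' * x) 1 i
      rw [one_pow] at h5
      exact Ideal.mem_of_dvd _ h5 hyP
    have hyp : (x'' * x) ^ p - 1 ∈ idl (A := A) (B := B) (p * f) := by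
      have e : (x'' * x) ^ p - 1 = (x'' * x - 1) * ∑ i ∈ Finset.range p, (x'' * x) ^ i := by
        rw [mul_comm (x'' * x - 1), geom_sum_mul]
      rw [e, hidlmul]
      exact EPSx.gmem_pow herle hyGP hs
    have h4 : e0 (x'' * x) ^ p = 1 := by
      rw [← mul_pow' h1 hmul, hper _ _ hyp, h1]
    have h5 : e0 (x'' * x) ≠ 0 := by
      intro h
      rw [h, zero_pow hS.pp.ne_zero] at h4
      exact zero_ne_one h4
    have h6 := hpow _ h5
    have h7 : e0 (x'' * x) = 1 := by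
      have h8 : Nat.Coprime p r := (Nat.Prime.coprime_iff_not_dvd hS.pp).2 hpr
      have h9 := orderOf_dvd_of_pow_eq_one h4
      have h10 := orderOf_dvd_of_pow_eq_one h6
      have h11 := Nat.dvd_gcd h9 h10
      rw [h8] at h11
      exact orderOf_eq_one_iff.1 (Nat.dvd_one.1 h11)
    rw [hmul] at h7
    have h8 : e0 x'' ≠ 0 := left_ne_zero_of_mul_eq_one h3
    exact mul_left_cancel₀ h8 (h7.trans h3.symm)
  -- the lift `Y` of the generator
  obtain ⟨a, ha, b, hb, hab⟩ := Ideal.isCoprime_iff_exists.1 hG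
  obtain ⟨Y, hYP, hYG⟩ : ∃ Y : OO A B, Y - g ∈ P ∧ Y - 1 ∈ gO P f := by
    refine ⟨g * a + b, ?_, ?_⟩
    · have e : g * a + b - g = (1 - g) * b := by linear_combination g * hab
      rw [e]
      exact Ideal.mul_mem_left _ _ hb
    · have e : g * a + b - 1 = (g - 1) * a := by linear_combination hab
      rw [e]
      exact Ideal.mul_mem_left _ _ ha
  have hYPn : Y ∉ P := by
    intro h
    apply hgP
    have := Ideal.sub_mem _ h hYP
    rwa [sub_sub_cancel] at this
  have hYkP : ∀ k : ℕ, Y ^ k - g ^ k ∈ P := fun k =>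
    Ideal.mem_of_dvd _ (sub_dvd_pow_sub_pow Y g k) hYP
  have hYkG : ∀ k : ℕ, Y ^ k - 1 ∈ gO P f := fun k => by
    have h2 := sub_dvd_pow_sub_pow Y 1 k
    rw [one_pow] at h2
    exact Ideal.mem_of_dvd _ h2 hYG
  have h11 : (1 : OO A B) - 1 ∈ gO P f := by
    rw [sub_self]
    exact Ideal.zero_mem _
  have eYN : e0 Y ^ (nI P - 1) = 1 := by
    rw [← mul_pow' h1 hmul, stepA (Y ^ (nI P - 1)) 1 (hYkG _) (hpowP _ _ hYPn) h11 h1P
      (hpowN Y hYPn), h1]
  have wne : ∀ x, x ∉ P → w x ≠ 0 := by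
    intro x hx h
    have h5 := hw.pow x hx
    rw [h, zero_pow (by omega)] at h5
    exact zero_ne_one h5
  -- `w (-1) = -1`
  have wm1 : w (-1) = -1 := by
    have h2 : w (-1) * w (-1) = 1 := by
      rw [← hw.mul, neg_mul_neg, one_mul, hw.one]
    rcases mul_self_eq_one_iff.1 h2 with h | h
    · exfalso
      have h4 := hw.cong (-1)
      rw [h, MUX.emb_neg hc, MUX.emb_one hc] at h4
      have e : (1 : ℂ) - -1 = 2 := by norm_num
      rw [e, v2, one_pow] at h4
      exact absurd (h4.trans_lt vp) (lt_irrefl _)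
    · exact h
  have hprim : IsPrimitiveRoot (w g) (nI P - 1) := by
    refine ⟨hw.pow g hgP, fun l hl => ?_⟩
    apply ord_dvd hmax hN4 hgP hrep
    rw [← mul_pow' hw.one hw.mul] at hl
    have h4 := hw.cong (g ^ l)
    rw [hl] at h4
    have h5 : V.valuation (1 - emb (g ^ l)) < 1 := by
      by_contra hcon
      have h6 : 1 ≤ V.valuation (1 - emb (g ^ l)) ^ er := one_le_pow₀ (not_lt.1 hcon)
      exact absurd ((h6.trans h4).trans_lt vp) (lt_irrefl _)
    rw [← MUX.emb_one hc, ← MUX.emb_sub hc] at h5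
    have h6 := (vlt _).1 h5
    have h7 := neg_mem h6
    rwa [neg_sub] at h7
  have _ : NeZero (nI P - 1) := ⟨by omega⟩
  obtain ⟨b0, hb0N, hb0⟩ := hprim.eq_pow_of_pow_eq_one eYN
  -- `e0 = w ^ b0` on `k*`
  have he0 : ∀ x, x - 1 ∈ gO P f → x ∉ P → e0 x = w x ^ b0 := by
    intro x hx hxP
    obtain ⟨k, hk⟩ := hrep x hxP
    have h4 : x - Y ^ k ∈ P := by
      have := Ideal.sub_mem _ hk (hYkP k)
      have e : x - g ^ k - (Y ^ k - g ^ k) = x - Y ^ k := by ring
      rwa [e] at this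
    rw [stepA x (Y ^ k) hx hxP (hYkG k) (hpowP _ _ hYPn) h4, hw.per _ _ hk, mul_pow' h1 hmul,
      mul_pow' hw.one hw.mul, ← hb0, ← pow_mul, ← pow_mul, mul_comm]
  have wnm : ∀ x, x - 1 ∈ gO P f → x ∉ P → w ((nm x : ℤ) : OO A B) = w x ^ m := by
    intro x hx hxP
    rw [hw.per _ _ (hnm x (hGPc _ hx) hxP), mul_pow' hw.one hw.mul]
  -- the exponents
  obtain ⟨cc, hcc⟩ := hmN
  have hcc1 : 1 ≤ cc := by
    rcases Nat.eq_zero_or_pos cc with h | h
    · rw [h, mul_zero] at hcc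
      omega
    · exact h
  obtain ⟨i, j, hmi, hi, hij⟩ : ∃ i j : ℕ, m ≤ i ∧ i ≤ nI P - 2 ∧
      i + m * j = b0 + 1 + (nI P - 1) := by
    refine ⟨m + (b0 + 1) % m, (b0 + 1) / m + (cc - 1), by omega, ?_, ?_⟩
    · have := Nat.mod_lt (b0 + 1) (show 0 < m by omega)
      omega
    · obtain ⟨c', rfl⟩ : ∃ c', cc = c' + 1 := ⟨cc - 1, by omega⟩
      have h5 := Nat.mod_add_div (b0 + 1) m
      rw [hcc, Nat.add_sub_cancel, mul_add, mul_add, mul_one]
      omega
  -- norms
  have hpf : ∀ x : OO A B, IsCoprime x ((p * f : ℕ) : OO A B) → IsCoprime x ((p : ℕ) : OO A B) := by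
    intro x hx
    have e : ((p * f : ℕ) : OO A B) = ((p : ℕ) : OO A B) * ((f : ℕ) : OO A B) := by push_cast; rfl
    rw [e] at hx
    exact hx.of_mul_right_left
  have hcopP : ∀ x : OO A B, IsCoprime x ((p * f : ℕ) : OO A B) → x ∉ P := by
    intro x hx hxP
    obtain ⟨u, z, huz⟩ := hpf x hx
    apply h1P
    rw [← huz]
    exact Ideal.add_mem _ (Ideal.mul_mem_left _ _ hxP) (Ideal.mul_mem_left _ _ hpP)
  have hnmP : ∀ x : OO A B, IsCoprime x ((p * f : ℕ) : OO A B) → ((nm x : ℤ) : OO A B) ∉ P := by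
    intro x hx h
    exact nm_ndvd hprime hpP (hpf x hx) ((hPZ _).1 h)
  refine ⟨fun x => e0 x * w x * (w ((nm x : ℤ) : OO A B) ^ j)⁻¹, (-1) ^ j, i,
    fun a => w (a : OO A B) ^ j, ?_, neg_one_pow_eq_or ℤ j, ?_, hi, ?_, ?_, ?_, ?_, ?_, ?_, ?_, ?_⟩
  · refine ⟨?_, ?_, ?_, ?_, ?_⟩
    · simp only [h1, nm_one, Int.cast_one, hw.one, one_pow, inv_one, mul_one]
    · intro x y
      simp only [hmul, hw.mul, MUX.nm_mul hc, Int.cast_mul, mul_pow, mul_inv]
      ring
    · intro x y hxy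
      have h5 : ((nm x : ℤ) : OO A B) - ((nm y : ℤ) : OO A B) ∈ P := by
        rw [← Int.cast_sub, hPZ]
        apply nm_congr
        rw [EPSx.mem_idl] at hxy ⊢
        refine dvd_trans ⟨((f : ℕ) : OO A B), ?_⟩ hxy
        push_cast
        rfl
      rw [hper x y hxy, hw.per x y (hleP _ hxy), hw.per _ _ h5]
    · intro x
      rw [Ideal.isCoprime_span_singleton_iff]
      constructor
      · intro h
        exact (hsupp x).1 (left_ne_zero_of_mul (left_ne_zero_of_mul h))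
      · intro h
        exact mul_ne_zero (mul_ne_zero ((hsupp x).2 h) (wne x (hcopP x h)))
          (inv_ne_zero (pow_ne_zero _ (wne _ (hnmP x h))))
    · simp only [hm1, wm1, nm_neg_one, Int.cast_one, hw.one, one_pow, inv_one, mul_one, one_mul]
  · rw [hm]
    exact Nat.mul_le_mul_right _ hmi
  · intro x hx hxP
    simp only
    rw [he0 x hx hxP, wnm x hx hxP, ← pow_mul, ← pow_succ]
    have h5 : w x ^ (m * j) ≠ 0 := pow_ne_zero _ (wne x hxP)
    rw [← div_eq_mul_inv, div_eq_iff h5, ← pow_add, hij, pow_add _ (b0 + 1), hw.pow x hxP, mul_one,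
      pow_succ]
  · intro x hx
    simp only at hx ⊢
    have hcx := (hsupp x).1 (left_ne_zero_of_mul (left_ne_zero_of_mul hx))
    have hxP := hcopP x hcx
    have e1 : e0 x ^ ((nI P - 1) * r) = 1 := by
      rw [mul_comm, pow_mul, hpow x ((hsupp x).2 hcx), one_pow]
    have e2 : w x ^ ((nI P - 1) * r) = 1 := by
      rw [pow_mul, hw.pow x hxP, one_pow]
    have e3 : (w ((nm x : ℤ) : OO A B) ^ j) ^ ((nI P - 1) * r) = 1 := by
      rw [← pow_mul, mul_comm j, mul_assoc, pow_mul, hw.pow _ (hnmP x hcx), one_pow]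
    rw [mul_pow, mul_pow, e1, e2, inv_pow, e3]
    norm_num
  · intro a b
    simp only [Int.cast_mul, hw.mul, mul_pow]
  · intro a b hab
    simp only
    rw [hw.per (a : OO A B) (b : OO A B) (by rw [← Int.cast_sub]; exact (hPZ _).2 hab)]
  · simp only [Int.cast_one, hw.one, one_pow]
  · simp only [Int.cast_neg, Int.cast_one, wm1, Int.cast_pow]
  · intro a ha'
    simp only
    rw [← pow_mul, mul_comm, pow_mul, hw.pow _ (fun h => ha' ((hPZ _).1 h)), one_pow]
  · intro x hx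
    simp only
    have h5 : w ((nm x : ℤ) : OO A B) ^ j ≠ 0 := pow_ne_zero _ (wne _ (hnmP x hx))
    rw [mul_assoc _ (w ((nm x : ℤ) : OO A B) ^ j)⁻¹, inv_mul_cancel₀ h5, mul_one]

end

end Pool.Agent.OBI


end

section

/-!
# OB, block I, GAM: an automorphism `γ` of `K_n / k` with fixed field `K` which maps `ζ` to `ζ^(1+p)`
-/

set_option autoImplicit false

namespace Pool.Agent.OBI

open _root_.MU3 Pool.Agent.MU3 Pool.Agent.MU3A Pool.Agent.MU3B Pool.Agent.RI Pool.Agent.RID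
  Pool.Agent.MUX Pool.Agent.MUXK Pool.Agent.MUXI Pool.Agent.NS Pool.Agent.NSI Pool.Agent.OB
open Pool.Agent.MU3I (zt)

noncomputable section

namespace GAMx

/-- in a finite cyclic group an element killed by the order of `c` is a power of `c` -/
theorem mem_pow {G : Type} [CommGroup G] [Finite G] [IsCyclic G] (c u : G)
    (h : u ^ orderOf c = 1) : ∃ i : ℕ, c ^ i = u := by
  classical
  have := Fintype.ofFinite G
  have hpos : 0 < orderOf c := orderOf_pos c
  have h1 := IsCyclic.card_pow_eq_one_le (α := G) hpos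
  have h2 : (Finset.image (fun i : ℕ => c ^ i) (Finset.range (orderOf c))) ⊆
      (Finset.univ.filter fun a : G => a ^ orderOf c = 1) := by
    intro a ha
    obtain ⟨i, -, rfl⟩ := Finset.mem_image.1 ha
    refine Finset.mem_filter.2 ⟨Finset.mem_univ _, ?_⟩
    rw [← pow_mul, mul_comm, pow_mul, pow_orderOf_eq_one, one_pow]
  have h3 : (Finset.image (fun i : ℕ => c ^ i) (Finset.range (orderOf c))).card = orderOf c := by
    rw [Finset.card_image_of_injOn, Finset.card_range]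
    intro i hi j hj hij
    exact pow_injOn_Iio_orderOf (by simpa using hi) (by simpa using hj) hij
  have h4 := Finset.eq_of_subset_of_card_le h2 (by rw [h3]; exact h1)
  have h5 : u ∈ (Finset.univ.filter fun a : G => a ^ orderOf c = 1) :=
    Finset.mem_filter.2 ⟨Finset.mem_univ _, h⟩
  rw [← h4] at h5
  obtain ⟨i, -, hi⟩ := Finset.mem_image.1 h5
  exact ⟨i, hi⟩

/-- the field of the roots of unity of order `M` is generated by one of them -/
theorem adj_eq {M : ℕ} (hM : M ≠ 0) {ζ : ℂ} (hζ : IsPrimitiveRoot ζ M) :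
    IntermediateField.adjoin ℚ {z : ℂ | z ^ M = 1} = IntermediateField.adjoin ℚ {ζ} := by
  have : NeZero M := ⟨hM⟩
  apply le_antisymm
  · rw [IntermediateField.adjoin_le_iff]
    intro z hz
    obtain ⟨i, -, rfl⟩ := hζ.eq_pow_of_pow_eq_one hz
    exact pow_mem (IntermediateField.mem_adjoin_simple_self ℚ ζ) i
  · rw [IntermediateField.adjoin_simple_le_iff]
    exact IntermediateField.subset_adjoin ℚ _ hζ.pow_eq_one

theorem pow_iff {F : Type} [Field F] {z : F} {M : ℕ} (hM : M ≠ 0) (hz : IsPrimitiveRoot z M)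
    (a b : ℕ) : z ^ a = z ^ b ↔ a ≡ b [MOD M] := by
  have hz0 := hz.ne_zero hM
  have hzu : IsPrimitiveRoot (Units.mk0 z hz0) M := by
    rw [← IsPrimitiveRoot.coe_units_iff]
    exact hz
  have h1 : z ^ a = z ^ b ↔ (Units.mk0 z hz0) ^ a = (Units.mk0 z hz0) ^ b := by
    rw [← Units.val_inj, Units.val_pow_eq_pow_val, Units.val_pow_eq_pow_val, Units.val_mk0]
  rw [h1, pow_eq_pow_iff_modEq, ← hzu.eq_orderOf]

end GAMx

open _root_.Pool.Agent.OBI.GAMx Pool.Agent.MU3I.IGAM in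
/-- (GAM) an automorphism `γ` of `K_n / k` with fixed field `K`, which maps `ζ` to `ζ^(1+p)` -/
theorem oi_GAM (h2 : S_GENX) : Oi_GAM := by
  intro p _ hp2 k K Bn _ _ hB hω n h
  let _ := algC h
  have hpp : p.Prime := Fact.out
  obtain ⟨hB1, hB2⟩ := t_CYCO p hp2 n (Bn n) (hB.lay n)
  obtain ⟨g, hg1, hg2, -⟩ := h2 p k K Bn hB.hk hB.deg hB.lay hB.mono n h
  have hM0 : p ^ (n + 1) ≠ 0 := pow_ne_zero _ hpp.ne_zero
  have : NeZero (p ^ (n + 1)) := ⟨hM0⟩
  set ζ : ℂ := zt (p ^ (n + 1)) with hζdef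
  have hζ : IsPrimitiveRoot ζ (p ^ (n + 1)) := Complex.isPrimitiveRoot_exp _ hM0
  have hzD : ζ ∈ K ⊔ Bn n := by
    obtain ⟨ω, hω1, hω2⟩ := hω
    exact hB2 (K ⊔ Bn n) le_sup_right ⟨ω, (le_sup_left : K ≤ K ⊔ Bn n) hω1, hω2⟩ ζ hζ.pow_eq_one
  have hadj := adj_eq hM0 hζ
  have hD : K ⊔ Bn n = K ⊔ IntermediateField.adjoin ℚ {ζ} := by
    apply le_antisymm
    · refine sup_le le_sup_left ?_
      rw [hadj] at hB1
      exact hB1.trans le_sup_right
    · refine sup_le le_sup_left ?_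
      rw [IntermediateField.adjoin_simple_le_iff]
      exact hzD
  set z : ↥(K ⊔ Bn n) := ⟨ζ, hzD⟩ with hzdef
  -- two automorphisms which agree on `K` and on `z` are equal
  have hext : ∀ τ τ' : ↥(K ⊔ Bn n) ≃ₐ[k] ↥(K ⊔ Bn n),
      (∀ y : ↥(K ⊔ Bn n), (y : ℂ) ∈ K → τ y = τ' y) → τ z = τ' z → τ = τ' := by
    intro τ τ' h1 h2
    apply AlgEquiv.ext
    intro y
    apply Subtype.ext
    exact eqD rfl hD
      ((algebraMap ↥(K ⊔ Bn n) ℂ).comp (τ : ↥(K ⊔ Bn n) →+* ↥(K ⊔ Bn n)))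
      ((algebraMap ↥(K ⊔ Bn n) ℂ).comp (τ' : ↥(K ⊔ Bn n) →+* ↥(K ⊔ Bn n)))
      (fun y hy => congrArg (fun t : ↥(K ⊔ Bn n) => (t : ℂ)) (h1 y hy)) hzD
      (congrArg (fun t : ↥(K ⊔ Bn n) => (t : ℂ)) h2) y
  have hz : IsPrimitiveRoot z (p ^ (n + 1)) := by
    have h3 : IsPrimitiveRoot (algebraMap ↥(K ⊔ Bn n) ℂ z) (p ^ (n + 1)) := hζ
    exact IsPrimitiveRoot.of_map_of_injective h3 (algebraMap ↥(K ⊔ Bn n) ℂ).injective
  obtain ⟨c, -, hc1, hc2⟩ := hz.isPrimitiveRoot_iff.1 (hz.map_of_injective g.injective)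
  have hgfix : ∀ (i : ℕ) (y : ↥(K ⊔ Bn n)), (y : ℂ) ∈ K → (g ^ i) y = y := by
    intro i y hy
    induction i with
    | zero => rfl
    | succ i ih => rw [pow_succ', AlgEquiv.mul_apply, ih, (hg2 y).2 hy]
  have hgi : ∀ i : ℕ, (g ^ i) z = z ^ (c ^ i) := by
    intro i
    induction i with
    | zero => rw [pow_zero, pow_zero, pow_one]; rfl
    | succ i ih =>
      rw [pow_succ, AlgEquiv.mul_apply, ← hc2, map_pow, ih, ← pow_mul, pow_succ]
  have hpow : ∀ a b : ℕ, z ^ a = z ^ b ↔ (a : ZMod (p ^ (n + 1))) = (b : ZMod (p ^ (n + 1))) := by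
    intro a b
    rw [ZMod.natCast_eq_natCast_iff]
    exact pow_iff hM0 hz a b
  -- the units
  set cu : (ZMod (p ^ (n + 1)))ˣ := ZMod.unitOfCoprime c hc1 with hcu
  have hcuv : (cu : ZMod (p ^ (n + 1))) = c := ZMod.coe_unitOfCoprime c hc1
  have hcop : Nat.Coprime (1 + p) (p ^ (n + 1)) := by
    apply Nat.Coprime.pow_right
    rw [Nat.coprime_add_self_left]
    exact Nat.coprime_one_left p
  set u : (ZMod (p ^ (n + 1)))ˣ := ZMod.unitOfCoprime (1 + p) hcop with hu
  have huv : (u : ZMod (p ^ (n + 1))) = 1 + (p : ZMod (p ^ (n + 1))) := by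
    rw [hu, ZMod.coe_unitOfCoprime]
    push_cast
    rfl
  have hou : orderOf u = p ^ n := by
    rw [← orderOf_units, huv]
    exact ZMod.orderOf_one_add_prime hpp hp2 n
  have hoc : orderOf cu = p ^ n := by
    rw [← hg1]
    rw [orderOf_eq_orderOf_iff]
    intro i
    have h3 : cu ^ i = 1 ↔ z ^ (c ^ i) = z ^ 1 := by
      rw [hpow, ← Units.val_inj, Units.val_pow_eq_pow_val, hcuv, Units.val_one]
      push_cast
      rfl
    rw [h3, ← hgi, pow_one]
    constructor
    · intro h4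
      exact hext _ _ (fun y hy => (hgfix i y hy).trans rfl) h4
    · intro h4
      rw [h4]
      rfl
  have hcyc : IsCyclic (ZMod (p ^ (n + 1)))ˣ := ZMod.isCyclic_units_of_prime_pow p hpp hp2 (n + 1)
  obtain ⟨i, hi⟩ := mem_pow cu u (by rw [hoc, ← hou]; exact pow_orderOf_eq_one u)
  obtain ⟨j, hj⟩ := mem_pow u cu (by rw [hou, ← hoc]; exact pow_orderOf_eq_one cu)
  have hgz : (g ^ i) z = z ^ (1 + p) := by
    rw [hgi, hpow]
    have h3 := congrArg (fun t : (ZMod (p ^ (n + 1)))ˣ => (t : ZMod (p ^ (n + 1)))) hi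
    simp only [Units.val_pow_eq_pow_val, hcuv, huv] at h3
    push_cast
    exact h3
  refine ⟨g ^ i, fun x => ⟨fun hx => ?_, fun hx => hgfix i x hx⟩, fun x hx => ?_⟩
  · have h3 : (g ^ i) ^ j = g := by
      rw [← pow_mul]
      have h4 : cu ^ (i * j) = cu ^ 1 := by rw [pow_mul, hi, hj, pow_one]
      have h5 := pow_eq_pow_iff_modEq.1 h4
      rw [hoc, ← hg1] at h5
      have h6 := pow_eq_pow_iff_modEq.2 h5
      rw [h6, pow_one]
    have h4 : ∀ m : ℕ, ((g ^ i) ^ m) x = x := by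
      intro m
      induction m with
      | zero => rfl
      | succ m ih => rw [pow_succ', AlgEquiv.mul_apply, ih, hx]
    have h5 := h4 j
    rw [h3] at h5
    exact (hg2 x).1 h5
  · have hxt : x = z + z⁻¹ := by
      apply Subtype.ext
      rw [hx]
      rfl
    rw [hxt, map_add, map_inv₀, hgz]
    rfl

end

end Pool.Agent.OBI


end

section

/-!
# OB, block I, module INP (helper79): the input (I3) of block K for one even branch
-/

set_option autoImplicit false

namespace Pool.Agent.OBI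

open _root_.MU3 Pool.Agent.MU3 Pool.Agent.MU3A Pool.Agent.MU3B Pool.Agent.RI Pool.Agent.RID
  Pool.Agent.MUX Pool.Agent.MUXK Pool.Agent.MUXI Pool.Agent.NS Pool.Agent.NSI Pool.Agent.OB
open Pool.Agent.MU3I (zt)

noncomputable section

namespace INP

/-- one of finitely many values is taken infinitely often -/
lemma pigeon (Q : ℕ → ℕ → Prop) (M : ℕ) (h : ∀ n₀, ∃ n, n₀ ≤ n ∧ ∃ j, j < M ∧ Even j ∧ Q n j) :
    ∃ j, j < M ∧ Even j ∧ ∀ n₀, ∃ n, n₀ ≤ n ∧ Q n j := by
  by_contra hcon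
  push Not at hcon
  choose! b hb using hcon
  obtain ⟨n, hn, j, hj, hj2, hQ⟩ := h (∑ i ∈ Finset.range M, b i)
  refine hb j hj hj2 n ?_ hQ
  exact (Finset.single_le_sum (f := b) (fun _ _ => Nat.zero_le _)
    (Finset.mem_range.2 hj)).trans hn

end INP

/-- THE RESULT of block I -/
theorem oi_INP (h1 : Oi_I31) (h2 : Sn_LEM1) (h3 : Sn_NRX) : O_I3 := by
  intro p er iP A B P V f hS hTor ι iι R u el lam hG K₀ K Bn ik iK iKB hX hKT hk hk₀ hkK S c c₀
    n₁ hW C hE hc₀ χ om hom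
  have iK₀ : FiniteDimensional ℚ K₀ := NSI.INP.fd hX.le
  have iKB₀ : ∀ n, FiniteDimensional ℚ ↥(K₀ ⊔ Bn n) := fun n =>
    NSI.INP.fd (E' := K ⊔ Bn n) (sup_le_sup_right hX.le _)
  have hNr := h3 p (kk A B) K₀ K Bn hX hk hk₀ S c c₀ n₁ hW
  obtain ⟨j, hj, hj2, hQ⟩ := INP.pigeon (fun n j =>
      I3At (IsLocalRing.ResidueField V) p (kk A B) K₀ Bn hkK (brO hkK χ om j) 1 n (hk₀ n) (c₀ n)
        (hW.mem₀ n)) (p - 1)
    (fun n₀ => h1 p er A B P V f hS hTor ι R u el lam hG K₀ Bn hX.b0 hX.cop hX.om hKT hk₀ hkK C hE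
      c₀ hW.mem₀ hc₀ χ om hom n₀)
  refine ⟨j, hj, hj2, ?_⟩
  exact h2 (IsLocalRing.ResidueField V) p (kk A B) K₀ Bn hX.b0 hX.cop hX.om hk₀ hkK c₀ hW.mem₀
    (NSI.INP.c_ne hW) n₁ hNr (brO hkK χ om j) hQ

end

end Pool.Agent.OBI


end

section

/-!
# OB, block I, module NCR (helper86): the group `NC h (RB p n)`
-/

set_option autoImplicit false

open NumberField Polynomial

namespace Pool.Agent.OBI

namespace NCRx

open _root_.MU3 Pool.Agent.MU3 Pool.Agent.RI Pool.Agent.RID Pool.Agent.OB Pool.Agent.OB.Lay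
  Pool.Agent.MU3I Pool.Agent.MU3I.Ilay

lemma rb_real (p : ℕ) [hp : Fact p.Prime] (n : ℕ) : ∀ x ∈ RB p n, (starRingEnd ℂ) x = x := by
  have hM : p ^ (n + 1) ≠ 0 := pow_ne_zero _ hp.out.ne_zero
  unfold RB
  set ζ := zt (p ^ (n + 1)) with hζ
  have hζp : IsPrimitiveRoot ζ (p ^ (n + 1)) := zt_prim _ hM
  have hζc : (starRingEnd ℂ) ζ = ζ⁻¹ := conj_root hM hζp.pow_eq_one
  set R := IntermediateField.adjoin ℚ {ζ + ζ⁻¹} with hR
  set c : ℂ →ₐ[ℚ] ℂ := (Complex.conjAe.toAlgHom).restrictScalars ℚ with hc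
  have hcz : ∀ z : ℂ, c z = (starRingEnd ℂ) z := fun z => rfl
  have hRR : R ≤ (AlgHom.equalizer c (AlgHom.id ℚ ℂ)).toIntermediateField (fun x hx => by
      have hx' : c x = x := hx
      show c x⁻¹ = x⁻¹
      rw [map_inv₀, hx']) := by
    rw [hR, IntermediateField.adjoin_simple_le_iff]
    show c (ζ + ζ⁻¹) = ζ + ζ⁻¹
    rw [map_add, map_inv₀, hcz, hζc, inv_inv, add_comm]
  exact fun x hx => hRR hx

lemma rb_deg (p : ℕ) [hp : Fact p.Prime] (h2 : p ≠ 2) (n : ℕ) :
    Module.finrank ℚ (RB p n) = p ^ n * ((p - 1) / 2) := by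
  have hM : p ^ (n + 1) ≠ 0 := pow_ne_zero _ hp.out.ne_zero
  have hr := rb_real p n
  have h3 : 3 ≤ p := by
    have := hp.out.two_le
    omega
  unfold RB at hr ⊢
  set ζ := zt (p ^ (n + 1)) with hζ
  have hζp : IsPrimitiveRoot ζ (p ^ (n + 1)) := zt_prim _ hM
  have hζ0 : ζ ≠ 0 := hζp.ne_zero hM
  have hζc : (starRingEnd ℂ) ζ = ζ⁻¹ := conj_root hM hζp.pow_eq_one
  apply deg ζ _ hζ0
  · have hint : IsIntegral ℚ ζ := (hζp.isIntegral (Nat.pos_of_ne_zero hM)).tower_top
    rw [IntermediateField.adjoin.finrank hint,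
      ← cyclotomic_eq_minpoly_rat hζp (Nat.pos_of_ne_zero hM), natDegree_cyclotomic,
      Nat.totient_prime_pow_succ hp.out, mul_assoc]
    congr 1
    have h4 := (hp.out.odd_of_ne_two h2)
    obtain ⟨k, hk⟩ := h4
    omega
  · intro h1
    have h4 := hr _ h1
    rw [hζc] at h4
    have h5 : ζ ^ 2 = 1 := by
      rw [pow_two]
      nth_rewrite 1 [← h4]
      exact inv_mul_cancel₀ hζ0
    have h6 := Nat.le_of_dvd (by norm_num) (hζp.dvd_of_pow_eq_one 2 h5)
    have h7 : p ^ 1 ≤ p ^ (n + 1) := Nat.pow_le_pow_right hp.out.pos (by omega)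
    rw [pow_one] at h7
    omega

lemma rb_le (p : ℕ) [hp : Fact p.Prime] (n : ℕ) (K : IntermediateField ℚ ℂ)
    (h : ∀ z : ℂ, z ^ (p ^ (n + 1)) = 1 → z ∈ K) : RB p n ≤ K := by
  have hM : p ^ (n + 1) ≠ 0 := pow_ne_zero _ hp.out.ne_zero
  have h1 := h _ (zt_prim _ hM).pow_eq_one
  unfold RB
  rw [IntermediateField.adjoin_simple_le_iff]
  exact add_mem h1 (inv_mem h1)

lemma rb_cc (p : ℕ) [hp : Fact p.Prime] (n : ℕ) : RB p n ≤ CCf p (n + 1) :=
  rb_le p n _ (fun _ hz => IntermediateField.subset_adjoin _ _ hz)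

/-- the numbers `ζ^j + ζ^(-j)` -/
lemma dick (ζ : ℂ) (hζ : ζ ≠ 0) (K : IntermediateField ℚ ℂ) (h : ζ + ζ⁻¹ ∈ K) (j : ℕ) :
    ζ ^ j + (ζ ^ j)⁻¹ ∈ K ∧ ζ ^ (j + 1) + (ζ ^ (j + 1))⁻¹ ∈ K := by
  induction j with
  | zero =>
    refine ⟨?_, by simpa using h⟩
    rw [pow_zero, inv_one]
    exact add_mem (one_mem _) (one_mem _)
  | succ j ih =>
    refine ⟨ih.2, ?_⟩
    have e : ζ ^ (j + 1 + 1) + (ζ ^ (j + 1 + 1))⁻¹ =
        (ζ + ζ⁻¹) * (ζ ^ (j + 1) + (ζ ^ (j + 1))⁻¹) - (ζ ^ j + (ζ ^ j)⁻¹) := by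
      field_simp
      ring
    rw [e]
    exact sub_mem (mul_mem h ih.2) ih.1

lemma in_rb (p : ℕ) [hp : Fact p.Prime] (n : ℕ) (z : ℂ) (hz : z ^ (p ^ (n + 1)) = 1) :
    z + z⁻¹ ∈ RB p n := by
  have hM : p ^ (n + 1) ≠ 0 := pow_ne_zero _ hp.out.ne_zero
  have : NeZero (p ^ (n + 1)) := ⟨hM⟩
  obtain ⟨i, -, hi⟩ := (zt_prim _ hM).eq_pow_of_pow_eq_one hz
  rw [← hi]
  exact (dick _ ((zt_prim _ hM).ne_zero hM) _
    (IntermediateField.mem_adjoin_simple_self ℚ _) i).1

lemma sub_rb (p : ℕ) [hp : Fact p.Prime] (h2 : p ≠ 2) (n d : ℕ) (hd : d ∣ p ^ n * ((p - 1) / 2))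
    (B : IntermediateField ℚ ℂ) (hB : B ≤ CCf p (n + 1)) (hBd : Module.finrank ℚ B = d) :
    B ≤ RB p n := by
  have hN : p ^ (n + 1) ≠ 0 := pow_ne_zero _ hp.out.ne_zero
  have hirr : Irreducible (cyclotomic (p ^ (n + 1)) ℚ) :=
    cyclotomic.irreducible_rat (Nat.pos_of_ne_zero hN)
  obtain ⟨Q, hQ, hdQ⟩ := subG (F := ℚ) (E := ℂ) p (n + 1) h2 hirr
    (Complex.isPrimitiveRoot_exp _ hN) (RB p n) (rb_cc p n) d (by rw [rb_deg p h2 n]; exact hd)
  rw [uniqO p h2 (n + 1) B Q hB (hQ.trans (rb_cc p n)) (hBd.trans hdQ.symm)]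
  exact hQ

lemma rb_sup (p : ℕ) [hp : Fact p.Prime] (h2 : p ≠ 2) (n : ℕ) (B : IntermediateField ℚ ℂ)
    (hB : IsLayer p n B) : B ≤ RB p n ∧ RB p n = B ⊔ RB p 0 := by
  have hN : p ^ (n + 1) ≠ 0 := pow_ne_zero _ hp.out.ne_zero
  have h3 : 3 ≤ p := by
    have := hp.out.two_le
    omega
  have h1 : B ≤ RB p n := sub_rb p h2 n (p ^ n) (Dvd.intro _ rfl) B (t_CYCO p h2 n B hB).1 hB.1
  have h4 : Module.finrank ℚ (RB p 0) = (p - 1) / 2 := by
    rw [rb_deg p h2 0, pow_zero, one_mul]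
  have h5 : RB p 0 ≤ RB p n := sub_rb p h2 n ((p - 1) / 2) (Dvd.intro_left _ rfl) (RB p 0)
    ((rb_cc p 0).trans (cc_mono p (by omega))) h4
  refine ⟨h1, ?_⟩
  have hpos : 0 < p ^ n * ((p - 1) / 2) := by
    have : 0 < (p - 1) / 2 := by omega
    have := hp.out.pos
    positivity
  have : FiniteDimensional ℚ (RB p n) :=
    Module.finite_of_finrank_pos (by rw [rb_deg p h2 n]; exact hpos)
  have hle : B ⊔ RB p 0 ≤ RB p n := sup_le h1 h5
  symm
  refine IntermediateField.eq_of_le_of_finrank_le hle ?_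
  have hfd : FiniteDimensional ℚ ↥(B ⊔ RB p 0) :=
    FiniteDimensional.of_injective (IntermediateField.inclusion hle).toLinearMap
      (IntermediateField.inclusion hle).injective
  have d1 : (p - 1) / 2 ∣ Module.finrank ℚ ↥(B ⊔ RB p 0) := by
    rw [← h4]
    exact IntermediateField.finrank_dvd_of_le_right le_sup_right
  have d2 : p ^ n ∣ Module.finrank ℚ ↥(B ⊔ RB p 0) := by
    rw [← hB.1]
    exact IntermediateField.finrank_dvd_of_le_right le_sup_left
  have hco : Nat.Coprime (p ^ n) ((p - 1) / 2) := by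
    apply Nat.Coprime.pow_left
    rw [hp.out.coprime_iff_not_dvd]
    intro h
    have h6 := Nat.le_of_dvd (by omega) h
    omega
  have d3 := hco.mul_dvd_of_dvd_of_dvd d2 d1
  rw [rb_deg p h2 n]
  exact Nat.le_of_dvd Module.finrank_pos d3

end NCRx

open _root_.MU3 Pool.Agent.MU3 Pool.Agent.RI Pool.Agent.RID Pool.Agent.OB Pool.Agent.OB.Lay
  Pool.Agent.MU3I Pool.Agent.MU3I.Ilay NCRx in
theorem oi_NCR : Oi_NCR := by
  intro p hp h2 k K n Bn hB hω h
  let akL : Algebra k ↥(K ⊔ Bn) := algC h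
  obtain ⟨hB1, hB2⟩ := rb_sup p h2 n Bn hB
  obtain ⟨ω, hω1, hω2⟩ := hω
  have hroot : ∀ z : ℂ, z ^ (p ^ (n + 1)) = 1 → z ∈ K ⊔ Bn :=
    (t_CYCO p h2 n Bn hB).2 (K ⊔ Bn) le_sup_right
      ⟨ω, (le_sup_left : K ≤ K ⊔ Bn) hω1, hω2⟩
  refine ⟨hB1, rb_le p n _ hroot, ?_⟩
  intro δ hδ
  constructor
  · intro hδ' z hz
    apply hδ' (z + z⁻¹)
    have h1 : (z : ℂ) ^ (p ^ (n + 1)) = 1 := by
      have h3 : (z : ℂ) ^ p = 1 := by
        rw [← SubmonoidClass.coe_pow, hz]
        rfl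
      rw [pow_succ' p n, pow_mul, h3, one_pow]
    exact in_rb p n z h1
  · intro hδ'
    let c : ↥(K ⊔ Bn) →ₐ[ℚ] ↥(K ⊔ Bn) := RingHom.toRatAlgHom (δ : ↥(K ⊔ Bn) →+* ↥(K ⊔ Bn))
    have hc : ∀ x, c x = δ x := fun x => rfl
    let T : IntermediateField ℚ ↥(K ⊔ Bn) :=
      (AlgHom.equalizer c (AlgHom.id ℚ ↥(K ⊔ Bn))).toIntermediateField (fun x hx => by
        have hx' : c x = x := hx
        show c x⁻¹ = x⁻¹
        rw [map_inv₀, hx'])
    have hT : ∀ x, x ∈ T ↔ δ x = x := fun x => Iff.rfl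
    have h1 : Bn ≤ IntermediateField.lift T := by
      intro x hx
      have hx' : x ∈ K ⊔ Bn := (le_sup_right : Bn ≤ K ⊔ Bn) hx
      have h3 : (⟨x, hx'⟩ : ↥(K ⊔ Bn)) ∈ T := (hT _).2 (hδ ⟨x, hx'⟩ hx)
      exact (IntermediateField.mem_lift (⟨x, hx'⟩ : ↥(K ⊔ Bn))).2 h3
    have h4 : RB p 0 ≤ IntermediateField.lift T := by
      have hM : p ^ (0 + 1) ≠ 0 := pow_ne_zero _ hp.out.ne_zero
      have hzp : zt (p ^ (0 + 1)) ^ p = 1 := by
        have h7 := (zt_prim _ hM).pow_eq_one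
        have h8 : p ^ (0 + 1) = p := by rw [zero_add, pow_one]
        calc zt (p ^ (0 + 1)) ^ p = zt (p ^ (0 + 1)) ^ (p ^ (0 + 1)) := by rw [h8]
          _ = 1 := h7
      have hz : zt (p ^ (0 + 1)) ∈ K ⊔ Bn := hroot _ (by
        rw [pow_succ' p n, pow_mul, hzp, one_pow])
      unfold RB
      rw [IntermediateField.adjoin_simple_le_iff]
      have h5 := hδ' ⟨zt (p ^ (0 + 1)), hz⟩ (Subtype.ext (by
        rw [SubmonoidClass.coe_pow]
        exact hzp))
      exact (IntermediateField.mem_lift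
        ((⟨zt (p ^ (0 + 1)), hz⟩ : ↥(K ⊔ Bn)) + ⟨zt (p ^ (0 + 1)), hz⟩⁻¹)).2 ((hT _).2 h5)
    have h6 : RB p n ≤ IntermediateField.lift T := by
      rw [hB2]
      exact sup_le h1 h4
    intro x hx
    exact (hT x).1 ((IntermediateField.mem_lift x).1 (h6 hx))

end Pool.Agent.OBI


end

section

/-!
# OB, block I, module OME: the cyclotomic character modulo `p` (helper9)
-/

set_option autoImplicit false

namespace Pool.Agent.OBI

open _root_.MU3 Pool.Agent.MU3 Pool.Agent.MU3A Pool.Agent.MU3B Pool.Agent.RI Pool.Agent.RID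
  Pool.Agent.MUX Pool.Agent.MUXK Pool.Agent.MUXI Pool.Agent.NS Pool.Agent.NSI Pool.Agent.OB
open Pool.Agent.MU3I (zt)

noncomputable section

theorem oi_OME : Oi_OME := by
  intro F _ p hp _ k K _ h hω
  obtain ⟨ω, hωK, hω⟩ := hω
  letI := algC h
  have hp1 : p.Prime := hp.out
  have : NeZero p := ⟨hp1.ne_zero⟩
  obtain ⟨w, hw⟩ : ∃ w : K, IsPrimitiveRoot w p := ⟨⟨ω, hωK⟩,
    IsPrimitiveRoot.of_map_of_injective (f := (algebraMap K ℂ)) hω (algebraMap K ℂ).injective⟩
  refine ⟨(Units.map ((ZMod.castHom (dvd_refl p) F : ZMod p →+* F) : ZMod p →* F)).comp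
    (hw.autToPow k), ?_⟩
  intro σ z c hz hz1 hσ
  obtain ⟨a, ha, rfl⟩ := hw.eq_pow_of_pow_eq_one hz
  have h1 := hw.autToPow_spec k σ
  show (ZMod.castHom (dvd_refl p) F) ((hw.autToPow k σ : (ZMod p)ˣ) : ZMod p) = (c : F)
  have ha0 : (a : ZMod p) ≠ 0 := by
    intro h0
    rw [ZMod.natCast_eq_zero_iff] at h0
    apply hz1
    rw [Nat.eq_zero_of_dvd_of_lt h0 ha, pow_zero]
  have h2 : w ^ (((hw.autToPow k σ : (ZMod p)ˣ) : ZMod p).val * a) = w ^ (a * c) := by
    rw [pow_mul, h1, ← map_pow, hσ, pow_mul]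
  have hu := hw.isUnit hp1.ne_zero
  have h2' : hu.unit ^ (((hw.autToPow k σ : (ZMod p)ˣ) : ZMod p).val * a) =
      hu.unit ^ (a * c) := by
    apply Units.ext
    rw [Units.val_pow_eq_pow_val, Units.val_pow_eq_pow_val, IsUnit.unit_spec]
    exact h2
  have h3 := pow_eq_pow_iff_modEq.1 h2'
  rw [← orderOf_units, IsUnit.unit_spec, ← hw.eq_orderOf, ← ZMod.natCast_eq_natCast_iff, Nat.cast_mul,
    Nat.cast_mul, ZMod.natCast_zmod_val, mul_comm (a : ZMod p)] at h3
  rw [mul_right_cancel₀ ha0 h3, map_natCast]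

end

end Pool.Agent.OBI


end

section

/-!
# OBI_PRF (helper80): facts on `P`, continued; see `StI.lean`
-/

set_option autoImplicit false

namespace Pool.Agent.OBI

open _root_.MU3 Pool.Agent.MU3 Pool.Agent.MU3A Pool.Agent.MU3B Pool.Agent.RI Pool.Agent.RID
  Pool.Agent.MUX Pool.Agent.MUXK Pool.Agent.MUXI Pool.Agent.NS Pool.Agent.NSI Pool.Agent.OB

noncomputable section

namespace PRFx

/-- integers in a proper ideal which contains `p` -/
lemma int_mem {A B : ℤ} {P : Ideal (OO A B)} (hP : P ≠ ⊤) {p : ℕ} (hp : p.Prime)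
    (hm : ((p : ℕ) : OO A B) ∈ P) (c : ℤ) : (c : OO A B) ∈ P ↔ (p : ℤ) ∣ c := by
  constructor
  · intro hc
    by_contra hd
    have h1 : IsCoprime (p : ℤ) c :=
      (Nat.prime_iff_prime_int.1 hp).irreducible.coprime_iff_not_dvd.2 hd
    obtain ⟨a, b, hab⟩ := h1
    apply hP
    rw [Ideal.eq_top_iff_one]
    have h2 : (1 : OO A B) = (a : OO A B) * ((p : ℕ) : OO A B) + (b : OO A B) * (c : OO A B) := by
      have h3 : ((a * (p : ℤ) + b * c : ℤ) : OO A B) = ((1 : ℤ) : OO A B) := by rw [hab]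
      push_cast at h3
      exact h3.symm
    rw [h2]
    exact P.add_mem (P.mul_mem_left _ hm) (P.mul_mem_left _ hc)
  · rintro ⟨d, rfl⟩
    push_cast
    exact P.mul_mem_right _ hm

lemma charP_quot {A B : ℤ} {P : Ideal (OO A B)} (hM : P.IsMaximal) {p : ℕ} (hp : p.Prime)
    (hm : ((p : ℕ) : OO A B) ∈ P) : CharP (OO A B ⧸ P) p := by
  have h0 : ((p : ℕ) : OO A B ⧸ P) = 0 := by
    rw [← map_natCast (Ideal.Quotient.mk P)]
    exact Ideal.Quotient.eq_zero_iff_mem.2 hm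
  obtain ⟨r, hr⟩ := CharP.exists (OO A B ⧸ P)
  have h2 : r ∣ p := (CharP.cast_eq_zero_iff (OO A B ⧸ P) r p).1 h0
  have h3 : r ≠ 1 := by
    have : Nontrivial (OO A B ⧸ P) := Ideal.Quotient.nontrivial_iff.2 hM.ne_top
    exact CharP.char_ne_one (OO A B ⧸ P) r
  have h4 : r = p := ((Nat.dvd_prime hp).1 h2).resolve_left h3
  exact h4 ▸ hr

/-- the prime field -/
lemma int_of_pow {A B : ℤ} {P : Ideal (OO A B)} (hM : P.IsMaximal) {p : ℕ} (hp : p.Prime)
    (hm : ((p : ℕ) : OO A B) ∈ P) (x : OO A B) (hx : x ^ p - x ∈ P) :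
    ∃ c : ℤ, x - (c : OO A B) ∈ P := by
  let _ : Field (OO A B ⧸ P) := Ideal.Quotient.field P
  have : Fact p.Prime := ⟨hp⟩
  have : CharP (OO A B ⧸ P) p := charP_quot hM hp hm
  have h5 : (Ideal.Quotient.mk P x) ^ p = Ideal.Quotient.mk P x := by
    rw [← map_pow]
    exact Ideal.Quotient.eq.2 hx
  have h6 := (Subfield.mem_bot_iff_pow_eq_self (OO A B ⧸ P) p).2 h5
  obtain ⟨c, hc⟩ := (mem_bot_iff_intCast p (OO A B ⧸ P)).1 h6
  refine ⟨c, Ideal.Quotient.eq.1 ?_⟩
  rw [map_intCast]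
  exact hc.symm

/-- integers are fixed by the Frobenius map -/
lemma int_pow {A B : ℤ} {P : Ideal (OO A B)} (hM : P.IsMaximal) {p : ℕ} (hp : p.Prime)
    (hm : ((p : ℕ) : OO A B) ∈ P) (c : ℤ) : ((c : ℤ) : OO A B ⧸ P) ^ p = (c : OO A B ⧸ P) := by
  let _ : Field (OO A B ⧸ P) := Ideal.Quotient.field P
  have : Fact p.Prime := ⟨hp⟩
  have : CharP (OO A B ⧸ P) p := charP_quot hM hp hm
  have h6 : ((c : ℤ) : OO A B ⧸ P) ∈ (⊥ : Subfield (OO A B ⧸ P)) :=
    (mem_bot_iff_intCast p (OO A B ⧸ P)).2 ⟨c, rfl⟩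
  exact (Subfield.mem_bot_iff_pow_eq_self (OO A B ⧸ P) p).1 h6

lemma mem_cjI {A B : ℤ} {P : Ideal (OO A B)} {x : OO A B} : x ∈ cjI P ↔ star x ∈ P := by
  unfold cjI
  rw [Ideal.mem_comap, starRingEnd_apply]

lemma star_int {A B : ℤ} (c : ℤ) : star (c : OO A B) = (c : OO A B) := by
  ext <;> simp

lemma add_star {A B : ℤ} (x : OO A B) : x + star x = ((2 * x.re + B * x.im : ℤ) : OO A B) := by
  apply QuadraticAlgebra.ext
  · rw [QuadraticAlgebra.re_add, QuadraticAlgebra.re_star, QuadraticAlgebra.re_intCast, Int.cast_id]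
    ring
  · rw [QuadraticAlgebra.im_add, QuadraticAlgebra.im_star, QuadraticAlgebra.im_intCast]
    ring

end PRFx

open _root_.Pool.Agent.OBI.PRFx in
theorem oi_PRF (hB : Pool.Agent.OBT.So_BAS) : Oi_PRF := by
  intro p er A B P V hc
  obtain ⟨v1, v2, hM, vle, vlt, vn, hq, hqn, hq4, hy, hcop, hid⟩ := hB p er A B P V hc
  have hcq := hc.cq
  have hp := hc.pp
  have hp5 := hc.p5
  have hfp : Fact p.Prime := ⟨hp⟩
  have hp0 : ((p : ℕ) : OO A B) ≠ 0 := natCast_ne_zero' hcq hp.ne_zero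
  have hPb : P ≠ ⊥ := by
    intro h0
    have := hc.mem
    rw [h0, Ideal.mem_bot] at this
    exact hp0 this
  have hfin : Finite (OO A B ⧸ P) := finite_quot hcq hPb
  have hpn : nI (idl (A := A) (B := B) p) = p ^ 2 := by
    rw [show (idl (A := A) (B := B) p) = sp ((p : ℕ) : OO A B) from rfl, nI_sp hcq hp0]
    have : ((p : ℕ) : OO A B) = (((p : ℕ) : ℤ) : OO A B) := by push_cast; rfl
    rw [this, nm_intCast, Int.natAbs_pow, Int.natAbs_natCast]
  let _ : Field (OO A B ⧸ P) := Ideal.Quotient.field P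
  let _ : Fintype (OO A B ⧸ P) := Fintype.ofFinite _
  have hcard : Fintype.card (OO A B ⧸ P) = nI P := by
    unfold nI
    rw [Nat.card_eq_fintype_card]
  have hchar : CharP (OO A B ⧸ P) p := charP_quot hM hp hc.mem
  refine ⟨int_mem hM.ne_top hp hc.mem, ?_, ?_, ?_, ?_⟩
  · -- (2)
    intro x hx
    obtain ⟨t, ht, s, hs, hts⟩ := Ideal.isCoprime_iff_exists.1 hcop
    have htP : t ∉ P := by
      intro htP
      apply hM.ne_top
      rw [Ideal.eq_top_iff_one, ← hts]
      exact P.add_mem htP hs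
    have h1 : t * x ^ er ∈ idl (A := A) (B := B) p := by
      rw [hid]
      exact Ideal.mul_mem_mul ht (Ideal.pow_mem_pow hx er)
    obtain ⟨z, hz⟩ := Ideal.mem_span_singleton.1 h1
    have h2 := congrArg emb hz
    rw [emb_mul hcq, emb_pow hcq, emb_mul hcq, emb_natCast hcq] at h2
    have h3 := congrArg V.valuation h2
    rw [map_mul, map_mul, map_pow] at h3
    have h4 : V.valuation (emb t) = 1 :=
      le_antisymm (vle t) (not_lt.1 fun h => htP ((vlt t).1 h))
    rw [h4, one_mul] at h3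
    rw [h3]
    exact mul_le_of_le_one_right' (vle z)
  · -- (3)
    intro x hx
    have h1 : Ideal.Quotient.mk P x ≠ 0 := fun h => hx (Ideal.Quotient.eq_zero_iff_mem.1 h)
    have h2 := FiniteField.pow_card_sub_one_eq_one _ h1
    rw [hcard, ← map_pow, ← map_one (Ideal.Quotient.mk P)] at h2
    exact Ideal.Quotient.eq.1 h2
  · -- (4)
    obtain ⟨g, hg⟩ := IsCyclic.exists_generator (α := (OO A B ⧸ P)ˣ)
    obtain ⟨g0, hg0⟩ := Ideal.Quotient.mk_surjective (I := P) (g : OO A B ⧸ P)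
    refine ⟨g0, ?_, ?_⟩
    · intro h
      have h1 := Ideal.Quotient.eq_zero_iff_mem.2 h
      rw [hg0] at h1
      exact g.ne_zero h1
    · intro x hx
      have h1 : Ideal.Quotient.mk P x ≠ 0 := fun h => hx (Ideal.Quotient.eq_zero_iff_mem.1 h)
      have h2 := hg (Units.mk0 _ h1)
      rw [← mem_powers_iff_mem_zpowers] at h2
      obtain ⟨k, hk⟩ := h2
      refine ⟨k, Ideal.Quotient.eq.1 ?_⟩
      have h3 := congrArg (fun u : (OO A B ⧸ P)ˣ => (u : OO A B ⧸ P)) hk
      simp only [Units.val_pow_eq_pow_val, Units.val_mk0] at h3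
      rw [map_pow, hg0, h3]
  · -- (5)
    have hcb : cjI P ≠ ⊥ := cjI_ne_bot hcq hPb
    have hcn : nI (cjI P) = nI P := nI_cjI hcq hPb
    have hp1 : 1 < p := hp.one_lt
    have hPe : P ^ er ≠ ⊥ := by
      rcases hc.ram with ⟨rfl, -⟩ | ⟨rfl, -⟩
      · rw [pow_one]; exact hPb
      · rw [pow_two]; exact mul_ne_bot hcq hPb hPb
    have hne : nI (P ^ er) = nI P ^ er := by
      rcases hc.ram with ⟨rfl, -⟩ | ⟨rfl, -⟩
      · rw [pow_one, pow_one]
      · rw [pow_two, pow_two]; exact nI_mul hcq hPb hPb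
    -- the norm equation
    have hnc : cjI P = P → nI P ^ er = p ^ 2 := by
      intro h1
      have h2 : Pc P = ⊤ := by unfold Pc; rw [if_pos h1]
      rw [h2, Ideal.top_mul] at hid
      rw [← hne, ← hid, hpn]
    have hnn : cjI P ≠ P → nI P * nI P ^ er = p ^ 2 := by
      intro h1
      have h2 : Pc P = cjI P := by unfold Pc; rw [if_neg h1]
      rw [h2] at hid
      rw [← hne, ← hpn, hid, nI_mul hcq hcb hPe, hcn]
    rcases hc.ram with ⟨her, -⟩ | ⟨her, -⟩
    · subst her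
      rcases hq with hq | hq
      · -- split
        have h1 : cjI P ≠ P := by
          intro h
          have := hnc h
          rw [hq, pow_one] at this
          nlinarith
        have h2 : Pc P = cjI P := by unfold Pc; rw [if_neg h1]
        refine ⟨1, by rw [hq], one_dvd _, le_rfl, by omega, ?_⟩
        intro x hx _
        rw [h2, mem_cjI, star_sub, star_one] at hx
        rw [← mul_star, pow_one]
        have : x * star x - x = x * (star x - 1) := by ring
        rw [this]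
        exact P.mul_mem_left _ hx
      · -- inert
        have h1 : cjI P = P := by
          by_contra h
          have h3 := hnn h
          rw [hq, pow_one] at h3
          have : 1 < p ^ 2 := Nat.one_lt_pow (by norm_num) hp1
          nlinarith
        have e1 : p ^ 2 - 1 = (p + 1) * (p - 1) := by
          have := Nat.sq_sub_sq p 1
          simpa using this
        refine ⟨p + 1, ?_, ?_, by omega, by rw [hq]; nlinarith, ?_⟩
        · rw [hq, one_mul, e1]
        · rw [hq, e1]; exact dvd_mul_right _ _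
        · intro x _ _
          have key : star x - x ^ p ∈ P := by
            have hT := add_star x
            have hN := mul_star x
            set T : ℤ := 2 * x.re + B * x.im with hTd
            set a : OO A B ⧸ P := Ideal.Quotient.mk P x with ha
            set b : OO A B ⧸ P := Ideal.Quotient.mk P (star x) with hb
            have hT' : a + b = ((T : ℤ) : OO A B ⧸ P) := by
              rw [ha, hb, ← map_add, hT, map_intCast]
            have hN' : a * b = ((nm x : ℤ) : OO A B ⧸ P) := by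
              rw [ha, hb, ← map_mul, hN, map_intCast]
            have hTp : (a + b) ^ p = a + b := by rw [hT']; exact int_pow hM hp hc.mem T
            have hNp : (a * b) ^ p = a * b := by rw [hN']; exact int_pow hM hp hc.mem _
            have h3 : (a ^ p - a) * (a ^ p - b) = 0 := by
              rw [add_pow_char] at hTp
              rw [mul_pow] at hNp
              linear_combination (a ^ p) * hTp - hNp
            rcases mul_eq_zero.1 h3 with h4 | h4
            · have h5 : x ^ p - x ∈ P := by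
                rw [← Ideal.Quotient.eq_zero_iff_mem, map_sub, map_pow]
                exact h4
              obtain ⟨c, hcx⟩ := int_of_pow hM hp hc.mem x h5
              have h6 : star x - (c : OO A B) ∈ P := by
                rw [← h1, mem_cjI, star_sub, star_star, star_int]
                exact hcx
              have h7 : star x - x ^ p = (star x - (c : OO A B)) - (x - (c : OO A B)) -
                (x ^ p - x) := by ring
              rw [h7]
              exact P.sub_mem (P.sub_mem h6 hcx) h5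
            · have h5 : x ^ p - star x ∈ P := by
                rw [← Ideal.Quotient.eq_zero_iff_mem, map_sub, map_pow]
                exact h4
              have h7 : star x - x ^ p = - (x ^ p - star x) := by ring
              rw [h7]
              exact P.neg_mem h5
          rw [← mul_star]
          have : x * star x - x ^ (p + 1) = x * (star x - x ^ p) := by ring
          rw [this]
          exact P.mul_mem_left _ key
    · subst her
      rcases hq with hq | hq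
      · -- ramified
        have h1 : cjI P = P := by
          by_contra h
          have h3 := hnn h
          rw [hq] at h3
          have : 1 < p ^ 2 := Nat.one_lt_pow (by norm_num) hp1
          nlinarith
        have hodd : ¬ 2 ∣ p := by
          intro h
          have := (Nat.prime_dvd_prime_iff_eq Nat.prime_two hp).1 h
          omega
        refine ⟨2, by rw [hq], by rw [hq]; omega, by norm_num, by omega, ?_⟩
        intro x _ _
        have h5 : x ^ p - x ∈ P := by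
          rw [← Ideal.Quotient.eq_zero_iff_mem, map_sub, map_pow]
          have := FiniteField.pow_card (Ideal.Quotient.mk P x)
          rw [hcard, hq] at this
          rw [this, sub_self]
        obtain ⟨c, hcx⟩ := int_of_pow hM hp hc.mem x h5
        have h6 : star x - (c : OO A B) ∈ P := by
          rw [← h1, mem_cjI, star_sub, star_star, star_int]
          exact hcx
        rw [← mul_star]
        have : x * star x - x ^ 2 = x * ((star x - (c : OO A B)) - (x - (c : OO A B))) := by ring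
        rw [this]
        exact P.mul_mem_left _ (P.sub_mem h6 hcx)
      · exfalso
        have hp2 : 1 < p ^ 2 := Nat.one_lt_pow (by norm_num) hp1
        by_cases h : cjI P = P
        · have h3 := hnc h
          rw [hq] at h3
          nlinarith
        · have h3 := hnn h
          rw [hq] at h3
          nlinarith [Nat.one_lt_pow (n := 2) (by norm_num) hp2]

end

end Pool.Agent.OBI


end

section

/-!
# OB, block I, module SUB: the fields `K B_n` are contained in the ray class fields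
(after `Pool/Agent/NS/I_SUB.lean` and `Pool/Agent/NS/IR_SUB.lean`)
-/

set_option autoImplicit false

namespace Pool.Agent.OBI

open _root_.MU3 Pool.Agent.MU3 Pool.Agent.MU3A Pool.Agent.MU3B Pool.Agent.RI Pool.Agent.RID
  Pool.Agent.MUX Pool.Agent.MUXU Pool.Agent.MUXK Pool.Agent.MUXI Pool.Agent.NS Pool.Agent.NSI
  Pool.Agent.OB Pool.Agent.OBT
open Pool.Agent.MU3I (zt)
open Pool.Agent.NSRD (lvR)

noncomputable section

namespace SUBx

variable {p er : ℕ} {A B : ℤ} {P : Ideal (OO A B)} {V : ValuationSubring ℂ}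

theorem ne_bot (hc : CaseO p er A B P V) : P ≠ ⊥ := by
  intro h
  have h1 := hc.mem
  rw [h, Ideal.mem_bot] at h1
  exact natCast_ne_zero' hc.cq hc.pp.ne_zero h1

theorem int_mem (hc : CaseO p er A B P V) (n : ℤ) : ((n : ℤ) : OO A B) ∈ P ↔ (p : ℤ) ∣ n := by
  constructor
  · intro hn
    by_contra h
    have hcop : IsCoprime (p : ℤ) n :=
      ((Nat.prime_iff_prime_int.1 hc.pp).coprime_iff_not_dvd).2 h
    obtain ⟨a, b, hab⟩ := hcop
    apply hc.prime.ne_top
    rw [Ideal.eq_top_iff_one]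
    have h1 : (1 : OO A B) = (a : OO A B) * ((p : ℕ) : OO A B) + (b : OO A B) * (n : OO A B) := by
      have := congrArg (fun t : ℤ => (t : OO A B)) hab
      push_cast at this
      exact this.symm
    rw [h1]
    exact P.add_mem (P.mul_mem_left _ hc.mem) (P.mul_mem_left _ hn)
  · rintro ⟨c, rfl⟩
    push_cast
    exact P.mul_mem_right _ hc.mem

/-- in the ramified case `P` is its own conjugate -/
theorem cj_eq (hb : So_BAS) (hc : CaseO p 2 A B P V) : cjI P = P := by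
  by_contra h
  obtain ⟨-, -, -, -, -, -, hn, -, -, -, -, hid⟩ := hb p 2 A B P V hc
  have hP := ne_bot hc
  have hpb : idl (A := A) (B := B) p ≠ ⊥ := Pool.Agent.NST.ALT.idl_ne hc.cq hc.pp.ne_zero
  have h1 : Pc P = cjI P := if_neg h
  have h2 : idl (A := A) (B := B) p = sp ((nI P : ℕ) : OO A B) * P := by
    rw [hid, h1, pow_two, ← mul_assoc, mul_comm (cjI P) P, mul_cjI hc.cq hP]
  have hd : p ∣ nI P := by
    rcases hn with hn | hn
    · rw [hn]
    · rw [hn]; exact dvd_pow_self p two_ne_zero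
  have h3 : sp ((nI P : ℕ) : OO A B) ≤ idl p := by
    rw [Ideal.span_singleton_le_span_singleton]
    obtain ⟨c, hc'⟩ := hd
    exact ⟨c, by rw [hc']; push_cast; ring⟩
  have h4 : idl (A := A) (B := B) p * ⊤ ≤ idl p * P := by
    rw [Ideal.mul_top]
    calc idl (A := A) (B := B) p = sp ((nI P : ℕ) : OO A B) * P := h2
      _ ≤ idl p * P := Ideal.mul_mono_left h3
  have h5 := (mul_le_mul_iff hc.cq hpb).1 h4
  exact hc.prime.ne_top (top_le_iff.1 h5)

/-- `P² = (p)` in the ramified case -/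
theorem sq_eq (hb : So_BAS) (hc : CaseO p 2 A B P V) : P ^ 2 = idl (A := A) (B := B) p := by
  obtain ⟨-, -, -, -, -, -, -, -, -, -, -, hid⟩ := hb p 2 A B P V hc
  have h1 : Pc P = ⊤ := if_pos (cj_eq hb hc)
  rw [hid, h1, Ideal.top_mul]

theorem pow_eq (hb : So_BAS) (hc : CaseO p 2 A B P V) (n : ℕ) :
    P ^ (2 * n + 1) = Ideal.span {((p ^ n : ℕ) : OO A B)} * P := by
  rw [pow_succ, pow_mul, sq_eq hb hc]
  congr 1
  rw [Ideal.span_singleton_pow]
  push_cast
  rfl

/-- the norm of `c ≡ 1` modulo `f P^(2n+1)` -/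
theorem nm_one (hb : So_BAS) (hc : CaseO p 2 A B P V) (f n : ℕ) {c : OO A B}
    (h : c - 1 ∈ lvR P f n) : ((p ^ (n + 1) : ℕ) : ℤ) ∣ nm c - 1 := by
  have h1 : c - 1 ∈ Ideal.span {((p ^ n : ℕ) : OO A B)} * P := by
    rw [← pow_eq hb hc]
    exact Ideal.mul_le_right h
  obtain ⟨z, hz, hzc⟩ := Ideal.mem_span_singleton_mul.1 h1
  have h2 : (p : ℤ) ∣ nm z := by
    rw [← int_mem hc, ← Pool.Agent.MUXF.AlgX.mul_star' z]
    exact P.mul_mem_right _ hz
  have h3 : (p : ℤ) ∣ 2 * z.re + B * z.im := by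
    rw [← int_mem hc]
    have h4 : star z ∈ P := by
      have h5 : z ∈ cjI P := by rw [cj_eq hb hc]; exact hz
      exact h5
    have hint : ∀ n : ℤ, ((n : ℤ) : OO A B) = ⟨n, 0⟩ := fun n => by ext <;> simp
    have h6 : ((2 * z.re + B * z.im : ℤ) : OO A B) = z + star z := by
      rw [hint]
      ext
      · simp
        ring
      · simp
    rw [h6]
    exact P.add_mem hz h4
  obtain ⟨a, ha⟩ := h2
  obtain ⟨b, hb'⟩ := h3
  have e1 : c = ⟨1 + p ^ n * z.re, p ^ n * z.im⟩ := by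
    have h4 : c = 1 + ((p ^ n : ℕ) : OO A B) * z := by rw [hzc]; ring
    rw [h4]
    have e2 : ((p ^ n : ℕ) : OO A B) = ⟨p ^ n, 0⟩ := by
      ext
      · rw [QuadraticAlgebra.re_natCast]; push_cast; rfl
      · rw [QuadraticAlgebra.im_natCast]
    rw [e2]
    ext
    · simp
      rfl
    · simp
      rfl
  have e3 : nm c - 1 = p ^ n * (2 * z.re + B * z.im) + p ^ n * p ^ n * nm z := by
    rw [e1]
    unfold nm
    simp only
    ring
  rw [e3, hb', ha]
  refine ⟨b + p ^ n * a, ?_⟩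
  push_cast
  ring

/-- the field of roots of unity is in `F` if the roots of unity are -/
theorem sup_le_F {p n : ℕ} (hp : p.Prime) (h2 : p ≠ 2) {K Bn : IntermediateField ℚ ℂ}
    (hlay : IsLayer p n Bn) (F : IntermediateField ℚ ℂ) (hK : K ≤ F)
    (hz : ∀ z : ℂ, z ^ p ^ (n + 1) = 1 → z ∈ F) : K ⊔ Bn ≤ F := by
  have : Fact p.Prime := ⟨hp⟩
  refine sup_le hK (((t_CYCO p h2 n Bn hlay).1).trans ?_)
  rw [IntermediateField.adjoin_le_iff]
  exact fun z h => hz z h

end SUBx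

open _root_.Pool.Agent.OBI.SUBx in
/-- Module SUB. -/
theorem oi_SUB (h1 : Si_IAF) (hb : So_BAS) : Oi_SUB := by
  intro p er A B P V f hS hT hNL K hK n Bn hn hlay
  have hc : CaseO p er A B P V := hS.toCaseO
  have hC : CQ A B := hc.cq
  have hp2 : p ≠ 2 := by have := hc.p5; omega
  have hp0 : p ≠ 0 := hc.pp.ne_zero
  have hpn : p ^ (n + 1) ≠ 0 := pow_ne_zero _ hp0
  have hlv : lvX p f n = f * p ^ (n + 1) := lvX_odd hp2 f n
  have hlv0 : lvX p f n ≠ 0 := by
    rw [hlv]; exact Nat.mul_ne_zero hS.f0 hpn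
  have hm : idl (A := A) (B := B) (lvX p f n) ≠ ⊥ := Pool.Agent.NST.ALT.idl_ne hC hlv0
  have hdiv : ∀ {M N : ℕ}, M ∣ N → idl (A := A) (B := B) N ≤ idl M := by
    intro M N h
    rw [Ideal.span_singleton_le_span_singleton]
    obtain ⟨c, rfl⟩ := h
    exact ⟨c, by push_cast; ring⟩
  have hle : idl (A := A) (B := B) (lvX p f n) ≤ idl (p ^ (n + 1)) :=
    hdiv ⟨f, by rw [hlv]; ring⟩
  have hle0 : idl (A := A) (B := B) (lvX p f n) ≤ idl (lvX p f 0) :=
    hdiv ⟨p ^ n, by unfold lvX; ring⟩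
  constructor
  · obtain ⟨i1, -, -, -, -, -, -, i8⟩ := h1 A B hC hT hNL _ hm
    obtain ⟨a, ha⟩ := i1 (RingEquiv.refl ℂ) rfl
    have hz : ∀ z : ℂ, z ^ p ^ (n + 1) = 1 → z ∈ RF (idl (A := A) (B := B) (lvX p f n)) :=
      fun z hz => (i8 (p ^ (n + 1)) (RingEquiv.refl ℂ) a z hpn hle ha hz).1
    have hK' : K ≤ IntermediateField.restrictScalars ℚ
        (RF (idl (A := A) (B := B) (lvX p f n))) := by
      intro x hx
      exact hT.mono _ _ hle0 (hK x hx)
    intro y hy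
    exact sup_le_F hc.pp hp2 hlay _ hK' hz hy
  · rintro rfl
    have hlvR : lvR P f n = idl f * (Ideal.span {((p ^ n : ℕ) : OO A B)} * P) := by
      unfold Pool.Agent.NSRD.lvR
      rw [pow_eq hb hc]
    have hle1 : idl (A := A) (B := B) (lvX p f n) ≤ lvR P f n := by
      rw [hlvR, Ideal.span_singleton_le_iff_mem]
      have e1 : ((lvX p f n : ℕ) : OO A B) =
          ((f : ℕ) : OO A B) * (((p ^ n : ℕ) : OO A B) * ((p : ℕ) : OO A B)) := by
        rw [hlv]
        push_cast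
        ring
      rw [e1]
      exact Ideal.mul_mem_mul (Ideal.mem_span_singleton_self _)
        (Ideal.mul_mem_mul (Ideal.mem_span_singleton_self _) hc.mem)
    have hle2 : lvR P f n ≤ idl (lvX p f 0) := by
      obtain ⟨m, rfl⟩ : ∃ m, n = m + 1 := ⟨n - 1, by omega⟩
      rw [hlvR, ← mul_assoc, Ideal.span_singleton_mul_span_singleton]
      refine Ideal.mul_le_left.trans ?_
      rw [Ideal.span_singleton_le_span_singleton, lvX_odd hp2]
      refine ⟨((p ^ m : ℕ) : OO A B), ?_⟩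
      push_cast
      ring
    have hmR : lvR P f n ≠ ⊥ := by
      intro h
      rw [h, le_bot_iff] at hle1
      exact hm hle1
    have hK' : K ≤ IntermediateField.restrictScalars ℚ (RF (lvR P f n)) := by
      intro x hx
      exact hT.mono _ _ hle2 (hK x hx)
    have halg : Algebra.IsAlgebraic ℚ
        ((RF (lvR P f n)).restrictScalars ℚ : IntermediateField ℚ ℂ) := by
      refine ⟨fun x => (IntermediateField.isAlgebraic_iff).2 ?_⟩
      have h2 := hT.mono _ _ hle1 x.2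
      exact Pool.Agent.NST.ALT.alg_RF hC hT hlv0 h2
    have hz : ∀ z : ℂ, z ^ p ^ (n + 1) = 1 → z ∈ RF (lvR P f n) := by
      intro z hz
      have key := u_AUF ((RF (lvR P f n)).restrictScalars ℚ) halg z (fun σ hσ => by
        have hσ' : ∀ y ∈ RF (lvR P f n), σ y = y := fun y hy => hσ y hy
        have hfix : FixK A B σ :=
          hσ' _ (IntermediateField.algebraMap_mem (RF (lvR P f n))
            (⟨wC A B, IntermediateField.mem_adjoin_simple_self ℚ (wC A B)⟩ : kk A B))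
        obtain ⟨b, L, om, hL⟩ := hNL
        obtain ⟨a, hcop, ha⟩ := hT.act (idl (lvX p f n)) hm σ hfix
        obtain ⟨b', L', om', mu, hL', hA⟩ := ha b L om hL
        have hA' : ActI σ (lvR P f n) a L L' mu := by
          refine ⟨hA.kap, ?_, hA.isq, fun z hz => hA.act z fun x hx => hz x (hle1 hx)⟩
          rw [Ideal.isCoprime_iff_sup_eq] at hcop ⊢
          rw [eq_top_iff, ← hcop]
          exact sup_le_sup_left hle1 a
        obtain ⟨c, hc1, hca⟩ := (hT.triv _ a σ b L L' om mu hmR hfix hL hA' hL'.nrm).1 hσ'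
        have h3 := (hT.zeta (p ^ (n + 1)) (idl (lvX p f n)) a σ b L L' om mu hm hfix
          hpn hle hL hA z hz).2
        rw [h3, hca]
        have h4 := nm_one hb hc f n hc1
        have hc0 : c ≠ 0 := by
          rintro rfl
          have h6 : (0 - 1 : OO A B) ∈ P := by
            have h7 : lvR P f n ≤ P := by
              rw [hlvR]
              exact (Ideal.mul_le_right).trans Ideal.mul_le_right
            exact h7 hc1
          apply hc.prime.ne_top
          rw [Ideal.eq_top_iff_one]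
          have h8 := P.neg_mem h6
          rwa [zero_sub, neg_neg] at h8
        have hnn : 0 ≤ nm c := by
          have h6 : 4 * nm c = (2 * c.re + B * c.im) ^ 2 - (B ^ 2 + 4 * A) * c.im ^ 2 := by
            unfold nm
            ring
          have h7 := hC.neg
          nlinarith [sq_nonneg (2 * c.re + B * c.im), sq_nonneg c.im]
        have h5 : ((nI (sp c) : ℕ) : ℤ) = nm c := by
          rw [Pool.Agent.MUX.nI_sp hC hc0]
          exact Int.natAbs_of_nonneg hnn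
        obtain ⟨k, hk⟩ : ∃ k : ℕ, nI (sp c) = 1 + p ^ (n + 1) * k := by
          have h0 : 1 ≤ nI (sp c) := by
            have : nI (sp c) ≠ 0 := nI_ne_zero hC (by
              rw [ne_eq, Ideal.span_singleton_eq_bot]; exact hc0)
            omega
          have h6 : ((p ^ (n + 1) : ℕ) : ℤ) ∣ ((nI (sp c) - 1 : ℕ) : ℤ) := by
            rw [Nat.cast_sub h0, h5]
            exact_mod_cast h4
          obtain ⟨k, hk⟩ := Int.natCast_dvd_natCast.1 h6
          exact ⟨k, by omega⟩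
        rw [hk, pow_add, pow_one, pow_mul, hz, one_pow, mul_one])
      exact key
    intro y hy
    exact sup_le_F hc.pp hp2 hlay _ hK' hz hy

end

end Pool.Agent.OBI


end

section

/-!
# OB, block I, module TEI: existence of the Teichmueller character (helper85), after `NS/I_TEI.lean` (helper80)

`N = nI P - 1` is prime to `p` and `x ^ N ≡ 1` modulo `P` for `x ∉ P`. For such an `x` there is exactly one
`N`-th root of unity `η` with `v (emb x - η) < 1`, and then `v (emb x - η) ^ er ≤ v p`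
(the product of the `emb x - η` is `emb x ^ N - 1`, and different `N`-th roots of unity differ by units at `V`).
Put `w x = η`, and `w x = 0` for `x ∈ P`; everything follows from the uniqueness.
-/

set_option autoImplicit false

namespace Pool.Agent.OBI

open _root_.MU3 Pool.Agent.MU3 Pool.Agent.MU3A Pool.Agent.MU3B Pool.Agent.RI Pool.Agent.RID
  Pool.Agent.MUX Pool.Agent.MUXK Pool.Agent.MUXI Pool.Agent.NS Pool.Agent.NSI Pool.Agent.OB
open Pool.Agent.MU3I (zt)

noncomputable section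

namespace TEIx

lemma v_root {V : ValuationSubring ℂ} {N : ℕ} (hN : N ≠ 0) {η : ℂ} (h : η ^ N = 1) :
    V.valuation η = 1 := by
  have h1 : V.valuation η ^ N = 1 := by rw [← map_pow, h, map_one]
  exact (pow_eq_one_iff.1 h1).resolve_right hN

lemma lt_of_pow {V : ValuationSubring ℂ} {er p : ℕ} (vp : V.valuation (p : ℂ) < 1) {z : ℂ}
    (h : V.valuation z ^ er ≤ V.valuation (p : ℂ)) : V.valuation z < 1 := by
  by_contra hc
  rw [not_lt] at hc
  exact absurd ((one_le_pow₀ hc).trans h) (not_le.2 vp)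

/-- different `N`-th roots of unity differ by a unit at `V` -/
lemma root_eq {V : ValuationSubring ℂ} {N : ℕ} (hN : N ≠ 0) (vN : V.valuation (N : ℂ) = 1)
    {η η' : ℂ} (h : η ^ N = 1) (h' : η' ^ N = 1) (hv : V.valuation (η - η') < 1) : η = η' := by
  have h0 : η' ≠ 0 := by
    rintro rfl
    rw [zero_pow hN] at h'
    exact zero_ne_one h'
  have hr8 : (η / η') ^ N = 1 := by rw [div_pow, h, h', div_one]
  have hrv : V.valuation (η / η') = 1 := v_root hN hr8
  have hd : V.valuation (η / η' - 1) < 1 := by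
    have e1 : η / η' - 1 = (η - η') / η' := by
      rw [sub_div, div_self h0]
    rw [e1, map_div₀, v_root hN h', div_one]
    exact hv
  by_contra hne
  have hr1 : η / η' ≠ 1 := by
    intro h1
    exact hne ((div_eq_one_iff_eq h0).1 h1)
  generalize η / η' = ρ at hr8 hrv hd hr1
  have hgeom : ∑ i ∈ Finset.range N, ρ ^ i = 0 := by
    have h1 := mul_geom_sum ρ N
    rw [hr8, sub_self] at h1
    exact (mul_eq_zero.1 h1).resolve_left (sub_ne_zero.2 hr1)
  have hN1 : (N : ℂ) = -∑ i ∈ Finset.range N, (ρ ^ i - 1) := by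
    rw [Finset.sum_sub_distrib, hgeom, Finset.sum_const, Finset.card_range, nsmul_eq_mul]
    ring
  have hp : ∀ i : ℕ, V.valuation (ρ ^ i - 1) < 1 := by
    intro i
    rw [← mul_geom_sum ρ i, map_mul]
    refine mul_lt_one_of_lt_of_le hd ?_
    refine Valuation.map_sum_le _ fun j _ => ?_
    rw [map_pow, hrv, one_pow]
  have h3 : V.valuation (N : ℂ) < 1 := by
    rw [hN1, Valuation.map_neg]
    exact Valuation.map_sum_lt _ one_ne_zero fun i _ => hp i
  rw [vN] at h3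
  exact lt_irrefl _ h3

/-- `z ^ N ≡ 1`: then `z` is congruent to an `N`-th root of unity -/
lemma exists_root {V : ValuationSubring ℂ} {N er p : ℕ} (hN : N ≠ 0)
    (vN : V.valuation (N : ℂ) = 1) (vp : V.valuation (p : ℂ) < 1) {z : ℂ}
    (hz : V.valuation (z ^ N - 1) ^ er ≤ V.valuation (p : ℂ)) :
    ∃ η : ℂ, η ^ N = 1 ∧ V.valuation (η - z) ^ er ≤ V.valuation (p : ℂ) := by
  have hN1 : 0 < N := Nat.pos_of_ne_zero hN
  have hprod : z ^ N - 1 = ∏ η ∈ Polynomial.nthRootsFinset N (1 : ℂ), (z - η) := by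
    have h1 := Polynomial.X_pow_sub_one_eq_prod (R := ℂ) (n := N) hN1
      (Complex.isPrimitiveRoot_exp N hN)
    have h2 := congrArg (Polynomial.eval z) h1
    rw [Polynomial.eval_prod] at h2
    simpa using h2
  have hS : ∀ η ∈ Polynomial.nthRootsFinset N (1 : ℂ), η ^ N = 1 := fun η hη =>
    (Polynomial.mem_nthRootsFinset hN1 (1 : ℂ)).1 hη
  by_cases h : ∃ η ∈ Polynomial.nthRootsFinset N (1 : ℂ), V.valuation (z - η) < 1
  · obtain ⟨η, hη, hv⟩ := h
    refine ⟨η, hS η hη, ?_⟩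
    rw [Valuation.map_sub_swap]
    have h1 : V.valuation (z ^ N - 1) = V.valuation (z - η) := by
      rw [hprod, ← Finset.mul_prod_erase _ _ hη, map_mul, map_prod]
      have h2 : ∏ x ∈ (Polynomial.nthRootsFinset N (1 : ℂ)).erase η, V.valuation (z - x) = 1 := by
        refine Finset.prod_eq_one fun x hx => ?_
        obtain ⟨hxne, hxS⟩ := Finset.mem_erase.1 hx
        have h3 : V.valuation (η - x) = 1 := by
          refine le_antisymm ?_
            (not_lt.1 fun h4 => hxne (root_eq hN vN (hS η hη) (hS x hxS) h4).symm)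
          exact (V.valuation.map_sub _ _).trans
            (max_le (v_root hN (hS η hη)).le (v_root hN (hS x hxS)).le)
        have e1 : z - x = (z - η) + (η - x) := by ring
        rw [e1, Valuation.map_add_eq_of_lt_right _ (by rw [h3]; exact hv), h3]
      rw [h2, mul_one]
    rw [← h1]
    exact hz
  · push Not at h
    exfalso
    have h1 : 1 ≤ V.valuation (z ^ N - 1) := by
      rw [hprod, map_prod]
      exact Finset.prod_induction (fun x => V.valuation (z - x)) (fun y => 1 ≤ y)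
        (fun a b ha hb => one_le_mul_of_one_le_of_one_le ha hb) le_rfl h
    exact absurd (lt_of_pow vp hz) (not_lt.2 h1)

end TEIx

open _root_.Pool.Agent.OBI.TEIx in
/-- (TEI) existence of the Teichmueller character -/
theorem oi_TEI (h1 : Pool.Agent.OBT.So_BAS) (h2 : Oi_PRF) : Oi_TEI := by
  classical
  intro p er A B P V hC
  have hc : CQ A B := hC.cq
  obtain ⟨vp, -, -, hV1, -, hnat, -, hnq, hq4, -, -, -⟩ := h1 p er A B P V hC
  obtain ⟨-, hP2, hP3, -, -⟩ := h2 p er A B P V hC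
  have hP : P.IsPrime := hC.prime
  set N := nI P - 1 with hNd
  have hN : N ≠ 0 := by omega
  have vN : V.valuation (N : ℂ) = 1 := hnat N hnq
  have hex : ∀ x : OO A B, x ∉ P →
      ∃ η : ℂ, η ^ N = 1 ∧ V.valuation (η - emb x) ^ er ≤ V.valuation (p : ℂ) := by
    intro x hx
    refine exists_root hN vN vp ?_
    have h3 := hP2 _ (hP3 x hx)
    rwa [emb_sub hc, emb_pow hc, emb_one hc] at h3
  choose η hη8 hηv using hex
  have key : ∀ (x : OO A B) (hx : x ∉ P) (ξ : ℂ), ξ ^ N = 1 →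
      V.valuation (ξ - emb x) < 1 → η x hx = ξ := by
    intro x hx ξ hξ hv
    refine root_eq hN vN (hη8 x hx) hξ ?_
    have e1 : η x hx - ξ = (η x hx - emb x) - (ξ - emb x) := by ring
    rw [e1]
    exact lt_of_le_of_lt (V.valuation.map_sub _ _) (max_lt (lt_of_pow vp (hηv x hx)) hv)
  refine ⟨fun x => if hx : x ∈ P then 0 else η x hx, ?_, ?_, ?_, ?_, ?_, ?_⟩
  · have h3 : (1 : OO A B) ∉ P := (Ideal.ne_top_iff_one _).1 hP.ne_top
    rw [dif_neg h3]
    refine key 1 h3 1 (one_pow N) ?_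
    rw [emb_one hc, sub_self, map_zero]
    exact zero_lt_one
  · intro x y
    by_cases hx : x ∈ P
    · rw [dif_pos hx, dif_pos (Ideal.mul_mem_right y _ hx), zero_mul]
    · by_cases hy : y ∈ P
      · rw [dif_pos hy, dif_pos (Ideal.mul_mem_left _ x hy), mul_zero]
      · have hxy : x * y ∉ P := fun h => (hP.mem_or_mem h).elim hx hy
        rw [dif_neg hx, dif_neg hy, dif_neg hxy]
        refine key (x * y) hxy _ (by rw [mul_pow, hη8, hη8, one_mul]) ?_
        have e1 : η x hx * η y hy - emb (x * y) =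
            η x hx * (η y hy - emb y) + emb y * (η x hx - emb x) := by
          rw [emb_mul hc]
          ring
        rw [e1]
        refine lt_of_le_of_lt (V.valuation.map_add _ _) (max_lt ?_ ?_)
        · rw [map_mul, v_root hN (hη8 x hx), one_mul]
          exact lt_of_pow vp (hηv y hy)
        · rw [map_mul]
          exact lt_of_le_of_lt (mul_le_of_le_one_left' (hV1 y)) (lt_of_pow vp (hηv x hx))
  · intro x y hxy
    by_cases hx : x ∈ P
    · have hy : y ∈ P := by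
        have h := Ideal.sub_mem _ hx hxy
        rwa [sub_sub_cancel] at h
      rw [dif_pos hx, dif_pos hy]
    · have hy : y ∉ P := by
        intro h
        apply hx
        have h := Ideal.add_mem _ hxy h
        rwa [sub_add_cancel] at h
      rw [dif_neg hx, dif_neg hy]
      refine key x hx _ (hη8 y hy) ?_
      have e1 : η y hy - emb x = (η y hy - emb y) - emb (x - y) := by
        rw [emb_sub hc]
        ring
      rw [e1]
      exact lt_of_le_of_lt (V.valuation.map_sub _ _)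
        (max_lt (lt_of_pow vp (hηv y hy)) (lt_of_pow vp (hP2 _ hxy)))
  · intro x hx
    rw [dif_pos hx]
  · intro x hx
    rw [dif_neg hx]
    exact hη8 x hx
  · intro x
    by_cases hx : x ∈ P
    · rw [dif_pos hx, zero_sub, Valuation.map_neg]
      exact hP2 x hx
    · rw [dif_neg hx]
      exact hηv x hx

end

end Pool.Agent.OBI


end

section

/-!
# OB, block I, module TH: the sums `That_j` with a twist `t` (after `Pool/Agent/NS/I_TH.lean`)
-/

set_option autoImplicit false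

namespace Pool.Agent.OBI

open _root_.MU3 Pool.Agent.MU3 Pool.Agent.MU3A Pool.Agent.MU3B Pool.Agent.RI Pool.Agent.RID
  Pool.Agent.MUX Pool.Agent.MUXK Pool.Agent.MUXI Pool.Agent.NS Pool.Agent.NSI Pool.Agent.OB

noncomputable section

namespace THx

/-- norm prime to `p` and prime to `f`: prime to the level -/
lemma cop_lv {p : ℕ} {A B : ℤ} {f : ℕ} (hp : p.Prime) (hp2 : p ≠ 2) (n : ℕ) (x : OO A B)
    (hx : ¬ (p : ℤ) ∣ nm x) (hf : IsCoprime x ((f : ℕ) : OO A B)) :
    IsCoprime x ((lvX p f n : ℕ) : OO A B) := by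
  have h1 : IsCoprime (nm x) (p : ℤ) :=
    ((Prime.coprime_iff_not_dvd (Nat.prime_iff_prime_int.1 hp)).2 hx).symm
  have h2 : IsCoprime ((nm x : ℤ) : OO A B) (((p : ℕ) : ℤ) : OO A B) := h1.intCast
  rw [← MUXI.TH.mul_star_nm, Int.cast_natCast] at h2
  have h3 : IsCoprime x ((p : ℕ) : OO A B) := h2.of_mul_left_left
  rw [lvX_odd hp2, Nat.cast_mul, Nat.cast_pow]
  exact hf.mul_right h3.pow_right

lemma cop_f {A B : ℤ} {f : ℕ} {g : Ideal (OO A B)} (hg : g ≤ idl f) {x : OO A B}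
    (h : IsCoprime (sp x) g) : IsCoprime x ((f : ℕ) : OO A B) := by
  have h1 : IsCoprime (sp x) (idl (A := A) (B := B) f) := by
    rw [Ideal.isCoprime_iff_sup_eq] at h ⊢
    rw [eq_top_iff, ← h]
    exact sup_le_sup_left hg _
  exact Ideal.isCoprime_span_singleton_iff _ _ |>.1 h1

/-! ### One summand -/

open Classical in
lemma term {p : ℕ} {A B : ℤ} {f : ℕ}
    (hS : SetQ p A B f) (n : ℕ) {e0 e w : OO A B → ℂ} {s : ℤ} {t : ℤ → ℂ}
    {g : Ideal (OO A B)} (hg : g ≤ idl f)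
    (hE : IsEI g e) (htm : ∀ a b : ℤ, t (a * b) = t a * t b)
    (htp : ∀ a b : ℤ, (p : ℤ) ∣ a - b → t a = t b) (ht1 : t 1 = 1) (hts : t (-1) = s)
    (hes : ∀ x, IsCoprime x ((lvX p f 0 : ℕ) : OO A B) → e0 x * w x = e x * t (nm x))
    (N : ℕ) (j : ℕ) (kp d c : ℂ) (x : OO A B) :
    (if IsCoprime x ((lvX p f n : ℕ) : OO A B) ∧
      (((p ^ (n + 1) : ℕ) : ℤ) ∣ nm x * N - (1 + (p : ℤ)) ^ j ∨
      ((p ^ (n + 1) : ℕ) : ℤ) ∣ nm x * N + (1 + (p : ℤ)) ^ j) then
      (kp * e0 x) * (w x * c * d) else 0) =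
    (kp * c * (t N)⁻¹) *
      ((if ((p ^ (n + 1) : ℕ) : ℤ) ∣ nm x * N - (1 + (p : ℤ)) ^ j then e x * d else 0) +
      s * (if ((p ^ (n + 1) : ℕ) : ℤ) ∣ nm x * N - -(1 + (p : ℤ)) ^ j then e x * d else 0)) := by
  set T : ℤ := (1 + (p : ℤ)) ^ j with hT
  have hT1 : (p : ℤ) ∣ T - 1 := MUXI.TH.pow_mod _ _
  have hpp : Prime (p : ℤ) := Nat.prime_iff_prime_int.1 hS.pp
  have hp3 : 3 ≤ p := by
    have h1 := hS.pp.two_le
    have h2 := hS.p2
    omega
  have hM : (p : ℤ) ∣ ((p ^ (n + 1) : ℕ) : ℤ) := ⟨(p : ℤ) ^ n, by push_cast; ring⟩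
  have hs0 : (s : ℂ) ≠ 0 := by
    intro h0
    have h1 := htm (-1) (-1)
    rw [hts, h0] at h1
    norm_num at h1
    rw [ht1] at h1
    exact one_ne_zero h1
  -- not prime to the level, then `e x = 0`
  have hzero : ∀ u : ℤ, (p : ℤ) ∣ nm x * N - u → ¬ (p : ℤ) ∣ u →
      ¬ IsCoprime x ((lvX p f n : ℕ) : OO A B) → e x = 0 := by
    intro u hu hnu hnc
    by_contra h0
    apply hnc
    refine cop_lv hS.pp hS.p2 n x ?_ (cop_f hg ((hE.supp x).1 h0))
    intro h1
    apply hnu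
    have h2 : (p : ℤ) ∣ nm x * N := h1.mul_right _
    have h4 := dvd_sub h2 hu
    rwa [sub_sub_cancel] at h4
  have hlv : IsCoprime x ((lvX p f n : ℕ) : OO A B) →
      IsCoprime x ((lvX p f 0 : ℕ) : OO A B) := by
    intro h1
    refine h1.of_isCoprime_of_dvd_right ⟨((p ^ n : ℕ) : OO A B), ?_⟩
    unfold lvX
    push_cast
    ring
  have hn1 : ¬ (p : ℤ) ∣ 1 := by
    intro h1
    have h2 := Int.le_of_dvd one_pos h1
    omega
  have hn2 : ¬ (p : ℤ) ∣ 2 := by
    intro h1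
    have h2 := Int.le_of_dvd two_pos h1
    omega
  have hnt : ¬ (p : ℤ) ∣ T := by
    intro h1
    have h4 := dvd_sub h1 hT1
    rw [sub_sub_cancel] at h4
    exact hn1 h4
  have hnt' : ¬ (p : ℤ) ∣ -T := fun h1 => hnt ((dvd_neg).1 h1)
  have hnb : ((p ^ (n + 1) : ℕ) : ℤ) ∣ nm x * N - T →
      ¬ ((p ^ (n + 1) : ℕ) : ℤ) ∣ nm x * N - -T := by
    intro h1 h2
    have h4 := hM.trans (dvd_sub h2 h1)
    have h5 : nm x * N - -T - (nm x * N - T) = 2 * (T - 1) + 2 := by ring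
    rw [h5] at h4
    exact hn2 ((Int.dvd_add_right (hT1.mul_left 2)).1 h4)
  by_cases h1 : ((p ^ (n + 1) : ℕ) : ℤ) ∣ nm x * N - T
  · rw [if_pos h1, if_neg (hnb h1), mul_zero, add_zero]
    by_cases hc : IsCoprime x ((lvX p f n : ℕ) : OO A B)
    · rw [if_pos ⟨hc, Or.inl h1⟩]
      have h2 := hes x (hlv hc)
      have h4 : t (nm x) * t N = 1 := by
        rw [← htm, ← ht1]
        apply htp
        have h7 := dvd_add (hM.trans h1) hT1
        rwa [sub_add_sub_cancel] at h7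
      have h5 : t (nm x) = (t N)⁻¹ := eq_inv_of_mul_eq_one_left h4
      rw [h5] at h2
      linear_combination (kp * c * d) * h2
    · rw [if_neg (fun h2 => hc h2.1), hzero T (hM.trans h1) hnt hc, zero_mul, mul_zero]
  · by_cases h2 : ((p ^ (n + 1) : ℕ) : ℤ) ∣ nm x * N - -T
    · rw [if_neg h1, if_pos h2, zero_add]
      have h2' : ((p ^ (n + 1) : ℕ) : ℤ) ∣ nm x * N + T := by
        rwa [sub_neg_eq_add] at h2
      by_cases hc : IsCoprime x ((lvX p f n : ℕ) : OO A B)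
      · rw [if_pos ⟨hc, Or.inr h2'⟩]
        have h3 := hes x (hlv hc)
        have h4 : t (nm x) * t N = s := by
          rw [← htm, ← hts]
          apply htp
          have h7 := dvd_sub (hM.trans h2') hT1
          rwa [show nm x * N + T - (T - 1) = nm x * N - -1 by ring] at h7
        have hN0 : t N ≠ 0 := by
          intro h0
          rw [h0, mul_zero] at h4
          exact hs0 h4.symm
        have h5 : t (nm x) = s * (t N)⁻¹ := by
          rw [← h4, mul_assoc, mul_inv_cancel₀ hN0, mul_one]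
        rw [h5] at h3
        linear_combination (kp * c * d) * h3
      · rw [if_neg (fun h3 => hc h3.1), hzero (-T) (hM.trans h2) hnt' hc, zero_mul,
          mul_zero, mul_zero]
    · rw [if_neg h1, if_neg h2, if_neg]
      · ring
      · rintro ⟨-, h4 | h4⟩
        · exact h1 h4
        · apply h2
          rwa [sub_neg_eq_add]

lemma lvX_ne {p : ℕ} {A B : ℤ} {f : ℕ} (hS : SetQ p A B f) (n : ℕ) : lvX p f n ≠ 0 := by
  rw [lvX_odd hS.p2]
  exact mul_ne_zero hS.f0 (pow_ne_zero _ hS.pp.ne_zero)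

lemma muX_ne {p : ℕ} {A B : ℤ} {f : ℕ}
    (hS : SetQ p A B f) {ι : Type} (R : Reps A B (p * f) ι) (i : ι) : muX R i ≠ 0 := by
  have h1 : nI (R.b i) ≠ 0 := by
    intro h0
    have h2 := R.cop i
    rw [h0, Nat.coprime_zero_left] at h2
    exact hS.pp.one_lt.ne' (Nat.eq_one_of_mul_eq_one_right h2)
  unfold muX
  refine div_ne_zero (mul_ne_zero (R.nl i).om_ne ?_) (R.nl R.i0).om_ne
  exact_mod_cast h1

end THx

open _root_.Pool.Agent.OBI.THx in
/-- (TH) the sums `That_j` with a twist -/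
theorem oi_TH (h1 : Oi_TSH) : Oi_TH := by
  classical
  intro p A B f hS g hlv hg ι _ R n G _ _ γ Δ _ X hM χ e0 kp c w e s t _ _ hE htm htp ht1 hts
    hes hχ j
  have hfin : Finite (OO A B ⧸ idl (A := A) (B := B) (lvX p f n)) :=
    MUXI.TH.finR _ (THx.lvX_ne hS n)
  have hq : q0 p = p := q0_odd hS.p2
  have hpn : p * p ^ n = p ^ (n + 1) := by ring
  rw [MUXI.TH.sum_disj (fun δ : Δ => X (γ ^ j * (δ : G)))
    (fun q δ δ' h2 h4 => Subtype.ext (mul_left_cancel (hM.uniq q _ _ h2 h4)))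
    (fun δ => (((χ δ)⁻¹ : ℂˣ) : ℂ)) _ (fun q => kp q.1 * e0 (Quotient.out q.2))
    (fun δ q hq => hχ δ j q hq)]
  have hind : ∀ q : ι × (OO A B ⧸ idl (A := A) (B := B) (lvX p f n)),
      (if ∃ δ : Δ, q ∈ X (γ ^ j * (δ : G)) then
        kp q.1 * e0 (Quotient.out q.2) * (w (Quotient.out q.2) *
        c q.1 * dlX (R.L q.1) (aX p f) (pt R (lvX p f n) q.1 (Quotient.out q.2))) else 0) =
      kp q.1 * c q.1 * (t (nI (R.b q.1)))⁻¹ *
      ((if ((p ^ (n + 1) : ℕ) : ℤ) ∣ nm (Quotient.out q.2) * nI (R.b q.1) -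
          (1 + (p : ℤ)) ^ j then
        e (Quotient.out q.2) * dlX (R.L q.1) (aX p f)
          (pt R (lvX p f n) q.1 (Quotient.out q.2)) else 0) +
      s * (if ((p ^ (n + 1) : ℕ) : ℤ) ∣ nm (Quotient.out q.2) * nI (R.b q.1) -
          -(1 + (p : ℤ)) ^ j then
        e (Quotient.out q.2) * dlX (R.L q.1) (aX p f)
          (pt R (lvX p f n) q.1 (Quotient.out q.2)) else 0)) := by
    intro q
    have hmem := MUXI.TH.mem_iff hM q j
    rw [hq, hpn] at hmem
    rw [if_congr hmem rfl rfl]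
    exact THx.term hS n hg hE htm htp ht1 hts hes _ j _ _ _ _
  rw [finsum_congr hind, MUXI.TH.sum_pairs]
  unfold STX
  rw [Finset.mul_sum, ← Finset.sum_add_distrib]
  refine Finset.sum_congr rfl fun i _ => ?_
  have hT := h1 p A B f hS g hlv ι R n e hE i ((1 + (p : ℤ)) ^ j)
  have hT' := h1 p A B f hS g hlv ι R n e hE i (-(1 + (p : ℤ)) ^ j)
  rw [MUXI.TH.comb_sum (kp i * c i * (t (nI (R.b i)))⁻¹) (s : ℂ) _ _ _
    (fun x => rfl), ← hT, ← hT']
  have hmu := THx.muX_ne hS R i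
  unfold kkT sumMod
  field_simp

end

end Pool.Agent.OBI


end

section

/-!
# OB, block I: the sums of the logarithmic derivatives (TSH), every odd prime `p` (copy of `NS/I_TSH.lean`)
-/

set_option autoImplicit false

namespace Pool.Agent.OBI

open _root_.MU3 Pool.Agent.MU3 Pool.Agent.MU3A Pool.Agent.MU3B Pool.Agent.RI Pool.Agent.RID
  Pool.Agent.MUX Pool.Agent.MUXK Pool.Agent.MUXI Pool.Agent.NS Pool.Agent.NSI Pool.Agent.OB
open Pool.Agent.MU3I (zt)

noncomputable section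

open Pool.Agent.MUXI.TSH in
/-- (TSH) the sums of the logarithmic derivatives -/
theorem oi_TSH (h1 : Pool.Agent.MUXI.Si_PTP) (h3 : Pool.Agent.MUXF.Sx_ALG) : Oi_TSH := by
  intro p A B f hS g hg ι R n e he i t
  have hq : p ^ (n + 1) = q0 p * p ^ n := by
    rw [q0_odd hS.p2]
    ring
  rw [hq]
  have hCQ : CQ A B := hS.cq
  obtain ⟨alg1, alg2, alg3, alg4, -⟩ := h3 A B (Pool.Agent.MUXY.cqF hCQ)
  have hpq : p ∣ q0 p := by
    unfold q0
    split_ifs with h
    · rw [h]; norm_num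
    · exact dvd_rfl
  have hp0 : p ≠ 0 := hS.pp.ne_zero
  have hq0 : q0 p ≠ 0 := by
    unfold q0
    split_ifs with h
    · norm_num
    · exact hp0
  have hm0 : lvX p f n ≠ 0 := mul_ne_zero (mul_ne_zero hS.f0 hq0) (pow_ne_zero _ hp0)
  obtain ⟨ptp1, ptp2⟩ := h1 A B hCQ (p * f) ι R (lvX p f n) hm0 i
  have hmO : ((lvX p f n : ℕ) : OO A B) ≠ 0 := by
    intro h0
    have h5 := (alg3 (lvX p f n : ℤ)).1
    rw [Int.cast_natCast, h0, (alg2 0).1.2 rfl] at h5
    apply hm0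
    exact_mod_cast h5.symm
  have hfin : Finite (OO A B ⧸ Ideal.span {((lvX p f n : ℕ) : OO A B)}) := by
    apply alg4
    rw [Ne, Ideal.span_singleton_eq_bot]
    exact hmO
  have hmM : lvX p f n = f * (q0 p * p ^ n) := by unfold lvX; ring
  have hcN := cop_nat p f n hpq
  have hcZ : IsCoprime ((aX p f : ℕ) : ℤ) ((lvX p f n : ℕ) : ℤ) :=
    Nat.isCoprime_iff_coprime.2 hcN
  have hcO : IsCoprime ((aX p f : ℕ) : OO A B) ((lvX p f n : ℕ) : OO A B) := by
    have h5 := hcZ.map (Int.castRingHom (OO A B))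
    simpa using h5
  have hl0 : ((lvX p f 0 : ℕ) : OO A B) ∈ g := hg (Ideal.mem_span_singleton_self _)
  have hle : idl (A := A) (B := B) (lvX p f n) ≤ g := by
    rw [Ideal.span_singleton_le_iff_mem]
    have h5 : ((lvX p f n : ℕ) : OO A B) = ((lvX p f 0 : ℕ) : OO A B) * ((p ^ n : ℕ) : OO A B) := by
      rw [← Nat.cast_mul]
      congr 1
      unfold lvX
      ring
    rw [h5]
    exact g.mul_mem_right _ hl0
  have hea : ∀ x, e (((aX p f : ℕ) : OO A B) * x) = e x := by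
    intro x
    rw [he.mul, he.per ((aX p f : ℕ) : OO A B) 1, he.one, one_mul]
    have h5 : ((aX p f : ℕ) : OO A B) - 1 = ((lvX p f 0 : ℕ) : OO A B) * 2 := by
      unfold aX lvX
      push_cast
      ring
    rw [h5]
    exact g.mul_mem_right _ hl0
  -- the summands
  set F0 : ℤ → OO A B → ℂ := fun c x =>
    if ((q0 p * p ^ n : ℕ) : ℤ) ∣ nm x * nI (R.b i) - c then
      e x * ee (R.L i) (pt R (lvX p f n) i x) else 0 with hF0
  have hMm : ((q0 p * p ^ n : ℕ) : ℤ) ∣ ((lvX p f n : ℕ) : ℤ) :=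
    ⟨f, by rw [hmM]; push_cast; ring⟩
  have hper : ∀ c, Per ((lvX p f n : ℕ) : OO A B) (F0 c) := by
    intro c x y hxy
    have h5 : ((q0 p * p ^ n : ℕ) : ℤ) ∣ nm x * nI (R.b i) - nm y * nI (R.b i) := by
      rw [← sub_mul]
      exact (hMm.trans (nm_per _ hxy)).mul_right _
    have h6 : ((q0 p * p ^ n : ℕ) : ℤ) ∣ nm x * nI (R.b i) - c ↔
        ((q0 p * p ^ n : ℕ) : ℤ) ∣ nm y * nI (R.b i) - c := by
      constructor
      · intro h7
        have := dvd_sub h7 h5
        rwa [sub_sub_sub_cancel_left, show nm y * (nI (R.b i) : ℤ) - c =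
          nm y * (nI (R.b i) : ℤ) - c from rfl] at this
      · intro h7
        have := dvd_add h5 h7
        rwa [sub_add_sub_cancel] at this
    simp only [hF0]
    rw [he.per x y (hle hxy), (ptp1 x y hxy).2.1]
    by_cases h7 : ((q0 p * p ^ n : ℕ) : ℤ) ∣ nm x * nI (R.b i) - c
    · rw [if_pos h7, if_pos (h6.1 h7)]
    · rw [if_neg h7, if_neg (fun h8 => h7 (h6.2 h8))]
  have hcop2 : IsCoprime ((q0 p * p ^ n : ℕ) : ℤ) ((aX p f : ℤ) ^ 2) := by
    have h5 := (hcZ.of_isCoprime_of_dvd_right hMm).symm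
    exact h5.pow_right
  have hnma : ∀ x : OO A B, nm (((aX p f : ℕ) : OO A B) * x) = (aX p f : ℤ) ^ 2 * nm x := by
    intro x
    have h5 := (alg3 (aX p f : ℤ)).2
    rw [Int.cast_natCast] at h5
    rw [(alg1 _ _).2.2, h5]
  have hdv : ∀ x : OO A B, ((q0 p * p ^ n : ℕ) : ℤ) ∣
      nm (((aX p f : ℕ) : OO A B) * x) * nI (R.b i) - (aX p f : ℤ) ^ 2 * t ↔
      ((q0 p * p ^ n : ℕ) : ℤ) ∣ nm x * nI (R.b i) - t := by
    intro x
    rw [hnma, show (aX p f : ℤ) ^ 2 * nm x * (nI (R.b i) : ℤ) - (aX p f : ℤ) ^ 2 * t =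
      (aX p f : ℤ) ^ 2 * (nm x * (nI (R.b i) : ℤ) - t) by ring]
    exact ⟨fun h => hcop2.dvd_of_dvd_mul_left h, fun h => h.mul_left _⟩
  have hS1 : ∀ c, SnX R (lvX p f n) (q0 p * p ^ n) e i c =
      muX R i * sumMod ((lvX p f n : ℕ) : OO A B) (F0 c) := fun c => rfl
  have hS2 : sumMod ((lvX p f n : ℕ) : OO A B) (F0 ((aX p f : ℤ) ^ 2 * t)) =
      sumMod ((lvX p f n : ℕ) : OO A B)
        (fun x => F0 ((aX p f : ℤ) ^ 2 * t) (((aX p f : ℕ) : OO A B) * x)) :=
    (sumMod_mul hcO (hper _)).symm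
  rw [hS1, hS1, hS2]
  have key : sumMod ((lvX p f n : ℕ) : OO A B) (fun x =>
      if ((q0 p * p ^ n : ℕ) : ℤ) ∣ nm x * nI (R.b i) - t then
        e x * dlX (R.L i) (aX p f) (pt R (lvX p f n) i x) else 0) =
      (aX p f : ℂ) * sumMod ((lvX p f n : ℕ) : OO A B)
        (fun x => F0 ((aX p f : ℤ) ^ 2 * t) (((aX p f : ℕ) : OO A B) * x)) -
      (aX p f : ℂ) ^ 2 * sumMod ((lvX p f n : ℕ) : OO A B) (F0 t) := by
    rw [← sumMod_cmul, ← sumMod_cmul, ← sumMod_sub hfin]
    congr 1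
    funext x
    simp only [hF0]
    by_cases h7 : ((q0 p * p ^ n : ℕ) : ℤ) ∣ nm x * nI (R.b i) - t
    · rw [if_pos h7, if_pos ((hdv x).2 h7), if_pos h7, hea, ← ptp2]
      unfold dlX
      ring
    · rw [if_neg h7, if_neg (fun h8 => h7 ((hdv x).1 h8)), if_neg h7]
      ring
  rw [key]
  ring

end

end Pool.Agent.OBI


end

section

/-!
# OB, block I: module XMX, the sets `XX` satisfy `XM` for the group `NC h (RB p n)` (helper85), after `NS/I_XMX.lean`
-/

set_option autoImplicit false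

namespace Pool.Agent.OBI

open _root_.MU3 Pool.Agent.MU3 Pool.Agent.MU3A Pool.Agent.MU3B Pool.Agent.RI Pool.Agent.RID
  Pool.Agent.MUX Pool.Agent.MUXK Pool.Agent.MUXI Pool.Agent.NS Pool.Agent.NSI Pool.Agent.OB
open Pool.Agent.MU3I (zt)

noncomputable section

namespace XMXx

/-- the numbers `ζ^u + ζ^(-u)` -/
lemma pm {ζ : ℂ} {M : ℕ} (hM : M ≠ 0) (hζ : IsPrimitiveRoot ζ M) (u v : ℕ) :
    ζ ^ u + (ζ ^ u)⁻¹ = ζ ^ v + (ζ ^ v)⁻¹ ↔
      (M : ℤ) ∣ (u : ℤ) - v ∨ (M : ℤ) ∣ (u : ℤ) + v := by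
  have h0 : ζ ≠ 0 := hζ.ne_zero hM
  have hu : ζ ^ u ≠ 0 := pow_ne_zero _ h0
  have hv : ζ ^ v ≠ 0 := pow_ne_zero _ h0
  have e1 : (M : ℤ) ∣ (u : ℤ) - v ↔ ζ ^ u = ζ ^ v := by
    rw [← hζ.zpow_eq_one_iff_dvd, zpow_sub₀ h0, zpow_natCast, zpow_natCast, div_eq_one_iff_eq hv]
  have e2 : (M : ℤ) ∣ (u : ℤ) + v ↔ ζ ^ u * ζ ^ v = 1 := by
    rw [← hζ.zpow_eq_one_iff_dvd, zpow_add₀ h0, zpow_natCast, zpow_natCast]
  rw [e1, e2]
  constructor
  · intro h
    have h1 : (ζ ^ u - ζ ^ v) * (ζ ^ u * ζ ^ v - 1) = 0 := by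
      field_simp at h
      linear_combination h
    rcases mul_eq_zero.1 h1 with h2 | h2
    · exact Or.inl (sub_eq_zero.1 h2)
    · exact Or.inr (sub_eq_zero.1 h2)
  · rintro (h | h)
    · rw [h]
    · have h1 : ζ ^ u = (ζ ^ v)⁻¹ := eq_inv_of_mul_eq_one_left h
      rw [h1, inv_inv, add_comm]

/-- powers of `± g` -/
lemma pw (M c g : ℤ) (h : M ∣ c - g ∨ M ∣ c + g) (j : ℕ) :
    M ∣ c ^ j - g ^ j ∨ M ∣ c ^ j + g ^ j := by
  rcases h with h | h
  · exact Or.inl (h.trans (sub_dvd_pow_sub_pow c g j))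
  · have h1 : M ∣ c ^ j - (-g) ^ j := by
      refine dvd_trans ?_ (sub_dvd_pow_sub_pow c (-g) j)
      rwa [sub_neg_eq_add]
    rcases Nat.even_or_odd j with hj | hj
    · rw [hj.neg_pow] at h1
      exact Or.inl h1
    · rw [hj.neg_pow, sub_neg_eq_add] at h1
      exact Or.inr h1

lemma pm_iff (M N a b : ℤ) (h : M ∣ a - b ∨ M ∣ a + b) :
    (M ∣ N - a ∨ M ∣ N + a) ↔ (M ∣ N - b ∨ M ∣ N + b) := by
  constructor
  · rintro (h1 | h1)
    · rcases h with h | h
      · left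
        have := dvd_add h1 h
        rwa [sub_add_sub_cancel] at this
      · right
        have := dvd_add h1 h
        rwa [show N - a + (a + b) = N + b by ring] at this
    · rcases h with h | h
      · right
        have := dvd_sub h1 h
        rwa [show N + a - (a - b) = N + b by ring] at this
      · left
        have := dvd_sub h1 h
        rwa [show N + a - (a + b) = N - b by ring] at this
  · rintro (h1 | h1)
    · rcases h with h | h
      · left
        have := dvd_sub h1 h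
        rwa [show N - b - (a - b) = N - a by ring] at this
      · right
        have := dvd_add h1 h
        rwa [show N - b + (a + b) = N + a by ring] at this
    · rcases h with h | h
      · right
        have := dvd_add h1 h
        rwa [show N + b + (a - b) = N + a by ring] at this
      · left
        have := dvd_sub h1 h
        rwa [show N + b - (a + b) = N - a by ring] at this

/-- two homomorphisms which agree on `z` agree on `ℚ(z)` -/
theorem eqB {B D : IntermediateField ℚ ℂ} {z : ℂ} (hB : B = IntermediateField.adjoin ℚ {z})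
    (φ ψ : D →+* ℂ) (hz : z ∈ D)
    (h2 : φ ⟨z, hz⟩ = ψ ⟨z, hz⟩) (y : D) (hy : (y : ℂ) ∈ B) : φ y = ψ y := by
  let S : IntermediateField ℚ ℂ :=
    { carrier := {y | ∃ hy : y ∈ D, φ ⟨y, hy⟩ = ψ ⟨y, hy⟩}
      mul_mem' := by
        rintro a b ⟨ha, ha'⟩ ⟨hb, hb'⟩
        refine ⟨mul_mem ha hb, ?_⟩
        have h3 : (⟨a * b, mul_mem ha hb⟩ : D) = ⟨a, ha⟩ * ⟨b, hb⟩ := rfl
        rw [h3, map_mul, map_mul, ha', hb']
      one_mem' := ⟨one_mem D, by
        have h3 : (⟨1, one_mem D⟩ : D) = 1 := rfl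
        rw [h3, map_one, map_one]⟩
      add_mem' := by
        rintro a b ⟨ha, ha'⟩ ⟨hb, hb'⟩
        refine ⟨add_mem ha hb, ?_⟩
        have h3 : (⟨a + b, add_mem ha hb⟩ : D) = ⟨a, ha⟩ + ⟨b, hb⟩ := rfl
        rw [h3, map_add, map_add, ha', hb']
      zero_mem' := ⟨zero_mem D, by
        have h3 : (⟨0, zero_mem D⟩ : D) = 0 := rfl
        rw [h3, map_zero, map_zero]⟩
      algebraMap_mem' := by
        intro q
        refine ⟨D.algebraMap_mem q, ?_⟩
        have h3 : (⟨algebraMap ℚ ℂ q, D.algebraMap_mem q⟩ : D) = (q : D) := by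
          apply Subtype.ext
          simp
        rw [h3, map_ratCast, map_ratCast]
      inv_mem' := by
        rintro a ⟨ha, ha'⟩
        refine ⟨inv_mem ha, ?_⟩
        have h3 : (⟨a⁻¹, inv_mem ha⟩ : D) = (⟨a, ha⟩ : D)⁻¹ := rfl
        rw [h3, map_inv₀, map_inv₀, ha'] }
  have h4 : B ≤ S := by
    rw [hB, IntermediateField.adjoin_simple_le_iff]
    exact ⟨hz, h2⟩
  obtain ⟨_, h6⟩ := h4 hy
  exact h6

lemma natCast_not_unit {A B : ℤ} {m : ℕ} (hm : 2 ≤ m) (z : OO A B) :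
    ((m : ℕ) : OO A B) * z ≠ 1 := by
  intro h
  have h1 := congrArg QuadraticAlgebra.re h
  simp only [QuadraticAlgebra.re_mul, QuadraticAlgebra.re_natCast, QuadraticAlgebra.im_natCast,
    QuadraticAlgebra.re_one, mul_zero, zero_mul, add_zero] at h1
  have h2 : (m : ℤ) ∣ 1 := ⟨z.re, h1.symm⟩
  have h3 : m ∣ 1 := by exact_mod_cast h2
  have := Nat.le_of_dvd one_pos h3
  omega

lemma nI_top {A B : ℤ} : nI (⊤ : Ideal (OO A B)) = 1 := by
  unfold nI
  have : Subsingleton (OO A B ⧸ (⊤ : Ideal (OO A B))) := Ideal.Quotient.subsingleton_iff.2 rfl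
  exact Nat.card_of_subsingleton 0

lemma nI_pow {A B : ℤ} (hc : CQ A B) {c : Ideal (OO A B)} (hc0 : c ≠ ⊥) (j : ℕ) :
    c ^ j ≠ ⊥ ∧ nI (c ^ j) = nI c ^ j := by
  induction j with
  | zero =>
    rw [pow_zero, pow_zero, Ideal.one_eq_top]
    refine ⟨?_, nI_top⟩
    intro h
    have h1 : (1 : OO A B) ∈ (⊤ : Ideal (OO A B)) := trivial
    rw [h, Ideal.mem_bot] at h1
    have := natCast_ne_zero' hc (n := 1) one_ne_zero
    rw [Nat.cast_one] at this
    exact this h1
  | succ j ih =>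
    rw [pow_succ, pow_succ]
    exact ⟨mul_ne_bot hc ih.1 hc0, by rw [nI_mul hc ih.1 hc0, ih.2]⟩

end XMXx

open _root_.Pool.Agent.OBI.XMXx in
theorem oi_XMX (h1 : Si_XXF) (h2 : Si_ARF) : Oi_XMX := by
  intro p A B f hS hT ι R D n h hRB hD
  let aD : Algebra (kk A B) ↥D := algC h
  intro hG γ hγ
  have hQ := hS.cq
  have hp0 : 0 < p := hS.pp.pos
  have hq3 : 3 ≤ p := by
    have h4 := hS.pp.two_le
    have h5 := hS.p2
    omega
  have hf1 : 1 ≤ f := Nat.one_le_iff_ne_zero.2 hS.f0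
  have hpn : 1 ≤ p ^ n := Nat.one_le_pow _ _ hp0
  set m : ℕ := lvX p f n with hm
  set M : ℕ := p ^ (n + 1) with hM
  have hmM : m = f * M := by rw [hm, hM, lvX_odd hS.p2]
  have hM3 : 3 ≤ M := by
    rw [hM]
    calc 3 = 1 * 3 := rfl
      _ ≤ p ^ n * p := Nat.mul_le_mul hpn hq3
      _ = p ^ (n + 1) := (pow_succ p n).symm
  have hm3 : 3 ≤ m := by
    rw [hmM]
    calc 3 = 1 * 3 := rfl
      _ ≤ f * M := Nat.mul_le_mul hf1 hM3
  have hm2 : 2 ≤ m := by omega
  have hM0 : M ≠ 0 := by omega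
  have hm0 : idl (A := A) (B := B) m ≠ ⊥ := by
    rw [Ne, Ideal.span_singleton_eq_bot]
    exact natCast_ne_zero' hQ (by omega)
  have hcop : ∀ i, (nI (R.b i)).Coprime m := by
    intro i
    have h4 := R.cop i
    have h5 : (nI (R.b i)).Coprime p := h4.coprime_mul_right_right
    have h6 : (nI (R.b i)).Coprime f := h4.coprime_mul_left_right
    rw [hmM, hM]
    exact h6.mul_right (h5.pow_right (n + 1))
  have hNL : ∃ (b : Ideal (OO A B)) (L : PeriodPair) (om : ℂ), IsNL b L om :=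
    ⟨_, _, _, R.nl R.i0⟩
  obtain ⟨a1, -, a3, a4, a5, -, a7⟩ := h2 A B hQ hT hNL (idl m) hm0 D h hD hG
  obtain ⟨x1, x2⟩ := h1 A B hQ hT (p * f) ι R m hm2 hcop D h hD hG
  have hcomm : ∀ σ τ : ↥D ≃ₐ[kk A B] ↥D, σ * τ = τ * σ := by
    intro σ τ
    obtain ⟨a, -, ha⟩ := a3 σ
    obtain ⟨b, -, hb⟩ := a3 τ
    have h5 := a5 σ τ a b ha hb
    have h6 := a5 τ σ b a hb ha
    refine a4 _ _ _ _ h5 h6 ⟨1, 1, ?_, ?_, ?_, ?_, ?_⟩
    · have := natCast_ne_zero' hQ (n := 1) one_ne_zero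
      rwa [Nat.cast_one] at this
    · have := natCast_ne_zero' hQ (n := 1) one_ne_zero
      rwa [Nat.cast_one] at this
    · rw [sp, Ideal.span_singleton_one, ← Ideal.one_eq_top]
      exact isCoprime_one_left
    · rw [sub_self]
      exact Ideal.zero_mem _
    · rw [mul_comm a b]
  have hcopr : ∀ τ, ∀ q ∈ XX R m h τ,
      IsCoprime (Quotient.out q.2 : OO A B) ((m : ℕ) : OO A B) := fun τ q hq => hq.1
  refine ⟨hcomm, hcopr, fun q hq => (x2 q hq).1,
    fun q τ τ' hq hq' => (x2 q (hcopr τ q hq)).2 τ τ' hq hq', ?_⟩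
  intro q τ hq j
  set ζ : ℂ := zt M with hζd
  have hζ : IsPrimitiveRoot ζ M := Complex.isPrimitiveRoot_exp M hM0
  have hζM : ζ ^ M = 1 := hζ.pow_eq_one
  have hBn : RB p n = IntermediateField.adjoin ℚ {ζ + ζ⁻¹} := rfl
  have htB : ζ + ζ⁻¹ ∈ RB p n := by
    rw [hBn]
    exact IntermediateField.mem_adjoin_simple_self ℚ _
  have htD : ζ + ζ⁻¹ ∈ D := hRB htB
  set y : ↥D := ⟨ζ + ζ⁻¹, htD⟩ with hy
  have hle : idl (A := A) (B := B) m ≤ idl M := by
    rw [Ideal.span_singleton_le_span_singleton, hmM]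
    push_cast
    exact dvd_mul_left _ _
  -- the ideal of `τ`
  set x : OO A B := Quotient.out q.2 with hx
  have hxc : IsCoprime x ((m : ℕ) : OO A B) := hcopr τ q hq
  have hqe : (q.1, Ideal.Quotient.mk (idl (A := A) (B := B) m) x) = q := by
    have h5 : Ideal.Quotient.mk (idl (A := A) (B := B) m) x = q.2 := Quotient.out_eq q.2
    rw [h5]
  have hAR : AR h (idl m) τ (sp x * cjI (R.b q.1)) := by
    refine (x1 τ q.1 x hxc).1 ?_
    rw [hqe]
    exact hq
  have hx0 : x ≠ 0 := by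
    intro h0
    rw [h0, isCoprime_zero_left] at hxc
    obtain ⟨z, hz⟩ := hxc.exists_right_inv
    exact natCast_not_unit hm2 z hz
  have hb0 : R.b q.1 ≠ ⊥ := (R.nl q.1).b_ne
  have hspx : sp x ≠ ⊥ := by
    rwa [Ne, Ideal.span_singleton_eq_bot]
  have hN : ((nI (sp x * cjI (R.b q.1)) : ℕ) : ℤ) = nm x * nI (R.b q.1) := by
    rw [nI_mul hQ hspx (cjI_ne_bot hQ hb0), nI_sp hQ hx0, nI_cjI hQ hb0]
    push_cast
    rw [abs_of_nonneg (nm_nonneg hQ x)]
  have e1 := a7 M τ _ ζ y hM0 hle hAR hζM rfl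
  -- the ideal of `γ`
  obtain ⟨c, hcc, hc⟩ := a3 γ
  have hc0 : c ≠ ⊥ := by
    rintro rfl
    have h5 : IsUnit (idl (A := A) (B := B) m) := isCoprime_zero_left.1 hcc
    rw [Ideal.isUnit_iff, Ideal.eq_top_iff_one] at h5
    obtain ⟨z, hz⟩ := Ideal.mem_span_singleton.1 h5
    exact natCast_not_unit hm2 z hz.symm
  have hARj : ∀ j : ℕ, AR h (idl m) (γ ^ j) (c ^ j) := by
    intro j
    induction j with
    | zero =>
      rw [pow_zero, pow_zero, Ideal.one_eq_top]
      exact a1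
    | succ j ih =>
      rw [pow_succ, pow_succ]
      exact a5 _ _ _ _ ih hc
  have e2 := a7 M (γ ^ j) _ ζ y hM0 hle (hARj j) hζM rfl
  rw [(nI_pow hQ hc0 j).2] at e2
  have e3 := a7 M γ _ ζ y hM0 hle hc hζM rfl
  have e4 := hγ y rfl
  rw [e3] at e4
  have e5 := (pm hM0 hζ _ _).1 e4
  have e6 := pw (M : ℤ) (nI c : ℤ) ((1 + p : ℕ) : ℤ) e5 j
  -- the condition on `τ`
  have key : τ * (γ ^ j)⁻¹ ∈ NC h (RB p n) ↔
      ((τ y : ↥D) : ℂ) = (((γ ^ j) y : ↥D) : ℂ) := by
    rw [hcomm τ (γ ^ j)⁻¹]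
    constructor
    · intro hmem
      have h5 : ((γ ^ j)⁻¹ * τ) y = y := hmem y htB
      have h6 : τ y = (γ ^ j) y := by
        have h7 : (γ ^ j) (((γ ^ j)⁻¹ * τ) y) = (γ ^ j) y := by rw [h5]
        rwa [← AlgEquiv.mul_apply, mul_inv_cancel_left] at h7
      rw [h6]
    · intro he
      have h5 : ∀ z : ↥D, (z : ℂ) ∈ RB p n → τ z = (γ ^ j) z := by
        intro z hz
        let φ : ↥D →+* ℂ := (algebraMap ↥D ℂ).comp (τ : ↥D →+* ↥D)
        let ψ : ↥D →+* ℂ :=
          (algebraMap ↥D ℂ).comp ((γ ^ j : ↥D ≃ₐ[kk A B] ↥D) :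
            ↥D →+* ↥D)
        exact Subtype.ext (eqB hBn φ ψ htD he z hz)
      intro z hz
      have h6 := h5 z hz
      show (γ ^ j)⁻¹ (τ z) = z
      rw [h6, ← AlgEquiv.mul_apply, inv_mul_cancel]
      rfl
  have hqM : q0 p * p ^ n = M := by rw [q0_odd hS.p2, hM, pow_succ, mul_comm]
  rw [key, e1, e2, pm hM0 hζ]
  rw [hN, hqM, q0_odd hS.p2]
  push_cast
  push_cast at e6
  exact pm_iff (M : ℤ) _ _ _ e6

end

end Pool.Agent.OBI


end
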