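import Pool.Agent.MVF.C008
import Pool.Agent.MVF.C014
import Pool.Agent.MVF.C031
import Pool.Agent.MVF.C033
import Pool.Agent.MVF.C035
import Pool.Agent.MVF.C053
import Pool.Agent.MVF.C054
import Pool.Agent.MVF.C057
import Pool.Agent.MVF.C074
import Pool.Agent.MVF.C091
import Pool.Agent.MVF.C126
import Pool.Agent.MVF.C155
import Pool.Agent.OBM.C04

/-! Parts: OB.R_AFF, OB.R_DIC, OB.R_FIN, OB.R_FRC, OB.R_FRU, OB.R_FXX, OB.R_GRL, OB.R_IN2, OB.R_INJ, OB.R_IS2, OB.R_ISO, OB.R_ISV, OB.R_KUB, OB.R_LGE, OB.R_LIF, OB.R_MLT, OB.R_ORD, OB.R_PS3, OB.R_TW3 -/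

section

/-!
# OB, block GR (helper66): (AFF)
-/

set_option autoImplicit false

open WeierstrassCurve Polynomial

namespace Pool.Agent.OBR

open _root_.MU3 Pool.Agent.MU3A Pool.Agent.MU3B Pool.Agent.RI Pool.Agent.MUX Pool.Agent.MUXU
open Pool.Agent.MUXV (GR InK tX)
open Pool.Agent.NS Pool.Agent.NSR Pool.Agent.OB

noncomputable section

namespace AFFx

lemma wp_congr (L : PeriodPair) {a b : ℂ} (h : a - b ∈ L.lattice) :
    L.weierstrassP a = L.weierstrassP b := by
  have h1 := L.weierstrassP_add_coe b ⟨a - b, h⟩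
  rw [← h1]
  congr 1
  ring

/-- the difference of the values at two different points of order two -/
lemma val_diff {V : ValuationSubring ℂ} {L : PeriodPair} {w₁ w₂ w₃ u : ℂ}
    (h3 : So_TW3) (hw : Two3 L w₁ w₂ w₃)
    (hG : GoodL V L u (L.weierstrassP w₁)
      ((L.weierstrassP w₃ - L.weierstrassP w₁) / (L.weierstrassP w₂ - L.weierstrassP w₁)))
    {z z' : ℂ} (hz : z ∉ L.lattice) (hz2 : 2 * z ∈ L.lattice) (hz' : z' ∉ L.lattice)
    (hz2' : 2 * z' ∈ L.lattice) (hd : z - z' ∉ L.lattice) :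
    V.valuation (L.weierstrassP z - L.weierstrassP z') =
      V.valuation (L.weierstrassP w₂ - L.weierstrassP w₁) := by
  obtain ⟨-, h5, -, n12, -, -⟩ := (h3 L).2.2 w₁ w₂ w₃ hw
  obtain ⟨hl, hl1⟩ := hG.unit
  have hN : L.weierstrassP w₂ - L.weierstrassP w₁ ≠ 0 := sub_ne_zero.2 (Ne.symm n12)
  have hvN : V.valuation (L.weierstrassP w₂ - L.weierstrassP w₁) ≠ 0 :=
    (Valuation.ne_zero_iff _).2 hN
  have e1 : V.valuation (L.weierstrassP w₃ - L.weierstrassP w₁) =
      V.valuation (L.weierstrassP w₂ - L.weierstrassP w₁) := by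
    rw [map_div₀, div_eq_one_iff_eq hvN] at hl
    exact hl
  have e2 : V.valuation (L.weierstrassP w₃ - L.weierstrassP w₂) =
      V.valuation (L.weierstrassP w₂ - L.weierstrassP w₁) := by
    have h6 : (L.weierstrassP w₃ - L.weierstrassP w₁) / (L.weierstrassP w₂ - L.weierstrassP w₁) - 1 =
        (L.weierstrassP w₃ - L.weierstrassP w₂) / (L.weierstrassP w₂ - L.weierstrassP w₁) := by
      field_simp
      ring
    rw [h6, map_div₀, div_eq_one_iff_eq hvN] at hl1
    exact hl1
  have same : ∀ {a : ℂ}, z - a ∈ L.lattice → z' - a ∈ L.lattice → False := by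
    intro a ha hb
    apply hd
    have := sub_mem ha hb
    rwa [show z - a - (z' - a) = z - z' by ring] at this
  rcases h5 z hz hz2 with ha | ha | ha <;> rcases h5 z' hz' hz2' with hb | hb | hb
  · exact (same ha hb).elim
  · rw [wp_congr L ha, wp_congr L hb, Valuation.map_sub_swap]
  · rw [wp_congr L ha, wp_congr L hb, Valuation.map_sub_swap, e1]
  · rw [wp_congr L ha, wp_congr L hb]
  · exact (same ha hb).elim
  · rw [wp_congr L ha, wp_congr L hb, Valuation.map_sub_swap, e2]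
  · rw [wp_congr L ha, wp_congr L hb, e1]
  · rw [wp_congr L ha, wp_congr L hb, e2]
  · exact (same ha hb).elim

lemma tor_two {A B : ℤ} (hcq : CQ A B) {b : Ideal (OO A B)} {L : PeriodPair} {om : ℂ}
    (hL : IsLI b L om) {q : ℕ} {w : ℂ} (h : 2 * w ∈ L.lattice) :
    Tor (idl (A := A) (B := B) (2 * q)) L w := by
  refine tor_of_mul hcq hL ?_
  have h1 := nsmul_mem h q
  rw [nsmul_eq_mul] at h1
  push_cast
  rwa [show (2 : ℂ) * q * w = q * (2 * w) by ring]

lemma tor_sub {A B : ℤ} {m : Ideal (OO A B)} {L : PeriodPair} {z w : ℂ} (h : Tor m L z)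
    (h' : Tor m L w) : Tor m L (z - w) := by
  intro x hx
  rw [mul_sub]
  exact sub_mem (h x hx) (h' x hx)

lemma wp_mem {A B : ℤ} {m : Ideal (OO A B)} {b : Ideal (OO A B)} {L : PeriodPair} {om : ℂ}
    (hL : IsNL b L om) {z : ℂ} (hz : z ∉ L.lattice) (ht : Tor m L z) :
    L.weierstrassP z ∈ RF m := by
  have h1 : xn L z ∈ RF m := IntermediateField.subset_adjoin _ _ ⟨b, L, om, hL, Or.inr ⟨z, ht, hz, rfl⟩⟩
  have h3 : L.weierstrassP z = xn L z + ((1 / 12 : ℚ) : ℂ) := by
    unfold xn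
    push_cast
    ring
  rw [h3]
  exact add_mem h1 (SubfieldClass.ratCast_mem _ _)

end AFFx

/-- (AFF) the action of the inertia group on the points of a lattice with the same reduction -/
theorem o_AFF (h1 : So_GRD) (h2 : So_TW3) : So_AFF := by
  intro p er A B P V hC hT b L om hL w₁ w₂ w₃ u hw hu q hq hqp σ hσ hI c hA
  have hcq := hC.cq
  have hG := h1 p er A B P V hC b L om hL.toIsLI w₁ w₂ w₃ u hw hu
  obtain ⟨-, h5, -, n12, -, -⟩ := (h2 L).2.2 w₁ w₂ w₃ hw
  set m : Ideal (OO A B) := idl (A := A) (B := B) (2 * q) with hm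
  have hN : L.weierstrassP w₂ - L.weierstrassP w₁ ≠ 0 := sub_ne_zero.2 (Ne.symm n12)
  have t1 : Tor m L w₁ := AFFx.tor_two hcq hL.toIsLI hw.t₁
  have t2 : Tor m L w₂ := AFFx.tor_two hcq hL.toIsLI hw.t₂
  have act : ∀ z, z ∉ L.lattice → Tor m L z → emb c * z ∉ L.lattice ∧
      σ (L.weierstrassP z) = L.weierstrassP (emb c * z) := by
    intro z hz ht
    rcases hA.act z ht with ⟨h, -⟩ | ⟨-, h, h', -⟩
    · exact (hz h).elim
    · refine ⟨h, ?_⟩
      unfold xn at h'
      rw [map_sub, map_div₀, map_one, map_ofNat] at h'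
      linear_combination h'
  have c1 := act w₁ hw.n₁ t1
  have c2 := act w₂ hw.n₂ t2
  have c12 := act (w₂ - w₁) (fun k => hw.d₁₂ (by
    have := neg_mem k
    rwa [neg_sub] at this)) (AFFx.tor_sub t2 t1)
  have two : ∀ {w : ℂ}, 2 * w ∈ L.lattice → 2 * (emb c * w) ∈ L.lattice := by
    intro w h
    have := hL.toIsLI.hasCM hcq c _ h
    rwa [show emb c * (2 * w) = 2 * (emb c * w) by ring] at this
  have hva := AFFx.val_diff h2 hw hG c2.1 (two hw.t₂) c1.1 (two hw.t₁) (by
    have := c12.1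
    rwa [mul_sub] at this)
  have hvN : V.valuation (L.weierstrassP w₂ - L.weierstrassP w₁) ≠ 0 :=
    (Valuation.ne_zero_iff _).2 hN
  have hN' : L.weierstrassP (emb c * w₂) - L.weierstrassP (emb c * w₁) ≠ 0 := by
    intro h
    rw [h, map_zero] at hva
    exact hvN hva.symm
  have ha : xu L u (L.weierstrassP w₁) (emb c * w₂) - xu L u (L.weierstrassP w₁) (emb c * w₁) =
      (L.weierstrassP (emb c * w₂) - L.weierstrassP (emb c * w₁)) /
        (L.weierstrassP w₂ - L.weierstrassP w₁) := by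
    unfold xu
    rw [hu]
    field_simp
    ring
  have hv1 : V.valuation (xu L u (L.weierstrassP w₁) (emb c * w₂) -
      xu L u (L.weierstrassP w₁) (emb c * w₁)) = 1 := by
    rw [ha, map_div₀, hva, div_self hvN]
  refine ⟨hv1, fun z hz ht => ?_⟩
  have cz := act z hz ht
  have hvz : V.valuation (xu L u (L.weierstrassP w₁) z) ≤ 1 := by
    refine (rtor V L u _ _ hC.v2 hG.unit.1.le hG.leg (2 * q) (hC.vnat ?_) z hz ?_).1
    · intro hd
      rcases (hC.pp.dvd_mul).1 hd with h | h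
      · have := Nat.le_of_dvd two_pos h
        have := hC.p5
        omega
      · exact hqp ((Nat.prime_dvd_prime_iff_eq hC.pp hq).1 h).symm
    · have := ht ((2 * q : ℕ) : OO A B) (Ideal.mem_span_singleton_self _)
      rwa [emb_natCast hcq] at this
  refine ⟨cz.1, hvz, ?_⟩
  have hmem : xu L u (L.weierstrassP w₁) z ∈ RF m := by
    unfold xu
    rw [hu]
    exact div_mem (sub_mem (AFFx.wp_mem hL hz ht) (AFFx.wp_mem hL hw.n₁ t1))
      (sub_mem (AFFx.wp_mem hL hw.n₂ t2) (AFFx.wp_mem hL hw.n₁ t1))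
  have hs := hI _ hmem hvz
  have hσX : σ (xu L u (L.weierstrassP w₁) z) =
      (L.weierstrassP (emb c * z) - L.weierstrassP (emb c * w₁)) /
        (L.weierstrassP (emb c * w₂) - L.weierstrassP (emb c * w₁)) := by
    unfold xu
    rw [hu, map_div₀, map_sub, map_sub, cz.2, c1.2, c2.2]
  have e9 : xu L u (L.weierstrassP w₁) (emb c * z) -
      ((xu L u (L.weierstrassP w₁) (emb c * w₂) - xu L u (L.weierstrassP w₁) (emb c * w₁)) *
        xu L u (L.weierstrassP w₁) z + xu L u (L.weierstrassP w₁) (emb c * w₁)) =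
      (xu L u (L.weierstrassP w₁) (emb c * w₂) - xu L u (L.weierstrassP w₁) (emb c * w₁)) *
        (σ (xu L u (L.weierstrassP w₁) z) - xu L u (L.weierstrassP w₁) z) := by
    rw [ha, hσX]
    unfold xu
    rw [hu]
    field_simp
    ring
  rw [e9, map_mul, hv1, one_mul]
  exact hs

end

end Pool.Agent.OBR


end

section

/-!
# OB, block GR (helper53): (DIC) good reduction or a far point of order two
-/

set_option autoImplicit false

namespace Pool.Agent.OBR

open _root_.MU3 Pool.Agent.MU3A Pool.Agent.MU3B Pool.Agent.RI Pool.Agent.MUX Pool.Agent.MUXU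
open Pool.Agent.NS Pool.Agent.NSR Pool.Agent.OB

noncomputable section

namespace DICx

/-- a far point, if the three distances are not equal -/
theorem far_of (h1 : So_TW3) (h3 : So_FRC) (V : ValuationSubring ℂ) (L : PeriodPair) (w₁ w₂ w₃ : ℂ)
    (h : Two3 L w₁ w₂ w₃)
    (hlt : V.valuation (L.weierstrassP w₂ - L.weierstrassP w₃) <
      V.valuation (L.weierstrassP w₁ - L.weierstrassP w₂))
    (heq : V.valuation (L.weierstrassP w₁ - L.weierstrassP w₂) =
      V.valuation (L.weierstrassP w₁ - L.weierstrassP w₃)) : ∃ w d, Far V L w d := by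
  obtain ⟨-, -, -, n12, n13, n23⟩ := (h1 L).2.2 w₁ w₂ w₃ h
  have h12 : V.valuation (L.weierstrassP w₁ - L.weierstrassP w₂) ≠ 0 :=
    (Valuation.ne_zero_iff _).2 (sub_ne_zero.2 n12)
  have h23 : V.valuation (L.weierstrassP w₂ - L.weierstrassP w₃) ≠ 0 :=
    (Valuation.ne_zero_iff _).2 (sub_ne_zero.2 n23)
  refine ⟨w₁, V.valuation (L.weierstrassP w₂ - L.weierstrassP w₃) /
    V.valuation (L.weierstrassP w₁ - L.weierstrassP w₂), h3 V L w₁ w₂ w₃ _ h ?_ ?_ heq ?_⟩
  · exact div_ne_zero h23 h12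
  · exact (div_lt_one₀ (zero_lt_iff.2 h12)).2 hlt
  · rw [div_mul_cancel₀ _ h12]

/-- the three distances of a labelling are equal, or there is a far point -/
theorem eq_or_far (h1 : So_TW3) (h3 : So_FRC) (V : ValuationSubring ℂ) (L : PeriodPair)
    (w₁ w₂ w₃ : ℂ) (h : Two3 L w₁ w₂ w₃) :
    (V.valuation (L.weierstrassP w₂ - L.weierstrassP w₃) =
      V.valuation (L.weierstrassP w₁ - L.weierstrassP w₃) ∧
     V.valuation (L.weierstrassP w₁ - L.weierstrassP w₂) =
      V.valuation (L.weierstrassP w₁ - L.weierstrassP w₃)) ∨ ∃ w d, Far V L w d := by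
  set e₁ := L.weierstrassP w₁ with he1
  set e₂ := L.weierstrassP w₂ with he2
  set e₃ := L.weierstrassP w₃ with he3
  have s1 : e₁ - e₂ = (e₁ - e₃) - (e₂ - e₃) := by ring
  rcases lt_trichotomy (V.valuation (e₂ - e₃)) (V.valuation (e₁ - e₃)) with hlt | heq | hgt
  · right
    have h4 : V.valuation (e₁ - e₂) = V.valuation (e₁ - e₃) := by
      rw [s1, Valuation.map_sub_eq_of_lt_left _ hlt]
    refine far_of h1 h3 V L w₁ w₂ w₃ h ?_ h4
    rw [← he1, ← he2, ← he3, h4]
    exact hlt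
  · by_cases hc : V.valuation (e₁ - e₂) = V.valuation (e₁ - e₃)
    · exact Or.inl ⟨heq, hc⟩
    · right
      have h4 : V.valuation (e₁ - e₂) ≤ V.valuation (e₁ - e₃) := by
        rw [s1]
        refine (Valuation.map_sub _ _ _).trans ?_
        rw [heq, max_self]
      have h5 := lt_of_le_of_ne h4 hc
      refine far_of h1 h3 V L w₃ w₁ w₂ h.rot.rot ?_ ?_
      · rw [← he1, ← he2, ← he3, V.valuation.map_sub_swap e₃ e₁]
        exact h5
      · rw [← he1, ← he2, ← he3, V.valuation.map_sub_swap e₃ e₁, V.valuation.map_sub_swap e₃ e₂]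
        exact heq.symm
  · right
    have h4 : V.valuation (e₁ - e₂) = V.valuation (e₂ - e₃) := by
      rw [s1, Valuation.map_sub_eq_of_lt_right _ hgt]
    refine far_of h1 h3 V L w₂ w₃ w₁ h.rot ?_ ?_
    · rw [← he1, ← he2, ← he3, V.valuation.map_sub_swap e₃ e₁]
      exact hgt
    · rw [← he1, ← he2, ← he3, V.valuation.map_sub_swap e₂ e₁, h4]

end DICx

open _root_.Pool.Agent.OBR.DICx in
theorem o_DIC (h1 : So_TW3) (h2 : So_LGE) (h3 : So_FRC) : So_DIC := by
  intro V L
  by_cases hF : ∃ w d, Far V L w d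
  · exact Or.inr hF
  left
  intro w₁ w₂ w₃ u h hu
  obtain ⟨-, -, -, n12, n13, n23⟩ := (h1 L).2.2 w₁ w₂ w₃ h
  obtain ⟨e1, e2⟩ := (eq_or_far h1 h3 V L w₁ w₂ w₃ h).resolve_right hF
  have hleg := h2 L w₁ w₂ w₃ u h hu
  have h12 : V.valuation (L.weierstrassP w₁ - L.weierstrassP w₂) ≠ 0 :=
    (Valuation.ne_zero_iff _).2 (sub_ne_zero.2 n12)
  refine ⟨hleg.u0, hleg.eq, ?_, ?_⟩
  · rw [map_div₀, V.valuation.map_sub_swap (L.weierstrassP w₃), V.valuation.map_sub_swap
      (L.weierstrassP w₂), ← e2, div_self h12]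
  · have h5 : 1 - (L.weierstrassP w₃ - L.weierstrassP w₁) / (L.weierstrassP w₂ - L.weierstrassP w₁) =
        (L.weierstrassP w₂ - L.weierstrassP w₃) / (L.weierstrassP w₂ - L.weierstrassP w₁) := by
      rw [eq_div_iff (sub_ne_zero.2 n12.symm), sub_mul, div_mul_cancel₀ _ (sub_ne_zero.2 n12.symm)]
      ring
    rw [h5, map_div₀, e1, V.valuation.map_sub_swap (L.weierstrassP w₂), ← e2, div_self h12]

end

end Pool.Agent.OBR


end

section

/-!
# OB, block GR, module FIN (helper37): the final statement of the block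
-/

set_option autoImplicit false

open WeierstrassCurve Polynomial

namespace Pool.Agent.OBR

open _root_.MU3 Pool.Agent.MU3A Pool.Agent.MU3B Pool.Agent.RI Pool.Agent.MUX Pool.Agent.MUXU
open Pool.Agent.NS Pool.Agent.NSR Pool.Agent.OB

noncomputable section

theorem o_FIN (h1 : So_GRD) (h2 : So_TW3) (h3 : So_RF2) (h4 : So_LIF) (h5 : So_FXX)
    (h6 : So_IN2) : So_FIN := by
  intro p er A B P V hC hT
  refine ⟨fun b L om hL => ?_, fun m hm hmP σ hσ hin y hy => ?_⟩
  · obtain ⟨w₁, w₂, w₃, hw⟩ := (h2 L).1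
    obtain ⟨u, hu⟩ : ∃ u : ℂ, u ^ 2 = L.weierstrassP w₂ - L.weierstrassP w₁ :=
      IsAlgClosed.exists_pow_nat_eq _ two_pos
    have m1 := h3 A B hC.cq b L om hL w₁ hw.n₁ hw.t₁
    have m2 := h3 A B hC.cq b L om hL w₂ hw.n₂ hw.t₂
    have m3 := h3 A B hC.cq b L om hL w₃ hw.n₃ hw.t₃
    refine ⟨u, _, _, h1 p er A B P V hC b L om hL.toIsLI w₁ w₂ w₃ u hw hu, ?_, m1, ?_⟩
    · rw [hu]
      exact sub_mem m2 m1
    · exact div_mem (sub_mem m3 m1) (sub_mem m2 m1)
  · have hP : P.IsPrime := hC.prime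
    have h2P : ¬ idl (A := A) (B := B) 2 ≤ P := fun h =>
      hC.two (h (Ideal.mem_span_singleton_self _))
    have hm'P : ¬ m * idl (A := A) (B := B) 2 ≤ P := fun h =>
      ((hP.mul_le).1 h).elim hmP h2P
    have hm' : m * idl (A := A) (B := B) 2 ≠ ⊥ := fun h => hm'P (by rw [h]; exact bot_le)
    obtain ⟨σ', hσ', hσσ, hσM⟩ := h4 p A B V hC.cq hC.pp hC.vp (RF m)
      (RF (m * idl (A := A) (B := B) 2)) (hT.fin m hm) (hT.gal m hm) (hT.fin _ hm') σ hσ
      (fun y hy hv => by
        rw [← ValuationSubring.mem_nonunits_iff]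
        exact hin y hy ((ValuationSubring.valuation_le_one_iff _ _).1 hv))
    rw [← hσσ y hy]
    refine h5 p er A B P V hC hT _ hm' hm'P Ideal.mul_le_right σ' hσ' hσM
      (h6 p er A B P V hC hT σ' hσ' fun y hy hv => hσM y (hT.mono _ _ Ideal.mul_le_right hy) hv)
      y (hT.mono _ _ Ideal.mul_le_left hy)

end

end Pool.Agent.OBR


end

section

/-!
# OB, block GR: FRC, criterion for a far point (helper63)
-/

set_option autoImplicit false

open WeierstrassCurve Polynomial

namespace Pool.Agent.OBR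

open _root_.MU3 Pool.Agent.MU3A Pool.Agent.MU3B Pool.Agent.RI Pool.Agent.MUX Pool.Agent.MUXU
open Pool.Agent.MUXV (GR InK tX)
open Pool.Agent.NS Pool.Agent.NSR Pool.Agent.OB

namespace FRCx

/-- `℘` at points congruent modulo the lattice. -/
theorem per (L : PeriodPair) {z w : ℂ} (h : z - w ∈ L.lattice) :
    L.weierstrassP z = L.weierstrassP w := by
  have h1 := L.weierstrassP_add_coe w ⟨z - w, h⟩
  have h2 : w + ((⟨z - w, h⟩ : L.lattice) : ℂ) = z := by
    show w + (z - w) = z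
    ring
  rw [h2] at h1
  exact h1

end FRCx

theorem o_FRC (hTW : So_TW3) : So_FRC := by
  intro V L w w₂ w₃ d h3 hd0 hd1 he hf
  obtain ⟨-, -, hT⟩ := hTW L
  obtain ⟨-, hcl, -, -, -, -⟩ := hT w w₂ w₃ h3
  refine ⟨h3.n₁, h3.t₁, hd0, hd1, fun w' w'' h => ?_⟩
  have hw' : ∀ z, z ∉ L.lattice → 2 * z ∈ L.lattice → w - z ∉ L.lattice →
      z - w₂ ∈ L.lattice ∨ z - w₃ ∈ L.lattice := by
    intro z hz h2z hzw
    rcases hcl z hz h2z with h4 | h4 | h4
    · exfalso
      apply hzw
      have := neg_mem h4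
      rwa [neg_sub] at this
    · exact Or.inl h4
    · exact Or.inr h4
  rcases hw' w' h.n₂ h.t₂ h.d₁₂ with h5 | h5 <;> rcases hw' w'' h.n₃ h.t₃ h.d₁₃ with h6 | h6
  · exfalso
    apply h.d₂₃
    have h7 := sub_mem h5 h6
    have h8 : w' - w₂ - (w'' - w₂) = w' - w'' := by ring
    rwa [h8] at h7
  · rw [FRCx.per L h5, FRCx.per L h6]
    exact hf
  · rw [FRCx.per L h5, FRCx.per L h6, ← he, ← hf]
    rw [← V.valuation.map_neg, neg_sub]
  · exfalso
    apply h.d₂₃
    have h7 := sub_mem h5 h6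
    have h8 : w' - w₃ - (w'' - w₃) = w' - w'' := by ring
    rwa [h8] at h7

end Pool.Agent.OBR


end

section

/-!
# OB, block GR: FRU, the far point is unique; homotheties (helper51)
-/

set_option autoImplicit false

open WeierstrassCurve Polynomial

namespace Pool.Agent.OBR

open _root_.MU3 Pool.Agent.MU3A Pool.Agent.MU3B Pool.Agent.RI Pool.Agent.MUX Pool.Agent.MUXU
open Pool.Agent.MUXV (GR InK tX)
open Pool.Agent.NS Pool.Agent.NSR Pool.Agent.OB

namespace FRUx

/-- `℘` at points congruent modulo the lattice. -/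
theorem per (L : PeriodPair) {z w : ℂ} (h : z - w ∈ L.lattice) :
    L.weierstrassP z = L.weierstrassP w := by
  have h1 := L.weierstrassP_add_coe w ⟨z - w, h⟩
  have h2 : w + ((⟨z - w, h⟩ : L.lattice) : ℂ) = z := by
    show w + (z - w) = z
    ring
  rw [h2] at h1
  exact h1

lemma sub_swap' {L : PeriodPair} {x y : ℂ} (h : x - y ∈ L.lattice) : y - x ∈ L.lattice := by
  have := neg_mem h
  rwa [neg_sub] at this

lemma exists_two3 (h1 : So_TW3) (L : PeriodPair) {T : ℂ} (hT : T ∉ L.lattice)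
    (h2T : 2 * T ∈ L.lattice) : ∃ x y, Two3 L T x y := by
  obtain ⟨⟨a₁, a₂, a₃, ha⟩, hb, -⟩ := h1 L
  by_cases hc : a₁ - T ∈ L.lattice
  · refine ⟨a₂, T + a₂, hb T a₂ hT h2T ha.n₂ ha.t₂ fun hk => ha.d₁₂ ?_⟩
    have := add_mem hc hk
    rwa [sub_add_sub_cancel] at this
  · refine ⟨a₁, T + a₁, hb T a₁ hT h2T ha.n₁ ha.t₁ fun hk => hc ?_⟩
    exact sub_swap' hk

/-- the two differences with the far point have the same value -/
lemma eqd {V : ValuationSubring ℂ} {L : PeriodPair} {w : ℂ} {d : V.ValueGroup}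
    (h : Far V L w d) {w₂ w₃ : ℂ} (h3 : Two3 L w w₂ w₃) :
    V.valuation (L.weierstrassP w - L.weierstrassP w₂) =
      V.valuation (L.weierstrassP w - L.weierstrassP w₃) := by
  have e1 := h.dist w₂ w₃ h3
  have e2 := h.dist w₃ w₂ h3.swap
  rw [← V.valuation.map_neg, neg_sub, e2] at e1
  exact (mul_left_cancel₀ h.d0 e1).symm

end FRUx

open _root_.Pool.Agent.OBR.FRUx in
theorem o_FRU (hTW : So_TW3) (hFRC : So_FRC) : So_FRU := by
  intro V L w d h
  obtain ⟨-, hadd, hT⟩ := hTW L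
  constructor
  · intro w' d' h'
    have hww : w' - w ∈ L.lattice := by
      by_contra hn
      have hn' : w - w' ∉ L.lattice := fun hk => hn (sub_swap' hk)
      have h3 := hadd w w' h.ne h.two h'.ne h'.two hn'
      have h4 : Two3 L w' w (w + w') := h3.rot.swap
      obtain ⟨-, -, -, hne, -, -⟩ := hT _ _ _ h3
      have e1 := eqd h h3
      have e2 := h'.dist w (w + w') h4
      have e3 : V.valuation (L.weierstrassP w' - L.weierstrassP w) =
          V.valuation (L.weierstrassP w - L.weierstrassP w') := by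
        rw [← V.valuation.map_neg, neg_sub]
      rw [← e1, e3] at e2
      have hD : V.valuation (L.weierstrassP w - L.weierstrassP w') ≠ 0 :=
        (V.valuation.ne_zero_iff).2 (sub_ne_zero.2 hne)
      have e4 : d' = 1 := by
        have e5 : 1 * V.valuation (L.weierstrassP w - L.weierstrassP w') =
            d' * V.valuation (L.weierstrassP w - L.weierstrassP w') := by
          rw [one_mul]; exact e2
        exact (mul_right_cancel₀ hD e5).symm
      exact absurd h'.lt (by rw [e4]; exact lt_irrefl _)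
    refine ⟨hww, ?_⟩
    obtain ⟨w₂, w₃, h3⟩ := exists_two3 hTW L h.ne h.two
    have key : ∀ z, w - z ∉ L.lattice → w' - z ∉ L.lattice := by
      intro z hz hk
      apply hz
      have := sub_mem hk hww
      rwa [sub_sub_sub_cancel_left, ← neg_sub, neg_sub] at this
    have h4 : Two3 L w' w₂ w₃ := ⟨h'.ne, h3.n₂, h3.n₃, h'.two, h3.t₂, h3.t₃,
      key _ h3.d₁₂, key _ h3.d₁₃, h3.d₂₃⟩
    have e1 := h.dist w₂ w₃ h3
    have e2 := h'.dist w₂ w₃ h4
    rw [per L hww, e1] at e2
    obtain ⟨-, -, -, hne, -, -⟩ := hT _ _ _ h3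
    have hD : V.valuation (L.weierstrassP w - L.weierstrassP w₂) ≠ 0 :=
      (V.valuation.ne_zero_iff).2 (sub_ne_zero.2 hne)
    exact (mul_right_cancel₀ hD e2).symm
  · intro L' c hc hL
    obtain ⟨w₂, w₃, h3⟩ := exists_two3 hTW L h.ne h.two
    obtain ⟨k1, -, -, -⟩ := ta_SCP L L' c hc hL
    have hm : ∀ z, 2 * z ∈ L.lattice → 2 * (c * z) ∈ L'.lattice := by
      intro z hz
      have := (hL _).1 hz
      rwa [mul_left_comm] at this
    have hs : ∀ x y, x - y ∉ L.lattice → c * x - c * y ∉ L'.lattice := by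
      intro x y hxy hk
      rw [← mul_sub] at hk
      exact hxy ((hL _).2 hk)
    have hn : ∀ z, z ∉ L.lattice → c * z ∉ L'.lattice := fun z hz hk => hz ((hL _).2 hk)
    have h4 : Two3 L' (c * w) (c * w₂) (c * w₃) := ⟨hn _ h3.n₁, hn _ h3.n₂, hn _ h3.n₃,
      hm _ h3.t₁, hm _ h3.t₂, hm _ h3.t₃, hs _ _ h3.d₁₂, hs _ _ h3.d₁₃, hs _ _ h3.d₂₃⟩
    have e1 := eqd h h3
    have e2 := h.dist w₂ w₃ h3
    refine hFRC V L' (c * w) (c * w₂) (c * w₃) d h4 h.d0 h.lt ?_ ?_
    · rw [k1, k1, k1, ← sub_div, ← sub_div, map_div₀, map_div₀, e1]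
    · rw [k1, k1, k1, ← sub_div, ← sub_div, map_div₀, map_div₀, e2, mul_div_assoc]

end Pool.Agent.OBR


end

section

/-!
# OB, block GR, module FXX: an element of the inertia group of `RF m`, `m` even and prime to `P`, which is trivial on `RF (2)`, is trivial on `RF m`
-/

set_option autoImplicit false

open WeierstrassCurve Polynomial

namespace Pool.Agent.OBR

open _root_.MU3 Pool.Agent.MU3A Pool.Agent.MU3B Pool.Agent.RI Pool.Agent.MUX Pool.Agent.MUXU
open Pool.Agent.MUXV (GR InK tX)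
open Pool.Agent.NS Pool.Agent.NSR Pool.Agent.OB

noncomputable section

namespace FXXx

variable {A B : ℤ}

/-- an automorphism which fixes `wC` fixes `k` -/
lemma fix_kk {σ : ℂ ≃+* ℂ} (hσ : FixK A B σ) : ∀ y ∈ kk A B, σ y = y := by
  intro y hy
  induction hy using IntermediateField.adjoin_induction with
  | mem x hx => rw [Set.mem_singleton_iff] at hx; rw [hx]; exact hσ
  | algebraMap x => simp
  | add x y _ _ hx hy => rw [map_add, hx, hy]
  | inv x _ hx => rw [map_inv₀, hx]
  | mul x y _ _ hx hy => rw [map_mul, hx, hy]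

/-- an automorphism which fixes `wC` fixes `O` -/
lemma fix_emb {σ : ℂ ≃+* ℂ} (hσ : FixK A B σ) (x : OO A B) : σ (emb x) = emb x := by
  have h1 : emb x = (x.re : ℂ) + (x.im : ℂ) * wC A B := rfl
  rw [h1, map_add, map_mul, map_intCast, map_intCast, hσ]

end FXXx

open _root_.Pool.Agent.OBR.FXXx in
/-- (FXX) -/
theorem o_FXX (h1 : So_GRD) (h2 : So_TW3) (h3 : So_RF2) (h4 : So_INJ) (h5 : So_INX) : So_FXX := by
  intro p er A B P V hC T m hm0 hmP hm2 σ hσ hin hfix
  have hcq := hC.cq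
  have key : ∀ (b : Ideal (OO A B)) (L : PeriodPair) (om : ℂ), IsNL b L om →
      σ (kap L) = kap L ∧ ∀ z, Tor m L z → z ∉ L.lattice → σ (xn L z) = xn L z := by
    intro b L om hL
    have hk : σ (kap L) = kap L :=
      hfix _ (IntermediateField.subset_adjoin _ _ ⟨b, L, om, hL, Or.inl rfl⟩)
    obtain ⟨⟨w₁, w₂, w₃, hw⟩, -, -⟩ := h2 L
    obtain ⟨u, hu2⟩ := IsAlgClosed.exists_pow_nat_eq
      (L.weierstrassP w₂ - L.weierstrassP w₁) (n := 2) two_pos
    have hg := h1 p er A B P V hC b L om hL.toIsLI w₁ w₂ w₃ u hw hu2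
    have m1 := h3 A B hcq b L om hL w₁ hw.n₁ hw.t₁
    have m2 := h3 A B hcq b L om hL w₂ hw.n₂ hw.t₂
    set e : ℂ := L.weierstrassP w₁ with hedef
    set lam : ℂ := (L.weierstrassP w₃ - e) / (L.weierstrassP w₂ - e) with hlam
    have he : σ e = e := hfix _ m1
    have hu : σ (u ^ 2) = u ^ 2 := by
      rw [hu2]
      exact hfix _ (sub_mem m2 m1)
    have hg2 : σ L.g₂ = L.g₂ := by
      have h6 : L.g₂ = (1728 * kap L + 1) / 12 := by
        unfold kap
        ring
      rw [h6]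
      simp only [map_div₀, map_add, map_mul, map_one, map_ofNat, hk]
    have hg3 : σ L.g₃ = L.g₃ := by
      have h6 : L.g₃ = -(1 / 18) * L.g₂ := by linear_combination (1 / 18) * hL.nrm
      rw [h6]
      simp only [map_div₀, map_mul, map_neg, map_one, map_ofNat, hg2]
    refine ⟨hk, fun z hz hzL => ?_⟩
    have hCj : IsCj σ L L := ⟨hg2.symm, hg3.symm⟩
    obtain ⟨Φ, hΦ⟩ := u_PHI σ L L hCj
    have hΦz : Φ z ∉ L.lattice := fun h => hzL ((hΦ.mem z).1 h)
    have hTΦ : Tor m L (Φ z) := fun x hx =>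
      ((u_TSN σ L L Φ hCj hΦ).2 (emb x) z (fun w hw' => hL.toIsLI.hasCM hcq x w hw')
        (fix_emb hσ x)).2 (hz x hx)
    have hX : xu L u e (Φ z) = σ (xu L u e z) := by
      rw [xu, xu, hΦ.P z hzL, map_div₀, map_sub, hu, he]
    have hle : V.valuation (xu L u e z) ≤ 1 :=
      (h4 p er A B P V hC b L om hL.toIsLI u e lam hg m hmP z hzL hz).1
    have hmono : RF (idl (A := A) (B := B) 2) ≤ RF m := T.mono _ _ hm2
    have hmem : xu L u e z ∈ RF m := by
      have hx : xn L z ∈ RF m :=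
        IntermediateField.subset_adjoin _ _ ⟨b, L, om, hL, Or.inr ⟨z, hz, hzL, rfl⟩⟩
      have h12 : (1 / 12 : ℂ) ∈ RF m := by simp
      have e1 : L.weierstrassP z = xn L z + 1 / 12 := by
        unfold xn
        ring
      have e2 : xu L u e z = (xn L z + 1 / 12 - e) / u ^ 2 := by rw [xu, e1]
      rw [e2, hu2]
      exact div_mem (sub_mem (add_mem hx h12) (hmono m1)) (sub_mem (hmono m2) (hmono m1))
    have hlt : V.valuation (xu L u e z - xu L u e (Φ z)) < 1 := by
      rw [hX, Valuation.map_sub_swap]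
      exact hin _ hmem hle
    have hP : L.weierstrassP (Φ z) = L.weierstrassP z := by
      rcases h5 p er A B P V hC b L om hL.toIsLI u e lam hg m hmP z (Φ z) hzL hΦz hz hTΦ hlt
        with h | h
      · have h7 : z = Φ z + ((⟨z - Φ z, h⟩ : L.lattice) : ℂ) := by
          show z = Φ z + (z - Φ z)
          ring
        have h8 := L.weierstrassP_add_coe (Φ z) ⟨z - Φ z, h⟩
        rw [← h7] at h8
        exact h8.symm
      · have h7 : Φ z = -z + ((⟨z + Φ z, h⟩ : L.lattice) : ℂ) := by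
          show Φ z = -z + (z + Φ z)
          ring
        rw [h7, L.weierstrassP_add_coe, L.weierstrassP_neg]
    have h6 := hΦ.P z hzL
    rw [hP] at h6
    rw [xn, map_sub, ← h6, map_div₀, map_one, map_ofNat]
  intro y hy
  induction hy using IntermediateField.adjoin_induction with
  | mem x hx =>
    obtain ⟨b, L, om, hL, h | ⟨z, hz, hzL, h⟩⟩ := hx
    · rw [h]; exact (key b L om hL).1
    · rw [h]; exact (key b L om hL).2 z hz hzL
  | algebraMap x => exact fix_kk hσ _ x.2
  | add x y _ _ hx hy => rw [map_add, hx, hy]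
  | inv x _ hx => rw [map_inv₀, hx]
  | mul x y _ _ hx hy => rw [map_mul, hx, hy]

end

end Pool.Agent.OBR


end

section

/-!
# OB, block GR, module GRL (helper20): good reduction of the Legendre form
-/

set_option autoImplicit false

open WeierstrassCurve Polynomial

namespace Pool.Agent.OBR

open _root_.MU3 Pool.Agent.MU3A Pool.Agent.MU3B Pool.Agent.RI Pool.Agent.MUX Pool.Agent.MUXU
open Pool.Agent.MUXV (GR InK tX)
open Pool.Agent.NS Pool.Agent.NSR Pool.Agent.OB

noncomputable section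

namespace GRLx

/-- the discriminant of the Legendre curve -/
theorem disc (lam : ℂ) : (WL lam).Δ = 2 ^ 4 * (lam ^ 2 * (lam - 1) ^ 2) := by
  simp only [WeierstrassCurve.Δ, WeierstrassCurve.b₂, WeierstrassCurve.b₄, WeierstrassCurve.b₆,
    WeierstrassCurve.b₈, WL]
  ring

end GRLx

theorem o_GRL (h : Sr_XIL) : So_GRL := by
  intro V L u e lam h2 hL
  obtain ⟨ξ, hk, hs, hp⟩ := h L u e lam hL.leg
  obtain ⟨hl, hl1⟩ := hL.unit
  refine ⟨ξ, ⟨⟨rfl, rfl, ?_, ?_, ?_⟩, h2, ?_, hp, fun z hz => (hk z).2 hz⟩, hs⟩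
  · show V.valuation (-(1 + lam)) ≤ 1
    rw [Valuation.map_neg]
    exact (V.valuation.map_add _ _).trans (max_le (by rw [map_one]) hl.le)
  · show V.valuation lam ≤ 1
    exact hl.le
  · show V.valuation (0 : ℂ) ≤ 1
    rw [map_zero]
    exact zero_le_one
  · rw [GRLx.disc, map_mul, map_mul, map_pow, map_pow, map_pow, h2, hl, hl1]
    simp

end

end Pool.Agent.OBR


end

section

/-!
# OB, block GR, module IN2: the inertia group of `RF (2)` is trivial
-/

set_option autoImplicit false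

open WeierstrassCurve Polynomial

namespace Pool.Agent.OBR

open _root_.MU3 Pool.Agent.MU3A Pool.Agent.MU3B Pool.Agent.RI Pool.Agent.MUX Pool.Agent.MUXU
open Pool.Agent.MUXV (GR InK tX)
open Pool.Agent.NS Pool.Agent.NSR Pool.Agent.OB

noncomputable section

namespace IN2x

variable {A B : ℤ}

/-- `σ` fixes `k` -/
lemma fix_k {σ : ℂ ≃+* ℂ} (hσ : FixK A B σ) : ∀ x ∈ kk A B, σ x = x := by
  intro x hx
  have hwC : σ (wC A B) = wC A B := hσ
  refine IntermediateField.adjoin_induction ℚ (p := fun x _ => σ x = x) ?_ ?_ ?_ ?_ ?_ hx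
  · intro y hy
    rw [Set.mem_singleton_iff] at hy
    rw [hy, hwC]
  · intro r
    rw [eq_ratCast, map_ratCast]
  · intro a b _ _ ha hb
    rw [map_add, ha, hb]
  · intro a _ ha
    rw [map_inv₀, ha]
  · intro a b _ _ ha hb
    rw [map_mul, ha, hb]

lemma pow_succ_apply (σ : ℂ ≃+* ℂ) (n : ℕ) (y : ℂ) :
    (σ ^ (n + 1) : ℂ ≃+* ℂ) y = σ ((σ ^ n : ℂ ≃+* ℂ) y) := by
  rw [pow_succ']
  rfl

lemma fix_pow {σ : ℂ ≃+* ℂ} (hσ : FixK A B σ) (n : ℕ) : FixK A B (σ ^ n) := by
  unfold FixK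
  induction n with
  | zero => rfl
  | succ n ih =>
    rw [pow_succ_apply, ih]
    exact hσ

/-- the restriction of `σ` to a normal extension of `k` -/
lemma exists_res {σ : ℂ ≃+* ℂ} (hσ : FixK A B σ) (F : IntermediateField (kk A B) ℂ)
    [Normal (kk A B) F] : ∃ τ : F ≃ₐ[kk A B] F, ∀ (n : ℕ) (y : F),
      (((τ ^ n : F ≃ₐ[kk A B] F) y : F) : ℂ) = (σ ^ n : ℂ ≃+* ℂ) (y : ℂ) := by
  let σK : ℂ ≃ₐ[kk A B] ℂ := AlgEquiv.ofRingEquiv (f := σ) (fun x => fix_k hσ x x.2)
  let τ : F ≃ₐ[kk A B] F := σK.restrictNormal F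
  have hτ : ∀ y : F, ((τ y : F) : ℂ) = σ (y : ℂ) := fun y =>
    AlgEquiv.restrictNormal_commutes σK F y
  refine ⟨τ, fun n => ?_⟩
  induction n with
  | zero => intro y; rfl
  | succ n ih =>
    intro y
    have h1 : (τ ^ (n + 1) : F ≃ₐ[kk A B] F) y = τ ((τ ^ n : F ≃ₐ[kk A B] F) y) := by
      rw [pow_succ']
      rfl
    rw [h1, hτ, ih, pow_succ_apply]

lemma ini_pow {V : ValuationSubring ℂ} {m : Ideal (OO A B)} {σ : ℂ ≃+* ℂ}
    (hres : ∀ (n : ℕ), ∀ y ∈ RF m, (σ ^ n : ℂ ≃+* ℂ) y ∈ RF m) (h : InI V m σ) (n : ℕ) :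
    InI V m (σ ^ n) := by
  induction n with
  | zero =>
    intro y _ _
    have h1 : (σ ^ 0 : ℂ ≃+* ℂ) y = y := rfl
    rw [h1, sub_self, map_zero]
    exact zero_lt_one
  | succ n ih =>
    intro y hy hv
    have h1 := ih y hy hv
    have h2 : V.valuation ((σ ^ n : ℂ ≃+* ℂ) y) ≤ 1 := by
      have h3 : (σ ^ n : ℂ ≃+* ℂ) y = ((σ ^ n : ℂ ≃+* ℂ) y - y) + y := by ring
      rw [h3]
      exact (V.valuation.map_add _ _).trans (max_le h1.le hv)
    have h4 := h _ (hres n y hy) h2
    have h5 : (σ ^ (n + 1) : ℂ ≃+* ℂ) y - y =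
        (σ ((σ ^ n : ℂ ≃+* ℂ) y) - (σ ^ n : ℂ ≃+* ℂ) y) + ((σ ^ n : ℂ ≃+* ℂ) y - y) := by
      rw [pow_succ_apply]
      ring
    rw [h5]
    exact lt_of_le_of_lt (V.valuation.map_add _ _) (max_lt h4 h1)

lemma idl_ne {M : ℕ} (h : M ≠ 0) (hc : CQ A B) : idl (A := A) (B := B) M ≠ ⊥ := by
  intro h1
  rw [Ideal.span_singleton_eq_bot] at h1
  exact natCast_ne_zero' hc h h1

/-- elements of `(q)` are mapped to zero -/
lemma phi_idl {q : ℕ} (φ : OO A B →+* ZMod q) {x : OO A B} (hx : x ∈ idl (A := A) (B := B) q) :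
    φ x = 0 := by
  obtain ⟨y, rfl⟩ := Ideal.mem_span_singleton'.1 hx
  rw [map_mul, map_natCast, ZMod.natCast_self, mul_zero]

end IN2x

open _root_.Pool.Agent.OBR.IN2x in
theorem o_IN2 (h1 : So_PSI) (h2 : So_KUB) (h3 : So_NSQ) : So_IN2 := by
  intro p er A B P V hc T σ hσ hI
  classical
  by_contra hcon
  have hcq := hc.cq
  obtain ⟨hn1, hn3, -⟩ := h3 A B hcq hc.ex3 hc.ex4
  have hbot : idl (A := A) (B := B) 2 ≠ ⊥ := idl_ne (by norm_num) hcq
  have hfin : FiniteDimensional (kk A B) (RF (idl (A := A) (B := B) 2)) := T.fin _ hbot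
  have hgal : IsGalois (kk A B) (RF (idl (A := A) (B := B) 2)) := T.gal _ hbot
  obtain ⟨τ, hτ⟩ := exists_res hσ (RF (idl (A := A) (B := B) 2))
  have hmem : ∀ (n : ℕ), ∀ y ∈ RF (idl (A := A) (B := B) 2),
      (σ ^ n : ℂ ≃+* ℂ) y ∈ RF (idl (A := A) (B := B) 2) := by
    intro n y hy
    have h := hτ n ⟨y, hy⟩
    rw [← h]
    exact Subtype.property _
  have htriv : ∀ n : ℕ, (∀ y ∈ RF (idl (A := A) (B := B) 2), (σ ^ n : ℂ ≃+* ℂ) y = y) ↔
      τ ^ n = 1 := by
    intro n
    constructor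
    · intro h
      refine AlgEquiv.ext fun y => Subtype.ext ?_
      rw [hτ n y]
      exact h y y.2
    · intro h y hy
      have h4 := hτ n ⟨y, hy⟩
      rw [h] at h4
      exact h4.symm
  have hord : 0 < orderOf τ := orderOf_pos τ
  have hne : orderOf τ ≠ 1 := by
    intro h
    apply hcon
    have h4 : τ ^ 1 = 1 := by
      rw [← h]
      exact pow_orderOf_eq_one τ
    have h5 := (htriv 1).2 h4
    rwa [pow_one] at h5
  set l := (orderOf τ).minFac with hl
  have hlp : l.Prime := Nat.minFac_prime hne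
  obtain ⟨d, hd⟩ := Nat.minFac_dvd (orderOf τ)
  rw [← hl] at hd
  have hd0 : 0 < d := by
    rcases Nat.eq_zero_or_pos d with h | h
    · rw [h, mul_zero] at hd
      omega
    · exact h
  have hρl : ∀ y ∈ RF (idl (A := A) (B := B) 2), ((σ ^ d) ^ l : ℂ ≃+* ℂ) y = y := by
    rw [← pow_mul, mul_comm d l, ← hd]
    exact (htriv _).2 (pow_orderOf_eq_one τ)
  have hρn : ¬ (∀ y ∈ RF (idl (A := A) (B := B) 2), (σ ^ d : ℂ ≃+* ℂ) y = y) := by
    intro h
    have h4 := orderOf_dvd_of_pow_eq_one ((htriv d).1 h)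
    have h5 := Nat.le_of_dvd hd0 h4
    have h6 := hlp.two_le
    nlinarith
  have key := h1 p er A B P V hc T l hlp (σ ^ d) (fix_pow hσ d) (ini_pow hmem hI d) hρl hρn
  by_cases hl2 : l = 2
  · obtain ⟨z, hz⟩ := h2 A B hcq {2, 3, p} (-1) (by
        have h := natCast_ne_zero' hcq (n := 1) one_ne_zero
        rw [Nat.cast_one] at h
        exact neg_ne_zero.2 h) (fun q hq hqS φ => by
      rw [Finset.mem_insert, Finset.mem_insert, Finset.mem_singleton] at hqS
      push Not at hqS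
      obtain ⟨c, hcc | hcc⟩ := key q hq hqS.1 hqS.2.1 hqS.2.2
      · refine ⟨φ c, ?_⟩
        have h := phi_idl φ hcc.2
        rw [map_add, map_pow, map_one] at h
        rw [map_neg, map_one]
        linear_combination -h
      · exact absurd (hl2.symm.trans hcc.1) (by norm_num))
    exact hn1 z hz.symm
  · by_cases hl3 : l = 3
    · obtain ⟨z, hz⟩ := h2 A B hcq {2, 3, p} (-3) (by
        have h := natCast_ne_zero' hcq (n := 3) (by norm_num)
        rw [Nat.cast_ofNat] at h
        exact neg_ne_zero.2 h) (fun q hq hqS φ => by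
        rw [Finset.mem_insert, Finset.mem_insert, Finset.mem_singleton] at hqS
        push Not at hqS
        obtain ⟨c, hcc | hcc⟩ := key q hq hqS.1 hqS.2.1 hqS.2.2
        · exact absurd hcc.1 hl2
        · have e3 : φ (-3) = -3 := by rw [map_neg, map_ofNat]
          rcases hcc.2 with h | h
          · refine ⟨2 * φ c + 1, ?_⟩
            have h' := phi_idl φ h
            rw [map_add, map_add, map_pow, map_one] at h'
            rw [e3]
            linear_combination -4 * h'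
          · refine ⟨2 * φ c - 1, ?_⟩
            have h' := phi_idl φ h
            rw [map_add, map_sub, map_pow, map_one] at h'
            rw [e3]
            linear_combination -4 * h')
      exact hn3 z hz.symm
    · obtain ⟨q, hq1, hq2⟩ := Nat.exists_infinite_primes (p + 4)
      obtain ⟨c, hcc | hcc⟩ := key q hq2 (by omega) (by omega) (by omega)
      · exact hl2 hcc.1
      · exact hl3 hcc.1

end

end Pool.Agent.OBR


end

section

/-!
# OB, block GR, module INJ: points of level prime to `P` have integral coordinates (helper23)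
-/

set_option autoImplicit false

open WeierstrassCurve Polynomial

namespace Pool.Agent.OBR

open _root_.MU3 Pool.Agent.MU3A Pool.Agent.MU3B Pool.Agent.RI Pool.Agent.MUX Pool.Agent.MUXU
open Pool.Agent.MUXV (GR InK tX)
open Pool.Agent.NS Pool.Agent.NSR Pool.Agent.OB

noncomputable section

namespace INJx

variable {p er : ℕ} {A B : ℤ} {P : Ideal (OO A B)} {V : ValuationSubring ℂ}

lemma nm_unit (h : CaseO p er A B P V) {x : OO A B} (hx : x ∉ P) (hx' : star x ∉ P) :
    ∃ n : ℕ, nm x = (n : ℤ) ∧ V.valuation (n : ℂ) = 1 := by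
  refine ⟨(nm x).toNat, (Int.toNat_of_nonneg (nm_nonneg h.cq x)).symm, h.vnat fun hd => ?_⟩
  obtain ⟨k, hk⟩ := hd
  have h1 : nm x = (p : ℤ) * k := by
    rw [← Int.toNat_of_nonneg (nm_nonneg h.cq x), hk]
    push_cast
    ring
  have h2 : x * star x ∈ P := by
    rw [mul_star, h1]
    have h3 : (((p : ℤ) * (k : ℤ) : ℤ) : OO A B) = (k : OO A B) * ((p : ℕ) : OO A B) := by
      push_cast
      ring
    rw [h3]
    exact P.mul_mem_left _ h.mem
  rcases h.prime.mem_or_mem h2 with h3 | h3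
  · exact hx h3
  · exact hx' h3

lemma v_y_le {L : PeriodPair} {u e lam : ℂ} (hG : GoodL V L u e lam) {z : ℂ}
    (hz : z ∉ L.lattice) (hX : V.valuation (xu L u e z) ≤ 1) :
    V.valuation (yu L u z) ≤ 1 := by
  have h1 : yu L u z ^ 2 = xu L u e z * (xu L u e z - 1) * (xu L u e z - lam) := hG.eq z hz
  have h2 : V.valuation (yu L u z) ^ 2 ≤ 1 := by
    rw [← map_pow, h1, map_mul, map_mul]
    refine mul_le_one' (mul_le_one' hX ?_) ?_
    · exact (V.valuation.map_sub _ _).trans (max_le hX (by rw [map_one]))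
    · exact (V.valuation.map_sub _ _).trans (max_le hX hG.vl.le)
  by_contra hc
  rw [not_le] at hc
  have h3 : 1 < V.valuation (yu L u z) ^ 2 := one_lt_pow₀ hc two_ne_zero
  exact absurd h2 (not_le.2 h3)

end INJx

open _root_.Pool.Agent.OBR.INJx in
theorem o_INJ (h1 : So_MLT) (h3 : Sr_TOR) : So_INJ := by
  intro p er A B P V h b L om hL u e lam hG m hm z hz ht
  obtain ⟨be, hbm, hbP⟩ : ∃ be ∈ m, be ∉ P := by
    by_contra hc
    push Not at hc
    exact hm hc
  have hcq := h.cq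
  have hcm := hL.hasCM hcq
  have hbe : emb be * z ∈ L.lattice := ht be hbm
  have hvbe : V.valuation (emb be) = 1 := h.vemb_one hbP
  have hX : V.valuation (xu L u e z) ≤ 1 := by
    by_cases hs : star be ∈ P
    · -- the conjugate is in `P`
      by_contra hc
      rw [not_le] at hc
      obtain ⟨t, htz, hvt, hst, htP⟩ : ∃ t : OO A B, emb t * z ∈ L.lattice ∧
          V.valuation (emb t) = 1 ∧ star t ∈ P ∧ 1 + (t + t) ∉ P := by
        by_cases h4 : 1 + (be + be) ∈ P
        · refine ⟨-be, ?_, ?_, ?_, fun h5 => ?_⟩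
          · rw [emb_neg hcq, neg_mul]
            exact neg_mem hbe
          · rw [emb_neg hcq, Valuation.map_neg]
            exact hvbe
          · rw [star_neg]
            exact P.neg_mem hs
          · have h6 := P.add_mem h4 h5
            have h7 : (1 + (be + be)) + (1 + (-be + -be)) = ((2 : ℕ) : OO A B) := by
              push_cast
              ring
            rw [h7] at h6
            exact h.two h6
        · exact ⟨be, hbe, hvbe, hs, h4⟩
      have hst' : star (1 + (t + t)) ∉ P := by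
        intro h5
        rw [star_add, star_add, star_one] at h5
        have h6 := P.sub_mem h5 (P.add_mem hst hst)
        rw [add_sub_cancel_right] at h6
        exact h.prime.ne_top ((Ideal.eq_top_iff_one _).2 h6)
      obtain ⟨n, hn, hvn⟩ := nm_unit h htP hst'
      have hodd : Odd n := by
        have h5 : (n : ℤ) = 2 * (2 * t.re + 2 * t.re ^ 2 + B * t.im * (1 + 2 * t.re) -
            2 * A * t.im ^ 2) + 1 := by
          rw [← hn]
          simp only [nm, QuadraticAlgebra.re_add, QuadraticAlgebra.im_add,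
            QuadraticAlgebra.re_one, QuadraticAlgebra.im_one]
          ring
        have h6 : Odd (n : ℤ) := ⟨_, h5⟩
        exact_mod_cast h6
      obtain ⟨-, -, h8⟩ := h1 A B V hcq h.v2 b L om hL u e lam hG _ n hn hodd hvn z hz hc
      have hw : emb t * z + emb t * z ∈ L.lattice := add_mem htz htz
      have h9 : emb (1 + (t + t)) * z = z + (emb t * z + emb t * z) := by
        rw [emb_add hcq, emb_add hcq, emb_one hcq]
        ring
      have hx9 : xu L u e (emb (1 + (t + t)) * z) = xu L u e z := by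
        rw [h9]
        unfold xu
        rw [L.weierstrassP_add_coe z ⟨_, hw⟩]
      have hy9 : yu L u (emb (1 + (t + t)) * z) = yu L u z := by
        rw [h9]
        unfold yu
        rw [L.derivWeierstrassP_add_coe z ⟨_, hw⟩]
      have h10 : tX (xu L u e) (yu L u) (emb (1 + (t + t)) * z) =
          tX (xu L u e) (yu L u) z := by
        unfold tX
        rw [hx9, hy9]
      rw [h10] at h8
      have h11 : tX (xu L u e) (yu L u) z - emb (1 + (t + t)) * tX (xu L u e) (yu L u) z =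
          -(2 * emb t * tX (xu L u e) (yu L u) z) := by
        rw [emb_add hcq, emb_add hcq, emb_one hcq]
        ring
      rw [h11, Valuation.map_neg, map_mul, map_mul, h.v2, hvt, one_mul, one_mul] at h8
      exact lt_irrefl _ h8
    · obtain ⟨n, hn, hvn⟩ := nm_unit h hbP hs
      have h5 : (n : ℂ) * z ∈ L.lattice := by
        have h6 : (n : ℂ) = emb (star be) * emb be := by
          rw [← emb_mul hcq, mul_comm, mul_star, hn, emb_intCast hcq]
          push_cast
          rfl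
        rw [h6, mul_assoc]
        exact hcm _ _ hbe
      exact (h3 V L u e lam h.v2 hG.vl.le hG.leg n hvn z hz h5).1
  exact ⟨hX, v_y_le hG hz hX⟩

end

end Pool.Agent.OBR


end

section

/-!
# OB, block GR, module IS2: far points of isogenous lattices, degree two (helper44)
-/

set_option autoImplicit false

open WeierstrassCurve Polynomial

namespace Pool.Agent.OBR

open _root_.MU3 Pool.Agent.MU3A Pool.Agent.MU3B Pool.Agent.RI Pool.Agent.MUX Pool.Agent.MUXU
open Pool.Agent.MUXV (GR InK tX)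
open Pool.Agent.NS Pool.Agent.NSR Pool.Agent.OB

noncomputable section

namespace IS2x

/-- periodicity -/
lemma wp_congr (L : PeriodPair) {z w : ℂ} (h : z - w ∈ L.lattice) :
    L.weierstrassP z = L.weierstrassP w := by
  have h1 := L.weierstrassP_add_coe w ⟨z - w, h⟩
  have h2 : w + ((⟨z - w, h⟩ : L.lattice) : ℂ) = z := by
    show w + (z - w) = z
    ring
  rw [h2] at h1
  exact h1

lemma sub_swap' {L : PeriodPair} {x y : ℂ} (h : x - y ∈ L.lattice) : y - x ∈ L.lattice := by
  have := neg_mem h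
  rwa [neg_sub] at this

lemma sub_trans' {L : PeriodPair} {x y z : ℂ} (h : x - y ∈ L.lattice) (h' : y - z ∈ L.lattice) :
    x - z ∈ L.lattice := by
  have := add_mem h h'
  rwa [sub_add_sub_cancel] at this

lemma exists_two3 (h1 : So_TW3) (L : PeriodPair) {T : ℂ} (hT : T ∉ L.lattice)
    (h2T : 2 * T ∈ L.lattice) : ∃ x y, Two3 L T x y := by
  obtain ⟨⟨a₁, a₂, a₃, ha⟩, hb, -⟩ := h1 L
  by_cases hc : a₁ - T ∈ L.lattice
  · refine ⟨a₂, T + a₂, hb T a₂ hT h2T ha.n₂ ha.t₂ fun hk => ha.d₁₂ ?_⟩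
    exact sub_trans' hc hk
  · refine ⟨a₁, T + a₁, hb T a₁ hT h2T ha.n₁ ha.t₁ fun hk => hc ?_⟩
    exact sub_swap' hk

section
variable {V : ValuationSubring ℂ}

lemma v4 (h2 : V.valuation (2 : ℂ) = 1) : V.valuation (4 : ℂ) = 1 := by
  have h3 : (4 : ℂ) = 2 * 2 := by norm_num
  rw [h3, map_mul, h2, one_mul]

/-- the two factors of `a² - b²` -/
lemma factors (h2 : V.valuation (2 : ℂ) = 1) {a b : ℂ} {d : V.ValueGroup}
    (ha : a ≠ 0) (hab : V.valuation a = V.valuation b)
    (h : V.valuation (a - b) * V.valuation (a + b) = d * V.valuation a ^ 2) :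
    (V.valuation (a - b) = d * V.valuation a ∧ V.valuation (a + b) = V.valuation a) ∨
    (V.valuation (a + b) = d * V.valuation a ∧ V.valuation (a - b) = V.valuation a) := by
  have h0 : V.valuation a ≠ 0 := (V.valuation.ne_zero_iff).2 ha
  have l1 : V.valuation (a - b) ≤ V.valuation a := by
    refine (V.valuation.map_sub _ _).trans (max_le le_rfl ?_)
    rw [hab]
  have l2 : V.valuation (a + b) ≤ V.valuation a := by
    refine (V.valuation.map_add _ _).trans (max_le le_rfl ?_)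
    rw [hab]
  have l3 : V.valuation a ≤ max (V.valuation (a + b)) (V.valuation (a - b)) := by
    have h3 : V.valuation ((a + b) - (a - b)) = V.valuation a := by
      have h4 : (a + b) - (a - b) = 2 * b := by ring
      rw [h4, map_mul, h2, one_mul, hab]
    rw [← h3]
    exact V.valuation.map_sub _ _
  rcases le_max_iff.1 l3 with k | k
  · left
    have h5 := le_antisymm l2 k
    refine ⟨?_, h5⟩
    rw [h5, pow_two, ← mul_assoc] at h
    exact mul_right_cancel₀ h0 h
  · right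
    have h5 := le_antisymm l1 k
    refine ⟨?_, h5⟩
    rw [h5, mul_comm, pow_two, ← mul_assoc] at h
    exact mul_right_cancel₀ h0 h

end

/-- the first case: `w` is congruent to `T` -/
lemma case1 (h1 : So_TW3) (h2 : So_FRC) (h3 : So_FRU) (h4 : So_ISV)
    (V : ValuationSubring ℂ) (L M : PeriodPair) (w T : ℂ) (d : V.ValueGroup)
    (hv : V.valuation (2 : ℂ) = 1) (hF : Far V L w d) (hT : T ∉ L.lattice)
    (h2T : 2 * T ∈ L.lattice)
    (hM : ∀ z, z ∈ M.lattice ↔ z ∈ L.lattice ∨ z - T ∈ L.lattice) (hw : w - T ∈ L.lattice) :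
    (∃ w', Far V M w' (d ^ 2)) ∧ ∀ w' d', Far V M w' d' →
      ∀ t, t ∉ L.lattice → 2 * t ∈ L.lattice → t - T ∉ L.lattice → t - w' ∉ M.lattice := by
  obtain ⟨w₁, w₂, hT3⟩ := exists_two3 h1 L hT h2T
  have hw3 : Two3 L w w₁ w₂ :=
    ⟨hF.ne, hT3.n₂, hT3.n₃, hF.two, hT3.t₂, hT3.t₃,
      fun k => hT3.d₁₂ (sub_trans' (sub_swap' hw) k),
      fun k => hT3.d₁₃ (sub_trans' (sub_swap' hw) k), hT3.d₂₃⟩
  have e1 := hF.dist _ _ hw3
  have e2 := hF.dist _ _ hw3.swap
  rw [Valuation.map_sub_swap, e1] at e2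
  have e3 := mul_left_cancel₀ hF.d0 e2
  obtain ⟨m12, y₀, y₁, a, b, hY, qa, qb, r0, r1, r2⟩ := h4 L M T w₁ w₂ hT3 hM
  have hPT : L.weierstrassP w = L.weierstrassP T := wp_congr L hw
  rw [hPT] at e1 e3
  have va : V.valuation a ^ 2 = V.valuation (L.weierstrassP T - L.weierstrassP w₁) := by
    rw [← map_pow, qa, Valuation.map_sub_swap]
  have vb : V.valuation b ^ 2 = V.valuation (L.weierstrassP T - L.weierstrassP w₂) := by
    rw [← map_pow, qb, Valuation.map_sub_swap]
  have hab : V.valuation a = V.valuation b := by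
    have h5 : V.valuation a ^ 2 = V.valuation b ^ 2 := by rw [va, vb, e3]
    exact (pow_left_inj₀ zero_le zero_le two_ne_zero).1 h5
  have ha0 : a ≠ 0 := by
    rintro rfl
    obtain ⟨-, -, -, k1, -, -⟩ := (h1 L).2.2 T w₁ w₂ hT3
    apply k1
    have h6 : L.weierstrassP w₁ - L.weierstrassP T = 0 := by
      rw [← qa]
      ring
    exact (sub_eq_zero.1 h6).symm
  have hprod : V.valuation (a - b) * V.valuation (a + b) = d * V.valuation a ^ 2 := by
    rw [va, ← e1, ← map_mul]
    have h7 : (a - b) * (a + b) = L.weierstrassP w₁ - L.weierstrassP w₂ := by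
      linear_combination qa - qb
    rw [h7]
  have h40 : V.valuation (4 * (a * b)) = V.valuation a ^ 2 := by
    rw [map_mul, map_mul, v4 hv, one_mul, ← hab, pow_two]
  have hd2 : d ^ 2 ≠ 0 := pow_ne_zero 2 hF.d0
  have hd1 : d ^ 2 < 1 := pow_lt_one₀ zero_le hF.lt two_ne_zero
  have key : ∃ y, Far V M y (d ^ 2) ∧ w₁ - y ∉ M.lattice := by
    rcases factors hv ha0 hab hprod with ⟨f1, f2⟩ | ⟨f1, f2⟩
    · refine ⟨y₁, h2 V M y₁ w₁ y₀ (d ^ 2) hY.rot.rot hd2 hd1 ?_ ?_, hY.d₁₃⟩
      · rw [Valuation.map_sub_swap, r1, map_pow, f2,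
          Valuation.map_sub_swap V.valuation (M.weierstrassP y₁), r2, h40]
      · rw [r0, map_pow, f1, Valuation.map_sub_swap V.valuation (M.weierstrassP y₁), r1, map_pow,
          f2, mul_pow]
    · refine ⟨y₀, h2 V M y₀ w₁ y₁ (d ^ 2) hY.rot.swap hd2 hd1 ?_ ?_, hY.d₁₂⟩
      · rw [Valuation.map_sub_swap, r0, map_pow, f2, r2, h40]
      · rw [r1, map_pow, f1, Valuation.map_sub_swap V.valuation (M.weierstrassP y₀), r0, map_pow,
          f2, mul_pow]
  obtain ⟨y, hy, hwy⟩ := key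
  refine ⟨⟨y, hy⟩, ?_⟩
  intro w' d' hF' t ht h2t htT hk
  obtain ⟨g1, -⟩ := (h3 V M y (d ^ 2) hy).1 w' d' hF'
  obtain ⟨-, g2, -⟩ := (h1 L).2.2 T w₁ w₂ hT3
  have g3 : t - w₁ ∈ M.lattice := by
    rcases g2 t ht h2t with k | k | k
    · exact absurd k htT
    · exact (hM _).2 (Or.inl k)
    · exact sub_trans' ((hM _).2 (Or.inl k)) (sub_swap' m12)
  exact hwy (sub_trans' (sub_swap' g3) (sub_trans' hk g1))

/-- the second case: `w` is not congruent to `T` -/
lemma case2 (h1 : So_TW3) (h2 : So_FRC) (h4 : So_ISV)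
    (V : ValuationSubring ℂ) (L M : PeriodPair) (w T : ℂ) (d : V.ValueGroup)
    (hv : V.valuation (2 : ℂ) = 1) (hF : Far V L w d) (hT : T ∉ L.lattice)
    (h2T : 2 * T ∈ L.lattice)
    (hM : ∀ z, z ∈ M.lattice ↔ z ∈ L.lattice ∨ z - T ∈ L.lattice) (hw : w - T ∉ L.lattice) :
    ∃ d', d' ^ 2 = d ∧ Far V M w d' := by
  have hT3 : Two3 L T w (T + w) :=
    (h1 L).2.1 T w hT h2T hF.ne hF.two fun k => hw (sub_swap' k)
  obtain ⟨-, -, -, k1, -, -⟩ := (h1 L).2.2 T w (T + w) hT3
  obtain ⟨-, y₀, y₁, a, b, hY, qa, qb, r0, r1, r2⟩ := h4 L M T w (T + w) hT3 hM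
  have hw3 : Two3 L w T (T + w) := hT3.rot.swap
  have e1 := hF.dist _ _ hw3
  have ha0 : a ≠ 0 := by
    rintro rfl
    apply k1
    have h6 : L.weierstrassP w - L.weierstrassP T = 0 := by
      rw [← qa]
      ring
    exact (sub_eq_zero.1 h6).symm
  have hva : V.valuation a ≠ 0 := (V.valuation.ne_zero_iff).2 ha0
  have hb2 : V.valuation b ^ 2 = d * V.valuation a ^ 2 := by
    rw [← map_pow, ← map_pow, qb, qa, Valuation.map_sub_swap, e1]
  have hdd : (V.valuation b / V.valuation a) ^ 2 = d := by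
    rw [div_pow, hb2, mul_div_assoc, div_self (pow_ne_zero 2 hva), mul_one]
  have hd0 : V.valuation b / V.valuation a ≠ 0 := by
    intro h
    rw [h, zero_pow two_ne_zero] at hdd
    exact hF.d0 hdd.symm
  have hd1 : V.valuation b / V.valuation a < 1 := by
    by_contra h
    rw [not_lt] at h
    have h7 : 1 ≤ d := by
      rw [← hdd]
      exact one_le_pow₀ h
    exact absurd hF.lt (not_lt.2 h7)
  have hlt : V.valuation b < V.valuation a := by
    rwa [div_lt_one₀ (zero_lt_iff.2 hva)] at hd1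
  have s1 : V.valuation (a - b) = V.valuation a := V.valuation.map_sub_eq_of_lt_left hlt
  have s2 : V.valuation (a + b) = V.valuation a := V.valuation.map_add_eq_of_lt_left hlt
  refine ⟨_, hdd, h2 V M w y₀ y₁ _ hY hd0 hd1 ?_ ?_⟩
  · rw [r0, r1, map_pow, map_pow, s1, s2]
  · rw [r2, r0, map_mul, map_mul, v4 hv, one_mul, map_pow, s1, pow_two, ← mul_assoc,
      div_mul_cancel₀ _ hva, mul_comm]

end IS2x

theorem o_IS2 (h1 : So_TW3) (h2 : So_FRC) (h3 : So_FRU) (h4 : So_ISV) : So_IS2 := by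
  intro V L M w T d hv hF hT h2T hM
  exact ⟨fun hw => IS2x.case1 h1 h2 h3 h4 V L M w T d hv hF hT h2T hM hw,
    fun hw => IS2x.case2 h1 h2 h4 V L M w T d hv hF hT h2T hM hw⟩

end

end Pool.Agent.OBR


end

section

/-!
# OB, block GR: module ISO (integral formulas for isogenies in good Legendre form)
-/

set_option autoImplicit false

open WeierstrassCurve Polynomial

namespace Pool.Agent.OBR

open _root_.MU3 Pool.Agent.MU3A Pool.Agent.MU3B Pool.Agent.RI Pool.Agent.MUX Pool.Agent.MUXU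
open Pool.Agent.MUXV (GR InK tX)
open Pool.Agent.NS Pool.Agent.NSR Pool.Agent.OB

noncomputable section

namespace ISOx

lemma int_iff (V : ValuationSubring ℂ) (p : ℂ[X]) :
    (∀ i, V.valuation (p.coeff i) ≤ 1) ↔ p ∈ Polynomial.lifts V.subtype := by
  rw [Polynomial.lifts_iff_coeff_lifts]
  refine forall_congr' fun i => ?_
  rw [ValuationSubring.valuation_le_one_iff]
  constructor
  · intro h
    exact ⟨⟨_, h⟩, rfl⟩
  · rintro ⟨x, hx⟩
    rw [← hx]
    exact x.2

lemma C_mem {V : ValuationSubring ℂ} {a : ℂ} (h : V.valuation a ≤ 1) :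
    (C a : ℂ[X]) ∈ Polynomial.lifts V.subtype := by
  rw [ValuationSubring.valuation_le_one_iff] at h
  exact Polynomial.C_mem_lifts V.subtype ⟨a, h⟩

lemma X_sub_mem {V : ValuationSubring ℂ} {a : ℂ} (h : V.valuation a ≤ 1) :
    (X - C a : ℂ[X]) ∈ Polynomial.lifts V.subtype := by
  have h1 : (X - C a : ℂ[X]) = X + C (-a) := by rw [C_neg, sub_eq_add_neg]
  rw [h1]
  exact add_mem (Polynomial.X_mem_lifts _) (C_mem (by rwa [Valuation.map_neg]))

lemma unit_nu (h1 : So_SCL) (h4 : Pool.Agent.MUXV.Sx_MUN) {V : ValuationSubring ℂ}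
    {L M : PeriodPair} {u e lam u' e' lam' mu : ℂ} {n : ℕ}
    (v2 : V.valuation (2 : ℂ) = 1) (hL : GoodL V L u e lam) (hM : GoodL V M u' e' lam')
    (hmu : mu ≠ 0)
    (hI : Isg L M mu) (hodd : Odd n) (hvn : V.valuation (n : ℂ) = 1)
    (hker : ∀ z, mu * z ∈ M.lattice → n * z ∈ L.lattice) :
    V.valuation (mu * u' / u) = 1 := by
  obtain ⟨L₁, hL1, -, -, gL⟩ := h1 V L u e lam v2 hL
  obtain ⟨M₁, hM1, -, -, gM⟩ := h1 V M u' e' lam' v2 hM
  have hu := hL.u0
  have hu' := hM.u0
  refine h4 V L₁ M₁ (e / u ^ 2) (e' / u' ^ 2) (mu * u' / u) n gL gM ?_ ?_ hodd hvn ?_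
  · exact div_ne_zero (mul_ne_zero hmu hu') hu
  · intro w hw
    have h : w = u * (w / u) := by field_simp
    have h2 : w / u ∈ L.lattice := (hL1 _).2 (by rwa [← h])
    have h3 := (hM1 _).1 (hI _ h2)
    have h5 : u' * (mu * (w / u)) = mu * u' / u * w := by field_simp
    rwa [h5] at h3
  · intro z hz
    have h : mu * u' / u * z = u' * (mu * (z / u)) := by field_simp
    rw [h, ← hM1] at hz
    have h3 := (hL1 _).1 (hker _ hz)
    have h5 : u * (n * (z / u)) = n * z := by field_simp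
    rwa [h5] at h3

lemma cancel_eval {P₁ P₂ P₃ : ℂ[X]} (h3 : P₃ ≠ 0)
    (h : ∀ x, P₁.eval x * P₃.eval x = P₂.eval x * P₃.eval x) : P₁ = P₂ := by
  refine mul_right_cancel₀ h3 (Polynomial.funext fun x => ?_)
  rw [eval_mul, eval_mul]
  exact h x

end ISOx

open _root_.Pool.Agent.OBR.ISOx in
theorem o_ISO (h1 : So_SCL) (h2 : Sr_TOR) (h3 : Sr_LGF) (h4 : Pool.Agent.MUXV.Sx_MUN) :
    So_ISO := by
  intro V L M u e lam u' e' lam' mu n v2 hL hM hmu hI hodd hvn hker R hR
  have hu := hL.u0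
  have hu' := hM.u0
  have hnu := unit_nu h1 h4 v2 hL hM hmu hI hodd hvn hker
  have hxq : ∀ q ∈ R, V.valuation (xu L u e q) ≤ 1 := fun q hq =>
    (h2 V L u e lam v2 hL.vl.le hL.leg n hvn q (hR.ne q hq) (hker q (hR.mem q hq))).1
  refine ⟨hnu, hxq, ?_⟩
  obtain ⟨A₀, hA0, hdeg, -, hiso⟩ := u_ISO L M mu R hmu hI hR
  set B₀ : ℂ[X] := C (mu ^ 2) * ∏ q ∈ R, (X - C (L.weierstrassP q)) with hB0
  set Q : ℂ[X] := C (u ^ 2) * X + C e with hQ
  have hu2 : u ^ 2 ≠ 0 := pow_ne_zero 2 hu
  -- the coordinates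
  have hxe : ∀ z, u ^ 2 * xu L u e z + e = L.weierstrassP z := by
    intro z
    unfold xu
    field_simp
    ring
  have hQe : ∀ z, Q.eval (xu L u e z) = L.weierstrassP z := by
    intro z
    rw [hQ, eval_add, eval_mul, eval_C, eval_X, eval_C, hxe]
  -- the polynomial `B`
  have hB : C ((mu * u' / u) ^ 2) * ∏ q ∈ R, (X - C (xu L u e q)) =
      C (u' ^ 2 * ((u ^ 2) ^ (R.card + 1))⁻¹) * B₀.comp Q := by
    have h5 : B₀.comp Q = C (mu ^ 2) * C (u ^ 2) ^ R.card * ∏ q ∈ R, (X - C (xu L u e q)) := by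
      rw [hB0, mul_comp, C_comp, prod_comp]
      have h6 : ∀ q ∈ R, (X - C (L.weierstrassP q) : ℂ[X]).comp Q =
          C (u ^ 2) * (X - C (xu L u e q)) := by
        intro q _
        rw [sub_comp, X_comp, C_comp, hQ, ← hxe q, C_add, C_mul, mul_sub]
        ring
      rw [Finset.prod_congr rfl h6, Finset.prod_mul_distrib, Finset.prod_const, mul_assoc]
    rw [h5, ← C_pow, ← C_mul, ← mul_assoc, ← C_mul]
    congr 2
    rw [pow_succ (u ^ 2) R.card]
    field_simp
  rw [hB]
  set κ : ℂ := ((u ^ 2) ^ (R.card + 1))⁻¹ with hκ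
  clear_value B₀ Q
  have hκ0 : κ ≠ 0 := inv_ne_zero (pow_ne_zero _ hu2)
  -- degrees
  have hQd : Q.natDegree = 1 := by
    rw [hQ]
    exact natDegree_linear hu2
  have hQl : Q.leadingCoeff = u ^ 2 := by
    rw [hQ]
    exact leadingCoeff_linear hu2
  have hB0d : B₀.natDegree ≤ R.card := by
    rw [hB0]
    refine (natDegree_C_mul_le _ _).trans ?_
    rw [natDegree_prod_of_monic _ _ (fun q _ => monic_X_sub_C _)]
    simp
  have hA1d : (A₀ - C e' * B₀).natDegree = R.card + 1 := by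
    rw [natDegree_sub_eq_left_of_natDegree_lt, hdeg]
    refine lt_of_le_of_lt ((natDegree_C_mul_le _ _).trans hB0d) ?_
    rw [hdeg]
    exact Nat.lt_succ_self _
  have hA1m : (A₀ - C e' * B₀).Monic := by
    refine hA0.sub_of_left ?_
    refine degree_lt_degree ?_
    refine lt_of_le_of_lt ((natDegree_C_mul_le _ _).trans hB0d) ?_
    rw [hdeg]
    exact Nat.lt_succ_self _
  have hAm : (C κ * (A₀ - C e' * B₀).comp Q).Monic := by
    show leadingCoeff _ = 1
    rw [leadingCoeff_mul, leadingCoeff_C, leadingCoeff_comp (by rw [hQd]; exact one_ne_zero),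
      hA1m.leadingCoeff, hQl, hA1d, one_mul, hκ]
    exact inv_mul_cancel₀ (pow_ne_zero _ hu2)
  have hAd : (C κ * (A₀ - C e' * B₀).comp Q).natDegree = R.card + 1 := by
    rw [natDegree_C_mul hκ0, natDegree_comp, hA1d, hQd, mul_one]
  -- the two formulas
  have hzL : ∀ z, mu * z ∉ M.lattice → z ∉ L.lattice := fun z h h' => h (hI z h')
  have f1 : ∀ z, mu * z ∉ M.lattice →
      xu M u' e' (mu * z) * (C (u' ^ 2 * κ) * B₀.comp Q).eval (xu L u e z) =
        (C κ * (A₀ - C e' * B₀).comp Q).eval (xu L u e z) := by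
    intro z hz
    simp only [eval_mul, eval_C, eval_comp, hQe, eval_sub, ← hiso.P z (hzL z hz) hz]
    unfold xu
    field_simp
  have f2 : ∀ z, mu * z ∉ M.lattice →
      mu * u' / u * yu M u' (mu * z) *
          (C (u' ^ 2 * κ) * B₀.comp Q).eval (xu L u e z) ^ 2 =
        (derivative (C κ * (A₀ - C e' * B₀).comp Q) * (C (u' ^ 2 * κ) * B₀.comp Q) -
          (C κ * (A₀ - C e' * B₀).comp Q) * derivative (C (u' ^ 2 * κ) * B₀.comp Q)).eval
            (xu L u e z) * yu L u z := by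
    intro z hz
    have h5 := u_DER L M mu A₀ B₀ hiso z (hzL z hz) hz
    have hQ' : derivative Q = C (u ^ 2) := by
      rw [hQ]
      simp
    rw [derivative_C_mul, derivative_C_mul, derivative_comp, derivative_comp, hQ']
    simp only [eval_sub, eval_mul, eval_C, eval_comp, hQe, derivative_sub, derivative_C_mul] at h5 ⊢
    unfold yu
    have h6 : mu * u' / u * (M.derivWeierstrassP (mu * z) / (2 * u' ^ 3)) *
        (u' ^ 2 * κ * eval (L.weierstrassP z) B₀) ^ 2 =
        (u' ^ 2 * κ ^ 2 / (2 * u)) * (mu * M.derivWeierstrassP (mu * z) *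
          eval (L.weierstrassP z) B₀ ^ 2) := by
      field_simp
    rw [h6, h5]
    field_simp
    ring
  refine ⟨C κ * (A₀ - C e' * B₀).comp Q, hAm, hAd, ?_, fun z hz => ⟨f1 z hz, f2 z hz⟩⟩
  -- integrality
  obtain ⟨-, -, -, -, -, ⟨w, hw, hw2, hwe⟩, -⟩ := h3 L u e lam hL.leg
  obtain ⟨k, hk⟩ := hodd
  have hmw : mu * w ∉ M.lattice := by
    intro h
    have h5 := hker w h
    apply hw
    have h6 : w = n * w - k • (2 * w) := by
      rw [hk, nsmul_eq_mul]
      push_cast
      ring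
    rw [h6]
    exact sub_mem h5 (nsmul_mem hw2 k)
  have hwq : ∀ q ∈ R, w + q ∉ L.lattice := by
    intro q hq h
    apply hmw
    have h5 : mu * w = mu * (w + q) - mu * q := by ring
    rw [h5]
    exact sub_mem (hI _ h) (hR.mem q hq)
  have hXwq : ∀ q ∈ R, V.valuation (xu L u e (w + q)) ≤ 1 := by
    intro q hq
    refine (h2 V L u e lam v2 hL.vl.le hL.leg (2 * n) ?_ (w + q) (hwq q hq) ?_).1
    · rw [Nat.cast_mul, map_mul, hvn, mul_one, Nat.cast_ofNat, v2]
    · have h5 : ((2 * n : ℕ) : ℂ) * (w + q) = n • (2 * w) + 2 • (n * q) := by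
        rw [nsmul_eq_mul, nsmul_eq_mul]
        push_cast
        ring
      rw [h5]
      exact add_mem (nsmul_mem hw2 n) (nsmul_mem (hker q (hR.mem q hq)) 2)
  have hXw : xu L u e w = 0 := by
    unfold xu
    rw [hwe, sub_self, zero_div]
  have hXmw : V.valuation (xu M u' e' (mu * w)) ≤ 1 := by
    refine (h2 V M u' e' lam' v2 hM.vl.le hM.leg 2 (by rw [Nat.cast_ofNat, v2]) (mu * w) hmw ?_).1
    have h5 := hI _ hw2
    have h6 : ((2 : ℕ) : ℂ) * (mu * w) = mu * (2 * w) := by
      push_cast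
      ring
    rwa [h6]
  have hprodV : C ((mu * u' / u) ^ 2) * ∏ q ∈ R, (X - C (xu L u e q)) ∈
      Polynomial.lifts V.subtype := by
    refine mul_mem (C_mem ?_) (prod_mem fun q hq => X_sub_mem (hxq q hq))
    rw [map_pow, hnu, one_pow]
  -- the polynomial identity
  have hid : C κ * (A₀ - C e' * B₀).comp Q =
      C (xu M u' e' (mu * w)) * (C (u' ^ 2 * κ) * B₀.comp Q) +
        (X - C (xu L u e w)) * ∏ q ∈ R, (X - C (xu L u e (w + q))) := by
    have hm : (∏ q ∈ R, (X - C (xu L u e q)) : ℂ[X]) ≠ 0 :=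
      (monic_prod_of_monic _ _ (fun q _ => monic_X_sub_C _)).ne_zero
    refine cancel_eval hm fun x => ?_
    obtain ⟨z, hz, hzx⟩ := b_SUR L (u ^ 2 * x + e)
    have hx : x = xu L u e z := by
      unfold xu
      rw [hzx]
      field_simp
      ring
    by_cases hmz : mu * z ∈ M.lattice
    · obtain ⟨q, hq, hqz⟩ := hR.surj z hmz hz
      have h5 : (∏ q ∈ R, (X - C (xu L u e q)) : ℂ[X]).eval x = 0 := by
        rw [eval_prod]
        refine Finset.prod_eq_zero hq ?_
        rw [eval_sub, eval_X, eval_C, hx]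
        unfold xu
        have h6 : L.weierstrassP z = L.weierstrassP q := by
          have h7 := L.weierstrassP_add_coe q ⟨z - q, hqz⟩
          rw [← h7]
          congr 1
          simp
        rw [h6, sub_self]
      rw [h5, mul_zero, mul_zero]
    · congr 1
      rw [eval_add, hx, ← f1 z hmz, ← hB]
      have h5 := u_PFI L M mu R hmu hI hR w hmw z hmz
      have h6 : ∀ y : ℂ, L.weierstrassP z - L.weierstrassP y =
          u ^ 2 * (xu L u e z - xu L u e y) := by
        intro y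
        rw [← hxe z, ← hxe y]
        ring
      have h7 : M.weierstrassP (mu * z) - M.weierstrassP (mu * w) =
          u' ^ 2 * (xu M u' e' (mu * z) - xu M u' e' (mu * w)) := by
        unfold xu
        field_simp
        ring
      simp only [h6, h7, Finset.prod_mul_distrib, Finset.prod_const] at h5
      have h8 : mu ^ 2 * (u' ^ 2 * (xu M u' e' (mu * z) - xu M u' e' (mu * w))) *
          ∏ q ∈ R, (xu L u e z - xu L u e q) =
          u ^ 2 * (xu L u e z - xu L u e w) * ∏ q ∈ R, (xu L u e z - xu L u e (w + q)) := by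
        have h9 : (u ^ 2) ^ R.card ≠ 0 := pow_ne_zero _ hu2
        refine mul_left_cancel₀ h9 ?_
        linear_combination h5
      simp only [eval_mul, eval_C, eval_prod, eval_sub, eval_X]
      have h10 : (xu L u e z - xu L u e w) * ∏ q ∈ R, (xu L u e z - xu L u e (w + q)) =
          (mu ^ 2 * (u' ^ 2 * (xu M u' e' (mu * z) - xu M u' e' (mu * w))) *
          ∏ q ∈ R, (xu L u e z - xu L u e q)) / u ^ 2 := by
        rw [h8]
        field_simp
      rw [h10]
      field_simp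
      ring
  rw [int_iff, hid, ← hB]
  refine add_mem (mul_mem (C_mem hXmw) hprodV) (mul_mem (X_sub_mem ?_)
    (prod_mem fun q hq => X_sub_mem (hXwq q hq)))
  rw [hXw, map_zero]
  exact zero_le_one

end

end Pool.Agent.OBR


end

section

/-!
# OB, block GR, module ISV: the values at the points of order two of `M = L + ℤ T` (helper47)
-/

set_option autoImplicit false

open WeierstrassCurve Polynomial

namespace Pool.Agent.OBR

open _root_.MU3 Pool.Agent.MU3A Pool.Agent.MU3B Pool.Agent.RI Pool.Agent.MUX Pool.Agent.MUXU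

noncomputable section

namespace ISVx

/-- `℘` is even and periodic -/
lemma wp_congr (L : PeriodPair) (z w : ℂ) (h : z + w ∈ L.lattice) :
    L.weierstrassP z = L.weierstrassP w := by
  have e : z = -w + ((⟨z + w, h⟩ : L.lattice) : ℂ) := by
    show z = -w + (z + w)
    ring
  rw [e, PeriodPair.weierstrassP_add_coe, PeriodPair.weierstrassP_neg]

variable {L M : PeriodPair} {T w₁ w₂ : ℂ}

/-- multiplication by two -/
lemma two_mem {z : ℂ} (h : z ∈ L.lattice) : 2 * z ∈ L.lattice := by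
  rw [two_mul]
  exact add_mem h h

/-- the product formula of the isogeny `ℂ / L → ℂ / M` -/
lemma pfi (hT : Two3 L T w₁ w₂) (hM : ∀ z, z ∈ M.lattice ↔ z ∈ L.lattice ∨ z - T ∈ L.lattice)
    {w z : ℂ} (hw : w ∉ M.lattice) (hz : z ∉ M.lattice) :
    (M.weierstrassP z - M.weierstrassP w) * (L.weierstrassP z - L.weierstrassP T) =
      (L.weierstrassP z - L.weierstrassP w) * (L.weierstrassP z - L.weierstrassP (w + T)) := by
  have hper : ∀ z, (1 : ℂ) * z ∈ M.lattice ↔ z ∈ L.lattice ∨ z - T ∈ L.lattice := by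
    intro z
    rw [one_mul]
    exact hM z
  have hIsg : Isg L M 1 := fun v hv => (hper v).mpr (Or.inl hv)
  have hRp : IsRpM L M 1 {T} := by
    constructor
    · intro q hq
      rw [Finset.mem_singleton] at hq
      rw [hq]
      refine (hper T).mpr (Or.inr ?_)
      rw [sub_self]
      exact zero_mem _
    · intro q hq
      rw [Finset.mem_singleton] at hq
      rw [hq]
      exact hT.n₁
    · intro q hq q' hq' _
      rw [Finset.mem_singleton] at hq hq'
      rw [hq, hq']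
    · intro z hz hzL
      rcases (hper z).mp hz with h | h
      · exact absurd h hzL
      · exact ⟨T, Finset.mem_singleton_self T, h⟩
  have h := tu_PFI tu_ISO L M 1 {T} one_ne_zero hIsg hRp w (by rw [one_mul]; exact hw) z
    (by rw [one_mul]; exact hz)
  rw [Finset.prod_singleton, Finset.prod_singleton, one_mul, one_mul, one_pow, one_mul] at h
  exact h

end ISVx

open _root_.Pool.Agent.OBR.ISVx in
theorem o_ISV (h : So_TW3) : So_ISV := by
  intro L M T w₁ w₂ hT hM
  obtain ⟨hs, -, -, hne1, hne2, -⟩ := (h L).2.2 T w₁ w₂ hT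
  have hTw : T + w₁ ∉ L.lattice := fun k => hT.n₃ (by
    have := sub_mem hs k
    rwa [add_sub_cancel_left] at this)
  -- a multiple argument: from `u ∈ L` with `2 u ≡ T` we get `T ∈ L`
  have hhalf : ∀ u : ℂ, T - 2 * u ∈ L.lattice → u ∉ L.lattice := fun u hu k => hT.n₁ (by
    have := add_mem hu (two_mem k)
    rwa [sub_add_cancel] at this)
  have hT2 := hT.t₁
  have hw2 := hT.t₂
  have two : Two3 M w₁ (T / 2) (T / 2 + w₁) := by
    refine ⟨?_, ?_, ?_, ?_, ?_, ?_, ?_, ?_, ?_⟩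
    · rw [hM]
      rintro (k | k)
      · exact hT.n₂ k
      · exact hT.d₁₂ (by
          have := neg_mem k
          rwa [neg_sub] at this)
    · rw [hM]
      rintro (k | k)
      · exact hhalf _ (by
          have e : T - 2 * (T / 2) = 0 := by ring
          rw [e]; exact zero_mem _) k
      · exact hhalf _ (by
          have e : T - 2 * (T / 2 - T) = 2 * T := by ring
          rw [e]; exact hT2) k
    · rw [hM]
      rintro (k | k)
      · exact hhalf _ (by
          have e : T - 2 * (T / 2 + w₁) = -(2 * w₁) := by ring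
          rw [e]; exact neg_mem hw2) k
      · exact hhalf _ (by
          have e : T - 2 * (T / 2 + w₁ - T) = 2 * T - 2 * w₁ := by ring
          rw [e]; exact sub_mem hT2 hw2) k
    · exact (hM _).2 (Or.inl hw2)
    · refine (hM _).2 (Or.inr ?_)
      have e : 2 * (T / 2) - T = 0 := by ring
      rw [e]; exact zero_mem _
    · refine (hM _).2 (Or.inr ?_)
      have e : 2 * (T / 2 + w₁) - T = 2 * w₁ := by ring
      rw [e]; exact hw2
    · rw [hM]
      rintro (k | k)
      · exact hhalf _ (by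
          have e : T - 2 * (w₁ - T / 2) = 2 * T - 2 * w₁ := by ring
          rw [e]; exact sub_mem hT2 hw2) k
      · exact hhalf _ (by
          have e : T - 2 * (w₁ - T / 2 - T) = 2 * T + 2 * T - 2 * w₁ := by ring
          rw [e]; exact sub_mem (add_mem hT2 hT2) hw2) k
    · rw [hM]
      rintro (k | k)
      · exact hhalf _ (by
          have e : T - 2 * (w₁ - (T / 2 + w₁)) = 2 * T := by ring
          rw [e]; exact hT2) k
      · exact hhalf _ (by
          have e : T - 2 * (w₁ - (T / 2 + w₁) - T) = 2 * T + 2 * T := by ring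
          rw [e]; exact add_mem hT2 hT2) k
    · rw [hM]
      rintro (k | k)
      · exact hT.n₂ (by
          have := neg_mem k
          have e : -(T / 2 - (T / 2 + w₁)) = w₁ := by ring
          rwa [e] at this)
      · exact hTw (by
          have := neg_mem k
          have e : -(T / 2 - (T / 2 + w₁) - T) = T + w₁ := by ring
          rwa [e] at this)
  have tw := (ta_TW2 b_ADD b_ZER b_NEQ L T hT.n₁ hT.t₁).2
  have hML : ∀ z, z ∉ M.lattice → z ∉ L.lattice ∧ z + T ∉ L.lattice := fun z hz =>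
    ⟨fun k => hz ((hM z).2 (Or.inl k)), fun k => hz ((hM z).2 (Or.inr (by
      have := sub_mem k hT2
      have e : z + T - 2 * T = z - T := by ring
      rwa [e] at this)))⟩
  have k1 := tw w₁ (hML _ two.n₁).1 (hML _ two.n₁).2
  have k2 := tw (T / 2) (hML _ two.n₂).1 (hML _ two.n₂).2
  have k3 := tw (T / 2 + w₁) (hML _ two.n₃).1 (hML _ two.n₃).2
  have e1 : L.weierstrassP (w₁ + T) = L.weierstrassP w₂ := wp_congr L _ _ (by
    have e : w₁ + T + w₂ = T + w₁ + w₂ := by ring
    rw [e]; exact hs)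
  have e2 : L.weierstrassP (T / 2 + T) = L.weierstrassP (T / 2) := wp_congr L _ _ (by
    have e : T / 2 + T + T / 2 = 2 * T := by ring
    rw [e]; exact hT2)
  have e3 : L.weierstrassP (T / 2 + w₁ + T) = L.weierstrassP (T / 2 + w₁) := wp_congr L _ _ (by
    have e : T / 2 + w₁ + T + (T / 2 + w₁) = 2 * T + 2 * w₁ := by ring
    rw [e]; exact add_mem hT2 hw2)
  have m2 := pfi hT hM two.n₂ two.n₁
  have m3 := pfi hT hM two.n₃ two.n₁
  rw [e1] at k1
  rw [e2] at k2 m2
  rw [e3] at k3 m3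
  set t : ℂ := L.weierstrassP T with ht
  set x₁ : ℂ := L.weierstrassP w₁ with hx1
  set x₂ : ℂ := L.weierstrassP w₂ with hx2
  set u₀ : ℂ := L.weierstrassP (T / 2) with hu0
  set u₁ : ℂ := L.weierstrassP (T / 2 + w₁) with hu1
  have hx1n : x₁ - t ≠ 0 := sub_ne_zero.2 hne1.symm
  have hd : u₁ - u₀ ≠ 0 := by
    intro k
    rcases b_NEQ L (T / 2) (T / 2 + w₁) (hML _ two.n₂).1 (hML _ two.n₃).1 (sub_eq_zero.1 k) with
      h' | h'
    · rw [add_sub_cancel_left] at h'
      exact hT.n₂ h'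
    · have e : T / 2 + w₁ + T / 2 = T + w₁ := by ring
      rw [e] at h'
      exact hTw h'
  have hsum : (u₁ - t) + (u₀ - t) = 0 := by
    apply mul_left_cancel₀ hd
    linear_combination k3 - k2
  have hu1 : u₁ - t = -(u₀ - t) := by linear_combination hsum
  obtain ⟨a, ha⟩ := IsAlgClosed.exists_pow_nat_eq (x₁ - t) (n := 2) (by norm_num)
  have ha0 : a ≠ 0 := by
    rintro rfl
    apply hx1n
    rw [← ha]
    ring
  have r2 : M.weierstrassP w₁ - M.weierstrassP (T / 2) = (a - (u₀ - t) / a) ^ 2 := by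
    apply mul_right_cancel₀ hx1n
    rw [m2]
    have : (a - (u₀ - t) / a) ^ 2 * (x₁ - t) = (a ^ 2 - (u₀ - t)) ^ 2 := by
      rw [← ha]
      field_simp
    rw [this, ha]
    ring
  have r3 : M.weierstrassP w₁ - M.weierstrassP (T / 2 + w₁) = (a + (u₀ - t) / a) ^ 2 := by
    apply mul_right_cancel₀ hx1n
    rw [m3]
    have : (a + (u₀ - t) / a) ^ 2 * (x₁ - t) = (a ^ 2 + (u₀ - t)) ^ 2 := by
      rw [← ha]
      field_simp
    rw [this, ha]
    have e : x₁ - u₁ = x₁ - t + (u₀ - t) := by linear_combination -hu1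
    rw [e]
    ring
  refine ⟨?_, T / 2, T / 2 + w₁, a, (u₀ - t) / a, two, ha, ?_, r2, r3, ?_⟩
  · refine (hM _).2 (Or.inr ?_)
    have e : w₁ - w₂ - T = 2 * w₁ - (T + w₁ + w₂) := by ring
    rw [e]
    exact sub_mem hw2 hs
  · rw [div_pow, div_eq_iff (pow_ne_zero 2 ha0), ha]
    linear_combination k2 - k1
  · linear_combination r3 - r2

end

end Pool.Agent.OBR


end

section

/-!
# OB, block GR, module KUB: squares in `O`
-/

set_option autoImplicit false

open WeierstrassCurve Polynomial NumberField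

namespace Pool.Agent.OBR

open _root_.MU3 Pool.Agent.MU3A Pool.Agent.MU3B Pool.Agent.RI Pool.Agent.MUX Pool.Agent.MUXU
open Pool.Agent.NS Pool.Agent.NSR Pool.Agent.OB

noncomputable section

/-- KUB. -/
theorem o_KUB (h1 : So_KUA) : So_KUB := by
  intro A B hCQ S al hal hq
  obtain ⟨⟨φ, hφ⟩, hinj, hded, hpos, hint⟩ := Pool.Agent.MUXE.te_RNG A B hCQ
  have hw0 : IsIntegral ℤ (wC A B) := by
    rw [hint _ (wC_mem A B)]
    exact ⟨⟨0, 1⟩, by simp [emb]⟩
  have hfd : FiniteDimensional ℚ (kk A B) :=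
    IntermediateField.adjoin.finiteDimensional hw0.tower_top
  have hk : NumberField (kk A B) := ⟨⟩
  have hIn : ∀ x : OO A B, IsIntegral ℤ (ek x) := by
    intro x
    have h2 : IsIntegral ℤ (emb x) := (hint (emb x) (MU3A.emb_mem x)).mpr ⟨x, rfl⟩
    have h3 : algebraMap (kk A B) ℂ (ek x) = emb x := rfl
    rw [← h3] at h2
    exact (isIntegral_algebraMap_iff (FaithfulSMul.algebraMap_injective (kk A B) ℂ)).mp h2
  let j : OO A B →+* 𝓞 (kk A B) :=
    { toFun := fun x => ⟨ek x, hIn x⟩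
      map_one' := by
        apply RingOfIntegers.ext
        apply Subtype.ext
        change emb 1 = 1
        rw [← hφ, map_one]
      map_mul' := by
        intro a b
        apply RingOfIntegers.ext
        apply Subtype.ext
        change emb (a * b) = emb a * emb b
        rw [← hφ, ← hφ, ← hφ, map_mul]
      map_zero' := by
        apply RingOfIntegers.ext
        apply Subtype.ext
        change emb 0 = 0
        rw [← hφ, map_zero]
      map_add' := by
        intro a b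
        apply RingOfIntegers.ext
        apply Subtype.ext
        change emb (a + b) = emb a + emb b
        rw [← hφ, ← hφ, ← hφ, map_add] }
  have hj : ∀ x, (((j x : 𝓞 (kk A B)) : kk A B) : ℂ) = emb x := fun x => rfl
  have hjal : j al ≠ 0 := by
    intro h0
    apply hal
    apply hinj
    rw [← hj, h0]
    rfl
  have : Fact (Nat.Prime 2) := ⟨Nat.prime_two⟩
  obtain ⟨y, hy⟩ := h1 A B 2 (kk A B) (-1) j al (IsPrimitiveRoot.neg_one 0 (by norm_num)) hjal S
    (Or.inl hq)
  have hy2 : (y : ℂ) ^ 2 = emb al := by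
    rw [← hj, ← hy]
    rfl
  have hyi : IsIntegral ℤ (y : ℂ) := by
    apply IsIntegral.of_pow (n := 2) (by norm_num)
    rw [hy2]
    exact (hint (emb al) (MU3A.emb_mem al)).mpr ⟨al, rfl⟩
  obtain ⟨z, hz⟩ := (hint _ y.2).mp hyi
  refine ⟨z, ?_⟩
  rw [← sub_eq_zero]
  apply hinj
  rw [← hφ, map_sub, map_pow, hφ, hφ, ← hz, hy2, sub_self]

end

end Pool.Agent.OBR


end

section

/-!
# OB, block GR, module LGE: Legendre forms (helper9)
-/

set_option autoImplicit false

open WeierstrassCurve Polynomial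

namespace Pool.Agent.OBR

open _root_.MU3 Pool.Agent.MU3A Pool.Agent.MU3B Pool.Agent.RI Pool.Agent.MUX Pool.Agent.MUXU
open Pool.Agent.NS Pool.Agent.NSR Pool.Agent.OB

noncomputable section

theorem o_LGE (h1 : So_TW3) : So_LGE := by
  intro L w₁ w₂ w₃ u hw hu
  obtain ⟨-, -, h3⟩ := h1 L
  obtain ⟨-, -, heq, n12, n13, n23⟩ := h3 w₁ w₂ w₃ hw
  obtain ⟨e₁, he₁⟩ : ∃ e, e = L.weierstrassP w₁ := ⟨_, rfl⟩
  obtain ⟨e₂, he₂⟩ : ∃ e, e = L.weierstrassP w₂ := ⟨_, rfl⟩
  obtain ⟨e₃, he₃⟩ : ∃ e, e = L.weierstrassP w₃ := ⟨_, rfl⟩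
  rw [← he₁, ← he₂, ← he₃] at heq
  rw [← he₁, ← he₂] at n12 hu
  rw [← he₁, ← he₂, ← he₃]
  have hd : e₂ - e₁ ≠ 0 := sub_ne_zero.2 n12.symm
  have hu0 : u ≠ 0 := by
    rintro rfl
    apply hd
    rw [← hu]
    ring
  refine ⟨hu0, fun z hz => ?_⟩
  have h := heq z hz
  obtain ⟨P, hP⟩ : ∃ P, P = L.weierstrassP z := ⟨_, rfl⟩
  obtain ⟨D, hD⟩ : ∃ D, D = L.derivWeierstrassP z := ⟨_, rfl⟩
  rw [← hP, ← hD] at h
  rw [← hP, ← hD, ← hu]
  have h5 : (D / (2 * u ^ 3)) ^ 2 = D ^ 2 / (4 * u ^ 6) := by ring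
  have h6 : (P - e₁) / u ^ 2 - 1 = (P - e₂) / u ^ 2 := by
    rw [div_sub_one (pow_ne_zero 2 hu0), hu]
    congr 1
    ring
  have h7 : (P - e₁) / u ^ 2 - (e₃ - e₁) / u ^ 2 = (P - e₃) / u ^ 2 := by
    rw [← sub_div]
    congr 1
    ring
  rw [h5, h, h6, h7]
  field_simp

end

end Pool.Agent.OBR


end

section

/-!
# OB, block GR: module LIF, lifting of elements of the inertia group (helper2, model: `NS/RN_LIF.lean` of helper13)
-/

set_option autoImplicit false

namespace Pool.Agent.OBR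

open _root_.MU3 _root_.Pool.Agent.MU3A _root_.Pool.Agent.MU3B _root_.Pool.Agent.RI
  _root_.Pool.Agent.MUX _root_.Pool.Agent.MUXU _root_.Pool.Agent.NS _root_.Pool.Agent.MU3E.RAM
  _root_.Pool.Agent.OB
open NumberField IsDedekindDomain
open scoped Pointwise

noncomputable section

open _root_.Pool.Agent.NSR.LIF in
theorem o_LIF : So_LIF := by
  intro p A B V hAB pp hvp F₁ M _ _ _ σ hσ hσF
  have hwC : σ (wC A B) = wC A B := hσ
  -- sigma fixes `k`
  have hfix : ∀ x ∈ kk A B, σ x = x := by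
    intro x hx
    refine IntermediateField.adjoin_induction ℚ (p := fun x _ => σ x = x) ?_ ?_ ?_ ?_ ?_ hx
    · intro y hy
      rw [Set.mem_singleton_iff] at hy
      rw [hy, hwC]
    · intro r
      rw [eq_ratCast, map_ratCast]
    · intro a b _ _ ha hb
      rw [map_add, ha, hb]
    · intro a _ ha
      rw [map_inv₀, ha]
    · intro a b _ _ ha hb
      rw [map_mul, ha, hb]
  have hfd : FiniteDimensional ℚ (kk A B) := by
    apply IntermediateField.adjoin.finiteDimensional
    refine ⟨Polynomial.X ^ 2 - Polynomial.C (B : ℚ) * Polynomial.X - Polynomial.C (A : ℚ), ?_, ?_⟩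
    · monicity!
    · have h := wsq hAB
      simp only [Polynomial.eval₂_sub, Polynomial.eval₂_mul, Polynomial.eval₂_pow,
        Polynomial.eval₂_X, Polynomial.eval₂_C]
      rw [pow_two, h]
      simp
  have hk : NumberField (kk A B) := ⟨⟩
  let σK : ℂ ≃ₐ[kk A B] ℂ := AlgEquiv.ofRingEquiv (f := σ) (fun x => hfix x x.2)
  have hσK : ∀ x, σK x = σ x := fun x => rfl
  -- the normal closure
  have hfin : FiniteDimensional (kk A B) ↥(F₁ ⊔ M) := inferInstance
  obtain ⟨α, hα⟩ := Field.exists_primitive_element (kk A B) ↥(F₁ ⊔ M)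
  have hαi : IsIntegral (kk A B) (α : ℂ) := by
    have h : IsIntegral (kk A B) α := Algebra.IsIntegral.isIntegral α
    exact h.map (IntermediateField.val _)
  set pol := minpoly (kk A B) (α : ℂ) with hpol
  let E : IntermediateField (kk A B) ℂ := IntermediateField.adjoin (kk A B) (pol.rootSet ℂ)
  have hsf : pol.IsSplittingField (kk A B) E :=
    IntermediateField.adjoin_rootSet_isSplittingField (IsAlgClosed.splits _)
  have hαE : (α : ℂ) ∈ E := by
    apply IntermediateField.subset_adjoin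
    rw [Polynomial.mem_rootSet]
    exact ⟨minpoly.ne_zero hαi, minpoly.aeval _ _⟩
  have hle : F₁ ⊔ M ≤ E := by
    have h1 : IntermediateField.lift (IntermediateField.adjoin (kk A B) {α}) = F₁ ⊔ M := by
      rw [hα, IntermediateField.lift_top]
    rw [← h1, IntermediateField.lift_adjoin_simple, IntermediateField.adjoin_le_iff,
      Set.singleton_subset_iff]
    exact hαE
  have hE1 : F₁ ≤ E := le_sup_left.trans hle
  have hE2 : M ≤ E := le_sup_right.trans hle
  have hEf : FiniteDimensional (kk A B) E := Polynomial.IsSplittingField.finiteDimensional E pol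
  have hEn : Normal (kk A B) E := Normal.of_isSplittingField pol
  have hEg : IsGalois (kk A B) E := ⟨⟩
  have hFf : FiniteDimensional (kk A B) F₁ := inferInstance
  have hF1 : NumberField F₁ :=
    { to_finiteDimensional := FiniteDimensional.trans ℚ (kk A B) F₁ }
  have hE3 : NumberField E :=
    { to_finiteDimensional := FiniteDimensional.trans ℚ (kk A B) E }
  let alg : Algebra F₁ E := (IntermediateField.inclusion hE1).toRingHom.toAlgebra
  have halg : ∀ x : F₁, ((algebraMap F₁ E x : E) : ℂ) = (x : ℂ) := fun x => rfl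
  have tower : IsScalarTower (kk A B) F₁ E := IsScalarTower.of_algebraMap_eq (fun x => rfl)
  have hgal : IsGalois F₁ E := IsGalois.tower_top_of_isGalois (kk A B) F₁ E
  -- restrictions of sigma
  let τ₀ : E ≃ₐ[kk A B] E := σK.restrictNormal E
  have hτ₀ : ∀ x : E, ((τ₀ x : E) : ℂ) = σ (x : ℂ) := fun x =>
    AlgEquiv.restrictNormal_commutes σK E x
  let σ₁ : F₁ ≃ₐ[kk A B] F₁ := σK.restrictNormal F₁
  have hσ₁ : ∀ x : F₁, ((σ₁ x : F₁) : ℂ) = σ (x : ℂ) := fun x =>
    AlgEquiv.restrictNormal_commutes σK F₁ x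
  let io : E →+* ℂ := algebraMap E ℂ
  have hio : ∀ x : E, io x = (x : ℂ) := fun x => rfl
  have e3 : io (((p : ℕ) : 𝓞 E) : E) = (p : ℂ) := by
    have h : ((((p : ℕ) : 𝓞 E)) : E) = (p : E) := map_natCast (algebraMap (𝓞 E) E) p
    rw [h, map_natCast]
  obtain ⟨w, hw⟩ := exists_prime (V := V) io (z := ((p : ℕ) : 𝓞 E)) (by
    intro h
    rw [h] at e3
    have h2 : io ((0 : 𝓞 E) : E) = 0 := by
      have h : ((0 : 𝓞 E) : E) = 0 := map_zero (algebraMap (𝓞 E) E)
      rw [h, map_zero]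
    rw [h2] at e3
    exact pp.ne_zero (by exact_mod_cast e3.symm)) (by
    rw [e3]
    exact hvp)
  obtain ⟨γ, hγ⟩ := lift_aux (V := V) io hw (τ₀ : E ≃+* E) (σ₁ : F₁ ≃+* F₁) (by
    intro x
    apply Subtype.ext
    exact (hτ₀ _).trans (hσ₁ x).symm) (by
    intro x
    have h1 := hσF (x : F₁) (x : F₁).2 (by
      exact int_le (V := V) (algebraMap F₁ ℂ) x)
    have h2 : io (algebraMap F₁ E ((σ₁ : F₁ ≃+* F₁) (x : F₁))) = σ ((x : F₁) : ℂ) := hσ₁ x
    rw [h2]
    exact h1)
  -- the automorphism of `E`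
  let τ : E ≃+* E := (τ₀ : E ≃+* E).trans (γ : E ≃+* E)
  have hτ : ∀ x : E, τ x = γ (τ₀ x) := fun x => rfl
  have hτF : ∀ x : F₁, τ (algebraMap F₁ E x) = algebraMap F₁ E (σ₁ x) := by
    intro x
    rw [hτ]
    have h : τ₀ (algebraMap F₁ E x) = algebraMap F₁ E (σ₁ x) := by
      apply Subtype.ext
      exact (hτ₀ _).trans (hσ₁ x).symm
    rw [h, γ.commutes]
  have hfin2 := of_int (V := V) io hw τ (fun x => hγ x)
  let EQ : IntermediateField ℚ ℂ := E.restrictScalars ℚ
  have hEQ : Algebra.IsAlgebraic ℚ EQ := by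
    have : FiniteDimensional ℚ E := hE3.to_finiteDimensional
    have h2 : FiniteDimensional ℚ EQ := this
    exact Algebra.IsAlgebraic.of_finite ℚ EQ
  obtain ⟨σ', hσ'⟩ := u_AUE EQ hEQ (io.comp (τ : E →+* E))
  have hσ'2 : ∀ x : E, σ' (x : ℂ) = ((τ x : E) : ℂ) := fun x => hσ' x
  have hF' : ∀ y ∈ F₁, σ' y = σ y := by
    intro y hy
    have h1 := hσ'2 (algebraMap F₁ E ⟨y, hy⟩)
    rw [hτF, halg, halg] at h1
    rw [h1, hσ₁]
  refine ⟨σ', ?_, hF', ?_⟩
  · have h1 : wC A B ∈ F₁ := F₁.algebraMap_mem (⟨wC A B, wC_mem A B⟩ : kk A B)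
    have h2 := hF' _ h1
    rw [hwC] at h2
    exact h2
  · intro y hy hvy
    have h1 := hfin2 ⟨y, hE2 hy⟩ hvy
    have h2 := hσ'2 ⟨y, hE2 hy⟩
    rw [hio, hio, ← h2] at h1
    exact h1

end

end Pool.Agent.OBR


end

section

/-!
# OB, block GR: module MLT (multiplication by elements of odd norm prime to `p` in the kernel of reduction) (helper73)
-/

set_option autoImplicit false

open WeierstrassCurve Polynomial

namespace Pool.Agent.OBR

open _root_.MU3 Pool.Agent.MU3A Pool.Agent.MU3B Pool.Agent.RI Pool.Agent.MUX Pool.Agent.MUXU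
open Pool.Agent.MUXV (GR InK tX)
open Pool.Agent.NS Pool.Agent.NSR Pool.Agent.OB

noncomputable section

namespace MLTx

variable {V : ValuationSubring ℂ}

/-- all coefficients are integral -/
def IP (V : ValuationSubring ℂ) (P : ℂ[X]) : Prop := ∀ i, P.coeff i ∈ V

theorem ip_add {P Q : ℂ[X]} (hP : IP V P) (hQ : IP V Q) : IP V (P + Q) := fun i => by
  rw [coeff_add]
  exact add_mem (hP i) (hQ i)

theorem ip_sub {P Q : ℂ[X]} (hP : IP V P) (hQ : IP V Q) : IP V (P - Q) := fun i => by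
  rw [coeff_sub]
  exact sub_mem (hP i) (hQ i)

theorem ip_mul {P Q : ℂ[X]} (hP : IP V P) (hQ : IP V Q) : IP V (P * Q) := fun i => by
  rw [coeff_mul]
  exact sum_mem fun x _ => mul_mem (hP _) (hQ _)

theorem ip_C {a : ℂ} (ha : a ∈ V) : IP V (C a) := fun i => by
  rw [coeff_C]
  split_ifs
  · exact ha
  · exact zero_mem V

theorem ip_X : IP V (X : ℂ[X]) := fun i => by
  rw [coeff_X]
  split_ifs
  · exact one_mem V
  · exact zero_mem V

theorem ip_der {P : ℂ[X]} (hP : IP V P) : IP V (derivative P) := fun i => by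
  rw [coeff_derivative]
  refine mul_mem (hP _) ?_
  exact add_mem (natCast_mem V i) (one_mem V)

theorem ip_prod (R : Finset ℂ) (f : ℂ → ℂ) (h : ∀ q ∈ R, f q ∈ V) :
    IP V (∏ q ∈ R, (X - C (f q))) := by
  classical
  induction R using Finset.induction_on with
  | empty =>
    rw [Finset.prod_empty, ← C_1]
    exact ip_C (one_mem V)
  | insert a S ha ih =>
    rw [Finset.prod_insert ha]
    exact ip_mul (ip_sub ip_X (ip_C (h a (Finset.mem_insert_self _ _))))
      (ih fun q hq => h q (Finset.mem_insert_of_mem hq))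

/-- the leading term dominates at `x`, `v x > 1` -/
theorem lead {P : ℂ[X]} {N : ℕ} (hP : IP V P) (hN : P.natDegree ≤ N) {x : ℂ}
    (hx : 1 < V.valuation x) :
    V.valuation (P.eval x - P.coeff N * x ^ N) * V.valuation x ≤ V.valuation x ^ N := by
  have h0 : (0 : V.ValueGroup) < V.valuation x := zero_lt_one.trans hx
  have e : P.eval x - P.coeff N * x ^ N = ∑ i ∈ Finset.range N, P.coeff i * x ^ i := by
    rw [eval_eq_sum_range' (Nat.lt_succ_of_le hN), Finset.sum_range_succ, add_sub_cancel_right]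
  rw [e]
  rcases Nat.eq_zero_or_pos N with rfl | hpos
  · simp
  · have h1 : V.valuation (∑ i ∈ Finset.range N, P.coeff i * x ^ i) ≤ V.valuation x ^ (N - 1) := by
      refine V.valuation.map_sum_le fun i hi => ?_
      rw [map_mul, map_pow]
      have h2 : V.valuation (P.coeff i) ≤ 1 := (V.valuation_le_one_iff _).2 (hP i)
      have h3 : V.valuation x ^ i ≤ V.valuation x ^ (N - 1) :=
        pow_le_pow_right₀ hx.le (by have := Finset.mem_range.1 hi; omega)
      calc V.valuation (P.coeff i) * V.valuation x ^ i ≤ 1 * V.valuation x ^ i :=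
            mul_le_mul_left h2 _
        _ ≤ _ := by rw [one_mul]; exact h3
    calc V.valuation (∑ i ∈ Finset.range N, P.coeff i * x ^ i) * V.valuation x
        ≤ V.valuation x ^ (N - 1) * V.valuation x := mul_le_mul_left h1 _
      _ = V.valuation x ^ N := by rw [← pow_succ, Nat.sub_add_cancel hpos]

/-- the value at `x` if the coefficient at `N` is a unit -/
theorem lead1 {P : ℂ[X]} {N : ℕ} (hP : IP V P) (hN : P.natDegree ≤ N) {x : ℂ}
    (hx : 1 < V.valuation x) (hu : V.valuation (P.coeff N) = 1) :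
    V.valuation (P.eval x) = V.valuation x ^ N := by
  have h0 : (0 : V.ValueGroup) < V.valuation x := zero_lt_one.trans hx
  have h1 := lead hP hN hx
  have h2 : V.valuation (P.coeff N * x ^ N) = V.valuation x ^ N := by
    rw [map_mul, map_pow, hu, one_mul]
  have h3 : V.valuation (P.eval x - P.coeff N * x ^ N) < V.valuation (P.coeff N * x ^ N) := by
    rw [h2]
    by_contra hc
    rw [not_lt] at hc
    have h4 : V.valuation x ^ N * V.valuation x ≤ V.valuation x ^ N :=
      (mul_le_mul_left hc _).trans h1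
    have h5 : V.valuation x ^ N * 1 < V.valuation x ^ N * V.valuation x :=
      mul_lt_mul_of_pos_left hx (pow_pos h0 N)
    rw [mul_one] at h5
    exact absurd h4 (not_le.2 h5)
  have h6 := V.valuation.map_add_eq_of_lt_left h3
  rw [add_sub_cancel, h2] at h6
  exact h6

theorem xu_add (L : PeriodPair) (u e z : ℂ) {w : ℂ} (hw : w ∈ L.lattice) :
    xu L u e (z + w) = xu L u e z := by
  have := L.weierstrassP_add_coe z ⟨w, hw⟩
  unfold xu
  rw [show z + w = z + ((⟨w, hw⟩ : L.lattice) : ℂ) from rfl, this]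

end MLTx

open _root_.Pool.Agent.OBR.MLTx in
theorem o_MLT (h : So_ISO) : So_MLT := by
  intro A B V hc hv2 b L om hL u e lam hG ga n hnm hodd hvn z hz hx
  have hcm := hL.hasCM hc
  have hga0 : ga ≠ 0 := by
    rintro rfl
    rw [(nm_eq_zero hc).2 rfl] at hnm
    obtain ⟨k, hk⟩ := hodd
    have : (n : ℤ) = 0 := hnm.symm
    omega
  have hg0 : emb ga ≠ 0 := emb_ne_zero hc hga0
  have hI : Isg L L (emb ga) := fun w hw => hcm ga w hw
  obtain ⟨⟨R, hR⟩, -⟩ := u_BAC.2 L L (emb ga) hg0 hI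
  have hnz : ∀ z, emb ga * z ∈ L.lattice → (n : ℂ) * z ∈ L.lattice := by
    intro z hz
    have h1 := hcm (star ga) _ hz
    have h2 : emb (star ga) * (emb ga * z) = (n : ℂ) * z := by
      rw [← mul_assoc, ← emb_mul hc, mul_comm (star ga) ga, mul_star, emb_intCast hc, hnm]
      push_cast
      ring
    rwa [h2] at h1
  obtain ⟨hvg, hq, P, hmon, hdeg, hPc, hev⟩ :=
    h V L L u e lam u e lam (emb ga) n hv2 hG hG hg0 hI hodd hvn hnz R hR
  have hu : emb ga * u / u = emb ga := mul_div_cancel_right₀ _ hG.u0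
  rw [hu] at hvg hev
  set g := emb ga with hgdef
  set x := xu L u e z with hxdef
  set N := R.card with hN
  set Q : ℂ[X] := C (g ^ 2) * ∏ q ∈ R, (X - C (xu L u e q)) with hQ
  have h0 : (0 : V.ValueGroup) < V.valuation x := zero_lt_one.trans hx
  -- `g z` is not in the lattice
  have hgz : g * z ∉ L.lattice := by
    intro hmem
    obtain ⟨q, hqR, hqz⟩ := hR.surj z hmem hz
    have h1 : xu L u e z = xu L u e q := by
      have := xu_add L u e q hqz
      rwa [add_sub_cancel] at this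
    have h2 := hq q hqR
    rw [← h1] at h2
    exact absurd h2 (not_le.2 hx)
  have hgV : g ∈ V := (V.valuation_le_one_iff _).1 hvg.le
  have hPi : IP V P := fun i => (V.valuation_le_one_iff _).1 (hPc i)
  have hprodi : IP V (∏ q ∈ R, (X - C (xu L u e q))) :=
    ip_prod R _ fun q hq' => (V.valuation_le_one_iff _).1 (hq q hq')
  have hQi : IP V Q := ip_mul (ip_C (pow_mem hgV 2)) hprodi
  have hprodmon : (∏ q ∈ R, (X - C (xu L u e q))).Monic :=
    monic_prod_of_monic _ _ fun q _ => monic_X_sub_C _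
  have hproddeg : (∏ q ∈ R, (X - C (xu L u e q))).natDegree = N := by
    rw [natDegree_prod_of_monic _ _ fun q _ => monic_X_sub_C _]
    simp [hN]
  have hQdeg : Q.natDegree ≤ N := by
    refine natDegree_C_mul_le _ _ |>.trans ?_
    rw [hproddeg]
  have hQc : Q.coeff N = g ^ 2 := by
    rw [hQ, coeff_C_mul]
    have h1 := hprodmon.coeff_natDegree
    rw [hproddeg] at h1
    rw [h1, mul_one]
  have hPc1 : P.coeff (N + 1) = 1 := by
    have h1 := hmon.coeff_natDegree
    rwa [hdeg] at h1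
  have hvg2 : V.valuation (g ^ 2) = 1 := by rw [map_pow, hvg, one_pow]
  -- the derivative expression
  set D : ℂ[X] := derivative P * Q - P * derivative Q with hD
  have hDi : IP V D := ip_sub (ip_mul (ip_der hPi) hQi) (ip_mul hPi (ip_der hQi))
  have hP'deg : (derivative P).natDegree ≤ N := by
    refine (natDegree_derivative_le P).trans ?_
    rw [hdeg]
    simp
  have hP'c : (derivative P).coeff N = (N : ℂ) + 1 := by
    rw [coeff_derivative, hPc1, one_mul]
  have hA1 : (derivative P * Q).natDegree ≤ N + N := natDegree_mul_le_of_le hP'deg hQdeg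
  have hA1c : (derivative P * Q).coeff (N + N) = ((N : ℂ) + 1) * g ^ 2 := by
    rw [coeff_mul_add_eq_of_natDegree_le hP'deg hQdeg, hP'c, hQc]
  have hA2 : (P * derivative Q).natDegree ≤ N + N ∧
      (P * derivative Q).coeff (N + N) = (N : ℂ) * g ^ 2 := by
    rcases Nat.eq_zero_or_pos N with h1 | h1
    · have h2 : derivative Q = 0 := by
        rw [h1] at hQdeg
        have h3 := eq_C_of_natDegree_le_zero hQdeg
        rw [h3, derivative_C]
      rw [h2, mul_zero, h1]
      simp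
    · have hQ'deg : (derivative Q).natDegree ≤ N - 1 :=
        (natDegree_derivative_le Q).trans (Nat.sub_le_sub_right hQdeg 1)
      have hQ'c : (derivative Q).coeff (N - 1) = (N : ℂ) * g ^ 2 := by
        rw [coeff_derivative, Nat.sub_add_cancel h1, hQc]
        have : ((N - 1 : ℕ) : ℂ) + 1 = N := by
          rw [Nat.cast_sub h1]
          push_cast
          ring
        rw [this, mul_comm]
      have h2 : N + N = (N + 1) + (N - 1) := by omega
      rw [h2]
      refine ⟨natDegree_mul_le_of_le hdeg.le hQ'deg, ?_⟩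
      rw [coeff_mul_add_eq_of_natDegree_le hdeg.le hQ'deg, hPc1, hQ'c, one_mul]
  have hDdeg : D.natDegree ≤ N + N := (natDegree_sub_le _ _).trans (max_le hA1 hA2.1)
  have hDc : D.coeff (N + N) = g ^ 2 := by
    rw [hD, coeff_sub, hA1c, hA2.2]
    ring
  -- `E = P Q - X D`
  set E : ℂ[X] := P * Q - X * D with hE
  have hEi : IP V E := ip_sub (ip_mul hPi hQi) (ip_mul ip_X hDi)
  have hE1 : (P * Q).natDegree ≤ (N + 1) + N := natDegree_mul_le_of_le hdeg.le hQdeg
  have hE2 : (X * D).natDegree ≤ 1 + (N + N) := natDegree_mul_le_of_le natDegree_X_le hDdeg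
  have hEdeg : E.natDegree ≤ N + N + 1 :=
    (natDegree_sub_le _ _).trans (max_le (hE1.trans (by omega)) (hE2.trans (by omega)))
  have hEc : E.coeff (N + N + 1) = 0 := by
    rw [hE, coeff_sub, show N + N + 1 = (N + 1) + N by omega,
      coeff_mul_add_eq_of_natDegree_le hdeg.le hQdeg, hPc1, hQc, show (N + 1) + N = (N + N) + 1 by omega,
      coeff_X_mul, hDc]
    ring
  -- values
  have vP := lead1 hPi hdeg.le hx (by rw [hPc1, map_one])
  have vQ := lead1 hQi hQdeg hx (by rw [hQc, hvg2])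
  have vD := lead1 hDi hDdeg hx (by rw [hDc, hvg2])
  have vE := lead hEi hEdeg hx
  rw [hEc, zero_mul, sub_zero] at vE
  have hE3 : E.eval x = P.eval x * Q.eval x - x * D.eval x := by
    rw [hE, eval_sub, eval_mul (p := P), eval_mul (p := X), eval_X]
  have hQ0 : Q.eval x ≠ 0 := fun h1 => by
    rw [h1, map_zero] at vQ
    exact (pow_pos h0 N).ne vQ
  have hD0 : D.eval x ≠ 0 := fun h1 => by
    rw [h1, map_zero] at vD
    exact (pow_pos h0 (N + N)).ne vD
  have hx0 : x ≠ 0 := fun h1 => by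
    rw [h1, map_zero] at h0
    exact lt_irrefl _ h0
  obtain ⟨e1, e2⟩ := hev z hgz
  rw [← hxdef] at e1 e2
  -- `Y z ≠ 0`
  have hY : yu L u z ≠ 0 := by
    intro h1
    have h2 := hG.eq z hz
    have h3 : x * (x - 1) * (x - lam) = 0 := by
      have h4 : L.derivWeierstrassP z / (2 * u ^ 3) = 0 := h1
      rw [h4] at h2
      have h5 : (L.weierstrassP z - e) / u ^ 2 = x := rfl
      rw [h5] at h2
      rw [← h2]
      simp
    have h6 : ∀ a : ℂ, V.valuation a ≤ 1 → x - a ≠ 0 := by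
      intro a ha h7
      rw [sub_eq_zero] at h7
      rw [h7] at hx
      exact absurd ha (not_le.2 hx)
    rcases mul_eq_zero.1 h3 with h4 | h4
    · rcases mul_eq_zero.1 h4 with h5 | h5
      · exact hx0 h5
      · exact h6 1 (by rw [map_one]) h5
    · exact h6 lam hG.vl.le h4
  have hX : xu L u e (g * z) = P.eval x / Q.eval x := by
    rw [eq_div_iff hQ0, e1]
  have hYg : yu L u (g * z) = D.eval x * yu L u z / (g * Q.eval x ^ 2) := by
    rw [eq_div_iff (mul_ne_zero hg0 (pow_ne_zero 2 hQ0))]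
    linear_combination e2
  refine ⟨hgz, ?_, ?_⟩
  · rw [hX, map_div₀, vP, vQ, pow_succ, mul_div_cancel_left₀ _ (pow_pos h0 N).ne']
    exact hx
  · have hdiff : tX (xu L u e) (yu L u) (g * z) - g * tX (xu L u e) (yu L u) z =
        -(g * E.eval x / (D.eval x * yu L u z)) := by
      unfold tX
      rw [hX, hYg, hE3, ← hxdef]
      field_simp
      ring
    rw [hdiff, Valuation.map_neg, map_div₀, map_mul, map_mul, hvg, one_mul, vD]
    unfold tX
    rw [Valuation.map_neg, map_div₀, ← hxdef]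
    have hvY : (0 : V.ValueGroup) < V.valuation (yu L u z) :=
      zero_lt_iff.2 ((Valuation.ne_zero_iff _).2 hY)
    have hpp := pow_pos h0 (N + N)
    rw [div_lt_div_iff₀ (mul_pos hpp hvY) hvY]
    have h7 : V.valuation (E.eval x) < V.valuation x * V.valuation x ^ (N + N) := by
      rw [← pow_succ']
      by_contra hc'
      rw [not_lt] at hc'
      have h8 := (mul_le_mul_left hc' (V.valuation x)).trans vE
      have h9 : V.valuation x ^ (N + N + 1) * 1 < V.valuation x ^ (N + N + 1) * V.valuation x :=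
        mul_lt_mul_of_pos_left hx (pow_pos h0 _)
      rw [mul_one] at h9
      exact absurd h8 (not_le.2 h9)
    calc V.valuation (E.eval x) * V.valuation (yu L u z)
        < V.valuation x * V.valuation x ^ (N + N) * V.valuation (yu L u z) :=
          mul_lt_mul_of_pos_right h7 hvY
      _ = V.valuation x * (V.valuation x ^ (N + N) * V.valuation (yu L u z)) := by
          rw [mul_assoc]

end

end Pool.Agent.OBR


end

section

/-!
# OB, block GR, module ORD (helper42): the ideal of an element of prime order is principal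
-/

set_option autoImplicit false

open WeierstrassCurve Polynomial

namespace Pool.Agent.OBR

open _root_.MU3 Pool.Agent.MU3A Pool.Agent.MU3B Pool.Agent.RI Pool.Agent.MUX Pool.Agent.MUXU
open Pool.Agent.MUXV (GR InK tX)
open Pool.Agent.NS Pool.Agent.NSR Pool.Agent.OB

noncomputable section

namespace ORDx

variable {A B : ℤ}

/-- `2` is not a unit -/
lemma two_top (h : CQ A B) (e3 : absD A B ≠ 3) (e4 : absD A B ≠ 4) (h4 : So_NSQ) :
    idl (A := A) (B := B) 2 ≠ ⊤ := by
  intro h1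
  have h2 : IsUnit (((2 : ℕ) : OO A B)) := Ideal.span_singleton_eq_top.1 h1
  rcases (h4 A B h e3 e4).2.2 _ h2 with h3 | h3
  · have h5 := congrArg emb h3
    rw [emb_natCast h, emb_one h] at h5
    norm_num at h5
  · have h5 := congrArg emb h3
    rw [emb_natCast h, emb_neg h, emb_one h] at h5
    norm_num at h5

/-- powers of ideals -/
lemma pow_inj_ideal {R : Type*} [CommRing R] [IsDedekindDomain R] {a b : Ideal R} {l : ℕ}
    (hl : l ≠ 0) (h : a ^ l = b ^ l) : a = b := by
  have h1 : a ∣ b := (UniqueFactorizationMonoid.pow_dvd_pow_iff_dvd hl).1 (dvd_of_eq h)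
  have h2 : b ∣ a := (UniqueFactorizationMonoid.pow_dvd_pow_iff_dvd hl).1 (dvd_of_eq h.symm)
  exact le_antisymm (Ideal.dvd_iff_le.1 h2) (Ideal.dvd_iff_le.1 h1)

/-- the computation -/
lemma core {R : Type*} [CommRing R] [IsDomain R] {K : Type*} [Field K] (φ : R →+* K)
    (hu : ∀ x : R, IsUnit x → x = 1 ∨ x = -1) {a a' : Ideal R} {x y al be : R} {l : ℕ}
    (hy : y ≠ 0) (hxy : Ideal.span {x} * a = Ideal.span {y} * a')
    (ha : a ^ l = Ideal.span {al}) (ha' : a' ^ l = Ideal.span {be}) (hbe : φ be = 1)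
    (h1 : ∃ s ∈ a, φ s ≠ 0) (h2 : ∃ s ∈ a', φ s ≠ 0) :
    ∃ r, φ al = r ^ l ∨ φ al = -r ^ l := by
  obtain ⟨s, hs, hs0⟩ := h1
  obtain ⟨s', hs', hs0'⟩ := h2
  obtain ⟨t, ht, e1⟩ : ∃ t ∈ a', y * t = x * s := by
    have : x * s ∈ Ideal.span {y} * a' := by
      rw [← hxy]
      exact Ideal.mul_mem_mul (Ideal.mem_span_singleton_self x) hs
    exact Ideal.mem_span_singleton_mul.1 this
  obtain ⟨t', ht', e2⟩ : ∃ t' ∈ a, x * t' = y * s' := by
    have : y * s' ∈ Ideal.span {x} * a := by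
      rw [hxy]
      exact Ideal.mul_mem_mul (Ideal.mem_span_singleton_self y) hs'
    exact Ideal.mem_span_singleton_mul.1 this
  have e3 : t * t' = s * s' := by
    apply mul_left_cancel₀ hy
    linear_combination t' * e1 + s * e2
  have ht0 : φ t ≠ 0 := by
    intro h
    have h3 := congrArg φ e3
    rw [map_mul, map_mul, h, zero_mul] at h3
    exact (mul_ne_zero hs0 hs0') h3.symm
  have e4 : Associated (x ^ l * al) (y ^ l * be) := by
    rw [← Ideal.span_singleton_eq_span_singleton, ← Ideal.span_singleton_mul_span_singleton,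
      ← Ideal.span_singleton_mul_span_singleton, ← Ideal.span_singleton_pow,
      ← Ideal.span_singleton_pow, ← ha, ← ha', ← mul_pow, ← mul_pow, hxy]
  obtain ⟨u, hu1⟩ := e4
  have e5 : t ^ l * al * (u : R) = be * s ^ l := by
    apply mul_left_cancel₀ (pow_ne_zero l hy)
    calc y ^ l * (t ^ l * al * (u : R)) = (y * t) ^ l * (al * u) := by ring
      _ = (x * s) ^ l * (al * u) := by rw [e1]
      _ = (x ^ l * al * u) * s ^ l := by ring
      _ = y ^ l * be * s ^ l := by rw [hu1]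
      _ = y ^ l * (be * s ^ l) := by ring
  have e6 := congrArg φ e5
  simp only [map_mul, map_pow, hbe, one_mul] at e6
  refine ⟨φ s / φ t, ?_⟩
  rw [div_pow]
  rcases hu (u : R) u.isUnit with h | h
  · left
    rw [h, map_one, mul_one] at e6
    rw [← e6]
    field_simp
  · right
    rw [h, map_neg, map_one] at e6
    rw [← e6]
    field_simp

end ORDx

open _root_.Pool.Agent.OBR.ORDx in
/-- MODULE ORD -/
theorem o_ORD (h1 : So_LFT) (h2 : So_POW) (h3 : So_KUC) (h4 : So_NSQ) : So_ORD := by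
  intro p er A B P V hC T l hl σ hσ hI hσl
  have hq := hC.cq
  have hR := Pool.Agent.MUXE.te_RNG A B hq
  have := hR.ded
  have htop := two_top hq hC.ex3 hC.ex4 h4
  have h20 : idl (A := A) (B := B) 2 ≠ ⊥ := by
    intro h
    have : ((2 : ℕ) : OO A B) ∈ idl (A := A) (B := B) 2 := Ideal.mem_span_singleton_self _
    rw [h, Ideal.mem_bot] at this
    exact natCast_ne_zero' hq two_ne_zero this
  have hex : ∃ (b : Ideal (OO A B)) (L : PeriodPair) (om : ℂ), IsNL b L om := by
    obtain ⟨L, om, h⟩ := (Pool.Agent.MUXY.z_LAF A B hq hC.ex3 hC.ex4).ex ⊤ top_ne_bot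
    exact ⟨_, L, om, h⟩
  obtain ⟨a, hacop, hact⟩ := T.act (idl 2) h20 σ hσ
  have ha0 : a ≠ ⊥ := by
    rintro rfl
    rw [Ideal.isCoprime_iff_sup_eq, bot_sup_eq] at hacop
    exact htop hacop
  obtain ⟨-, hpow⟩ := h2 A B hq T hex (idl 2) a σ h20 hσ hact l
  obtain ⟨al, hal1, hal⟩ := hpow.1 hσl
  have hal0 : al ≠ 0 := by
    rintro rfl
    apply htop
    rw [Ideal.eq_top_iff_one]
    have := neg_mem hal1
    simpa using this
  have hN : nI a ≠ 0 := nI_ne_zero hq ha0
  have hkuc := h3 A B hq (2 * p * nI a).primeFactors al hal0 l hl ?_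
  · obtain ⟨z, hz⟩ := hkuc
    have hz1 : a ^ l = (sp z) ^ l := by
      rw [hal, Ideal.span_singleton_pow]
      rcases hz with hz | hz
      · rw [hz]
      · rw [hz]
        exact Ideal.span_singleton_neg (z ^ l)
    have hz2 : a = sp z := pow_inj_ideal hl.ne_zero hz1
    refine ⟨z, ?_, ?_⟩
    · rintro rfl
      apply ha0
      rw [hz2]
      simp
    · rw [← hz2]
      exact hact
  · intro q hqp hqS φ
    have : Fact q.Prime := ⟨hqp⟩
    have hnd : ¬ q ∣ 2 * p * nI a := by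
      intro h
      exact hqS (Nat.mem_primeFactors.2 ⟨hqp, h,
        mul_ne_zero (mul_ne_zero two_ne_zero hC.pp.ne_zero) hN⟩)
    have hq2 : q ≠ 2 := by
      rintro rfl
      exact hnd (dvd_mul_of_dvd_left (dvd_mul_right _ _) _)
    have hqp' : q ≠ p := by
      rintro rfl
      exact hnd (dvd_mul_of_dvd_left (dvd_mul_left _ _) _)
    have hqN : ¬ q ∣ nI a := fun h => hnd (h.mul_left _)
    obtain ⟨σ', a', be, -, -, -, -, hcop', ha0', -, hbe, hbe1, hlast⟩ :=
      h1 p er A B P V hC T hex l σ hσ hI hσl q hqp hq2 hqp'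
    obtain ⟨x, y, -, hy, -, hxy⟩ := hlast a hact
    have hker : idl (A := A) (B := B) (2 * q) ≤ RingHom.ker φ := by
      refine (Ideal.span_singleton_le_iff_mem _).2 ?_
      rw [RingHom.mem_ker, map_natCast, Nat.cast_mul, ZMod.natCast_self, mul_zero]
    refine core φ (h4 A B hq hC.ex3 hC.ex4).2.2 hy hxy hal hbe ?_ ?_ ?_
    · have := hker hbe1
      rw [RingHom.mem_ker, map_sub, map_one, sub_eq_zero] at this
      exact this
    · refine ⟨_, nI_mem hq ha0, ?_⟩
      rw [map_natCast]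
      intro h
      exact hqN ((ZMod.natCast_eq_zero_iff _ _).1 h)
    · by_contra hne
      push Not at hne
      have hle : a' ≤ RingHom.ker φ := fun s hs => (RingHom.mem_ker).2 (hne s hs)
      rw [Ideal.isCoprime_iff_sup_eq] at hcop'
      have hle2 : (⊤ : Ideal (OO A B)) ≤ RingHom.ker φ := by
        rw [← hcop']
        exact sup_le hle hker
      have h5 : φ 1 = 0 := hle2 (Submodule.mem_top (x := (1 : OO A B)))
      rw [map_one] at h5
      exact one_ne_zero h5

end

end Pool.Agent.OBR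


end

section

/-!
# OB, block GR, module PS3: `c` permutes the points of order two cyclically (helper65)
-/

set_option autoImplicit false

open WeierstrassCurve Polynomial

namespace Pool.Agent.OBR

open _root_.MU3 Pool.Agent.MU3A Pool.Agent.MU3B Pool.Agent.RI Pool.Agent.MUX Pool.Agent.MUXU
open Pool.Agent.MUXV (GR InK tX)
open Pool.Agent.NS Pool.Agent.NSR Pool.Agent.OB

noncomputable section

namespace PS3x

lemma xu_congr (L : PeriodPair) (u e : ℂ) {a b : ℂ} (h : a - b ∈ L.lattice) :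
    xu L u e a = xu L u e b := by
  have h1 := L.weierstrassP_add_coe b ⟨a - b, h⟩
  have h2 : b + ((⟨a - b, h⟩ : L.lattice) : ℂ) = a := by simp
  rw [h2] at h1
  unfold xu
  rw [h1]

lemma xu_neg (L : PeriodPair) (u e z : ℂ) : xu L u e (-z) = xu L u e z := by
  unfold xu
  rw [L.weierstrassP_neg]

/-- the estimate: two values `x`, `x'` with `(2 - lam) x ≡ 1` are congruent -/
lemma close {V : ValuationSubring ℂ} {lam x x' : ℂ} (hx : V.valuation x ≤ 1)
    (h : V.valuation (x - ((lam - 1) * x + 1)) < 1)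
    (h' : V.valuation (x' - ((lam - 1) * x' + 1)) < 1) : V.valuation (x - x') < 1 := by
  have e1 : x - ((lam - 1) * x + 1) = (2 - lam) * x - 1 := by ring
  have e2 : x' - ((lam - 1) * x' + 1) = (2 - lam) * x' - 1 := by ring
  rw [e1] at h
  rw [e2] at h'
  have h1 : V.valuation ((2 - lam) * (x - x')) < 1 := by
    have e3 : (2 - lam) * (x - x') = ((2 - lam) * x - 1) - ((2 - lam) * x' - 1) := by ring
    rw [e3]
    exact lt_of_le_of_lt (V.valuation.map_sub _ _) (max_lt h h')
  have h2 : V.valuation ((2 - lam) * x) = 1 := by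
    have e4 : (2 - lam) * x = ((2 - lam) * x - 1) + 1 := by ring
    rw [e4, V.valuation.map_add_eq_of_lt_right (by rw [map_one]; exact h), map_one]
  rw [map_mul] at h1 h2
  have h3 : 1 ≤ V.valuation (2 - lam) := by
    rw [← h2]
    exact mul_le_of_le_one_right' hx
  by_contra hc
  rw [not_lt] at hc
  exact absurd (one_le_mul h3 hc) (not_le.2 h1)

end PS3x

open _root_.Pool.Agent.OBR.PS3x in
theorem o_PS3 (h1 : So_AFF) (h2 : So_GRD) (h3 : So_INX) : So_PS3 := by
  intro p er A B P V hC hT b L om hL w₁ w₂ w₃ hw q hq hqp hq2 hq3 σ hσ hI c hc c12 c23 _ hcc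
  have hcq := hC.cq
  have hcm : HasCM A B L := IsLI.hasCM hcq hL.toIsLI
  have := isDomain hcq
  obtain ⟨u, hu⟩ : ∃ u : ℂ, u ^ 2 = L.weierstrassP w₂ - L.weierstrassP w₁ :=
    IsAlgClosed.exists_pow_nat_eq _ two_pos
  have hG := h2 p er A B P V hC b L om hL.toIsLI w₁ w₂ w₃ u hw hu
  have hA := h1 p er A B P V hC hT b L om hL w₁ w₂ w₃ u hw hu q hq hqp σ hσ hI c hc
  have hIN := h3 p er A B P V hC b L om hL.toIsLI u (L.weierstrassP w₁) _ hG
    (idl (A := A) (B := B) (2 * q))
  obtain ⟨lam, hlam⟩ : ∃ lam : ℂ, lam = (L.weierstrassP w₃ - L.weierstrassP w₁) /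
    (L.weierstrassP w₂ - L.weierstrassP w₁) := ⟨_, rfl⟩
  have hu0 : u ≠ 0 := hG.u0
  obtain ⟨X, hX⟩ : ∃ X : ℂ → ℂ, X = xu L u (L.weierstrassP w₁) := ⟨_, rfl⟩
  have X2 : X (emb c * w₁) = 1 := by
    rw [hX, xu_congr L u _ c12]
    unfold xu
    rw [← hu, div_self (pow_ne_zero 2 hu0)]
  have X3 : X (emb c * w₂) = lam := by
    rw [hX, xu_congr L u _ c23]
    unfold xu
    rw [hu, hlam]
  rw [← hX] at hA hIN
  rw [X2, X3] at hA
  have hA2 := hA.2
  -- `s`
  obtain ⟨s, hs, hcs⟩ : ∃ s : OO A B, (s = 1 ∨ s = -1) ∧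
      c ^ 3 - s ∈ idl (A := A) (B := B) (2 * q) := by
    rcases hcc with h | h
    · exact ⟨1, Or.inl rfl, h⟩
    · exact ⟨-1, Or.inr rfl, by rw [sub_neg_eq_add]; exact h⟩
  have hss : s * s = 1 := by
    rcases hs with rfl | rfl
    · exact one_mul 1
    · ring
  obtain ⟨e, he⟩ : ∃ e : OO A B, e = 1 + s * c + c ^ 2 := ⟨_, rfl⟩
  -- `X (c y) = X y`
  have hXy : ∀ z, Tor (idl (A := A) (B := B) (2 * q)) L z →
      X (emb c * (emb e * z)) = X (emb e * z) := by
    intro z hz
    have e1 : (s * c - 1) * e = s * (c ^ 3 - s) := by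
      rw [he]
      linear_combination (c ^ 2 + 1) * hss
    have h5 := hz _ (Ideal.mul_mem_left _ s hcs)
    rw [← e1] at h5
    have e2 : emb ((s * c - 1) * e) * z = emb s * (emb c * (emb e * z)) - emb e * z := by
      rw [emb_mul hcq, emb_sub hcq, emb_mul hcq, emb_one hcq]
      ring
    rw [e2] at h5
    rcases hs with rfl | rfl
    · rw [emb_one hcq, one_mul] at h5
      rw [hX]
      exact xu_congr L u _ h5
    · rw [emb_neg hcq, emb_one hcq, neg_one_mul] at h5
      rw [hX]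
      rw [← xu_neg L u _ (emb c * (emb e * z))]
      exact xu_congr L u _ h5
  have hnle : ¬ idl (A := A) (B := B) (2 * q) ≤ P := by
    intro hle
    have h5 := (hC.vemb_lt _).2 (hle (Ideal.mem_span_singleton_self _))
    rw [emb_natCast hcq, hC.vnat (n := 2 * q)] at h5
    · exact lt_irrefl _ h5
    · intro hd
      rcases (Nat.Prime.dvd_mul hC.pp).1 hd with h6 | h6
      · have := Nat.le_of_dvd two_pos h6
        have := hC.p5
        omega
      · exact hqp ((Nat.prime_dvd_prime_iff_eq hC.pp hq).1 h6).symm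
  -- `6 y` is in the lattice
  have h6 : ∀ z, Tor (idl (A := A) (B := B) (2 * q)) L z → 6 * (emb e * z) ∈ L.lattice := by
    intro z hz
    obtain ⟨y, hy⟩ : ∃ y, y = emb e * z := ⟨_, rfl⟩
    have hyT : Tor (idl (A := A) (B := B) (2 * q)) L y := by rw [hy]; exact hz.mul_emb hcq e
    have hmul : ∀ (n : ℕ) (t : ℂ), t ∈ L.lattice → (n : ℂ) * t ∈ L.lattice := by
      intro n t ht
      have := nsmul_mem ht n
      rwa [nsmul_eq_mul] at this
    by_cases hy0 : y ∈ L.lattice
    · rw [← hy]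
      exact_mod_cast hmul 6 y hy0
    by_cases hy2 : 2 * y ∈ L.lattice
    · rw [← hy]
      have := hmul 3 _ hy2
      have e1 : ((3 : ℕ) : ℂ) * (2 * y) = 6 * y := by push_cast; ring
      rwa [e1] at this
    have hz2 : Tor (idl (A := A) (B := B) (2 * q)) L (2 * z) := by
      have e0 : 2 * z = z + z := two_mul z
      rw [e0]
      exact hz.add hz
    have hy2T : Tor (idl (A := A) (B := B) (2 * q)) L (2 * y) := by
      have e0 : 2 * y = y + y := two_mul y
      rw [e0]
      exact hyT.add hyT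
    have e2 : emb e * (2 * z) = 2 * y := by rw [hy]; ring
    have a1 := hA2 y hy0 hyT
    have a2 := hA2 (2 * y) hy2 hy2T
    have b1 := hXy z hz
    have b2 := hXy (2 * z) hz2
    rw [← hy] at b1
    rw [e2] at b2
    rw [b1] at a1
    rw [b2] at a2
    have hd := close a1.2.1 a1.2.2 a2.2.2
    rcases hIN hnle y (2 * y) hy0 hy2 hyT hy2T hd with h | h
    · exfalso
      apply hy0
      have := neg_mem h
      have e3 : -(y - 2 * y) = y := by ring
      rwa [e3] at this
    · rw [← hy]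
      have := hmul 2 _ h
      have e3 : ((2 : ℕ) : ℂ) * (y + 2 * y) = 6 * y := by push_cast; ring
      rwa [e3] at this
  -- from points to ideals
  have hq0 : ((2 * q : ℕ) : ℂ) ≠ 0 := by
    have := hq.pos
    exact_mod_cast (by omega : 2 * q ≠ 0)
  have h7 : sp (6 * e) * b ≤ idl (A := A) (B := B) (2 * q) * b := by
    rw [Ideal.mul_le]
    intro r hr x hx
    obtain ⟨r', rfl⟩ := Ideal.mem_span_singleton'.1 hr
    have hz : Tor (idl (A := A) (B := B) (2 * q)) L (om * emb x / ((2 * q : ℕ) : ℂ)) := by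
      apply tor_of_mul hcq hL.toIsLI
      rw [mul_div_cancel₀ _ hq0]
      exact (hL.mem _).2 ⟨x, hx, rfl⟩
    obtain ⟨t, ht, e1⟩ := (hL.mem _).1 (h6 _ hz)
    have e2 : 6 * e * x = ((2 * q : ℕ) : OO A B) * t := by
      apply emb_inj hcq
      rw [emb_mul hcq, emb_mul hcq, emb_mul hcq, emb_natCast hcq]
      have e3 : emb (6 : OO A B) = 6 := by
        have := emb_natCast hcq 6
        exact_mod_cast this
      rw [e3]
      have hom := hL.om_ne
      apply mul_left_cancel₀ hom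
      have e4 : 6 * (emb e * (om * emb x / ((2 * q : ℕ) : ℂ))) * ((2 * q : ℕ) : ℂ) =
          om * (6 * emb e * emb x) := by
        field_simp
      rw [← e4, e1]
      ring
    have e5 : r' * (6 * e) * x = ((2 * q : ℕ) : OO A B) * (r' * t) := by
      rw [mul_assoc, e2]
      ring
    rw [e5]
    exact Ideal.mul_mem_mul (Ideal.mem_span_singleton_self _) (b.mul_mem_left _ ht)
  rw [mul_comm _ b, mul_comm _ b, mul_le_mul_iff hcq hL.b_ne] at h7
  obtain ⟨r, hr⟩ := Ideal.mem_span_singleton.1 (h7 (Ideal.mem_span_singleton_self (6 * e)))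
  have h8 : 3 * e = (q : OO A B) * r := by
    have h20 : (2 : OO A B) ≠ 0 := by
      have := natCast_ne_zero' hcq (n := 2) two_ne_zero
      exact_mod_cast this
    apply mul_left_cancel₀ h20
    push_cast at hr
    linear_combination hr
  have hco : IsCoprime (3 : ℤ) (q : ℤ) := by
    have h9 : Nat.Coprime 3 q := (Nat.coprime_primes Nat.prime_three hq).2 (Ne.symm hq3)
    exact_mod_cast Nat.isCoprime_iff_coprime.2 h9
  obtain ⟨x, y, hxy⟩ := hco
  have h10 : e ∈ idl (A := A) (B := B) q := by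
    rw [Ideal.mem_span_singleton]
    refine ⟨(x : OO A B) * r + (y : OO A B) * e, ?_⟩
    have h11 : (x : OO A B) * 3 + (y : OO A B) * (q : OO A B) = 1 := by
      have := congrArg (fun n : ℤ => (n : OO A B)) hxy
      push_cast at this
      exact this
    linear_combination (-e) * h11 + (x : OO A B) * h8
  rw [he] at h10
  rcases hs with rfl | rfl
  · left
    have e1 : (1 : OO A B) + 1 * c + c ^ 2 = c ^ 2 + c + 1 := by ring
    rwa [e1] at h10
  · right
    have e1 : (1 : OO A B) + -1 * c + c ^ 2 = c ^ 2 - c + 1 := by ring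
    rwa [e1] at h10

end

end Pool.Agent.OBR


end

section

/-!
# OB, block GR: TW3, points of order two (helper87)
-/

set_option autoImplicit false

open WeierstrassCurve Polynomial

namespace Pool.Agent.OBR

open _root_.MU3 Pool.Agent.MU3A Pool.Agent.MU3B Pool.Agent.RI Pool.Agent.MUX Pool.Agent.MUXU
open Pool.Agent.MUXV (GR InK tX)
open Pool.Agent.NS Pool.Agent.NSR Pool.Agent.OB

noncomputable section

namespace TW3x

lemma half_mem (L : PeriodPair) (z : ℂ) (a b : ℤ) (h : a * L.ω₁ + b * L.ω₂ = 2 * z)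
    (ha : a % 2 = 0) (hb : b % 2 = 0) : z ∈ L.lattice := by
  obtain ⟨a', rfl⟩ := Int.dvd_of_emod_eq_zero ha
  obtain ⟨b', rfl⟩ := Int.dvd_of_emod_eq_zero hb
  refine PeriodPair.mem_lattice.2 ⟨a', b', ?_⟩
  push_cast at h
  linear_combination (1 / 2 : ℂ) * h

lemma sub_mem_of (L : PeriodPair) (z z' : ℂ) (a b a' b' : ℤ) (h : a * L.ω₁ + b * L.ω₂ = 2 * z)
    (h' : a' * L.ω₁ + b' * L.ω₂ = 2 * z')
    (ha : a % 2 = a' % 2) (hb : b % 2 = b' % 2) : z - z' ∈ L.lattice := by
  refine half_mem L (z - z') (a - a') (b - b') ?_ (by omega) (by omega)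
  push_cast
  linear_combination h - h'

lemma three (L : PeriodPair) {w₁ w₂ w₃ : ℂ} (h : Two3 L w₁ w₂ w₃) (z : ℂ) (hz : z ∉ L.lattice)
    (h2 : 2 * z ∈ L.lattice) :
    z - w₁ ∈ L.lattice ∨ z - w₂ ∈ L.lattice ∨ z - w₃ ∈ L.lattice := by
  obtain ⟨a₁, b₁, e₁⟩ := PeriodPair.mem_lattice.1 h.t₁
  obtain ⟨a₂, b₂, e₂⟩ := PeriodPair.mem_lattice.1 h.t₂
  obtain ⟨a₃, b₃, e₃⟩ := PeriodPair.mem_lattice.1 h.t₃
  obtain ⟨a, b, e⟩ := PeriodPair.mem_lattice.1 h2
  have k1 : ¬ (a₁ % 2 = 0 ∧ b₁ % 2 = 0) := fun k => h.n₁ (half_mem L _ _ _ e₁ k.1 k.2)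
  have k2 : ¬ (a₂ % 2 = 0 ∧ b₂ % 2 = 0) := fun k => h.n₂ (half_mem L _ _ _ e₂ k.1 k.2)
  have k3 : ¬ (a₃ % 2 = 0 ∧ b₃ % 2 = 0) := fun k => h.n₃ (half_mem L _ _ _ e₃ k.1 k.2)
  have k : ¬ (a % 2 = 0 ∧ b % 2 = 0) := fun k => hz (half_mem L _ _ _ e k.1 k.2)
  have k12 : ¬ (a₁ % 2 = a₂ % 2 ∧ b₁ % 2 = b₂ % 2) :=
    fun k => h.d₁₂ (sub_mem_of L _ _ _ _ _ _ e₁ e₂ k.1 k.2)
  have k13 : ¬ (a₁ % 2 = a₃ % 2 ∧ b₁ % 2 = b₃ % 2) :=
    fun k => h.d₁₃ (sub_mem_of L _ _ _ _ _ _ e₁ e₃ k.1 k.2)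
  have k23 : ¬ (a₂ % 2 = a₃ % 2 ∧ b₂ % 2 = b₃ % 2) :=
    fun k => h.d₂₃ (sub_mem_of L _ _ _ _ _ _ e₂ e₃ k.1 k.2)
  by_cases c1 : a % 2 = a₁ % 2 ∧ b % 2 = b₁ % 2
  · exact Or.inl (sub_mem_of L _ _ _ _ _ _ e e₁ c1.1 c1.2)
  by_cases c2 : a % 2 = a₂ % 2 ∧ b % 2 = b₂ % 2
  · exact Or.inr (Or.inl (sub_mem_of L _ _ _ _ _ _ e e₂ c2.1 c2.2))
  by_cases c3 : a % 2 = a₃ % 2 ∧ b % 2 = b₃ % 2
  · exact Or.inr (Or.inr (sub_mem_of L _ _ _ _ _ _ e e₃ c3.1 c3.2))
  exfalso
  omega

lemma mk3 (L : PeriodPair) (w₁ w₂ : ℂ) (n₁ : w₁ ∉ L.lattice) (t₁ : 2 * w₁ ∈ L.lattice)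
    (n₂ : w₂ ∉ L.lattice) (t₂ : 2 * w₂ ∈ L.lattice) (d : w₁ - w₂ ∉ L.lattice) :
    Two3 L w₁ w₂ (w₁ + w₂) := by
  refine ⟨n₁, n₂, ?_, t₁, t₂, ?_, d, ?_, ?_⟩
  · intro k
    apply d
    have h := sub_mem k t₂
    have e : w₁ + w₂ - 2 * w₂ = w₁ - w₂ := by ring
    rwa [e] at h
  · rw [mul_add]
    exact add_mem t₁ t₂
  · intro k
    apply n₂
    have h := neg_mem k
    have e : -(w₁ - (w₁ + w₂)) = w₂ := by ring
    rwa [e] at h
  · intro k
    apply n₁
    have h := neg_mem k
    have e : -(w₂ - (w₁ + w₂)) = w₁ := by ring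
    rwa [e] at h

lemma sum_mem (L : PeriodPair) {w₁ w₂ w₃ : ℂ} (h : Two3 L w₁ w₂ w₃) :
    w₁ + w₂ - w₃ ∈ L.lattice := by
  have h' := mk3 L w₁ w₂ h.n₁ h.t₁ h.n₂ h.t₂ h.d₁₂
  rcases three L h (w₁ + w₂) h'.n₃ h'.t₃ with k | k | k
  · exact absurd (by
      have e : w₁ + w₂ - w₁ = w₂ := by ring
      rwa [e] at k) h.n₂
  · exact absurd (by
      have e : w₁ + w₂ - w₂ = w₁ := by ring
      rwa [e] at k) h.n₁
  · exact k

lemma per (L : PeriodPair) (z z' : ℂ) (h : z - z' ∈ L.lattice) :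
    L.weierstrassP z = L.weierstrassP z' := by
  have h1 := L.weierstrassP_add_coe z' ⟨z - z', h⟩
  have e : z' + ((⟨z - z', h⟩ : L.lattice) : ℂ) = z := by
    simp
  rwa [e] at h1

end TW3x

theorem o_TW3 : So_TW3 := by
  intro L
  refine ⟨⟨L.ω₁ / 2, L.ω₂ / 2, L.ω₁ / 2 + L.ω₂ / 2, TW3x.mk3 L _ _ L.ω₁_div_two_notMem_lattice
    ?_ L.ω₂_div_two_notMem_lattice ?_ ?_⟩, ?_, ?_⟩
  · rw [mul_div_cancel₀ _ (two_ne_zero)]
    exact L.ω₁_mem_lattice
  · rw [mul_div_cancel₀ _ (two_ne_zero)]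
    exact L.ω₂_mem_lattice
  · have h := (L.mul_ω₁_add_mul_ω₂_mem_lattice (α := 1 / 2) (β := -1 / 2)).not.mpr (by norm_num)
    intro h2
    apply h
    have e : (((1 / 2 : ℚ) : ℂ)) * L.ω₁ + (((-1 / 2 : ℚ) : ℂ)) * L.ω₂ = L.ω₁ / 2 - L.ω₂ / 2 := by
      push_cast
      ring
    rw [e]
    exact h2
  · intro w₁ w₂ n₁ t₁ n₂ t₂ d
    exact TW3x.mk3 L w₁ w₂ n₁ t₁ n₂ t₂ d
  · intro w₁ w₂ w₃ h
    have hs := TW3x.sum_mem L h
    have h' := TW3x.mk3 L w₁ w₂ h.n₁ h.t₁ h.n₂ h.t₂ h.d₁₂
    obtain ⟨n12, n13, n23, s1, s2, s3⟩ := ta_ROO (ta_TW2 b_ADD b_ZER b_NEQ) b_NEQ L w₁ w₂ h.n₁ h.n₂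
      h'.n₃ h.t₁ h.t₂
    rw [TW3x.per L _ _ hs] at n13 n23 s1 s2 s3
    refine ⟨?_, TW3x.three L h, ?_, n12, n13, n23⟩
    · have k := add_mem hs h.t₃
      have e : w₁ + w₂ - w₃ + 2 * w₃ = w₁ + w₂ + w₃ := by ring
      rwa [e] at k
    · intro z hz
      rw [L.derivWeierstrassP_sq z hz]
      linear_combination (4 * L.weierstrassP z ^ 2) * s1 - (4 * L.weierstrassP z) * s2 + 4 * s3

end

end Pool.Agent.OBR


end
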