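import Pool.Agent.MVF.C008
import Pool.Agent.MVF.C014
import Pool.Agent.MVF.C015
import Pool.Agent.MVF.C027
import Pool.Agent.MVF.C033
import Pool.Agent.MVF.C035
import Pool.Agent.MVF.C054
import Pool.Agent.MVF.C057
import Pool.Agent.MVF.C084
import Pool.Agent.MVF.C091
import Pool.Agent.MVF.C117
import Pool.Agent.MVF.C155
import Pool.Agent.OBM.C04

/-! Parts: OB.R_FIX, OB.R_GRD, OB.R_INX, OB.R_KUA, OB.R_KUC, OB.R_KUM, OB.R_LFT, OB.R_MUL, OB.R_NFI, OB.R_NFR, OB.R_NFS, OB.R_NSQ, OB.R_POW, OB.R_PRN, OB.R_PS2, OB.R_PSI, OB.R_QUO, OB.R_RF2, OB.R_SCL -/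

section

/-!
# OB, block GR, module FIX: the far point is fixed by complex multiplications of odd norm prime to `p`
-/

set_option autoImplicit false

open WeierstrassCurve Polynomial

namespace Pool.Agent.OBR

open _root_.MU3 Pool.Agent.MU3A Pool.Agent.MU3B Pool.Agent.RI Pool.Agent.MUX Pool.Agent.MUXU
open Pool.Agent.MUXV (GR InK tX)
open Pool.Agent.NS Pool.Agent.NSR Pool.Agent.OB

noncomputable section

namespace FIXx

lemma wp_per {L : PeriodPair} {a b : ℂ} (h : a - b ∈ L.lattice) :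
    L.weierstrassP a = L.weierstrassP b := by
  have h1 := L.weierstrassP_add_coe b ⟨a - b, h⟩
  rw [← h1]
  congr 1
  show a = b + (a - b)
  ring

lemma xu_per {L : PeriodPair} {a b : ℂ} (u e : ℂ) (h : a - b ∈ L.lattice) :
    xu L u e a = xu L u e b := by
  unfold xu
  rw [wp_per h]

/-- a point killed by `2` and by an odd number is in the lattice -/
lemma odd_two {L : PeriodPair} {n : ℕ} (hn : Odd n) {z : ℂ} (h2 : 2 * z ∈ L.lattice)
    (h : (n : ℂ) * z ∈ L.lattice) : z ∈ L.lattice := by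
  obtain ⟨k, rfl⟩ := hn
  have h3 : (k : ℤ) • (2 * z) ∈ L.lattice := L.lattice.smul_mem _ h2
  have h4 := sub_mem h h3
  have h5 : ((2 * k + 1 : ℕ) : ℂ) * z - (k : ℤ) • (2 * z) = z := by
    rw [zsmul_eq_mul]
    push_cast
    ring
  rwa [h5] at h4

/-- translation by a point of order two -/
lemma tw2 (hLG : So_LGE) (hTW : So_TW3) {L : PeriodPair} {w₁ w₂ w₃ : ℂ} (h : Two3 L w₁ w₂ w₃)
    {z : ℂ} (hz : z ∉ L.lattice) (hz1 : z + w₁ ∉ L.lattice) :
    (L.weierstrassP (z + w₁) - L.weierstrassP w₁) * (L.weierstrassP z - L.weierstrassP w₁) =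
      (L.weierstrassP w₂ - L.weierstrassP w₁) * (L.weierstrassP w₃ - L.weierstrassP w₁) := by
  obtain ⟨u, hu⟩ := IsAlgClosed.exists_pow_nat_eq
    (L.weierstrassP w₂ - L.weierstrassP w₁) (n := 2) two_pos
  have hne : L.weierstrassP w₂ - L.weierstrassP w₁ ≠ 0 :=
    sub_ne_zero.2 ((hTW L).2.2 w₁ w₂ w₃ h).2.2.2.1.symm
  have h1 := rtwo L u (L.weierstrassP w₁) _ w₁ (hLG L w₁ w₂ w₃ u h hu) h.n₁ h.t₁ rfl z hz hz1
  unfold xu at h1
  rw [hu] at h1
  field_simp at h1
  linear_combination h1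

lemma hX (L : PeriodPair) {u : ℂ} (hu : u ≠ 0) (e a b : ℂ) :
    L.weierstrassP a - L.weierstrassP b = u ^ 2 * (xu L u e a - xu L u e b) := by
  unfold xu
  field_simp
  ring

/-- the key formula -/
lemma key (hLG : So_LGE) (hTW : So_TW3) {L : PeriodPair} {α : ℂ} (hα : α ≠ 0) (hI : Isg L L α)
    {R : Finset ℂ} (hR : IsRpM L L α R) (hq2 : ∀ q ∈ R, 2 * q ∉ L.lattice) {wi wj wk : ℂ}
    (h : Two3 L wi wj wk) (hi : α * wi ∉ L.lattice) (hj : α * wj ∉ L.lattice) {u : ℂ}
    (hu : u ≠ 0) (e : ℂ) :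
    α ^ 2 * (xu L u e (α * wi) - xu L u e (α * wj)) * (∏ q ∈ R, (xu L u e wi - xu L u e q)) *
      (∏ q ∈ R, (xu L u e wj - xu L u e q)) =
    (xu L u e wi - xu L u e wj) ^ (R.card + 1) * ∏ q ∈ R, (xu L u e wk - xu L u e q) := by
  have h1 := u_PFI L L α R hα hI hR wj hj wi hi
  simp only [hX L hu e] at h1
  rw [Finset.prod_mul_distrib, Finset.prod_mul_distrib, Finset.prod_const] at h1
  have h2 : ∀ q ∈ R, (xu L u e wi - xu L u e (wj + q)) * (xu L u e wj - xu L u e q) =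
      (xu L u e wi - xu L u e wj) * (xu L u e wk - xu L u e q) := by
    intro q hq
    have hq1 : q + wj ∉ L.lattice := by
      intro hc
      apply hq2 q hq
      have h5 := sub_mem (L.lattice.smul_mem (2 : ℤ) hc) h.t₂
      have h6 : (2 : ℤ) • (q + wj) - 2 * wj = 2 * q := by
        rw [zsmul_eq_mul]
        push_cast
        ring
      rwa [h6] at h5
    have h3 := tw2 hLG hTW h.rot (hR.ne q hq) hq1
    rw [add_comm q wj, hX L hu e, hX L hu e, hX L hu e, hX L hu e] at h3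
    have hu4 : u ^ 2 * u ^ 2 ≠ 0 := mul_ne_zero (pow_ne_zero _ hu) (pow_ne_zero _ hu)
    have h4 : (xu L u e (wj + q) - xu L u e wj) * (xu L u e q - xu L u e wj) =
        (xu L u e wk - xu L u e wj) * (xu L u e wi - xu L u e wj) := by
      apply mul_left_cancel₀ hu4
      linear_combination h3
    linear_combination h4
  have h3 : (∏ q ∈ R, (xu L u e wi - xu L u e (wj + q))) *
      ∏ q ∈ R, (xu L u e wj - xu L u e q) =
      (xu L u e wi - xu L u e wj) ^ R.card * ∏ q ∈ R, (xu L u e wk - xu L u e q) := by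
    rw [← Finset.prod_mul_distrib, Finset.prod_congr rfl h2, Finset.prod_mul_distrib,
      Finset.prod_const]
  have hu5 : u ^ 2 * (u ^ 2) ^ R.card ≠ 0 :=
    mul_ne_zero (pow_ne_zero _ hu) (pow_ne_zero _ (pow_ne_zero _ hu))
  apply mul_left_cancel₀ hu5
  rw [pow_succ]
  linear_combination (∏ q ∈ R, (xu L u e wj - xu L u e q)) * h1 +
    u ^ 2 * (u ^ 2) ^ R.card * (xu L u e wi - xu L u e wj) * h3

lemma one_of_mul {Γ : Type} [LinearOrderedCommGroupWithZero Γ] {x y : Γ} (hx : x ≤ 1)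
    (hy : y ≤ 1) (h : x * y = 1) : x = 1 ∧ y = 1 := by
  constructor
  · refine le_antisymm hx ?_
    rw [← h]
    calc x * y ≤ x * 1 := mul_le_mul_right hy x
      _ = x := mul_one x
  · refine le_antisymm hy ?_
    rw [← h]
    calc x * y ≤ 1 * y := mul_le_mul_left hx y
      _ = y := one_mul y

/-- labels with the first point `w` -/
lemma labels (hTW : So_TW3) {L : PeriodPair} {w : ℂ} (h1 : w ∉ L.lattice)
    (h2 : 2 * w ∈ L.lattice) : ∃ w₂ w₃, Two3 L w w₂ w₃ := by
  obtain ⟨⟨a, b, c, h⟩, h3, -⟩ := hTW L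
  by_cases h4 : w - a ∈ L.lattice
  · refine ⟨b, w + b, h3 w b h1 h2 h.n₂ h.t₂ fun h5 => h.d₁₂ ?_⟩
    have h6 := sub_mem h5 h4
    rwa [sub_sub_sub_cancel_left] at h6
  · exact ⟨a, w + a, h3 w a h1 h2 h.n₁ h.t₁ h4⟩

end FIXx

open _root_.Pool.Agent.OBR.FIXx in
/-- (FIX) -/
theorem o_FIX (hTW : So_TW3) (hLG : So_LGE) : So_FIX := by
  intro A B V hQ hv2 b L om hL w d hF al n hnm hodd hvn
  obtain ⟨w₂, w₃, h123⟩ := labels hTW hF.ne hF.two
  set α : ℂ := emb al with hαdef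
  -- `n z ∈ L` if `α z ∈ L`
  have hCM := IsLI.hasCM hQ hL
  have hst : emb (star al) * α = (n : ℂ) := by
    rw [hαdef, ← emb_mul hQ, mul_comm, mul_star, emb_intCast hQ, hnm]
    norm_cast
  have hn0 : (n : ℂ) ≠ 0 := by
    have : n ≠ 0 := by
      rintro rfl
      exact absurd hodd (by decide)
    exact_mod_cast this
  have hα : α ≠ 0 := by
    intro h
    rw [h, mul_zero] at hst
    exact hn0 hst.symm
  have hnz : ∀ z, α * z ∈ L.lattice → (n : ℂ) * z ∈ L.lattice := by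
    intro z hz
    have h1 := hCM (star al) _ hz
    rwa [← mul_assoc, hst] at h1
  have hI : Isg L L α := fun z hz => hCM al z hz
  have h2α : ∀ z, 2 * z ∈ L.lattice → α * z ∈ L.lattice → z ∈ L.lattice :=
    fun z h1 h2 => odd_two hodd h1 (hnz z h2)
  obtain ⟨⟨R, hR⟩, -⟩ := u_BAC.2 L L α hα hI
  have hq2 : ∀ q ∈ R, 2 * q ∉ L.lattice := fun q hq h =>
    hR.ne q hq (h2α q h (hR.mem q hq))
  -- the model
  obtain ⟨-, hcl, -, hn21, hn23, hn13⟩ := (hTW L).2.2 w₂ w w₃ h123.rot.swap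
  obtain ⟨u, hu2⟩ := IsAlgClosed.exists_pow_nat_eq
    (L.weierstrassP w - L.weierstrassP w₂) (n := 2) two_pos
  have hleg := hLG L w₂ w w₃ u h123.rot.swap hu2
  have hu : u ≠ 0 := hleg.u0
  set e := L.weierstrassP w₂ with he
  have hne : L.weierstrassP w - e ≠ 0 := sub_ne_zero.2 hn21.symm
  set lam := (L.weierstrassP w₃ - e) / (L.weierstrassP w - e) with hlam
  have hX2 : xu L u e w₂ = 0 := by
    unfold xu
    rw [he, sub_self, zero_div]
  have hX1 : xu L u e w = 1 := by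
    unfold xu
    rw [hu2, div_self hne]
  have hX3 : xu L u e w₃ = lam := by
    unfold xu
    rw [hu2]
  have hvne : V.valuation (L.weierstrassP w - e) ≠ 0 := V.valuation.ne_zero_iff.2 hne
  have hvlam : V.valuation lam < 1 := by
    have h1 := hF.dist w₂ w₃ h123
    rw [← he, Valuation.map_sub_swap] at h1
    rw [hlam, map_div₀, h1, mul_div_assoc, div_self hvne, mul_one]
    exact hF.lt
  have hv1lam : V.valuation (1 - lam) = 1 := by
    have h1 := V.valuation.map_sub_eq_of_lt_left (x := 1) (y := lam)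
      (by rw [map_one]; exact hvlam)
    rw [h1, map_one]
  -- torsion
  have htn : ∀ z, z ∉ L.lattice → (n : ℂ) * z ∈ L.lattice → V.valuation (xu L u e z) ≤ 1 :=
    fun z h1 h2 => (rtor V L u e lam hv2 hvlam.le hleg n hvn z h1 h2).1
  have ht2 : ∀ z, z ∉ L.lattice → 2 * z ∈ L.lattice → V.valuation (xu L u e z) ≤ 1 := by
    intro z h1 h2
    refine (rtor V L u e lam hv2 hvlam.le hleg 2 (by exact_mod_cast hv2) z h1 ?_).1
    exact_mod_cast h2
  have hqle : ∀ q ∈ R, V.valuation (xu L u e q) ≤ 1 := fun q hq =>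
    htn q (hR.ne q hq) (hnz q (hR.mem q hq))
  have hPle : ∀ z, z ∉ L.lattice → 2 * z ∈ L.lattice →
      V.valuation (∏ q ∈ R, (xu L u e z - xu L u e q)) ≤ 1 := by
    intro z h1 h2
    rw [map_prod]
    refine Finset.prod_le_one' fun q hq => ?_
    exact (V.valuation.map_sub _ _).trans (max_le (ht2 z h1 h2) (hqle q hq))
  have hP0 : ∀ z, z ∉ L.lattice → 2 * z ∈ L.lattice →
      V.valuation (∏ q ∈ R, (xu L u e z - xu L u e q)) ≠ 0 := by
    intro z h1 h2
    rw [V.valuation.ne_zero_iff, Finset.prod_ne_zero_iff]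
    intro q hq h3
    have h4 := hX L hu e z q
    rw [h3, mul_zero, sub_eq_zero] at h4
    apply hq2 q hq
    have h2' : (2 : ℤ) • z ∈ L.lattice := by
      rw [zsmul_eq_mul]
      exact_mod_cast h2
    rcases b_NEQ L q z (hR.ne q hq) h1 h4 with h5 | h5
    · have h6 := sub_mem h2' (L.lattice.smul_mem (2 : ℤ) h5)
      have h7 : (2 : ℤ) • z - (2 : ℤ) • (z - q) = 2 * q := by
        rw [zsmul_eq_mul, zsmul_eq_mul]
        push_cast
        ring
      rwa [h7] at h6
    · have h6 := sub_mem (L.lattice.smul_mem (2 : ℤ) h5) h2'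
      have h7 : (2 : ℤ) • (z + q) - (2 : ℤ) • z = 2 * q := by
        rw [zsmul_eq_mul, zsmul_eq_mul]
        push_cast
        ring
      rwa [h7] at h6
  -- the points `α w_i`
  have hαn : ∀ z, z ∉ L.lattice → 2 * z ∈ L.lattice → α * z ∉ L.lattice :=
    fun z h1 h2 h3 => h1 (h2α z h2 h3)
  have hαt : ∀ z, 2 * z ∈ L.lattice → 2 * (α * z) ∈ L.lattice := by
    intro z h1
    have h2 := hI _ h1
    rwa [mul_left_comm] at h2
  have hαd : ∀ y z, 2 * y ∈ L.lattice → 2 * z ∈ L.lattice → y - z ∉ L.lattice →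
      α * y - α * z ∉ L.lattice := by
    intro y z h1 h2 h3 h4
    rw [← mul_sub] at h4
    apply h3
    refine h2α _ ?_ h4
    rw [mul_sub]
    exact sub_mem h1 h2
  have e12 := key hLG hTW hα hI hR hq2 h123 (hαn _ h123.n₁ h123.t₁) (hαn _ h123.n₂ h123.t₂) hu e
  have e13 := key hLG hTW hα hI hR hq2 h123.swap (hαn _ h123.n₁ h123.t₁)
    (hαn _ h123.n₃ h123.t₃) hu e
  have f12 := congrArg V.valuation e12
  have f13 := congrArg V.valuation e13
  have hd12 : V.valuation (xu L u e w - xu L u e w₂) = 1 := by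
    rw [hX1, hX2, sub_zero, map_one]
  have hd13 : V.valuation (xu L u e w - xu L u e w₃) = 1 := by
    rw [hX1, hX3, hv1lam]
  rw [map_mul, map_mul, map_mul, map_mul, map_pow, map_pow, hd12, one_pow, one_mul] at f12
  rw [map_mul, map_mul, map_mul, map_mul, map_pow, map_pow, hd13, one_pow, one_mul] at f13
  set x12 := V.valuation (xu L u e (α * w) - xu L u e (α * w₂)) with hx12
  set x13 := V.valuation (xu L u e (α * w) - xu L u e (α * w₃)) with hx13
  set m := V.valuation α ^ 2 with hm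
  set p1 := V.valuation (∏ q ∈ R, (xu L u e w - xu L u e q)) with hp1
  set p2 := V.valuation (∏ q ∈ R, (xu L u e w₂ - xu L u e q)) with hp2
  set p3 := V.valuation (∏ q ∈ R, (xu L u e w₃ - xu L u e q)) with hp3
  have hm1 : m ≤ 1 := pow_le_one' (vemb_le hQ V al) 2
  have hx12' : x12 ≤ 1 := (V.valuation.map_sub _ _).trans (max_le
    (ht2 _ (hαn _ h123.n₁ h123.t₁) (hαt _ h123.t₁)) (ht2 _ (hαn _ h123.n₂ h123.t₂) (hαt _ h123.t₂)))
  have hx13' : x13 ≤ 1 := (V.valuation.map_sub _ _).trans (max_le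
    (ht2 _ (hαn _ h123.n₁ h123.t₁) (hαt _ h123.t₁)) (ht2 _ (hαn _ h123.n₃ h123.t₃) (hαt _ h123.t₃)))
  have hp1' : p1 ≤ 1 := hPle w h123.n₁ h123.t₁
  have hp20 : p2 ≠ 0 := hP0 w₂ h123.n₂ h123.t₂
  have hab : (m * x12 * p1) * (m * x13 * p1) = 1 := by
    apply mul_right_cancel₀ hp20
    calc (m * x12 * p1) * (m * x13 * p1) * p2 = (m * x13 * p1) * ((m * x12 * p1) * p2) := by
          rw [mul_comm (m * x12 * p1) (m * x13 * p1), mul_assoc]
      _ = 1 * p2 := by rw [f12, f13, one_mul]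
  have hle3 : ∀ {x : V.ValueGroup}, x ≤ 1 → m * x * p1 ≤ 1 := fun {x} hx =>
    mul_le_one' (mul_le_one' hm1 hx) hp1'
  obtain ⟨ha, hb⟩ := one_of_mul (hle3 hx12') (hle3 hx13') hab
  have hx12'' : x12 = 1 := (one_of_mul hm1 hx12' (one_of_mul (mul_le_one' hm1 hx12') hp1' ha).1).2
  have hx13'' : x13 = 1 := (one_of_mul hm1 hx13' (one_of_mul (mul_le_one' hm1 hx13') hp1' hb).1).2
  -- the permutation
  have hc : ∀ z, z ∉ L.lattice → 2 * z ∈ L.lattice →
      z - w₂ ∈ L.lattice ∨ z - w ∈ L.lattice ∨ z - w₃ ∈ L.lattice := hcl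
  have hsub : ∀ {y z t : ℂ}, y - z ∉ L.lattice → y - t ∈ L.lattice → z - t ∈ L.lattice → False := by
    intro y z t h1 h2 h3
    apply h1
    have := sub_mem h2 h3
    rwa [sub_sub_sub_cancel_right] at this
  have g12 := hαd w w₂ h123.t₁ h123.t₂ h123.d₁₂
  have g13 := hαd w w₃ h123.t₁ h123.t₃ h123.d₁₃
  have g23 := hαd w₂ w₃ h123.t₂ h123.t₃ h123.d₂₃
  have hv23 : V.valuation (xu L u e w₂ - xu L u e w₃) < 1 := by
    rw [hX2, hX3, zero_sub, Valuation.map_neg]
    exact hvlam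
  have hv32 : V.valuation (xu L u e w₃ - xu L u e w₂) < 1 := by
    rw [Valuation.map_sub_swap]
    exact hv23
  rcases hc _ (hαn _ h123.n₁ h123.t₁) (hαt _ h123.t₁) with h | h | h
  · exfalso
    rcases hc _ (hαn _ h123.n₂ h123.t₂) (hαt _ h123.t₂) with h' | h' | h'
    · exact hsub g12 h h'
    · rcases hc _ (hαn _ h123.n₃ h123.t₃) (hαt _ h123.t₃) with h'' | h'' | h''
      · exact hsub g13 h h''
      · exact hsub g23 h' h''
      · rw [hx13, xu_per u e h, xu_per u e h''] at hx13''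
        exact hv23.ne hx13''
    · rw [hx12, xu_per u e h, xu_per u e h'] at hx12''
      exact hv23.ne hx12''
  · exact h
  · exfalso
    rcases hc _ (hαn _ h123.n₂ h123.t₂) (hαt _ h123.t₂) with h' | h' | h'
    · rw [hx12, xu_per u e h, xu_per u e h'] at hx12''
      exact hv32.ne hx12''
    · rcases hc _ (hαn _ h123.n₃ h123.t₃) (hαt _ h123.t₃) with h'' | h'' | h''
      · rw [hx13, xu_per u e h, xu_per u e h''] at hx13''
        exact hv32.ne hx13''
      · exact hsub g23 h' h''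
      · exact hsub g13 h h''
    · exact hsub g12 h h'

end

end Pool.Agent.OBR


end

section

/-!
# OB, block GR, module GRD (helper98): good reduction, all labels
-/

set_option autoImplicit false

namespace Pool.Agent.OBR

open _root_.MU3 Pool.Agent.MU3A Pool.Agent.MU3B Pool.Agent.RI Pool.Agent.MUX Pool.Agent.MUXU
open Pool.Agent.NS Pool.Agent.NSR Pool.Agent.OB

noncomputable section

/-- (GRD) good reduction, all labels -/
theorem o_GRD (h1 : So_DIC) (h2 : So_NFI) (h3 : So_NFR) (h4 : So_NFS) : So_GRD := by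
  intro p er A B P V hC b L om hL w₁ w₂ w₃ u hw hu
  have hno : ∀ w d, ¬ Far V L w d := by
    rcases hC.cq.hB with hB | hB
    · exact h3 p er A B P V hC hB b L om hL
    · by_cases hA : (2 : ℤ) ∣ A
      · exact h4 p er A B P V hC hB hA b L om hL
      · exact h2 p er A B P V hC hB hA b L om hL
  rcases h1 V L with h | ⟨w, d, h⟩
  · exact h w₁ w₂ w₃ u hw hu
  · exact absurd h (hno w d)

end

end Pool.Agent.OBR


end

section

/-!
# OB, block GR (helper70): `So_INX`, reduction is injective on points of level prime to `P`, up to sign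
-/

set_option autoImplicit false

open WeierstrassCurve Polynomial

namespace Pool.Agent.OBR

open _root_.MU3 Pool.Agent.MU3A Pool.Agent.MU3B Pool.Agent.RI Pool.Agent.MUX Pool.Agent.MUXU
open Pool.Agent.MUXV (GR InK tX)
open Pool.Agent.NS Pool.Agent.NSR Pool.Agent.OB

noncomputable section

theorem o_INX (h1 : So_GRL) (h2 : So_INJ) : So_INX := by
  intro p er A B P V hC b L om hL u e lam hG m hm z z' hz hz' hT hT' hlt
  obtain ⟨ξ, G, -⟩ := h1 V L u e lam hC.v2 hG
  have nK : ∀ w : ℂ, w ∉ L.lattice → Tor m L w → ¬ InK V L (xu L u e) w := by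
    intro w hw hTw h
    rcases h with h | h
    · exact hw h
    · exact h ((ValuationSubring.valuation_le_one_iff _ _).1
        (h2 p er A B P V hC b L om hL u e lam hG m hm w hw hTw).1)
  have hTa : Tor m L (z + z') := by
    intro x hx
    rw [mul_add]
    exact add_mem (hT x hx) (hT' x hx)
  have hTs : Tor m L (z - z') := by
    intro x hx
    rw [mul_sub]
    exact sub_mem (hT x hx) (hT' x hx)
  by_contra hcon
  rw [not_or] at hcon
  exact absurd (Pool.Agent.MUXV.v_X_sub G (nK z hz hT) (nK z' hz' hT') (nK _ hcon.2 hTa)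
    (nK _ hcon.1 hTs)) hlt.ne

end

end Pool.Agent.OBR


end

section

/-!
# OB, block GR: KUA (helper28)
-/

set_option autoImplicit false

namespace Pool.Agent.OBR

open _root_.MU3 Pool.Agent.MU3A Pool.Agent.MU3B Pool.Agent.RI Pool.Agent.MUX Pool.Agent.MUXU

namespace KUAx

/-- a prime of `𝓞 L` whose norm is a prime number `q` is the kernel of a homomorphism onto `ZMod q` -/
theorem quot (L : Type) [Field L] [NumberField L]
    (v : IsDedekindDomain.HeightOneSpectrum (NumberField.RingOfIntegers L))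
    (hv : (Ideal.absNorm v.asIdeal).Prime) :
    ∃ f : NumberField.RingOfIntegers L →+* ZMod (Ideal.absNorm v.asIdeal),
      Function.Surjective f ∧ ∀ z, f z = 0 ↔ z ∈ v.asIdeal := by
  have hc : Nat.card (NumberField.RingOfIntegers L ⧸ v.asIdeal) = Ideal.absNorm v.asIdeal := by
    rw [Ideal.absNorm_apply, Submodule.cardQuot_apply]
  have hfin : Finite (NumberField.RingOfIntegers L ⧸ v.asIdeal) :=
    Nat.finite_of_card_ne_zero (by rw [hc]; exact hv.ne_zero)
  have : Fintype (NumberField.RingOfIntegers L ⧸ v.asIdeal) := Fintype.ofFinite _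
  have hc' : Fintype.card (NumberField.RingOfIntegers L ⧸ v.asIdeal) =
      Ideal.absNorm v.asIdeal := by
    rw [← Nat.card_eq_fintype_card, hc]
  let e := ZMod.ringEquivOfPrime (NumberField.RingOfIntegers L ⧸ v.asIdeal) hv hc'
  refine ⟨(e.symm : _ →+* _).comp (Ideal.Quotient.mk v.asIdeal), ?_, fun z => ?_⟩
  · exact e.symm.surjective.comp Ideal.Quotient.mk_surjective
  · rw [RingHom.comp_apply, RingHom.coe_coe, map_eq_zero_iff _ e.symm.injective,
      Ideal.Quotient.eq_zero_iff_mem]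

end KUAx

/-- (KUA) -/
theorem o_KUA (h1 : So_KUM) : So_KUA := by
  intro A B l _ L _ _ ζ j al hζ h0 S h
  refine h1 l L ζ (j al) hζ h0 S fun v hv hvS => ?_
  obtain ⟨f, hf, hk⟩ := KUAx.quot L v hv
  have main : ∀ a : NumberField.RingOfIntegers L, f (j al) = f a ^ l →
      ∃ a : NumberField.RingOfIntegers L, j al - a ^ l ∈ v.asIdeal := fun a ha =>
    ⟨a, (hk _).1 (by rw [map_sub, map_pow, ha, sub_self])⟩
  rcases h with h | ⟨⟨i, hi⟩, h⟩
  · obtain ⟨x, hx⟩ := h _ hv hvS (f.comp j)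
    obtain ⟨a, rfl⟩ := hf x
    exact main a hx
  · obtain ⟨x, hx⟩ := h _ hv hvS (f.comp j)
    obtain ⟨a, rfl⟩ := hf x
    rcases hx with hx | hx
    · exact main a hx
    · refine main (i * a) ?_
      rw [map_mul, mul_pow, ← map_pow f i, hi, map_neg, map_one, neg_one_mul]
      exact hx

end Pool.Agent.OBR


end

section

/-!
# OB, block GR, KUC: `l`-th powers in `O`, up to sign
-/

set_option autoImplicit false

open WeierstrassCurve Polynomial

namespace Pool.Agent.OBR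

open _root_.MU3 Pool.Agent.MU3A Pool.Agent.MU3B Pool.Agent.RI Pool.Agent.MUX Pool.Agent.MUXU
open Pool.Agent.NS Pool.Agent.NSR Pool.Agent.OB

noncomputable section

namespace KUCx

open Pool.Agent.MUXE.RNGaux (eH eH_apply w_intQ emb_int int_iff)

variable {A B : ℤ}

/-- descent to `O` -/
theorem desc (h : CQ A B) {l : ℕ} (hl : 0 < l) (al : OO A B) (z : ℂ) (hz : z ∈ kk A B)
    (hzl : z ^ l = emb al) : ∃ z' : OO A B, al = z' ^ l := by
  have h1 : IsIntegral ℤ z := IsIntegral.of_pow hl (hzl ▸ emb_int h al)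
  obtain ⟨z', rfl⟩ := (int_iff h hz).1 h1
  refine ⟨z', MUX.emb_inj h ?_⟩
  rw [← hzl, ← eH_apply h, ← eH_apply h, map_pow]

theorem emb_neg' (h : CQ A B) (x : OO A B) : emb (-x) = -emb x := by
  rw [← eH_apply h, ← eH_apply h, map_neg]

theorem desc_neg (h : CQ A B) {l : ℕ} (hl : 0 < l) (al : OO A B) (z : ℂ) (hz : z ∈ kk A B)
    (hzl : z ^ l = -emb al) : ∃ z' : OO A B, al = -z' ^ l := by
  obtain ⟨z', h1⟩ := desc h hl (-al) z hz (by rw [emb_neg' h, hzl])
  exact ⟨z', by rw [← h1, neg_neg]⟩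

/-- KUA for the field `k(ω)` -/
theorem root (hA : So_KUA) (h : CQ A B) (S : Finset ℕ) (al : OO A B) (hal : al ≠ 0) (l : ℕ)
    (hl : l.Prime)
    (H : ∀ q : ℕ, q.Prime → q ∉ S → ∀ φ : OO A B →+* ZMod q, ∃ x, φ al = x ^ l ∨ φ al = -x ^ l)
    (ω ζ i : ℂ) (hω : IsIntegral (kk A B) ω)
    (hζm : ζ ∈ IntermediateField.adjoin (kk A B) {ω})
    (him : i ∈ IntermediateField.adjoin (kk A B) {ω}) (hζ : IsPrimitiveRoot ζ l)
    (hi : i ^ l = -1) :
    ∃ y : IntermediateField.adjoin (kk A B) {ω}, (y : ℂ) ^ l = emb al := by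
  have hlp := hl.pos
  haveI : Fact l.Prime := ⟨hl⟩
  let K := kk A B
  let L := IntermediateField.adjoin (kk A B) {ω}
  haveI f1 : FiniteDimensional ℚ K := IntermediateField.adjoin.finiteDimensional (w_intQ h)
  haveI f2 : FiniteDimensional K L := IntermediateField.adjoin.finiteDimensional hω
  haveI f3 : FiniteDimensional ℚ L := FiniteDimensional.trans ℚ K L
  haveI : NumberField L := { to_finiteDimensional := by convert f3 }
  have hint : ∀ x : L, IsIntegral ℤ (x : ℂ) → IsIntegral ℤ x := fun x hx =>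
    (isIntegral_algebraMap_iff (algebraMap L ℂ).injective).1 hx
  have hmem : ∀ x : OO A B, emb x ∈ L := fun x =>
    L.algebraMap_mem (⟨emb x, MUX.emb_mem x⟩ : K)
  let j0 : OO A B →+* L := (eH h).codRestrict L (fun x => by
    rw [eH_apply]
    exact hmem x)
  have hj0 : ∀ x, ((j0 x : L) : ℂ) = emb x := fun x => eH_apply h x
  let j : OO A B →+* NumberField.RingOfIntegers L := j0.codRestrict (integralClosure ℤ L)
    (fun x => hint _ (by rw [hj0]; exact emb_int h x))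
  have hj : ∀ x, ((j x : L) : ℂ) = emb x := fun x => hj0 x
  have iζ : IsIntegral ℤ ζ := hζ.isIntegral hlp
  have ii : IsIntegral ℤ i := IsIntegral.of_pow hlp (by rw [hi]; exact isIntegral_one.neg)
  let ζ' : NumberField.RingOfIntegers L := ⟨⟨ζ, hζm⟩, hint _ iζ⟩
  let i' : NumberField.RingOfIntegers L := ⟨⟨i, him⟩, hint _ ii⟩
  have hinj : Function.Injective (fun x : NumberField.RingOfIntegers L => ((x : L) : ℂ)) :=
    Subtype.coe_injective.comp NumberField.RingOfIntegers.coe_injective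
  have hζ' : IsPrimitiveRoot ζ' l := by
    have e : ((algebraMap L ℂ).comp (algebraMap (NumberField.RingOfIntegers L) L)) ζ' = ζ := rfl
    refine IsPrimitiveRoot.of_map_of_injective (f := ((algebraMap L ℂ).comp
      (algebraMap (NumberField.RingOfIntegers L) L))) ?_ ?_
    · rw [e]
      exact hζ
    · exact hinj
  have hi' : i' ^ l = -1 := by
    apply hinj
    change i ^ l = -1
    exact hi
  have hjal : j al ≠ 0 := by
    intro h0
    apply hal
    apply MUX.emb_inj h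
    rw [← hj al, h0, ← eH_apply h 0, map_zero]
    rfl
  obtain ⟨y, hy⟩ := hA A B l L ζ' j al hζ' hjal S (Or.inr ⟨⟨i', hi'⟩, H⟩)
  refine ⟨y, ?_⟩
  rw [← hj al, ← hy]
  rfl

/-- `l`-th roots and extensions of degree prime to `l` -/
theorem coprime_root {K L : Type} [Field K] [Field L] [Algebra K L] [FiniteDimensional K L]
    (l : ℕ) (hl0 : 0 < l) (hl : Nat.Coprime (Module.finrank K L) l) (a : K) (ha : a ≠ 0) (y : L)
    (hy : y ^ l = algebraMap K L a) : ∃ z : K, z ^ l = a := by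
  have h1 : (Algebra.norm K y) ^ l = a ^ Module.finrank K L := by
    rw [← map_pow, hy, Algebra.norm_algebraMap]
  have h2 : Algebra.norm K y ≠ 0 := by
    intro h0
    rw [h0, zero_pow hl0.ne'] at h1
    exact pow_ne_zero _ ha h1.symm
  have h3 := Nat.gcd_eq_gcd_ab (Module.finrank K L) l
  rw [hl] at h3
  refine ⟨(Algebra.norm K y) ^ (Nat.gcdA (Module.finrank K L) l) *
    a ^ (Nat.gcdB (Module.finrank K L) l), ?_⟩
  have e1 : ((Algebra.norm K y) ^ (Nat.gcdA (Module.finrank K L) l)) ^ l =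
      a ^ ((Module.finrank K L : ℤ) * Nat.gcdA (Module.finrank K L) l) := by
    rw [← zpow_natCast, ← zpow_mul, mul_comm, zpow_mul, zpow_natCast, h1, ← zpow_natCast,
      ← zpow_mul]
  have e2 : (a ^ (Nat.gcdB (Module.finrank K L) l)) ^ l =
      a ^ ((l : ℤ) * Nat.gcdB (Module.finrank K L) l) := by
    rw [← zpow_natCast, ← zpow_mul, mul_comm]
  rw [mul_pow, e1, e2, ← zpow_add₀ ha, ← h3]
  norm_num

theorem finrank_lt (K : IntermediateField ℚ ℂ) (l : ℕ) (hl : l.Prime) (ζ : ℂ)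
    (hζ : IsPrimitiveRoot ζ l) :
    Module.finrank K (IntermediateField.adjoin K {ζ}) < l := by
  have hi : IsIntegral K ζ := (hζ.isIntegral hl.pos).tower_top
  rw [IntermediateField.adjoin.finrank hi]
  have h1 : minpoly K ζ ∣ cyclotomic l K := by
    refine minpoly.dvd K ζ ?_
    rw [aeval_def, ← eval_map, map_cyclotomic]
    exact hζ.isRoot_cyclotomic hl.pos
  have h2 := natDegree_le_of_dvd h1 (cyclotomic_ne_zero l K)
  rw [natDegree_cyclotomic, Nat.totient_prime hl] at h2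
  have := hl.pos
  omega

theorem reprI (K : IntermediateField ℚ ℂ) {x : ℂ}
    (hx : x ∈ IntermediateField.adjoin K {Complex.I}) :
    ∃ c ∈ K, ∃ d ∈ K, x = c + d * Complex.I := by
  have hi : IsAlgebraic K Complex.I :=
    (IsIntegral.of_pow (n := 2) (R := K) (by norm_num)
      (by rw [Complex.I_sq]; exact isIntegral_one.neg)).isAlgebraic
  have h1 : x ∈ (IntermediateField.adjoin K {Complex.I}).toSubalgebra := hx
  rw [IntermediateField.adjoin_simple_toSubalgebra_of_isAlgebraic hi] at h1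
  clear hx
  induction h1 using Algebra.adjoin_induction with
  | mem y hy =>
    rw [Set.mem_singleton_iff] at hy
    exact ⟨0, K.zero_mem, 1, K.one_mem, by rw [hy]; ring⟩
  | algebraMap r => exact ⟨r, r.2, 0, K.zero_mem, by rw [zero_mul, add_zero]; rfl⟩
  | add y z _ _ hy hz =>
    obtain ⟨s, hs, t, ht, rfl⟩ := hy
    obtain ⟨s', hs', t', ht', rfl⟩ := hz
    exact ⟨s + s', K.add_mem hs hs', t + t', K.add_mem ht ht', by ring⟩
  | mul y z _ _ hy hz =>
    obtain ⟨s, hs, t, ht, rfl⟩ := hy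
    obtain ⟨s', hs', t', ht', rfl⟩ := hz
    refine ⟨s * s' - t * t', K.sub_mem (K.mul_mem hs hs') (K.mul_mem ht ht'), s * t' + t * s',
      K.add_mem (K.mul_mem hs ht') (K.mul_mem ht hs'), ?_⟩
    linear_combination (t : ℂ) * t' * Complex.I_sq

/-- squares in `K(i)` -/
theorem sq_root (K : IntermediateField ℚ ℂ) (a y : ℂ) (ha : a ∈ K)
    (hy : y ∈ IntermediateField.adjoin K {Complex.I}) (h : y ^ 2 = a) :
    ∃ z ∈ K, z ^ 2 = a ∨ z ^ 2 = -a := by
  obtain ⟨c, hc, d, hd, rfl⟩ := reprI K hy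
  by_cases hI : Complex.I ∈ K
  · exact ⟨_, K.add_mem hc (K.mul_mem hd hI), Or.inl h⟩
  · have h1 : 2 * (c * d) * Complex.I = a - c ^ 2 + d ^ 2 := by
      rw [← h]
      linear_combination (-d ^ 2) * Complex.I_sq
    have h2 : c * d = 0 := by
      by_contra hne
      apply hI
      have h3 : Complex.I = (a - c ^ 2 + d ^ 2) / (2 * (c * d)) := by
        rw [eq_div_iff (mul_ne_zero two_ne_zero hne)]
        linear_combination h1
      rw [h3]
      have h4 : (2 : ℂ) ∈ K := by exact_mod_cast K.natCast_mem 2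
      exact K.div_mem (K.add_mem (K.sub_mem ha (K.pow_mem hc 2)) (K.pow_mem hd 2))
        (K.mul_mem h4 (K.mul_mem hc hd))
    rcases mul_eq_zero.1 h2 with h3 | h3
    · refine ⟨d, hd, Or.inr ?_⟩
      rw [← h, h3]
      linear_combination (d ^ 2) * Complex.I_sq
    · refine ⟨c, hc, Or.inl ?_⟩
      rw [← h, h3]
      ring

end KUCx

open _root_.Pool.Agent.OBR.KUCx in
theorem o_KUC (hA : So_KUA) : So_KUC := by
  intro A B h S al hal l hl H
  have hal' : emb al ≠ 0 := by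
    intro h0
    apply hal
    apply MUX.emb_inj h
    rw [h0, ← Pool.Agent.MUXE.RNGaux.eH_apply h 0, map_zero]
  rcases hl.eq_two_or_odd' with rfl | hodd
  · have hI : IsIntegral (kk A B) Complex.I :=
      IsIntegral.of_pow (n := 2) (by norm_num) (by rw [Complex.I_sq]; exact isIntegral_one.neg)
    obtain ⟨y, hy⟩ := root hA h S al hal 2 hl H Complex.I (-1) Complex.I hI
      (neg_mem (one_mem _)) (IntermediateField.mem_adjoin_simple_self _ _)
      (IsPrimitiveRoot.neg_one 0 (by norm_num)) Complex.I_sq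
    obtain ⟨z, hz, h1 | h1⟩ := sq_root (kk A B) (emb al) y (MUX.emb_mem al) y.2 hy
    · obtain ⟨z', h2⟩ := desc h hl.pos al z hz h1
      exact ⟨z', Or.inl h2⟩
    · obtain ⟨z', h2⟩ := desc_neg h hl.pos al z hz h1
      exact ⟨z', Or.inr h2⟩
  · have hζ := Complex.isPrimitiveRoot_exp l hl.ne_zero
    have hi : IsIntegral (kk A B) (Complex.exp (2 * Real.pi * Complex.I / l)) :=
      (hζ.isIntegral hl.pos).tower_top
    obtain ⟨y, hy⟩ := root hA h S al hal l hl H _ _ (-1) hi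
      (IntermediateField.mem_adjoin_simple_self _ _) (neg_mem (one_mem _)) hζ hodd.neg_one_pow
    haveI f2 : FiniteDimensional (kk A B)
      (IntermediateField.adjoin (kk A B) {Complex.exp (2 * Real.pi * Complex.I / l)}) :=
      IntermediateField.adjoin.finiteDimensional hi
    have hlt := finrank_lt (kk A B) l hl _ hζ
    have hpos : 0 < Module.finrank (kk A B)
      (IntermediateField.adjoin (kk A B) {Complex.exp (2 * Real.pi * Complex.I / l)}) :=
      Module.finrank_pos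
    obtain ⟨z, hz⟩ := coprime_root (K := kk A B)
      (L := IntermediateField.adjoin (kk A B) {Complex.exp (2 * Real.pi * Complex.I / l)})
      l hl.pos ((Nat.Coprime.symm ((Nat.Prime.coprime_iff_not_dvd hl).2 fun hd =>
        absurd (Nat.le_of_dvd hpos hd) (not_le.2 hlt))))
      ⟨emb al, MUX.emb_mem al⟩ (fun h0 => hal' (congrArg Subtype.val h0)) y
      (Subtype.ext hy)
    obtain ⟨z', h2⟩ := desc h hl.pos al z z.2 (congrArg Subtype.val hz)
    exact ⟨z', Or.inl h2⟩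

end

end Pool.Agent.OBR


end

section

/-!
# Project OB, block GR, module KUM (helper4)

An integer which is an `l`-th power modulo all primes of prime norm, except for finitely many residue
characteristics, is an `l`-th power.
-/

set_option autoImplicit false

open NumberField IsDedekindDomain Finset Filter Topology Asymptotics
open scoped nonZeroDivisors Pointwise

namespace Pool.Agent.OBR

open Pool.Agent.MU3 Pool.Agent.RI Pool.Agent.RID Pool.Agent.Lib_helper28.FROB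

namespace KUMx

variable {L : Type} [Field L] [NumberField L]

theorem fin_mem {t : 𝓞 L} (ht : t ≠ 0) :
    {v : HeightOneSpectrum (𝓞 L) | t ∈ v.asIdeal}.Finite := by
  have h0 : (Ideal.span {t}) ≠ 0 := by
    intro h
    exact ht (Ideal.span_singleton_eq_bot.1 h)
  refine (Ideal.finite_factors h0).subset ?_
  intro v hv
  have hv' : t ∈ v.asIdeal := hv
  change v.asIdeal ∣ Ideal.span {t}
  rw [Ideal.dvd_iff_le, Ideal.span_singleton_le_iff_mem]
  exact hv'

theorem tendsto_log : Tendsto (fun s : ℝ => Real.log (1 / (s - 1))) (𝓝[>] 1) atTop := by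
  have h1 : Tendsto (fun s : ℝ => s - 1) (𝓝[>] 1) (𝓝[>] 0) := by
    refine tendsto_nhdsWithin_iff.2 ⟨?_, ?_⟩
    · have h2 : Tendsto (fun s : ℝ => s - 1) (𝓝 1) (𝓝 (1 - 1)) :=
        tendsto_id.sub tendsto_const_nhds
      rw [sub_self] at h2
      exact h2.mono_left nhdsWithin_le_nhds
    · filter_upwards [self_mem_nhdsWithin] with s hs
      exact sub_pos.2 (Set.mem_Ioi.1 hs)
  have h3 : Tendsto (fun s : ℝ => (s - 1)⁻¹) (𝓝[>] 1) atTop := tendsto_inv_nhdsGT_zero.comp h1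
  refine (Real.tendsto_log_atTop.comp h3).congr fun s => ?_
  simp [one_div]

end KUMx

open _root_.Pool.Agent.OBR.KUMx in
theorem o_KUM : So_KUM := by
  intro l _ L _ _ ζ t hζ ht S hS
  by_contra hcon
  push Not at hcon
  have hl : l.Prime := Fact.out
  have hl2 : (2 : ℝ) ≤ l := by exact_mod_cast hl.two_le
  obtain ⟨M, _, _, _, hM⟩ := Pool.Agent.MUXK.t_KUMX l L ζ t hζ hcon
  have hS' : ∀ ℓ ∈ insert l (S.filter Nat.Prime), ℓ.Prime := by
    intro ℓ hℓ
    rcases Finset.mem_insert.1 hℓ with h | h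
    · rw [h]
      exact hl
    · exact (Finset.mem_filter.1 h).2
  let B₁ : Set (HeightOneSpectrum (𝓞 L)) := {v | l ≤ spl L M v}
  let B₂ : Set (HeightOneSpectrum (𝓞 L)) := {v | ¬ (Ideal.absNorm v.asIdeal).Prime}
  let B₃ : Set (HeightOneSpectrum (𝓞 L)) :=
    {v | Above (insert l (S.filter Nat.Prime)) v} ∪ {v | t ∈ v.asIdeal}
  have hcov : ∀ v, v ∈ (∅ : Set (HeightOneSpectrum (𝓞 L))) ∨ v ∈ B₁ ∨ v ∈ B₂ ∨ v ∈ B₃ := by
    intro v
    right
    by_cases c2 : (Ideal.absNorm v.asIdeal).Prime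
    · by_cases c3 : v ∈ B₃
      · exact Or.inr (Or.inr c3)
      · left
        have c4 : ¬ Above (insert l (S.filter Nat.Prime)) v := fun h => c3 (Or.inl h)
        have c5 : t ∉ v.asIdeal := fun h => c3 (Or.inr h)
        refine hM v ?_ c5 (hS v c2 ?_)
        · intro hlv
          exact c4 ⟨l, Finset.mem_insert_self _ _, hlv⟩
        · intro hmem
          exact c4 ⟨_, Finset.mem_insert_of_mem (Finset.mem_filter.2 ⟨hmem, c2⟩),
            Ideal.absNorm_mem v.asIdeal⟩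
    · exact Or.inr (Or.inl c2)
  have hB3 : B₃.Finite := (Pool.Agent.MUXK.THDX.fin_above hS').union (fin_mem ht)
  obtain ⟨C₁, e1⟩ := m_SPLS L M l B₁ (fun v hv => hv)
  obtain ⟨C₂, e2⟩ := m_DEG2 L B₂ (fun v hv => hv)
  obtain ⟨C₃, e3⟩ := Pool.Agent.MUXK.THDX.fin_bound B₃ hB3
  obtain ⟨C₄, e4⟩ := (isBigO_sum L).bound
  have hc : (1 : ℝ) / 2 ≤ 1 - 1 / l := by
    have h3 : (1 : ℝ) / l ≤ 1 / 2 := one_div_le_one_div_of_le (by norm_num) hl2
    linarith
  have key : ∀ᶠ s : ℝ in 𝓝[>] 1,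
      (1 - 1 / (l : ℝ)) * Real.log (1 / (s - 1)) ≤ C₁ / l + C₂ + C₃ + C₄ := by
    filter_upwards [e1, e4, self_mem_nhdsWithin] with s f1 f4 hs
    have hs' : (1 : ℝ) < s := hs
    rw [norm_one, mul_one, Real.norm_eq_abs] at f4
    have h5 := neg_abs_le (∑' v : HeightOneSpectrum (𝓞 L), x s v - Real.log (1 / (s - 1)))
    have h6 := Pool.Agent.MUXK.THDX.lower hcov hs'
    have h7 := e2 s hs'
    have h8 := e3 s hs'
    have h9 : ∑' v, Set.indicator B₁ (x s) v ≤ (Real.log (1 / (s - 1)) + C₁) / l := by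
      rw [le_div_iff₀ (by linarith)]
      linarith
    have h10 : (Real.log (1 / (s - 1)) + C₁) / l = 1 / l * Real.log (1 / (s - 1)) + C₁ / l := by
      ring
    have h11 : (1 - 1 / (l : ℝ)) * Real.log (1 / (s - 1)) =
      Real.log (1 / (s - 1)) - 1 / l * Real.log (1 / (s - 1)) := by ring
    have h12 : ∑' v : HeightOneSpectrum (𝓞 L),
        Set.indicator (∅ : Set (HeightOneSpectrum (𝓞 L))) (x s) v = 0 := by
      simp
    linarith
  have h13 : ∀ᶠ s : ℝ in 𝓝[>] 1,
      2 * (|C₁ / l + C₂ + C₃ + C₄| + 1) ≤ Real.log (1 / (s - 1)) :=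
    tendsto_log.eventually_ge_atTop _
  obtain ⟨s, h14, h15⟩ := (key.and h13).exists
  have h16 := le_abs_self (C₁ / l + C₂ + C₃ + C₄)
  have h17 := abs_nonneg (C₁ / l + C₂ + C₃ + C₄)
  nlinarith

end Pool.Agent.OBR


end

section

/-!
# OB, block GR, module LFT: the lift of an element of order `l` of the inertia group of `RF (2)` to
the level `2 q` (helper62)
-/

set_option autoImplicit false

namespace Pool.Agent.OBR

open _root_.MU3 Pool.Agent.MU3A Pool.Agent.MU3B Pool.Agent.RI Pool.Agent.MUX Pool.Agent.MUXU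
open Pool.Agent.NS Pool.Agent.NSR Pool.Agent.OB

noncomputable section

namespace LFTx

variable {A B : ℤ}

/-- automorphisms of `ℂ` with `FixK` are trivial on `k` -/
lemma fix {σ : ℂ ≃+* ℂ} (hσ : FixK A B σ) : ∀ y ∈ kk A B, σ y = y := by
  intro y hy
  induction hy using IntermediateField.adjoin_induction with
  | mem x hx => rw [Set.mem_singleton_iff] at hx; rw [hx]; exact hσ
  | algebraMap x => simp
  | add x y _ _ hx hy => rw [map_add, hx, hy]
  | inv x _ hx => rw [map_inv₀, hx]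
  | mul x y _ _ hx hy => rw [map_mul, hx, hy]

lemma fix_symm {σ : ℂ ≃+* ℂ} (hσ : FixK A B σ) : FixK A B σ.symm := by
  unfold FixK at *
  rw [RingEquiv.symm_apply_eq, hσ]

lemma fix_trans {σ τ : ℂ ≃+* ℂ} (hσ : FixK A B σ) (hτ : FixK A B τ) : FixK A B (σ.trans τ) := by
  unfold FixK at *
  rw [RingEquiv.trans_apply, hσ, hτ]

lemma fix_pow {σ : ℂ ≃+* ℂ} (hσ : FixK A B σ) (n : ℕ) : FixK A B (σ ^ n) := by
  unfold FixK at *
  induction n with
  | zero => rw [pow_zero]; rfl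
  | succ n ih =>
    rw [pow_succ]
    show (σ ^ n : ℂ ≃+* ℂ) (σ (wC A B)) = wC A B
    rw [hσ, ih]

/-- normal fields are stable -/
lemma stab {σ : ℂ ≃+* ℂ} (hσ : FixK A B σ) {m : Ideal (OO A B)}
    (hG : IsGalois (kk A B) (RF m)) : ∀ y ∈ RF m, σ y ∈ RF m := by
  intro y hy
  let s : ℂ ≃ₐ[kk A B] ℂ := AlgEquiv.ofRingEquiv (f := σ) (fun r => fix hσ _ r.2)
  have h : ((s.restrictNormal (RF m) ⟨y, hy⟩ : RF m) : ℂ) = σ y :=
    AlgEquiv.restrictNormal_commutes s (RF m) ⟨y, hy⟩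
  rw [← h]
  exact (s.restrictNormal (RF m) ⟨y, hy⟩).2

/-- the inertia group is closed under powers -/
lemma inI_pow {V : ValuationSubring ℂ} {σ : ℂ ≃+* ℂ} (hσ : FixK A B σ) {m : Ideal (OO A B)}
    (hG : IsGalois (kk A B) (RF m)) (hI : InI V m σ) (n : ℕ) : InI V m (σ ^ n) := by
  induction n with
  | zero =>
    intro y _ _
    rw [pow_zero]
    show V.valuation (y - y) < 1
    rw [sub_self, map_zero]
    exact zero_lt_one
  | succ n ih =>
    intro y hy hv
    rw [pow_succ]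
    show V.valuation ((σ ^ n : ℂ ≃+* ℂ) (σ y) - y) < 1
    have h1 := hI y hy hv
    have h2 : V.valuation (σ y) ≤ 1 := by
      have h3 : σ y = (σ y - y) + y := by ring
      rw [h3]
      exact (V.valuation.map_add _ _).trans (max_le h1.le hv)
    have h4 := ih (σ y) (stab hσ hG y hy) h2
    have h5 : (σ ^ n : ℂ ≃+* ℂ) (σ y) - y = ((σ ^ n : ℂ ≃+* ℂ) (σ y) - σ y) + (σ y - y) := by ring
    rw [h5]
    exact lt_of_le_of_lt (V.valuation.map_add _ _) (max_lt h4 h1)

lemma pow_eq {σ σ' : ℂ ≃+* ℂ} (hσ : FixK A B σ) {m : Ideal (OO A B)}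
    (hG : IsGalois (kk A B) (RF m)) (h : ∀ y ∈ RF m, σ' y = σ y) (n : ℕ) :
    ∀ y ∈ RF m, (σ' ^ n : ℂ ≃+* ℂ) y = (σ ^ n : ℂ ≃+* ℂ) y := by
  induction n with
  | zero => intro y _; rw [pow_zero, pow_zero]
  | succ n ih =>
    intro y hy
    rw [pow_succ, pow_succ]
    show (σ' ^ n : ℂ ≃+* ℂ) (σ' y) = (σ ^ n : ℂ ≃+* ℂ) (σ y)
    rw [h y hy, ih _ (stab hσ hG y hy)]

lemma idl_ne_top {n : ℕ} (hn : 2 ≤ n) : (idl n : Ideal (OO A B)) ≠ ⊤ := by
  rw [Ne, Ideal.span_singleton_eq_top]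
  intro hu
  obtain ⟨y, hy⟩ := hu.exists_right_inv
  have h := congrArg QuadraticAlgebra.re hy
  rw [QuadraticAlgebra.re_mul] at h
  simp only [QuadraticAlgebra.re_natCast, QuadraticAlgebra.im_natCast, QuadraticAlgebra.re_one,
    mul_zero, zero_mul, add_zero] at h
  have h' : ((n : ℕ) : ℤ) ∣ 1 := ⟨_, h.symm⟩
  have h'' := Int.le_of_dvd one_pos h'
  omega

lemma ne_bot_of_cop {a m : Ideal (OO A B)} (hm : m ≠ ⊤) (h : IsCoprime a m) : a ≠ ⊥ := by
  rintro rfl
  rw [Ideal.isCoprime_iff_sup_eq, bot_sup_eq] at h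
  exact hm h

end LFTx

open _root_.Pool.Agent.OBR.LFTx Pool.Agent.MUXI.Iaf in
/-- the module LFT -/
theorem o_LFT (h1 : So_LIF) (h2 : So_FXX) (h3 : So_POW) : So_LFT := by
  intro p er A B P V hC T hex l σ hσ hI hl q hq hq2 hqp
  have hp5 := hC.p5
  have hm2 : (idl 2 : Ideal (OO A B)) ≠ ⊥ := by
    rw [Ne, Ideal.span_singleton_eq_bot]
    exact natCast_ne_zero' hC.cq two_ne_zero
  have hm : (idl (2 * q) : Ideal (OO A B)) ≠ ⊥ := by
    rw [Ne, Ideal.span_singleton_eq_bot]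
    exact natCast_ne_zero' hC.cq (mul_ne_zero two_ne_zero hq.ne_zero)
  have hle : (idl (2 * q) : Ideal (OO A B)) ≤ idl 2 := by
    rw [Ideal.span_singleton_le_span_singleton]
    exact ⟨(q : OO A B), by push_cast; rfl⟩
  have hnP : ¬ (idl (2 * q) : Ideal (OO A B)) ≤ P := by
    intro h
    have h4 : ((2 * q : ℕ) : OO A B) ∈ P := h (Ideal.mem_span_singleton_self _)
    have h5 := (hC.vemb_lt _).2 h4
    rw [emb_natCast hC.cq, hC.vnat] at h5
    · exact lt_irrefl _ h5
    · intro hd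
      rcases (Nat.Prime.dvd_mul hC.pp).1 hd with h6 | h6
      · have := Nat.le_of_dvd two_pos h6
        omega
      · exact hqp ((Nat.prime_dvd_prime_iff_eq hC.pp hq).1 h6).symm
  have hG2 := T.gal (idl 2) hm2
  have hG := T.gal (idl (2 * q)) hm
  obtain ⟨σ', hσ', hσe, hI'⟩ := h1 p A B V hC.cq hC.pp hC.vp (RF (idl 2)) (RF (idl (2 * q)))
    (T.fin _ hm2) hG2 (T.fin _ hm) σ hσ hI
  have hI'' : InI V (idl (A := A) (B := B) (2 * q)) σ' := hI'
  have hfix : ∀ y ∈ RF (idl (A := A) (B := B) (2 * q)), (σ' ^ l : ℂ ≃+* ℂ) y = y := by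
    refine h2 p er A B P V hC T _ hm hnP hle _ (fix_pow hσ' l) (inI_pow hσ' hG hI'' l) ?_
    intro y hy
    rw [pow_eq hσ hG2 hσe l y hy, hl y hy]
  obtain ⟨a', hc', ha'⟩ := T.act (idl (2 * q)) hm σ' hσ'
  have hq1 := hq.two_le
  obtain ⟨be, hbe1, hbe2⟩ := (h3 A B hC.cq T hex _ a' σ' hm hσ' ha' l).2.1 hfix
  refine ⟨σ', a', be, hσ', hI'', hσe, hfix, hc', ne_bot_of_cop (idl_ne_top (by omega)) hc', ha',
    hbe2, hbe1, ?_⟩
  intro a ha
  set ρ : ℂ ≃+* ℂ := σ'.symm.trans σ with hρdef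
  have hρ : FixK A B ρ := fix_trans (fix_symm hσ') hσ
  have hρt : ∀ y ∈ RF (idl (A := A) (B := B) 2), (ρ ^ 1 : ℂ ≃+* ℂ) y = y := by
    intro y hy
    have h4 := stab (fix_symm hσ') hG2 y hy
    rw [pow_one, hρdef, RingEquiv.trans_apply, ← hσe _ h4, RingEquiv.apply_symm_apply]
  obtain ⟨a'', hc'', ha''⟩ := T.act (idl 2) hm2 ρ hρ
  obtain ⟨c, hc1, hc2⟩ := (h3 A B hC.cq T hex _ a'' ρ hm2 hρ ha'' 1).2.1 hρt
  rw [pow_one] at hc2
  have hc0 : c ≠ 0 := by
    rintro rfl
    refine ne_bot_of_cop (idl_ne_top le_rfl) hc'' ?_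
    rw [hc2, Ideal.span_singleton_eq_bot]
  obtain ⟨b, L, om, hL⟩ := hex
  obtain ⟨b1, L1, om1, mu1, hL1, hA1⟩ := ha' b L om hL
  have hA1' : ActI σ' (idl 2) a' L L1 mu1 :=
    ⟨hA1.kap, cop_mono hle hA1.cop, hA1.isq, fun z hz => hA1.act z (Tor.mono hle hz)⟩
  obtain ⟨b2, L2, om2, mu2, hL2, hA2⟩ := ha'' b1 L1 om1 hL1
  have hA3 := T.comp (idl 2) a' a'' σ' ρ L L1 L2 mu1 mu2 hA1' hA2
  have hs : σ'.trans ρ = σ := by
    ext z
    rw [hρdef, RingEquiv.trans_apply, RingEquiv.trans_apply, RingEquiv.symm_apply_apply]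
  rw [hs] at hA3
  obtain ⟨b3, L3, om3, mu3, hL3, hA4⟩ := ha b L om hL
  have hk : kap L2 = kap L3 := by rw [hA3.kap, hA4.kap]
  have hA5 : ActI σ (idl 2) a L L2 mu3 := act_congr (lat_eq u_DET hL2 hL3 hk) hk hA4
  obtain ⟨x, y, -, hx0, hy0, hxy, he, -⟩ :=
    T.uniq (idl 2) a (a' * a'') σ L L2 mu3 (mu2 * mu1) hm2 ⟨b, om, hL⟩ hA5 hA3
  have hdom : IsDomain (OO A B) := isDomain hC.cq
  refine ⟨x, y * c, hx0, mul_ne_zero hy0 hc0, ?_, ?_⟩
  · have e : x - y * c = (x - y) - y * (c - 1) := by ring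
    rw [e]
    exact sub_mem hxy (Ideal.mul_mem_left _ _ hc1)
  · have e : sp (y * c) = sp y * sp c := (Ideal.span_singleton_mul_span_singleton y c).symm
    rw [he, hc2, e]
    ring

end

end Pool.Agent.OBR


end

section

/-!
# OB, block GR: (MUL) the multiplier of the `P`-isogeny
-/

set_option autoImplicit false

open WeierstrassCurve Polynomial

namespace Pool.Agent.OBR

open _root_.MU3 Pool.Agent.MU3A Pool.Agent.MU3B Pool.Agent.RI Pool.Agent.MUX Pool.Agent.MUXU
open Pool.Agent.MUXV (GR InK tX)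
open Pool.Agent.NS Pool.Agent.NSR Pool.Agent.OB

noncomputable section

namespace MULx

variable {A B : ℤ}

/-- an element `be` of `P`, not in `P²`, congruent to `1` modulo `Q` -/
lemma exists_be (h : CQ A B) {P Q : Ideal (OO A B)} (hP : P ≠ ⊥) (hP1 : P ≠ ⊤)
    (hQ : IsCoprime Q P) : ∃ be : OO A B, be ∈ P ∧ be ∉ P ^ 2 ∧ be - 1 ∈ Q := by
  have h1 : ¬ P ≤ P ^ 2 := by
    intro h1
    have h2 : P * ⊤ ≤ P * P := by rw [Ideal.mul_top, ← pow_two]; exact h1
    exact hP1 (top_le_iff.1 ((mul_le_mul_iff h hP).1 h2))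
  obtain ⟨pi, hpi, hpi2⟩ := Set.not_subset.1 h1
  obtain ⟨y, hy, x, hx, hxy⟩ := Ideal.isCoprime_iff_exists.1 (hQ.pow_right (n := 2))
  have hP2 : P ^ 2 ≤ P := Ideal.pow_le_self two_ne_zero
  refine ⟨pi * y + x, P.add_mem (P.mul_mem_right _ hpi) (hP2 hx), fun hc => hpi2 ?_, ?_⟩
  · have e : pi = (pi * y + x) + (pi * x - x) := by linear_combination (-pi) * hxy
    rw [e]
    exact (P ^ 2).add_mem hc ((P ^ 2).sub_mem ((P ^ 2).mul_mem_left _ hx) hx)
  · have e : pi * y + x - 1 = y * (pi - 1) := by linear_combination hxy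
    rw [e]
    exact Q.mul_mem_right _ hy

/-- the norm of `1 - 2 p y` -/
lemma nm_one_sub (p : ℕ) (y : OO A B) : ∃ t : ℤ,
    nm (1 - ((p : ℕ) : OO A B) * ((2 : ℕ) : OO A B) * y) = 1 + 2 * p * t := by
  obtain ⟨c, d⟩ := y
  refine ⟨-2 * c + 2 * p * c ^ 2 - B * d * (1 - 2 * p * c) - 2 * p * A * d ^ 2, ?_⟩
  simp only [nm, QuadraticAlgebra.re_sub, QuadraticAlgebra.im_sub, QuadraticAlgebra.re_one,
    QuadraticAlgebra.im_one, QuadraticAlgebra.re_mul, QuadraticAlgebra.im_mul,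
    QuadraticAlgebra.re_natCast, QuadraticAlgebra.im_natCast]
  push_cast
  ring

end MULx

open _root_.Pool.Agent.OBR.MULx in
/-- (MUL) -/
theorem o_MUL (hBAS : Pool.Agent.OBT.So_BAS) (hISO : So_ISO) : So_MUL := by
  intro p er A B P V h b b' L M om om' mu u e lam u' e' lam' hL hM hgL hgM hq
  obtain ⟨-, -, hmax, -, -, -, -, -, -, -, hPc, hidl⟩ := hBAS p er A B P V h
  have hcq := h.cq
  have hded : IsDedekindDomain (OO A B) := (Pool.Agent.MUXE.te_RNG A B hcq).ded
  have hP0 := h.P0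
  have hP1 : P ≠ ⊤ := hmax.ne_top
  have hcm : HasCM A B L := IsLI.hasCM hcq hL
  -- coprimality with `P`
  have hcopP : ∀ I : Ideal (OO A B), (∃ x ∈ I, x ∉ P) → IsCoprime I P := by
    rintro I ⟨x, hx, hxP⟩
    rw [Ideal.isCoprime_iff_sup_eq]
    by_contra hne
    have h1 : P = I ⊔ P := hmax.eq_of_le hne le_sup_right
    exact hxP (h1 ▸ Ideal.mem_sup_left hx)
  have hnot : ∀ I : Ideal (OO A B), IsCoprime I P → ∃ x ∈ I, x ∉ P := by
    intro I hI
    by_contra hcon
    push Not at hcon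
    have h1 := Ideal.isCoprime_iff_sup_eq.1 hI
    rw [sup_eq_right.2 (show I ≤ P from fun x hx => hcon x hx)] at h1
    exact hP1 h1
  have h2P : IsCoprime (sp ((2 : ℕ) : OO A B)) P :=
    hcopP _ ⟨_, Ideal.mem_span_singleton_self _, h.two⟩
  have hQP : IsCoprime (Pc P * sp ((2 : ℕ) : OO A B)) P := hPc.mul_left h2P
  obtain ⟨be, hbP, hbP2, hb1⟩ := exists_be hcq hP0 hP1 hQP
  -- the ideal `c`
  have hdvd : P ∣ sp be := Ideal.dvd_iff_le.2 ((Ideal.span_singleton_le_iff_mem _).2 hbP)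
  obtain ⟨c, hc⟩ := hdvd
  have hbe' : be ∈ P * c := hc ▸ Ideal.mem_span_singleton_self be
  have hbc : be ∈ c := (Ideal.mul_le_right : P * c ≤ c) hbe'
  have hcP : IsCoprime c P := by
    rw [Ideal.isCoprime_iff_sup_eq]
    by_contra hne
    have h1 : P = c ⊔ P := hmax.eq_of_le hne le_sup_right
    have h2 : c ≤ P := h1 ▸ le_sup_left
    have h4 : P * c ≤ P * P := Ideal.mul_mono_right h2
    exact hbP2 (by rw [pow_two]; exact h4 hbe')
  have hcQ : IsCoprime c (Pc P * sp ((2 : ℕ) : OO A B)) :=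
    Ideal.isCoprime_iff_exists.2 ⟨be, hbc, 1 - be, by
      have := (Pc P * sp ((2 : ℕ) : OO A B)).neg_mem hb1
      rwa [neg_sub] at this, by ring⟩
  have hcall : IsCoprime c (sp ((p : ℕ) : OO A B) * sp ((2 : ℕ) : OO A B)) := by
    have h1 : (sp ((p : ℕ) : OO A B) : Ideal (OO A B)) = Pc P * P ^ er := hidl
    rw [h1]
    have h2 : IsCoprime c ((Pc P * sp ((2 : ℕ) : OO A B)) * P ^ er) :=
      hcQ.mul_right (hcP.pow_right)
    have h3 : Pc P * P ^ er * sp ((2 : ℕ) : OO A B) =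
        (Pc P * sp ((2 : ℕ) : OO A B)) * P ^ er := by ring
    rw [h3]; exact h2
  -- the integer `k`
  obtain ⟨k, hkc, hkodd, hkp⟩ : ∃ k : ℕ, ((k : ℕ) : OO A B) ∈ c ∧ Odd k ∧ ¬ p ∣ k := by
    obtain ⟨x, hx, y, hy, hxy⟩ := Ideal.isCoprime_iff_exists.1 hcall
    rw [Ideal.span_singleton_mul_span_singleton] at hy
    obtain ⟨z, rfl⟩ := Ideal.mem_span_singleton.1 hy
    have hx' : x = 1 - ((p : ℕ) : OO A B) * ((2 : ℕ) : OO A B) * z := by
      linear_combination hxy
    obtain ⟨t, ht⟩ := nm_one_sub (A := A) (B := B) p z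
    rw [← hx'] at ht
    have hnn := nm_nonneg hcq x
    refine ⟨(nm x).toNat, ?_, ?_, ?_⟩
    · have h1 : (((nm x).toNat : ℕ) : OO A B) = x * star x := by
        rw [mul_star]
        have h2 : (((nm x).toNat : ℕ) : ℤ) = nm x := Int.toNat_of_nonneg hnn
        rw [← h2]
        push_cast
        rfl
      rw [h1]
      exact c.mul_mem_right _ hx
    · have h2 : (((nm x).toNat : ℕ) : ℤ) = nm x := Int.toNat_of_nonneg hnn
      have h3 : Odd (((nm x).toNat : ℕ) : ℤ) := ⟨p * t, by rw [h2, ht]; ring⟩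
      exact_mod_cast h3
    · intro hd
      have h2 : (((nm x).toNat : ℕ) : ℤ) = nm x := Int.toNat_of_nonneg hnn
      have h3 : (p : ℤ) ∣ nm x := by rw [← h2]; exact_mod_cast hd
      rw [ht] at h3
      have h4 : (p : ℤ) ∣ 1 := by
        have h5 : (p : ℤ) ∣ 2 * p * t := ⟨2 * t, by ring⟩
        exact (Int.dvd_add_left h5).1 h3
      have h5 : p ∣ 1 := by exact_mod_cast h4
      exact h.pp.one_lt.ne' (Nat.dvd_one.1 h5)
  -- the valuation of `be`
  have hvk : V.valuation (k : ℂ) = 1 := h.vnat hkp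
  have hpow : sp be ^ er * Pc P = sp ((p : ℕ) : OO A B) * c ^ er := by
    have h1 : (sp ((p : ℕ) : OO A B) : Ideal (OO A B)) = Pc P * P ^ er := hidl
    rw [h1, hc]; ring
  have hvb : V.valuation (emb be) ^ er = V.valuation (p : ℂ) := by
    refine le_antisymm ?_ ?_
    · obtain ⟨y, hy, hyP⟩ := hnot _ hPc
      have h1 : be ^ er * y ∈ sp be ^ er * Pc P :=
        Ideal.mul_mem_mul (Ideal.pow_mem_pow (Ideal.mem_span_singleton_self _) _) hy
      rw [hpow] at h1
      obtain ⟨z, hz⟩ := Ideal.mem_span_singleton.1 (Ideal.mul_le_left h1)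
      have h2 := congrArg (fun x => V.valuation (emb x)) hz
      simp only [emb_mul hcq, emb_pow hcq, emb_natCast hcq, map_mul, map_pow] at h2
      rw [h.vemb_one hyP, mul_one] at h2
      rw [h2]
      calc V.valuation (p : ℂ) * V.valuation (emb z) ≤ V.valuation (p : ℂ) * 1 :=
            mul_le_mul_right (vemb_le hcq V z) _
        _ = _ := mul_one _
    · obtain ⟨t, ht, htP⟩ := hnot _ (hcP.pow_left (m := er))
      have h1 : ((p : ℕ) : OO A B) * t ∈ sp ((p : ℕ) : OO A B) * c ^ er :=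
        Ideal.mul_mem_mul (Ideal.mem_span_singleton_self _) ht
      rw [← hpow] at h1
      have h1' := Ideal.mul_le_left h1
      rw [Ideal.span_singleton_pow] at h1'
      obtain ⟨z, hz⟩ := Ideal.mem_span_singleton.1 h1'
      have h2 := congrArg (fun x => V.valuation (emb x)) hz
      simp only [emb_mul hcq, emb_pow hcq, emb_natCast hcq, map_mul, map_pow] at h2
      rw [h.vemb_one htP, mul_one] at h2
      rw [h2]
      calc V.valuation (emb be) ^ er * V.valuation (emb z) ≤ V.valuation (emb be) ^ er * 1 :=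
            mul_le_mul_right (vemb_le hcq V z) _
        _ = _ := mul_one _
  -- the isogeny
  have hmu := hq.1
  have hbe0 : be ≠ 0 := fun h0 => hbP2 (by rw [h0]; exact (P ^ 2).zero_mem)
  have hemb0 : emb be ≠ 0 := emb_ne_zero hcq hbe0
  have hnu : emb be / mu ≠ 0 := div_ne_zero hemb0 hmu
  have hisg : Isg M L (emb be / mu) := by
    intro w hw
    have h1 : mu * (w / mu) ∈ M.lattice := by rwa [mul_div_cancel₀ _ hmu]
    have h2 := (hq.2 _).1 h1 be hbP
    have e : emb be / mu * w = emb be * (w / mu) := by ring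
    rw [e]; exact h2
  have hker : ∀ z, emb be / mu * z ∈ L.lattice → (k : ℂ) * z ∈ M.lattice := by
    intro z hz
    have e : (k : ℂ) * z = mu * ((k : ℂ) * (z / mu)) := by field_simp
    rw [e, hq.2]
    intro x hx
    have h1 : x * ((k : ℕ) : OO A B) ∈ sp be := by
      rw [hc]; exact Ideal.mul_mem_mul hx hkc
    obtain ⟨s, hs⟩ := Ideal.mem_span_singleton.1 h1
    have h2 := congrArg emb hs
    rw [emb_mul hcq, emb_mul hcq, emb_natCast hcq] at h2
    have e2 : emb x * ((k : ℂ) * (z / mu)) = emb s * (emb be / mu * z) := by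
      have : emb x * ((k : ℂ) * (z / mu)) = (emb x * k) * (z / mu) := by ring
      rw [this, h2]; ring
    rw [e2]
    exact hcm s _ hz
  obtain ⟨R, hR⟩ := (u_BAC.2 M L _ hnu hisg).1
  have h1 := (hISO V M L u' e' lam' u e lam (emb be / mu) k h.v2 hgM hgL hnu hisg hkodd hvk hker
    R hR).1
  have hu := hgL.u0
  have hu' := hgM.u0
  have h2 : V.valuation (mu * u' / u) = V.valuation (emb be) := by
    have e : emb be = (emb be / mu * u / u') * (mu * u' / u) := by field_simp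
    have h3 := congrArg V.valuation e
    rw [map_mul, h1, one_mul] at h3
    exact h3.symm
  rw [h2]; exact hvb

end

end Pool.Agent.OBR


end

section

/-!
# OB, block GR, module NFI (helper99): 2 inert, no far point
-/

set_option autoImplicit false

namespace Pool.Agent.OBR

open _root_.MU3 Pool.Agent.MU3A Pool.Agent.MU3B Pool.Agent.RI Pool.Agent.MUX Pool.Agent.MUXU
open Pool.Agent.NS Pool.Agent.NSR Pool.Agent.OB

noncomputable section

namespace NFIx

lemma zmul_mem (L : PeriodPair) {z : ℂ} (hz : z ∈ L.lattice) (k : ℤ) :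
    (k : ℂ) * z ∈ L.lattice := by
  have h := L.lattice.smul_mem k hz
  rwa [zsmul_eq_mul] at h

/-- the common part: `(emb ⟨2 j, 1⟩ - 1) w ∈ L` gives `emb ⟨-1, 1⟩ w ∈ L` -/
lemma key {A B : ℤ} (h : CQ A B) (L : PeriodPair) {w : ℂ} (h2 : 2 * w ∈ L.lattice) (j : ℤ)
    (h1 : emb (⟨2 * j, 1⟩ : OO A B) * w - w ∈ L.lattice) :
    emb (⟨-1, 1⟩ : OO A B) * w ∈ L.lattice := by
  have e : emb (⟨-1, 1⟩ : OO A B) * w =
      (emb (⟨2 * j, 1⟩ : OO A B) * w - w) - (j : ℂ) * (2 * w) := by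
    simp only [emb]
    push_cast
    ring
  rw [e]
  exact sub_mem h1 (zmul_mem L h2 j)

end NFIx

open _root_.Pool.Agent.OBR.NFIx in
/-- NFI. -/
theorem o_NFI (hFIX : So_FIX) : So_NFI := by
  intro p er A B P V hC hB hA b L om hL w d hF
  subst hB
  have hcq := hC.cq
  have hneg : A < 0 := by
    have := hcq.neg
    omega
  have hcm : HasCM A 1 L := hL.hasCM hcq
  -- one of the two norms is prime to `p`
  have hj : ∃ j : ℤ, ∃ n : ℕ, nm (⟨2 * j, 1⟩ : OO A 1) = (n : ℤ) ∧ Odd n ∧ ¬ p ∣ n := by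
    have hA1 : Odd A := by
      rcases Int.even_or_odd A with h | h
      · exact absurd h.two_dvd hA
      · exact h
    by_cases hp : ((p : ℕ) : ℤ) ∣ -A
    · have hp6 : ¬ ((p : ℕ) : ℤ) ∣ 6 - A := by
        intro h6
        have h7 : ((p : ℕ) : ℤ) ∣ 6 := by
          have := dvd_sub h6 hp
          simpa using this
        have h8 : p ∣ 6 := by exact_mod_cast h7
        have h9 : p ≤ 6 := Nat.le_of_dvd (by norm_num) h8
        have h10 := hC.p5
        have h11 := hC.pp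
        have h12 : p = 5 ∨ p = 6 := by omega
        rcases h12 with rfl | rfl
        · norm_num at h8
        · norm_num at h11
      refine ⟨1, (6 - A).toNat, ?_, ?_, ?_⟩
      · rw [Int.toNat_of_nonneg (by omega)]
        simp only [nm]
        ring
      · have h1 : Odd (((6 - A).toNat : ℕ) : ℤ) := by
          rw [Int.toNat_of_nonneg (by omega)]
          exact Even.sub_odd (by decide) hA1
        exact_mod_cast h1
      · intro h1
        apply hp6
        have h2 : ((p : ℕ) : ℤ) ∣ (((6 - A).toNat : ℕ) : ℤ) := by exact_mod_cast h1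
        rwa [Int.toNat_of_nonneg (by omega)] at h2
    · refine ⟨0, (-A).toNat, ?_, ?_, ?_⟩
      · rw [Int.toNat_of_nonneg (by omega)]
        simp only [nm]
        ring
      · have h1 : Odd (((-A).toNat : ℕ) : ℤ) := by
          rw [Int.toNat_of_nonneg (by omega)]
          exact hA1.neg
        exact_mod_cast h1
      · intro h1
        apply hp
        have h2 : ((p : ℕ) : ℤ) ∣ (((-A).toNat : ℕ) : ℤ) := by exact_mod_cast h1
        rwa [Int.toNat_of_nonneg (by omega)] at h2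
  obtain ⟨j, n, hn, hodd, hpn⟩ := hj
  have h1 := hFIX A 1 V hcq hC.v2 b L om hL w d hF ⟨2 * j, 1⟩ n hn hodd (hC.vnat hpn)
  have h2 := key hcq L hF.two j h1
  have h3 := hcm (star (⟨-1, 1⟩ : OO A 1)) _ h2
  have h4 : emb (star (⟨-1, 1⟩ : OO A 1)) * (emb (⟨-1, 1⟩ : OO A 1) * w) = -(A : ℂ) * w := by
    rw [← mul_assoc, ← emb_mul hcq, mul_comm (star _) _, mul_star, emb_intCast hcq]
    simp only [nm]
    push_cast
    ring
  rw [h4] at h3
  obtain ⟨c, hc⟩ : Odd A := by
    rcases Int.even_or_odd A with h | h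
    · exact absurd h.two_dvd hA
    · exact h
  apply hF.ne
  have h5 : w = -(-(A : ℂ) * w) - (c : ℂ) * (2 * w) := by
    rw [hc]
    push_cast
    ring
  rw [h5]
  exact sub_mem (neg_mem h3) (zmul_mem L hF.two c)

end

end Pool.Agent.OBR


end

section

/-!
# OBR_NFR: two ramified, no far point (helper69)
-/

set_option autoImplicit false

namespace Pool.Agent.OBR

open _root_.MU3 Pool.Agent.MU3A Pool.Agent.MU3B Pool.Agent.RI Pool.Agent.MUX Pool.Agent.MUXU
open Pool.Agent.NS Pool.Agent.NSR Pool.Agent.OB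

noncomputable section

namespace NFRx

/-- reduction modulo the prime above two -/
def phi (A : ℤ) : OO A 0 →+* ZMod 2 where
  toFun x := ((x.re + A * x.im : ℤ) : ZMod 2)
  map_one' := by
    rw [QuadraticAlgebra.re_one, QuadraticAlgebra.im_one]
    simp
  map_zero' := by
    rw [QuadraticAlgebra.re_zero, QuadraticAlgebra.im_zero]
    simp
  map_add' x y := by
    simp only [QuadraticAlgebra.re_add, QuadraticAlgebra.im_add]
    push_cast
    ring
  map_mul' x y := by
    have hA : (A : ZMod 2) * A = A := by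
      generalize (A : ZMod 2) = a
      revert a
      decide
    simp only [QuadraticAlgebra.re_mul, QuadraticAlgebra.im_mul]
    push_cast
    linear_combination (-(x.im : ZMod 2) * y.im) * hA

lemma phi_apply {A : ℤ} (x : OO A 0) : phi A x = ((x.re + A * x.im : ℤ) : ZMod 2) := rfl

/-- the prime above two -/
def qq (A : ℤ) : Ideal (OO A 0) := RingHom.ker (phi A)

lemma phi_surj (A : ℤ) : Function.Surjective (phi A) := by
  intro y
  refine ⟨((y.val : ℤ) : OO A 0), ?_⟩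
  rw [phi_apply, QuadraticAlgebra.re_intCast, QuadraticAlgebra.im_intCast]
  simp

lemma nI_qq (A : ℤ) : nI (qq A) = 2 := by
  have e := RingHom.quotientKerEquivOfSurjective (phi_surj A)
  have h1 : Nat.card (OO A 0 ⧸ RingHom.ker (phi A)) = Nat.card (ZMod 2) :=
    Nat.card_congr e.toEquiv
  have h2 : Nat.card (ZMod 2) = 2 := Nat.card_zmod 2
  exact h1.trans h2

lemma mem_qq {A : ℤ} (x : OO A 0) : x ∈ qq A ↔ (2 : ℤ) ∣ x.re + A * x.im := by
  unfold qq
  rw [RingHom.mem_ker, phi_apply]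
  exact ZMod.intCast_zmod_eq_zero_iff_dvd _ 2

lemma two_mem (A : ℤ) : ((2 : ℤ) : OO A 0) ∈ qq A := by
  rw [mem_qq, QuadraticAlgebra.re_intCast, QuadraticAlgebra.im_intCast]
  simp

lemma qq_ne {A : ℤ} (h : CQ A 0) : qq A ≠ ⊥ := by
  intro h0
  have h1 := two_mem A
  rw [h0, Ideal.mem_bot] at h1
  have h2 : ((2 : ℕ) : OO A 0) ≠ 0 := natCast_ne_zero' h two_ne_zero
  exact h2 (by exact_mod_cast h1)

/-- killed by two and by `th`: killed by the prime above two -/
lemma tor_of {A c : ℤ} (h : CQ A 0) (hc : (2 : ℤ) ∣ A - c) {L : PeriodPair} {z : ℂ}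
    (h2 : 2 * z ∈ L.lattice) (ht : emb (⟨c, 1⟩ : OO A 0) * z ∈ L.lattice) : Tor (qq A) L z := by
  intro x hx
  rw [mem_qq] at hx
  obtain ⟨k, hk⟩ := hx
  obtain ⟨l, hl⟩ := hc
  have e : emb x * z = ((k - (l + c) * x.im : ℤ) : ℂ) * (2 * z) + ((x.im : ℤ) : ℂ) *
      (emb (⟨c, 1⟩ : OO A 0) * z) := by
    have h3 : (x.re : ℂ) = 2 * k - (2 * l + c) * x.im := by
      have h4 : x.re = 2 * k - (2 * l + c) * x.im := by
        have h5 : 2 * l + c = A := by linarith
        rw [h5]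
        linarith
      rw [h4]
      push_cast
      ring
    unfold emb
    simp only [Int.cast_one, one_mul]
    rw [h3]
    push_cast
    ring
  rw [e, ← zsmul_eq_mul, ← zsmul_eq_mul]
  exact add_mem (zsmul_mem h2 _) (zsmul_mem ht _)

/-- the number `c`, `0` or `1` -/
lemma exists_c (A : ℤ) : ∃ c : ℤ, (c = 0 ∨ c = 1) ∧ (2 : ℤ) ∣ A - c := by
  rcases Int.even_or_odd A with ⟨k, hk⟩ | ⟨k, hk⟩
  · exact ⟨0, Or.inl rfl, k, by linarith⟩
  · exact ⟨1, Or.inr rfl, k, by linarith⟩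

/-- `th² = 2 ε` -/
lemma th_sq {A c : ℤ} (hc : c = 0 ∨ c = 1) (hA : (2 : ℤ) ∣ A - c) :
    ∃ ep : OO A 0, (⟨c, 1⟩ : OO A 0) * ⟨c, 1⟩ = ep * ((2 : ℤ) : OO A 0) := by
  obtain ⟨l, hl⟩ := hA
  have h1 : ∃ m : ℤ, c * c + A = 2 * m := by
    rcases hc with rfl | rfl
    · exact ⟨l, by linarith⟩
    · exact ⟨l + 1, by linarith⟩
  obtain ⟨m, hm⟩ := h1
  refine ⟨⟨m, c⟩, ?_⟩
  apply QuadraticAlgebra.ext
  · simp only [QuadraticAlgebra.re_mul, QuadraticAlgebra.re_intCast, QuadraticAlgebra.im_intCast]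
    simp only [Int.cast_id]
    linarith
  · simp only [QuadraticAlgebra.im_mul, QuadraticAlgebra.re_intCast, QuadraticAlgebra.im_intCast]
    simp only [Int.cast_id]
    ring

/-- `th` kills the far point -/
lemma th_far {p er : ℕ} {A c : ℤ} {P : Ideal (OO A 0)} {V : ValuationSubring ℂ}
    (h1 : So_FIX) (h : CaseO p er A 0 P V) (hc : c = 0 ∨ c = 1) (hA : (2 : ℤ) ∣ A - c)
    {b : Ideal (OO A 0)} {L : PeriodPair} {om : ℂ} (hL : IsLI b L om) {w : ℂ}
    {d : V.ValueGroup} (hw : Far V L w d) : emb (⟨c, 1⟩ : OO A 0) * w ∈ L.lattice := by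
  have hneg : A < 0 := by
    have := h.cq.neg
    nlinarith
  have key : ∀ j : ℤ, ¬ (p : ℤ) ∣ (1 - c + 2 * j) ^ 2 - A →
      emb (⟨c, 1⟩ : OO A 0) * w ∈ L.lattice := by
    intro j hj
    have hpos : 0 ≤ (1 - c + 2 * j) ^ 2 - A := by nlinarith [sq_nonneg (1 - c + 2 * j)]
    obtain ⟨n, hn⟩ := Int.eq_ofNat_of_zero_le hpos
    have hnm : nm (⟨1 - c + 2 * j, 1⟩ : OO A 0) = (n : ℤ) := by
      rw [← hn]
      simp only [nm]
      ring
    have hodd : Odd n := by
      have : Odd ((n : ℕ) : ℤ) := by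
        rw [← hn]
        obtain ⟨l, hl⟩ := hA
        rcases hc with rfl | rfl
        · refine ⟨2 * j + 2 * j ^ 2 - l, ?_⟩
          have : A = 2 * l := by linarith
          rw [this]
          ring
        · refine ⟨2 * j ^ 2 - l - 1, ?_⟩
          have : A = 2 * l + 1 := by linarith
          rw [this]
          ring
      exact_mod_cast this
    have hpn : ¬ p ∣ n := by
      intro hd
      apply hj
      rw [hn]
      exact_mod_cast hd
    have h3 := h1 A 0 V h.cq h.v2 b L om hL w d hw ⟨1 - c + 2 * j, 1⟩ n hnm hodd (h.vnat hpn)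
    have e : emb (⟨c, 1⟩ : OO A 0) * w = (emb (⟨1 - c + 2 * j, 1⟩ : OO A 0) * w - w) -
        ((j - c : ℤ) : ℂ) * (2 * w) := by
      unfold emb
      push_cast
      ring
    rw [e, ← zsmul_eq_mul]
    exact sub_mem h3 (zsmul_mem hw.two _)
  by_cases h0 : (p : ℤ) ∣ (1 - c + 2 * 0) ^ 2 - A
  · apply key 1
    intro h4
    have h5 : (p : ℤ) ∣ 8 := by
      have h6 := dvd_sub h4 h0
      rcases hc with rfl | rfl
      · have e : ((1 - 0 + 2 * 1) ^ 2 - A) - ((1 - 0 + 2 * 0) ^ 2 - A) = (8 : ℤ) := by ring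
        rwa [e] at h6
      · have e : ((1 - 1 + 2 * 1) ^ 2 - A) - ((1 - 1 + 2 * 0) ^ 2 - A) = (4 : ℤ) := by ring
        rw [e] at h6
        exact h6.trans (by norm_num)
    have h7 : p ∣ 2 ^ 3 := by
      have : (p : ℤ) ∣ ((2 ^ 3 : ℕ) : ℤ) := by
        norm_num
        exact h5
      exact_mod_cast this
    have h8 := Nat.le_of_dvd two_pos (h.pp.dvd_of_dvd_pow h7)
    have := h.p5
    omega
  · exact key 0 h0

end NFRx

open _root_.Pool.Agent.OBR.NFRx in
theorem o_NFR (h1 : So_FIX) (h2 : So_IS2) (h3 : So_QUO) (h4 : So_TW3) : So_NFR := by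
  intro p er A B P V h hB b L om hL w d hw
  subst hB
  obtain ⟨c, hc, hA⟩ := exists_c A
  have hcm := hL.hasCM h.cq
  obtain ⟨b', M, om', T, hM, hT, hT2, hMT, hMo⟩ :=
    h3 A 0 h.cq (qq A) (qq_ne h.cq) (nI_qq A) b L om hL
  have hLM : ∀ z, z ∈ L.lattice → z ∈ M.lattice := fun z hz => (hMo z).2 (Or.inl hz)
  have hwM : w ∈ M.lattice := (hMT w).2 (tor_of h.cq hA hw.two (th_far h1 h hc hA hL hw))
  have hwT : w - T ∈ L.lattice := ((hMo w).1 hwM).resolve_left hw.ne
  obtain ⟨⟨w', hw'⟩, hall⟩ := (h2 V L M w T d h.v2 hw hT hT2 hMo).1 hwT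
  -- another point of order two
  obtain ⟨t, ht, ht2, htT⟩ : ∃ t, t ∉ L.lattice ∧ 2 * t ∈ L.lattice ∧ t - T ∉ L.lattice := by
    obtain ⟨w₁, w₂, w₃, hh⟩ := (h4 L).1
    by_cases h5 : w₁ - T ∈ L.lattice
    · refine ⟨w₂, hh.n₂, hh.t₂, fun h6 => hh.d₁₂ ?_⟩
      have := sub_mem h5 h6
      rwa [sub_sub_sub_cancel_right] at this
    · exact ⟨w₁, hh.n₁, hh.t₁, h5⟩
  refine hall w' _ hw' t ht ht2 htT ?_
  have htM : t ∉ M.lattice := fun h5 => ((hMo t).1 h5).elim ht htT
  obtain ⟨b'', M', om'', T', hM', hT', hT'2, hMT', hMo'⟩ :=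
    h3 A 0 h.cq (qq A) (qq_ne h.cq) (nI_qq A) b' M om' hM
  have h6 : emb (⟨c, 1⟩ : OO A 0) * t ∈ M.lattice := by
    rw [hMT]
    refine tor_of h.cq hA ?_ ?_
    · have := hcm ⟨c, 1⟩ _ ht2
      have e : 2 * (emb (⟨c, 1⟩ : OO A 0) * t) = emb (⟨c, 1⟩ : OO A 0) * (2 * t) := by ring
      rwa [e]
    · obtain ⟨ep, hep⟩ := th_sq hc hA
      have e : emb (⟨c, 1⟩ : OO A 0) * (emb (⟨c, 1⟩ : OO A 0) * t) = emb ep * (2 * t) := by
        have h7 := congrArg emb hep
        rw [emb_mul h.cq, emb_mul h.cq, emb_intCast h.cq] at h7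
        push_cast at h7
        linear_combination t * h7
      rw [e]
      exact hcm ep _ ht2
  have htM' : t ∈ M'.lattice := (hMT' t).2 (tor_of h.cq hA (hLM _ ht2) h6)
  have hwM' : w' ∈ M'.lattice := (hMT' w').2
    (tor_of h.cq hA hw'.two (th_far h1 h hc hA hM hw'))
  have a1 := ((hMo' t).1 htM').resolve_left htM
  have a2 := ((hMo' w').1 hwM').resolve_left hw'.ne
  have := sub_mem a1 a2
  rwa [sub_sub_sub_cancel_right] at this

end

end Pool.Agent.OBR


end

section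

/-!
# OB, block GR: NFS, two split, no far point (helper51)
-/

set_option autoImplicit false

namespace Pool.Agent.OBR

open _root_.MU3 Pool.Agent.MU3A Pool.Agent.MU3B Pool.Agent.RI Pool.Agent.MUX Pool.Agent.MUXU
open Pool.Agent.NS Pool.Agent.NSR Pool.Agent.OB

noncomputable section

namespace NFSx

/-- `φ₀ : x ↦ re x`, `φ₁ : x ↦ re x + im x` modulo two; `c = 0, 1` -/
def phi (A c : ℤ) (hA : (2 : ℤ) ∣ A) (hc : c = 0 ∨ c = 1) : OO A 1 →+* ZMod 2 where
  toFun x := ((x.re + c * x.im : ℤ) : ZMod 2)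
  map_one' := by
    rw [QuadraticAlgebra.re_one, QuadraticAlgebra.im_one]
    simp
  map_zero' := by
    rw [QuadraticAlgebra.re_zero, QuadraticAlgebra.im_zero]
    simp
  map_add' x y := by
    simp only [QuadraticAlgebra.re_add, QuadraticAlgebra.im_add]
    push_cast
    ring
  map_mul' x y := by
    have h2 : (A : ZMod 2) = 0 := (ZMod.intCast_zmod_eq_zero_iff_dvd _ 2).2 hA
    simp only [QuadraticAlgebra.re_mul, QuadraticAlgebra.im_mul]
    push_cast
    rcases hc with rfl | rfl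
    · rw [h2]
      push_cast
      ring
    · rw [h2]
      push_cast
      ring

/-- the primes above two -/
def qq (A c : ℤ) (hA : (2 : ℤ) ∣ A) (hc : c = 0 ∨ c = 1) : Ideal (OO A 1) :=
  RingHom.ker (phi A c hA hc)

section
variable {A c : ℤ} {hA : (2 : ℤ) ∣ A} {hc : c = 0 ∨ c = 1}

lemma phi_apply (x : OO A 1) : phi A c hA hc x = ((x.re + c * x.im : ℤ) : ZMod 2) := rfl

lemma phi_surj : Function.Surjective (phi A c hA hc) := by
  intro y
  refine ⟨((y.val : ℤ) : OO A 1), ?_⟩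
  rw [phi_apply, QuadraticAlgebra.re_intCast, QuadraticAlgebra.im_intCast]
  simp

lemma nI_qq : nI (qq A c hA hc) = 2 := by
  have e := RingHom.quotientKerEquivOfSurjective (phi_surj (A := A) (c := c) (hA := hA) (hc := hc))
  have h1 : Nat.card (OO A 1 ⧸ RingHom.ker (phi A c hA hc)) = Nat.card (ZMod 2) :=
    Nat.card_congr e.toEquiv
  have h2 : Nat.card (ZMod 2) = 2 := Nat.card_zmod 2
  exact h1.trans h2

lemma mem_qq (x : OO A 1) : x ∈ qq A c hA hc ↔ (2 : ℤ) ∣ x.re + c * x.im := by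
  unfold qq
  rw [RingHom.mem_ker, phi_apply]
  exact ZMod.intCast_zmod_eq_zero_iff_dvd _ 2

lemma qq_ne (h : CQ A 1) : qq A c hA hc ≠ ⊥ := by
  intro h0
  have h1 : ((2 : ℤ) : OO A 1) ∈ qq A c hA hc := by
    rw [mem_qq, QuadraticAlgebra.re_intCast, QuadraticAlgebra.im_intCast]
    simp
  rw [h0, Ideal.mem_bot] at h1
  have h2 : ((2 : ℕ) : OO A 1) ≠ 0 := natCast_ne_zero' h two_ne_zero
  exact h2 (by exact_mod_cast h1)

end

/-- the two ideals are coprime -/
lemma cop {A : ℤ} (hA : (2 : ℤ) ∣ A) : IsCoprime (qq A 0 hA (Or.inl rfl))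
    (qq A 1 hA (Or.inr rfl)) := by
  rw [Ideal.isCoprime_iff_exists]
  refine ⟨-⟨0, 1⟩, ?_, ⟨1, 1⟩, ?_, ?_⟩
  · rw [mem_qq]
    simp
  · rw [mem_qq]
    norm_num
  · apply QuadraticAlgebra.ext
    · rw [QuadraticAlgebra.re_one]
      simp
    · rw [QuadraticAlgebra.im_one]
      simp

/-- the product is in `(2)` -/
lemma prod {A : ℤ} (hA : (2 : ℤ) ∣ A) {x y : OO A 1} (hx : x ∈ qq A 0 hA (Or.inl rfl))
    (hy : y ∈ qq A 1 hA (Or.inr rfl)) : ∃ z : OO A 1, x * y = z * ((2 : ℕ) : OO A 1) := by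
  rw [mem_qq] at hx hy
  obtain ⟨k, hk⟩ := hx
  obtain ⟨l, hl⟩ := hy
  obtain ⟨a, ha⟩ := hA
  refine ⟨⟨k * y.re + a * x.im * y.im, k * y.im + x.im * l⟩, ?_⟩
  have hx0 : x.re = 2 * k := by linarith
  apply QuadraticAlgebra.ext
  · simp only [QuadraticAlgebra.re_mul, QuadraticAlgebra.re_natCast, QuadraticAlgebra.im_natCast]
    push_cast
    linear_combination y.re * hx0 + x.im * y.im * ha
  · simp only [QuadraticAlgebra.im_mul, QuadraticAlgebra.re_natCast, QuadraticAlgebra.im_natCast]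
    rw [hx0]
    have : y.re = 2 * l - y.im := by linarith
    rw [this]
    push_cast
    ring

/-- one step -/
lemma step {A : ℤ} {V : ValuationSubring ℂ} (hIS : So_IS2) (hQ : So_QUO) (h : CQ A 1)
    (h2 : V.valuation (2 : ℂ) = 1) {q q' : Ideal (OO A 1)} (hq : q ≠ ⊥) (hn : nI q = 2)
    (hcop : IsCoprime q q')
    (hqq : ∀ x ∈ q, ∀ y ∈ q', ∃ z : OO A 1, x * y = z * ((2 : ℕ) : OO A 1))
    {b : Ideal (OO A 1)} {L : PeriodPair} {om : ℂ} (hL : IsLI b L om) {w : ℂ}
    {d : V.ValueGroup} (hw : Far V L w d) (hnt : ¬ Tor q L w) :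
    ∃ (b' : Ideal (OO A 1)) (M : PeriodPair) (om' : ℂ) (d' : V.ValueGroup), IsLI b' M om' ∧
      (∀ z, z ∈ M.lattice ↔ Tor q L z) ∧ Far V M w d' ∧ d' ^ 2 = d ∧ ¬ Tor q M w := by
  obtain ⟨b', M, om', T, hM, hT, h2T, hMq, hMT⟩ := hQ A 1 h q hq hn b L om hL
  have hcm := hL.hasCM h
  have hcmM := hM.hasCM h
  have hTM : T ∈ M.lattice := (hMT T).2 (Or.inr (by rw [sub_self]; exact zero_mem _))
  have hwT : w - T ∉ L.lattice := fun hk => hnt ((hMq w).1 ((hMT w).2 (Or.inr hk)))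
  obtain ⟨d', hd', hf⟩ := (hIS V L M w T d h2 hw hT h2T hMT).2 hwT
  refine ⟨b', M, om', d', hM, hMq, hf, hd', fun hk => ?_⟩
  have hk' : Tor q' M w := by
    intro y hy
    rw [hMq]
    intro x hx
    obtain ⟨z, hz⟩ := hqq x hx y hy
    have e : emb x * (emb y * w) = emb z * (2 * w) := by
      rw [← mul_assoc, ← emb_mul h, hz, emb_mul h, emb_natCast h]
      push_cast
      ring
    rw [e]
    exact hcm z _ hw.two
  exact hnt ((hMq w).1 (tor_coprime h hcop hk hk'))

/-- `Tor (q ^ (k + 1))` -/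
lemma tor_pow {A : ℤ} (h : CQ A 1) {q : Ideal (OO A 1)} {L L' M : PeriodPair} {k : ℕ}
    (hL' : ∀ z, z ∈ L'.lattice ↔ Tor (q ^ k) L z) (hM : ∀ z, z ∈ M.lattice ↔ Tor q L' z) (z : ℂ) :
    z ∈ M.lattice ↔ Tor (q ^ (k + 1)) L z := by
  rw [hM]
  constructor
  · intro hz x hx
    rw [pow_succ] at hx
    refine Submodule.mul_induction_on hx ?_ ?_
    · intro y hy x hx
      have h1 := (hL' _).1 (hz x hx) y hy
      rwa [← mul_assoc, ← emb_mul h] at h1
    · intro x y hx hy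
      rw [emb_add h, add_mul]
      exact add_mem hx hy
  · intro hz x hx
    rw [hL']
    intro y hy
    rw [← mul_assoc, ← emb_mul h]
    refine hz _ ?_
    rw [pow_succ]
    exact Ideal.mul_mem_mul hy hx

/-- the chain -/
lemma chain {A : ℤ} {V : ValuationSubring ℂ} (hIS : So_IS2) (hQ : So_QUO) (h : CQ A 1)
    (h2 : V.valuation (2 : ℂ) = 1) {q q' : Ideal (OO A 1)} (hq : q ≠ ⊥) (hn : nI q = 2)
    (hcop : IsCoprime q q')
    (hqq : ∀ x ∈ q, ∀ y ∈ q', ∃ z : OO A 1, x * y = z * ((2 : ℕ) : OO A 1))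
    {b : Ideal (OO A 1)} {L : PeriodPair} {om : ℂ} (hL : IsLI b L om) {w : ℂ}
    {d : V.ValueGroup} (hw : Far V L w d) (hnt : ¬ Tor q L w) (k : ℕ) :
    ∃ (b' : Ideal (OO A 1)) (M : PeriodPair) (om' : ℂ) (d' : V.ValueGroup), IsLI b' M om' ∧
      (∀ z, z ∈ M.lattice ↔ Tor (q ^ k) L z) ∧ Far V M w d' ∧ d' ^ 2 ^ k = d ∧ ¬ Tor q M w := by
  induction k with
  | zero =>
    refine ⟨b, L, om, d, hL, fun z => ?_, hw, ?_, hnt⟩
    · rw [pow_zero, Ideal.one_eq_top]
      exact (tor_top h (hL.hasCM h)).symm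
    · rw [pow_zero, pow_one]
  | succ k ih =>
    obtain ⟨b', L', om', d', hL', hz', hf', hd', hnt'⟩ := ih
    obtain ⟨b₂, M, om₂, d₂, hM, hzM, hfM, hdM, hntM⟩ := step hIS hQ h h2 hq hn hcop hqq hL' hf' hnt'
    refine ⟨b₂, M, om₂, d₂, hM, tor_pow h hz' hzM, hfM, ?_, hntM⟩
    rw [pow_succ, mul_comm (2 ^ k) 2, pow_mul, hdM, hd']

/-- no far point, one of the two ideals given -/
lemma no_far {A : ℤ} {V : ValuationSubring ℂ} (hF : So_FRU) (hIS : So_IS2) (hQ : So_QUO)
    (h : CQ A 1) (hfin : ∀ b : Ideal (OO A 1), b ≠ ⊥ → ∃ (n : ℕ) (x : OO A 1), 0 < n ∧ x ≠ 0 ∧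
      b ^ n = sp x)
    (h2 : V.valuation (2 : ℂ) = 1) {q q' : Ideal (OO A 1)} (hq : q ≠ ⊥) (hn : nI q = 2)
    (hcop : IsCoprime q q')
    (hqq : ∀ x ∈ q, ∀ y ∈ q', ∃ z : OO A 1, x * y = z * ((2 : ℕ) : OO A 1))
    {b : Ideal (OO A 1)} {L : PeriodPair} {om : ℂ} (hL : IsLI b L om) {w : ℂ}
    {d : V.ValueGroup} (hw : Far V L w d) (hnt : ¬ Tor q L w) : False := by
  obtain ⟨n, x, hn0, hx, hqx⟩ := hfin q hq
  obtain ⟨b', M, om', d', hM, hz, hf, hd, -⟩ := chain hIS hQ h h2 hq hn hcop hqq hL hw hnt n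
  have hz' : ∀ z, z ∈ M.lattice ↔ emb x * z ∈ L.lattice := by
    intro z
    rw [hz, hqx]
    exact tor_span h (hL.hasCM h) x
  have h3 := (hF V M w d' hf).2 L (emb x) (emb_ne_zero h hx) hz'
  obtain ⟨-, h4⟩ := (hF V L w d hw).1 _ _ h3
  rw [h4] at hd
  have h5 : 2 ^ n = 1 + (2 ^ n - 1) := by
    have : 1 ≤ 2 ^ n := Nat.one_le_two_pow
    omega
  have h6 : 2 ^ n - 1 ≠ 0 := by
    have h7 : 2 ^ 1 ≤ 2 ^ n := Nat.pow_le_pow_right (by norm_num) hn0
    omega
  rw [h5, pow_add, pow_one] at hd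
  have h8 : d ^ (2 ^ n - 1) = 1 := by
    have h9 : d * d ^ (2 ^ n - 1) = d * 1 := by rw [mul_one]; exact hd
    exact mul_left_cancel₀ hw.d0 h9
  exact absurd (pow_lt_one₀ zero_le hw.lt h6) (by rw [h8]; exact lt_irrefl _)

end NFSx

open _root_.Pool.Agent.OBR.NFSx in
theorem o_NFS (hF : So_FRU) (hIS : So_IS2) (hQ : So_QUO) (_ : So_TW3) : So_NFS := by
  intro p er A B P V hc hB hA b L om hL w d hw
  subst hB
  have h := hc.cq
  have hfin := (Pool.Agent.MUXY.z_LAF A 1 h hc.ex3 hc.ex4).fin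
  have h2 : V.valuation (2 : ℂ) = 1 := hc.v2
  by_cases h1 : Tor (qq A 0 hA (Or.inl rfl)) L w
  · have h3 : ¬ Tor (qq A 1 hA (Or.inr rfl)) L w := fun h3 =>
      hw.ne (tor_coprime h (cop hA) h1 h3)
    exact no_far hF hIS hQ h hfin h2 (qq_ne h) nI_qq (cop hA).symm
      (fun x hx y hy => by
        obtain ⟨z, hz⟩ := NFSx.prod hA hy hx
        exact ⟨z, by rw [mul_comm]; exact hz⟩) hL hw h3
  · exact no_far hF hIS hQ h hfin h2 (qq_ne h) nI_qq (cop hA)
      (fun x hx y hy => NFSx.prod hA hx hy) hL hw h1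

end

end Pool.Agent.OBR


end

section

/-!
# OB, block GR: units of `O`, and squares `-1`, `-3`
-/

set_option autoImplicit false

namespace Pool.Agent.OBR

open _root_.MU3 Pool.Agent.MU3A Pool.Agent.MU3B Pool.Agent.RI Pool.Agent.MUX

namespace NSQx

/-- `x ^ 2 = -n` in coordinates -/
lemma sq_neg {A B n : ℤ} (x : OO A B) (h : x ^ 2 = -(n : OO A B)) :
    x.re ^ 2 + A * x.im ^ 2 = -n ∧ 2 * x.re * x.im + B * x.im ^ 2 = 0 := by
  have h1 := congrArg QuadraticAlgebra.re h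
  have h2 := congrArg QuadraticAlgebra.im h
  rw [pow_two] at h1 h2
  simp only [QuadraticAlgebra.re_mul, QuadraticAlgebra.re_neg, QuadraticAlgebra.re_intCast,
    Int.cast_id] at h1
  simp only [QuadraticAlgebra.im_mul, QuadraticAlgebra.im_neg, QuadraticAlgebra.im_intCast,
    neg_zero] at h2
  constructor
  · linear_combination h1
  · linear_combination h2

lemma key {A B : ℤ} (h : CQ A B) (h3 : absD A B ≠ 3) (h4 : absD A B ≠ 4) {n : ℤ}
    (hn : n = 1 ∨ n = 3) (x : OO A B) : x ^ 2 ≠ -(n : OO A B) := by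
  intro hx
  obtain ⟨h1, h2⟩ := sq_neg x hx
  set a := x.re
  set b := x.im
  unfold absD at h3 h4
  have hneg := h.neg
  have hb : b ≠ 0 := by
    intro hb
    rw [hb] at h1
    have := sq_nonneg a
    rcases hn with rfl | rfl <;> nlinarith
  have h5 : 2 * a + B * b = 0 := by
    have h6 : b * (2 * a + B * b) = 0 := by linear_combination h2
    rcases mul_eq_zero.1 h6 with h7 | h7
    · exact absurd h7 hb
    · exact h7
  rcases h.hB with hB | hB
  · subst hB
    have ha : a = 0 := by omega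
    rw [ha] at h1
    have hA : A < 0 := by omega
    have hb1 : 1 ≤ b ^ 2 := by
      have := sq_nonneg b
      have h8 : b ^ 2 ≠ 0 := pow_ne_zero 2 hb
      omega
    have hb2 : b ^ 2 ≤ 3 := by
      rcases hn with rfl | rfl <;> nlinarith
    have hb3 : b ≤ 1 := by nlinarith
    have hb4 : -1 ≤ b := by nlinarith
    have hb5 : b ^ 2 = 1 := by
      have : b = 1 ∨ b = -1 := by omega
      rcases this with h9 | h9 <;> rw [h9] <;> norm_num
    rw [hb5] at h1
    rcases hn with rfl | rfl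
    · apply h4
      omega
    · refine (h.fund0 rfl).2 ⟨-1, by omega⟩
  · subst hB
    have hba : b = -2 * a := by omega
    rw [hba] at h1
    have h6 : a ^ 2 * (1 + 4 * A) = -n := by linear_combination h1
    have ha0 : a ≠ 0 := by
      rintro h7
      apply hb
      rw [hba, h7]
      norm_num
    have ha1 : 1 ≤ a ^ 2 := by
      have := sq_nonneg a
      have h8 : a ^ 2 ≠ 0 := pow_ne_zero 2 ha0
      omega
    have ha2 : a ^ 2 ≤ 3 := by
      rcases hn with rfl | rfl <;> nlinarith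
    have ha3 : a ≤ 1 := by nlinarith
    have ha4 : -1 ≤ a := by nlinarith
    have ha5 : a ^ 2 = 1 := by
      have : a = 1 ∨ a = -1 := by omega
      rcases this with h9 | h9 <;> rw [h9] <;> norm_num
    rw [ha5] at h6
    rcases hn with rfl | rfl
    · omega
    · apply h3
      omega

lemma re1 {A B : ℤ} : (1 : OO A B).re = 1 := rfl

lemma im1 {A B : ℤ} : (1 : OO A B).im = 0 := rfl

lemma units {A B : ℤ} (h : CQ A B) (h3 : absD A B ≠ 3) (h4 : absD A B ≠ 4) (x : OO A B)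
    (hx : IsUnit x) : x = 1 ∨ x = -1 := by
  obtain ⟨y, hy⟩ := hx.exists_right_inv
  have h1 : nm x * nm y = 1 := by
    have h8 : nm (1 : OO A B) = 1 := by
      have h9 := nm_intCast (A := A) (B := B) 1
      rw [Int.cast_one] at h9
      rw [h9]
      norm_num
    rw [← nm_mul h, hy, h8]
  have h2 := nm_nonneg h x
  have h5 : nm x = 1 := by
    rcases Int.eq_one_or_neg_one_of_mul_eq_one h1 with h6 | h6
    · exact h6
    · omega
  unfold nm at h5
  unfold absD at h3 h4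
  have hneg := h.neg
  have hb : x.im = 0 := by
    by_contra hb
    have hb1 : 1 ≤ x.im ^ 2 := by
      have := sq_nonneg x.im
      have h8 : x.im ^ 2 ≠ 0 := pow_ne_zero 2 hb
      omega
    have h6 : (2 * x.re + B * x.im) ^ 2 + (-(B ^ 2 + 4 * A)) * x.im ^ 2 = 4 := by
      linear_combination 4 * h5
    have h7 : -(B ^ 2 + 4 * A) ≤ 4 := by
      have := sq_nonneg (2 * x.re + B * x.im)
      nlinarith
    rcases h.hB with hB | hB
    · subst hB
      apply h4
      omega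
    · subst hB
      apply h3
      omega
  rw [hb] at h5
  have h6 : x.re ^ 2 = 1 := by linear_combination h5
  have h8 : x.re = 1 ∨ x.re = -1 := by
    have h9 : (x.re - 1) * (x.re + 1) = 0 := by linear_combination h6
    rcases mul_eq_zero.1 h9 with h10 | h10
    · left; omega
    · right; omega
  rcases h8 with h7 | h7
  · left
    exact QuadraticAlgebra.ext (h7.trans re1.symm) (hb.trans im1.symm)
  · right
    refine QuadraticAlgebra.ext ?_ ?_
    · rw [QuadraticAlgebra.re_neg, re1]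
      exact h7
    · rw [QuadraticAlgebra.im_neg, im1, neg_zero]
      exact hb

end NSQx

theorem o_NSQ : So_NSQ := by
  intro A B h h3 h4
  refine ⟨fun x hx => ?_, fun x hx => ?_, NSQx.units h h3 h4⟩
  · refine NSQx.key h h3 h4 (n := 1) (Or.inl rfl) x ?_
    rw [hx]
    norm_num
  · refine NSQx.key h h3 h4 (n := 3) (Or.inr rfl) x ?_
    rw [hx]
    norm_num

end Pool.Agent.OBR


end

section

/-!
# OB, block GR, module POW (helper56): powers of an automorphism
-/

set_option autoImplicit false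

open WeierstrassCurve Polynomial

namespace Pool.Agent.OBR

open _root_.MU3 Pool.Agent.MU3A Pool.Agent.MU3B Pool.Agent.RI Pool.Agent.MUX Pool.Agent.MUXU
open Pool.Agent.MUXV (GR InK tX)
open Pool.Agent.NS Pool.Agent.NSR Pool.Agent.OB

noncomputable section

namespace POWx

theorem act_one {A B : ℤ} (hC : CQ A B) (m b : Ideal (OO A B)) (L : PeriodPair) (om : ℂ)
    (hL : IsNL b L om) : ActI (1 : ℂ ≃+* ℂ) m (1 : Ideal (OO A B)) L L 1 := by
  refine ⟨rfl, isCoprime_one_left, ⟨one_ne_zero, ?_⟩, ?_⟩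
  · intro z
    rw [one_mul]
    constructor
    · intro hz x _
      obtain ⟨t, ht, e⟩ := (hL.mem z).1 hz
      refine (hL.mem _).2 ⟨x * t, b.mul_mem_left _ ht, ?_⟩
      rw [emb_mul hC, e]
      ring
    · intro h
      have h1 := h 1 (by rw [Ideal.one_eq_top]; exact Submodule.mem_top)
      have h2 : emb (1 : OO A B) = 1 := by
        have := emb_natCast hC 1
        simpa using this
      rwa [h2, one_mul] at h1
  · intro z _
    rw [one_mul]
    by_cases hz : z ∈ L.lattice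
    · exact Or.inl ⟨hz, hz⟩
    · exact Or.inr ⟨hz, hz, rfl, rfl⟩

theorem fix_pow {A B : ℤ} {σ : ℂ ≃+* ℂ} (h : FixK A B σ) (n : ℕ) : FixK A B (σ ^ n) := by
  induction n with
  | zero => rfl
  | succ n ih =>
    have h1 : (σ ^ (n + 1) : ℂ ≃+* ℂ) (wC A B) = (σ ^ n : ℂ ≃+* ℂ) (σ (wC A B)) := by
      rw [pow_succ]
      rfl
    show (σ ^ (n + 1) : ℂ ≃+* ℂ) (wC A B) = wC A B
    rw [h1]
    have h2 : σ (wC A B) = wC A B := h
    rw [h2]
    exact ih

theorem acts_pow {A B : ℤ} (hC : CQ A B) (T : TorX A B) (m a : Ideal (OO A B)) (σ : ℂ ≃+* ℂ)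
    (h : Acts σ m a) (n : ℕ) : Acts (σ ^ n) m (a ^ n) := by
  induction n with
  | zero =>
    intro b L om hL
    rw [pow_zero, pow_zero]
    exact ⟨b, L, om, 1, hL, act_one hC m b L om hL⟩
  | succ n ih =>
    intro b L om hL
    obtain ⟨b1, L1, om1, mu1, hL1, h1⟩ := ih b L om hL
    obtain ⟨b2, L2, om2, mu2, hL2, h2⟩ := h b1 L1 om1 hL1
    have h3 := T.comp m (a ^ n) a (σ ^ n) σ L L1 L2 mu1 mu2 h1 h2
    refine ⟨b2, L2, om2, mu2 * mu1, hL2, ?_⟩
    rw [pow_succ' σ n, pow_succ a n]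
    exact h3

end POWx

open _root_.Pool.Agent.OBR.POWx in
theorem o_POW : So_POW := by
  intro A B hC T hN m a σ hm hσ hA n
  have h1 := acts_pow hC T m a σ hA n
  refine ⟨h1, ?_⟩
  obtain ⟨b, L, om, hL⟩ := hN
  obtain ⟨b', L', om', mu, hL', h2⟩ := h1 b L om hL
  exact T.triv m (a ^ n) (σ ^ n) b L L' om mu hm (fix_pow hσ n) hL h2 hL'.nrm

end

end Pool.Agent.OBR


end

section

/-!
# OBR_PRN (helper80): automorphisms with a principal ideal; see `StR.lean`
-/

set_option autoImplicit false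

namespace Pool.Agent.OBR

open _root_.MU3 Pool.Agent.MU3A Pool.Agent.MU3B Pool.Agent.RI Pool.Agent.MUX Pool.Agent.MUXU
open Pool.Agent.NS Pool.Agent.NSR Pool.Agent.OB

noncomputable section

namespace PRNx

/-- two normalised lattices with `L' = ν L`: `ν² = 1` -/
lemma sq_one {L L' : PeriodPair} {nu : ℂ} (h0 : nu ≠ 0)
    (h : ∀ z, z ∈ L.lattice ↔ nu * z ∈ L'.lattice) (hL : L.g₂ = -18 * L.g₃)
    (hL' : L'.g₂ = -18 * L'.g₃) : nu ^ 2 = 1 := by
  obtain ⟨-, -, h2, h3⟩ := ta_SCP L L' nu h0 h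
  have hg : L.g₃ ≠ 0 := by
    intro hg
    apply (b_DSC L).1
    rw [hL, hg]
    ring
  rw [h2, h3, hL] at hL'
  have h6 : nu ^ 6 ≠ 0 := pow_ne_zero _ h0
  have h4 : nu ^ 4 ≠ 0 := pow_ne_zero _ h0
  field_simp at hL'
  linear_combination -hL'

/-- equal lattices -/
lemma same {A B : ℤ} {m a : Ideal (OO A B)} {σ : ℂ ≃+* ℂ} {L L' : PeriodPair} {mu : ℂ}
    (h : ∀ z, z ∈ L.lattice ↔ z ∈ L'.lattice) (ha : ActI σ m a L L' mu) : ActI σ m a L L mu := by
  obtain ⟨h1, h2, h3, -⟩ := ta_SCP L L' 1 one_ne_zero (fun z => by rw [one_mul]; exact h z)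
  have hP : ∀ z, L'.weierstrassP z = L.weierstrassP z := fun z => by
    have := h1 z
    rwa [one_mul, one_pow, div_one] at this
  have hD : ∀ z, L'.derivWeierstrassP z = L.derivWeierstrassP z := fun z => by
    have := h2 z
    rwa [one_mul, one_pow, div_one] at this
  have hk : kap L' = kap L := by
    unfold kap
    rw [h3, one_pow, div_one]
  refine ⟨?_, ha.cop, ⟨ha.isq.1, fun z => ?_⟩, fun z hz => ?_⟩
  · rw [← ha.kap, hk]
  · rw [h]
    exact ha.isq.2 z
  · rcases ha.act z hz with ⟨h4, h5⟩ | ⟨h4, h5, h6, h7⟩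
    · exact Or.inl ⟨h4, (h _).2 h5⟩
    · refine Or.inr ⟨h4, fun h8 => h5 ((h _).1 h8), ?_, ?_⟩
      · rw [h6]
        unfold xn
        rw [hP]
      · rw [h7]
        unfold yy
        rw [hD]

end PRNx

open _root_.Pool.Agent.OBR.PRNx in
theorem o_PRN : So_PRN := by
  intro A B hcq T m σ c hm hc hK b b' L L' om om' mu hL hL' ha
  have hdom : IsDomain (OO A B) := isDomain hcq
  have hCM : HasCM A B L := hL.toIsLI.hasCM hcq
  have h1 : ActI σ (⊤ : Ideal (OO A B)) (sp c) L L' mu :=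
    ⟨ha.kap, by rw [Ideal.isCoprime_iff_sup_eq]; exact sup_top_eq _, ha.isq,
      fun z hz => ha.act z (Tor.mono le_top hz)⟩
  have h2 := T.chg ⊤ (sp c) ⊤ σ L L' mu 1 c top_ne_bot
    (by rw [Ideal.isCoprime_iff_sup_eq]; exact sup_top_eq _)
    (by rw [Ideal.isCoprime_iff_sup_eq]; exact sup_top_eq _) one_ne_zero hc Submodule.mem_top
    (by
      rw [Ideal.mul_top, show sp (1 : OO A B) = ⊤ from Ideal.span_singleton_one, Ideal.top_mul]) ⟨b, om, hL⟩ h1
  rw [emb_one hcq, mul_one] at h2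
  have h3 : ∀ z, z ∈ L.lattice ↔ (mu / emb c) * z ∈ L'.lattice := fun z => by
    rw [h2.isq.2 z]
    exact (tor_top hcq hCM).symm
  have h4 := sq_one h2.isq.1 h3 hL.nrm hL'.nrm
  have hce : emb c ≠ 0 := emb_ne_zero hcq hc
  have h5 : mu / emb c = 1 ∨ mu / emb c = -1 := by
    rcases mul_eq_zero.1 (show (mu / emb c - 1) * (mu / emb c + 1) = 0 by linear_combination h4) with h | h
    · exact Or.inl (sub_eq_zero.1 h)
    · exact Or.inr (eq_neg_of_add_eq_zero_left h)
  rcases h5 with h5 | h5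
  · have h6 : mu = emb c := by
      rw [div_eq_iff hce, one_mul] at h5
      exact h5
    subst h6
    refine ⟨c, Or.inl rfl, same (fun z => ?_) ha⟩
    rw [h3 z, h5, one_mul]
  · have h6 : mu = emb (-c) := by
      rw [div_eq_iff hce] at h5
      rw [h5, emb_neg hcq]
      ring
    have h7 : sp (-c) = sp c := Ideal.span_singleton_neg c
    refine ⟨-c, Or.inr rfl, ?_⟩
    rw [h7, ← h6]
    refine same (fun z => ?_) ha
    have h8 := h3 (-z)
    rw [h5, neg_one_mul, neg_neg] at h8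
    rw [← h8]
    exact ⟨fun h => neg_mem h, fun h => by simpa using neg_mem h⟩

end

end Pool.Agent.OBR


end

section

/-!
# OBR_PS2: `c² ≡ -1` modulo `q` (helper69)
-/

set_option autoImplicit false

namespace Pool.Agent.OBR

open _root_.MU3 Pool.Agent.MU3A Pool.Agent.MU3B Pool.Agent.RI Pool.Agent.MUX Pool.Agent.MUXU
open Pool.Agent.NS Pool.Agent.NSR Pool.Agent.OB

noncomputable section

namespace PS2x

lemma wp_of_sub {L : PeriodPair} {a b : ℂ} (h : a - b ∈ L.lattice) :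
    L.weierstrassP a = L.weierstrassP b := by
  have h1 := L.weierstrassP_add_coe b ⟨a - b, h⟩
  simpa using h1

lemma wp_of_add {L : PeriodPair} {a b : ℂ} (h : a + b ∈ L.lattice) :
    L.weierstrassP a = L.weierstrassP b := by
  rw [wp_of_sub (a := a) (b := -b) (by rwa [sub_neg_eq_add]), L.weierstrassP_neg]

/-- `2 q` is not in `P` -/
lemma not_le_two {p er : ℕ} {A B : ℤ} {P : Ideal (OO A B)} {V : ValuationSubring ℂ}
    (h : CaseO p er A B P V) {q : ℕ} (hq : q.Prime) (hqp : q ≠ p) :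
    ¬ idl (A := A) (B := B) (2 * q) ≤ P := by
  intro hle
  have h1 : ((2 * q : ℕ) : OO A B) ∈ P := hle (Ideal.mem_span_singleton_self _)
  have h2 := (h.vemb_lt _).2 h1
  rw [emb_natCast h.cq] at h2
  have h3 : ¬ p ∣ 2 * q := by
    intro hd
    rcases (h.pp.dvd_mul).1 hd with h4 | h4
    · have := Nat.le_of_dvd two_pos h4
      have := h.p5
      omega
    · exact hqp ((Nat.prime_dvd_prime_iff_eq h.pp hq).1 h4).symm
  exact h2.ne (h.vnat h3)

/-- not all points of level `2 q` are killed by four -/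
lemma not_four {A B : ℤ} (h : CQ A B) {b : Ideal (OO A B)} {L : PeriodPair} {om : ℂ}
    (hL : IsLI b L om) {q : ℕ} (hq : q.Prime) (hq2 : q ≠ 2)
    (hall : ∀ z, Tor (idl (A := A) (B := B) (2 * q)) L z → 4 * z ∈ L.lattice) : False := by
  have hqc : (q : ℂ) ≠ 0 := by exact_mod_cast hq.ne_zero
  have h1 : sp ((2 : ℕ) : OO A B) * b ≤ idl (A := A) (B := B) q * b := by
    rw [Ideal.mul_le]
    intro r hr x hx
    obtain ⟨r', rfl⟩ := Ideal.mem_span_singleton'.1 hr
    have hz : ((2 * q : ℕ) : ℂ) * (om * emb x / (2 * q)) ∈ L.lattice := by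
      have e : ((2 * q : ℕ) : ℂ) * (om * emb x / (2 * q)) = om * emb x := by
        push_cast
        field_simp
      rw [e]
      exact (hL.mem _).2 ⟨x, hx, rfl⟩
    have h2 := hall _ (tor_of_mul h hL hz)
    obtain ⟨y, hy, e⟩ := (hL.mem _).1 h2
    have h3 : ((2 : ℕ) : OO A B) * x = ((q : ℕ) : OO A B) * y := by
      apply emb_inj h
      rw [emb_mul h, emb_mul h, emb_natCast h, emb_natCast h]
      have h4 : om * (2 * emb x) = om * (q * emb y) := by
        have h5 : 4 * (om * emb x / (2 * q)) * q = om * (2 * emb x) := by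
          field_simp
          ring
        rw [← h5, e]
        ring
      have := mul_left_cancel₀ hL.om_ne h4
      push_cast
      exact this
    have h5 : r' * ((2 : ℕ) : OO A B) * x = ((q : ℕ) : OO A B) * (r' * y) := by
      rw [mul_assoc, h3]
      ring
    rw [h5]
    exact Ideal.mul_mem_mul (Ideal.mem_span_singleton_self _) (b.mul_mem_left _ hy)
  have h6 : sp ((2 : ℕ) : OO A B) ≤ idl (A := A) (B := B) q := by
    rw [mul_comm, mul_comm (idl q)] at h1
    exact (mul_le_mul_iff h hL.b_ne).1 h1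
  have h7 := h6 (Ideal.mem_span_singleton_self _)
  obtain ⟨t, ht⟩ := Ideal.mem_span_singleton.1 h7
  have h8 : (2 : ℤ) = q * t.re := by
    have := congrArg QuadraticAlgebra.re ht
    simp only [QuadraticAlgebra.re_mul, QuadraticAlgebra.re_natCast,
      QuadraticAlgebra.im_natCast] at this
    simpa using this
  have h9 : (q : ℤ) ∣ 2 := ⟨_, h8⟩
  have h10 : q ∣ 2 := by exact_mod_cast h9
  exact hq2 ((Nat.prime_dvd_prime_iff_eq hq Nat.prime_two).1 h10)

end PS2x

open _root_.Pool.Agent.OBR.PS2x in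
theorem o_PS2 (h1 : So_AFF) (h2 : So_TW3) (h3 : So_GRD) (h4 : So_INX) : So_PS2 := by
  intro p er A B P V h hT b L om hL w₁ w₂ w₃ hw q hq hqp hq2 σ hσ hI c hc c₁ c₂ c₃ hcc
  obtain ⟨u, hu⟩ : ∃ u : ℂ, u ^ 2 = L.weierstrassP w₂ - L.weierstrassP w₁ :=
    IsAlgClosed.exists_pow_nat_eq _ two_pos
  have hcm := hL.toIsLI.hasCM h.cq
  have G := h3 p er A B P V h b L om hL.toIsLI w₁ w₂ w₃ u hw hu
  obtain ⟨-, hA⟩ := h1 p er A B P V h hT b L om hL w₁ w₂ w₃ u hw hu q hq hqp σ hσ hI c hc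
  set X : ℂ → ℂ := xu L u (L.weierstrassP w₁) with hX
  set lam : ℂ := (L.weierstrassP w₃ - L.weierstrassP w₁) /
    (L.weierstrassP w₂ - L.weierstrassP w₁) with hlam
  have hu2 : u ^ 2 ≠ 0 := pow_ne_zero _ G.u0
  have X1 : X w₁ = 0 := by simp [hX, xu]
  have X2 : X w₂ = 1 := by
    rw [hX, xu, hu]
    exact div_self (by rw [← hu]; exact hu2)
  have X3 : X w₃ = lam := by rw [hX, xu, hu]
  have Xs : ∀ {a b : ℂ}, a - b ∈ L.lattice → X a = X b := by
    intro a b hab
    rw [hX, xu, xu, wp_of_sub hab]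
  have Xa : ∀ {a b : ℂ}, a + b ∈ L.lattice → X a = X b := by
    intro a b hab
    rw [hX, xu, xu, wp_of_add hab]
  rw [Xs c₂, Xs c₁, X3, X1] at hA
  simp only [sub_zero, add_zero] at hA
  have v2 := h.v2
  -- the point `w₃`
  have tor2 : ∀ z, 2 * z ∈ L.lattice → Tor (idl (A := A) (B := B) (2 * q)) L z := by
    intro z hz
    refine tor_of_mul h.cq hL.toIsLI ?_
    have e : ((2 * q : ℕ) : ℂ) * z = (q : ℕ) • (2 * z) := by
      rw [nsmul_eq_mul]
      push_cast
      ring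
    rw [e]
    exact nsmul_mem hz q
  have hv1 : V.valuation (1 + lam) < 1 := by
    have h5 := (hA w₃ hw.n₃ (tor2 _ hw.t₃)).2.2
    rw [Xs c₃, X2, X3] at h5
    have e : 1 - lam * lam = (1 - lam) * (1 + lam) := by ring
    rw [e, map_mul, G.vl1, one_mul] at h5
    exact h5
  have hadd : ∀ z, z ∉ L.lattice → Tor (idl (A := A) (B := B) (2 * q)) L z →
      V.valuation (X (emb c * z) + X z) < 1 := by
    intro z hz hz'
    obtain ⟨-, h6, h7⟩ := hA z hz hz'
    have e : X (emb c * z) + X z = (X (emb c * z) - lam * X z) + (1 + lam) * X z := by ring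
    rw [e]
    refine (V.valuation.map_add _ _).trans_lt (max_lt h7 ?_)
    rw [map_mul]
    calc V.valuation (1 + lam) * V.valuation (X z) ≤ V.valuation (1 + lam) * 1 :=
          mul_le_mul_right h6 _
      _ < 1 := by rw [mul_one]; exact hv1
  -- a point with `X (c y) = X y`
  have key : ∀ y, Tor (idl (A := A) (B := B) (2 * q)) L y → X (emb c * y) = X y →
      2 * y ∈ L.lattice := by
    intro y hy hXy
    by_cases hyL : y ∈ L.lattice
    · have e : 2 * y = y + y := by ring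
      rw [e]
      exact add_mem hyL hyL
    · have h8 := hadd y hyL hy
      rw [hXy] at h8
      have e : X y + X y = 2 * (X y - X w₁) := by rw [X1]; ring
      rw [e, map_mul, v2, one_mul] at h8
      rcases h4 p er A B P V h b L om hL.toIsLI u (L.weierstrassP w₁) lam G (idl (2 * q))
        (not_le_two h hq hqp) y w₁ hyL hw.n₁ hy (tor2 _ hw.t₁) h8 with h9 | h9
      · have h10 := add_mem (add_mem h9 h9) hw.t₁
        have e : y - w₁ + (y - w₁) + 2 * w₁ = 2 * y := by ring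
        rwa [e] at h10
      · have h10 := sub_mem (add_mem h9 h9) hw.t₁
        have e : y + w₁ + (y + w₁) - 2 * w₁ = 2 * y := by ring
        rwa [e] at h10
  have hle : idl (A := A) (B := B) (2 * q) ≤ idl (A := A) (B := B) q := by
    rw [Ideal.span_singleton_le_span_singleton]
    push_cast
    exact dvd_mul_left _ _
  rcases hcc with hcc | hcc
  · exfalso
    refine not_four h.cq hL.toIsLI hq hq2 fun z hz => ?_
    have h11 : emb (c ^ 2 - 1) * z ∈ L.lattice := hz _ hcc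
    have hec : emb (c ^ 2 - 1) = emb c * emb c - 1 := by
      rw [emb_sub h.cq, pow_two, emb_mul h.cq, emb_one h.cq]
    rw [hec] at h11
    have hz2 : Tor (idl (A := A) (B := B) (2 * q)) L (emb c * z) := Tor.mul_emb h.cq hz c
    have k1 : 2 * (z + emb c * z) ∈ L.lattice := by
      refine key _ (hz.add hz2) (Xs ?_)
      have e : emb c * (z + emb c * z) - (z + emb c * z) = (emb c * emb c - 1) * z := by ring
      rwa [e]
    have k2 : 2 * (z + -(emb c * z)) ∈ L.lattice := by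
      refine key _ (hz.add hz2.neg) (Xa ?_)
      have e : emb c * (z + -(emb c * z)) + (z + -(emb c * z)) =
          -((emb c * emb c - 1) * z) := by ring
      rw [e]
      exact neg_mem h11
    have e : 4 * z = 2 * (z + emb c * z) + 2 * (z + -(emb c * z)) := by ring
    rw [e]
    exact add_mem k1 k2
  · exact hle hcc

end

end Pool.Agent.OBR


end

section

/-!
# OB, block GR, module PSI (helper96): the element by which the lift to the level `2 q` acts
-/

set_option autoImplicit false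

namespace Pool.Agent.OBR.PSIx

open _root_.MU3 Pool.Agent.MU3A Pool.Agent.MU3B Pool.Agent.RI Pool.Agent.MUX Pool.Agent.MUXU
open Pool.Agent.NS Pool.Agent.NSR Pool.Agent.OB

noncomputable section

section
variable {A B : ℤ} {L : PeriodPair}

/-- two lattice statements for iterates -/
lemma iter2 (h : CQ A B) (hL : HasCM A B L) {c : OO A B} {w w' : ℂ}
    (h1 : emb c * w - w' ∈ L.lattice) (h2 : emb c * w' - w ∈ L.lattice) (k : ℕ) :
    emb (c ^ (2 * k)) * w - w ∈ L.lattice ∧ emb (c ^ (2 * k + 1)) * w - w' ∈ L.lattice := by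
  induction k with
  | zero =>
    refine ⟨?_, ?_⟩
    · rw [mul_zero, pow_zero, emb_one h, one_mul, sub_self]
      exact zero_mem _
    · rw [mul_zero, zero_add, pow_one]
      exact h1
  | succ k ih =>
    have h3 : emb (c ^ (2 * (k + 1))) * w - w ∈ L.lattice := by
      have h4 := add_mem (hL c _ ih.2) h2
      have e : emb c * (emb (c ^ (2 * k + 1)) * w - w') + (emb c * w' - w) =
          emb (c ^ (2 * (k + 1))) * w - w := by
        rw [show 2 * (k + 1) = (2 * k + 1) + 1 by ring, pow_succ (n := 2 * k + 1), emb_mul h]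
        ring
      rwa [e] at h4
    refine ⟨h3, ?_⟩
    have h4 := add_mem (hL c _ h3) h1
    have e : emb c * (emb (c ^ (2 * (k + 1))) * w - w) + (emb c * w - w') =
        emb (c ^ (2 * (k + 1) + 1)) * w - w' := by
      rw [pow_succ (n := 2 * (k + 1)), emb_mul h]
      ring
    rwa [e] at h4

lemma iter3 (h : CQ A B) (hL : HasCM A B L) {c : OO A B} {w w' w'' : ℂ}
    (h1 : emb c * w - w' ∈ L.lattice) (h2 : emb c * w' - w'' ∈ L.lattice)
    (h3 : emb c * w'' - w ∈ L.lattice) (k : ℕ) :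
    emb (c ^ (3 * k)) * w - w ∈ L.lattice ∧ emb (c ^ (3 * k + 1)) * w - w' ∈ L.lattice ∧
      emb (c ^ (3 * k + 2)) * w - w'' ∈ L.lattice := by
  have step : ∀ (n : ℕ) (x y : ℂ), emb (c ^ n) * w - x ∈ L.lattice → emb c * x - y ∈ L.lattice →
      emb (c ^ (n + 1)) * w - y ∈ L.lattice := by
    intro n x y hx hy
    have h4 := add_mem (hL c _ hx) hy
    have e : emb c * (emb (c ^ n) * w - x) + (emb c * x - y) = emb (c ^ (n + 1)) * w - y := by
      rw [pow_succ, emb_mul h]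
      ring
    rwa [e] at h4
  induction k with
  | zero =>
    have h0 : emb (c ^ (3 * 0)) * w - w ∈ L.lattice := by
      rw [mul_zero, pow_zero, emb_one h, one_mul, sub_self]
      exact zero_mem _
    exact ⟨h0, step _ _ _ h0 h1, step _ _ _ (step _ _ _ h0 h1) h2⟩
  | succ k ih =>
    have h0 : emb (c ^ (3 * (k + 1))) * w - w ∈ L.lattice := step _ _ _ ih.2.2 h3
    exact ⟨h0, step _ _ _ h0 h1, step _ _ _ (step _ _ _ h0 h1) h2⟩

/-- `c^l` acts trivially on the points of order two -/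
lemma pow_triv (h : CQ A B) (hL : HasCM A B L) {c : OO A B} {l q : ℕ}
    (hc : c ^ l - 1 ∈ idl (A := A) (B := B) (2 * q) ∨ c ^ l + 1 ∈ idl (A := A) (B := B) (2 * q))
    {w : ℂ} (hw : 2 * w ∈ L.lattice) : emb (c ^ l) * w - w ∈ L.lattice := by
  have hmul : ∀ x ∈ idl (A := A) (B := B) (2 * q), emb x * w ∈ L.lattice := by
    intro x hx
    obtain ⟨y, rfl⟩ := Ideal.mem_span_singleton'.1 hx
    have h1 := hL (y * (q : OO A B)) _ hw
    have e : emb (y * (q : OO A B)) * (2 * w) = emb (y * ((2 * q : ℕ) : OO A B)) * w := by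
      rw [emb_mul h, emb_mul h, emb_natCast h, emb_natCast h]
      push_cast
      ring
    rwa [e] at h1
  rcases hc with hc | hc
  · have h1 := hmul _ hc
    rw [emb_sub h, emb_one h] at h1
    have e : (emb (c ^ l) - 1) * w = emb (c ^ l) * w - w := by ring
    rwa [e] at h1
  · have h1 := sub_mem (hmul _ hc) hw
    rw [emb_add h, emb_one h] at h1
    have e : (emb (c ^ l) + 1) * w - 2 * w = emb (c ^ l) * w - w := by ring
    rwa [e] at h1

lemma even_of (h : CQ A B) (hL : HasCM A B L) {c : OO A B} {l : ℕ} {w w' : ℂ}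
    (h1 : emb c * w - w' ∈ L.lattice) (h2 : emb c * w' - w ∈ L.lattice)
    (hd : w - w' ∉ L.lattice) (ht : emb (c ^ l) * w - w ∈ L.lattice) : 2 ∣ l := by
  by_contra hc
  obtain ⟨k, hk⟩ : ∃ k, l = 2 * k + 1 := ⟨l / 2, by omega⟩
  have h3 := (iter2 h hL h1 h2 k).2
  rw [← hk] at h3
  apply hd
  have h4 := sub_mem h3 ht
  have e : emb (c ^ l) * w - w' - (emb (c ^ l) * w - w) = w - w' := by ring
  rwa [e] at h4

lemma three_of (h : CQ A B) (hL : HasCM A B L) {c : OO A B} {l : ℕ} {w w' w'' : ℂ}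
    (h1 : emb c * w - w' ∈ L.lattice) (h2 : emb c * w' - w'' ∈ L.lattice)
    (h3 : emb c * w'' - w ∈ L.lattice) (hd : w - w' ∉ L.lattice) (hd' : w - w'' ∉ L.lattice)
    (ht : emb (c ^ l) * w - w ∈ L.lattice) : 3 ∣ l := by
  by_contra hc
  have h4 : l = 3 * (l / 3) + 1 ∨ l = 3 * (l / 3) + 2 := by omega
  rcases h4 with hk | hk
  · have h5 := (iter3 h hL h1 h2 h3 (l / 3)).2.1
    rw [← hk] at h5
    apply hd
    have h6 := sub_mem h5 ht
    have e : emb (c ^ l) * w - w' - (emb (c ^ l) * w - w) = w - w' := by ring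
    rwa [e] at h6
  · have h5 := (iter3 h hL h1 h2 h3 (l / 3)).2.2
    rw [← hk] at h5
    apply hd'
    have h6 := sub_mem h5 ht
    have e : emb (c ^ l) * w - w'' - (emb (c ^ l) * w - w) = w - w'' := by ring
    rwa [e] at h6

/-- the image of a point of order two -/
lemma img (h : CQ A B) (hL : HasCM A B L) {c : OO A B}
    (hc : IsCoprime (sp c) (idl (A := A) (B := B) 2)) {w : ℂ} (hw : w ∉ L.lattice)
    (h2 : 2 * w ∈ L.lattice) : emb c * w ∉ L.lattice ∧ 2 * (emb c * w) ∈ L.lattice := by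
  refine ⟨fun h3 => hw (tor_coprime h hc ((tor_span h hL c).2 h3) ((tor_span h hL _).2 ?_)), ?_⟩
  · rw [emb_natCast h]
    exact_mod_cast h2
  · have h3 := hL c _ h2
    have e : emb c * (2 * w) = 2 * (emb c * w) := by ring
    rwa [e] at h3

/-- if `c - 1` kills the points of order two of a lattice of `O` itself then `c ≡ 1` modulo 2 -/
lemma triv2 (h : CQ A B) {om : ℂ} (hL : IsNL (⊤ : Ideal (OO A B)) L om) {c : OO A B}
    (hc : ∀ w, 2 * w ∈ L.lattice → emb c * w - w ∈ L.lattice) :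
    c - 1 ∈ idl (A := A) (B := B) 2 := by
  have h2 : (2 : ℂ) * (om / 2) ∈ L.lattice :=
    (hL.mem _).2 ⟨1, trivial, by rw [emb_one h]; ring⟩
  obtain ⟨y, -, hy⟩ := (hL.mem _).1 (hc _ h2)
  refine Ideal.mem_span_singleton'.2 ⟨y, ?_⟩
  apply emb_inj h
  rw [emb_mul h, emb_natCast h, emb_sub h, emb_one h]
  have h0 := hL.om_ne
  have h3 : om * (emb c - 1) = om * (emb y * 2) := by linear_combination 2 * hy
  have h4 := mul_left_cancel₀ h0 h3
  push_cast
  exact h4.symm

end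

end

end Pool.Agent.OBR.PSIx

namespace Pool.Agent.OBR

open _root_.MU3 Pool.Agent.MU3A Pool.Agent.MU3B Pool.Agent.RI Pool.Agent.MUX Pool.Agent.MUXU
open Pool.Agent.NS Pool.Agent.NSR Pool.Agent.OB PSIx

theorem o_PSI (hLFT : So_LFT) (hORD : So_ORD) (hPRN : So_PRN) (hPS2 : So_PS2) (hPS3 : So_PS3)
    (hNSQ : So_NSQ) (hTW3 : So_TW3) : So_PSI := by
  intro p er A B P V h hT l hl σ hσ hI hpow hnt q hq hq2 hq3 hqp
  have hcq := h.cq
  have hdom := isDomain hcq
  have hF := MUXY.z_LAF A B hcq h.ex3 h.ex4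
  have htop : (⊤ : Ideal (OO A B)) ≠ ⊥ := top_ne_bot
  obtain ⟨L, om, hL⟩ := hF.ex ⊤ htop
  have hex : ∃ (b : Ideal (OO A B)) (L : PeriodPair) (om : ℂ), IsNL b L om := ⟨⊤, L, om, hL⟩
  have hcm : HasCM A B L := hL.toIsLI.hasCM hcq
  obtain ⟨z, hz0, hzA⟩ := hORD p er A B P V h hT l hl σ hσ hI hpow
  obtain ⟨σ', a', be, hσ', hI', heq, -, hcop', ha'0, hA', hbe, hbe1, hall⟩ :=
    hLFT p er A B P V h hT hex l σ hσ hI hpow q hq hq2 hqp
  obtain ⟨x, y, hx0, hy0, hxy, hsp⟩ := hall (sp z) hzA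
  -- the generator of `a'`
  have hspy : sp y ≠ ⊥ := by
    intro h0
    exact hy0 (Ideal.span_singleton_eq_bot.1 h0)
  obtain ⟨c₀, hc₀, hc₀e⟩ : ∃ c₀ ∈ a', y * c₀ = x * z := by
    have h1 : x * z ∈ sp y * a' := by
      rw [← hsp]
      exact Ideal.mul_mem_mul (Ideal.mem_span_singleton_self x) (Ideal.mem_span_singleton_self z)
    exact Ideal.mem_span_singleton_mul.1 h1
  have ha' : a' = sp c₀ := by
    apply mul_cancel hcq hspy
    rw [← hsp, Ideal.span_singleton_mul_span_singleton, Ideal.span_singleton_mul_span_singleton,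
      hc₀e]
  have hc₀0 : c₀ ≠ 0 := by
    rintro rfl
    exact ha'0 (by rw [ha']; exact Ideal.span_singleton_eq_bot.2 rfl)
  have hm0 : idl (A := A) (B := B) (2 * q) ≠ ⊥ := by
    intro h0
    exact natCast_ne_zero' hcq (Nat.mul_ne_zero two_ne_zero hq.ne_zero)
      (Ideal.span_singleton_eq_bot.1 h0)
  have h20 : idl (A := A) (B := B) 2 ≠ ⊥ := by
    intro h0
    exact natCast_ne_zero' hcq two_ne_zero (Ideal.span_singleton_eq_bot.1 h0)
  obtain ⟨b', L', om', mu, hL', hact⟩ := hA' ⊤ L om hL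
  rw [ha'] at hact
  obtain ⟨c, hcc, hcact⟩ := hPRN A B hcq hT _ σ' c₀ hm0 hc₀0 hσ' ⊤ b' L L' om om' mu hL hL' hact
  have hspc : sp c = sp c₀ := by
    rcases hcc with rfl | rfl
    · rfl
    · exact Ideal.span_singleton_neg c₀
  have hle : idl (A := A) (B := B) (2 * q) ≤ idl (A := A) (B := B) 2 := by
    rw [Ideal.span_singleton_le_span_singleton]
    exact ⟨(q : OO A B), by push_cast; ring⟩
  have hcop : IsCoprime (sp c) (idl (A := A) (B := B) (2 * q)) := hcact.cop
  have hcop2 : IsCoprime (sp c) (idl (A := A) (B := B) 2) := by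
    rw [Ideal.isCoprime_iff_sup_eq] at hcop ⊢
    exact eq_top_iff.2 (hcop.ge.trans (sup_le_sup_left hle _))
  -- `c ^ l ≡ ± 1`
  have hcl : c ^ l - 1 ∈ idl (A := A) (B := B) (2 * q) ∨ c ^ l + 1 ∈ idl (A := A) (B := B) (2 * q) := by
    have h0 : sp c ^ l = sp (c ^ l) := Ideal.span_singleton_pow c l
    have h1 : sp (c ^ l) = sp be := by
      rw [← h0, hspc, ← ha', hbe]
    obtain ⟨ε, hε⟩ := Ideal.span_singleton_eq_span_singleton.1 h1
    have h2 := (hNSQ A B hcq h.ex3 h.ex4).2.2 (ε : OO A B) ε.isUnit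
    rcases h2 with h2 | h2
    · left
      rw [h2, mul_one] at hε
      rw [hε]
      exact hbe1
    · right
      rw [h2] at hε
      have h3 : c ^ l + 1 = -(be - 1) := by rw [← hε]; ring
      rw [h3]
      exact neg_mem hbe1
  -- `c` is not 1 modulo 2
  have hc1 : c - 1 ∉ idl (A := A) (B := B) 2 := by
    intro h1
    have h2 : ActI σ' (idl (A := A) (B := B) 2) (sp c) L L (emb c) :=
      ⟨hcact.kap, hcop2, hcact.isq, fun z hz => hcact.act z (hz.mono hle)⟩
    have h3 := (hT.triv _ _ σ' ⊤ L L om (emb c) h20 hσ' hL h2 hL.nrm).2 ⟨c, h1, rfl⟩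
    exact hnt fun y hy => by rw [← heq y hy]; exact h3 y hy
  obtain ⟨⟨w₁, w₂, w₃, hw⟩, -, hw3⟩ := hTW3 L
  obtain ⟨-, hcl3, -⟩ := hw3 w₁ w₂ w₃ hw
  have hpt : ∀ w, 2 * w ∈ L.lattice → emb (c ^ l) * w - w ∈ L.lattice := fun w hw' =>
    pow_triv hcq hcm hcl hw'
  have i1 := img hcq hcm hcop2 hw.n₁ hw.t₁
  have i2 := img hcq hcm hcop2 hw.n₂ hw.t₂
  have i3 := img hcq hcm hcop2 hw.n₃ hw.t₃
  -- the differences
  have dd : ∀ a b : ℂ, a - b ∉ L.lattice → 2 * a ∈ L.lattice → 2 * b ∈ L.lattice → ∀ t,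
      emb c * a - t ∈ L.lattice → emb c * b - t ∈ L.lattice → False := by
    intro a b hab ha hb t h1 h2
    have h3 : 2 * (a - b) ∈ L.lattice := by
      have := sub_mem ha hb
      rwa [← mul_sub] at this
    apply (img hcq hcm hcop2 hab h3).1
    have := sub_mem h1 h2
    have e : emb c * a - t - (emb c * b - t) = emb c * (a - b) := by ring
    rwa [e] at this
  have d12 := dd w₁ w₂ hw.d₁₂ hw.t₁ hw.t₂
  have d13 := dd w₁ w₃ hw.d₁₃ hw.t₁ hw.t₃
  have d23 := dd w₂ w₃ hw.d₂₃ hw.t₂ hw.t₃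
  -- the two results
  have r2 : ∀ v₁ v₂ v₃, Two3 L v₁ v₂ v₃ → emb c * v₁ - v₁ ∈ L.lattice →
      emb c * v₂ - v₃ ∈ L.lattice → emb c * v₃ - v₂ ∈ L.lattice →
      l = 2 ∧ c ^ 2 + 1 ∈ idl (A := A) (B := B) q := by
    intro v₁ v₂ v₃ hv e1 e2 e3
    have hdl := even_of hcq hcm e2 e3 hv.d₂₃ (hpt _ hv.t₂)
    have hl2 : l = 2 := ((Nat.prime_dvd_prime_iff_eq Nat.prime_two hl).1 hdl).symm
    refine ⟨hl2, hPS2 p er A B P V h hT ⊤ L om hL v₁ v₂ v₃ hv q hq hqp hq2 σ' hσ' hI' c hcact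
      e1 e2 e3 ?_⟩
    rwa [hl2] at hcl
  have r3 : ∀ v₁ v₂ v₃, Two3 L v₁ v₂ v₃ → emb c * v₁ - v₂ ∈ L.lattice →
      emb c * v₂ - v₃ ∈ L.lattice → emb c * v₃ - v₁ ∈ L.lattice →
      l = 3 ∧ (c ^ 2 + c + 1 ∈ idl (A := A) (B := B) q ∨ c ^ 2 - c + 1 ∈ idl (A := A) (B := B) q) := by
    intro v₁ v₂ v₃ hv e1 e2 e3
    have hdl := three_of hcq hcm e1 e2 e3 hv.d₁₂ hv.d₁₃ (hpt _ hv.t₁)
    have hl3 : l = 3 := ((Nat.prime_dvd_prime_iff_eq Nat.prime_three hl).1 hdl).symm
    refine ⟨hl3, hPS3 p er A B P V h hT ⊤ L om hL v₁ v₂ v₃ hv q hq hqp hq2 hq3 σ' hσ' hI' c hcact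
      e1 e2 e3 ?_⟩
    rwa [hl3] at hcl
  refine ⟨c, ?_⟩
  rcases hcl3 _ i1.1 i1.2 with a1 | a1 | a1 <;> rcases hcl3 _ i2.1 i2.2 with a2 | a2 | a2 <;>
    rcases hcl3 _ i3.1 i3.2 with a3 | a3 | a3
  · exact (d12 _ a1 a2).elim
  · exact (d12 _ a1 a2).elim
  · exact (d12 _ a1 a2).elim
  · exact (d13 _ a1 a3).elim
  · exact (d23 _ a2 a3).elim
  · -- the identity
    exfalso
    apply hc1
    apply triv2 hcq hL
    intro w hw'
    by_cases hwL : w ∈ L.lattice
    · exact sub_mem (hcm c _ hwL) hwL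
    · have key : ∀ t, emb c * t - t ∈ L.lattice → w - t ∈ L.lattice →
          emb c * w - w ∈ L.lattice := by
        intro t h1 h2
        have h3 := sub_mem (add_mem (hcm c _ h2) h1) h2
        have e : emb c * (w - t) + (emb c * t - t) - (w - t) = emb c * w - w := by ring
        rwa [e] at h3
      rcases hcl3 _ hwL hw' with h1 | h1 | h1
      · exact key _ a1 h1
      · exact key _ a2 h1
      · exact key _ a3 h1
  · exact (d13 _ a1 a3).elim
  · exact Or.inl (r2 w₁ w₂ w₃ hw a1 a2 a3)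
  · exact (d23 _ a2 a3).elim
  · exact (d23 _ a2 a3).elim
  · exact (d13 _ a1 a3).elim
  · -- (1 2) 3
    exact Or.inl (r2 w₃ w₁ w₂ hw.rot.rot a3 a1 a2)
  · exact (d12 _ a1 a2).elim
  · exact (d12 _ a1 a2).elim
  · exact (d12 _ a1 a2).elim
  · -- 1 → 2 → 3 → 1
    exact Or.inr (r3 w₁ w₂ w₃ hw a1 a2 a3)
  · exact (d13 _ a1 a3).elim
  · exact (d23 _ a2 a3).elim
  · exact (d23 _ a2 a3).elim
  · -- 1 → 3 → 2 → 1
    exact Or.inr (r3 w₁ w₃ w₂ hw.swap a1 a3 a2)
  · exact (d13 _ a1 a3).elim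
  · -- (1 3) 2
    exact Or.inl (r2 w₂ w₃ w₁ hw.rot a2 a3 a1)
  · exact (d23 _ a2 a3).elim
  · exact (d13 _ a1 a3).elim
  · exact (d12 _ a1 a2).elim
  · exact (d12 _ a1 a2).elim
  · exact (d12 _ a1 a2).elim

end Pool.Agent.OBR


end

section

/-!
# OB, block GR, module QUO (helper26): the lattice `q⁻¹ L`, `q` an ideal of norm two
-/

set_option autoImplicit false

namespace Pool.Agent.OBR

open _root_.MU3 Pool.Agent.MU3A Pool.Agent.MU3B Pool.Agent.RI Pool.Agent.MUX Pool.Agent.MUXU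
open Pool.Agent.MUXV (GR InK tX)
open Pool.Agent.NS Pool.Agent.NSR Pool.Agent.OB

noncomputable section

namespace QUOx

variable {A B : ℤ}

lemma card_eq_index (I : Ideal (OO A B)) : nI I = I.toAddSubgroup.index := rfl

/-- the class of an ideal of relative index two -/
lemma exists_rep {q c : Ideal (OO A B)} (h : nI (q * c) = 2 * nI c) (hc : nI c ≠ 0) :
    ∃ y ∈ c, y ∉ q * c ∧ ∀ t ∈ c, t ∈ q * c ∨ t - y ∈ q * c := by
  have hqc : q * c ≤ c := Ideal.mul_le_right
  have hle : (q * c).toAddSubgroup ≤ c.toAddSubgroup := by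
    intro x hx
    have hx' : x ∈ q * c := hx
    exact (hqc hx' : x ∈ c)
  have h1 := AddSubgroup.relIndex_mul_index hle
  rw [← card_eq_index, ← card_eq_index, h] at h1
  have h2 : (q * c).toAddSubgroup.relIndex c.toAddSubgroup = 2 :=
    Nat.eq_of_mul_eq_mul_right (Nat.pos_of_ne_zero hc) h1
  obtain ⟨a, ha, h3⟩ := AddSubgroup.relIndex_eq_two_iff.1 h2
  have ha' : a ∈ c := ha
  have h0 : a ∉ q * c := by
    intro hq
    have h4 := h3 0 c.toAddSubgroup.zero_mem
    rcases h4 with h4 | h4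
    · exact h4.2 (q * c).zero_mem
    · exact h4.2 (by rw [zero_add]; exact hq)
  refine ⟨-a, neg_mem ha', fun h5 => h0 (by have := neg_mem h5; rwa [neg_neg] at this), ?_⟩
  intro t ht
  rcases h3 t ht with h4 | h4
  · right
    rw [sub_neg_eq_add]
    exact h4.1
  · exact Or.inl h4.1

end QUOx

open _root_.Pool.Agent.OBR.QUOx in
theorem o_QUO : So_QUO := by
  intro A B hC q hq0 hq2 b L om hL
  have hqc := cjI_ne_bot hC hq0
  have hb := hL.b_ne
  have hc : cjI q * b ≠ ⊥ := mul_ne_bot hC hqc hb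
  set c := cjI q * b with hcdef
  have hom := hL.om_ne
  have h2c : (2 : ℂ) ≠ 0 := two_ne_zero
  have hom' : om / 2 ≠ 0 := div_ne_zero hom h2c
  obtain ⟨M, hM⟩ := exists_isLI hC hc hom'
  have e2 : q * cjI q = sp ((2 : ℕ) : OO A B) := by
    have := mul_cjI hC hq0
    rwa [hq2] at this
  have eqc : q * c = sp ((2 : ℕ) : OO A B) * b := by
    rw [hcdef, ← mul_assoc, e2]
  have hqcle : q * c ≤ c := Ideal.mul_le_right
  have embtwo : ∀ t : OO A B, om / 2 * emb (((2 : ℕ) : OO A B) * t) = om * emb t := by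
    intro t
    rw [emb_mul hC, emb_natCast hC]
    push_cast
    ring
  have key : ∀ s : OO A B, om / 2 * emb s ∈ L.lattice ↔ s ∈ q * c := by
    intro s
    rw [hL.mem, eqc]
    constructor
    · rintro ⟨t, ht, hst⟩
      rw [← embtwo] at hst
      have := emb_inj hC (mul_left_cancel₀ hom' hst)
      rw [this]
      exact Ideal.mul_mem_mul (Ideal.mem_span_singleton_self _) ht
    · intro hs
      obtain ⟨t, ht, rfl⟩ := Ideal.mem_span_singleton_mul.1 hs
      exact ⟨t, ht, embtwo t⟩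
  have hnI : nI (q * c) = 2 * nI c := by rw [nI_mul hC hq0 hc, hq2]
  obtain ⟨y, hyc, hyq, hrep⟩ := exists_rep hnI (nI_ne_zero hC hc)
  have two_q : ((2 : ℕ) : OO A B) ∈ q := by
    have := nI_mem hC hq0
    rwa [hq2] at this
  refine ⟨c, M, om / 2, om / 2 * emb y, hM, fun h => hyq ((key y).1 h), ?_, ?_, ?_⟩
  · have h1 : 2 * (om / 2 * emb y) = om / 2 * emb (((2 : ℕ) : OO A B) * y) := by
      rw [embtwo]
      ring
    rw [h1]
    exact (key _).2 (Ideal.mul_mem_mul two_q hyc)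
  · intro z
    constructor
    · intro hz x hx
      obtain ⟨t, ht, rfl⟩ := (hM.mem z).1 hz
      have h1 : emb x * (om / 2 * emb t) = om / 2 * emb (x * t) := by
        rw [emb_mul hC]
        ring
      rw [h1]
      exact (key _).2 (Ideal.mul_mem_mul hx ht)
    · intro hz
      have h1 : ∀ s ∈ q * cjI q, ∃ t ∈ c, emb s * z = om * emb t := by
        intro s hs
        refine Submodule.mul_induction_on hs ?_ ?_
        · intro x hx u hu
          obtain ⟨t, ht, hxt⟩ := (hL.mem _).1 (hz x hx)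
          refine ⟨u * t, Ideal.mul_mem_mul hu ht, ?_⟩
          rw [emb_mul hC, emb_mul hC]
          linear_combination emb u * hxt
        · rintro s s' ⟨t, ht, h1⟩ ⟨t', ht', h2⟩
          refine ⟨t + t', add_mem ht ht', ?_⟩
          rw [emb_add hC, emb_add hC]
          linear_combination h1 + h2
      obtain ⟨t, ht, h2⟩ := h1 ((2 : ℕ) : OO A B) (by
        rw [e2]
        exact Ideal.mem_span_singleton_self _)
      refine (hM.mem z).2 ⟨t, ht, ?_⟩
      rw [emb_natCast hC] at h2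
      push_cast at h2
      linear_combination h2 / 2
  · intro z
    constructor
    · intro hz
      obtain ⟨t, ht, rfl⟩ := (hM.mem z).1 hz
      rcases hrep t ht with h1 | h1
      · exact Or.inl ((key t).2 h1)
      · right
        have h2 := (key _).2 h1
        rw [emb_sub hC, mul_sub] at h2
        exact h2
    · have h3 : ∀ z ∈ L.lattice, z ∈ M.lattice := by
        intro z hz
        obtain ⟨t, ht, rfl⟩ := (hL.mem z).1 hz
        rw [← embtwo]
        refine (hM.mem _).2 ⟨_, ?_, rfl⟩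
        have : ((2 : ℕ) : OO A B) * t ∈ q * c := by
          rw [eqc]
          exact Ideal.mul_mem_mul (Ideal.mem_span_singleton_self _) ht
        exact hqcle this
      rintro (h1 | h1)
      · exact h3 z h1
      · have h4 := h3 _ h1
        have h5 : om / 2 * emb y ∈ M.lattice := (hM.mem _).2 ⟨y, hyc, rfl⟩
        have := add_mem h4 h5
        rwa [sub_add_cancel] at this

end

end Pool.Agent.OBR


end

section

/-!
# OB, block GR, module RF2 (helper37): the Legendre forms are defined over `RF (2)`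
-/

set_option autoImplicit false

open WeierstrassCurve Polynomial

namespace Pool.Agent.OBR

open _root_.MU3 Pool.Agent.MU3A Pool.Agent.MU3B Pool.Agent.RI Pool.Agent.MUX Pool.Agent.MUXU
open Pool.Agent.NS Pool.Agent.NSR Pool.Agent.OB

noncomputable section

theorem RF2x.xn_mem {A B : ℤ} (hc : CQ A B) {b : Ideal (OO A B)} {L : PeriodPair} {om : ℂ}
    (h : IsNL b L om) {w : ℂ} (hw : w ∉ L.lattice) (hw2 : 2 * w ∈ L.lattice) :
    L.weierstrassP w ∈ RF (idl (A := A) (B := B) 2) := by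
  have h1 : xn L w ∈ RF (idl (A := A) (B := B) 2) := by
    refine IntermediateField.subset_adjoin _ _ ⟨b, L, om, h, Or.inr ⟨w, ?_, hw, rfl⟩⟩
    intro x hx
    obtain ⟨y, rfl⟩ := Ideal.mem_span_singleton'.1 hx
    have h2 : emb (y * ((2 : ℕ) : OO A B)) = emb y * 2 := by
      rw [emb_mul hc]
      congr 1
      have := map_natCast (Pool.Agent.MUX.embHom hc) 2
      rw [Pool.Agent.MUX.embHom_apply] at this
      rw [this]
      norm_num
    rw [h2, mul_assoc]
    exact h.toIsLI.hasCM hc y _ hw2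
  have h3 : L.weierstrassP w = xn L w + ((1 / 12 : ℚ) : ℂ) := by
    unfold xn
    push_cast
    ring
  rw [h3]
  refine add_mem h1 ?_
  exact SubfieldClass.ratCast_mem _ _

theorem o_RF2 : So_RF2 := fun _ _ hc _ _ _ hL _ hw hw2 => RF2x.xn_mem hc hL hw hw2

end

end Pool.Agent.OBR


end

section

/-!
# OB, block GR, SCL: the scaled lattice (helper50)
-/

set_option autoImplicit false

open WeierstrassCurve Polynomial

namespace Pool.Agent.OBR

open _root_.MU3 Pool.Agent.MU3A Pool.Agent.MU3B Pool.Agent.RI Pool.Agent.MUX Pool.Agent.MUXU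
open Pool.Agent.MUXV (GR InK tX)
open Pool.Agent.NS Pool.Agent.NSR Pool.Agent.OB

noncomputable section

theorem o_SCL (h1 : So_GRL) : So_SCL := by
  intro V L u e lam v2 hL
  have hu : u ≠ 0 := hL.u0
  obtain ⟨L₁, hL₁⟩ := Pool.Agent.MUXU.u_SCX L u hu
  obtain ⟨hP, hP', -, -⟩ := ta_SCP L L₁ u hu hL₁
  obtain ⟨ξ, G, -⟩ := h1 V L u e lam v2 hL
  refine ⟨L₁, hL₁, hP, hP', WL lam, ξ.comp (AddMonoidHom.mulLeft u⁻¹), ?_⟩
  have hz : ∀ z : ℂ, u * (u⁻¹ * z) = z := fun z => by
    rw [← mul_assoc, mul_inv_cancel₀ hu, one_mul]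
  refine ⟨G.int, G.two, G.disc, ?_, ?_⟩
  · intro z hzL
    have h2 : u⁻¹ * z ∉ L.lattice := by
      rw [hL₁, hz]
      exact hzL
    obtain ⟨h, e1⟩ := G.some (u⁻¹ * z) h2
    have e2 : xu L u e (u⁻¹ * z) = L₁.weierstrassP z - e / u ^ 2 := by
      have := hP (u⁻¹ * z)
      rw [hz] at this
      unfold xu
      rw [this, sub_div]
    have e3 : yu L u (u⁻¹ * z) = L₁.derivWeierstrassP z / 2 := by
      have := hP' (u⁻¹ * z)
      rw [hz] at this
      unfold yu
      rw [this]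
      field_simp
    have h' := h
    rw [e2, e3] at h'
    refine ⟨h', ?_⟩
    rw [AddMonoidHom.comp_apply, AddMonoidHom.coe_mulLeft, e1]
    congr 1
  · intro z hzL
    have h2 : u⁻¹ * z ∈ L.lattice := by
      rw [hL₁, hz]
      exact hzL
    rw [AddMonoidHom.comp_apply, AddMonoidHom.coe_mulLeft, G.zero _ h2]

end

end Pool.Agent.OBR


end
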