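import Pool.Agent.MVF.C027
import Pool.Agent.MVF.C057
import Pool.Agent.MVF.C059
import Pool.Agent.MVF.C072
import Pool.Agent.MVF.C073
import Pool.Agent.MVF.C080
import Pool.Agent.MVF.C087
import Pool.Agent.MVF.C091
import Pool.Agent.MVF.C092
import Pool.Agent.MVF.C105
import Pool.Agent.MVF.C113
import Pool.Agent.MVF.C137
import Pool.Agent.MVF.C139
import Pool.Agent.MVF.C155
import Pool.Agent.MVF.C165
import Pool.Agent.OBM.C01
import Pool.Agent.OBM.C02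
import Pool.Agent.OBM.C05
import Pool.Agent.OBM.C07
import Pool.Agent.OBM.C08
import Pool.Agent.OBM.C09
import Pool.Agent.OBM.C10
import Pool.Agent.OBM.C11
import Pool.Agent.OBM.C12
import Pool.Agent.OBM.C13
import Pool.Agent.OBM.C14
import Pool.Agent.OBM.C15
import Pool.Agent.OBM.C16

/-! Parts: OB.GAll, OB.HAll, OB.EAll, OB.RAll, OB.IAll, OB.TAll -/

section

/-!
# OB, block G put together (helper59): Theorem G for the translates, every prime `p ≥ 5`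
-/

set_option autoImplicit false

namespace Pool.Agent.OBG

open _root_.MU3 Pool.Agent.MUX Pool.Agent.MUXN Pool.Agent.MUXF Pool.Agent.MUXY Pool.Agent.MUXU
  Pool.Agent.MuSym Pool.Agent.NS Pool.Agent.NSG OnePoint

/-- Theorem G for the translates, without hypotheses -/
theorem x_GPT : So_GPT :=
  o_GPT o_TRL o_LCN (o_LEG u_SCX) (o_UNN xf_IDL xf_NIM)
    (tn_GTH (tn_GJ Pool.Agent.MU3Q.wq (tg_GP tg_GV tg_GD) tg_DV tg_RET tg_NFE)
    (tg_DSC tg_DSI) tg_ZL (tg_FK u_AUF) tg_FGG) Pool.Agent.MUXT.main_FTI xf_CHI y_CON y_ALP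
    y_FEC y_COP xf_ALG xf_IDL xf_QB xf_BDD xf_TSM

end Pool.Agent.OBG


end

section

/-!
# OB, block H, the result: `O_HFIN` from `O_TYF` and `O_GPT` (helper51)
-/

set_option autoImplicit false

namespace Pool.Agent.OBH

open Pool.Agent.OB

theorem o_RAM : So_RAM := to_RAM
theorem o_VAL : So_VAL := to_VAL o_RAM
theorem o_CHR : So_CHR := to_CHR o_VAL
theorem o_QBO : So_QBO := to_QBO o_RAM
theorem o_DEP : So_DEP := to_DEP o_VAL o_QBO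
theorem o_SHJ : So_SHJ := to_SHJ
theorem o_REL : So_REL := to_REL o_QBO o_SHJ o_VAL
theorem o_PJ1 : So_PJ1 := to_PJ1 o_VAL o_RAM
theorem o_PHJ : So_PHJ := to_PHJ o_RAM o_VAL
theorem o_PJ2 : So_PJ2 := to_PJ2 o_PHJ o_QBO o_VAL
theorem o_SAF : So_SAF := to_SAF o_VAL
theorem o_UAL : So_UAL := to_UAL
theorem o_QS2 : So_QS2 := to_QS2 o_QBO
theorem o_PAI : So_PAI := to_PAI
theorem o_KYN : So_KYN := to_KYN o_PAI
theorem o_LOC : So_LOC := to_LOC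
theorem o_NZ : So_NZ := to_NZ o_LOC o_KYN
theorem o_DVN : So_DVN := to_DVN
theorem o_DVR : So_DVR := to_DVR
theorem o_TYP : So_TYP := to_TYP
theorem o_FAC : So_FAC := to_FAC
theorem o_HKN : So_HKN := to_HKN
theorem o_BDN : So_BDN := to_BDN
theorem o_PRT : So_PRT := to_PRT
theorem o_HN : So_HN := to_HN o_NZ o_DVN o_TYP
theorem o_HR : So_HR := to_HR o_NZ o_DVR o_TYP o_FAC

theorem o_HFIN (hT : O_TYF) (hG : O_GPT) : O_HFIN :=
  to_HFA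
    (to_HF1 (to_HQ1 hT hG o_RAM o_VAL o_CHR o_DEP o_PJ1 o_SAF o_UAL o_BDN o_HKN o_TYP o_PRT)
      o_HN o_VAL o_RAM)
    (to_HF2 (to_HQ2 hT hG o_RAM o_VAL o_CHR o_PJ2 o_SAF o_UAL o_BDN o_TYP o_PRT)
      o_HR o_REL o_QS2 o_VAL)
    o_RAM

end Pool.Agent.OBH


end

section

/-!
# OB, block E: assembly (helper96)
-/

set_option autoImplicit false

namespace Pool.Agent.OBE

open Pool.Agent.OB

theorem e_ALG : Sb_ALG := tb_ALG
theorem e_COE : Sb_COE := tb_COE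
theorem e_LEG : Sb_LEG := tb_LEG
theorem e_DEG : Sb_DEG := tb_DEG
theorem e_DSM : Sb_DSM := tb_DSM
theorem e_EXO : Sb_EXO := tb_EXO
theorem e_IDL : Sb_IDL := tb_IDL
theorem e_MUL : Sb_MUL := tb_MUL
theorem e_UNR : Sb_UNR := tb_UNR
theorem e_PRO : Sb_PRO := tb_PRO e_ALG
theorem e_PUL : Sb_PUL := tb_PUL e_ALG e_PRO
theorem e_GRN : Sb_GRN := tb_GRN e_COE
theorem e_TNC : Sb_TNC := tb_TNC e_GRN
theorem e_GEN : Sb_GEN := tb_GEN e_GRN e_TNC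
theorem e_UNT : Sb_UNT := tb_UNT e_GEN e_TNC
theorem e_NE1 : Sb_NE1 := tb_NE1 e_TNC e_GRN
theorem e_RAT : Sb_RAT := tb_RAT e_COE e_GRN e_TNC e_UNT
theorem e_KIS : Sb_KIS := tb_KIS e_RAT e_UNT
theorem e_PVL : Sb_PVL := tb_PVL e_UNT e_KIS e_GRN
theorem e_PIS : Sb_PIS := tb_PIS e_GEN e_UNT e_PVL Pool.Agent.MUXU.u_BAC
theorem e_TPR : Sb_TPR := tb_TPR e_GRN e_TNC e_PIS Pool.Agent.MUXU.u_PFI
theorem e_PTS : Sb_PTS := tb_PTS e_COE e_GEN e_PVL e_TPR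
theorem e_ADD : Sb_ADD := tb_ADD e_ALG e_COE e_GRN e_PTS
theorem e_ISO : Sb_ISO := tb_ISO e_ALG e_PRO e_PTS e_UNT e_RAT
theorem e_THN : Sb_THN := tb_THN e_ALG e_PRO e_PUL e_GRN e_ISO e_ADD e_PTS
theorem e_UNI : Sb_UNI := tb_UNI e_GRN e_LEG e_PVL e_TPR e_UNR e_DEG
theorem e_SIG : Sb_SIG := tb_SIG e_ALG e_PRO e_PTS e_ADD e_UNI
theorem e_ONE : Sb_ONE :=
  tb_ONE e_ALG e_PRO e_LEG e_PTS e_THN e_IDL e_UNR e_SIG e_NE1 e_EXO e_MUL e_UNT
theorem e_MAIN : Sb_MAIN := tb_MAIN e_ONE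
theorem e_INN : Sb_INN := tb_INN e_THN e_NE1 e_EXO e_MUL e_UNT e_PIS e_DSM
theorem e_FN1 : Sb_FN1 := tb_FN1 e_MAIN e_INN
theorem e_IAF : Pool.Agent.MUXI.Si_IAF := Pool.Agent.MUXI.ti_IAF Pool.Agent.MUXU.u_DET
theorem e_HIT : Pool.Agent.MUXI.Si_HIT :=
  Pool.Agent.MUXI.ti_HIT e_IAF (Pool.Agent.MUXI.ti_IAG e_IAF)
    (Pool.Agent.MUXI.ti_RPR Pool.Agent.MUXF.xf_ALG Pool.Agent.MUXF.xf_IDL Pool.Agent.MUXF.xf_NIM)
    Pool.Agent.MUXY.z_MUI Pool.Agent.MUXY.z_UNJ Pool.Agent.MUXF.xf_ALG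
theorem e_STB : Sb_STB := tb_STB e_HIT e_IAF
theorem e_FN2 : Sb_FN2 := tb_FN2 e_MAIN e_INN e_STB e_EXO e_IDL
theorem e_CFA : Sb_CFA := tb_CFA
theorem e_CAL : Sb_CAL := tb_CAL e_CFA
theorem e_CTX : Sb_CTX := tb_CTX e_CFA e_CAL

/-- block E -/
theorem o_EFIN : O_RFIN → O_EFIN := tb_FIN e_CTX e_FN1 e_FN2

end Pool.Agent.OBE


end

section

/-!
# OB, block GR, the result `O_RFIN` without hypotheses, and the other theorems of the block (helper51)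

`r_X : So_X` for every statement of `OB/StR.lean`; `o_RFIN : O_RFIN`.
-/

set_option autoImplicit false

namespace Pool.Agent.OBR

open Pool.Agent.NSR Pool.Agent.OB

theorem r_TW3 : So_TW3 := o_TW3
theorem r_LGE : So_LGE := o_LGE r_TW3
theorem r_FRC : So_FRC := o_FRC r_TW3
theorem r_DIC : So_DIC := o_DIC r_TW3 r_LGE r_FRC
theorem r_FRU : So_FRU := o_FRU r_TW3 r_FRC
theorem r_FIX : So_FIX := o_FIX r_TW3 r_LGE
theorem r_ISV : So_ISV := o_ISV r_TW3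
theorem r_IS2 : So_IS2 := o_IS2 r_TW3 r_FRC r_FRU r_ISV
theorem r_QUO : So_QUO := o_QUO
theorem r_NFI : So_NFI := o_NFI r_FIX
theorem r_NFR : So_NFR := o_NFR r_FIX r_IS2 r_QUO r_TW3
theorem r_NFS : So_NFS := o_NFS r_FRU r_IS2 r_QUO r_TW3
/-- good reduction -/
theorem r_GRD : So_GRD := o_GRD r_DIC r_NFI r_NFR r_NFS
theorem r_GRL : So_GRL := o_GRL rxil
theorem r_SCL : So_SCL := o_SCL r_GRL
theorem r_ISO : So_ISO := o_ISO r_SCL rtor rlgf Pool.Agent.MUXV.x_MUN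
theorem r_MLT : So_MLT := o_MLT r_ISO
theorem r_INJ : So_INJ := o_INJ r_MLT rtor
theorem r_INX : So_INX := o_INX r_GRL r_INJ
theorem r_MUL : So_MUL := o_MUL Pool.Agent.OBT.o_BAS r_ISO
theorem r_LIF : So_LIF := o_LIF
theorem r_RF2 : So_RF2 := o_RF2
theorem r_FXX : So_FXX := o_FXX r_GRD r_TW3 r_RF2 r_INJ r_INX
theorem r_KUM : So_KUM := o_KUM
theorem r_KUA : So_KUA := o_KUA r_KUM
theorem r_KUB : So_KUB := o_KUB r_KUA
theorem r_KUC : So_KUC := o_KUC r_KUA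
theorem r_NSQ : So_NSQ := o_NSQ
theorem r_AFF : So_AFF := o_AFF r_GRD r_TW3
theorem r_PS2 : So_PS2 := o_PS2 r_AFF r_TW3 r_GRD r_INX
theorem r_PS3 : So_PS3 := o_PS3 r_AFF r_GRD r_INX
theorem r_PRN : So_PRN := o_PRN
theorem r_POW : So_POW := o_POW
theorem r_LFT : So_LFT := o_LFT r_LIF r_FXX r_POW
theorem r_ORD : So_ORD := o_ORD r_LFT r_POW r_KUC r_NSQ
theorem r_PSI : So_PSI := o_PSI r_LFT r_ORD r_PRN r_PS2 r_PS3 r_NSQ r_TW3
theorem r_IN2 : So_IN2 := o_IN2 r_PSI r_KUB r_NSQ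

/-- good models and trivial inertia groups -/
theorem o_RFIN : O_RFIN := o_FIN r_GRD r_TW3 r_RF2 r_LIF r_FXX r_IN2

end Pool.Agent.OBR


end

section

/-!
# OB, block I: all statements of `StI.lean` (helper79). The only input is `O_HFIN` (block H)
-/

set_option autoImplicit false

namespace Pool.Agent.OBI

open Pool.Agent.MUXF Pool.Agent.MUXU Pool.Agent.MUXY Pool.Agent.MUXK Pool.Agent.MUXI
  Pool.Agent.NSI Pool.Agent.OB Pool.Agent.OBT Pool.Agent.RI Pool.Agent.RID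

theorem o_PRF : Oi_PRF := oi_PRF Pool.Agent.OBT.o_BAS
theorem o_TEI : Oi_TEI := oi_TEI Pool.Agent.OBT.o_BAS o_PRF
theorem o_EPS : Oi_EPS := oi_EPS Pool.Agent.OBT.o_BAS o_PRF
theorem o_CHI : Oi_CHI := oi_CHI
theorem o_BRA : Oi_BRA := oi_BRA
theorem o_OME : Oi_OME := oi_OME
theorem o_SUB : Oi_SUB := oi_SUB i_IAF Pool.Agent.OBT.o_BAS
theorem o_GAM : Oi_GAM := oi_GAM k_GENX
theorem o_NCR : Oi_NCR := oi_NCR
theorem o_E0 : Oi_E0 := oi_E0 i_ARF xf_NIM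
theorem o_XMX : Oi_XMX := oi_XMX i_XXF i_ARF
theorem o_TSH : Oi_TSH := oi_TSH i_PTP xf_ALG
theorem o_TH : Oi_TH := oi_TH o_TSH
theorem o_I31 (hH : O_HFIN) : Oi_I31 :=
  oi_I31 Pool.Agent.MUXJ.j_RES o_CHI n_FOU Pool.Agent.MU3I.t_ITG o_EPS o_TEI o_E0 i_ARF i_XXF o_SUB
    o_GAM o_NCR o_XMX o_TH o_BRA i_GEN hH k_GALX k_RSX Pool.Agent.OBT.o_BAS

/-- the result of block I -/
theorem o_I3 (hH : O_HFIN) : O_I3 := oi_INP (o_I31 hH) n_LEM1 n_NRX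

/-- another form of the definition of the cyclotomic character -/
theorem isOm_of {F : Type} [Field F] {p : ℕ} (hp : p.Prime) {k K : IntermediateField ℚ ℂ}
    (h : k ≤ K) (om : (letI := algC h; (↥K ≃ₐ[k] ↥K) →* Fˣ))
    (H : letI := algC h
      ∀ (σ : ↥K ≃ₐ[k] ↥K) (c : ℕ), (∀ z : K, z ^ p = 1 → σ z = z ^ c) → ((om σ : Fˣ) : F) = c) :
    IsOm F p h om := by
  intro σ z c hz hz1 hσ
  have : Fact p.Prime := ⟨hp⟩
  have : NeZero p := ⟨hp.ne_zero⟩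
  refine H σ c fun z' hz' => ?_
  have h1 : IsPrimitiveRoot z p := (orderOf_eq_prime hz hz1) ▸ IsPrimitiveRoot.orderOf z
  obtain ⟨a, -, rfl⟩ := h1.eq_pow_of_pow_eq_one hz'
  rw [map_pow, hσ, ← pow_mul, ← pow_mul, mul_comm]

end Pool.Agent.OBI


end

section

/-!
# OB, block T put together (helper59): TYPE, every prime `p ≥ 5`
-/

set_option autoImplicit false

namespace Pool.Agent.OBT

open _root_.MU3 Pool.Agent.MU3A Pool.Agent.MU3B Pool.Agent.MUX Pool.Agent.MUXY Pool.Agent.NS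
open Pool.Agent.NST Pool.Agent.OB Pool.Agent.OBE

theorem x_SGM : So_SGM := o_SGM y_MUI y_MUC y_MUU
theorem x_SGU : So_SGU := o_SGU o_BAS
theorem x_VAL : So_VAL := o_VAL y_RA1
theorem x_VAK : So_VAK := o_VAK x_SGM x_VAL
theorem x_ALV : So_ALV := o_ALV y_ALP
theorem x_ACG : So_ACG := o_ACG y_MUU y_BRI
theorem x_UNF : So_UNF := o_UNF o_BAS

/-- the points of `L[P]`, given the good models -/
theorem x_TRC (hR : O_RFIN) : So_TRC := o_TRC hR e_CTX e_ALG e_PVL e_PIS e_PTS e_ISO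

/-- TYPE, given the good models -/
theorem x_TYF (hR : O_RFIN) : O_TYF :=
  o_TYF hR o_BAS x_UNF o_ALT x_ACG x_SGU (o_TAU o_BAS (x_TRC hR) o_ALT) o_RTU nt_GLC o_FGP
    nt_FGV x_ALV x_VAK

end Pool.Agent.OBT


end
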