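import Pool.Agent.MVF.C007
import Pool.Agent.MVF.C030
import Pool.Agent.MVF.C037
import Pool.Agent.MVF.C048
import Pool.Agent.MVF.C057
import Pool.Agent.MVF.C070
import Pool.Agent.MVF.C093
import Pool.Agent.MVF.C103
import Pool.Agent.MVF.C106
import Pool.Agent.MVF.C109
import Pool.Agent.MVF.C110
import Pool.Agent.OBM.C01
import Pool.Agent.OBM.C02
import Pool.Agent.OBM.C06

/-! Parts: OB.Q_BAX, OB.Q_BD, OB.Q_CHS, OB.Q_CY5, OB.Q_DSC, OB.Q_OCC, OB.Q_QFT, OB.Q_RAT, OB.Q_REG, OB.Q_SBF, OB.Q_QRT -/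

section

/-!
# OB, the corollary for `p = 5`, module BAX: `BasX` from coprime degrees (helper11)
-/

set_option autoImplicit false

namespace Pool.Agent.OB

open _root_.Pool.Agent.RI _root_.Pool.Agent.RID _root_.Pool.Agent.MU3 _root_.Pool.Agent.MUXK
  _root_.Pool.Agent.MUXZ _root_.Pool.Agent.NSI

/-- (BAX) `BasX` from coprime degrees -/
theorem tq_BAX : Sq_BAX := by
  intro p hp k K B _ hk hgal hab hdeg hlay hmono
  refine ⟨hk, hgal, hab, fun n => ?_, hlay, hmono⟩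
  have h1 := (hlay n).1
  have hpos : 0 < Module.finrank ℚ ↥(B n) := by
    rw [h1]
    exact pow_pos hp.out.pos n
  haveI : FiniteDimensional ℚ ↥(B n) := Module.finite_of_finrank_pos hpos
  have hcop : (Module.finrank ℚ ↥K).Coprime (Module.finrank ℚ ↥(B n)) := by
    rw [h1]
    exact ((Nat.Prime.coprime_iff_not_dvd hp.out).2 hdeg).symm.pow_right n
  have hld : K.LinearDisjoint (B n) := IntermediateField.LinearDisjoint.of_finrank_coprime hcop
  rw [hld.finrank_sup, h1]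

end Pool.Agent.OB


end

section

/-!
# OB, corollary for `p = 5`: the bound for `E₀` and for `E₀(μ_5)`, for all layers
-/

set_option autoImplicit false

open NumberField IsDedekindDomain Finset
open scoped nonZeroDivisors Pointwise

namespace Pool.Agent.OB

open _root_.Pool.Agent.RI _root_.Pool.Agent.RID _root_.Pool.Agent.MU3

/-- the bound, for `E₀` and for `E₀(μ_5)` -/
def Sq_BD : Prop := ∀ (E₀ : IntermediateField ℚ ℂ), Module.finrank ℚ E₀ = 4 →
    (∃ w ∈ E₀, w ^ 2 = 5) →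
    (∃ φ : E₀ →+* ℂ, ∀ x, (starRingEnd ℂ) (φ x) = φ x) →
    (∃ φ : E₀ →+* ℂ, ∃ x, (starRingEnd ℂ) (φ x) ≠ φ x) →
    ∀ E : IntermediateField ℚ ℂ,
      E = E₀ ∨ E = E₀ ⊔ IntermediateField.adjoin ℚ {z : ℂ | z ^ 5 = 1} →
    ∃ C : ℕ, ∀ (n : ℕ) (Q : IntermediateField ℚ ℂ), IsLayer 5 n Q →
      padicValNat 5 (classNo (E ⊔ Q)) ≤ C * (n + 1) ^ 2

theorem tq_BD (h1 : Sq_QRT) (h2 : Sq_QFT) (h3 : _root_.Pool.Agent.MUXJ.Sj_SUB) : Sq_BD := by
  have : Fact (Nat.Prime 5) := ⟨by norm_num⟩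
  rintro E₀ hd ⟨w, hw, hw5⟩ hr hc
  obtain ⟨E, k, K₀, ρ, σ, hE, hQ⟩ := h2 E₀ hd w hw hw5 hr hc
  obtain ⟨B, hlay, hmono, huniq⟩ := t_LAYO 5 (by norm_num)
  obtain ⟨C, hC⟩ := h1 E k K₀ w ρ σ hQ B hlay hmono
  have hC' : ∀ (n : ℕ) (Q : IntermediateField ℚ ℂ), IsLayer 5 n Q →
      padicValNat 5 (classNo (E ⊔ Q)) ≤ C * (n + 1) ^ 2 := by
    intro n Q hQ
    rw [huniq n Q hQ]
    exact hC n
  rintro E' (rfl | rfl)
  · have hfK : FiniteDimensional ℚ K₀ := hQ.fin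
    have hfE : FiniteDimensional ℚ E :=
      FiniteDimensional.of_injective (IntermediateField.inclusion hQ.EK).toLinearMap
        (IntermediateField.inclusion hQ.EK).injective
    obtain ⟨C', hC''⟩ := h3 5 E' E (by rw [hE]; exact le_sup_left)
    refine ⟨C + C', fun n Q hQ => ?_⟩
    have e1 := hC'' n Q hQ
    have e2 := hC' n Q hQ
    have e3 : 1 ≤ (n + 1) ^ 2 := Nat.one_le_pow _ _ (Nat.succ_pos n)
    calc padicValNat 5 (classNo (E' ⊔ Q)) ≤ C * (n + 1) ^ 2 + C' := by omega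
      _ ≤ C * (n + 1) ^ 2 + C' * (n + 1) ^ 2 := by
        have := Nat.le_mul_of_pos_right C' (Nat.lt_of_lt_of_le Nat.zero_lt_one e3)
        omega
      _ = (C + C') * (n + 1) ^ 2 := by ring
  · exact ⟨C, by rw [← hE]; exact hC'⟩

end Pool.Agent.OB


end

section

/-!
# OB, corollary for `p = 5`: CHS, Chevalley's inequality in the sharp form
-/

set_option autoImplicit false

open NumberField IsDedekindDomain Finset
open scoped nonZeroDivisors Pointwise

namespace Pool.Agent.OB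

open _root_.Pool.Agent.RI _root_.Pool.Agent.RID

open _root_.MU3 _root_.MU3.Chev in
theorem tq_CHS (h1 : N_AMBA) (h2 : N_AMBI) (h3 : P_HQE) (h4 : P_H1P) : Sq_CHS := by
  intro p a hp K L _ _ _ _ _ g hg hinf S hS
  obtain ⟨-, -, -, hH90, -, -, -, -, hgext, -, -⟩ := t_CYC K K L g (p ^ a) hg
  have hgq : g ^ (p ^ a) = 1 := by
    rw [← hg.ord]
    exact pow_orderOf_eq_one g
  set P : Subgroup (J L) := PI L with hP
  set U : Subgroup (J L) := P.comap (dg g) with hU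
  set V : Subgroup (J L) := (dg g : J L →* J L).ker with hV
  set X : Subgroup (J L) := (ext K L).range with hX
  set W : Subgroup (J L) := (PI K).map (ext K L) with hW
  have hdv : ∀ x : Lˣ, (prin : Lˣ →* J L) (g • x) = g • (prin x : J L) := fun x =>
    (smul_prin g x).symm
  have hfin : Finite (J L ⧸ P) := CL.finite_quot L
  have hPfin : P.FiniteIndex := Subgroup.finiteIndex_of_finite_quotient
  -- containments
  have hPU : P ≤ U := by
    rintro _ ⟨x, rfl⟩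
    rw [hU, Subgroup.mem_comap]
    refine ⟨x / g • x, ?_⟩
    rw [map_div, hdv]
    rfl
  have hVU : V ≤ U := by
    intro b hb
    rw [hU, Subgroup.mem_comap]
    rw [hV, MonoidHom.mem_ker] at hb
    rw [hb]
    exact one_mem _
  have hXV : X ≤ V := by
    rintro _ ⟨c, rfl⟩
    rw [hV, mem_dg_ker]
    exact hgext c
  have hWX : W ≤ X := by
    rintro _ ⟨c, -, rfl⟩
    exact ⟨c, rfl⟩
  have hWP : W ≤ P := by
    rintro _ ⟨_, ⟨x, rfl⟩, rfl⟩
    exact ⟨_, (ext_prin (K := K) (L := L) x).symm⟩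
  have hWPV : W ≤ P ⊓ V := le_inf hWP (hWX.trans hXV)
  -- multiplicativity
  have m2 : P.relIndex (P ⊔ V) * (P ⊔ V).relIndex U = P.relIndex U :=
    Subgroup.relIndex_mul_relIndex P (P ⊔ V) U le_sup_left (sup_le hPU hVU)
  have e1 : P.relIndex (P ⊔ V) = P.relIndex V := by
    rw [sup_comm]
    exact Subgroup.relIndex_sup_right V P
  have e2 : (P ⊓ V).relIndex V = P.relIndex V := Subgroup.inf_relIndex_right P V
  have m3 : W.relIndex (P ⊓ V) * (P ⊓ V).relIndex V = W.relIndex V :=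
    Subgroup.relIndex_mul_relIndex W (P ⊓ V) V hWPV inf_le_right
  have m4 : W.relIndex X * X.relIndex V = W.relIndex V :=
    Subgroup.relIndex_mul_relIndex W X V hWX hXV
  have e3 : W.relIndex X = NumberField.classNumber K := by
    rw [CL.classNumber_eq K]
    have e4 : X = (⊤ : Subgroup (J K)).map (ext K L) := by
      rw [hX, MonoidHom.range_eq_map]
    rw [e4, hW, Subgroup.relIndex_map_map_of_injective _ _ (ext_injective K L),
      Subgroup.relIndex_top_right]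
    rfl
  -- units
  have d4 : (P ⊔ V).relIndex U ∣ ((UE L).map (ng g (p ^ a))).relIndex (UE L ⊓ (dg g).ker) :=
    h1 (p ^ a) Lˣ (J L) (L ≃ₐ[K] L) (prin : Lˣ →* J L) g hgq hdv hH90
  obtain ⟨k1, k2⟩ := h3 p a K L g hg hinf
  have k3 := h4 (p ^ a) K L g hg
  -- ideals
  obtain ⟨k4, k5⟩ := h2 K K L g (p ^ a) hg S hS
  have b3 : padicValNat p (X.relIndex V) ≤ a * S.card := by
    apply padic_le p k4
    rw [pow_mul]
    exact k5
  have hcn : NumberField.classNumber K ≠ 0 := by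
    rw [NumberField.classNumber]
    exact Fintype.card_ne_zero
  -- the valuations
  generalize hh0 : ((UE L).map (ng g (p ^ a))).relIndex (UE L ⊓ (dg g).ker) = h₀ at d4 k2
  have hh1 : W.relIndex (P ⊓ V) = h₀ * p ^ a := k3.trans k2.symm
  rw [← k2] at k1
  have hp0 : p ^ a ≠ 0 := pow_ne_zero _ hp.out.ne_zero
  have hh00 : h₀ ≠ 0 := fun h => k1 (by rw [h, zero_mul])
  have n0 : P.relIndex U ≠ 0 := Subgroup.FiniteIndex.index_ne_zero
  have n1 : P.relIndex V ≠ 0 := by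
    rw [← e1]
    exact Subgroup.FiniteIndex.index_ne_zero
  have n4 : (P ⊔ V).relIndex U ≠ 0 := by
    intro h
    rw [h, mul_zero] at m2
    exact n0 m2.symm
  have v1 : padicValNat p (P.relIndex U) ≤ padicValNat p (P.relIndex V) + padicValNat p h₀ := by
    rw [← m2, e1, padicValNat.mul n1 n4]
    have := padic_mono p hh00 d4
    omega
  have v2 : padicValNat p h₀ + a + padicValNat p (P.relIndex V) =
      padicValNat p (NumberField.classNumber K) + padicValNat p (X.relIndex V) := by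
    have h5 : h₀ * p ^ a * P.relIndex V = NumberField.classNumber K * X.relIndex V := by
      rw [← hh1, ← e2, m3, ← m4, e3]
    have h6 := congrArg (padicValNat p) h5
    rw [padicValNat.mul (mul_ne_zero hh00 hp0) n1, padicValNat.mul hh00 hp0,
      padicValNat.prime_pow, padicValNat.mul hcn k4] at h6
    exact h6
  omega

open _root_.MU3 in
theorem o_CHS : Sq_CHS := tq_CHS n_AMBA n_AMBI u_HQE u_H1P

end Pool.Agent.OB


end

section

/-!
# OB, the corollary for `p = 5`: `ℚ(μ_5)` has class number one (helper2)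
-/

set_option autoImplicit false

open NumberField

namespace Pool.Agent.OB

open _root_.Pool.Agent.RI _root_.Pool.Agent.RID _root_.Pool.Agent.MU3 _root_.Pool.Agent.MUXK
  _root_.Pool.Agent.MUXZ _root_.Pool.Agent.NSI

theorem tq_CY5 : Sq_CY5 := by
  set C : IntermediateField ℚ ℂ := IntermediateField.adjoin ℚ {z : ℂ | z ^ 5 = 1} with hC
  have hcy : IsCyclotomicExtension {5} ℚ C := by
    have h := IntermediateField.isCyclotomicExtension_adjoin_of_exists_isPrimitiveRoot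
      {5} ℚ ℂ (fun n hn _ => by
        rw [Set.mem_singleton_iff] at hn
        subst hn
        exact ⟨_, Complex.isPrimitiveRoot_exp 5 (by norm_num)⟩)
    have e : {x : ℂ | ∃ n ∈ ({5} : Set ℕ), n ≠ 0 ∧ x ^ n = 1} = {z : ℂ | z ^ 5 = 1} := by
      ext x
      simp
    rw [e] at h
    exact h
  have hnf : NumberField C := IsCyclotomicExtension.numberField {5} ℚ C
  have hfd : FiniteDimensional ℚ C := hnf.to_finiteDimensional
  refine ⟨hfd, ?_⟩
  have hpid : IsPrincipalIdealRing (𝓞 C) := IsCyclotomicExtension.Rat.five_pid C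
  have h1 : NumberField.classNumber C = 1 := NumberField.classNumber_eq_one_iff.2 hpid
  rw [← h1]
  unfold classNo NumberField.classNumber
  exact Nat.card_eq_fintype_card

end Pool.Agent.OB


end

section

/-!
# OB, corollary for `p = 5`: DSC, descent
-/

set_option autoImplicit false

open NumberField IsDedekindDomain Finset
open scoped nonZeroDivisors Pointwise

namespace Pool.Agent.OB

open _root_.Pool.Agent.RI _root_.Pool.Agent.RID _root_.Pool.Agent.MU3 _root_.Pool.Agent.MUXK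
  _root_.Pool.Agent.MUXZ _root_.Pool.Agent.NSI

namespace DSC

/-- `p`-th powers times principal ideals. -/
noncomputable def PP (p : ℕ) (L : Type) [Field L] [NumberField L] : Subgroup (J L) :=
  (prin : Lˣ →* J L).range ⊔ (powMonoidHom p : J L →* J L).range

lemma mem_PP {p : ℕ} {L : Type} [Field L] [NumberField L] (x : J L) :
    x ∈ PP p L ↔ ∃ (a : Lˣ) (y : J L), prin a * y ^ p = x := by
  rw [PP, Subgroup.mem_sup]
  constructor
  · rintro ⟨_, ⟨a, rfl⟩, _, ⟨y, rfl⟩, rfl⟩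
    exact ⟨a, y, rfl⟩
  · rintro ⟨a, y, rfl⟩
    exact ⟨_, ⟨a, rfl⟩, _, ⟨y, rfl⟩, rfl⟩

lemma pow_PP (p : ℕ) {L : Type} [Field L] [NumberField L] (x : J L) : x ^ p ∈ PP p L :=
  (mem_PP _).2 ⟨1, x, by rw [map_one, one_mul]⟩

lemma prin_PP (p : ℕ) {L : Type} [Field L] [NumberField L] (a : Lˣ) : prin a ∈ PP p L :=
  (mem_PP _).2 ⟨a, 1, by rw [one_pow, mul_one]⟩

lemma smul_PP (p : ℕ) {k L : Type} [Field k] [Field L] [NumberField L] [Algebra k L]
    (σ : L ≃ₐ[k] L) (x : J L) (hx : x ∈ PP p L) : σ • x ∈ PP p L := by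
  obtain ⟨a, y, rfl⟩ := (mem_PP x).1 hx
  refine (mem_PP _).2 ⟨σ • a, σ • y, ?_⟩
  rw [smul_mul', smul_prin, smul_pow']

/-- Descent of `PP` in an extension of degree prime to `p`. -/
lemma PP_of_ext {p : ℕ} (hp : p.Prime) {L M : Type} [Field L] [NumberField L] [Field M]
    [NumberField M] [Algebra L M] [IsGalois L M] (hd : ¬ p ∣ Module.finrank L M) (v : J L)
    (hv : ext L M v ∈ PP p M) : v ∈ PP p L := by
  obtain ⟨a, y, hay⟩ := (mem_PP _).1 hv
  obtain ⟨y', hy'⟩ := CL.nm_mem (F := L) y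
  have h1 : v ^ Module.finrank L M ∈ PP p L := by
    refine (mem_PP _).2 ⟨Units.map (Algebra.norm L : M →* L) a, y', ?_⟩
    apply ext_injective L M
    rw [map_mul, ← CL.nm_prin, map_pow, hy', map_pow, ← CL.nm_ext, ← hay, map_mul, map_pow]
  have h2 : IsCoprime ((Module.finrank L M : ℕ) : ℤ) (p : ℤ) := by
    rw [Nat.isCoprime_iff_coprime]
    refine (Nat.Coprime.symm ?_)
    rwa [hp.coprime_iff_not_dvd]
  obtain ⟨u, w, huw⟩ := h2
  have h3 : v = (v ^ Module.finrank L M) ^ u * (v ^ w) ^ p := by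
    rw [← zpow_natCast v, ← zpow_natCast (v ^ w), ← zpow_mul, ← zpow_mul, ← zpow_add]
    have : ((Module.finrank L M : ℕ) : ℤ) * u + w * (p : ℤ) = 1 := by linarith
    rw [this, zpow_one]
  rw [h3]
  exact mul_mem (zpow_mem h1 u) (pow_PP p _)

/-- `dg` and extension of ideals. -/
lemma dg_ext {k k' L M : Type} [Field k] [Field k'] [Field L] [NumberField L] [Field M]
    [NumberField M] [Algebra L M] [Algebra k M] [Algebra k' L] (g' : M ≃ₐ[k] M)
    (g : L ≃ₐ[k'] L) (h : ∀ x : L, algebraMap L M (g x) = g' (algebraMap L M x)) (b : J L)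
    (l : ℕ) : ext L M ((dg g)^[l] b) = (dg g')^[l] (ext L M b) := by
  induction l generalizing b with
  | zero => rfl
  | succ l ih =>
    rw [Function.iterate_succ_apply, ih, Function.iterate_succ_apply]
    congr 1
    rw [dg_apply, dg_apply, map_div]
    congr 1
    exact EXTACT_thm k' L k M g' g h b

/-- An automorphism of order at least `p ^ n` which is trivial on `K` fixes exactly `K`. -/
lemma exact_fix (hGEN : S_GENX) (p : ℕ) [Fact p.Prime] (k K : IntermediateField ℚ ℂ)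
    [FiniteDimensional ℚ K] (B : ℕ → IntermediateField ℚ ℂ)
    [∀ n, FiniteDimensional ℚ ↥(K ⊔ B n)] (hB : BasX p k K B) (n : ℕ) (h : k ≤ K ⊔ B n) :
    letI := algC h
    ∀ g : ↥(K ⊔ B n) ≃ₐ[k] ↥(K ⊔ B n), (∀ x : ↥(K ⊔ B n), (x : ℂ) ∈ K → g x = x) →
    p ^ n ≤ orderOf g → ∀ x : ↥(K ⊔ B n), g x = x ↔ (x : ℂ) ∈ K := by
  let akL : Algebra k ↥(K ⊔ B n) := algC h
  intro g hg hord
  obtain ⟨G, hG1, hG2, -⟩ := hGEN p k K B hB.hk hB.deg hB.lay hB.mono n h
  have hkfd : FiniteDimensional k ↥(K ⊔ B n) := Module.Finite.of_restrictScalars_finite ℚ k _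
  have hmem : g ∈ Subgroup.zpowers G := by
    have hkK : k ≤ K := hB.hk
    have ez := P_TWK.zp G (GCC.sub h K hkK)
      (fun x => (hG2 x).trans (GCC.mem_sub h K hkK x).symm)
    rw [← ez]
    intro x
    obtain ⟨x, hx⟩ := x
    exact hg x hx
  have hle : Subgroup.zpowers g ≤ Subgroup.zpowers G := by
    rwa [Subgroup.zpowers_le]
  have hfin : Finite (↥(K ⊔ B n) ≃ₐ[k] ↥(K ⊔ B n)) := inferInstance
  have heq : Subgroup.zpowers g = Subgroup.zpowers G := by
    apply Subgroup.eq_of_le_of_card_ge hle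
    rw [Nat.card_zpowers, Nat.card_zpowers, hG1]
    exact hord
  intro x
  constructor
  · intro h1
    rw [← hG2]
    have h2 : g ∈ MulAction.stabilizer (↥(K ⊔ B n) ≃ₐ[k] ↥(K ⊔ B n)) x := h1
    have h3 : G ∈ Subgroup.zpowers g := heq ▸ Subgroup.mem_zpowers G
    obtain ⟨j, hj⟩ := h3
    have h4 := zpow_mem h2 j
    have hj' : g ^ j = G := hj
    rw [hj'] at h4
    exact h4
  · exact hg x

end DSC

open _root_.Pool.Agent.OB.DSC in
theorem tq_DSC (h1 : S_GALX) (h2 : S_GENX) (h3 : S_TWX) (h4 : S_LFX) (h5 : S_RSX)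
    (h6 : S_EIGX) (h7 : S_FINX) : Sq_DSC := by
  intro F _ _ p hp _ k K₀ E B _ _ _ _ hB hE hEE hcop hcopE hk₀ hkK hEB l X hX hX'
  have hEK : E ≤ K₀ := hE.hk
  have hfdE : FiniteDimensional ℚ E :=
    FiniteDimensional.of_injective (IntermediateField.inclusion hEK).toLinearMap
      (IntermediateField.inclusion hEK).injective
  refine h7 p l E E B le_rfl hEE.deg hEE.lay hEE.mono ?_
  intro n hEn
  let aEn : Algebra E ↥(E ⊔ B n) := algC hEn
  intro g hg b
  have hEL : E ≤ K₀ ⊔ B n := hEK.trans le_sup_left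
  let akK : Algebra k ↥K₀ := algC hkK
  let akL : Algebra k ↥(K₀ ⊔ B n) := algC (hk₀ n)
  let aEL : Algebra E ↥(K₀ ⊔ B n) := algC hEL
  let aLL : Algebra ↥(E ⊔ B n) ↥(K₀ ⊔ B n) := algC (hEB n)
  have tow : IsScalarTower E ↥(E ⊔ B n) ↥(K₀ ⊔ B n) := IsScalarTower.of_algebraMap_eq (fun _ => rfl)
  -- the lift of `g`
  obtain ⟨γ, hγ1, hγ2⟩ := h4 p E E K₀ B hEE hE hEK n hEL hEn (hEB n) g
    (fun x hx => (hg x).2 hx)
  have hcop1 : ¬ p ∣ Module.finrank E (IntermediateField.extendScalars hEE.hk) := by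
    have h8 : Module.finrank ℚ E * Module.finrank E (IntermediateField.extendScalars hEE.hk) =
        Module.finrank ℚ E := Module.finrank_mul_finrank ℚ E (IntermediateField.extendScalars hEE.hk)
    have h9 : 0 < Module.finrank ℚ E := Module.finrank_pos
    have h10 : Module.finrank E (IntermediateField.extendScalars hEE.hk) = 1 :=
      Nat.eq_of_mul_eq_mul_left h9 (by rw [h8, mul_one])
    rw [h10]
    exact hp.out.one_lt.ne' ∘ Nat.dvd_one.1
  have hordg : orderOf g = p ^ n := (h3 p E E B hEE hcop1 n hEn g hg).ord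
  have hpow := K_MAINKX.lift_pow hEn hEL (hEB n) g γ hγ2
  have hordγ : p ^ n ≤ orderOf γ := by
    have hfd' : FiniteDimensional E ↥(K₀ ⊔ B n) := Module.Finite.of_restrictScalars_finite ℚ E _
    have hfin : Finite (↥(K₀ ⊔ B n) ≃ₐ[E] ↥(K₀ ⊔ B n)) := inferInstance
    have hpos : 0 < orderOf γ := orderOf_pos γ
    apply Nat.le_of_dvd hpos
    rw [← hordg]
    apply orderOf_dvd_of_pow_eq_one
    apply AlgEquiv.ext
    intro x
    apply Subtype.ext
    rw [← hpow, pow_orderOf_eq_one]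
    rfl
  -- `γ` as an automorphism over `k`
  let γ' : ↥(K₀ ⊔ B n) ≃ₐ[k] ↥(K₀ ⊔ B n) :=
    AlgEquiv.ofRingEquiv (f := (γ : ↥(K₀ ⊔ B n) ≃+* ↥(K₀ ⊔ B n)))
      (fun a => hγ1 _ (hkK a.2))
  have hγ'1 : ∀ x, γ' x = γ x := fun _ => rfl
  have hγ'pow : ∀ (j : ℕ) (x : ↥(K₀ ⊔ B n)), (γ' ^ j) x = (γ ^ j) x := by
    intro j
    induction j with
    | zero => intro x; rfl
    | succ j ih => intro x; rw [pow_succ, AlgEquiv.mul_apply, ih, pow_succ, AlgEquiv.mul_apply, hγ'1]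
  have hordγ' : p ^ n ≤ orderOf γ' := by
    have hfd' : FiniteDimensional k ↥(K₀ ⊔ B n) := Module.Finite.of_restrictScalars_finite ℚ k _
    have hfin : Finite (↥(K₀ ⊔ B n) ≃ₐ[k] ↥(K₀ ⊔ B n)) := inferInstance
    have hpos : 0 < orderOf γ' := orderOf_pos γ'
    refine hordγ.trans (Nat.le_of_dvd hpos ?_)
    apply orderOf_dvd_of_pow_eq_one
    apply AlgEquiv.ext
    intro x
    rw [← hγ'pow, pow_orderOf_eq_one]
    rfl
  have hfix := exact_fix h2 p k K₀ B hB n (hk₀ n) γ' (fun x hx => hγ1 x hx) hordγ'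
  -- the ideal
  by_contra hcon
  push Not at hcon
  set v : J ↥(E ⊔ B n) := (dg g)^[l] b with hv
  have hvP : v ∉ PP p ↥(E ⊔ B n) := by
    intro h8
    obtain ⟨a, y, hay⟩ := (mem_PP _).1 h8
    exact hcon y a (by rw [← hay, mul_comm])
  have hgalL : IsGalois ↥(E ⊔ B n) ↥(K₀ ⊔ B n) := by
    have h8 := (h1 p E K₀ B hE n hEL).1
    exact IsGalois.tower_top_of_isGalois E ↥(E ⊔ B n) ↥(K₀ ⊔ B n)
  have hdL : ¬ p ∣ Module.finrank ↥(E ⊔ B n) ↥(K₀ ⊔ B n) := by
    have h8 : Module.finrank ↥(E ⊔ B n) ↥(K₀ ⊔ B n) = Module.finrank ℚ K₀ / Module.finrank ℚ E :=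
      K_MAINKX.finrank_quot (hEB n) _ _ (p ^ n) Module.finrank_pos (pow_pos hp.out.pos n)
        (hEE.deg n) (hE.deg n)
    have h9 : Module.finrank ℚ E * Module.finrank E (IntermediateField.extendScalars hE.hk) =
        Module.finrank ℚ K₀ := Module.finrank_mul_finrank ℚ E (IntermediateField.extendScalars hE.hk)
    rw [h8, ← h9, Nat.mul_div_cancel_left _ Module.finrank_pos]
    exact hcopE
  have hvL : ext ↥(E ⊔ B n) ↥(K₀ ⊔ B n) v ∉ PP p ↥(K₀ ⊔ B n) := fun h8 =>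
    hvP (PP_of_ext hp.out hdL v h8)
  have tw := h3 p k K₀ B hB hcop n (hk₀ n) γ' hfix
  have hfinD : Finite (NC (hk₀ n) (B n)) := by
    have hfd' : FiniteDimensional k ↥(K₀ ⊔ B n) := Module.Finite.of_restrictScalars_finite ℚ k _
    have hfin : Finite (↥(K₀ ⊔ B n) ≃ₐ[k] ↥(K₀ ⊔ B n)) := inferInstance
    infer_instance
  obtain ⟨χ', f, hf1, hf2, hf3, hf4⟩ := h6 p F (↥(K₀ ⊔ B n) ≃ₐ[k] ↥(K₀ ⊔ B n)) (J ↥(K₀ ⊔ B n))
    (NC (hk₀ n) (B n)) (fun a _ b _ => tw.comm a b) tw.cop (PP p ↥(K₀ ⊔ B n))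
    (fun σ x hx => smul_PP p σ x hx) (fun x => pow_PP p x) _ hvL
  obtain ⟨τ, hτ⟩ := I3X19.restr h5 p k K₀ B hB hcop hkK n (hk₀ n)
  let χ : (↥K₀ ≃ₐ[k] ↥K₀) →* Fˣ := χ'.comp τ.symm.toMonoidHom
  have hχ : ∀ δ, χ (τ δ) = χ' δ := fun δ => by
    show χ' (τ.symm (τ δ)) = χ' δ
    rw [τ.symm_apply_apply]
  have hEig : EigF F k K₀ B n (hk₀ n) hkK χ f := by
    refine ⟨hf1, fun x hx => ?_, fun δ s hs x => ?_⟩
    · obtain ⟨a, rfl⟩ := hx
      exact hf2 _ (prin_PP p a)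
    · have hs' : s = τ δ := by
        refine AlgEquiv.ext fun x => Subtype.ext ?_
        have hx1 : (x : ℂ) ∈ K₀ ⊔ B n := le_sup_left (a := K₀) x.2
        rw [← hτ δ x ⟨x, hx1⟩ rfl, ← hs x ⟨x, hx1⟩ rfl]
      rw [hs', hχ]
      exact hf3 δ x
  apply hf4
  by_cases hχX : χ ∈ X
  · have h8 := hX χ hχX n γ' hfix f hEig (ext ↥(E ⊔ B n) ↥(K₀ ⊔ B n) b)
    rw [← dg_ext γ' g (fun x => Subtype.ext (hγ2 x).symm)] at h8
    exact h8
  · exact hX' n χ hχX f hEig v

end Pool.Agent.OB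


end

section

/-!
# OB, corollary for `p = 5`: OCC, the characters which occur
-/

set_option autoImplicit false

open NumberField IsDedekindDomain Finset
open scoped nonZeroDivisors Pointwise

namespace Pool.Agent.OB

open _root_.Pool.Agent.RI _root_.Pool.Agent.RID _root_.Pool.Agent.MU3 _root_.Pool.Agent.MUXK
  _root_.Pool.Agent.MUXZ _root_.Pool.Agent.NSI

namespace OCC

/-- `BasX` for `K = k`. -/
lemma basSelf (h : Sq_BAX) (p : ℕ) [Fact p.Prime] (E : IntermediateField ℚ ℂ)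
    [FiniteDimensional ℚ E] (B : ℕ → IntermediateField ℚ ℂ) (hp : ¬ p ∣ Module.finrank ℚ E)
    (hB : ∀ n, IsLayer p n (B n)) (hm : Monotone B) : BasX p E E B := by
  refine h p E E B le_rfl ?_ ?_ hp hB hm
  · rw [← isGalois_algC le_rfl]
    exact IsGalois.self E
  · intro s t
    have key : ∀ s : (IntermediateField.extendScalars (le_refl E)) ≃ₐ[E]
        (IntermediateField.extendScalars (le_refl E)), s = 1 := by
      intro s
      apply AlgEquiv.ext
      intro x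
      have h1 : x = algebraMap E (IntermediateField.extendScalars (le_refl E)) ⟨x.1, x.2⟩ := rfl
      rw [h1, s.commutes]
      rfl
    rw [key s, key t]

/-- A quadratic extension given by an automorphism of order two with fixed field `C`. -/
lemma quad (C E : IntermediateField ℚ ℂ) [FiniteDimensional ℚ E] (hCE : C ≤ E) (ρ : E ≃ₐ[ℚ] E)
    (hr : ∀ x : E, ρ (ρ x) = x) (hn : ∃ x : E, ρ x ≠ x) (hf : ∀ x : E, ρ x = x ↔ (x : ℂ) ∈ C) :
    letI := algC hCE
    IsGalois C E ∧ (∀ s t : E ≃ₐ[C] E, s * t = t * s) ∧ Module.finrank C E = 2 := by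
  let aCE : Algebra C E := algC hCE
  have tow : IsScalarTower ℚ C E := IsScalarTower.of_algebraMap_eq (fun _ => rfl)
  have hfd : FiniteDimensional C E := Module.Finite.of_restrictScalars_finite ℚ C E
  let τ : E ≃ₐ[C] E := AlgEquiv.ofRingEquiv (f := (ρ : E ≃+* E)) (fun a => (hf _).2 a.2)
  have hτ : ∀ x, τ x = ρ x := fun _ => rfl
  have hbot : ∀ x : E, x ∈ (⊥ : IntermediateField C E) ↔ (x : ℂ) ∈ C := by
    intro x
    rw [IntermediateField.mem_bot]
    constructor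
    · rintro ⟨y, rfl⟩
      exact y.2
    · intro hx
      exact ⟨⟨x, hx⟩, rfl⟩
  have hzp := P_TWK.zp τ (⊥ : IntermediateField C E) (fun x => by
    rw [hτ, hf, hbot])
  rw [IntermediateField.fixingSubgroup_bot] at hzp
  have hord : orderOf τ = 2 := by
    apply orderOf_eq_prime
    · apply AlgEquiv.ext
      intro x
      show τ (τ x) = x
      rw [hτ, hτ, hr]
    · intro h1
      obtain ⟨x, hx⟩ := hn
      apply hx
      rw [← hτ, h1]
      rfl
  have hgal : IsGalois C E := by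
    apply IsGalois.of_fixedField_eq_bot
    rw [eq_bot_iff]
    intro x hx
    rw [hbot, ← hf, ← hτ]
    exact hx ⟨τ, trivial⟩
  refine ⟨hgal, ?_, ?_⟩
  · intro s t
    have hs : s ∈ Subgroup.zpowers τ := hzp ▸ Subgroup.mem_top s
    have ht : t ∈ Subgroup.zpowers τ := hzp ▸ Subgroup.mem_top t
    obtain ⟨i, rfl⟩ := hs
    obtain ⟨j, rfl⟩ := ht
    show τ ^ i * τ ^ j = τ ^ j * τ ^ i
    rw [← zpow_add, ← zpow_add, add_comm]
  · rw [← IsGalois.card_aut_eq_finrank, ← Subgroup.card_top, hzp, Nat.card_zpowers, hord]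

/-- Two homomorphisms which agree on `A` and on `B` agree on `A ⊔ B`. -/
lemma agree {L A B : IntermediateField ℚ ℂ} (f g : L →+* ℂ) (hAL : A ≤ L) (hBL : B ≤ L)
    (hA : ∀ x : L, (x : ℂ) ∈ A → f x = g x) (hB : ∀ x : L, (x : ℂ) ∈ B → f x = g x) :
    ∀ x : L, (x : ℂ) ∈ A ⊔ B → f x = g x := by
  let S : IntermediateField ℚ ℂ :=
    { carrier := {x | ∃ h : x ∈ L, f ⟨x, h⟩ = g ⟨x, h⟩}
      mul_mem' := by
        rintro a b ⟨ha, ha'⟩ ⟨hb, hb'⟩
        refine ⟨mul_mem ha hb, ?_⟩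
        have e : (⟨a * b, mul_mem ha hb⟩ : L) = ⟨a, ha⟩ * ⟨b, hb⟩ := rfl
        rw [e, map_mul, map_mul, ha', hb']
      one_mem' := ⟨one_mem L, by
        have e : (⟨1, one_mem L⟩ : L) = 1 := rfl
        rw [e, map_one, map_one]⟩
      add_mem' := by
        rintro a b ⟨ha, ha'⟩ ⟨hb, hb'⟩
        refine ⟨add_mem ha hb, ?_⟩
        have e : (⟨a + b, add_mem ha hb⟩ : L) = ⟨a, ha⟩ + ⟨b, hb⟩ := rfl
        rw [e, map_add, map_add, ha', hb']
      zero_mem' := ⟨zero_mem L, by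
        have e : (⟨0, zero_mem L⟩ : L) = 0 := rfl
        rw [e, map_zero, map_zero]⟩
      algebraMap_mem' := fun r => ⟨L.algebraMap_mem r, by
        have e : (⟨algebraMap ℚ ℂ r, L.algebraMap_mem r⟩ : L) = algebraMap ℚ L r := rfl
        rw [e, eq_ratCast, map_ratCast, map_ratCast]⟩
      inv_mem' := by
        rintro a ⟨ha, ha'⟩
        refine ⟨inv_mem ha, ?_⟩
        have e : (⟨a⁻¹, inv_mem ha⟩ : L) = (⟨a, ha⟩)⁻¹ := rfl
        rw [e, map_inv₀, map_inv₀, ha'] }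
  have h1 : A ≤ S := fun x hx => ⟨hAL hx, hA ⟨x, hAL hx⟩ hx⟩
  have h2 : B ≤ S := fun x hx => ⟨hBL hx, hB ⟨x, hBL hx⟩ hx⟩
  intro x hx
  obtain ⟨h3, h4⟩ := (sup_le h1 h2) hx
  exact h4

/-- The image of `A ⊔ B` under a homomorphism. -/
lemma stable {L A B M : IntermediateField ℚ ℂ} (f : L →+* ℂ) (hAL : A ≤ L) (hBL : B ≤ L)
    (hA : ∀ x : L, (x : ℂ) ∈ A → f x ∈ M) (hB : ∀ x : L, (x : ℂ) ∈ B → f x ∈ M) :
    ∀ x : L, (x : ℂ) ∈ A ⊔ B → f x ∈ M := by
  let S : IntermediateField ℚ ℂ :=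
    { carrier := {x | ∃ h : x ∈ L, f ⟨x, h⟩ ∈ M}
      mul_mem' := by
        rintro a b ⟨ha, ha'⟩ ⟨hb, hb'⟩
        refine ⟨mul_mem ha hb, ?_⟩
        have e : (⟨a * b, mul_mem ha hb⟩ : L) = ⟨a, ha⟩ * ⟨b, hb⟩ := rfl
        rw [e, map_mul]
        exact mul_mem ha' hb'
      one_mem' := ⟨one_mem L, by
        have e : (⟨1, one_mem L⟩ : L) = 1 := rfl
        rw [e, map_one]
        exact one_mem M⟩
      add_mem' := by
        rintro a b ⟨ha, ha'⟩ ⟨hb, hb'⟩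
        refine ⟨add_mem ha hb, ?_⟩
        have e : (⟨a + b, add_mem ha hb⟩ : L) = ⟨a, ha⟩ + ⟨b, hb⟩ := rfl
        rw [e, map_add]
        exact add_mem ha' hb'
      zero_mem' := ⟨zero_mem L, by
        have e : (⟨0, zero_mem L⟩ : L) = 0 := rfl
        rw [e, map_zero]
        exact zero_mem M⟩
      algebraMap_mem' := fun r => ⟨L.algebraMap_mem r, by
        have e : (⟨algebraMap ℚ ℂ r, L.algebraMap_mem r⟩ : L) = algebraMap ℚ L r := rfl
        rw [e, eq_ratCast, map_ratCast, ← eq_ratCast (algebraMap ℚ ℂ)]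
        exact M.algebraMap_mem r⟩
      inv_mem' := by
        rintro a ⟨ha, ha'⟩
        refine ⟨inv_mem ha, ?_⟩
        have e : (⟨a⁻¹, inv_mem ha⟩ : L) = (⟨a, ha⟩)⁻¹ := rfl
        rw [e, map_inv₀]
        exact inv_mem ha' }
  have h1 : A ≤ S := fun x hx => ⟨hAL hx, hA ⟨x, hAL hx⟩ hx⟩
  have h2 : B ≤ S := fun x hx => ⟨hBL hx, hB ⟨x, hBL hx⟩ hx⟩
  intro x hx
  obtain ⟨h3, h4⟩ := (sup_le h1 h2) hx
  exact h4

end OCC

open _root_.Pool.Agent.OB.OCC in
theorem tq_OCC (h1 : Sq_RAT) (h2 : Sq_BAX) (h3 : S_RSX) (h4 : S_GALX) : Sq_OCC := by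
  classical
  intro E k K₀ w ρ σ hQ B _ _ F _ _ hlay hmono n hk₀ hkK hEB χ f hf b hb
  have : Fact (Nat.Prime 5) := ⟨by norm_num⟩
  have hfd : FiniteDimensional ℚ K₀ := hQ.fin
  have hfdle : ∀ {A A' : IntermediateField ℚ ℂ}, A ≤ A' → FiniteDimensional ℚ A' →
      FiniteDimensional ℚ A := by
    intro A A' hle hA'
    exact FiniteDimensional.of_injective (IntermediateField.inclusion hle).toLinearMap
      (IntermediateField.inclusion hle).injective
  have hfdE : FiniteDimensional ℚ E := hfdle hQ.EK hfd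
  have hfdk : FiniteDimensional ℚ k := hfdle hQ.kK hfd
  have hBk : BasX 5 k K₀ B := h2 5 k K₀ B hQ.kK hQ.galk hQ.abk hQ.deg hlay hmono
  have hcop : ¬ 5 ∣ Module.finrank k (IntermediateField.extendScalars hBk.hk) := by
    intro h5
    apply hQ.deg
    have h6 : Module.finrank ℚ k * Module.finrank k (IntermediateField.extendScalars hBk.hk) =
        Module.finrank ℚ K₀ := Module.finrank_mul_finrank ℚ k (IntermediateField.extendScalars hBk.hk)
    rw [← h6]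
    exact h5.mul_left _
  let akK : Algebra k ↥K₀ := algC hkK
  let akL : Algebra k ↥(K₀ ⊔ B n) := algC hk₀
  let aLL : Algebra ↥(E ⊔ B n) ↥(K₀ ⊔ B n) := algC hEB
  obtain ⟨τ, hτ⟩ := I3X19.restr h3 5 k K₀ B hBk hcop hkK n hk₀
  obtain ⟨hf1, hf2, hf3⟩ := hf
  have hfb : ∀ x, ∀ a : ↥K₀ ≃ₐ[k] ↥K₀,
      f (((τ.symm a : NC hk₀ (B n)) : ↥(K₀ ⊔ B n) ≃ₐ[k] ↥(K₀ ⊔ B n)) • x) = (χ a : F) * f x := by
    intro x a
    refine hf3 (τ.symm a) a (fun y y' hy => ?_) x
    rw [hτ (τ.symm a) y y' hy, τ.apply_symm_apply]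
  -- `δ` on `E` and `B n`
  have hδE : ∀ (a : ↥K₀ ≃ₐ[k] ↥K₀) (x : ↥K₀) (x' : ↥(K₀ ⊔ B n)), (x' : ℂ) = x →
      ((((τ.symm a : NC hk₀ (B n)) : ↥(K₀ ⊔ B n) ≃ₐ[k] ↥(K₀ ⊔ B n)) x' : ↥(K₀ ⊔ B n)) : ℂ) =
        (a x : ↥K₀) := by
    intro a x x' hx
    rw [hτ (τ.symm a) x x' hx, τ.apply_symm_apply]
  have hδB : ∀ (a : ↥K₀ ≃ₐ[k] ↥K₀) (x : ↥(K₀ ⊔ B n)), (x : ℂ) ∈ B n →
      ((τ.symm a : NC hk₀ (B n)) : ↥(K₀ ⊔ B n) ≃ₐ[k] ↥(K₀ ⊔ B n)) x = x := fun a x hx =>
    (τ.symm a : NC hk₀ (B n)).2 x hx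
  have hEL : E ≤ K₀ ⊔ B n := hQ.EK.trans le_sup_left
  have hBL : B n ≤ K₀ ⊔ B n := le_sup_right
  let ι : ↥(K₀ ⊔ B n) →+* ℂ := algebraMap ↥(K₀ ⊔ B n) ℂ
  have hι : ∀ x, ι x = (x : ℂ) := fun _ => rfl
  refine ⟨?_, ?_⟩
  · intro a ha
    let aEL' : Algebra E ↥(E ⊔ B n) := algC (le_sup_left : E ≤ E ⊔ B n)
    have hfixL : ∀ x : ↥(K₀ ⊔ B n), (x : ℂ) ∈ E ⊔ B n →
        ι (((τ.symm a : NC hk₀ (B n)) : ↥(K₀ ⊔ B n) ≃ₐ[k] ↥(K₀ ⊔ B n)) x) = ι x := by
      refine agree (ι.comp (((τ.symm a : NC hk₀ (B n)) : ↥(K₀ ⊔ B n) ≃ₐ[k] ↥(K₀ ⊔ B n)) :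
        ↥(K₀ ⊔ B n) →+* ↥(K₀ ⊔ B n))) ι hEL hBL ?_ ?_
      · intro x hx
        show ι (((τ.symm a : NC hk₀ (B n)) : ↥(K₀ ⊔ B n) ≃ₐ[k] ↥(K₀ ⊔ B n)) x) = ι x
        rw [hι, hδE a ⟨x, hQ.EK hx⟩ x rfl, ha _ hx]
        rfl
      · intro x hx
        show ι (((τ.symm a : NC hk₀ (B n)) : ↥(K₀ ⊔ B n) ≃ₐ[k] ↥(K₀ ⊔ B n)) x) = ι x
        rw [hδB a x hx]
    have h5 := EXTACT_thm E ↥(E ⊔ B n) k ↥(K₀ ⊔ B n)
      ((τ.symm a : NC hk₀ (B n)) : ↥(K₀ ⊔ B n) ≃ₐ[k] ↥(K₀ ⊔ B n)) 1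
      (fun x => Subtype.ext (hfixL ⟨x, hEB x.2⟩ x.2).symm) b
    rw [one_smul] at h5
    have h6 := hfb (ext ↥(E ⊔ B n) ↥(K₀ ⊔ B n) b) a
    rw [← h5] at h6
    apply Units.ext
    have h7 : ((χ a : Fˣ) : F) * f (ext ↥(E ⊔ B n) ↥(K₀ ⊔ B n) b) =
        1 * f (ext ↥(E ⊔ B n) ↥(K₀ ⊔ B n) b) := by rw [one_mul]; exact h6.symm
    exact mul_right_cancel₀ hb h7
  · intro a ha
    set δ : ↥(K₀ ⊔ B n) ≃ₐ[k] ↥(K₀ ⊔ B n) :=
      ((τ.symm a : NC hk₀ (B n)) : ↥(K₀ ⊔ B n) ≃ₐ[k] ↥(K₀ ⊔ B n)) with hδ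
    have hδ1 : ∀ (x : ↥(K₀ ⊔ B n)) (hx : (x : ℂ) ∈ E), ((δ x : ↥(K₀ ⊔ B n)) : ℂ) = ρ ⟨x, hx⟩ := by
      intro x hx
      rw [hδE a ⟨x, hQ.EK hx⟩ x rfl]
      exact ha ⟨x, hQ.EK hx⟩ ⟨x, hx⟩ rfl
    have hst : ∀ x : ↥(K₀ ⊔ B n), (x : ℂ) ∈ E ⊔ B n → ι (δ x) ∈ E ⊔ B n := by
      refine stable (ι.comp (δ : ↥(K₀ ⊔ B n) →+* ↥(K₀ ⊔ B n))) hEL hBL ?_ ?_
      · intro x hx
        show ι (δ x) ∈ E ⊔ B n
        rw [hι, hδ1 x hx]
        exact (le_sup_left : E ≤ E ⊔ B n) (ρ ⟨x, hx⟩).2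
      · intro x hx
        show ι (δ x) ∈ E ⊔ B n
        rw [hδB a x hx]
        exact (le_sup_right : B n ≤ E ⊔ B n) hx
    have hinv : ∀ x : ↥(K₀ ⊔ B n), (x : ℂ) ∈ E ⊔ B n → ι (δ (δ x)) = ι x := by
      refine agree ((ι.comp (δ : ↥(K₀ ⊔ B n) →+* ↥(K₀ ⊔ B n))).comp
        (δ : ↥(K₀ ⊔ B n) →+* ↥(K₀ ⊔ B n))) ι hEL hBL ?_ ?_
      · intro x hx
        show ι (δ (δ x)) = ι x
        have h5 : ((δ x : ↥(K₀ ⊔ B n)) : ℂ) ∈ E := by
          rw [hδ1 x hx]
          exact (ρ ⟨x, hx⟩).2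
        rw [hι, hδ1 (δ x) h5]
        have h6 : (⟨((δ x : ↥(K₀ ⊔ B n)) : ℂ), h5⟩ : E) = ρ ⟨x, hx⟩ := Subtype.ext (hδ1 x hx)
        rw [h6, hQ.rhr]
        rfl
      · intro x hx
        show ι (δ (δ x)) = ι x
        rw [hδB a x hx, hδB a x hx]
    -- the fields `C` and `C B_n`
    set C : IntermediateField ℚ ℂ := IntermediateField.adjoin ℚ {z : ℂ | z ^ 5 = 1} with hC
    have hCE : C ≤ E := hQ.mu
    have hCB : C ⊔ B n ≤ E ⊔ B n := sup_le_sup_right hCE _
    have hfdC : FiniteDimensional ℚ C := hfdle hCE hfdE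
    have hfdCn : ∀ m, FiniteDimensional ℚ ↥(C ⊔ B m) := fun m =>
      hfdle (A' := E ⊔ B m) (sup_le_sup_right hCE _) inferInstance
    let aCE : Algebra C E := algC hCE
    obtain ⟨q1, q2, q3⟩ := quad C E hCE ρ hQ.rhr hQ.rhn hQ.rhf
    have hdE : ¬ 5 ∣ Module.finrank ℚ E := by
      intro h5
      apply hQ.deg
      have h6 : Module.finrank ℚ E *
          Module.finrank E (IntermediateField.extendScalars hQ.EK) =
          Module.finrank ℚ K₀ := Module.finrank_mul_finrank ℚ E (IntermediateField.extendScalars hQ.EK)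
      rw [← h6]
      exact h5.mul_right _
    have hEC : Module.finrank ℚ C * 2 = Module.finrank ℚ E := by
      rw [← q3]
      have tow : IsScalarTower ℚ C E := IsScalarTower.of_algebraMap_eq (fun _ => rfl)
      exact Module.finrank_mul_finrank ℚ C E
    have hdC : ¬ 5 ∣ Module.finrank ℚ C := fun h5 => hdE (hEC ▸ h5.mul_right 2)
    have hBC : BasX 5 C C B := basSelf h2 5 C B hdC hlay hmono
    have hBE : BasX 5 C E B := by
      refine h2 5 C E B hCE ((isGalois_algC hCE).1 q1) ?_ hdE hlay hmono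
      intro s t
      have h5 := q2 (((extEquiv hCE).symm.trans s).trans (extEquiv hCE))
        (((extEquiv hCE).symm.trans t).trans (extEquiv hCE))
      apply AlgEquiv.ext
      intro x
      apply (extEquiv hCE).injective
      have h6 := congrArg (fun g : E ≃ₐ[C] E => g (extEquiv hCE x)) h5
      exact h6
    have hCL : C ≤ E ⊔ B n := hCE.trans le_sup_left
    let aCL : Algebra C ↥(E ⊔ B n) := algC hCL
    let aCCn : Algebra C ↥(C ⊔ B n) := algC (le_sup_left : C ≤ C ⊔ B n)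
    let aCnL : Algebra ↥(C ⊔ B n) ↥(E ⊔ B n) := algC hCB
    have towC : IsScalarTower C ↥(C ⊔ B n) ↥(E ⊔ B n) := IsScalarTower.of_algebraMap_eq (fun _ => rfl)
    have hgal : IsGalois ↥(C ⊔ B n) ↥(E ⊔ B n) := by
      have h5 : IsGalois C ↥(E ⊔ B n) := (h4 5 C E B hBE n hCL).1
      exact IsGalois.tower_top_of_isGalois C ↥(C ⊔ B n) ↥(E ⊔ B n)
    have hfr : Module.finrank ↥(C ⊔ B n) ↥(E ⊔ B n) = 2 := by
      have h5 : Module.finrank ↥(C ⊔ B n) ↥(E ⊔ B n) = Module.finrank ℚ E / Module.finrank ℚ C :=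
        K_MAINKX.finrank_quot hCB _ _ (5 ^ n) Module.finrank_pos (by positivity)
          (hBC.deg n) (hBE.deg n)
      rw [h5, ← hEC, Nat.mul_div_cancel_left _ Module.finrank_pos]
    -- the automorphism `ρ'` of `E B_n` over `C B_n`
    let ρ₀ : ↥(E ⊔ B n) ≃+* ↥(E ⊔ B n) :=
      { toFun := fun x => ⟨ι (δ ⟨x, hEB x.2⟩), hst _ x.2⟩
        invFun := fun x => ⟨ι (δ ⟨x, hEB x.2⟩), hst _ x.2⟩
        left_inv := fun x => Subtype.ext (hinv ⟨x, hEB x.2⟩ x.2)
        right_inv := fun x => Subtype.ext (hinv ⟨x, hEB x.2⟩ x.2)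
        map_mul' := fun x y => Subtype.ext (by
          show ι (δ ⟨((x * y : ↥(E ⊔ B n)) : ℂ), _⟩) = ι (δ ⟨x, hEB x.2⟩) * ι (δ ⟨y, hEB y.2⟩)
          rw [← map_mul, ← map_mul]
          rfl)
        map_add' := fun x y => Subtype.ext (by
          show ι (δ ⟨((x + y : ↥(E ⊔ B n)) : ℂ), _⟩) = ι (δ ⟨x, hEB x.2⟩) + ι (δ ⟨y, hEB y.2⟩)
          rw [← map_add, ← map_add]
          rfl) }
    have hρ₀ : ∀ x, ((ρ₀ x : ↥(E ⊔ B n)) : ℂ) = (δ ⟨x, hEB x.2⟩ : ↥(K₀ ⊔ B n)) := fun _ => rfl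
    have hfixC : ∀ x : ↥(K₀ ⊔ B n), (x : ℂ) ∈ C ⊔ B n → ι (δ x) = ι x := by
      refine agree (ι.comp (δ : ↥(K₀ ⊔ B n) →+* ↥(K₀ ⊔ B n))) ι (hCE.trans hEL) hBL ?_ ?_
      · intro x hx
        show ι (δ x) = ι x
        rw [hι, hδ1 x (hCE hx), (hQ.rhf ⟨x, hCE hx⟩).2 hx]
        rfl
      · intro x hx
        show ι (δ x) = ι x
        rw [hδB a x hx]
    let ρ' : ↥(E ⊔ B n) ≃ₐ[↥(C ⊔ B n)] ↥(E ⊔ B n) := AlgEquiv.ofRingEquiv (f := ρ₀) (by
      intro x
      apply Subtype.ext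
      rw [hρ₀]
      exact hfixC ⟨x, hEB (hCB x.2)⟩ x.2)
    have hρ' : ∀ x, ((ρ' x : ↥(E ⊔ B n)) : ℂ) = (δ ⟨x, hEB x.2⟩ : ↥(K₀ ⊔ B n)) := fun _ => rfl
    have hρ1 : ρ' ≠ 1 := by
      intro h5
      obtain ⟨x, hx⟩ := hQ.rhn
      apply hx
      apply Subtype.ext
      have hxL : (x : ℂ) ∈ E ⊔ B n := (le_sup_left : E ≤ E ⊔ B n) x.2
      have h6 := hρ' ⟨x, hxL⟩
      rw [h5] at h6
      have h7 := hδ1 ⟨x, hEB hxL⟩ x.2
      exact (h6.trans h7).symm
    have huniv : (Finset.univ : Finset (↥(E ⊔ B n) ≃ₐ[↥(C ⊔ B n)] ↥(E ⊔ B n))) = {1, ρ'} := by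
      symm
      apply Finset.eq_univ_of_card
      rw [Finset.card_pair hρ1.symm, ← Nat.card_eq_fintype_card, IsGalois.card_aut_eq_finrank, hfr]
    obtain ⟨c, hc⟩ := CL.nm_mem (F := ↥(C ⊔ B n)) b
    have hnm : CL.nm ↥(C ⊔ B n) ↥(E ⊔ B n) b = b * ρ' • b := by
      rw [CL.nm_apply, huniv, Finset.prod_pair hρ1.symm, one_smul]
    obtain ⟨y, x, hyx⟩ := h1 B hlay hmono n c
    have hzero : f (ext ↥(E ⊔ B n) ↥(K₀ ⊔ B n) (b * ρ' • b)) = 0 := by
      rw [← hnm, ← hc, hyx, map_mul, map_mul, map_pow, map_pow, hf1, ext_prin, ext_prin,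
        hf2 _ ⟨_, rfl⟩, add_zero]
      exact f_pow 5 f hf1 _
    have h5 := EXTACT_thm ↥(C ⊔ B n) ↥(E ⊔ B n) k ↥(K₀ ⊔ B n) δ ρ'
      (fun x => Subtype.ext (hρ' x)) b
    rw [map_mul, hf1, h5, hfb] at hzero
    have h6 : ((χ a : Fˣ) : F) * f (ext ↥(E ⊔ B n) ↥(K₀ ⊔ B n) b) =
        (-1) * f (ext ↥(E ⊔ B n) ↥(K₀ ⊔ B n) b) := by linear_combination hzero
    exact mul_right_cancel₀ hb h6

end Pool.Agent.OB


end

section

/-!
# OB, the corollary for `p = 5`: QFT, the field theory (helper28)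
-/

set_option autoImplicit false

namespace Pool.Agent.OB.QFTx

section quad
open Module

theorem int_of_sq {F K : Type*} [Field F] [Field K] [Algebra F K] {m : K} {c : F}
    (hm : m ^ 2 = algebraMap F K c) : IsIntegral F m := by
  refine ⟨Polynomial.X ^ 2 - Polynomial.C c, Polynomial.monic_X_pow_sub_C c two_ne_zero, ?_⟩
  simp [hm]

/-- the elements of `F(m)`, `m² = c` -/
theorem mem_Q {F K : Type*} [Field F] [Field K] [Algebra F K] {m : K} {c : F}
    (hm : m ^ 2 = algebraMap F K c) {x : K} (hx : x ∈ IntermediateField.adjoin F {m}) :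
    ∃ p q : F, x = algebraMap F K p + algebraMap F K q * m := by
  have hx' : x ∈ (IntermediateField.adjoin F {m}).toSubalgebra := hx
  rw [IntermediateField.adjoin_simple_toSubalgebra_of_isAlgebraic (int_of_sq hm).isAlgebraic] at hx'
  induction hx' using Algebra.adjoin_induction with
  | mem y hy => exact ⟨0, 1, by rw [Set.mem_singleton_iff.1 hy]; simp⟩
  | algebraMap r => exact ⟨r, 0, by simp⟩
  | add y z hy hz ihy ihz =>
    obtain ⟨p, q, rfl⟩ := ihy (by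
      rw [← IntermediateField.mem_toSubalgebra,
        IntermediateField.adjoin_simple_toSubalgebra_of_isAlgebraic (int_of_sq hm).isAlgebraic]
      exact hy)
    obtain ⟨p', q', rfl⟩ := ihz (by
      rw [← IntermediateField.mem_toSubalgebra,
        IntermediateField.adjoin_simple_toSubalgebra_of_isAlgebraic (int_of_sq hm).isAlgebraic]
      exact hz)
    exact ⟨p + p', q + q', by rw [map_add, map_add]; ring⟩
  | mul y z hy hz ihy ihz =>
    obtain ⟨p, q, rfl⟩ := ihy (by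
      rw [← IntermediateField.mem_toSubalgebra,
        IntermediateField.adjoin_simple_toSubalgebra_of_isAlgebraic (int_of_sq hm).isAlgebraic]
      exact hy)
    obtain ⟨p', q', rfl⟩ := ihz (by
      rw [← IntermediateField.mem_toSubalgebra,
        IntermediateField.adjoin_simple_toSubalgebra_of_isAlgebraic (int_of_sq hm).isAlgebraic]
      exact hz)
    refine ⟨p * p' + q * q' * c, p * q' + q * p', ?_⟩
    simp only [map_add, map_mul]
    rw [← hm]
    ring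

theorem finrank_Q {K : Type*} [Field K] [Algebra ℚ K] {m : K} {c : ℚ}
    (hm : m ^ 2 = algebraMap ℚ K c) (hn : ∀ q : ℚ, algebraMap ℚ K q ≠ m) :
    finrank ℚ (IntermediateField.adjoin ℚ {m}) = 2 := by
  rw [IntermediateField.adjoin.finrank (int_of_sq hm)]
  have h1 : (minpoly ℚ m).natDegree ≤ 2 := by
    have h2 : minpoly ℚ m ∣ Polynomial.X ^ 2 - Polynomial.C c := minpoly.dvd _ _ (by simp [hm])
    have h3 := Polynomial.natDegree_le_of_dvd h2 (Polynomial.monic_X_pow_sub_C c two_ne_zero).ne_zero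
    rwa [Polynomial.natDegree_X_pow_sub_C] at h3
  have h2 : (minpoly ℚ m).natDegree ≠ 1 := by
    rw [ne_eq, minpoly.natDegree_eq_one_iff]
    rintro ⟨q, hq⟩
    exact hn q hq
  have h3 : 0 < (minpoly ℚ m).natDegree := minpoly.natDegree_pos (int_of_sq hm)
  omega

theorem no5 (q : ℚ) : q ^ 2 ≠ 5 := by
  intro h
  have h1 : IsSquare ((5 : ℕ) : ℚ) := ⟨q, by rw [← pow_two, h]; norm_num⟩
  rw [Rat.isSquare_natCast_iff] at h1
  obtain ⟨r, hr⟩ := h1
  have : r ≤ 2 := by nlinarith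
  interval_cases r <;> omega

theorem no15 (q : ℚ) : q ^ 2 ≠ 15 := by
  intro h
  have h1 : IsSquare ((15 : ℕ) : ℚ) := ⟨q, by rw [← pow_two, h]; norm_num⟩
  rw [Rat.isSquare_natCast_iff] at h1
  obtain ⟨r, hr⟩ := h1
  have : r ≤ 3 := by nlinarith
  interval_cases r <;> omega

/-- the involution of a quartic field over `ℚ(w)` -/
theorem exists_rho {E : Type*} [Field E] [Algebra ℚ E] (h4 : finrank ℚ E = 4) (w : E)
    (w5 : w ^ 2 = 5) :
    ∃ ρ : E ≃ₐ[ℚ] E, ρ w = w ∧ (∀ x, ρ (ρ x) = x) ∧ (∃ x, ρ x ≠ x) ∧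
      ∀ x, ρ x = x → x ∈ IntermediateField.adjoin ℚ {w} := by
  have : FiniteDimensional ℚ E := FiniteDimensional.of_finrank_pos (by omega)
  have w5' : w ^ 2 = algebraMap ℚ E 5 := by rw [w5]; simp
  have hF : finrank ℚ (IntermediateField.adjoin ℚ {w}) = 2 := by
    refine finrank_Q w5' fun q hq => no5 q ?_
    have : algebraMap ℚ E (q ^ 2) = algebraMap ℚ E 5 := by rw [map_pow, hq, w5']
    exact (algebraMap ℚ E).injective this
  have h2 : finrank (IntermediateField.adjoin ℚ {w}) E = 2 := by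
    have h3 := finrank_mul_finrank ℚ (IntermediateField.adjoin ℚ {w}) E
    rw [hF, h4] at h3
    omega
  have hq : Algebra.IsQuadraticExtension (IntermediateField.adjoin ℚ {w}) E := ⟨h2⟩
  have hcard : Nat.card (E ≃ₐ[IntermediateField.adjoin ℚ {w}] E) = 2 := by
    rw [IsGalois.card_aut_eq_finrank, h2]
  have : Finite (E ≃ₐ[IntermediateField.adjoin ℚ {w}] E) := Nat.finite_of_card_ne_zero (by omega)
  have hnt : Nontrivial (E ≃ₐ[IntermediateField.adjoin ℚ {w}] E) :=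
    Finite.one_lt_card_iff_nontrivial.1 (by omega)
  obtain ⟨g, hg⟩ := exists_ne (1 : E ≃ₐ[IntermediateField.adjoin ℚ {w}] E)
  have hg2 : g * g = 1 := by
    have h3 : g ^ Nat.card (E ≃ₐ[IntermediateField.adjoin ℚ {w}] E) = 1 := pow_card_eq_one'
    rwa [hcard, pow_two] at h3
  refine ⟨g.restrictScalars ℚ, ?_, fun x => ?_, ?_, fun x hx => ?_⟩
  · exact g.commutes ⟨w, IntermediateField.mem_adjoin_simple_self ℚ w⟩
  · exact DFunLike.congr_fun hg2 x
  · by_contra hc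
    push Not at hc
    exact hg (AlgEquiv.ext hc)
  · have hx' : g x = x := hx
    have h3 : ∀ h : E ≃ₐ[IntermediateField.adjoin ℚ {w}] E, h = 1 ∨ h = g := by
      intro h
      by_contra hc
      push Not at hc
      have h4 : Nat.card ({1, g, h} : Set (E ≃ₐ[IntermediateField.adjoin ℚ {w}] E)) ≤ 2 := by
        rw [← hcard]
        exact Finite.card_subtype_le _
      have h5 : ({1, g, h} : Set (E ≃ₐ[IntermediateField.adjoin ℚ {w}] E)).ncard = 3 :=
        Set.ncard_eq_three.2 ⟨1, g, h, hg.symm, hc.1.symm, hc.2.symm, rfl⟩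
      rw [Nat.card_coe_set_eq, h5] at h4
      omega
    have h4 : x ∈ (⊥ : IntermediateField (IntermediateField.adjoin ℚ {w}) E) := by
      rw [IsGalois.mem_bot_iff_fixed]
      intro h
      rcases h3 h with rfl | rfl
      · rfl
      · exact hx'
    obtain ⟨y, rfl⟩ := IntermediateField.mem_bot.1 h4
    exact y.2


/-- generator of `E` over `ℚ(w)` -/
theorem exists_beta {E : Type*} [Field E] [Algebra ℚ E] (w : E)
    (w5 : w ^ 2 = 5) (ρ : E ≃ₐ[ℚ] E) (hr : ∀ x, ρ (ρ x) = x) (hn : ∃ x, ρ x ≠ x)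
    (hf : ∀ x, ρ x = x → x ∈ IntermediateField.adjoin ℚ {w}) :
    ∃ (β : E) (a b : ℚ), ρ β = -β ∧ β ≠ 0 ∧ β ^ 2 = algebraMap ℚ E a + algebraMap ℚ E b * w ∧
      ∀ x, ∃ p q r s : ℚ, x = algebraMap ℚ E p + algebraMap ℚ E q * w +
        (algebraMap ℚ E r + algebraMap ℚ E s * w) * β := by
  have : CharZero E := algebraRat.charZero E
  have w5' : w ^ 2 = algebraMap ℚ E 5 := by rw [w5]; simp
  obtain ⟨x₀, hx₀⟩ := hn
  have hβ : ρ (x₀ - ρ x₀) = -(x₀ - ρ x₀) := by rw [map_sub, hr]; ring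
  have h0 : x₀ - ρ x₀ ≠ 0 := fun h => hx₀ (sub_eq_zero.1 h).symm
  obtain ⟨a, b, hab⟩ := mem_Q w5' (hf ((x₀ - ρ x₀) ^ 2) (by rw [map_pow, hβ]; ring))
  refine ⟨x₀ - ρ x₀, a, b, hβ, h0, hab, fun x => ?_⟩
  obtain ⟨p, q, h1⟩ := mem_Q w5' (hf ((x + ρ x) / 2) (by
    rw [map_div₀, map_add, hr, map_ofNat, add_comm]))
  obtain ⟨r, s, h2⟩ := mem_Q w5' (hf ((x - ρ x) / (2 * (x₀ - ρ x₀))) (by
    rw [map_div₀, map_sub, hr, map_mul, hβ, map_ofNat, mul_neg, div_neg, ← neg_div, neg_sub]))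
  refine ⟨p, q, r, s, ?_⟩
  rw [← h1, ← h2]
  field_simp
  ring

theorem real_sq {z : ℂ} {c : ℝ} (hc : 0 ≤ c) (hz : z ^ 2 = (c : ℂ)) :
    (starRingEnd ℂ) z = z := by
  have h1 : (z - (Real.sqrt c : ℝ)) * (z + (Real.sqrt c : ℝ)) = 0 := by
    have h2 : ((Real.sqrt c : ℝ) : ℂ) ^ 2 = (c : ℂ) := by
      rw [← Complex.ofReal_pow, Real.sq_sqrt hc]
    linear_combination hz - h2
  rcases mul_eq_zero.1 h1 with h | h
  · rw [sub_eq_zero.1 h, Complex.conj_ofReal]
  · rw [eq_neg_of_add_eq_zero_left h, map_neg, Complex.conj_ofReal]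

/-- the signs -/
theorem neg {E : Type*} [Field E] [Algebra ℚ E] (w β : E) (a b : ℚ) (w5 : w ^ 2 = 5)
    (hβ : β ^ 2 = algebraMap ℚ E a + algebraMap ℚ E b * w) (hβ0 : β ≠ 0)
    (hgen : ∀ x, ∃ p q r s : ℚ, x = algebraMap ℚ E p + algebraMap ℚ E q * w +
        (algebraMap ℚ E r + algebraMap ℚ E s * w) * β)
    (h₁ : ∃ φ : E →+* ℂ, ∀ x, (starRingEnd ℂ) (φ x) = φ x)
    (h₂ : ∃ φ : E →+* ℂ, ∃ x, (starRingEnd ℂ) (φ x) ≠ φ x) : a ^ 2 - 5 * b ^ 2 < 0 := by
  obtain ⟨φ₁, h₁⟩ := h₁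
  obtain ⟨φ₂, x₂, h₂⟩ := h₂
  have hQ : ∀ (φ : E →+* ℂ) (q : ℚ), φ (algebraMap ℚ E q) = (q : ℂ) := fun φ q => by
    rw [eq_ratCast (algebraMap ℚ E) q, map_ratCast]
  -- `φ₂ β` is not real
  have key : (starRingEnd ℂ) (φ₂ β) ≠ φ₂ β := by
    intro hb
    have hw : (starRingEnd ℂ) (φ₂ w) = φ₂ w := by
      refine real_sq (c := 5) (by norm_num) ?_
      rw [← map_pow, w5, map_ofNat]
      norm_num
    apply h₂
    obtain ⟨p, q, r, s, rfl⟩ := hgen x₂
    simp only [map_add, map_mul, hQ, hw, hb, map_ratCast]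
  have e1 : φ₁ β ^ 2 = a + b * φ₁ w := by rw [← map_pow, hβ, map_add, map_mul, hQ, hQ]
  have e2 : φ₂ β ^ 2 = a + b * φ₂ w := by rw [← map_pow, hβ, map_add, map_mul, hQ, hQ]
  obtain ⟨t, ht⟩ := Complex.conj_eq_iff_real.1 (h₁ w)
  obtain ⟨s, hs⟩ := Complex.conj_eq_iff_real.1 (h₁ β)
  have ht5 : t ^ 2 = 5 := by
    have h1 : ((t : ℂ)) ^ 2 = 5 := by rw [← ht, ← map_pow, w5, map_ofNat]
    exact_mod_cast h1
  have hst : s ^ 2 = a + b * t := by
    rw [ht, hs] at e1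
    exact_mod_cast e1
  have hs0 : s ≠ 0 := by
    rintro rfl
    apply hβ0
    rw [Complex.ofReal_zero] at hs
    exact (map_eq_zero φ₁).1 hs
  have hw2 : (φ₂ w - t) * (φ₂ w + t) = 0 := by
    have h1 : φ₂ w ^ 2 = 5 := by rw [← map_pow, w5, map_ofNat]
    have h2 : ((t : ℂ)) ^ 2 = 5 := by exact_mod_cast ht5
    linear_combination h1 - h2
  rcases mul_eq_zero.1 hw2 with h | h
  · exfalso
    apply key
    refine real_sq (c := s ^ 2) (sq_nonneg _) ?_
    rw [e2, sub_eq_zero.1 h, hst]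
    push_cast
    ring
  · have h3 : (a : ℝ) - b * t < 0 := by
      by_contra hc
      push Not at hc
      apply key
      refine real_sq (c := a - b * t) hc ?_
      rw [e2, eq_neg_of_add_eq_zero_left h]
      push_cast
      ring
    have h4 : 0 < (a : ℝ) + b * t := by rw [← hst]; positivity
    have h5 : ((a : ℝ) + b * t) * (a - b * t) < 0 := mul_neg_of_pos_of_neg h4 h3
    have h6 : ((a : ℝ) ^ 2 - 5 * b ^ 2) < 0 := by nlinarith
    exact_mod_cast h6

theorem choose_N (N : ℚ) :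
    (∀ y : ℚ, y ^ 2 * N ≠ -1 ∧ y ^ 2 * N ≠ -3) ∨
      (∀ y : ℚ, y ^ 2 * (5 * N) ≠ -1 ∧ y ^ 2 * (5 * N) ≠ -3) := by
  by_contra hc
  push Not at hc
  obtain ⟨⟨y, hy⟩, ⟨z, hz⟩⟩ := hc
  have hy' : y ^ 2 * N = -1 ∨ y ^ 2 * N = -3 := by tauto
  have hz' : z ^ 2 * (5 * N) = -1 ∨ z ^ 2 * (5 * N) = -3 := by tauto
  have hz0 : z ≠ 0 := by
    rintro rfl
    rcases hz' with h | h <;> norm_num at h
  rcases hy' with h | h <;> rcases hz' with h' | h'
  · refine no5 (y / z) ?_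
    rw [div_pow, div_eq_iff (pow_ne_zero 2 hz0)]
    linear_combination (y ^ 2) * h' - 5 * z ^ 2 * h
  · refine no15 (3 * y / z) ?_
    rw [div_pow, div_eq_iff (pow_ne_zero 2 hz0)]
    linear_combination (3 * y ^ 2) * h' - 15 * z ^ 2 * h
  · refine no15 (y / z) ?_
    rw [div_pow, div_eq_iff (pow_ne_zero 2 hz0)]
    linear_combination (y ^ 2) * h' - 5 * z ^ 2 * h
  · refine no5 (y / z) ?_
    rw [div_pow, div_eq_iff (pow_ne_zero 2 hz0)]
    linear_combination (y ^ 2 / 3) * h' - 5 / 3 * z ^ 2 * h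


/-! ## the action of the automorphisms of `ℂ` -/

/-- the numbers -/
structure Gen (w β β' : ℂ) (a b : ℚ) : Prop where
  w5 : w ^ 2 = 5
  hβ : β ^ 2 = a + b * w
  hβ' : β' ^ 2 = a - b * w
  N : a ^ 2 - 5 * b ^ 2 < 0

theorem sq_eq {x y : ℂ} (h : x ^ 2 = y ^ 2) : ∃ e : ℤ, e * e = 1 ∧ x = e * y := by
  rcases sq_eq_sq_iff_eq_or_eq_neg.1 h with h | h
  · exact ⟨1, by norm_num, by rw [h]; norm_num⟩
  · exact ⟨-1, by norm_num, by rw [h]; norm_num⟩

variable {w β β' : ℂ} {a b : ℚ}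

theorem Gen.act (h : Gen w β β' a b) (S : ℂ ≃+* ℂ) : ∃ e e' : ℤ, e * e = 1 ∧ e' * e' = 1 ∧
    ((S w = w ∧ S β = e * β ∧ S β' = e' * β') ∨ (S w = -w ∧ S β = e * β' ∧ S β' = e' * β)) := by
  have hw : S w = w ∨ S w = -w := by
    refine sq_eq_sq_iff_eq_or_eq_neg.1 ?_
    rw [← map_pow, h.w5, map_ofNat]
  rcases hw with hw | hw
  · obtain ⟨e, he, e1⟩ := sq_eq (x := S β) (y := β) (by
      rw [← map_pow, h.hβ, map_add, map_mul, map_ratCast, map_ratCast, hw])
    obtain ⟨e', he', e2⟩ := sq_eq (x := S β') (y := β') (by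
      rw [← map_pow, h.hβ', map_sub, map_mul, map_ratCast, map_ratCast, hw])
    exact ⟨e, e', he, he', Or.inl ⟨hw, e1, e2⟩⟩
  · obtain ⟨e, he, e1⟩ := sq_eq (x := S β) (y := β') (by
      rw [← map_pow, h.hβ, h.hβ', map_add, map_mul, map_ratCast, map_ratCast, hw]; ring)
    obtain ⟨e', he', e2⟩ := sq_eq (x := S β') (y := β) (by
      rw [← map_pow, h.hβ, h.hβ', map_sub, map_mul, map_ratCast, map_ratCast, hw]; ring)
    exact ⟨e, e', he, he', Or.inr ⟨hw, e1, e2⟩⟩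

theorem Gen.mm (h : Gen w β β' a b) : (β * β') ^ 2 = ((a ^ 2 - 5 * b ^ 2 : ℚ) : ℂ) := by
  rw [mul_pow, h.hβ, h.hβ']
  push_cast
  linear_combination (-(b : ℂ) ^ 2) * h.w5

theorem Gen.m0 (h : Gen w β β' a b) : β * β' ≠ 0 := by
  intro h0
  have h1 := h.mm
  rw [h0] at h1
  have h2 : ((a ^ 2 - 5 * b ^ 2 : ℚ) : ℂ) = 0 := by rw [← h1]; norm_num
  have h3 : a ^ 2 - 5 * b ^ 2 = 0 := by exact_mod_cast h2
  exact h.N.ne h3

theorem Gen.w0 (h : Gen w β β' a b) : w ≠ 0 := by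
  rintro rfl
  have := h.w5
  norm_num at this

/-- the second sign is determined for the automorphisms which fix `m = β β'` (`κ = 1`) or `w m`
(`κ = -1`) -/
theorem Gen.act' (h : Gen w β β' a b) {κ : ℤ} {m : ℂ}
    (hm : (κ = 1 ∧ m = β * β') ∨ (κ = -1 ∧ m = w * (β * β'))) (S : ℂ ≃+* ℂ) (hS : S m = m) :
    ∃ e : ℤ, e * e = 1 ∧ ((S w = w ∧ S β = e * β ∧ S β' = e * β') ∨
      (S w = -w ∧ S β = e * β' ∧ S β' = κ * e * β)) := by
  obtain ⟨e, e', he, he', hc⟩ := h.act S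
  have hee : ∀ c : ℤ, ((e * e' : ℤ) : ℂ) = c → e' = c * e := by
    intro c hc
    have h1 : e * e' = c := by exact_mod_cast hc
    rw [← h1]
    linear_combination (-e') * he
  have hm0 := h.m0
  have hw0 := h.w0
  refine ⟨e, he, ?_⟩
  rcases hc with ⟨h1, h2, h3⟩ | ⟨h1, h2, h3⟩
  · left
    refine ⟨h1, h2, ?_⟩
    have : e' = 1 * e := by
      apply hee
      rcases hm with ⟨-, rfl⟩ | ⟨-, rfl⟩
      · rw [map_mul, h2, h3] at hS
        have : ((e * e' : ℤ) : ℂ) * (β * β') = 1 * (β * β') := by push_cast; linear_combination hS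
        exact_mod_cast mul_right_cancel₀ hm0 this
      · rw [map_mul, map_mul, h1, h2, h3] at hS
        have : ((e * e' : ℤ) : ℂ) * (w * (β * β')) = 1 * (w * (β * β')) := by
          push_cast; linear_combination hS
        exact_mod_cast mul_right_cancel₀ (mul_ne_zero hw0 hm0) this
    rw [h3, this, one_mul]
  · right
    refine ⟨h1, h2, ?_⟩
    have : e' = κ * e := by
      apply hee
      rcases hm with ⟨rfl, rfl⟩ | ⟨rfl, rfl⟩
      · rw [map_mul, h2, h3] at hS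
        have : ((e * e' : ℤ) : ℂ) * (β * β') = 1 * (β * β') := by push_cast; linear_combination hS
        exact_mod_cast mul_right_cancel₀ hm0 this
      · rw [map_mul, map_mul, h1, h2, h3] at hS
        have : ((e * e' : ℤ) : ℂ) * (w * (β * β')) = (-1) * (w * (β * β')) := by
          push_cast; linear_combination -hS
        exact_mod_cast mul_right_cancel₀ (mul_ne_zero hw0 hm0) this
    rw [h3, this]
    push_cast
    ring

theorem Gen.comm (h : Gen w β β' a b) {κ : ℤ} {m : ℂ}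
    (hm : (κ = 1 ∧ m = β * β') ∨ (κ = -1 ∧ m = w * (β * β'))) (S T : ℂ ≃+* ℂ) (hS : S m = m)
    (hT : T m = m) : S (T β) = T (S β) ∧ S (T β') = T (S β') := by
  obtain ⟨e, -, h1⟩ := h.act' hm S hS
  obtain ⟨f, -, h2⟩ := h.act' hm T hT
  rcases h1 with ⟨-, a1, a2⟩ | ⟨-, a1, a2⟩ <;> rcases h2 with ⟨-, b1, b2⟩ | ⟨-, b1, b2⟩ <;>
    rw [a1, a2, b1, b2] <;> simp only [map_mul, map_intCast] <;> rw [a1, a2, b1, b2] <;>
    constructor <;> ring

theorem Gen.commE (h : Gen w β β' a b) (S T : ℂ ≃+* ℂ) (hS : S β = β) (hT : T β = β)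
    (hSw : S w = w) (hTw : T w = w) : S (T β) = T (S β) ∧ S (T β') = T (S β') := by
  have hw : w ≠ -w := fun hc => h.w0 (self_eq_neg.1 hc)
  obtain ⟨e, e', -, -, h1⟩ := h.act S
  obtain ⟨f, f', -, -, h2⟩ := h.act T
  rcases h1 with ⟨-, a1, a2⟩ | ⟨a0, a1, a2⟩
  · rcases h2 with ⟨-, b1, b2⟩ | ⟨b0, b1, b2⟩
    · rw [hS, hT, hS, a2, b2]
      simp only [map_mul, map_intCast]
      rw [a2, b2]
      exact ⟨trivial, by ring⟩
    · rw [hTw] at b0
      exact absurd b0 hw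
  · rw [hSw] at a0
    exact absurd a0 hw

theorem root_pow (S : ℂ ≃+* ℂ) {z : ℂ} (hz : z ^ 5 = 1) : ∃ c < 5, S z = z ^ c := by
  by_cases h1 : z = 1
  · exact ⟨0, by norm_num, by rw [h1]; simp⟩
  · have h2 : IsPrimitiveRoot z 5 := by
      have : Fact (Nat.Prime 5) := ⟨by norm_num⟩
      exact IsPrimitiveRoot.iff_orderOf.2 (orderOf_eq_prime hz h1)
    obtain ⟨c, hc, h3⟩ := h2.eq_pow_of_pow_eq_one (ξ := S z) (by rw [← map_pow, hz, map_one])
    exact ⟨c, hc, h3.symm⟩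

theorem comm_root (S T : ℂ ≃+* ℂ) {z : ℂ} (hz : z ^ 5 = 1) : S (T z) = T (S z) := by
  obtain ⟨c, -, hc⟩ := root_pow S hz
  obtain ⟨d, -, hd⟩ := root_pow T hz
  rw [hc, hd, map_pow, map_pow, hc, hd, ← pow_mul, ← pow_mul, mul_comm]

theorem four_root (S : ℂ ≃+* ℂ) {z : ℂ} (hz : z ^ 5 = 1) : S (S (S (S z))) = z := by
  obtain ⟨c, hc, h⟩ := root_pow S hz
  have key : ∀ k, z ^ (5 * k + 1) = z := fun k => by rw [pow_succ, pow_mul, hz, one_pow, one_mul]
  simp only [h, map_pow, ← pow_mul]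
  interval_cases c
  · rw [pow_zero] at h
    have : z = 1 := by
      apply S.injective
      rw [h, map_one]
    rw [this]
    simp
  · simp
  · exact key 3
  · exact key 16
  · exact key 51

theorem Gen.four (h : Gen w β β' a b) (S : ℂ ≃+* ℂ) :
    S (S (S (S β))) = β ∧ S (S (S (S β'))) = β' := by
  obtain ⟨e, e', he, he', h1⟩ := h.act S
  have he2 : (e : ℂ) * e = 1 := by exact_mod_cast he
  have he2' : (e' : ℂ) * e' = 1 := by exact_mod_cast he'
  rcases h1 with ⟨-, a1, a2⟩ | ⟨-, a1, a2⟩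
  · constructor
    · simp only [a1, map_mul, map_intCast]
      linear_combination ((e : ℂ) * e * β + β) * he2
    · simp only [a2, map_mul, map_intCast]
      linear_combination ((e' : ℂ) * e' * β' + β') * he2'
  · constructor
    · simp only [a1, a2, map_mul, map_intCast]
      linear_combination ((e' : ℂ) * e' * β) * he2 + β * he2'
    · simp only [a1, a2, map_mul, map_intCast]
      linear_combination ((e' : ℂ) * e' * β') * he2 + β' * he2'


end quad

section fields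
open Module Polynomial

/-- the polynomial -/
noncomputable def pol (a b : ℚ) : ℚ[X] := ((X ^ 2 - C a) ^ 2 - C (5 * b ^ 2)) * (X ^ 5 - 1)

/-- the field -/
noncomputable def KK (a b : ℚ) : IntermediateField ℚ ℂ :=
  IntermediateField.adjoin ℚ ((pol a b).rootSet ℂ)

theorem pol_ne (a b : ℚ) : pol a b ≠ 0 := by
  have h1 : ((X ^ 2 - C a) ^ 2 - C (5 * b ^ 2) : ℚ[X]) ≠ 0 := by
    intro h
    have h2 := congrArg (fun p => Polynomial.eval 0 p) h
    have h3 := congrArg (fun p => Polynomial.eval 1 p) h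
    have h4 := congrArg (fun p => Polynomial.eval 2 p) h
    simp at h2 h3 h4
    nlinarith
  have h2 : (X ^ 5 - 1 : ℚ[X]) ≠ 0 := (Polynomial.monic_X_pow_sub_C (1 : ℚ) (by norm_num)).ne_zero
  exact mul_ne_zero h1 h2

theorem isSpl (a b : ℚ) : (pol a b).IsSplittingField ℚ (KK a b) :=
  IntermediateField.adjoin_rootSet_isSplittingField (IsAlgClosed.splits _)

theorem finK (a b : ℚ) : FiniteDimensional ℚ (KK a b) :=
  haveI := isSpl a b
  Polynomial.IsSplittingField.finiteDimensional _ (pol a b)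

theorem galK (a b : ℚ) : IsGalois ℚ (KK a b) := by
  have := isSpl a b
  have := Normal.of_isSplittingField (F := ℚ) (E := KK a b) (pol a b)
  exact ⟨⟩

theorem mem_root {a b : ℚ} {z : ℂ} : z ∈ (pol a b).rootSet ℂ ↔
    (z ^ 2 - a) ^ 2 = 5 * b ^ 2 ∨ z ^ 5 = 1 := by
  rw [Polynomial.mem_rootSet]
  constructor
  · rintro ⟨-, h⟩
    have h1 : ((z ^ 2 - a) ^ 2 - 5 * b ^ 2) * (z ^ 5 - 1) = 0 := by
      simpa [pol] using h
    rcases mul_eq_zero.1 h1 with h2 | h2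
    · exact Or.inl (sub_eq_zero.1 h2)
    · exact Or.inr (sub_eq_zero.1 h2)
  · intro h
    refine ⟨pol_ne a b, ?_⟩
    have h1 : ((z ^ 2 - a) ^ 2 - 5 * b ^ 2) * (z ^ 5 - 1) = 0 := by
      rcases h with h | h
      · rw [h]; ring
      · rw [h]; ring
    simpa [pol] using h1


end fields

section final
open Module

variable {w β β' : ℂ} {a b : ℚ}

theorem root_cases (h : Gen w β β' a b) {z : ℂ} (hz : z ∈ (pol a b).rootSet ℂ) :
    z = β ∨ z = -β ∨ z = β' ∨ z = -β' ∨ z ^ 5 = 1 := by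
  rcases mem_root.1 hz with h1 | h1
  · have h2 : (z ^ 2 - a) ^ 2 = ((b : ℂ) * w) ^ 2 := by rw [h1, mul_pow, h.w5]; ring
    rcases sq_eq_sq_iff_eq_or_eq_neg.1 h2 with h3 | h3
    · have h4 : z ^ 2 = β ^ 2 := by rw [h.hβ, ← h3]; ring
      rcases sq_eq_sq_iff_eq_or_eq_neg.1 h4 with h5 | h5
      · exact Or.inl h5
      · exact Or.inr (Or.inl h5)
    · have h4 : z ^ 2 = β' ^ 2 := by rw [h.hβ']; linear_combination h3
      rcases sq_eq_sq_iff_eq_or_eq_neg.1 h4 with h5 | h5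
      · exact Or.inr (Or.inr (Or.inl h5))
      · exact Or.inr (Or.inr (Or.inr (Or.inl h5)))
  · exact Or.inr (Or.inr (Or.inr (Or.inr h1)))

theorem beta_mem (h : Gen w β β' a b) : β ∈ KK a b := by
  refine IntermediateField.subset_adjoin _ _ (mem_root.2 (Or.inl ?_))
  rw [h.hβ]
  linear_combination ((b : ℂ) ^ 2) * h.w5

theorem beta'_mem (h : Gen w β β' a b) : β' ∈ KK a b := by
  refine IntermediateField.subset_adjoin _ _ (mem_root.2 (Or.inl ?_))
  rw [h.hβ']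
  linear_combination ((b : ℂ) ^ 2) * h.w5

theorem zeta_mem (a b : ℚ) {z : ℂ} (hz : z ^ 5 = 1) : z ∈ KK a b :=
  IntermediateField.subset_adjoin _ _ (mem_root.2 (Or.inr hz))

theorem Gen.b0 (h : Gen w β β' a b) : (b : ℂ) ≠ 0 := by
  intro h0
  have h1 : b = 0 := by exact_mod_cast h0
  have h2 := h.N
  rw [h1] at h2
  nlinarith [sq_nonneg a]

theorem w_mem (h : Gen w β β' a b) : w ∈ KK a b := by
  have h1 : w = (β ^ 2 - ((a : ℚ) : ℂ)) / ((b : ℚ) : ℂ) := by
    rw [h.hβ, eq_div_iff h.b0]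
    ring
  rw [h1]
  exact div_mem (sub_mem (pow_mem (beta_mem h) 2) (SubfieldClass.ratCast_mem _ _))
    (SubfieldClass.ratCast_mem _ _)

/-- the field where two homomorphisms agree -/
def eqF (F G : ℂ →+* ℂ) : IntermediateField ℚ ℂ where
  carrier := {x | F x = G x}
  mul_mem' := fun {x y} hx hy => by
    show F (x * y) = G (x * y)
    rw [map_mul, map_mul, show F x = G x from hx, show F y = G y from hy]
  one_mem' := by
    show F 1 = G 1
    rw [map_one, map_one]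
  add_mem' := fun {x y} hx hy => by
    show F (x + y) = G (x + y)
    rw [map_add, map_add, show F x = G x from hx, show F y = G y from hy]
  zero_mem' := by
    show F 0 = G 0
    rw [map_zero, map_zero]
  algebraMap_mem' := fun r => by
    show F (algebraMap ℚ ℂ r) = G (algebraMap ℚ ℂ r)
    rw [eq_ratCast (algebraMap ℚ ℂ) r, map_ratCast, map_ratCast]
  inv_mem' := fun x hx => by
    show F x⁻¹ = G x⁻¹
    rw [map_inv₀, map_inv₀, show F x = G x from hx]

theorem extK (h : Gen w β β' a b) (F G : ℂ →+* ℂ) (h1 : F β = G β) (h2 : F β' = G β')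
    (h3 : ∀ z, z ^ 5 = 1 → F z = G z) : ∀ x ∈ KK a b, F x = G x := by
  have h4 : KK a b ≤ eqF F G := by
    refine IntermediateField.adjoin_le_iff.2 fun z hz => ?_
    show F z = G z
    rcases root_cases h hz with rfl | rfl | rfl | rfl | h5
    · exact h1
    · rw [map_neg, map_neg, h1]
    · exact h2
    · rw [map_neg, map_neg, h2]
    · exact h3 z h5
  exact fun x hx => h4 hx

theorem gal_top {k K : IntermediateField ℚ ℂ} (hk : k ≤ K) (hK : IsGalois ℚ K) :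
    IsGalois k (IntermediateField.extendScalars hk) := by
  let e : K ≃ₐ[ℚ] (IntermediateField.extendScalars hk) :=
    { toFun := fun x => ⟨x.1, x.2⟩
      invFun := fun x => ⟨x.1, x.2⟩
      left_inv := fun _ => rfl
      right_inv := fun _ => rfl
      map_mul' := fun _ _ => rfl
      map_add' := fun _ _ => rfl
      commutes' := fun _ => rfl }
  have : IsGalois ℚ (IntermediateField.extendScalars hk) := IsGalois.of_algEquiv e
  exact IsGalois.tower_top_of_isGalois ℚ _ _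

/-- automorphisms of `K` over `k` extend to `ℂ` -/
theorem aut_ext {k K : IntermediateField ℚ ℂ} (hk : k ≤ K) (hK : Algebra.IsAlgebraic ℚ K)
    (s : (IntermediateField.extendScalars hk) ≃ₐ[k] (IntermediateField.extendScalars hk)) :
    ∃ S : ℂ ≃+* ℂ, (∀ x : IntermediateField.extendScalars hk, S (x : ℂ) = (s x : ℂ)) ∧
      ∀ x ∈ k, S x = x := by
  let τ : K →+* ℂ :=
    { toFun := fun x => ((s ⟨x.1, x.2⟩ : IntermediateField.extendScalars hk) : ℂ)
      map_one' := by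
        have h1 : s 1 = 1 := map_one s
        exact congrArg Subtype.val h1
      map_mul' := fun x y => by
        have h1 := map_mul s (⟨x.1, x.2⟩ : IntermediateField.extendScalars hk) ⟨y.1, y.2⟩
        exact congrArg Subtype.val h1
      map_zero' := by
        have h1 : s 0 = 0 := map_zero s
        exact congrArg Subtype.val h1
      map_add' := fun x y => by
        have h1 := map_add s (⟨x.1, x.2⟩ : IntermediateField.extendScalars hk) ⟨y.1, y.2⟩
        exact congrArg Subtype.val h1 }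
  obtain ⟨S, hS⟩ := _root_.Pool.Agent.MUXU.u_AUE K hK τ
  refine ⟨S, fun x => hS ⟨x.1, x.2⟩, fun x hx => ?_⟩
  have h1 := hS ⟨x, hk hx⟩
  have h2 : s (algebraMap k _ ⟨x, hx⟩) = algebraMap k _ ⟨x, hx⟩ := s.commutes ⟨x, hx⟩
  exact h1.trans (congrArg Subtype.val h2)

theorem aut_ext' {K : IntermediateField ℚ ℂ} (hK : Algebra.IsAlgebraic ℚ K) (s : K ≃ₐ[ℚ] K) :
    ∃ S : ℂ ≃+* ℂ, ∀ x : K, S (x : ℂ) = (s x : ℂ) := by
  obtain ⟨S, hS⟩ := _root_.Pool.Agent.MUXU.u_AUE K hK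
    ((algebraMap K ℂ).comp (s : K →+* K))
  exact ⟨S, fun x => hS x⟩

theorem algK (a b : ℚ) : Algebra.IsAlgebraic ℚ (KK a b) :=
  haveI := finK a b
  Algebra.IsAlgebraic.of_finite ℚ (KK a b)

theorem degK (h : Gen w β β' a b) : ¬ 5 ∣ finrank ℚ (KK a b) := by
  have := finK a b
  have := galK a b
  intro hd
  rw [← IsGalois.card_aut_eq_finrank] at hd
  have : Finite (KK a b ≃ₐ[ℚ] KK a b) := inferInstance
  have : Fact (Nat.Prime 5) := ⟨by norm_num⟩
  obtain ⟨s, hs⟩ := exists_prime_orderOf_dvd_card' 5 hd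
  have h4 : s ^ 4 = 1 := by
    obtain ⟨S, hS⟩ := aut_ext' (algK a b) s
    refine AlgEquiv.ext fun x => Subtype.ext ?_
    have h1 : ∀ y ∈ KK a b, ((S : ℂ →+* ℂ).comp ((S : ℂ →+* ℂ).comp
        ((S : ℂ →+* ℂ).comp (S : ℂ →+* ℂ)))) y = (RingHom.id ℂ) y := by
      refine extK h _ _ ?_ ?_ ?_
      · exact (h.four S).1
      · exact (h.four S).2
      · exact fun z hz => four_root S hz
    have h2 := h1 x x.2
    have h3 : ((s ^ 4) x : KK a b) = s (s (s (s x))) := by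
      rw [show (4 : ℕ) = 1 + 1 + 1 + 1 from rfl, pow_add, pow_add, pow_add, pow_one]
      rfl
    rw [h3, ← hS, ← hS, ← hS, ← hS]
    exact h2
  have h5 := orderOf_dvd_of_pow_eq_one h4
  rw [hs] at h5
  omega

theorem commK (h : Gen w β β' a b) {k : IntermediateField ℚ ℂ} (hk : k ≤ KK a b)
    (hc : ∀ S T : ℂ ≃+* ℂ, (∀ x ∈ k, S x = x) → (∀ x ∈ k, T x = x) →
      S (T β) = T (S β) ∧ S (T β') = T (S β')) :
    ∀ s t : (IntermediateField.extendScalars hk) ≃ₐ[k] (IntermediateField.extendScalars hk),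
      s * t = t * s := by
  intro s t
  obtain ⟨S, hS, hS'⟩ := aut_ext hk (algK a b) s
  obtain ⟨T, hT, hT'⟩ := aut_ext hk (algK a b) t
  have h1 : ∀ y ∈ KK a b, ((S : ℂ →+* ℂ).comp (T : ℂ →+* ℂ)) y =
      ((T : ℂ →+* ℂ).comp (S : ℂ →+* ℂ)) y := by
    refine extK h _ _ ?_ ?_ ?_
    · exact (hc S T hS' hT').1
    · exact (hc S T hS' hT').2
    · exact fun z hz => comm_root S T hz
  refine AlgEquiv.ext fun x => Subtype.ext ?_
  show ((s (t x) : IntermediateField.extendScalars hk) : ℂ) =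
    ((t (s x) : IntermediateField.extendScalars hk) : ℂ)
  rw [← hS, ← hT, ← hT, ← hS]
  exact h1 x x.2

theorem coefQ {w : ℂ} (w5 : w ^ 2 = 5) {p q : ℚ} (h : (p : ℂ) + q * w = 0) : p = 0 ∧ q = 0 := by
  have hq : q = 0 := by
    by_contra hq
    have hq' : (q : ℂ) ≠ 0 := by exact_mod_cast hq
    refine no5 (-p / q) ?_
    have h1 : (((-p / q : ℚ)) : ℂ) = w := by
      push_cast
      rw [div_eq_iff hq']
      linear_combination -h
    have h2 : (((-p / q : ℚ)) : ℂ) ^ 2 = 5 := by rw [h1, w5]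
    exact_mod_cast h2
  refine ⟨?_, hq⟩
  rw [hq] at h
  have h1 : (p : ℂ) = 0 := by rw [← h]; norm_num
  exact_mod_cast h1

/-- numbers with a negative rational square in `ℚ(m)` -/
theorem sq_in {m : ℂ} {N' : ℚ} (hmm : m ^ 2 = (N' : ℂ)) (hn : ∀ q : ℚ, (q : ℂ) ≠ m) {p q d : ℚ}
    (hd : d < 0) (h : ((p : ℂ) + q * m) ^ 2 = (d : ℂ)) : q ^ 2 * N' = d := by
  have h1 : ((2 * p * q : ℚ) : ℂ) * m = ((d - p ^ 2 - q ^ 2 * N' : ℚ) : ℂ) := by
    push_cast
    rw [← hmm]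
    linear_combination h
  have h2 : p * q = 0 := by
    by_contra hc
    have h3 : (2 * p * q : ℚ) ≠ 0 := by
      intro h4
      apply hc
      linarith
    have h3' : ((2 * p * q : ℚ) : ℂ) ≠ 0 := by exact_mod_cast h3
    refine hn ((d - p ^ 2 - q ^ 2 * N') / (2 * p * q)) ?_
    rw [Rat.cast_div, div_eq_iff h3', ← h1, mul_comm]
  have h3 : d - p ^ 2 - q ^ 2 * N' = 0 := by
    have h4 : (2 * p * q : ℚ) = 0 := by linear_combination 2 * h2
    rw [h4] at h1
    have h5 : ((d - p ^ 2 - q ^ 2 * N' : ℚ) : ℂ) = 0 := by rw [← h1]; norm_num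
    exact_mod_cast h5
  rcases mul_eq_zero.1 h2 with h4 | h4
  · rw [h4] at h3
    linear_combination -h3
  · exfalso
    rw [h4] at h3
    nlinarith [sq_nonneg p]

end final

section cyc
open Module

/-- the field `ℚ(μ_5)` -/
noncomputable abbrev C5 : IntermediateField ℚ ℂ := IntermediateField.adjoin ℚ {z : ℂ | z ^ 5 = 1}

theorem extC (F G : ℂ →+* ℂ) (h : ∀ z, z ^ 5 = 1 → F z = G z) : ∀ x ∈ C5, F x = G x := by
  have h1 : C5 ≤ eqF F G := IntermediateField.adjoin_le_iff.2 fun z hz => h z hz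
  exact fun x hx => h1 hx

/-- the preimage of a field -/
noncomputable def stF (S : ℂ →+* ℂ) (C : IntermediateField ℚ ℂ) : IntermediateField ℚ ℂ where
  carrier := {x | S x ∈ C}
  mul_mem' := fun {x y} hx hy => by
    show S (x * y) ∈ C
    rw [map_mul]
    exact mul_mem hx hy
  one_mem' := by
    show S 1 ∈ C
    rw [map_one]
    exact one_mem _
  add_mem' := fun {x y} hx hy => by
    show S (x + y) ∈ C
    rw [map_add]
    exact add_mem hx hy
  zero_mem' := by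
    show S 0 ∈ C
    rw [map_zero]
    exact zero_mem _
  algebraMap_mem' := fun r => by
    show S (algebraMap ℚ ℂ r) ∈ C
    rw [eq_ratCast (algebraMap ℚ ℂ) r, map_ratCast]
    exact SubfieldClass.ratCast_mem _ _
  inv_mem' := fun x hx => by
    show S x⁻¹ ∈ C
    rw [map_inv₀]
    exact inv_mem hx

theorem root_mem {z : ℂ} (hz : z ^ 5 = 1) : z ∈ C5 := IntermediateField.subset_adjoin _ _ hz

theorem stabC (S : ℂ ≃+* ℂ) : ∀ x ∈ C5, S x ∈ C5 := by
  have h1 : C5 ≤ stF (S : ℂ →+* ℂ) C5 := IntermediateField.adjoin_le_iff.2 fun z hz => by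
    show S z ∈ C5
    refine root_mem ?_
    rw [← map_pow, show z ^ 5 = 1 from hz, map_one]
  exact fun x hx => h1 hx

theorem sum5 {z : ℂ} (hz : z ^ 5 = 1) (h1 : z ≠ 1) : z ^ 4 + z ^ 3 + z ^ 2 + z + 1 = 0 := by
  have h2 : (z - 1) * (z ^ 4 + z ^ 3 + z ^ 2 + z + 1) = 0 := by linear_combination hz
  exact (mul_eq_zero.1 h2).resolve_left (sub_ne_zero.2 h1)

theorem gauss {z : ℂ} (hz : z ^ 5 = 1) (h1 : z ≠ 1) : (z + z ^ 4 - z ^ 2 - z ^ 3) ^ 2 = 5 := by
  linear_combination (z ^ 4 - 3 * z ^ 3 + z ^ 2 + 5 * z - 5) * sum5 hz h1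

theorem w_pm {w : ℂ} (w5 : w ^ 2 = 5) {z : ℂ} (hz : z ^ 5 = 1) (h1 : z ≠ 1) :
    w = z + z ^ 4 - z ^ 2 - z ^ 3 ∨ w = -(z + z ^ 4 - z ^ 2 - z ^ 3) :=
  sq_eq_sq_iff_eq_or_eq_neg.1 (by rw [w5, gauss hz h1])

theorem prim5 : IsPrimitiveRoot (Complex.exp (2 * Real.pi * Complex.I / (5 : ℕ))) 5 :=
  Complex.isPrimitiveRoot_exp 5 (by norm_num)

theorem w_memC {w : ℂ} (w5 : w ^ 2 = 5) : w ∈ C5 := by
  have h1 := root_mem prim5.pow_eq_one
  rcases w_pm w5 prim5.pow_eq_one (prim5.ne_one (by norm_num)) with h | h <;> rw [h]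
  · exact sub_mem (sub_mem (add_mem h1 (pow_mem h1 4)) (pow_mem h1 2)) (pow_mem h1 3)
  · exact neg_mem (sub_mem (sub_mem (add_mem h1 (pow_mem h1 4)) (pow_mem h1 2)) (pow_mem h1 3))

theorem conj_root {z : ℂ} (hz : z ^ 5 = 1) : (starRingEnd ℂ) z = z ^ 4 := by
  have h1 : ‖z‖ = 1 := Complex.norm_eq_one_of_pow_eq_one hz (by norm_num)
  have h2 : z * (starRingEnd ℂ) z = 1 := by
    rw [Complex.mul_conj, Complex.normSq_eq_norm_sq, h1]
    norm_num
  have h0 : z ≠ 0 := by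
    rintro rfl
    norm_num at hz
  have h3 : z * (starRingEnd ℂ) z = z * z ^ 4 := by rw [h2, ← hz]; ring
  exact mul_left_cancel₀ h0 h3

theorem TT {w : ℂ} (w5 : w ^ 2 = 5) (T : ℂ ≃+* ℂ) (hT : T w = -w) {z : ℂ} (hz : z ^ 5 = 1) :
    T (T z) = (starRingEnd ℂ) z := by
  rw [conj_root hz]
  by_cases h1 : z = 1
  · rw [h1]
    simp
  have hw0 : w ≠ 0 := by
    rintro rfl
    norm_num at w5
  have hww : w ≠ -w := fun hc => hw0 (self_eq_neg.1 hc)
  obtain ⟨c, hc, h⟩ := root_pow T hz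
  have key : ∀ k l : ℕ, z ^ (5 * k + l) = z ^ l := fun k l => by
    rw [pow_add, pow_mul, hz, one_pow, one_mul]
  have k8 : z ^ 8 = z ^ 3 := key 1 3
  have k12 : z ^ 12 = z ^ 2 := key 2 2
  have k16 : z ^ 16 = z ^ 1 := key 3 1
  have k9 : z ^ 9 = z ^ 4 := key 1 4
  interval_cases c
  · exfalso
    apply h1
    apply T.injective
    rw [h, pow_zero, map_one]
  · exfalso
    apply hww
    rw [pow_one] at h
    rw [← hT]
    rcases w_pm w5 hz h1 with h2 | h2 <;> rw [h2] <;> simp [h]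
  · rw [h, map_pow, h, ← pow_mul]
  · rw [h, map_pow, h, ← pow_mul]
    exact k9
  · exfalso
    apply hww
    rw [← hT]
    have e1 : T (z + z ^ 4 - z ^ 2 - z ^ 3) = z + z ^ 4 - z ^ 2 - z ^ 3 := by
      simp only [map_add, map_sub, map_pow, h, ← pow_mul]
      norm_num
      rw [k16, k8, k12]
      ring
    rcases w_pm w5 hz h1 with h2 | h2
    · rw [h2, e1]
    · rw [h2, map_neg, e1]

variable {w β β' : ℂ} {a b : ℚ}

theorem Gen.exT (h : Gen w β β' a b) : ∃ T : ℂ ≃+* ℂ, T w = -w := by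
  have := finK a b
  have := galK a b
  by_contra hc
  push Not at hc
  have h1 : (⟨w, w_mem h⟩ : KK a b) ∈ (⊥ : IntermediateField ℚ (KK a b)) := by
    rw [IsGalois.mem_bot_iff_fixed]
    intro s
    obtain ⟨S, hS⟩ := aut_ext' (algK a b) s
    refine Subtype.ext ?_
    rw [← hS]
    show S w = w
    refine (sq_eq_sq_iff_eq_or_eq_neg.1 ?_).resolve_right (hc S)
    rw [← map_pow, h.w5, map_ofNat]
  obtain ⟨q, hq⟩ := IntermediateField.mem_bot.1 h1
  refine no5 q ?_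
  have h2 : ((q : ℚ) : ℂ) = w := by
    have h3 := congrArg (algebraMap (KK a b) ℂ) hq
    rw [eq_ratCast (algebraMap ℚ (KK a b)) q, map_ratCast] at h3
    exact h3
  have h3 : ((q : ℚ) : ℂ) ^ 2 = 5 := by rw [h2, h.w5]
  exact_mod_cast h3

theorem im_sq {z : ℂ} {c : ℝ} (hc : 0 ≤ c) (hz : z ^ 2 = -(c : ℂ)) :
    (starRingEnd ℂ) z = -z := by
  have h1 := real_sq (z := Complex.I * z) hc (by rw [mul_pow, Complex.I_sq, hz]; ring)
  rw [map_mul, Complex.conj_I] at h1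
  have h2 : Complex.I * ((starRingEnd ℂ) z + z) = 0 := by linear_combination -h1
  have h3 := (mul_eq_zero.1 h2).resolve_left Complex.I_ne_zero
  linear_combination h3

theorem Gen.notC (h : Gen w β β' a b) : β ∉ C5 ∧ β' ∉ C5 ∧ β * β' ∉ C5 := by
  obtain ⟨T, hT⟩ := h.exT
  have hww : w ≠ -w := fun hc => h.w0 (self_eq_neg.1 hc)
  have hTT : ∀ x ∈ C5, T (T x) = (starRingEnd ℂ) x := by
    intro x hx
    exact extC ((T : ℂ →+* ℂ).comp (T : ℂ →+* ℂ)) (starRingEnd ℂ) (fun z hz => TT h.w5 T hT hz) x hx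
  have hc : (starRingEnd ℂ) (β * β') = -(β * β') := by
    refine im_sq (c := ((5 * b ^ 2 - a ^ 2 : ℚ) : ℝ)) ?_ ?_
    · have h1 : 0 ≤ 5 * b ^ 2 - a ^ 2 := by linarith [h.N]
      exact_mod_cast h1
    · rw [h.mm]
      push_cast
      ring
  obtain ⟨e, e', he, he', h1⟩ := h.act T
  rcases h1 with ⟨h1, -⟩ | ⟨-, h1, h2⟩
  · rw [hT] at h1
    exact absurd h1.symm hww
  have he2 : (e : ℂ) * e = 1 := by exact_mod_cast he
  have he2' : (e' : ℂ) * e' = 1 := by exact_mod_cast he'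
  have hmm : T (T (β * β')) = β * β' := by
    simp only [map_mul, map_intCast, h1, h2]
    linear_combination ((e' : ℂ) * e' * β * β') * he2 + β * β' * he2'
  have h3 : β * β' ∉ C5 := by
    intro hm
    have h4 := hTT _ hm
    rw [hmm, hc] at h4
    exact h.m0 (self_eq_neg.1 h4)
  have hi : ∀ n : ℤ, (n : ℂ) ∈ C5 := fun n => intCast_mem C5 n
  refine ⟨fun hb => h3 ?_, fun hb => h3 ?_, h3⟩
  · have h5 := stabC T β hb
    rw [h1] at h5
    have h6 := mul_mem (hi e) h5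
    have h7 : (e : ℂ) * (e * β') = β' := by linear_combination β' * he2
    rw [h7] at h6
    exact mul_mem hb h6
  · have h5 := stabC T β' hb
    rw [h2] at h5
    have h6 := mul_mem (hi e') h5
    have h7 : (e' : ℂ) * (e' * β) = β := by linear_combination β * he2'
    rw [h7] at h6
    exact mul_mem h6 hb

/-- elements of `ℚ(μ_5)(β)` -/
theorem Gen.memE (h : Gen w β β' a b) {E : IntermediateField ℚ ℂ}
    (hE : E ≤ (IntermediateField.adjoin C5 {β}).restrictScalars ℚ) :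
    ∀ x ∈ E, ∃ u ∈ C5, ∃ v ∈ C5, x = u + v * β := by
  intro x hx
  have hα : (a : ℂ) + b * w ∈ C5 := add_mem (SubfieldClass.ratCast_mem _ _)
    (mul_mem (SubfieldClass.ratCast_mem _ _) (w_memC h.w5))
  have h1 : β ^ 2 = algebraMap C5 ℂ ⟨_, hα⟩ := h.hβ
  obtain ⟨p, q, h2⟩ := mem_Q h1 (hE hx)
  exact ⟨p, p.2, q, q.2, h2⟩

theorem Gen.notE (h : Gen w β β' a b) {E : IntermediateField ℚ ℂ}
    (hE : E ≤ (IntermediateField.adjoin C5 {β}).restrictScalars ℚ) : β' ∉ E := by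
  intro hc
  obtain ⟨u, hu, v, hv, h1⟩ := h.memE hE β' hc
  obtain ⟨n1, n2, n3⟩ := h.notC
  have hq : ∀ q : ℚ, (q : ℂ) ∈ C5 := fun q => SubfieldClass.ratCast_mem _ _
  have hα : β ^ 2 ∈ C5 := by
    rw [h.hβ]
    exact add_mem (hq a) (mul_mem (hq b) (w_memC h.w5))
  have hα' : β' ^ 2 ∈ C5 := by
    rw [h.hβ']
    exact sub_mem (hq a) (mul_mem (hq b) (w_memC h.w5))
  by_cases hu0 : u = 0
  · apply n3
    have h2 : β * β' = v * β ^ 2 := by rw [h1, hu0]; ring
    rw [h2]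
    exact mul_mem hv hα
  by_cases hv0 : v = 0
  · apply n2
    rw [h1, hv0, zero_mul, add_zero]
    exact hu
  apply n1
  have h2 : (2 * u * v) ≠ 0 := mul_ne_zero (mul_ne_zero two_ne_zero hu0) hv0
  have h3 : β = (β' ^ 2 - u ^ 2 - v ^ 2 * β ^ 2) / (2 * u * v) := by
    rw [eq_div_iff h2]
    linear_combination (-(β' + u + v * β)) * h1
  rw [h3]
  refine div_mem (sub_mem (sub_mem hα' (pow_mem hu 2)) (mul_mem (pow_mem hv 2) hα)) ?_
  exact mul_mem (mul_mem (by exact_mod_cast hq 2) hu) hv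

end cyc

end Pool.Agent.OB.QFTx

namespace Pool.Agent.OB

open Module QFTx


/-- (QFT) -/
theorem tq_QFT : Sq_QFT := by
  intro E₀ h4 w hwE w5 h₁ h₂
  have w5' : (⟨w, hwE⟩ : E₀) ^ 2 = 5 := Subtype.ext w5
  obtain ⟨ρ₀, hw, hr, hn, hf⟩ := exists_rho h4 ⟨w, hwE⟩ w5'
  obtain ⟨β₀, a, b, hρ, h0, hab, hgen⟩ := exists_beta _ w5' ρ₀ hr hn hf
  have hN := neg _ β₀ a b w5' hab h0 hgen h₁ h₂
  obtain ⟨β', hβ'⟩ : ∃ β' : ℂ, β' ^ 2 = a - b * w := IsAlgClosed.exists_pow_nat_eq _ (by norm_num)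
  obtain ⟨β, hβ⟩ : ∃ β : ℂ, β = β₀ := ⟨_, rfl⟩
  have hcast : ∀ q : ℚ, ((algebraMap ℚ E₀ q : E₀) : ℂ) = (q : ℂ) := fun q => by
    rw [eq_ratCast (algebraMap ℚ E₀) q]
    exact map_ratCast (algebraMap E₀ ℂ) q
  have hG : Gen w β β' a b := by
    refine ⟨w5, ?_, hβ', hN⟩
    rw [hβ]
    have h1 := congrArg (algebraMap E₀ ℂ) hab
    rw [map_pow, map_add, map_mul] at h1
    rw [← hcast, ← hcast]
    exact h1
  have hgen' : ∀ x ∈ E₀, ∃ p q r s : ℚ, x = p + q * w + (r + s * w) * β := by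
    intro x hx
    obtain ⟨p, q, r, s, hx'⟩ := hgen ⟨x, hx⟩
    refine ⟨p, q, r, s, ?_⟩
    have h1 := congrArg (algebraMap E₀ ℂ) hx'
    rw [map_add, map_add, map_mul, map_mul, map_add, map_mul] at h1
    rw [hβ, ← hcast, ← hcast, ← hcast, ← hcast]
    exact h1
  have hm0 := hG.m0
  have hβE₀ : β ∈ E₀ := by rw [hβ]; exact β₀.2
  have hwC : w ∈ C5 := w_memC w5
  -- the choice of `k`
  obtain ⟨κ, m, N', hm, hmm, hN', hy⟩ : ∃ (κ : ℤ) (m : ℂ) (N' : ℚ),
      ((κ = 1 ∧ m = β * β') ∨ (κ = -1 ∧ m = w * (β * β'))) ∧ m ^ 2 = (N' : ℂ) ∧ N' < 0 ∧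
      ∀ y : ℚ, y ^ 2 * N' ≠ -1 ∧ y ^ 2 * N' ≠ -3 := by
    rcases choose_N (a ^ 2 - 5 * b ^ 2) with h | h
    · exact ⟨1, β * β', _, Or.inl ⟨rfl, rfl⟩, hG.mm, hN, h⟩
    · refine ⟨-1, w * (β * β'), _, Or.inr ⟨rfl, rfl⟩, ?_, by linarith, h⟩
      rw [mul_pow, hG.mm, w5]
      push_cast
      ring
  have hnq : ∀ q : ℚ, (q : ℂ) ≠ m := by
    intro q hq
    have h1 : (q : ℂ) ^ 2 = (N' : ℂ) := by rw [hq, hmm]
    have h2 : q ^ 2 = N' := by exact_mod_cast h1
    nlinarith [sq_nonneg q]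
  have hmK : m ∈ KK a b := by
    rcases hm with ⟨-, rfl⟩ | ⟨-, rfl⟩
    · exact mul_mem (beta_mem hG) (beta'_mem hG)
    · exact mul_mem (w_mem hG) (mul_mem (beta_mem hG) (beta'_mem hG))
  have hmm' : m ^ 2 = algebraMap ℚ ℂ N' := hmm
  have kK : IntermediateField.adjoin ℚ {m} ≤ KK a b :=
    IntermediateField.adjoin_le_iff.2 (by
      intro x hx
      rw [Set.mem_singleton_iff.1 hx]
      exact hmK)
  have E₀K : E₀ ≤ KK a b := by
    intro x hx
    obtain ⟨p, q, r, s, h1⟩ := hgen' x hx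
    rw [h1]
    have hq : ∀ q : ℚ, (q : ℂ) ∈ KK a b := fun q => SubfieldClass.ratCast_mem _ _
    exact add_mem (add_mem (hq _) (mul_mem (hq _) (w_mem hG)))
      (mul_mem (add_mem (hq _) (mul_mem (hq _) (w_mem hG))) (beta_mem hG))
  have CK : C5 ≤ KK a b := IntermediateField.adjoin_le_iff.2 fun z hz => zeta_mem a b hz
  obtain ⟨E, hE⟩ : ∃ E : IntermediateField ℚ ℂ, E = E₀ ⊔ C5 := ⟨_, rfl⟩
  have E₀E : E₀ ≤ E := by rw [hE]; exact le_sup_left
  have CE : C5 ≤ E := by rw [hE]; exact le_sup_right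
  have EK : E ≤ KK a b := by
    rw [hE]
    exact sup_le E₀K CK
  have hβE : β ∈ E := E₀E hβE₀
  -- the elements of `E`
  have hED : E ≤ (IntermediateField.adjoin C5 {β}).restrictScalars ℚ := by
    have hC : ∀ x ∈ C5, x ∈ IntermediateField.adjoin C5 {β} := fun x hx =>
      (IntermediateField.adjoin C5 {β}).algebraMap_mem ⟨x, hx⟩
    have hb : β ∈ IntermediateField.adjoin C5 {β} :=
      IntermediateField.mem_adjoin_simple_self C5 β
    have hq : ∀ q : ℚ, (q : ℂ) ∈ IntermediateField.adjoin C5 {β} := fun q =>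
      SubfieldClass.ratCast_mem _ _
    rw [hE]
    refine sup_le (fun x hx => ?_) fun x hx => hC x hx
    obtain ⟨p, q, r, s, h1⟩ := hgen' x hx
    rw [h1]
    show _ ∈ IntermediateField.adjoin C5 {β}
    exact add_mem (add_mem (hq _) (mul_mem (hq _) (hC w hwC)))
      (mul_mem (add_mem (hq _) (mul_mem (hq _) (hC w hwC))) hb)
  have hgenE := hG.memE hED
  have hk : ∀ z ∈ IntermediateField.adjoin ℚ {m}, ∃ p q : ℚ, z = p + q * m := fun z hz =>
    mem_Q hmm' hz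
  have hmem : m ∈ IntermediateField.adjoin ℚ {m} := IntermediateField.mem_adjoin_simple_self ℚ m
  have hkq : ∀ p q : ℚ, (p : ℂ) + q * m ∈ IntermediateField.adjoin ℚ {m} := fun p q =>
    add_mem (SubfieldClass.ratCast_mem _ _) (mul_mem (SubfieldClass.ratCast_mem _ _) hmem)
  have hE' : β' ∉ E := hG.notE hED
  have hβ0 : β ≠ 0 := left_ne_zero_of_mul hm0
  -- fixed elements
  have hfix : ∀ (M : IntermediateField ℚ ℂ) (hM : M ≤ KK a b) (y : ℂ) (hy : y ∈ KK a b), y ∉ M →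
      ∃ S : ℂ ≃+* ℂ, (∀ x ∈ KK a b, S x ∈ KK a b) ∧ (∀ x ∈ KK a b, S.symm x ∈ KK a b) ∧
        (∀ x ∈ M, S x = x) ∧ S y ≠ y := by
    intro M hM y hy hyM
    have galM := gal_top hM (galK a b)
    obtain ⟨s, hs⟩ : ∃ s : (IntermediateField.extendScalars hM) ≃ₐ[M]
        (IntermediateField.extendScalars hM), s ⟨y, hy⟩ ≠ ⟨y, hy⟩ := by
      by_contra hc
      push Not at hc
      have hfd := finK a b
      have hfd' : FiniteDimensional M (IntermediateField.extendScalars hM) := by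
        let e : KK a b ≃ₐ[ℚ] (IntermediateField.extendScalars hM) :=
          { toFun := fun x => ⟨x.1, x.2⟩
            invFun := fun x => ⟨x.1, x.2⟩
            left_inv := fun _ => rfl
            right_inv := fun _ => rfl
            map_mul' := fun _ _ => rfl
            map_add' := fun _ _ => rfl
            commutes' := fun _ => rfl }
        have : FiniteDimensional ℚ (IntermediateField.extendScalars hM) :=
          Module.Finite.equiv e.toLinearEquiv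
        exact FiniteDimensional.right ℚ M _
      have h1 : (⟨y, hy⟩ : IntermediateField.extendScalars hM) ∈
          (⊥ : IntermediateField M (IntermediateField.extendScalars hM)) := by
        rw [IsGalois.mem_bot_iff_fixed]
        exact hc
      obtain ⟨t, ht⟩ := IntermediateField.mem_bot.1 h1
      apply hyM
      have h2 : (t : ℂ) = y := congrArg Subtype.val ht
      rw [← h2]
      exact t.2
    obtain ⟨S, hS, hSM⟩ := aut_ext hM (algK a b) s
    refine ⟨S, fun x hx => ?_, fun x hx => ?_, hSM, fun hc => hs (Subtype.ext ?_)⟩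
    · have h2 : S x = ((s ⟨x, hx⟩ : IntermediateField.extendScalars hM) : ℂ) := hS ⟨x, hx⟩
      rw [h2]
      exact (s ⟨x, hx⟩).2
    · have h1 := hS (s.symm ⟨x, hx⟩)
      rw [AlgEquiv.apply_symm_apply] at h1
      have h2 : S ((s.symm ⟨x, hx⟩ : IntermediateField.extendScalars hM) : ℂ) = x := h1
      have h3 : S.symm x = ((s.symm ⟨x, hx⟩ : IntermediateField.extendScalars hM) : ℂ) := by
        rw [RingEquiv.symm_apply_eq, h2]
      rw [h3]
      exact (s.symm ⟨x, hx⟩).2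
    · rw [← hS]
      exact hc
  have hww : w ≠ -w := fun hc => hG.w0 (self_eq_neg.1 hc)
  -- `ρ`
  obtain ⟨S₁, -, -, hS₁C, hS₁β⟩ := hfix C5 CK β (beta_mem hG) hG.notC.1
  have hS₁w : S₁ w = w := hS₁C w hwC
  have hS₁b : S₁ β = -β := by
    refine (sq_eq_sq_iff_eq_or_eq_neg.1 ?_).resolve_left hS₁β
    rw [← map_pow, hG.hβ, map_add, map_mul, map_ratCast, map_ratCast, hS₁w]
  have hS₁v : ∀ u ∈ C5, ∀ v ∈ C5, S₁ (u + v * β) = u - v * β := by
    intro u hu v hv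
    rw [map_add, map_mul, hS₁C u hu, hS₁C v hv, hS₁b]
    ring
  have hS₁E : ∀ x ∈ E, S₁ x ∈ E := by
    intro x hx
    obtain ⟨u, hu, v, hv, rfl⟩ := hgenE x hx
    rw [hS₁v u hu v hv]
    exact sub_mem (CE hu) (mul_mem (CE hv) hβE)
  have hS₁i : ∀ x ∈ E, S₁ (S₁ x) = x := by
    intro x hx
    obtain ⟨u, hu, v, hv, rfl⟩ := hgenE x hx
    rw [hS₁v u hu v hv, map_sub, map_mul, hS₁C u hu, hS₁C v hv, hS₁b]
    ring
  let ρ : E ≃ₐ[ℚ] E :=
    { toFun := fun x => ⟨S₁ x, hS₁E x x.2⟩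
      invFun := fun x => ⟨S₁ x, hS₁E x x.2⟩
      left_inv := fun x => Subtype.ext (hS₁i x x.2)
      right_inv := fun x => Subtype.ext (hS₁i x x.2)
      map_mul' := fun x y => Subtype.ext (map_mul S₁ (x : ℂ) (y : ℂ))
      map_add' := fun x y => Subtype.ext (map_add S₁ (x : ℂ) (y : ℂ))
      commutes' := fun r => Subtype.ext (by
        show S₁ (algebraMap ℚ ℂ r) = algebraMap ℚ ℂ r
        rw [eq_ratCast (algebraMap ℚ ℂ) r, map_ratCast]) }
  have hρv : ∀ x : E, ((ρ x : E) : ℂ) = S₁ x := fun x => rfl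
  -- `σ`
  obtain ⟨σ, hσK, hσK', hσE, hσβ''⟩ := hfix E EK β' (beta'_mem hG) hE'
  have hσw : σ w = w := hσE w (CE hwC)
  have hσβ : σ β = β := hσE β hβE
  have hσβ' : σ β' = -β' := by
    refine (sq_eq_sq_iff_eq_or_eq_neg.1 ?_).resolve_left hσβ''
    rw [← map_pow, hG.hβ', map_sub, map_mul, map_ratCast, map_ratCast, hσw]
  have hσm : σ m = -m := by
    rcases hm with ⟨-, rfl⟩ | ⟨-, rfl⟩
    · rw [map_mul, hσβ, hσβ']
      ring
    · rw [map_mul, map_mul, hσw, hσβ, hσβ']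
      ring
  have hσq : ∀ p q : ℚ, σ ((p : ℂ) + q * m) = (p : ℂ) + ((-q : ℚ) : ℂ) * m := fun p q => by
    rw [map_add, map_mul, map_ratCast, map_ratCast, hσm]
    push_cast
    ring
  -- the commutator on `ℚ(μ_5)`
  have hcC : ∀ s : ℂ ≃+* ℂ, ∀ x ∈ C5, σ.symm (s (σ (s.symm x))) = x := by
    intro s x hx
    have h1 : s.symm x ∈ C5 := stabC s.symm x hx
    rw [hσE _ (CE h1), RingEquiv.apply_symm_apply, RingEquiv.symm_apply_eq, hσE x (CE hx)]
  have hσsβ : σ.symm β = β := by rw [RingEquiv.symm_apply_eq, hσβ]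
  refine ⟨E, IntermediateField.adjoin ℚ {m}, KK a b, ρ, σ, hE, ?_⟩
  exact
    { kK := kK
      EK := EK
      fin := finK a b
      k2 := finrank_Q hmm' fun q hq => hnq q hq
      im := by
        refine ⟨m, hmem, fun hc => ?_⟩
        obtain ⟨r, hr⟩ := Complex.conj_eq_iff_real.1 hc
        rw [hr] at hmm
        have h1 : r ^ 2 = (N' : ℝ) := by exact_mod_cast hmm
        have h2 : (N' : ℝ) < 0 := by exact_mod_cast hN'
        nlinarith [sq_nonneg r]
      n4 := by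
        intro z hz hz2
        obtain ⟨p, q, rfl⟩ := hk z hz
        exact (hy q).1 (sq_in hmm hnq (by norm_num) (by rw [hz2]; norm_num))
      n3 := by
        intro z hz hz2
        obtain ⟨p, q, rfl⟩ := hk z hz
        exact (hy q).2 (sq_in hmm hnq (by norm_num) (by rw [hz2]; norm_num))
      galk := gal_top kK (galK a b)
      abk := commK hG kK fun S T hS hT => hG.comm hm S T (hS m hmem) (hT m hmem)
      galE := gal_top EK (galK a b)
      abE := commK hG EK fun S T hS hT =>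
        hG.commE S T (hS β hβE) (hT β hβE) (hS w (CE hwC)) (hT w (CE hwC))
      deg := degK hG
      w5 := w5
      mu := CE
      rhr := fun x => Subtype.ext (hS₁i x x.2)
      rhn := by
        refine ⟨⟨β, hβE⟩, fun hc => hS₁β ?_⟩
        exact congrArg Subtype.val hc
      rhf := by
        intro x
        constructor
        · intro hx
          have h1 : S₁ (x : ℂ) = x := congrArg Subtype.val hx
          obtain ⟨u, hu, v, hv, h2⟩ := hgenE x x.2
          rw [h2, hS₁v u hu v hv] at h1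
          have h3 : v * β = 0 := by linear_combination (-1 / 2 : ℂ) * h1
          rw [h2, h3, add_zero]
          exact hu
        · intro hx
          exact Subtype.ext (hS₁C x hx)
      sE := hσE
      sK := by
        intro x
        constructor
        · exact hσK x
        · intro hx
          have h1 := hσK' _ hx
          rwa [RingEquiv.symm_apply_apply] at h1
      sk := by
        intro x
        constructor
        · intro hx
          obtain ⟨p, q, rfl⟩ := hk x hx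
          rw [hσq]
          exact hkq _ _
        · intro hx
          obtain ⟨p, q, h1⟩ := hk _ hx
          have h2 : σ x = σ ((p : ℂ) + ((-q : ℚ) : ℂ) * m) := by
            rw [hσq, h1, neg_neg]
          rw [σ.injective h2]
          exact hkq _ _
      cm1 := by
        intro s hs hsw x hx
        obtain ⟨e, e', he, -, h1⟩ := hG.act s
        rcases h1 with ⟨-, h2, -⟩ | ⟨h2, -⟩
        · have h3 : (e : ℂ) * e = 1 := by exact_mod_cast he
          have e2 : s.symm β = e * β := by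
            rw [RingEquiv.symm_apply_eq, map_mul, map_intCast, h2]
            linear_combination (-β) * h3
          have e3 : σ.symm (s (σ (s.symm β))) = β := by
            rw [e2]
            simp only [map_mul, map_intCast, hσβ, h2, hσsβ]
            linear_combination β * h3
          obtain ⟨u, hu, v, hv, h5⟩ := hgenE x hx
          rw [h5]
          have e4 : σ.symm (s (σ (s.symm (u + v * β)))) = σ.symm (s (σ (s.symm u))) +
              σ.symm (s (σ (s.symm v))) * σ.symm (s (σ (s.symm β))) := by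
            simp only [map_add, map_mul]
          rw [e4, hcC s u hu, hcC s v hv, e3]
        · rw [hsw] at h2
          exact absurd h2 hww
      cm2 := by
        intro s hs hsw x
        obtain ⟨e, e', -, he', h1⟩ := hG.act s
        rcases h1 with ⟨h2, -⟩ | ⟨-, -, h2'⟩
        · rw [hsw] at h2
          exact absurd h2.symm hww
        · have h3 : (e' : ℂ) * e' = 1 := by exact_mod_cast he'
          have e2 : s.symm β = e' * β' := by
            rw [RingEquiv.symm_apply_eq, map_mul, map_intCast, h2']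
            linear_combination (-β) * h3
          have e3 : σ.symm (s (σ (s.symm β))) = -β := by
            rw [e2]
            simp only [map_mul, map_intCast, map_neg, hσβ', h2', hσsβ]
            linear_combination (-β) * h3
          obtain ⟨u, hu, v, hv, h5⟩ := hgenE x x.2
          rw [hρv, h5, hS₁v u hu v hv]
          have e4 : σ.symm (s (σ (s.symm (u + v * β)))) = σ.symm (s (σ (s.symm u))) +
              σ.symm (s (σ (s.symm v))) * σ.symm (s (σ (s.symm β))) := by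
            simp only [map_add, map_mul]
          rw [e4, hcC s u hu, hcC s v hv, e3]
          ring }

end Pool.Agent.OB


end

section

/-!
# OB, corollary for `p = 5`: RAT, the field of the fifth roots of unity
-/

set_option autoImplicit false

open NumberField IsDedekindDomain Finset
open scoped nonZeroDivisors Pointwise

namespace Pool.Agent.OB

open _root_.Pool.Agent.RI _root_.Pool.Agent.RID

theorem tq_RAT (h1 : Sq_REG) (h2 : Sq_CY5) (h3 : Sq_SBF) : Sq_RAT := by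
  intro B _ hB hmono n c
  haveI : Fact (Nat.Prime 5) := ⟨by norm_num⟩
  obtain ⟨h4, h5⟩ := h2
  have h6 := h1 5 (by norm_num) (IntermediateField.adjoin ℚ {z : ℂ | z ^ 5 = 1}) B rfl hB hmono
    (by rw [h5]; norm_num) n
  rw [_root_.Pool.Agent.MUXK.Finx.classNo_eq] at h6
  refine h3 5 ↥(IntermediateField.adjoin ℚ {z : ℂ | z ^ 5 = 1} ⊔ B n)
    ↥(IntermediateField.adjoin ℚ {z : ℂ | z ^ 5 = 1} ⊔ B n) ?_ h6 c
  rw [Module.finrank_self]
  norm_num

end Pool.Agent.OB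


end

section

/-!
# OBQ_REG: regular primes, the class numbers of `ℚ(μ_p) B_n` (helper16)
-/

set_option autoImplicit false

open NumberField IsDedekindDomain Finset
open scoped nonZeroDivisors Pointwise

namespace Pool.Agent.OB

open _root_.Pool.Agent.RI _root_.Pool.Agent.RID _root_.Pool.Agent.MU3 _root_.Pool.Agent.MUXK
  _root_.Pool.Agent.MUXZ _root_.Pool.Agent.NSI

namespace QREG

lemma cyc1 (p : ℕ) [hp : Fact p.Prime] :
    IsCyclotomicExtension {p} ℚ ↥(IntermediateField.adjoin ℚ {z : ℂ | z ^ p = 1}) := by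
  have hN : p ≠ 0 := hp.out.ne_zero
  have h := IntermediateField.isCyclotomicExtension_adjoin_of_exists_isPrimitiveRoot
    ({p} : Set ℕ) ℚ ℂ (fun n hn _ => by
      rw [Set.mem_singleton_iff] at hn
      rw [hn]
      exact ⟨_, Complex.isPrimitiveRoot_exp _ hN⟩)
  have hset : {x : ℂ | ∃ n ∈ ({p} : Set ℕ), n ≠ 0 ∧ x ^ n = 1} = {z : ℂ | z ^ p = 1} := by
    ext x
    simp [hp.out.ne_zero]
  rw [hset] at h
  exact h

lemma inf_card (K : Type) [Field K] [NumberField K] (h : InfinitePlace.nrRealPlaces K = 0) :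
    2 * Nat.card (InfinitePlace K) = Module.finrank ℚ K := by
  have h1 := InfinitePlace.card_add_two_mul_card_eq_rank K
  have h2 := InfinitePlace.card_eq_nrRealPlaces_add_nrComplexPlaces K
  rw [Nat.card_eq_fintype_card, h2, ← h1, h]
  ring

lemma under_eq (p : ℕ) [hp : Fact p.Prime] (K : Type) [Field K] [NumberField K]
    (v : HeightOneSpectrum (𝓞 K)) (hv : (p : 𝓞 K) ∈ v.asIdeal) :
    v.asIdeal.LiesOver (Ideal.span {(p : ℤ)}) := by
  have hmax : (Ideal.span {(p : ℤ)}).IsMaximal := Int.ideal_span_isMaximal_of_prime p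
  refine ⟨hmax.eq_of_le ?_ ?_⟩
  · have := v.isPrime
    exact (Ideal.IsPrime.under ℤ v.asIdeal).ne_top
  · rw [Ideal.span_singleton_le_iff_mem, Ideal.under_def, Ideal.mem_comap]
    simpa using hv

lemma one_prime (p : ℕ) [hp : Fact p.Prime] (K : Type) [Field K] [NumberField K]
    [hK : IsCyclotomicExtension {p} ℚ K] (v v' : HeightOneSpectrum (𝓞 K))
    (hv : (p : 𝓞 K) ∈ v.asIdeal) (hv' : (p : 𝓞 K) ∈ v'.asIdeal) : v = v' := by
  have h1 := under_eq p K v hv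
  have h2 := under_eq p K v' hv'
  have h3 := v.isPrime
  have h4 := v'.isPrime
  have : NeZero p := ⟨hp.out.ne_zero⟩
  apply HeightOneSpectrum.ext
  rw [IsCyclotomicExtension.Rat.eq_span_zeta_sub_one_of_liesOver' p K
      (IsCyclotomicExtension.zeta_spec p ℚ K) v.asIdeal,
    IsCyclotomicExtension.Rat.eq_span_zeta_sub_one_of_liesOver' p K
      (IsCyclotomicExtension.zeta_spec p ℚ K) v'.asIdeal]

lemma finS (p : ℕ) [hp : Fact p.Prime] (K : Type) [Field K] [NumberField K]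
    [hK : IsCyclotomicExtension {p} ℚ K] :
    ∃ S : Finset (HeightOneSpectrum (𝓞 K)), S.card ≤ 1 ∧ ∀ v : HeightOneSpectrum (𝓞 K),
      (p : 𝓞 K) ∈ v.asIdeal → v ∈ S := by
  classical
  obtain ⟨S, hS⟩ := Finx.finS p K
  refine ⟨S.filter (fun v => (p : 𝓞 K) ∈ v.asIdeal), ?_, fun v hv =>
    Finset.mem_filter.2 ⟨hS v hv, hv⟩⟩
  refine Finset.card_le_one.2 fun a ha b hb => ?_
  exact one_prime p K a b (Finset.mem_filter.1 ha).2 (Finset.mem_filter.1 hb).2

/-- Cauchy -/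
lemma of_rkp (p : ℕ) [hp : Fact p.Prime] (Q : Type) [CommGroup Q] [Finite Q]
    (h : padicValNat p (Nat.card {c : Q // c ^ p = 1}) = 0) : ¬ p ∣ Nat.card Q := by
  intro hd
  obtain ⟨x, hx⟩ := exists_prime_orderOf_dvd_card' p hd
  let H : Subgroup Q := (powMonoidHom p : Q →* Q).ker
  have e : Nat.card {c : Q // c ^ p = 1} = Nat.card H :=
    Nat.card_congr (Equiv.refl _)
  have hxH : x ∈ H := by
    show x ^ p = 1
    rw [← hx]
    exact pow_orderOf_eq_one x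
  have h1 : p ∣ Nat.card H := by
    have h2 := orderOf_dvd_natCard (⟨x, hxH⟩ : H)
    have h3 : orderOf (⟨x, hxH⟩ : H) = p := by
      rw [← hx]
      exact (Subgroup.orderOf_mk x hxH)
    rwa [h3] at h2
  rw [e] at h
  have h0 : Nat.card H ≠ 0 := Nat.card_pos.ne'
  rcases padicValNat.eq_zero_iff.1 h with h' | h' | h'
  · exact hp.out.ne_one h'
  · exact h0 h'
  · exact h' h1

end QREG

open _root_.Pool.Agent.OB.QREG in
theorem tq_REG (h1 : Sq_CHS) : Sq_REG := by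
  intro p hp hp2 C _ B _ hC hB hmono hcl n
  have hpp : p.Prime := hp.out
  have hcyC : IsCyclotomicExtension {p} ℚ ↥C := by
    rw [hC]
    exact cyc1 p
  have : NeZero p := ⟨hpp.ne_zero⟩
  have hfin : Module.finrank ℚ C = p - 1 := by
    rw [IsCyclotomicExtension.finrank (K := ℚ) (n := p) ↥C
      (Polynomial.cyclotomic.irreducible_rat hpp.pos), Nat.totient_prime hpp]
  have h2 := hpp.two_le
  have h3 : 2 < p := by omega
  have hcop : ¬ p ∣ Module.finrank ℚ C := by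
    rw [hfin]
    intro hd
    have := Nat.le_of_dvd (by omega) hd
    omega
  have hCL : C ≤ C ⊔ B n := le_sup_left
  let aKL : Algebra C ↥(C ⊔ B n) := algC hCL
  obtain ⟨g, ord, fix, -⟩ := _root_.MU3.Gal.overK p C B hcop hB hmono n
  have hcyc : CycExt C C ↥(C ⊔ B n) g (p ^ n) := by
    refine ⟨ord, fun x => ?_⟩
    rw [fix x]
    constructor
    · intro hx
      exact ⟨⟨(x : ℂ), hx⟩, rfl⟩
    · rintro ⟨y, rfl⟩
      exact y.2
  have hζ := IsCyclotomicExtension.zeta_spec p ℚ ↥C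
  have rC : InfinitePlace.nrRealPlaces ↥C = 0 :=
    NumberField.InfinitePlace.IsPrimitiveRoot.nrRealPlaces_eq_zero_of_two_lt h3 hζ
  have rL : InfinitePlace.nrRealPlaces ↥(C ⊔ B n) = 0 :=
    NumberField.InfinitePlace.IsPrimitiveRoot.nrRealPlaces_eq_zero_of_two_lt h3
      (hζ.map_of_injective (algebraMap C ↥(C ⊔ B n)).injective)
  have hdeg : Module.finrank ℚ ↥(C ⊔ B n) = Module.finrank ℚ C * p ^ n := by
    rw [← _root_.MU3.Gal.degree C (B n) hcop (hB n)]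
    exact (Module.finrank_mul_finrank ℚ C
      (IntermediateField.extendScalars (le_sup_left : C ≤ C ⊔ B n))).symm
  have hinf : Nat.card (InfinitePlace ↥(C ⊔ B n)) = p ^ n * Nat.card (InfinitePlace C) := by
    have e1 := inf_card ↥C rC
    have e2 := inf_card ↥(C ⊔ B n) rL
    rw [hdeg, ← e1] at e2
    have e3 : 2 * Nat.card (InfinitePlace ↥(C ⊔ B n)) =
        2 * (p ^ n * Nat.card (InfinitePlace C)) := by rw [e2]; ring
    exact Nat.eq_of_mul_eq_mul_left two_pos e3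
  obtain ⟨S, hS1, hS⟩ := finS p ↥C
  have hch := h1 p n C ↥(C ⊔ B n) g hcyc hinf S (by
    intro w hw
    have h2 := _root_.MU3.n_RAMP p n C (B n) (hB n) w hw
    have hne : w.asIdeal.under (𝓞 C) ≠ ⊥ := by
      intro h0
      rw [h0, Ideal.mem_bot] at h2
      exact hpp.ne_zero (by exact_mod_cast h2)
    have := w.isPrime
    exact ⟨⟨w.asIdeal.under (𝓞 C), inferInstance, hne⟩, hS _ h2, rfl⟩)
  have hc0 : padicValNat p (NumberField.classNumber C) = 0 := by
    apply padicValNat.eq_zero_of_not_dvd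
    rwa [← Finx.classNo_eq]
  have hr : padicValNat p ((_root_.MU3.PI ↥(C ⊔ B n)).relIndex
      ((_root_.MU3.PI ↥(C ⊔ B n)).comap (dg g))) = 0 := by
    rw [hc0, zero_add] at hch
    have : n * S.card ≤ n * 1 := Nat.mul_le_mul_left n hS1
    omega
  have hg : g ^ (p ^ n) = 1 := by
    rw [← ord]
    exact pow_orderOf_eq_one g
  have hrk := _root_.MU3.n_NILR _root_.MU3.n_NIL p (p ^ n) C ↥(C ⊔ B n) g (fun b => by
    obtain ⟨y, hy⟩ := K_MAINKX.iter_mem p n g hg b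
    exact ⟨y, 1, by rw [hy, map_one, mul_one]⟩)
  rw [hr, mul_zero] at hrk
  have hfq : Finite (J ↥(C ⊔ B n) ⧸ _root_.MU3.PI ↥(C ⊔ B n)) := CL.finite_quot _
  have := of_rkp p (J ↥(C ⊔ B n) ⧸ _root_.MU3.PI ↥(C ⊔ B n)) (Nat.le_zero.1 hrk)
  rw [Finx.classNo_eq, CL.classNumber_eq]
  exact this

end Pool.Agent.OB


end

section

/-!
# OB, corollary for `p = 5`: SBF, fields of degree prime to `p` over which the class number is prime to `p`
-/

set_option autoImplicit false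

open NumberField IsDedekindDomain Finset
open scoped nonZeroDivisors Pointwise

namespace Pool.Agent.OB

open _root_.Pool.Agent.RI _root_.Pool.Agent.RID

theorem tq_SBF : Sq_SBF := by
  intro p hp L M _ _ _ _ _ _ hd hh c
  have h1 : ∀ b : J M, b ^ NumberField.classNumber M ∈ (prin : Mˣ →* J M).range := by
    intro b
    have h2 := Subgroup.pow_index_mem (prin : Mˣ →* J M).range b
    have h3 : (prin : Mˣ →* J M).range.index = NumberField.classNumber M := by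
      rw [CL.classNumber_eq M]
      rfl
    rwa [h3] at h2
  obtain ⟨x, hx⟩ := h1 (ext L M c)
  have h4 : c ^ (NumberField.classNumber M * Module.finrank L M) =
      prin (Units.map (Algebra.norm L : M →* L) x) := by
    apply ext_injective L M
    rw [← CL.nm_prin, hx, ← map_pow, CL.nm_ext, pow_mul, map_pow]
  have h5 : IsCoprime ((NumberField.classNumber M * Module.finrank L M : ℕ) : ℤ) (p : ℤ) := by
    rw [Nat.isCoprime_iff_coprime]
    refine (Nat.Coprime.symm ?_)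
    rw [hp.out.coprime_iff_not_dvd]
    intro h6
    rcases (Nat.Prime.dvd_mul hp.out).1 h6 with h7 | h7
    · exact hh h7
    · exact hd h7
  obtain ⟨u, v, huv⟩ := h5
  refine ⟨c ^ v, (Units.map (Algebra.norm L : M →* L) x) ^ u, ?_⟩
  rw [map_zpow, ← h4, ← zpow_natCast (c ^ v) p, ← zpow_natCast c (_ * _), ← zpow_mul, ← zpow_mul,
    ← zpow_add]
  have h8 : v * (p : ℤ) + ((NumberField.classNumber M * Module.finrank L M : ℕ) : ℤ) * u = 1 := by
    linarith
  rw [h8, zpow_one]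

end Pool.Agent.OB


end

section

/-!
# OB, corollary for `p = 5`: QRT, the class numbers of `E B_n`
-/

set_option autoImplicit false

open NumberField IsDedekindDomain Finset
open scoped nonZeroDivisors Pointwise

namespace Pool.Agent.OB

open _root_.Pool.Agent.RI _root_.Pool.Agent.RID _root_.Pool.Agent.MU3 _root_.Pool.Agent.MUXK
  _root_.Pool.Agent.MUXZ _root_.Pool.Agent.NSI

namespace QRT

/-- `NilC` is monotone in the exponent. -/
lemma nilMono {F : Type} [Field F] {k K₀ : IntermediateField ℚ ℂ}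
    {B : ℕ → IntermediateField ℚ ℂ} [∀ n, FiniteDimensional ℚ ↥(K₀ ⊔ B n)]
    {hk₀ : ∀ n, k ≤ K₀ ⊔ B n} {hkK : k ≤ K₀}
    {χ : letI := algC hkK; (↥K₀ ≃ₐ[k] ↥K₀) →* Fˣ} {l l' : ℕ} (h : l ≤ l')
    (hN : NilC F k K₀ B hk₀ hkK χ l) : NilC F k K₀ B hk₀ hkK χ l' := by
  intro n g hg f hf b
  obtain ⟨r, rfl⟩ := Nat.exists_eq_add_of_le h
  rw [Function.iterate_add_apply]
  exact hN n g hg f hf _

/-- The characters of a finite group. -/
lemma finChar (G F : Type) [Group G] [Finite G] [Field F] : Finite (G →* Fˣ) := by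
  have h1 : LinearIndependent F (fun f : G →* F => (f : G → F)) :=
    linearIndependent_monoidHom G F
  have h2 : Finite (G →* F) := _root_.LinearIndependent.finite_of_isNoetherian h1
  refine Finite.of_injective (fun χ : G →* Fˣ => (Units.coeHom F).comp χ) ?_
  intro χ χ' h
  ext g
  exact DFunLike.congr_fun h g

/-- The layers are stable under automorphisms. -/
lemma layStable (p n : ℕ) [Fact p.Prime] (B : IntermediateField ℚ ℂ) (h : IsLayer p n B)
    (σ : ℂ ≃+* ℂ) : ∀ x, x ∈ B ↔ σ x ∈ B := by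
  obtain ⟨-, hG, -⟩ := LAY_thm p n B h
  have hn : @Normal ℚ B _ _ (IntermediateField.algebra' B) := by
    have h1 := hG.to_normal
    have e : ∀ a b : Algebra ℚ B, @Normal ℚ B _ _ a → @Normal ℚ B _ _ b := by
      intro a b h
      rw [Subsingleton.elim b a]
      exact h
    exact e _ _ h1
  have key : ∀ ρ : ℂ ≃+* ℂ, ∀ x ∈ B, ρ x ∈ B := by
    intro ρ x hx
    exact @LAY.mem_of_normal ℚ ℂ _ _ _ B hn
      (@RingHom.toRatAlgHom _ _ _ _ _ _ ((ρ : ℂ →+* ℂ).comp (algebraMap B ℂ))) ⟨x, hx⟩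
  intro x
  constructor
  · exact key σ x
  · intro hx
    have h1 := key σ.symm _ hx
    rwa [σ.symm_apply_apply] at h1

/-- `√5` and the fifth roots of unity. -/
lemma five {K : Type} [Field K] [CharZero K] (ζ : K) (hζ : IsPrimitiveRoot ζ 5) :
    (ζ + ζ ^ 4 - ζ ^ 2 - ζ ^ 3) ^ 2 = 5 := by
  have h := hζ.geom_sum_eq_zero (by norm_num)
  simp only [Finset.sum_range_succ, Finset.sum_range_zero] at h
  linear_combination (ζ ^ 4 - 3 * ζ ^ 3 + ζ ^ 2 + 5 * (ζ - 1)) * h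

lemma wsq {F : Type} [Field F] [CharP F 5] {K : Type} [Field K] [CharZero K] (s : K →+* K)
    (ζ : K) (hζ : IsPrimitiveRoot ζ 5) (w : K) (hw : w ^ 2 = 5) (c : ℕ) (hc : s ζ = ζ ^ c) :
    (s w = w ∧ (c : F) ^ 2 = 1) ∨ (s w = -w ∧ (c : F) ^ 2 = -1) := by
  have h5 : ζ ^ 5 = 1 := hζ.pow_eq_one
  have hF : (5 : F) = 0 := by
    have := CharP.cast_eq_zero F 5
    exact_mod_cast this
  obtain ⟨q, r, hr, rfl⟩ : ∃ q r, r < 5 ∧ c = 5 * q + r :=
    ⟨c / 5, c % 5, Nat.mod_lt _ (by norm_num), (Nat.div_add_mod c 5).symm⟩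
  have hc' : s ζ = ζ ^ r := by
    rw [hc, pow_add, pow_mul, h5, one_pow, one_mul]
  have hcF : ((5 * q + r : ℕ) : F) = (r : F) := by
    push_cast
    rw [hF, zero_mul, zero_add]
  rw [hcF]
  have hw' : w = ζ + ζ ^ 4 - ζ ^ 2 - ζ ^ 3 ∨ w = -(ζ + ζ ^ 4 - ζ ^ 2 - ζ ^ 3) := by
    rw [← sq_eq_sq_iff_eq_or_eq_neg, hw, five ζ hζ]
  have hg : (s (ζ + ζ ^ 4 - ζ ^ 2 - ζ ^ 3) = ζ + ζ ^ 4 - ζ ^ 2 - ζ ^ 3 ∧ (r : F) ^ 2 = 1) ∨
      (s (ζ + ζ ^ 4 - ζ ^ 2 - ζ ^ 3) = -(ζ + ζ ^ 4 - ζ ^ 2 - ζ ^ 3) ∧ (r : F) ^ 2 = -1) := by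
    have e1 : s (ζ + ζ ^ 4 - ζ ^ 2 - ζ ^ 3) = s ζ + s ζ ^ 4 - s ζ ^ 2 - s ζ ^ 3 := by
      simp only [map_add, map_sub, map_pow]
    rw [e1, hc']
    have h0 : r ≠ 0 := by
      rintro rfl
      rw [pow_zero, ← map_one s] at hc'
      exact hζ.ne_one (by norm_num) (s.injective hc')
    interval_cases r
    · exact absurd rfl h0
    · left
      refine ⟨by ring, by push_cast; ring⟩
    · right
      refine ⟨?_, ?_⟩
      · linear_combination (ζ ^ 3 - ζ) * h5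
      · push_cast
        linear_combination hF
    · right
      refine ⟨?_, ?_⟩
      · linear_combination (ζ ^ 7 + ζ ^ 2 - ζ - ζ ^ 4) * h5
      · push_cast
        linear_combination 2 * hF
    · left
      refine ⟨?_, ?_⟩
      · linear_combination (ζ ^ 11 + ζ ^ 6 + ζ - ζ ^ 3 - ζ ^ 7 - ζ ^ 2) * h5
      · push_cast
        linear_combination 3 * hF
  rcases hg with ⟨g1, g2⟩ | ⟨g1, g2⟩
  · left
    refine ⟨?_, g2⟩
    rcases hw' with h | h
    · rw [h, g1]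
    · rw [h, map_neg, g1]
  · right
    refine ⟨?_, g2⟩
    rcases hw' with h | h
    · rw [h, g1]
    · rw [h, map_neg, g1]

end QRT

open _root_.Pool.Agent.OB.QRT in
theorem tq_QRT (h0 : O_NIL) (h1 : Sq_BAX) (h2 : Sq_DSC) (h3 : Sq_OCC) (h4 : S_CNJ)
    (h5 : _root_.Pool.Agent.MUXU.Su_AUE) : Sq_QRT := by
  classical
  intro E k K₀ w ρ σ hQ B hlay hmono
  have : Fact (Nat.Prime 5) := ⟨by norm_num⟩
  have hfd : FiniteDimensional ℚ K₀ := hQ.fin
  have hfdle : ∀ {A A' : IntermediateField ℚ ℂ}, A ≤ A' → FiniteDimensional ℚ A' →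
      FiniteDimensional ℚ A := by
    intro A A' hle hA'
    exact FiniteDimensional.of_injective (IntermediateField.inclusion hle).toLinearMap
      (IntermediateField.inclusion hle).injective
  have hfdE : FiniteDimensional ℚ E := hfdle hQ.EK hfd
  have hfdk : FiniteDimensional ℚ k := hfdle hQ.kK hfd
  have hfB : ∀ n, FiniteDimensional ℚ (B n) := fun n => (LAY_thm 5 n (B n) (hlay n)).1
  have hfKB : ∀ n, FiniteDimensional ℚ ↥(K₀ ⊔ B n) := fun n =>
    IntermediateField.finiteDimensional_sup K₀ (B n)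
  have hfEB : ∀ n, FiniteDimensional ℚ ↥(E ⊔ B n) := fun n =>
    IntermediateField.finiteDimensional_sup E (B n)
  have hBk : BasX 5 k K₀ B := h1 5 k K₀ B hQ.kK hQ.galk hQ.abk hQ.deg hlay hmono
  have hBE : BasX 5 E K₀ B := h1 5 E K₀ B hQ.EK hQ.galE hQ.abE hQ.deg hlay hmono
  have hmulE : Module.finrank ℚ E * Module.finrank E (IntermediateField.extendScalars hBE.hk) =
      Module.finrank ℚ K₀ := Module.finrank_mul_finrank ℚ E (IntermediateField.extendScalars hBE.hk)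
  have hmulk : Module.finrank ℚ k * Module.finrank k (IntermediateField.extendScalars hBk.hk) =
      Module.finrank ℚ K₀ := Module.finrank_mul_finrank ℚ k (IntermediateField.extendScalars hBk.hk)
  have hdE : ¬ 5 ∣ Module.finrank ℚ E := fun h => hQ.deg (hmulE ▸ h.mul_right _)
  have hdKE : ¬ 5 ∣ Module.finrank E (IntermediateField.extendScalars hBE.hk) := fun h =>
    hQ.deg (hmulE ▸ h.mul_left _)
  have hdKk : ¬ 5 ∣ Module.finrank k (IntermediateField.extendScalars hBk.hk) := fun h =>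
    hQ.deg (hmulk ▸ h.mul_left _)
  have hBS : BasX 5 E E B := OCC.basSelf h1 5 E B hdE hlay hmono
  have hkK : k ≤ K₀ := hQ.kK
  have hk₀ : ∀ n, k ≤ K₀ ⊔ B n := fun n => hkK.trans le_sup_left
  have hEB : ∀ n, E ⊔ B n ≤ K₀ ⊔ B n := fun n => sup_le_sup_right hQ.EK _
  -- the root of unity
  obtain ⟨ζ₀, hζ₀⟩ : ∃ ζ : ℂ, IsPrimitiveRoot ζ 5 := ⟨_, Complex.isPrimitiveRoot_exp 5 (by norm_num)⟩
  have hζE : ζ₀ ∈ E := hQ.mu (IntermediateField.subset_adjoin ℚ _ hζ₀.pow_eq_one)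
  have hζK : ζ₀ ∈ K₀ := hQ.EK hζE
  have hζK' : IsPrimitiveRoot (⟨ζ₀, hζK⟩ : K₀) 5 := by
    refine IsPrimitiveRoot.of_map_of_injective (f := algebraMap K₀ ℂ) ?_
      (algebraMap K₀ ℂ).injective
    exact hζ₀
  have hwE : w ∈ E := by
    have h6 : w = ζ₀ + ζ₀ ^ 4 - ζ₀ ^ 2 - ζ₀ ^ 3 ∨ w = -(ζ₀ + ζ₀ ^ 4 - ζ₀ ^ 2 - ζ₀ ^ 3) := by
      rw [← sq_eq_sq_iff_eq_or_eq_neg, hQ.w5, five ζ₀ hζ₀]
    have h7 : ζ₀ + ζ₀ ^ 4 - ζ₀ ^ 2 - ζ₀ ^ 3 ∈ E :=
      sub_mem (sub_mem (add_mem hζE (pow_mem hζE 4)) (pow_mem hζE 2)) (pow_mem hζE 3)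
    rcases h6 with h6 | h6
    · rw [h6]; exact h7
    · rw [h6]; exact neg_mem h7
  let akK : Algebra k ↥K₀ := algC hkK
  have tow : IsScalarTower ℚ k K₀ := IsScalarTower.of_algebraMap_eq (fun _ => rfl)
  have hfdkK : FiniteDimensional k K₀ := Module.Finite.of_restrictScalars_finite ℚ k K₀
  let F := AlgebraicClosure (ZMod 5)
  have hchF : CharP F 5 := by
    have := charP_of_injective_algebraMap (algebraMap (ZMod 5) F).injective 5
    exact this
  -- the characters which occur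
  let X : Set ((↥K₀ ≃ₐ[k] ↥K₀) →* Fˣ) := {χ |
    (∀ a : ↥K₀ ≃ₐ[k] ↥K₀, (∀ x : ↥K₀, (x : ℂ) ∈ E → a x = x) → χ a = 1) ∧
    (∀ a : ↥K₀ ≃ₐ[k] ↥K₀, (∀ (x : ↥K₀) (y : E), (x : ℂ) = y → ((a x : ↥K₀) : ℂ) = ρ y) →
      ((χ a : Fˣ) : F) = -1)}
  have hXnil : ∀ χ ∈ X, ∃ l, NilC F k K₀ B hk₀ hkK χ l := by
    intro χ hχ
    obtain ⟨j, χ', hj1, hj2, hj3, l, hl⟩ := h0 5 le_rfl k K₀ B hBk hk₀ hkK hQ.k2 hQ.im hQ.n4 hQ.n3
      hdKk ⟨ζ₀, hζK, hζ₀⟩ χ
    -- `s ζ = ζ ^ c`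
    have hc : ∀ s : ↥K₀ ≃ₐ[k] ↥K₀, ∃ c : ℕ, s ⟨ζ₀, hζK⟩ = ⟨ζ₀, hζK⟩ ^ c ∧
        ∀ z : ↥K₀, z ^ 5 = 1 → s z = z ^ c := by
      intro s
      have h6 : (s ⟨ζ₀, hζK⟩) ^ 5 = 1 := by rw [← map_pow, hζK'.pow_eq_one, map_one]
      obtain ⟨c, -, hc⟩ := hζK'.eq_pow_of_pow_eq_one h6
      refine ⟨c, hc.symm, fun z hz => ?_⟩
      obtain ⟨i, -, hi⟩ := hζK'.eq_pow_of_pow_eq_one hz
      rw [← hi, map_pow, ← hc, ← pow_mul, ← pow_mul, mul_comm]
    have hj : j = 0 ∨ j = 2 := by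
      obtain ⟨i, hi⟩ := hj2
      omega
    rcases hj with rfl | rfl
    · have h6 : χ' = χ := by
        ext s
        obtain ⟨c, -, hc⟩ := hc s
        rw [hj3 s c hc, pow_zero, mul_one]
      exact ⟨l, h6 ▸ hl⟩
    · refine ⟨l, h4 F k K₀ B hk₀ hkK χ' χ σ hQ.sK hQ.sk (fun n => layStable 5 n (B n) (hlay n) σ)
        ?_ l hl⟩
      intro s s' hss
      obtain ⟨c, hc1, hc2⟩ := hc s
      apply Units.ext
      rw [hj3 s c hc2]
      -- `s` extends to `ℂ`
      have hsx : ∃ S : ℂ ≃+* ℂ, ∀ x : ↥K₀, S x = (s x : ↥K₀) :=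
        h5 K₀ (Algebra.IsAlgebraic.of_finite ℚ K₀) ((algebraMap ↥K₀ ℂ).comp (s : ↥K₀ →+* ↥K₀))
      obtain ⟨S, hS⟩ := hsx
      have hSk : ∀ x ∈ k, S x = x := by
        intro x hx
        rw [hS ⟨x, hkK hx⟩]
        exact congrArg Subtype.val (s.commutes ⟨x, hx⟩)
      have hSi : ∀ x : ↥K₀, S.symm x = (s.symm x : ↥K₀) := by
        intro x
        rw [RingEquiv.symm_apply_eq, hS, s.apply_symm_apply]
      -- `a = s' * s⁻¹`
      have ha : ∀ x : ↥K₀, (((s' * s⁻¹) x : ↥K₀) : ℂ) = σ.symm (S (σ (S.symm x))) := by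
        intro x
        rw [RingEquiv.eq_symm_apply, hSi]
        have h6 : σ ((s.symm x : ↥K₀) : ℂ) ∈ K₀ := (hQ.sK _).1 (s.symm x).2
        rw [hS ⟨_, h6⟩]
        exact (hss (s.symm x) ⟨_, h6⟩ rfl).symm
      have h7 : χ s' = χ (s' * s⁻¹) * χ s := by
        rw [← map_mul, inv_mul_cancel_right]
      have hwK : (⟨w, hQ.EK hwE⟩ : ↥K₀) ^ 2 = 5 := Subtype.ext hQ.w5
      rcases wsq (F := F) (s : ↥K₀ →+* ↥K₀) ⟨ζ₀, hζK⟩ hζK' ⟨w, hQ.EK hwE⟩ hwK c hc1 with
        ⟨e1, e2⟩ | ⟨e1, e2⟩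
      · have h8 : χ (s' * s⁻¹) = 1 := by
          apply hχ.1
          intro x hx
          apply Subtype.ext
          rw [ha]
          refine hQ.cm1 S hSk ?_ _ hx
          rw [hS ⟨w, hQ.EK hwE⟩]
          exact congrArg Subtype.val e1
        rw [h7, h8, one_mul, e2, mul_one]
      · have h8 : ((χ (s' * s⁻¹) : Fˣ) : F) = -1 := by
          apply hχ.2
          intro x y hxy
          rw [ha, hxy]
          refine hQ.cm2 S hSk ?_ y
          rw [hS ⟨w, hQ.EK hwE⟩]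
          exact congrArg Subtype.val e1
        rw [h7, Units.val_mul, h8, e2]
        ring
  -- a uniform exponent
  have hfin : Finite ((↥K₀ ≃ₐ[k] ↥K₀) →* Fˣ) := finChar _ _
  have hunif : ∃ l, ∀ χ ∈ X, NilC F k K₀ B hk₀ hkK χ l := by
    have h6 : ∀ χ : (↥K₀ ≃ₐ[k] ↥K₀) →* Fˣ, ∃ l, χ ∈ X → NilC F k K₀ B hk₀ hkK χ l := by
      intro χ
      by_cases h7 : χ ∈ X
      · obtain ⟨l, hl⟩ := hXnil χ h7
        exact ⟨l, fun _ => hl⟩
      · exact ⟨0, fun h8 => absurd h8 h7⟩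
    choose l hl using h6
    obtain ⟨M, hM⟩ := (Set.finite_range l).bddAbove
    exact ⟨M, fun χ hχ => nilMono (hM ⟨χ, rfl⟩) (hl χ hχ)⟩
  obtain ⟨l, hl⟩ := hunif
  refine h2 F 5 k K₀ E B hBk hBE hBS hdKk hdKE hk₀ hkK hEB l X hl ?_
  intro n χ hχ f hf b
  by_contra hne
  exact hχ (h3 E k K₀ w ρ σ hQ B F hlay hmono n (hk₀ n) hkK (hEB n) χ f hf b hne)

end Pool.Agent.OB


end
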