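import Pool.Agent.MVF.C036
import Pool.Agent.MVF.C037
import Pool.Agent.MVF.C059
import Pool.Agent.MVF.C068
import Pool.Agent.MVF.C105
import Pool.Agent.MVF.C117
import Pool.Agent.OBM.C01
import Pool.Agent.OBM.C02
import Pool.Agent.OBM.C18

/-! Parts: OB.F_CHI, OB.F_GRO, OB.F_LAY, OB.F_ONE, OB.F_TWO -/

section

/-!
# OB, FINAL (helper60): ideal classes and fractional ideals; `chiPart` and `EigS`
-/

set_option autoImplicit false

open NumberField IsDedekindDomain Finset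
open scoped nonZeroDivisors Pointwise

namespace Pool.Agent.OBF

open _root_.Pool.Agent.RI _root_.Pool.Agent.RID _root_.Pool.Agent.MU3 _root_.Pool.Agent.MUXK
  _root_.Pool.Agent.MUXZ _root_.Pool.Agent.NSI _root_.Pool.Agent.OB

namespace CHIx

lemma coe_equiv {R S : Type} [CommRing R] [IsDomain R] [CommRing S] [IsDomain S] (f : R ≃+* S)
    (I : Ideal R) :
    FractionalIdeal.ringEquivOfRingEquiv (FractionRing R) (FractionRing S) f
      (I : FractionalIdeal R⁰ (FractionRing R)) =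
      ((I.map f : Ideal S) : FractionalIdeal S⁰ (FractionRing S)) := by
  have h0 : ∀ r : R, IsFractionRing.semilinearEquivOfRingEquiv (FractionRing R) (FractionRing S) f
      (algebraMap R (FractionRing R) r) = algebraMap S (FractionRing S) (f r) := by
    intro r
    simp [IsFractionRing.semilinearEquivOfRingEquiv_apply]
  ext x
  rw [← FractionalIdeal.mem_coe]
  rw [FractionalIdeal.mem_coeIdeal]
  change x ∈ Submodule.map _ _ ↔ _
  rw [Submodule.mem_map]
  constructor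
  · rintro ⟨y, hy, rfl⟩
    have hy' : y ∈ (I : FractionalIdeal R⁰ (FractionRing R)) := hy
    rw [FractionalIdeal.mem_coeIdeal] at hy'
    obtain ⟨r, hr, rfl⟩ := hy'
    exact ⟨f r, Ideal.mem_map_of_mem f hr, (h0 r).symm⟩
  · rintro ⟨s, hs, rfl⟩
    obtain ⟨r, hr, rfl⟩ := (Ideal.mem_map_iff_of_surjective f f.surjective).1 hs
    refine ⟨algebraMap R (FractionRing R) r, ?_, h0 r⟩
    show algebraMap R (FractionRing R) r ∈ (I : FractionalIdeal R⁰ (FractionRing R))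
    rw [FractionalIdeal.mem_coeIdeal]
    exact ⟨r, hr, rfl⟩

lemma map_ne {R S : Type} [CommRing R] [IsDomain R] [CommRing S] [IsDomain S] (f : R ≃+* S)
    (I : (Ideal R)⁰) : (I : Ideal R).map f ∈ (Ideal S)⁰ := by
  rw [mem_nonZeroDivisors_iff_ne_zero]
  intro h
  have h1 : (I : Ideal R) ≠ 0 := nonZeroDivisors.coe_ne_zero I
  apply h1
  exact (Ideal.map_eq_bot_iff_of_injective f.injective).1 h

lemma mulEquiv_mk0 {R S : Type} [CommRing R] [IsDomain R] [IsDedekindDomain R] [CommRing S]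
    [IsDomain S] [IsDedekindDomain S] (f : R ≃+* S) (I : (Ideal R)⁰) :
    ClassGroup.mulEquiv f (ClassGroup.mk0 I) =
      ClassGroup.mk0 (⟨(I : Ideal R).map f, map_ne f I⟩ : (Ideal S)⁰) := by
  unfold ClassGroup.mulEquiv
  rw [MulEquiv.trans_apply, MulEquiv.trans_apply, MulEquiv.symm_apply_eq,
    ClassGroup.equiv_mk0, ClassGroup.equiv_mk0]
  rw [QuotientGroup.congr_mk']
  congr 1
  apply Units.ext
  exact coe_equiv f I

/-- Every fractional ideal is a principal one times an integral one. -/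
lemma decomp {L : Type} [Field L] [NumberField L] (c : J L) :
    ∃ (y : Lˣ) (I : (Ideal (𝓞 L))⁰), c = prin y * FractionalIdeal.mk0 L I := by
  obtain ⟨a, I, ha, hc⟩ := FractionalIdeal.exists_eq_spanSingleton_mul
    (c : FractionalIdeal (𝓞 L)⁰ L)
  have ha' : (algebraMap (𝓞 L) L a) ≠ 0 := by simpa using ha
  have hI : I ≠ 0 := by
    rintro rfl
    apply c.ne_zero
    rw [hc]; simp
  refine ⟨(Units.mk0 _ ha')⁻¹, ⟨I, mem_nonZeroDivisors_of_ne_zero hI⟩, ?_⟩
  apply Units.ext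
  rw [hc, Units.val_mul, coe_toPrincipalIdeal]
  simp

open OB.CNJ in
lemma actU_mk0 {L : Type} [Field L] [NumberField L] (τ : L ≃+* L) (I : (Ideal (𝓞 L))⁰) :
    actU τ (FractionalIdeal.mk0 L I) =
      FractionalIdeal.mk0 L ⟨(I : Ideal (𝓞 L)).map (RingOfIntegers.mapRingEquiv τ),
        map_ne _ I⟩ := by
  apply Units.ext
  ext x
  rw [mem_actU, FractionalIdeal.coe_mk0, FractionalIdeal.coe_mk0, FractionalIdeal.mem_coeIdeal,
    FractionalIdeal.mem_coeIdeal]
  constructor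
  · rintro ⟨y, hy, hy'⟩
    refine ⟨RingOfIntegers.mapRingEquiv τ y, Ideal.mem_map_of_mem _ hy, ?_⟩
    have : algebraMap (𝓞 L) L (RingOfIntegers.mapRingEquiv τ y) = τ (algebraMap (𝓞 L) L y) := rfl
    rw [this, hy', RingEquiv.apply_symm_apply]
  · rintro ⟨y, hy, rfl⟩
    obtain ⟨r, hr, rfl⟩ := (Ideal.mem_map_iff_of_surjective _
      (RingOfIntegers.mapRingEquiv τ).surjective).1 hy
    refine ⟨r, hr, ?_⟩
    have : algebraMap (𝓞 L) L (RingOfIntegers.mapRingEquiv τ r) = τ (algebraMap (𝓞 L) L r) := rfl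
    rw [this, RingEquiv.symm_apply_apply]

lemma mk_prin {L : Type} [Field L] [NumberField L] (y : Lˣ) :
    ClassGroup.mk L (prin y : J L) = (1 : ClassGroup (𝓞 L)) := by
  rw [ClassGroup.mk_eq_one_iff]
  refine ⟨⟨(y : L), ?_⟩⟩
  rw [coe_toPrincipalIdeal, FractionalIdeal.coe_spanSingleton]

open OB.CNJ in
/-- Ideal classes and automorphisms. -/
lemma mulEquiv_mk {L : Type} [Field L] [NumberField L] (τ : L ≃+* L) (x : J L) :
    ClassGroup.mulEquiv (RingOfIntegers.mapRingEquiv τ) (ClassGroup.mk L x) =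
      ClassGroup.mk L (actU τ x) := by
  obtain ⟨y, I, rfl⟩ := decomp x
  rw [map_mul, map_mul, map_mul, map_mul, actU_prin, mk_prin, mk_prin, map_one, one_mul, one_mul,
    actU_mk0, ClassGroup.mk_mk0, ClassGroup.mk_mk0, mulEquiv_mk0]

/-- The character in the form of block K. -/
noncomputable def toC {F : Type} [Field F] {k K : IntermediateField ℚ ℂ} (h : k ≤ K)
    (χ : MuCyc.Gal h →* Fˣ) : letI := algC h; (↥K ≃ₐ[k] ↥K) →* Fˣ :=
  letI := algC h
  χ.comp (AlgEquiv.autCongr (extEquiv h)).symm.toMonoidHom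

lemma toC_apply {F : Type} [Field F] {k K : IntermediateField ℚ ℂ} (h : k ≤ K)
    (χ : MuCyc.Gal h →* Fˣ) : letI := algC h
    ∀ (s : ↥K ≃ₐ[k] ↥K) (s' : MuCyc.Gal h),
      (∀ (x : ↥K) (x' : IntermediateField.extendScalars h), (x' : ℂ) = x →
        ((s' x' : IntermediateField.extendScalars h) : ℂ) = (s x : ↥K)) → toC h χ s = χ s' := by
  let _ := algC h
  intro s s' hs
  show χ ((AlgEquiv.autCongr (extEquiv h)).symm s) = χ s'
  congr 1
  apply AlgEquiv.ext
  intro x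
  apply Subtype.ext
  exact (hs ⟨(x : ℂ), x.2⟩ x rfl).symm

/-- The inverse. -/
noncomputable def ofC {F : Type} [Field F] {k K : IntermediateField ℚ ℂ} (h : k ≤ K)
    (χ : letI := algC h; (↥K ≃ₐ[k] ↥K) →* Fˣ) : MuCyc.Gal h →* Fˣ :=
  letI := algC h
  χ.comp (AlgEquiv.autCongr (extEquiv h)).toMonoidHom

lemma toC_ofC {F : Type} [Field F] {k K : IntermediateField ℚ ℂ} (h : k ≤ K)
    (χ : letI := algC h; (↥K ≃ₐ[k] ↥K) →* Fˣ) : toC h (ofC h χ) = χ := by
  letI := algC h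
  apply MonoidHom.ext
  intro s
  show χ ((AlgEquiv.autCongr (extEquiv h)) ((AlgEquiv.autCongr (extEquiv h)).symm s)) = χ s
  rw [MulEquiv.apply_symm_apply]

end CHIx

open _root_.Pool.Agent.OBF.CHIx OB.CNJ in
/-- The dimension of `chiPart`. -/
theorem chi_eig (p : ℕ) [Fact p.Prime] (k K : IntermediateField ℚ ℂ) (h : k ≤ K)
    (B : ℕ → IntermediateField ℚ ℂ) (n : ℕ) [FiniteDimensional ℚ ↥(K ⊔ B n)]
    (hk : k ≤ K ⊔ B n) (χ : MuCyc.Chr p h)
    (hfin : Module.Finite (AlgebraicClosure (ZMod p))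
      (EigS (AlgebraicClosure (ZMod p)) k K B n hk h (toC h χ))) :
    Module.finrank (AlgebraicClosure (ZMod p)) (MuCyc.chiPart p h χ (B n)) ≤
      Module.finrank (AlgebraicClosure (ZMod p))
        (EigS (AlgebraicClosure (ZMod p)) k K B n hk h (toC h χ)) := by
  letI := algC h
  letI := algC hk
  let φ : (ClassGroup (𝓞 ↥(K ⊔ B n)) → AlgebraicClosure (ZMod p)) →ₗ[AlgebraicClosure (ZMod p)]
      (J ↥(K ⊔ B n) → AlgebraicClosure (ZMod p)) :=
    LinearMap.funLeft _ _ (fun x => ClassGroup.mk ↥(K ⊔ B n) x)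
  have hinj : Function.Injective φ := by
    apply LinearMap.funLeft_injective_of_surjective
    intro c
    exact ClassGroup.induction (R := 𝓞 ↥(K ⊔ B n)) ↥(K ⊔ B n)
      (P := fun c => ∃ x : J ↥(K ⊔ B n), ClassGroup.mk ↥(K ⊔ B n) x = c) (fun I => ⟨I, rfl⟩) c
  have hmap : (MuCyc.chiPart p h χ (B n)).map φ ≤
      EigS (AlgebraicClosure (ZMod p)) k K B n hk h (toC h χ) := by
    rintro _ ⟨f, ⟨h1, h2⟩, rfl⟩
    refine ⟨fun x y => ?_, fun x hx => ?_, fun δ s hs x => ?_⟩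
    · show f (ClassGroup.mk _ (x * y)) = f (ClassGroup.mk _ x) + f (ClassGroup.mk _ y)
      rw [map_mul, h1]
    · obtain ⟨a, rfl⟩ := hx
      show f (ClassGroup.mk _ (prin a)) = 0
      rw [mk_prin]
      have := h1 1 1
      rw [mul_one] at this
      linear_combination -this
    · show f (ClassGroup.mk _ ((δ : ↥(K ⊔ B n) ≃ₐ[k] ↥(K ⊔ B n)) • x)) = _ * f (ClassGroup.mk _ x)
      rw [actU_smul, ← mulEquiv_mk]
      let s' : MuCyc.Gal h := (AlgEquiv.autCongr (extEquiv h)).symm s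
      have e1 : toC h χ s = χ s' := rfl
      rw [e1]
      apply h2 ((δ : ↥(K ⊔ B n) ≃ₐ[k] ↥(K ⊔ B n)) : ↥(K ⊔ B n) ≃+* ↥(K ⊔ B n)) s'
      · intro x hx
        exact δ.2 x hx
      · intro x y hxy
        exact hs ⟨(y : ℂ), y.2⟩ x hxy
  calc Module.finrank (AlgebraicClosure (ZMod p)) (MuCyc.chiPart p h χ (B n))
      = Module.finrank (AlgebraicClosure (ZMod p)) ((MuCyc.chiPart p h χ (B n)).map φ) :=
        (Submodule.equivMapOfInjective φ hinj _).finrank_eq
    _ ≤ _ := Submodule.finrank_mono hmap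

end Pool.Agent.OBF


end

section

/-!
# OB, FINAL (helper60): the growth formula, the unramified extensions; extensions of `5`-power degree
-/

set_option autoImplicit false

open NumberField IsDedekindDomain Finset Filter Topology
open scoped nonZeroDivisors Pointwise

namespace Pool.Agent.OBF

open _root_.Pool.Agent.RI _root_.Pool.Agent.RID _root_.Pool.Agent.MU3 _root_.Pool.Agent.OB

/-- a polynomial bound and the growth formula give `μ = 0` -/
theorem mu_zero (hLAY : Sf_LAY) (p : ℕ) [Fact p.Prime] (hp2 : p ≠ 2) (f : IntermediateField ℚ ℂ → ℕ)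
    (h : ∃ C : ℕ, ∀ (n : ℕ) (Q : IntermediateField ℚ ℂ), IsLayer p n Q → f Q ≤ C * (n + 1) ^ C)
    (mu lam nu : ℝ)
    (hg : ∃ n₀ : ℕ, ∀ n ≥ n₀, ∀ Q : IntermediateField ℚ ℂ, IsLayer p n Q →
      (f Q : ℝ) = mu * (p : ℝ) ^ n + lam * n + nu) : mu = 0 := by
  obtain ⟨C, hC⟩ := h
  obtain ⟨n₀, hn₀⟩ := hg
  obtain ⟨Bn, hlay, -, -⟩ := hLAY p hp2
  have hpp : p.Prime := Fact.out
  have hp1 : (1 : ℝ) < p := by exact_mod_cast hpp.one_lt
  have hp0 : (0 : ℝ) < p := by linarith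
  set D : ℝ := C + |lam| + |nu| with hD
  have hD0 : 0 ≤ D := by positivity
  have hbd : ∀ n ≥ n₀, |mu| ≤ D * p * ((((n + 1 : ℕ) : ℝ) ^ (C + 1)) / (p : ℝ) ^ (n + 1)) := by
    intro n hn
    have h1 := hn₀ n hn (Bn n) (hlay n)
    have h2 : ((f (Bn n) : ℕ) : ℝ) ≤ C * ((n : ℝ) + 1) ^ C := by
      exact_mod_cast hC n (Bn n) (hlay n)
    have h3 : (0 : ℝ) ≤ (f (Bn n) : ℝ) := by positivity
    have hpn : (0 : ℝ) < (p : ℝ) ^ n := by positivity
    have h4 : |mu| * (p : ℝ) ^ n ≤ D * ((n : ℝ) + 1) ^ (C + 1) := by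
      have e1 : |mu| * (p : ℝ) ^ n = |(f (Bn n) : ℝ) - lam * n - nu| := by
        rw [h1, ← abs_of_pos hpn, ← abs_mul, abs_of_pos hpn]
        congr 1
        ring
      rw [e1]
      have e2 : |(f (Bn n) : ℝ) - lam * n - nu| ≤ (f (Bn n) : ℝ) + |lam| * n + |nu| := by
        have a1 := abs_sub ((f (Bn n) : ℝ) - lam * n) nu
        have a2 := abs_sub (f (Bn n) : ℝ) (lam * n)
        rw [abs_mul, abs_of_nonneg h3, abs_of_nonneg (by positivity : (0 : ℝ) ≤ n)] at a2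
        linarith
      have hn1 : (1 : ℝ) ≤ (n : ℝ) + 1 := by
        have : (0 : ℝ) ≤ n := by positivity
        linarith
      have e3 : ((n : ℝ) + 1) ^ C ≤ ((n : ℝ) + 1) ^ (C + 1) :=
        pow_le_pow_right₀ hn1 (Nat.le_succ C)
      have e4 : (n : ℝ) ≤ ((n : ℝ) + 1) ^ (C + 1) := by
        calc (n : ℝ) ≤ (n : ℝ) + 1 := by linarith
          _ = ((n : ℝ) + 1) ^ 1 := (pow_one _).symm
          _ ≤ ((n : ℝ) + 1) ^ (C + 1) := pow_le_pow_right₀ hn1 (by omega)
      have e5 : (1 : ℝ) ≤ ((n : ℝ) + 1) ^ (C + 1) := one_le_pow₀ hn1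
      calc |(f (Bn n) : ℝ) - lam * n - nu| ≤ (f (Bn n) : ℝ) + |lam| * n + |nu| := e2
        _ ≤ C * ((n : ℝ) + 1) ^ (C + 1) + |lam| * ((n : ℝ) + 1) ^ (C + 1) +
            |nu| * ((n : ℝ) + 1) ^ (C + 1) := by
          have i1 : (C : ℝ) * ((n : ℝ) + 1) ^ C ≤ C * ((n : ℝ) + 1) ^ (C + 1) :=
            mul_le_mul_of_nonneg_left e3 (by positivity)
          have i2 : |lam| * n ≤ |lam| * ((n : ℝ) + 1) ^ (C + 1) :=
            mul_le_mul_of_nonneg_left e4 (abs_nonneg _)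
          have i3 : |nu| * 1 ≤ |nu| * ((n : ℝ) + 1) ^ (C + 1) :=
            mul_le_mul_of_nonneg_left e5 (abs_nonneg _)
          rw [mul_one] at i3
          linarith
        _ = D * ((n : ℝ) + 1) ^ (C + 1) := by rw [hD]; ring
    rw [pow_succ (p : ℝ) n]
    push_cast
    rw [show D * (p : ℝ) * (((n : ℝ) + 1) ^ (C + 1) / ((p : ℝ) ^ n * p)) =
      D * ((n : ℝ) + 1) ^ (C + 1) / (p : ℝ) ^ n by field_simp]
    rw [le_div_iff₀ hpn]
    exact h4
  have hlim : Tendsto (fun n : ℕ => D * p * ((((n + 1 : ℕ) : ℝ) ^ (C + 1)) / (p : ℝ) ^ (n + 1)))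
      atTop (𝓝 (D * p * 0)) :=
    ((tendsto_pow_const_div_const_pow_of_one_lt (C + 1) hp1).comp
      (tendsto_add_atTop_nat 1)).const_mul _
  rw [mul_zero] at hlim
  have : |mu| ≤ 0 := ge_of_tendsto hlim (eventually_atTop.2 ⟨n₀, hbd⟩)
  exact abs_eq_zero.1 (le_antisymm this (abs_nonneg _))

/-- The three parts: the bound, `μ = 0` in the growth formula, the unramified extensions. -/
def Parts (p : ℕ) (K : IntermediateField ℚ ℂ) : Prop :=
  (∃ C : ℕ, ∀ (n : ℕ) (Q : IntermediateField ℚ ℂ), MuCyc.IsLayer p n Q →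
      padicValNat p (MuCyc.classNo (K ⊔ Q)) ≤ C * (n + 1) ^ C) ∧
  (∀ μ lam nu : ℝ, (∃ n₀ : ℕ, ∀ n ≥ n₀, ∀ Q : IntermediateField ℚ ℂ, MuCyc.IsLayer p n Q →
      (padicValNat p (MuCyc.classNo (K ⊔ Q)) : ℝ) = μ * (p : ℝ) ^ n + lam * n + nu) → μ = 0) ∧
  (MuCyc.unramifiedExt p (MuCyc.cycExt p K)).Finite

/-- From a polynomial bound for a totally complex field with `μ_p` to all subfields. -/
theorem parts_sub (hLAY : Sf_LAY) (hSUB : _root_.Pool.Agent.MUXJ.Sj_SUB)
    (hFNP : _root_.Pool.Agent.VB.Sb_FNP) (hRED : _root_.Pool.Agent.VB.Sb_RED) (p : ℕ)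
    [Fact p.Prime] (hp2 : p ≠ 2) (F F' : IntermediateField ℚ ℂ) [FiniteDimensional ℚ F']
    (hFF : F ≤ F') (hTC : _root_.Pool.Agent.VB.TCx F') (hz : ∃ ζ ∈ F', IsPrimitiveRoot ζ p)
    (hb : ∃ C k : ℕ, ∀ (n : ℕ) (Q : IntermediateField ℚ ℂ), RI.IsLayer p n Q →
      padicValNat p (RI.classNo (F' ⊔ Q)) ≤ C * (n + 1) ^ k) : Parts p F := by
  obtain ⟨C, k, hC⟩ := hb
  obtain ⟨B, hlay, hmono, hu⟩ := hLAY p hp2
  obtain ⟨C₁, hC₁⟩ := hSUB p F F' hFF
  have hb1 : ∃ C : ℕ, ∀ (n : ℕ) (Q : IntermediateField ℚ ℂ), RI.IsLayer p n Q →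
      padicValNat p (RI.classNo (F ⊔ Q)) ≤ C * (n + 1) ^ C := by
    refine ⟨C + C₁ + k, fun n Q hQ => ?_⟩
    have h1 := hC n Q hQ
    have h2 := hC₁ n Q hQ
    have h3 : (n + 1) ^ k ≤ (n + 1) ^ (C + C₁ + k) :=
      Nat.pow_le_pow_right (Nat.succ_pos n) (by omega)
    have h4 : 1 ≤ (n + 1) ^ (C + C₁ + k) := Nat.one_le_pow _ _ (Nat.succ_pos n)
    calc padicValNat p (RI.classNo (F ⊔ Q)) ≤ C * (n + 1) ^ k + C₁ := by omega
      _ ≤ C * (n + 1) ^ (C + C₁ + k) + C₁ * (n + 1) ^ (C + C₁ + k) := by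
        have := Nat.mul_le_mul_left C h3
        have := Nat.mul_le_mul_left C₁ h4
        omega
      _ ≤ (C + C₁ + k) * (n + 1) ^ (C + C₁ + k) := by
        rw [← Nat.add_mul]
        exact Nat.mul_le_mul_right _ (by omega)
  refine ⟨hb1, fun μ lam nu hg => ?_, ?_⟩
  · exact mu_zero hLAY p hp2 (fun Q => padicValNat p (RI.classNo (F ⊔ Q))) hb1 μ lam nu hg
  · have e1 : MuCyc.cycExt p F = _root_.Pool.Agent.VB.Finf F B := by
      unfold MuCyc.cycExt _root_.Pool.Agent.VB.Finf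
      congr 1
      apply le_antisymm
      · refine sSup_le ?_
        rintro Q ⟨n, hQ⟩
        rw [hu n Q hQ]
        exact le_iSup B n
      · exact iSup_le fun n => le_sSup ⟨n, hlay n⟩
    rw [e1]
    have h10 : (_root_.Pool.Agent.VB.UM p (_root_.Pool.Agent.VB.Finf F B)).Finite := by
      refine hRED p F F' B (fun n => (LAY_thm p n (B n) (hlay n)).1) hmono hFF ?_
      refine hFNP p F' B hlay hmono hTC hz ⟨C + k, fun n => ?_⟩
      refine (hC n (B n) (hlay n)).trans ?_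
      exact Nat.mul_le_mul (Nat.le_add_right _ _)
        (Nat.pow_le_pow_right (Nat.succ_pos n) (Nat.le_add_left _ _))
    exact h10

/-- A field with a primitive `p`-th root of unity, `p ≥ 3`, is totally complex. -/
theorem tcx_zeta (p : ℕ) (hp : 2 < p) (E : IntermediateField ℚ ℂ)
    (hz : ∃ ζ ∈ E, IsPrimitiveRoot ζ p) : _root_.Pool.Agent.VB.TCx E := by
  obtain ⟨ζ, hζE, hζ⟩ := hz
  have hζE' : IsPrimitiveRoot (⟨ζ, hζE⟩ : E) p := by
    refine IsPrimitiveRoot.of_map_of_injective (f := algebraMap E ℂ) ?_ (algebraMap E ℂ).injective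
    exact hζ
  intro φ
  refine ⟨⟨ζ, hζE⟩, fun h => ?_⟩
  have h5 : IsPrimitiveRoot (φ ⟨ζ, hζE⟩) p := hζE'.map_of_injective φ.injective
  have h6 : (starRingEnd ℂ) (φ ⟨ζ, hζE⟩) = (φ ⟨ζ, hζE⟩)⁻¹ := by
    rw [← Complex.inv_eq_conj]
    exact Complex.norm_eq_one_of_pow_eq_one h5.pow_eq_one (by omega)
  rw [h6] at h
  have h7 : (φ ⟨ζ, hζE⟩) ^ 2 = 1 := by
    have h8 : φ ⟨ζ, hζE⟩ ≠ 0 := h5.ne_zero (by omega)
    rw [pow_two]
    nth_rewrite 1 [← h]
    exact inv_mul_cancel₀ h8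
  have h9 := h5.dvd_of_pow_eq_one 2 h7
  have := Nat.le_of_dvd (by norm_num) h9
  omega

/-- The quartic corollary with extensions of `5`-power degree. -/
theorem quartic (hBD : Sq_BD) (hCY5 : Sq_CY5) (hPEX : _root_.MU3.P_PEX) (hLAY : Sf_LAY)
    (hSUB : _root_.Pool.Agent.MUXJ.Sj_SUB) (hFNP : _root_.Pool.Agent.VB.Sb_FNP)
    (hRED : _root_.Pool.Agent.VB.Sb_RED) (E : IntermediateField ℚ ℂ)
    (hE : Module.finrank ℚ E = 4) (hw : ∃ w ∈ E, w ^ 2 = 5)
    (hr : ∃ φ : E →+* ℂ, ∀ x, (starRingEnd ℂ) (φ x) = φ x)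
    (hc : ∃ φ : E →+* ℂ, ∃ x, (starRingEnd ℂ) (φ x) ≠ φ x)
    (F F' : IntermediateField ℚ ℂ) [FiniteDimensional ℚ F']
    (h : E ⊔ IntermediateField.adjoin ℚ {z : ℂ | z ^ 5 = 1} ≤ F')
    (hG : IsGalois ↥(E ⊔ IntermediateField.adjoin ℚ {z : ℂ | z ^ 5 = 1})
      (IntermediateField.extendScalars h))
    (a : ℕ) (ha : Module.finrank ↥(E ⊔ IntermediateField.adjoin ℚ {z : ℂ | z ^ 5 = 1})
      (IntermediateField.extendScalars h) = 5 ^ a) (hFF : F ≤ F') : Parts 5 F := by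
  have : Fact (Nat.Prime 5) := ⟨by norm_num⟩
  obtain ⟨C, hC⟩ := hBD E hE hw hr hc _ (Or.inr rfl)
  obtain ⟨B, hlay, hmono, hu⟩ := hLAY 5 (by norm_num)
  set E' := E ⊔ IntermediateField.adjoin ℚ {z : ℂ | z ^ 5 = 1} with hE'
  obtain ⟨ζ, hζ⟩ : ∃ ζ : ℂ, IsPrimitiveRoot ζ 5 := ⟨_, Complex.isPrimitiveRoot_exp 5 (by norm_num)⟩
  have hζE : ζ ∈ E' := (le_sup_right : IntermediateField.adjoin ℚ {z : ℂ | z ^ 5 = 1} ≤ E')
    (IntermediateField.subset_adjoin ℚ _ hζ.pow_eq_one)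
  have hz : ∃ ζ ∈ E', IsPrimitiveRoot ζ 5 := ⟨ζ, hζE, hζ⟩
  have hz' : ∃ ζ ∈ F', IsPrimitiveRoot ζ 5 := ⟨ζ, h hζE, hζ⟩
  obtain ⟨C', k, hC'⟩ := hPEX 5 a E' F' B h hG ha (tcx_zeta 5 (by norm_num) E' hz) hlay hmono
    ⟨C, 2, fun n => hC n (B n) (hlay n)⟩
  refine parts_sub hLAY hSUB hFNP hRED 5 (by norm_num) F F' hFF (tcx_zeta 5 (by norm_num) F' hz')
    hz' ⟨C', k, fun n Q hQ => ?_⟩
  rw [hu n Q hQ]
  exact hC' n

end Pool.Agent.OBF


end

section

/-!
# OB, FINAL, module LAY: the layers of the cyclotomic `ℤ_p`-extension of `ℚ`, `p` odd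
-/

set_option autoImplicit false

open NumberField Polynomial

namespace Pool.Agent.OBF

namespace LAYx

open Pool.Agent.RI Pool.Agent.RID Pool.Agent.MU3I Pool.Agent.MU3I.Ilay

/-- a cyclic extension of degree `a * b` contains a field of degree `a` -/
lemma sub_deg {F E : Type*} [Field F] [Field E] [Algebra F E] (D : IntermediateField F E)
    [FiniteDimensional F D] [IsGalois F D] [IsCyclic (D ≃ₐ[F] D)] (a b : ℕ)
    (h : Module.finrank F D = a * b) :
    ∃ Q : IntermediateField F E, Q ≤ D ∧ Module.finrank F Q = a := by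
  have hpos : 0 < a * b := h ▸ Module.finrank_pos
  have ha : 0 < a := Nat.pos_of_ne_zero (by
    rintro rfl
    simp at hpos)
  have hb : 0 < b := Nat.pos_of_ne_zero (by
    rintro rfl
    simp at hpos)
  obtain ⟨g, hg⟩ := IsCyclic.exists_generator (α := D ≃ₐ[F] D)
  have hcard : Nat.card (D ≃ₐ[F] D) = a * b := by rw [IsGalois.card_aut_eq_finrank, h]
  have hog : orderOf g = a * b := by rw [orderOf_eq_card_of_forall_mem_zpowers hg, hcard]
  have hS : Nat.card (Subgroup.zpowers (g ^ a)) = b := by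
    rw [Nat.card_zpowers, orderOf_pow, hog, Nat.gcd_eq_right (Dvd.intro b rfl),
      Nat.mul_div_cancel_left b ha]
  refine ⟨IntermediateField.lift (IntermediateField.fixedField (Subgroup.zpowers (g ^ a))),
    IntermediateField.lift_le _, ?_⟩
  have h1 := IntermediateField.finrank_fixedField_eq_card (Subgroup.zpowers (g ^ a))
  have h2 := Module.finrank_mul_finrank F
    (IntermediateField.fixedField (Subgroup.zpowers (g ^ a))) D
  rw [h1, hS, h] at h2
  exact (IntermediateField.liftAlgEquiv (IntermediateField.fixedField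
    (Subgroup.zpowers (g ^ a)))).toLinearEquiv.finrank_eq.symm.trans
    (Nat.eq_of_mul_eq_mul_right hb h2)

/-- a subfield of a cyclotomic field of prime power order which is fixed by the inversion is
cyclic -/
lemma cycF {F E : Type} [Field F] [Field E] [Algebra F E] (p j : ℕ) [hp : Fact p.Prime]
    (hirr : Irreducible (cyclotomic (p ^ j) F)) {r : E} (hr : IsPrimitiveRoot r (p ^ j))
    (c : E →ₐ[F] E) (hc : c r = r⁻¹) (D : IntermediateField F E)
    (hle : D ≤ IntermediateField.adjoin F {z : E | z ^ (p ^ j) = 1})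
    (hreal : ∀ x ∈ D, c x = x) : IsGalois F D ∧ IsCyclic (D ≃ₐ[F] D) :=
  ⟨(LAY.isAbelian_of_le (p ^ j) (pow_ne_zero _ hp.out.ne_zero) ⟨r, hr⟩ D hle).toIsGalois,
    LAYC.gen p j hirr hr c hc D hle hreal⟩

lemma croot (p j : ℕ) [hp : Fact p.Prime] :
    ((Complex.conjAe.toAlgHom).restrictScalars ℚ)
      (Complex.exp (2 * Real.pi * Complex.I / ((p ^ j : ℕ) : ℂ))) =
      (Complex.exp (2 * Real.pi * Complex.I / ((p ^ j : ℕ) : ℂ)))⁻¹ := by
  have hN : p ^ j ≠ 0 := pow_ne_zero _ hp.out.ne_zero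
  exact conj_root hN (Complex.isPrimitiveRoot_exp _ hN).pow_eq_one

lemma adj_mono (p m j : ℕ) (h : m ≤ j) :
    IntermediateField.adjoin ℚ {z : ℂ | z ^ (p ^ m) = 1} ≤
      IntermediateField.adjoin ℚ {z : ℂ | z ^ (p ^ j) = 1} := by
  refine IntermediateField.adjoin.mono _ _ _ ?_
  intro z hz
  have hz' : z ^ p ^ m = 1 := hz
  obtain ⟨t, ht⟩ := pow_dvd_pow p h
  show z ^ p ^ j = 1
  rw [ht, pow_mul, hz', one_pow]

/-- two layers are equal -/
lemma lay_uniq (p : ℕ) [hp : Fact p.Prime] (n : ℕ) (Q R : IntermediateField ℚ ℂ)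
    (hQ : RI.IsLayer p n Q) (hR : RI.IsLayer p n R) : Q = R := by
  obtain ⟨hd, hr, m, hle⟩ := hQ
  obtain ⟨hd', hr', m', hle'⟩ := hR
  have h1 := hle.trans (adj_mono p m (max m m') (le_max_left _ _))
  have h2 := hle'.trans (adj_mono p m' (max m m') (le_max_right _ _))
  set c : ℂ →ₐ[ℚ] ℂ := (Complex.conjAe.toAlgHom).restrictScalars ℚ with hc
  have hfix := fix_sup c Q R (fun x hx => hr x hx) (fun x hx => hr' x hx)
  have hN : p ^ (max m m') ≠ 0 := pow_ne_zero _ hp.out.ne_zero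
  obtain ⟨hG, hcyc⟩ := cycF (F := ℚ) (E := ℂ) p (max m m')
    (cyclotomic.irreducible_rat (Nat.pos_of_ne_zero hN)) (Complex.isPrimitiveRoot_exp _ hN) c
    (croot p _) (Q ⊔ R) (sup_le h1 h2) hfix
  have : FiniteDimensional ℚ Q :=
    Module.finite_of_finrank_pos (by rw [hd]; exact pow_pos hp.out.pos n)
  have : FiniteDimensional ℚ R :=
    Module.finite_of_finrank_pos (by rw [hd']; exact pow_pos hp.out.pos n)
  have hfd : FiniteDimensional ℚ ↥(Q ⊔ R) := IntermediateField.finiteDimensional_sup Q R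
  exact uniq Q R (Q ⊔ R) le_sup_left le_sup_right (hd.trans hd'.symm)

/-- the layers exist -/
lemma lay_exists (p : ℕ) [hp : Fact p.Prime] (h2 : p ≠ 2) (n : ℕ) :
    ∃ B : IntermediateField ℚ ℂ, RI.IsLayer p n B := by
  have hM : p ^ (n + 1) ≠ 0 := pow_ne_zero _ hp.out.ne_zero
  have hodd : Odd p := hp.out.odd_of_ne_two h2
  have hev : 2 ∣ p - 1 := by
    obtain ⟨t, ht⟩ := hodd
    exact ⟨t, by omega⟩
  obtain ⟨b, hb⟩ := hev
  set ζ := zt (p ^ (n + 1)) with hζ
  have hζp : IsPrimitiveRoot ζ (p ^ (n + 1)) := zt_prim _ hM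
  have hζ0 : ζ ≠ 0 := hζp.ne_zero hM
  have hζc : (starRingEnd ℂ) ζ = ζ⁻¹ := conj_root hM hζp.pow_eq_one
  set R := IntermediateField.adjoin ℚ {ζ + ζ⁻¹} with hR
  set c : ℂ →ₐ[ℚ] ℂ := (Complex.conjAe.toAlgHom).restrictScalars ℚ with hc
  have hcz : ∀ z : ℂ, c z = (starRingEnd ℂ) z := fun z => rfl
  have hRr : ∀ x ∈ R, c x = x := by
    have hRR : R ≤ (AlgHom.equalizer c (AlgHom.id ℚ ℂ)).toIntermediateField (fun x hx => by
        have hx' : c x = x := hx
        show c x⁻¹ = x⁻¹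
        rw [map_inv₀, hx']) := by
      rw [hR, IntermediateField.adjoin_simple_le_iff]
      show c (ζ + ζ⁻¹) = ζ + ζ⁻¹
      rw [map_add, map_inv₀, hcz, hζc, inv_inv, add_comm]
    exact fun x hx => hRR hx
  have hdR : Module.finrank ℚ R = p ^ n * b := by
    apply deg ζ (p ^ n * b) hζ0
    · have hint : IsIntegral ℚ ζ := (hζp.isIntegral (Nat.pos_of_ne_zero hM)).tower_top
      rw [IntermediateField.adjoin.finrank hint,
        ← cyclotomic_eq_minpoly_rat hζp (Nat.pos_of_ne_zero hM), natDegree_cyclotomic,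
        Nat.totient_prime_pow_succ hp.out, hb]
      ring
    · intro h1
      have h2' := hRr _ h1
      rw [hcz, hζc] at h2'
      have h3 : ζ ^ 2 = 1 := by
        rw [pow_two]
        nth_rewrite 1 [← h2']
        exact inv_mul_cancel₀ hζ0
      have h4 := hζp.dvd_of_pow_eq_one 2 h3
      have h5 : p ∣ 2 := (dvd_pow_self p (Nat.succ_ne_zero n)).trans h4
      exact h2 ((Nat.prime_dvd_prime_iff_eq hp.out Nat.prime_two).1 h5)
  have hRle : R ≤ IntermediateField.adjoin ℚ {z : ℂ | z ^ (p ^ (n + 1)) = 1} := by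
    have hζj : ζ ∈ IntermediateField.adjoin ℚ {z : ℂ | z ^ (p ^ (n + 1)) = 1} :=
      IntermediateField.subset_adjoin _ _ hζp.pow_eq_one
    rw [hR, IntermediateField.adjoin_simple_le_iff]
    exact add_mem hζj (inv_mem hζj)
  obtain ⟨hG, hcyc⟩ := cycF (F := ℚ) (E := ℂ) p (n + 1)
    (cyclotomic.irreducible_rat (Nat.pos_of_ne_zero hM)) (Complex.isPrimitiveRoot_exp _ hM) c
    (croot p _) R hRle hRr
  have hpos : 0 < p ^ n * b := by
    have h1 := hp.out.two_le
    have h3 : 0 < b := by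
      have h4 : p ≠ 2 := h2
      omega
    exact Nat.mul_pos (pow_pos hp.out.pos n) h3
  have : FiniteDimensional ℚ R := Module.finite_of_finrank_pos (by rw [hdR]; exact hpos)
  obtain ⟨Q, hQ, hdQ⟩ := sub_deg R (p ^ n) b hdR
  exact ⟨Q, hdQ, fun x hx => hRr x (hQ hx), n + 1, hQ.trans hRle⟩

end LAYx

/-- LAY. -/
theorem tf_LAY : Sf_LAY := by
  intro p hp h2
  choose B hB using LAYx.lay_exists p h2
  refine ⟨B, hB, monotone_nat_of_le_succ fun n => ?_, fun n Q hQ => LAYx.lay_uniq p n Q (B n) hQ (hB n)⟩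
  obtain ⟨hd, hr, m, hle⟩ := hB (n + 1)
  have hN : p ^ m ≠ 0 := pow_ne_zero _ hp.out.ne_zero
  obtain ⟨hG, hcyc⟩ := LAYx.cycF (F := ℚ) (E := ℂ) p m
    (cyclotomic.irreducible_rat (Nat.pos_of_ne_zero hN)) (Complex.isPrimitiveRoot_exp _ hN)
    ((Complex.conjAe.toAlgHom).restrictScalars ℚ) (LAYx.croot p m) (B (n + 1)) hle hr
  have : FiniteDimensional ℚ (B (n + 1)) :=
    Module.finite_of_finrank_pos (by rw [hd]; exact pow_pos hp.out.pos (n + 1))
  obtain ⟨Q, hQ, hdQ⟩ := LAYx.sub_deg (B (n + 1)) (p ^ n) p (by rw [hd, pow_succ])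
  have h1 : Q = B n := LAYx.lay_uniq p n Q (B n)
    ⟨hdQ, fun x hx => hr x (hQ hx), m, hQ.trans hle⟩ (hB n)
  rw [← h1]
  exact hQ

end Pool.Agent.OBF


end

section

/-!
# OB, FINAL (helper60): the bound, the twists, the two branches
-/

set_option autoImplicit false

open NumberField IsDedekindDomain Finset
open scoped nonZeroDivisors Pointwise

namespace Pool.Agent.OBF

open _root_.Pool.Agent.RI _root_.Pool.Agent.RID _root_.Pool.Agent.MU3 _root_.Pool.Agent.MUXK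
  _root_.Pool.Agent.MUXZ _root_.Pool.Agent.NSI _root_.Pool.Agent.OB

open CHIx

/-- From the nilpotency to the bound for the dimensions. -/
theorem nil_bnd (F : Type) [Field F] (p : ℕ) [Fact p.Prime] [CharP F p]
    (k K : IntermediateField ℚ ℂ) (B : ℕ → IntermediateField ℚ ℂ)
    [FiniteDimensional ℚ K] [∀ n, FiniteDimensional ℚ ↥(K ⊔ B n)] (hB : BasX p k K B)
    (hk : ∀ n, k ≤ K ⊔ B n) (hkK : k ≤ K)
    (χ : letI := algC hkK; (↥K ≃ₐ[k] ↥K) →* Fˣ) (l : ℕ) (hl : NilC F k K B hk hkK χ l) :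
    ∃ C : ℕ, ∀ n : ℕ, Module.Finite F (EigS F k K B n (hk n) hkK χ) ∧
      Module.finrank F (EigS F k K B n (hk n) hkK χ) ≤ C * (n + 1) := by
  obtain ⟨a₀, a₁, ha⟩ := amb_layers k_GENX p k K B hB.hk hB.deg hB.lay hB.mono
  refine ⟨l * (a₀ + a₁), fun n => ?_⟩
  let akK := algC hkK
  let akL := algC (hk n)
  obtain ⟨g, hg, hle⟩ := ha n (hk n)
  have comm := (k_GALX p k K B hB n (hk n)).2
  obtain ⟨h5, h6⟩ := bnd_level p l F k ↥(K ⊔ B n) (EigS F k K B n (hk n) hkK χ)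
    (fun f hf => hf.1) (fun f hf => hf.2.1) g (by
      rintro f ⟨e1, e2, e3⟩
      refine ⟨fun x y => ?_, fun x hx => ?_, fun δ s hs x => ?_⟩
      · show f (dg g (x * y)) = f (dg g x) + f (dg g y)
        rw [map_mul, e1]
      · show f (dg g x) = 0
        apply e2
        obtain ⟨a, rfl⟩ := hx
        rw [dg_apply, smul_prin, ← map_div]
        exact ⟨_, rfl⟩
      · show f (dg g ((δ : ↥(K ⊔ B n) ≃ₐ[k] ↥(K ⊔ B n)) • x)) = (χ s : F) * f (dg g x)
        rw [← e3 δ s hs (dg g x)]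
        congr 1
        rw [dg_apply, dg_apply, smul_div', ← mul_smul, ← mul_smul, comm])
    (fun f hf b => hl n g hg f hf b)
  refine ⟨h5, h6.trans ((Nat.mul_le_mul_left l hle).trans ?_)⟩
  have h7 : a₀ + n * a₁ ≤ (a₀ + a₁) * (n + 1) := by nlinarith
  calc l * (a₀ + n * a₁) ≤ l * ((a₀ + a₁) * (n + 1)) := Nat.mul_le_mul_left l h7
    _ = l * (a₀ + a₁) * (n + 1) := by ring

/-- From the nilpotency to `MuZeroC`. -/
theorem nil_mu (p : ℕ) [Fact p.Prime] (k K : IntermediateField ℚ ℂ)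
    (B : ℕ → IntermediateField ℚ ℂ) [FiniteDimensional ℚ K]
    [∀ n, FiniteDimensional ℚ ↥(K ⊔ B n)] (hB : BasX p k K B)
    (hu : ∀ (n : ℕ) (Q : IntermediateField ℚ ℂ), RI.IsLayer p n Q → Q = B n)
    (hk : ∀ n, k ≤ K ⊔ B n) (h : k ≤ K) (χ : MuCyc.Chr p h) (l : ℕ)
    (hl : NilC (AlgebraicClosure (ZMod p)) k K B hk h (toC h χ) l) : MuCyc.MuZeroC p h χ := by
  obtain ⟨C, hC⟩ := nil_bnd (AlgebraicClosure (ZMod p)) p k K B hB hk h (toC h χ) l hl
  refine ⟨C, fun n Q hQ => ?_⟩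
  obtain rfl : Q = B n := hu n Q hQ
  exact (chi_eig p k K h B n (hk n) χ (hC n).1).trans (hC n).2

/-- The even branch. -/
theorem one_even (hLAY : Sf_LAY) (hBAX : Sq_BAX) (hNIL : O_NIL) (p : ℕ) [Fact p.Prime]
    (hp : 5 ≤ p) (k K : IntermediateField ℚ ℂ) [FiniteDimensional ℚ K] (h : k ≤ K)
    (hG : IsGalois k (IntermediateField.extendScalars h))
    (hc : ∀ σ τ : (IntermediateField.extendScalars h) ≃ₐ[k] (IntermediateField.extendScalars h),
      σ * τ = τ * σ)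
    (h2 : Module.finrank ℚ k = 2) (hi : ∃ z ∈ k, (starRingEnd ℂ) z ≠ z)
    (h4 : ∀ z ∈ k, z ^ 2 ≠ -1) (h3 : ∀ z ∈ k, z ^ 2 ≠ -3)
    (hd : ¬ p ∣ Module.finrank k (IntermediateField.extendScalars h))
    (hz : ∃ ζ ∈ K, IsPrimitiveRoot ζ p) (χ : MuCyc.Chr p h) :
    ∃ (j : ℕ) (χ' : MuCyc.Chr p h), j < p - 1 ∧ Even j ∧ MuCyc.IsTwist p h χ χ' j ∧
      MuCyc.MuZeroC p h χ' := by
  have hpp : p.Prime := Fact.out
  obtain ⟨B, hlay, hmono, hu⟩ := hLAY p (by omega)
  have hfk : FiniteDimensional ℚ k :=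
    FiniteDimensional.of_injective (IntermediateField.inclusion h).toLinearMap
      (IntermediateField.inclusion h).injective
  have hfB : ∀ n, FiniteDimensional ℚ (B n) := fun n =>
    Module.finite_of_finrank_pos (by rw [(hlay n).1]; exact pow_pos hpp.pos n)
  have hfL : ∀ n, FiniteDimensional ℚ ↥(K ⊔ B n) := fun n =>
    IntermediateField.finiteDimensional_sup K (B n)
  have hdeg : ¬ p ∣ Module.finrank ℚ K := by
    letI := algC h
    have e1 : Module.finrank ℚ k * Module.finrank k K = Module.finrank ℚ K := by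
      have : IsScalarTower ℚ k K := IsScalarTower.of_algebraMap_eq fun _ => rfl
      exact Module.finrank_mul_finrank ℚ k K
    rw [← e1, finrank_algC h, h2, hpp.dvd_mul, not_or]
    refine ⟨fun h0 => ?_, hd⟩
    have := Nat.le_of_dvd (by norm_num) h0
    omega
  have hB : BasX p k K B := hBAX p k K B h hG hc hdeg hlay hmono
  obtain ⟨j, χ', hj, hev, htw, l, hl⟩ := hNIL p hp k K B hB
    (fun n => h.trans le_sup_left) h h2 hi h4 h3 hd hz (toC h χ)
  refine ⟨j, ofC h χ', hj, hev, ?_, ?_⟩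
  · intro s' c hs
    letI := algC h
    let s : ↥K ≃ₐ[k] ↥K := AlgEquiv.autCongr (extEquiv h) s'
    have e1 : toC h χ s = χ s' := toC_apply h χ s s' (by
      intro x x' hx
      obtain rfl : x' = ⟨(x : ℂ), x.2⟩ := Subtype.ext hx
      rfl)
    have e2 := htw s c (by
      intro z hz'
      have h5 := hs ⟨(z : ℂ), z.2⟩ (by
        apply Subtype.ext
        exact congrArg Subtype.val hz')
      apply Subtype.ext
      exact congrArg Subtype.val h5)
    rw [e1] at e2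
    exact e2
  · apply nil_mu p k K B hB hu (fun n => h.trans le_sup_left) h (ofC h χ') l
    rw [toC_ofC]
    exact hl

end Pool.Agent.OBF


end

section

/-!
# OB, FINAL (helper60): the character `ω`, both branches, counting, complex conjugation
-/

set_option autoImplicit false

open NumberField IsDedekindDomain Finset
open scoped nonZeroDivisors Pointwise

namespace Pool.Agent.OBF

open _root_.Pool.Agent.RI _root_.Pool.Agent.RID _root_.Pool.Agent.MU3 _root_.Pool.Agent.MUXK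
  _root_.Pool.Agent.MUXZ _root_.Pool.Agent.NSI _root_.Pool.Agent.OB

open CHIx

/-- The character `ω`. -/
theorem exists_omega (p : ℕ) [Fact p.Prime] {k K : IntermediateField ℚ ℂ} (h : k ≤ K)
    (hz : ∃ ζ ∈ K, IsPrimitiveRoot ζ p) :
    ∃ ω : MuCyc.Chr p h, (∀ (χ χ' : MuCyc.Chr p h) (j : ℕ),
      MuCyc.IsTwist p h χ χ' j ↔ χ' = χ * ω ^ j) ∧
      (∀ s : MuCyc.Gal h, ∃ c : ℕ, (∀ z : IntermediateField.extendScalars h, z ^ p = 1 →
        s z = z ^ c) ∧ ((ω s : (AlgebraicClosure (ZMod p))ˣ) : AlgebraicClosure (ZMod p)) = c) ∧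
      ω ^ (p - 1) = 1 := by
  have hpp : p.Prime := Fact.out
  have : NeZero p := ⟨hpp.ne_zero⟩
  obtain ⟨ζ, hζ, hp⟩ := hz
  let μ : IntermediateField.extendScalars h := ⟨ζ, hζ⟩
  have hμ : IsPrimitiveRoot μ p := by
    apply IsPrimitiveRoot.of_map_of_injective (f := algebraMap
      (IntermediateField.extendScalars h) ℂ) (by exact hp)
    exact (algebraMap (IntermediateField.extendScalars h) ℂ).injective
  let ω : MuCyc.Chr p h :=
    (Units.map (algebraMap (ZMod p) (AlgebraicClosure (ZMod p)) :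
      ZMod p →* AlgebraicClosure (ZMod p))).comp (hμ.autToPow k)
  have hω : ∀ s : MuCyc.Gal h, ((ω s : (AlgebraicClosure (ZMod p))ˣ) :
      AlgebraicClosure (ZMod p)) =
      (((hμ.autToPow k s : (ZMod p)ˣ) : ZMod p).val : AlgebraicClosure (ZMod p)) := by
    intro s
    show algebraMap (ZMod p) (AlgebraicClosure (ZMod p)) ((hμ.autToPow k s : (ZMod p)ˣ) : ZMod p) =
      _
    conv_lhs => rw [← ZMod.natCast_zmod_val ((hμ.autToPow k s : (ZMod p)ˣ) : ZMod p)]
    rw [map_natCast]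
  have hspec : ∀ s : MuCyc.Gal h, ∀ z : IntermediateField.extendScalars h, z ^ p = 1 →
      s z = z ^ ((hμ.autToPow k s : (ZMod p)ˣ) : ZMod p).val := by
    intro s z hz
    obtain ⟨i, -, rfl⟩ := hμ.eq_pow_of_pow_eq_one hz
    rw [map_pow, ← hμ.autToPow_spec k s, ← pow_mul, ← pow_mul, mul_comm]
  have hcast : ∀ (s : MuCyc.Gal h) (c : ℕ),
      (∀ z : IntermediateField.extendScalars h, z ^ p = 1 → s z = z ^ c) →
      (c : AlgebraicClosure (ZMod p)) = ω s := by
    intro s c hs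
    rw [hω]
    have h1 := hs μ hμ.pow_eq_one
    rw [hspec s μ hμ.pow_eq_one] at h1
    have h2 : μ ^ (c % p) = μ ^ c := by
      conv_rhs => rw [← Nat.div_add_mod c p, pow_add, pow_mul, hμ.pow_eq_one, one_pow, one_mul]
    rw [← h2] at h1
    have h3 := hμ.pow_inj (ZMod.val_lt _) (Nat.mod_lt c hpp.pos) h1
    have h4 : ((c % p : ℕ) : AlgebraicClosure (ZMod p)) = (c : AlgebraicClosure (ZMod p)) := by
      conv_rhs => rw [← Nat.div_add_mod c p]
      rw [Nat.cast_add, Nat.cast_mul, CharP.cast_eq_zero (AlgebraicClosure (ZMod p)) p, zero_mul,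
        zero_add]
    rw [← h4, h3]
  refine ⟨ω, fun χ χ' j => ⟨fun ht => ?_, ?_⟩, fun s => ⟨_, hspec s, hω s⟩, ?_⟩
  · apply MonoidHom.ext
    intro s
    apply Units.ext
    have h1 := ht s _ (hspec s)
    rw [h1, ← hω]
    simp
  · rintro rfl s c hs
    rw [hcast s c hs]
    simp
  · apply MonoidHom.ext
    intro s
    have h1 : (hμ.autToPow k s) ^ (p - 1) = 1 := ZMod.units_pow_card_sub_one_eq_one p _
    show (ω s) ^ (p - 1) = 1
    show ((Units.map (algebraMap (ZMod p) (AlgebraicClosure (ZMod p)) :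
      ZMod p →* AlgebraicClosure (ZMod p))) (hμ.autToPow k s)) ^ (p - 1) = 1
    rw [← map_pow, h1, map_one]

instance finChr (p : ℕ) [Fact p.Prime] {k K : IntermediateField ℚ ℂ} [FiniteDimensional ℚ K]
    (h : k ≤ K) : Finite (MuCyc.Chr p h) := by
  have : FiniteDimensional k (IntermediateField.extendScalars h) := by
    letI := algC h
    have : FiniteDimensional k K := by
      have : IsScalarTower ℚ k K := IsScalarTower.of_algebraMap_eq fun _ => rfl
      exact FiniteDimensional.right ℚ k K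
    exact Module.Finite.equiv (extEquiv h).symm.toLinearEquiv
  have : Finite (MuCyc.Gal h) := inferInstance
  infer_instance

/-- The number of the characters. -/
theorem card_chr (p : ℕ) [Fact p.Prime] {k K : IntermediateField ℚ ℂ} [FiniteDimensional ℚ K]
    (h : k ≤ K) (hG : IsGalois k (IntermediateField.extendScalars h))
    (hc : ∀ σ τ : (IntermediateField.extendScalars h) ≃ₐ[k] (IntermediateField.extendScalars h),
      σ * τ = τ * σ)
    (hd : ¬ p ∣ Module.finrank k (IntermediateField.extendScalars h)) :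
    Nat.card (MuCyc.Chr p h) = Module.finrank k (IntermediateField.extendScalars h) := by
  have : FiniteDimensional k (IntermediateField.extendScalars h) := by
    letI := algC h
    have : FiniteDimensional k K := by
      have : IsScalarTower ℚ k K := IsScalarTower.of_algebraMap_eq fun _ => rfl
      exact FiniteDimensional.right ℚ k K
    exact Module.Finite.equiv (extEquiv h).symm.toLinearEquiv
  let G : CommGroup (MuCyc.Gal h) := { (inferInstance : Group (MuCyc.Gal h)) with mul_comm := hc }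
  have hcard : Nat.card (MuCyc.Gal h) =
      Module.finrank k (IntermediateField.extendScalars h) := IsGalois.card_aut_eq_finrank _ _
  have hexp : ¬ p ∣ Monoid.exponent (MuCyc.Gal h) := by
    intro h0
    apply hd
    rw [← hcard]
    exact h0.trans (Group.exponent_dvd_nat_card)
  have : NeZero ((Monoid.exponent (MuCyc.Gal h) : ℕ) : AlgebraicClosure (ZMod p)) := by
    refine ⟨fun h0 => hexp ?_⟩
    exact (CharP.cast_eq_zero_iff (AlgebraicClosure (ZMod p)) p _).1 h0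
  rw [← hcard]
  exact CommGroup.card_monoidHom_of_hasEnoughRootsOfUnity (MuCyc.Gal h)
    (AlgebraicClosure (ZMod p))

/-- Double counting. -/
theorem count {X : Type} [CommGroup X] [Finite X] (ω : X) (S : Set X) (N : ℕ)
    (hS : ∀ χ : X, ∃ i j : ℕ, i < N ∧ j < N ∧ i ≠ j ∧ χ * ω ^ i ∈ S ∧ χ * ω ^ j ∈ S) :
    2 * Nat.card X ≤ N * Nat.card {χ : X // χ ∈ S} := by
  classical
  have := Fintype.ofFinite X
  let T : Finset (X × ℕ) := ((Finset.univ : Finset X) ×ˢ Finset.range N).filter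
    (fun q => q.1 * ω ^ q.2 ∈ S)
  have h1 : T.card = N * Nat.card {χ : X // χ ∈ S} := by
    have e1 : T.card = ∑ i ∈ Finset.range N, Nat.card {χ : X // χ ∈ S} := by
      rw [Finset.card_eq_sum_card_fiberwise (f := fun q => q.2) (t := Finset.range N)
        (fun q hq => (Finset.mem_product.1 (Finset.mem_filter.1 hq).1).2)]
      refine Finset.sum_congr rfl fun i hi => ?_
      rw [Nat.card_eq_fintype_card, Fintype.card_subtype]
      refine Finset.card_bij (fun q _ => q.1 * ω ^ q.2) ?_ ?_ ?_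
      · intro q hq
        rw [Finset.mem_filter] at hq ⊢
        exact ⟨Finset.mem_univ _, (Finset.mem_filter.1 hq.1).2⟩
      · intro q hq q' hq' he
        rw [Finset.mem_filter] at hq hq'
        have e2 : q.2 = q'.2 := hq.2.trans hq'.2.symm
        rw [e2] at he
        exact Prod.ext (mul_right_cancel he) e2
      · intro χ hχ
        refine ⟨(χ * (ω ^ i)⁻¹, i), ?_, inv_mul_cancel_right _ _⟩
        rw [Finset.mem_filter, Finset.mem_filter]
        refine ⟨⟨Finset.mem_product.2 ⟨Finset.mem_univ _, hi⟩, ?_⟩, rfl⟩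
        show χ * (ω ^ i)⁻¹ * ω ^ i ∈ S
        rw [inv_mul_cancel_right]
        exact (Finset.mem_filter.1 hχ).2
    rw [e1, Finset.sum_const, Finset.card_range, smul_eq_mul]
  have h2 : 2 * Nat.card X ≤ T.card := by
    rw [Finset.card_eq_sum_card_fiberwise (f := fun q => q.1) (t := (Finset.univ : Finset X))
        (fun q _ => Finset.mem_univ _)]
    have e1 : ∀ χ ∈ (Finset.univ : Finset X), 2 ≤ (T.filter (fun q => q.1 = χ)).card := by
      intro χ _
      obtain ⟨i, j, hi, hj, hne, h3, h4⟩ := hS χ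
      have : ({(χ, i), (χ, j)} : Finset (X × ℕ)) ⊆ T.filter (fun q => q.1 = χ) := by
        intro q hq
        rw [Finset.mem_insert, Finset.mem_singleton] at hq
        rcases hq with rfl | rfl
        · exact Finset.mem_filter.2 ⟨Finset.mem_filter.2 ⟨Finset.mem_product.2
            ⟨Finset.mem_univ _, Finset.mem_range.2 hi⟩, h3⟩, rfl⟩
        · exact Finset.mem_filter.2 ⟨Finset.mem_filter.2 ⟨Finset.mem_product.2
            ⟨Finset.mem_univ _, Finset.mem_range.2 hj⟩, h4⟩, rfl⟩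
      refine le_trans ?_ (Finset.card_le_card this)
      rw [Finset.card_pair]
      intro h0
      exact hne (congrArg Prod.snd h0)
    calc 2 * Nat.card X = ∑ _χ ∈ (Finset.univ : Finset X), 2 := by
          rw [Finset.sum_const, Finset.card_univ, smul_eq_mul, Nat.card_eq_fintype_card, mul_comm]
      _ ≤ _ := Finset.sum_le_sum e1
  exact h2.trans h1.le

/-- Both branches and the number of the good characters. -/
theorem one_both (hLAY : Sf_LAY) (hBAX : Sq_BAX) (hNIL : O_NIL) (p : ℕ) [Fact p.Prime]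
    (hp : 5 ≤ p) (k K : IntermediateField ℚ ℂ) [FiniteDimensional ℚ K] (h : k ≤ K)
    (hG : IsGalois k (IntermediateField.extendScalars h))
    (hc : ∀ σ τ : (IntermediateField.extendScalars h) ≃ₐ[k] (IntermediateField.extendScalars h),
      σ * τ = τ * σ)
    (h2 : Module.finrank ℚ k = 2) (hi : ∃ z ∈ k, (starRingEnd ℂ) z ≠ z)
    (h4 : ∀ z ∈ k, z ^ 2 ≠ -1) (h3 : ∀ z ∈ k, z ^ 2 ≠ -3)
    (hd : ¬ p ∣ Module.finrank k (IntermediateField.extendScalars h))
    (hz : ∃ ζ ∈ K, IsPrimitiveRoot ζ p) :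
    (∀ χ : MuCyc.Chr p h, ∃ i j : ℕ, i < p - 1 ∧ j < p - 1 ∧ Even i ∧ Odd j ∧
      (∃ χ' : MuCyc.Chr p h, MuCyc.IsTwist p h χ χ' i ∧ MuCyc.MuZeroC p h χ') ∧
      ∃ χ' : MuCyc.Chr p h, MuCyc.IsTwist p h χ χ' j ∧ MuCyc.MuZeroC p h χ') ∧
    2 * Module.finrank k (IntermediateField.extendScalars h) ≤
      (p - 1) * Nat.card {χ : MuCyc.Chr p h // MuCyc.MuZeroC p h χ} := by
  obtain ⟨ω, hω, -, -⟩ := exists_omega p h hz
  have hpp : p.Prime := Fact.out
  have hodd : Odd p := hpp.odd_of_ne_two (by omega)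
  have key : ∀ χ : MuCyc.Chr p h, ∃ i j : ℕ, i < p - 1 ∧ j < p - 1 ∧ Even i ∧ Odd j ∧
      MuCyc.MuZeroC p h (χ * ω ^ i) ∧ MuCyc.MuZeroC p h (χ * ω ^ j) := by
    intro χ
    obtain ⟨i, χ₁, hi1, hi2, hi3, hi4⟩ :=
      one_even hLAY hBAX hNIL p hp k K h hG hc h2 hi h4 h3 hd hz χ
    obtain ⟨j, χ₂, hj1, hj2, hj3, hj4⟩ :=
      one_even hLAY hBAX hNIL p hp k K h hG hc h2 hi h4 h3 hd hz (χ * ω)
    rw [hω] at hi3 hj3
    subst hi3 hj3
    refine ⟨i, j + 1, hi1, ?_, hi2, hj2.add_one, hi4, ?_⟩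
    · obtain ⟨a, ha⟩ := hj2
      obtain ⟨b, hb⟩ := hodd
      omega
    · have e1 : χ * ω ^ (j + 1) = χ * ω * ω ^ j :=
        (congrArg (χ * ·) (pow_succ' ω j)).trans (mul_assoc χ ω (ω ^ j)).symm
      rw [e1]
      exact hj4
  refine ⟨fun χ => ?_, ?_⟩
  · obtain ⟨i, j, h5, h6, h7, h8, h9, h10⟩ := key χ
    exact ⟨i, j, h5, h6, h7, h8, ⟨_, (hω _ _ _).2 rfl, h9⟩, ⟨_, (hω _ _ _).2 rfl, h10⟩⟩
  · rw [← card_chr p h hG hc hd]
    refine count ω {χ | MuCyc.MuZeroC p h χ} (p - 1) fun χ => ?_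
    obtain ⟨i, j, h5, h6, h7, h8, h9, h10⟩ := key χ
    refine ⟨i, j, h5, h6, ?_, h9, h10⟩
    rintro rfl
    exact (Nat.not_even_iff_odd.2 h8) h7

end Pool.Agent.OBF


end
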