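import Pool.Agent.MVF.C044
import Pool.Agent.MVF.C076
import Pool.Agent.MVF.C078
import Pool.Agent.MVF.C092
import Pool.Agent.MVF.C110
import Pool.Agent.MVF.C117
import Pool.Agent.MVF.C134
import Pool.Agent.MVF.C169
import Pool.Agent.OBM.C01
import Pool.Agent.OBM.C02
import Pool.Agent.OBM.C03
import Pool.Agent.OBM.C20

/-! Parts: OB.J_LEVO, OB.K_NILO, OB.J_SETO, OB.Z_EINP, OB.J_VEXO, OB.Z_INPO -/

section

/-!
# OB, block J: a field of degree prime to `p` over `k` has a level `f q0`, `d ∣ f`, every prime `p` (helper19)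

The proof of `Pool/Agent/MUX/J_LEVG.lean` (helper92), which is valid for every prime.
-/

set_option autoImplicit false

namespace Pool.Agent.OB

open _root_.MU3 Pool.Agent.MU3 Pool.Agent.MU3A Pool.Agent.MU3B Pool.Agent.RI Pool.Agent.RID
  Pool.Agent.MUX Pool.Agent.MUXK Pool.Agent.MUXE Pool.Agent.MUXJ

noncomputable section

open LEV in
/-- a field of degree prime to `p` over `k` is contained in a ray class field of level `f q0` -/
theorem t_LEVO (p d : ℕ) (A B : ℤ) (_ : CQ A B) (hp : p.Prime) (hd0 : d ≠ 0) (hdp : ¬ p ∣ d)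
    (T : TorX A B) (hN : NLex A B) (K : IntermediateField ℚ ℂ) [FiniteDimensional ℚ K]
    (hk : kk A B ≤ K)
    (hKp : ¬ p ∣ Module.finrank (kk A B) (IntermediateField.extendScalars hk)) (M : ℕ)
    (hM0 : M ≠ 0) (hM : ∀ x ∈ K, x ∈ RF (idl (A := A) (B := B) M)) :
    ∃ f : ℕ, f ≠ 0 ∧ ¬ p ∣ f ∧ d ∣ f ∧
      ∀ x ∈ K, x ∈ RF (idl (A := A) (B := B) (lvX p f 0)) := by
  obtain ⟨j, M', hM', hMj⟩ := Nat.exists_eq_pow_mul_and_not_dvd hM0 p hp.ne_one
  have hM'0 : M' ≠ 0 := by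
    rintro rfl
    exact hM' (dvd_zero p)
  set f : ℕ := d * M' with hf
  have hf0 : f ≠ 0 := mul_ne_zero hd0 hM'0
  have hfp : ¬ p ∣ f := by
    rw [hf, hp.dvd_mul]
    push Not
    exact ⟨hdp, hM'⟩
  have hq0 : q0 p ≠ 0 := by
    unfold q0
    split_ifs with h2
    · norm_num
    · exact hp.ne_zero
  have hpq0 : p ∣ q0 p := by
    unfold q0
    split_ifs with h2
    · rw [h2]; norm_num
    · exact dvd_rfl
  refine ⟨f, hf0, hfp, Dvd.intro _ rfl, ?_⟩
  -- the two levels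
  set m1 : Ideal (OO A B) := idl (lvX p f j) with hm1
  set m0 : Ideal (OO A B) := idl (lvX p f 0) with hm0
  have hm1' : m1 ≠ ⊥ := idl_ne (mul_ne_zero (mul_ne_zero hf0 hq0) (pow_ne_zero _ hp.ne_zero))
  have hm0' : m0 ≠ ⊥ := idl_ne (mul_ne_zero (mul_ne_zero hf0 hq0) (pow_ne_zero _ hp.ne_zero))
  have h01 : m1 ≤ m0 := idl_le (mul_dvd_mul_left _ (pow_dvd_pow p (Nat.zero_le j)))
  have hMm : m1 ≤ idl M := idl_le (by
    rw [hMj]
    exact ⟨d * q0 p, by unfold lvX; rw [hf]; ring⟩)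
  have hK1 : ∀ x ∈ K, x ∈ RF m1 := fun x hx => T.mono _ _ hMm (hM x hx)
  have hfin := T.fin m1 hm1'
  have hgal := T.gal m1 hm1'
  have h01' : RF m0 ≤ RF m1 := T.mono _ _ h01
  let K' : IntermediateField (kk A B) ℂ := IntermediateField.extendScalars hk
  have hK' : K' ≤ RF m1 := fun x hx => hK1 x hx
  let E : IntermediateField (kk A B) (RF m1) := IntermediateField.restrict hK'
  let F0 : IntermediateField (kk A B) (RF m1) := IntermediateField.restrict h01'
  have hcomm := T.comm m1 hm1'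
  have hnorm : E.fixingSubgroup.Normal := by
    constructor
    intro n hn g
    rw [hcomm g n, mul_assoc, mul_inv_cancel, mul_one]
    exact hn
  have hidx : ¬ p ∣ E.fixingSubgroup.index := by
    rw [← IntermediateField.finrank_eq_fixingSubgroup_index,
      ← (IntermediateField.restrictAlgEquiv hK').toLinearEquiv.finrank_eq]
    exact hKp
  -- elements which are trivial on `RF m0`
  have hkey : F0.fixingSubgroup ≤ E.fixingSubgroup := by
    intro σ hσ
    rw [IntermediateField.mem_fixingSubgroup_iff] at hσ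
    obtain ⟨s, hs, hsσ⟩ := lift T hm1' σ
    obtain ⟨a, hac, ha⟩ := T.act m1 hm1' s hs
    obtain ⟨b, L, om, hL⟩ := hN
    obtain ⟨b', L', om', mu, hL', hact⟩ := ha b L om hL
    have htr0 : ∀ y ∈ RF m0, s y = y := by
      intro y hy
      have h1 := hsσ ⟨y, h01' hy⟩
      have h2 := hσ ⟨y, h01' hy⟩ ((IntermediateField.mem_restrict h01' _).2 hy)
      rw [h2] at h1
      exact h1
    obtain ⟨x, hx, hax⟩ := (T.triv m0 a s b L L' om mu hm0' hs hL (act_mono h01 hact) hL'.nrm).1 htr0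
    -- powers
    have hpow : ∀ n : ℕ, ∃ t : ℂ ≃+* ℂ, FixK A B t ∧
        (∀ y : RF m1, t (y : ℂ) = ((σ ^ (n + 1)) y : ℂ)) ∧
        ∃ (b' : Ideal (OO A B)) (L' : PeriodPair) (om' mu : ℂ), IsNL b' L' om' ∧
          ActI t m1 (a ^ (n + 1)) L L' mu := by
      intro n
      induction n with
      | zero =>
        refine ⟨s, hs, fun y => ?_, b', L', om', mu, hL', ?_⟩
        · rw [zero_add, pow_one]; exact hsσ y
        · rw [zero_add, pow_one]; exact hact
      | succ n ih =>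
        obtain ⟨t, ht, ht1, b₁, L₁, om₁, mu₁, hL₁, hact₁⟩ := ih
        obtain ⟨b₂, L₂, om₂, mu₂, hL₂, hact₂⟩ := ha b₁ L₁ om₁ hL₁
        refine ⟨t.trans s, ?_, fun y => ?_, b₂, L₂, om₂, mu₂ * mu₁, hL₂, ?_⟩
        · show s (t (wC A B)) = wC A B
          rw [show t (wC A B) = wC A B from ht]
          exact hs
        · show s (t (y : ℂ)) = _
          rw [ht1 y, hsσ, pow_succ' σ (n + 1)]
          rfl
        · rw [pow_succ a (n + 1)]
          exact T.comp m1 _ a t s L L₁ L₂ mu₁ mu₂ hact₁ hact₂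
    have hpj : 0 < p ^ j := pow_pos hp.pos j
    obtain ⟨t, ht, ht1, b₁, L₁, om₁, mu₁, hL₁, hact₁⟩ := hpow (p ^ j - 1)
    rw [Nat.sub_add_cancel hpj] at ht1 hact₁
    have h3 : x ^ p ^ j - 1 ∈ m1 := by
      have h4 : ((f * q0 p : ℕ) : OO A B) ∣ x - 1 := by
        have h5 := Ideal.mem_span_singleton.1 hx
        simpa [lvX] using h5
      have h5 : ((p : ℕ) : OO A B) ∣ ((f * q0 p : ℕ) : OO A B) :=
        Nat.cast_dvd_cast (hpq0.mul_left f)
      have h6 := pow_dvd p _ x h5 h4 j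
      rw [hm1, Ideal.mem_span_singleton]
      unfold lvX
      push_cast at h6 ⊢
      exact h6
    have h4 : σ ^ p ^ j = 1 := by
      have h5 := (T.triv m1 _ t b L L₁ om mu₁ hm1' ht hL hact₁ hL₁.nrm).2
        ⟨x ^ p ^ j, h3, by rw [hax, Ideal.span_singleton_pow]⟩
      refine AlgEquiv.ext fun y => Subtype.ext ?_
      rw [← ht1 y, h5 y y.2]
      rfl
    have h5 : σ ^ E.fixingSubgroup.index ∈ E.fixingSubgroup := Subgroup.pow_index_mem _ σ
    refine mem_of_pow_mem _ (m := p ^ j) (by rw [h4]; exact one_mem _) h5 ?_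
    exact Nat.Coprime.pow_left j ((Nat.Prime.coprime_iff_not_dvd hp).2 hidx)
  have hEF : E ≤ F0 := by
    rw [← IsGalois.fixedField_fixingSubgroup F0, IntermediateField.le_iff_le]
    exact hkey
  intro x hx
  have h1 : (⟨x, hK1 x hx⟩ : RF m1) ∈ F0 :=
    hEF ((IntermediateField.mem_restrict hK' _).2 hx)
  exact (IntermediateField.mem_restrict h01' _).1 h1

end

end Pool.Agent.OB


end

section

/-!
# OB, block K for one character: NILO (NILP for one eigenfunctional)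
-/

set_option autoImplicit false

open NumberField IsDedekindDomain Finset Filter Topology
open scoped nonZeroDivisors Pointwise

namespace Pool.Agent.OB

open _root_.Pool.Agent.MU3 _root_.Pool.Agent.RI _root_.Pool.Agent.RID _root_.Pool.Agent.MUXK
  _root_.Pool.Agent.MUXZ _root_.Pool.Agent.NSI _root_.Pool.Agent.Lib_helper28.FROB

open _root_.Pool.Agent.MUXK.NILP _root_.Pool.Agent.MU3.P_NIL in
theorem t_NILO (h2 : S_STABX) (h3 : S_THDX) (h4 : S_NRJ) (h5 : S_NIX)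
    (h6 : S_NILXX) : S_NILO := by
  classical
  intro p _ F _ _ k L M _ _ _ _ _ _ _ _ _ _ _ _ n m m₀ γ D _ hTw hmn S ζ hζ h2S hpS hpr
    hram hdec c hK χ θ hθ' f hf hfp hfχ b
  have hp : p.Prime := Fact.out
  set P : Subgroup (J L) := (prin : Lˣ →* J L).range ⊔ (powMonoidHom p : J L →* J L).range
    with hP
  have hprin : ∀ (σ : L ≃ₐ[k] L), ∀ x ∈ (prin : Lˣ →* J L).range,
      σ • x ∈ (prin : Lˣ →* J L).range := by
    rintro σ _ ⟨a, rfl⟩
    rw [smul_prin]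
    exact ⟨_, rfl⟩
  have hPmem : ∀ x : J L, x ∈ P ↔ ∃ (a : Lˣ) (y : J L), prin a * y ^ p = x := by
    intro x
    rw [hP, Subgroup.mem_sup]
    constructor
    · rintro ⟨_, ⟨a, rfl⟩, _, ⟨y, rfl⟩, rfl⟩
      exact ⟨a, y, rfl⟩
    · rintro ⟨a, y, rfl⟩
      exact ⟨_, ⟨a, rfl⟩, _, ⟨y, rfl⟩, rfl⟩
  have hst : ∀ (σ : L ≃ₐ[k] L), ∀ x ∈ P, σ • x ∈ P := by
    intro σ x hx
    obtain ⟨a, y, rfl⟩ := (hPmem x).1 hx
    refine (hPmem _).2 ⟨σ • a, σ • y, ?_⟩
    rw [smul_mul', smul_prin, smul_pow']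
  have hcu : ∀ x : J L, x ^ p ∈ P := by
    intro x
    exact (hPmem _).2 ⟨1, x, by rw [map_one, one_mul]⟩
  obtain ⟨N, hN1, hN2, hN3⟩ := h4 k L M
  -- restriction and extension of automorphisms
  have hres : ∀ σ : M ≃ₐ[k] M, ∃ τ : L ≃ₐ[k] L, ∀ x : L,
      algebraMap L M (τ x) = σ (algebraMap L M x) := by
    intro σ
    exact ⟨σ.restrictNormal L, fun x => σ.restrictNormal_commutes L x⟩
  have hext : ∃ σ : M ≃ₐ[k] M, ∀ x : L, algebraMap L M (γ x) = σ (algebraMap L M x) := by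
    obtain ⟨σ, hσ⟩ := AlgEquiv.restrictNormalHom_surjective (F := k) (K₁ := L) M γ
    refine ⟨σ, fun x => ?_⟩
    rw [← hσ]
    exact σ.restrictNormal_commutes L x
  obtain ⟨γ', hγ'⟩ := hext
  have hNγ : ∀ z : J M, N (γ' • z) = γ • N z := hN3 γ' γ hγ'
  -- the first part
  have hf1 : f 1 = 0 := by
    have := hf 1 1
    rw [mul_one] at this
    simpa using this
  have hfi : ∀ y, f y⁻¹ = - f y := by
    intro y
    have := hf y y⁻¹
    rw [mul_inv_cancel, hf1] at this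
    linear_combination -this
  have hfpow : ∀ (y : J L) (j : ℕ), f (y ^ j) = (j : F) * f y := by
    intro y j
    induction j with
    | zero => rw [pow_zero, hf1, Nat.cast_zero, zero_mul]
    | succ j ih => rw [pow_succ, hf, ih, Nat.cast_succ]; ring
  have hfP : ∀ x ∈ P, f x = 0 := by
    intro x hx
    obtain ⟨a, y, rfl⟩ := (hPmem x).1 hx
    rw [hf, hfp _ ⟨a, rfl⟩, hfpow, CharP.cast_eq_zero, zero_mul, add_zero]
  have hkey : ∀ z : J M, f ((dg γ)^[p ^ m₀ + p ^ m + 1] (N z)) = 0 := by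
    intro z
    have hfcls : ∀ y y' : J L, cls P y = cls P y' → f y = f y' := by
      intro y y' h
      have h7 : cls P (y * y'⁻¹) = 0 := by
        rw [cls_mul, cls_inv, h]
        exact add_neg_cancel (cls P y')
      have h8 := hfP _ ((cls_eq_zero P _).1 h7)
      rw [hf, hfi] at h8
      linear_combination h8
    -- the functional at all translates
    let Φ : ℕ → J L → F := fun j y =>
      f (γ ^ j • γ ^ (p ^ m₀) • γ ^ (p ^ m) • y) - f (γ ^ j • γ ^ (p ^ m) • y) -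
      f (γ ^ j • γ ^ (p ^ m₀) • y) + f (γ ^ j • y)
    have hΦmul : ∀ j y y', Φ j (y * y') = Φ j y + Φ j y' := by
      intro j y y'
      simp only [Φ, smul_mul', hf]
      ring
    have hΦ1 : ∀ j, Φ j 1 = 0 := by
      intro j
      have := hΦmul j 1 1
      rw [mul_one] at this
      simpa using this
    have hΦinv : ∀ j y, Φ j y⁻¹ = - Φ j y := by
      intro j y
      have := hΦmul j y y⁻¹
      rw [mul_inv_cancel, hΦ1] at this
      linear_combination -this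
    let U : Subgroup (J L) :=
      { carrier := {y | ∀ j, Φ j y = 0}
        one_mem' := fun j => hΦ1 j
        mul_mem' := by
          intro a b ha hb j
          rw [hΦmul, ha j, hb j, add_zero]
        inv_mem' := by
          intro a ha j
          rw [hΦinv, ha j, neg_zero] }
    have hU : ∀ y : J L, y ∈ U ↔ ∀ j, Φ j y = 0 := fun y => Iff.rfl
    have hcm : ∀ (σ τ : L ≃ₐ[k] L) (y : J L), σ • τ • y = τ • σ • y := by
      intro σ τ y
      rw [← mul_smul, ← mul_smul, hTw.comm]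
    have hUγ : ∀ y ∈ U, γ • y ∈ U := by
      intro y hy j
      have := hy (j + 1)
      simp only [Φ] at this ⊢
      have e : ∀ y : J L, γ ^ (j + 1) • y = γ ^ j • γ • y := by
        intro y
        rw [pow_succ, mul_smul]
      rw [e, e, e, e] at this
      rw [hcm (γ ^ (p ^ m)) γ, hcm (γ ^ (p ^ m₀)) γ, hcm (γ ^ (p ^ m₀)) γ]
      exact this
    have hUδ : ∀ δ ∈ D, ∀ y ∈ U, δ • y ∈ U := by
      intro δ hδ y hy j
      have := hy j
      simp only [Φ] at this ⊢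
      have e : ∀ y : J L, f (δ • y) = (χ ⟨δ, hδ⟩ : F) * f y := fun y => hfχ ⟨δ, hδ⟩ y
      have e1 : γ ^ j • γ ^ (p ^ m₀) • γ ^ (p ^ m) • δ • y =
          δ • γ ^ j • γ ^ (p ^ m₀) • γ ^ (p ^ m) • y := by
        rw [hcm (γ ^ (p ^ m)) δ, hcm (γ ^ (p ^ m₀)) δ, hcm (γ ^ j) δ]
      have e2 : γ ^ j • γ ^ (p ^ m) • δ • y = δ • γ ^ j • γ ^ (p ^ m) • y := by
        rw [hcm (γ ^ (p ^ m)) δ, hcm (γ ^ j) δ]
      have e3 : γ ^ j • γ ^ (p ^ m₀) • δ • y = δ • γ ^ j • γ ^ (p ^ m₀) • y := by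
        rw [hcm (γ ^ (p ^ m₀)) δ, hcm (γ ^ j) δ]
      have e4 : γ ^ j • δ • y = δ • γ ^ j • y := hcm _ _ _
      rw [e1, e2, e3, e4, e, e, e, e]
      linear_combination (χ ⟨δ, hδ⟩ : F) * this
    have hUσ : ∀ (σ : L ≃ₐ[k] L), ∀ y ∈ U, σ • y ∈ U := by
      intro σ y hy
      obtain ⟨δ, hδ, i, rfl⟩ := hTw.gen σ
      rw [mul_smul]
      apply hUδ δ hδ
      clear hδ
      induction i with
      | zero => simpa using hy
      | succ i ih =>
        rw [pow_succ', mul_smul]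
        exact hUγ _ ih
    have hUprin : (prin : Lˣ →* J L).range ≤ U := by
      intro y hy j
      simp only [Φ]
      rw [hfp _ (hprin _ _ (hprin _ _ (hprin _ _ hy))), hfp _ (hprin _ _ (hprin _ _ hy)),
        hfp _ (hprin _ _ (hprin _ _ hy)), hfp _ (hprin _ _ hy)]
      simp
    have hζp : IsPrimitiveRoot (ζ ^ 2) p := hζ.pow (by have := hp.pos; omega) rfl
    let t : (𝓞 L)ˣ := sUnitP p D γ m n χ θ c
    let t' : (𝓞 M)ˣ := Units.map (algebraMap (𝓞 L) (𝓞 M)).toMonoidHom t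
    have ht'1 : ((t' : 𝓞 M) : M) = algebraMap L M ((t : 𝓞 L) : L) := rfl
    have hUM := h3 p k M (ζ ^ 2) t' hζp (by
        intro y hy
        exact hθ' y (hy.trans ht'1)) S hpr (U.comap N) (by
        rintro _ ⟨a, rfl⟩
        rw [Subgroup.mem_comap, hN1]
        exact hUprin ⟨_, rfl⟩) (by
        intro σ x hx
        obtain ⟨τ, hτ⟩ := hres σ
        rw [Subgroup.mem_comap, hN3 σ τ hτ]
        exact hUσ τ _ hx) (by
        intro w q hq hqS hcard hnt
        rw [Subgroup.mem_comap]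
        -- the prime below
        set v : HeightOneSpectrum (𝓞 L) :=
          ⟨w.asIdeal.under (𝓞 L), inferInstance, Ideal.under_ne_bot (𝓞 L) w.ne_bot⟩ with hv
        have hvw : w.asIdeal.under (𝓞 L) = v.asIdeal := rfl
        have hcv : Nat.card (𝓞 L ⧸ v.asIdeal) = q := card_under w q hq hcard
        have hab : HasAb L M v q := ⟨w, rfl, hcard⟩
        have hgood : GoodPrP p k L S v q :=
          h2 p k L M S ζ hζ h2S hpS hpr hram v q hq hqS hcv hab
        rw [(hN2 w v rfl).2 (hcard.trans hcv.symm)]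
        refine h6 p F k L n m m₀ γ D hTw hmn S hdec c χ θ f hf hfp hfχ v q hgood
          (hK v q hgood hab) ?_
        intro a ha
        apply hnt (algebraMap (𝓞 L) (𝓞 M) a)
        have ha' : algebraMap (𝓞 L) (𝓞 M) ((t : 𝓞 L) - a ^ p) ∈ w.asIdeal := ha
        rw [map_sub, map_pow] at ha'
        exact ha') γ' z
    have hx1 : dg γ (N z) ∈ U := by
      rw [Subgroup.mem_comap, map_mul, map_inv, hNγ] at hUM
      have := U.inv_mem hUM
      rw [dg_apply, div_eq_mul_inv]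
      rw [mul_inv_rev, inv_inv] at this
      exact this
    have hx3 := (hU _).1 hx1 0
    simp only [Φ, pow_zero, one_smul] at hx3
    rw [Function.iterate_succ_apply]
    have hY0 : f ((γ ^ (p ^ m₀) • γ ^ (p ^ m) • (dg γ (N z))) *
        (γ ^ (p ^ m) • (dg γ (N z)))⁻¹ *
        (γ ^ (p ^ m₀) • (dg γ (N z)))⁻¹ *
        (dg γ (N z))) = 0 := by
      rw [hf, hf, hf, hfi, hfi]
      linear_combination hx3
    rcases two_frob p P γ (hst γ) hcu m₀ m (dg γ (N z)) with h7 | h7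
    · rw [hfcls _ _ h7, hY0]
    · rw [← cls_inv] at h7
      rw [hfcls _ _ h7, hfi, hY0, neg_zero]
  -- the second part
  set W : Subgroup (J L) := N.range ⊔ P with hW
  have hWmem : ∀ x : J L, x ∈ W ↔ ∃ (z : J M), ∃ y ∈ P, N z * y = x := by
    intro x
    rw [hW, Subgroup.mem_sup]
    constructor
    · rintro ⟨_, ⟨z, rfl⟩, y, hy, rfl⟩
      exact ⟨z, y, hy, rfl⟩
    · rintro ⟨z, y, hy, rfl⟩
      exact ⟨_, ⟨z, rfl⟩, y, hy, rfl⟩
  have hWst : ∀ x ∈ W, γ • x ∈ W := by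
    intro x hx
    obtain ⟨z, y, hy, rfl⟩ := (hWmem x).1 hx
    refine (hWmem _).2 ⟨γ' • z, γ • y, hst γ _ hy, ?_⟩
    rw [smul_mul', hNγ]
  have hWi := h5 L M S hpr W (le_sup_left.trans (le_sup_right : P ≤ W)) (by
    rintro v q hq hqS hcard ⟨w, hw1, hw2⟩
    have h7 := (hN2 w v hw1).2 (by rw [hw2, hcard])
    rw [← h7]
    exact (hWmem _).2 ⟨vJ w, 1, P.one_mem, mul_one _⟩)
  have hst' : ∀ y ∈ P, ∀ j : ℕ, (dg γ)^[j] y ∈ P := fun y hy j =>
    iter_mem P γ (hst γ) j _ hy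
  have hb2 : ∀ b : J L, f ((dg γ)^[p ^ m₀ + p ^ m + 1] ((dg γ)^[Module.finrank L M] b)) = 0 := by
    intro b
    have hb1 := fin_nil p W γ hWst (fun x => (le_sup_right : P ≤ W) (hcu x)) n
      (Module.finrank L M) (by rw [← hTw.ord, pow_orderOf_eq_one]) hWi.1 hWi.2 b
    obtain ⟨z, y, hy, hzy⟩ := (hWmem _).1 hb1
    rw [← hzy, iter_mul, hf, hkey z, hfP _ (hst' _ hy _), add_zero]
  have hle : p ^ m₀ + p ^ m ≤ p ^ (max m m₀ + 1) := by
    have h7 : p ^ m₀ ≤ p ^ (max m m₀) := Nat.pow_le_pow_right hp.pos (le_max_right _ _)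
    have h8 : p ^ m ≤ p ^ (max m m₀) := Nat.pow_le_pow_right hp.pos (le_max_left _ _)
    have h9 : 2 * p ^ (max m m₀) ≤ p * p ^ (max m m₀) := Nat.mul_le_mul_right _ hp.two_le
    rw [pow_succ']
    omega
  obtain ⟨r, hr⟩ := Nat.exists_eq_add_of_le hle
  have h7 : p ^ (max m m₀ + 1) + 1 + Module.finrank L M =
      (p ^ m₀ + p ^ m + 1) + (Module.finrank L M + r) := by omega
  rw [h7, Function.iterate_add_apply _ (p ^ m₀ + p ^ m + 1), Function.iterate_add_apply _ (Module.finrank L M)]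
  exact hb2 _

end Pool.Agent.OB


end

section

/-!
# OB, block J: the large field `K = K₀ RF(1)`, `p` odd (helper19)

After `Pool/Agent/MUX/J_SETG.lean`.
-/

set_option autoImplicit false

open NumberField IsDedekindDomain
open scoped nonZeroDivisors Pointwise

namespace Pool.Agent.OB

open _root_.MU3 Pool.Agent.MU3 Pool.Agent.MU3A Pool.Agent.MU3B Pool.Agent.RI Pool.Agent.RID
  Pool.Agent.MUX Pool.Agent.MUXK Pool.Agent.MUXE Pool.Agent.MUXJ

open JSET in
/-- SETO: the large field `K`. -/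
theorem t_SETO (p er : ℕ) (A B : ℤ) (P : Ideal (OO A B)) (V : ValuationSubring ℂ)
    (hX : CaseO p er A B P V) (d : ℕ) (hd0 : d ≠ 0) (hpd : ¬ p ∣ d)
    (hU : UnrH A B V) (T : TorX A B) (hNL : NLex A B) (K₀ : IntermediateField ℚ ℂ)
    [FiniteDimensional ℚ K₀] (hk : kk A B ≤ K₀)
    (hcop : ¬ p ∣ Module.finrank (kk A B) (IntermediateField.extendScalars hk))
    (hTor : TorU A B K₀) (hom : ∃ ω ∈ K₀, IsPrimitiveRoot ω p)
    (Bn : ℕ → IntermediateField ℚ ℂ) (hlay : ∀ n, IsLayer p n (Bn n)) (hmono : Monotone Bn) :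
    ∃ (K : IntermediateField ℚ ℂ) (_ : FiniteDimensional ℚ K) (f : ℕ),
      SetX p (kk A B) K₀ K Bn ∧ f ≠ 0 ∧ ¬ p ∣ f ∧ d ∣ f ∧
      (∀ y ∈ K, y ∈ RF (idl (A := A) (B := B) (lvX p f 0))) ∧
      ∀ y ∈ RF (⊤ : Ideal (OO A B)), y ∈ K := by
  have hp : p.Prime := hX.pp
  have : Fact p.Prime := ⟨hp⟩
  have hp2 : p ≠ 2 := by have := hX.p5; omega
  have hp3 : p ≠ 3 := by have := hX.p5; omega
  have hq0 : q0 p = p := if_neg hp2
  have hodd : Odd p := hp.odd_of_ne_two hp2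
  obtain ⟨M, hM, hKM⟩ := t_DIR A B hX.cq T K₀ hTor
  obtain ⟨f, hf0, hfp, hfd, hKf⟩ := t_LEVO p d A B hX.cq hp hd0 hpd T hNL K₀ hk hcop M hM hKM
  have hlv0 : lvX p f 0 ≠ 0 := by
    unfold lvX
    rw [hq0]
    exact mul_ne_zero (mul_ne_zero hf0 hp.ne_zero) (pow_ne_zero _ hp.ne_zero)
  set m₀ : Ideal (OO A B) := idl (lvX p f 0) with hm₀
  have hm₀b : m₀ ≠ ⊥ := idl_ne _ hlv0
  -- the root of unity
  obtain ⟨ω, hω, hωp⟩ := hom
  have hζ : IsPrimitiveRoot (-ω) (2 * p) := by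
    have h1 : orderOf (-ω) = 2 * p := by
      rw [neg_eq_neg_one_mul, (Commute.all _ _).orderOf_mul_eq_mul_orderOf_of_coprime]
      · simp [hωp.eq_orderOf]
      · simp [← hωp.eq_orderOf, hodd]
    rw [← h1]
    exact IsPrimitiveRoot.orderOf _
  -- the fields
  have hkfd : FiniteDimensional ℚ (kk A B) :=
    FiniteDimensional.of_injective (IntermediateField.inclusion hk).toLinearMap
      (IntermediateField.inclusion hk).injective
  set E₀ : IntermediateField (kk A B) ℂ := IntermediateField.extendScalars hk with hE₀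
  have hE₀m : E₀ ≤ RF m₀ := fun x hx => hKf x hx
  set KK : IntermediateField (kk A B) ℂ := E₀ ⊔ RF (⊤ : Ideal (OO A B)) with hKK
  have hHm : RF (⊤ : Ideal (OO A B)) ≤ RF m₀ := T.mono ⊤ m₀ le_top
  have hKKm : KK ≤ RF m₀ := sup_le hE₀m hHm
  have hmfd := T.fin m₀ hm₀b
  have hfdE₀ : FiniteDimensional (kk A B) E₀ :=
    FiniteDimensional.of_injective (IntermediateField.inclusion hE₀m).toLinearMap
      (IntermediateField.inclusion hE₀m).injective
  have hfdKK : FiniteDimensional (kk A B) KK :=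
    FiniteDimensional.of_injective (IntermediateField.inclusion hKKm).toLinearMap
      (IntermediateField.inclusion hKKm).injective
  set K : IntermediateField ℚ ℂ := KK.restrictScalars ℚ with hK
  have hkK : kk A B ≤ K := fun x hx => KK.algebraMap_mem ⟨x, hx⟩
  have hKK' : IntermediateField.extendScalars hkK = KK := SetLike.ext fun x => Iff.rfl
  have hfdK : FiniteDimensional ℚ K := by
    have : FiniteDimensional ℚ KK := FiniteDimensional.trans ℚ (kk A B) KK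
    exact this
  have hK0K : K₀ ≤ K := fun x hx => (le_sup_left : E₀ ≤ KK) (show x ∈ E₀ from hx)
  obtain ⟨hgal0, -, hab0⟩ := t_GAL A B T m₀ hm₀b K₀ hk hKf
  obtain ⟨hgal, -, hab⟩ := t_GAL A B T m₀ hm₀b K hkK (fun x hx => hKKm hx)
  have hgalKK : IsGalois (kk A B) KK := by rw [← hKK']; exact hgal
  have hgalE₀ : IsGalois (kk A B) E₀ := hgal0
  -- the first layer
  have hB1 : ¬ Bn 1 ≤ K := by
    intro hB
    obtain ⟨-, h8⟩ := t_CYCO p hp2 1 (Bn 1) (hlay 1)
    have hpp0 : p ^ (1 + 1) ≠ 0 := pow_ne_zero _ hp.ne_zero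
    have hz := Complex.isPrimitiveRoot_exp (p ^ (1 + 1)) hpp0
    have hz1 := h8 K hB ⟨ω, hK0K hω, hωp⟩ _ hz.pow_eq_one
    have h9 := t_RAMO p A B P V hX.cq hp hX.prime hX.mem hX.hV KK ⟨_, hz1, by
      have e : p * p = p ^ (1 + 1) := by rw [pow_succ, pow_one]
      rw [e]
      exact hz⟩
    have h10 := t_INJ A B V hU T E₀ KK rfl
    have h11 := (h9.trans (mul_dvd_mul_left 2 h10))
    have h12 : p ∣ 2 * Module.finrank (kk A B) E₀ := (Dvd.intro _ rfl).trans h11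
    rcases (Nat.Prime.dvd_mul hp).mp h12 with h13 | h13
    · have := Nat.le_of_dvd (by norm_num) h13
      have := hX.p5
      omega
    · exact hcop h13
  have hB10 : ¬ Bn 1 ≤ K₀ := fun h => hB1 (h.trans hK0K)
  refine ⟨K, hfdK, f, ?_, hf0, hfp, hfd, ?_, ?_⟩
  · exact
      { b0 := ⟨hk, hgal0, hab0, t_LDX p K₀ Bn hlay hmono hB10, hlay, hmono⟩
        b := ⟨hkK, hgal, hab, t_LDX p K Bn hlay hmono hB1, hlay, hmono⟩
        le := hK0K
        cop := hcop
        om := ⟨ω, hω, hωp⟩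
        ze := ⟨-ω, neg_mem (hK0K hω), hζ⟩ }
  · exact fun y hy => hKKm hy
  · exact fun y hy => (le_sup_right : RF (⊤ : Ideal (OO A B)) ≤ KK) hy

end Pool.Agent.OB


end

section

/-!
# OB, block Z (helper59): the input `EInpO` of block I from `O_EFIN`, after helper6's `NS/ZSq.lean`
-/

set_option autoImplicit false

open NumberField IsDedekindDomain

namespace Pool.Agent.OBZ

open _root_.MU3 Pool.Agent.MU3 Pool.Agent.MU3A Pool.Agent.MU3B Pool.Agent.RI Pool.Agent.RID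
  Pool.Agent.MUX Pool.Agent.MUXK Pool.Agent.MUXJ Pool.Agent.MUXW Pool.Agent.MUXZ
  Pool.Agent.NS Pool.Agent.OB
open Pool.Agent.MU3V (Sub GD)
open Pool.Agent.NSZ (cX_sq idl_ne_bot)

noncomputable section

/-- the input of block IN for the norm to any field `D ≤ RF (lvX p f n)` -/
theorem eInpO (hME : Sy_MEM) (hCX : Sy_CXS) (hEF : O_EFIN)
    {p er : ℕ} {A B : ℤ} {P : Ideal (OO A B)} {V : ValuationSubring ℂ} {f : ℕ}
    (hS : SetO p er A B P V f) (hT : TorX A B) (hLV : Zl_LVX)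
    {ι : Type} [Fintype ι] (R : Reps A B (p * f) ι) {u e lam : ℂ}
    (hG : GoodL V (R.L R.i0) u e lam) {H : ι → Finset ℂ}
    {θ : ∀ n : ℕ, (RF (idl (A := A) (B := B) (lvX p f n)) : IntermediateField (kk A B) ℂ)}
    (hth : ThN p f R H θ) (n : ℕ) (hn : 1 ≤ n) (D : IntermediateField ℚ ℂ) (h : kk A B ≤ D)
    (hInR : InRF er P p f n D) :
    EInpO p er P V f R u n h (fun τ => cWt h (θ n) τ) := by
  have hD : ∀ y ∈ D, y ∈ RF (idl (A := A) (B := B) (lvX p f n)) := hInR.1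
  obtain ⟨hl0, _, _, hl2, hlu, hodd, hac, _, _, hcop⟩ := hLV p A B f (setQ_O hS) n
  have hb : (idl (A := A) (B := B) (lvX p f n)) ≠ ⊥ := idl_ne_bot hl0
  have := hT.fin _ hb
  have := hT.gal _ hb
  obtain ⟨h1, h2, h3, _, _⟩ := hME A B _ (hT.fin _ hb) (hT.gal _ hb) (hT.comm _ hb) D h hD (θ n)
    (hth.ne n)
  let := algC h
  have hconj : ∀ τ : D ≃ₐ[kk A B] D, ∃ y : D, (y : ℂ) = cWt h (θ n) 1 ∧
      ((τ y : D) : ℂ) = cWt h (θ n) τ := by
    intro τ
    refine ⟨⟨cWt h (θ n) 1, (h2 1).1⟩, rfl, ?_⟩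
    have hm : cW h (θ n) ∈ D := by rw [h1]; exact (h2 1).1
    have := h3 τ hm
    have he : (⟨cWt h (θ n) 1, (h2 1).1⟩ : D) = ⟨cW h (θ n), hm⟩ := Subtype.ext h1.symm
    rw [he]; exact this
  have hsq : ∀ τ : D ≃ₐ[kk A B] D, cX R (lvX p f n) H h τ = cWt h (θ n) τ ^ 2 := by
    intro τ
    obtain ⟨S, hS1, hS2, hS3⟩ := hCX A B hS.cq hT (p * f) ι R (lvX p f n) hl0
      (fun i => hcop _ (R.cop i)) hl2 (aX p f) H (by unfold aX; omega) hac hth.half (θ n)
      (hth.pt n) D h hD τ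
    rw [hS3]
    exact cX_sq hS.cq R hl0 H hth.half h τ S hS1 hS2
  have hfin : Finite (D ≃ₐ[kk A B] D) := by
    have hfd : FiniteDimensional (kk A B) D := by
      have hle : ∀ x : D, (x : ℂ) ∈ RF (idl (A := A) (B := B) (lvX p f n)) := fun x => hD x x.2
      let φ : D →ₗ[kk A B] RF (idl (A := A) (B := B) (lvX p f n)) :=
        { toFun := fun x => ⟨x, hle x⟩
          map_add' := fun x y => rfl
          map_smul' := fun c x => by
            apply Subtype.ext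
            rfl }
      exact FiniteDimensional.of_injective φ (fun x y hxy => by
        have := congrArg (fun z : RF (idl (A := A) (B := B) (lvX p f n)) => (z : ℂ)) hxy
        exact Subtype.ext this)
    exact inferInstance
  refine ⟨(h2 1).2, hconj, ?_⟩
  rintro w hw g ⟨y, hy, hye⟩ τ'
  refine hEF p er A B P V f hS hT ι R u e lam hG w hw n hn H hth.half D h hInR ?_ g
    ⟨y ^ 2, pow_mem hy 2, ?_⟩ τ'
  · intro τ
    obtain ⟨z, hz1, hz2⟩ := hconj τ
    refine ⟨z ^ 2, ?_, ?_⟩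
    · rw [hsq]
      push_cast
      rw [hz1]
    · rw [hsq, map_pow]
      push_cast
      rw [hz2]
  · have h4 : (∏ᶠ τ : D ≃ₐ[kk A B] D, cX R (lvX p f n) H h τ ^ g τ) =
        (∏ᶠ τ : D ≃ₐ[kk A B] D, cWt h (θ n) τ ^ g τ) ^ 2 := by
      have := Fintype.ofFinite (D ≃ₐ[kk A B] D)
      rw [finprod_eq_prod_of_fintype, finprod_eq_prod_of_fintype, ← Finset.prod_pow]
      refine Finset.prod_congr rfl fun τ _ => ?_
      rw [hsq, ← zpow_natCast, ← zpow_natCast, ← zpow_mul, ← zpow_mul, mul_comm]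
    rw [h4, ← hye]
    ring

end

end Pool.Agent.OBZ


end

section

/-!
# OB, block J: the data `P`, `V`, `er` and the divisor `d` of the level (helper19)
-/

set_option autoImplicit false

open NumberField IsDedekindDomain

namespace Pool.Agent.OB

open _root_.MU3 Pool.Agent.MU3 Pool.Agent.MU3A Pool.Agent.MU3B Pool.Agent.RI Pool.Agent.RID
  Pool.Agent.MUX Pool.Agent.MUXK Pool.Agent.MUXE Pool.Agent.MUXJ Pool.Agent.NSZ

noncomputable section

/-- VEXO: the prime ideal `P` above `p` and the valuation ring `V` above `P`. -/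
theorem t_VEXO (p : ℕ) (A B : ℤ) (hC : MUX.CQ A B) (h3 : absD A B ≠ 3) (h4 : absD A B ≠ 4)
    (hp : p.Prime) (h5 : 5 ≤ p) :
    ∃ (er : ℕ) (P : Ideal (OO A B)) (V : ValuationSubring ℂ), CaseO p er A B P V := by
  have h1 : (idl (A := A) (B := B) p) ≠ ⊤ := by
    intro h
    have h2 : (1 : OO A B) ∈ idl (A := A) (B := B) p := by rw [h]; trivial
    rw [mem_idl] at h2
    obtain ⟨h2, -⟩ := h2
    rw [QuadraticAlgebra.re_one] at h2
    have := Int.le_of_dvd one_pos h2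
    omega
  obtain ⟨P, hP, hle⟩ := Ideal.exists_le_maximal _ h1
  obtain ⟨V, hV⟩ := vex hC P hP
  have hmem : ((p : ℕ) : OO A B) ∈ P := hle (Ideal.mem_span_singleton_self _)
  by_cases h2 : ((p : ℕ) : OO A B) ∈ P ^ 2
  · exact ⟨2, P, V, ⟨hC, h3, h4, hp, h5, hP.isPrime, hmem, Or.inr ⟨rfl, h2⟩, hV⟩⟩
  · exact ⟨1, P, V, ⟨hC, h3, h4, hp, h5, hP.isPrime, hmem, Or.inl ⟨rfl, h2⟩, hV⟩⟩

/-- `p` is in the maximal ideal of `V` -/
theorem caseO_hp {p er : ℕ} {A B : ℤ} {P : Ideal (OO A B)} {V : ValuationSubring ℂ}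
    (h : CaseO p er A B P V) : (p : ℂ) ∈ V.nonunits := by
  have h2 := (h.hV ((p : ℕ) : OO A B)).2 h.mem
  have h3 : emb ((p : ℕ) : OO A B) = (p : ℂ) := by
    rw [← RNGaux.eH_apply h.cq, map_natCast]
  rwa [h3] at h2

/-- `p²` does not divide the discriminant, `p` odd -/
theorem sq_not_dvd {A B : ℤ} (hC : MUX.CQ A B) {p : ℕ} (hp : p.Prime) (h2 : p ≠ 2) :
    ¬ (p : ℤ) * p ∣ absD A B := by
  have hpu : ¬ IsUnit (p : ℤ) := by
    rw [Int.isUnit_iff]
    have := hp.two_le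
    omega
  rcases hC.hB with hB | hB
  · obtain ⟨hs, -⟩ := hC.fund0 hB
    intro h
    have h1 : (p : ℤ) * p ∣ 4 * A := by
      have e : absD A B = -(4 * A) := by unfold absD; rw [hB]; ring
      rw [e] at h
      exact (dvd_neg).1 h
    have hco : IsCoprime ((p : ℤ) * p) 4 := by
      have h3 : IsCoprime (p : ℤ) 2 := by
        have h9 : Nat.Coprime p 2 := (Nat.coprime_primes hp Nat.prime_two).2 h2
        exact_mod_cast Nat.isCoprime_iff_coprime.2 h9
      have h4 : IsCoprime (p : ℤ) (2 * 2) := IsCoprime.mul_right h3 h3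
      have h5 : IsCoprime ((p : ℤ) * p) (2 * 2) := IsCoprime.mul_left h4 h4
      exact h5
    exact hpu (hs _ (hco.dvd_of_dvd_mul_left h1))
  · have hs := hC.fund1 hB
    intro h
    have e : absD A B = -(1 + 4 * A) := by unfold absD; rw [hB]; ring
    rw [e, dvd_neg] at h
    exact hpu (hs _ h)

/-- the divisor of the level -/
theorem t_DO {p er : ℕ} {A B : ℤ} {P : Ideal (OO A B)} {V : ValuationSubring ℂ}
    (h : CaseO p er A B P V) : ∃ d : ℕ, d ≠ 0 ∧ ¬ p ∣ d ∧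
      ∀ f : ℕ, f ≠ 0 → ¬ p ∣ f → d ∣ f → SetO p er A B P V f := by
  have hp := h.pp
  have h5 := h.p5
  have hpZ : Prime (p : ℤ) := Nat.prime_iff_prime_int.1 hp
  have hD0 : absD A B ≠ 0 := by
    have := h.cq.neg
    unfold absD
    omega
  have h12 : ¬ p ∣ 12 := by
    intro h1
    have e : (12 : ℕ) = 2 * (2 * 3) := by norm_num
    rw [e] at h1
    rcases hp.dvd_mul.1 h1 with h2 | h2
    · have := Nat.le_of_dvd (by norm_num) h2
      omega
    · rcases hp.dvd_mul.1 h2 with h3 | h3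
      · have := Nat.le_of_dvd (by norm_num) h3
        omega
      · have := Nat.le_of_dvd (by norm_num) h3
        omega
  obtain ⟨D, hD, hpD, hdv⟩ : ∃ D : ℕ, D ≠ 0 ∧ ¬ p ∣ D ∧ absD A B ∣ (p : ℤ) * D := by
    by_cases hpd : (p : ℤ) ∣ absD A B
    · obtain ⟨D, hD⟩ := hpd
      refine ⟨D.natAbs, ?_, ?_, ?_⟩
      · intro h1
        rw [Int.natAbs_eq_zero] at h1
        rw [h1, mul_zero] at hD
        exact hD0 hD
      · intro h1
        rw [← Int.natCast_dvd] at h1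
        apply sq_not_dvd h.cq hp (by omega)
        rw [hD]
        exact mul_dvd_mul_left _ h1
      · rw [hD]
        exact mul_dvd_mul_left _ (Int.dvd_natAbs.2 dvd_rfl)
    · refine ⟨(absD A B).natAbs, ?_, ?_, ?_⟩
      · rwa [Ne, Int.natAbs_eq_zero]
      · rwa [← Int.natCast_dvd]
      · exact (Int.dvd_natAbs.2 dvd_rfl).mul_left _
  refine ⟨12 * D, by positivity, ?_, fun f hf0 hpf hdf => ?_⟩
  · rw [hp.dvd_mul]
    push Not
    exact ⟨h12, hpD⟩
  · refine ⟨h, hf0, hpf, (Dvd.intro _ rfl).trans hdf, ?_⟩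
    have h6 : 2 * absD A B ∣ (p : ℤ) * ((12 * D : ℕ) : ℤ) := by
      have h7 := mul_dvd_mul (show (2 : ℤ) ∣ 12 by norm_num) hdv
      have e : (12 : ℤ) * ((p : ℤ) * D) = (p : ℤ) * ((12 * D : ℕ) : ℤ) := by push_cast; ring
      rwa [e] at h7
    have h8 : ((12 * D : ℕ) : ℤ) ∣ (f : ℤ) := by exact_mod_cast hdf
    push_cast
    push_cast at h6 h8
    exact h6.trans (mul_dvd_mul_left _ h8)

/-- UNHO: the Hilbert class field is unramified at `V` -/
theorem t_UNHO (hR : O_RFIN) {p er : ℕ} {A B : ℤ} {P : Ideal (OO A B)} {V : ValuationSubring ℂ}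
    (h : CaseO p er A B P V) (T : TorX A B) : UnrH A B V := by
  intro σ hσ hy
  exact (hR p er A B P V h T).2 ⊤ top_ne_bot
    (fun h1 => h.prime.ne_top (top_le_iff.1 h1)) σ hσ hy

end

end Pool.Agent.OB


end

section

/-!
# OB, block Z (helper59): the inputs of block K at one prime `P`, after helper6's `NS/ZSq.lean`

`InpGO p A B V`: for all fields `K₀ ≤ K` of level `p f` there are the numbers `c`, `c₀` with (INW), and for every character `χ` of `Gal(K₀/k)` with values in the residue field of `V` there is an even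
branch `χ om^j` with the input (I3). `o_INPO`: it follows from the results of the blocks GR, E, I.
-/

set_option autoImplicit false

open NumberField IsDedekindDomain

namespace Pool.Agent.OBZ

open _root_.MU3 Pool.Agent.MU3 Pool.Agent.MU3A Pool.Agent.MU3B Pool.Agent.RI Pool.Agent.RID
  Pool.Agent.MUX Pool.Agent.MUXK Pool.Agent.MUXJ Pool.Agent.MUXW Pool.Agent.MUXZ
  Pool.Agent.NS Pool.Agent.OB
open Pool.Agent.MU3V (Sub GD)
open Pool.Agent.NSZ (cX_sq idl_ne_bot)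
open Pool.Agent.NSI (I3At)
open Pool.Agent.OBI (O_I3 Oi_SUB IsOm brO)

noncomputable section

/-- the inputs of block K -/
def InpGO (p : ℕ) (A B : ℤ) (V : ValuationSubring ℂ) : Prop :=
  ∀ (f : ℕ), f ≠ 0 → ¬ p ∣ f → 12 ∣ f → 2 * absD A B ∣ ((p * f : ℕ) : ℤ) →
  ∀ (K₀ K : IntermediateField ℚ ℂ) (Bn : ℕ → IntermediateField ℚ ℂ)
    [FiniteDimensional ℚ (kk A B)] [FiniteDimensional ℚ K] [∀ n, FiniteDimensional ℚ ↥(K ⊔ Bn n)],
    SetX p (kk A B) K₀ K Bn → (∀ y ∈ K, y ∈ RF (idl (A := A) (B := B) (lvX p f 0))) →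
    (∀ y ∈ RF (⊤ : Ideal (OO A B)), y ∈ K) →
    ∀ (hk : ∀ n, kk A B ≤ K ⊔ Bn n) (hk₀ : ∀ n, kk A B ≤ K₀ ⊔ Bn n) (hkK : kk A B ≤ K₀),
    ∃ (S : Finset ℕ) (c c₀ : ℕ → ℂ) (n₁ : ℕ)
      (hW : InpW p (kk A B) K₀ K Bn hk hk₀ S c c₀ n₁),
      ∀ (χ om : (letI := algC hkK;
          (↥K₀ ≃ₐ[kk A B] ↥K₀) →* (IsLocalRing.ResidueField V)ˣ)),
        IsOm (IsLocalRing.ResidueField V) p hkK om →
        ∃ j, j < p - 1 ∧ Even j ∧ ∀ N n₀ : ℕ, ∃ n, n₀ ≤ n ∧
          I3At (IsLocalRing.ResidueField V) p (kk A B) K₀ Bn hkK (brO hkK χ om j) N n (hk₀ n)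
            (c₀ n) (hW.mem₀ n)

/-- (INPO) -/
theorem o_INPO (hRF : O_RFIN) (hEF : O_EFIN) (hI : O_I3) (hSUB : Oi_SUB) (hLV : Zl_LVX)
    (hIW : Zl_INW) (hTH : Sz_THN) (hME : Sy_MEM) (hCX : Sy_CXS) (hRX : MUXY.Sy_REX) :
    ∀ (p er : ℕ) (A B : ℤ) (P : Ideal (OO A B)) (V : ValuationSubring ℂ),
      CaseO p er A B P V → TorX A B → InpGO p A B V := by
  intro p er A B P V hC hT f hf0 hfp hf12 hfD K₀ K Bn _ _ _ hX hK hH hk hk₀ hkK
  have hCQ : CQ A B := hC.cq
  have hS : SetO p er A B P V f := { hC with f0 := hf0, fp := hfp, f12 := hf12, fD := hfD }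
  have hL : SetQ p A B f := setQ_O hS
  have : Fact (Nat.Prime p) := ⟨hC.pp⟩
  obtain ⟨ι, hι, ⟨R⟩⟩ := hRX A B hCQ hC.ex3 hC.ex4 (p * f) (Nat.mul_ne_zero hC.pp.ne_zero hf0)
  have hodd := (hLV p A B f hL 0).2.2.2.2.2.1
  obtain ⟨H, hHalf, hθ⟩ := hTH A B hCQ hT (p * f) ι R (aX p f) hodd
  have hθ' : ∀ n : ℕ, ∃ θ : (RF (idl (A := A) (B := B) (lvX p f n)) :
      IntermediateField (kk A B) ℂ),
      (θ : ℂ) = ThetaH (R.L R.i0) (H R.i0) (pt R (lvX p f n) R.i0 1) ∧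
      (θ : ℂ) = ThetaH (R.L R.i0) (H R.i0) (R.om R.i0 / emb ((lvX p f n : ℕ) : OO A B)) ∧
      θ ≠ 0 := fun n =>
    hθ (lvX p f n) (hLV p A B f hL n).1 (hLV p A B f hL n).2.2.2.2.1
      (hLV p A B f hL n).2.2.2.2.2.2.1
  choose θ hθ1 hθ2 hθ3 using hθ'
  have hth : ThN p f R H θ := ⟨hHalf, hθ1, hθ2, hθ3⟩
  obtain ⟨S, hW⟩ := hIW p A B f hL hT ι R H θ hth K₀ K Bn hX hK hH hk hk₀
  obtain ⟨u, e, lam, hG, -, -, -⟩ := (hRF p er A B P V hC hT).1 _ _ _ (R.nl R.i0)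
  have hNL : ∃ (b : Ideal (OO A B)) (L : PeriodPair) (om : ℂ), IsNL b L om :=
    ⟨_, _, _, R.nl R.i0⟩
  have hK₀ : ∀ y ∈ K₀, y ∈ RF (idl (A := A) (B := B) (lvX p f 0)) := fun y hy => hK y (hX.le hy)
  have hInR : ∀ n, 1 ≤ n → InRF er P p f n (K₀ ⊔ Bn n) := fun n hn =>
    hSUB p er A B P V f hS hT hNL K₀ hK₀ n (Bn n) hn (hX.b0.lay n)
  refine ⟨S, fun n => cW (hk n) (θ n), fun n => cW (hk₀ n) (θ n), 0, hW, fun χ om hom => ?_⟩
  refine hI p er A B P V f hS hT ι R u e lam hG K₀ K Bn hX hK₀ hk hk₀ hkK S _ _ 0 hW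
    (fun n τ => cWt (hk₀ n) (θ n) τ) (fun n hn => ?_) (fun n hn => ?_) χ om hom
  · exact eInpO hME hCX hEF hS hT hLV R hG hth n hn (K₀ ⊔ Bn n) (hk₀ n) (hInR n hn)
  · have hb : (idl (A := A) (B := B) (lvX p f n)) ≠ ⊥ := idl_ne_bot (hLV p A B f hL n).1
    exact (hME A B _ (hT.fin _ hb) (hT.gal _ hb) (hT.comm _ hb) _ (hk₀ n) (hInR n hn).1 (θ n)
      (hth.ne n)).1

end

end Pool.Agent.OBZ


end
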