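import Pool.Agent.MVF.C057
import Pool.Agent.MVF.C071
import Pool.Agent.MVF.C078
import Pool.Agent.MVF.C080
import Pool.Agent.MVF.C110
import Pool.Agent.MVF.C117
import Pool.Agent.MVF.C137
import Pool.Agent.OBM.C01
import Pool.Agent.OBM.C02
import Pool.Agent.OBM.C18
import Pool.Agent.OBM.C21

/-! Parts: OB.KAll, OB.QAll -/

section

/-!
# OB, block K for one character, assembled
-/

set_option autoImplicit false

namespace Pool.Agent.OB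

open _root_.Pool.Agent.MUXK _root_.Pool.Agent.NSI

theorem o_KOLO : S_KOLO := t_KOLO k_KINX k_KNM k_GALX k_RAMX
theorem o_SU0O : S_SU0O := t_SU0O
theorem o_NR1 : Sn_NR1 := tn_NR1 k_GALX k_GENX k_LFX
theorem o_NRX : Sn_NRX := tn_NRX o_NR1 k_RSX
theorem o_LEM1 : Sn_LEM1 := tn_LEM1 k_GALX k_RSX
theorem o_I3O : S_I3O := t_I3O k_RSX o_NRX k_TNX k_NCP k_GALX
theorem o_NILO : S_NILO := t_NILO k_STABX k_THDX k_NRJ k_NIX k_NILXX
theorem o_MAINO : S_MAINO :=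
  t_MAINO k_GALX k_TWX k_LFX k_M0X k_RAMX o_KOLO o_SU0O o_I3O o_NILO k_RSX
theorem o_BNDO : S_BNDO := t_BNDO o_MAINO k_GENX k_GALX
theorem o_PIG : S_PIG := t_PIG o_LEM1 o_NRX
theorem o_CNJ : S_CNJ := t_CNJ

end Pool.Agent.OB


end

section

/-!
# OB, corollary for `p = 5`, assembled
-/

set_option autoImplicit false

namespace Pool.Agent.OB

open _root_.Pool.Agent.MUXK _root_.Pool.Agent.NSI

theorem q_CHS : Sq_CHS := o_CHS
theorem q_SBF : Sq_SBF := tq_SBF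
theorem q_REG : Sq_REG := tq_REG q_CHS
theorem q_CY5 : Sq_CY5 := tq_CY5
theorem q_RAT : Sq_RAT := tq_RAT q_REG q_CY5 q_SBF
theorem q_BAX : Sq_BAX := tq_BAX
theorem q_DSC : Sq_DSC := tq_DSC k_GALX k_GENX k_TWX k_LFX k_RSX k_EIGX k_FINX
theorem q_OCC : Sq_OCC := tq_OCC q_RAT q_BAX k_RSX k_GALX
theorem q_QFT : Sq_QFT := tq_QFT
theorem q_QRT (h : O_NIL) : Sq_QRT :=
  tq_QRT h q_BAX q_DSC q_OCC o_CNJ _root_.Pool.Agent.MUXU.u_AUE
theorem q_BD (h : O_NIL) : Sq_BD :=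
  tq_BD (q_QRT h) q_QFT (_root_.Pool.Agent.MUXJ.t_SUB (_root_.Pool.Agent.MUXJ.t_DWN k_NIX))

end Pool.Agent.OB


end
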