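import Pool.Agent.OBM.C01
import Pool.Agent.OBM.C02
import Pool.Agent.OBM.C03
import Pool.Agent.OBM.C21
import Pool.Agent.OBM.C22

/-! Parts: OB.J_MAIN, OB.J_NIL -/

section

/-!
# OB, block J: the one-branch theorem for the fields `kk A B` (helper19)
-/

set_option autoImplicit false

open NumberField IsDedekindDomain

namespace Pool.Agent.OB

open _root_.MU3 Pool.Agent.MU3 Pool.Agent.MU3A Pool.Agent.MU3B Pool.Agent.RI Pool.Agent.RID
  Pool.Agent.MUX Pool.Agent.MUXK Pool.Agent.MUXE Pool.Agent.MUXJ Pool.Agent.MUXZ Pool.Agent.NSI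
open Pool.Agent.OBI (IsOm brO)
open Pool.Agent.OBZ (InpGO)

noncomputable section

/-- the one-branch theorem for the abelian extension `K₀` of `k = kk A B`, of degree prime to `p`, with the `p`-th roots of
unity, and the layers `Bn` -/
def O_MAIN : Prop :=
  ∀ (p : ℕ) [Fact p.Prime], 5 ≤ p → ∀ (A B : ℤ), CQ A B → absD A B ≠ 3 → absD A B ≠ 4 →
    ∀ (K₀ : IntermediateField ℚ ℂ) [FiniteDimensional ℚ K₀] (hk : kk A B ≤ K₀),
    IsGalois (kk A B) (IntermediateField.extendScalars hk) →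
    (∀ σ τ : (IntermediateField.extendScalars hk) ≃ₐ[kk A B]
      (IntermediateField.extendScalars hk), σ * τ = τ * σ) →
    ¬ p ∣ Module.finrank (kk A B) (IntermediateField.extendScalars hk) →
    (∃ ω ∈ K₀, IsPrimitiveRoot ω p) →
    ∀ (Bn : ℕ → IntermediateField ℚ ℂ) [∀ n, FiniteDimensional ℚ ↥(K₀ ⊔ Bn n)],
    (∀ n, IsLayer p n (Bn n)) → Monotone Bn → ∀ (hk₀ : ∀ n, kk A B ≤ K₀ ⊔ Bn n)
    (χ om : (letI := algC hk; (↥K₀ ≃ₐ[kk A B] ↥K₀) →* (AlgebraicClosure (ZMod p))ˣ)),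
    IsOm (AlgebraicClosure (ZMod p)) p hk om →
    ∃ j, j < p - 1 ∧ Even j ∧
      (∃ l : ℕ, NilC (AlgebraicClosure (ZMod p)) (kk A B) K₀ Bn hk₀ hk (brO hk χ om j) l) ∧
      ∃ C : ℕ, ∀ n : ℕ,
        Module.Finite (AlgebraicClosure (ZMod p))
          (EigS (AlgebraicClosure (ZMod p)) (kk A B) K₀ Bn n (hk₀ n) hk (brO hk χ om j)) ∧
        Module.finrank (AlgebraicClosure (ZMod p))
          (EigS (AlgebraicClosure (ZMod p)) (kk A B) K₀ Bn n (hk₀ n) hk (brO hk χ om j)) ≤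
          C * (n + 1)

/-- the field `K` and the inputs of block K -/
theorem o_main (hRF : O_RFIN)
    (hIN : ∀ (p er : ℕ) (A B : ℤ) (P : Ideal (OO A B)) (V : ValuationSubring ℂ),
      CaseO p er A B P V → TorX A B → InpGO p A B V) : O_MAIN := by
  intro p hpf h5 A B hCQ hd3 hd4 K₀ _ hk hG hc hcop hom Bn _ hlay hmono hk₀ χ om hIs
  have hp : p.Prime := hpf.out
  obtain ⟨er, P, V, hC⟩ := t_VEXO p A B hCQ hd3 hd4 hp h5
  obtain ⟨d, hd0, hpd, hd⟩ := t_DO hC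
  have hTor := MUXC.c_TOR A B hCQ
  have hNL : NLex A B := by
    obtain ⟨L, w, hL⟩ := MUXY.z_NLE A B hCQ hd3 hd4 ⊤ (by
      have := (MUXE.te_RNG A B hCQ).ded
      exact bot_ne_top.symm)
    exact ⟨⊤, L, w, hL⟩
  have hU : UnrH A B V := t_UNHO hRF hC hTor
  have hTU : TorU A B K₀ :=
    JT.tj_JTR (JT.tj_JTC (JT.tj_JTA Pool.Agent.HB.h_JT1) JT.tj_PHJ (JT.tj_FRJ JT.tj_FRQ)) A B hCQ hTor hNL K₀ hk hG hc
  obtain ⟨K, hKfd, f, hSX, hf0, hpf', hdf, hKR, hHK⟩ :=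
    t_SETO p er A B P V hC d hd0 hpd hU hTor hNL K₀ hk hcop hTU hom Bn hlay hmono
  have hS := hd f hf0 hpf' hdf
  have hfk : FiniteDimensional ℚ (kk A B) :=
    Module.Finite.of_injective (IntermediateField.inclusion hk).toLinearMap
      (IntermediateField.inclusion hk).injective
  have hfB : ∀ n, FiniteDimensional ℚ ↥(K ⊔ Bn n) := fun n => by
    obtain ⟨h1, -, -⟩ := LAY_thm p n (Bn n) (hlay n)
    exact IntermediateField.finiteDimensional_sup K (Bn n)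
  have hkn : ∀ n, kk A B ≤ K ⊔ Bn n := fun n => (hk.trans hSX.le).trans le_sup_left
  obtain ⟨S, c, c₀, n₁, hW, hI⟩ := hIN p er A B P V hC hTor f hS.f0 hS.fp hS.f12 hS.fD K₀ K Bn
    hSX hKR hHK hkn hk₀ hk
  obtain ⟨hchar, halg⟩ := t_RES p V (caseO_hp hC)
  obtain ⟨io⟩ := ex_io p (IsLocalRing.ResidueField V)
  obtain ⟨j, hj, hje, hI3⟩ := hI (mpO io hk χ) (mpO io hk om) (isOm_mp io p hk om hIs)
  have hI3C : I3C (AlgebraicClosure (ZMod p)) p (kk A B) K₀ Bn hk₀ hk c₀ hW.mem₀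
      (brO hk χ om j) := by
    intro N n₀
    obtain ⟨n, hn, h⟩ := hI3 N n₀
    refine ⟨n, hn, I3At_mp io p (kk A B) K₀ Bn hk (brO hk χ om j) N n (hk₀ n) (c₀ n)
      (hW.mem₀ n) ?_⟩
    rw [mpO_br]
    exact h
  exact ⟨j, hj, hje,
    o_MAINO (AlgebraicClosure (ZMod p)) p (kk A B) K₀ K Bn hSX hkn hk₀ hk S c c₀ n₁ hW
      (brO hk χ om j) hI3C,
    o_BNDO (AlgebraicClosure (ZMod p)) p (kk A B) K₀ K Bn hSX hkn hk₀ hk S c c₀ n₁ hW
      (brO hk χ om j) hI3C⟩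

end

end Pool.Agent.OB


end

section

/-!
# OB, block J: the one-branch theorem for all imaginary quadratic fields except `ℚ(i)`, `ℚ(√-3)` (helper19)

`O_NB` is `O_NIL` (`OB/StQ.lean`) together with the bound for the dimension of the space of the eigenfunctionals.
-/

set_option autoImplicit false

open NumberField IsDedekindDomain

namespace Pool.Agent.OB

open _root_.MU3 Pool.Agent.MU3 Pool.Agent.MU3A Pool.Agent.MU3B Pool.Agent.RI Pool.Agent.RID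
  Pool.Agent.MUX Pool.Agent.MUXK Pool.Agent.MUXE Pool.Agent.MUXJ Pool.Agent.MUXZ Pool.Agent.NSI
open Pool.Agent.OBI (IsOm brO)

noncomputable section

/-- THE ONE BRANCH THEOREM: nilpotency and the linear bound. -/
def O_NB : Prop := ∀ (p : ℕ) [Fact p.Prime], 5 ≤ p →
    ∀ (k K₀ : IntermediateField ℚ ℂ) (B : ℕ → IntermediateField ℚ ℂ) [FiniteDimensional ℚ k]
    [FiniteDimensional ℚ K₀] [∀ n, FiniteDimensional ℚ ↥(K₀ ⊔ B n)] (hB : BasX p k K₀ B)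
    (hk₀ : ∀ n, k ≤ K₀ ⊔ B n) (hkK : k ≤ K₀), Module.finrank ℚ k = 2 →
    (∃ z ∈ k, (starRingEnd ℂ) z ≠ z) → (∀ z ∈ k, z ^ 2 ≠ -1) → (∀ z ∈ k, z ^ 2 ≠ -3) →
    ¬ p ∣ Module.finrank k (IntermediateField.extendScalars hB.hk) →
    (∃ ω ∈ K₀, IsPrimitiveRoot ω p) →
    ∀ χ : (letI := algC hkK; (↥K₀ ≃ₐ[k] ↥K₀) →* (AlgebraicClosure (ZMod p))ˣ),
    ∃ (j : ℕ) (χ' : (letI := algC hkK; (↥K₀ ≃ₐ[k] ↥K₀) →* (AlgebraicClosure (ZMod p))ˣ)),
      j < p - 1 ∧ Even j ∧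
      (letI := algC hkK
        ∀ (s : ↥K₀ ≃ₐ[k] ↥K₀) (c : ℕ), (∀ z : ↥K₀, z ^ p = 1 → s z = z ^ c) →
        ((χ' s : (AlgebraicClosure (ZMod p))ˣ) : AlgebraicClosure (ZMod p)) =
          χ s * (c : AlgebraicClosure (ZMod p)) ^ j) ∧
      (∃ l : ℕ, NilC (AlgebraicClosure (ZMod p)) k K₀ B hk₀ hkK χ' l) ∧
      ∃ C : ℕ, ∀ n : ℕ,
        Module.Finite (AlgebraicClosure (ZMod p))
          (EigS (AlgebraicClosure (ZMod p)) k K₀ B n (hk₀ n) hkK χ') ∧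
        Module.finrank (AlgebraicClosure (ZMod p))
          (EigS (AlgebraicClosure (ZMod p)) k K₀ B n (hk₀ n) hkK χ') ≤ C * (n + 1)

theorem o_nb (hM : O_MAIN) (hOM : OBI.Oi_OME) : O_NB := by
  intro p hpf h5 k K₀ B _ _ _ hB hk₀ hkK h2 hi h4 h3 hcop hom χ
  obtain ⟨d, hd, rfl, -⟩ := JT.tj_JQF k h2 hi
  have hd1 : d ≠ 1 := by
    rintro rfl
    exact h4 _ JT.kk_one Complex.I_sq
  have hd3 : d ≠ 3 := by
    rintro rfl
    obtain ⟨z, hz, hz3⟩ := JT.kk_three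
    exact h3 z hz hz3
  have hCQ : MUX.CQ (MUXZ.pA d) (MUXZ.pB d) := MUXZ.cq_p hd
  have ha3 : absD (MUXZ.pA d) (MUXZ.pB d) ≠ 3 := by
    rw [MUXZ.absD_p]
    split_ifs <;> omega
  have ha4 : absD (MUXZ.pA d) (MUXZ.pB d) ≠ 4 := by
    rw [MUXZ.absD_p]
    split_ifs <;> omega
  obtain ⟨om, hIs⟩ := hOM (AlgebraicClosure (ZMod p)) p (kk (MUXZ.pA d) (MUXZ.pB d)) K₀ hkK hom
  obtain ⟨j, hj, hje, hnil, hbd⟩ := hM p h5 (MUXZ.pA d) (MUXZ.pB d) hCQ ha3 ha4 K₀ hkK hB.gal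
    hB.ab hcop hom B hB.lay hB.mono hk₀ χ om hIs
  refine ⟨j, brO hkK χ om j, hj, hje, ?_, hnil, hbd⟩
  let _ := algC hkK
  intro s c hs
  obtain ⟨ω, hω, hωp⟩ := hom
  have h1 : ((om s : (AlgebraicClosure (ZMod p))ˣ) : AlgebraicClosure (ZMod p)) = c := by
    have hz : (⟨ω, hω⟩ : K₀) ^ p = 1 := Subtype.ext hωp.pow_eq_one
    refine hIs s ⟨ω, hω⟩ c hz ?_ (hs _ hz)
    intro h
    have h7 : ω = 1 := congrArg Subtype.val h
    have h8 := hωp.eq_orderOf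
    rw [h7, orderOf_one] at h8
    omega
  show ((((χ * om ^ j) s : (AlgebraicClosure (ZMod p))ˣ)) : AlgebraicClosure (ZMod p)) = _
  rw [MonoidHom.mul_apply, MonoidHom.pow_apply, Units.val_mul, Units.val_pow_eq_pow_val, h1]

theorem o_nil (h : O_NB) : O_NIL := by
  intro p hpf h5 k K₀ B _ _ _ hB hk₀ hkK h2 hi h4 h3 hcop hom χ
  obtain ⟨j, χ', h6, h7, h8, h9, -⟩ := h p h5 k K₀ B hB hk₀ hkK h2 hi h4 h3 hcop hom χ
  exact ⟨j, χ', h6, h7, h8, h9⟩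

end

end Pool.Agent.OB


end
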