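import Pool.Agent.OBM.C17
import Pool.Agent.OBM.C24

/-! Parts: OB.OAll -/

section

/-!
# OB: the one-branch theorem without hypotheses (helper19)
-/

set_option autoImplicit false

namespace Pool.Agent.OB

/-- THE ONE BRANCH THEOREM -/
theorem nb : O_NB := fin_NB OBR.o_RFIN (OBE.o_EFIN OBR.o_RFIN) (OBT.x_TYF OBR.o_RFIN) OBG.x_GPT

theorem nil : O_NIL := o_nil nb

end Pool.Agent.OB


end
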