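import Pool.Agent.MVF.C028
import Pool.Agent.MVF.C057
import Pool.Agent.MVF.C059
import Pool.Agent.MVF.C061
import Pool.Agent.MVF.C073
import Pool.Agent.MVF.C098
import Pool.Agent.MVF.C104
import Pool.Agent.MVF.C105
import Pool.Agent.MVF.C110
import Pool.Agent.MVF.C115
import Pool.Agent.MVF.C122
import Pool.Agent.MVF.C212
import Pool.Agent.MVF.C213

/-! Parts: VB.V_BND, VB.V_GRO, VB.V_NRM, VB.VAll -/

section

/-!
# BND: the elements which are invariant under `γ^(p^j)` modulo `p`-th powers (helper28)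
-/

set_option autoImplicit false

namespace Pool.Agent.VB

open Pool.Agent.RI

namespace BND

/-- a field of the tower contains the `p`-th roots of unity -/
lemma zeta_mem {p : ℕ} {F L : IntermediateField ℚ ℂ} (h : ∃ ζ ∈ F, IsPrimitiveRoot ζ p)
    (hL : F ≤ L) : ∃ ζ ∈ L, IsPrimitiveRoot ζ p := by
  obtain ⟨ζ, hζ, h1⟩ := h
  exact ⟨ζ, hL hζ, h1⟩

lemma pl_mono {p : ℕ} {L L' : IntermediateField ℚ ℂ} (h : L ≤ L') : PL p L ≤ PL p L' := by
  rintro x ⟨t, ht, rfl⟩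
  exact ⟨t, h ht, rfl⟩

/-- descent of one element -/
lemma descend (hKDX : Sb_KDX) (hVD2 : Sb_VD2) (hDGR : Sb_DGR) (hLIM : Sb_LIM) {p : ℕ}
    [Fact p.Prime] {F : IntermediateField ℚ ℂ} {B : ℕ → IntermediateField ℚ ℂ} {n₁ : ℕ}
    {γ : ℂ ≃+* ℂ} (hT : Tow p F B n₁ γ) (j : ℕ) (x : ℂˣ)
    (h1 : ∃ m : ℕ, InD p (F ⊔ B (n₁ + m)) (x : ℂ))
    (h2 : ∃ w ∈ Finf F B, (γ ^ p ^ j) (x : ℂ) = (x : ℂ) * w ^ p) :
    ∃ x₀ : ℂˣ, InD p (F ⊔ B (n₁ + (j + 1))) (x₀ : ℂ) ∧ x / x₀ ∈ PL p (Finf F B) := by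
  have hle : ∀ {a b : ℕ}, a ≤ b → F ⊔ B a ≤ F ⊔ B b := fun h => sup_le_sup_left (hT.mono h) F
  obtain ⟨m₁, hm₁⟩ := h1
  obtain ⟨w, hw, hγ⟩ := h2
  obtain ⟨n, hn⟩ := (hLIM F B hT.mono).1 w hw
  obtain ⟨m, hm1, hm2, hm3⟩ : ∃ m : ℕ, j ≤ m ∧ m₁ ≤ m ∧ n ≤ m :=
    ⟨max j (max m₁ n), le_max_left _ _, (le_max_left _ _).trans (le_max_right _ _),
      (le_max_right _ _).trans (le_max_right _ _)⟩
  have := hT.fd (n₁ + m₁)
  have := hT.fd (n₁ + (m + 1))
  have hxm : (x : ℂ) ∈ F ⊔ B (n₁ + m) := hle (by omega) hm₁.1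
  have hwm : w ∈ F ⊔ B (n₁ + m) := hle (by omega) hn
  obtain ⟨x', hx', u, hu, hu0, hxu⟩ :=
    hKDX p F B n₁ γ hT j m (x : ℂ) w hm1 hxm x.ne_zero hwm hγ
  have hx'0 : x' ≠ 0 := by
    rintro rfl
    rw [zero_mul] at hxu
    exact x.ne_zero hxu
  have hD := hDGR p (F ⊔ B (n₁ + m₁)) (zeta_mem hT.zeta le_sup_left)
  have hD' := hDGR p (F ⊔ B (n₁ + (m + 1))) (zeta_mem hT.zeta le_sup_left)
  have h3 : InD p (F ⊔ B (n₁ + (m + 1))) (x : ℂ) := hD.2.2.2.1 _ (hle (by omega)) _ hm₁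
  have h4 : InD p (F ⊔ B (n₁ + (m + 1))) (u⁻¹ ^ p) := hD'.1 _ (inv_mem hu) (inv_ne_zero hu0)
  have h5 : InD p (F ⊔ B (n₁ + (m + 1))) x' := by
    have h6 := hD'.2.1 _ _ h3 h4
    have h7 : (x : ℂ) * u⁻¹ ^ p = x' := by
      rw [hxu, mul_assoc, ← mul_pow, mul_inv_cancel₀ hu0, one_pow, mul_one]
    rwa [h7] at h6
  refine ⟨Units.mk0 x' hx'0, ⟨hle (by omega) hx', hx'0, ?_⟩, Units.mk0 u hu0,
    le_Finf F B (n₁ + (m + 1)) hu, ?_⟩
  · intro y hy V
    exact hVD2 p F B n₁ γ hT j (m + 1) x' y V hx' hx'0 hy (by omega) (h5.2.2 y hy V)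
  · rw [eq_div_iff_mul_eq']
    apply Units.ext
    rw [Units.val_mul, Units.val_pow_eq_pow_val, Units.val_mk0, Units.val_mk0]
    rw [mul_comm]
    exact hxu.symm

end BND

open _root_.Pool.Agent.VB.BND in
theorem tb_BND (hKDX : Sb_KDX) (hVD2 : Sb_VD2) (hDGR : Sb_DGR) (hCNT : Sb_CNT)
    (hLIM : Sb_LIM) : Sb_BND := by
  classical
  intro p _ F B n₁ γ hT hTC j T hT1 hT2
  have h1 : ∀ x : T, ∃ x₀ : ℂˣ, InD p (F ⊔ B (n₁ + (j + 1))) (x₀ : ℂ) ∧
      (x : ℂˣ) / x₀ ∈ PL p (Finf F B) := fun x =>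
    descend hKDX hVD2 hDGR hLIM hT j x (hT1 x x.2).1 (hT1 x x.2).2
  choose f hf1 hf2 using h1
  have key : ∀ x x' : T, f x / f x' ∈ PL p (Finf F B) → x = x' := by
    intro x x' h
    by_contra hne
    have hne' : (x : ℂˣ) ≠ x' := fun h' => hne (Subtype.ext h')
    apply hT2 x x.2 x' x'.2 hne'
    have h3 : (x : ℂˣ) / x' = ((x : ℂˣ) / f x) * (f x / f x') * ((x' : ℂˣ) / f x')⁻¹ := by
      rw [inv_div, div_mul_div_cancel, div_mul_div_cancel]
    rw [h3]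
    exact mul_mem (mul_mem (hf2 x) h) (inv_mem (hf2 x'))
  have hinj : Function.Injective f := by
    intro x x' h
    apply key
    rw [h, div_self']
    exact one_mem _
  have := hT.fd (n₁ + (j + 1))
  have h4 := hCNT p (F ⊔ B (n₁ + (j + 1))) (tcx_mono le_sup_left hTC)
    (zeta_mem hT.zeta le_sup_left) (Finset.univ.image f) ?_ ?_
  · rwa [Finset.card_image_of_injective _ hinj, Finset.card_univ, Fintype.card_coe] at h4
  · intro z hz
    obtain ⟨x, -, rfl⟩ := Finset.mem_image.1 hz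
    exact hf1 x
  · intro z hz z' hz' hne h5
    obtain ⟨x, -, rfl⟩ := Finset.mem_image.1 hz
    obtain ⟨x', -, rfl⟩ := Finset.mem_image.1 hz'
    exact hne (congrArg f (key x x' (pl_mono (le_Finf F B _) h5)))

end Pool.Agent.VB


end

section

/-!
# VB: growth (module VB_GRO, helper12)
-/

set_option autoImplicit false

open Filter Topology

namespace Pool.Agent.VB

private lemma gro_tend (p C n₁ : ℕ) (hp : 2 ≤ p) :
    Tendsto (fun j : ℕ => ((p : ℝ) * (C * ((n₁ : ℝ) + j + 2) ^ C + 1)) / (p : ℝ) ^ j) atTop (𝓝 0) := by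
  have hp1 : (1 : ℝ) < (p : ℝ) := by exact_mod_cast (by omega : 1 < p)
  have hp0 : (0 : ℝ) < (p : ℝ) := by linarith
  have h1 := (tendsto_pow_const_div_const_pow_of_one_lt C hp1).comp
    (tendsto_add_atTop_nat (n₁ + 2))
  have h2 := (tendsto_pow_const_div_const_pow_of_one_lt 0 hp1)
  have h3 := ((h1.const_mul ((p : ℝ) * C * (p : ℝ) ^ (n₁ + 2))).add (h2.const_mul (p : ℝ)))
  simp only [mul_zero, add_zero] at h3
  refine h3.congr fun j => ?_
  simp only [Function.comp]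
  have hpj : (p : ℝ) ^ j ≠ 0 := pow_ne_zero _ hp0.ne'
  have hpn : (p : ℝ) ^ (n₁ + 2) ≠ 0 := pow_ne_zero _ hp0.ne'
  have e : (p : ℝ) ^ (j + (n₁ + 2)) = (p : ℝ) ^ j * (p : ℝ) ^ (n₁ + 2) := pow_add _ _ _
  rw [e]
  push_cast
  field_simp
  ring

theorem tb_GRO : Sb_GRO := by
  intro p C n₁ hp
  have hp2 := hp.two_le
  have hp0 : (0 : ℝ) < (p : ℝ) := by exact_mod_cast hp.pos
  obtain ⟨j, hj⟩ := ((gro_tend p C n₁ hp2).eventually_lt_const (by norm_num : (0 : ℝ) < 1)).exists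
  refine ⟨j, ?_⟩
  have hj2 : p * (C * (n₁ + j + 2) ^ C + 1) < p ^ j := by
    rw [div_lt_one (pow_pos hp0 j)] at hj
    exact_mod_cast hj
  calc p ^ (C * (n₁ + j + 2) ^ C + 1)
      ≤ (2 ^ p) ^ (C * (n₁ + j + 2) ^ C + 1) :=
        Nat.pow_le_pow_left (Nat.lt_two_pow_self).le _
    _ = 2 ^ (p * (C * (n₁ + j + 2) ^ C + 1)) := by rw [← pow_mul]
    _ < 2 ^ (p ^ j) := Nat.pow_lt_pow_right (by norm_num) hj2

end Pool.Agent.VB


end

section

set_option autoImplicit false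

namespace Pool.Agent.VB

namespace NRMa

open Polynomial IntermediateField

/-- elements of an algebraic subfield are algebraic numbers -/
lemma alg_Q {M : IntermediateField ℚ ℂ} (hM : Algebra.IsAlgebraic ℚ M) {x : ℂ} (hx : x ∈ M) :
    IsAlgebraic ℚ x := by
  obtain ⟨p, hp, hpx⟩ := hM.isAlgebraic (⟨x, hx⟩ : M)
  refine ⟨p, hp, ?_⟩
  have h1 := congrArg (algebraMap M ℂ) hpx
  rw [Polynomial.aeval_def, Polynomial.hom_eval₂, map_zero] at h1
  rw [Polynomial.aeval_def]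
  have h2 : (algebraMap M ℂ).comp (algebraMap ℚ M) = algebraMap ℚ ℂ := Subsingleton.elim _ _
  rw [h2] at h1
  exact h1

/-- a subextension of an algebraic extension (as sets) is algebraic -/
lemma alg_of_le {M F : IntermediateField ℚ ℂ} (hM : Algebra.IsAlgebraic ℚ M) (h : F ≤ M) :
    Algebra.IsAlgebraic ℚ F := by
  refine ⟨fun y => ?_⟩
  obtain ⟨p, hp, hpx⟩ := alg_Q hM (h y.2)
  refine ⟨p, hp, ?_⟩
  apply (algebraMap F ℂ).injective
  rw [Polynomial.aeval_def, Polynomial.hom_eval₂, map_zero]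
  rw [Polynomial.aeval_def] at hpx
  have h2 : (algebraMap F ℂ).comp (algebraMap ℚ F) = algebraMap ℚ ℂ := Subsingleton.elim _ _
  rw [h2]
  exact hpx

/-- an element of `M` is algebraic over `L` -/
lemma alg_elt {M : IntermediateField ℚ ℂ} (hM : Algebra.IsAlgebraic ℚ M)
    (L : IntermediateField ℚ ℂ) {x : ℂ} (hx : x ∈ M) : IsAlgebraic L x :=
  IsAlgebraic.tower_top (K := ℚ) L (alg_Q hM hx)

/-- conjugates come from automorphisms -/
lemma conj_aut {L M : IntermediateField ℚ ℂ} (hM : Algebra.IsAlgebraic ℚ M) (h : L ≤ M)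
    {x z : ℂ} (hx : x ∈ M) (hz : z ∈ (minpoly L x).rootSet ℂ) :
    ∃ σ : ℂ ≃+* ℂ, Fixes L σ ∧ σ x = z := by
  have hint : IsIntegral L x := (alg_elt hM L hx).isIntegral
  have hz' : z ∈ (minpoly L x).aroots ℂ := by
    rw [Polynomial.rootSet_def] at hz
    exact Multiset.mem_toFinset.1 (by simpa using hz)
  let f : L⟮x⟯ →ₐ[L] ℂ := (IntermediateField.algHomAdjoinIntegralEquiv L hint).symm ⟨z, hz'⟩
  have hf : f (IntermediateField.AdjoinSimple.gen L x) = z :=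
    IntermediateField.algHomAdjoinIntegralEquiv_symm_apply_gen L hint ⟨z, hz'⟩
  let F : IntermediateField ℚ ℂ := IntermediateField.restrictScalars ℚ L⟮x⟯
  have hFM : F ≤ M := by
    intro y hy
    have h1 : L⟮x⟯ ≤ IntermediateField.extendScalars h := by
      rw [IntermediateField.adjoin_le_iff]
      intro t ht
      rw [Set.mem_singleton_iff] at ht
      subst ht
      exact hx
    exact h1 hy
  obtain ⟨σ, hσ⟩ := Pool.Agent.MUXU.u_AUE F (alg_of_le hM hFM) (f : L⟮x⟯ →+* ℂ)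
  refine ⟨σ, fun y hy => ?_, ?_⟩
  · have h1 := hσ (⟨y, (algebraMap L L⟮x⟯ ⟨y, hy⟩).2⟩ : L⟮x⟯)
    have h2 : f (algebraMap L L⟮x⟯ ⟨y, hy⟩) = y := f.commutes _
    exact h1.trans h2
  · have h1 := hσ (IntermediateField.AdjoinSimple.gen L x)
    exact h1.trans hf

end NRMa

open _root_.Pool.Agent.VB.NRMa in
theorem tb_NRM : Sb_NRM := by
  intro L M hM h
  constructor
  · intro hG σ hσ x hx
    have : Normal L (IntermediateField.extendScalars h) := hG.to_normal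
    let f : (IntermediateField.extendScalars h) →ₐ[L] ℂ :=
      { toRingHom := (σ : ℂ →+* ℂ).comp (algebraMap (IntermediateField.extendScalars h) ℂ)
        commutes' := fun r => hσ r r.2 }
    have hr : f.fieldRange = IntermediateField.extendScalars h := AlgHom.fieldRange_of_normal f
    have h1 : f ⟨x, hx⟩ ∈ f.fieldRange := ⟨⟨x, hx⟩, rfl⟩
    rw [hr] at h1
    exact h1
  · intro hN
    have halg : Algebra.IsAlgebraic L (IntermediateField.extendScalars h) := by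
      refine ⟨fun y => ?_⟩
      rw [IntermediateField.isAlgebraic_iff]
      exact alg_elt hM L (show (y : ℂ) ∈ M from y.2)
    have hnor : Normal L (IntermediateField.extendScalars h) := by
      refine { toIsAlgebraic := halg, splits' := fun x => ?_ }
      have hmp : minpoly L x = minpoly L (x : ℂ) := by
        have := minpoly.algebraMap_eq (A := L)
          (algebraMap (IntermediateField.extendScalars h) ℂ).injective x
        exact this.symm
      refine IntermediateField.splits_of_splits (IsAlgClosed.splits _) ?_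
      intro z hz
      rw [hmp] at hz
      obtain ⟨σ, hσ, hσx⟩ := conj_aut hM h (show (x : ℂ) ∈ M from x.2) hz
      have h1 := hN σ hσ x x.2
      rw [hσx] at h1
      exact h1
    have := halg
    have : Algebra.IsSeparable L (IntermediateField.extendScalars h) := inferInstance
    exact isGalois_iff.2 ⟨inferInstance, hnor⟩

end Pool.Agent.VB


end

section

/-!
# VB: all statements (helper51)

`Sb_FQI` is the first inequality for unramified cyclic extensions (block HB).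
-/

set_option autoImplicit false

namespace Pool.Agent.VB

theorem v_FQI : Sb_FQI := Pool.Agent.HB.h_FIQ

theorem v_FRC : Sb_FRC := tb_FRC

theorem v_CRD : Sb_CRD := tb_CRD

theorem v_NRM : Sb_NRM := tb_NRM

theorem v_CIR : Sb_CIR := tb_CIR v_FRC v_NRM

theorem v_MUL : Sb_MUL := tb_MUL v_CRD v_CIR

theorem v_UNR : Sb_UNR := tb_UNR v_CIR v_CRD

theorem v_CYQ : Sb_CYQ := tb_CYQ v_FRC v_MUL

theorem v_DEG : Sb_DEG := tb_DEG

theorem v_GAM : Sb_GAM := tb_GAM v_CRD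

theorem v_TOT : Sb_TOT := tb_TOT v_MUL v_CRD v_CYQ

theorem v_TOW : Sb_TOW := tb_TOW v_DEG v_GAM v_TOT v_CYQ

theorem v_LIM : Sb_LIM := tb_LIM

theorem v_DGR : Sb_DGR := tb_DGR v_MUL

theorem v_VD2 : Sb_VD2 := tb_VD2 v_MUL v_CRD

theorem v_VD1 : Sb_VD1 := tb_VD1 v_VD2 v_LIM

theorem v_KUF : Sb_KUF := tb_KUF

theorem v_KDX : Sb_KDX := tb_KDX

theorem v_KFI : Sb_KFI := tb_KFI

theorem v_ABS : Sb_ABS := tb_ABS

theorem v_CGP : Sb_CGP := tb_CGP

theorem v_GRO : Sb_GRO := tb_GRO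

theorem v_IDX : Sb_IDX := tb_IDX

theorem v_DLB : Sb_DLB := tb_DLB

theorem v_UIX : Sb_UIX := tb_UIX v_IDX v_DLB

theorem v_SPN : Sb_SPN := tb_SPN

theorem v_INA : Sb_INA := tb_INA v_IDX v_DLB v_SPN

theorem v_FQC : Sb_FQC := tb_FQC v_FQI v_UIX v_UNR v_NRM v_CRD

theorem v_INJ : Sb_INJ := tb_INJ v_INA v_UNR v_NRM v_CRD

theorem v_CNT : Sb_CNT := tb_CNT v_FQC v_INJ v_CGP v_KFI v_CRD

theorem v_BND : Sb_BND := tb_BND v_KDX v_VD2 v_DGR v_CNT v_LIM

theorem v_FNP : Sb_FNP := tb_FNP v_TOW v_LIM v_DGR v_BND v_ABS v_GRO v_VD1 v_KUF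

theorem v_RED : Sb_RED := tb_RED v_NRM

theorem v_TCQ : Sb_TCQ := tb_TCQ

end Pool.Agent.VB


end
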