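import Pool.Agent.MVF.C110
import Pool.Agent.OBM.C19
import Pool.Agent.OBM.C22
import Pool.Agent.OBM.C25
import Pool.Agent.OBM.C27
import Pool.Agent.OBM.Defs

/-! Parts: OB.F_ROOT -/

section

/-!
# OB, FINAL (helper60): the root of the hand-in OneBranch
-/

set_option autoImplicit false

open NumberField

namespace Pool.Agent.OBF

open _root_.Pool.Agent.MuCyc

/-- The final statement. -/
theorem one_branch :
    (∀ (p : ℕ) [Fact p.Prime], 5 ≤ p → ∀ (k K : IntermediateField ℚ ℂ) (h : k ≤ K),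
      ImQuad k → Abelian p h → (∃ ζ ∈ K, IsPrimitiveRoot ζ p) →
      (∀ χ : Chr p h,
        (∃ i < p - 1, Even i ∧ ∃ χ' : Chr p h, IsTwist p h χ χ' i ∧ MuZeroC p h χ') ∧
        ∃ j < p - 1, Odd j ∧ ∃ χ' : Chr p h, IsTwist p h χ χ' j ∧ MuZeroC p h χ') ∧
      2 * Module.finrank k (IntermediateField.extendScalars h) ≤
        (p - 1) * Nat.card {χ : Chr p h // MuZeroC p h χ}) ∧
    (∀ E : IntermediateField ℚ ℂ, Module.finrank ℚ E = 4 → (∃ w ∈ E, w ^ 2 = 5) →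
      (∃ φ : E →+* ℂ, ∀ x, (starRingEnd ℂ) (φ x) = φ x) →
      (∃ φ : E →+* ℂ, ∃ x, (starRingEnd ℂ) (φ x) ≠ φ x) →
      ∀ (F F' : IntermediateField ℚ ℂ)
        (h : E ⊔ IntermediateField.adjoin ℚ {z : ℂ | z ^ 5 = 1} ≤ F'),
        FiniteDimensional ℚ F' →
        IsGalois ↥(E ⊔ IntermediateField.adjoin ℚ {z : ℂ | z ^ 5 = 1})
          (IntermediateField.extendScalars h) →
        (∃ a : ℕ, Module.finrank ↥(E ⊔ IntermediateField.adjoin ℚ {z : ℂ | z ^ 5 = 1})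
          (IntermediateField.extendScalars h) = 5 ^ a) →
        F ≤ F' → MuZeroF 5 F) := by
  refine ⟨?_, ?_⟩
  · intro p _ hp k K h hk hK hz
    have := hK.fin
    obtain ⟨h1, h2⟩ := one_both tf_LAY _root_.Pool.Agent.OB.q_BAX _root_.Pool.Agent.OB.nil p hp k K
      h hK.gal hK.comm hk.deg hk.imag hk.no_i hk.no_w hK.prime_to hz
    refine ⟨fun χ => ?_, h2⟩
    obtain ⟨i, j, hi, hj, ei, oj, gi, gj⟩ := h1 χ
    exact ⟨⟨i, hi, ei, gi⟩, j, hj, oj, gj⟩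
  · intro E hE hw hr hc F F' h hf hG ha hFF
    obtain ⟨a, ha⟩ := ha
    exact quartic (_root_.Pool.Agent.OB.q_BD _root_.Pool.Agent.OB.nil) _root_.Pool.Agent.OB.q_CY5
      _root_.MU3.u_PEX tf_LAY
      (_root_.Pool.Agent.MUXJ.t_SUB (_root_.Pool.Agent.MUXJ.t_DWN _root_.Pool.Agent.MUXK.k_NIX))
      _root_.Pool.Agent.VB.v_FNP _root_.Pool.Agent.VB.v_RED E hE hw hr hc F F' h hG a ha hFF

end Pool.Agent.OBF


end
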